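import Mathlib

set_option autoImplicit false

namespace Pool.Agent.H8.Ana

open Set MeasureTheory Filter Topology

variable {X : Type*} [MetricSpace X] [MeasurableSpace X] [BorelSpace X]

theorem inner_range (μ : Measure X) [IsFiniteMeasure μ] (f : (ℕ → ℕ) → X) (hf : Continuous f)
    (c : ENNReal) (hc : c < μ (range f)) : ∃ K, IsCompact K ∧ K ⊆ range f ∧ c ≤ μ K := by
  have step : ∀ (n : ℕ) (T : Set (ℕ → ℕ)), c < μ (f '' T) →
      ∃ m : ℕ, c < μ (f '' (T ∩ {x | x n ≤ m})) := by
    intro n T hT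
    have hm : Monotone fun m : ℕ => f '' (T ∩ {x | x n ≤ m}) := fun a b hab =>
      image_mono (inter_subset_inter_right _ fun x (hx : x n ≤ a) => hx.trans hab)
    have hu : ⋃ m : ℕ, f '' (T ∩ {x | x n ≤ m}) = f '' T := by
      rw [← image_iUnion, ← inter_iUnion]
      congr 1
      refine inter_eq_left.2 fun x _ => mem_iUnion.2 ⟨x n, show x n ≤ x n from le_rfl⟩
    rw [← hu, hm.measure_iUnion] at hT
    exact lt_iSup_iff.1 hT
  choose g hg using step
  let T : ℕ → {T : Set (ℕ → ℕ) // c < μ (f '' T)} := fun n =>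
    Nat.rec ⟨univ, by rwa [image_univ]⟩ (fun n T => ⟨T.1 ∩ {x | x n ≤ g n T.1 T.2}, hg n T.1 T.2⟩) n
  let s : ℕ → ℕ := fun n => g n (T n).1 (T n).2
  have hT : ∀ n x, x ∈ (T n).1 ↔ ∀ i < n, x i ≤ s i := by
    intro n
    induction n with
    | zero => intro x; simp [T]
    | succ n ih =>
      intro x
      change x ∈ (T n).1 ∩ {x | x n ≤ s n} ↔ _
      rw [mem_inter_iff, ih, Nat.forall_lt_succ_right]
      rfl
  have hK : IsCompact (pi univ fun i => Iic (s i)) :=
    isCompact_univ_pi fun i => (finite_Iic _).isCompact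
  refine ⟨f '' pi univ fun i => Iic (s i), hK.image hf, image_subset_range _ _, ?_⟩
  have hanti : Antitone fun n => closure (f '' (T n).1) := fun a b hab =>
    closure_mono (image_mono fun x hx => (hT a x).2 fun i hi => (hT b x).1 hx i (hi.trans_le hab))
  have h1 : c ≤ μ (⋂ n, closure (f '' (T n).1)) := by
    rw [hanti.measure_iInter (fun n => isClosed_closure.measurableSet.nullMeasurableSet)
      ⟨0, measure_ne_top _ _⟩]
    exact le_iInf fun n => (T n).2.le.trans (measure_mono subset_closure)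
  refine h1.trans (measure_mono fun y hy => ?_)
  have hx : ∀ n : ℕ, ∃ x ∈ (T n).1, dist y (f x) < 1 / ((n : ℝ) + 1) := by
    intro n
    obtain ⟨_, ⟨x, hx, rfl⟩, h⟩ := Metric.mem_closure_iff.1 (mem_iInter.1 hy n) _
      (Nat.one_div_pos_of_nat (n := n))
    exact ⟨x, hx, h⟩
  choose x hx hxd using hx
  obtain ⟨z, hz, φ, hφ, hlim⟩ := hK.tendsto_subseq (x := fun n i => min (x n i) (s i))
    (fun n i _ => show min (x n i) (s i) ≤ s i from min_le_right _ _)
  refine ⟨z, hz, ?_⟩
  have h2 : Tendsto (fun n => x (φ n)) atTop (𝓝 z) := by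
    rw [tendsto_pi_nhds] at hlim ⊢
    intro i
    refine (hlim i).congr' ?_
    filter_upwards [eventually_gt_atTop i] with n hn
    exact min_eq_left ((hT _ _).1 (hx (φ n)) i (hn.trans_le (hφ.id_le n)))
  have h3 : Tendsto (fun n => f (x (φ n))) atTop (𝓝 y) := by
    rw [tendsto_iff_dist_tendsto_zero]
    refine squeeze_zero (fun _ => dist_nonneg) (fun n => ?_)
      (tendsto_one_div_add_atTop_nhds_zero_nat.comp hφ.tendsto_atTop)
    rw [dist_comm]; exact (hxd _).le
  exact tendsto_nhds_unique ((hf.tendsto z).comp h2) h3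

/-- Analytic sets are universally measurable. -/
theorem nullMeasurable (μ : Measure X) [IsFiniteMeasure μ] {A : Set X} (hA : AnalyticSet A) :
    NullMeasurableSet A μ := by
  rw [AnalyticSet] at hA
  rcases hA with rfl | ⟨f, hf, rfl⟩
  · exact nullMeasurableSet_empty
  by_cases h0 : μ (range f) = 0
  · exact NullMeasurableSet.of_null h0
  obtain ⟨u, -, hu, hlim⟩ := exists_seq_strictMono_tendsto' (pos_iff_ne_zero.2 h0)
  choose K hK hKs hKm using fun n => inner_range μ f hf (u n) (hu n).2
  have hB : MeasurableSet (⋃ n, K n) := MeasurableSet.iUnion fun n => (hK n).measurableSet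
  have hsub : (⋃ n, K n) ⊆ range f := iUnion_subset hKs
  have hm : μ (range f) ≤ μ (⋃ n, K n) :=
    le_of_tendsto' hlim fun n => (hKm n).trans (measure_mono (subset_iUnion K n))
  have h1 : (⋃ n, K n) =ᵐ[μ] toMeasurable μ (range f) :=
    ae_eq_of_subset_of_measure_ge (hsub.trans (subset_toMeasurable _ _))
      (by rwa [measure_toMeasurable]) hB.nullMeasurableSet (measure_ne_top _ _)
  refine hB.nullMeasurableSet.congr (EventuallyLE.antisymm hsub.eventuallyLE ?_)
  exact (subset_toMeasurable μ _).eventuallyLE.trans h1.symm.le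

/-- A subset of a finite-measure Borel set with analytic complement is approximated from inside
by compact sets. -/
theorem exists_compact (μ : Measure X) [μ.InnerRegularCompactLTTop] {G B : Set X}
    (hfin : μ B ≠ ⊤) (hGB : G ⊆ B) (hG : AnalyticSet Gᶜ) {c : ENNReal}
    (hc : c < μ G) : ∃ K, K ⊆ G ∧ IsCompact K ∧ c < μ K := by
  have : IsFiniteMeasure (μ.restrict B) := isFiniteMeasure_restrict.2 hfin
  have h := (nullMeasurable (μ.restrict B) hG).compl
  rw [compl_compl] at h
  obtain ⟨t, htG, htm, hae⟩ := h.exists_measurable_subset_ae_eq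
  have e := measure_congr hae
  rw [Measure.restrict_eq_self μ (htG.trans hGB), Measure.restrict_eq_self μ hGB] at e
  obtain ⟨K, h1, h2, h3⟩ := htm.exists_lt_isCompact_of_ne_top
    (ne_top_of_le_ne_top hfin (measure_mono (htG.trans hGB))) (e ▸ hc)
  exact ⟨K, h1.trans htG, h2, h3⟩

end Pool.Agent.H8.Ana
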