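import Mathlib
open Filter

attribute [local instance] Ultrafilter.mul Ultrafilter.semigroup

namespace H8.Aff

/-- affine maps z ↦ x + s * z -/
@[ext] structure G where
  x : ℕ
  s : ℕ

instance : Mul G := ⟨fun g h => ⟨g.x + g.s * h.x, g.s * h.s⟩⟩

theorem mul_x (g h : G) : (g * h).x = g.x + g.s * h.x := rfl
theorem mul_s (g h : G) : (g * h).s = g.s * h.s := rfl

instance : Semigroup G where
  mul_assoc a b c := by
    ext
    · simp only [mul_x, mul_s]; ring
    · simp only [mul_s]; ring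

def ph (g : G) : G := ⟨0, g.s⟩
def ps (g : G) : G := ⟨0, g.s / g.x⟩

theorem ph_mul (g h : G) : ph (g * h) = ph g * ph h := by
  ext <;> simp [ph, mul_x, mul_s]

theorem map_mul' (U1 U2 : Ultrafilter G) : (U1 * U2).map ph = U1.map ph * U2.map ph := by
  ext A
  have e1 : A ∈ (U1 * U2).map ph ↔ ∀ᶠ g in ↑(U1 * U2), ph g ∈ A := Iff.rfl
  have e2 : A ∈ U1.map ph * U2.map ph ↔ ∀ᶠ g in ↑(U1.map ph * U2.map ph), g ∈ A := Iff.rfl
  rw [e1, e2, Ultrafilter.eventually_mul, Ultrafilter.eventually_mul]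
  simp only [Ultrafilter.coe_map, eventually_map, ph_mul]

def P (a b : ℕ) (g : G) : Prop := a < g.x ∧ 0 < g.s ∧ (a + (b + 1) * g.x) ∣ g.s

def Q : Set (Ultrafilter G) := {U | ∀ a b, ∀ᶠ g : G in U, P a b g}

def Pos (U : Ultrafilter G) : Prop := ∀ᶠ g : G in U, 0 < g.s

theorem Q_pos {U : Ultrafilter G} (h : U ∈ Q) : Pos U := (h 0 0).mono fun _ hg => hg.2.1

theorem pos_mul_Q {U V : Ultrafilter G} (h : Pos U) (h' : V ∈ Q) : U * V ∈ Q := by
  intro a b
  rw [Ultrafilter.eventually_mul]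
  refine h.mono fun g hg => (h' (a + (b + 1) * g.x) ((b + 1) * g.s - 1)).mono fun k hk => ?_
  have h1 : (b + 1) * g.s - 1 + 1 = (b + 1) * g.s := Nat.sub_add_cancel (Nat.mul_pos (by omega) hg)
  obtain ⟨k1, k2, k3⟩ := hk
  refine ⟨?_, Nat.mul_pos hg k2, ?_⟩
  · rw [mul_x]
    have := Nat.le_mul_of_pos_left k.x hg
    omega
  · rw [h1] at k3
    rw [mul_x, mul_s, show a + (b + 1) * (g.x + g.s * k.x) =
      a + (b + 1) * g.x + (b + 1) * g.s * k.x by ring]
    exact k3.mul_left _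

theorem Q_mul_ph {U V : Ultrafilter G} (h : U ∈ Q) (h' : Pos V) : U * V.map ph ∈ Q := by
  intro a b
  rw [Ultrafilter.eventually_mul]
  refine (h a b).mono fun g hg => ?_
  rw [Ultrafilter.coe_map, eventually_map]
  refine h'.mono fun k hk => ?_
  obtain ⟨g1, g2, g3⟩ := hg
  refine ⟨by simpa [mul_x, ph] using g1, Nat.mul_pos g2 hk, ?_⟩
  simp only [mul_x, mul_s, ph, mul_zero, add_zero]
  exact g3.mul_right _

theorem pos_map {U : Ultrafilter G} (h : Pos U) : Pos (U.map ph) := by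
  unfold Pos
  rw [Ultrafilter.coe_map, eventually_map]
  exact h

theorem cont_map (f : G → G) : Continuous (Ultrafilter.map f) :=
  ultrafilterBasis_is_basis.continuous_iff.2 <| Set.forall_mem_range.mpr fun s =>
    ultrafilter_isOpen_basic (f ⁻¹' s)

theorem Q_closed : IsClosed Q := by
  have : Q = ⋂ a, ⋂ b, {U : Ultrafilter G | {g : G | P a b g} ∈ U} := by
    ext U; simp only [Q, Set.mem_ofPred_eq, Set.mem_iInter]; rfl
  rw [this]
  exact isClosed_iInter fun a => isClosed_iInter fun b => ultrafilter_isClosed_basic _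

theorem Q_ne : Q.Nonempty := by
  refine ⟨(hyperfilter ℕ).map (fun n => (⟨n, (n + n * n).factorial⟩ : G)), fun a b => ?_⟩
  rw [Ultrafilter.coe_map, eventually_map]
  have : ∀ᶠ n : ℕ in atTop, a + b + 1 ≤ n := eventually_ge_atTop _
  rw [← Nat.cofinite_eq_atTop] at this
  refine (this.filter_mono hyperfilter_le_cofinite).mono fun n hn => ⟨by show a < n; omega,
    Nat.factorial_pos _, Nat.dvd_factorial ?_ ?_⟩
  · show 0 < a + (b + 1) * n
    have := Nat.mul_pos (show 0 < b + 1 by omega) (show 0 < n by omega); omega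
  · show a + (b + 1) * n ≤ n + n * n
    have := Nat.mul_le_mul_right n (show b + 1 ≤ n by omega); omega

theorem exists_U : ∃ U : Ultrafilter G, U ∈ Q ∧ U * U = U ∧ U.map ph * U = U := by
  obtain ⟨e0, he0, hee0⟩ := exists_idempotent_in_compact_subsemigroup
    Ultrafilter.continuous_mul_left Q Q_ne Q_closed.isCompact fun x hx y hy => pos_mul_Q (Q_pos hx) hy
  set V := e0.map ph with hV
  have hVV : V * V = V := by rw [← map_mul' e0 e0, hee0]
  have hVj : V.map ph = V := by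
    rw [hV, Ultrafilter.map_map]
    rfl
  have hVp : Pos V := pos_map (Q_pos he0)
  let K : Set (Ultrafilter G) := Q ∩ ({U | U.map ph = V} ∩ {U | U * V = U})
  have hK : IsClosed K := Q_closed.inter ((isClosed_eq (cont_map _) continuous_const).inter
    (isClosed_eq (Ultrafilter.continuous_mul_left V) continuous_id))
  have hne : K.Nonempty := by
    refine ⟨e0 * V, Q_mul_ph he0 (Q_pos he0), ?_, ?_⟩
    · show (e0 * V).map ph = V
      rw [map_mul', hVj, hVV]
    · show e0 * V * V = e0 * V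
      rw [mul_assoc, hVV]
  obtain ⟨e, he, hee⟩ := exists_idempotent_in_compact_subsemigroup
    Ultrafilter.continuous_mul_left K hne hK.isCompact (by
      rintro x ⟨hx, hx1, hx2⟩ y ⟨hy, hy1, hy2⟩
      refine ⟨pos_mul_Q (Q_pos hx) hy, ?_, ?_⟩
      · show (x * y).map ph = V
        rw [map_mul' x y, hx1, hy1, hVV]
      · show x * y * V = x * y
        rw [mul_assoc, hy2])
  obtain ⟨hQ, h1, h2⟩ := he
  have h1' : e.map ph = V := h1
  have h2' : e * V = e := h2
  refine ⟨V * e, pos_mul_Q hVp hQ, ?_, ?_⟩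
  · rw [mul_assoc, ← mul_assoc e, h2', hee]
  · rw [map_mul' V e, hVj, h1', hVV, ← mul_assoc, hVV]

theorem main (k : ℕ) (c : ℕ → Fin k) : ∃ a : ℕ → ℕ, StrictMono a ∧ 0 < a 0 ∧
    ∃ i : Fin k, (∀ n, c (a n) = i) ∧
      ∀ n m : ℕ, n < m → c (a n + a m) = i ∧ ∃ t, c t = i ∧ a m = t * a n := by
  classical
  obtain ⟨U, hB, hUU, hVU⟩ := exists_U
  obtain ⟨i, hi⟩ : ∃ i, ∀ᶠ g : G in ↑(U.map ps * U), c g.x = i := by
    have : ∀ᶠ g : G in ↑(U.map ps * U), ∃ i ∈ (Set.univ : Set (Fin k)), c g.x = i :=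
      Eventually.of_forall fun g => ⟨_, trivial, rfl⟩
    obtain ⟨i, -, h⟩ := (Ultrafilter.eventually_exists_mem_iff Set.finite_univ).mp this
    exact ⟨i, h⟩
  let Good : G → Prop := fun h => ∀ᶠ g : G in U, c (h * g).x = i
  have a3 : ∀ᶠ g : G in U, Good (ps g) := by
    rw [Ultrafilter.eventually_mul, Ultrafilter.coe_map, eventually_map] at hi
    exact hi
  have step : ∀ (H : Finset G) (N : ℕ), (∀ h ∈ H, Good h) → ∃ g : G, N < g.x ∧ 0 < g.s ∧
      g.x ∣ g.s ∧ Good (ps g) ∧ ∀ h ∈ H, c (h * g).x = i ∧ Good (h * ph g) ∧ Good (h * g) := by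
    intro H N hH
    have a1 : ∀ h, Good h → ∀ᶠ g : G in U, Good (h * ph g) := by
      intro h hh
      have : ∀ᶠ g : G in ↑(U.map ph * U), c (h * g).x = i := by rw [hVU]; exact hh
      rw [Ultrafilter.eventually_mul, Ultrafilter.coe_map, eventually_map] at this
      exact this.mono fun g hg => hg.mono fun g' hg' => by rw [mul_assoc]; exact hg'
    have a2 : ∀ h, Good h → ∀ᶠ g : G in U, Good (h * g) := by
      intro h hh
      have : ∀ᶠ g : G in ↑(U * U), c (h * g).x = i := by rw [hUU]; exact hh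
      rw [Ultrafilter.eventually_mul] at this
      exact this.mono fun g hg => hg.mono fun g' hg' => by rw [mul_assoc]; exact hg'
    have : ∀ᶠ g : G in U, ∀ h ∈ H, c (h * g).x = i ∧ Good (h * ph g) ∧ Good (h * g) :=
      (eventually_all_finset H).mpr fun h hh =>
        (hH h hh).and ((a1 h (hH h hh)).and (a2 h (hH h hh)))
    obtain ⟨g, ⟨⟨hg0, hg1⟩, hg3⟩, hg2⟩ := ((((hB 0 0).and (hB N 0)).and a3).and this).exists
    exact ⟨g, hg1.1, hg1.2.1, by simpa using hg0.2.2, hg3, hg2⟩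
  obtain ⟨g0, x0, s0, d0, G0, -⟩ := step ∅ 0 (by simp)
  have tpos : 0 < g0.s / g0.x := Nat.div_pos (Nat.le_of_dvd s0 d0) x0
  choose nx hx hs hd hp hn using step
  let T := {p : Finset G × ℕ × ℕ // ∀ h ∈ p.1, Good h}
  let g : T → G := fun p => nx p.1.1 p.1.2.2 p.2
  let F : T → T := fun p => ⟨(insert (ps (g p)) (p.1.1.biUnion fun h => {h * ph (g p), h * g p}),
      p.1.2.1 * (g p).s, p.1.2.1 * (g p).x), by
    intro h hh
    rcases Finset.mem_insert.1 hh with rfl | hh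
    · exact hp _ _ _
    obtain ⟨h0, hh0, hm⟩ := Finset.mem_biUnion.mp hh
    obtain ⟨-, b1, b2⟩ := hn p.1.1 p.1.2.2 p.2 h0 hh0
    simp only [Finset.mem_insert, Finset.mem_singleton] at hm
    rcases hm with rfl | rfl
    exacts [b1, b2]⟩
  let t0 : T := ⟨({ps g0}, g0.s / g0.x, 0), by
    intro h hh
    rw [Finset.mem_singleton.mp hh]
    exact G0⟩
  let t : ℕ → T := fun n => F^[n] t0
  have tS : ∀ n, t (n + 1) = F (t n) := fun n => Function.iterate_succ_apply' F n t0
  let σ : ℕ → ℕ := fun n => (t n).1.2.1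
  let a : ℕ → ℕ := fun n => σ n * (g (t n)).x
  have σS : ∀ n, σ (n + 1) = σ n * (g (t n)).s := fun n => by simp only [σ, tS, F]
  have aS : ∀ n, (t (n + 1)).1.2.2 = a n := fun n => by simp only [a, σ, tS, F]
  have mem : ∀ n h, h ∈ (t n).1.1 → h * ph (g (t n)) ∈ (t (n + 1)).1.1 ∧
      h * g (t n) ∈ (t (n + 1)).1.1 := by
    intro n h hh
    rw [tS]
    refine ⟨?_, ?_⟩ <;>
      exact Finset.mem_insert_of_mem (Finset.mem_biUnion.mpr ⟨h, hh, by simp⟩)
  have mem' : ∀ n, ps (g (t n)) ∈ (t (n + 1)).1.1 := by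
    intro n
    rw [tS]
    exact Finset.mem_insert_self _ _
  have σpos : ∀ n, 0 < σ n := by
    intro n
    induction n with
    | zero => exact tpos
    | succ n ih => rw [σS]; exact Nat.mul_pos ih (hs _ _ _)
  have carry : ∀ n u v, (⟨u, v⟩ : G) ∈ (t n).1.1 → (⟨u, v * (g (t n)).s⟩ : G) ∈ (t (n + 1)).1.1 := by
    intro n u v h
    have := (mem n _ h).1
    have e : (⟨u, v⟩ : G) * ph (g (t n)) = ⟨u, v * (g (t n)).s⟩ := by
      ext
      · simp [mul_x, ph]
      · simp only [mul_s, ph]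
    rwa [e] at this
  have b0 : ∀ n, (⟨0, σ n⟩ : G) ∈ (t n).1.1 := by
    intro n
    induction n with
    | zero => exact Finset.mem_singleton.mpr rfl
    | succ n ih => rw [σS]; exact carry n _ _ ih
  have b1 : ∀ n m, n + 1 ≤ m → (⟨a n, σ m⟩ : G) ∈ (t m).1.1 ∧
      ∃ v, (⟨0, v⟩ : G) ∈ (t m).1.1 ∧ σ m = v * a n := by
    intro n m h
    induction m, h using Nat.le_induction with
    | base =>
      obtain ⟨-, c1⟩ := mem n _ (b0 n)
      have e1 : (⟨0, σ n⟩ : G) * g (t n) = ⟨a n, σ (n + 1)⟩ := by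
        ext
        · simp [mul_x, a]
        · simp only [mul_s, σS]
      refine ⟨e1 ▸ c1, _, mem' n, ?_⟩
      have := Nat.div_mul_cancel (hd (t n).1.1 (t n).1.2.2 (t n).2)
      rw [σS]
      show σ n * (g (t n)).s = (g (t n)).s / (g (t n)).x * (σ n * (g (t n)).x)
      calc σ n * (g (t n)).s = σ n * ((g (t n)).s / (g (t n)).x * (g (t n)).x) := by rw [this]
        _ = _ := by ring
    | succ m _ ih =>
      obtain ⟨i1, v, i2, i3⟩ := ih
      refine ⟨by rw [σS]; exact carry m _ _ i1, _, carry m _ _ i2, ?_⟩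
      rw [σS, i3]; ring
  have col : ∀ n h, h ∈ (t n).1.1 → c (h * g (t n)).x = i := fun n h hh =>
    (hn _ _ (t n).2 h hh).1
  have big : ∀ n, (t n).1.2.2 < a n := fun n =>
    lt_of_lt_of_le (hx _ _ (t n).2) (Nat.le_mul_of_pos_left _ (σpos n))
  refine ⟨a, strictMono_nat_of_lt_succ fun n => aS n ▸ big (n + 1), big 0, i, fun n => ?_,
    fun n m h => ⟨?_, ?_⟩⟩
  · simpa [mul_x] using col n _ (b0 n)
  · exact col m _ (b1 n m h).1
  · obtain ⟨v, v1, v2⟩ := (b1 n m h).2
    refine ⟨v * (g (t m)).x, by simpa [mul_x] using col m _ v1, ?_⟩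
    show σ m * (g (t m)).x = _
    rw [v2]; ring

end H8.Aff
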