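import Mathlib

set_option autoImplicit false

namespace Pool.Agent.H8.Beer

open Set MeasureTheory Filter Topology

theorem pigeon {Ω : Type*} [MeasurableSpace Ω] (μ : Measure Ω) (W : Set Ω) (hW : μ W ≠ ⊤) (w : ℝ)
    (hw : μ.real W ≤ w) (hw0 : 0 < w) (m : ℕ) (A : ℕ → Set Ω) (hA : ∀ i, MeasurableSet (A i))
    (hs : ∀ i, A i ⊆ W) (a : ℝ) (ha : ∀ i < m, a * w ≤ μ.real (A i)) (hm : 3 ≤ m * a) :
    ∃ i < m, ∃ j < i, w / m ^ 2 ≤ μ.real (A i ∩ A j) := by
  by_contra h
  push Not at h
  have hm0 : (0 : ℝ) < m := by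
    rcases Nat.eq_zero_or_pos m with rfl | h
    · norm_num at hm
    · exact_mod_cast h
  have fin : ∀ B ⊆ W, μ B ≠ ⊤ := fun B hB => ne_top_of_le_ne_top hW (measure_mono hB)
  have hU : ∀ n, (⋃ j ∈ Finset.range n, A j) ⊆ W := fun n => iUnion₂_subset fun j _ => hs j
  have key : ∀ n ≤ m, n * (a * w - w / m) ≤ μ.real (⋃ j ∈ Finset.range n, A j) := by
    intro n
    induction n with
    | zero => intro _; simp
    | succ n ih =>
      intro hn
      have ih := ih (by omega)
      rw [Finset.range_add_one, Finset.set_biUnion_insert, union_comm]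
      have e := measureReal_union_add_inter (μ := μ) (s := ⋃ j ∈ Finset.range n, A j) (hA n)
        (fin _ (hU n)) (fin _ (hs n))
      have e2 : μ.real ((⋃ j ∈ Finset.range n, A j) ∩ A n) ≤ w / m := by
        rw [iUnion₂_inter]
        refine (measureReal_biUnion_finset_le _ _).trans ?_
        refine (Finset.sum_le_card_nsmul _ _ (w / m ^ 2) fun j hj => ?_).trans ?_
        · rw [inter_comm]; exact (h n (by omega) j (Finset.mem_range.1 hj)).le
        · rw [Finset.card_range, nsmul_eq_mul]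
          have : (n : ℝ) ≤ m := by exact_mod_cast (by omega)
          calc (n : ℝ) * (w / m ^ 2) ≤ m * (w / m ^ 2) := by gcongr
            _ = w / m := by field_simp
      have := ha n (by omega)
      push_cast
      linarith
  have h1 := key m le_rfl
  have h2 := measureReal_mono (μ := μ) (hU m) hW
  have h3 : m * (a * w - w / m) = m * a * w - w := by field_simp
  nlinarith

variable {E : Type*} [NormedAddCommGroup E] [NormedSpace ℝ E]

theorem hull_eq {ι : Type*} (x : ι → E) (F : Finset ι) : convexHull ℝ (x '' (F : Set ι)) =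
    {y | ∃ w : ι → ℝ, (∀ i, 0 ≤ w i) ∧ ∑ i ∈ F, w i = 1 ∧ ∑ i ∈ F, w i • x i = y} := by
  classical
  apply Subset.antisymm
  · apply convexHull_min
    · rintro _ ⟨i, hi, rfl⟩
      have hi : i ∈ F := hi
      refine ⟨fun j => if j = i then 1 else 0, fun j => ?_, ?_, ?_⟩
      · dsimp only; split_ifs <;> norm_num
      · simp [hi]
      · simp [hi]
    · rintro _ ⟨w, h1, h2, rfl⟩ _ ⟨w', h1', h2', rfl⟩ a b ha hb hab
      refine ⟨fun i => a * w i + b * w' i, fun i => by have := h1 i; have := h1' i; positivity,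
        ?_, ?_⟩
      · rw [Finset.sum_add_distrib, ← Finset.mul_sum, ← Finset.mul_sum, h2, h2']; linarith
      · simp only [add_smul, mul_smul, Finset.sum_add_distrib, Finset.smul_sum]
  · rintro _ ⟨w, h1, h2, rfl⟩
    exact (convex_convexHull ℝ _).sum_mem (fun i _ => h1 i) h2
      (fun i hi => subset_convexHull ℝ _ ⟨i, hi, rfl⟩)

def Good {ι : Type*} (S : Set E) (𝓕 : Set (Finset ι)) : Set (ι → E) :=
  {x | (∀ i, x i ∈ S) ∧ ∀ F ∈ 𝓕, convexHull ℝ (x '' (F : Set ι)) ⊆ S}

theorem isClosed_good {ι : Type*} {S : Set E} (hS : IsClosed S) (𝓕 : Set (Finset ι)) :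
    IsClosed (Good S 𝓕) := by
  have : Good S 𝓕 = (⋂ i, {x : ι → E | x i ∈ S}) ∩ ⋂ F ∈ 𝓕, ⋂ w : ι → ℝ,
      ⋂ _ : (∀ i, 0 ≤ w i) ∧ ∑ i ∈ F, w i = 1, {x : ι → E | ∑ i ∈ F, w i • x i ∈ S} := by
    ext x
    simp only [Good, mem_ofPred_eq, mem_inter_iff, mem_iInter, hull_eq]
    refine and_congr Iff.rfl (forall₂_congr fun F _ => ⟨fun h w hw => h ⟨w, hw.1, hw.2, rfl⟩, ?_⟩)
    rintro h _ ⟨w, h1, h2, rfl⟩
    exact h w ⟨h1, h2⟩
  rw [this]
  refine (isClosed_iInter fun i => hS.preimage (continuous_apply i)).inter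
    (isClosed_biInter fun F _ => isClosed_iInter fun w => isClosed_iInter fun _ =>
      hS.preimage (f := fun x : ι → E => ∑ i ∈ F, w i • x i) (by fun_prop))

theorem good_subset {ι : Type*} (S : Set E) (𝓕 : Set (Finset ι)) :
    Good S 𝓕 ⊆ pi univ fun _ => S := fun _ hx i _ => hx.1 i

theorem upd_image {ι α : Type*} [DecidableEq ι] (x : ι → α) {u : ι} (p : α) {H : Finset ι}
    (hu : u ∉ H) : Function.update x u p '' (H : Set ι) = x '' (H : Set ι) :=
  image_congr fun i hi => Function.update_of_ne (fun e => hu (by rw [← e]; exact hi)) _ _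

/-- the compression relation between a source and a target family -/
def Fold {ι : Type*} [DecidableEq ι] (u v : ι) (𝓐 𝓑 : Set (Finset ι)) : Prop :=
  ∀ H ∈ 𝓑, (v ∈ H ∧ u ∉ H → insert u (H.erase v) ∈ 𝓐) ∧ (¬ (v ∈ H ∧ u ∉ H) → H ∈ 𝓐)

/-- combining two points at position `u` -/
theorem fold_good {ι : Type*} [DecidableEq ι] {u v : ι} (huv : u ≠ v) {𝓐 𝓑 : Set (Finset ι)}
    (hF : Fold u v 𝓐 𝓑) {S : Set E} (x : ι → E) (p q : E) (hx : ∀ i, x i ∈ S) (hp : p ∈ S)
    (hq : q ∈ S)
    (h0 : ∀ H ∈ 𝓐, u ∉ H → v ∉ H → convexHull ℝ (x '' (H : Set ι)) ⊆ S)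
    (h1 : ∀ H ∈ 𝓐, u ∈ H → v ∉ H → convexHull ℝ (Function.update x u p '' (H : Set ι)) ⊆ S)
    (h2 : ∀ H ∈ 𝓐, u ∈ H → v ∉ H → convexHull ℝ (Function.update x u q '' (H : Set ι)) ⊆ S)
    (h3 : ∀ H ∈ 𝓐, u ∈ H → v ∈ H →
      convexHull ℝ (Function.update (Function.update x u p) v q '' (H : Set ι)) ⊆ S) :
    Function.update (Function.update x u p) v q ∈ Good S 𝓑 := by
  refine ⟨fun i => ?_, fun H hH => ?_⟩
  · by_cases h : i = v
    · subst h; simpa using hq
    · by_cases h' : i = u
      · subst h'; simpa [h] using hp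
      · simpa [h, h'] using hx i
  · by_cases hv : v ∈ H
    · by_cases hu : u ∈ H
      · exact h3 H ((hF H hH).2 fun h => h.2 hu) hu hv
      · have := h2 _ ((hF H hH).1 ⟨hv, hu⟩) (Finset.mem_insert_self _ _) (by simp [huv.symm])
        refine (convexHull_mono ?_).trans this
        rintro _ ⟨i, hi, rfl⟩
        by_cases h : i = v
        · subst h; exact ⟨u, by simp, by simp⟩
        · have h' : i ≠ u := fun e => hu (e ▸ hi)
          exact ⟨i, by simp [h, show i ∈ H from hi], by simp [h, h']⟩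
    · have hH' := (hF H hH).2 fun h => hv h.1
      have e : Function.update (Function.update x u p) v q '' (H : Set ι)
          = Function.update x u p '' (H : Set ι) :=
        image_congr fun i hi => Function.update_of_ne (fun e => hv (by rw [← e]; exact hi)) _ _
      rw [e]
      by_cases hu : u ∈ H
      · exact h1 H hH' hu hv
      · have e2 : Function.update x u p '' (H : Set ι) = x '' (H : Set ι) :=
          image_congr fun i hi => Function.update_of_ne (fun e => hu (by rw [← e]; exact hi)) _ _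
        rw [e2]
        exact h0 H hH' hu hv

variable [FiniteDimensional ℝ E] [MeasureSpace E] [BorelSpace E]
  [(volume : Measure E).IsAddHaarMeasure]

theorem vol_pi {ι : Type*} [Fintype ι] (S : Set E) :
    (volume : Measure (ι → E)).real (pi univ fun _ => S) = volume.real S ^ Fintype.card ι := by
  simp [Measure.real, volume_pi_pi]

theorem vol_pi_ne {ι : Type*} [Fintype ι] {S : Set E} (hS : volume S ≠ ⊤) :
    (volume : Measure (ι → E)) (pi univ fun _ => S) ≠ ⊤ := by
  simp [volume_pi_pi, hS]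

theorem real_image {X : Type*} [NormedAddCommGroup X] [NormedSpace ℝ X] [FiniteDimensional ℝ X]
    [MeasurableSpace X] [BorelSpace X] (μ : Measure X) [μ.IsAddHaarMeasure] (f : X →ₗ[ℝ] X)
    (s : Set X) : μ.real (f '' s) = |LinearMap.det f| * μ.real s := by
  simp [Measure.real, Measure.addHaar_image_linearMap]

theorem real_image_invol {X : Type*} [NormedAddCommGroup X] [NormedSpace ℝ X]
    [FiniteDimensional ℝ X] [MeasurableSpace X] [BorelSpace X] (μ : Measure X) [μ.IsAddHaarMeasure]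
    (f : X →ₗ[ℝ] X) (hf : ∀ x, f (f x) = x) (s : Set X) : μ.real (f '' s) = μ.real s := by
  have h : LinearMap.det f * LinearMap.det f = 1 := by
    rw [← map_mul, show f * f = 1 from LinearMap.ext hf, map_one]
  have h2 : |LinearMap.det f| = 1 := by
    rcases mul_self_eq_one_iff.1 h with h | h <;> simp [h]
  rw [real_image, h2, one_mul]

/-- the shear moving `x u` towards `x v` -/
noncomputable def shear {ι : Type*} [DecidableEq ι] (u v : ι) (t : ℝ) : (ι → E) →L[ℝ] (ι → E) :=
  ContinuousLinearMap.id ℝ _ + t • (ContinuousLinearMap.single ℝ (fun _ : ι => E) u).comp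
    ((ContinuousLinearMap.proj v : (ι → E) →L[ℝ] E) - (ContinuousLinearMap.proj u : (ι → E) →L[ℝ] E))

omit [FiniteDimensional ℝ E] [MeasureSpace E] [BorelSpace E]
  [(volume : Measure E).IsAddHaarMeasure] in
theorem shear_apply {ι : Type*} [DecidableEq ι] (u v : ι) (t : ℝ) (x : ι → E) :
    shear u v t x = Function.update x u (x u + t • (x v - x u)) := by
  ext i
  by_cases h : i = u
  · subst h; simp [shear]
  · simp [shear, h]

theorem fold_line {ι : Type*} [Fintype ι] [DecidableEq ι] {u v : ι} (huv : u ≠ v)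
    {𝓐 𝓑 : Set (Finset ι)} (hF : Fold u v 𝓐 𝓑) (hb : ∃ H ∈ 𝓐, u ∈ H ∧ v ∈ H) (t : ℝ)
    (ht : 0 < t) : ∃ t' : ℝ, 0 < t' ∧ ∀ S : Set E, IsCompact S → 0 < volume.real S →
      t * volume.real S ^ Fintype.card ι ≤ volume.real (Good S 𝓐) →
      t' * volume.real S ^ Fintype.card ι ≤ volume.real (Good S 𝓑) := by
  obtain ⟨H0, hH0, uH0, vH0⟩ := hb
  have hcont : Continuous fun s : ℝ => |(shear (E := E) u v s).det| := by
    refine (ContinuousLinearMap.continuous_det.comp ?_).abs
    unfold shear; fun_prop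
  have h0 : |(shear (E := E) u v 0).det| = 1 := by
    simp [shear, ContinuousLinearMap.det]
  obtain ⟨δ, hδ, hδ2⟩ := Metric.continuous_iff.1 hcont 0 (min (t / 2) 1) (by positivity)
  obtain ⟨m, hm⟩ := exists_nat_ge (12 / t)
  have hm0 : (0 : ℝ) < m := lt_of_lt_of_le (by positivity) hm
  let lam : ℕ → ℝ := fun i => min δ 1 * (i / m)
  have hlam : ∀ i < m, 0 ≤ lam i ∧ lam i < min δ 1 := by
    intro i hi
    have h1 : (i : ℝ) / m < 1 := by rw [div_lt_one hm0]; exact_mod_cast hi
    have h2 : 0 < min δ 1 := by positivity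
    exact ⟨by positivity, by simp only [lam]; nlinarith⟩
  let L : ℕ → ℕ → ((ι → E) →ₗ[ℝ] (ι → E)) := fun i j =>
    (shear u v (lam i) + shear v u (1 - lam j) - ContinuousLinearMap.id ℝ _ :
      (ι → E) →L[ℝ] (ι → E))
  have hL : ∀ i j x, L i j x = Function.update (Function.update x u (x u + lam i • (x v - x u))) v
      (x u + lam j • (x v - x u)) := by
    intro i j x
    ext k
    simp only [L, ContinuousLinearMap.coe_coe, sub_apply,
      add_apply, shear_apply, ContinuousLinearMap.id_apply, Pi.sub_apply,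
      Pi.add_apply]
    by_cases h : k = v
    · subst h; simp [huv.symm]; module
    · by_cases h' : k = u
      · subst h'; simp [h]
      · simp [h, h']
  have hLdet : ∀ i j, i ≠ j → LinearMap.det (L i j) ≠ 0 := by
    intro i j hij
    rw [Ne, LinearMap.det_eq_zero_iff_ker_ne_bot, not_not, LinearMap.ker_eq_bot']
    intro x hx
    rw [hL] at hx
    have a1 := congrFun hx u
    have a2 := congrFun hx v
    simp only [Function.update_self, Function.update_of_ne huv, Pi.zero_apply] at a1 a2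
    have a3 : (lam i - lam j) • (x v - x u) = 0 := by
      rw [sub_smul, sub_eq_zero]; exact add_left_cancel (a1.trans a2.symm)
    have hne : lam i - lam j ≠ 0 := by
      have h2 : 0 < min δ 1 := by positivity
      simp only [lam]
      rw [← mul_sub, ← sub_div]
      exact mul_ne_zero h2.ne' (div_ne_zero (sub_ne_zero.2 (by exact_mod_cast hij)) hm0.ne')
    have a4 := (smul_eq_zero.1 a3).resolve_left hne
    rw [a4, smul_zero, add_zero] at a1
    rw [a1, sub_zero] at a4
    ext k
    have := congrFun hx k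
    by_cases h : k = v
    · rw [h, a4]; rfl
    · by_cases h' : k = u
      · rw [h', a1]; rfl
      · simpa [h, h'] using this
  obtain ⟨c, hc, hc2⟩ : ∃ c : ℝ, 0 < c ∧ ∀ i < m, ∀ j < i, c ≤ |LinearMap.det (L i j)| := by
    have : ∀ᶠ c in 𝓝[>] (0 : ℝ), ∀ i ∈ Finset.range m, ∀ j ∈ Finset.range i,
        c < |LinearMap.det (L i j)| := by
      simp only [eventually_all_finset]
      intro i _ j hj
      exact nhdsWithin_le_nhds (eventually_lt_nhds (abs_pos.2 (hLdet i j
        (Finset.mem_range.1 hj).ne')))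
    obtain ⟨c, h1, h2⟩ := (this.and self_mem_nhdsWithin).exists
    exact ⟨c, h2, fun i hi j hj => (h1 i (Finset.mem_range.2 hi) j (Finset.mem_range.2 hj)).le⟩
  refine ⟨c / m ^ 2, by positivity, fun S hS hV hG => ?_⟩
  set w := volume.real S ^ Fintype.card ι with hw
  have hw0 : 0 < w := by positivity
  have hfin := vol_pi_ne (ι := ι) hS.measure_lt_top.ne
  have fin : ∀ B ⊆ pi univ fun _ : ι => S, volume B ≠ ⊤ := fun B hB =>
    ne_top_of_le_ne_top hfin (measure_mono hB)
  let R : Set (ι → E) := Good S {H | H ∈ 𝓐 ∧ (u ∈ H ↔ v ∈ H)}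
  let U : Set (ι → E) := Good S {H | H ∈ 𝓐 ∧ u ∈ H ∧ v ∉ H}
  have Rw : volume.real R ≤ w := by
    rw [hw, ← vol_pi]; exact measureReal_mono (good_subset _ _) hfin
  have seg : ∀ (x : ι → E) (H : Finset ι), u ∈ H → v ∈ H → ∀ s : ℝ, 0 ≤ s → s ≤ 1 →
      x u + s • (x v - x u) ∈ convexHull ℝ (x '' (H : Set ι)) := by
    intro x H hu hv s h0 h1
    have := convex_convexHull ℝ (x '' (H : Set ι)) (subset_convexHull ℝ _ ⟨u, hu, rfl⟩)
      (subset_convexHull ℝ _ ⟨v, hv, rfl⟩) (sub_nonneg.2 h1) h0 (by ring)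
    convert this using 1
    module
  have upd : ∀ (x : ι → E) (H : Finset ι) (k : ι) (p : E), p ∈ convexHull ℝ (x '' (H : Set ι)) →
      ∀ y : ι → E, y '' (H : Set ι) ⊆ convexHull ℝ (x '' (H : Set ι)) →
      Function.update y k p '' (H : Set ι) ⊆ convexHull ℝ (x '' (H : Set ι)) := by
    rintro x H k p hp y hy _ ⟨i, hi, rfl⟩
    by_cases h : i = k
    · subst h; simpa using hp
    · rw [Function.update_of_ne h]; exact hy ⟨i, hi, rfl⟩
  have hTR : ∀ s : ℝ, 0 ≤ s → s ≤ 1 → shear u v s '' R ⊆ R := by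
    rintro s h0 h1 _ ⟨x, hx, rfl⟩
    rw [shear_apply]
    refine ⟨fun i => ?_, fun H hH => ?_⟩
    · by_cases h : i = u
      · rw [h]
        simpa using hx.2 H0 ⟨hH0, by simp [uH0, vH0]⟩ (seg x H0 uH0 vH0 s h0 h1)
      · simpa [h] using hx.1 i
    · by_cases hu : u ∈ H
      · exact (convexHull_min (upd x H u _ (seg x H hu (hH.2.1 hu) s h0 h1) x
          (subset_convexHull ℝ _)) (convex_convexHull ℝ _)).trans (hx.2 H hH)
      · rw [upd_image _ _ hu]
        exact hx.2 H hH
  have Rc : IsCompact R := (isCompact_univ_pi fun _ => hS).of_isClosed_subset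
    (isClosed_good hS.isClosed _) (good_subset _ _)
  obtain ⟨i, hi, j, hj, hij⟩ := pigeon volume R (fin _ (good_subset _ _)) w Rw hw0 m
    (fun i => R ∩ shear u v (lam i) ⁻¹' U)
    (fun i => ((isClosed_good hS.isClosed _).inter ((isClosed_good hS.isClosed _).preimage
      (shear u v (lam i)).continuous)).measurableSet) (fun i => inter_subset_left) (t / 4)
    (fun i hi => by
      obtain ⟨l0, l1⟩ := hlam i hi
      have hd := hδ2 (lam i) (by
        rw [Real.dist_eq, sub_zero, abs_of_nonneg l0]; exact l1.trans_le (min_le_left _ _))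
      rw [h0, Real.dist_eq, abs_lt] at hd
      have d1 := min_le_left (t / 2) 1
      have d2 := min_le_right (t / 2) 1
      have sub := hTR (lam i) l0 (l1.le.trans (min_le_right _ _))
      have e1 := real_image volume (shear (E := E) u v (lam i) : (ι → E) →ₗ[ℝ] (ι → E)) R
      have e2 := real_image volume (shear (E := E) u v (lam i) : (ι → E) →ₗ[ℝ] (ι → E))
        (R ∩ shear u v (lam i) ⁻¹' U)
      simp only [ContinuousLinearMap.coe_coe] at e1 e2
      have e3 := measureReal_sdiff (μ := volume) sub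
        (Rc.image (shear u v (lam i)).continuous).measurableSet (fin _ (good_subset _ _))
      have e4 : Good S 𝓐 ⊆ shear u v (lam i) '' (R ∩ shear u v (lam i) ⁻¹' U) ∪
          (R \ shear u v (lam i) '' R) := by
        intro y hy
        by_cases h : y ∈ shear u v (lam i) '' R
        · obtain ⟨x, hx, rfl⟩ := h
          exact Or.inl ⟨x, ⟨hx, hy.1, fun H hH => hy.2 H hH.1⟩, rfl⟩
        · exact Or.inr ⟨⟨hy.1, fun H hH => hy.2 H hH.1⟩, h⟩
      have e5 := (measureReal_mono (μ := volume) e4 (fin _ (union_subset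
        (((image_mono inter_subset_left).trans sub).trans (good_subset _ _))
        (sdiff_subset.trans (good_subset _ _))))).trans (measureReal_union_le _ _)
      have n1 : 0 ≤ volume.real R := measureReal_nonneg
      have n2 : 0 ≤ volume.real (R ∩ shear u v (lam i) ⁻¹' U) := measureReal_nonneg
      change _ = |(shear (E := E) u v (lam i)).det| * _ at e1 e2
      change volume.real (shear u v (lam i) '' _) = _ at e1 e2
      rw [e2, e3, e1] at e5
      set D := |(shear (E := E) u v (lam i)).det|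
      have f1 : (1 - D) * volume.real R ≤ t / 2 * w :=
        (mul_le_mul_of_nonneg_right (by linarith) n1).trans
          (mul_le_mul_of_nonneg_left Rw (by positivity))
      have f2 : D * volume.real (R ∩ shear u v (lam i) ⁻¹' U) ≤
          2 * volume.real (R ∩ shear u v (lam i) ⁻¹' U) :=
        mul_le_mul_of_nonneg_right (by linarith) n2
      linarith) (by rw [div_le_iff₀ ht] at hm; linarith)
  obtain ⟨li0, li1⟩ := hlam i hi
  obtain ⟨lj0, lj1⟩ := hlam j (hj.trans hi)
  have li2 := li1.le.trans (min_le_right _ _)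
  have lj2 := lj1.le.trans (min_le_right _ _)
  have sub : L i j '' ((R ∩ shear u v (lam i) ⁻¹' U) ∩ (R ∩ shear u v (lam j) ⁻¹' U)) ⊆
      Good S 𝓑 := by
    rintro _ ⟨x, ⟨⟨hx, h1⟩, -, h2⟩, rfl⟩
    rw [hL]
    rw [mem_preimage, shear_apply] at h1 h2
    refine fold_good huv hF x _ _ hx.1 (by simpa using h1.1 u) (by simpa using h2.1 u)
      (fun H hH a b => hx.2 H ⟨hH, by simp [a, b]⟩) (fun H hH a b => h1.2 H ⟨hH, a, b⟩)
      (fun H hH a b => h2.2 H ⟨hH, a, b⟩) (fun H hH a b => ?_)
    exact (convexHull_min (upd x H v _ (seg x H a b _ lj0 lj2) _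
      (upd x H u _ (seg x H a b _ li0 li2) x (subset_convexHull ℝ _)))
      (convex_convexHull ℝ _)).trans (hx.2 H ⟨hH, by simp [a, b]⟩)
  have e := measureReal_mono (μ := volume) sub (fin _ (good_subset _ _))
  rw [real_image] at e
  calc c / m ^ 2 * w = c * (w / m ^ 2) := by ring
    _ ≤ _ := mul_le_mul (hc2 i hi j hj) hij (by positivity) (abs_nonneg _)
    _ ≤ _ := e

/-- exchanging the coordinate `u` with the spare coordinate `i` -/
def swp {ι : Type*} [DecidableEq ι] (u : ι) {m : ℕ} (i : Fin m) :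
    ((ι → E) × (Fin m → E)) →ₗ[ℝ] ((ι → E) × (Fin m → E)) where
  toFun p := (Function.update p.1 u (p.2 i), Function.update p.2 i (p.1 u))
  map_add' p q := by
    ext k
    · by_cases h : k = u <;> simp [h]
    · by_cases h : k = i <;> simp [h]
  map_smul' c p := by
    ext k
    · by_cases h : k = u <;> simp [h]
    · by_cases h : k = i <;> simp [h]

omit [FiniteDimensional ℝ E] [MeasureSpace E] [BorelSpace E]
  [(volume : Measure E).IsAddHaarMeasure] in
theorem swp_swp {ι : Type*} [DecidableEq ι] (u : ι) {m : ℕ} (i : Fin m)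
    (p : (ι → E) × (Fin m → E)) : swp u i (swp u i p) = p := by
  simp [swp]

theorem fold_plain {ι : Type*} [Fintype ι] [DecidableEq ι] {u v : ι} (huv : u ≠ v)
    {𝓐 𝓑 : Set (Finset ι)} (hF : Fold u v 𝓐 𝓑) (hb : ¬ ∃ H ∈ 𝓐, u ∈ H ∧ v ∈ H) (t : ℝ)
    (ht : 0 < t) : ∃ t' : ℝ, 0 < t' ∧ ∀ S : Set E, IsCompact S → 0 < volume.real S →
      t * volume.real S ^ Fintype.card ι ≤ volume.real (Good S 𝓐) →
      t' * volume.real S ^ Fintype.card ι ≤ volume.real (Good S 𝓑) := by
  obtain ⟨m, hm⟩ := exists_nat_ge (3 / t)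
  have hm0 : (0 : ℝ) < m := lt_of_lt_of_le (by positivity) hm
  have hm1 : 0 < m := by exact_mod_cast hm0
  refine ⟨1 / m ^ 2, by positivity, fun S hS hV hG => ?_⟩
  let μ : Measure ((ι → E) × (Fin m → E)) := (volume : Measure (ι → E)).prod volume
  have hμ : μ.IsAddHaarMeasure := Measure.prod.instIsAddHaarMeasure _ _
  let P : Set (Fin m → E) := pi univ fun _ => S
  have hP : volume.real P = volume.real S ^ m := by simpa using vol_pi (ι := Fin m) S
  have hPfin : volume P ≠ ⊤ := vol_pi_ne hS.measure_lt_top.ne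
  have hfin := vol_pi_ne (ι := ι) hS.measure_lt_top.ne
  have hprod : ∀ B : Set (ι → E), μ.real (B ×ˢ P) = volume.real B * volume.real S ^ m := by
    intro B
    rw [← hP]
    simp [μ, Measure.real, Measure.prod_prod]
  have hpfin : ∀ B ⊆ pi univ fun _ : ι => S, μ (B ×ˢ P) ≠ ⊤ := fun B hB => by
    simp only [μ, Measure.prod_prod]
    exact ENNReal.mul_ne_top (ne_top_of_le_ne_top hfin (measure_mono hB)) hPfin
  let k : ℕ → Fin m := fun i => ⟨i % m, Nat.mod_lt _ hm1⟩
  have hcl : IsClosed (Good S 𝓐 ×ˢ P) :=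
    (isClosed_good hS.isClosed _).prod (isClosed_set_pi fun _ _ => hS.isClosed)
  have him : ∀ (a : ι) (i : Fin m) (B : Set ((ι → E) × (Fin m → E))),
      swp a i '' B = swp a i ⁻¹' B := fun a i B =>
    congrFun (image_eq_preimage_of_inverse (swp_swp a i) (swp_swp a i)) B
  have hW : ∀ (i : Fin m), swp u i ⁻¹' (Good S 𝓐 ×ˢ P) ⊆ (pi univ fun _ : ι => S) ×ˢ P := by
    rintro i ⟨x, z⟩ ⟨h1, h2⟩
    refine ⟨fun a _ => ?_, fun a _ => ?_⟩
    · by_cases h : a = u
      · simpa [swp, h] using h2 i trivial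
      · simpa [swp, h] using h1.1 a
    · by_cases h : a = i
      · simpa [swp, h] using h1.1 u
      · simpa [swp, h] using h2 a trivial
  obtain ⟨i, hi, j, hj, hij⟩ := pigeon μ ((pi univ fun _ : ι => S) ×ˢ P) (hpfin _ subset_rfl)
    (volume.real S ^ Fintype.card ι * volume.real S ^ m) (by rw [hprod, vol_pi]) (by positivity) m
    (fun i => swp u (k i) ⁻¹' (Good S 𝓐 ×ˢ P))
    (fun i => (hcl.preimage (swp u (k i)).continuous_of_finiteDimensional).measurableSet)
    (fun i => hW _) t (fun i _ => by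
      rw [← him, real_image_invol μ _ (swp_swp u (k i)), hprod,
        ← mul_assoc]
      gcongr) (by rwa [div_le_iff₀ ht] at hm)
  have hk : k j ≠ k i := by
    intro e
    have := congrArg Fin.val e
    simp only [k, Nat.mod_eq_of_lt hi, Nat.mod_eq_of_lt (hj.trans hi)] at this
    omega
  have sub : swp v (k j) '' (swp u (k i) '' (swp u (k i) ⁻¹' (Good S 𝓐 ×ˢ P) ∩
      swp u (k j) ⁻¹' (Good S 𝓐 ×ˢ P))) ⊆ Good S 𝓑 ×ˢ P := by
    rintro _ ⟨_, ⟨⟨x, z⟩, ⟨h1, h2⟩, rfl⟩, rfl⟩
    have hxz := hW _ h1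
    refine ⟨?_, fun a _ => ?_⟩
    · change Function.update (Function.update x u (z (k i))) v
        (Function.update z (k i) (x u) (k j)) ∈ _
      rw [Function.update_of_ne hk]
      refine fold_good huv hF x _ _ (fun a => hxz.1 a trivial) (hxz.2 _ trivial) (hxz.2 _ trivial)
        (fun H hH a _ => ?_) (fun H hH _ _ => h1.1.2 H hH) (fun H hH _ _ => h2.1.2 H hH)
        (fun H hH a b => absurd ⟨H, hH, a, b⟩ hb)
      have := h1.1.2 H hH
      change convexHull ℝ (Function.update x u (z (k i)) '' _) ⊆ S at this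
      rwa [upd_image _ _ a] at this
    · change Function.update (Function.update z (k i) (x u)) (k j)
        (Function.update x u (z (k i)) v) a ∈ S
      rw [Function.update_of_ne huv.symm]
      by_cases h : a = k j
      · simpa [h] using hxz.1 v trivial
      · by_cases h' : a = k i
        · simpa [h', hk.symm] using hxz.1 u trivial
        · simpa [h, h'] using hxz.2 a trivial
  have e := measureReal_mono (μ := μ) sub (hpfin _ (good_subset _ _))
  rw [real_image_invol μ _ (swp_swp v (k j)), real_image_invol μ _ (swp_swp u (k i)),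
    hprod] at e
  have e2 := hij.trans e
  have hp : 0 < volume.real S ^ m := by positivity
  refine le_of_mul_le_mul_right ?_ hp
  calc _ = volume.real S ^ Fintype.card ι * volume.real S ^ m / m ^ 2 := by ring
    _ ≤ _ := e2

theorem fold {ι : Type*} [Fintype ι] [DecidableEq ι] {u v : ι} (huv : u ≠ v)
    {𝓐 𝓑 : Set (Finset ι)} (hF : Fold u v 𝓐 𝓑) (t : ℝ)
    (ht : 0 < t) : ∃ t' : ℝ, 0 < t' ∧ ∀ S : Set E, IsCompact S → 0 < volume.real S →
      t * volume.real S ^ Fintype.card ι ≤ volume.real (Good S 𝓐) →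
      t' * volume.real S ^ Fintype.card ι ≤ volume.real (Good S 𝓑) := by
  by_cases hb : ∃ H ∈ 𝓐, u ∈ H ∧ v ∈ H
  · exact fold_line huv hF hb t ht
  · exact fold_plain huv hF hb t ht

/-- percolation from the initial face to all faces -/
theorem percolate (n k : ℕ) (t : ℝ) (ht : 0 < t) (𝓕 : Finset (Finset (Fin n)))
    (hc : ∀ F ∈ 𝓕, F.card = k + 1)
    (hd : ∀ F ∈ 𝓕, ∀ u v : Fin n, u < v → v ∈ F → u ∉ F → insert u (F.erase v) ∈ 𝓕) :
    ∃ t' : ℝ, 0 < t' ∧ ∀ S : Set E, IsCompact S → 0 < volume.real S →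
      t * volume.real S ^ n ≤ volume.real (Good S {Finset.univ.filter fun i : Fin n => i.1 ≤ k}) →
      t' * volume.real S ^ n ≤ volume.real (Good S (𝓕 : Set (Finset (Fin n)))) := by
  induction 𝓕 using Finset.strongInduction with
  | H 𝓕 ih =>
  by_cases h : (𝓕.filter fun F => ∃ u v : Fin n, u < v ∧ v ∈ F ∧ u ∉ F).Nonempty
  · obtain ⟨F, hF, hmax⟩ := Finset.exists_max_image _ (fun F : Finset (Fin n) => ∑ i ∈ F, i.1) h
    obtain ⟨hF, u, v, huv, hv, hu⟩ := Finset.mem_filter.1 hF
    have hsum : ∀ (G : Finset (Fin n)) (a b : Fin n), a < b → b ∈ G → a ∉ G →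
        ∑ i ∈ insert a (G.erase b), i.1 < ∑ i ∈ G, i.1 := by
      intro G a b hab hb ha
      rw [Finset.sum_insert (by simp [ha]), ← Finset.add_sum_erase _ _ hb]
      have : a.1 < b.1 := hab
      omega
    have hd' : ∀ G ∈ 𝓕, ∀ a b : Fin n, a < b → b ∈ G → a ∉ G →
        insert a (G.erase b) ∈ 𝓕.erase F := by
      intro G hG a b hab hb ha
      refine Finset.mem_erase.2 ⟨fun e => ?_, hd G hG a b hab hb ha⟩
      have h1 := hmax G (Finset.mem_filter.2 ⟨hG, a, b, hab, hb, ha⟩)
      have h2 := hsum G a b hab hb ha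
      rw [e] at h2
      omega
    obtain ⟨t1, ht1, h1⟩ := ih (𝓕.erase F) (Finset.erase_ssubset hF)
      (fun G hG => hc G (Finset.mem_of_mem_erase hG))
      (fun G hG => hd' G (Finset.mem_of_mem_erase hG))
    obtain ⟨t2, ht2, h2⟩ := fold (E := E) huv.ne (𝓐 := (𝓕.erase F : Finset (Finset (Fin n))))
      (𝓑 := (𝓕 : Set (Finset (Fin n)))) (fun H hH => ⟨fun hh => hd' H hH u v huv hh.1 hh.2,
        fun hh => Finset.mem_erase.2 ⟨fun e => hh (e ▸ ⟨hv, hu⟩), hH⟩⟩) t1 ht1
    rw [Fintype.card_fin] at h2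
    exact ⟨t2, ht2, fun S a b c => h2 S a b (h1 S a b c)⟩
  · refine ⟨t, ht, fun S hS _ hG => hG.trans (measureReal_mono ?_ (ne_top_of_le_ne_top
      (vol_pi_ne hS.measure_lt_top.ne) (measure_mono (good_subset _ _))))⟩
    rintro x ⟨h1, h2⟩
    refine ⟨h1, fun F hF => (convexHull_mono (image_mono ?_)).trans (h2 _ rfl)⟩
    intro v hv
    simp only [Finset.coe_filter, Finset.mem_univ, true_and, mem_ofPred_eq]
    have : Finset.Iic v ⊆ F := by
      intro u hu
      by_contra hn
      refine h ⟨F, Finset.mem_filter.2 ⟨hF, u, v, ?_, hv, hn⟩⟩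
      exact lt_of_le_of_ne (Finset.mem_Iic.1 hu) fun e => hn (e ▸ hv)
    have := Finset.card_le_card this
    rw [hc F hF, Fin.card_Iic] at this
    omega

end Pool.Agent.H8.Beer
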