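import Pool.Agent.H8.BeerSmall
import Pool.Agent.H8.Analytic

set_option autoImplicit false

namespace Pool.Agent.H8.Beer

open Set MeasureTheory Filter Topology Module

variable {E : Type*} [NormedAddCommGroup E] [NormedSpace ℝ E]

def GG (k : ℕ) (S : Set E) : Set (Fin (k + 1) → E) :=
  {x | (∀ i, x i ∈ S) ∧ convexHull ℝ (range x) ⊆ S}

theorem hull_range {ι : Type*} [Fintype ι] (x : ι → E) : convexHull ℝ (range x) =
    {y | ∃ w : ι → ℝ, (∀ i, 0 ≤ w i) ∧ ∑ i, w i = 1 ∧ ∑ i, w i • x i = y} := by
  rw [← hull_eq, Finset.coe_univ, image_univ]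

theorem GG_subset (k : ℕ) (S : Set E) : GG k S ⊆ pi univ fun _ => S := fun _ hx i _ => hx.1 i

variable [FiniteDimensional ℝ E] [MeasureSpace E] [BorelSpace E]
  [(volume : Measure E).IsAddHaarMeasure]

omit [(volume : Measure E).IsAddHaarMeasure] in
theorem analytic (k : ℕ) {S : Set E} (hS : MeasurableSet S) : AnalyticSet (GG k S)ᶜ := by
  have := FiniteDimensional.proper_real E
  have e : (GG k S)ᶜ = Prod.fst '' {p : (Fin (k + 1) → E) × (Fin (k + 1) → ℝ) |
      p.2 ∈ stdSimplex ℝ (Fin (k + 1)) ∧ ∑ i, p.2 i • p.1 i ∉ S} := by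
    ext x
    simp only [GG, mem_compl_iff, mem_ofPred_eq, hull_range, mem_image, Prod.exists,
      exists_and_right, exists_eq_right]
    constructor
    · intro h
      by_contra hn
      push Not at hn
      have h2 : {y | ∃ w : Fin (k + 1) → ℝ, (∀ i, 0 ≤ w i) ∧ ∑ i, w i = 1 ∧
          ∑ i, w i • x i = y} ⊆ S := by
        rintro _ ⟨w, a, b, rfl⟩
        exact hn w ⟨a, b⟩
      refine h ⟨fun i => h2 ?_, h2⟩
      rw [← hull_range]
      exact subset_convexHull ℝ _ ⟨i, rfl⟩
    · rintro ⟨w, a, b⟩ h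
      exact b (h.2 ⟨w, a.1, a.2, rfl⟩)
  rw [e]
  refine AnalyticSet.image_of_continuous (MeasurableSet.analyticSet ?_) continuous_fst
  refine ((isClosed_stdSimplex ℝ _).preimage continuous_snd).measurableSet.inter ?_
  exact (Continuous.measurable (f := fun p : (Fin (k + 1) → E) × (Fin (k + 1) → ℝ) =>
    ∑ i, p.2 i • p.1 i) (by fun_prop)) hS.compl

theorem compactify (k : ℕ) {S : Set E} (hS : MeasurableSet S) (h0 : 0 < volume.real S)
    (hf : volume S ≠ ⊤) {ε : ℝ} (hε : 0 < ε)
    (h : ε * volume.real S ^ (k + 1) ≤ volume.real (GG k S)) :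
    ∃ T ⊆ S, IsCompact T ∧ ε / 2 * volume.real S ≤ volume.real T ∧
      ε / 2 * volume.real T ^ (k + 1) ≤ volume.real (GG k T) := by
  have := FiniteDimensional.proper_real E
  have hp : 0 < volume.real S ^ (k + 1) := by positivity
  have hfin := vol_pi_ne (ι := Fin (k + 1)) hf
  obtain ⟨K, hK, Kc, hv⟩ := Ana.exists_compact volume hfin (GG_subset k S) (analytic k hS)
    (c := ENNReal.ofReal (ε / 2 * volume.real S ^ (k + 1))) (by
      rw [ENNReal.ofReal_lt_iff_lt_toReal (by positivity)
        (ne_top_of_le_ne_top hfin (measure_mono (GG_subset k S)))]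
      change _ < volume.real _
      nlinarith)
  rw [ENNReal.ofReal_lt_iff_lt_toReal (by positivity) Kc.measure_lt_top.ne] at hv
  change _ < volume.real _ at hv
  let T : Set E := (fun p : (Fin (k + 1) → E) × (Fin (k + 1) → ℝ) => ∑ i, p.2 i • p.1 i) ''
    (K ×ˢ stdSimplex ℝ (Fin (k + 1)))
  have hTS : T ⊆ S := by
    rintro _ ⟨⟨x, w⟩, ⟨h1, h2⟩, rfl⟩
    refine (hK h1).2 ?_
    rw [hull_range]
    exact ⟨w, h2.1, h2.2, rfl⟩
  have hT : IsCompact T := (Kc.prod (isCompact_stdSimplex ℝ _)).image (by fun_prop)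
  have hKT : K ⊆ GG k T := by
    intro x hx
    have h2 : convexHull ℝ (range x) ⊆ T := by
      rw [hull_range]
      rintro _ ⟨w, a, b, rfl⟩
      exact ⟨(x, w), ⟨hx, a, b⟩, rfl⟩
    exact ⟨fun i => h2 (subset_convexHull ℝ _ ⟨i, rfl⟩), h2⟩
  have hfT := vol_pi_ne (ι := Fin (k + 1)) hT.measure_lt_top.ne
  have a1 := measureReal_mono (μ := volume) hKT
    (ne_top_of_le_ne_top hfT (measure_mono (GG_subset k T)))
  have a2 := measureReal_mono (μ := volume) (GG_subset k T) hfT
  rw [vol_pi, Fintype.card_fin] at a2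
  have a3 := measureReal_mono (μ := volume) hTS hf
  have a4 : 0 ≤ volume.real T := measureReal_nonneg
  have a5 : volume.real T ^ k ≤ volume.real S ^ k := by gcongr
  have a6 : volume.real T ^ (k + 1) ≤ volume.real S ^ (k + 1) := by gcongr
  refine ⟨T, hTS, hT, ?_, by nlinarith⟩
  have hp' : 0 < volume.real S ^ k := by positivity
  refine le_of_mul_le_mul_right ?_ hp'
  calc _ = ε / 2 * volume.real S ^ (k + 1) := by ring
    _ ≤ volume.real T ^ k * volume.real T := by rw [← pow_succ]; linarith
    _ ≤ _ := by rw [mul_comm]; gcongr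

theorem base (k : ℕ) {S : Set E} (hS : IsCompact S) {t : ℝ}
    (h : t * volume.real S ^ (k + 1) ≤ volume.real (GG k S)) (n : ℕ) (hn : k + 1 ≤ n) :
    t * volume.real S ^ n ≤ volume.real (Good S {Finset.univ.filter fun i : Fin n => i.1 ≤ k}) := by
  induction n, hn using Nat.le_induction with
  | base =>
    refine h.trans (measureReal_mono ?_ (ne_top_of_le_ne_top
      (vol_pi_ne hS.measure_lt_top.ne) (measure_mono (good_subset _ _))))
    rintro x ⟨h1, h2⟩
    refine ⟨h1, fun F _ => (convexHull_mono (image_subset_range _ _)).trans h2⟩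
  | succ n hn ih =>
    have e := (volume_preserving_piFinSuccAbove (fun _ : Fin (n + 1) => E)
      (Fin.last n)).measure_preimage_equiv
      (S ×ˢ Good S {Finset.univ.filter fun i : Fin n => i.1 ≤ k})
    have sub : MeasurableEquiv.piFinSuccAbove (fun _ : Fin (n + 1) => E) (Fin.last n) ⁻¹'
        (S ×ˢ Good S {Finset.univ.filter fun i : Fin n => i.1 ≤ k}) ⊆
        Good S {Finset.univ.filter fun i : Fin (n + 1) => i.1 ≤ k} := by
      rintro x ⟨h1, h2, h3⟩
      refine ⟨fun i => ?_, ?_⟩
      · refine Fin.lastCases ?_ (fun j => ?_) i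
        · simpa using h1
        · simpa [Fin.init] using h2 j
      · rintro _ rfl
        refine (convexHull_mono ?_).trans (h3 _ rfl)
        rintro _ ⟨i, hi, rfl⟩
        have hi : i.1 ≤ k := by simpa using hi
        refine ⟨⟨i.1, by omega⟩, by simpa using hi, ?_⟩
        simp [Fin.init]
    have e2 := measureReal_mono (μ := volume) sub (ne_top_of_le_ne_top
      (vol_pi_ne hS.measure_lt_top.ne) (measure_mono (good_subset _ _)))
    refine le_trans ?_ e2
    change _ ≤ ENNReal.toReal _
    rw [e, Measure.volume_eq_prod, Measure.prod_prod, ENNReal.toReal_mul]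
    change _ ≤ volume.real _ * volume.real _
    have a4 : 0 ≤ volume.real S := measureReal_nonneg
    calc _ = volume.real S * (t * volume.real S ^ n) := by ring
      _ ≤ _ := by gcongr

omit [FiniteDimensional ℝ E] [MeasureSpace E] [BorelSpace E]
  [(volume : Measure E).IsAddHaarMeasure] in
theorem aff_indep {d : ℕ} (b : Basis (Fin d) ℝ E) (x : Fin (d + 1) → E) (h : b.det (edg x) ≠ 0) :
    AffineIndependent ℝ x := by
  have h1 := ((Basis.is_basis_iff_det b).2 (IsUnit.mk0 _ h)).1
  rw [affineIndependent_iff_linearIndependent_vsub ℝ x 0]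
  refine (linearIndependent_equiv' (finSuccAboveEquiv 0) ?_).1 h1
  ext i
  simp [edg, finSuccAboveEquiv_apply]

/-- the reference simplex -/
def ref {d : ℕ} (y : Fin d → E) : Set E := convexHull ℝ (range (Fin.cons 0 y : Fin (d + 1) → E))

theorem ref_pos {d : ℕ} (b : Basis (Fin d) ℝ E) : 0 < volume.real (ref b) := by
  have hc : IsCompact (ref b) := (finite_range _).isCompact_convexHull ℝ
  refine ENNReal.toReal_pos (Measure.measure_pos_of_nonempty_interior _ ?_).ne'
    hc.measure_lt_top.ne
  have h := aff_indep b (Fin.cons 0 b) (by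
    have : edg (Fin.cons 0 b : Fin (d + 1) → E) = b := by ext i; simp [edg]
    rw [this, b.det_self]; exact one_ne_zero)
  rw [ref, (convex_convexHull ℝ _).interior_nonempty_iff_affineSpan_eq_top, affineSpan_convexHull,
    h.affineSpan_eq_top_iff_card_eq_finrank_add_one, finrank_eq_card_basis b]
  simp

theorem vol_hull {d : ℕ} (b : Basis (Fin d) ℝ E) (x : Fin (d + 1) → E) :
    volume.real (convexHull ℝ (range x)) = |b.det (edg x)| * volume.real (ref b) := by
  have e : convexHull ℝ (range x) = (fun z => x 0 + z) '' (b.constr ℝ (edg x) '' ref b) := by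
    rw [ref, LinearMap.image_convexHull, ← range_comp]
    have := (AffineEquiv.constVAdd ℝ E (x 0)).toAffineMap.image_convexHull
      (range (b.constr ℝ (edg x) ∘ (Fin.cons 0 b : Fin (d + 1) → E)))
    refine Eq.trans ?_ this.symm
    rw [← range_comp]
    congr 2
    ext i
    refine Fin.cases ?_ (fun j => ?_) i <;> simp [edg]
  rw [e, Measure.real, image_add_left, measure_preimage_add]
  change volume.real _ = _
  rw [real_image, det_constr]

theorem main {d : ℕ} (b : Basis (Fin d) ℝ E) (k : ℕ) (hk : k ≤ d) (ε : ℝ) (hε : 0 < ε) :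
    ∃ δ : ℝ, 0 < δ ∧ ∀ S : Set E, MeasurableSet S → 0 < volume.real S → volume S ≠ ⊤ →
      ε * volume.real S ^ (k + 1) ≤ volume.real (GG k S) →
      ∃ X : Fin (d + 1) → E, AffineIndependent ℝ X ∧
        δ * volume.real S ≤ volume.real (convexHull ℝ (range X)) ∧
        ∀ s : Finset (Fin (d + 1)), s.card = k + 1 → convexHull ℝ (X '' (s : Set _)) ⊆ S := by
  obtain ⟨t, ht, h1⟩ := percolate (E := E) (d + 1) k (ε / 2) (by positivity)
    (Finset.powersetCard (k + 1) Finset.univ) (fun F hF => (Finset.mem_powersetCard.1 hF).2)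
    (fun F hF u v _ hv hu => by
      rw [Finset.mem_powersetCard_univ] at hF ⊢
      rw [Finset.card_insert_of_notMem (by simp [hu]), Finset.card_erase_add_one hv, hF])
  have hP : 0 ≤ volume.real (par b) := measureReal_nonneg
  have hr := ref_pos b
  let θ : ℝ := t / (2 * ((d + 1) * volume.real (par b) + 1))
  have hθ : 0 < θ := by positivity
  refine ⟨θ * (ε / 2) * volume.real (ref b), by positivity, fun S hS h0 hf h => ?_⟩
  obtain ⟨T, hTS, hT, a1, a2⟩ := compactify k hS h0 hf hε h
  have hV : 0 < volume.real T := lt_of_lt_of_le (by positivity) a1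
  have a3 := h1 T hT hV (base k hT a2 (d + 1) (by omega))
  have a4 := small_vol b hT hV (η := θ * volume.real T) (by positivity)
  have hp : 0 < volume.real T ^ (d + 1) := by positivity
  obtain ⟨X, hX, hD⟩ : ∃ X ∈ Good T ((Finset.powersetCard (k + 1) Finset.univ :
      Finset (Finset (Fin (d + 1)))) : Set (Finset (Fin (d + 1)))),
      θ * volume.real T < |b.det (edg X)| := by
    by_contra hn
    push Not at hn
    have a5 := measureReal_mono (μ := volume) (s₂ := {x | x ∈ (pi univ fun _ : Fin (d + 1) => T) ∧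
      |b.det (edg x)| ≤ θ * volume.real T}) (fun x hx => ⟨good_subset _ _ hx, hn x hx⟩)
      (ne_top_of_le_ne_top (vol_pi_ne hT.measure_lt_top.ne) (measure_mono fun x hx => hx.1))
    have a6 := (mul_le_mul_of_nonneg_right (a3.trans a5) hV.le).trans a4
    have a7 : t ≤ (d + 1) * volume.real (par b) * θ := by
      refine le_of_mul_le_mul_right ?_ (mul_pos hp hV)
      calc _ = _ := by ring
        _ ≤ _ := a6
        _ = _ := by ring
    have a8 : ((d + 1) * volume.real (par b) + 1) * θ = t / 2 := by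
      simp only [θ]; field_simp
    nlinarith
  refine ⟨X, aff_indep b X (abs_pos.1 (lt_of_le_of_lt (by positivity) hD)), ?_,
    fun s hs => (hX.2 s (by simpa using hs)).trans hTS⟩
  rw [vol_hull b]
  have : θ * (ε / 2) * volume.real S ≤ |b.det (edg X)| := by
    refine le_trans ?_ hD.le
    rw [mul_assoc]; gcongr
  calc _ = θ * (ε / 2) * volume.real S * volume.real (ref b) := by ring
    _ ≤ _ := by gcongr

end Pool.Agent.H8.Beer
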