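import Pool.Agent.H8.BeerMain

set_option autoImplicit false

namespace Pool.Agent.H8.Beer

open Set MeasureTheory Filter Topology Module

theorem frontier_sub {E : Type*} [NormedAddCommGroup E] [NormedSpace ℝ E] [FiniteDimensional ℝ E]
    {ι : Type*} [Fintype ι] [DecidableEq ι] (B : AffineBasis ι ℝ E) :
    frontier (convexHull ℝ (range B)) ⊆
      ⋃ j, convexHull ℝ (B '' (Finset.univ.erase j : Finset ι)) := by
  intro x hx
  rw [((finite_range _).isCompact_convexHull ℝ).isClosed.frontier_eq, B.interior_convexHull,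
    B.convexHull_eq_nonneg_coord] at hx
  obtain ⟨h1, h2⟩ := hx
  simp only [mem_ofPred_eq, not_forall, not_lt] at h1 h2
  obtain ⟨j, hj⟩ := h2
  have h0 : B.coord j x = 0 := le_antisymm hj (h1 j)
  refine mem_iUnion.2 ⟨j, ?_⟩
  rw [hull_eq]
  refine ⟨fun i => B.coord i x, h1, ?_, ?_⟩
  · rw [Finset.sum_erase (f := fun i => B.coord i x) _ h0, B.sum_coord_apply_eq_one]
  · rw [Finset.sum_erase _ (by simp [h0]), B.linear_combination_coord_eq_self]

theorem plane : ∀ ε : ℝ, 0 < ε → ∃ δ : ℝ, 0 < δ ∧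
      ∀ S : Set (ℝ × ℝ), MeasurableSet S → 0 < volume S → volume S < ⊤ →
        ENNReal.ofReal ε * (volume S) ^ 2 ≤
          volume {p : (ℝ × ℝ) × (ℝ × ℝ) | segment ℝ p.1 p.2 ⊆ S} →
        ∃ C : Set (ℝ × ℝ), Convex ℝ C ∧ Bornology.IsBounded C ∧
          ENNReal.ofReal δ * volume S ≤ volume C ∧ frontier C ⊆ S := by
  intro ε hε
  obtain ⟨δ, hδ, h⟩ := main (Basis.finTwoProd ℝ) 1 (by norm_num) ε hε
  refine ⟨δ, hδ, fun S hS h0 hf hb => ?_⟩
  have hV : 0 < volume.real S := ENNReal.toReal_pos h0.ne' hf.ne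
  have e := (volume_preserving_finTwoArrow (ℝ × ℝ)).measure_preimage_equiv
    {p : (ℝ × ℝ) × (ℝ × ℝ) | segment ℝ p.1 p.2 ⊆ S}
  have e2 : MeasurableEquiv.finTwoArrow ⁻¹' {p : (ℝ × ℝ) × (ℝ × ℝ) | segment ℝ p.1 p.2 ⊆ S} =
      GG 1 S := by
    ext x
    have : range x = {x 0, x 1} := by
      ext y
      simp [Fin.exists_fin_two, eq_comm]
    simp only [GG, mem_preimage, mem_ofPred_eq, this, convexHull_pair]
    exact ⟨fun a => ⟨Fin.forall_fin_two.2 ⟨a (left_mem_segment _ _ _), a (right_mem_segment _ _ _)⟩,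
      a⟩, fun a => a.2⟩
  rw [← e, e2] at hb
  have hb2 := ENNReal.toReal_mono (ne_top_of_le_ne_top (vol_pi_ne hf.ne)
    (measure_mono (GG_subset 1 S))) hb
  rw [ENNReal.toReal_mul, ENNReal.toReal_ofReal hε.le, ENNReal.toReal_pow] at hb2
  obtain ⟨X, h1, h2, h3⟩ := h S hS hV hf.ne hb2
  have hc : IsCompact (convexHull ℝ (range X)) := (finite_range _).isCompact_convexHull ℝ
  refine ⟨_, convex_convexHull ℝ _, hc.isBounded, ?_, ?_⟩
  · rw [← ENNReal.toReal_le_toReal (ENNReal.mul_ne_top ENNReal.ofReal_ne_top hf.ne)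
      hc.measure_lt_top.ne, ENNReal.toReal_mul, ENNReal.toReal_ofReal hδ.le]
    exact h2
  · let B : AffineBasis (Fin 3) ℝ (ℝ × ℝ) := ⟨X, h1, by
      rw [h1.affineSpan_eq_top_iff_card_eq_finrank_add_one]; simp⟩
    refine (frontier_sub B).trans (iUnion_subset fun j => h3 _ ?_)
    simp

end Pool.Agent.H8.Beer
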