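import Pool.Agent.H8.BeerFold

set_option autoImplicit false

namespace Pool.Agent.H8.Beer

open Set MeasureTheory Filter Topology Module
open scoped Pointwise

variable {E : Type*} [NormedAddCommGroup E] [NormedSpace ℝ E] {d : ℕ}

/-- edge vectors at the first point -/
def edg (x : Fin (d + 1) → E) : Fin d → E := fun i => x i.succ - x 0

def cube (d : ℕ) : Set (Fin d → ℝ) := pi univ fun _ => Icc (-1) 1

def par (y : Fin d → E) : Set E := (fun c : Fin d → ℝ => ∑ i, c i • y i) '' cube d

theorem det_constr (b : Basis (Fin d) ℝ E) (y : Fin d → E) :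
    LinearMap.det (b.constr ℝ y) = b.det y := by
  have := b.det_comp (b.constr ℝ y) b
  rw [b.det_self, mul_one] at this
  rw [← this]
  congr 1
  ext i
  simp

theorem par_eq (b : Basis (Fin d) ℝ E) (y : Fin d → E) : par y = b.constr ℝ y '' par b := by
  unfold par
  rw [image_image]
  simp

theorem compact_cube : IsCompact (cube d) := isCompact_univ_pi fun _ => isCompact_Icc

theorem compact_par (y : Fin d → E) : IsCompact (par y) := compact_cube.image (by fun_prop)

theorem det_upd (b : Basis (Fin d) ℝ E) (y : Fin d → E) (j : Fin d) (c : Fin d → ℝ) :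
    b.det (Function.update y j (∑ i, c i • y i)) = c j * b.det y := by
  rw [AlternatingMap.map_update_sum, Finset.sum_eq_single j]
  · simp
  · intro i _ hij
    rw [AlternatingMap.map_update_smul, AlternatingMap.map_update_self _ _ hij.symm, smul_zero]
  · simp

variable [FiniteDimensional ℝ E] [MeasureSpace E] [BorelSpace E]
  [(volume : Measure E).IsAddHaarMeasure]

theorem vol_par (b : Basis (Fin d) ℝ E) (y : Fin d → E) (p : E) :
    volume (p +ᵥ par y) = ENNReal.ofReal |b.det y| * volume (par b) := by
  rw [measure_vadd, par_eq b y, Measure.addHaar_image_linearMap, det_constr]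

omit [MeasureSpace E] [BorelSpace E] [(volume : Measure E).IsAddHaarMeasure] in
theorem cont_det (b : Basis (Fin d) ℝ E) : Continuous fun x : Fin (d + 1) → E => b.det (edg x) := by
  simp only [Basis.det_apply]
  refine Continuous.matrix_det (continuous_pi fun i => continuous_pi fun j => ?_)
  simp only [Basis.toMatrix_apply, edg]
  exact (b.coord i).continuous_of_finiteDimensional.comp (by fun_prop)

/-- weight of the distinguished coefficient -/
def wt (o : Option (Fin d)) (c : Fin d → ℝ) : ℝ := o.elim 1 fun j => |c j|

def fib (b : Basis (Fin d) ℝ E) (S : Set E) (η : ℝ) (o : Option (Fin d)) :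
    Set ((Fin (d + 1) → E) × E) :=
  (fun p : (Fin (d + 1) → E) × (Fin d → ℝ) => (p.1, p.1 0 + ∑ i, p.2 i • edg p.1 i)) ''
    {p | p ∈ (pi univ fun _ => S) ×ˢ cube d ∧ wt o p.2 * |b.det (edg p.1)| ≤ η}

theorem vol_fib (b : Basis (Fin d) ℝ E) {S : Set E} (hS : IsCompact S) {η : ℝ} (hη : 0 ≤ η)
    (o : Option (Fin d)) : (volume : Measure (Fin (d + 1) → E)).prod volume (fib b S η o) ≤
      ENNReal.ofReal η * volume (par b) * volume S ^ (d + 1) := by
  have hc : IsCompact (fib b S η o) := by
    refine IsCompact.image ?_ (by unfold edg; fun_prop)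
    have hcl : IsClosed {p : (Fin (d + 1) → E) × (Fin d → ℝ) |
        wt o p.2 * |b.det (edg p.1)| ≤ η} := by
      refine isClosed_le ?_ continuous_const
      refine Continuous.mul ?_ ((cont_det b).comp continuous_fst).abs
      cases o <;> simp only [wt, Option.elim] <;> fun_prop
    exact ((isCompact_univ_pi fun _ => hS).prod compact_cube).inter_right hcl
  rw [Measure.prod_apply hc.measurableSet]
  have hm : MeasurableSet (pi univ fun _ : Fin (d + 1) => S) :=
    (isCompact_univ_pi fun _ => hS).measurableSet
  calc ∫⁻ x, volume (Prod.mk x ⁻¹' fib b S η o)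
      ≤ ∫⁻ x, (pi univ fun _ : Fin (d + 1) => S).indicator
        (fun _ => ENNReal.ofReal η * volume (par b)) x := by
        refine lintegral_mono fun x => ?_
        by_cases hx : x ∈ pi univ fun _ : Fin (d + 1) => S
        · rw [indicator_of_mem hx]
          have key : ∀ y : Fin d → E, |b.det y| ≤ η →
              Prod.mk x ⁻¹' fib b S η o ⊆ x 0 +ᵥ par y →
              volume (Prod.mk x ⁻¹' fib b S η o) ≤ ENNReal.ofReal η * volume (par b) := by
            intro y hy hsub
            refine (measure_mono hsub).trans ?_
            rw [vol_par b]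
            gcongr
          by_cases hD : |b.det (edg x)| ≤ η
          · refine key (edg x) hD ?_
            rintro z ⟨⟨x', c⟩, ⟨⟨-, h2⟩, -⟩, h⟩
            obtain ⟨rfl, rfl⟩ := Prod.mk.inj h
            exact ⟨_, ⟨c, h2, rfl⟩, rfl⟩
          · push Not at hD
            have hD0 : 0 < |b.det (edg x)| := hη.trans_lt hD
            cases o with
            | none =>
              have : Prod.mk x ⁻¹' fib b S η none = ∅ := by
                rw [eq_empty_iff_forall_notMem]
                rintro z ⟨⟨x', c⟩, ⟨-, h3⟩, h⟩
                obtain ⟨rfl, rfl⟩ := Prod.mk.inj h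
                simp only [wt, Option.elim, one_mul] at h3
                linarith
              simp [this]
            | some j =>
              refine key (Function.update (edg x) j ((η / |b.det (edg x)|) • edg x j)) ?_ ?_
              · rw [AlternatingMap.map_update_smul, Function.update_eq_self, smul_eq_mul, abs_mul,
                  abs_of_nonneg (by positivity), div_mul_cancel₀ _ hD0.ne']
              · rintro z ⟨⟨x', c⟩, ⟨⟨-, h2⟩, h3⟩, h⟩
                obtain ⟨rfl, rfl⟩ := Prod.mk.inj h
                simp only [wt, Option.elim] at h3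
                refine ⟨_, ⟨Function.update c j (c j * |b.det (edg x')| / η), fun i _ => ?_, rfl⟩, ?_⟩
                · by_cases h : i = j
                  · subst h
                    simp only [Function.update_self]
                    rw [mem_Icc, ← abs_le, abs_div, abs_mul, abs_abs, abs_of_nonneg hη]
                    exact div_le_one_of_le₀ h3 hη
                  · simpa [h] using h2 i trivial
                · simp only [vadd_eq_add]
                  congr 1
                  refine Finset.sum_congr rfl fun i _ => ?_
                  by_cases h : i = j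
                  · subst h
                    simp only [Function.update_self, smul_smul]
                    congr 1
                    rcases hη.eq_or_lt with rfl | hη'
                    · have : |c i| = 0 := by
                        have := abs_nonneg (c i)
                        nlinarith
                      simp [abs_eq_zero.1 this]
                    · field_simp
                  · simp [h]
        · rw [indicator_of_notMem hx]
          have : Prod.mk x ⁻¹' fib b S η o = ∅ := by
            rw [eq_empty_iff_forall_notMem]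
            rintro z ⟨⟨x', c⟩, ⟨⟨h1, -⟩, -⟩, h⟩
            obtain ⟨rfl, rfl⟩ := Prod.mk.inj h
            exact hx h1
          simp [this]
    _ = _ := by rw [lintegral_indicator_const hm, volume_pi_pi]; simp

/-- exchanging a coordinate with the spare point -/
def swp1 (o : Option (Fin d)) :
    ((Fin (d + 1) → E) × E) →ₗ[ℝ] ((Fin (d + 1) → E) × E) :=
  o.elim LinearMap.id fun j =>
  { toFun p := (Function.update p.1 j.succ p.2, p.1 j.succ)
    map_add' p q := by
      ext k
      · by_cases h : k = j.succ <;> simp [h]
      · simp
    map_smul' c p := by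
      ext k
      · by_cases h : k = j.succ <;> simp [h]
      · simp }

omit [FiniteDimensional ℝ E] [MeasureSpace E] [BorelSpace E]
  [(volume : Measure E).IsAddHaarMeasure] in
theorem swp1_swp1 (o : Option (Fin d)) (p : (Fin (d + 1) → E) × E) :
    swp1 o (swp1 o p) = p := by
  cases o <;> simp [swp1]

omit [MeasureSpace E] [BorelSpace E] [(volume : Measure E).IsAddHaarMeasure] in
theorem cover (b : Basis (Fin d) ℝ E) (S : Set E) (η : ℝ) :
    {x | x ∈ (pi univ fun _ : Fin (d + 1) => S) ∧ |b.det (edg x)| ≤ η} ×ˢ S ⊆
      ⋃ o : Option (Fin d), swp1 o '' fib b S η o := by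
  rintro ⟨x, z⟩ ⟨⟨hx, hD⟩, hz⟩
  have hn : ¬ LinearIndependent ℝ (fun o : Option (Fin d) => o.elim (z - x 0) (edg x)) := by
    intro h
    have := h.fintype_card_le_finrank
    rw [finrank_eq_card_basis b] at this
    simp at this
  obtain ⟨g, hg, o1, ho1⟩ := Fintype.not_linearIndependent_iff.1 hn
  obtain ⟨o, ho⟩ := Finite.exists_max fun o => |g o|
  have h0 : g o ≠ 0 := fun e => ho1 (by simpa [e] using ho o1)
  have hle : ∀ o', -(g o' / g o) ∈ Icc (-1 : ℝ) 1 := fun o' => by
    rw [mem_Icc, ← abs_le, abs_neg, abs_div]
    exact div_le_one_of_le₀ (ho o') (abs_nonneg _)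
  rw [Fintype.sum_option] at hg
  simp only [Option.elim] at hg
  refine mem_iUnion.2 ⟨o, swp1 o (x, z), ?_, swp1_swp1 o _⟩
  cases o with
  | none =>
    refine ⟨(x, fun i => -(g (some i) / g none)), ⟨⟨hx, fun i _ => hle _⟩, by simpa [wt] using hD⟩,
      ?_⟩
    simp only [swp1, Option.elim, LinearMap.id_apply, Prod.mk.injEq, true_and]
    apply smul_right_injective E h0
    simp only [smul_add, Finset.smul_sum, smul_smul]
    have : ∀ i, g none * -(g (some i) / g none) = -g (some i) := fun i => by field_simp
    simp only [this, neg_smul, Finset.sum_neg_distrib]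
    rw [smul_sub] at hg
    rw [← sub_eq_zero, ← neg_eq_zero, ← hg]; abel
  | some j =>
    let x' := Function.update x j.succ z
    let c : Fin d → ℝ := fun i => if i = j then -(g none / g (some j)) else -(g (some i) / g (some j))
    have e1 : edg x' = Function.update (edg x) j (z - x 0) := by
      ext i
      by_cases h : i = j
      · subst h; simp [edg, x', (Fin.succ_ne_zero i).symm]
      · simp [edg, x', h, (Fin.succ_ne_zero j).symm]
    have e2 : ∑ i, c i • edg x' i = edg x j := by
      apply smul_right_injective E h0
      simp only [Finset.smul_sum, smul_smul]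
      rw [← Finset.add_sum_erase _ _ (Finset.mem_univ j)] at hg ⊢
      have a1 : (g (some j) * c j) • edg x' j = -(g none • (z - x 0)) := by
        simp only [c, if_true, e1, Function.update_self, ← neg_smul]
        congr 1; field_simp
      have a2 : ∑ i ∈ Finset.univ.erase j, (g (some j) * c i) • edg x' i =
          -∑ i ∈ Finset.univ.erase j, g (some i) • edg x i := by
        rw [← Finset.sum_neg_distrib]
        refine Finset.sum_congr rfl fun i hi => ?_
        have h := (Finset.mem_erase.1 hi).1
        simp only [c, if_neg h, e1, Function.update_of_ne h, ← neg_smul]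
        congr 1; field_simp
      rw [a1, a2, ← sub_eq_zero, ← neg_eq_zero, ← hg]; abel
    have e3 : b.det (edg x) = c j * b.det (edg x') := by
      rw [← det_upd, e2, e1]; simp
    refine ⟨(x', c), ⟨⟨fun i _ => ?_, fun i _ => ?_⟩, ?_⟩, ?_⟩
    · by_cases h : i = j.succ
      · simpa [x', h] using hz
      · simpa [x', h] using hx i trivial
    · simp only [c]; split_ifs <;> exact hle _
    · simp only [wt, Option.elim]
      rw [← abs_mul, ← e3]; exact hD
    · simp only [e2]
      simp [swp1, x', edg, (Fin.succ_ne_zero j).symm]

theorem small_vol (b : Basis (Fin d) ℝ E) {S : Set E} (hS : IsCompact S) (hV : 0 < volume.real S)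
    {η : ℝ} (hη : 0 ≤ η) :
    volume.real {x | x ∈ (pi univ fun _ : Fin (d + 1) => S) ∧ |b.det (edg x)| ≤ η} * volume.real S
      ≤ (d + 1) * (η * volume.real (par b) * volume.real S ^ (d + 1)) := by
  let μ : Measure ((Fin (d + 1) → E) × E) := (volume : Measure (Fin (d + 1) → E)).prod volume
  have hμ : μ.IsAddHaarMeasure := Measure.prod.instIsAddHaarMeasure _ _
  have hfin : ENNReal.ofReal η * volume (par b) * volume S ^ (d + 1) ≠ ⊤ :=
    ENNReal.mul_ne_top (ENNReal.mul_ne_top ENNReal.ofReal_ne_top
      (compact_par _).measure_lt_top.ne) (ENNReal.pow_ne_top hS.measure_lt_top.ne)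
  have h1 : ∀ o, μ.real (swp1 o '' fib b S η o) ≤
      η * volume.real (par b) * volume.real S ^ (d + 1) := by
    intro o
    rw [real_image_invol μ _ (swp1_swp1 o)]
    refine (ENNReal.toReal_mono hfin (vol_fib b hS hη o)).trans_eq ?_
    simp [Measure.real, hη]
  have h2 : ∀ o, μ (swp1 o '' fib b S η o) ≠ ⊤ := by
    intro o
    rw [Measure.addHaar_image_linearMap]
    exact ENNReal.mul_ne_top ENNReal.ofReal_ne_top (ne_top_of_le_ne_top hfin (vol_fib b hS hη o))
  have h3 := measureReal_mono (μ := μ) (cover b S η)
    (ne_top_of_le_ne_top (ENNReal.sum_ne_top.2 fun o _ => h2 o) (measure_iUnion_fintype_le _ _))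
  have h4 := (h3.trans (measureReal_iUnion_fintype_le _)).trans
    (Finset.sum_le_card_nsmul _ _ _ fun o _ => h1 o)
  simpa [μ, Measure.real, Measure.prod_prod] using h4

end Pool.Agent.H8.Beer
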