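import Mathlib

/-! Shuffles of two lists as a multiset, sums over shuffles, splitting and transport. -/

namespace Pool.Agent.H8.Bic

variable {β γ : Type*}

/-- The multiset of shuffles of two lists. -/
def sh : List β → List β → Multiset (List β)
  | [], v => {v}
  | a :: u, [] => {a :: u}
  | a :: u, b :: v => (sh u (b :: v)).map (a :: ·) + (sh (a :: u) v).map (b :: ·)
termination_by u v => u.length + v.length

@[simp] theorem sh_nil_left (v : List β) : sh [] v = {v} := by rw [sh]

@[simp] theorem sh_nil_right (u : List β) : sh u [] = {u} := by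
  cases u <;> simp [sh]

theorem sh_cons (a b : β) (u v : List β) :
    sh (a :: u) (b :: v) = (sh u (b :: v)).map (a :: ·) + (sh (a :: u) v).map (b :: ·) := by
  rw [sh]

theorem sh_map (f : β → γ) (u v : List β) :
    sh (u.map f) (v.map f) = (sh u v).map (List.map f) := by
  induction u, v using sh.induct with
  | case1 v => simp
  | case2 a u => simp
  | case3 a u b v ih1 ih2 =>
    simp only [List.map_cons] at ih1 ih2 ⊢
    rw [sh_cons, sh_cons, ih1, ih2]
    simp [Multiset.map_map]

theorem perm_of_mem_sh {u v τ : List β} (h : τ ∈ sh u v) : τ.Perm (u ++ v) := by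
  induction u, v using sh.induct generalizing τ with
  | case1 v => simp at h; simp [h]
  | case2 a u => simp at h; simp [h]
  | case3 a u b v ih1 ih2 =>
    rw [sh_cons, Multiset.mem_add, Multiset.mem_map, Multiset.mem_map] at h
    rcases h with ⟨t, ht, rfl⟩ | ⟨t, ht, rfl⟩
    · exact (ih1 ht).cons a
    · exact ((ih2 ht).cons b).trans List.perm_middle.symm

theorem length_of_mem_sh {u v τ : List β} (h : τ ∈ sh u v) : τ.length = u.length + v.length := by
  simpa using (perm_of_mem_sh h).length_eq

theorem sublist_of_mem_sh {u v τ : List β} (h : τ ∈ sh u v) : u.Sublist τ ∧ v.Sublist τ := by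
  induction u, v using sh.induct generalizing τ with
  | case1 v => simp at h; simp [h]
  | case2 a u => simp at h; simp [h]
  | case3 a u b v ih1 ih2 =>
    rw [sh_cons, Multiset.mem_add, Multiset.mem_map, Multiset.mem_map] at h
    rcases h with ⟨t, ht, rfl⟩ | ⟨t, ht, rfl⟩
    · exact ⟨(ih1 ht).1.cons_cons a, (ih1 ht).2.cons a⟩
    · exact ⟨(ih2 ht).1.cons b, (ih2 ht).2.cons_cons b⟩

theorem mem_sh_cons_left {a : β} {u v t : List β} (h : t ∈ sh u v) : a :: t ∈ sh (a :: u) v := by
  cases v with
  | nil => simp at h; simp [h]
  | cons b v =>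
    rw [sh_cons, Multiset.mem_add]
    exact Or.inl (Multiset.mem_map_of_mem _ h)

theorem mem_sh_cons_right {b : β} {u v t : List β} (h : t ∈ sh u v) : b :: t ∈ sh u (b :: v) := by
  cases u with
  | nil => simp at h; simp [h]
  | cons a u =>
    rw [sh_cons, Multiset.mem_add]
    exact Or.inr (Multiset.mem_map_of_mem _ h)

theorem length_le_of_sublists {u v τ : List β} (hn : (u ++ v).Nodup) (hu : u.Sublist τ)
    (hv : v.Sublist τ) : u.length + v.length ≤ τ.length := by
  have : (u ++ v).Subperm τ := by
    apply List.subperm_of_subset hn
    intro x hx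
    rcases List.mem_append.1 hx with h | h
    · exact hu.subset h
    · exact hv.subset h
  simpa using this.length_le

theorem mem_sh_of_sublists {τ u v : List β} (hn : (u ++ v).Nodup) (hu : u.Sublist τ)
    (hv : v.Sublist τ) (hl : τ.length = u.length + v.length) : τ ∈ sh u v := by
  induction τ generalizing u v with
  | nil =>
    simp at hu hv
    simp [hu, hv]
  | cons c t ih =>
    rcases List.sublist_cons_iff.1 hu with hu' | ⟨u', rfl, hu'⟩
    · rcases List.sublist_cons_iff.1 hv with hv' | ⟨v', rfl, hv'⟩
      · have := length_le_of_sublists hn hu' hv'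
        simp at hl; omega
      · apply mem_sh_cons_right
        apply ih _ hu' hv'
        · simp at hl ⊢; omega
        · exact hn.sublist (List.Sublist.append (List.Sublist.refl _) (List.sublist_cons_self _ _))
    · rcases List.sublist_cons_iff.1 hv with hv' | ⟨v', rfl, hv'⟩
      · apply mem_sh_cons_left
        apply ih _ hu' hv'
        · simp at hl ⊢; omega
        · exact (List.nodup_cons.1 hn).2
      · exfalso
        simp at hn

theorem head_mem_sh {u v τ : List β} (h : τ ∈ sh u v) :
    ∀ z ∈ τ.head?, z ∈ u.head? ∨ z ∈ v.head? := by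
  intro z hz
  cases u with
  | nil => simp at h; subst h; exact Or.inr hz
  | cons a u =>
    cases v with
    | nil => simp at h; subst h; exact Or.inl hz
    | cons b v =>
      rw [sh_cons, Multiset.mem_add, Multiset.mem_map, Multiset.mem_map] at h
      rcases h with ⟨t, _, rfl⟩ | ⟨t, _, rfl⟩
      · exact Or.inl hz
      · exact Or.inr hz

theorem mem_sh_cons {a : β} {u v τ : List β} (h : τ ∈ sh (a :: u) v) :
    (∃ t ∈ sh u v, τ = a :: t) ∨ ∃ b ∈ v.head?, ∃ t, τ = b :: t := by
  cases v with
  | nil => simp at h; left; exact ⟨u, by simp, h⟩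
  | cons b v =>
    rw [sh_cons, Multiset.mem_add, Multiset.mem_map, Multiset.mem_map] at h
    rcases h with ⟨t, ht, rfl⟩ | ⟨t, _, rfl⟩
    · exact Or.inl ⟨t, ht, rfl⟩
    · exact Or.inr ⟨b, rfl, t, rfl⟩

theorem sh_nodup {u v : List β} (hn : (u ++ v).Nodup) : (sh u v).Nodup := by
  induction u, v using sh.induct with
  | case1 v => simp
  | case2 a u => simp
  | case3 a u b v ih1 ih2 =>
    rw [sh_cons, Multiset.nodup_add]
    refine ⟨?_, ?_, ?_⟩
    · exact (ih1 (List.nodup_cons.1 hn).2).map (fun x y h => by simpa using h)
    · refine (ih2 ?_).map (fun x y h => by simpa using h)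
      exact hn.sublist (List.Sublist.append (List.Sublist.refl _) (List.sublist_cons_self _ _))
    · rw [Multiset.disjoint_left]
      intro t h1 h2
      rw [Multiset.mem_map] at h1 h2
      obtain ⟨t1, _, rfl⟩ := h1
      obtain ⟨t2, _, h⟩ := h2
      simp at h hn
      exact hn.1.2.1 h.1.symm

/-- Sum of `G` over all shuffles. -/
def S (u v : List β) (G : List β → ℤ) : ℤ := ((sh u v).map G).sum

@[simp] theorem S_nil_left (v : List β) (G : List β → ℤ) : S [] v G = G v := by simp [S]

@[simp] theorem S_nil_right (u : List β) (G : List β → ℤ) : S u [] G = G u := by simp [S]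

theorem S_cons (a b : β) (u v : List β) (G : List β → ℤ) :
    S (a :: u) (b :: v) G = S u (b :: v) (fun w => G (a :: w)) + S (a :: u) v (fun w => G (b :: w)) := by
  simp [S, sh_cons, Multiset.map_map]

theorem S_congr {u v : List β} {G G' : List β → ℤ} (h : ∀ τ ∈ sh u v, G τ = G' τ) :
    S u v G = S u v G' := by
  unfold S
  rw [Multiset.map_congr rfl h]

theorem S_add (u v : List β) (G G' : List β → ℤ) :
    S u v (fun w => G w + G' w) = S u v G + S u v G' := by
  simp [S, Multiset.sum_map_add]

theorem S_mul_left (u v : List β) (c : ℤ) (G : List β → ℤ) :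
    S u v (fun w => c * G w) = c * S u v G := by
  simp [S, Multiset.sum_map_mul_left]

theorem S_mul_right (u v : List β) (c : ℤ) (G : List β → ℤ) :
    S u v (fun w => G w * c) = S u v G * c := by
  simp [S, Multiset.sum_map_mul_right]

theorem S_snoc (p q : List β) (x z : β) (G : List β → ℤ) :
    S (p ++ [x]) (q ++ [z]) G =
      S p (q ++ [z]) (fun w => G (w ++ [x])) + S (p ++ [x]) q (fun w => G (w ++ [z])) := by
  induction p generalizing q G with
  | nil =>
    induction q generalizing G with
    | nil => simp [S_cons, add_comm]
    | cons b q ih =>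
      simp only [List.nil_append, List.cons_append, S_cons, S_nil_left] at ih ⊢
      rw [ih]; simp; ring
  | cons a p ihp =>
    induction q generalizing G with
    | nil =>
      have := ihp [] (fun w => G (a :: w))
      simp only [List.nil_append, List.cons_append, S_cons, S_nil_right] at this ⊢
      rw [this]; simp; ring
    | cons b q ih =>
      have h1 := ihp (b :: q) (fun w => G (a :: w))
      have h2 := ih (fun w => G (b :: w))
      simp only [List.cons_append, S_cons] at h1 h2 ⊢
      rw [h1, h2]; ring

theorem split1 (M B : List β) (a y : β) (G : List β → ℤ) :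
    S (M ++ a :: B) [y] G =
      S B [y] (fun t => G (M ++ a :: t)) + S M [y] (fun w => G (w ++ a :: B)) := by
  induction M generalizing G with
  | nil => simp [S_cons]
  | cons m M ih =>
    simp only [List.cons_append, S_cons, S_nil_right]
    rw [ih]; ring

theorem split2 (M B : List β) (a b y z : β) (G : List β → ℤ) :
    S (M ++ a :: b :: B) [y, z] G =
      S B [y, z] (fun t => G (M ++ a :: b :: t)) +
      S (M ++ [a]) [y] (fun w => S (b :: B) [z] (fun t => G (w ++ t))) +
      S M [y, z] (fun w => G (w ++ a :: b :: B)) := by
  induction M generalizing G with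
  | nil => simp [S_cons]; ring
  | cons m M ih =>
    have h := split1 (m :: M) (b :: B) a z (fun w => G (y :: w))
    simp only [List.cons_append] at h
    simp only [List.cons_append]
    rw [S_cons, ih, h, S_cons m y (M ++ [a]) [], S_cons m y M [z]]
    simp only [S_nil_right, List.cons_append, List.append_assoc, List.nil_append]
    ring

theorem split3 (M B : List β) (a b c r y z : β) (G : List β → ℤ) :
    S (M ++ a :: b :: c :: B) [r, y, z] G =
      S B [r, y, z] (fun t => G (M ++ a :: b :: c :: t)) +
      S (M ++ [a, b]) [r] (fun w => S (c :: B) [y, z] (fun t => G (w ++ t))) +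
      S (M ++ [a]) [r, y] (fun w => S (b :: c :: B) [z] (fun t => G (w ++ t))) +
      S M [r, y, z] (fun w => G (w ++ a :: b :: c :: B)) := by
  induction M generalizing G with
  | nil =>
    simp only [List.nil_append]
    rw [S_cons a r, S_cons b r, S_cons c r, S_cons a y, S_cons b y, S_cons a z,
      S_cons a r [b], S_cons b r [], S_cons a r [] [y], S_cons a y [] []]
    simp only [S_nil_left, S_nil_right, List.cons_append, List.nil_append]
    rw [S_cons b y (c :: B) [z]]
    ring
  | cons m M ih =>
    have h := split2 (m :: M) (c :: B) a b y z (fun w => G (r :: w))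
    simp only [List.cons_append] at h
    simp only [List.cons_append]
    rw [S_cons, ih, h, S_cons m r (M ++ [a, b]) [], S_cons m r (M ++ [a]) [y], S_cons m r M [y, z]]
    simp only [S_nil_right, List.cons_append, List.append_assoc, List.nil_append]
    ring

/-- Transport of a letter to the front of the word. -/
theorem transport (φ : List β → ℤ) (q q' p p' : List β) (x x' : β) (hl : q.length = q'.length)
    (hK : ∀ j < q.length, S ((q.take j).reverse ++ x :: p) (q.drop j) φ =
      S ((q'.take j).reverse ++ x' :: p') (q'.drop j) φ) :
    (S p q (fun w => φ (x :: w)) = S p' q' (fun w => φ (x' :: w)) ↔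
      φ (q.reverse ++ x :: p) = φ (q'.reverse ++ x' :: p')) := by
  induction q generalizing q' p p' x x' with
  | nil =>
    cases q' with
    | nil => simp
    | cons _ _ => simp at hl
  | cons z q ih =>
    cases q' with
    | nil => simp at hl
    | cons z' q' =>
      have h0 := hK 0 (by simp)
      simp only [List.take_zero, List.reverse_nil, List.nil_append, List.drop_zero, S_cons] at h0
      have := ih q' (x :: p) (x' :: p') z z' (by simpa using hl) (by
        intro j hj
        have := hK (j + 1) (by simpa using hj)
        simpa using this)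
      simp only [List.reverse_cons, List.append_assoc, List.cons_append, List.nil_append]
      rw [← this]
      constructor <;> intro h <;> linarith

end Pool.Agent.H8.Bic
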