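import Pool.Agent.H8.Bic1

/-! Overlapping window sums over shuffles with one, two or three letters. -/

namespace Pool.Agent.H8.Bic

variable {β : Type*}

/-- Product of a function of the first `k+1` letters and one of the letters from `k` on. -/
def Gf (k : ℕ) (φ ψ : List β → ℤ) (τ : List β) : ℤ := φ (τ.take (k + 1)) * ψ (τ.drop k)

theorem Gf_app {k : ℕ} (φ ψ : List β → ℤ) {w : List β} (h : w.length = k) (x : β) (t : List β) :
    Gf k φ ψ (w ++ x :: t) = φ (w ++ [x]) * ψ (x :: t) := by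
  subst h
  unfold Gf
  rw [List.drop_left, List.take_append]
  simp [List.take_of_length_le]

theorem S_Gf {k : ℕ} (φ ψ : List β → ℤ) (p q : List β) (h : p.length + q.length = k) (x : β)
    (t : List β) :
    S p q (fun w => Gf k φ ψ (w ++ x :: t)) = S p q (fun w => φ (w ++ [x])) * ψ (x :: t) := by
  rw [← S_mul_right]
  exact S_congr fun w hw => Gf_app φ ψ ((length_of_mem_sh hw).trans h) x t

theorem S_Gf1 {k : ℕ} (φ ψ : List β → ℤ) {w : List β} (h : w.length = k) (x z : β)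
    (p q : List β) :
    S (x :: p) (z :: q) (fun t => Gf k φ ψ (w ++ t)) =
      φ (w ++ [x]) * (S (x :: p) (z :: q) ψ - S (x :: p) q (fun t => ψ (z :: t))) +
      φ (w ++ [z]) * S (x :: p) q (fun t => ψ (z :: t)) := by
  rw [S_cons, S_cons x z p q ψ]
  simp only [Gf_app φ ψ h, S_mul_left]
  ring

theorem S_Gf2 {k : ℕ} (φ ψ : List β → ℤ) (p0 q0 : List β) (h : p0.length + q0.length = k)
    (x z : β) (p q : List β) :
    S p0 q0 (fun w => S (x :: p) (z :: q) (fun t => Gf k φ ψ (w ++ t))) =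
      S p0 q0 (fun w => φ (w ++ [x])) *
        (S (x :: p) (z :: q) ψ - S (x :: p) q (fun t => ψ (z :: t))) +
      S p0 q0 (fun w => φ (w ++ [z])) * S (x :: p) q (fun t => ψ (z :: t)) := by
  rw [← S_mul_right, ← S_mul_right, ← S_add]
  exact S_congr fun w hw => S_Gf1 φ ψ ((length_of_mem_sh hw).trans h) x z p q

theorem A1 (φ : List β → ℤ) (p : List β) (y x : β) :
    S p [y] (fun w => φ (w ++ [x])) = S (p ++ [x]) [y] φ - φ (p ++ [x, y]) := by
  have := S_snoc p [] x y φ
  simp only [List.nil_append, S_nil_right, List.append_assoc, List.cons_append] at this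
  rw [this]; ring

theorem A2 (φ : List β → ℤ) (p : List β) (r y x : β) :
    S p [r, y] (fun w => φ (w ++ [x])) =
      S (p ++ [x]) [r, y] φ - S (p ++ [x, y]) [r] φ + φ (p ++ [x, y, r]) := by
  have := S_snoc p [r] x y φ
  have h2 := A1 φ (p ++ [x]) r y
  simp only [List.nil_append, List.append_assoc, List.cons_append] at this h2
  rw [this, h2]; ring

theorem A3 (φ : List β → ℤ) (p : List β) (r y z x : β) :
    S p [r, y, z] (fun w => φ (w ++ [x])) =
      S (p ++ [x]) [r, y, z] φ - S (p ++ [x, z]) [r, y] φ + S (p ++ [x, z, y]) [r] φ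
        - φ (p ++ [x, z, y, r]) := by
  have := S_snoc p [r, y] x z φ
  have h2 := A2 φ (p ++ [x]) r y z
  simp only [List.nil_append, List.append_assoc, List.cons_append] at this h2
  rw [this, h2]; ring

theorem B1 (ψ : List β → ℤ) (p : List β) (y x : β) :
    S p [y] (fun w => ψ (x :: w)) = S (x :: p) [y] ψ - ψ (y :: x :: p) := by
  rw [S_cons]; simp

theorem B2 (ψ : List β → ℤ) (p : List β) (y z x : β) :
    S p [y, z] (fun w => ψ (x :: w)) =
      S (x :: p) [y, z] ψ - S (y :: x :: p) [z] ψ + ψ (z :: y :: x :: p) := by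
  rw [S_cons x y p [z], B1 ψ (x :: p) z y]; ring

theorem formula1 (φ ψ : List β → ℤ) (M P : List β) (b c y : β) :
    S (M ++ b :: c :: P) [y] (Gf (M.length + 1) φ ψ) =
      φ (M ++ [b, c]) * (S (c :: P) [y] ψ - ψ (y :: c :: P)) + φ (M ++ [b, y]) * ψ (y :: c :: P)
      + (S (M ++ [b]) [y] φ - φ (M ++ [b, y])) * ψ (b :: c :: P) := by
  rw [split1, S_Gf φ ψ M [y] (by simp), A1]
  have := S_Gf1 (k := M.length + 1) φ ψ (w := M ++ [b]) (by simp) c y P []
  simp only [List.append_assoc, List.cons_append, List.nil_append, S_nil_right] at this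
  rw [this]

theorem formula2 (φ ψ : List β → ℤ) (M P : List β) (a b c y z : β) :
    S (M ++ a :: b :: c :: P) [y, z] (Gf (M.length + 2) φ ψ) =
      φ (M ++ [a, b, c]) * (S (c :: P) [y, z] ψ - (S (y :: c :: P) [z] ψ - ψ (z :: y :: c :: P)))
      + φ (M ++ [a, b, y]) * (S (y :: c :: P) [z] ψ - ψ (z :: y :: c :: P))
      + (S (M ++ [a, b]) [y] φ - φ (M ++ [a, b, y])) * (S (b :: c :: P) [z] ψ - ψ (z :: b :: c :: P))
      + (S (M ++ [a, z]) [y] φ - φ (M ++ [a, z, y])) * ψ (z :: b :: c :: P)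
      + (S (M ++ [a]) [y, z] φ - S (M ++ [a, z]) [y] φ + φ (M ++ [a, z, y])) * ψ (a :: b :: c :: P) := by
  rw [split2, S_Gf φ ψ M [y, z] (by simp), A2,
    S_Gf2 φ ψ (M ++ [a]) [y] (by simp), A1, A1]
  have := S_Gf1 (k := M.length + 2) φ ψ (w := M ++ [a, b]) (by simp) c y P [z]
  simp only [List.append_assoc, List.cons_append, List.nil_append, S_nil_right] at this ⊢
  rw [this, B1]; ring

theorem formula3 (φ ψ : List β → ℤ) (M P : List β) (a b c w r y z : β) :
    S (M ++ a :: b :: c :: w :: P) [r, y, z] (Gf (M.length + 3) φ ψ) =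
      φ (M ++ [a, b, c, w]) * (S (w :: P) [r, y, z] ψ -
        (S (r :: w :: P) [y, z] ψ - S (y :: r :: w :: P) [z] ψ + ψ (z :: y :: r :: w :: P)))
      + φ (M ++ [a, b, c, r]) *
        (S (r :: w :: P) [y, z] ψ - S (y :: r :: w :: P) [z] ψ + ψ (z :: y :: r :: w :: P))
      + (S (M ++ [a, b, c]) [r] φ - φ (M ++ [a, b, c, r])) *
        (S (c :: w :: P) [y, z] ψ - (S (y :: c :: w :: P) [z] ψ - ψ (z :: y :: c :: w :: P)))
      + (S (M ++ [a, b, y]) [r] φ - φ (M ++ [a, b, y, r])) *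
        (S (y :: c :: w :: P) [z] ψ - ψ (z :: y :: c :: w :: P))
      + (S (M ++ [a, b]) [r, y] φ - S (M ++ [a, b, y]) [r] φ + φ (M ++ [a, b, y, r])) *
        (S (b :: c :: w :: P) [z] ψ - ψ (z :: b :: c :: w :: P))
      + (S (M ++ [a, z]) [r, y] φ - S (M ++ [a, z, y]) [r] φ + φ (M ++ [a, z, y, r])) *
        ψ (z :: b :: c :: w :: P)
      + (S (M ++ [a]) [r, y, z] φ - S (M ++ [a, z]) [r, y] φ + S (M ++ [a, z, y]) [r] φ
        - φ (M ++ [a, z, y, r])) * ψ (a :: b :: c :: w :: P) := by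
  rw [split3, S_Gf φ ψ M [r, y, z] (by simp), A3,
    S_Gf2 φ ψ (M ++ [a, b]) [r] (by simp), S_Gf2 φ ψ (M ++ [a]) [r, y] (by simp), A1, A1, A2, A2]
  have := S_Gf1 (k := M.length + 3) φ ψ (w := M ++ [a, b, c]) (by simp) w r P [y, z]
  simp only [List.append_assoc, List.cons_append, List.nil_append, S_nil_right] at this ⊢
  rw [this, B2, B1]; ring

end Pool.Agent.H8.Bic
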