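import Pool.Agent.H8.Bic2

/-! Bicompatible statistics on rational words are descent statistics. -/

namespace Pool.Agent.H8.Bic

variable {α : Type*}

structure Bi (st : List ℚ → α) : Prop where
  iso : ∀ (w : List ℚ) (g : ℚ → ℚ), StrictMonoOn g {x | x ∈ w} → st (w.map g) = st w
  shuf : ∀ u v u' v' : List ℚ, (u ++ v).Nodup → (u' ++ v').Nodup → u.length = u'.length →
    v.length = v'.length → st u = st u' → st v = st v' → (sh u v).map st = (sh u' v').map st
  sub : ∀ w w' : List ℚ, w.Nodup → w'.Nodup → w.length = w'.length → st w = st w' →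
    ∀ k, st (w.take k) = st (w'.take k) ∧ st (w.drop k) = st (w'.drop k)

open Classical in
/-- Indicator of a value. -/
noncomputable def ind (a : α) (b : α) : ℤ := if b = a then 1 else 0

theorem ind_self (a : α) : ind a a = 1 := by simp [ind]

theorem ind_ne {a b : α} (h : b ≠ a) : ind a b = 0 := by simp [ind, h]

theorem eq_of_ind {a b : α} (h : ind a a = ind a b) : a = b := by
  by_contra hne
  rw [ind_self, ind_ne (Ne.symm hne)] at h
  exact one_ne_zero h

theorem nd_of {L L' : List ℚ} (hn : L.Nodup) (h : ∀ a, L'.count a ≤ L.count a) : L'.Nodup :=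
  List.nodup_iff_count_le_one.2 fun a => (h a).trans (List.nodup_iff_count_le_one.1 hn a)

theorem fresh (F : List ℚ) {a b : ℚ} (h : a < b) : ∃ x, a < x ∧ x < b ∧ x ∉ F := by
  have : (Set.Ioo a b).Infinite := Set.Ioo_infinite h
  obtain ⟨x, hx, hx'⟩ := this.exists_notMem_finite (List.finite_toSet F)
  exact ⟨x, hx.1, hx.2, hx'⟩

theorem extend (l S F : List ℚ) (f : ℚ → ℚ) (hf : StrictMonoOn f {x | x ∈ S}) :
    ∃ g : ℚ → ℚ, (∀ x ∈ S, g x = f x) ∧ StrictMonoOn g {x | x ∈ S ++ l} ∧
      ∀ x ∈ l, x ∉ S → g x ∉ F := by
  classical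
  induction l generalizing S f with
  | nil => exact ⟨f, fun _ _ => rfl, by simpa using hf, by simp⟩
  | cons a l ih =>
    by_cases ha : a ∈ S
    · obtain ⟨g, h1, h2, h3⟩ := ih S f hf
      refine ⟨g, h1, h2.mono ?_, ?_⟩
      · intro x hx
        simp only [Set.mem_setOf_eq, List.mem_append, List.mem_cons] at hx ⊢
        rcases hx with h | rfl | h
        · exact Or.inl h
        · exact Or.inl ha
        · exact Or.inr h
      · intro x hx hxS
        rcases List.mem_cons.1 hx with rfl | h
        · exact absurd ha hxS
        · exact h3 x h hxS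
    · set lo := ((S.filter (· < a)).map f).toFinset
      set hi := ((S.filter (a < ·)).map f).toFinset
      have hlh : ∀ x ∈ lo, ∀ y ∈ hi, x < y := by
        intro x hx y hy
        simp only [lo, hi, List.mem_toFinset, List.mem_map, List.mem_filter,
          decide_eq_true_eq] at hx hy
        obtain ⟨s, ⟨hs, hsa⟩, rfl⟩ := hx
        obtain ⟨t, ⟨ht, hta⟩, rfl⟩ := hy
        exact hf hs ht (hsa.trans hta)
      obtain ⟨m1, hm1, hm1'⟩ := Order.exists_between_finsets lo hi hlh
      obtain ⟨m2, hm2, hm2'⟩ := Order.exists_between_finsets {m1} hi (by simpa using hm1')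
      obtain ⟨m, hm, hm', hmF⟩ := fresh F (hm2 m1 (by simp))
      have hlo : ∀ s ∈ S, s < a → f s < m := fun s hs h =>
        (hm1 _ (by simp only [lo, List.mem_toFinset, List.mem_map, List.mem_filter,
          decide_eq_true_eq]; exact ⟨s, ⟨hs, h⟩, rfl⟩)).trans hm
      have hhi : ∀ s ∈ S, a < s → m < f s := fun s hs h =>
        hm'.trans (hm2' _ (by simp only [hi, List.mem_toFinset, List.mem_map, List.mem_filter,
          decide_eq_true_eq]; exact ⟨s, ⟨hs, h⟩, rfl⟩))
      have hf' : StrictMonoOn (Function.update f a m) {x | x ∈ a :: S} := by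
        intro x hx y hy hxy
        simp only [Set.mem_setOf_eq, List.mem_cons] at hx hy
        rcases hx with rfl | hx <;> rcases hy with rfl | hy
        · exact absurd hxy (lt_irrefl _)
        · rw [Function.update_self, Function.update_of_ne hxy.ne']
          exact hhi y hy hxy
        · rw [Function.update_self, Function.update_of_ne hxy.ne]
          exact hlo x hx hxy
        · rw [Function.update_of_ne (by rintro rfl; exact ha hx),
            Function.update_of_ne (by rintro rfl; exact ha hy)]
          exact hf hx hy hxy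
      obtain ⟨g, h1, h2, h3⟩ := ih (a :: S) _ hf'
      refine ⟨g, ?_, h2.mono ?_, ?_⟩
      · intro x hx
        rw [h1 x (List.mem_cons_of_mem _ hx), Function.update_of_ne (by rintro rfl; exact ha hx)]
      · intro x hx
        simp only [Set.mem_setOf_eq, List.mem_append, List.mem_cons] at hx ⊢
        tauto
      · intro x hx hxS
        by_cases hxa : x = a
        · subst hxa
          rw [h1 x (by simp), Function.update_self]
          exact hmF
        · exact h3 x (by simpa [hxa] using hx) (by simp [hxa, hxS])

namespace Bi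

variable {st : List ℚ → α} (H : Bi st)
include H

theorem single (x y : ℚ) : st [x] = st [y] := by
  have := H.iso [y] (fun _ => x) (by intro a ha b hb hab; simp at ha hb; simp [ha, hb] at hab)
  simpa using this

theorem K_eq {u v u' v' : List ℚ} (h1 : (u ++ v).Nodup) (h2 : (u' ++ v').Nodup)
    (h3 : u.length = u'.length) (h4 : v.length = v'.length) (h5 : st u = st u')
    (h6 : st v = st v') (h : α → ℤ) :
    S u v (fun w => h (st w)) = S u' v' (fun w => h (st w)) := by
  have := congrArg (fun m => (Multiset.map h m).sum) (H.shuf u v u' v' h1 h2 h3 h4 h5 h6)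
  simpa [S, Multiset.map_map] using this

theorem T_eq {u v v' : List ℚ} (h1 : (u ++ v).Nodup) (h2 : (u ++ v').Nodup)
    (h4 : v.length = v'.length) (h6 : st v = st v') (k : ℕ) (h h' : α → ℤ) :
    S u v (Gf k (fun w => h (st w)) (fun w => h' (st w))) =
      S u v' (Gf k (fun w => h (st w)) (fun w => h' (st w))) := by
  classical
  set G := Gf k (fun w => h (st w)) (fun w => h' (st w))
  let Hf : α → ℤ := fun a =>
    if e : ∃ τ : List ℚ, τ.Nodup ∧ τ.length = u.length + v.length ∧ st τ = a then G e.choose else 0
  have key : ∀ τ : List ℚ, τ.Nodup → τ.length = u.length + v.length → G τ = Hf (st τ) := by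
    intro τ hn hl
    have e : ∃ σ : List ℚ, σ.Nodup ∧ σ.length = u.length + v.length ∧ st σ = st τ :=
      ⟨τ, hn, hl, rfl⟩
    have hs := e.choose_spec
    simp only [Hf, dif_pos e, G, Gf]
    rw [(H.sub _ _ hs.1 hn (hs.2.1.trans hl.symm) hs.2.2 (k + 1)).1,
      (H.sub _ _ hs.1 hn (hs.2.1.trans hl.symm) hs.2.2 k).2]
  rw [S_congr (G' := fun w => Hf (st w)) fun τ hτ =>
      key τ ((perm_of_mem_sh hτ).nodup_iff.2 h1) (length_of_mem_sh hτ),
    S_congr (u := u) (v := v') (G' := fun w => Hf (st w)) fun τ hτ =>
      key τ ((perm_of_mem_sh hτ).nodup_iff.2 h2) (by rw [length_of_mem_sh hτ, h4])]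
  exact H.K_eq h1 h2 rfl h4 rfl h6 Hf

omit H in
theorem nodup_tr {q p : List ℚ} {x : ℚ} (h : (q.reverse ++ x :: p).Nodup) (j : ℕ) :
    (((q.take j).reverse ++ x :: p) ++ q.drop j).Nodup := by
  refine (List.Perm.nodup_iff ?_).1 h
  have : q.reverse = (q.drop j).reverse ++ (q.take j).reverse := by
    rw [← List.reverse_append, List.take_append_drop]
  rw [this, List.append_assoc]
  exact List.perm_append_comm.trans (List.Perm.append_left _ (List.reverse_perm _))

theorem rev (n : ℕ) : ∀ w w' : List ℚ, w.length = n → w'.length = n → w.Nodup → w'.Nodup →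
    st w = st w' → st w.reverse = st w'.reverse := by
  induction n using Nat.strong_induction_on with
  | _ n ih =>
    intro w w' hl hl' hn hn' he
    cases w with
    | nil =>
      cases w' with
      | nil => rfl
      | cons _ _ => simp at hl hl'; omega
    | cons x q =>
      cases w' with
      | nil => simp at hl hl'; omega
      | cons x' q' =>
        have hq : q.length = q'.length := by simp at hl hl'; omega
        simp only [List.reverse_cons]
        apply eq_of_ind
        refine (transport (fun w => ind (st (q.reverse ++ [x])) (st w)) q q' [] [] x x' hq ?_).1 ?_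
        · intro j hj
          have hs := H.sub _ _ hn hn' (hl.trans hl'.symm) he (j + 1)
          apply H.K_eq (nodup_tr _ j) (nodup_tr _ j) (by simp [hq]) (by simp [hq])
          · have := ih (j + 1) (by simp at hl; omega) _ _ (by simp; omega) (by simp; omega)
              (hn.sublist (List.take_sublist _ _)) (hn'.sublist (List.take_sublist _ _)) hs.1
            simpa using this
          · simpa using hs.2
          · simpa using List.nodup_reverse.2 hn
          · simpa using List.nodup_reverse.2 hn'
        · simp [he]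

theorem tr2 {q p : List ℚ} {x x' : ℚ} (hn : (q.reverse ++ x :: p).Nodup)
    (hn' : (q.reverse ++ x' :: p).Nodup)
    (h1 : ∀ j < q.length, st ((q.take j).reverse ++ x :: p) = st ((q.take j).reverse ++ x' :: p))
    (h2 : ∀ τ ∈ sh p q, st (x :: τ) = st (x' :: τ)) :
    st (q.reverse ++ x :: p) = st (q.reverse ++ x' :: p) := by
  apply eq_of_ind
  refine (transport (fun w => ind (st (q.reverse ++ x :: p)) (st w)) q q p p x x' rfl ?_).1 ?_
  · intro j hj
    exact H.K_eq (nodup_tr hn j) (nodup_tr hn' j) (by simp) rfl (h1 j hj) rfl _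
  · exact S_congr fun τ hτ => by rw [h2 τ hτ]

omit H in
theorem nodup_sh {q p τ : List ℚ} {x : ℚ} (hn : (q.reverse ++ x :: p).Nodup) (hτ : τ ∈ sh p q) :
    (x :: τ).Nodup := by
  have := nodup_tr hn 0
  simp only [List.take_zero, List.reverse_nil, List.nil_append, List.drop_zero,
    List.cons_append] at this
  exact ((perm_of_mem_sh hτ).cons x).nodup_iff.2 this

theorem G1 {M P : List ℚ} {b c y : ℚ} (hn : (M ++ b :: c :: y :: P).Nodup) :
    st (M ++ [b, y]) = st (M ++ [b, c]) ∨ st (b :: c :: P) = st (y :: c :: P) := by
  by_contra hc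
  rw [not_or] at hc
  obtain ⟨g, g1, g2, g3⟩ := extend [c] (M ++ [b]) (M ++ b :: c :: P) id (fun _ _ _ _ h => h)
  have hcM : c ∉ M ++ [b] := by grind [List.nodup_append]
  have hy0 := g3 c (by simp) hcM
  have e0 : st (M ++ [b, g c]) = st (M ++ [b, c]) := by
    have := H.iso _ g g2
    rw [List.map_append, List.map_congr_left g1] at this
    simpa using this
  have n1 : ((M ++ b :: c :: P) ++ [y]).Nodup := nd_of hn (by intro aa; simp only [List.count_append, List.count_cons, List.count_nil, List.count_reverse]; omega)
  have n0 : (g c :: (M ++ b :: c :: P)).Nodup := List.nodup_cons.2 ⟨hy0, nd_of hn (by intro aa; simp only [List.count_append, List.count_cons, List.count_nil, List.count_reverse]; omega)⟩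
  have n2 : ((M ++ b :: c :: P) ++ [g c]).Nodup := nd_of n0 (by intro aa; simp only [List.count_append, List.count_cons, List.count_nil, List.count_reverse]; omega)
  have hT := H.T_eq n1 n2 rfl (H.single _ _) (M.length + 1) (ind (st (M ++ [b, y])))
    (ind (st (b :: c :: P)))
  rw [formula1, formula1] at hT
  have k1 := H.K_eq (u := c :: P) (v := [y]) (u' := c :: P) (v' := [g c])
    (nd_of hn (by intro aa; simp only [List.count_append, List.count_cons, List.count_nil, List.count_reverse]; omega)) (nd_of n0 (by intro aa; simp only [List.count_append, List.count_cons, List.count_nil, List.count_reverse]; omega)) rfl rfl rfl (H.single _ _)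
    (ind (st (b :: c :: P)))
  have k2 := H.K_eq (u := M ++ [b]) (v := [y]) (u' := M ++ [b]) (v' := [g c])
    (nd_of hn (by intro aa; simp only [List.count_append, List.count_cons, List.count_nil, List.count_reverse]; omega)) (nd_of n0 (by intro aa; simp only [List.count_append, List.count_cons, List.count_nil, List.count_reverse]; omega)) rfl rfl rfl (H.single _ _)
    (ind (st (M ++ [b, y])))
  rw [k1, k2, e0, ind_self, ind_self, ind_ne (Ne.symm hc.1), ind_ne (Ne.symm hc.2)] at hT
  linarith

theorem G1' {M P : List ℚ} {b c y : ℚ} (hn : (M ++ b :: c :: y :: P).Nodup) :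
    st (y :: b :: M) = st (c :: b :: M) ∨ st (b :: c :: P) = st (y :: c :: P) := by
  have hn' : (M.reverse ++ b :: c :: y :: P).Nodup := nd_of hn (by intro aa; simp only [List.count_append, List.count_cons, List.count_nil, List.count_reverse]; omega)
  rcases H.G1 hn' with h | h
  · left
    have := H.rev _ _ _ rfl (by simp) (nd_of hn (by intro aa; simp only [List.count_append, List.count_cons, List.count_nil, List.count_reverse]; omega)) (nd_of hn (by intro aa; simp only [List.count_append, List.count_cons, List.count_nil, List.count_reverse]; omega)) h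
    simpa using this
  · exact Or.inr h

/-- Relabelled form of `G1'`: triples of the same order type. -/
theorem G1'' {M P : List ℚ} {b c y b' c' y' : ℚ} (hn : (b :: c :: y :: M).Nodup)
    (hn' : (b' :: c' :: y' :: P).Nodup) (h1 : b' < c' ↔ b < c) (h2 : b' < y' ↔ b < y)
    (h3 : c' < y' ↔ c < y) :
    st (y :: b :: M) = st (c :: b :: M) ∨ st (b' :: c' :: P) = st (y' :: c' :: P) := by
  have hf : StrictMonoOn (fun t : ℚ => if t = b' then b else if t = c' then c else y)
      {x | x ∈ [b', c', y']} := by
    intro s hs t ht hst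
    simp only [Set.mem_setOf_eq, List.mem_cons, List.not_mem_nil, or_false] at hs ht
    grind
  obtain ⟨g, g1, g2, g3⟩ := extend P [b', c', y'] (b :: c :: y :: M) _ hf
  have gb : g b' = b := by rw [g1 b' (by simp)]; simp
  have gc : g c' = c := by rw [g1 c' (by simp)]; grind
  have gy : g y' = y := by rw [g1 y' (by simp)]; grind
  have hP : (P.map g).Nodup := by
    refine List.Nodup.map_on ?_ (by grind)
    intro s hs t ht e
    exact g2.injOn (by simp [hs]) (by simp [ht]) e
  have hPF : ∀ t ∈ P.map g, t ∉ b :: c :: y :: M := by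
    intro t ht
    obtain ⟨s, hs, rfl⟩ := List.mem_map.1 ht
    exact g3 s hs (by grind)
  have e1 := H.iso (b' :: c' :: P) g (g2.mono (by intro t; simp; tauto))
  have e2 := H.iso (y' :: c' :: P) g (g2.mono (by intro t; simp; tauto))
  simp only [List.map_cons, gb, gc, gy] at e1 e2
  rw [← e1, ← e2]
  apply H.G1'
  have n0 : ((b :: c :: y :: M) ++ P.map g).Nodup :=
    List.nodup_append.2 ⟨hn, hP, fun s hs t ht e => hPF t ht (e ▸ hs)⟩
  exact nd_of n0 (by intro aa; simp only [List.count_append, List.count_cons, List.count_nil, List.count_reverse]; omega)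

theorem first_lt {P : List ℚ} {b c y : ℚ} (hn : (b :: c :: y :: P).Nodup) (hcy : c < y)
    (h : c < b ↔ y < b) : st (y :: b :: P) = st (c :: b :: P) := by
  by_contra hne
  by_cases hb : y < b
  · obtain ⟨z, hz, -, hzF⟩ := fresh (b :: c :: y :: P) (lt_add_one b)
    have a1 := (H.G1'' (b' := z) (c' := b) (y' := y) (P := P) (b := b) (c := y) (y := c) (M := P)
      (by grind) (by grind) (by grind) (by grind) (by grind)).resolve_left (Ne.symm hne)
    have a2 := (H.G1'' (b' := z) (c' := b) (y' := c) (P := P) (b := b) (c := y) (y := c) (M := P)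
      (by grind) (by grind) (by grind) (by grind) (by grind)).resolve_left (Ne.symm hne)
    exact hne (a1.symm.trans a2)
  · obtain ⟨z, -, hz, hzF⟩ := fresh (b :: c :: y :: P) (sub_one_lt b)
    have a1 := (H.G1'' (b' := z) (c' := b) (y' := y) (P := P) hn
      (by grind) (by grind) (by grind) (by grind)).resolve_left hne
    have a2 := (H.G1'' (b' := z) (c' := b) (y' := c) (P := P) hn
      (by grind) (by grind) (by grind) (by grind)).resolve_left hne
    exact hne (a1.symm.trans a2)

theorem first {τ : List ℚ} {x x' : ℚ} (hn : (x :: τ).Nodup) (hn' : (x' :: τ).Nodup)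
    (h : ∀ z ∈ τ.head?, (x < z ↔ x' < z)) : st (x :: τ) = st (x' :: τ) := by
  cases τ with
  | nil => exact H.single _ _
  | cons b P =>
    have hb := h b rfl
    rcases lt_trichotomy x x' with hx | rfl | hx
    · exact (H.first_lt (by grind) hx hb).symm
    · rfl
    · exact H.first_lt (by grind) hx hb.symm

theorem move (n : ℕ) : ∀ (q p : List ℚ) (x x' : ℚ), q.length = n → (q.reverse ++ x :: p).Nodup →
    (q.reverse ++ x' :: p).Nodup → (∀ z ∈ p.head?, (x < z ↔ x' < z)) →
    (∀ z ∈ q.head?, (x < z ↔ x' < z)) → st (q.reverse ++ x :: p) = st (q.reverse ++ x' :: p) := by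
  induction n using Nat.strong_induction_on with
  | _ n ih =>
    intro q p x x' hl hn hn' hp hq
    apply H.tr2 hn hn'
    · intro j hj
      apply ih j (by omega) _ _ _ _ (by simp; omega)
        (List.Nodup.of_append_left (nodup_tr hn j)) (List.Nodup.of_append_left (nodup_tr hn' j)) hp
      intro z hz
      apply hq
      cases q with
      | nil => simp at hz
      | cons a q => cases j <;> simp_all
    · intro τ hτ
      apply H.first (nodup_sh hn hτ) (nodup_sh hn' hτ)
      intro z hz
      rcases head_mem_sh hτ z hz with h | h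
      · exact hp z h
      · exact hq z h

end Bi

end Pool.Agent.H8.Bic
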