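import Pool.Agent.H8.Bic3

/-! Descent patterns of rational words. -/

namespace Pool.Agent.H8.Bic

variable {α : Type*}

/-- Descent pattern: `true` at a descent. -/
def des : List ℚ → List Bool
  | a :: b :: t => decide (b < a) :: des (b :: t)
  | _ => []

@[simp] theorem des_nil : des [] = [] := rfl
@[simp] theorem des_one (a : ℚ) : des [a] = [] := rfl
@[simp] theorem des_cons (a b : ℚ) (t : List ℚ) :
    des (a :: b :: t) = decide (b < a) :: des (b :: t) := rfl

theorem des_append (l P : List ℚ) (c : ℚ) : des (l ++ c :: P) = des (l ++ [c]) ++ des (c :: P) := by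
  induction l with
  | nil => simp
  | cons a l ih =>
    cases l with
    | nil => simp
    | cons b l => simp only [List.cons_append, des_cons] at ih ⊢; rw [ih]

theorem length_des (a : ℚ) (w : List ℚ) : (des (a :: w)).length = w.length := by
  induction w generalizing a with
  | nil => rfl
  | cons b w ih => simp [ih]

theorem length_des' (w : List ℚ) : (des w).length = w.length - 1 := by
  cases w with
  | nil => rfl
  | cons a w => simp [length_des]

/-- Pattern of the reversed word. -/
def rf (s : List Bool) : List Bool := s.reverse.map not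

theorem rf_rf (s : List Bool) : rf (rf s) = s := by
  simp [rf, List.map_reverse, Function.comp_def]

theorem des_rev (w : List ℚ) (hn : w.Nodup) : des w.reverse = rf (des w) := by
  induction w with
  | nil => rfl
  | cons a w ih =>
    cases w with
    | nil => rfl
    | cons b t =>
      have h := ih (List.nodup_cons.1 hn).2
      have hab : a ≠ b := by grind
      simp only [List.reverse_cons, List.append_assoc, List.cons_append, List.nil_append] at h ⊢
      rw [des_append, h]
      simp only [rf, des_cons, des_one, List.reverse_cons, List.map_append, List.map_cons,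
        List.map_nil, List.append_cancel_left_eq, List.cons.injEq, and_true]
      by_cases h : a < b
      · simp [h, h.not_gt]
      · simp [h, lt_of_le_of_ne (not_lt.1 h) hab.symm]

theorem realR (s : List Bool) (c : ℚ) (F : List ℚ) :
    ∃ P : List ℚ, P.Nodup ∧ (∀ z ∈ P, z ∉ F) ∧ des (c :: P) = s := by
  induction s generalizing c F with
  | nil => exact ⟨[], by simp, by simp, rfl⟩
  | cons x s ih =>
    have : ∃ y, y ∉ F ∧ decide (y < c) = x := by
      cases x
      · obtain ⟨y, hy, -, hF⟩ := fresh F (lt_add_one c)
        exact ⟨y, hF, by simp [hy.le]⟩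
      · obtain ⟨y, -, hy, hF⟩ := fresh F (sub_one_lt c)
        exact ⟨y, hF, by simp [hy]⟩
    obtain ⟨y, hy, hx⟩ := this
    obtain ⟨P, h1, h2, h3⟩ := ih y (y :: F)
    refine ⟨y :: P, List.nodup_cons.2 ⟨fun h => h2 y h (by simp), h1⟩, ?_, by simp [hx, h3]⟩
    intro z hz
    rcases List.mem_cons.1 hz with rfl | hz
    · exact hy
    · exact fun h => h2 z hz (List.mem_cons_of_mem _ h)

theorem realR' (s : List Bool) (c : ℚ) (F : List ℚ) (hF : F.Nodup) :
    ∃ P : List ℚ, (F ++ P).Nodup ∧ des (c :: P) = s := by
  obtain ⟨P, h1, h2, h3⟩ := realR s c F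
  exact ⟨P, List.nodup_append.2 ⟨hF, h1, fun a ha b hb e => h2 b hb (e ▸ ha)⟩, h3⟩

theorem realL' (m : List Bool) (a : ℚ) (F : List ℚ) (hF : (a :: F).Nodup) :
    ∃ M : List ℚ, (M ++ a :: F).Nodup ∧ des (M ++ [a]) = m := by
  obtain ⟨P, h1, h3⟩ := realR' (rf m) a _ hF
  refine ⟨P.reverse, nd_of h1 (by intro aa; simp only [List.count_append, List.count_cons, List.count_nil, List.count_reverse]; omega), ?_⟩
  have := des_rev (a :: P) (nd_of h1 (by intro aa; simp only [List.count_append, List.count_cons, List.count_nil, List.count_reverse]; omega))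
  rw [h3, rf_rf] at this
  simpa using this

theorem near (m : ℚ) (F : List ℚ) :
    ∃ m', m' ∉ F ∧ ∀ z ∈ F, z ≠ m → (m < z ↔ m' < z) := by
  obtain ⟨g, g1, g2, g3⟩ := extend [m] (F.filter (· ≠ m)) F id (fun _ _ _ _ h => h)
  refine ⟨g m, g3 m (by simp) (by simp), fun z hz hzm => ?_⟩
  have e : g z = z := g1 z (by simp [hz, hzm])
  have := g2.lt_iff_lt (a := m) (b := z) (by simp) (by simp [hz, hzm])
  rw [← this, e]

/-- A word with a given pattern. -/
noncomputable def real (s : List Bool) : List ℚ := 0 :: (realR' s 0 [0] (by simp)).choose

theorem real_nodup (s : List Bool) : (real s).Nodup := (realR' s 0 [0] (by simp)).choose_spec.1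

theorem des_real (s : List Bool) : des (real s) = s := (realR' s 0 [0] (by simp)).choose_spec.2

theorem length_real (s : List Bool) : (real s).length = s.length + 1 := by
  have := des_real s
  unfold real at this ⊢
  conv_rhs => rw [← this, length_des]
  simp

theorem des_take (w : List ℚ) (k : ℕ) : des (w.take (k + 1)) = (des w).take k := by
  induction k generalizing w with
  | zero => rcases w with _ | ⟨a, _ | ⟨b, t⟩⟩ <;> simp
  | succ k ih =>
    rcases w with _ | ⟨a, _ | ⟨b, t⟩⟩
    · simp
    · simp
    · have := ih (b :: t)
      simp only [List.take_succ_cons, des_cons] at this ⊢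
      rw [this]

theorem des_tail (w : List ℚ) : des (w.drop 1) = (des w).drop 1 := by
  rcases w with _ | ⟨a, _ | ⟨b, t⟩⟩ <;> simp

/-- Peak pattern: `false` exactly at an ascent followed by a descent. -/
def canon : List Bool → List Bool
  | [] => []
  | [_] => [true]
  | x :: y :: t => (x || !y) :: canon (y :: t)

theorem length_canon (s : List Bool) : (canon s).length = s.length := by
  induction s using canon.induct <;> simp_all [canon]

theorem canon_true (t : List Bool) : canon (true :: t) = true :: canon t := by
  cases t <;> simp [canon]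

theorem canon_end (m : List Bool) (x : Bool) : ∃ c : List Bool, c.length = m.length ∧
    canon (m ++ [x, false, true]) = c ++ [true, false, true] ∧
    canon (m ++ [x, false, false]) = c ++ [true, true, true] := by
  induction m with
  | nil => exact ⟨[], rfl, by simp [canon], by simp [canon]⟩
  | cons a m ih =>
    obtain ⟨c, h1, h2, h3⟩ := ih
    cases m with
    | nil =>
      exact ⟨[a || !x], rfl, by simp [canon], by simp [canon]⟩
    | cons b m =>
      refine ⟨(a || !b) :: c, by simp [h1], ?_, ?_⟩
      · simp only [List.cons_append, canon] at h2 ⊢; rw [h2]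
      · simp only [List.cons_append, canon] at h3 ⊢; rw [h3]

theorem pick {x x' y y' : ℚ} (h1 : y < x ↔ y' < x') (h2 : x ≠ y) (h3 : x' ≠ y') :
    ∃ m, (m = x ∨ m = x') ∧ (y ≠ m ∧ (x < y ↔ m < y)) ∧ (y' ≠ m ∧ (x' < y' ↔ m < y')) ∧
      (x < y ↔ x' < y') := by
  by_cases hyx : y < x
  · exact ⟨max x x', by grind, by grind, by grind, by grind⟩
  · exact ⟨min x x', by grind, by grind, by grind, by grind⟩

namespace Bi

variable {st : List ℚ → α} (H : Bi st)
include H

theorem desc (w : List ℚ) : ∀ w' q : List ℚ, (q.reverse ++ w).Nodup → (q.reverse ++ w').Nodup →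
    w.length = w'.length → des w = des w' →
    (∀ z ∈ q.head?, ∀ x ∈ w.head?, ∀ x' ∈ w'.head?, (x < z ↔ x' < z)) →
    st (q.reverse ++ w) = st (q.reverse ++ w') := by
  induction w with
  | nil =>
    intro w' q _ _ hl _ _
    cases w' with
    | nil => rfl
    | cons _ _ => simp at hl
  | cons x t ih =>
    intro w' q hn hn' hl hd hq
    cases w' with
    | nil => simp at hl
    | cons x' t' =>
      have hqx : ∀ z ∈ q.head?, z ≠ x ∧ z ≠ x' ∧ (x < z ↔ x' < z) := by
        intro z hz
        have hz' : z ∈ q := List.mem_of_mem_head? hz
        refine ⟨?_, ?_, hq z hz x rfl x' rfl⟩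
        · rintro rfl
          exact (List.nodup_append.1 hn).2.2 z (by simpa using hz') z (by simp) rfl
        · rintro rfl
          exact (List.nodup_append.1 hn').2.2 z (by simpa using hz') z (by simp) rfl
      have n1 : (x :: t).Nodup := nd_of hn (by intro aa; simp only [List.count_append, List.count_cons, List.count_nil, List.count_reverse]; omega)
      have n2 : (x' :: t').Nodup := nd_of hn' (by intro aa; simp only [List.count_append, List.count_cons, List.count_nil, List.count_reverse]; omega)
      have hm : ∃ m, (∀ z ∈ q.head?, z ≠ m ∧ (x < z ↔ m < z) ∧ (x' < z ↔ m < z)) ∧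
          (∀ y ∈ t.head?, y ≠ m ∧ (x < y ↔ m < y)) ∧ (∀ y ∈ t'.head?, y ≠ m ∧ (x' < y ↔ m < y)) ∧
          ∀ y ∈ t.head?, ∀ y' ∈ t'.head?, (x < y ↔ x' < y') := by
        cases t with
        | nil =>
          cases t' with
          | nil =>
            exact ⟨x, fun z hz => ⟨(hqx z hz).1, Iff.rfl, (hqx z hz).2.2.symm⟩,
              by simp, by simp, by simp⟩
          | cons _ _ => simp at hl
        | cons y t =>
          cases t' with
          | nil => simp at hl
          | cons y' t' =>
            have h1 : (y < x ↔ y' < x') := by simpa using (List.cons.inj hd).1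
            have h2 : x ≠ y := fun e => (List.nodup_cons.1 n1).1 (by simp [e])
            have h3 : x' ≠ y' := fun e => (List.nodup_cons.1 n2).1 (by simp [e])
            obtain ⟨m, p1, p2, p3, p4⟩ := pick h1 h2 h3
            refine ⟨m, fun z hz => ?_, by simpa using p2, by simpa using p3, by simpa using p4⟩
            obtain ⟨r1, r2, r3⟩ := hqx z hz
            rcases p1 with rfl | rfl
            · exact ⟨r1, Iff.rfl, r3.symm⟩
            · exact ⟨r2, r3, Iff.rfl⟩
      obtain ⟨m, hm1, hm2, hm3, hm4⟩ := hm
      obtain ⟨m', hF, hm'⟩ := near m (q ++ t ++ t')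
      have a1 : ∀ z ∈ q.head?, (m < z ↔ m' < z) := fun z hz =>
        hm' z (by simp [List.mem_of_mem_head? hz]) (hm1 z hz).1
      have a2 : ∀ z ∈ t.head?, (m < z ↔ m' < z) := fun z hz =>
        hm' z (by simp [List.mem_of_mem_head? hz]) (hm2 z hz).1
      have a3 : ∀ z ∈ t'.head?, (m < z ↔ m' < z) := fun z hz =>
        hm' z (by simp [List.mem_of_mem_head? hz]) (hm3 z hz).1
      have b1 : (m' :: (q.reverse ++ t)).Nodup :=
        List.nodup_cons.2 ⟨by simp at hF ⊢; tauto, nd_of hn (by intro aa; simp only [List.count_append, List.count_cons, List.count_nil, List.count_reverse]; omega)⟩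
      have b2 : (m' :: (q.reverse ++ t')).Nodup :=
        List.nodup_cons.2 ⟨by simp at hF ⊢; tauto, nd_of hn' (by intro aa; simp only [List.count_append, List.count_cons, List.count_nil, List.count_reverse]; omega)⟩
      rw [H.move _ q t x m' rfl hn (nd_of b1 (by intro aa; simp only [List.count_append, List.count_cons, List.count_nil, List.count_reverse]; omega)) (fun z hz => (hm2 z hz).2.trans (a2 z hz))
          (fun z hz => (hm1 z hz).2.1.trans (a1 z hz)),
        H.move _ q t' x' m' rfl hn' (nd_of b2 (by intro aa; simp only [List.count_append, List.count_cons, List.count_nil, List.count_reverse]; omega)) (fun z hz => (hm3 z hz).2.trans (a3 z hz))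
          (fun z hz => (hm1 z hz).2.2.trans (a1 z hz))]
      have := ih t' (m' :: q) (nd_of b1 (by intro aa; simp only [List.count_append, List.count_cons, List.count_nil, List.count_reverse]; omega)) (nd_of b2 (by intro aa; simp only [List.count_append, List.count_cons, List.count_nil, List.count_reverse]; omega)) (by simpa using hl)
        (by have := congrArg (List.drop 1) hd; rwa [← des_tail, ← des_tail] at this) (by
          intro z hz y hy y' hy'
          simp only [List.head?_cons, Option.mem_def, Option.some.injEq] at hz
          subst hz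
          have c1 : y ≠ m' := by
            rintro rfl; exact hF (by simp [List.mem_of_mem_head? hy])
          have c2 : y' ≠ m' := by
            rintro rfl; exact hF (by simp [List.mem_of_mem_head? hy'])
          have e := ((hm2 y hy).2.trans (a2 y hy)).symm.trans
            ((hm4 y hy y' hy').trans ((hm3 y' hy').2.trans (a3 y' hy')))
          rw [lt_iff_not_ge, lt_iff_not_ge, c1.symm.le_iff_lt, c2.symm.le_iff_lt, e])
      simpa using this

theorem of_des {w w' : List ℚ} (hn : w.Nodup) (hn' : w'.Nodup) (hl : w.length = w'.length)
    (hd : des w = des w') : st w = st w' := by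
  simpa using H.desc w w' [] (by simpa) (by simpa) hl hd (by simp)

theorem st_eq {w : List ℚ} {s : List Bool} (hn : w.Nodup) (h0 : w ≠ []) (hd : des w = s) :
    st w = st (real s) := by
  apply H.of_des hn (real_nodup s) _ (by rw [hd, des_real])
  rw [length_real, ← hd, length_des']
  have := List.length_pos_iff.2 h0
  omega

theorem frev {s s' : List Bool} (hl : s.length = s'.length) (h : st (real s) = st (real s')) :
    st (real (rf s)) = st (real (rf s')) := by
  have := H.rev _ _ _ rfl (by simp [length_real, hl]) (real_nodup s) (real_nodup s') h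
  rwa [H.st_eq (s := rf s) (List.nodup_reverse.2 (real_nodup s)) (by simp [real])
      (by rw [des_rev _ (real_nodup s), des_real]),
    H.st_eq (s := rf s') (List.nodup_reverse.2 (real_nodup s')) (by simp [real])
      (by rw [des_rev _ (real_nodup s'), des_real])] at this

theorem ftake {s s' : List Bool} (hl : s.length = s'.length) (h : st (real s) = st (real s'))
    (k : ℕ) : st (real (s.take k)) = st (real (s'.take k)) := by
  have := (H.sub _ _ (real_nodup s) (real_nodup s') (by simp [length_real, hl]) h (k + 1)).1
  rwa [H.st_eq (s := s.take k) ((real_nodup s).sublist (List.take_sublist _ _)) (by simp [real])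
      (by rw [des_take, des_real]),
    H.st_eq (s := s'.take k) ((real_nodup s').sublist (List.take_sublist _ _)) (by simp [real])
      (by rw [des_take, des_real])] at this

theorem ftail {s s' : List Bool} {x x' : Bool} (hl : s.length = s'.length)
    (h : st (real (x :: s)) = st (real (x' :: s'))) : st (real s) = st (real s') := by
  have := (H.sub _ _ (real_nodup _) (real_nodup _) (by simp [length_real, hl]) h 1).2
  rwa [H.st_eq (s := s) ((real_nodup _).sublist (List.drop_sublist _ _))
      (by rw [← List.length_pos_iff]; simp [length_real]) (by rw [des_tail, des_real]; rfl),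
    H.st_eq (s := s') ((real_nodup _).sublist (List.drop_sublist _ _))
      (by rw [← List.length_pos_iff]; simp [length_real]) (by rw [des_tail, des_real]; rfl)] at this

end Bi

end Pool.Agent.H8.Bic
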