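import Pool.Agent.H8.Bic4

/-! Classification of bicompatible statistics on rational words. -/

namespace Pool.Agent.H8.Bic

variable {α : Type*}

theorem Bi.neg {st : List ℚ → α} (H : Bi st) : Bi (fun w => st (w.map Neg.neg)) where
  iso w g hg := by
    have := H.iso (w.map Neg.neg) (fun x => -g (-x)) (by
      intro a ha b hb hab
      simp only [Set.mem_setOf_eq, List.mem_map] at ha hb
      obtain ⟨a, ha, rfl⟩ := ha
      obtain ⟨b, hb, rfl⟩ := hb
      simp only [neg_neg, neg_lt_neg_iff] at hab ⊢
      exact hg hb ha hab)
    simpa [List.map_map, Function.comp_def] using this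
  shuf u v u' v' h1 h2 h3 h4 h5 h6 := by
    have := H.shuf (u.map Neg.neg) (v.map Neg.neg) (u'.map Neg.neg) (v'.map Neg.neg)
      (by rw [← List.map_append]; exact h1.map neg_injective)
      (by rw [← List.map_append]; exact h2.map neg_injective) (by simpa) (by simpa) h5 h6
    simpa [sh_map, Multiset.map_map] using this
  sub w w' h1 h2 h3 h4 k := by
    have := H.sub _ _ (h1.map neg_injective) (h2.map neg_injective) (by simpa) h4 k
    simpa [List.map_take, List.map_drop] using this

theorem des_neg (w : List ℚ) (hn : w.Nodup) : des (w.map Neg.neg) = (des w).map not := by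
  induction w with
  | nil => rfl
  | cons a w ih =>
    cases w with
    | nil => rfl
    | cons b t =>
      have h := ih (List.nodup_cons.1 hn).2
      have hab : a ≠ b := by grind
      simp only [List.map_cons, des_cons] at h ⊢
      rw [h]
      by_cases h : a < b
      · simp [h, h.not_gt]
      · simp [h, lt_of_le_of_ne (not_lt.1 h) hab.symm]

theorem des_app2 {M : List ℚ} {a : ℚ} {m : List Bool} (h : des (M ++ [a]) = m) (l : List ℚ) :
    des (M ++ a :: l) = m ++ des (a :: l) := by rw [des_append, h]

namespace Bi

variable {st : List ℚ → α} (H : Bi st)
include H

theorem star (h2 : st (real [false]) = st (real [true])) (m s : List Bool) :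
    st (real (m ++ [false, true])) = st (real (m ++ [false, false])) ∨
    st (real (false :: false :: s)) = st (real (true :: false :: s)) := by
  by_contra hc
  rw [not_or] at hc
  obtain ⟨P, hP, dP⟩ := realR' s 4 [0, 1, 2, 3, 4] (by decide)
  obtain ⟨M, hn, dM⟩ := realL' m 0 (1 :: 2 :: 3 :: 4 :: P) hP
  have e23 : st [2, 3] = st [3, 2] := by
    rw [H.st_eq (w := [2, 3]) (s := [false]) (by decide) (by simp) (by decide),
      H.st_eq (w := [3, 2]) (s := [true]) (by decide) (by simp) (by decide), h2]
  have hT := H.T_eq (u := M ++ 0 :: 1 :: 4 :: P) (v := [2, 3]) (v' := [3, 2])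
    (nd_of hn (by intro aa; simp only [List.count_append, List.count_cons, List.count_nil, List.count_reverse]; omega)) (nd_of hn (by intro aa; simp only [List.count_append, List.count_cons, List.count_nil, List.count_reverse]; omega)) rfl e23 (M.length + 2)
    (ind (st (real (m ++ [false, true])))) (ind (st (real (false :: false :: s))))
  rw [formula2, formula2] at hT
  have a1 : st (M ++ [0, 1, 4]) = st (real (m ++ [false, false])) :=
    H.st_eq (nd_of hn (by intro aa; simp only [List.count_append, List.count_cons, List.count_nil, List.count_reverse]; omega)) (by simp) (by rw [des_app2 dM]; congr 1)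
  have a2 : st (M ++ [0, 1, 2]) = st (real (m ++ [false, false])) :=
    H.st_eq (nd_of hn (by intro aa; simp only [List.count_append, List.count_cons, List.count_nil, List.count_reverse]; omega)) (by simp) (by rw [des_app2 dM]; congr 1)
  have a3 : st (M ++ [0, 1, 3]) = st (real (m ++ [false, false])) :=
    H.st_eq (nd_of hn (by intro aa; simp only [List.count_append, List.count_cons, List.count_nil, List.count_reverse]; omega)) (by simp) (by rw [des_app2 dM]; congr 1)
  have a4 : st (M ++ [0, 2, 3]) = st (real (m ++ [false, false])) :=
    H.st_eq (nd_of hn (by intro aa; simp only [List.count_append, List.count_cons, List.count_nil, List.count_reverse]; omega)) (by simp) (by rw [des_app2 dM]; congr 1)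
  have a5 : st (M ++ [0, 3, 2]) = st (real (m ++ [false, true])) :=
    H.st_eq (nd_of hn (by intro aa; simp only [List.count_append, List.count_cons, List.count_nil, List.count_reverse]; omega)) (by simp) (by rw [des_app2 dM]; congr 1)
  have b1 : st (0 :: 1 :: 4 :: P) = st (real (false :: false :: s)) :=
    H.st_eq (nd_of hn (by intro aa; simp only [List.count_append, List.count_cons, List.count_nil, List.count_reverse]; omega)) (by simp) (by simp [dP])
  have b2 : st (3 :: 1 :: 4 :: P) = st (real (true :: false :: s)) :=
    H.st_eq (nd_of hn (by intro aa; simp only [List.count_append, List.count_cons, List.count_nil, List.count_reverse]; omega)) (by simp) (by simp [dP])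
  have b3 : st (2 :: 1 :: 4 :: P) = st (real (true :: false :: s)) :=
    H.st_eq (nd_of hn (by intro aa; simp only [List.count_append, List.count_cons, List.count_nil, List.count_reverse]; omega)) (by simp) (by simp [dP])
  have k1 := H.K_eq (u := M ++ [0, 1]) (v := [2]) (u' := M ++ [0, 1]) (v' := [3])
    (nd_of hn (by intro aa; simp only [List.count_append, List.count_cons, List.count_nil, List.count_reverse]; omega)) (nd_of hn (by intro aa; simp only [List.count_append, List.count_cons, List.count_nil, List.count_reverse]; omega)) rfl rfl rfl (H.single _ _) (ind (st (real (m ++ [false, true]))))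
  have k2 := H.K_eq (u := 1 :: 4 :: P) (v := [3]) (u' := 1 :: 4 :: P) (v' := [2])
    (nd_of hn (by intro aa; simp only [List.count_append, List.count_cons, List.count_nil, List.count_reverse]; omega)) (nd_of hn (by intro aa; simp only [List.count_append, List.count_cons, List.count_nil, List.count_reverse]; omega)) rfl rfl rfl (H.single _ _) (ind (st (real (false :: false :: s))))
  have k3 := H.K_eq (u := M ++ [0, 3]) (v := [2]) (u' := M ++ [0, 2]) (v' := [3])
    (nd_of hn (by intro aa; simp only [List.count_append, List.count_cons, List.count_nil, List.count_reverse]; omega)) (nd_of hn (by intro aa; simp only [List.count_append, List.count_cons, List.count_nil, List.count_reverse]; omega)) (by simp) rfl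
    (H.of_des (nd_of hn (by intro aa; simp only [List.count_append, List.count_cons, List.count_nil, List.count_reverse]; omega)) (nd_of hn (by intro aa; simp only [List.count_append, List.count_cons, List.count_nil, List.count_reverse]; omega)) (by simp) (by rw [des_app2 dM, des_app2 dM]; congr 1))
    (H.single _ _) (ind (st (real (m ++ [false, true]))))
  have k4 := H.K_eq (u := M ++ [0]) (v := [2, 3]) (u' := M ++ [0]) (v' := [3, 2])
    (nd_of hn (by intro aa; simp only [List.count_append, List.count_cons, List.count_nil, List.count_reverse]; omega)) (nd_of hn (by intro aa; simp only [List.count_append, List.count_cons, List.count_nil, List.count_reverse]; omega)) rfl rfl rfl e23 (ind (st (real (m ++ [false, true]))))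
  rw [a1, a2, a3, a4, a5, b1, b2, b3, k1, k2, k3, k4, ind_self, ind_self,
    ind_ne (Ne.symm hc.1), ind_ne (Ne.symm hc.2)] at hT
  linarith

theorem vmove (h2 : st (real [false]) = st (real [true]))
    (hV : ∀ s, st (real (false :: false :: s)) = st (real (true :: false :: s))) (n : ℕ) :
    ∀ (q p : List ℚ) (x x' b : ℚ), q.length = n → (q.reverse ++ x :: b :: p).Nodup →
    (q.reverse ++ x' :: b :: p).Nodup → x < b → b < x' → (∀ z ∈ p.head?, b < z) →
    (∀ z ∈ q.head?, x' < z) → st (q.reverse ++ x :: b :: p) = st (q.reverse ++ x' :: b :: p) := by
  induction n using Nat.strong_induction_on with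
  | _ n ih =>
    intro q p x x' b hl hn hn' hx hx' hp hq
    apply H.tr2 hn hn'
    · intro j hj
      apply ih j (by omega) _ _ _ _ _ (by simp; omega)
        (List.Nodup.of_append_left (nodup_tr hn j)) (List.Nodup.of_append_left (nodup_tr hn' j))
        hx hx' hp
      intro z hz
      apply hq
      cases q with
      | nil => simp at hz
      | cons a q => cases j <;> simp_all
    · intro τ hτ
      have n1 := nodup_sh hn hτ
      have n2 := nodup_sh hn' hτ
      rcases mem_sh_cons hτ with ⟨t, ht, rfl⟩ | ⟨z, hz, t, rfl⟩
      · have hh := head_mem_sh ht
        cases t with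
        | nil =>
          rw [H.st_eq (s := [false]) n1 (by simp) (by simp [hx.le]),
            H.st_eq (s := [true]) n2 (by simp) (by simp [hx']), h2]
        | cons z t =>
          have hz : b < z := by
            rcases hh z rfl with h | h
            · exact hp z h
            · exact hx'.trans (hq z h)
          rw [H.st_eq (s := false :: false :: des (z :: t)) n1 (by simp) (by simp [hx.le, hz.le]),
            H.st_eq (s := true :: false :: des (z :: t)) n2 (by simp) (by simp [hx', hz.le]), hV]
      · apply H.first n1 n2
        intro z' hz'
        simp only [List.head?_cons, Option.mem_def, Option.some.injEq] at hz'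
        subst hz'
        have := hq z hz
        exact ⟨fun _ => this, fun _ => hx.trans (hx'.trans this)⟩

theorem flip (h2 : st (real [false]) = st (real [true]))
    (hV : ∀ s, st (real (false :: false :: s)) = st (real (true :: false :: s))) (m s : List Bool)
    (hm : m = [] ∨ ∃ m0, m = m0 ++ [true]) (hs : s.head? ≠ some true) :
    st (real (m ++ false :: s)) = st (real (m ++ true :: s)) := by
  obtain ⟨P, hP, dP⟩ := realR' s 1 [3, 0, 1, 2] (by decide)
  have hp : ∀ z ∈ P.head?, 1 < z := by
    intro z hz
    cases P with
    | nil => simp at hz
    | cons y P =>
      simp only [List.head?_cons, Option.mem_def, Option.some.injEq] at hz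
      subst hz
      rw [← dP] at hs
      have h1 : ¬ y < 1 := by simpa using hs
      have h2 : y ≠ 1 := by rintro rfl; simp at hP
      exact lt_of_le_of_ne (not_lt.1 h1) h2.symm
  rcases hm with rfl | ⟨m, rfl⟩
  · have := H.vmove h2 hV _ [] P 0 2 1 rfl (by simpa using (nd_of hP (by intro aa; simp only [List.count_append, List.count_cons, List.count_nil, List.count_reverse]; omega) : (0 :: 1 :: P).Nodup))
      (by simpa using (nd_of hP (by intro aa; simp only [List.count_append, List.count_cons, List.count_nil, List.count_reverse]; omega) : (2 :: 1 :: P).Nodup)) (by norm_num) (by norm_num) hp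
      (by simp)
    simp only [List.reverse_nil, List.nil_append] at this ⊢
    rwa [H.st_eq (w := 0 :: 1 :: P) (s := false :: s) (nd_of hP (by intro aa; simp only [List.count_append, List.count_cons, List.count_nil, List.count_reverse]; omega)) (by simp) (by simp [dP]),
      H.st_eq (w := 2 :: 1 :: P) (s := true :: s) (nd_of hP (by intro aa; simp only [List.count_append, List.count_cons, List.count_nil, List.count_reverse]; omega)) (by simp) (by simp [dP])] at this
  · obtain ⟨M, hn, dM⟩ := realL' m 3 (0 :: 1 :: 2 :: P) hP
    have := H.vmove h2 hV _ (3 :: M.reverse) P 0 2 1 rfl (nd_of hn (by intro aa; simp only [List.count_append, List.count_cons, List.count_nil, List.count_reverse]; omega)) (nd_of hn (by intro aa; simp only [List.count_append, List.count_cons, List.count_nil, List.count_reverse]; omega)) (by norm_num)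
      (by norm_num) hp (by simp; norm_num)
    simp only [List.reverse_cons, List.reverse_reverse, List.append_assoc, List.cons_append,
      List.nil_append] at this ⊢
    rwa [H.st_eq (w := M ++ 3 :: 0 :: 1 :: P) (s := m ++ true :: false :: s) (nd_of hn (by intro aa; simp only [List.count_append, List.count_cons, List.count_nil, List.count_reverse]; omega)) (by simp)
        (by rw [des_app2 dM]; simp [dP]),
      H.st_eq (w := M ++ 3 :: 2 :: 1 :: P) (s := m ++ true :: true :: s) (nd_of hn (by intro aa; simp only [List.count_append, List.count_cons, List.count_nil, List.count_reverse]; omega)) (by simp)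
        (by rw [des_app2 dM]; simp [dP]; norm_num)] at this

theorem to_canon (h2 : st (real [false]) = st (real [true]))
    (hV : ∀ s, st (real (false :: false :: s)) = st (real (true :: false :: s))) (t : List Bool) :
    ∀ m : List Bool, ((m = [] ∨ ∃ m0, m = m0 ++ [true]) ∨ t.head? = some true) →
      st (real (m ++ t)) = st (real (m ++ canon t)) := by
  induction t with
  | nil => intro m _; rfl
  | cons x t ih =>
    intro m hm
    cases x with
    | true =>
      have := ih (m ++ [true]) (Or.inl (Or.inr ⟨m, rfl⟩))
      simpa [canon_true] using this
    | false =>
      have hm' := hm.resolve_right (by simp)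
      by_cases ht : t.head? = some true
      · have := ih (m ++ [false]) (Or.inr ht)
        cases t with
        | nil => simp at ht
        | cons y t =>
          simp only [List.head?_cons, Option.some.injEq] at ht
          subst ht
          simpa [canon] using this
      · rw [H.flip h2 hV m t hm' ht]
        have := ih (m ++ [true]) (Or.inl (Or.inr ⟨m, rfl⟩))
        have e : canon (false :: t) = true :: canon t := by
          rcases t with _ | ⟨_ | _, t⟩
          · rfl
          · simp [canon]
          · simp at ht
        simpa [e] using this

theorem const_step {n : ℕ}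
    (hs : ∀ w w' : List ℚ, w.Nodup → w'.Nodup → w.length = w'.length → w.length < n → st w = st w')
    (hf : ∀ (x x' : ℚ) (τ : List ℚ), (x :: τ).Nodup → (x' :: τ).Nodup → τ.length + 1 = n →
      st (x :: τ) = st (x' :: τ)) (w : List ℚ) :
    ∀ w' q : List ℚ, (q.reverse ++ w).Nodup → (q.reverse ++ w').Nodup →
    w.length = w'.length → q.length + w.length = n → st (q.reverse ++ w) = st (q.reverse ++ w') := by
  have mv : ∀ (q p : List ℚ) (x x' : ℚ), (q.reverse ++ x :: p).Nodup →
      (q.reverse ++ x' :: p).Nodup → q.length + (p.length + 1) = n →
      st (q.reverse ++ x :: p) = st (q.reverse ++ x' :: p) := by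
    intro q p x x' hn hn' hl
    apply H.tr2 hn hn'
    · intro j hj
      exact hs _ _ (List.Nodup.of_append_left (nodup_tr hn j))
        (List.Nodup.of_append_left (nodup_tr hn' j)) (by simp) (by simp; omega)
    · intro τ hτ
      exact hf _ _ _ (nodup_sh hn hτ) (nodup_sh hn' hτ) (by rw [length_of_mem_sh hτ]; omega)
  induction w with
  | nil =>
    intro w' q _ _ hl _
    cases w' with
    | nil => rfl
    | cons _ _ => simp at hl
  | cons x t ih =>
    intro w' q hn hn' hl hq
    cases w' with
    | nil => simp at hl
    | cons x' t' =>
      obtain ⟨m', -, -, hF⟩ := fresh (q ++ t ++ t') (zero_lt_one (α := ℚ))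
      have b1 : (m' :: (q.reverse ++ t)).Nodup :=
        List.nodup_cons.2 ⟨by simp at hF ⊢; tauto, nd_of hn (by intro aa; simp only [List.count_append, List.count_cons, List.count_nil, List.count_reverse]; omega)⟩
      have b2 : (m' :: (q.reverse ++ t')).Nodup :=
        List.nodup_cons.2 ⟨by simp at hF ⊢; tauto, nd_of hn' (by intro aa; simp only [List.count_append, List.count_cons, List.count_nil, List.count_reverse]; omega)⟩
      simp only [List.length_cons] at hl hq
      rw [mv q t x m' hn (nd_of b1 (by intro aa; simp only [List.count_append, List.count_cons, List.count_nil, List.count_reverse]; omega)) hq, mv q t' x' m' hn' (nd_of b2 (by intro aa; simp only [List.count_append, List.count_cons, List.count_nil, List.count_reverse]; omega)) (by omega)]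
      have := ih t' (m' :: q) (nd_of b1 (by intro aa; simp only [List.count_append, List.count_cons, List.count_nil, List.count_reverse]; omega)) (nd_of b2 (by intro aa; simp only [List.count_append, List.count_cons, List.count_nil, List.count_reverse]; omega)) (by omega) (by simp; omega)
      simpa using this

theorem star3 (h2 : st (real [false]) = st (real [true]))
    (hV : ∀ s, st (real (false :: false :: s)) = st (real (true :: false :: s))) {n : ℕ}
    (hs : ∀ w w' : List ℚ, w.Nodup → w'.Nodup → w.length = w'.length → w.length < n → st w = st w')
    (m s : List Bool) (hm : m.length + 4 = n) (x : Bool) :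
    st (real (m ++ [true, false, true])) = st (real (m ++ [true, true, true])) ∨
    st (real (false :: true :: x :: s)) = st (real (true :: true :: x :: s)) := by
  by_contra hc
  rw [not_or] at hc
  obtain ⟨P0, hP, dP⟩ := realR' (x :: s) 0 [5, 0, 1, 2, 3, 4] (by decide)
  obtain ⟨M, hn, dM⟩ := realL' m 5 (0 :: 1 :: 2 :: 3 :: 4 :: P0) hP
  have hM : M.length = m.length := by
    have := length_des' (M ++ [5])
    rw [dM] at this
    simpa using this.symm
  cases P0 with
  | nil => simp at dP
  | cons w P =>
  have e : st [1, 2, 3] = st [1, 3, 2] := hs _ _ (by decide) (by decide) rfl (by simp; omega)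
  have e23 : st [2, 3] = st [3, 2] := hs _ _ (by decide) (by decide) rfl (by simp; omega)
  have hT := H.T_eq (u := M ++ 5 :: 4 :: 0 :: w :: P) (v := [1, 2, 3]) (v' := [1, 3, 2])
    (nd_of hn (by intro aa; simp only [List.count_append, List.count_cons, List.count_nil, List.count_reverse]; omega)) (nd_of hn (by intro aa; simp only [List.count_append, List.count_cons, List.count_nil, List.count_reverse]; omega)) rfl e (M.length + 3)
    (ind (st (real (m ++ [true, false, true])))) (ind (st (real (true :: true :: x :: s))))
  rw [formula3, formula3] at hT
  have fl : st (real (m ++ [true, true, false])) = st (real (m ++ [true, true, true])) := by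
    have := H.flip h2 hV (m ++ [true, true]) [] (Or.inr ⟨m ++ [true], by simp⟩) (by simp)
    simpa using this
  have a1 : st (M ++ [5, 4, 0, w]) = st (real (m ++ [true, true, true])) := by
    rw [H.st_eq (w := M ++ [5, 4, 0, w]) (s := m ++ [true, true, decide (w < 0)]) (nd_of hn (by intro aa; simp only [List.count_append, List.count_cons, List.count_nil, List.count_reverse]; omega)) (by simp)
      (by rw [des_app2 dM]; simp; norm_num)]
    cases decide (w < 0)
    · exact fl
    · rfl
  have a2 : st (M ++ [5, 4, 0, 1]) = st (real (m ++ [true, true, true])) := by
    rw [← fl]; exact H.st_eq (nd_of hn (by intro aa; simp only [List.count_append, List.count_cons, List.count_nil, List.count_reverse]; omega)) (by simp) (by rw [des_app2 dM]; congr 1)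
  have a3 : st (M ++ [5, 4, 2, 1]) = st (real (m ++ [true, true, true])) :=
    H.st_eq (nd_of hn (by intro aa; simp only [List.count_append, List.count_cons, List.count_nil, List.count_reverse]; omega)) (by simp) (by rw [des_app2 dM]; congr 1)
  have a4 : st (M ++ [5, 4, 3, 1]) = st (real (m ++ [true, true, true])) :=
    H.st_eq (nd_of hn (by intro aa; simp only [List.count_append, List.count_cons, List.count_nil, List.count_reverse]; omega)) (by simp) (by rw [des_app2 dM]; congr 1)
  have a5 : st (M ++ [5, 3, 2, 1]) = st (real (m ++ [true, true, true])) :=
    H.st_eq (nd_of hn (by intro aa; simp only [List.count_append, List.count_cons, List.count_nil, List.count_reverse]; omega)) (by simp) (by rw [des_app2 dM]; congr 1)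
  have a6 : st (M ++ [5, 2, 3, 1]) = st (real (m ++ [true, false, true])) :=
    H.st_eq (nd_of hn (by intro aa; simp only [List.count_append, List.count_cons, List.count_nil, List.count_reverse]; omega)) (by simp) (by rw [des_app2 dM]; congr 1)
  have b1 : st (5 :: 4 :: 0 :: w :: P) = st (real (true :: true :: x :: s)) :=
    H.st_eq (nd_of hn (by intro aa; simp only [List.count_append, List.count_cons, List.count_nil, List.count_reverse]; omega)) (by simp) (by rw [des_cons, des_cons, dP]; congr 1)
  have b2 : st (3 :: 4 :: 0 :: w :: P) = st (real (false :: true :: x :: s)) :=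
    H.st_eq (nd_of hn (by intro aa; simp only [List.count_append, List.count_cons, List.count_nil, List.count_reverse]; omega)) (by simp) (by rw [des_cons, des_cons, dP]; congr 1)
  have b3 : st (2 :: 4 :: 0 :: w :: P) = st (real (false :: true :: x :: s)) :=
    H.st_eq (nd_of hn (by intro aa; simp only [List.count_append, List.count_cons, List.count_nil, List.count_reverse]; omega)) (by simp) (by rw [des_cons, des_cons, dP]; congr 1)
  have k0 := H.K_eq (u := M ++ [5, 4, 0]) (v := [1]) (u' := M ++ [5, 4, 3]) (v' := [1])
    (nd_of hn (by intro aa; simp only [List.count_append, List.count_cons, List.count_nil, List.count_reverse]; omega)) (nd_of hn (by intro aa; simp only [List.count_append, List.count_cons, List.count_nil, List.count_reverse]; omega)) (by simp) rfl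
    (hs _ _ (nd_of hn (by intro aa; simp only [List.count_append, List.count_cons, List.count_nil, List.count_reverse]; omega)) (nd_of hn (by intro aa; simp only [List.count_append, List.count_cons, List.count_nil, List.count_reverse]; omega)) (by simp) (by simp; omega)) rfl
    (ind (st (real (m ++ [true, false, true]))))
  have k1 := H.K_eq (u := M ++ [5, 4, 2]) (v := [1]) (u' := M ++ [5, 4, 3]) (v' := [1])
    (nd_of hn (by intro aa; simp only [List.count_append, List.count_cons, List.count_nil, List.count_reverse]; omega)) (nd_of hn (by intro aa; simp only [List.count_append, List.count_cons, List.count_nil, List.count_reverse]; omega)) (by simp) rfl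
    (hs _ _ (nd_of hn (by intro aa; simp only [List.count_append, List.count_cons, List.count_nil, List.count_reverse]; omega)) (nd_of hn (by intro aa; simp only [List.count_append, List.count_cons, List.count_nil, List.count_reverse]; omega)) (by simp) (by simp; omega)) rfl
    (ind (st (real (m ++ [true, false, true]))))
  have k2 := H.K_eq (u := M ++ [5, 3, 2]) (v := [1]) (u' := M ++ [5, 4, 3]) (v' := [1])
    (nd_of hn (by intro aa; simp only [List.count_append, List.count_cons, List.count_nil, List.count_reverse]; omega)) (nd_of hn (by intro aa; simp only [List.count_append, List.count_cons, List.count_nil, List.count_reverse]; omega)) (by simp) rfl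
    (hs _ _ (nd_of hn (by intro aa; simp only [List.count_append, List.count_cons, List.count_nil, List.count_reverse]; omega)) (nd_of hn (by intro aa; simp only [List.count_append, List.count_cons, List.count_nil, List.count_reverse]; omega)) (by simp) (by simp; omega)) rfl
    (ind (st (real (m ++ [true, false, true]))))
  have k3 := H.K_eq (u := M ++ [5, 2, 3]) (v := [1]) (u' := M ++ [5, 4, 3]) (v' := [1])
    (nd_of hn (by intro aa; simp only [List.count_append, List.count_cons, List.count_nil, List.count_reverse]; omega)) (nd_of hn (by intro aa; simp only [List.count_append, List.count_cons, List.count_nil, List.count_reverse]; omega)) (by simp) rfl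
    (hs _ _ (nd_of hn (by intro aa; simp only [List.count_append, List.count_cons, List.count_nil, List.count_reverse]; omega)) (nd_of hn (by intro aa; simp only [List.count_append, List.count_cons, List.count_nil, List.count_reverse]; omega)) (by simp) (by simp; omega)) rfl
    (ind (st (real (m ++ [true, false, true]))))
  have k4 := H.K_eq (u := M ++ [5, 4]) (v := [1, 2]) (u' := M ++ [5, 4]) (v' := [1, 3])
    (nd_of hn (by intro aa; simp only [List.count_append, List.count_cons, List.count_nil, List.count_reverse]; omega)) (nd_of hn (by intro aa; simp only [List.count_append, List.count_cons, List.count_nil, List.count_reverse]; omega)) (by simp) rfl rfl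
    (hs _ _ (by decide) (by decide) rfl (by simp; omega))
    (ind (st (real (m ++ [true, false, true]))))
  have k5 := H.K_eq (u := M ++ [5, 3]) (v := [1, 2]) (u' := M ++ [5, 4]) (v' := [1, 3])
    (nd_of hn (by intro aa; simp only [List.count_append, List.count_cons, List.count_nil, List.count_reverse]; omega)) (nd_of hn (by intro aa; simp only [List.count_append, List.count_cons, List.count_nil, List.count_reverse]; omega)) (by simp) rfl
    (hs _ _ (nd_of hn (by intro aa; simp only [List.count_append, List.count_cons, List.count_nil, List.count_reverse]; omega)) (nd_of hn (by intro aa; simp only [List.count_append, List.count_cons, List.count_nil, List.count_reverse]; omega)) (by simp) (by simp; omega))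
    (hs _ _ (by decide) (by decide) rfl (by simp; omega))
    (ind (st (real (m ++ [true, false, true]))))
  have k6 := H.K_eq (u := M ++ [5, 2]) (v := [1, 3]) (u' := M ++ [5, 4]) (v' := [1, 3])
    (nd_of hn (by intro aa; simp only [List.count_append, List.count_cons, List.count_nil, List.count_reverse]; omega)) (nd_of hn (by intro aa; simp only [List.count_append, List.count_cons, List.count_nil, List.count_reverse]; omega)) (by simp) rfl
    (hs _ _ (nd_of hn (by intro aa; simp only [List.count_append, List.count_cons, List.count_nil, List.count_reverse]; omega)) (nd_of hn (by intro aa; simp only [List.count_append, List.count_cons, List.count_nil, List.count_reverse]; omega)) (by simp) (by simp; omega)) rfl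
    (ind (st (real (m ++ [true, false, true]))))
  have k7 := H.K_eq (u := M ++ [5]) (v := [1, 2, 3]) (u' := M ++ [5]) (v' := [1, 3, 2])
    (nd_of hn (by intro aa; simp only [List.count_append, List.count_cons, List.count_nil, List.count_reverse]; omega)) (nd_of hn (by intro aa; simp only [List.count_append, List.count_cons, List.count_nil, List.count_reverse]; omega)) rfl rfl rfl e (ind (st (real (m ++ [true, false, true]))))
  have l1 := H.K_eq (u := 0 :: w :: P) (v := [2, 3]) (u' := 0 :: w :: P) (v' := [3, 2])
    (nd_of hn (by intro aa; simp only [List.count_append, List.count_cons, List.count_nil, List.count_reverse]; omega)) (nd_of hn (by intro aa; simp only [List.count_append, List.count_cons, List.count_nil, List.count_reverse]; omega)) rfl rfl rfl e23 (ind (st (real (true :: true :: x :: s))))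
  have l2 := H.K_eq (u := 2 :: 0 :: w :: P) (v := [3]) (u' := 3 :: 0 :: w :: P) (v' := [2])
    (nd_of hn (by intro aa; simp only [List.count_append, List.count_cons, List.count_nil, List.count_reverse]; omega)) (nd_of hn (by intro aa; simp only [List.count_append, List.count_cons, List.count_nil, List.count_reverse]; omega)) rfl rfl
    (H.of_des (nd_of hn (by intro aa; simp only [List.count_append, List.count_cons, List.count_nil, List.count_reverse]; omega)) (nd_of hn (by intro aa; simp only [List.count_append, List.count_cons, List.count_nil, List.count_reverse]; omega)) rfl (by rw [des_cons, des_cons 3]; congr 1))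
    (H.single _ _) (ind (st (real (true :: true :: x :: s))))
  have l3 := H.K_eq (u := 4 :: 0 :: w :: P) (v := [3]) (u' := 4 :: 0 :: w :: P) (v' := [2])
    (nd_of hn (by intro aa; simp only [List.count_append, List.count_cons, List.count_nil, List.count_reverse]; omega)) (nd_of hn (by intro aa; simp only [List.count_append, List.count_cons, List.count_nil, List.count_reverse]; omega)) rfl rfl rfl (H.single _ _) (ind (st (real (true :: true :: x :: s))))
  rw [a1, a2, a3, a4, a5, a6, b1, b2, b3, k0, k1, k2, k3, k4, k5, k6, k7, l1, l2, l3,
    ind_self, ind_self, ind_ne (Ne.symm hc.1), ind_ne hc.2] at hT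
  linarith

end Bi

end Pool.Agent.H8.Bic
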