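import Pool.Agent.H8.Bic5

/-! The classification theorem on rational words. -/

namespace Pool.Agent.H8.Bic

variable {α : Type*}

namespace Bi

variable {st : List ℚ → α} (H : Bi st)
include H

theorem inj_des (h2 : st (real [false]) ≠ st (real [true])) (s : List Bool) :
    ∀ s' : List Bool, s.length = s'.length → st (real s) = st (real s') → s = s' := by
  induction s with
  | nil => intro s' hl _; exact (List.length_eq_zero_iff.1 hl.symm).symm
  | cons x s ih =>
    intro s' hl h
    cases s' with
    | nil => simp at hl
    | cons x' s' =>
      have h1 := H.ftake hl h 1
      simp only [List.take_succ_cons, List.take_zero] at h1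
      have hx : x = x' := by
        cases x <;> cases x'
        · rfl
        · exact absurd h1 h2
        · exact absurd h1.symm h2
        · rfl
      rw [hx, ih s' (by simpa using hl) (H.ftail (by simpa using hl) h)]

theorem inj_canon (h2 : st (real [false]) = st (real [true]))
    (hV : ∀ s, st (real (false :: false :: s)) = st (real (true :: false :: s)))
    (h3 : st (real [false, true]) ≠ st (real [true, true])) (s : List Bool) :
    ∀ s' : List Bool, s.length = s'.length → st (real s) = st (real s') → canon s = canon s' := by
  induction s with
  | nil => intro s' hl _; rw [List.length_eq_zero_iff.1 hl.symm]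
  | cons x s ih =>
    intro s' hl h
    cases s' with
    | nil => simp at hl
    | cons x' s' =>
      have ht := ih s' (by simpa using hl) (H.ftail (by simpa using hl) h)
      cases s with
      | nil =>
        cases s' with
        | nil => rfl
        | cons _ _ => simp at hl
      | cons y s =>
        cases s' with
        | nil => simp at hl
        | cons y' s' =>
          have h1 := H.ftake hl h 2
          simp only [List.take_succ_cons, List.take_zero] at h1
          have c1 := H.to_canon h2 hV [x, y] [] (Or.inl (Or.inl rfl))
          have c2 := H.to_canon h2 hV [x', y'] [] (Or.inl (Or.inl rfl))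
          simp only [List.nil_append, canon] at c1 c2
          rw [c1, c2] at h1
          simp only [canon, ht, List.cons.injEq, and_true]
          generalize (x || !y) = a at h1
          generalize (x' || !y') = a' at h1
          cases a <;> cases a'
          · rfl
          · exact absurd h1 h3
          · exact absurd h1.symm h3
          · rfl

theorem eq_iff {w w' : List ℚ} (hn : w.Nodup) (hn' : w'.Nodup) (hl : w.length = w'.length) :
    st w = st w' ↔ st (real (des w)) = st (real (des w')) := by
  cases w with
  | nil => rw [List.length_eq_zero_iff.1 hl.symm]; simp
  | cons a w =>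
    cases w' with
    | nil => simp at hl
    | cons a' w' => rw [H.st_eq hn (by simp) rfl, H.st_eq hn' (by simp) rfl]

theorem all_const (h2 : st (real [false]) = st (real [true]))
    (hV : ∀ s, st (real (false :: false :: s)) = st (real (true :: false :: s)))
    (h3 : st (real [false, true]) = st (real [true, true])) (n : ℕ) :
    ∀ w w' : List ℚ, w.Nodup → w'.Nodup → w.length = w'.length → w.length = n → st w = st w' := by
  induction n using Nat.strong_induction_on with
  | _ n ih =>
    have hs : ∀ w w' : List ℚ, w.Nodup → w'.Nodup → w.length = w'.length → w.length < n →
        st w = st w' := fun w w' a b c d => ih _ d w w' a b c rfl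
    have hP : ∀ s : List Bool, s.length + 3 = n →
        st (real (false :: true :: s)) = st (real (true :: true :: s)) := by
      intro s hl
      cases s with
      | nil => exact h3
      | cons x s =>
        by_contra hc
        have hR : ∀ m : List Bool, m.length + 4 = n →
            st (real (m ++ [true, false, true])) = st (real (m ++ [true, true, true])) :=
          fun m hm => (H.star3 h2 hV hs m s hm x).resolve_right hc
        obtain ⟨c, c1, c2, c3⟩ := canon_end (rf s) (!x)
        have e : st (real (rf s ++ [!x, false, true])) = st (real (rf s ++ [!x, false, false])) := by
          have t1 := H.to_canon h2 hV (rf s ++ [!x, false, true]) [] (Or.inl (Or.inl rfl))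
          have t2 := H.to_canon h2 hV (rf s ++ [!x, false, false]) [] (Or.inl (Or.inl rfl))
          simp only [List.nil_append] at t1 t2
          rw [t1, t2, c2, c3]
          exact hR c (by simp [c1, rf] at hl ⊢; omega)
        have := H.frev (by simp) e
        apply hc
        simpa [rf, List.map_reverse, Function.comp_def] using this
    have hF : ∀ s : List Bool, s.length + 2 = n →
        st (real (false :: s)) = st (real (true :: s)) := by
      intro s hl
      rcases s with _ | ⟨_ | _, s⟩
      · exact h2
      · exact hV s
      · exact hP s (by simpa using hl)
    intro w w' hn hn' hl hw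
    have := H.const_step hs (by
      intro x x' τ n1 n2 hτ
      cases τ with
      | nil => exact H.single _ _
      | cons b t =>
        rw [H.eq_iff n1 n2 rfl, des_cons, des_cons]
        have := hF (des (b :: t)) (by rw [length_des]; simpa using hτ)
        cases decide (b < x) <;> cases decide (b < x') <;> simp [this]) w w' [] (by simpa)
      (by simpa) hl (by simpa)
    simpa using this

theorem pk_case (h2 : st (real [false]) = st (real [true]))
    (hV : ∀ s, st (real (false :: false :: s)) = st (real (true :: false :: s))) :
    (∀ w w' : List ℚ, w.Nodup → w'.Nodup → w.length = w'.length →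
      (st w = st w' ↔ canon (des w) = canon (des w'))) ∨
    ∀ w w' : List ℚ, w.Nodup → w'.Nodup → w.length = w'.length → st w = st w' := by
  by_cases h3 : st (real [false, true]) = st (real [true, true])
  · exact Or.inr fun w w' a b c => H.all_const h2 hV h3 _ w w' a b c rfl
  · left
    intro w w' hn hn' hl
    rw [H.eq_iff hn hn' hl]
    constructor
    · exact H.inj_canon h2 hV h3 _ _ (by simp [length_des', hl])
    · intro h
      have t1 := H.to_canon h2 hV (des w) [] (Or.inl (Or.inl rfl))
      have t2 := H.to_canon h2 hV (des w') [] (Or.inl (Or.inl rfl))
      simp only [List.nil_append] at t1 t2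
      rw [t1, t2, h]

theorem neg_real (s : List Bool) : st ((real s).map Neg.neg) = st (real (s.map not)) :=
  H.st_eq ((real_nodup s).map neg_injective) (by simp [real])
    (by rw [des_neg _ (real_nodup s), des_real])

theorem classify :
    (∀ w w' : List ℚ, w.Nodup → w'.Nodup → w.length = w'.length →
      (st w = st w' ↔ des w = des w')) ∨
    (∀ w w' : List ℚ, w.Nodup → w'.Nodup → w.length = w'.length →
      (st w = st w' ↔ canon (des w) = canon (des w'))) ∨
    (∀ w w' : List ℚ, w.Nodup → w'.Nodup → w.length = w'.length →
      (st w = st w' ↔ canon ((des w).map not) = canon ((des w').map not))) ∨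
    ∀ w w' : List ℚ, w.Nodup → w'.Nodup → w.length = w'.length → st w = st w' := by
  by_cases h2 : st (real [false]) = st (real [true])
  swap
  · left
    intro w w' hn hn' hl
    rw [H.eq_iff hn hn' hl]
    exact ⟨H.inj_des h2 _ _ (by simp [length_des', hl]), fun h => by rw [h]⟩
  right
  by_cases hV : ∀ s, st (real (false :: false :: s)) = st (real (true :: false :: s))
  · rcases H.pk_case h2 hV with h | h
    · exact Or.inl h
    · exact Or.inr (Or.inr h)
  right
  rw [not_forall] at hV
  obtain ⟨s0, hs0⟩ := hV
  have hP : ∀ s, st (real (true :: true :: s)) = st (real (false :: true :: s)) := by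
    intro s
    have e := (H.star h2 (rf s) s0).resolve_right hs0
    have := H.frev (by simp) e
    simpa [rf, List.map_reverse, Function.comp_def] using this.symm
  have nn : ∀ w : List ℚ, (w.map Neg.neg).map Neg.neg = w := by
    intro w; simp [List.map_map, Function.comp_def]
  rcases H.neg.pk_case (by simp only [H.neg_real]; exact h2.symm)
    (by intro s; simp only [H.neg_real]; exact hP _) with h | h
  · left
    intro w w' hn hn' hl
    have := h _ _ (hn.map neg_injective) (hn'.map neg_injective) (by simpa)
    rwa [nn, nn, des_neg _ hn, des_neg _ hn'] at this
  · right
    intro w w' hn hn' hl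
    have := h _ _ (hn.map neg_injective) (hn'.map neg_injective) (by simpa)
    rwa [nn, nn] at this

end Bi

end Pool.Agent.H8.Bic
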