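import Mathlib

set_option autoImplicit false

namespace Pool.Agent.H8.Blk

open Set Filter Topology Metric

def V : Fin 12 → Fin 8 → Fin 3 → ℤ :=
  ![![![5, 4, 0], ![4, 4, 1], ![2, 7, 3], ![3, 6, 3], ![4, 5, 0], ![4, 4, -1], ![7, 2, -3], ![6, 3, -3]],
    ![![5, -4, 0], ![4, -4, -1], ![2, -7, -3], ![3, -6, -3], ![4, -5, 0], ![4, -4, 1], ![7, -2, 3], ![6, -3, 3]],
    ![![-5, 4, 0], ![-4, 4, -1], ![-2, 7, -3], ![-3, 6, -3], ![-4, 5, 0], ![-4, 4, 1], ![-7, 2, 3], ![-6, 3, 3]],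
    ![![-5, -4, 0], ![-4, -4, 1], ![-2, -7, 3], ![-3, -6, 3], ![-4, -5, 0], ![-4, -4, -1], ![-7, -2, -3], ![-6, -3, -3]],
    ![![5, 0, -4], ![4, 1, -4], ![2, 3, -7], ![3, 3, -6], ![4, 0, -5], ![4, -1, -4], ![7, -3, -2], ![6, -3, -3]],
    ![![5, 0, 4], ![4, -1, 4], ![2, -3, 7], ![3, -3, 6], ![4, 0, 5], ![4, 1, 4], ![7, 3, 2], ![6, 3, 3]],
    ![![-5, 0, 4], ![-4, 1, 4], ![-2, 3, 7], ![-3, 3, 6], ![-4, 0, 5], ![-4, -1, 4], ![-7, -3, 2], ![-6, -3, 3]],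
    ![![-5, 0, -4], ![-4, -1, -4], ![-2, -3, -7], ![-3, -3, -6], ![-4, 0, -5], ![-4, 1, -4], ![-7, 3, -2], ![-6, 3, -3]],
    ![![0, 5, 4], ![1, 4, 4], ![3, 2, 7], ![3, 3, 6], ![0, 4, 5], ![-1, 4, 4], ![-3, 7, 2], ![-3, 6, 3]],
    ![![0, -5, -4], ![1, -4, -4], ![3, -2, -7], ![3, -3, -6], ![0, -4, -5], ![-1, -4, -4], ![-3, -7, -2], ![-3, -6, -3]],
    ![![0, 5, -4], ![-1, 4, -4], ![-3, 2, -7], ![-3, 3, -6], ![0, 4, -5], ![1, 4, -4], ![3, 7, -2], ![3, 6, -3]],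
    ![![0, -5, 4], ![-1, -4, 4], ![-3, -2, 7], ![-3, -3, 6], ![0, -4, 5], ![1, -4, 4], ![3, -7, 2], ![3, -6, 3]]]

def M : Fin 12 → Fin 12 → Fin 3 → ℤ :=
  ![![![0, 0, 0], ![0, -1, 0], ![-1, 0, 0], ![-1, 0, 0], ![-2, -2, -1], ![2, -1, 2], ![-1, 0, 0], ![-1, 0, 0], ![-2, -2, 1], ![0, -1, 0], ![-1, 2, -2], ![0, -1, 0]],
    ![![0, 1, 0], ![0, 0, 0], ![-1, 0, 0], ![-1, 0, 0], ![2, 1, -2], ![-2, 2, 1], ![-1, 0, 0], ![-1, 0, 0], ![0, 1, 0], ![-2, 2, -1], ![0, 1, 0], ![-1, -2, 2]],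
    ![![1, 0, 0], ![0, -1, 0], ![0, 0, 0], ![0, -1, 0], ![1, 0, 0], ![1, 0, 0], ![2, -2, 1], ![-2, -1, -2], ![1, 2, 2], ![0, -1, 0], ![2, -2, -1], ![0, -1, 0]],
    ![![0, 1, 0], ![1, 0, 0], ![0, 1, 0], ![0, 0, 0], ![1, 0, 0], ![1, 0, 0], ![-2, 1, 2], ![2, 2, -1], ![0, 1, 0], ![1, -2, -2], ![0, 1, 0], ![2, 2, 1]],
    ![![2, 2, 1], ![-2, -1, 2], ![-1, 0, 0], ![-1, 0, 0], ![0, 0, 0], ![0, 0, 1], ![-1, 0, 0], ![-1, 0, 0], ![0, 0, 1], ![-1, -2, -2], ![-2, 1, 2], ![0, 0, 1]],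
    ![![-2, 1, -2], ![2, -2, -1], ![-1, 0, 0], ![-1, 0, 0], ![0, 0, -1], ![0, 0, 0], ![-1, 0, 0], ![-1, 0, 0], ![-1, 2, 2], ![0, 0, -1], ![0, 0, -1], ![-2, -1, -2]],
    ![![1, 0, 0], ![1, 0, 0], ![-2, 2, -1], ![2, -1, -2], ![0, 0, -1], ![1, 0, 0], ![0, 0, 0], ![0, 0, -1], ![2, 1, -2], ![0, 0, -1], ![0, 0, -1], ![1, -2, 2]],
    ![![1, 0, 0], ![1, 0, 0], ![2, 1, 2], ![-2, -2, 1], ![1, 0, 0], ![0, 0, 1], ![0, 0, 1], ![0, 0, 0], ![0, 0, 1], ![2, -1, 2], ![1, 2, -2], ![0, 0, 1]],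
    ![![2, 2, -1], ![0, -1, 0], ![-1, -2, -2], ![0, -1, 0], ![0, 0, -1], ![1, -2, -2], ![-2, -1, 2], ![0, 0, -1], ![0, 0, 0], ![0, -1, 0], ![0, 0, -1], ![0, -1, 0]],
    ![![0, 1, 0], ![2, -2, 1], ![0, 1, 0], ![-1, 2, 2], ![1, 2, 2], ![0, 0, 1], ![0, 0, 1], ![-2, 1, -2], ![0, 0, 1], ![0, 0, 0], ![0, 1, 0], ![0, 0, 1]],
    ![![1, -2, 2], ![0, -1, 0], ![-2, 2, 1], ![0, -1, 0], ![2, -1, -2], ![0, 0, 1], ![0, 0, 1], ![-1, -2, 2], ![0, 0, 1], ![0, -1, 0], ![0, 0, 0], ![0, -1, 0]],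
    ![![0, 1, 0], ![1, 2, -2], ![0, 1, 0], ![-2, -2, -1], ![0, 0, -1], ![2, 1, 2], ![-1, 2, -2], ![0, 0, -1], ![0, 1, 0], ![0, 0, -1], ![0, 0, -1], ![0, 0, 0]]]

def nb : Fin 12 → Fin 8 → Fin 12 :=
  ![![5, 5, 8, 8, 10, 10, 4, 4],
    ![4, 4, 9, 9, 11, 11, 5, 5],
    ![7, 7, 10, 10, 8, 8, 6, 6],
    ![6, 6, 11, 11, 9, 9, 7, 7],
    ![0, 0, 10, 10, 9, 9, 1, 1],
    ![1, 1, 11, 11, 8, 8, 0, 0],
    ![2, 2, 8, 8, 11, 11, 3, 3],
    ![3, 3, 9, 9, 10, 10, 2, 2],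
    ![0, 0, 5, 5, 6, 6, 2, 2],
    ![1, 1, 4, 4, 7, 7, 3, 3],
    ![2, 2, 7, 7, 4, 4, 0, 0],
    ![3, 3, 6, 6, 5, 5, 1, 1]]

def vi : Fin 12 → Fin 8 → Fin 8 :=
  ![![6, 7, 0, 1, 6, 7, 0, 1],
    ![6, 7, 0, 1, 6, 7, 0, 1],
    ![6, 7, 0, 1, 6, 7, 0, 1],
    ![6, 7, 0, 1, 6, 7, 0, 1],
    ![6, 7, 4, 5, 2, 3, 0, 1],
    ![6, 7, 4, 5, 2, 3, 0, 1],
    ![6, 7, 4, 5, 2, 3, 0, 1],
    ![6, 7, 4, 5, 2, 3, 0, 1],
    ![2, 3, 4, 5, 2, 3, 4, 5],
    ![2, 3, 4, 5, 2, 3, 4, 5],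
    ![2, 3, 4, 5, 2, 3, 4, 5],
    ![2, 3, 4, 5, 2, 3, 4, 5]]

def lam : Fin 8 → ℤ := ![20, 4, 5, 1, 20, 4, 5, 1]

def B : Fin 12 → Fin 6 → Fin 8 → ℤ :=
  ![![![81, -121, 165, -205, -99, 39, 0, 0], ![-45, 145, -165, 205, 135, -15, 0, 0], ![-159, 279, -195, 255, 261, -141, 0, 0], ![5, -5, 5, -5, -15, 15, 0, 0], ![-17, 17, -5, 5, 3, -3, 0, 0], ![3, -3, 15, -15, 3, -3, 0, 0]],
    ![![81, -121, 165, -205, -99, 39, 0, 0], ![45, -145, 165, -205, -135, 15, 0, 0], ![159, -279, 195, -255, -261, 141, 0, 0], ![5, -5, 5, -5, -15, 15, 0, 0], ![17, -17, 5, -5, -3, 3, 0, 0], ![-3, 3, -15, 15, -3, 3, 0, 0]],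
    ![![-81, 121, -165, 205, 99, -39, 0, 0], ![-45, 145, -165, 205, 135, -15, 0, 0], ![159, -279, 195, -255, -261, 141, 0, 0], ![-5, 5, -5, 5, 15, -15, 0, 0], ![-17, 17, -5, 5, 3, -3, 0, 0], ![-3, 3, -15, 15, -3, 3, 0, 0]],
    ![![-81, 121, -165, 205, 99, -39, 0, 0], ![45, -145, 165, -205, -135, 15, 0, 0], ![-159, 279, -195, 255, 261, -141, 0, 0], ![-5, 5, -5, 5, 15, -15, 0, 0], ![17, -17, 5, -5, -3, 3, 0, 0], ![3, -3, 15, -15, 3, -3, 0, 0]],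
    ![![81, -121, 165, -205, -99, 39, 0, 0], ![-159, 279, -195, 255, 261, -141, 0, 0], ![45, -145, 165, -205, -135, 15, 0, 0], ![5, -5, 5, -5, -15, 15, 0, 0], ![3, -3, 15, -15, 3, -3, 0, 0], ![17, -17, 5, -5, -3, 3, 0, 0]],
    ![![81, -121, 165, -205, -99, 39, 0, 0], ![159, -279, 195, -255, -261, 141, 0, 0], ![-45, 145, -165, 205, 135, -15, 0, 0], ![5, -5, 5, -5, -15, 15, 0, 0], ![-3, 3, -15, 15, -3, 3, 0, 0], ![-17, 17, -5, 5, 3, -3, 0, 0]],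
    ![![-81, 121, -165, 205, 99, -39, 0, 0], ![-159, 279, -195, 255, 261, -141, 0, 0], ![-45, 145, -165, 205, 135, -15, 0, 0], ![-5, 5, -5, 5, 15, -15, 0, 0], ![3, -3, 15, -15, 3, -3, 0, 0], ![-17, 17, -5, 5, 3, -3, 0, 0]],
    ![![-81, 121, -165, 205, 99, -39, 0, 0], ![159, -279, 195, -255, -261, 141, 0, 0], ![45, -145, 165, -205, -135, 15, 0, 0], ![-5, 5, -5, 5, 15, -15, 0, 0], ![-3, 3, -15, 15, -3, 3, 0, 0], ![17, -17, 5, -5, -3, 3, 0, 0]],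
    ![![-159, 279, -195, 255, 261, -141, 0, 0], ![81, -121, 165, -205, -99, 39, 0, 0], ![-45, 145, -165, 205, 135, -15, 0, 0], ![3, -3, 15, -15, 3, -3, 0, 0], ![5, -5, 5, -5, -15, 15, 0, 0], ![-17, 17, -5, 5, 3, -3, 0, 0]],
    ![![-159, 279, -195, 255, 261, -141, 0, 0], ![-81, 121, -165, 205, 99, -39, 0, 0], ![45, -145, 165, -205, -135, 15, 0, 0], ![3, -3, 15, -15, 3, -3, 0, 0], ![-5, 5, -5, 5, 15, -15, 0, 0], ![17, -17, 5, -5, -3, 3, 0, 0]],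
    ![![159, -279, 195, -255, -261, 141, 0, 0], ![81, -121, 165, -205, -99, 39, 0, 0], ![45, -145, 165, -205, -135, 15, 0, 0], ![-3, 3, -15, 15, -3, 3, 0, 0], ![5, -5, 5, -5, -15, 15, 0, 0], ![17, -17, 5, -5, -3, 3, 0, 0]],
    ![![159, -279, 195, -255, -261, 141, 0, 0], ![-81, 121, -165, 205, 99, -39, 0, 0], ![-45, 145, -165, 205, 135, -15, 0, 0], ![-3, 3, -15, 15, -3, 3, 0, 0], ![-5, 5, -5, 5, 15, -15, 0, 0], ![-17, 17, -5, 5, 3, -3, 0, 0]]]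

def N (i : Fin 12) (k : Fin 8) (p : Fin 3) : ℤ := V (nb i k) (vi i k) p - V i k p

def Wr (n v : Fin 3 → ℤ) : Fin 6 → ℤ :=
  ![n 0, n 1, n 2, v 1 * n 2 - v 2 * n 1, v 2 * n 0 - v 0 * n 2, v 0 * n 1 - v 1 * n 0]

theorem c1 : ∀ i j, i ≠ j → 0 < ∑ p, M i j p ^ 2 ∧ ∀ k l, 0 ≤ ∑ p, M i j p * (V j l p - V i k p) ∧
    9 * ∑ p, M i j p ^ 2 ≤ (∑ p, M i j p * (V j l p - V i k p)) ^ 2 := by decide +kernel
theorem c2 : ∀ i k, nb i k ≠ i ∧ ∑ p, N i k p ^ 2 = 9 := by decide +kernel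
theorem c3 : ∀ i m, ∑ k, lam k * Wr (N i k) (V i k) m = 0 := by decide +kernel
theorem c4 : ∀ i m m', ∑ k, B i m k * Wr (N i k) (V i k) m' = if m' = m then 60 else 0 := by
  decide +kernel
theorem c5 : ∀ k, 0 < lam k := by decide

abbrev X := (Fin 3 → Fin 3 → ℝ) × (Fin 3 → ℝ)

def disp (v : Fin 3 → ℝ) (x : X) (p : Fin 3) : ℝ := x.2 p + ∑ q, x.1 p q * v q

def Con (i : Fin 12) (s : ℝ) (x : X) : Prop :=
  (∀ p q, x.1 p q + x.1 q p + s * ∑ r, x.1 r p * x.1 r q = 0) ∧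
  ∀ k, 2 * ∑ p, N i k p * disp (fun q => V i k q) x p ≤ s * ∑ p, disp (fun q => V i k q) x p ^ 2

theorem first (i : Fin 12) (x : X) (h : Con i 0 x) : x = 0 := by
  obtain ⟨D, c⟩ := x
  obtain ⟨h1, h2⟩ := h
  simp only [zero_mul, add_zero] at h1 h2
  let y : Fin 6 → ℝ := ![c 0, c 1, c 2, D 2 1, D 0 2, D 1 0]
  let L : Fin 8 → ℝ := fun k => ∑ m, (Wr (N i k) (V i k) m : ℝ) * y m
  have a0 : D 0 0 = 0 := by linarith [h1 0 0]
  have a1 : D 1 1 = 0 := by linarith [h1 1 1]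
  have a2 : D 2 2 = 0 := by linarith [h1 2 2]
  have a3 : D 0 1 = -D 1 0 := by linarith [h1 0 1]
  have a4 : D 2 0 = -D 0 2 := by linarith [h1 0 2]
  have a5 : D 1 2 = -D 2 1 := by linarith [h1 1 2]
  have hL : ∀ k, L k ≤ 0 := fun k => by
    have := h2 k
    simp [disp, Fin.sum_univ_three, a0, a1, a2, a3, a4, a5] at this
    simp [L, y, Wr, Fin.sum_univ_six]
    linarith
  have hs : ∀ w : Fin 8 → ℤ, ∑ k, (w k : ℝ) * L k =
      ∑ m, ((∑ k, w k * Wr (N i k) (V i k) m : ℤ) : ℝ) * y m := fun w => by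
    simp only [L, Finset.mul_sum, Int.cast_sum, Int.cast_mul, Finset.sum_mul, mul_assoc]
    exact Finset.sum_comm
  have h0 : ∀ k, L k = 0 := by
    have := hs lam
    simp only [c3, Int.cast_zero, zero_mul, Finset.sum_const_zero] at this
    intro k
    have p : ∀ k, (0 : ℝ) < lam k := fun k => by exact_mod_cast c5 k
    have := (Finset.sum_eq_zero_iff_of_nonpos fun k _ =>
      mul_nonpos_of_nonneg_of_nonpos (p k).le (hL k)).1 this k (Finset.mem_univ _)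
    exact (mul_eq_zero.1 this).resolve_left (p k).ne'
  have hy : ∀ m, y m = 0 := fun m => by
    have := hs (B i m)
    simpa [c4, h0] using this
  have b0 : c 0 = 0 := hy 0
  have b1 : c 1 = 0 := hy 1
  have b2 : c 2 = 0 := hy 2
  have b3 : D 2 1 = 0 := hy 3
  have b4 : D 0 2 = 0 := hy 4
  have b5 : D 1 0 = 0 := hy 5
  ext p q
  · fin_cases p <;> fin_cases q <;> simp [*]
  · fin_cases p <;> simp [*]

theorem closed (i : Fin 12) : IsClosed {z : ℝ × X | Con i z.1 z.2} := by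
  simp only [Con, ofPred_and, ofPred_forall, disp]
  exact (isClosed_iInter fun p => isClosed_iInter fun q => isClosed_eq (by fun_prop)
    continuous_const).inter (isClosed_iInter fun k => isClosed_le (by fun_prop) (by fun_prop))

theorem loc (i : Fin 12) : ∀ᶠ x in 𝓝 (0 : X), Con i 1 x → x = 0 := by
  have h : ∀ᶠ s in 𝓝 (0 : ℝ), ∀ u ∈ sphere (0 : X) 1, ¬ Con i s u := by
    refine (isCompact_sphere 0 1).eventually_forall_of_forall_eventually fun u hu => ?_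
    refine (closed i).isOpen_compl.mem_nhds fun h => ?_
    rw [first i u h] at hu
    simp at hu
  have t : Tendsto (fun x : X => ‖x‖) (𝓝 0) (𝓝 0) := tendsto_norm_zero
  filter_upwards [t.eventually h] with x hx hc
  by_contra h0
  have hs : 0 < ‖x‖ := norm_pos_iff.2 h0
  obtain ⟨u, hu, e⟩ : ∃ u : X, ‖u‖ = 1 ∧ x = ‖x‖ • u :=
    ⟨‖x‖⁻¹ • x, by simp [norm_smul, hs.ne'], by simp [smul_smul, hs.ne']⟩
  generalize ‖x‖ = s at *
  subst e
  refine hx u (by simpa using hu) ⟨fun p q => ?_, fun k => ?_⟩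
  · have := hc.1 p q
    apply mul_left_cancel₀ hs.ne'
    simp only [Prod.smul_fst, Pi.smul_apply, smul_eq_mul, Fin.sum_univ_three] at this ⊢
    linarith
  · have := hc.2 k
    apply le_of_mul_le_mul_left _ hs
    simp only [disp, Prod.smul_fst, Prod.smul_snd, Pi.smul_apply, smul_eq_mul,
      Fin.sum_univ_three] at this ⊢
    linarith

abbrev E := EuclideanSpace ℝ (Fin 3)

noncomputable def pt (v : Fin 3 → ℤ) : E := WithLp.toLp 2 fun p => (v p : ℝ)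

def P (i : Fin 12) : Set E := convexHull ℝ (range fun k => pt (V i k))

theorem P_compact (i : Fin 12) : IsCompact (P i) := (finite_range _).isCompact_convexHull ℝ

theorem mem_P (i : Fin 12) (k : Fin 8) : pt (V i k) ∈ P i := subset_convexHull ℝ _ ⟨k, rfl⟩

theorem sep {i j : Fin 12} (h : i ≠ j) : ∀ a ∈ P i, ∀ b ∈ P j, 3 ≤ dist a b := by
  obtain ⟨h0, h1⟩ := c1 i j h
  let m := pt (M i j)
  have hm : ‖m‖ ^ 2 = ((∑ p, M i j p ^ 2 : ℤ) : ℝ) := by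
    simp [m, pt, EuclideanSpace.real_norm_sq_eq]
  have hm0 : 0 < ‖m‖ := by
    have : 0 < ‖m‖ ^ 2 := by rw [hm]; exact_mod_cast h0
    exact norm_pos_iff.2 fun e => by simp [e] at this
  have k1 : ∀ k l, 3 * ‖m‖ ≤ inner ℝ m (pt (V j l)) - inner ℝ m (pt (V i k)) := fun k l => by
    have e : inner ℝ m (pt (V j l)) - inner ℝ m (pt (V i k)) =
        ((∑ p, M i j p * (V j l p - V i k p) : ℤ) : ℝ) := by
      simp [m, pt, PiLp.inner_apply, Fin.sum_univ_three]; ring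
    rw [e]
    refine (abs_le_of_sq_le_sq' ?_ (by exact_mod_cast (h1 k l).1)).2
    rw [mul_pow, hm]
    exact_mod_cast (h1 k l).2
  intro a ha b hb
  have k2 : ∀ l, inner ℝ m a ≤ inner ℝ m (pt (V j l)) - 3 * ‖m‖ := fun l =>
    convexHull_min (t := {a | inner ℝ m a ≤ _}) (by rintro _ ⟨k, rfl⟩; exact le_sub_comm.1 (k1 k l))
      (convex_halfSpace_le (innerₛₗ ℝ m).isLinear _) ha
  have k3 : inner ℝ m a + 3 * ‖m‖ ≤ inner ℝ m b :=
    convexHull_min (t := {b | _ ≤ inner ℝ m b}) (by rintro _ ⟨l, rfl⟩; exact le_sub_iff_add_le.1 (k2 l))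
      (convex_halfSpace_ge (innerₛₗ ℝ m).isLinear _) hb
  have k4 := real_inner_le_norm m (b - a)
  rw [inner_sub_right, ← dist_eq_norm, dist_comm] at k4
  nlinarith

def K (i : Fin 12) : Set E := cthickening (3 / 2) (P i)

theorem ball_sub (i : Fin 12) {a : E} (ha : a ∈ P i) : closedBall a (3 / 2) ⊆ K i :=
  closedBall_subset_cthickening ha _

theorem smooth (i : Fin 12) {x : E} (hx : x ∈ K i) : ∃ a : E, ∀ u : E, u ≠ 0 →
    (∀ y ∈ K i, inner ℝ u (y - x) ≤ 0) → x - a = (3 / 2 / ‖u‖) • u := by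
  rw [K, (P_compact i).cthickening_eq_biUnion_closedBall (by norm_num)] at hx
  obtain ⟨a, ha, hx⟩ := mem_iUnion₂.1 hx
  refine ⟨a, fun u hu h => ?_⟩
  have hn := norm_pos_iff.2 hu
  have h1 := h (a + (3 / 2 / ‖u‖) • u) (ball_sub i ha (by
    simp [norm_smul, hn.ne']))
  rw [mem_closedBall, dist_eq_norm] at hx
  rw [add_sub_right_comm, inner_add_right, inner_smul_right, real_inner_self_eq_norm_sq,
    ← neg_sub x, inner_neg_right] at h1
  rw [← sub_eq_zero, ← norm_eq_zero, ← pow_eq_zero_iff two_ne_zero]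
  refine le_antisymm ?_ (by positivity)
  rw [norm_sub_sq_real, inner_smul_right, norm_smul, real_inner_comm, Real.norm_eq_abs,
    abs_of_pos (by positivity), div_mul_cancel₀ _ hn.ne']
  have h2 : 3 / 2 / ‖u‖ * (3 / 2 / ‖u‖ * ‖u‖ ^ 2) = 9 / 4 := by field_simp; norm_num
  have h3 := mul_le_mul_of_nonneg_left h1 (show 0 ≤ 3 / 2 / ‖u‖ by positivity)
  have h4 : ‖x - a‖ ^ 2 ≤ (3 / 2) ^ 2 := by gcongr
  nlinarith

/-- coordinates of a rigid motion -/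
noncomputable def crd (g : E → E) : X :=
  (fun p q => g (EuclideanSpace.single q 1) p - g 0 p - if p = q then 1 else 0, fun p => g 0 p)

theorem expand {g : E → E} (hg : Isometry g) : (∀ y p, g y p = y p + disp y (crd g) p) ∧
    (∀ p q, (crd g).1 p q + (crd g).1 q p + 1 * ∑ r, (crd g).1 r p * (crd g).1 r q = 0) ∧
    ∀ a r, g '' ball a r = ball (g a) r := by
  let f := hg.affineIsometryOfStrictConvexSpace
  have hf : ∀ y, g y = f.linearIsometry y + g 0 := fun y => by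
    have := f.map_vadd 0 y
    simpa [f] using this
  have he : ∀ q, g (EuclideanSpace.single q 1) - g 0 = f.linearIsometry (EuclideanSpace.single q 1) :=
    fun q => by rw [hf]; simp
  have he' : ∀ p q, g (EuclideanSpace.single q 1) p - g 0 p =
      f.linearIsometry (EuclideanSpace.single q 1) p := fun p q => by rw [← he]; simp
  refine ⟨fun y p => ?_, fun p q => ?_, fun a r => ?_⟩
  · have e : y = ∑ q, y q • EuclideanSpace.single q (1 : ℝ) := by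
      ext p; fin_cases p <;> simp [Fin.sum_univ_three]
    rw [hf]
    conv_lhs => rw [e]
    simp only [map_sum, map_smul, disp, crd, he']
    fin_cases p <;> simp [Fin.sum_univ_three] <;> ring
  · have := f.linearIsometry.inner_map_map (EuclideanSpace.single p 1) (EuclideanSpace.single q 1)
    simp only [crd, he']
    rw [PiLp.inner_apply, PiLp.inner_apply] at this
    fin_cases p <;> fin_cases q <;> simp [Fin.sum_univ_three] at this ⊢ <;> linarith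
  · exact (f.toAffineIsometryEquiv rfl).toIsometryEquiv.image_ball a r

theorem rigid (i : Fin 12) (γ : ℝ → E → E) (hc : Continuous fun p : ℝ × E => γ p.1 p.2)
    (h0 : ∀ x, γ 0 x = x) (hi : ∀ t ∈ Icc (0 : ℝ) 1, Isometry (γ t))
    (hd : ∀ t ∈ Icc (0 : ℝ) 1, ∀ j, j ≠ i → Disjoint (interior (γ t '' K i)) (interior (K j))) :
    γ 1 '' K i = K i := by
  have hx : Continuous fun t => crd (γ t) := by
    have : ∀ y p, Continuous fun t => γ t y p := fun y p => by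
      have : Continuous fun t => γ t y := hc.comp (Continuous.prodMk_left y)
      fun_prop
    unfold crd
    refine Continuous.prodMk (continuous_pi fun p => continuous_pi fun q => ?_)
      (continuous_pi fun p => this _ _)
    exact ((this _ p).sub (this _ p)).sub continuous_const
  have hcon : ∀ t ∈ Icc (0 : ℝ) 1, Con i 1 (crd (γ t)) := by
    intro t ht
    obtain ⟨e1, e2, e3⟩ := expand (hi t ht)
    refine ⟨e2, fun k => ?_⟩
    have d := (hd t ht _ (c2 i k).1).mono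
      (interior_maximal (s := γ t '' K i) (t := ball (γ t (pt (V i k))) (3 / 2)) (by
        rw [← e3]; exact image_mono (ball_subset_closedBall.trans (ball_sub i (mem_P i k))))
        isOpen_ball)
      (interior_maximal (ball_subset_closedBall.trans (ball_sub _ (mem_P _ (vi i k)))) isOpen_ball)
    rw [disjoint_ball_ball_iff (by norm_num) (by norm_num)] at d
    have d2 := pow_le_pow_left₀ (by norm_num) d 2
    rw [EuclideanSpace.dist_sq_eq] at d2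
    have d3 : ((∑ p, N i k p ^ 2 : ℤ) : ℝ) = 9 := by exact_mod_cast (c2 i k).2
    simp only [e1, Real.dist_eq, sq_abs, pt, N, Fin.sum_univ_three] at d2 d3 ⊢
    push_cast at d3 ⊢
    linarith
  obtain ⟨U, hU, Uo, U0⟩ := _root_.eventually_nhds_iff.1 (loc i)
  have x0 : crd (γ 0) = 0 := by
    ext p q
    · simp [crd, h0, Pi.single_apply]
    · simp [crd, h0]
  have x1 : crd (γ 1) = 0 := by
    rcases isPreconnected_iff_subset_of_disjoint.1 (isPreconnected_Icc.image _ hx.continuousOn)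
      U {0}ᶜ Uo isOpen_compl_singleton (fun z _ => by
        by_cases h : z = 0
        · exact Or.inl (h ▸ U0)
        · exact Or.inr h) (eq_empty_iff_forall_notMem.2 (by
        rintro _ ⟨⟨t, ht, rfl⟩, a, b⟩
        exact b (hU _ a (hcon t ht)))) with h | h
    · exact hU _ (h ⟨1, by simp, rfl⟩) (hcon 1 (by simp))
    · exact absurd x0 (h ⟨0, by simp, rfl⟩)
  have : γ 1 = id := by
    ext y p
    rw [(expand (hi 1 (by simp))).1, x1]
    simp [disp]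
  simp [this]

theorem main : ∃ n : ℕ, 0 < n ∧ ∃ K : Fin n → Set E,
      (∀ i, IsCompact (K i) ∧ Convex ℝ (K i) ∧ (interior (K i)).Nonempty ∧
        (∀ x ∈ frontier (K i), ∀ u v : E, u ≠ 0 → v ≠ 0 →
          (∀ y ∈ K i, inner ℝ u (y - x) ≤ 0) → (∀ y ∈ K i, inner ℝ v (y - x) ≤ 0) →
          ∃ c : ℝ, 0 < c ∧ v = c • u)) ∧
      (∀ i j, i ≠ j → Disjoint (interior (K i)) (interior (K j))) ∧
      (∀ i, ∀ γ : ℝ → E → E, Continuous (fun p : ℝ × E => γ p.1 p.2) → (∀ x, γ 0 x = x) →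
        (∀ t ∈ Icc (0 : ℝ) 1, Isometry (γ t)) →
        (∀ t ∈ Icc (0 : ℝ) 1, ∀ j, j ≠ i → Disjoint (interior (γ t '' K i)) (interior (K j))) →
        γ 1 '' K i = K i) := by
  refine ⟨12, by norm_num, K, fun i => ⟨(P_compact i).cthickening, (convex_convexHull ℝ _).cthickening _,
    ⟨_, interior_maximal (ball_subset_closedBall.trans (ball_sub _ (mem_P _ 0))) isOpen_ball
      (mem_ball_self (by norm_num))⟩, fun x hx u v hu hv h1 h2 => ?_⟩, fun i j h => ?_, rigid⟩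
  · obtain ⟨a, ha⟩ := smooth i (isClosed_cthickening.frontier_subset hx)
    have e := (ha v hv h2).symm.trans (ha u hu h1)
    have a1 := norm_pos_iff.2 hu
    have a2 := norm_pos_iff.2 hv
    refine ⟨‖v‖ / ‖u‖, by positivity, ?_⟩
    apply smul_right_injective E (show 3 / 2 / ‖v‖ ≠ 0 by positivity)
    simp only [e, smul_smul]
    congr 1; field_simp
  · rw [disjoint_left]
    intro x h1 h2
    have h2 := interior_subset h2
    rw [K, (P_compact j).cthickening_eq_biUnion_closedBall (by norm_num)] at h2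
    obtain ⟨b, hb, h2⟩ := mem_iUnion₂.1 h2
    rw [← closure_ball _ (by norm_num)] at h2
    obtain ⟨y, h3, h4⟩ := _root_.mem_closure_iff.1 h2 _ isOpen_interior h1
    have h3 := interior_subset h3
    rw [K, (P_compact i).cthickening_eq_biUnion_closedBall (by norm_num)] at h3
    obtain ⟨a, ha, h3⟩ := mem_iUnion₂.1 h3
    linarith [sep h a ha b hb, dist_triangle_left a b y, mem_ball.1 h4, mem_closedBall.1 h3]

end Pool.Agent.H8.Blk
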