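import Pool.Agent.H8.BruDefs

namespace Pool.Agent.H8.Bru

open Equiv Finset

variable {n : ℕ}

def c (x y : ℕ) : ℤ := if x < y then 1 else 0

/-- position of the value `v` -/
def P (u : Perm (Fin n)) (v : ℕ) : ℕ := if h : v < n then (u⁻¹ ⟨v, h⟩).val else v

lemma P_fin (u : Perm (Fin n)) (k : Fin n) : P u k = (u⁻¹ k).val := by
  simp [P, k.2]

lemma P_lt (u : Perm (Fin n)) {v : ℕ} (h : v < n) : P u v < n := by
  simp [P, h]

lemma P_inj (u : Perm (Fin n)) {a b : ℕ} (ha : a < n) (hb : b < n) (h : P u a = P u b) :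
    a = b := by
  simp only [P, ha, hb, dif_pos] at h
  have := u⁻¹.injective (Fin.ext h)
  simpa using this

lemma P_swap_left (u : Perm (Fin n)) (k l : Fin n) : P (swap k l * u) k = P u l := by
  simp [P_fin]

lemma P_swap_right (u : Perm (Fin n)) (k l : Fin n) : P (swap k l * u) l = P u k := by
  simp [P_fin]

lemma P_swap_ne (u : Perm (Fin n)) (k l : Fin n) {v : ℕ} (hk : v ≠ k) (hl : v ≠ l) :
    P (swap k l * u) v = P u v := by
  unfold P
  split_ifs with h
  · have h1 : (⟨v, h⟩ : Fin n) ≠ k := fun e => hk (by rw [← e])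
    have h2 : (⟨v, h⟩ : Fin n) ≠ l := fun e => hl (by rw [← e])
    simp [swap_apply_of_ne_of_ne h1 h2]
  · rfl

lemma P_swap_fin (u : Perm (Fin n)) (k l v : Fin n) :
    P (swap k l * u) v = P u (swap k l v : Fin n) := by
  simp [P_fin]

lemma ext_P {u w : Perm (Fin n)} (h : ∀ v, v < n → P u v = P w v) : u = w := by
  have : u⁻¹ = w⁻¹ := by
    ext k
    have := h k k.2
    rwa [P_fin, P_fin] at this
  exact inv_injective this

/-- rank function -/
def R (u : Perm (Fin n)) (p q : ℕ) : ℤ := ∑ v : Fin n, c v p * c (P u v) q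

lemma R_swap (u : Perm (Fin n)) (k l : Fin n) (p q : ℕ) :
    R (swap k l * u) p q = R u p q - (c k p - c l p) * (c (P u k) q - c (P u l) q) := by
  by_cases hkl : k = l
  · subst hkl
    have : (swap k k : Perm (Fin n)) = 1 := swap_self k
    rw [this]; simp
  have : R (swap k l * u) p q - R u p q
      = ∑ v : Fin n, c v p * (c (P (swap k l * u) v) q - c (P u v) q) := by
    unfold R
    rw [← Finset.sum_sub_distrib]
    exact Finset.sum_congr rfl fun v _ => by ring
  rw [Fintype.sum_eq_add k l hkl] at this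
  · rw [P_swap_left, P_swap_right] at this
    linarith
  · rintro v ⟨h1, h2⟩
    rw [P_swap_ne u k l (fun e => h1 (Fin.ext e)) (fun e => h2 (Fin.ext e))]
    simp

lemma R_succ (u : Perm (Fin n)) {k : ℕ} (hk : k < n) (q : ℕ) :
    R u (k + 1) q = R u k q + c (P u k) q := by
  have : R u (k + 1) q - R u k q = ∑ v : Fin n, (c v (k + 1) - c v k) * c (P u v) q := by
    unfold R
    rw [← Finset.sum_sub_distrib]
    exact Finset.sum_congr rfl fun v _ => by ring
  rw [Fintype.sum_eq_single (⟨k, hk⟩ : Fin n)] at this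
  · simp only [c, lt_add_one, if_true, lt_irrefl, if_false] at this
    simp only [c]
    linarith
  · intro v hv
    have : (v : ℕ) ≠ k := fun e => hv (Fin.ext e)
    have : c v (k + 1) - c v k = 0 := by
      unfold c; split_ifs <;> omega
    rw [this]; simp

lemma R_zero_left (u : Perm (Fin n)) (q : ℕ) : R u 0 q = 0 := by simp [R, c]

lemma R_zero_right (u : Perm (Fin n)) (p : ℕ) : R u p 0 = 0 := by simp [R, c]

lemma R_top_left (u : Perm (Fin n)) {p : ℕ} (hp : n ≤ p) (q : ℕ) :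
    R u p q = ∑ v : Fin n, c v q := by
  unfold R
  rw [← Equiv.sum_comp u⁻¹ (fun v : Fin n => c v q)]
  refine Finset.sum_congr rfl fun v _ => ?_
  have : c v p = 1 := by unfold c; rw [if_pos (lt_of_lt_of_le v.2 hp)]
  rw [this, P_fin]; simp

lemma R_top_right (u : Perm (Fin n)) (p : ℕ) {q : ℕ} (hq : n ≤ q) :
    R u p q = ∑ v : Fin n, c v p := by
  unfold R
  refine Finset.sum_congr rfl fun v _ => ?_
  have : c (P u v) q = 1 := by unfold c; rw [if_pos (lt_of_lt_of_le (P_lt u v.2) hq)]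
  rw [this]; simp

lemma quad_eq (u : Perm (Fin n)) (p1 p2 q1 q2 : ℕ) :
    R u p2 q2 - R u p1 q2 - R u p2 q1 + R u p1 q1
      = ∑ v : Fin n, (c v p2 - c v p1) * (c (P u v) q2 - c (P u v) q1) := by
  unfold R
  rw [← Finset.sum_sub_distrib, ← Finset.sum_sub_distrib, ← Finset.sum_add_distrib]
  exact Finset.sum_congr rfl fun v _ => by ring

lemma quad_nonneg (u : Perm (Fin n)) {p1 p2 q1 q2 : ℕ} (hp : p1 ≤ p2) (hq : q1 ≤ q2) :
    0 ≤ R u p2 q2 - R u p1 q2 - R u p2 q1 + R u p1 q1 := by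
  rw [quad_eq]
  refine Finset.sum_nonneg fun v _ => ?_
  unfold c; split_ifs <;> omega

lemma quad_pos (u : Perm (Fin n)) {p1 p2 q1 q2 : ℕ} (hp : p1 ≤ p2) (hq : q1 ≤ q2)
    (h : 0 < R u p2 q2 - R u p1 q2 - R u p2 q1 + R u p1 q1) :
    ∃ v : Fin n, p1 ≤ v ∧ v < p2 ∧ q1 ≤ P u v ∧ P u v < q2 := by
  rw [quad_eq] at h
  by_contra hc
  push Not at hc
  have : ∑ v : Fin n, (c v p2 - c v p1) * (c (P u v) q2 - c (P u v) q1) ≤ 0 := by
    refine Finset.sum_nonpos fun v _ => ?_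
    have := hc v
    unfold c; split_ifs <;> omega
  omega

def D (u w : Perm (Fin n)) (p q : ℕ) : ℤ := R u p q - R w p q

def Le (u w : Perm (Fin n)) : Prop := ∀ p q, 0 ≤ D u w p q

lemma Le.refl (u : Perm (Fin n)) : Le u u := fun p q => by simp [D]

lemma Le.trans {u v w : Perm (Fin n)} (h1 : Le u v) (h2 : Le v w) : Le u w := fun p q => by
  have := h1 p q
  have := h2 p q
  unfold D at *
  omega

lemma D_swap (u w : Perm (Fin n)) (k l : Fin n) (p q : ℕ) :
    D (swap k l * u) w p q = D u w p q - (c k p - c l p) * (c (P u k) q - c (P u l) q) := by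
  unfold D; rw [R_swap]; ring

lemma D_succ (u w : Perm (Fin n)) {k : ℕ} (hk : k < n) (q : ℕ) :
    D u w (k + 1) q = D u w k q + c (P u k) q - c (P w k) q := by
  unfold D; rw [R_succ u hk, R_succ w hk]; ring

lemma D_zero_left (u w : Perm (Fin n)) (q : ℕ) : D u w 0 q = 0 := by simp [D, R_zero_left]

lemma D_zero_right (u w : Perm (Fin n)) (p : ℕ) : D u w p 0 = 0 := by simp [D, R_zero_right]

lemma D_top_left (u w : Perm (Fin n)) {p : ℕ} (hp : n ≤ p) (q : ℕ) : D u w p q = 0 := by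
  simp [D, R_top_left _ hp]

lemma D_top_right (u w : Perm (Fin n)) (p : ℕ) {q : ℕ} (hq : n ≤ q) : D u w p q = 0 := by
  simp [D, R_top_right _ _ hq]

lemma exists_first (Q : ℕ → Prop) {a b : ℕ} (hab : a ≤ b) (hb : Q b) :
    ∃ m, a ≤ m ∧ m ≤ b ∧ Q m ∧ ∀ x, a ≤ x → x < m → ¬ Q x := by
  classical
  have hex : ∃ m, a ≤ m ∧ Q m := ⟨b, hab, hb⟩
  refine ⟨Nat.find hex, (Nat.find_spec hex).1, Nat.find_min' hex ⟨hab, hb⟩,
    (Nat.find_spec hex).2, fun x hx hlt hq => Nat.find_min hex hlt ⟨hx, hq⟩⟩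

lemma exists_last (Q : ℕ → Prop) {a b : ℕ} (hab : a ≤ b) (ha : Q a) :
    ∃ m, a ≤ m ∧ m ≤ b ∧ Q m ∧ ∀ x, m < x → x ≤ b → ¬ Q x := by
  classical
  refine ⟨Nat.findGreatest Q b, Nat.le_findGreatest hab ha, Nat.findGreatest_le b,
    Nat.findGreatest_spec hab ha, fun x hx hxb => Nat.findGreatest_is_greatest hx hxb⟩

/-- an up-edge starting at the value `k` -/
lemma edge_right {u w : Perm (Fin n)} (h : Le u w) {k : ℕ} (hk : k < n)
    (hd : 0 < D u w (k + 1) (P u k + 1)) :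
    ∃ l : Fin n, k < l ∧ P u k < P u l ∧
      ∀ p q, k < p → p ≤ l → P u k < q → q ≤ P u l → 0 < D u w p q := by
  have hPk := P_lt u hk
  obtain ⟨q1, hq1, -, hq1z, hq1m⟩ := exists_first (fun q => D u w (k + 1) q ≤ 0)
    (show P u k + 1 ≤ n from hPk) (D_top_right u w _ le_rfl).le
  have hq1' : P u k + 1 < q1 := by
    rcases hq1.lt_or_eq with h1 | h1
    · exact h1
    · rw [← h1] at hq1z; omega
  obtain ⟨p1, hp1, -, ⟨q', hq'1, hq'2, hq'z⟩, hp1m⟩ :=
    exists_first (fun p => ∃ q', P u k + 1 ≤ q' ∧ q' < q1 ∧ D u w p q' ≤ 0)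
      (show k + 1 ≤ n from hk) ⟨P u k + 1, le_rfl, hq1', (D_top_left u w le_rfl _).le⟩
  have h1 := quad_nonneg w hp1 hq'2.le
  have h2 := h p1 q1
  have h3 := hq1m q' hq'1 hq'2
  obtain ⟨v, hv1, hv2, hv3, hv4⟩ := quad_pos u hp1 hq'2.le (by unfold D at *; omega)
  refine ⟨v, by omega, by omega, fun p q hp hp' hq hq' => ?_⟩
  by_contra hc
  exact hp1m p (by omega) (by omega) ⟨q, by omega, by omega, by omega⟩

/-- an up-edge ending at the value `k` -/
lemma edge_left {u w : Perm (Fin n)} (h : Le u w) {k : ℕ}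
    (hd : 0 < D u w k (P u k)) :
    ∃ j : Fin n, (j : ℕ) < k ∧ P u j < P u k ∧
      ∀ p q : ℕ, (j : ℕ) < p → p ≤ k → P u j < q → q ≤ P u k → 0 < D u w p q := by
  obtain ⟨q1, -, hq1, hq1z, hq1m⟩ := exists_last (fun q => D u w k q ≤ 0)
    (Nat.zero_le (P u k)) (D_zero_right u w _).le
  have hq1' : q1 < P u k := by
    rcases hq1.lt_or_eq with h1 | h1
    · exact h1
    · rw [h1] at hq1z; omega
  obtain ⟨p1, -, hp1, ⟨q', hq'1, hq'2, hq'z⟩, hp1m⟩ :=
    exists_last (fun p => ∃ q', q1 < q' ∧ q' ≤ P u k ∧ D u w p q' ≤ 0)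
      (Nat.zero_le k) ⟨P u k, hq1', le_rfl, (D_zero_left u w _).le⟩
  have h1 := quad_nonneg w hp1 hq'1.le
  have h2 := h p1 q1
  have h3 := hq1m q' hq'1 hq'2
  obtain ⟨v, hv1, hv2, hv3, hv4⟩ := quad_pos u hp1 hq'1.le (by unfold D at *; omega)
  refine ⟨v, by omega, by omega, fun p q hp hp' hq hq' => ?_⟩
  by_contra hc
  exact hp1m p (by omega) (by omega) ⟨q, by omega, by omega, by omega⟩

lemma le_swap_of_rect {u w : Perm (Fin n)} (h : Le u w) {k l : Fin n} (hkl : (k : ℕ) < l)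
    (hP : P u k < P u l)
    (hr : ∀ p q, (k : ℕ) < p → p ≤ l → P u k < q → q ≤ P u l → 0 < D u w p q) :
    Le (swap k l * u) w := by
  intro p q
  rw [D_swap]
  have h1 := h p q
  have h2 := hr p q
  unfold c; split_ifs <;> omega

lemma le_up (u : Perm (Fin n)) {k l : Fin n} (hkl : (k : ℕ) < l) (hP : P u k < P u l) :
    Le u (swap k l * u) := by
  intro p q
  unfold D
  rw [R_swap]
  unfold c; split_ifs <;> omega

lemma rect_of_le_swap {u w : Perm (Fin n)} {k l : Fin n} (h : Le (swap k l * u) w)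
    {p q : ℕ} (h1 : (k : ℕ) < p) (h2 : p ≤ l) (h3 : P u k < q) (h4 : q ≤ P u l) :
    0 < D u w p q := by
  have := h p q
  rw [D_swap] at this
  revert this
  unfold c; split_ifs <;> omega

/-- if `u ≠ w` there is a value to start from -/
lemma exists_start {u w : Perm (Fin n)} (h : Le u w) (hne : u ≠ w) :
    ∃ k, k < n ∧ 0 < D u w (k + 1) (P u k + 1) := by
  have hex : ∃ v, v < n ∧ P u v ≠ P w v := by
    by_contra hc
    push Not at hc
    exact hne (ext_P hc)
  obtain ⟨v, hv, hv'⟩ := hex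
  obtain ⟨k, -, hkv, hk, hkm⟩ := exists_first (fun x => P u x ≠ P w x) (Nat.zero_le v) hv'
  have hz : ∀ p, p ≤ k → ∀ q, D u w p q = 0 := by
    intro p
    induction p with
    | zero => intro _ q; exact D_zero_left u w q
    | succ p ih =>
      intro hp q
      rw [D_succ u w (by omega), ih (by omega)]
      have := hkm p (Nat.zero_le _) (by omega)
      push Not at this
      rw [this]; simp
  refine ⟨k, by omega, ?_⟩
  have h1 := h (k + 1) (P w k + 1)
  rw [D_succ u w (by omega), hz k le_rfl] at h1 ⊢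
  revert h1
  unfold c; split_ifs <;> omega

end Pool.Agent.H8.Bru
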