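import Pool.Agent.H8.Bru1

namespace Pool.Agent.H8.Bru

open Equiv Finset

variable {n : ℕ}

lemma sym_sum (τ : Perm (Fin n)) (f : Fin n → Fin n → ℤ) :
    2 * ∑ a, ∑ b, f a b = ∑ a, ∑ b, (f a b + f (τ a) (τ b)) := by
  have : ∑ a, ∑ b, f (τ a) (τ b) = ∑ a, ∑ b, f a b := by
    rw [← Equiv.sum_comp τ (fun a => ∑ b, f a b)]
    exact Finset.sum_congr rfl fun a _ => Equiv.sum_comp τ (fun b => f (τ a) b)
  simp only [Finset.sum_add_distrib]
  rw [this]; ring

lemma sum2_nonneg {f : Fin n → Fin n → ℤ} (h : ∀ a b, 0 ≤ f a b) : 0 ≤ ∑ a, ∑ b, f a b :=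
  Finset.sum_nonneg fun a _ => Finset.sum_nonneg fun b _ => h a b

lemma sum2_pos {f : Fin n → Fin n → ℤ} (h : ∀ a b, 0 ≤ f a b) {a0 b0 : Fin n}
    (h0 : 0 < f a0 b0) : 0 < ∑ a, ∑ b, f a b :=
  Finset.sum_pos' (fun a _ => Finset.sum_nonneg fun b _ => h a b)
    ⟨a0, mem_univ _, Finset.sum_pos' (fun b _ => h a0 b) ⟨b0, mem_univ _, h0⟩⟩

lemma len_eq (u : Perm (Fin n)) :
    (len u : ℤ) = ∑ a : Fin n, ∑ b : Fin n, c a b * c (P u b) (P u a) := by
  have h1 : (len u : ℤ) = ∑ i : Fin n, ∑ j : Fin n, c (u j) (u i) * c i j := by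
    unfold len
    rw [Finset.card_filter, ← Finset.univ_product_univ, Finset.sum_product]
    push_cast
    refine Finset.sum_congr rfl fun i _ => Finset.sum_congr rfl fun j _ => ?_
    unfold c
    simp only [Fin.lt_def]
    split_ifs <;> simp_all
  rw [h1, Finset.sum_comm, ← Equiv.sum_comp u (fun a => ∑ b : Fin n, c a b * c (P u b) (P u a))]
  refine Finset.sum_congr rfl fun j _ => ?_
  rw [← Equiv.sum_comp u (fun b => c (u j) b * c (P u b) (P u (u j)))]
  refine Finset.sum_congr rfl fun i _ => ?_
  simp [P_fin]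

lemma len_lt (u : Perm (Fin n)) {k l : Fin n} (hkl : (k : ℕ) < l) (hP : P u k < P u l) :
    len u < len (swap k l * u) := by
  have key : 0 < 2 * ∑ a : Fin n, ∑ b : Fin n,
      (c a b * c (P (swap k l * u) b) (P (swap k l * u) a) - c a b * c (P u b) (P u a)) := by
    rw [sym_sum (swap k l)]
    have hne : k ≠ l := fun e => by rw [e] at hkl; omega
    refine sum2_pos (a0 := k) (b0 := l) (fun a b => ?_) ?_
    · simp only [P_swap_fin, swap_apply_self]
      have hk : ∀ x : Fin n, x ≠ k → (x : ℕ) ≠ k ∧ P u x ≠ P u k := fun x hx =>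
        ⟨fun e => hx (Fin.ext e), fun e => hx (Fin.ext (P_inj u x.2 k.2 e))⟩
      have hl : ∀ x : Fin n, x ≠ l → (x : ℕ) ≠ l ∧ P u x ≠ P u l := fun x hx =>
        ⟨fun e => hx (Fin.ext e), fun e => hx (Fin.ext (P_inj u x.2 l.2 e))⟩
      by_cases ha : a = k
      · subst ha
        by_cases hb : b = a
        · subst hb; simp [c]
        by_cases hb' : b = l
        · subst hb'
          simp only [swap_apply_left, swap_apply_right]
          unfold c; split_ifs <;> omega
        have := hk b hb
        have := hl b hb'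
        simp only [swap_apply_left, swap_apply_of_ne_of_ne hb hb']
        unfold c; split_ifs <;> omega
      by_cases ha' : a = l
      · subst ha'
        by_cases hb : b = k
        · subst hb
          simp only [swap_apply_left, swap_apply_right]
          unfold c; split_ifs <;> omega
        by_cases hb' : b = a
        · subst hb'; simp [c]
        have := hk b hb
        have := hl b hb'
        simp only [swap_apply_right, swap_apply_of_ne_of_ne hb hb']
        unfold c; split_ifs <;> omega
      have := hk a ha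
      have := hl a ha'
      by_cases hb : b = k
      · subst hb
        simp only [swap_apply_left, swap_apply_of_ne_of_ne ha ha']
        unfold c; split_ifs <;> omega
      by_cases hb' : b = l
      · subst hb'
        simp only [swap_apply_right, swap_apply_of_ne_of_ne ha ha']
        unfold c; split_ifs <;> omega
      simp only [swap_apply_of_ne_of_ne ha ha', swap_apply_of_ne_of_ne hb hb']
      omega
    · simp only [P_swap_fin, swap_apply_self, swap_apply_left, swap_apply_right]
      unfold c; split_ifs <;> omega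
  simp only [Finset.sum_sub_distrib] at key
  rw [← len_eq, ← len_eq] at key
  omega

lemma step_up (u : Perm (Fin n)) {k l : Fin n} (hkl : (k : ℕ) < l) (hP : P u k < P u l) :
    Step u (swap k l * u) :=
  ⟨swap k l, ⟨k, l, fun e => by rw [e] at hkl; omega, rfl⟩, rfl, len_lt u hkl hP⟩

lemma step_down (u : Perm (Fin n)) {k l : Fin n} (hkl : (k : ℕ) < l) (hP : P u l < P u k) :
    Step (swap k l * u) u := by
  have := step_up (swap k l * u) hkl (by rwa [P_swap_left, P_swap_right])
  rwa [← mul_assoc, swap_mul_self, one_mul] at this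

lemma step_iff {u v : Perm (Fin n)} (h : Step u v) :
    ∃ k l : Fin n, (k : ℕ) < l ∧ P u k < P u l ∧ v = swap k l * u := by
  obtain ⟨t, ⟨a, b, hab, rfl⟩, rfl, hlen⟩ := h
  have main : ∀ a b : Fin n, (a : ℕ) < b → len u < len (swap a b * u) → P u a < P u b := by
    intro a b hab hlen
    rcases lt_trichotomy (P u a) (P u b) with h | h | h
    · exact h
    · have := P_inj u a.2 b.2 h; omega
    · obtain ⟨_, _, _, h'⟩ := step_down u hab h
      omega
  rcases lt_trichotomy (a : ℕ) b with h | h | h
  · exact ⟨a, b, h, main a b h hlen, rfl⟩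
  · exact absurd (Fin.ext h) hab
  · rw [swap_comm] at hlen ⊢
    exact ⟨b, a, h, main b a h hlen, rfl⟩

lemma le_of_br {u w : Perm (Fin n)} (h : BrLe u w) : Le u w := by
  induction h with
  | refl => exact Le.refl u
  | tail _ hs ih =>
    obtain ⟨k, l, hkl, hP, rfl⟩ := step_iff hs
    exact ih.trans (le_up _ hkl hP)

lemma len_le (u : Perm (Fin n)) : len u ≤ n * n := by
  unfold len
  refine (Finset.card_filter_le _ _).trans ?_
  simp

lemma br_of_le {u w : Perm (Fin n)} (h : Le u w) : BrLe u w := by
  induction' hm : n * n - len u using Nat.strong_induction_on with m ih generalizing u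
  by_cases hne : u = w
  · subst hne; exact Relation.ReflTransGen.refl
  obtain ⟨k, hk, hd⟩ := exists_start h hne
  obtain ⟨l, hkl, hP, hr⟩ := edge_right h hk hd
  have h1 : Le (swap ⟨k, hk⟩ l * u) w := le_swap_of_rect h hkl hP hr
  have h2 := len_lt u (k := ⟨k, hk⟩) hkl hP
  have h3 := len_le (swap ⟨k, hk⟩ l * u)
  exact Relation.ReflTransGen.head (step_up u (k := ⟨k, hk⟩) hkl hP)
    (ih _ (by omega) h1 rfl)

lemma len_lt_of_brlt {u w : Perm (Fin n)} (h : BrLt u w) : len u < len w := by
  obtain ⟨h, hne⟩ := h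
  have : ∀ {x y : Perm (Fin n)}, BrLe x y → x = y ∨ len x < len y := by
    intro x y h
    induction h with
    | refl => exact Or.inl rfl
    | tail _ hs ih =>
      obtain ⟨_, _, _, h'⟩ := hs
      rcases ih with rfl | ih
      · exact Or.inr h'
      · exact Or.inr (ih.trans h')
  exact (this h).resolve_left hne

lemma brlt_of_step {u v : Perm (Fin n)} (h : Step u v) : BrLt u v := by
  refine ⟨Relation.ReflTransGen.single h, fun e => ?_⟩
  obtain ⟨_, _, _, h'⟩ := h
  rw [e] at h'; omega

end Pool.Agent.H8.Bru
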