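import Pool.Agent.H8.Bru2

namespace Pool.Agent.H8.Bru

open Equiv Finset

variable {n : ℕ}

open Classical in
noncomputable def g (u w : Perm (Fin n)) (a b : Fin n) : ℤ :=
  if Le (swap a b * u) w then 1 else 0

noncomputable def G (u w : Perm (Fin n)) : ℤ := ∑ a, ∑ b, g u w a b

lemma g_comm (u w : Perm (Fin n)) (a b : Fin n) : g u w a b = g u w b a := by
  unfold g; rw [swap_comm]

lemma swap_self_mul (a : Fin n) (u : Perm (Fin n)) : swap a a * u = u := by
  have : (swap a a : Perm (Fin n)) = 1 := swap_self a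
  rw [this, one_mul]

lemma g_self {u w : Perm (Fin n)} (h : Le u w) (a : Fin n) : g u w a a = 1 := by
  unfold g; rw [swap_self_mul, if_pos h]

section triple

variable {y w : Perm (Fin n)} {i j m : Fin n}

lemma tri_both (hij : (i : ℕ) < j) (hP : P y i < P y j) (hmi : m ≠ i) (hmj : m ≠ j)
    (h0 : Le y w) (hA : Le (swap i m * (swap i j * y)) w)
    (hB : Le (swap j m * (swap i j * y)) w) :
    Le (swap i m * y) w ∧ Le (swap j m * y) w := by
  have e1 : (m : ℕ) ≠ i := fun e => hmi (Fin.ext e)
  have e2 : (m : ℕ) ≠ j := fun e => hmj (Fin.ext e)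
  constructor <;> intro p q <;> have a0 := h0 p q <;> have a1 := hA p q <;> have a2 := hB p q <;>
    simp only [D_swap, P_swap_left, P_swap_right, P_swap_ne y i j e1 e2] at a1 a2 ⊢ <;>
    revert a1 a2 <;> unfold c <;> split_ifs <;> omega

lemma tri_left (hij : (i : ℕ) < j) (hP : P y i < P y j) (hmi : m ≠ i) (hmj : m ≠ j)
    (h0 : Le y w) (h1 : Le (swap i j * y) w) (hA : Le (swap i m * (swap i j * y)) w) :
    Le (swap i m * y) w ∨ Le (swap j m * y) w := by
  have e1 : (m : ℕ) ≠ i := fun e => hmi (Fin.ext e)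
  have e2 : (m : ℕ) ≠ j := fun e => hmj (Fin.ext e)
  have e3 : P y m ≠ P y i := fun e => e1 (P_inj y m.2 i.2 e)
  have e4 : P y m ≠ P y j := fun e => e2 (P_inj y m.2 j.2 e)
  have c1 : (m : ℕ) < i ∨ ((i : ℕ) < m ∧ (m : ℕ) < j) ∨ (j : ℕ) < m := by omega
  have c2 : P y m < P y i ∨ (P y i < P y m ∧ P y m < P y j) ∨ P y j < P y m := by omega
  rcases c1 with c1 | c1 | c1 <;> rcases c2 with c2 | c2 | c2 <;>
  first
  | (left; intro p q; have a0 := h0 p q; have a1 := hA p q; have a2 := h1 p q
     simp only [D_swap, P_swap_left, P_swap_right, P_swap_ne y i j e1 e2] at a1 a2 ⊢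
     revert a1 a2; unfold c; split_ifs <;> omega)
  | (right; intro p q; have a0 := h0 p q; have a1 := hA p q; have a2 := h1 p q
     simp only [D_swap, P_swap_left, P_swap_right, P_swap_ne y i j e1 e2] at a1 a2 ⊢
     revert a1 a2; unfold c; split_ifs <;> omega)

lemma tri_right (hij : (i : ℕ) < j) (hP : P y i < P y j) (hmi : m ≠ i) (hmj : m ≠ j)
    (h0 : Le y w) (h1 : Le (swap i j * y) w) (hA : Le (swap j m * (swap i j * y)) w) :
    Le (swap i m * y) w ∨ Le (swap j m * y) w := by
  have e1 : (m : ℕ) ≠ i := fun e => hmi (Fin.ext e)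
  have e2 : (m : ℕ) ≠ j := fun e => hmj (Fin.ext e)
  have e3 : P y m ≠ P y i := fun e => e1 (P_inj y m.2 i.2 e)
  have e4 : P y m ≠ P y j := fun e => e2 (P_inj y m.2 j.2 e)
  have c1 : (m : ℕ) < i ∨ ((i : ℕ) < m ∧ (m : ℕ) < j) ∨ (j : ℕ) < m := by omega
  have c2 : P y m < P y i ∨ (P y i < P y m ∧ P y m < P y j) ∨ P y j < P y m := by omega
  rcases c1 with c1 | c1 | c1 <;> rcases c2 with c2 | c2 | c2 <;>
  first
  | (left; intro p q; have a0 := h0 p q; have a1 := hA p q; have a2 := h1 p q
     simp only [D_swap, P_swap_left, P_swap_right, P_swap_ne y i j e1 e2] at a1 a2 ⊢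
     revert a1 a2; unfold c; split_ifs <;> omega)
  | (right; intro p q; have a0 := h0 p q; have a1 := hA p q; have a2 := h1 p q
     simp only [D_swap, P_swap_left, P_swap_right, P_swap_ne y i j e1 e2] at a1 a2 ⊢
     revert a1 a2; unfold c; split_ifs <;> omega)

lemma tri (hij : (i : ℕ) < j) (hP : P y i < P y j) (hmi : m ≠ i) (hmj : m ≠ j)
    (h0 : Le y w) (h1 : Le (swap i j * y) w) :
    0 ≤ g y w i m - g (swap i j * y) w i m + (g y w j m - g (swap i j * y) w j m) := by
  have t1 := tri_both hij hP hmi hmj h0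
  have t2 := tri_left hij hP hmi hmj h0 h1
  have t3 := tri_right hij hP hmi hmj h0 h1
  unfold g
  split_ifs <;> simp_all

lemma disj (hij : (i : ℕ) < j) (hP : P y i < P y j) {a b : Fin n} (hai : a ≠ i) (haj : a ≠ j)
    (hbi : b ≠ i) (hbj : b ≠ j) : g (swap i j * y) w a b ≤ g y w a b := by
  have : Le (swap a b * (swap i j * y)) w → Le (swap a b * y) w := by
    intro h p q
    have a1 := h p q
    simp only [D_swap, P_swap_ne y i j (fun e => hai (Fin.ext e)) (fun e => haj (Fin.ext e)),
      P_swap_ne y i j (fun e => hbi (Fin.ext e)) (fun e => hbj (Fin.ext e))] at a1 ⊢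
    have : 0 ≤ (c i p - c j p) * (c (P y i) q - c (P y j) q) := by
      unfold c; split_ifs <;> omega
    omega
  unfold g
  split_ifs <;> simp_all

lemma pw (hij : (i : ℕ) < j) (hP : P y i < P y j) (h0 : Le y w) (h1 : Le (swap i j * y) w)
    (a b : Fin n) :
    0 ≤ (g y w a b - g (swap i j * y) w a b)
      + (g y w (swap i j a) (swap i j b) - g (swap i j * y) w (swap i j a) (swap i j b)) := by
  have hij1 : g y w i j = 1 := by unfold g; rw [if_pos h1]
  have hij2 : g (swap i j * y) w i j = 1 := by
    unfold g; rw [← mul_assoc, swap_mul_self, one_mul, if_pos h0]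
  by_cases ha : a = i
  · subst ha
    by_cases hb : b = a
    · subst hb; simp [g_self h0, g_self h1]
    by_cases hb' : b = j
    · subst hb'
      simp only [swap_apply_left, swap_apply_right, g_comm _ w b a, hij1, hij2]; simp
    simp only [swap_apply_left, swap_apply_of_ne_of_ne hb hb']
    exact tri hij hP hb hb' h0 h1
  by_cases ha' : a = j
  · subst ha'
    by_cases hb : b = i
    · subst hb
      simp only [swap_apply_left, swap_apply_right, g_comm _ w a b, hij1, hij2]; simp
    by_cases hb' : b = a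
    · subst hb'; simp [g_self h0, g_self h1]
    simp only [swap_apply_right, swap_apply_of_ne_of_ne hb hb']
    have := tri hij hP hb hb' h0 h1
    omega
  by_cases hb : b = i
  · subst hb
    simp only [swap_apply_left, swap_apply_of_ne_of_ne ha ha', g_comm _ w a]
    exact tri hij hP ha ha' h0 h1
  by_cases hb' : b = j
  · subst hb'
    simp only [swap_apply_right, swap_apply_of_ne_of_ne ha ha', g_comm _ w a]
    have := tri hij hP ha ha' h0 h1
    omega
  simp only [swap_apply_of_ne_of_ne ha ha', swap_apply_of_ne_of_ne hb hb']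
  have := disj (w := w) hij hP ha ha' hb hb'
  omega

lemma G_diff (x : Perm (Fin n)) (τ : Perm (Fin n)) :
    2 * (G y w - G x w) = ∑ a, ∑ b, ((g y w a b - g x w a b)
      + (g y w (τ a) (τ b) - g x w (τ a) (τ b))) := by
  rw [← sym_sum τ (fun a b => g y w a b - g x w a b)]
  simp only [G, Finset.sum_sub_distrib]

lemma G_step (hij : (i : ℕ) < j) (hP : P y i < P y j) (h0 : Le y w) (h1 : Le (swap i j * y) w) :
    G (swap i j * y) w ≤ G y w := by
  have := G_diff (y := y) (w := w) (swap i j * y) (swap i j)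
  have := sum2_nonneg (pw hij hP h0 h1)
  omega

lemma G_strict (hij : (i : ℕ) < j) (hjm : (j : ℕ) < m) (hP : P y i < P y j) (hP' : P y j < P y m)
    (h0 : Le y w) (h1 : Le (swap i j * y) w) (h2 : Le (swap j m * y) w)
    {p q p' q' : ℕ} (hp : (i : ℕ) < p ∧ p ≤ j) (hq : P y j < q ∧ q ≤ P y m) (hz : D y w p q = 0)
    (hp' : (j : ℕ) < p' ∧ p' ≤ m) (hq' : P y i < q' ∧ q' ≤ P y j) (hz' : D y w p' q' = 0) :
    G (swap i j * y) w < G y w := by
  have e1 : (m : ℕ) ≠ i := by omega
  have e2 : (m : ℕ) ≠ j := by omega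
  have hmi : m ≠ i := fun e => e1 (by rw [e])
  have hmj : m ≠ j := fun e => e2 (by rw [e])
  have := G_diff (y := y) (w := w) (swap i j * y) (swap i j)
  have hA : ¬ Le (swap i m * (swap i j * y)) w := by
    intro h
    have a1 := h p q
    simp only [D_swap, P_swap_left, P_swap_ne y i j e1 e2] at a1
    revert a1; unfold c; split_ifs <;> omega
  have hB : ¬ Le (swap j m * (swap i j * y)) w := by
    intro h
    have a1 := h p' q'
    simp only [D_swap, P_swap_right, P_swap_ne y i j e1 e2] at a1
    revert a1; unfold c; split_ifs <;> omega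
  have := sum2_pos (pw hij hP h0 h1) (a0 := i) (b0 := m) (by
    simp only [swap_apply_left, swap_apply_of_ne_of_ne hmi hmj]
    unfold g
    rw [if_neg hA, if_neg hB, if_pos h2]
    split_ifs <;> omega)
  omega

end triple

lemma G_mono {x y w : Perm (Fin n)} (h : BrLe x y) (hy : Le y w) : G y w ≤ G x w := by
  induction h with
  | refl => exact le_rfl
  | tail _ hs ih =>
    obtain ⟨k, l, hkl, hP, rfl⟩ := step_iff hs
    have h0 := (le_up _ hkl hP).trans hy
    exact (G_step hkl hP h0 hy).trans (ih h0)

lemma G_top (w : Perm (Fin n)) : G w w = n + 2 * len w := by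
  have : ∀ a b : Fin n, g w w a b = (if a = b then 1 else 0) + c a b * c (P w b) (P w a)
      + c b a * c (P w a) (P w b) := by
    intro a b
    by_cases hab : a = b
    · subst hab; simp [g_self (Le.refl w), c]
    have e1 : (a : ℕ) ≠ b := fun e => hab (Fin.ext e)
    have e2 : P w a ≠ P w b := fun e => e1 (P_inj w a.2 b.2 e)
    rw [if_neg hab]
    unfold g
    split_ifs with h
    · have h1 := h (min (a : ℕ) (b : ℕ) + 1) (min (P w a) (P w b) + 1)
      rw [D_swap] at h1
      simp only [D, sub_self] at h1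
      revert h1
      unfold c; split_ifs <;> omega
    · by_contra hc
      refine h fun p q => ?_
      rw [D_swap]
      simp only [D, sub_self]
      revert hc
      unfold c; split_ifs <;> omega
  unfold G
  simp only [this, Finset.sum_add_distrib]
  rw [Finset.sum_comm (f := fun a b : Fin n => c b a * c (P w a) (P w b)), ← len_eq]
  simp
  ring

/-- smoothness propagates upwards and forbids a strict drop -/
lemma no_strict {u y y' w : Perm (Fin n)} (hs : G u w ≤ G w w) (h1 : BrLe u y) (hy : Le y w)
    (hy' : Le y' w) (h : G y' w < G y w) : False := by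
  have a1 := G_mono h1 hy
  have a2 := G_mono (br_of_le hy') (Le.refl w)
  omega

/-- a smooth point of `X_w` sees a zero over every ascent of `w` -/
lemma zero_of_ascent {u w : Perm (Fin n)} (hs : G u w ≤ G w w) (h : Le u w) {i j : Fin n}
    (hij : (i : ℕ) < j) (hP : P w i < P w j)
    (hr : ∀ p q, (i : ℕ) < p → p ≤ j → P w i < q → q ≤ P w j → 0 < D u w p q) : False := by
  have h1 : Le u (swap i j * w) := h.trans (le_up w hij hP)
  have h2 : G u (swap i j * w) ≤ G u w := by
    refine Finset.sum_le_sum fun a _ => Finset.sum_le_sum fun b _ => ?_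
    have : Le (swap a b * u) (swap i j * w) → Le (swap a b * u) w := by
      intro hh p q
      have a1 := hh p q
      have a2 := hr p q
      rw [D_swap] at a1 ⊢
      have a3 : D u (swap i j * w) p q
          = D u w p q + (c i p - c j p) * (c (P w i) q - c (P w j) q) := by
        unfold D; rw [R_swap]; ring
      have a4 : (c a p - c b p) * (c (P u a) q - c (P u b) q) ≤ 1 := by
        unfold c; split_ifs <;> omega
      rw [a3] at a1
      generalize (c a p - c b p) * (c (P u a) q - c (P u b) q) = z at *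
      revert a1
      unfold c; split_ifs <;> omega
    unfold g
    split_ifs <;> simp_all
  have h3 := G_mono (br_of_le h1) (Le.refl _)
  have h4 := len_lt w hij hP
  rw [G_top] at h3 hs
  omega

end Pool.Agent.H8.Bru
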