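import Pool.Agent.H8.Bru3

namespace Pool.Agent.H8.Bru

open Equiv Finset

variable {n : ℕ}

lemma D_le {u y w : Perm (Fin n)} (h : BrLe u y) (p q : ℕ) : D y w p q ≤ D u w p q := by
  have := le_of_br h p q
  unfold D at *
  omega

/-- move the value `i` to the left of the column `q` -/
lemma phase1 {u w : Perm (Fin n)} (h : Le u w) {i q b : ℕ} (hi : i < n)
    (hL : ∀ x, P w i < x → x ≤ P u i → 0 < D u w (i + 1) x)
    (hq : ∀ x, q ≤ x → x ≤ P u i → 0 < D u w (i + 1) x)
    (hb : ∀ x, P u i < x → x ≤ b → 0 < D u w (i + 1) x) :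
    ∃ y, BrLe u y ∧ Le y w ∧ (∀ v, i < v → P y v = P u v) ∧
      (∀ x, D y w (i + 1) x = D u w (i + 1) x) ∧ P y i < q ∧
      ∀ x, P y i < x → x ≤ b → 0 < D u w (i + 1) x := by
  have key : ∀ m, ∀ y, P y i = m → BrLe u y → Le y w → (∀ v, i < v → P y v = P u v) →
      (∀ x, D y w (i + 1) x = D u w (i + 1) x) → P y i ≤ P u i →
      (∀ x, P y i < x → x ≤ b → 0 < D u w (i + 1) x) →
      ∃ y, BrLe u y ∧ Le y w ∧ (∀ v, i < v → P y v = P u v) ∧
        (∀ x, D y w (i + 1) x = D u w (i + 1) x) ∧ P y i < q ∧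
        ∀ x, P y i < x → x ≤ b → 0 < D u w (i + 1) x := by
    intro m
    induction' m using Nat.strong_induction_on with m ih
    intro y hm h1 h2 h3 h4 h5 h6
    by_cases hlt : P y i < q
    · exact ⟨y, h1, h2, h3, h4, hlt, h6⟩
    have hd : 0 < D y w i (P y i) := by
      have a1 := D_succ y w hi (P y i)
      have a2 := hq (P y i) (by omega) h5
      rw [h4] at a1
      revert a1; unfold c; split_ifs <;> omega
    obtain ⟨j, hj, hP, hr⟩ := edge_left h2 hd
    have hPi : P (swap j ⟨i, hi⟩ * y) i = P y j := P_swap_right y j ⟨i, hi⟩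
    refine ih (P y j) (by omega) (swap j ⟨i, hi⟩ * y) hPi
      (h1.tail (step_up y (l := ⟨i, hi⟩) hj hP)) (le_swap_of_rect h2 (l := ⟨i, hi⟩) hj hP hr)
      (fun v hv => ?_) (fun x => ?_) (by omega) (fun x hx hx' => ?_)
    · rw [P_swap_ne y j ⟨i, hi⟩ (by omega) (by simp; omega), h3 v hv]
    · rw [D_swap, h4]
      have : c j (i + 1) - c ((⟨i, hi⟩ : Fin n) : ℕ) (i + 1) = 0 := by
        unfold c; simp only; split_ifs <;> omega
      rw [this]; simp
    · rw [hPi] at hx
      by_cases hx2 : P y i < x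
      · exact h6 x hx2 hx'
      by_cases hx3 : P w i < x
      · exact hL x hx3 (by omega)
      have a1 := D_succ y w hi x
      have a2 := hr i x hj le_rfl hx (by omega)
      rw [h4] at a1
      revert a1; unfold c; split_ifs <;> omega
  exact key _ u rfl Relation.ReflTransGen.refl h (fun _ _ => rfl) (fun _ => rfl) le_rfl hb

/-- move the value `i + 1` to the right until it crosses a zero -/
lemma phase2 {u w : Perm (Fin n)} (hs : G u w ≤ G w w) {i p q q1 b : ℕ} (hi : i + 1 < n)
    (hp : i < p) (hqb : q ≤ b) (hz : D u w (p + 1) q = 0) (hq1 : q1 ≤ P w (i + 1))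
    (hz1 : D u w (i + 1) q1 = 0) :
    ∀ m, ∀ y, q1 - P y (i + 1) = m → BrLe u y → Le y w → P y i < q →
      (∀ v, i + 1 < v → v ≤ p → P y v ≤ b) → (∀ x, D y w (i + 1) x = D u w (i + 1) x) →
      b ≤ P y (i + 1) → P y (i + 1) < q1 →
      (∀ x, P y i < x → x ≤ P y (i + 1) → 0 < D u w (i + 1) x) → False := by
  intro m
  induction' m using Nat.strong_induction_on with m ih
  intro y hm h1 h2 h3 h4 h5 h6 h7 h8
  have hd : 0 < D y w (i + 1 + 1) (P y (i + 1) + 1) := by
    have a1 := D_succ y w hi (P y (i + 1) + 1)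
    have a2 := h2 (i + 1) (P y (i + 1) + 1)
    revert a1; unfold c; split_ifs <;> omega
  obtain ⟨l, hl, hP, hr⟩ := edge_right h2 hi hd
  have hlp : p < l := by
    by_contra hc
    have := h4 l hl (by omega)
    omega
  have hi0 : i < n := by omega
  have e1 : Le (swap ⟨i, hi0⟩ ⟨i + 1, hi⟩ * y) w := by
    refine le_swap_of_rect h2 (by simp) (by simp only; omega) fun p' q' a1 a2 a3 a4 => ?_
    simp only at a1 a2 a3 a4
    have : p' = i + 1 := by omega
    subst this
    rw [h5]; exact h8 q' a3 a4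
  have e2 : Le (swap ⟨i + 1, hi⟩ l * y) w := le_swap_of_rect h2 (k := ⟨i + 1, hi⟩) hl hP hr
  have hz' : D y w (p + 1) q = 0 := by
    have := D_le (w := w) h1 (p + 1) q
    have := h2 (p + 1) q
    omega
  have hNE : ∀ x, P y (i + 1) < x → x ≤ P y l → 0 < D u w (i + 1) x := by
    intro x hx hx'
    by_contra hc
    have a1 := h2 (i + 1) x
    have a2 := h5 x
    refine no_strict hs h1 h2 e1 (G_strict (i := ⟨i, hi0⟩) (j := ⟨i + 1, hi⟩) (m := l)
      (by simp) hl (by simp only; omega) hP h2 e1 e2 (p := i + 1) (q := x) (p' := p + 1) (q' := q)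
      (by simp) ⟨hx, hx'⟩ (by omega) (by simp only; omega) (by simp only; omega) hz')
  have hlq : P y l < q1 := by
    by_contra hc
    have := hNE q1 h7 (by omega)
    omega
  have hP1 : P (swap ⟨i + 1, hi⟩ l * y) (i + 1) = P y l := P_swap_left y ⟨i + 1, hi⟩ l
  have hP0 : P (swap ⟨i + 1, hi⟩ l * y) i = P y i :=
    P_swap_ne y ⟨i + 1, hi⟩ l (by simp) (by omega)
  refine ih (q1 - P y l) (by omega) (swap ⟨i + 1, hi⟩ l * y) (by rw [hP1])
    (h1.tail (step_up y (k := ⟨i + 1, hi⟩) hl hP)) e2 (by omega) (fun v hv hv' => ?_)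
    (fun x => ?_) (by omega) (by omega) (fun x hx hx' => ?_)
  · rw [P_swap_ne y ⟨i + 1, hi⟩ l (by simp only; omega) (by omega)]
    exact h4 v hv hv'
  · rw [D_swap, h5]
    have : c ((⟨i + 1, hi⟩ : Fin n) : ℕ) (i + 1) - c l (i + 1) = 0 := by
      unfold c; simp only; split_ifs <;> omega
    rw [this]; simp
  · rw [hP0] at hx
    rw [hP1] at hx'
    by_cases hx2 : x ≤ P y (i + 1)
    · exact h8 x hx hx2
    · exact hNE x (by omega) hx'

lemma exists_small {u w : Perm (Fin n)} {p q : ℕ} (h : 0 < D u w p q) :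
    ∃ v, v < p ∧ P u v < q := by
  have h1 := quad_nonneg w (Nat.zero_le p) (Nat.zero_le q)
  obtain ⟨v, -, hv, -, hv'⟩ := quad_pos u (Nat.zero_le p) (Nat.zero_le q) (by
    unfold D at h
    simp only [R_zero_left, R_zero_right] at h1 ⊢
    omega)
  exact ⟨v, hv, hv'⟩

section main

variable {u w : Perm (Fin n)}

/-- the heart of the argument -/
lemma creation (h : Le u w) (hs : G u w ≤ G w w)
    (hH : ∀ i, i + 1 < n → P u i < P u (i + 1) →
      (∀ x, P u i < x → x ≤ P u (i + 1) → 0 < D u w (i + 1) x) ∧ P w i < P w (i + 1)) :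
    ∀ p, p < n → (∀ i, i < p → P u i < P u (i + 1) →
        ∀ x, P w i < x → x ≤ P u i → 0 < D u w (i + 1) x) →
      ∀ q, q ≤ P u p → D u w (p + 1) q = 0 → 0 < D u w p q → False := by
  intro p
  induction' p using Nat.strong_induction_on with p ih
  intro hp hL q hq hz hpos
  -- an ascent before `p`
  obtain ⟨v, hv, hv'⟩ := exists_small hpos
  obtain ⟨k, -, hkp, hk, hkm⟩ := exists_last (fun x => P u x < q) hv.le hv'
  have hkp' : k < p := by
    rcases hkp.lt_or_eq with h1 | h1
    · exact h1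
    · rw [h1] at hk; omega
  have hka : P u k < P u (k + 1) := by
    have := hkm (k + 1) (by omega) (by omega)
    omega
  obtain ⟨i, -, hip, hia, him⟩ := exists_last (fun x => P u x < P u (x + 1))
    (show k ≤ p - 1 by omega) hka
  have hip' : i < p := by omega
  -- the run between `i + 1` and `p` is decreasing
  have hrun : ∀ d, i + 1 + d ≤ p → P u (i + 1 + d) ≤ P u (i + 1) := by
    intro d
    induction d with
    | zero => intro _; exact le_rfl
    | succ d ihd =>
      intro hd
      have a1 := ihd (by omega)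
      have a2 := him (i + 1 + d) (by omega) (by omega)
      have : i + 1 + (d + 1) = i + 1 + d + 1 := by ring
      rw [this]; omega
  have hrun2 : ∀ d, i + 1 + d ≤ p → q ≤ P u (p - d) ∧ 0 < D u w (p - d) q := by
    intro d
    induction d with
    | zero => intro _; exact ⟨hq, hpos⟩
    | succ d ihd =>
      intro hd
      obtain ⟨a1, a2⟩ := ihd (by omega)
      have a3 := him (p - (d + 1)) (by omega) (by omega)
      have e : p - d = p - (d + 1) + 1 := by omega
      rw [e] at a1 a2
      have a4 := D_succ u w (show p - (d + 1) < n by omega) q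
      refine ⟨by omega, ?_⟩
      revert a4; unfold c; split_ifs <;> omega
  obtain ⟨hq1, hpos1⟩ := hrun2 (p - (i + 1)) (by omega)
  have e : p - (p - (i + 1)) = i + 1 := by omega
  rw [e] at hq1 hpos1
  obtain ⟨hHi, hwi⟩ := hH i (by omega) hia
  have hLi := hL i hip' hia
  by_cases hcase : ∀ x, q ≤ x → x ≤ P u i → 0 < D u w (i + 1) x
  · -- the ascent `i` has a zero on its right
    have hR : ∃ q1, P u (i + 1) < q1 ∧ q1 ≤ P w (i + 1) ∧ D u w (i + 1) q1 = 0 := by
      by_contra hc
      push Not at hc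
      refine zero_of_ascent hs h (i := ⟨i, by omega⟩) (j := ⟨i + 1, by omega⟩) (by simp) hwi
        fun p' x a1 a2 a3 a4 => ?_
      simp only at a1 a2 a3 a4
      have : p' = i + 1 := by omega
      subst this
      by_cases b1 : x ≤ P u i
      · exact hLi x a3 b1
      by_cases b2 : x ≤ P u (i + 1)
      · exact hHi x (by omega) b2
      have := hc x (by omega) a4
      have := h (i + 1) x
      omega
    obtain ⟨q1, hq1a, hq1b, hq1z⟩ := hR
    obtain ⟨y, y1, y2, y3, y4, y5, y6⟩ := phase1 h (show i < n by omega) hLi hcase hHi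
    have y7 := y3 (i + 1) (by omega)
    refine phase2 hs (b := P u (i + 1)) (by omega) hip' hq1 hz hq1b hq1z _ y rfl y1 y2 y5
      (fun v hv hv' => ?_) y4 (by omega) (by omega) (fun x hx hx' => y6 x hx (by omega))
    rw [y3 v (by omega)]
    have := hrun (v - (i + 1)) (by omega)
    have e : i + 1 + (v - (i + 1)) = v := by omega
    rwa [e] at this
  · push Not at hcase
    obtain ⟨q', hq'1, hq'2, hq'3⟩ := hcase
    obtain ⟨v', hv1, hv2⟩ := exists_small hpos1
    obtain ⟨k', -, hk1, hk2, hk3⟩ := exists_last (fun x => P u x < q') (show v' ≤ i by omega)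
      (show P u v' < q' by omega)
    have hk4 : k' < i := by
      rcases hk1.lt_or_eq with h1 | h1
      · exact h1
      · rw [h1] at hk2; omega
    have hk5 := hk3 (k' + 1) (by omega) (by omega)
    have hk6 := (hH k' (by omega) (by omega)).1 q' hk2 (by omega)
    obtain ⟨p', hp1, hp2, hp3, hp4⟩ := exists_first (fun x => D u w (x + 1) q' ≤ 0)
      (show k' + 1 ≤ i by omega) hq'3
    have hp5 := hk3 p' (by omega) hp2
    refine ih p' (by omega) (by omega) (fun j hj => hL j (by omega)) q' (by omega)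
      (le_antisymm hp3 (h _ _)) ?_
    by_cases b : p' = k' + 1
    · rw [b]; exact hk6
    · have := hp4 (p' - 1) (by omega) (by omega)
      have e : p' - 1 + 1 = p' := by omega
      rw [e] at this
      omega

lemma main_rank (h : Le u w) (hne : u ≠ w) (hs : G u w ≤ G w w)
    (hH : ∀ i, i + 1 < n → P u i < P u (i + 1) →
      (∀ x, P u i < x → x ≤ P u (i + 1) → 0 < D u w (i + 1) x) ∧ P w i < P w (i + 1)) :
    False := by
  -- there is an ascent
  obtain ⟨k, hk, hd⟩ := exists_start h hne
  obtain ⟨l, hkl, hP, -⟩ := edge_right h hk hd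
  obtain ⟨k', hk0, hk1, hk2, hk3⟩ := exists_last (fun x => P u x < P u l) hkl.le hP
  have hk4 : k' < l := by
    rcases hk1.lt_or_eq with h1 | h1
    · exact h1
    · rw [h1] at hk2; omega
  have hk5 := hk3 (k' + 1) (by omega) (by omega)
  have hl := l.2
  obtain ⟨j, -, hj1, hj2, hj3⟩ := exists_last (fun x => P u x < P u (x + 1))
    (show k' ≤ n - 2 by omega) (show P u k' < P u (k' + 1) by omega)
  obtain ⟨hHj, hwj⟩ := hH j (by omega) hj2
  -- the last ascent has no zero on its right
  have hR : ∀ x, P u (j + 1) < x → x ≤ P w (j + 1) → D u w (j + 1) x ≠ 0 := by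
    intro x hx hx' hz
    have : ∀ d, j + 1 + d < n → P u (j + 1 + d) < x ∧ 0 < D u w (j + 1 + d + 1) x := by
      intro d
      induction d with
      | zero =>
        intro hd
        refine ⟨hx, ?_⟩
        have a1 := D_succ u w hd x
        simp only [Nat.add_zero] at a1 ⊢
        revert a1; unfold c; split_ifs <;> omega
      | succ d ihd =>
        intro hd
        obtain ⟨a1, a2⟩ := ihd (by omega)
        have a3 := hj3 (j + 1 + d) (by omega) (by omega)
        have e : j + 1 + (d + 1) = j + 1 + d + 1 := by ring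
        rw [e] at hd ⊢
        have a4 := D_succ u w hd x
        refine ⟨by omega, ?_⟩
        revert a4; unfold c; split_ifs <;> omega
    obtain ⟨-, a2⟩ := this (n - (j + 2)) (by omega)
    rw [D_top_left u w (by omega)] at a2
    omega
  have hLj : ∃ x, P w j < x ∧ x ≤ P u j ∧ D u w (j + 1) x ≤ 0 := by
    by_contra hc
    push Not at hc
    refine zero_of_ascent hs h (i := ⟨j, by omega⟩) (j := ⟨j + 1, by omega⟩) (by simp) hwj
      fun p' x a1 a2 a3 a4 => ?_
    simp only at a1 a2 a3 a4
    have : p' = j + 1 := by omega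
    subst this
    by_cases b1 : x ≤ P u j
    · exact hc x a3 b1
    by_cases b2 : x ≤ P u (j + 1)
    · exact hHj x (by omega) b2
    have := hR x (by omega) a4
    have := h (j + 1) x
    omega
  obtain ⟨i, -, hi1, ⟨hi2, x, hx1, hx2, hx3⟩, hi4⟩ := exists_first
    (fun i => P u i < P u (i + 1) ∧ ∃ x, P w i < x ∧ x ≤ P u i ∧ D u w (i + 1) x ≤ 0)
    (Nat.zero_le j) ⟨hj2, hLj⟩
  have hz : D u w (i + 1) x = 0 := le_antisymm hx3 (h _ _)
  refine creation h hs hH i (by omega) (fun i' hi' ha x' b1 b2 => ?_) x hx2 hz ?_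
  · by_contra hc
    exact hi4 i' (Nat.zero_le _) hi' ⟨ha, x', b1, b2, by omega⟩
  · have a1 := D_succ u w (show i < n by omega) x
    revert a1; unfold c; split_ifs <;> omega

end main

end Pool.Agent.H8.Bru
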