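import Pool.Agent.H8.Bru4

namespace Pool.Agent.H8.Bru

open Equiv Finset

variable {n : ℕ}

lemma swap_inj {a b a' b' : Fin n} (h : a < b) (h' : a' < b') (e : swap a b = swap a' b') :
    a = a' ∧ b = b' := by
  have h1 : swap a' b' a = b := by rw [← e]; simp
  by_cases c1 : a = a'
  · subst c1
    simp at h1
    exact ⟨rfl, h1.symm⟩
  by_cases c2 : a = b'
  · subst c2
    simp at h1
    rw [h1] at h'
    exact absurd (h.trans h') (lt_irrefl _)
  rw [swap_apply_of_ne_of_ne c1 c2] at h1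
  exact absurd h1 h.ne

lemma G_eq {u w : Perm (Fin n)} (h : Le u w) :
    G u w = n + 2 * ({t : Perm (Fin n) | t.IsSwap ∧ BrLe (t * u) w}.ncard : ℕ) := by
  classical
  have h1 : ∀ a b : Fin n, g u w a b = (if a = b then 1 else 0) + c a b * g u w a b
      + c b a * g u w b a := by
    intro a b
    by_cases hab : a = b
    · subst hab; simp [g_self h, c]
    have e1 : (a : ℕ) ≠ b := fun e => hab (Fin.ext e)
    rw [if_neg hab, g_comm u w b a]
    unfold c; split_ifs <;> omega
  have h2 : G u w = n + 2 * ∑ a : Fin n, ∑ b : Fin n, c a b * g u w a b := by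
    unfold G
    rw [Finset.sum_congr rfl fun a _ => Finset.sum_congr rfl fun b _ => h1 a b]
    simp only [Finset.sum_add_distrib]
    rw [Finset.sum_comm (f := fun a b : Fin n => c b a * g u w b a)]
    simp
    ring
  have h3 : ∑ a : Fin n, ∑ b : Fin n, c a b * g u w a b
      = ((univ.filter (fun p : Fin n × Fin n => p.1 < p.2 ∧ Le (swap p.1 p.2 * u) w)).card : ℤ) := by
    rw [Finset.card_filter, ← Finset.univ_product_univ, Finset.sum_product]
    push_cast
    refine Finset.sum_congr rfl fun i _ => Finset.sum_congr rfl fun j _ => ?_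
    unfold c g
    by_cases a1 : i < j <;> by_cases a2 : Le (swap i j * u) w <;> simp [a1, a2]
  have h4 : {t : Perm (Fin n) | t.IsSwap ∧ BrLe (t * u) w}
      = (fun p : Fin n × Fin n => swap p.1 p.2) ''
        ↑(univ.filter (fun p : Fin n × Fin n => p.1 < p.2 ∧ Le (swap p.1 p.2 * u) w)) := by
    ext t
    simp only [Set.mem_setOf_eq, Set.mem_image, Finset.coe_filter, Finset.mem_univ, true_and]
    constructor
    · rintro ⟨⟨a, b, hab, rfl⟩, hb⟩
      rcases lt_or_gt_of_ne hab with h' | h'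
      · exact ⟨(a, b), ⟨h', le_of_br hb⟩, rfl⟩
      · rw [swap_comm] at hb ⊢
        exact ⟨(b, a), ⟨h', le_of_br hb⟩, rfl⟩
    · rintro ⟨⟨a, b⟩, ⟨h1, h2⟩, rfl⟩
      exact ⟨⟨a, b, h1.ne, rfl⟩, br_of_le h2⟩
  rw [h2, h3, h4, Set.InjOn.ncard_image, Set.ncard_coe_finset]
  rintro ⟨a, b⟩ hp ⟨a', b'⟩ hp' e
  simp only [Finset.coe_filter, Finset.mem_univ, true_and, Set.mem_setOf_eq] at hp hp'
  obtain ⟨rfl, rfl⟩ := swap_inj hp.1 hp'.1 e
  rfl

theorem main (u w : Perm (Fin (n + 1))) (huw : BrLt u w)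
    (hsm : {t : Perm (Fin (n + 1)) | t.IsSwap ∧ BrLe (t * u) w}.ncard = len w) :
    ∃ i : Fin n, BrLt u (simple i * u) ∧ (¬ BrLe (simple i * u) w ∨ BrLt (simple i * w) w) := by
  by_contra hc
  push Not at hc
  have h := le_of_br huw.1
  refine main_rank h huw.2 (by rw [G_eq h, G_top, hsm]) fun i hi ha => ?_
  have hi' : i < n := by omega
  have hkl : (((⟨i, hi'⟩ : Fin n).castSucc : Fin (n + 1)) : ℕ)
      < ((⟨i, hi'⟩ : Fin n).succ : Fin (n + 1)) := by simp
  obtain ⟨h1, h2⟩ := hc ⟨i, hi'⟩ (brlt_of_step (step_up u hkl ha))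
  refine ⟨fun x hx hx' => rect_of_le_swap (le_of_br h1) (by simp) (by simp) hx hx', ?_⟩
  rcases lt_trichotomy (P w i) (P w (i + 1)) with a | a | a
  · exact a
  · have := P_inj w (by omega) hi a
    omega
  · exact absurd (brlt_of_step (step_down w hkl a)) h2

end Pool.Agent.H8.Bru
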