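import Mathlib

namespace Pool.Agent.H8.Bru

open Equiv

variable {n : ℕ}

/-- Coxeter length: the number of inversions. -/
def len (w : Perm (Fin n)) : ℕ :=
  (Finset.univ.filter (fun p : Fin n × Fin n => p.1 < p.2 ∧ w p.2 < w p.1)).card

/-- An edge of the Bruhat graph: `v = t u` with `t` a transposition and `ℓ(u) < ℓ(v)`. -/
def Step (u v : Perm (Fin n)) : Prop :=
  ∃ t : Perm (Fin n), t.IsSwap ∧ v = t * u ∧ len u < len v

/-- Bruhat order: the reflexive transitive closure of the Bruhat graph. -/
def BrLe (u v : Perm (Fin n)) : Prop := Relation.ReflTransGen Step u v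

/-- Strict Bruhat order. -/
def BrLt (u v : Perm (Fin n)) : Prop := BrLe u v ∧ u ≠ v

/-- The simple reflection exchanging `i` and `i + 1`. -/
def simple (i : Fin n) : Perm (Fin (n + 1)) := swap i.castSucc i.succ

end Pool.Agent.H8.Bru
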