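import Mathlib

set_option autoImplicit false

namespace Pool.Agent.H8.Cent

open Set

/-- the vertex centroid -/
noncomputable def cen {n : ℕ} (v : Fin n → ℂ) : ℂ := (∑ i, v i) / n

/-- one vertex-centroid move -/
def Move {n : ℕ} (v w : Fin n → ℂ) : Prop :=
  ∃ i, v i ≠ cen v ∧ ∃ p ∈ line[ℝ, v i, cen v], w = Function.update v i p

/-- distinct vertices, and two distinct edges meet only in common endpoints -/
def IsSimple {n : ℕ} (v : Fin (n + 3) → ℂ) : Prop :=
  Function.Injective v ∧ ∀ i j, i ≠ j →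
    segment ℝ (v i) (v (i + 1)) ∩ segment ℝ (v j) (v (j + 1)) ⊆ {v i, v (i + 1)} ∩ {v j, v (j + 1)}

/-- the vertices of a convex regular polygon, in counterclockwise order -/
def IsRegPoly {n : ℕ} (w : Fin n → ℂ) : Prop :=
  ∃ a b : ℂ, b ≠ 0 ∧ ∀ l, w l = a + b * Complex.exp (2 * Real.pi * Complex.I * (l : ℕ) / n)

end Pool.Agent.H8.Cent
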