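import Pool.Agent.H8.CentDefs

set_option autoImplicit false

namespace Pool.Agent.H8.Cent

open Set Function Relation

variable {n : ℕ}

theorem dil (v : Fin n → ℂ) (i : Fin n) (t : ℝ) :
    ReflTransGen Move v (update v i (v i + t * (cen v - v i))) := by
  by_cases h : v i = cen v
  · simp [← h, ReflTransGen.refl]
  · refine .single ⟨i, h, _, ?_, rfl⟩
    convert AffineMap.lineMap_mem_affineSpan_pair t (v i) (cen v) using 1
    simp [AffineMap.lineMap_apply, add_comm]

theorem trans (v : Fin (n + 3) → ℂ) {i j : Fin (n + 3)} (hij : i ≠ j) (t : ℝ) :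
    ReflTransGen Move v (update v i (v i + t * ((n + 2) * v j - (∑ l, v l - v i)))) := by
  have h1 : (n + 1 : ℂ) ≠ 0 := by exact_mod_cast Nat.succ_ne_zero n
  have h2 : (n + 2 : ℂ) ≠ 0 := by exact_mod_cast Nat.succ_ne_zero (n + 1)
  have h3 : (n + 3 : ℂ) ≠ 0 := by exact_mod_cast Nat.succ_ne_zero (n + 2)
  let O : ℂ := (∑ l, v l - v i - v j) / (n + 1)
  let st : ℂ → ℂ → Fin (n + 3) → ℂ := fun a b => update (update v i (O + a)) j (O + b)
  let k : ℝ := 1 / (n + 2)
  have hc : ∀ a b, cen (st a b) = O + (a + b) / (n + 3) := fun a b => by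
    simp only [cen, st, Finset.sum_update_of_mem (Finset.mem_univ _), Finset.sdiff_singleton_eq_erase,
      Finset.sum_erase_eq_sub (Finset.mem_univ _), update_of_ne hij.symm, O]
    push_cast; field_simp; ring
  have A : ∀ (x : ℝ) a b, ReflTransGen Move (st a b) (st (x * a + (1 - x) * k * b) b) := by
    intro x a b
    convert dil (st a b) i ((1 - x) * (n + 3) / (n + 2)) using 1
    simp only [hc]
    simp only [st, update_of_ne hij, update_self, update_comm hij.symm, update_idem, k]
    congr 2; push_cast; field_simp; ring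
  have B : ∀ (x : ℝ) a b, ReflTransGen Move (st a b) (st a (x * b + (1 - x) * k * a)) := by
    intro x a b
    convert dil (st a b) j ((1 - x) * (n + 3) / (n + 2)) using 1
    simp only [hc]
    simp only [st, update_self, update_idem, k]
    congr 1; push_cast; field_simp; ring
  have k0 : 0 < k := by positivity
  have k1 : k < 1 := by rw [div_lt_one (by positivity)]; linarith [Nat.cast_nonneg (α := ℝ) n]
  have T : ∀ (x : ℝ) a b, x ≠ 0 → ReflTransGen Move (st a b)
      (st (a + ((x - 1) * (k * (k ^ 2 * (3 + k ^ 2) / 4 - 1)) : ℝ) * b) b) := by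
    intro x a b hx
    have p : (2 + k ^ 2 : ℂ) ≠ 0 := by exact_mod_cast (by positivity : (2 + k ^ 2 : ℝ) ≠ 0)
    have q : (3 + k ^ 2 : ℂ) ≠ 0 := by exact_mod_cast (by positivity : (3 + k ^ 2 : ℝ) ≠ 0)
    have hx' : (x : ℂ) ≠ 0 := by exact_mod_cast hx
    convert (((((((B ((3 + k ^ 2) / (2 + k ^ 2)) a b).trans (A (1 / 2) _ _)).trans
      (B (1 / 2) _ _)).trans (A (1 / x) _ _)).trans (B 2 _ _)).trans (A 2 _ _)).trans
      (B ((2 + k ^ 2) / (3 + k ^ 2)) _ _)).trans (A x _ _) using 2 <;>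
    (push_cast; field_simp; ring)
  have c0 : k * (k ^ 2 * (3 + k ^ 2) / 4 - 1) < 0 :=
    mul_neg_of_pos_of_neg k0 (by
      have : k ^ 2 < 1 := by nlinarith
      nlinarith [mul_pos k0 k0])
  generalize k * (k ^ 2 * (3 + k ^ 2) / 4 - 1) = c at T c0
  have c1 : (c : ℂ) ≠ 0 := by exact_mod_cast c0.ne
  obtain ⟨x, hx, hy⟩ : ∃ x : ℝ, x ≠ 0 ∧ t * (n + 1) / c + 2 - x ≠ 0 := by
    by_cases h : t * (n + 1) / c + 2 - 1 = 0
    · exact ⟨2, two_ne_zero, by linarith [show (0 : ℝ) < 1 from one_pos] |> fun h : _ < (0 : ℝ) => h.ne⟩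
    · exact ⟨1, one_ne_zero, h⟩
  convert (T x (v i - O) (v j - O) hx).trans (T _ _ _ hy) using 1
  · simp [st]
  · simp only [st, add_sub_cancel, update_comm hij, update_eq_self]
    congr 1
    simp only [O]; push_cast; field_simp; ring

theorem free (v : Fin (n + 3) → ℂ) (l : Fin (n + 3)) (c : Fin (n + 3) → ℝ) :
    ReflTransGen Move v (update v l (v l + ∑ r, c r * ((n + 2) * v r - (∑ i, v i - v l)))) := by
  have h3 : (n + 3 : ℂ) ≠ 0 := by exact_mod_cast Nat.succ_ne_zero (n + 2)
  have : ∀ s : Finset (Fin (n + 3)), l ∉ s → ReflTransGen Move v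
      (update v l (v l + ∑ r ∈ insert l s, c r * ((n + 2) * v r - (∑ i, v i - v l)))) := by
    intro s
    induction s using Finset.induction_on with
    | empty =>
      intro _
      convert dil v l (-c l * (n + 3)) using 2
      simp [cen]; field_simp; ring
    | insert r s hr ih =>
      intro h
      rw [Finset.mem_insert, not_or] at h
      convert (ih h.2).trans (trans _ h.1 (c r)) using 1
      rw [update_idem, update_self, update_of_ne (Ne.symm h.1), Finset.insert_comm,
        Finset.sum_insert (by simp [hr, Ne.symm h.1]), Finset.sum_update_of_mem (Finset.mem_univ _),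
        Finset.sdiff_singleton_eq_erase, Finset.sum_erase_eq_sub (Finset.mem_univ _)]
      congr 1; ring
  simpa using this (Finset.univ.erase l) (by simp)

theorem anywhere (v : Fin (n + 3) → ℂ) {i j k : Fin (n + 3)} (h : ((v k - v i) / (v j - v i)).im ≠ 0)
    (l : Fin (n + 3)) (p : ℂ) : ReflTransGen Move v (update v l p) := by
  have h2 : (n + 2 : ℂ) ≠ 0 := by exact_mod_cast Nat.succ_ne_zero (n + 1)
  have hD : v j - v i ≠ 0 := fun e => by simp [e] at h
  obtain ⟨s, t, e⟩ : ∃ s t : ℝ, p - v l = s * (v j - v i) + t * (v k - v i) := by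
    obtain ⟨z, hz⟩ : ∃ z, v k - v i = z * (v j - v i) := ⟨_, (div_mul_cancel₀ _ hD).symm⟩
    obtain ⟨w, hw⟩ : ∃ w, p - v l = w * (v j - v i) := ⟨_, (div_mul_cancel₀ _ hD).symm⟩
    rw [hz, mul_div_cancel_right₀ _ hD] at h
    refine ⟨w.re - w.im / z.im * z.re, w.im / z.im, ?_⟩
    rw [hw, hz, ← mul_assoc, ← add_mul]
    congr 1
    apply Complex.ext <;> simp [-Complex.ofReal_div, h]
  convert free v l (Pi.single j (s / (n + 2)) + Pi.single k (t / (n + 2)) -
    Pi.single i ((s + t) / (n + 2))) using 2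
  have : ∀ (r : Fin (n + 3)) (x : ℝ) (f : Fin (n + 3) → ℂ),
      ∑ q, ((Pi.single r x : Fin (n + 3) → ℝ) q : ℂ) * f q = x * f r := fun r x f => by
    rw [Finset.sum_eq_single r (fun q _ h => by simp [h]) (by simp)]; simp
  simp only [Pi.add_apply, Pi.sub_apply, Complex.ofReal_add, Complex.ofReal_sub, add_mul, sub_mul,
    Finset.sum_add_distrib, Finset.sum_sub_distrib, this]
  push_cast; field_simp; linear_combination (n + 2) * e

theorem simple {v : Fin (n + 3) → ℂ} (h : IsSimple v) : ¬ Collinear ℝ (range v) := by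
  intro hc
  obtain ⟨p, d, hc⟩ := (collinear_iff_exists_forall_eq_smul_vadd _).1 hc
  choose r hr using fun i => hc _ (mem_range_self (f := v) i)
  obtain ⟨i, hi⟩ := Finite.exists_min r
  obtain ⟨i, rfl⟩ : ∃ j, i = j + 1 := ⟨i - 1, by simp⟩
  have n1 : ∀ j : Fin (n + 3), j ≠ j + 1 := fun j => by simp
  have n2 : i ≠ i + 1 + 1 := by
    rw [add_assoc, ne_eq, left_eq_add]
    simp [Fin.ext_iff, Fin.val_add, Nat.mod_eq_of_lt (show 2 < n + 3 by omega)]
  have seg : ∀ a b c, r a ≤ r b → r b ≤ r c → v b ∈ segment ℝ (v a) (v c) := fun a b c h1 h2 => by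
    obtain ⟨x, y, hx, hy, e1, e2⟩ : r b ∈ segment ℝ (r a) (r c) := by
      rw [segment_eq_Icc (h1.trans h2)]; exact ⟨h1, h2⟩
    refine ⟨x, y, hx, hy, e1, ?_⟩
    rw [hr a, hr b, hr c, ← e2]
    have : (x : ℂ) + y = 1 := by exact_mod_cast e1
    simp; linear_combination p * this
  rcases le_total (r i) (r (i + 1 + 1)) with e | e
  · rcases (h.2 i _ (n1 i) ⟨left_mem_segment _ _ _, seg _ _ _ (hi _) e⟩).2 with e | e
    exacts [n1 i (h.1 e), n2 (h.1 e)]
  · have := seg _ _ _ (hi _) e
    rw [segment_symm] at this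
    rcases (h.2 i _ (n1 i) ⟨this, right_mem_segment _ _ _⟩).1 with e | e
    exacts [n2 (h.1 e).symm, n1 _ (h.1 e).symm]

theorem main (v : Fin (n + 3) → ℂ) (h : IsSimple v ∨ ¬ Collinear ℝ (range v)) :
    ∃ w, ReflTransGen Move v w ∧ IsRegPoly w := by
  have h := h.elim simple id
  obtain ⟨j, k, h⟩ : ∃ j k, ((v k - v 0) / (v j - v 0)).im ≠ 0 := by
    by_contra hn
    push Not at hn
    apply h
    rw [collinear_iff_of_mem (mem_range_self 0)]
    by_cases e : ∃ j, v j - v 0 ≠ 0
    · obtain ⟨j, hj⟩ := e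
      refine ⟨v j - v 0, ?_⟩
      rintro _ ⟨k, rfl⟩
      refine ⟨((v k - v 0) / (v j - v 0)).re, ?_⟩
      have := Complex.re_add_im ((v k - v 0) / (v j - v 0))
      rw [hn] at this
      simp only [Complex.real_smul, vadd_eq_add]
      rw [show ((((v k - v 0) / (v j - v 0)).re : ℝ) : ℂ) = _ by simpa using this,
        div_mul_cancel₀ _ hj]
      ring
    · push Not at e
      exact ⟨0, by rintro _ ⟨k, rfl⟩; exact ⟨0, by simpa [sub_eq_zero] using e k⟩⟩
  have hD : v j - v 0 ≠ 0 := fun e => by simp [e] at h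
  have j0 : j ≠ 0 := fun e => by simp [e] at hD
  have k0 : k ≠ 0 := fun e => by simp [e] at h
  have kj : k ≠ j := fun e => by simp [e, hD] at h
  let z : Fin (n + 3) → ℂ := fun l => Complex.exp (2 * Real.pi * Complex.I * (l : ℕ) / (n + 3 : ℕ))
  have hz : z j - 1 ≠ 0 := by
    rw [sub_ne_zero]
    intro e
    have := (Complex.exp_two_pi_mul_I_mul_div_eq_one_iff (Nat.succ_ne_zero _)).1 e
    exact j0 (Fin.ext (Nat.eq_zero_of_dvd_of_lt this j.2))
  let w : Fin (n + 3) → ℂ := fun l =>
    v 0 - (v j - v 0) / (z j - 1) + (v j - v 0) / (z j - 1) * z l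
  have w0 : w 0 = v 0 := by simp [w, z]
  have wj : w j = v j := by simp only [w]; field_simp; ring
  refine ⟨w, ?_, _, _, div_ne_zero hD hz, fun l => rfl⟩
  have : ∀ s : Finset (Fin (n + 3)), k ∉ s → ReflTransGen Move v (s.piecewise w v) := by
    intro s
    induction s using Finset.induction_on with
    | empty => simp [ReflTransGen.refl]
    | insert r s hr ih =>
      intro hk
      rw [Finset.mem_insert, not_or] at hk
      rw [Finset.piecewise_insert]
      refine (ih hk.2).trans (anywhere _ (i := 0) (j := j) (k := k) ?_ _ _)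
      simpa [Finset.piecewise, w0, wj, hk.2] using h
  convert (this (Finset.univ.erase k) (by simp)).trans
    (anywhere _ (i := 0) (j := j) (k := k) ?_ k (w k)) using 1
  · rw [← Finset.piecewise_insert, Finset.insert_erase (Finset.mem_univ _), Finset.piecewise_univ]
  · simpa [Finset.piecewise, w0, wj] using h

end Pool.Agent.H8.Cent
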