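import Mathlib

/-! Ideal Chomp: definitions and general game lemmas. -/

namespace Pool.Agent.H8.Chomp

open Ideal

variable {R : Type} [CommRing R]

/-- the ideal after `k` full rounds, when A plays `a 0, a 1, ...` and B answers by `σ` -/
def pos (σ : Ideal R → R) (a : ℕ → R) : ℕ → Ideal R
  | 0 => ⊥
  | k + 1 => (pos σ a k ⊔ span {a k}) ⊔ span {σ (pos σ a k ⊔ span {a k})}

/-- B has a winning strategy (even one that looks only at the current ideal) -/
def BWins (R : Type) [CommRing R] : Prop :=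
  ∃ σ : Ideal R → R, ∀ a : ℕ → R, (∀ k, pos σ a k ≠ ⊤ → a k ∉ pos σ a k) →
    ∃ N, pos σ a N ≠ ⊤ ∧ pos σ a N ⊔ span {a N} = ⊤ ∧
      ∀ k < N, σ (pos σ a k ⊔ span {a k}) ∉ pos σ a k ⊔ span {a k}

inductive Lose : Ideal R → Prop
  | mk (I : Ideal R) (hI : I ≠ ⊤) (f : R → R)
      (h1 : ∀ a, a ∉ I → I ⊔ span {a} ≠ ⊤ → f a ∉ I ⊔ span {a})
      (h2 : ∀ a, a ∉ I → I ⊔ span {a} ≠ ⊤ → Lose (I ⊔ span {a} ⊔ span {f a})) : Lose I

/-- no infinite ascending chain starts at `I` -/
abbrev Fin' (I : Ideal R) : Prop := Acc (fun x y : Ideal R => y < x) I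

lemma Fin'.mono {I J : Ideal R} (h : Fin' I) (hIJ : I ≤ J) : Fin' J := by
  rcases hIJ.eq_or_lt with e | e
  · exact e ▸ h
  · exact h.inv e

lemma lt_sup {I : Ideal R} {a : R} (h : a ∉ I) : I < I ⊔ span {a} :=
  lt_of_le_of_ne le_sup_left fun e => h (e ▸ (le_sup_right : span {a} ≤ I ⊔ span {a})
    (mem_span_singleton_self a))

lemma det {I : Ideal R} (h : Fin' I) : I ≠ ⊤ → Lose I ∨ ∃ b, b ∉ I ∧ Lose (I ⊔ span {b}) := by
  induction h with
  | intro I _ ih =>
    intro hI
    by_cases hb : ∃ b, b ∉ I ∧ Lose (I ⊔ span {b})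
    · exact Or.inr hb
    · left
      have : ∀ a, ∃ b, a ∉ I → I ⊔ span {a} ≠ ⊤ →
          b ∉ I ⊔ span {a} ∧ Lose (I ⊔ span {a} ⊔ span {b}) := by
        intro a
        by_cases h1 : a ∉ I ∧ I ⊔ span {a} ≠ ⊤
        · rcases ih _ (lt_sup h1.1) h1.2 with h | ⟨b, h⟩
          · exact absurd ⟨a, h1.1, h⟩ hb
          · exact ⟨b, fun _ _ => h⟩
        · exact ⟨0, fun h2 h3 => absurd ⟨h2, h3⟩ h1⟩
      choose f hf using this
      exact Lose.mk I hI f (fun a h1 h2 => (hf a h1 h2).1) (fun a h1 h2 => (hf a h1 h2).2)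

lemma no_chain {I : Ideal R} (h : Fin' I) :
    ∀ f : ℕ → Ideal R, (∀ k, f k < f (k + 1)) → f 0 = I → False := by
  induction h with
  | intro I _ ih =>
    intro f hf h0
    exact ih (f 1) (h0 ▸ hf 0) (fun k => f (k + 1)) (fun k => hf (k + 1)) rfl

def Ans (J : Ideal R) : Prop := ∃ b, b ∉ J ∧ Lose (J ⊔ span {b}) ∧ Fin' (J ⊔ span {b})

def T (I : Ideal R) : Prop := I ≠ ⊤ ∧ ∀ a, a ∉ I → I ⊔ span {a} ≠ ⊤ → Ans (I ⊔ span {a})

lemma T_of {I : Ideal R} (h : Lose I) (h' : Fin' I) : T I := by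
  cases h with
  | mk _ hI f h1 h2 =>
    exact ⟨hI, fun a ha ha' => ⟨f a, h1 a ha ha', h2 a ha ha',
      h'.mono (le_sup_left.trans le_sup_left)⟩⟩

theorem wins_of (h : T (⊥ : Ideal R)) : BWins R := by
  classical
  let σ : Ideal R → R := fun J => if h : Ans J then h.choose else 0
  have hσ : ∀ J, Ans J → σ J ∉ J ∧ Lose (J ⊔ span {σ J}) ∧ Fin' (J ⊔ span {σ J}) := by
    intro J hJ
    simp only [σ, dif_pos hJ]
    exact hJ.choose_spec
  refine ⟨σ, fun a ha => ?_⟩
  have key : ∀ N, (∀ k < N, pos σ a k ⊔ span {a k} ≠ ⊤) → T (pos σ a N) := by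
    intro N
    induction N with
    | zero => intro _; exact h
    | succ N ih =>
      intro hN
      have t := ih fun k hk => hN k (by omega)
      have := hσ _ (t.2 _ (ha N t.1) (hN N (by omega)))
      exact T_of this.2.1 this.2.2
  have ex : ∃ N, pos σ a N ⊔ span {a N} = ⊤ := by
    by_contra hn
    push Not at hn
    have t := fun N => key N fun k _ => hn k
    have f1 : Fin' (pos σ a 1) := (hσ _ ((t 0).2 _ (ha 0 (t 0).1) (hn 0))).2.2
    refine no_chain f1 (fun k => pos σ a (k + 1)) (fun k => ?_) rfl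
    exact (lt_sup (ha _ (t _).1)).trans_le le_sup_left
  have hm : ∀ k < Nat.find ex, pos σ a k ⊔ span {a k} ≠ ⊤ := fun k hk => Nat.find_min ex hk
  refine ⟨Nat.find ex, (key _ hm).1, Nat.find_spec ex, fun k hk => ?_⟩
  have t := key k fun j hj => hm j (hj.trans hk)
  exact (hσ _ (t.2 _ (ha k t.1) (hm k hk))).1

lemma fin_of_noeth {I : Ideal R} [IsNoetherianRing (R ⧸ I)] : Fin' I := by
  have wf : WellFounded (fun x y : Ideal (R ⧸ I) => y < x) := wellFounded_gt
  have : ∀ W : Ideal (R ⧸ I), ∀ J, I ≤ J → J.map (Ideal.Quotient.mk I) = W → Fin' J := by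
    intro W
    induction W using wf.induction with
    | _ W ih =>
      intro J hJ hW
      refine Acc.intro J fun J' hJ' => ih (J'.map (Ideal.Quotient.mk I)) ?_ J' (hJ.trans hJ'.le) rfl
      rw [← hW]
      refine lt_of_le_of_ne (map_mono hJ'.le) fun e => hJ'.ne ?_
      have e2 := congrArg (comap (Ideal.Quotient.mk I)) e
      rw [comap_map_of_surjective _ Ideal.Quotient.mk_surjective,
        comap_map_of_surjective _ Ideal.Quotient.mk_surjective, ← RingHom.ker_eq_comap_bot,
        mk_ker, sup_eq_left.2 hJ, sup_eq_left.2 (hJ.trans hJ'.le)] at e2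
      exact e2
  exact this _ I le_rfl rfl

/-- If `R/(a)` splits off a nonzero factor with the ascending chain condition, and the other
factor is nonzero too, there is a winning answer. -/
lemma ans_split {a e w : R} (he : e * (1 - e) = a * w) (h1 : 1 - e ∉ span {a})
    (h2 : span {a} ⊔ span {1 - e} ≠ ⊤) (h3 : Fin' (span {a} ⊔ span {1 - e})) :
    Ans (span {a}) := by
  rcases det h3 h2 with h | ⟨t, -, h⟩
  · exact ⟨1 - e, h1, h, h3⟩
  · have ea : span {a} ⊔ span {1 - e + e * t} = span {a} ⊔ span {1 - e} ⊔ span {t} := by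
      have ma : ∀ J : Ideal R, a ∈ span {a} ⊔ J := fun J =>
        (le_sup_left : span {a} ≤ _) (mem_span_singleton_self a)
      apply le_antisymm
      · refine sup_le (le_sup_left.trans le_sup_left) ((span_singleton_le_iff_mem _).2 ?_)
        exact add_mem ((le_sup_left : _ ≤ _ ⊔ span {t}) ((le_sup_right : span {1 - e} ≤ _)
          (mem_span_singleton_self _))) ((le_sup_right : span {t} ≤ _)
          (mul_mem_left _ _ (mem_span_singleton_self _)))
      · have mb : 1 - e + e * t ∈ span {a} ⊔ span {1 - e + e * t} :=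
          (le_sup_right : span {1 - e + e * t} ≤ _) (mem_span_singleton_self _)
        have mu : 1 - e ∈ span {a} ⊔ span {1 - e + e * t} := by
          have : 1 - e = (1 - e) * (1 - e + e * t) + (w * (1 - t)) * a := by
            linear_combination (1 - t) * he
          have h5 := add_mem (mul_mem_left _ (1 - e) mb) (mul_mem_left _ (w * (1 - t)) (ma _))
          rwa [← this] at h5
        refine sup_le (sup_le le_sup_left ((span_singleton_le_iff_mem _).2 mu))
          ((span_singleton_le_iff_mem _).2 ?_)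
        have : t = (1 - e + e * t) + (t - 1) * (1 - e) := by ring
        have h4 := add_mem mb (mul_mem_left _ (t - 1) mu)
        rwa [← this] at h4
    refine ⟨1 - e + e * t, fun hb => h1 ?_, ea ▸ h, ea ▸ h3.mono le_sup_left⟩
    have : span {a} ⊔ span {1 - e + e * t} ≤ span {a} :=
      sup_le le_rfl ((span_singleton_le_iff_mem _).2 hb)
    rw [ea] at this
    exact this ((le_sup_left : _ ≤ _ ⊔ span {t}) ((le_sup_right : span {1 - e} ≤ _)
      (mem_span_singleton_self _)))

end Pool.Agent.H8.Chomp
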