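import Pool.Agent.H8.ChompA

/-! Ideal Chomp: cuspidal lines glued at one point, with a polynomial ring at infinity. -/

namespace Pool.Agent.H8.Chomp

open Ideal Polynomial

/-- cusp at `0`, value `c` at `1` and at `2` -/
def DD (c : ℂ) (f : ℂ[X]) : Prop :=
  (derivative f).eval 0 = 0 ∧ f.eval 1 = c ∧ f.eval 2 = c

lemma DD.mul {c d : ℂ} {f g : ℂ[X]} (h : DD c f) (h' : DD d g) : DD (c * d) (f * g) := by
  obtain ⟨h1, h2, h3⟩ := h
  obtain ⟨h4, h5, h6⟩ := h'
  refine ⟨?_, ?_, ?_⟩ <;> simp [derivative_mul, *]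

lemma DD.add {c d : ℂ} {f g : ℂ[X]} (h : DD c f) (h' : DD d g) : DD (c + d) (f + g) := by
  obtain ⟨h1, h2, h3⟩ := h
  obtain ⟨h4, h5, h6⟩ := h'
  refine ⟨?_, ?_, ?_⟩ <;> simp [*]

lemma DD.const (c : ℂ) : DD c (C c) := by
  refine ⟨?_, ?_, ?_⟩ <;> simp

noncomputable def ww : ℂ[X] := X ^ 2 * (X - C 1) * (X - C 2)

lemma ww_ne : ww ≠ 0 :=
  mul_ne_zero (mul_ne_zero (pow_ne_zero _ X_ne_zero) (X_sub_C_ne_zero _)) (X_sub_C_ne_zero _)

lemma DD.ww (h : ℂ[X]) : DD 0 (ww * h) := by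
  refine ⟨?_, ?_, ?_⟩ <;> simp [Chomp.ww, derivative_mul]

lemma logd (s : Multiset ℂ) (hs : ∀ r ∈ s, r ≠ 0) :
    ((s.map fun r => X - C r).prod).eval 0 ≠ 0 ∧
    (derivative (s.map fun r => X - C r).prod).eval 0 =
      -(s.map fun r => r⁻¹).sum * ((s.map fun r => X - C r).prod).eval 0 := by
  induction s using Multiset.induction_on with
  | empty => simp
  | cons r s ih =>
    obtain ⟨h1, h2⟩ := ih fun x hx => hs x (Multiset.mem_cons_of_mem hx)
    have hr := hs r (Multiset.mem_cons_self _ _)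
    simp only [Multiset.map_cons, Multiset.prod_cons, Multiset.sum_cons, derivative_mul, eval_mul,
      eval_add, derivative_sub, derivative_X, derivative_C, eval_sub, eval_X, eval_C, eval_one,
      eval_zero, h2]
    refine ⟨mul_ne_zero (by simpa using hr) h1, ?_⟩
    field_simp
    ring

lemma two_roots {c : ℂ} {f : ℂ[X]} (h : DD c f) (hf : ∀ d, f ≠ C d) :
    ∃ q r, f.eval q = 0 ∧ f.eval r = 0 ∧ q ≠ 1 ∧ q ≠ 2 ∧ q ≠ r := by
  have f0 : f ≠ 0 := by simpa using hf 0
  have hp := (IsAlgClosed.splits f).eq_prod_roots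
  set s := f.roots with hs
  have ms : ∀ r, r ∈ s ↔ f.eval r = 0 := fun r => by rw [hs, mem_roots f0]; rfl
  have lc : f.leadingCoeff ≠ 0 := leadingCoeff_ne_zero.2 f0
  have sne : s ≠ 0 := by
    intro e
    rw [e] at hp
    exact hf f.leadingCoeff (by simpa using hp)
  have ld : (∀ r ∈ s, r ≠ 0) → (s.map fun r => r⁻¹).sum = 0 := by
    intro h0
    obtain ⟨h1, h2⟩ := logd s h0
    have h3 := h.1
    rw [hp, derivative_mul, derivative_C, zero_mul, zero_add, eval_mul, eval_C, h2] at h3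
    simpa [lc, h1] using h3
  by_contra hn
  push Not at hn
  by_cases hz : ∀ r ∈ s, r = 1 ∨ r = 2
  · have h1 := ld fun r hr => by rcases hz r hr with e | e <;> simp [e]
    have h2 : ∀ t : Multiset ℂ, (∀ r ∈ t, r = 1 ∨ r = 2) →
        (t.card : ℝ) / 2 ≤ ((t.map fun r => r⁻¹).sum).re := by
      intro t
      induction t using Multiset.induction_on with
      | empty => simp
      | cons r t ih =>
        intro ht
        have := ih fun x hx => ht x (Multiset.mem_cons_of_mem hx)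
        simp only [Multiset.map_cons, Multiset.sum_cons, Complex.add_re, Multiset.card_cons]
        push_cast
        rcases ht r (Multiset.mem_cons_self _ _) with e | e
        · subst e; simp only [inv_one, Complex.one_re]; linarith
        · subst e
          have : ((2 : ℂ)⁻¹).re = 1 / 2 := by simp
          linarith
    have h3 := h2 s hz
    rw [h1] at h3
    have : 0 < s.card := Multiset.card_pos.2 sne
    have : (0 : ℝ) < s.card := by exact_mod_cast this
    simp at h3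
    linarith
  · push Not at hz
    obtain ⟨q, hq, q1, q2⟩ := hz
    have all : ∀ r ∈ s, r = q := fun r hr => (hn q r ((ms q).1 hq) ((ms r).1 hr) q1 q2).symm
    have e : s = Multiset.replicate s.card q := Multiset.eq_replicate.2 ⟨rfl, all⟩
    have k0 : s.card ≠ 0 := fun h => sne (Multiset.card_eq_zero.1 h)
    by_cases q0 : q = 0
    · have h1 := h.2.1.trans h.2.2.symm
      rw [hp, e, q0] at h1
      simp only [Multiset.map_replicate, Multiset.prod_replicate, eval_mul, eval_C, eval_pow,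
        eval_sub, eval_X, sub_zero, one_pow, mul_eq_mul_left_iff, lc, or_false] at h1
      have h2 : (2 : ℕ) ^ s.card = 1 := by exact_mod_cast h1.symm
      simp [k0] at h2
    · have h1 := ld fun r hr => (all r hr) ▸ q0
      rw [e] at h1
      simp [k0, q0] at h1

/-- splitting off the root `q` -/
lemma split_poly {f : ℂ[X]} (f0 : f ≠ 0) {q r : ℂ} (hq : f.eval q = 0) (hr : f.eval r = 0)
    (q1 : q ≠ 1) (q2 : q ≠ 2) (qr : q ≠ r) :
    ∃ e v g : ℂ[X], g ≠ 0 ∧ DD 0 e ∧ e.eval q = 1 ∧ e.eval r = 0 ∧ e * g = f * (ww * v) ∧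
      g ∣ 1 - e := by
  obtain ⟨g, hg, hg'⟩ := exists_eq_pow_rootMultiplicity_mul_and_not_dvd f f0 q
  set k := f.rootMultiplicity q
  have gq : g.eval q ≠ 0 := fun h => hg' (dvd_iff_isRoot.2 h)
  have gr : g.eval r = 0 := by
    have := hr
    rw [hg] at this
    simp only [eval_mul, eval_pow, eval_sub, eval_X, eval_C, mul_eq_zero, pow_eq_zero_iff',
      sub_eq_zero] at this
    rcases this with h | h
    · exact absurd h.1.symm qr
    · exact h
  obtain ⟨ρ, μ, hρ, hρ2, hρ3⟩ : ∃ ρ μ : ℂ[X], ρ.eval q ≠ 0 ∧ ρ * (X - C q) ^ 2 = X ^ 2 * μ ∧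
      (q = 0 ∨ ρ = X ^ 2) := by
    by_cases q0 : q = 0
    · exact ⟨1, 1, by simp, by simp [q0], Or.inl q0⟩
    · exact ⟨X ^ 2, (X - C q) ^ 2, by simp [q0], rfl, Or.inr rfl⟩
  set G := g * (X - C 1) * (X - C 2) * ρ with hG
  have Gq : G.eval q ≠ 0 := by
    simp only [hG, eval_mul, eval_sub, eval_X, eval_C]
    exact mul_ne_zero (mul_ne_zero (mul_ne_zero gq (sub_ne_zero.2 q1)) (sub_ne_zero.2 q2)) hρ
  have cop : IsCoprime ((X - C q) ^ (k + 2)) G := by
    apply IsCoprime.pow_left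
    exact (irreducible_X_sub_C q).coprime_iff_not_dvd.2 fun h => Gq (dvd_iff_isRoot.1 h)
  obtain ⟨s, t, hst⟩ := cop
  have e1 : t * G = 1 - s * (X - C q) ^ (k + 2) := by linear_combination hst
  refine ⟨t * G, t * μ, (X - C q) ^ (k + 2), pow_ne_zero _ (X_sub_C_ne_zero _), ⟨?_, ?_, ?_⟩,
    ?_, ?_, ?_, ⟨s, by linear_combination -hst⟩⟩
  · rcases hρ3 with h | h
    · rw [e1, h]; simp [derivative_mul, derivative_pow]
    · rw [hG, h]; simp [derivative_mul]
  · simp [hG]
  · simp [hG]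
  · rw [e1]; simp
  · simp [hG, gr]
  · rw [hG, ww]
    nth_rewrite 1 [hg]
    linear_combination (t * g * (X - C 1) * (X - C 2) * (X - C q) ^ k) * hρ2

end Pool.Agent.H8.Chomp
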