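import Pool.Agent.H8.ChompB

/-! Ideal Chomp: the ring. -/

namespace Pool.Agent.H8.Chomp

open Ideal Polynomial

lemma dim_of_bij {A B : Type} [CommRing A] [CommRing B] (I : Ideal B) (f : A →+* B)
    (h : Function.Bijective ((Ideal.Quotient.mk I).comp f)) :
    ringKrullDim (B ⧸ I) = ringKrullDim A :=
  (ringKrullDim_eq_of_ringEquiv (RingEquiv.ofBijective _ h)).symm

lemma max_of_fin {B : Type} [CommRing B] [Algebra ℂ B] (q : Ideal B) (hq : q.IsPrime)
    (h : Module.Finite ℂ (B ⧸ q)) : q.IsMaximal := by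
  haveI : IsArtinianRing (B ⧸ q) := IsArtinianRing.of_finite ℂ _
  exact Ideal.Quotient.maximal_of_isField _ (IsArtinianRing.isField_of_isDomain _)

variable (n : ℕ)

abbrev Ix := (Fin n → ℂ) × ℕ
abbrev RR := MvPolynomial (Fin n) ℂ

variable {n}

noncomputable def ψ (i : Ix n) : RR n →ₐ[ℂ] ℂ[X] :=
  MvPolynomial.aeval fun k => ww * C (i.1 k)

lemma ψ_DD (i : Ix n) (P : RR n) : DD (MvPolynomial.constantCoeff P) (ψ i P) := by
  induction P using MvPolynomial.induction_on with
  | C a => simpa [ψ] using DD.const a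
  | add p q hp hq => simpa using hp.add hq
  | mul_X p k hp => simpa [ψ] using hp.mul (DD.ww (C (i.1 k)))

lemma ψ_inj {P : RR n} (h : {i : Ix n | ψ i P ≠ 0}.Finite) : P = 0 := by
  apply MvPolynomial.funext
  intro v
  have : ∃ m : ℕ, ψ ((fun k => v k / 18), m) P = 0 := by
    by_contra hn
    push Not at hn
    refine Set.infinite_of_injective_forall_mem (f := fun m : ℕ => (((fun k => v k / 18), m) : Ix n))
      (fun a b e => (Prod.ext_iff.1 e).2) hn h
  obtain ⟨m, hm⟩ := this
  have e : (Polynomial.aeval (3 : ℂ)).comp (ψ (((fun k => v k / 18), m) : Ix n)) =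
      MvPolynomial.aeval v := by
    ext k
    simp [ψ, ww]
    ring
  have := congrArg (fun φ : RR n →ₐ[ℂ] ℂ => φ P) e
  simp only [AlgHom.comp_apply, hm, map_zero] at this
  simpa [MvPolynomial.aeval_eq_eval] using this.symm

variable (n) in
noncomputable def SS : Subalgebra ℂ (Ix n → ℂ[X]) where
  carrier := {s | (∃ c, ∀ i, DD c (s i)) ∧ ∃ P, {i | s i ≠ ψ i P}.Finite}
  mul_mem' := by
    rintro s t ⟨⟨c, hc⟩, P, hP⟩ ⟨⟨d, hd⟩, Q, hQ⟩
    refine ⟨⟨c * d, fun i => (hc i).mul (hd i)⟩, P * Q, (hP.union hQ).subset fun i hi => ?_⟩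
    by_contra hn
    simp only [Set.mem_union, Set.mem_setOf_eq, not_or, not_not] at hn
    exact hi (by simp [hn.1, hn.2])
  add_mem' := by
    rintro s t ⟨⟨c, hc⟩, P, hP⟩ ⟨⟨d, hd⟩, Q, hQ⟩
    refine ⟨⟨c + d, fun i => (hc i).add (hd i)⟩, P + Q, (hP.union hQ).subset fun i hi => ?_⟩
    by_contra hn
    simp only [Set.mem_union, Set.mem_setOf_eq, not_or, not_not] at hn
    exact hi (by simp [hn.1, hn.2])
  algebraMap_mem' := fun c =>
    ⟨⟨c, fun i => by simpa using DD.const c⟩, MvPolynomial.C c, by simp [ψ]⟩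

open Classical in
/-- an element supported on one line -/
noncomputable def sg (i : Ix n) (f : ℂ[X]) (h : DD 0 f) : SS n :=
  ⟨Pi.single i f, ⟨0, fun j => by
      by_cases e : j = i
      · subst e; simpa using h
      · simpa [e] using DD.const 0⟩,
    0, (Set.finite_singleton i).subset fun j hj => by
      by_contra e
      exact hj (by simp [Pi.single_eq_of_ne e])⟩

lemma sg_self (i : Ix n) (f : ℂ[X]) (h : DD 0 f) : (sg i f h).1 i = f := by simp [sg]

lemma sg_ne {i j : Ix n} (e : j ≠ i) (f : ℂ[X]) (h : DD 0 f) : (sg i f h).1 j = 0 := by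
  simp [sg, e]

lemma SS.ext' {s t : SS n} (i : Ix n) (h : s.1 i = t.1 i) (h' : ∀ j, j ≠ i → s.1 j = t.1 j) :
    s = t := by
  ext1; funext j
  by_cases e : j = i
  · rw [e]; exact h
  · exact h' j e

noncomputable def π (i : Ix n) : SS n →ₐ[ℂ] ℂ[X] :=
  (Pi.evalAlgHom ℂ (fun _ => ℂ[X]) i).comp (SS n).val

lemma fin_quot (i : Ix n) {g : ℂ[X]} (hg : g ≠ 0) (J : Ideal (SS n))
    (h : ∀ t : SS n, g ∣ t.1 i → t ∈ J) : Module.Finite ℂ (SS n ⧸ J) := by
  let φ : SS n →ₐ[ℂ] AdjoinRoot g := (Ideal.Quotient.mkₐ ℂ (span {g})).comp (π i)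
  haveI : Module.Finite ℂ (AdjoinRoot g) := (AdjoinRoot.powerBasis hg).finite
  haveI : Module.Finite ℂ (SS n ⧸ RingHom.ker φ) :=
    Module.Finite.of_injective (Ideal.kerLiftAlg φ).toLinearMap (Ideal.kerLiftAlg_injective φ)
  have hle : RingHom.ker φ ≤ J := fun t ht => h t (by
    have : Ideal.Quotient.mk (span {g}) (t.1 i) = 0 := ht
    exact mem_span_singleton.1 (Ideal.Quotient.eq_zero_iff_mem.1 this))
  refine Module.Finite.of_surjective (Ideal.Quotient.factorₐ ℂ hle).toLinearMap fun x => ?_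
  obtain ⟨y, rfl⟩ := Ideal.Quotient.mk_surjective x
  exact ⟨Ideal.Quotient.mk _ y, rfl⟩

/-- evaluation at the point `q` of the line `i` -/
noncomputable def ev (i : Ix n) (q : ℂ) : SS n →+* ℂ := (evalRingHom q).comp (π i)

lemma ev_apply (i : Ix n) (q : ℂ) (s : SS n) : ev i q s = (s.1 i).eval q := rfl

theorem T_bot : T (⊥ : Ideal (SS n)) := by
  haveI : Nontrivial (SS n) := (ev ((fun _ => 0), 0) 0).domain_nontrivial
  refine ⟨bot_ne_top, fun a ha ha' => ?_⟩
  rw [bot_sup_eq] at ha' ⊢
  obtain ⟨⟨c, hc⟩, P, hP⟩ := a.2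
  have : ∃ i, ∀ d, a.1 i ≠ C d := by
    by_contra hn
    push Not at hn
    have e : a = algebraMap ℂ (SS n) c := by
      ext1; funext i
      obtain ⟨d, hd⟩ := hn i
      have := (hc i).2.1
      rw [hd] at this
      simp only [eval_C] at this
      simp [hd, this]
    by_cases c0 : c = 0
    · exact ha (by simp [e, c0])
    · exact ha' (span_singleton_eq_top.2 (e ▸ (IsUnit.mk0 c c0).map _))
  obtain ⟨i, hi⟩ := this
  obtain ⟨q, r, hq, hr, q1, q2, qr⟩ := two_roots (hc i) hi
  obtain ⟨e, v, g, g0, he, eq, er, h1, s, h2⟩ :=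
    split_poly (by simpa using hi 0) hq hr q1 q2 qr
  refine ans_split (e := sg i e he) (w := sg i (ww * (v * s)) (DD.ww _)) ?_ ?_ ?_ ?_
  · refine SS.ext' i ?_ fun j hj => ?_
    · simp only [MulMemClass.coe_mul, AddSubgroupClass.coe_sub, OneMemClass.coe_one, Pi.mul_apply,
        Pi.sub_apply, Pi.one_apply, sg_self]
      rw [h2]; linear_combination s * h1
    · simp [sg_ne hj]
  · intro h
    obtain ⟨t, ht⟩ := mem_span_singleton.1 h
    have := congrArg (ev i r) ht
    simp [ev_apply, sg_self, er, hr] at this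
  · intro h
    have : span {a} ⊔ span {1 - sg i e he} ≤ RingHom.ker (ev i q) := by
      refine sup_le ((span_singleton_le_iff_mem _).2 hq) ((span_singleton_le_iff_mem _).2 ?_)
      simp [RingHom.mem_ker, ev_apply, sg_self, eq]
    rw [h] at this
    simpa using this (Submodule.mem_top (x := 1))
  · haveI : Module.Finite ℂ (SS n ⧸ (span {a} ⊔ span {1 - sg i e he})) := by
      refine fin_quot i g0 _ fun t ⟨u, hu⟩ => ?_
      have : t = sg i (ww * (v * u)) (DD.ww _) * a + t * (1 - sg i e he) := by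
        refine SS.ext' i ?_ fun j hj => ?_
        · simp only [MulMemClass.coe_mul, AddSubgroupClass.coe_sub, OneMemClass.coe_one,
            Pi.mul_apply, Pi.sub_apply, Pi.one_apply, sg_self, AddMemClass.coe_add, Pi.add_apply]
          rw [hu]; linear_combination u * h1
        · simp [sg_ne hj]
      rw [this]
      exact add_mem ((le_sup_left : span {a} ≤ _) (mul_mem_left _ _ (mem_span_singleton_self _)))
        ((le_sup_right : span {1 - sg i e he} ≤ _) (mul_mem_left _ _ (mem_span_singleton_self _)))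
    haveI : IsNoetherianRing (SS n ⧸ (span {a} ⊔ span {1 - sg i e he})) :=
      isNoetherian_of_tower ℂ inferInstance
    exact fin_of_noeth

/-- finitely supported elements -/
def Ifin : Ideal (SS n) where
  carrier := {s | {i | s.1 i ≠ 0}.Finite}
  add_mem' := by
    intro s t hs ht
    refine (hs.union ht).subset fun i hi => ?_
    by_contra hn
    simp only [Set.mem_union, Set.mem_setOf_eq, not_or, not_not] at hn
    exact hi (by simp [hn.1, hn.2])
  zero_mem' := by simp
  smul_mem' := by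
    intro c s hs
    refine hs.subset fun i hi => ?_
    by_contra hn
    simp only [Set.mem_setOf_eq, not_not] at hn
    exact hi (by simp [hn])

noncomputable def τ : RR n →ₐ[ℂ] SS n :=
  (Pi.algHom ℂ (fun _ => ℂ[X]) ψ).codRestrict (SS n) fun P =>
    ⟨⟨_, fun i => ψ_DD i P⟩, P, by simp⟩

lemma dim_quot : ringKrullDim (SS n ⧸ Ifin) = n := by
  have hb : Function.Bijective ((Ideal.Quotient.mk (Ifin (n := n))).comp (τ (n := n)).toRingHom) := by
    constructor
    · rw [injective_iff_map_eq_zero]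
      intro P hP
      exact ψ_inj (Ideal.Quotient.eq_zero_iff_mem.1 hP)
    · intro x
      obtain ⟨s, rfl⟩ := Ideal.Quotient.mk_surjective x
      obtain ⟨-, P, hP⟩ := s.2
      refine ⟨P, (Ideal.Quotient.eq.2 ?_)⟩
      refine hP.subset fun i hi => ?_
      intro e
      apply hi
      change ψ i P - s.1 i = 0
      rw [e, sub_self]
  rw [dim_of_bij _ _ hb,
    MvPolynomial.ringKrullDim_of_isNoetherianRing, ringKrullDim_eq_zero_of_field]
  simp

lemma ker_le {p : Ideal (SS n)} (hp : p.IsPrime) (h : ¬ Ifin ≤ p) :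
    ∃ i, ∀ t : SS n, t.1 i = 0 → t ∈ p := by
  classical
  by_contra hn
  push Not at hn
  apply h
  have key : ∀ F : Finset (Ix n), ∀ s : SS n, (∀ i, i ∉ F → s.1 i = 0) → s ∈ p := by
    intro F
    induction F using Finset.induction_on with
    | empty =>
      intro s hs
      have : s = 0 := by ext1; funext i; exact hs i (by simp)
      rw [this]; exact p.zero_mem
    | insert i F _ ih =>
      intro s hs
      obtain ⟨t, ht, ht'⟩ := hn i
      refine (hp.mem_or_mem (ih (s * t) fun j hj => ?_)).resolve_right ht'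
      by_cases e : j = i
      · simp [e, ht]
      · simp [hs j (by simp [e, hj])]
  intro s hs
  exact key (Set.Finite.toFinset hs) s fun i hi => by simpa using hi

lemma max_of {p q : Ideal (SS n)} (hp : p.IsPrime) (h : ¬ Ifin ≤ p) (hq : q.IsPrime)
    (hpq : p < q) : q.IsMaximal := by
  obtain ⟨i, hi⟩ := ker_le hp h
  obtain ⟨s, hs, hs'⟩ := SetLike.exists_of_lt hpq
  have s0 : s.1 i ≠ 0 := fun e => hs' (hi s e)
  have : Module.Finite ℂ (SS n ⧸ q) := by
    refine fin_quot i (mul_ne_zero s0 ww_ne) q fun t ⟨u, hu⟩ => ?_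
    have h1 : t - sg i (ww * u) (DD.ww _) * s ∈ q := by
      refine hpq.le (hi _ ?_)
      simp only [MulMemClass.coe_mul, AddSubgroupClass.coe_sub, Pi.mul_apply, Pi.sub_apply, sg_self]
      rw [hu]; ring
    simpa using add_mem h1 (mul_mem_left q (sg i (ww * u) (DD.ww _)) hs)
  exact max_of_fin q hq this

theorem dim_SS (hn : 1 ≤ n) : ringKrullDim (SS n) = n := by
  apply le_antisymm
  · refine iSup_le fun l => ?_
    by_cases h : Ifin ≤ l.head.asIdeal
    · refine le_trans ?_ (dim_quot (n := n)).le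
      rw [ringKrullDim_quotient]
      let l' : LTSeries (PrimeSpectrum.zeroLocus (Ifin (n := n) : Set (SS n))) :=
        ⟨l.length, fun j => ⟨l j, h.trans (l.monotone (Fin.zero_le j))⟩, fun j => l.step j⟩
      exact Order.LTSeries.length_le_krullDim l'
    · have : l.length ≤ 1 := by
        by_contra hl
        push Not at hl
        have h01 : l.head < l ⟨1, by omega⟩ := l.strictMono (by simp [Fin.lt_def])
        have h12 : l ⟨1, by omega⟩ < l ⟨2, by omega⟩ := l.strictMono (by simp [Fin.lt_def])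
        have := max_of l.head.isPrime h (l ⟨1, by omega⟩).isPrime h01
        exact (l ⟨2, by omega⟩).isPrime.ne_top (this.out.2 _ h12)
      exact_mod_cast this.trans hn
  · rw [← dim_quot]
    exact ringKrullDim_quotient_le _

theorem main (n : ℕ) : ∃ (R : Type) (_ : CommRing R), ringKrullDim R = n ∧ BWins R := by
  rcases Nat.eq_zero_or_pos n with rfl | hn
  · refine ⟨ℂ, inferInstance, by simp [ringKrullDim_eq_zero_of_field],
      wins_of ⟨bot_ne_top, fun a ha ha' => absurd ?_ ha'⟩⟩
    rw [bot_sup_eq]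
    exact span_singleton_eq_top.2 (IsUnit.mk0 a (by simpa using ha))
  · exact ⟨SS n, inferInstance, dim_SS hn, wins_of T_bot⟩

end Pool.Agent.H8.Chomp
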