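import Mathlib

/-! Building tilings of plane regions by copies of a triangle. -/

namespace Pool.Agent.H8.Tile
open Set Function Filter Topology

def TL {E : Type} [TopologicalSpace E] (P : Set E → Prop) (n : ℕ) (S : Set E) : Prop :=
  ∃ F : Fin n → Set E, (∀ i, P (F i)) ∧ ⋃ i, F i = S ∧
    Pairwise fun i j => Disjoint (interior (F i)) (interior (F j))

def Tl {E : Type} [AddCommGroup E] [Module ℝ E] (q : E → ℝ) (a b c : ℝ) (t : Set E) : Prop :=
  ∃ A B C : E, q (B - C) = a ∧ q (C - A) = b ∧ q (A - B) = c ∧ t = convexHull ℝ {A, B, C}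

section
variable {E : Type} [TopologicalSpace E] {P : Set E → Prop} {n m : ℕ} {S T : Set E}

lemma TL.glue (H : TL P n S) (K : TL P m T) (h : Disjoint (interior S) (interior T)) :
    TL P (n + m) (S ∪ T) := by
  obtain ⟨F, f1, rfl, f3⟩ := H
  obtain ⟨G, g1, rfl, g3⟩ := K
  have d : ∀ i j, Disjoint (interior (F i)) (interior (G j)) := fun i j =>
    h.mono (interior_mono (subset_iUnion F i)) (interior_mono (subset_iUnion G j))
  refine ⟨Sum.elim F G ∘ finSumFinEquiv.symm, fun i => ?_, ?_, fun i j hij => ?_⟩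
  · simp only [comp]
    rcases finSumFinEquiv.symm i with i | i
    exacts [f1 i, g1 i]
  · exact (finSumFinEquiv.symm.surjective.iUnion_comp (Sum.elim F G)).trans iUnion_sum
  · have := finSumFinEquiv.symm.injective.ne hij
    simp only [comp]
    generalize finSumFinEquiv.symm i = i, finSumFinEquiv.symm j = j at this
    rcases i with i | i <;> rcases j with j | j
    exacts [f3 (by simpa using this), d i j, (d j i).symm, g3 (by simpa using this)]

lemma TL.img {E' : Type} [TopologicalSpace E'] {Q : Set E' → Prop} {f : E → E'}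
    (hc : Continuous f) (hi : Injective f) (hP : ∀ t, P t → Q (f '' t)) (H : TL P n S) :
    TL Q n (f '' S) := by
  obtain ⟨F, f1, rfl, f3⟩ := H
  refine ⟨fun i => f '' F i, fun i => hP _ (f1 i), image_iUnion.symm, fun i j hij => ?_⟩
  refine disjoint_left.2 fun x hx hy => ?_
  obtain ⟨y, -, rfl⟩ := interior_subset hx
  have e : ∀ s, f y ∈ interior (f '' s) → y ∈ interior s := fun s h => by
    simpa [preimage_image_eq _ hi] using preimage_interior_subset_interior_preimage hc h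
  exact disjoint_left.1 (f3 hij) (e _ hx) (e _ hy)

lemma disj3 {U : Set E} (hS : IsClosed S) (h1 : Disjoint (interior S) (interior U))
    (h2 : Disjoint (interior T) (interior U)) : Disjoint (interior (S ∪ T)) (interior U) := by
  have o : IsOpen (interior (S ∪ T) ∩ interior U) := isOpen_interior.inter isOpen_interior
  refine disjoint_left.2 fun x hx hy => disjoint_left.1 h1 (mem_interior.2
    ⟨_, fun y hz => by_contra fun n => disjoint_left.1 h2 (mem_interior.2 ⟨_, fun z hz => ?_,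
      o.inter hS.isOpen_compl, hz, n⟩) hz.2, o, hx, hy⟩) hy
  exact (interior_subset hz.1.1).resolve_left hz.2
end

lemma sep {S T : Set (ℝ × ℝ)} (α β c : ℝ) (h : 0 < α ^ 2 + β ^ 2)
    (hS : ∀ x ∈ S, α * x.1 + β * x.2 ≤ c) (hT : ∀ x ∈ T, c ≤ α * x.1 + β * x.2) :
    Disjoint (interior S) (interior T) := by
  refine disjoint_left.2 fun x hx hy => ?_
  have t : Tendsto (fun t : ℝ => x + t • (α, β)) (𝓝[>] 0) (𝓝 x) :=
    (Continuous.tendsto' (by fun_prop) 0 x (by simp)).mono_left nhdsWithin_le_nhds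
  obtain ⟨t, h1, h2⟩ := ((t.eventually (mem_interior_iff_mem_nhds.1 hx)).and
    self_mem_nhdsWithin).exists
  have := hS _ h1
  have := hT _ (interior_subset hy)
  have := mul_pos h2 h
  simp at *
  linarith

lemma TL.split {P : Set (ℝ × ℝ) → Prop} {n m : ℕ} {A B S : Set (ℝ × ℝ)} (α β c : ℝ)
    (H : TL P n A) (K : TL P m B) (h : 0 < α ^ 2 + β ^ 2)
    (hA : ∀ x, x ∈ A ↔ x ∈ S ∧ α * x.1 + β * x.2 ≤ c)
    (hB : ∀ x, x ∈ B ↔ x ∈ S ∧ c ≤ α * x.1 + β * x.2) : TL P (n + m) S := by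
  convert H.glue K (sep α β c h (fun x h => ((hA x).1 h).2) fun x h => ((hB x).1 h).2)
  ext x
  rw [mem_union, hA, hB, ← and_or_left, and_iff_left (le_total _ _)]

variable {a b c : ℝ} {n : ℕ} {q : ℝ × ℝ → ℝ} {S : Set (ℝ × ℝ)}

lemma TL.aff {F : Type} [NormedAddCommGroup F] [NormedSpace ℝ F] {q' : F → ℝ} (p u v : F)
    (g : F → ℝ × ℝ) (h1 : ∀ x : ℝ × ℝ, g (p + x.1 • u + x.2 • v) = x)
    (h2 : ∀ x, p + (g x).1 • u + (g x).2 • v = x)
    (hq : ∀ x : ℝ × ℝ, q' (x.1 • u + x.2 • v) = q x) (H : TL (Tl q a b c) n S) :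
    TL (Tl q' a b c) n (g ⁻¹' S) := by
  let f : ℝ × ℝ →ᵃ[ℝ] F := AffineMap.const ℝ _ p + ((LinearMap.toSpanSingleton ℝ F u).coprod
    (LinearMap.toSpanSingleton ℝ F v)).toAffineMap
  have e : ∀ x, f x = p + x.1 • u + x.2 • v := fun x => by simp [f, add_assoc]
  have l : LeftInverse g f := fun x => by rw [e, h1]
  rw [← image_eq_preimage_of_inverse l fun x => by rw [e, h2]]
  refine H.img f.continuous_of_finiteDimensional l.injective ?_
  rintro _ ⟨A, B, C, r1, r2, r3, rfl⟩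
  have k : ∀ x y, q' (f x - f y) = q (x - y) := fun x y => by
    rw [← hq, e, e]; congr 1; simp only [Prod.fst_sub, Prod.snd_sub]; module
  exact ⟨f A, f B, f C, by rw [k, r1], by rw [k, r2], by rw [k, r3], by
    simp [f.image_convexHull, image_insert_eq]⟩

lemma TL.mv (H : TL (Tl q a b c) n S) (s t : ℝ) :
    TL (Tl q a b c) n {x | (x.1 - s, x.2 - t) ∈ S} :=
  H.aff (s, t) (1, 0) (0, 1) (fun x => (x.1 - s, x.2 - t)) (by simp) (by simp) (by simp)

lemma hull0 : {x : ℝ × ℝ | 0 ≤ x.1 ∧ 0 ≤ x.2 ∧ x.1 + x.2 ≤ 1} =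
    convexHull ℝ {(0, 1), (1, 0), 0} := by
  refine Subset.antisymm (fun x ⟨h1, h2, h3⟩ => ?_) (convexHull_min (by simp [insert_subset_iff])
    fun x ⟨x1, x2, x3⟩ y ⟨y1, y2, y3⟩ s t hs ht h => ⟨by simp; positivity, by simp; positivity, by
      simp; nlinarith⟩)
  have := (convex_convexHull ℝ {((0, 1) : ℝ × ℝ), (1, 0), 0}).sum_mem (t := Finset.univ)
    (w := ![x.2, x.1, 1 - x.1 - x.2]) (z := ![(0, 1), (1, 0), 0])
    (fun i _ => by fin_cases i <;> simp <;> linarith) (by simp [Fin.sum_univ_three, add_comm])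
    fun i _ => subset_convexHull ℝ _ (by fin_cases i <;> simp)
  simpa [Fin.sum_univ_three] using this

section
variable (e : ∀ x, q (-x) = q x) (ha : q (1, 0) = a) (hb : q (0, 1) = b) (hc : q (1, -1) = c)
include e ha hb hc

lemma tri1 : TL (Tl q a b c) 1 {x | 0 ≤ x.1 ∧ 0 ≤ x.2 ∧ x.1 + x.2 ≤ 1} := by
  exact ⟨fun _ => _, fun _ => ⟨(0, 1), (1, 0), 0, by simpa, by rw [← hb, ← e]; simp,
    by rw [← hc, ← e]; simp, hull0⟩, iUnion_const _, Subsingleton.pairwise⟩

lemma box1 (j : ℕ) : TL (Tl q a b c) (2 * (j + 1))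
    {x | 0 ≤ x.1 ∧ x.1 ≤ 1 ∧ 0 ≤ x.2 ∧ x.2 ≤ j + 1} := by
  have : TL (Tl q a b c) 2 {x | 0 ≤ x.1 ∧ x.1 ≤ 1 ∧ 0 ≤ x.2 ∧ x.2 ≤ 1} :=
    (tri1 e ha hb hc).split 1 1 1 ((tri1 e ha hb hc).aff (1, 1) (-1, 0) (0, -1)
      (fun x => (1 - x.1, 1 - x.2)) (by simp) (by simp) fun x => by rw [← e]; simp) (by simp)
      (by grind) (by grind)
  induction j with
  | zero => simpa using this
  | succ j ih => exact ih.split 0 1 (j + 1) (this.mv 0 (j + 1)) (by simp) (by grind) (by grind)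

lemma box (i j : ℕ) : TL (Tl q a b c) (2 * (j + 1) * (i + 1))
    {x | 0 ≤ x.1 ∧ x.1 ≤ i + 1 ∧ 0 ≤ x.2 ∧ x.2 ≤ j + 1} := by
  induction i with
  | zero => simpa using box1 e ha hb hc j
  | succ i ih =>
    exact ih.split 1 0 (i + 1) ((box1 e ha hb hc j).mv (i + 1) 0) (by simp) (by grind) (by grind)

lemma tri (k : ℕ) : TL (Tl q a b c) ((k + 1) ^ 2) {x | 0 ≤ x.1 ∧ 0 ≤ x.2 ∧ x.1 + x.2 ≤ k + 1} := by
  induction k with
  | zero => simpa using tri1 e ha hb hc
  | succ k ih =>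
    have := ((box1 e ha hb hc k).split (S := {x | 0 ≤ x.1 ∧ x.1 ≤ 1 ∧ 0 ≤ x.2 ∧ x.1 + x.2 ≤ k + 2})
      0 1 (k + 1) ((tri1 e ha hb hc).mv 0 (k + 1)) (by simp) (by grind) (by grind)).split
      (S := {x | 0 ≤ x.1 ∧ 0 ≤ x.2 ∧ x.1 + x.2 ≤ k + 2}) 1 0 1 (ih.mv 1 0) (by simp) (by grind)
      (by grind)
    convert this using 1
    · ring
    · push_cast; simp only [add_assoc, one_add_one_eq_two]
end

end Pool.Agent.H8.Tile
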