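import Pool.Agent.H8.Spiral3
import Pool.Agent.H8.Tile1

/-! The group p6m in lattice coordinates and slices of its fundamental triangle. -/

namespace Pool.Agent.H8.Comp
open Set Function Filter Topology Pool.Agent.H8.Spiral

def M : Fin 12 → ℤ × ℤ × ℤ × ℤ := ![(1, 0, 0, 1), (0, -1, 1, 1), (-1, -1, 1, 0), (-1, 0, 0, -1),
  (0, 1, -1, -1), (1, 1, -1, 0), (0, 1, 1, 0), (1, 1, 0, -1), (1, 0, -1, -1), (0, -1, -1, 0),
  (-1, -1, 0, 1), (-1, 0, 1, 1)]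

def m {R : Type} [Ring R] (a : Fin 12) (x : R × R) : R × R :=
  ((M a).1 * x.1 + (M a).2.1 * x.2, (M a).2.2.1 * x.1 + (M a).2.2.2 * x.2)

def Mul (b a d : Fin 12) : Prop := m b (m a (1, 0)) = m d ((1, 0) : ℤ × ℤ) ∧
  m b (m a (0, 1)) = m d ((0, 1) : ℤ × ℤ)

instance (b a d : Fin 12) : Decidable (Mul b a d) := by unfold Mul; infer_instance

lemma mul1 : ∀ b a, ∃ d, Mul b a d := by decide +kernel
lemma mul2 : ∀ b d, ∃ a, Mul b a d := by decide +kernel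
lemma mul3 : ∀ a d, ∃ b, Mul b a d := by decide +kernel

lemma Mul.eq {R : Type} [CommRing R] {b a d : Fin 12} (h : Mul b a d) (x : R × R) :
    m b (m a x) = m d x := by
  simp only [Mul, m, Prod.ext_iff, Int.cast_id, mul_one, mul_zero, add_zero, zero_add] at h ⊢
  obtain ⟨⟨h1, h2⟩, h3, h4⟩ := h
  rw [← h1, ← h2, ← h3, ← h4]
  push_cast
  constructor <;> ring

lemma m_c (a : Fin 12) (v : ℤ × ℤ) : m a (c v) = c (m a v) := by simp [m, c]
lemma m_add {R : Type} [Ring R] (a : Fin 12) (x y : R × R) : m a (x + y) = m a x + m a y := by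
  ext <;> simp [m, mul_add] <;> abel
lemma m_zero {R : Type} [Ring R] (x : R × R) : m 0 x = x := by simp [m, M]
lemma c_add (v w : ℤ × ℤ) : c (v + w) = c v + c w := by simp [c]

lemma nL (x : ℝ × ℝ) : ‖L6 x‖ ^ 2 = 3 * (x.1 ^ 2 + x.1 * x.2 + x.2 ^ 2) := by
  simp [Complex.sq_norm, Complex.normSq_apply, L6]
  linear_combination (x.1 / 2 + x.2) ^ 2 * Edge.s3

lemma nm (a : Fin 12) (x : ℝ × ℝ) : ‖L6 (m a x)‖ = ‖L6 x‖ := by
  rw [← pow_left_inj₀ (norm_nonneg _) (norm_nonneg _) two_ne_zero, nL, nL]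
  fin_cases a <;> simp [m, M] <;> ring

noncomputable def F (k : ℤ × ℤ) (a : Fin 12) (z : ℂ) : ℂ := L6 (c k + m a (L6.symm z))

lemma F_iso (k : ℤ × ℤ) (a : Fin 12) : Isometry (F k a) := Isometry.of_dist_eq fun x y => by
  obtain ⟨x, rfl⟩ := L6.surjective x
  obtain ⟨y, rfl⟩ := L6.surjective y
  obtain ⟨d, rfl⟩ : ∃ d, x = y + d := ⟨x - y, by abel⟩
  simp [F, dist_eq_norm, m_add, nm]

lemma F_F {b a d : Fin 12} (h : Mul b a d) (k l : ℤ × ℤ) (z : ℂ) :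
    F k b (F l a z) = F (k + m b l) d z := by
  simp [F, m_add, h.eq, m_c, c_add, add_assoc]

def P (t i : ℕ) : Set (ℝ × ℝ) :=
  {x | x.2 ≤ 0 ∧ 0 ≤ x.1 + 2 * x.2 ∧ i ≤ t * (2 * x.1 + x.2) ∧ t * (2 * x.1 + x.2) ≤ i + 1}

def τ (i : ℕ) : ℤ × ℤ := (4 * (i + 1), 2 * (i + 1))

def C (t : ℕ) (l : ℤ × ℤ) (p : Fin 12 × Fin t) : Set ℂ :=
  F (l + m p.1 (τ p.2)) p.1 '' (L6 '' P t p.2)

variable {t : ℕ}

lemma F_C {b a d : Fin 12} (h : Mul b a d) (k l : ℤ × ℤ) (i : Fin t) :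
    F k b '' C t l (a, i) = C t (k + m b l) (d, i) := by
  simp only [C, image_image, F_F h, m_add, h.eq, add_assoc]

lemma F_T (b : Fin 12) (k l : ℤ × ℤ) : F k b '' ⋃ p, C t l p = ⋃ p, C t (k + m b l) p := by
  rw [image_iUnion]
  refine Subset.antisymm (iUnion_subset fun p => ?_) (iUnion_subset fun p => ?_)
  · obtain ⟨d, h⟩ := mul1 b p.1
    exact (F_C h k l p.2).le.trans (subset_iUnion _ _)
  · obtain ⟨a, h⟩ := mul2 b p.1
    exact (F_C h k l p.2).ge.trans (subset_iUnion (fun p => F k b '' C t l p) _)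

lemma P_le {i : Fin t} {x : ℝ × ℝ} (h : x ∈ P t i) : 2 * x.1 + x.2 ≤ 1 := by
  have : ((i : ℕ) : ℝ) + 1 ≤ t := by exact_mod_cast i.2
  have : (0 : ℝ) < t := by exact_mod_cast i.pos
  nlinarith [h.2.2.2]

lemma P_norm {i : Fin t} {x : ℝ × ℝ} (h : x ∈ P t i) : ‖L6 x‖ ≤ 1 := by
  rw [← pow_le_one_iff_of_nonneg (norm_nonneg _) two_ne_zero, nL]
  nlinarith [P_le h, h.1, h.2.1]

lemma P_closed (i : ℕ) : IsClosed (P t i) := by
  refine .and ?_ (.and ?_ (.and ?_ ?_)) <;> exact isClosed_le (by fun_prop) (by fun_prop)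

lemma C_disk (l : ℤ × ℤ) (p : Fin 12 × Fin t) :
    IsClosed (C t l p) ∧ Nonempty (C t l p ≃ₜ Metric.closedBall (0 : ℂ) 1) := by
  have cl : IsClosed (L6 '' P t p.2) := L6.toHomeomorph.isClosedMap _ (P_closed _)
  have t0 : (0 : ℝ) < t := by exact_mod_cast p.2.pos
  obtain ⟨h, -, h2, -⟩ := exists_homeomorph_image_interior_closure_frontier_eq_unitBall
    (s := L6 '' P t p.2) (Convex.linear_image (s := P t p.2)
      (fun x ⟨x1, x2, x3, x4⟩ y ⟨y1, y2, y3, y4⟩ a b ha hb h => by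
      obtain rfl : b = 1 - a := by linarith
      simp only [P, mem_setOf_eq, Prod.fst_add, Prod.snd_add, Prod.smul_fst, Prod.smul_snd,
        smul_eq_mul]
      refine ⟨?_, ?_, ?_, ?_⟩ <;> nlinarith) L6.toLinearEquiv.toLinearMap)
    (by
      refine (L6.toHomeomorph.image_interior _).subst (motive := Set.Nonempty) (Nonempty.image _
        ⟨(3 * (2 * p.2 + 1) / (10 * t), -(2 * p.2 + 1) / (10 * t)), mem_interior.2
          ⟨{x | x.2 < 0 ∧ 0 < x.1 + 2 * x.2 ∧ p.2 < t * (2 * x.1 + x.2) ∧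
            t * (2 * x.1 + x.2) < p.2 + 1}, fun x h => ⟨h.1.le, h.2.1.le, h.2.2.1.le, h.2.2.2.le⟩,
            ?_, ?_⟩⟩)
      · refine .and ?_ (.and ?_ (.and ?_ ?_)) <;> exact isOpen_lt (by fun_prop) (by fun_prop)
      · have : (0 : ℝ) ≤ (p.2 : ℕ) := Nat.cast_nonneg _
        refine ⟨?_, ?_, ?_, ?_⟩ <;> simp only <;> field_simp <;> linarith)
    (isBounded_iff_forall_norm_le.2 ⟨1, by rintro _ ⟨x, h, rfl⟩; exact P_norm h⟩)
  rw [cl.closure_eq] at h2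
  exact ⟨(F_iso _ _).isClosedEmbedding.isClosedMap _ cl,
    ⟨((F_iso _ _).isEmbedding.homeomorphImage _).symm.trans (h2 ▸ h.image _)⟩⟩

lemma cover (ht : 0 < t) (z : ℂ) : ∃ l p, z ∈ C t l p := by
  obtain ⟨⟨x, y⟩, rfl⟩ := L6.surjective z
  obtain ⟨k, u, v, e, h⟩ : ∃ (k : ℤ × ℤ) (u v : ℝ), (x, y) = c k + (u, v) ∧ -1 ≤ 2 * u + v ∧
      2 * u + v ≤ 1 ∧ -1 ≤ u + 2 * v ∧ u + 2 * v ≤ 1 ∧ -1 ≤ u - v ∧ u - v ≤ 1 := by
    have x1 := Int.floor_le x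
    have x2 := Int.lt_floor_add_one x
    have y1 := Int.floor_le y
    have y2 := Int.lt_floor_add_one y
    generalize ⌊x⌋ = i, ⌊y⌋ = j at *
    by_contra! h
    have h1 := h (i, j) (x - i) (y - j) (by simp [c])
    have h2 := h (i + 1, j) (x - i - 1) (y - j) (by simp [c])
    have h3 := h (i, j + 1) (x - i) (y - j - 1) (by simp [c])
    have h4 := h (i + 1, j + 1) (x - i - 1) (y - j - 1) (by simp [c])
    clear h
    grind
  obtain ⟨b, h1, h2, h3⟩ : ∃ b, (m b (u, v)).2 ≤ 0 ∧ 0 ≤ (m b (u, v)).1 + 2 * (m b (u, v)).2 ∧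
      2 * (m b (u, v)).1 + (m b (u, v)).2 ≤ 1 := by
    clear e
    simp [Fin.exists_fin_succ, m, M]
    grind
  obtain ⟨a, ha⟩ := mul3 b 0
  have t0 : (0 : ℝ) < t := by exact_mod_cast ht
  obtain ⟨i, hi⟩ : ∃ i : Fin t, m b (u, v) ∈ P t i := by
    have a0 : 0 ≤ t * (2 * (m b (u, v)).1 + (m b (u, v)).2) := mul_nonneg t0.le (by linarith)
    rcases h3.lt_or_eq with h3 | h3
    · exact ⟨⟨_, (Nat.floor_lt a0).2 (by nlinarith)⟩, h1, h2, Nat.floor_le a0,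
        (Nat.lt_floor_add_one _).le⟩
    · refine ⟨⟨t - 1, by omega⟩, h1, h2, ?_, ?_⟩ <;> simp [h3, ht]
  exact ⟨k - m a (τ i), (a, i), _, ⟨_, hi, rfl⟩, by simp [F, ha.eq, m_zero, e]⟩

lemma strict {S : Set (ℝ × ℝ)} {x : ℝ × ℝ} (h : x ∈ interior S) (d : ℝ × ℝ) :
    ∃ s : ℝ, 0 < s ∧ x + s • d ∈ S := by
  have t : Tendsto (fun t : ℝ => x + t • d) (𝓝[>] 0) (𝓝 x) :=
    (Continuous.tendsto' (by fun_prop) 0 x (by simp)).mono_left nhdsWithin_le_nhds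
  exact ((t.eventually (mem_interior_iff_mem_nhds.1 h)).and self_mem_nhdsWithin).exists.imp
    fun _ => And.symm

lemma C_int {l : ℤ × ℤ} {a : Fin 12} {i : Fin t} {z : ℂ} (h : z ∈ interior (C t l (a, i))) :
    ∃ x : ℝ × ℝ, z = L6 (c (l + m a (τ i)) + m a x) ∧ x.2 < 0 ∧ 0 < x.1 + 2 * x.2 ∧
      2 * x.1 + x.2 < 1 ∧ i < t * (2 * x.1 + x.2) ∧ t * (2 * x.1 + x.2) < i + 1 := by
  obtain ⟨_, ⟨x, -, rfl⟩, rfl⟩ := interior_subset h
  have t0 : (0 : ℝ) < t := by exact_mod_cast i.pos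
  have : x ∈ interior (P t i) := by
    have := preimage_interior_subset_interior_preimage
      ((F_iso (l + m a (τ i)) a).continuous.comp L6.continuous) h
    rwa [C, ← image_comp, preimage_image_eq _ ((F_iso _ _).injective.comp L6.injective)] at this
  obtain ⟨s1, p1, h1⟩ := strict this (0, 1)
  obtain ⟨s2, p2, h2⟩ := strict this (-1, 0)
  obtain ⟨s3, p3, h3⟩ := strict this (1, 0)
  have h4 := P_le h3
  simp [P] at h1 h2 h3 h4
  refine ⟨x, by simp [F], ?_, ?_, ?_, ?_, ?_⟩ <;> nlinarith [h1.1, h2.2.1, h2.2.2.1, h3.2.2.2]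

lemma C_int_disj {l k : ℤ × ℤ} (h : l ≠ k) (p q : Fin 12 × Fin t) :
    Disjoint (interior (C t l p)) (interior (C t k q)) := by
  obtain ⟨a, i⟩ := p
  obtain ⟨b, j⟩ := q
  refine disjoint_left.2 fun z hp hq => h ?_
  obtain ⟨x, rfl, x1, x2, x3, x4, x5⟩ := C_int hp
  obtain ⟨y, e, y1, y2, y3, y4, y5⟩ := C_int hq
  have H : ∀ (a : Fin 12) (x : ℝ × ℝ), x.2 < 0 → 0 < x.1 + 2 * x.2 → 2 * x.1 + x.2 < 1 →
      |2 * (m a x).1 + (m a x).2| < 1 ∧ |(m a x).1 + 2 * (m a x).2| < 1 ∧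
        |(m a x).1 - (m a x).2| < 1 := fun a x h1 h2 h3 => by
    fin_cases a <;> simp [m, M, abs_lt] <;> (repeat' apply And.intro) <;> linarith
  replace e := L6.injective e
  have e' : l + m a (τ i) = k + m b (τ j) := by
    obtain ⟨a1, a2, a3⟩ := H a x x1 x2 x3
    obtain ⟨b1, b2, b3⟩ := H b y y1 y2 y3
    generalize l + m a (τ i) = p, k + m b (τ j) = q at e
    simp only [abs_lt, c, Prod.ext_iff, Prod.fst_add, Prod.snd_add] at *
    have k : ∀ n : ℤ, (-2 : ℝ) < n → (n : ℝ) < 2 → -2 < n ∧ n < 2 := fun n h1 h2 => by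
      exact_mod_cast And.intro h1 h2
    have := k (2 * (p.1 - q.1) + (p.2 - q.2)) (by push_cast; linarith) (by push_cast; linarith)
    have := k (p.1 - q.1 + 2 * (p.2 - q.2)) (by push_cast; linarith) (by push_cast; linarith)
    have := k (p.1 - q.1 - (p.2 - q.2)) (by push_cast; linarith) (by push_cast; linarith)
    omega
  rw [e', add_right_inj] at e
  obtain rfl : a = b := by
    clear H e' hp hq
    fin_cases a <;> fin_cases b <;> simp [m, M, Prod.ext_iff] at e ⊢ <;> linarith [e.1, e.2]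
  obtain ⟨d, hd⟩ := mul3 a 0
  obtain rfl : x = y := by simpa [hd.eq, m_zero] using congrArg (m d) e
  obtain rfl : i = j := by
    have : (i : ℕ) < j + 1 := by exact_mod_cast x4.trans y5
    have : (j : ℕ) < i + 1 := by exact_mod_cast y4.trans x5
    omega
  exact add_right_cancel e'

lemma disjU {ι E : Type} [TopologicalSpace E] [Fintype ι] {A : ι → Set E} {U : Set E}
    (h : ∀ i, IsClosed (A i)) (d : ∀ i, Disjoint (interior (A i)) (interior U)) :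
    Disjoint (interior (⋃ i, A i)) (interior U) := by
  classical
  have : ∀ s : Finset ι, Disjoint (interior (⋃ i ∈ s, A i)) (interior U) := fun s => by
    induction s using Finset.induction with
    | empty => simp
    | insert a s _ ih => rw [Finset.set_biUnion_insert]; exact Tile.disj3 (h a) (d a) ih
  simpa using this Finset.univ

lemma near {l : ℤ × ℤ} {p : Fin 12 × Fin t} {z : ℂ} (h : z ∈ C t l p) :
    ‖z - (L6 (c l) + ((p.2 : ℕ) + 1 : ℝ) • L6 (m p.1 (4, 2)))‖ ≤ 1 := by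
  obtain ⟨_, ⟨x, hx, rfl⟩, rfl⟩ := h
  convert (nm p.1 x).trans_le (P_norm hx) using 2
  rw [F, ← map_smul, ← map_add, ← map_sub, L6.symm_apply_apply]
  congr 1
  ext <;> simp [m, c, τ] <;> ring

lemma C_disj (l : ℤ × ℤ) : Pairwise fun p q => Disjoint (C t l p) (C t l q) := by
  rintro ⟨a, i⟩ ⟨b, j⟩ h
  refine disjoint_left.2 fun z hp hq => h ?_
  have := (norm_sub_le _ _).trans (add_le_add (near hq) (near hp))
  have e : ∀ (a : Fin 12) (i : ℕ), ((i + 1 : ℝ) • L6 (m a (4, 2))) =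
      L6 ((2 : ℝ) • c (m a (2 * (i + 1), i + 1))) := fun a i => by
    rw [← map_smul]
    congr 1
    ext <;> simp [m, c] <;> ring
  simp only [e, sub_sub_sub_cancel_left, add_sub_add_left_eq_sub, ← map_sub] at this
  have := pow_le_pow_left₀ (norm_nonneg _) this 2
  rw [nL] at this
  have k : ∀ p q : ℤ × ℤ, 3 * (((2 : ℝ) • c p - (2 : ℝ) • c q).1 ^ 2 + ((2 : ℝ) • c p -
      (2 : ℝ) • c q).1 * ((2 : ℝ) • c p - (2 : ℝ) • c q).2 + ((2 : ℝ) • c p - (2 : ℝ) • c q).2 ^ 2)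
      ≤ (1 + 1) ^ 2 → p = q := fun p q h => by
    simp only [c, Prod.fst_sub, Prod.snd_sub, Prod.smul_fst, Prod.smul_snd, smul_eq_mul] at h
    have : 3 * ((2 * p.1 - 2 * q.1) ^ 2 + (2 * p.1 - 2 * q.1) * (2 * p.2 - 2 * q.2) +
      (2 * p.2 - 2 * q.2) ^ 2) ≤ (1 + 1) ^ 2 := by exact_mod_cast h
    have h1 : (p.1 - q.1) ^ 2 < 1 := by nlinarith [sq_nonneg (p.1 - q.1 + 2 * (p.2 - q.2))]
    have h2 : (p.2 - q.2) ^ 2 < 1 := by nlinarith [sq_nonneg (2 * (p.1 - q.1) + (p.2 - q.2))]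
    ext <;> nlinarith
  have := k _ _ this
  clear * - this
  fin_cases a <;> fin_cases b <;> simp [m, M, Prod.ext_iff] at this ⊢ <;> omega

lemma far {l : ℤ × ℤ} {p q : Fin 12 × Fin t} {x y : ℂ} (hx : x ∈ C t l p)
    (hy : y ∈ C t l q) (h : ∀ x' ∈ ⋃ p, C t l p, ∃ y' ∈ ⋃ p, C t l p, dist x x' = dist y y') :
    p.2 ≤ q.2 := by
  obtain ⟨a, ha⟩ := mul1 3 p.1
  have ht := p.2.pos
  obtain ⟨x', hx'⟩ := (C_disk l (a, (⟨t - 1, by omega⟩ : Fin t))).2.some.symm ⟨0, by simp⟩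
  obtain ⟨y', hy', e⟩ := h x' (mem_iUnion_of_mem _ hx')
  obtain ⟨r, hy'⟩ := mem_iUnion.1 hy'
  have h1 := near hx
  have h2 := near hx'
  have h3 := near hy
  have h4 := near hy'
  have R : 5 ≤ ‖L6 (4, 2)‖ := le_of_sq_le_sq (by rw [nL]; norm_num) (norm_nonneg _)
  have n : ∀ (s : ℝ) a, 0 ≤ s → ‖s • L6 (m a (4, 2))‖ = s * ‖L6 (4, 2)‖ := fun s a h => by
    rw [norm_smul, nm, Real.norm_of_nonneg h]
  have k : L6 (m a (4, 2)) = -L6 (m p.1 (4, 2)) := by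
    rw [← ha.eq, ← map_neg]; simp [m, M]
  simp only [k, Nat.cast_pred ht, sub_add_cancel] at h2
  have h5 := n (((p.2 : ℕ) + 1 : ℝ) + t) p.1 (by positivity)
  have h6 := n ((q.2 : ℕ) + 1 : ℝ) q.1 (by positivity)
  have h7 := n ((r.2 : ℕ) + 1 : ℝ) r.1 (by positivity)
  have h8 : ((r.2 : ℕ) + 1 : ℝ) ≤ t := by exact_mod_cast r.2.2
  rw [add_smul] at h5
  rw [smul_neg] at h2
  rw [dist_eq_norm, dist_eq_norm] at e
  generalize ((p.2 : ℕ) + 1 : ℝ) • L6 (m p.1 (4, 2)) = A, (t : ℝ) • L6 (m p.1 (4, 2)) = B,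
    ((q.2 : ℕ) + 1 : ℝ) • L6 (m q.1 (4, 2)) = D, ((r.2 : ℕ) + 1 : ℝ) • L6 (m r.1 (4, 2)) = E,
    L6 (c l) = o at *
  have a1 : ‖A + B‖ ≤ ‖x - x'‖ + ‖x' - (o + -B)‖ + ‖x - (o + A)‖ := by
    refine le_trans (le_of_eq ?_) ((norm_sub_le _ _).trans (add_le_add_left (norm_add_le _ _) _))
    congr 1; ring
  have a2 : ‖y - y'‖ ≤ ‖y - (o + D)‖ + ‖D‖ + ‖E‖ + ‖y' - (o + E)‖ := by
    refine le_trans (le_of_eq ?_) ((norm_sub_le _ _).trans (add_le_add_left ((norm_sub_le _ _).trans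
      (add_le_add_left (norm_add_le _ _) _)) _))
    congr 1; ring
  by_contra! hlt
  have : ((q.2 : ℕ) + 1 : ℝ) ≤ (p.2 : ℕ) := by exact_mod_cast hlt
  nlinarith

end Pool.Agent.H8.Comp
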