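import Mathlib

set_option autoImplicit false

namespace Pool.Agent.H8.Disc

open Set MeasureTheory Filter Topology Real Complex

noncomputable def e (α : ℝ) : ℂ := Complex.exp (α * I)

/-- the real inner product -/
def ip (z w : ℂ) : ℝ := z.re * w.re + z.im * w.im

@[simp] theorem e_re (α : ℝ) : (e α).re = Real.cos α := Complex.exp_ofReal_mul_I_re α
@[simp] theorem e_im (α : ℝ) : (e α).im = Real.sin α := Complex.exp_ofReal_mul_I_im α
theorem norm_e (α : ℝ) : ‖e α‖ = 1 := Complex.norm_exp_ofReal_mul_I α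
theorem cont_e : Continuous e := by unfold e; fun_prop

/-- angular measure -/
noncomputable def ν : Measure ℂ := (volume.restrict (Ioc 0 (2 * π))).map e

theorem ν_eq (a : ℝ) {U : Set ℂ} (hU : MeasurableSet U) :
    ν U = volume (e ⁻¹' U ∩ Ioc a (a + 2 * π)) := by
  have : Fact (0 < 2 * π) := ⟨by positivity⟩
  let F : AddCircle (2 * π) → ℂ := fun x => (AddCircle.toCircle x : ℂ)
  have hF : Measurable F := (continuous_subtype_val.comp AddCircle.continuous_toCircle).measurable
  have he : e = F ∘ ((↑) : ℝ → AddCircle (2 * π)) := by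
    ext x
    simp [F, e, AddCircle.toCircle_apply_mk, pi_ne_zero]
  have key : ∀ b : ℝ, (volume.restrict (Ioc b (b + 2 * π))).map e = volume.map F := by
    intro b
    rw [he, ← Measure.map_map hF AddCircle.measurable_mk',
      (AddCircle.measurePreserving_mk (2 * π) b).map_eq]
  have h0 := key 0
  rw [zero_add] at h0
  rw [ν, h0, ← key a, Measure.map_apply cont_e.measurable hU,
    Measure.restrict_apply (cont_e.measurable hU)]

theorem ν_univ : ν univ = ENNReal.ofReal (2 * π) := by
  rw [ν_eq 0 MeasurableSet.univ]; simp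

theorem ν_sphere : ν (Metric.sphere 0 1)ᶜ = 0 := by
  rw [ν_eq 0 Metric.isClosed_sphere.measurableSet.compl]
  have : e ⁻¹' (Metric.sphere 0 1)ᶜ = ∅ := by
    ext x; simp [norm_e]
  simp [this]

theorem norm_e_sub (α β : ℝ) : ‖e α - e β‖ = 2 * |Real.sin ((α - β) / 2)| := by
  have : e α - e β = e β * (Complex.exp (I * (α - β : ℝ)) - 1) := by
    simp only [e, mul_sub, mul_one, ← Complex.exp_add]
    congr 2; push_cast; ring
  rw [this, norm_mul, norm_e, one_mul, Complex.norm_exp_I_mul_ofReal_sub_one]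
  simp

theorem ν_le_hausdorff (S : Set ℂ) : ν S ≤ μH[1] S := by
  refine ENNReal.le_of_forall_lt_one_mul_le fun a ha => ?_
  lift a to NNReal using ha.ne_top
  have ha' : (a : ℝ) < 1 := by exact_mod_cast ha
  have ha0 : (0 : ℝ) ≤ a := a.2
  have key : a • ν ≤ μH[1] := by
    refine Measure.le_hausdorffMeasure 1 _ (ENNReal.ofReal ((1 - a) / 8)) (by simp; linarith)
      fun s hs => ?_
    rw [ENNReal.rpow_one, ← Metric.ediam_closure] at *
    refine (measure_mono subset_closure).trans ?_
    set T := closure s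
    rcases (e ⁻¹' T).eq_empty_or_nonempty with h | ⟨b, hb⟩
    · simp [ν_eq 0 (isClosed_closure (s := s)).measurableSet, T, show e ⁻¹' closure s = ∅ from h]
    have h1 : ∀ x ∈ e ⁻¹' T ∩ Ioc (b - π) (b - π + 2 * π), |x - b| ≤ (1 - a) / 2 := by
      rintro x ⟨h1, h2, h3⟩
      have := (Metric.edist_le_ediam_of_mem (s := T) h1 hb).trans hs
      rw [edist_dist, ENNReal.ofReal_le_ofReal_iff (by linarith), dist_eq_norm, norm_e_sub] at this
      have h4 := Real.mul_abs_le_abs_sin (x := (x - b) / 2) (by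
        rw [abs_le]; constructor <;> linarith)
      rw [abs_div, abs_two, div_mul_div_comm, div_le_iff₀ (by positivity)] at h4
      have := pi_le_four
      have := abs_nonneg (Real.sin ((x - b) / 2))
      nlinarith
    rw [Measure.smul_apply, ν_eq (b - π) (isClosed_closure (s := s)).measurableSet]
    refine (_root_.smul_le_smul_left _ (Real.volume_le_diam _)).trans ?_
    rw [ENNReal.smul_def, smul_eq_mul, mul_comm]
    rcases eq_or_ne a 0 with rfl | h0
    · simp
    rw [← ENNReal.le_div_iff_mul_le (by simp [h0]) (by simp)]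
    refine Metric.ediam_le fun x hx y hy => ?_
    rw [ENNReal.le_div_iff_mul_le (by simp [h0]) (by simp)]
    refine le_trans ?_ (Metric.edist_le_ediam_of_mem (s := T) hx.1 hy.1)
    rw [edist_dist, edist_dist, ← ENNReal.ofReal_coe_nnreal, ← ENNReal.ofReal_mul dist_nonneg]
    refine ENNReal.ofReal_le_ofReal ?_
    rw [dist_eq_norm (e x), norm_e_sub, Real.dist_eq]
    have h2 : |x - y| ≤ 1 - a := by
      have := abs_sub_le x b y
      rw [abs_sub_comm b] at this
      linarith [h1 x hx, h1 y hy]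
    have h3 : |Real.sin ((x - y) / 2)| = |Real.sin (|x - y| / 2)| := by
      rcases abs_cases (x - y) with h | h <;> rw [h.1]
      rw [neg_div, Real.sin_neg, abs_neg]
    rw [h3]
    rcases (abs_nonneg (x - y)).eq_or_lt with h | h
    · rw [← h]; simp
    · have h4 := Real.sin_gt_sub_cube (x := |x - y| / 2) (by positivity)
      have h5 := le_abs_self (Real.sin (|x - y| / 2))
      set r := |x - y|
      have : r ^ 3 ≤ r * (1 - a) := by
        have : r ^ 2 ≤ 1 - a := by nlinarith
        nlinarith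
      nlinarith
  exact key S

theorem ip_e (N : ℂ) (β : ℝ) : ip (e (arg N + β)) N = ‖N‖ * Real.cos β ∧
    ip (e (arg N + β)) (I * N) = ‖N‖ * Real.sin β := by
  have h1 : N.re = ‖N‖ * Real.cos (arg N) := (norm_mul_cos_arg N).symm
  have h2 : N.im = ‖N‖ * Real.sin (arg N) := (norm_mul_sin_arg N).symm
  have := Real.sin_sq_add_cos_sq (arg N)
  simp only [ip, e_re, e_im, Real.cos_add, Real.sin_add, mul_re, mul_im, I_re, I_im]
  generalize ‖N‖ = r at *
  rw [h1, h2]
  constructor
  · linear_combination r * Real.cos β * this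
  · linear_combination r * Real.sin β * this

theorem cont_ip (N : ℂ) : Continuous fun u => ip u N := by unfold ip; fun_prop

theorem ν_cap {N : ℂ} (hN : N ≠ 0) {x : ℝ} (h0 : 0 ≤ x) :
    ν {u | ‖N‖ * √(1 - x ^ 2) ≤ ip u N} ≤ ENNReal.ofReal (2 * arcsin x) := by
  rw [ν_eq (arg N - π) (isClosed_le continuous_const (cont_ip N)).measurableSet]
  refine (measure_mono (t := Icc (arg N - arcsin x) (arg N + arcsin x)) ?_).trans
    (by rw [Real.volume_Icc]; apply le_of_eq; congr 1; ring)
  rintro α ⟨h1, h2, h3⟩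
  have := (ip_e N (α - arg N)).1
  rw [add_sub_cancel] at this
  rw [mem_preimage, mem_ofPred_eq, this, mul_le_mul_iff_right₀ (norm_pos_iff.2 hN),
    ← Real.cos_arcsin, ← Real.cos_abs (α - _)] at h1
  have h4 : |α - arg N| ≤ arcsin x := by
    by_contra h
    push Not at h
    have := Real.cos_lt_cos_of_nonneg_of_le_pi (arcsin_nonneg.2 h0)
      (show |α - arg N| ≤ π by rw [abs_le]; constructor <;> linarith) h
    linarith
  rw [abs_le] at h4
  constructor <;> linarith

theorem arcsin_sub {x y : ℝ} (hx : -1 ≤ x) (hxy : x ≤ y) (hy : y ≤ 1) :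
    2 * arcsin ((y - x) / 2) ≤ arcsin y - arcsin x := by
  have h1 := Real.sin_sub_sin (arcsin y) (arcsin x)
  rw [Real.sin_arcsin (by linarith) hy, Real.sin_arcsin hx (by linarith)] at h1
  have m := Real.monotone_arcsin hxy
  have a1 := arcsin_le_pi_div_two y
  have a2 := neg_pi_div_two_le_arcsin x
  have h2 : 0 ≤ Real.sin ((arcsin y - arcsin x) / 2) :=
    Real.sin_nonneg_of_nonneg_of_le_pi (by linarith) (by linarith [pi_pos])
  have h3 := Real.cos_le_one ((arcsin y + arcsin x) / 2)
  have h4 := Real.monotone_arcsin (show (y - x) / 2 ≤ Real.sin ((arcsin y - arcsin x) / 2) by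
    nlinarith)
  rw [Real.arcsin_sin (by linarith [pi_pos]) (by linarith)] at h4
  linarith

theorem ν_strip {n : ℂ} (hn : n ≠ 0) {x y : ℝ} (hx : -1 ≤ x) (hxy : x ≤ y) (hy : y ≤ 1) :
    ENNReal.ofReal (2 * arcsin ((y - x) / 2)) ≤
      ν {u | ‖n‖ * x < ip u (I * n) ∧ ip u (I * n) < ‖n‖ * y ∧ 0 < ip u n} := by
  have ho : IsOpen {u | ‖n‖ * x < ip u (I * n) ∧ ip u (I * n) < ‖n‖ * y ∧ 0 < ip u n} :=
    (isOpen_lt continuous_const (cont_ip _)).inter ((isOpen_lt (cont_ip _) continuous_const).inter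
      (isOpen_lt continuous_const (cont_ip _)))
  rw [ν_eq (arg n - π) ho.measurableSet]
  refine le_trans ?_ (measure_mono (s := Ioo (arg n + arcsin x) (arg n + arcsin y)) ?_)
  · rw [Real.volume_Ioo]
    exact ENNReal.ofReal_le_ofReal (by linarith [arcsin_sub hx hxy hy])
  rintro α ⟨h1, h2⟩
  have a1 := arcsin_le_pi_div_two y
  have a2 := neg_pi_div_two_le_arcsin x
  obtain ⟨b1, b2⟩ := ip_e n (α - arg n)
  rw [add_sub_cancel] at b1 b2
  have hp := norm_pos_iff.2 hn
  refine ⟨?_, by constructor <;> linarith [pi_pos]⟩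
  rw [mem_preimage, mem_ofPred_eq, b1, b2]
  have c1 := Real.sin_lt_sin_of_lt_of_le_pi_div_two a2 (show α - arg n ≤ π / 2 by linarith)
    (by linarith)
  have c2 := Real.sin_lt_sin_of_lt_of_le_pi_div_two (show -(π / 2) ≤ α - arg n by linarith) a1
    (by linarith)
  rw [Real.sin_arcsin hx (by linarith)] at c1
  rw [Real.sin_arcsin (by linarith) hy] at c2
  have c3 := Real.cos_pos_of_mem_Ioo (x := α - arg n) ⟨by linarith, by linarith⟩
  exact ⟨by gcongr, by gcongr, by positivity⟩

theorem convex_step {t d : ℝ} (h1 : 1 ≤ t) (h2 : t < 2) (h0 : 0 ≤ d) (hd : d ≤ t) :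
    arcsin (d / 2) ≤ 6 / π * arcsin (t / 2) * arcsin (d / (2 * t)) := by
  have hs : ∀ x ∈ Icc 0 (π / 6), 0 ≤ Real.sin x ∧ Real.sin x ≤ 1 / 2 := by
    intro x hx
    refine ⟨Real.sin_nonneg_of_nonneg_of_le_pi hx.1 (by linarith [hx.2, pi_pos]), ?_⟩
    rw [← Real.sin_pi_div_six]
    exact Real.sin_le_sin_of_le_of_le_pi_div_two (by linarith [hx.1, pi_pos])
      (by linarith [pi_pos]) hx.2
  have hder : ∀ x ∈ Icc 0 (π / 6), HasDerivAt (fun x => arcsin (t * Real.sin x))
      (1 / √(1 - (t * Real.sin x) ^ 2) * (t * Real.cos x)) x := by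
    intro x hx
    obtain ⟨a, b⟩ := hs x hx
    exact (Real.hasDerivAt_arcsin (by nlinarith) (by nlinarith)).comp x
      ((Real.hasDerivAt_sin x).const_mul t)
  have hc : ConvexOn ℝ (Icc 0 (π / 6)) fun x => arcsin (t * Real.sin x) := by
    refine MonotoneOn.convexOn_of_deriv (convex_Icc _ _) (by fun_prop)
      (fun x hx => (hder x (interior_subset hx)).differentiableAt.differentiableWithinAt) ?_
    intro x hx y hy hxy
    have hx := interior_subset hx
    have hy := interior_subset hy
    rw [(hder x hx).deriv, (hder y hy).deriv]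
    obtain ⟨a, b⟩ := hs x hx
    obtain ⟨a', b'⟩ := hs y hy
    have m := Real.sin_le_sin_of_le_of_le_pi_div_two (by linarith [hx.1, pi_pos])
      (show y ≤ π / 2 by linarith [hy.2, pi_pos]) hxy
    have p0 : ∀ s : ℝ, 0 ≤ s → s ≤ 1 / 2 → 0 < 1 - (t * s) ^ 2 := fun s s0 s1 => by
      have : t * s < 1 := by nlinarith
      have : 0 ≤ t * s := by positivity
      nlinarith
    have p1 := p0 _ a b
    have p2 := p0 _ a' b'
    have c1 := Real.cos_nonneg_of_mem_Icc (x := x) ⟨by linarith [hx.1, pi_pos],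
      by linarith [hx.2, pi_pos]⟩
    have c2 := Real.cos_nonneg_of_mem_Icc (x := y) ⟨by linarith [hy.1, pi_pos],
      by linarith [hy.2, pi_pos]⟩
    refine (pow_le_pow_iff_left₀ (by positivity) (by positivity) two_ne_zero).1 ?_
    rw [mul_pow, mul_pow (1 / _), div_pow, div_pow, Real.sq_sqrt p1.le, Real.sq_sqrt p2.le,
      mul_pow t (Real.cos x), mul_pow t (Real.cos y), Real.cos_sq', Real.cos_sq', one_pow, one_div_mul_eq_div, one_div_mul_eq_div,
      div_le_div_iff₀ p1 p2]
    have q1 : Real.sin x ^ 2 ≤ Real.sin y ^ 2 := by gcongr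
    have q2 : 0 ≤ t ^ 2 * ((t ^ 2 - 1) * (Real.sin y ^ 2 - Real.sin x ^ 2)) :=
      mul_nonneg (by positivity) (mul_nonneg (by nlinarith) (by linarith))
    nlinarith
  set x := arcsin (d / (2 * t)) with hx
  have ht : 0 < t := by linarith
  have e1 : d / (2 * t) ≤ 1 / 2 := by rw [div_le_div_iff₀ (by positivity) (by positivity)]; linarith
  have x0 : 0 ≤ x := arcsin_nonneg.2 (by positivity)
  have x1 : x ≤ π / 6 := by
    have := Real.monotone_arcsin e1
    rwa [← Real.sin_pi_div_six, Real.arcsin_sin (by linarith [pi_pos]) (by linarith [pi_pos])] at this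
  have hp := pi_pos
  have := hc.2 (left_mem_Icc.2 (by positivity)) (right_mem_Icc.2 (by positivity))
    (show 0 ≤ 1 - 6 / π * x by rw [sub_nonneg, div_mul_eq_mul_div, div_le_one hp]; linarith)
    (show 0 ≤ 6 / π * x by positivity) (by ring)
  simp only [smul_eq_mul, mul_zero, zero_add, Real.sin_zero, arcsin_zero, Real.sin_pi_div_six] at this
  rw [show 6 / π * x * (π / 6) = x by field_simp, hx, Real.sin_arcsin (by
    have : 0 ≤ d / (2 * t) := by positivity
    linarith) (by linarith), show t * (d / (2 * t)) = d / 2 by field_simp,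
    show t * (1 / 2) = t / 2 by ring] at this
  linarith

end Pool.Agent.H8.Disc
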