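import Pool.Agent.H8.DiscSum

set_option autoImplicit false

namespace Pool.Agent.H8.Disc

open Set MeasureTheory Filter Topology Real Complex

theorem coords (c : ℂ) {D : ℂ} (hD : D ≠ 0) (z : ℂ) : ∃ u v : ℝ, z = c + u * D + v * (I * D) := by
  refine ⟨((z - c) / D).re, ((z - c) / D).im, ?_⟩
  have := Complex.re_add_im ((z - c) / D)
  have h2 := div_mul_cancel₀ (z - c) hD
  linear_combination (-D) * this - h2

theorem nsq {z D : ℂ} (a b : ℝ) (h : z = a * D + b * (I * D)) :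
    ‖z‖ ^ 2 = (a ^ 2 + b ^ 2) * ‖D‖ ^ 2 := by
  rw [h, ← ip_self, ← ip_self]; simp [ip]; ring

theorem le1 {z : ℂ} : ‖z‖ ≤ 1 ↔ ‖z‖ ^ 2 ≤ 1 := (pow_le_one_iff_of_nonneg (norm_nonneg _)
  two_ne_zero).symm

theorem spindle {c c' x w y : ℂ} (h1 : ‖x - c‖ = 1) (h2 : ‖x - c'‖ = 1)
    (h3 : 0 < ip (x - c) (I * (c' - c))) (h4 : ‖x - w‖ ≤ 1) (h5 : ip (w - c) (I * (c' - c)) ≤ 0)
    (h6 : ‖y - c‖ ≤ 1) (h7 : ‖y - c'‖ ≤ 1) : ‖y - w‖ ≤ 1 := by
  obtain ⟨D, rfl⟩ : ∃ D, c' = c + D := ⟨c' - c, by ring⟩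
  rw [add_sub_cancel_left] at h3 h5
  have hD : D ≠ 0 := by rintro rfl; simp [ip] at h3
  obtain ⟨a, b, rfl⟩ := coords c hD x
  obtain ⟨u, v, rfl⟩ := coords c hD w
  obtain ⟨p, q, rfl⟩ := coords c hD y
  have hρ : 0 < ‖D‖ ^ 2 := by positivity
  have e1 := congrArg (· ^ 2) h1
  have e2 := congrArg (· ^ 2) h2
  rw [le1] at h4 h6 h7 ⊢
  simp only [one_pow] at e1 e2
  rw [nsq (D := D) a b (by ring)] at e1
  rw [nsq (D := D) (a - 1) b (by push_cast; ring)] at e2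
  rw [nsq (D := D) (a - u) (b - v) (by push_cast; ring)] at h4
  rw [nsq (D := D) p q (by ring)] at h6
  rw [nsq (D := D) (p - 1) q (by push_cast; ring)] at h7
  rw [nsq (D := D) (p - u) (q - v) (by push_cast; ring)]
  have e3 : ∀ s r : ℝ, ip (c + s * D + r * (I * D) - c) (I * D) = r * ‖D‖ ^ 2 := fun s r => by
    rw [← ip_self]; simp [ip]; ring
  rw [e3] at h3 h5
  have b0 : 0 < b := by nlinarith
  have v0 : v ≤ 0 := by nlinarith
  have ha : a = 1 / 2 := by nlinarith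
  subst ha
  replace h4 := le_of_mul_le_mul_right (h4.trans e1.ge) hρ
  replace h6 := le_of_mul_le_mul_right (h6.trans e1.ge) hρ
  replace h7 := le_of_mul_le_mul_right (h7.trans e1.ge) hρ
  refine (mul_le_mul_of_nonneg_right ?_ hρ.le).trans e1.le
  clear h1 h2 h3 h5 e1 e2 e3
  have k1 : q ≤ b := (abs_le_of_sq_le_sq' (by nlinarith [sq_nonneg (p - 1 / 2)]) b0.le).2
  have k2 : 0 ≤ u := by nlinarith
  have k3 : u ≤ 1 := by nlinarith
  nlinarith [mul_nonneg (sub_nonneg.2 k1) (neg_nonneg.2 v0), mul_nonneg k2 (sub_nonneg.2 h7),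
    mul_nonneg (sub_nonneg.2 k3) (sub_nonneg.2 h6)]

theorem circ_finite {c c' : ℂ} (h : c ≠ c') : {y : ℂ | ‖y - c‖ = 1 ∧ ‖y - c'‖ = 1}.Finite := by
  obtain ⟨D, rfl⟩ : ∃ D, c' = c + D := ⟨c' - c, by ring⟩
  have hD : D ≠ 0 := by rintro rfl; simp at h
  have hρ : 0 < ‖D‖ ^ 2 := by positivity
  refine ((toFinite {√(1 / ‖D‖ ^ 2 - 1 / 4), -√(1 / ‖D‖ ^ 2 - 1 / 4)}).image
    fun r : ℝ => c + (1 / 2 : ℝ) * D + r * (I * D)).subset ?_
  rintro y ⟨h1, h2⟩
  obtain ⟨a, b, rfl⟩ := coords c hD y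
  have e1 := congrArg (· ^ 2) h1
  have e2 := congrArg (· ^ 2) h2
  simp only [one_pow] at e1 e2
  rw [nsq (D := D) a b (by ring)] at e1
  rw [nsq (D := D) (a - 1) b (by push_cast; ring)] at e2
  have ha : a = 1 / 2 := by nlinarith
  subst ha
  refine ⟨b, ?_, rfl⟩
  rw [show 1 / ‖D‖ ^ 2 - 1 / 4 = b ^ 2 by field_simp; linarith, Real.sqrt_sq_eq_abs]
  rcases abs_cases b with h | h <;> simp [h.1]

theorem jung3 {a b c : ℂ} (h1 : ‖c - a‖ ≤ ‖b - a‖) (h2 : ‖c - b‖ ≤ ‖b - a‖)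
    (h3 : ‖b - a‖ ^ 2 ≤ 3) : ∃ o, ‖o - a‖ ≤ 1 ∧ ‖o - b‖ ≤ 1 ∧ ‖o - c‖ ≤ 1 := by
  obtain ⟨D, rfl⟩ : ∃ D, b = a + D := ⟨b - a, by ring⟩
  rw [add_sub_cancel_left] at h1 h2 h3
  rcases eq_or_ne D 0 with rfl | hD
  · have : c = a := by simpa [sub_eq_zero] using h1
    exact ⟨a, by simp, by simp, by simp [this]⟩
  obtain ⟨u, v, rfl⟩ := coords a hD c
  have hρ : 0 < ‖D‖ ^ 2 := by positivity
  have e1 := pow_le_pow_left₀ (norm_nonneg _) h1 2
  have e2 := pow_le_pow_left₀ (norm_nonneg _) h2 2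
  rw [nsq (D := D) u v (by ring)] at e1
  rw [nsq (D := D) (u - 1) v (by push_cast; ring)] at e2
  have f1 : u ^ 2 + v ^ 2 ≤ 1 := by nlinarith
  have f2 : (u - 1) ^ 2 + v ^ 2 ≤ 1 := by nlinarith
  obtain ⟨k, hk, hv⟩ : ∃ k : ℝ, k ^ 2 = 1 / 12 ∧ 0 ≤ k * v := by
    have : √(1 / 12 : ℝ) ^ 2 = 1 / 12 := Real.sq_sqrt (by norm_num)
    rcases le_total 0 v with h | h
    · exact ⟨_, this, by positivity⟩
    · exact ⟨-_, by rw [neg_sq, this], by nlinarith [Real.sqrt_nonneg (1 / 12)]⟩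
  refine ⟨a + (1 / 2 : ℝ) * D + k * (I * D), ?_, ?_, ?_⟩ <;> rw [le1]
  · rw [nsq (D := D) (1 / 2) k (by ring)]; nlinarith
  · rw [nsq (D := D) (-1 / 2) k (by push_cast; ring)]; nlinarith
  · rw [nsq (D := D) (1 / 2 - u) (k - v) (by push_cast; ring)]
    have : (1 / 2 - u) ^ 2 + (k - v) ^ 2 ≤ 1 / 3 := by
      by_contra hn
      push Not at hn
      have hv2 : v ^ 2 = 12 * (k * v) ^ 2 := by rw [mul_pow, hk]; ring
      set z := k * v
      have g : 2 * z + 1 / 4 < (1 / 2 - u) ^ 2 + 12 * z ^ 2 := by nlinarith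
      have g1 : u - 1 / 2 < 1 / 2 - 2 * z := by nlinarith
      have g2 : 1 / 2 - u < 1 / 2 - 2 * z := by nlinarith
      have g3 : (1 / 2 - u) ^ 2 < (1 / 2 - 2 * z) ^ 2 := by nlinarith
      nlinarith
    nlinarith

def DD (C : Finset ℂ) : Set ℂ := ⋂ c ∈ C, Metric.closedBall c 1

theorem mem_DD {C : Finset ℂ} {x : ℂ} : x ∈ DD C ↔ ∀ c ∈ C, ‖x - c‖ ≤ 1 := by
  simp [DD, dist_eq_norm]

theorem DD_closed (C : Finset ℂ) : IsClosed (DD C) :=
  isClosed_biInter fun _ _ => Metric.isClosed_closedBall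

theorem jung (C : Finset ℂ) (hC : ∀ p ∈ C, ∀ q ∈ C, ‖p - q‖ ^ 2 ≤ 3) : (DD C).Nonempty := by
  have key : ∀ a ∈ C, ∀ b ∈ C, ∀ c ∈ C, ∃ o, ‖o - a‖ ≤ 1 ∧ ‖o - b‖ ≤ 1 ∧ ‖o - c‖ ≤ 1 := by
    intro a ha b hb c hc
    have r1 := norm_sub_rev a b
    have r2 := norm_sub_rev a c
    have r3 := norm_sub_rev b c
    by_cases h : ‖c - a‖ ≤ ‖b - a‖ ∧ ‖c - b‖ ≤ ‖b - a‖
    · exact jung3 h.1 h.2 (hC _ hb _ ha)
    rcases le_total ‖c - a‖ ‖c - b‖ with h2 | h2
    · have : ‖b - a‖ ≤ ‖c - b‖ := by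
        by_contra hh; exact h ⟨by linarith, by linarith⟩
      obtain ⟨o, h1, h2, h3⟩ := jung3 (a := b) (b := c) (c := a) (by linarith) (by linarith)
        (hC _ hc _ hb)
      exact ⟨o, h3, h1, h2⟩
    · have : ‖b - a‖ ≤ ‖c - a‖ := by
        by_contra hh; exact h ⟨by linarith, by linarith⟩
      obtain ⟨o, h1, h2, h3⟩ := jung3 (a := a) (b := c) (c := b) (by linarith) (by linarith)
        (hC _ hc _ ha)
      exact ⟨o, h1, h3, h2⟩
  refine Convex.helly_theorem' (𝕜 := ℝ) (fun _ _ => convex_closedBall _ _) fun I hI hc => ?_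
  rw [Complex.finrank_real_complex] at hc
  change (DD I).Nonempty
  obtain h | h | h | h : I.card = 0 ∨ I.card = 1 ∨ I.card = 2 ∨ I.card = 3 := by omega
  · rw [Finset.card_eq_zero.1 h]; simp [DD]
  · obtain ⟨a, rfl⟩ := Finset.card_eq_one.1 h
    exact ⟨a, by simp [mem_DD]⟩
  · obtain ⟨a, b, -, rfl⟩ := Finset.card_eq_two.1 h
    obtain ⟨o, h⟩ := key a (hI (by simp)) b (hI (by simp)) b (hI (by simp))
    exact ⟨o, by simp [mem_DD, h]⟩
  · obtain ⟨a, b, c, -, -, -, rfl⟩ := Finset.card_eq_three.1 h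
    obtain ⟨o, h⟩ := key a (hI (by simp)) b (hI (by simp)) c (hI (by simp))
    exact ⟨o, by simp [mem_DD, h]⟩

theorem kkt (C : Finset ℂ) (hC : ∀ p ∈ C, ∀ q ∈ C, ‖p - q‖ ^ 2 ≤ 3) (h0 : C.Nonempty) {u : ℂ}
    (hu : ‖u‖ = 1) (h : ∀ c ∈ C, c + u ∉ DD C) : ∃ c ∈ C, ∃ c' ∈ C, (∃ x ∈ DD C, ‖x - c‖ = 1 ∧
      ‖x - c'‖ = 1 ∧ 0 < ip (x - c) (I * (c' - c))) ∧
      ‖I * (c' - c)‖ * √(1 - (‖c' - c‖ / 2) ^ 2) ≤ ip u (I * (c' - c)) := by
  classical
  obtain ⟨c0, hc0⟩ := h0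
  have hK : IsCompact (DD C) := (isCompact_closedBall c0 1).of_isClosed_subset (DD_closed C)
    (biInter_subset_of_mem (s := (C : Set ℂ)) (t := fun c => Metric.closedBall c 1) hc0)
  obtain ⟨x, hx, hmax⟩ := hK.exists_isMaxOn (jung C hC) (cont_ip u).continuousOn
  have hu0 : u ≠ 0 := by rintro rfl; simp at hu
  have hu2 : u.re * u.re + u.im * u.im = 1 := by
    have := ip_self u
    rw [hu] at this; simpa [ip] using this
  choose b a hab using fun c => coords 0 hu0 (x - c)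
  simp only [zero_add] at hab
  have hn : ∀ c, ‖x - c‖ ^ 2 = b c ^ 2 + a c ^ 2 := fun c => by
    rw [nsq _ _ (hab c), hu]; ring
  let A := C.filter fun c => ‖x - c‖ = 1
  have hA : ∀ c ∈ A, c ∈ C ∧ b c ^ 2 + a c ^ 2 = 1 := fun c hc => by
    obtain ⟨h1, h2⟩ := Finset.mem_filter.1 hc
    exact ⟨h1, by rw [← hn, h2]; norm_num⟩
  by_contra hcon
  have H : ∀ p ∈ (A.filter fun c => a c < 0).image fun c => -b c / a c,
      ∀ q ∈ (A.filter fun c => 0 < a c).image fun c => -b c / a c, p < q := by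
    intro p hp q hq
    obtain ⟨c, hc, rfl⟩ := Finset.mem_image.1 hp
    obtain ⟨c', hc', rfl⟩ := Finset.mem_image.1 hq
    obtain ⟨hc, a1⟩ := Finset.mem_filter.1 hc
    obtain ⟨hc', a2⟩ := Finset.mem_filter.1 hc'
    obtain ⟨m1, n1⟩ := hA c hc
    obtain ⟨m2, n2⟩ := hA c' hc'
    by_contra hh
    rw [not_lt, div_le_iff₀ a2, div_mul_eq_mul_div, le_div_iff_of_neg a1] at hh
    have e : c' - c = (b c - b c' : ℝ) * u + (a c - a c' : ℝ) * (I * u) := by
      push_cast; linear_combination hab c - hab c'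
    have e1 := nsq _ _ e
    rw [hu, one_pow, mul_one] at e1
    have e2 := hC _ m2 _ m1
    have lag : (b c * a c' - a c * b c') ^ 2 + (a c * a c' + b c * b c') ^ 2 = 1 := by
      linear_combination (b c' ^ 2 + a c' ^ 2) * n1 + n2
    have e3 : ‖c' - c‖ ^ 2 = 2 - 2 * (a c * a c' + b c * b c') := by linarith
    have hΔ : 0 < b c * a c' - a c * b c' := by
      refine lt_of_le_of_ne (by linarith) fun h0 => ?_
      rw [← h0] at lag
      have g : a c * (a c * a c' + b c * b c') = a c' := by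
        linear_combination a c' * n1 + b c * h0
      nlinarith
    refine hcon ⟨c, m1, c', m2, ⟨x, hx, (Finset.mem_filter.1 hc).2, (Finset.mem_filter.1 hc').2,
      ?_⟩, ?_⟩
    · rw [e, hab c]
      refine hΔ.trans_eq ?_
      simp [ip]
      linear_combination (-(b c * a c' - a c * b c')) * hu2
    · have g : ip u (I * (c' - c)) = a c' - a c := by
        rw [e]; simp [ip]
        linear_combination (a c' - a c) * hu2
      rw [g, norm_mul, norm_I, one_mul]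
      refine abs_le_of_sq_le_sq' ?_ (by linarith) |>.2
      rw [mul_pow, Real.sq_sqrt (by nlinarith), div_pow, e3]
      have b1 : b c ≤ 1 := by nlinarith
      have b2 : b c' ≤ 1 := by nlinarith
      have : b c * a c' - a c * b c' ≤ a c' - a c := by nlinarith
      nlinarith
  obtain ⟨s, s1, s2⟩ := Finset.exists_between' _ _ H
  have neg : ∀ c ∈ A, b c + s * a c < 0 := by
    intro c hc
    obtain ⟨m1, n1⟩ := hA c hc
    rcases lt_trichotomy (a c) 0 with h1 | h1 | h1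
    · have := s1 _ (Finset.mem_image_of_mem _ (Finset.mem_filter.2 ⟨hc, h1⟩))
      rw [div_lt_iff_of_neg h1] at this; linarith
    · rw [h1] at n1 ⊢
      have h2 : b c ≠ 1 := fun h2 => h c m1 (by
        have := hab c
        rw [h1, h2] at this
        rwa [show c + u = x by push_cast at this; linear_combination -this])
      have : (b c - 1) * (b c + 1) = 0 := by linarith
      have := (mul_eq_zero.1 this).resolve_left (sub_ne_zero.2 h2)
      linarith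
    · have := s2 _ (Finset.mem_image_of_mem _ (Finset.mem_filter.2 ⟨hc, h1⟩))
      rw [lt_div_iff₀ h1] at this; linarith
  have ev : ∀ᶠ ε in 𝓝[>] (0 : ℝ), ∀ c ∈ C, (b c + ε) ^ 2 + (a c + ε * s) ^ 2 ≤ 1 := by
    rw [eventually_all_finset]
    intro c hc
    by_cases hcA : c ∈ A
    · have t1 : Tendsto (fun ε : ℝ => 2 * (b c + s * a c) + ε * (1 + s ^ 2)) (𝓝 0)
          (𝓝 (2 * (b c + s * a c) + 0 * (1 + s ^ 2))) := Continuous.tendsto (by fun_prop) 0
      have := (t1.eventually_lt_const (u := 0) (by linarith [neg c hcA])).filter_mono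
        (nhdsWithin_le_nhds (s := Ioi 0))
      filter_upwards [this, self_mem_nhdsWithin] with ε h1 h2
      have := (hA c hcA).2
      have h2 : 0 < ε := h2
      nlinarith
    · have t1 : Tendsto (fun ε : ℝ => (b c + ε) ^ 2 + (a c + ε * s) ^ 2) (𝓝 0)
          (𝓝 ((b c + 0) ^ 2 + (a c + 0 * s) ^ 2)) := Continuous.tendsto (by fun_prop) 0
      have h1 : ‖x - c‖ < 1 := lt_of_le_of_ne (mem_DD.1 hx c hc) fun e =>
        hcA (Finset.mem_filter.2 ⟨hc, e⟩)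
      have h2 : ‖x - c‖ ^ 2 < 1 := by nlinarith [norm_nonneg (x - c)]
      exact ((t1.eventually_lt_const (u := 1) (by rw [hn] at h2; simpa using h2)).filter_mono
        nhdsWithin_le_nhds).mono fun _ h => h.le
  obtain ⟨ε, h1, h2⟩ := (ev.and self_mem_nhdsWithin).exists
  have h2 : 0 < ε := h2
  have h3 := hmax (mem_DD.2 fun c hc => show ‖x + ε * u + (ε * s : ℝ) * (I * u) - c‖ ≤ 1 by
    rw [le1, nsq (D := u) (b c + ε) (a c + ε * s) (by push_cast; linear_combination hab c), hu]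
    simpa using h1 c hc)
  simp [ip] at h3
  nlinarith

theorem main {t : ℝ} (h1 : 1 ≤ t) (h3 : t < √3) (C : Finset ℂ) (h0 : C.Nonempty)
    (hC : ∀ p ∈ C, ∀ q ∈ C, ‖p - q‖ ≤ t) :
    ENNReal.ofReal (2 * π - 6 * arcsin (t / 2)) ≤ μH[1] (frontier (DD C)) := by
  classical
  induction C using Finset.strongInduction with
  | H C ih =>
  by_cases hr : ∃ w ∈ C, (C.erase w).Nonempty ∧ DD (C.erase w) = DD C
  · obtain ⟨w, a, b, c⟩ := hr
    rw [← c]
    exact ih _ (Finset.erase_ssubset a) b fun p hp q hq =>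
      hC p (Finset.mem_of_mem_erase hp) q (Finset.mem_of_mem_erase hq)
  have ht3 : t ^ 2 < 3 := (Real.lt_sqrt (by linarith)).1 h3
  have hC3 : ∀ p ∈ C, ∀ q ∈ C, ‖p - q‖ ^ 2 ≤ 3 := fun p hp q hq =>
    (pow_le_pow_left₀ (norm_nonneg _) (hC p hp q hq) 2).trans ht3.le
  let J := (C ×ˢ C).filter fun j => ∃ x ∈ DD C, ‖x - j.1‖ = 1 ∧
      ‖x - j.2‖ = 1 ∧ 0 < ip (x - j.1) (I * (j.2 - j.1))
  have hJ : ∀ j ∈ J, j.1 ∈ C ∧ j.2 ∈ C ∧ j.1 ≠ j.2 ∧
      ∀ p ∈ C, p ≠ j.1 → p ≠ j.2 → 0 < ip (p - j.1) (I * (j.2 - j.1)) := by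
    intro j hj
    obtain ⟨a, x, hx, b1, b2, b3⟩ := Finset.mem_filter.1 hj
    obtain ⟨a1, a2⟩ := Finset.mem_product.1 a
    refine ⟨a1, a2, fun e => by simp [e, ip] at b3, fun p hp c1 c2 => ?_⟩
    by_contra hn
    have m1 := Finset.mem_erase.2 ⟨c1.symm, a1⟩
    have m2 := Finset.mem_erase.2 ⟨c2.symm, a2⟩
    refine hr ⟨p, hp, ⟨_, m1⟩, Subset.antisymm (fun y hy => mem_DD.2 fun c hc => ?_)
      fun y hy => mem_DD.2 fun c hc => mem_DD.1 hy c (Finset.mem_of_mem_erase hc)⟩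
    by_cases e : c = p
    · rw [e]
      exact spindle b1 b2 b3 (mem_DD.1 hx p hp) (not_lt.1 hn) (mem_DD.1 hy _ m1) (mem_DD.1 hy _ m2)
    · exact mem_DD.1 hy c (Finset.mem_erase.2 ⟨e, hc⟩)
  have s1 := sum_theta C (by linarith) hC J hJ
  have hp := pi_pos
  have hat : 0 ≤ arcsin (t / 2) := arcsin_nonneg.2 (by linarith)
  have s2 : ∑ j ∈ J, 2 * arcsin (‖j.2 - j.1‖ / 2) ≤ 6 * arcsin (t / 2) := by
    rw [← Finset.mul_sum]
    have := Finset.sum_le_sum fun j (hj : j ∈ J) => convex_step h1 (by nlinarith)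
      (norm_nonneg (j.2 - j.1)) (hC _ (hJ j hj).2.1 _ (hJ j hj).1)
    rw [← Finset.mul_sum] at this
    have h2 := mul_le_mul_of_nonneg_left s1 (show 0 ≤ 6 / π * arcsin (t / 2) by positivity)
    rw [show 6 / π * arcsin (t / 2) * (π / 2) = 3 * arcsin (t / 2) by field_simp; ring] at h2
    linarith
  let S : ℂ → Set ℂ := fun c => DD C ∩ Metric.sphere c 1
  let G : ℂ × ℂ → Set ℂ := fun j =>
    {u | ‖I * (j.2 - j.1)‖ * √(1 - (‖j.2 - j.1‖ / 2) ^ 2) ≤ ip u (I * (j.2 - j.1))}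
  have cov : univ ⊆ ((⋃ c ∈ C, IsometryEquiv.addLeft c ⁻¹' S c) ∪ ⋃ j ∈ J, G j) ∪
      (Metric.sphere 0 1)ᶜ := by
    intro u _
    by_cases hu : u ∈ Metric.sphere (0 : ℂ) 1
    · left
      have hu : ‖u‖ = 1 := by simpa using hu
      by_cases h : ∃ c ∈ C, c + u ∈ DD C
      · obtain ⟨c, a, b⟩ := h
        exact Or.inl (mem_biUnion a ⟨b, by simpa using hu⟩)
      · push Not at h
        obtain ⟨c, a, c', b, d, e⟩ := kkt C hC3 h0 hu h
        exact Or.inr (mem_biUnion (x := (c, c')) (Finset.mem_filter.2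
          ⟨Finset.mem_product.2 ⟨a, b⟩, d⟩) e)
    · exact Or.inr hu
  have m1 : ν (⋃ c ∈ C, IsometryEquiv.addLeft c ⁻¹' S c) ≤ μH[1] (frontier (DD C)) := by
    refine (measure_biUnion_finset_le _ _).trans ((Finset.sum_le_sum fun c _ =>
      (ν_le_hausdorff _).trans_eq (IsometryEquiv.hausdorffMeasure_preimage _ _ _)).trans ?_)
    have := Measure.nullSingletonClass_hausdorff ℂ (d := 1) one_pos
    rw [← measure_biUnion_finset₀ (fun c _ c' _ hne => ?_) fun c _ =>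
      ((DD_closed C).inter Metric.isClosed_sphere).measurableSet.nullMeasurableSet]
    · refine measure_mono (iUnion₂_subset fun c hc y hy => ?_)
      rw [(DD_closed C).frontier_eq]
      refine ⟨hy.1, fun h => ?_⟩
      have := interior_mono (biInter_subset_of_mem (s := (C : Set ℂ))
        (t := fun c => Metric.closedBall c 1) hc) h
      rw [interior_closedBall _ one_ne_zero, Metric.mem_ball, hy.2] at this
      exact lt_irrefl _ this
    · refine ((circ_finite hne).subset ?_).measure_zero _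
      rintro y ⟨a, b⟩
      exact ⟨by simpa [dist_eq_norm] using a.2, by simpa [dist_eq_norm] using b.2⟩
  have m2 : ν (⋃ j ∈ J, G j) ≤ ENNReal.ofReal (6 * arcsin (t / 2)) := by
    refine (measure_biUnion_finset_le _ _).trans ((Finset.sum_le_sum fun j hj => ν_cap
      (mul_ne_zero I_ne_zero (sub_ne_zero.2 (hJ j hj).2.2.1.symm)) (by positivity)).trans ?_)
    rw [← ENNReal.ofReal_sum_of_nonneg fun j _ => mul_nonneg zero_le_two
      (arcsin_nonneg.2 (by positivity))]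
    exact ENNReal.ofReal_le_ofReal s2
  have m3 := (measure_mono (μ := ν) cov).trans ((measure_union_le _ _).trans
    (add_le_add_left (measure_union_le _ _) _))
  rw [ν_univ, ν_sphere, add_zero] at m3
  rw [ENNReal.ofReal_sub _ (by positivity), tsub_le_iff_right]
  exact m3.trans (add_le_add m1 m2)

theorem final : ∀ t : ℝ, 1 ≤ t → t < √3 →
      ∀ C : Finset (EuclideanSpace ℝ (Fin 2)), C.Nonempty →
        (∀ x ∈ C, ∀ y ∈ C, dist x y ≤ t) →
          ENNReal.ofReal (2 * π - 6 * arcsin (t / 2)) ≤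
            μH[1] (frontier (⋂ c ∈ C, Metric.closedBall c (1 : ℝ))) := by
  classical
  intro t h1 h3 C h0 hC
  let f := Complex.orthonormalBasisOneI.repr.toIsometryEquiv
  have := main h1 h3 (C.image f.symm) (h0.image _) (by
    simp only [Finset.forall_mem_image]
    intro p hp q hq
    rw [← dist_eq_norm, f.symm.dist_eq]
    exact hC p hp q hq)
  rw [← f.hausdorffMeasure_preimage]
  refine this.trans_eq ?_
  congr 1
  rw [← f.coe_toHomeomorph, f.toHomeomorph.preimage_frontier]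
  congr 1
  simp [DD, preimage_iInter]

end Pool.Agent.H8.Disc
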