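import Pool.Agent.H8.DiscArc

set_option autoImplicit false

namespace Pool.Agent.H8.Disc

open Set MeasureTheory Filter Topology Real Complex

theorem ip_self (z : ℂ) : ip z z = ‖z‖ ^ 2 := by rw [Complex.sq_norm, normSq_apply]; rfl

theorem ip_add (a b c : ℂ) : ip (a + b) c = ip a c + ip b c := by simp [ip]; ring
theorem ip_sub (a b c : ℂ) : ip (a - b) c = ip a c - ip b c := by simp [ip]; ring
theorem ip_mul (r : ℝ) (a c : ℂ) : ip (r * a) c = r * ip a c := by simp [ip]; ring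
theorem ip_comm (a c : ℂ) : ip a c = ip c a := by simp [ip]; ring

theorem ip_abs (a b : ℂ) : |ip a b| ≤ ‖a‖ * ‖b‖ := by
  refine abs_le_of_sq_le_sq' ?_ (by positivity) |> abs_le.2
  rw [mul_pow, ← ip_self, ← ip_self]
  simp only [ip]
  nlinarith [sq_nonneg (a.re * b.im - a.im * b.re)]

theorem ip_zero {z : ℂ} (h : ip z z ≤ 0) : z = 0 := by
  rw [ip_self] at h
  exact norm_eq_zero.1 (pow_eq_zero_iff two_ne_zero |>.1 (le_antisymm h (by positivity)))

theorem rep {t : ℝ} (ht : 0 < t) {a D v : ℂ} (hD : D ≠ 0) (h1 : ‖a‖ ≤ t) (h2 : ‖a + D‖ ≤ t)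
    (hv : ‖v‖ = 1) (g1 : ip a D < t * ip v D) (g2 : t * ip v D < ip (a + D) D)
    (g3 : 0 < ip v (-I * D)) : ∃ s r : ℝ, 0 < s ∧ s < 1 ∧ 0 < r ∧
      t * v = a + s * D + r * (-I * D) := by
  have hp : 0 < ip D D := by rw [ip_self]; positivity
  have e1 : ip a a ≤ t ^ 2 := by rw [ip_self]; gcongr
  have e2 : ip (a + D) (a + D) ≤ t ^ 2 := by rw [ip_self]; gcongr
  have e3 : ip v v = 1 := by rw [ip_self, hv]; norm_num
  rw [ip_add] at g2
  obtain ⟨s, hs⟩ : ∃ s : ℝ, s * ip D D = t * ip v D - ip a D :=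
    ⟨_, div_mul_cancel₀ _ hp.ne'⟩
  obtain ⟨r, hr⟩ : ∃ r : ℝ, r * ip D D = t * ip v (-I * D) - ip a (-I * D) :=
    ⟨_, div_mul_cancel₀ _ hp.ne'⟩
  have s0 : 0 < s := by nlinarith
  have s1 : s < 1 := by nlinarith
  refine ⟨s, r, s0, s1, ?_, ?_⟩
  · have k1 : ip D D * ip (a + s * D) (a + s * D) = (t * ip v D) ^ 2 + ip a (-I * D) ^ 2 := by
      have : t * ip v D = ip a D + s * ip D D := by linarith
      rw [this]; simp [ip]; ring
    have k2 : ip D D * ip v v = ip v D ^ 2 + ip v (-I * D) ^ 2 := by simp [ip]; ring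
    have k3 : ip (a + s * D) (a + s * D) =
        (1 - s) * ip a a + s * ip (a + D) (a + D) - s * (1 - s) * ip D D := by simp [ip]; ring
    have k4 : ip (a + s * D) (a + s * D) < t ^ 2 := by
      have := mul_pos (mul_pos s0 (sub_pos.2 s1)) hp
      nlinarith
    have k5 : ip a (-I * D) ^ 2 < (t * ip v (-I * D)) ^ 2 := by
      have := mul_lt_mul_of_pos_left k4 hp
      rw [e3, mul_one] at k2
      rw [k1, k2] at this
      nlinarith
    have := lt_of_pow_lt_pow_left₀ 2 (by positivity) k5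
    nlinarith
  · apply Complex.ext
    · apply mul_left_cancel₀ hp.ne'
      simp [ip, -mul_eq_mul_left_iff] at hs hr ⊢
      linear_combination (-D.re) * hs - D.im * hr
    · apply mul_left_cancel₀ hp.ne'
      simp [ip, -mul_eq_mul_left_iff] at hs hr ⊢
      linear_combination (-D.im) * hs + D.re * hr

theorem sum_theta (C : Finset ℂ) {t : ℝ} (ht : 0 < t) (hC : ∀ p ∈ C, ∀ q ∈ C, ‖p - q‖ ≤ t)
    (J : Finset (ℂ × ℂ)) (hJ : ∀ j ∈ J, j.1 ∈ C ∧ j.2 ∈ C ∧ j.1 ≠ j.2 ∧
      ∀ p ∈ C, p ≠ j.1 → p ≠ j.2 → 0 < ip (p - j.1) (I * (j.2 - j.1))) :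
    ∑ j ∈ J, arcsin (‖j.2 - j.1‖ / (2 * t)) ≤ π / 2 := by
  classical
  obtain ⟨ξ, hξ⟩ : ∃ ξ : ℂ, ∀ j ∈ J, ip j.1 ξ ≠ ip j.2 ξ := by
    obtain ⟨m, hm⟩ := Infinite.exists_notMem_finset
      (J.image fun j => -(j.1.re - j.2.re) / (j.1.im - j.2.im))
    refine ⟨⟨1, m⟩, fun j hj h => ?_⟩
    simp only [ip, mul_one] at h
    by_cases h2 : j.1.im = j.2.im
    · exact (hJ j hj).2.2.1 (Complex.ext (by rw [h2] at h; linarith) h2)
    · refine hm (Finset.mem_image.2 ⟨j, hj, ?_⟩)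
      rw [div_eq_iff (sub_ne_zero.2 h2)]; linarith
  let n : ℂ × ℂ → ℂ := fun j => -I * (j.2 - j.1)
  have hq : ∀ j : ℂ × ℂ, ∃ q, j ∈ J → q ∈ C ∧ ∀ p ∈ C, ip q (n j) ≤ ip p (n j) ∧
      (ip p (n j) = ip q (n j) → ip p ξ ≤ ip q ξ) := by
    intro j
    by_cases hj : j ∈ J
    · obtain ⟨q, h1, h2⟩ := C.exists_max_image (fun p => toLex (-ip p (n j), ip p ξ))
        ⟨_, (hJ j hj).1⟩
      refine ⟨q, fun _ => ⟨h1, fun p hp => ?_⟩⟩
      rcases Prod.Lex.toLex_le_toLex.1 (h2 p hp) with h | h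
      · exact ⟨by linarith, fun e => by linarith⟩
      · exact ⟨by linarith [h.1], fun _ => h.2⟩
    · exact ⟨0, fun h => absurd h hj⟩
  choose q hq using hq
  have hn0 : ∀ j : ℂ × ℂ, ip j.2 (n j) = ip j.1 (n j) := fun j => by simp [ip, n]; ring
  have hlt : ∀ j ∈ J, ∀ p ∈ C, p ≠ j.1 → p ≠ j.2 → ip p (n j) < ip j.1 (n j) := by
    intro j hj p hp a b
    have := (hJ j hj).2.2.2 p hp a b
    simp [ip, n] at this ⊢
    linarith
  have hle : ∀ j ∈ J, ∀ p ∈ C, ip p (n j) ≤ ip j.1 (n j) := by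
    intro j hj p hp
    by_cases a : p = j.1
    · rw [a]
    by_cases b : p = j.2
    · rw [b, hn0]
    exact (hlt j hj p hp a b).le
  let sg : Bool → ℝ := fun b => if b then 1 else -1
  let x : ℂ × ℂ → ℝ := fun j => ip (j.1 - q j) (j.2 - j.1) / (t * ‖j.2 - j.1‖)
  let y : ℂ × ℂ → ℝ := fun j => ip (j.2 - q j) (j.2 - j.1) / (t * ‖j.2 - j.1‖)
  let T : Bool × (ℂ × ℂ) → Set ℂ := fun k =>
    {u | ‖sg k.1 * n k.2‖ * x k.2 < ip u (I * (sg k.1 * n k.2)) ∧
      ip u (I * (sg k.1 * n k.2)) < ‖sg k.1 * n k.2‖ * y k.2 ∧ 0 < ip u (sg k.1 * n k.2)}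
  have hnorm : ∀ b j, ‖sg b * n j‖ = ‖j.2 - j.1‖ := by
    intro b j; cases b <;> simp [sg, n]
  have hD : ∀ j ∈ J, 0 < ‖j.2 - j.1‖ := fun j hj =>
    norm_pos_iff.2 (sub_ne_zero.2 (hJ j hj).2.2.1.symm)
  have hm : ∀ b, ∀ j ∈ J, ENNReal.ofReal (2 * arcsin (‖j.2 - j.1‖ / (2 * t))) ≤ ν (T (b, j)) := by
    intro b j hj
    have d := hD j hj
    have bd : ∀ p ∈ C, |ip (p - q j) (j.2 - j.1) / (t * ‖j.2 - j.1‖)| ≤ 1 := by
      intro p hp
      rw [abs_div, abs_of_pos (by positivity : 0 < t * _), div_le_one (by positivity)]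
      exact (ip_abs _ _).trans (by gcongr; exact hC p hp _ (hq j hj).1)
    have e : y j - x j = ‖j.2 - j.1‖ / t := by
      simp only [x, y]
      rw [← sub_div, ← ip_sub, sub_sub_sub_cancel_right, ip_self]
      field_simp
    have := ν_strip (n := sg b * n j) (x := x j) (y := y j) (by
      rw [← norm_pos_iff, hnorm]; exact d) (abs_le.1 (bd _ (hJ j hj).1)).1
      (by rw [← sub_nonneg, e]; positivity) (abs_le.1 (bd _ (hJ j hj).2.1)).2
    rwa [e, div_div, mul_comm t] at this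
  have hrep : ∀ b, ∀ j ∈ J, ∀ u ∈ T (b, j), ‖u‖ = 1 → ∃ s r : ℝ, 0 < s ∧ s < 1 ∧ 0 < r ∧
      t * (sg b * u) = j.1 - q j + s * (j.2 - j.1) + r * n j := by
    rintro b j hj u ⟨h1, h2, h3⟩ hu
    have d := hD j hj
    have e1 : ip u (I * (sg b * n j)) = ip (sg b * u) (j.2 - j.1) := by simp [ip, n]; ring
    have e2 : ip u (sg b * n j) = ip (sg b * u) (n j) := by simp [ip, n]; ring
    have e3 : j.1 - q j + (j.2 - j.1) = j.2 - q j := by ring
    simp only [hnorm, e1, e2, x, y] at h1 h2 h3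
    refine rep ht (norm_pos_iff.1 d) (hC _ (hJ j hj).1 _ (hq j hj).1)
      (e3 ▸ hC _ (hJ j hj).2.1 _ (hq j hj).1) (by cases b <;> simp [sg, hu]) ?_ ?_ h3
    · rw [← mul_div_assoc, div_lt_iff₀ (by positivity)] at h1
      nlinarith
    · rw [← mul_div_assoc, lt_div_iff₀ (by positivity)] at h2
      rw [e3]
      nlinarith
  have hdis : ∀ j ∈ J, ∀ k ∈ J, ∀ (s r s' r' : ℝ), 0 < s → s < 1 → 0 < r → 0 < s' → s' < 1 →
      0 < r' → (j.1 - q j + s * (j.2 - j.1) + r * n j = k.1 - q k + s' * (k.2 - k.1) + r' * n k →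
        j = k) ∧
      j.1 - q j + s * (j.2 - j.1) + r * n j ≠ -(k.1 - q k + s' * (k.2 - k.1) + r' * n k) := by
    intro j hj k hk s r s' r' s0 s1 r0 s0' s1' r0'
    obtain ⟨j1, j2, j3, -⟩ := hJ j hj
    obtain ⟨k1, k2, k3, -⟩ := hJ k hk
    obtain ⟨qj, hqj⟩ := hq j hj
    obtain ⟨qk, hqk⟩ := hq k hk
    have a1 := hle j hj _ k1
    have a2 := hle j hj _ k2
    have a3 := hle j hj _ qk
    have a4 := (hqj _ k1).1
    have a5 := (hqj _ k2).1
    have a6 := (hqj _ qk).1
    have a7 := hn0 j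
    have b1 := hle k hk _ j1
    have b2 := hle k hk _ j2
    have b3 := hle k hk _ qj
    have b4 := (hqk _ j1).1
    have b5 := (hqk _ j2).1
    have b6 := (hqk _ qj).1
    have b7 := hn0 k
    constructor
    · intro h
      have h' : (r : ℂ) * n j - r' * n k =
          k.1 - q k + s' * (k.2 - k.1) - (j.1 - q j + s * (j.2 - j.1)) := by linear_combination h
      have c1 : ip (r * n j - r' * n k) (n j) ≤ 0 := by
        simp only [h', ip_sub, ip_add, ip_mul]; nlinarith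
      have c2 : 0 ≤ ip (r * n j - r' * n k) (n k) := by
        simp only [h', ip_sub, ip_add, ip_mul]; nlinarith
      have c3 : (r : ℂ) * n j - r' * n k = 0 := by
        apply ip_zero
        rw [ip_sub, ip_mul, ip_mul, ip_comm (n j), ip_comm (n k)]
        nlinarith
      have c4 : ∀ p, r * ip p (n j) = r' * ip p (n k) := fun p => by
        rw [ip_comm p, ip_comm p, ← ip_mul, ← ip_mul, sub_eq_zero.1 c3]
      have d1 : ip k.1 (n j) = ip j.1 (n j) := by
        refine le_antisymm a1 (le_of_mul_le_mul_left ?_ r0)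
        rw [c4, c4]; gcongr
      have d2 : ip k.2 (n j) = ip j.1 (n j) := by
        refine mul_left_cancel₀ r0.ne' ?_
        rw [c4, b7, ← c4, d1]
      have e1 : k.1 = j.1 ∨ k.1 = j.2 := by
        by_contra hh; push Not at hh; linarith [hlt j hj _ k1 hh.1 hh.2]
      have e2 : k.2 = j.1 ∨ k.2 = j.2 := by
        by_contra hh; push Not at hh; linarith [hlt j hj _ k2 hh.1 hh.2]
      rcases e1 with e1 | e1 <;> rcases e2 with e2 | e2
      · exact absurd (e1.trans e2.symm) k3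
      · exact Prod.ext e1.symm e2.symm
      · exfalso
        have : ((r + r' : ℝ) : ℂ) * (-I * (j.2 - j.1)) = 0 := by
          rw [← c3]; simp only [n, e1, e2]; push_cast; ring
        rcases mul_eq_zero.1 this with h | h
        · have : r + r' = 0 := by exact_mod_cast h
          linarith
        · exact j3 (sub_eq_zero.1 ((mul_eq_zero.1 h).resolve_left (by simp))).symm
      · exact absurd (e1.trans e2.symm) k3
    · intro h
      have h' : (r : ℂ) * n j + r' * n k =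
          q k - k.1 - s' * (k.2 - k.1) - (j.1 - q j + s * (j.2 - j.1)) := by linear_combination h
      have c1 : ip (r * n j + r' * n k) (n j) ≤ 0 := by
        simp only [h', ip_sub, ip_add, ip_mul]; nlinarith
      have c2 : ip (r * n j + r' * n k) (n k) ≤ 0 := by
        simp only [h', ip_sub, ip_add, ip_mul]; nlinarith
      have c3 : (r : ℂ) * n j + r' * n k = 0 := by
        apply ip_zero
        rw [ip_add, ip_mul, ip_mul, ip_comm (n j), ip_comm (n k)]
        nlinarith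
      have c4 : ∀ p, r * ip p (n j) = -(r' * ip p (n k)) := fun p => by
        rw [ip_comm p, ip_comm p, ← ip_mul, ← ip_mul, eq_neg_iff_add_eq_zero, ← ip_add, c3]
        simp [ip]
      have d1 : ip j.1 (n k) = ip (q k) (n k) := by
        refine le_antisymm (le_of_mul_le_mul_left ?_ r0') b4
        have := c4 j.1; have := c4 (q k); nlinarith
      have d2 : ip j.2 (n k) = ip (q k) (n k) := by
        refine le_antisymm (le_of_mul_le_mul_left ?_ r0') b5
        have := c4 j.2; have := c4 (q k); nlinarith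
      have d3 : ip k.1 (n j) = ip (q j) (n j) := by
        refine le_antisymm (le_of_mul_le_mul_left ?_ r0) a4
        have := c4 k.1; have := c4 (q j); nlinarith
      have d4 : ip k.2 (n j) = ip (q j) (n j) := by
        refine le_antisymm (le_of_mul_le_mul_left ?_ r0) a5
        have := c4 k.2; have := c4 (q j); nlinarith
      have f1 := (hqk _ j1).2 d1
      have f2 := (hqk _ j2).2 d2
      have f3 := (hqj _ k1).2 d3
      have f4 := (hqj _ k2).2 d4
      have f5 := congrArg (fun z => ip z ξ) (c3.symm.trans h')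
      simp only [ip_sub, ip_add, ip_mul] at f5
      have f6 : ip 0 ξ = 0 := by simp [ip]
      have g1 : ip k.1 ξ + s' * (ip k.2 ξ - ip k.1 ξ) ≤ ip (q j) ξ := by nlinarith
      have g2 : ip j.1 ξ + s * (ip j.2 ξ - ip j.1 ξ) < ip (q k) ξ := by
        rcases lt_or_gt_of_ne (hξ j hj) with h | h <;> nlinarith
      linarith
  have hTm : ∀ k, MeasurableSet (T k) := fun k =>
    ((isOpen_lt continuous_const (cont_ip _)).inter ((isOpen_lt (cont_ip _)
      continuous_const).inter (isOpen_lt continuous_const (cont_ip _)))).measurableSet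
  have hsum := sum_measure_le_measure_univ (μ := ν) (s := Finset.univ ×ˢ J) (t := T)
    (fun k _ => (hTm k).nullMeasurableSet) (by
      rintro ⟨b, j⟩ hj ⟨b', k⟩ hk hne
      have hj : j ∈ J := by simpa using hj
      have hk : k ∈ J := by simpa using hk
      refine measure_mono_null ?_ ν_sphere
      rintro u ⟨h1, h2⟩ hu
      have hu : ‖u‖ = 1 := by simpa using hu
      obtain ⟨s, r, s0, s1, r0, e1⟩ := hrep b j hj u h1 hu
      obtain ⟨s', r', s0', s1', r0', e2⟩ := hrep b' k hk u h2 hu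
      obtain ⟨d1, d2⟩ := hdis j hj k hk s r s' r' s0 s1 r0 s0' s1' r0'
      by_cases hb : b = b'
      · subst hb
        exact hne (by rw [d1 (e1.symm.trans e2)])
      · apply d2
        rw [← e1, ← e2]
        cases b <;> cases b' <;> simp [sg] at hb ⊢)
  rw [ν_univ, Finset.sum_product, Fintype.sum_bool] at hsum
  have h1 : ∀ b, ENNReal.ofReal (∑ j ∈ J, 2 * arcsin (‖j.2 - j.1‖ / (2 * t))) ≤
      ∑ j ∈ J, ν (T (b, j)) := fun b => by
    rw [ENNReal.ofReal_sum_of_nonneg fun j _ => mul_nonneg zero_le_two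
      (arcsin_nonneg.2 (by positivity))]
    exact Finset.sum_le_sum fun j hj => hm b j hj
  have h0 : 0 ≤ ∑ j ∈ J, 2 * arcsin (‖j.2 - j.1‖ / (2 * t)) :=
    Finset.sum_nonneg fun j _ => mul_nonneg zero_le_two (arcsin_nonneg.2 (by positivity))
  have h2 := (add_le_add (h1 true) (h1 false)).trans hsum
  rw [← ENNReal.ofReal_add h0 h0, ENNReal.ofReal_le_ofReal_iff (by positivity),
    ← Finset.mul_sum] at h2
  linarith

end Pool.Agent.H8.Disc
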