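import Mathlib

set_option autoImplicit false

namespace Pool.Agent.H8.Poly

open Set

section face
variable {E : Type*} [NormedAddCommGroup E] [NormedSpace ℝ E]

/-- The face of a polytope cut out by `l` is the hull of the maximising generators. -/
theorem face_eq {ι : Type*} [Finite ι] [Nonempty ι] (p : ι → E) (l : E →L[ℝ] ℝ) :
    {x | x ∈ convexHull ℝ (range p) ∧ ∀ y ∈ convexHull ℝ (range p), l y ≤ l x}
      = convexHull ℝ (p '' {i | ∀ j, l (p j) ≤ l (p i)}) := by
  obtain ⟨i0, hi0⟩ := Finite.exists_max (fun i => l (p i))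
  have hle : ∀ y ∈ convexHull ℝ (range p), l y ≤ l (p i0) := by
    intro y hy
    have : convexHull ℝ (range p) ⊆ {y | l y ≤ l (p i0)} :=
      convexHull_min (by rintro _ ⟨j, rfl⟩; exact hi0 j)
        (convex_halfSpace_le (l : E →ₗ[ℝ] ℝ).isLinear _)
    exact this hy
  apply Subset.antisymm
  · rintro x ⟨hx, hx2⟩
    have hsub : convexHull ℝ (range p) ⊆ {y | l y ≤ l (p i0) ∧ (l y = l (p i0) →
        y ∈ convexHull ℝ (p '' {i | ∀ j, l (p j) ≤ l (p i)}))} := by
      apply convexHull_min
      · rintro _ ⟨j, rfl⟩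
        refine ⟨hi0 j, fun h => subset_convexHull _ _ ⟨j, fun k => ?_, rfl⟩⟩
        rw [h]; exact hi0 k
      · rintro u ⟨hu1, hu2⟩ v ⟨hv1, hv2⟩ a b ha hb hab
        have hl : l (a • u + b • v) = a * l u + b * l v := by simp
        have hm : a * l (p i0) + b * l (p i0) = l (p i0) := by rw [← add_mul, hab, one_mul]
        have g1 := mul_le_mul_of_nonneg_left hu1 ha
        have g2 := mul_le_mul_of_nonneg_left hv1 hb
        refine ⟨by rw [hl]; linarith, fun h => ?_⟩
        rw [hl] at h
        rcases ha.eq_or_lt with rfl | ha'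
        · have hb1 : b = 1 := by linarith
          subst hb1
          simp only [zero_smul, one_smul, zero_add]
          exact hv2 (by linarith)
        rcases hb.eq_or_lt with rfl | hb'
        · have ha1 : a = 1 := by linarith
          subst ha1
          simp only [zero_smul, one_smul, add_zero]
          exact hu2 (by linarith)
        have e1 : l u = l (p i0) := by
          by_contra hne
          have : l u < l (p i0) := lt_of_le_of_ne hu1 hne
          have := mul_lt_mul_of_pos_left this ha'
          linarith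
        have e2 : l v = l (p i0) := by
          by_contra hne
          have : l v < l (p i0) := lt_of_le_of_ne hv1 hne
          have := mul_lt_mul_of_pos_left this hb'
          linarith
        exact convex_convexHull ℝ _ (hu2 e1) (hv2 e2) ha hb hab
    exact (hsub hx).2 (le_antisymm (hle x hx) (hx2 _ (subset_convexHull _ _ ⟨i0, rfl⟩)))
  · intro x hx
    refine ⟨convexHull_mono (image_subset_range _ _) hx, fun y hy => (hle y hy).trans ?_⟩
    have : convexHull ℝ (p '' {i | ∀ j, l (p j) ≤ l (p i)}) ⊆ {y | l (p i0) ≤ l y} :=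
      convexHull_min (by rintro _ ⟨j, hj, rfl⟩; exact hj i0)
        (convex_halfSpace_ge (l : E →ₗ[ℝ] ℝ).isLinear _)
    exact this hx

theorem vectorSpan_convexHull (s : Set E) : vectorSpan ℝ (convexHull ℝ s) = vectorSpan ℝ s := by
  rw [← direction_affineSpan, affineSpan_convexHull, direction_affineSpan]

/-- a strictly exposed generator is an extreme point -/
theorem mem_extremePoints_of_exposed {ι : Type*} [Finite ι] (p : ι → E) (i : ι) (l : E →L[ℝ] ℝ)
    (h : ∀ j, j ≠ i → l (p j) < l (p i)) : p i ∈ (convexHull ℝ (range p)).extremePoints ℝ := by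
  have : Nonempty ι := ⟨i⟩
  apply exposedPoints_subset_extremePoints
  have hT : {k | ∀ j, l (p j) ≤ l (p k)} = {i} := by
    ext k
    simp only [mem_ofPred_eq, mem_singleton_iff]
    constructor
    · intro hk
      by_contra hne
      exact absurd (hk i) (not_le.2 (h k hne))
    · rintro rfl j
      by_cases hj : j = k
      · rw [hj]
      · exact (h j hj).le
  have hf := face_eq p l
  rw [hT, image_singleton, convexHull_singleton] at hf
  have hi : p i ∈ {x | x ∈ convexHull ℝ (range p) ∧ ∀ y ∈ convexHull ℝ (range p), l y ≤ l x} := by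
    rw [hf]; rfl
  refine ⟨hi.1, l, fun y hy => ⟨hi.2 y hy, fun hy2 => ?_⟩⟩
  have : y ∈ {x | x ∈ convexHull ℝ (range p) ∧ ∀ y ∈ convexHull ℝ (range p), l y ≤ l x} :=
    ⟨hy, fun z hz => (hi.2 z hz).trans hy2⟩
  rw [hf] at this
  exact this

/-- an affine map preserving the hull hits every extreme generator from a generator -/
theorem exists_preimage_gen {ι : Type*} (p : ι → E) (φ : E →ᵃ[ℝ] E)
    (hφ : φ '' convexHull ℝ (range p) = convexHull ℝ (range p)) (i : ι)
    (hi : p i ∈ (convexHull ℝ (range p)).extremePoints ℝ) : ∃ j, φ (p j) = p i := by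
  rw [AffineMap.image_convexHull] at hφ
  rw [← hφ] at hi
  obtain ⟨_, ⟨j, rfl⟩, hj⟩ := extremePoints_convexHull_subset hi
  exact ⟨j, hj⟩

end face

section refl
variable {E : Type*} [NormedAddCommGroup E] [InnerProductSpace ℝ E] [FiniteDimensional ℝ E]

theorem exists_refl (x y : E) :
    ∃ φ : E ≃ᵃⁱ[ℝ] E, φ x = y ∧ ∀ z, dist z x = dist z y → φ z = z := by
  have : Nonempty (AffineSubspace.perpBisector x y) :=
    (AffineSubspace.perpBisector_nonempty (p₁ := x) (p₂ := y)).to_subtype
  refine ⟨EuclideanGeometry.reflection (AffineSubspace.perpBisector x y), ?_, fun z hz => ?_⟩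
  · have h := EuclideanGeometry.reflection_orthogonal_vadd
      (s := AffineSubspace.perpBisector x y) (AffineSubspace.midpoint_mem_perpBisector x y)
      (v := (1 / 2 : ℝ) • (x - y)) (by
        rw [AffineSubspace.direction_perpBisector, Submodule.orthogonal_orthogonal]
        apply Submodule.smul_mem
        rw [← neg_mem_iff]
        simp [Submodule.mem_span_singleton_self])
    have e1 : (1 / 2 : ℝ) • (x - y) +ᵥ midpoint ℝ x y = x := by
      simp only [midpoint_eq_smul_add, vadd_eq_add, invOf_eq_inv]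
      module
    have e2 : -((1 / 2 : ℝ) • (x - y)) +ᵥ midpoint ℝ x y = y := by
      simp only [midpoint_eq_smul_add, vadd_eq_add, invOf_eq_inv]
      module
    rw [e1, e2] at h
    exact h
  · rw [EuclideanGeometry.reflection_eq_self_iff]
    exact AffineSubspace.mem_perpBisector_iff_dist_eq.2 hz

theorem exists_congr3 (a b c a' b' c' : E) (hab : dist a b = dist a' b')
    (hac : dist a c = dist a' c') (hbc : dist b c = dist b' c') :
    ∃ φ : E ≃ᵃⁱ[ℝ] E, φ a = a' ∧ φ b = b' ∧ φ c = c' := by
  obtain ⟨φ1, h1, -⟩ := exists_refl a a'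
  obtain ⟨φ2, h2, h2'⟩ := exists_refl (φ1 b) b'
  have ha2 : φ2 a' = a' := h2' _ (by rw [← hab, ← h1, φ1.dist_map])
  obtain ⟨φ3, h3, h3'⟩ := exists_refl (φ2 (φ1 c)) c'
  have ha3 : φ3 a' = a' := h3' _ (by
    rw [← hac]; conv_lhs => rw [← ha2, ← h1]
    rw [φ2.dist_map, φ1.dist_map])
  have hb3 : φ3 b' = b' := h3' _ (by
    rw [← hbc]; conv_lhs => rw [← h2]
    rw [φ2.dist_map, φ1.dist_map])
  refine ⟨(φ1.trans φ2).trans φ3, ?_, ?_, ?_⟩
  · simp [h1, ha2, ha3]
  · simp [h2, hb3]
  · simp [h3]

end refl

end Pool.Agent.H8.Poly
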