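import Pool.Agent.H8.RadoHorn
import Pool.Agent.H8.Poly

set_option autoImplicit false

namespace Pool.Agent.H8.RH

open Finset Submodule Module

variable {ι V : Type*} [DecidableEq ι] [AddCommGroup V] [Module ℝ V] [FiniteDimensional ℝ V]
variable (v : ι → V)

/-- `T` lies in a proper face of the cone spanned by `Y`. -/
def FC (Y T : Finset ι) : Prop :=
  ∃ l : V →ₗ[ℝ] ℝ, (∀ i ∈ Y, 0 ≤ l (v i)) ∧ (∀ i ∈ T, l (v i) = 0) ∧ ∃ i ∈ Y, l (v i) ≠ 0

/-- the trace argument -/
theorem trace_arg (Y T σ : Finset ι) (hd : Disjoint σ T) (hu : σ ∪ T = Y)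
    (hσ : σ.card ≤ rk v σ) (hσr : rk v Y ≤ σ.card) (hT : T.card ≤ rk v T)
    (hTr : rk v Y ≤ T.card + 1)
    (H : ∀ T' ⊆ Y, (∀ y ∈ Y, v y ∈ sp v (Y \ T')) → FC v Y T')
    (l : V →ₗ[ℝ] ℝ) (l0 : ∀ i ∈ Y, 0 ≤ l (v i)) (lT : ∀ i ∈ T, l (v i) = 0)
    (l1 : ∃ i ∈ Y, l (v i) ≠ 0) : (σ.filter fun w => l (v w) = 0).card = T.card := by
  classical
  have σY : σ ⊆ Y := hu ▸ subset_union_left
  have TY : T ⊆ Y := hu ▸ subset_union_right
  have spσ : sp v σ = sp v Y := sp_eq_of_rk v σY (by omega)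
  have full : ∀ y ∈ Y, v y ∉ sp v T → sp v (insert y T) = sp v Y := fun y hy hn =>
    sp_eq_of_rk v (insert_subset hy TY) (by have := rk_insert v hn; omega)
  set W := σ.filter fun w => l (v w) = 0 with hW
  have WT : ∀ w ∈ W, v w ∈ sp v T := by
    intro w hw
    obtain ⟨hw1, hw2⟩ := mem_filter.1 hw
    by_contra hn
    obtain ⟨i, hi, hi2⟩ := l1
    refine hi2 (map_eq_zero_of_sp v l (A := insert w T) ?_ ?_)
    · intro j hj
      rcases mem_insert.1 hj with rfl | hj
      · exact hw2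
      · exact lT j hj
    · rw [full w (σY hw1) hn]; exact mem_sp v hi
  have hc : ∀ x, ∃ c : ι → ℝ, x ∈ T → ∑ s ∈ σ, c s • v s = v x := by
    intro x
    by_cases hx : x ∈ T
    · obtain ⟨c, hc⟩ := exists_coef v (A := σ) (spσ ▸ mem_sp v (TY hx))
      exact ⟨c, fun _ => hc⟩
    · exact ⟨0, fun h => absurd h hx⟩
  choose c hc using hc
  have hB : ∀ w, ∃ b : ι → ℝ, w ∈ W → ∑ x ∈ T, b x • v x = v w := by
    intro w
    by_cases hw : w ∈ W
    · obtain ⟨b, hb⟩ := exists_coef v (WT w hw)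
      exact ⟨b, fun _ => hb⟩
    · exact ⟨0, fun h => absurd h hw⟩
  choose B hB using hB
  have notsp : ∀ y, l (v y) ≠ 0 → v y ∉ sp v T := fun y hy h => hy (map_eq_zero_of_sp v l lT h)
  -- exchange functionals
  have exch : ∀ x ∈ T, ∀ y ∈ σ, l (v y) ≠ 0 → c x y ≠ 0 → ∃ m : V →ₗ[ℝ] ℝ,
      (∀ i ∈ Y, 0 ≤ m (v i)) ∧ (∀ i ∈ T, i ≠ x → m (v i) = 0) ∧ m (v y) = 0 ∧ 0 < m (v x) := by
    intro x hx y hy hly hcy
    have hyT : y ∉ T := disjoint_left.1 hd hy
    have hxσ : x ∉ σ := disjoint_right.1 hd hx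
    obtain ⟨m, m0, m1, i, hi, m2⟩ := H (insert y (T.erase x))
      (insert_subset (σY hy) ((erase_subset _ _).trans TY)) (by
        intro z hz
        have hz' : v z ∈ sp v σ := spσ ▸ mem_sp v hz
        refine (sp_le v (A := σ) fun s hs => ?_) hz'
        have hm : ∀ s ∈ σ, s ≠ y → v s ∈ sp v (Y \ insert y (T.erase x)) := fun s hs hsy =>
          mem_sp v (mem_sdiff.2 ⟨σY hs, by
            simp only [mem_insert, mem_erase, not_or, not_and]
            exact ⟨hsy, fun _ => disjoint_left.1 hd hs⟩⟩)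
        by_cases hsy : s = y
        · subst hsy
          have e := hc x hx
          rw [← add_sum_erase _ _ hs] at e
          have h1 : c x s • v s ∈ sp v (Y \ insert s (T.erase x)) := by
            rw [eq_sub_of_add_eq e]
            refine sub_mem (mem_sp v (mem_sdiff.2 ⟨TY hx, ?_⟩)) (sum_mem fun t ht => smul_mem _ _
              (hm t (mem_erase.1 ht).2 (mem_erase.1 ht).1))
            simp only [mem_insert, mem_erase, not_or, not_and]
            exact ⟨fun e => hxσ (e ▸ hs), fun h => absurd rfl h⟩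
          exact (smul_mem_iff _ hcy).1 h1
        · exact hm s hs hsy)
    have mT : ∀ i ∈ T, i ≠ x → m (v i) = 0 := fun i hi hix =>
      m1 i (mem_insert_of_mem (mem_erase.2 ⟨hix, hi⟩))
    have my : m (v y) = 0 := m1 y (mem_insert_self _ _)
    refine ⟨m, m0, mT, my, lt_of_le_of_ne (m0 x (TY hx)) fun h0 => m2 ?_⟩
    refine map_eq_zero_of_sp v m (A := insert y T) ?_ ?_
    · intro j hj
      rcases mem_insert.1 hj with rfl | hj
      · exact my
      · by_cases hjx : j = x
        · rw [hjx]; exact h0.symm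
        · exact mT j hj hjx
    · rw [full y (σY hy) (notsp y hly)]; exact mem_sp v hi
  have sumT : ∀ (m : V →ₗ[ℝ] ℝ) (x : ι), x ∈ T → (∀ i ∈ T, i ≠ x → m (v i) = 0) →
      ∀ b : ι → ℝ, m (∑ i ∈ T, b i • v i) = b x * m (v x) := by
    intro m x hx hm b
    rw [map_sum, sum_eq_single x]
    · simp
    · intro i hi hix; simp [hm i hi hix]
    · intro h; exact absurd hx h
  have row : ∀ x ∈ T, ∑ w ∈ W, c x w * B w x = 1 := by
    intro x hx
    by_cases hall : ∀ y ∈ σ, l (v y) ≠ 0 → c x y = 0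
    · have e1 : ∑ w ∈ W, c x w • v w = v x := by
        rw [← hc x hx, hW, sum_filter]
        refine sum_congr rfl fun s hs => ?_
        split_ifs with h
        · rfl
        · rw [hall s hs h, zero_smul]
      have e2 : ∑ i ∈ T, ((∑ w ∈ W, c x w * B w i) - if i = x then 1 else 0) • v i = 0 := by
        simp only [sub_smul, sum_sub_distrib, sum_smul, ite_smul, one_smul, zero_smul,
          sum_ite_eq', if_pos hx]
        rw [sum_comm, ← e1, sub_eq_zero]
        refine sum_congr rfl fun w hw => ?_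
        rw [← hB w hw, smul_sum]
        simp only [mul_smul]
      have := indep_of_rk v hT _ e2 x hx
      simp only [if_true] at this
      linarith
    · push Not at hall
      obtain ⟨y1, hy1, ly1, cy1⟩ := hall
      obtain ⟨m, m0, mT, my, mx⟩ := exch x hx y1 hy1 ly1 cy1
      have hy2 : ∀ y ∈ σ, l (v y) ≠ 0 → c x y ≠ 0 → m (v y) = 0 := by
        intro y hy ly cy
        obtain ⟨m', m0', mT', my', mx'⟩ := exch x hx y hy ly cy
        have hyT : y1 ∉ T := disjoint_left.1 hd hy1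
        obtain ⟨b, hb⟩ := exists_coef v (A := insert y1 T) (x := v y)
          (by rw [full y1 (σY hy1) (notsp y1 ly1)]; exact mem_sp v (σY hy))
        rw [sum_insert hyT] at hb
        have a1 := congrArg l hb
        have a2 := congrArg m hb
        have a3 := congrArg m' hb
        rw [map_add, map_smul, smul_eq_mul] at a1 a2 a3
        rw [sumT m x hx mT] at a2
        rw [sumT m' x hx mT'] at a3
        rw [sumT l x hx (fun i hi _ => lT i hi), lT x hx, mul_zero, add_zero] at a1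
        have p1 : 0 < l (v y1) := lt_of_le_of_ne (l0 _ (σY hy1)) ly1.symm
        have p2 : 0 < l (v y) := lt_of_le_of_ne (l0 _ (σY hy)) ly.symm
        have p3 : 0 < b y1 := by
          by_contra hn
          have := mul_nonpos_of_nonpos_of_nonneg (not_lt.1 hn) p1.le
          linarith
        have p4 := m0 y (σY hy)
        have p5 := m0' y1 (σY hy1)
        rw [my, mul_zero, zero_add] at a2
        have p6 : 0 ≤ b x := by
          by_contra hn
          have := mul_neg_of_neg_of_pos (not_le.1 hn) mx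
          linarith
        have p7 : b x * m' (v x) = 0 := by
          have := mul_nonneg p3.le p5
          have := mul_nonneg p6 mx'.le
          linarith
        rw [← a2, (mul_eq_zero.1 p7).resolve_right mx'.ne', zero_mul]
      have e := congrArg m (hc x hx)
      rw [map_sum] at e
      have e2 : ∑ s ∈ σ, m (c x s • v s) = (∑ w ∈ W, c x w * B w x) * m (v x) := by
        rw [sum_mul, hW, sum_filter]
        refine sum_congr rfl fun s hs => ?_
        rw [map_smul, smul_eq_mul]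
        split_ifs with h
        · rw [← hB s (mem_filter.2 ⟨hs, h⟩), sumT m x hx mT]; ring
        · by_cases h2 : c x s = 0
          · rw [h2, zero_mul]
          · rw [hy2 s hs h h2, mul_zero]
      rw [e2] at e
      exact mul_right_cancel₀ mx.ne' (by rw [e, one_mul])
  have col : ∀ w ∈ W, ∑ x ∈ T, c x w * B w x = 1 := by
    intro w hw
    have hwσ := (mem_filter.1 hw).1
    have e2 : ∑ s ∈ σ, ((∑ x ∈ T, c x s * B w x) - if s = w then 1 else 0) • v s = 0 := by
      simp only [sub_smul, sum_sub_distrib, sum_smul, ite_smul, one_smul, zero_smul,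
        sum_ite_eq', if_pos hwσ]
      rw [sum_comm, ← hB w hw, sub_eq_zero]
      refine sum_congr rfl fun x hx => ?_
      rw [← hc x hx, smul_sum]
      refine sum_congr rfl fun s _ => ?_
      rw [mul_comm, mul_smul]
    have := indep_of_rk v hσ _ e2 w hwσ
    simp only [if_true] at this
    linarith
  have t1 : ∑ x ∈ T, ∑ w ∈ W, c x w * B w x = T.card := by
    rw [sum_congr rfl row]; simp
  have t2 : ∑ w ∈ W, ∑ x ∈ T, c x w * B w x = W.card := by
    rw [sum_congr rfl col]; simp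
  rw [sum_comm, t2] at t1
  exact_mod_cast t1

theorem exists_interior (Y : Finset ι) (h2 : 2 ≤ Y.card) (hY : 2 * rk v Y ≤ Y.card + 1)
    (hpos : ∀ S ⊆ Y, S.Nonempty → 1 ≤ rk v S)
    (hmin : ∀ S ⊂ Y, 2 ≤ S.card → S.card + 2 ≤ 2 * rk v S) :
    ∃ T ⊆ Y, (∀ y ∈ Y, v y ∈ sp v (Y \ T)) ∧ ¬ FC v Y T := by
  by_contra H
  push Not at H
  have hall : ∀ S ⊆ Y, S.card ≤ 2 * rk v S := by
    intro S hS
    by_cases h1 : S.card ≤ 2
    · rcases S.eq_empty_or_nonempty with rfl | hne
      · simp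
      · have := hpos S hS hne; omega
    · obtain ⟨e, he⟩ := card_pos.1 (by omega : 0 < S.card)
      have := hmin (S.erase e) ((erase_ssubset he).trans_subset hS)
        (by rw [card_erase_of_mem he]; omega)
      rw [card_erase_of_mem he] at this
      have := rk_mono v (erase_subset e S)
      omega
  have main : ∀ σ T : Finset ι, Disjoint σ T → σ ∪ T = Y → σ.card ≤ rk v σ → T.card ≤ rk v T →
      T.card ≤ σ.card → False := by
    intro σ T hd hu hσ hT hle
    have σY : σ ⊆ Y := hu ▸ subset_union_left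
    have TY : T ⊆ Y := hu ▸ subset_union_right
    have hc : σ.card + T.card = Y.card := by rw [← hu, card_union_of_disjoint hd]
    have r1 := rk_mono v σY
    have r2 := rk_mono v TY
    have e : Y \ T = σ := by rw [← hu, union_sdiff_right, sdiff_eq_self_of_disjoint hd]
    have spσ : sp v σ = sp v Y := sp_eq_of_rk v σY (by omega)
    obtain ⟨l, l0, lT, l1⟩ := H T TY (fun y hy => by rw [e, spσ]; exact mem_sp v hy)
    have ht := trace_arg v Y T σ hd hu hσ (by omega) hT (by omega) H l l0 lT l1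
    set W := σ.filter fun w => l (v w) = 0 with hW
    obtain ⟨i, hi, li⟩ := l1
    have lF : ∀ j ∈ W ∪ T, l (v j) = 0 := fun j hj => by
      rcases mem_union.1 hj with h | h
      · exact (mem_filter.1 h).2
      · exact lT j h
    have FY : W ∪ T ⊆ Y := union_subset ((filter_subset _ _).trans σY) TY
    have iF : i ∉ W ∪ T := fun h => li (lF i h)
    have r3 := rk_insert v (A := W ∪ T) (i := i) fun h => li (map_eq_zero_of_sp v l lF h)
    have r4 := rk_mono v (insert_subset hi FY)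
    have c1 : (W ∪ T).card = W.card + T.card :=
      card_union_of_disjoint (disjoint_of_subset_left (filter_subset _ _) hd)
    by_cases h : 2 ≤ (W ∪ T).card
    · have := hmin (W ∪ T) (Finset.ssubset_iff_subset_ne.2 ⟨FY, fun e => iF (e ▸ hi)⟩) h
      omega
    · omega
  obtain ⟨P, Q, hd, hu, hP, hQ⟩ := rado_horn v Y hall
  rcases le_total Q.card P.card with h | h
  · exact main P Q hd hu hP hQ h
  · exact main Q P hd.symm (by rw [union_comm, hu]) hQ hP h

omit [FiniteDimensional ℝ V] in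
theorem tope_of_interior (φ : V →ₗ[ℝ] ℝ) (hφ : ∀ i, φ (v i) = 1) (Y : Finset ι) (hne : Y.Nonempty)
    (T : Finset ι) (hT : T ⊆ Y) (hsp : ∀ y ∈ Y, v y ∈ sp v (Y \ T)) (hF : ¬ FC v Y T) :
    ∃ T ⊆ Y, T.Nonempty ∧ (∀ y ∈ Y, v y ∈ sp v (Y \ T)) ∧ ∃ a : ι → ℝ, (∀ i ∈ Y, 0 < a i) ∧
      ∑ i ∈ T, a i • v i = ∑ i ∈ Y \ T, a i • v i := by
  classical
  induction T using Finset.strongInduction with
  | H T ih =>
  by_cases hm : ∃ x ∈ T, ¬ FC v Y (T.erase x)
  · obtain ⟨x, hx, h⟩ := hm
    exact ih _ (erase_ssubset hx) ((erase_subset _ _).trans hT) (fun y hy =>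
      sp_mono v (sdiff_subset_sdiff subset_rfl (erase_subset _ _)) (hsp y hy)) h
  push Not at hm
  refine ⟨T, hT, ?_, hsp, ?_⟩
  · rcases T.eq_empty_or_nonempty with rfl | h
    · obtain ⟨y, hy⟩ := hne
      exact absurd ⟨φ, fun i _ => by rw [hφ]; norm_num, by simp, y, hy, by rw [hφ]; norm_num⟩ hF
    · exact h
  rcases stiemke (fun i => if i ∈ T then v i else -v i) Y with ⟨a, ha, h⟩ | ⟨h, h0, i, hi, h1⟩
  · refine ⟨a, ha, ?_⟩
    rw [← sum_sdiff hT] at h
    rw [sum_congr rfl (fun i hi => by rw [if_neg (mem_sdiff.1 hi).2, smul_neg]),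
      sum_congr rfl (s₂ := T) (fun i hi => by rw [if_pos hi]), sum_neg_distrib] at h
    rw [← sub_eq_zero, ← h]; abel
  · exfalso
    have hx : ∀ x, ∃ m : V →ₗ[ℝ] ℝ, x ∈ T → (∀ i ∈ Y, 0 ≤ m (v i)) ∧
        (∀ i ∈ T, i ≠ x → m (v i) = 0) ∧ m (v x) = 1 := by
      intro x
      by_cases hx : x ∈ T
      · obtain ⟨m, m0, m1, m2⟩ := hm x hx
        have mx : 0 < m (v x) := lt_of_le_of_ne (m0 x (hT hx)) fun e => hF ⟨m, m0, fun i hi => by
          by_cases hix : i = x
          · rw [hix]; exact e.symm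
          · exact m1 i (mem_erase.2 ⟨hix, hi⟩), m2⟩
        refine ⟨(m (v x))⁻¹ • m, fun _ => ⟨fun i hi => ?_, fun i hi hix => ?_, ?_⟩⟩
        · exact mul_nonneg (inv_nonneg.2 mx.le) (m0 i hi)
        · simp [m1 i (mem_erase.2 ⟨hix, hi⟩)]
        · simp [mx.ne']
      · exact ⟨0, fun h => absurd h hx⟩
    choose m hm' using hx
    have hT0 : ∀ x ∈ T, 0 ≤ h (v x) := fun x hx => by simpa [hx] using h0 x (hT hx)
    have hN0 : ∀ x ∈ Y, x ∉ T → h (v x) ≤ 0 := fun x hx hxT => by simpa [hxT] using h0 x hx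
    let g : V →ₗ[ℝ] ℝ := ∑ x ∈ T, h (v x) • m x
    have gv : ∀ y, g y = ∑ x ∈ T, h (v x) * m x y := fun y => by simp [g]
    have g0 : ∀ y ∈ Y, 0 ≤ g (v y) := fun y hy => by
      rw [gv]; exact sum_nonneg fun x hx => mul_nonneg (hT0 x hx) ((hm' x hx).1 y hy)
    have gT : ∀ y ∈ T, g (v y) = h (v y) := fun y hy => by
      rw [gv, sum_eq_single y]
      · rw [(hm' y hy).2.2, mul_one]
      · intro x hx hxy; rw [(hm' x hx).2.1 y hy hxy.symm, mul_zero]
      · intro h; exact absurd hy h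
    by_cases hz : ∃ y ∈ Y, (g - h) (v y) ≠ 0
    · refine hF ⟨g - h, fun y hy => ?_, fun y hy => ?_, hz⟩
      · by_cases hyT : y ∈ T
        · simp [gT y hyT]
        · have := g0 y hy
          have := hN0 y hy hyT
          simp only [LinearMap.sub_apply]; linarith
      · simp [gT y hy]
    · push Not at hz
      have hN : ∀ y ∈ Y \ T, h (v y) = 0 := fun y hy => by
        obtain ⟨hy1, hy2⟩ := mem_sdiff.1 hy
        have := hz y hy1
        have := g0 y hy1
        have := hN0 y hy1 hy2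
        simp only [LinearMap.sub_apply] at *; linarith
      have := map_eq_zero_of_sp v h hN (hsp i hi)
      apply h1
      split_ifs <;> simp [this]

theorem core (φ : V →ₗ[ℝ] ℝ) (hφ : ∀ i, φ (v i) = 1) (Y : Finset ι) (h2 : 2 ≤ Y.card)
    (hY : 2 * rk v Y ≤ Y.card + 1) :
    ∃ T N : Finset ι, T ⊆ Y ∧ N ⊆ Y \ T ∧ T.Nonempty ∧ (∀ y ∈ T, v y ∈ sp v N) ∧
      ∃ a : ι → ℝ, (∀ i ∈ T, 0 < a i) ∧ (∀ i ∈ N, 0 < a i) ∧
      ∑ i ∈ T, a i • v i = ∑ i ∈ N, a i • v i := by
  induction Y using Finset.strongInduction with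
  | H Y ih =>
  by_cases hm : ∃ S ⊂ Y, 2 ≤ S.card ∧ 2 * rk v S ≤ S.card + 1
  · obtain ⟨S, hS, h1, h3⟩ := hm
    obtain ⟨T, N, a1, a2, a3⟩ := ih S hS h1 h3
    exact ⟨T, N, a1.trans hS.subset, a2.trans (sdiff_subset_sdiff hS.subset subset_rfl), a3⟩
  push Not at hm
  obtain ⟨T, hT, hsp, hF⟩ := exists_interior v Y h2 hY (fun S _ ⟨x, hx⟩ => by
    have h1 := rk_insert v (A := ∅) (i := x) fun h => by
      have := map_eq_zero_of_sp v φ (A := ∅) (by simp) h
      rw [hφ] at this; exact one_ne_zero this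
    have := rk_mono v (insert_subset hx (empty_subset S))
    omega) (fun S hS h => hm S hS h)
  obtain ⟨T, hT, hne, hsp, a, ha, h⟩ :=
    tope_of_interior v φ hφ Y (card_pos.1 (by omega)) T hT hsp hF
  exact ⟨T, Y \ T, hT, subset_rfl, hne, fun y hy => hsp y (hT hy), a, fun i hi => ha i (hT hi),
    fun i hi => ha i (mem_sdiff.1 hi).1, h⟩

theorem geom {E : Type*} [NormedAddCommGroup E] [NormedSpace ℝ E] [FiniteDimensional ℝ E]
    [DecidableEq E] (S : Finset E) (h2 : 2 ≤ S.card) (hS : 2 * finrank ℝ E + 1 ≤ S.card) :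
    ∃ S₁ S₂ : Finset E, S₁ ∪ S₂ = S ∧ Disjoint S₁ S₂ ∧ S₁.Nonempty ∧ S₂.Nonempty ∧
      (convexHull ℝ (S₁ : Set E) ∩ convexHull ℝ (S₂ : Set E)).Nonempty ∧
      finrank ℝ (vectorSpan ℝ (convexHull ℝ (S₁ : Set E))) ≤
        finrank ℝ (vectorSpan ℝ (convexHull ℝ (S₁ : Set E) ∩ convexHull ℝ (S₂ : Set E))) := by
  let v : E → ℝ × E := fun x => (1, x)
  have hr : rk v S ≤ finrank ℝ E + 1 := by
    have := Submodule.finrank_le (sp v S)
    rw [Module.finrank_prod, Module.finrank_self] at this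
    unfold rk; omega
  obtain ⟨T, N, hT, hN, hne, hsp, a, aT, aN, h⟩ :=
    core v (LinearMap.fst ℝ ℝ E) (fun _ => rfl) S h2 (by omega)
  have h1 : ∑ i ∈ T, a i = ∑ i ∈ N, a i := by
    simpa [v, Prod.fst_sum] using congrArg Prod.fst h
  have h3 : ∑ i ∈ T, a i • i = ∑ i ∈ N, a i • i := by
    simpa [v, Prod.snd_sum] using congrArg Prod.snd h
  have hA : 0 < ∑ i ∈ T, a i := sum_pos aT hne
  have hNne : N.Nonempty := by
    rcases N.eq_empty_or_nonempty with rfl | h
    · rw [h1] at hA; simp at hA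
    · exact h
  set A := ∑ i ∈ T, a i with hAdef
  let p : E := A⁻¹ • ∑ i ∈ T, a i • i
  have pT : p ∈ convexHull ℝ (T : Set E) :=
    T.centerMass_mem_convexHull (w := a) (z := id) (fun i hi => (aT i hi).le) hA
      (fun i hi => hi)
  have hNS : (N : Set E) ⊆ ((S \ T : Finset E) : Set E) := coe_subset.2 hN
  have pN : p ∈ convexHull ℝ ((S \ T : Finset E) : Set E) := by
    have := N.centerMass_mem_convexHull (w := a) (z := id) (s := ((S \ T : Finset E) : Set E))
      (fun i hi => (aN i hi).le) (h1 ▸ hA) (fun i hi => hNS hi)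
    simp only [p]
    rw [h3, h1]
    exact this
  refine ⟨T, S \ T, union_sdiff_of_subset hT, disjoint_sdiff, hne, hNne.mono hN, ⟨p, pT, pN⟩, ?_⟩
  apply Submodule.finrank_mono
  rw [Poly.vectorSpan_convexHull]
  have key : ∀ t ∈ T, t - p ∈
      vectorSpan ℝ (convexHull ℝ (T : Set E) ∩ convexHull ℝ ((S \ T : Finset E) : Set E)) := by
    intro t ht
    obtain ⟨c, hc⟩ := exists_coef v (hsp t ht)
    have c1 : ∑ i ∈ N, c i = 1 := by simpa [v, Prod.fst_sum] using congrArg Prod.fst hc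
    have c2 : ∑ i ∈ N, c i • i = t := by simpa [v, Prod.snd_sum] using congrArg Prod.snd hc
    obtain ⟨ε, hε, hε2⟩ : ∃ ε : ℝ, 0 < ε ∧ ∀ i ∈ N, 0 ≤ a i + ε * c i := by
      have : ∀ᶠ ε in nhdsWithin (0 : ℝ) (Set.Ioi 0), ∀ i ∈ N, 0 < a i + ε * c i := by
        rw [Filter.eventually_all_finset]
        intro i hi
        apply Filter.Eventually.filter_mono nhdsWithin_le_nhds
        have hcont : ContinuousAt (fun ε : ℝ => a i + ε * c i) 0 := by fun_prop
        exact hcont.eventually (lt_mem_nhds (by simpa using aN i hi))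
      obtain ⟨ε, h1, h2⟩ := (this.and self_mem_nhdsWithin).exists
      exact ⟨ε, h2, fun i hi => (h1 i hi).le⟩
    have hAe : 0 < A + ε := by linarith
    let q : E := (A / (A + ε)) • p + (ε / (A + ε)) • t
    have qT : q ∈ convexHull ℝ (T : Set E) :=
      convex_convexHull ℝ _ pT (subset_convexHull ℝ _ ht) (by positivity) (by positivity)
        (by field_simp)
    have qN : q ∈ convexHull ℝ ((S \ T : Finset E) : Set E) := by
      have e1 : ∑ i ∈ N, (a i + ε * c i) = A + ε := by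
        rw [sum_add_distrib, ← mul_sum, c1, ← h1, mul_one]
      have := N.centerMass_mem_convexHull (w := fun i => a i + ε * c i) (z := id)
        (s := ((S \ T : Finset E) : Set E)) hε2 (e1 ▸ hAe) (fun i hi => hNS hi)
      have e2 : N.centerMass (fun i => a i + ε * c i) id = q := by
        have e4 : ∑ i ∈ N, (a i + ε * c i) • i = ∑ i ∈ T, a i • i + ε • t := by
          rw [h3, ← c2, smul_sum, ← sum_add_distrib]
          refine sum_congr rfl fun i _ => ?_
          rw [add_smul, mul_smul]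
        simp only [Finset.centerMass, e1, id, e4, q, p, smul_add, smul_smul]
        congr 2 <;> field_simp
      rwa [e2] at this
    have hv := vsub_mem_vectorSpan ℝ (s := convexHull ℝ (T : Set E) ∩
      convexHull ℝ ((S \ T : Finset E) : Set E)) ⟨qT, qN⟩ ⟨pT, pN⟩
    have e3 : q -ᵥ p = (ε / (A + ε)) • (t - p) := by
      have : A / (A + ε) = 1 - ε / (A + ε) := by field_simp; ring
      simp only [q, vsub_eq_sub, this]
      module
    rw [e3] at hv
    exact (smul_mem_iff _ (by positivity)).1 hv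
  rw [vectorSpan_def, span_le]
  rintro _ ⟨x, hx, y, hy, rfl⟩
  have := sub_mem (key x hx) (key y hy)
  simpa using this

end Pool.Agent.H8.RH
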