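import Mathlib

namespace Pool.Agent.H8.Du

open List

lemma sub_mid {P U V : List ℕ} {z : ℕ} : P <+ U ++ z :: V ↔
    P <+ U ++ V ∨ ∃ P1 P2, P = P1 ++ z :: P2 ∧ P1 <+ U ∧ P2 <+ V := by
  simp only [sublist_append_iff, sublist_cons_iff]
  constructor
  · rintro ⟨a, b, rfl, h1, h2 | ⟨c, rfl, h2⟩⟩
    · exact Or.inl ⟨a, b, rfl, h1, h2⟩
    · exact Or.inr ⟨a, c, rfl, h1, h2⟩
  · rintro (⟨a, b, rfl, h1, h2⟩ | ⟨a, c, rfl, h1, h2⟩)
    · exact ⟨a, b, rfl, h1, Or.inl h2⟩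
    · exact ⟨a, _, rfl, h1, Or.inr ⟨c, rfl, h2⟩⟩

lemma sub4 {p q r t z : ℕ} {U V : List ℕ} : [p, q, r, t] <+ U ++ z :: V ↔
    [p, q, r, t] <+ U ++ V ∨ (p = z ∧ [q, r, t] <+ V) ∨ (q = z ∧ p ∈ U ∧ [r, t] <+ V) ∨
      (r = z ∧ [p, q] <+ U ∧ t ∈ V) ∨ (t = z ∧ [p, q, r] <+ U) := by
  rw [sub_mid]
  refine or_congr_right ⟨?_, ?_⟩
  · rintro ⟨a, b, e, h1, h2⟩
    rcases a with _ | ⟨a1, _ | ⟨a2, _ | ⟨a3, _ | ⟨a4, a⟩⟩⟩⟩ <;> simp at e
    · obtain ⟨rfl, rfl⟩ := e; simp [h2]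
    · obtain ⟨rfl, rfl, rfl⟩ := e; simp_all
    · obtain ⟨rfl, rfl, rfl, rfl⟩ := e; simp_all
    · obtain ⟨rfl, rfl, rfl, rfl, rfl⟩ := e; simp_all
  · rintro (⟨rfl, h⟩ | ⟨rfl, h, h'⟩ | ⟨rfl, h, h'⟩ | ⟨rfl, h⟩)
    · exact ⟨[], _, rfl, by simp, h⟩
    · exact ⟨[p], _, rfl, by simpa, h'⟩
    · exact ⟨[p, q], _, rfl, h, by simpa⟩
    · exact ⟨[p, q, r], _, rfl, h, by simp⟩

def BadA (l : List ℕ) : Prop := ∃ p q r t, q < p ∧ p < t ∧ t < r ∧ [p, q, r, t] <+ l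

def BadB (l : List ℕ) : Prop := ∃ p q r t, p < q ∧ q < t ∧ t < r ∧ [p, q, r, t] <+ l

def Big (m : ℕ) (l : List ℕ) : Prop := ∀ x ∈ l, x = 0 ∨ m < x

def Inc0 (l : List ℕ) : Prop := ∀ r t, 0 < t → t < r → ¬ [r, t] <+ l

def Inc : ℕ → List ℕ → Prop
  | 0, l => Inc0 l
  | _ + 1, [] => True
  | c + 1, z :: l => if z = 0 then Inc c l else Inc (c + 1) l

@[simp] lemma inc_0 (l : List ℕ) : Inc 0 l ↔ Inc0 l := by rw [Inc]

lemma inc_nil : ∀ c, Inc c []
  | 0 => by simp [Inc0]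
  | _ + 1 => trivial

lemma inc_tail {z : ℕ} {l : List ℕ} (h : Inc0 (z :: l)) : Inc0 l :=
  fun r t a b c => h r t a b (c.trans (sublist_cons_self _ _))

lemma inc_mono : ∀ (l : List ℕ) (c : ℕ), Inc c l → Inc (c + 1) l
  | [], _, _ => trivial
  | z :: l, 0, h => by
    have := (inc_0 _).2 (inc_tail ((inc_0 _).1 h))
    rw [Inc]
    split_ifs
    exacts [this, inc_mono l 0 this]
  | z :: l, c + 1, h => by
    simp only [Inc] at *
    split_ifs at *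
    exacts [inc_mono l c h, inc_mono l (c + 1) h]

lemma inc_le {l : List ℕ} {c d : ℕ} (hcd : c ≤ d) (h : Inc c l) : Inc d l := by
  induction hcd with
  | refl => exact h
  | step _ ih => exact inc_mono _ _ ih

lemma inc_one : ∀ l : List ℕ, Inc 1 l ↔ ∀ r t, 0 < t → t < r → ¬ [0, r, t] <+ l
  | [] => by simp [Inc]
  | z :: l => by
    by_cases h : z = 0
    · subst h; simp [Inc, Inc0]
    · simp only [Inc, if_neg h, inc_one l, cons_sublist_cons', show ¬ 0 = z from Ne.symm h]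
      simp

lemma inc_min {m : ℕ} {V : List ℕ} (hV : Big m V) : Inc0 (m :: V) ↔ Inc0 V := by
  refine ⟨inc_tail, fun h r t a b c => ?_⟩
  rcases cons_sublist_cons'.1 c with c | ⟨rfl, c⟩
  · exact h r t a b c
  · have := hV t (by simpa using c)
    omega

lemma inc_zero {V : List ℕ} : Inc0 (0 :: V) ↔ Inc0 V :=
  inc_min fun x _ => by omega

lemma inc_skip : ∀ (X W : List ℕ) (c : ℕ), Inc (c + 1 + X.count 0) (X ++ W) ↔ Inc (c + 1) W
  | [], W, c => by simp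
  | z :: X, W, c => by
    by_cases h : z = 0
    · subst h
      rw [count_cons_self, ← add_assoc, cons_append, Inc, if_pos rfl, inc_skip X W c]
    · rw [count_cons_of_ne h, show c + 1 + count 0 X = (c + count 0 X) + 1 by omega, cons_append,
        Inc, if_neg h, ← inc_skip X W c, show c + 1 + count 0 X = (c + count 0 X) + 1 by omega]

lemma inc_past : ∀ (X W : List ℕ) (c : ℕ), c ≤ X.count 0 → Inc c (X ++ W) → Inc0 W
  | X, W, 0, _, h => fun r t a b c => (inc_0 _).1 h r t a b (c.trans (sublist_append_right _ _))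
  | [], W, c + 1, h, _ => by simp at h
  | z :: X, W, c + 1, h, h' => by
    by_cases e : z = 0
    · subst e
      simp only [cons_append, Inc, if_true, count_cons_self] at h h'
      exact inc_past X W c (by omega) h'
    · simp only [cons_append, Inc, if_neg e, count_cons_of_ne e] at h h'
      exact inc_past X W _ h h'

def zer (d : Bool) : List ℕ := if d then [0] else []

def End (m : ℕ) (X : List ℕ) : Prop := X = [] ∨ ∃ Y u, X = Y ++ [u] ∧ m < u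

lemma inc_step {m a : ℕ} {X V : List ℕ} (hm : 0 < m) (hX : End m X) (hV : Big m V) (d : Bool) :
    Inc (a + 1) (X ++ zer d ++ m :: V) ↔
      X.count 0 ≤ a ∧ Inc (a + 1 - X.count 0 - if d then 1 else 0) V := by
  by_cases h : X.count 0 ≤ a
  · obtain ⟨c, rfl⟩ : ∃ c, a = c + X.count 0 := ⟨a - X.count 0, by omega⟩
    rw [show c + count 0 X + 1 = c + 1 + count 0 X by omega, append_assoc, inc_skip,
      Nat.add_sub_cancel]
    cases d
    · simp [zer, Inc, hm.ne']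
    · cases c with
      | zero => simpa [zer, Inc.eq_3] using inc_min hV
      | succ c => simp [zer, Inc, hm.ne']
  · refine iff_of_false (fun H => ?_) (by simp [h])
    rcases hX with rfl | ⟨Y, u, rfl, hu⟩
    · simp at h
    · rw [append_assoc, append_assoc] at H
      rw [count_append, count_singleton', if_neg (by omega)] at h
      refine inc_past _ _ _ (by omega) H u m hm hu ?_
      simp

lemma inc_after {X W : List ℕ} {c : ℕ} : Inc (c + X.count 0 + 1) (X ++ 0 :: W) ↔ Inc c W := by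
  rw [show c + count 0 X + 1 = c + 1 + count 0 X by omega, inc_skip]
  simp [Inc]

lemma badA_mid {m : ℕ} {U V : List ℕ} (hU : Big m U) (hV : Big m V) (hm : 0 < m) :
    BadA (U ++ m :: V) ↔ BadA (U ++ 0 :: V) ∨ ¬ Inc 1 V := by
  rw [inc_one]
  constructor
  · rintro ⟨p, q, r, t, a, b, c, g⟩
    rcases sub4.1 g with h | ⟨rfl, h⟩ | ⟨rfl, h, h'⟩ | ⟨rfl, h, h'⟩ | ⟨rfl, h⟩
    · exact Or.inl ⟨p, q, r, t, a, b, c, sub4.2 (Or.inl h)⟩
    · have := hV q (h.subset (by simp))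
      obtain rfl : q = 0 := by omega
      exact Or.inr fun H => H r t (by omega) c h
    · exact Or.inl ⟨p, 0, r, t, by omega, b, c, sub4.2 (by simp [h, h'])⟩
    · have := hU p (h.subset (by simp)); omega
    · have := hU p (h.subset (by simp)); omega
  · rintro (⟨p, q, r, t, a, b, c, g⟩ | h)
    · rcases sub4.1 g with h | ⟨rfl, h⟩ | ⟨rfl, h, h'⟩ | ⟨rfl, h, h'⟩ | ⟨rfl, h⟩
      · exact ⟨p, q, r, t, a, b, c, sub4.2 (Or.inl h)⟩
      · omega
      · have := hU p h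
        exact ⟨p, m, r, t, by omega, b, c, sub4.2 (by simp [h, h'])⟩
      · omega
      · omega
    · push Not at h
      obtain ⟨r, t, a, b, h⟩ := h
      have := hV t (h.subset (by simp))
      exact ⟨m, 0, r, t, hm, by omega, b, sub4.2 (by simp [h])⟩

lemma badA_dup {U V : List ℕ} : BadA (U ++ 0 :: 0 :: V) ↔ BadA (U ++ 0 :: V) := by
  refine ⟨?_, fun ⟨p, q, r, t, a, b, c, h⟩ => ⟨p, q, r, t, a, b, c, sub4.2 (Or.inl h)⟩⟩
  rintro ⟨p, q, r, t, a, b, c, g⟩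
  rcases sub4.1 g with h | ⟨rfl, h⟩ | ⟨rfl, h, h'⟩ | ⟨rfl, h, h'⟩ | ⟨rfl, h⟩
  · exact ⟨p, q, r, t, a, b, c, h⟩
  · omega
  · exact ⟨p, 0, r, t, a, b, c, sub4.2 (by simp [h, h'.of_cons_of_ne (by omega)])⟩
  · omega
  · omega

lemma badB_mid {m : ℕ} {U V : List ℕ} (hU : Big m U) (hV : Big m V) (hm : 0 < m) :
    BadB (U ++ m :: V) ↔ BadB (U ++ 0 :: V) ∨ (0 ∈ U ∧ ¬ Inc0 V) := by
  constructor
  · rintro ⟨p, q, r, t, a, b, c, g⟩
    rcases sub4.1 g with h | ⟨rfl, h⟩ | ⟨rfl, h, h'⟩ | ⟨rfl, h, h'⟩ | ⟨rfl, h⟩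
    · exact Or.inl ⟨p, q, r, t, a, b, c, sub4.2 (Or.inl h)⟩
    · exact Or.inl ⟨0, q, r, t, by omega, b, c, sub4.2 (by simp [h])⟩
    · have := hU p h
      obtain rfl : p = 0 := by omega
      exact Or.inr ⟨h, fun H => H r t (by omega) c h'⟩
    · have := hU q (h.subset (by simp)); omega
    · have := hU q (h.subset (by simp)); omega
  · rintro (⟨p, q, r, t, a, b, c, g⟩ | ⟨h0, h⟩)
    · rcases sub4.1 g with h | ⟨rfl, h⟩ | ⟨rfl, h, h'⟩ | ⟨rfl, h, h'⟩ | ⟨rfl, h⟩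
      · exact ⟨p, q, r, t, a, b, c, sub4.2 (Or.inl h)⟩
      · have := hV q (h.subset (by simp))
        exact ⟨m, q, r, t, by omega, b, c, sub4.2 (by simp [h])⟩
      · omega
      · omega
      · omega
    · simp only [Inc0] at h
      push Not at h
      obtain ⟨r, t, a, b, h⟩ := h
      have := hV t (h.subset (by simp))
      exact ⟨0, m, r, t, hm, by omega, b, sub4.2 (by simp [h, h0])⟩

lemma badB_dup {U V : List ℕ} : BadB (U ++ 0 :: 0 :: V) ↔ BadB (U ++ 0 :: V) := by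
  refine ⟨?_, fun ⟨p, q, r, t, a, b, c, h⟩ => ⟨p, q, r, t, a, b, c, sub4.2 (Or.inl h)⟩⟩
  rintro ⟨p, q, r, t, a, b, c, g⟩
  rcases sub4.1 g with h | ⟨rfl, h⟩ | ⟨rfl, h, h'⟩ | ⟨rfl, h, h'⟩ | ⟨rfl, h⟩
  · exact ⟨p, q, r, t, a, b, c, h⟩
  · exact ⟨0, q, r, t, a, b, c, sub4.2 (by simp [h.of_cons_of_ne (by omega)])⟩
  · omega
  · omega
  · omega

end Pool.Agent.H8.Du
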