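import Pool.Agent.H8.Du1

namespace Pool.Agent.H8.Du

open List

def R (u v : ℕ) : Prop := if u = 0 then v ≠ 0 else if Even u then v < u else u < v

def mid (m : ℕ) (e : Bool) : List ℕ := zer (!e) ++ m :: zer (decide (Even m))

def zc (m : ℕ) (e : Bool) : ℕ := (if e then 0 else 1) + if Even m then 1 else 0

def Fill (m k s : ℕ) (l : List ℕ) : Prop := l.head? = some 0 ∧ l.count 0 = s + 1 ∧
  (l.filter (· ≠ 0)).Perm (range' m k) ∧ List.IsChain R (l ++ [m + k])

lemma Fill.big {m k s : ℕ} {l : List ℕ} (h : Fill (m + 1) k s l) : Big m l := fun x hx => by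
  by_cases e : x = 0
  · exact Or.inl e
  · have := mem_range'_1.1 (h.2.2.1.mem_iff.1 (mem_filter.2 ⟨hx, by simpa⟩))
    omega

lemma Fill.parts {m k s : ℕ} {P Q : List ℕ} (h : Fill (m + 1) k s (P ++ 0 :: Q)) :
    Big m P ∧ Big m Q ∧ End m P ∧ End m Q.reverse := by
  have b := h.big
  have c := h.2.2.2
  refine ⟨fun x hx => b x (by simp [hx]), fun x hx => b x (by simp [hx]), ?_, ?_⟩
  · rcases eq_nil_or_concat P with rfl | ⟨Y, u, rfl⟩
    · exact Or.inl rfl
    · refine Or.inr ⟨Y, u, by simp, (b u (by simp)).resolve_left ?_⟩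
      rintro rfl
      simp [isChain_append_cons_cons, R] at c
  · cases Q with
    | nil => exact Or.inl rfl
    | cons u Y =>
      refine Or.inr ⟨Y.reverse, u, by simp, (b u (by simp)).resolve_left ?_⟩
      rintro rfl
      simp [isChain_append_cons_cons, R] at c

lemma chain_left {m : ℕ} {P : List ℕ} (hm : 0 < m) (h : End m P) (e : Bool)
    (he : e → P ≠ []) : List.IsChain R (P ++ zer (!e) ++ [m]) ↔ List.IsChain R (P ++ [0]) := by
  cases e
  · simp [zer, isChain_append_cons_cons, R, hm.ne']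
  · rcases h with rfl | ⟨Y, u, rfl, hu⟩
    · simp at he
    · have u0 : u ≠ 0 := by omega
      have : R u m ↔ R u 0 := by
        simp only [R, if_neg u0]
        split_ifs <;> omega
      simp [zer, isChain_append_cons_cons, this]

lemma chain_right {m v : ℕ} {W : List ℕ} (hm : 0 < m) (h : v = 0 ∨ m < v) :
    List.IsChain R (m :: zer (decide (Even m)) ++ v :: W) ↔ List.IsChain R (0 :: v :: W) := by
  by_cases c : Even m
  · simp [zer, c, R, hm.ne', hm]
  · simp only [zer, c, decide_false, Bool.false_eq_true, if_false, cons_append, nil_append,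
      isChain_cons_cons, R, if_neg hm.ne', if_true]
    exact and_congr_left fun _ => by omega

lemma count_mid {m : ℕ} (hm : 0 < m) (e : Bool) : (mid m e).count 0 = zc m e := by
  cases e <;> by_cases c : Even m <;> simp [mid, zc, zer, c, count_cons, hm.ne']

lemma filter_mid {m : ℕ} (hm : 0 < m) (e : Bool) : (mid m e).filter (· ≠ 0) = [m] := by
  cases e <;> by_cases c : Even m <;> simp [mid, zer, c, hm.ne']

lemma fill_iff {m k s : ℕ} {P Q : List ℕ} {e : Bool} (hm : 0 < m) (he : e → P ≠ [])
    (hP : End m P) (hQ : Big m Q) (hs : s + 1 = P.count 0 + Q.count 0 + zc m e) :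
    Fill m (k + 1) s (P ++ mid m e ++ Q) ↔
      Fill (m + 1) k (P.count 0 + Q.count 0) (P ++ 0 :: Q) := by
  refine and_congr ?_ (and_congr ?_ (and_congr ?_ ?_))
  · cases P with
    | nil => cases e <;> simp [mid, zer] at he ⊢
    | cons a P => simp
  · simp only [count_append, count_mid hm, count_cons_self]; omega
  · simp only [filter_append, filter_mid hm, range'_succ, append_assoc, singleton_append]
    rw [filter_cons_of_neg (by simp)]
    exact ⟨fun h => (perm_middle.symm.trans h).cons_inv, fun h => perm_middle.trans (h.cons _)⟩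
  · obtain ⟨v, W, e1, e2⟩ : ∃ v W, Q ++ [m + (k + 1)] = v :: W ∧ (v = 0 ∨ m < v) := by
      cases Q with
      | nil => exact ⟨_, _, rfl, by omega⟩
      | cons v W => exact ⟨v, _, rfl, hQ v (by simp)⟩
    have E1 : P ++ mid m e ++ Q ++ [m + (k + 1)]
        = (P ++ zer (!e)) ++ m :: (zer (decide (Even m)) ++ v :: W) := by rw [← e1]; simp [mid]
    have E2 : P ++ 0 :: Q ++ [m + 1 + k] = P ++ 0 :: v :: W := by
      rw [← e1, show m + 1 + k = m + (k + 1) by omega]; simp
    rw [E1, E2, isChain_split (c := m), isChain_split (c := 0) (l₁ := P), chain_left hm hP e he,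
      ← cons_append, chain_right hm e2]

lemma fill_out {m k s : ℕ} {l : List ℕ} (hm : 0 < m) (h : Fill m (k + 1) s l) :
    ∃ P Q e, l = P ++ mid m e ++ Q ∧ (e → P ≠ []) ∧ End m P ∧ Big m Q := by
  obtain ⟨h1, h2, h3, h4⟩ := h
  have hm' : m ∈ l := (mem_filter.1 (h3.mem_iff.2 (by simp [range'_succ]))).1
  obtain ⟨U, V, rfl⟩ := append_of_mem hm'
  have nd : (m :: (U ++ V).filter (· ≠ 0)).Perm (m :: range' (m + 1) k) := by
    rw [← range'_succ]
    refine Perm.trans ?_ h3
    rw [filter_append, filter_append, filter_cons_of_pos (by simpa using hm.ne')]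
    exact perm_middle.symm
  have b : Big m (U ++ V) := fun x hx => by
    by_cases e : x = 0
    · exact Or.inl e
    · have := mem_range'_1.1 (nd.cons_inv.mem_iff.1 (mem_filter.2 ⟨hx, by simpa⟩))
      omega
  obtain ⟨Q, rfl⟩ : ∃ Q, V = zer (decide (Even m)) ++ Q := by
    by_cases c : Even m
    · rw [append_assoc, cons_append, isChain_split] at h4
      cases V with
      | nil => simp [R, c, hm.ne'] at h4
      | cons v V =>
        have := b v (by simp)
        simp only [cons_append, isChain_cons_cons, R, if_neg hm.ne', if_pos c] at h4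
        obtain rfl : v = 0 := by omega
        exact ⟨V, by simp [zer, c]⟩
    · exact ⟨V, by simp [zer, c]⟩
  have bQ : Big m Q := fun x hx => b x (by simp [hx])
  rcases eq_nil_or_concat U with rfl | ⟨Y, u, rfl⟩
  · simp at h1; omega
  · rcases b u (by simp) with rfl | hu
    · refine ⟨Y, Q, false, by simp [mid, zer], by simp, ?_, bQ⟩
      rcases eq_nil_or_concat Y with rfl | ⟨Z, w, rfl⟩
      · exact Or.inl rfl
      · refine Or.inr ⟨Z, w, by simp, (b w (by simp)).resolve_left ?_⟩
        rintro rfl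
        simp [isChain_append_cons_cons, R] at h4
    · exact ⟨Y ++ [u], Q, true, by simp [mid, zer], by simp, Or.inr ⟨Y, u, rfl, hu⟩, bQ⟩

def ins (M : List ℕ) : ℕ → List ℕ → List ℕ
  | _, [] => []
  | j, z :: l => if z = 0 then (if j = 0 then M ++ l else 0 :: ins M (j - 1) l) else z :: ins M j l

lemma ins_eq (M Q : List ℕ) : ∀ P : List ℕ, ins M (P.count 0) (P ++ 0 :: Q) = P ++ M ++ Q
  | [] => by simp [ins]
  | z :: P => by
    by_cases h : z = 0
    · subst h; simp [ins, ins_eq M Q P]
    · simp [ins, h, ins_eq M Q P]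

lemma split : ∀ (l : List ℕ) (j : ℕ), j < l.count 0 → ∃ P Q, l = P ++ 0 :: Q ∧ P.count 0 = j
  | [], _, h => by simp at h
  | z :: l, j, h => by
    by_cases e : z = 0
    · subst e
      cases j with
      | zero => exact ⟨[], l, rfl, rfl⟩
      | succ j =>
        obtain ⟨P, Q, rfl, rfl⟩ := split l j (by simpa using h)
        exact ⟨0 :: P, Q, rfl, by simp⟩
    · obtain ⟨P, Q, rfl, rfl⟩ := split l j (by simpa [e] using h)
      exact ⟨z :: P, Q, rfl, by simp [e]⟩

lemma split_inj {m : ℕ} {V V' : List ℕ} : ∀ {U U' : List ℕ}, m ∉ U → m ∉ U' →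
    U ++ m :: V = U' ++ m :: V' → U = U' ∧ V = V'
  | [], [], _, _, h => by simpa using h
  | [], _ :: _, _, b, h => by simp at h b; omega
  | _ :: _, [], a, _, h => by simp at h a; omega
  | x :: U, y :: U', a, b, h => by
    simp only [cons_append, cons.injEq, mem_cons, not_or] at h a b ⊢
    obtain ⟨h1, h2⟩ := split_inj a.2 b.2 h.2
    exact ⟨⟨h.1, h1⟩, h2⟩

lemma mid_inj {m : ℕ} {P Q P' Q' : List ℕ} {e e' : Bool} (hm : 0 < m) (b : Big m P) (b' : Big m P')
    (h : End m P) (h' : End m P') (he : e → P ≠ []) (he' : e' → P' ≠ [])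
    (H : P ++ mid m e ++ Q = P' ++ mid m e' ++ Q') : e = e' ∧ P = P' ∧ Q = Q' := by
  have nm : ∀ (P : List ℕ) (d : Bool), Big m P → m ∉ P ++ zer d := fun P d b hx => by
    rcases mem_append.1 hx with hx | hx
    · have := b m hx; omega
    · cases d <;> simp [zer] at hx; omega
  simp only [mid, ← append_assoc] at H
  simp only [append_assoc _ (m :: _), cons_append] at H
  obtain ⟨e1, e2⟩ := split_inj (nm P _ b) (nm P' _ b') H
  refine (and_assoc.1 ⟨?_, append_cancel_left e2⟩)
  cases e <;> cases e' <;> simp [zer] at e1 he he' ⊢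
  · exact e1
  · rcases h' with rfl | ⟨Y, u, rfl, hu⟩
    · simp at he'
    · simp at e1; omega
  · rcases h with rfl | ⟨Y, u, rfl, hu⟩
    · simp at he
    · simp at e1; omega
  · exact e1

end Pool.Agent.H8.Du
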