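import Pool.Agent.H8.Du2

namespace Pool.Agent.H8.Du

open List

section
variable (ok : ℕ → ℕ → ℕ → Bool) (nx : ℕ → Bool → ℕ → ℕ → ℕ → ℕ)

def enum : ℕ → ℕ → ℕ → ℕ → List (List ℕ)
  | 0, _, _, s => if s = 0 then [[0]] else []
  | k + 1, m, a, s => ([true, false] ×ˢ range (s + 2)).flatMap fun x =>
      if x.2 + zc m x.1 ≤ s + 1 ∧ (x.1 → 1 ≤ x.2) ∧ ok a x.2 (s + 1 - zc m x.1 - x.2) then
        (enum k (m + 1) (nx m x.1 a x.2 (s + 1 - zc m x.1 - x.2)) (s + 1 - zc m x.1)).map
          (ins (mid m x.1) x.2)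
      else []

def Step (Φ : ℕ → List ℕ → Prop) : Prop :=
  ∀ m e a P Q, 0 < m → Big m P → Big m Q → End m P → End m Q.reverse →
    (Φ a (P ++ mid m e ++ Q) ↔ ok a (P.count 0) (Q.count 0) ∧
      Φ (nx m e a (P.count 0) (Q.count 0)) (P ++ 0 :: Q))

variable {ok nx} {Φ : ℕ → List ℕ → Prop}

lemma mem_enum (H : Step ok nx Φ) (H0 : ∀ a, Φ a [0]) : ∀ (k m a s : ℕ) (l : List ℕ), 0 < m →
    (l ∈ enum ok nx k m a s ↔ Fill m k s l ∧ Φ a l)
  | 0, m, a, s, l, hm => by
    simp only [enum]
    constructor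
    · intro h
      split_ifs at h with e
      · simp at h; subst h e
        exact ⟨by simp [Fill, R, hm.ne'], H0 a⟩
      · simp at h
    · rintro ⟨⟨h1, h2, h3, h4⟩, -⟩
      rcases l with _ | ⟨x, _ | ⟨y, l⟩⟩
      · simp at h1
      · simp at h1; subst h1; simp at h2; simp [h2]
      · simp at h1 h3; subst h1
        simp [R] at h4
        omega
  | k + 1, m, a, s, l, hm => by
    simp only [enum, mem_flatMap]
    constructor
    · rintro ⟨⟨e, j⟩, -, h⟩
      split_ifs at h with c
      · obtain ⟨l', h1, rfl⟩ := mem_map.1 h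
        obtain ⟨h2, h3⟩ := (mem_enum H H0 k _ _ _ _ (by omega)).1 h1
        simp only at c h2 h3 ⊢
        obtain ⟨P, Q, rfl, rfl⟩ := split l' j (by rw [h2.2.1]; omega)
        have cnt := h2.2.1
        simp only [count_append, count_cons_self] at cnt
        obtain ⟨b1, b2, b3, b4⟩ := h2.parts
        rw [show s + 1 - zc m e - count 0 P = count 0 Q by omega] at c h3
        rw [show s + 1 - zc m e = count 0 P + count 0 Q by omega] at h2
        rw [ins_eq]
        exact ⟨(fill_iff hm (fun he hP => by simpa [hP] using c.2.1 he) b3 b2 (by omega)).2 h2,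
          (H m e a P Q hm b1 b2 b3 b4).2 ⟨c.2.2, h3⟩⟩
      · simp at h
    · rintro ⟨h1, h2⟩
      obtain ⟨P, Q, e, rfl, a1, a2, a3⟩ := fill_out hm h1
      have cnt := h1.2.1
      simp only [count_append, count_mid hm] at cnt
      have h3 := (fill_iff hm a1 a2 a3 (by omega)).1 h1
      obtain ⟨b1, b2, b3, b4⟩ := h3.parts
      obtain ⟨c1, c2⟩ := (H m e a P Q hm b1 b2 b3 b4).1 h2
      have e1 : s + 1 - zc m e = count 0 P + count 0 Q := by omega
      refine ⟨(e, P.count 0), by cases e <;> simp <;> omega, ?_⟩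
      simp only [e1, Nat.add_sub_cancel_left]
      have hc : e → 1 ≤ count 0 P := fun he => by
        have := h3.1
        cases P with
        | nil => exact absurd rfl (a1 he)
        | cons x P => simp at this; simp [this]
      rw [if_pos ⟨by omega, hc, c1⟩]
      exact mem_map.2 ⟨_, (mem_enum H H0 k _ _ _ _ (by omega)).2 ⟨h3, c2⟩, ins_eq _ _ _⟩

lemma enum_nodup (H : Step ok nx Φ) (H0 : ∀ a, Φ a [0]) : ∀ (k m a s : ℕ), 0 < m →
    (enum ok nx k m a s).Nodup
  | 0, m, a, s, _ => by simp only [enum]; split_ifs <;> simp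
  | k + 1, m, a, s, hm => by
    have key : ∀ (e e' : Bool) (j j' a a' : ℕ) (x y : List ℕ), j + zc m e ≤ s + 1 →
        (e → 1 ≤ j) → j' + zc m e' ≤ s + 1 → (e' → 1 ≤ j') →
        x ∈ enum ok nx k (m + 1) a (s + 1 - zc m e) →
        y ∈ enum ok nx k (m + 1) a' (s + 1 - zc m e') →
        ins (mid m e) j x = ins (mid m e') j' y → (e, j) = (e', j') ∧ x = y := by
      intro e e' j j' a a' x y c1 c2 d1 d2 hx hy E
      have fx := ((mem_enum H H0 k _ _ _ _ (by omega)).1 hx).1
      have fy := ((mem_enum H H0 k _ _ _ _ (by omega)).1 hy).1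
      obtain ⟨P, Q, rfl, rfl⟩ := split x j (by rw [fx.2.1]; omega)
      obtain ⟨P', Q', rfl, rfl⟩ := split y j' (by rw [fy.2.1]; omega)
      rw [ins_eq, ins_eq] at E
      obtain ⟨rfl, rfl, rfl⟩ := mid_inj hm fx.parts.1 fy.parts.1 fx.parts.2.2.1 fy.parts.2.2.1
        (fun he hP => by simpa [hP] using c2 he) (fun he hP => by simpa [hP] using d2 he) E
      simp
    simp only [enum]
    refine nodup_flatMap.2 ⟨fun x _ => ?_, ?_⟩
    · split_ifs with c
      · exact (enum_nodup H H0 k _ _ _ (by omega)).map_on fun u hu v hv E =>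
          (key _ _ _ _ _ _ u v c.1 c.2.1 c.1 c.2.1 hu hv E).2
      · simp
    · refine Pairwise.imp (fun {x y} hxy z hz hz' => ?_)
        (Nodup.product (by simp) nodup_range : ([true, false] ×ˢ range (s + 2)).Nodup)
      dsimp only at hz hz'
      split_ifs at hz hz' with c d <;> try simp at hz hz'
      obtain ⟨u, hu, rfl⟩ := hz
      obtain ⟨v, hv, E⟩ := hz'
      exact hxy (key _ _ _ _ _ _ u v c.1 c.2.1 d.1 d.2.1 hu hv E.symm).1

lemma enum_len (k m a s : ℕ) : (enum ok nx (k + 1) m a s).length =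
    ∑ e : Bool, ∑ j ∈ Finset.range (s + 2),
      if j + zc m e ≤ s + 1 ∧ (e → 1 ≤ j) ∧ ok a j (s + 1 - zc m e - j) then
        (enum ok nx k (m + 1) (nx m e a j (s + 1 - zc m e - j)) (s + 1 - zc m e)).length
      else 0 := by
  have key : ∀ (f : ℕ → ℕ) (n : ℕ), ((range n).map f).sum = ∑ i ∈ Finset.range n, f i :=
    fun f n => by induction n <;> simp [range_succ, Finset.sum_range_succ, *]
  rw [enum, length_flatMap]
  simp only [apply_ite length, length_map, length_nil, Fintype.sum_bool, ← key, product_cons,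
    nil_product, map_append, map_map, sum_append, Function.comp_def, append_nil]

end

def PhiA (a : ℕ) (l : List ℕ) : Prop := ¬ BadA l ∧ Inc (a + 1) l

def PhiB (a : ℕ) (l : List ℕ) : Prop := ¬ BadB l.reverse ∧ Inc (a + 1) l.reverse

def nxA (m : ℕ) (e : Bool) (a p _q : ℕ) : ℕ :=
  if Even m then p else if e = false ∧ p = a then a else p + 1

def nxB (m : ℕ) (e : Bool) (a _p q : ℕ) : ℕ :=
  if ¬ Even m ∧ q = 0 then (if e then a + 1 else a) else q

lemma big_zer {m : ℕ} {P : List ℕ} (h : Big m P) (d : Bool) :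
    Big m (P ++ zer d) ∧ Big m (zer d ++ P) := by
  cases d <;> simp only [zer, Big] at * <;> simp <;> grind

lemma stepA : Step (fun a p _ => p ≤ a) nxA PhiA := by
  intro m e a P Q hm b1 b2 b3 _
  have E : P ++ mid m e ++ Q = P ++ zer (!e) ++ m :: (zer (decide (Even m)) ++ Q) := by simp [mid]
  have D : BadA (P ++ zer (!e) ++ 0 :: (zer (decide (Even m)) ++ Q)) ↔ BadA (P ++ 0 :: Q) := by
    cases e <;> by_cases c : Even m <;> simp [zer, c, badA_dup]
  have bV := (big_zer b2 (decide (Even m))).2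
  rw [PhiA, PhiA, E, badA_mid (big_zer b1 _).1 bV hm, inc_step hm b3 bV, D, not_or, not_not,
    decide_eq_true_eq]
  by_cases h : P.count 0 ≤ a
  swap
  · simp [h]
  simp only [h, true_and, and_assoc]
  refine and_congr_right fun _ => ?_
  have A0 := @inc_after P Q 0
  have A1 := @inc_after P Q 1
  rw [zero_add] at A0
  rw [add_comm 1] at A1
  by_cases c : Even m
  · simp only [nxA, c, if_true, A0, decide_true, zer, singleton_append, Inc]
    refine ⟨fun h => h.1, fun h => ⟨h, inc_le (Nat.zero_le _) ?_⟩⟩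
    rw [inc_0, inc_zero]; exact h
  · simp only [nxA, c, if_false, decide_false, zer, Bool.false_eq_true, nil_append]
    by_cases d : e = false ∧ P.count 0 = a
    · obtain ⟨rfl, rfl⟩ := d
      simp only [and_self, if_true, A0, Bool.not_false, Nat.add_sub_cancel_left, Nat.sub_self]
      exact ⟨fun h => h.2, fun h => ⟨inc_mono _ _ h, h⟩⟩
    · rw [if_neg d, A1]
      refine ⟨fun h => h.1, fun h => ⟨h, inc_le ?_ h⟩⟩
      cases e <;> simp at d ⊢ <;> omega

lemma stepB : Step (fun a _ q => q ≤ a) nxB PhiB := by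
  intro m e a P Q hm b1 b2 _ b4
  have zr : ∀ d, (zer d).reverse = zer d := fun d => by cases d <;> rfl
  have E : (P ++ mid m e ++ Q).reverse
      = Q.reverse ++ zer (decide (Even m)) ++ m :: (zer (!e) ++ P.reverse) := by simp [mid, zr]
  have E' : (P ++ 0 :: Q).reverse = Q.reverse ++ 0 :: P.reverse := by simp
  have b1' : Big m P.reverse := fun x hx => b1 x (by simpa using hx)
  have b2' : Big m Q.reverse := fun x hx => b2 x (by simpa using hx)
  have cq : Q.count 0 = Q.reverse.count 0 := by simp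
  rw [PhiB, PhiB, E, E', cq]
  generalize P.reverse = P at *
  generalize Q.reverse = Q at *
  have D : BadB (Q ++ zer (decide (Even m)) ++ 0 :: (zer (!e) ++ P)) ↔ BadB (Q ++ 0 :: P) := by
    cases e <;> by_cases c : Even m <;> simp [zer, c, badB_dup]
  have bV := (big_zer b1' (!e)).2
  have I0 : Inc0 (zer (!e) ++ P) ↔ Inc0 P := by cases e <;> simp [zer, inc_zero]
  rw [badB_mid (big_zer b2' _).1 bV hm, inc_step hm b4 bV, D, not_or, I0]
  simp only [decide_eq_true_eq]
  by_cases h : Q.count 0 ≤ a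
  swap
  · simp [h]
  simp only [h, true_and, and_assoc]
  refine and_congr_right fun _ => ?_
  have A0 := @inc_after Q P 0
  rw [zero_add, inc_0] at A0
  have mono : ∀ c, Inc0 P → Inc c (zer (!e) ++ P) := fun c h =>
    inc_le (Nat.zero_le _) ((inc_0 _).2 (I0.2 h))
  by_cases c : ¬ Even m ∧ Q.count 0 = 0
  · have A := @inc_after Q P
    have n0 : 0 ∉ Q := count_eq_zero.1 c.2
    simp only [c.2, add_zero] at A
    cases e <;> simp [nxB, c.1, c.2, zer, n0, A, Inc]
  · rw [nxB, if_neg c, A0]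
    have : 0 ∈ Q ++ zer (decide (Even m)) := by
      by_cases c' : Even m
      · simp [zer, c']
      · simp only [c', not_false_iff, true_and] at c
        exact mem_append_left _ (count_pos_iff.1 (by omega))
    simp only [this, true_and, not_not]
    exact ⟨fun h => h.1, fun h => ⟨h, mono _ h⟩⟩

end Pool.Agent.H8.Du
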