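import Pool.Agent.H8.Du3

namespace Pool.Agent.H8.Du

open Finset

lemma conv {N n : ℕ} {p : ℕ → Prop} [DecidablePred p] {f g : ℕ → ℕ} (φ ψ : ℕ → ℕ)
    (h1 : ∀ j < N, p j → φ j < n ∧ ψ (φ j) = j ∧ f j = g (φ j))
    (h2 : ∀ c < n, ψ c < N ∧ p (ψ c) ∧ φ (ψ c) = c) :
    ∑ j ∈ range N, (if p j then f j else 0) = ∑ c ∈ range n, g c := by
  rw [← sum_filter]
  refine sum_nbij' φ ψ ?_ ?_ ?_ ?_ ?_ <;> simp only [mem_filter, mem_range]
  · exact fun j h => (h1 j h.1 h.2).1
  · exact fun c h => ⟨(h2 c h).1, (h2 c h).2.1⟩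
  · exact fun j h => (h1 j h.1 h.2).2.1
  · exact fun c h => (h2 c h).2.2
  · exact fun j h => (h1 j h.1 h.2).2.2

def cA (k m a s : ℕ) : ℕ := (enum (fun a p _ => p ≤ a) nxA k m a s).length

def cB (k m a s : ℕ) : ℕ := (enum (fun a _ q => q ≤ a) nxB k m a s).length

lemma cA_even {m : ℕ} (h : Even m) (k a s : ℕ) : cA (k + 1) m a s =
    ∑ c ∈ range (min a s), cA k (m + 1) (c + 1) s
      + ∑ c ∈ range (min (a + 1) s), cA k (m + 1) c (s - 1) := by
  simp only [cA, enum_len, Fintype.sum_bool, zc, nxA, h, if_true, decide_eq_true_eq,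
    Bool.false_eq_true, if_false, forall_true_left, false_imp_iff, true_and]
  congr 1
  · exact conv (· - 1) (· + 1) (fun j _ h => ⟨by omega, by omega, by congr 2 <;> omega⟩)
      fun c h => by omega
  · exact conv id id (fun j _ h => ⟨by simp; omega, rfl, by congr 2 <;> omega⟩) fun c h => by simp; omega

lemma cA_odd {m : ℕ} (h : ¬ Even m) (k : ℕ) {a s : ℕ} (ha : a ≤ s) : cA (k + 1) m a s =
    ∑ c ∈ range a, cA k (m + 1) (c + 2) (s + 1)
      + (∑ c ∈ range a, cA k (m + 1) (c + 1) s + cA k (m + 1) a s) := by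
  simp only [cA, enum_len, Fintype.sum_bool, zc, nxA, h, if_true, decide_eq_true_eq,
    Bool.false_eq_true, if_false, forall_true_left, false_imp_iff, true_and, Bool.true_eq_false,
    false_and]
  congr 1
  · exact conv (· - 1) (· + 1) (fun j _ h => ⟨by omega, by omega, by congr 2 <;> omega⟩)
      fun c h => by omega
  · rw [conv (n := a + 1) (g := fun c => (enum (fun a p _ => p ≤ a) nxA k (m + 1)
      (if c = a then a else c + 1) s).length) id id
      (fun j _ h => ⟨by simp; omega, rfl, by congr 2 <;> omega⟩) fun c h => by simp; omega, sum_range_succ]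
    simp only [if_true, add_left_inj]
    exact sum_congr rfl fun c hc => by rw [if_neg (mem_range.1 hc).ne]

lemma cB_even {m : ℕ} (h : Even m) (k a s : ℕ) : cB (k + 1) m a s =
    ∑ c ∈ range (min (a + 1) s), (cB k (m + 1) c (s - 1) + cB k (m + 1) c s) := by
  simp only [cB, enum_len, Fintype.sum_bool, zc, nxB, h, if_true, decide_eq_true_eq,
    Bool.false_eq_true, if_false, forall_true_left, false_imp_iff, true_and, not_true, false_and,
    sum_add_distrib]
  rw [add_comm]
  congr 1
  · exact conv (s - 1 - ·) (s - 1 - ·) (fun j _ h => ⟨by omega, by omega, by congr 2 <;> omega⟩)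
      fun c h => by omega
  · exact conv (s - ·) (s - ·) (fun j _ h => ⟨by omega, by omega, by congr 2 <;> omega⟩)
      fun c h => by omega

lemma cB_odd {m : ℕ} (h : ¬ Even m) (k : ℕ) {a s : ℕ} (ha : a ≤ s) : cB (k + 1) m a s =
    ∑ c ∈ range (a + 1), cB k (m + 1) (c + 1) (s + 1)
      + (∑ c ∈ range a, cB k (m + 1) (c + 1) s + cB k (m + 1) a s) := by
  simp only [cB, enum_len, Fintype.sum_bool, zc, nxB, h, if_true, decide_eq_true_eq,
    Bool.false_eq_true, if_false, forall_true_left, false_imp_iff, true_and, not_false_iff]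
  congr 1
  · rw [conv (n := a + 1) (g := fun c => (enum (fun a _ q => q ≤ a) nxB k (m + 1)
      (if c = 0 then a + 1 else c) (s + 1)).length) (s + 1 - ·) (s + 1 - ·)
      (fun j _ h => ⟨by omega, by omega, by congr 2 <;> omega⟩) fun c h => by omega, sum_range_succ',
      sum_range_succ]
    simp
  · rw [conv (n := a + 1) (g := fun c => (enum (fun a _ q => q ≤ a) nxB k (m + 1)
      (if c = 0 then a else c) s).length) (s - ·) (s - ·)
      (fun j _ h => ⟨by omega, by omega, by congr 2 <;> omega⟩) fun c h => by omega, sum_range_succ']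
    simp

lemma inv : ∀ (k m : ℕ), ¬ Even m → ∀ s c, c ≤ s →
    cB (2 * k) m c s + cB (2 * k) m c (s + 1) = cA (2 * k) m c s + cA (2 * k) m (c + 1) (s + 1)
  | 0, m, _, s, c, _ => by simp [cA, cB, enum]
  | k + 1, m, hm, s, c, hc => by
    have he : Even (m + 1) := Nat.even_add_one.2 hm
    have ih := inv k (m + 1 + 1) (by simpa [Nat.even_add_one] using hm)
    set F := cA (2 * k) (m + 1 + 1)
    let Q : ℕ → ℕ → ℕ := fun a s => ∑ c ∈ range (min a s), F (c + 1) s
    let P : ℕ → ℕ → ℕ := fun a s => ∑ c ∈ range (min (a + 1) s), F c (s - 1)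
    have gA : ∀ a s, cA (2 * k + 1) (m + 1) a s = Q a s + P a s := fun a s => cA_even he _ a s
    have gB : ∀ a s, cB (2 * k + 1) (m + 1) a s = Q (a + 1) s + P a s := fun a s => by
      rw [cB_even he, ← sum_add_distrib]
      refine sum_congr rfl fun c hc => ?_
      have hc := mem_range.1 hc
      obtain ⟨s, rfl⟩ : ∃ t, s = t + 1 := ⟨s - 1, by omega⟩
      rw [Nat.add_sub_cancel, ih s c (by omega), add_comm]
    have PQ : ∀ a s, P a (s + 1) = F 0 s + Q a s := fun a s => by
      simp only [P, Q, Nat.add_sub_cancel, Nat.succ_min_succ, sum_range_succ', add_comm]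
    rw [show 2 * (k + 1) = 2 * k + 1 + 1 by ring, cB_odd hm _ hc, cB_odd hm _ (show c ≤ s + 1 by omega),
      cA_odd hm _ hc, cA_odd hm _ (show c + 1 ≤ s + 1 by omega)]
    simp only [gA, gB, PQ, sum_add_distrib, sum_range_succ, add_assoc, Nat.reduceAdd]
    omega

theorem counts (n : ℕ) : cA (2 * n) 1 1 0 = cB (2 * n) 1 0 0 := by
  cases n with
  | zero => simp [cA, cB, enum]
  | succ k =>
    have ih := inv k 3 (by decide) 0 0 le_rfl
    have h1 : cA (2 * k + 1 + 1) 1 1 0 = cA (2 * k + 1) 2 2 1 + cA (2 * k + 1) 2 1 0 := by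
      simp [cA, enum_len, sum_range_succ, zc, nxA]
    rw [show 2 * (k + 1) = 2 * k + 1 + 1 by ring, h1, cB_odd (by decide) _ le_rfl]
    simp [cA_even (m := 2) (by decide), cB_even (m := 2) (by decide)] at ih ⊢
    omega

end Pool.Agent.H8.Du
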