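import Pool.Agent.H8.Pc2

namespace Pool.Agent.H8.Pc

def del (m : ℕ) : Fl → Ad × Fl
  | .nil => (.dd, .nil)
  | .cons w k r =>
    if m ∈ w then
      (if w.take (w.idxOf m) = [] then
        (if w.drop (w.idxOf m + 1) = [] then (.pk, k)
          else (.da, .cons (w.drop (w.idxOf m + 1)) .nil k))
      else (if w.drop (w.idxOf m + 1) = [] then (.dd, .cons (w.take (w.idxOf m)) k r)
        else (.val, .cons (w.take (w.idxOf m)) (.cons (w.drop (w.idxOf m + 1)) .nil k) r)))
    else if m ∈ vals k then (.kid (del m k).1, .cons w (del m k).2 r)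
    else (.nxt (del m r).1, .cons w k (del m r).2)

lemma idx_split {m : ℕ} {s : List ℕ} (hs : m ∉ s) (t : List ℕ) :
    (s ++ m :: t).take ((s ++ m :: t).idxOf m) = s ∧
      (s ++ m :: t).drop ((s ++ m :: t).idxOf m + 1) = t := by
  have : (s ++ m :: t).idxOf m = s.length := by
    rw [List.idxOf_append_of_notMem hs]; simp
  rw [this]
  simp

lemma del_ins {m : ℕ} : ∀ {F : Fo} {l : Bool} {a : Ad} {fl : Fl} {M : List ℕ}, a ∈ addrs F l →
    shape fl = mv a F → m ∉ vals fl → Valid fl M → del m (ins m a fl) = (a, fl)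
  | .nil, _, _, _, _, h, _, _, _ => by simp [addrs] at h
  | .cons k r, l, a, fl, M, h, hs, hm, hv => by
    rcases mem_addrs.1 h with rfl | rfl | ⟨⟨hl', rfl⟩, rfl | rfl⟩ | ⟨b, hb, rfl⟩ | ⟨b, hb, rfl⟩
    · obtain ⟨w, K, R, rfl, rfl, rfl⟩ := shape_cons hs
      have hw : m ∉ w := fun e => hm (by simp [vals, e])
      obtain ⟨e1, e2⟩ := idx_split hw []
      simp only [ins, del, e1, e2, hv.1]
      simp
    · obtain ⟨w, K, R, rfl, h1, rfl⟩ := shape_cons hs
      obtain ⟨w', K', R', rfl, h2, rfl⟩ := shape_cons h1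
      obtain rfl := shape_nil h2
      have hw : m ∉ w := fun e => hm (by simp [vals, e])
      obtain ⟨e1, e2⟩ := idx_split hw w'
      simp only [ins, del, e1, e2, hv.1, hv.2.2.2.1.1]
      simp
    · obtain ⟨w, K, R, rfl, h1, rfl⟩ := shape_cons hs
      obtain rfl := shape_nil h1
      simp [ins, del, hv.1]
    · simp [ins, del]
    · obtain ⟨w, K, R, rfl, h1, rfl⟩ := shape_cons hs
      have hw : m ∉ w := fun e => hm (by simp [vals, e])
      have a2 := (ins_shape (m := m) hb h1).2
      have ih := del_ins (m := m) hb h1 (fun e => hm (by simp [vals, e])) hv.2.2.2.1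
      simp [ins, del, hw, a2.mem_iff, ih]
    · obtain ⟨w, K, R, rfl, rfl, h1⟩ := shape_cons hs
      have hw : m ∉ w := fun e => hm (by simp [vals, e])
      have hk : m ∉ vals K := fun e => hm (by simp [vals, e])
      have ih := del_ins (m := m) hb h1 (fun e => hm (by simp [vals, e])) hv.2.2.2.2
      simp [ins, del, hw, hk, ih]

def enum : ℕ → Fo → ℕ → List Fl
  | 0, F, _ => if F = .nil then [.nil] else []
  | n + 1, F, m => (addrs F true).flatMap fun a => (enum n (mv a F) (m + 1)).map (ins m a)

lemma mem_enum : ∀ (n : ℕ) (F : Fo) (m : ℕ) (fl : Fl), fl ∈ enum n F m ↔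
    shape fl = F ∧ Valid fl [] ∧ (vals fl).Perm (List.range' m n)
  | 0, F, m, fl => by
    simp only [enum, List.range'_zero, List.perm_nil]
    constructor
    · intro h
      split_ifs at h with e
      · simp at h; subst h e; exact ⟨rfl, trivial, rfl⟩
      · simp at h
    · rintro ⟨rfl, h1, h2⟩
      obtain rfl := vals_nil h1 h2
      simp [shape]
  | n + 1, F, m, fl => by
    simp only [enum, List.mem_flatMap, List.mem_map, List.range'_succ]
    constructor
    · rintro ⟨a, ha, fl', h, rfl⟩
      obtain ⟨h1, h2, h3⟩ := (mem_enum n _ _ _).1 h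
      obtain ⟨a1, a2⟩ := ins_shape (m := m) ha h1
      refine ⟨a1, ins_valid ha h1 (fun _ => rfl) (fun y hy => ?_) h2, a2.trans (h3.cons _)⟩
      have := List.mem_range'_1.1 (h3.mem_iff.1 hy)
      omega
    · rintro ⟨rfl, h2, h3⟩
      have hn : (vals fl).Nodup := by
        rw [h3.nodup_iff, ← List.range'_succ]; exact List.nodup_range'
      obtain ⟨a, ha, fl', s1, s2, s3⟩ := ins_surj (m := m) (l := true) h2 (fun _ => rfl)
        (h3.mem_iff.2 (by simp)) hn (fun y hy => by
          rcases List.mem_cons.1 (h3.mem_iff.1 hy) with e | e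
          · omega
          · have := List.mem_range'_1.1 e; omega) (by simp)
      refine ⟨a, ha, fl', (mem_enum n _ _ _).2 ⟨s1, s2, ?_⟩, s3⟩
      have a2 := (ins_shape (m := m) ha s1).2
      rw [s3] at a2
      exact (a2.symm.trans h3).cons_inv

lemma del_enum {n : ℕ} {F : Fo} {m : ℕ} {a : Ad} (ha : a ∈ addrs F true) {fl : Fl}
    (h : fl ∈ enum n (mv a F) (m + 1)) : del m (ins m a fl) = (a, fl) := by
  obtain ⟨h1, h2, h3⟩ := (mem_enum n _ _ _).1 h
  refine del_ins ha h1 (fun e => ?_) h2
  have := List.mem_range'_1.1 (h3.mem_iff.1 e)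
  omega

lemma enum_nodup : ∀ (n : ℕ) (F : Fo) (m : ℕ), (enum n F m).Nodup
  | 0, F, m => by simp only [enum]; split_ifs <;> simp
  | n + 1, F, m => by
    simp only [enum]
    refine List.nodup_flatMap.2 ⟨fun a ha => (enum_nodup n _ _).map_on fun x hx y hy e => ?_, ?_⟩
    · have := del_enum ha hx
      rw [e, del_enum ha hy] at this
      exact (Prod.ext_iff.1 this).2.symm
    · refine List.Pairwise.imp_of_mem (fun {a b} ha hb hab => ?_) (addrs_nodup F true)
      intro z hz hz'
      obtain ⟨x, hx, rfl⟩ := List.mem_map.1 hz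
      obtain ⟨y, hy, e⟩ := List.mem_map.1 hz'
      have := del_enum hb hy
      rw [e, del_enum ha hx] at this
      exact hab (Prod.ext_iff.1 this).1

lemma enum_length : ∀ (n : ℕ) (F : Fo) (m : ℕ), ((enum n F m).length : ℤ) = pair (mu F) n
  | 0, F, m => by
    cases F with
    | nil => simp [enum, pair, lev, mu]
    | cons k r => simp [enum, pair, lev, mu, I_Xmul, mul_assoc]
  | n + 1, F, m => by
    have := sum_moves F true
    simp only [if_true] at this
    rw [pair_succ, ← this, ← pair_sum, List.map_map, enum, List.length_flatMap]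
    push_cast
    rw [List.map_map]
    congr 1
    refine List.map_congr_left fun a _ => ?_
    simp [enum_length n]

lemma ok_iff : ∀ l : List ℕ, Ok (dom []) l ↔ ∀ i j k : ℕ, ∀ hk : k < l.length, ∀ h1 : i + 1 < j,
    ∀ h2 : j < k, l[i] < l[i + 1] → l[j] < l[i] → l[k] ≤ l[i + 1]
  | [] => by simp [Ok]
  | [_] => by
    simp only [Ok, true_iff]
    intro i j k hk h1 h2
    simp at hk; omega
  | a :: b :: R => by
    rw [Ok, ok_iff (b :: R)]
    constructor
    · rintro ⟨h0, h⟩ i j k hk h1 h2
      obtain ⟨j, rfl⟩ : ∃ j', j = j' + 2 := ⟨j - 2, by omega⟩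
      obtain ⟨k, rfl⟩ : ∃ k', k = k' + 2 := ⟨k - 2, by omega⟩
      cases i with
      | zero =>
        intro e1 e2
        simp only [List.length_cons] at hk
        refine (h0 e1).1 (R[j]'(by omega)) (R[k]'(by omega)) ?_ e2
        refine List.sublist_iff_exists_fin_orderEmbedding_get_eq.2
          ⟨OrderEmbedding.ofStrictMono (fun x => if x.val = 0 then ⟨j, by omega⟩ else ⟨k, by omega⟩)
            ?_, ?_⟩
        · intro x y hxy
          have := y.2
          have : x.val < y.val := hxy
          simp only [List.length_cons, List.length_nil] at *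
          split_ifs <;> simp [Fin.lt_def] <;> omega
        · intro x
          fin_cases x <;> simp
      | succ i =>
        exact h i (j + 1) (k + 1) (by simpa using hk) (by omega) (by omega)
    · intro h
      refine ⟨fun hab => ⟨fun c d hs hc => ?_, by simp [dom]⟩, fun i j k hk h1 h2 => ?_⟩
      · obtain ⟨f, hf⟩ := List.sublist_iff_exists_fin_orderEmbedding_get_eq.1 hs
        have e0 := hf ⟨0, by simp⟩
        have e1 := hf ⟨1, by simp⟩
        have lt : f ⟨0, by simp⟩ < f ⟨1, by simp⟩ := f.strictMono (by simp [Fin.lt_def])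
        have := h 0 ((f ⟨0, by simp⟩).val + 2) ((f ⟨1, by simp⟩).val + 2)
          (by have := (f ⟨1, by simp⟩).2; simp only [List.length_cons]; omega) (by omega)
          (by have : (f ⟨0, by simp⟩).val < (f ⟨1, by simp⟩).val := lt; omega) hab
        simp only [List.get_eq_getElem, List.getElem_cons_zero, List.getElem_cons_succ] at e0 e1 this
        rw [← e0, ← e1] at this
        exact this hc
      · exact h (i + 1) (j + 1) (k + 1) (by simpa using hk) (by omega) (by omega)

def word {n : ℕ} (π : Equiv.Perm (Fin n)) : List ℕ := List.ofFn fun i => (π i).val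

lemma ok_word {n : ℕ} (π : Equiv.Perm (Fin n)) : Ok (dom []) (word π) ↔ ¬ Contains π := by
  rw [ok_iff]
  simp only [word, List.length_ofFn, List.getElem_ofFn]
  constructor
  · rintro h ⟨i, ⟨i', hi'⟩, j, k, e, h1, h2, h3, h4, h5⟩
    simp only at e
    subst e
    have := h i j k k.2 h1 h2 h4 h3
    exact absurd h5 (not_lt.2 this)
  · intro h i j k hk h1 h2 h3 h4
    by_contra hc
    exact h ⟨⟨i, by omega⟩, ⟨i + 1, by omega⟩, ⟨j, by omega⟩, ⟨k, hk⟩, rfl, h1, h2, h4, h3,
      not_le.1 hc⟩

lemma word_perm {n : ℕ} (π : Equiv.Perm (Fin n)) : (word π).Perm (List.range' 0 n) := by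
  refine (List.perm_ext_iff_of_nodup ?_ List.nodup_range').2 fun y => ?_
  · exact List.nodup_ofFn.2 (Fin.val_injective.comp π.injective)
  · simp only [word, List.mem_ofFn, List.mem_range'_1]
    constructor
    · rintro ⟨i, rfl⟩; have := (π i).2; omega
    · intro h; exact ⟨π.symm ⟨y, by omega⟩, by simp⟩

lemma exists_word {n : ℕ} {w : List ℕ} (h : w.Perm (List.range' 0 n)) :
    ∃ π : Equiv.Perm (Fin n), word π = w := by
  have hl : w.length = n := by simpa using h.length_eq
  subst hl
  have hn : w.Nodup := h.nodup_iff.2 List.nodup_range'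
  have hlt : ∀ i : Fin w.length, w[i] < w.length := fun i => by
    have := List.mem_range'_1.1 (h.mem_iff.1 (List.getElem_mem i.2))
    simpa using this.2
  have inj : Function.Injective fun i : Fin w.length => (⟨w[i], hlt i⟩ : Fin w.length) := by
    intro i j e
    exact Fin.ext ((List.Nodup.getElem_inj_iff hn).1 (Fin.ext_iff.1 e))
  exact ⟨Equiv.ofBijective _ (Finite.injective_iff_bijective.1 inj), by simp [word]⟩

theorem main (n : ℕ) :
    Nat.card {π : Equiv.Perm (Fin (n + 1)) // ¬ Contains π} = (level n).length := by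
  classical
  have h1 := enum_length (n + 1) (.cons .nil .nil) 0
  rw [pair_single] at h1
  have h2 : (enum (n + 1) (.cons .nil .nil) 0).length = (level n).length := by exact_mod_cast h1
  rw [← h2, ← List.toFinset_card_of_nodup (enum_nodup _ _ _), ← Fintype.card_coe,
    ← Nat.card_eq_fintype_card]
  refine Nat.card_congr (Equiv.ofBijective (fun π => ⟨.cons (word π.1) .nil .nil, ?_⟩) ⟨?_, ?_⟩)
  · rw [List.mem_toFinset, mem_enum]
    refine ⟨rfl, ⟨by simp [word], (ok_word _).2 π.2, ?_, trivial, trivial⟩,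
      by simpa [vals] using word_perm π.1⟩
    cases word π.1 <;> simp [Hd, dom, vals]
  · intro π ρ e
    simp only [Subtype.mk.injEq, Fl.cons.injEq, and_true] at e
    have := List.ofFn_injective e
    exact Subtype.ext (Equiv.ext fun i => Fin.ext (congrFun this i))
  · rintro ⟨fl, h⟩
    rw [List.mem_toFinset, mem_enum] at h
    obtain ⟨s1, s2, s3⟩ := h
    obtain ⟨w, K, R, rfl, a1, a2⟩ := shape_cons s1
    obtain rfl := shape_nil a1
    obtain rfl := shape_nil a2
    obtain ⟨π, rfl⟩ := exists_word (n := n + 1) (w := w) (by simpa [vals] using s3)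
    exact ⟨⟨π, (ok_word π).1 s2.2.1⟩, rfl⟩

end Pool.Agent.H8.Pc
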