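import Pool.Agent.H8.Du4
import Pool.Agent.H8.Pc3

namespace Pool.Agent.H8.Du

open List

def wd {n : ℕ} (π : Equiv.Perm (Fin n)) : List ℕ := 0 :: ofFn fun i => (π i).val + 1

lemma wd_eq {n : ℕ} (π : Equiv.Perm (Fin n)) : wd π = 0 :: (Pc.word π).map (· + 1) := by
  simp [wd, Pc.word, map_ofFn, Function.comp_def]

lemma ncard_eq {n : ℕ} {Ψ : Equiv.Perm (Fin n) → Prop} {Φ : List ℕ → Prop} {E : List (List ℕ)}
    (hE : E.Nodup) (h1 : ∀ l, l ∈ E ↔ Fill 1 n 0 l ∧ Φ l)
    (h2 : ∀ π, Ψ π ↔ Fill 1 n 0 (wd π) ∧ Φ (wd π)) : {π | Ψ π}.ncard = E.length := by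
  have inj : Function.Injective (wd (n := n)) := fun π ρ e => by
    have := ofFn_injective (cons.inj e).2
    exact Equiv.ext fun i => Fin.ext (by simpa using congrFun this i)
  rw [← Set.ncard_image_of_injective _ inj, ← toFinset_card_of_nodup hE, ← Set.ncard_coe_finset]
  congr 1
  ext l
  simp only [Set.mem_image, Set.mem_setOf_eq, coe_toFinset, h1, h2]
  refine ⟨fun ⟨π, h, e⟩ => e ▸ h, fun h => ?_⟩
  obtain ⟨⟨a1, a2, a3, -⟩, -⟩ := id h
  cases l with
  | nil => simp at a1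
  | cons x t =>
    obtain rfl : x = 0 := by simpa using a1
    have n0 : 0 ∉ t := count_eq_zero.1 (by simpa using a2)
    rw [filter_cons_of_neg (by simp), filter_eq_self.2 fun y hy => by
      simpa using fun e : y = 0 => n0 (e ▸ hy)] at a3
    have e : range' 1 n = (range' 0 n).map (· + 1) := by
      rw [range'_eq_map_range, range'_eq_map_range]; simp [add_comm]
    obtain ⟨π, hπ⟩ := Pc.exists_word (n := n) (w := t.map Nat.pred) (by
      have := a3.map Nat.pred
      rw [e, map_map] at this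
      simpa [Function.comp_def] using this)
    have : wd π = 0 :: t := by
      rw [wd_eq, hπ, map_map]
      congr 1
      refine (map_congr_left fun y hy => ?_).trans (map_id t)
      have : y ≠ 0 := fun e => n0 (e ▸ hy)
      simp; omega
    exact ⟨π, this ▸ h, this⟩

lemma fill_wd {n : ℕ} (π : Equiv.Perm (Fin n)) : Fill 1 n 0 (wd π) ↔ ∀ i : Fin n,
    (Even ((π i).val + 1) → ∃ j : Fin n, j.val = i.val + 1 ∧ π j < π i) ∧
    (Odd ((π i).val + 1) → (i.val + 1 = n ∨ ∃ j : Fin n, j.val = i.val + 1 ∧ π i < π j)) := by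
  have p : ((wd π).filter (· ≠ 0)).Perm (range' 1 n) := by
    rw [wd_eq, filter_cons_of_neg (by simp), filter_eq_self.2 (by simp)]
    refine ((Pc.word_perm π).map _).trans (Perm.of_eq ?_)
    rw [range'_eq_map_range, range'_eq_map_range]; simp [add_comm]
  have c : (wd π).count 0 = 0 + 1 := by simp [wd, count_eq_zero, mem_ofFn]
  simp only [Fill, p, c, true_and]
  rw [show (wd π).head? = some 0 from rfl, wd, cons_append, isChain_cons, isChain_iff_getElem]
  have h0 : ∀ y ∈ ((ofFn fun i => (π i).val + 1) ++ [1 + n]).head?, R 0 y := fun y hy => by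
    have := mem_of_mem_head? hy
    simp only [mem_append, mem_ofFn, mem_singleton] at this
    rcases this with ⟨i, rfl⟩ | rfl <;> simp [R]
  simp only [true_and, and_iff_right h0, length_append, length_ofFn, length_singleton,
    Nat.add_lt_add_iff_right]
  have key : ∀ (i : ℕ) (h : i < n),
      R (((ofFn fun i => (π i).val + 1) ++ [1 + n])[i]'(by simp; omega))
        (((ofFn fun i => (π i).val + 1) ++ [1 + n])[i + 1]'(by simp; omega)) ↔
      ((Even ((π ⟨i, h⟩).val + 1) → ∃ j : Fin n, j.val = i + 1 ∧ π j < π ⟨i, h⟩) ∧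
      (Odd ((π ⟨i, h⟩).val + 1) → (i + 1 = n ∨ ∃ j : Fin n, j.val = i + 1 ∧ π ⟨i, h⟩ < π j))) := by
    intro i h
    rw [getElem_append_left (by simpa using h), ← Nat.not_even_iff_odd]
    have lt := (π ⟨i, h⟩).2
    by_cases e : i + 1 < n
    · rw [getElem_append_left (by simpa using e)]
      have ex : ∀ p : Fin n → Prop, (∃ j : Fin n, j.val = i + 1 ∧ p j) ↔ p ⟨i + 1, e⟩ := fun p =>
        ⟨fun ⟨j, a, b⟩ => by rwa [show j = ⟨i + 1, e⟩ from Fin.ext a] at b, fun b => ⟨_, rfl, b⟩⟩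
      simp only [List.getElem_ofFn, ex, R, e.ne, false_or]
      by_cases c : Even ((π ⟨i, h⟩).val + 1) <;> simp [c]
    · rw [getElem_append_right (by simp; omega)]
      have ex : ∀ p : Fin n → Prop, ¬ ∃ j : Fin n, j.val = i + 1 ∧ p j := fun p ⟨j, a, _⟩ => by
        have := j.2; omega
      simp only [List.getElem_ofFn, ex, R, getElem_singleton, show i + 1 = n by omega]
      by_cases c : Even ((π ⟨i, h⟩).val + 1) <;> simp [c] <;> omega
  exact ⟨fun H i => (key i i.2).1 (H i (by simpa using i.2)), fun H i h => (key i h).2 (H ⟨i, h⟩)⟩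

lemma sub_ofFn {n : ℕ} (g : Fin n → ℕ) (p q r t : ℕ) : [p, q, r, t] <+ ofFn g ↔
    ∃ f : Fin 4 → Fin n, StrictMono f ∧ g (f 0) = p ∧ g (f 1) = q ∧ g (f 2) = r ∧ g (f 3) = t := by
  rw [sublist_iff_exists_fin_orderEmbedding_get_eq]
  constructor
  · rintro ⟨f, hf⟩
    refine ⟨fun i => Fin.cast (by simp) (f i), fun a b h => f.strictMono h, ?_⟩
    simp only [get_ofFn] at hf
    exact ⟨(hf 0).symm, (hf 1).symm, (hf 2).symm, (hf 3).symm⟩
  · rintro ⟨f, h, rfl, rfl, rfl, rfl⟩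
    refine ⟨OrderEmbedding.ofStrictMono (fun i => Fin.cast (by simp) (f i))
      fun a b hab => h hab, fun i => ?_⟩
    fin_cases i <;> simp <;> rfl

lemma badA_wd {n : ℕ} (π : Equiv.Perm (Fin n)) : BadA (wd π) ↔
    ∃ f : Fin 4 → Fin n, StrictMono f ∧ ∀ a b : Fin 4, (π (f a) < π (f b) ↔
      (![1, 0, 3, 2] : Fin 4 → ℕ) a < (![1, 0, 3, 2] : Fin 4 → ℕ) b) := by
  constructor
  · rintro ⟨p, q, r, t, a, b, c, h⟩
    obtain ⟨f, hf, rfl, rfl, rfl, rfl⟩ := (sub_ofFn _ _ _ _ _).1 (h.of_cons_of_ne (by omega))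
    refine ⟨f, hf, fun x y => ?_⟩
    rw [Fin.lt_def]
    fin_cases x <;> fin_cases y <;> simp [-Fin.val_fin_lt, -Fin.val_fin_le] <;> omega
  · rintro ⟨f, hf, h⟩
    exact ⟨_, _, _, _, by simpa using (h 1 0).2 (by simp), by simpa using (h 0 3).2 (by simp),
      by simpa using (h 3 2).2 (by simp),
      ((sub_ofFn _ _ _ _ _).2 ⟨f, hf, rfl, rfl, rfl, rfl⟩).trans (sublist_cons_self _ _)⟩

lemma badB_wd {n : ℕ} (π : Equiv.Perm (Fin n)) : BadB (wd π).reverse ↔
    ∃ f : Fin 4 → Fin n, StrictMono f ∧ ∀ a b : Fin 4, (π (f a) < π (f b) ↔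
      (![2, 3, 1, 0] : Fin 4 → ℕ) a < (![2, 3, 1, 0] : Fin 4 → ℕ) b) := by
  constructor
  · rintro ⟨p, q, r, t, a, b, c, h⟩
    have h' : [t, r, q, p] <+ wd π := reverse_sublist.1 h
    obtain ⟨f, hf, rfl, rfl, rfl, rfl⟩ := (sub_ofFn _ _ _ _ _).1 (h'.of_cons_of_ne (by omega))
    refine ⟨f, hf, fun x y => ?_⟩
    rw [Fin.lt_def]
    fin_cases x <;> fin_cases y <;> simp [-Fin.val_fin_lt, -Fin.val_fin_le] <;> omega
  · rintro ⟨f, hf, h⟩
    exact ⟨_, _, _, _, by simpa using (h 3 2).2 (by simp), by simpa using (h 2 0).2 (by simp),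
      by simpa using (h 0 1).2 (by simp), reverse_sublist.2
      (((sub_ofFn _ _ _ _ _).2 ⟨f, hf, rfl, rfl, rfl, rfl⟩).trans (sublist_cons_self _ _))⟩

lemma inc_wd {n : ℕ} (π : Equiv.Perm (Fin n)) : Inc 2 (wd π) ∧ Inc 1 (wd π).reverse := by
  have c : (ofFn fun i => (π i).val + 1).count 0 = 0 := by simp [count_eq_zero, mem_ofFn]
  constructor
  · have := (inc_skip (ofFn fun i => (π i).val + 1) [] 0).2 trivial
    rw [c, append_nil] at this
    simpa [wd, Inc] using this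
  · have := (@inc_after (ofFn fun i => (π i).val + 1).reverse [] 0).2 (inc_nil _)
    rw [count_reverse, c] at this
    simpa [wd] using this

lemma phi0 (a : ℕ) : PhiA a [0] ∧ PhiB a [0] := by
  have : Inc (a + 1) [0] := by simp [Inc, inc_nil]
  refine ⟨⟨?_, this⟩, ?_, this⟩ <;> rintro ⟨p, q, r, t, -, -, -, h⟩ <;>
    simpa using h.length_le

end Pool.Agent.H8.Du
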