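import Mathlib

/-! Cancellation of directed edges in a tiling of a triangle by triangles. -/

namespace Pool.Agent.H8.Edge
open Set Filter Topology Finset

lemma jump {J : Type} [Fintype J] (t : J → ℝ) (L : J → ℝ → ℝ) (hL : ∀ j, Continuous (L j))
    {Y : Set ℝ} (hY : Y.Finite) (h : ∀ y ∉ Y, ∑ j, (if t j ≤ y then L j y else 0) = 0)
    (φ : ℝ → ℝ) : ∑ j, φ (t j) * L j (t j) = 0 := by
  have key : ∀ r, ∑ j, (if t j = r then L j r else 0) = 0 := fun r => by
    have e : ∀ᶠ y in 𝓝[≠] r, ∑ j, (if t j ≤ y then L j y else 0) = 0 :=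
      (hY.eventually_cofinite_notMem.filter_mono (nhdsNE_le_cofinite r)).mono h
    have a : Tendsto (fun y => ∑ j, (if t j ≤ y then L j y else 0)) (𝓝[>] r)
        (𝓝 (∑ j, if t j ≤ r then L j r else 0)) := tendsto_finset_sum _ fun j _ => by
      split_ifs with c
      · refine ((hL j).continuousAt.tendsto.mono_left nhdsWithin_le_nhds).congr' ?_
        filter_upwards [self_mem_nhdsWithin] with y hy using by rw [if_pos (c.trans (le_of_lt hy))]
      · refine tendsto_const_nhds.congr' ?_
        filter_upwards [nhdsWithin_le_nhds (Iio_mem_nhds (not_le.1 c))] with y hy using by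
          rw [if_neg (not_le.2 hy)]
    have b : Tendsto (fun y => ∑ j, (if t j ≤ y then L j y else 0)) (𝓝[<] r)
        (𝓝 (∑ j, if t j < r then L j r else 0)) := tendsto_finset_sum _ fun j _ => by
      split_ifs with c
      · refine ((hL j).continuousAt.tendsto.mono_left nhdsWithin_le_nhds).congr' ?_
        filter_upwards [nhdsWithin_le_nhds (Ioi_mem_nhds c)] with y hy using by
          rw [if_pos (le_of_lt hy)]
      · refine tendsto_const_nhds.congr' ?_
        filter_upwards [self_mem_nhdsWithin] with y hy using by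
          rw [if_neg (not_le.2 (lt_of_lt_of_le hy (not_lt.1 c)))]
    have a' := tendsto_nhds_unique a (tendsto_const_nhds.congr'
      ((e.filter_mono (nhdsGT_le_nhdsNE r)).mono fun _ h => h.symm))
    have b' := tendsto_nhds_unique b (tendsto_const_nhds.congr'
      ((e.filter_mono (nhdsLT_le_nhdsNE r)).mono fun _ h => h.symm))
    refine Eq.trans ?_ (sub_eq_zero.2 (a'.trans b'.symm))
    rw [← sum_sub_distrib]
    refine sum_congr rfl fun j _ => ?_
    rcases lt_trichotomy (t j) r with c | c | c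
    exacts [by simp [c, c.le, c.ne], by simp [c], by simp [c.ne', c.not_ge, c.not_gt]]
  calc _ = ∑ j, ∑ r ∈ univ.image t, φ r * (if t j = r then L j r else 0) :=
        sum_congr rfl fun j _ => by simp
    _ = 0 := by rw [sum_comm]; exact sum_eq_zero fun r _ => by rw [← mul_sum, key, mul_zero]

def o (P Q p : ℂ) : ℝ := (Q.re - P.re) * (p.im - P.im) - (Q.im - P.im) * (p.re - P.re)

noncomputable def xe (P Q : ℂ) (y : ℝ) : ℝ := P.re + (y - P.im) * (Q.re - P.re) / (Q.im - P.im)

noncomputable def cr (P Q p : ℂ) : ℝ := if xe P Q p.im ≤ p.re then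
  (if Q.im ≤ p.im then 1 else 0) - (if P.im ≤ p.im then 1 else 0) else 0

lemma o_xe {P Q : ℂ} (h : Q.im - P.im ≠ 0) (p : ℂ) :
    o P Q p = (Q.im - P.im) * (xe P Q p.im - p.re) := by
  unfold o xe; field_simp; ring

lemma cr_eq (P Q p : ℂ) (h : o P Q p ≠ 0) : cr P Q p =
    (if Q.im ≤ p.im ∧ p.im < P.im ∧ 0 < o P Q p then 1 else 0) -
    (if P.im ≤ p.im ∧ p.im < Q.im ∧ o P Q p < 0 then 1 else 0) := by
  unfold cr
  simp only [← not_le (a := P.im), ← not_le (a := Q.im)]
  by_cases a : Q.im ≤ p.im <;> by_cases b : P.im ≤ p.im <;>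
    simp only [a, b, true_and, false_and, and_false, if_true, not_true, not_false_iff,
      if_false, sub_self, ite_self]
  · have d : Q.im - P.im < 0 := by linarith
    rw [o_xe d.ne] at h ⊢
    split_ifs with c c' c' <;> first | simp; done | nlinarith [lt_of_le_of_ne (not_lt.1 c') h] |
      nlinarith
  · have d : 0 < Q.im - P.im := by linarith
    rw [o_xe d.ne'] at h ⊢
    split_ifs with c c' c' <;> first | simp; done |
      nlinarith [lt_of_le_of_ne (not_lt.1 c') h.symm] | nlinarith

lemma wind (V : Fin 3 → ℂ) (hV : 0 < o (V 0) (V 1) (V 2)) (p : ℂ)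
    (h : ∀ k, o (V k) (V (k + 1)) p ≠ 0) (h' : ∀ k, (V k).im ≠ p.im) :
    (if ∀ k, 0 < o (V k) (V (k + 1)) p then 1 else 0) = ∑ k, cr (V k) (V (k + 1)) p := by
  simp only [fun k => cr_eq _ _ _ (h k), Fin.sum_univ_three, Fin.forall_fin_succ,
    IsEmpty.forall_iff, and_true]
  have e1 : o (V 0) (V 1) p + o (V 1) (V 2) p + o (V 2) (V 0) p = o (V 0) (V 1) (V 2) := by
    unfold o; ring
  have e2 : o (V 0) (V 1) p * ((V 2).im - p.im) + o (V 1) (V 2) p * ((V 0).im - p.im) +
      o (V 2) (V 0) p * ((V 1).im - p.im) = 0 := by unfold o; ring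
  have h0 := h 0; have h1 := h 1; have h2 := h 2
  simp only [Fin.succ_zero_eq_one, Fin.succ_one_eq_two, zero_add, show (1 + 1 : Fin 3) = 2 from rfl,
    show (2 + 1 : Fin 3) = 0 from rfl] at *
  rcases (h' 0).lt_or_gt with a | a <;> rcases (h' 1).lt_or_gt with b | b <;>
  rcases (h' 2).lt_or_gt with c | c <;> rcases h0.lt_or_gt with d | d <;>
  rcases h1.lt_or_gt with e | e <;> rcases h2.lt_or_gt with f | f <;>
    simp [a.le, b.le, c.le, a, b, c, d, e, f, a.not_ge, b.not_ge, c.not_ge, a.not_gt, b.not_gt,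
      c.not_gt, d.not_gt, e.not_gt, f.not_gt] <;> nlinarith

noncomputable def hz (v : ℂ) : ℝ := if v.im = 0 then v.re else 0

/-- The weighted sum of the indicator functions of the triangles vanishes at generic points. -/
def Null {ι : Type} [Fintype ι] (V : ι → Fin 3 → ℂ) (s : ι → ℝ) : Prop :=
  (∀ i, 0 < o (V i 0) (V i 1) (V i 2)) ∧ ∀ p, (∀ i k, o (V i k) (V i (k + 1)) p ≠ 0) →
    ∑ i, s i * (if ∀ k, 0 < o (V i k) (V i (k + 1)) p then 1 else 0) = 0

variable {ι : Type} [Fintype ι] {V : ι → Fin 3 → ℂ} {s : ι → ℝ}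

lemma horiz (H : Null V s) : ∑ i, s i * ∑ k, hz (V i (k + 1) - V i k) = 0 := by
  have A : ∀ y ∉ range fun j : ι × Fin 3 => (V j.1 j.2).im, ∑ j : ι × Fin 3,
      xe (V j.1 j.2) (V j.1 (j.2 + 1)) y * (s j.1 * ((if (V j.1 (j.2 + 1)).im ≤ y then 1 else 0) -
        (if (V j.1 j.2).im ≤ y then 1 else 0))) = 0 := fun y hy => by
    refine jump (fun j : ι × Fin 3 => xe (V j.1 j.2) (V j.1 (j.2 + 1)) y) (fun j _ => s j.1 *
      ((if (V j.1 (j.2 + 1)).im ≤ y then 1 else 0) - (if (V j.1 j.2).im ≤ y then 1 else 0)))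
      (fun _ => continuous_const)
      (finite_range fun j : ι × Fin 3 => xe (V j.1 j.2) (V j.1 (j.2 + 1)) y) (fun x hx => ?_) id
    have g : ∀ i k, o (V i k) (V i (k + 1)) ⟨x, y⟩ ≠ 0 := fun i k => by
      by_cases d : (V i (k + 1)).im - (V i k).im = 0
      · have := H.1 i
        simp only [o, d, zero_mul, sub_zero]
        refine mul_ne_zero (fun e => ?_) (sub_ne_zero.2 fun e => hy ⟨(i, k), e.symm⟩)
        have e' : V i (k + 1) = V i k := Complex.ext (by linarith) (by linarith)
        fin_cases k <;> simp at e' <;> simp [o, e'] at this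
        linarith
      · rw [o_xe d]
        exact mul_ne_zero d (sub_ne_zero.2 fun e => hx ⟨(i, k), e⟩)
    refine Eq.trans ?_ (H.2 _ g)
    rw [Fintype.sum_prod_type]
    refine sum_congr rfl fun i _ => ?_
    rw [wind _ (H.1 i) _ (g i) fun k e => hy ⟨(i, k), e⟩, mul_sum]
    exact sum_congr rfl fun k _ => by simp [cr]
  have B := jump (J := (ι × Fin 3) ⊕ (ι × Fin 3))
    (Sum.elim (fun j => (V j.1 (j.2 + 1)).im) fun j => (V j.1 j.2).im)
    (Sum.elim (fun j y => s j.1 * xe (V j.1 j.2) (V j.1 (j.2 + 1)) y)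
      fun j y => -(s j.1 * xe (V j.1 j.2) (V j.1 (j.2 + 1)) y))
    (by rintro (j | j) <;> simp only [Sum.elim_inl, Sum.elim_inr, xe] <;> fun_prop)
    (finite_range _) (fun y hy => by
      refine Eq.trans ?_ (A y hy)
      rw [Fintype.sum_sum_type, ← sum_add_distrib]
      refine sum_congr rfl fun j _ => ?_
      simp only [Sum.elim_inl, Sum.elim_inr]
      split_ifs <;> ring) fun _ => -1
  refine Eq.trans ?_ B
  rw [Fintype.sum_sum_type, ← sum_add_distrib, Fintype.sum_prod_type]
  refine sum_congr rfl fun i _ => ?_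
  have : ∀ P Q : ℂ, hz (Q - P) = Q.re - xe P Q Q.im + (xe P Q P.im - P.re) := fun P Q => by
    unfold hz xe
    split_ifs with h <;> rw [Complex.sub_im] at h
    · simp [h]
    · field_simp; ring
  simp only [this, Sum.elim_inl, Sum.elim_inr, Fin.sum_univ_three, zero_add,
    show (1 + 1 : Fin 3) = 2 from rfl, show (2 + 1 : Fin 3) = 0 from rfl]
  ring

lemma o_mul (u P Q p : ℂ) : o (u * P) (u * Q) (u * p) = Complex.normSq u * o P Q p := by
  simp [o, Complex.normSq_apply]; ring

lemma Null.div (H : Null V s) {u : ℂ} (hu : u ≠ 0) : Null (fun i k => V i k / u) s := by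
  have e : ∀ P Q p, o P Q (u * p) = Complex.normSq u * o (P / u) (Q / u) p := fun P Q p => by
    rw [← o_mul, mul_div_cancel₀ _ hu, mul_div_cancel₀ _ hu]
  have n := Complex.normSq_pos.2 hu
  refine ⟨fun i => ?_, fun p hp => ?_⟩
  · have := H.1 i
    rwa [← mul_div_cancel₀ (V i 2) hu, e, mul_pos_iff_of_pos_left n] at this
  · simpa only [e, mul_pos_iff_of_pos_left n] using
      H.2 (u * p) fun i k => by rw [e]; exact mul_ne_zero n.ne' (hp i k)

theorem cancel (H : Null V s) (f : ℂ → ℝ) (hf : ∀ (t : ℝ) z, f (t * z) = t * f z) :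
    ∑ i, s i * ∑ k, f (V i (k + 1) - V i k) = 0 := by
  classical
  let r : ℂ → ℂ := fun v => if v.im = 0 then 1 else v / v.im
  let c : ℂ → ℝ := fun v => if v.im = 0 then v.re else v.im
  have e : ∀ v, v = c v * r v := fun v => by
    simp only [r, c]
    split_ifs with h
    · exact Complex.ext (by simp) (by simp [h])
    · rw [mul_div_cancel₀ _ (by exact_mod_cast h)]
  have r0 : ∀ v, r v ≠ 0 := fun v => by
    simp only [r]
    split_ifs with h
    exacts [one_ne_zero, div_ne_zero (by rintro rfl; simp at h) (by exact_mod_cast h)]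
  have rm : ∀ (t : ℝ) w, t ≠ 0 → r (t * r w) = r w := fun t w ht => by
    have : (t : ℂ) ≠ 0 := by exact_mod_cast ht
    simp only [r]
    by_cases h : w.im = 0
    · simp [h]
    · simp [h, ht, mul_div_cancel_left₀ _ this]
  have k : ∀ v w, hz (v / r w) = if r v = r w then c v else 0 := fun v w => by
    split_ifs with h
    · rw [← h, div_eq_of_eq_mul (r0 v) (e v)]; simp [hz]
    · unfold hz
      split_ifs with h'
      · by_contra h0
        refine h ?_
        rw [← rm _ w h0, show (((v / r w).re : ℝ) : ℂ) = v / r w from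
          Complex.ext (by simp) (by simp [h']), div_mul_cancel₀ _ (r0 w)]
      · rfl
  calc _ = ∑ i, ∑ k, ∑ u ∈ univ.image fun j : ι × Fin 3 => r (V j.1 (j.2 + 1) - V j.1 j.2),
        f u * (s i * if r (V i (k + 1) - V i k) = u then c (V i (k + 1) - V i k) else 0) :=
        sum_congr rfl fun i _ => by
          rw [mul_sum]
          refine sum_congr rfl fun k _ => ?_
          simp only [mul_ite, mul_zero, sum_ite_eq]
          rw [if_pos (mem_image_of_mem _ (mem_univ (i, k)))]
          nth_rewrite 1 [e (V i (k + 1) - V i k), hf]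
          ring
    _ = 0 := by
      simp_rw [sum_comm (s := (univ : Finset (Fin 3)))]
      rw [sum_comm]
      refine sum_eq_zero fun u hu => ?_
      obtain ⟨j, -, rfl⟩ := mem_image.1 hu
      simp only [← mul_sum, ← k, sub_div]
      rw [horiz (H.div (r0 _)), mul_zero]

lemma hull {V : Fin 3 → ℂ} (h : 0 < o (V 0) (V 1) (V 2)) (p : ℂ) :
    p ∈ convexHull ℝ (range V) ↔ ∀ k, 0 ≤ o (V k) (V (k + 1)) p := by
  refine ⟨fun hp k => convexHull_min (t := {p | 0 ≤ o (V k) (V (k + 1)) p}) ?_
    (fun x hx y hy a b ha hb hab => ?_) hp, fun hp => ?_⟩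
  · rintro _ ⟨j, rfl⟩
    fin_cases k <;> fin_cases j <;> simp [o] at h ⊢ <;> linarith
  · have := add_nonneg (mul_nonneg ha hx) (mul_nonneg hb hy)
    obtain rfl : b = 1 - a := by linarith
    simp [o] at this ⊢; linarith
  · convert (convex_convexHull ℝ (range V)).sum_mem (t := univ)
      (w := fun k => o (V (k + 1)) (V (k + 1 + 1)) p / o (V 0) (V 1) (V 2)) (z := V)
      (fun k _ => div_nonneg (hp _) h.le) ?_ fun k _ => subset_convexHull _ _ ⟨k, rfl⟩
    · apply Complex.ext <;> simp [Fin.sum_univ_three] <;> field_simp <;> simp [o] <;> ring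
    · simp [Fin.sum_univ_three]; field_simp; simp [o]; ring

theorem null_of_tiling (W : Fin 3 → ℂ) (hW : 0 < o (W 0) (W 1) (W 2))
    (hV : ∀ i, 0 < o (V i 0) (V i 1) (V i 2))
    (hU : ⋃ i, convexHull ℝ (range (V i)) = convexHull ℝ (range W))
    (hD : Pairwise fun i j => Disjoint (interior (convexHull ℝ (range (V i))))
      (interior (convexHull ℝ (range (V j))))) :
    Null (fun x : Option ι => x.elim W V) fun x => x.elim (-1) fun _ => 1 := by
  classical
  refine ⟨fun x => by cases x <;> simp [*], fun p hp => ?_⟩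
  have m : ∀ x : Option ι, (∀ k, 0 < o (x.elim W V k) (x.elim W V (k + 1)) p) ↔
      p ∈ convexHull ℝ (range (x.elim W V)) := fun x => by
    rw [hull (by cases x <;> simp [*])]
    exact forall_congr' fun k => ⟨le_of_lt, fun h => h.lt_of_ne (hp x k).symm⟩
  have n : ∀ i, p ∈ convexHull ℝ (range (V i)) → p ∈ interior (convexHull ℝ (range (V i))) :=
    fun i hi => mem_interior.2 ⟨⋂ k, {q | 0 < o (V i k) (V i (k + 1)) q}, fun q hq =>
      (hull (hV i) q).2 fun k => le_of_lt (mem_iInter.1 hq k), isOpen_iInter_of_finite fun k =>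
        isOpen_lt continuous_const (by unfold o; fun_prop), mem_iInter.2 ((m (some i)).2 hi)⟩
  simp only [m]
  simp only [Fintype.sum_option, Option.elim, ← hU, mem_iUnion, one_mul]
  split_ifs with h
  · obtain ⟨i, hi⟩ := h
    rw [sum_eq_single i]
    · simp [hi]
    · exact fun j _ hj => if_neg fun h => Set.disjoint_left.1 (hD hj) (n j h) (n i hi)
    · simp
  · rw [sum_eq_zero]
    · simp
    · exact fun j _ => if_neg fun h' => h ⟨j, h'⟩

end Pool.Agent.H8.Edge
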