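import Pool.Agent.H8.Edge1

/-! Signed edge functionals for the triangle with an angle of 120 degrees. -/

namespace Pool.Agent.H8.Edge
open Complex ComplexConjugate

noncomputable def ρ : ℂ := ⟨-1 / 2, √3 / 2⟩

lemma s3 : √3 * √3 = (3 : ℝ) := Real.mul_self_sqrt (by norm_num)
lemma ρ2 : ρ ^ 2 = -1 - ρ := by
  apply Complex.ext <;> simp [ρ, sq] <;> nlinarith [s3]
lemma ρ3 : ρ ^ 3 = 1 := by linear_combination (ρ - 1) * ρ2
lemma ρc : conj ρ = -1 - ρ := by apply Complex.ext <;> simp [ρ]; norm_num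

lemma exists_g {ζ : ℂ} (h1 : ‖ζ‖ = 1) (h2 : ∀ m : ℤ, ζ ^ m = 1 → m = 0) :
    ∃ g : ℝ → ℂ → ℝ, (∀ ε, g ε 1 = 1) ∧ (∀ ε (t : ℝ) z, g ε (t * z) = t * g ε z) ∧
      (∀ ε z, g ε (ρ * z) = g ε z) ∧ (∀ ε z, ε ≠ 0 → g ε (ζ * z) = ε * g ε z) ∧
      ∀ u, ‖u‖ = 1 → ∃ n n' : ℤ, g 1 u = n ∧ g (-1) u = n' ∧ Even (n + n') := by
  classical
  have z0 : ζ ≠ 0 := by rintro rfl; simp at h1
  have r1 : ‖ρ‖ = 1 := (pow_eq_one_iff_of_nonneg (norm_nonneg _) three_ne_zero).1
    (by rw [← norm_pow, ρ3, norm_one])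
  let K : ℂ → Prop := fun z => ∃ p : ℝ × ℕ × ℤ, z = p.1 * ρ ^ p.2.1 * ζ ^ p.2.2
  let g : ℝ → ℂ → ℝ := fun ε z => if h : K z then h.choose.1 * ε ^ h.choose.2.2 else 0
  have S : ∀ ε (t : ℝ) (k : ℕ) (m : ℤ), g ε (t * ρ ^ k * ζ ^ m) = t * ε ^ m := fun ε t k m => by
    have h : K (t * ρ ^ k * ζ ^ m) := ⟨(t, k, m), rfl⟩
    simp only [g, dif_pos h]
    have e := h.choose_spec
    generalize h.choose = p at e
    obtain ⟨t', k', m'⟩ := p
    have n : |t| = |t'| := by simpa [r1, h1] using congrArg norm e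
    by_cases t0 : t = 0
    · obtain rfl : t' = 0 := by simpa [t0] using n.symm
      simp [t0]
    have c : ∀ k : ℕ, (ρ ^ k) ^ 3 = 1 := fun k => by rw [← pow_mul, mul_comm, pow_mul, ρ3, one_pow]
    have e3 := congrArg (· ^ 3) e
    simp only [mul_pow, c, mul_one] at e3
    have e6 := congrArg (· ^ 2) e3
    have t6 : ((t : ℂ) ^ 3) ^ 2 = ((t' : ℂ) ^ 3) ^ 2 := by
      have : t ^ 2 = t' ^ 2 := sq_eq_sq_iff_abs_eq_abs _ _ |>.2 n
      exact_mod_cast (by rw [← pow_mul, ← pow_mul, mul_comm, pow_mul, pow_mul, this] :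
        (t ^ 3) ^ 2 = (t' ^ 3) ^ 2)
    simp only [mul_pow, ← t6] at e6
    have e7 := mul_left_cancel₀ (by simpa using t0) e6
    obtain rfl : m = m' := by
      have := h2 ((m - m') * 6) (by
        rw [zpow_mul, zpow_sub₀ z0, div_zpow, div_eq_one_iff_eq (zpow_ne_zero _ (zpow_ne_zero _ z0))]
        simpa [← pow_mul, zpow_ofNat] using e7)
      omega
    have : t ^ 3 = t' ^ 3 := by
      exact_mod_cast mul_right_cancel₀ (pow_ne_zero _ (zpow_ne_zero _ z0)) e3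
    rw [(Odd.pow_inj (by decide)).1 this]
  have N : ∀ ε z, ¬ K z → g ε z = 0 := fun ε z h => dif_neg h
  refine ⟨g, fun ε => by simpa using S ε 1 0 0, fun ε t z => ?_, fun ε z => ?_, fun ε z hε => ?_,
    fun u hu => ?_⟩
  · by_cases h : K z
    · obtain ⟨⟨s, k, m⟩, rfl⟩ := h
      rw [S, show (t : ℂ) * (s * ρ ^ k * ζ ^ m) = ((t * s : ℝ) : ℂ) * ρ ^ k * ζ ^ m by
        push_cast; ring, S]; ring
    · by_cases t0 : t = 0
      · simpa [t0] using S ε 0 0 0
      rw [N _ _ h, N, mul_zero]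
      rintro ⟨⟨s, k, m⟩, e⟩
      have : (t : ℂ) ≠ 0 := by exact_mod_cast t0
      exact h ⟨(s / t, k, m), by push_cast; field_simp; linear_combination e⟩
  · by_cases h : K z
    · obtain ⟨⟨s, k, m⟩, rfl⟩ := h
      rw [S, ← S ε _ (k + 1)]; congr 1; ring
    · rw [N _ _ h, N]
      rintro ⟨⟨s, k, m⟩, e⟩
      exact h ⟨(s, k + 2, m), by linear_combination ρ ^ 2 * e - z * ρ3⟩
  · by_cases h : K z
    · obtain ⟨⟨s, k, m⟩, rfl⟩ := h
      rw [S, show ζ * (s * ρ ^ k * ζ ^ m) = s * ρ ^ k * ζ ^ (m + 1) by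
        rw [zpow_add_one₀ z0]; ring, S, zpow_add_one₀ hε]; ring
    · rw [N _ _ h, N, mul_zero]
      rintro ⟨⟨s, k, m⟩, e⟩
      exact h ⟨(s, k, m - 1), by rw [zpow_sub_one₀ z0]; field_simp; linear_combination e⟩
  · by_cases h : K u
    · obtain ⟨⟨s, k, m⟩, rfl⟩ := h
      have n : |s| = 1 := by simpa [r1, h1] using hu
      simp only [S]
      rcases eq_or_eq_neg_of_abs_eq n with rfl | rfl <;> rcases m.even_or_odd with e | e
      exacts [⟨1, 1, by simp, by simp [e.neg_one_zpow], by decide⟩,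
        ⟨1, -1, by simp, by simp [e.neg_one_zpow], by decide⟩,
        ⟨-1, -1, by simp, by simp [e.neg_one_zpow], by decide⟩,
        ⟨-1, 1, by simp, by simp [e.neg_one_zpow], by decide⟩]
    · exact ⟨0, 0, by simp [N _ _ h], by simp [N _ _ h], by decide⟩

lemma shape {v w : ℂ} {p q r x y : ℝ} (hp : 0 < p) (h1 : ‖v‖ = p) (h2 : ‖w‖ = q)
    (h3 : ‖v - w‖ = r) (hx : p ^ 2 + q ^ 2 - r ^ 2 = 2 * p * x) (hy : x ^ 2 + y ^ 2 = q ^ 2) :
    ∃ u, ‖u‖ = 1 ∧ v = p * u ∧ (w = ⟨x, y⟩ * u ∨ w = ⟨x, -y⟩ * u) := by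
  have p0 : (p : ℂ) ≠ 0 := by exact_mod_cast hp.ne'
  have hu : ‖v / p‖ = 1 := by simp [h1, abs_of_pos hp, hp.ne']
  have u0 : v / p ≠ 0 := by intro e; simp [e] at hu
  refine ⟨v / p, hu, by field_simp, ?_⟩
  obtain ⟨z, rfl⟩ : ∃ z, w = z * (v / p) := ⟨w / (v / p), (div_mul_cancel₀ w u0).symm⟩
  rw [show v - z * (v / p) = (p - z) * (v / p) by field_simp] at h3
  rw [norm_mul, hu, mul_one] at h2 h3
  have a := Complex.sq_norm z
  have b := Complex.sq_norm (p - z)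
  simp only [h2, h3, normSq_apply, sub_re, sub_im, ofReal_re, ofReal_im] at a b
  have c : z.re = x := mul_left_cancel₀ hp.ne' (by linarith)
  rcases sq_eq_sq_iff_eq_or_eq_neg.1 (by rw [c] at a; linarith : z.im ^ 2 = y ^ 2) with d | d
  exacts [.inl (by rw [← c, ← d]), .inr (by rw [← c, ← d])]

lemma nontors {a b c : ℕ} (ha : 0 < a) (hb : 0 < b) (h : c ^ 2 = a ^ 2 + b ^ 2 + a * b) :
    ‖(b - a * ρ) / c‖ = 1 ∧ ∀ m : ℤ, ((b - a * ρ) / c) ^ m = 1 → m = 0 := by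
  have hc : 0 < c := by rcases c with _ | c <;> [nlinarith; omega]
  have c0 : (c : ℂ) ≠ 0 := by exact_mod_cast hc.ne'
  have h' : (c : ℂ) ^ 2 = a ^ 2 + b ^ 2 + a * b := by exact_mod_cast h
  have e : (b - a * ρ) / c * conj ((b - a * ρ) / c) = 1 := by
    simp only [map_div₀, map_sub, map_mul, map_natCast, ρc]
    field_simp
    linear_combination -h' - (a : ℂ) ^ 2 * ρ2
  refine ⟨?_, fun m hm => by_contra fun m0 => ?_⟩
  · rw [mul_conj, normSq_eq_norm_sq] at e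
    exact (pow_eq_one_iff_of_nonneg (norm_nonneg _) two_ne_zero).1 (by exact_mod_cast e)
  have i : ∀ z : ℂ, z ^ m = 1 → IsIntegral ℤ z := fun z hz => IsIntegral.of_pow
    (Int.natAbs_pos.2 m0) (by
      rw [show z ^ m.natAbs = 1 by
        rw [← zpow_natCast, Int.natCast_natAbs]
        rcases abs_cases m with ⟨e, -⟩ | ⟨e, -⟩ <;> simp [e, hz]]
      exact isIntegral_one)
  have := (i _ hm).add (i (conj ((b - a * ρ) / c)) (by rw [← map_zpow₀, hm, map_one]))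
  rw [show (b - a * ρ) / c + conj ((b - a * ρ) / c) = algebraMap ℚ ℂ ((2 * b + a) / c) by
    simp only [map_div₀, map_sub, map_mul, map_natCast, ρc, map_add, map_ofNat]; ring,
    isIntegral_algebraMap_iff (algebraMap ℚ ℂ).injective, IsIntegrallyClosed.isIntegral_iff] at this
  obtain ⟨y, hy⟩ := this
  have hy' : y * c = 2 * b + a := by
    rw [eq_div_iff (by positivity), eq_intCast] at hy
    exact_mod_cast hy
  have h2 : (c : ℤ) ^ 2 = a ^ 2 + b ^ 2 + a * b := by exact_mod_cast h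
  have : (0 : ℤ) < a := by omega
  have : (0 : ℤ) < b := by omega
  have : (0 : ℤ) < c := by omega
  rcases le_or_gt y 1 with l | l
  · have : 2 * b + a ≤ (c : ℤ) := by nlinarith
    nlinarith
  · have : 2 * c ≤ 2 * b + (a : ℤ) := by nlinarith
    nlinarith

lemma arith {a b c u v : ℤ} (hab : IsCoprime a b) (h : c ^ 2 = a ^ 2 + b ^ 2 + a * b)
    (e : u * (c + a - b) = v * (-c + a - b)) (p : Even (u + v)) :
    ∃ k, u * (c + a - b) = 3 * (a * b) * k := by
  have co : IsCoprime c (a - b) := by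
    refine isCoprime_of_prime_dvd (fun ⟨h1, h2⟩ => ?_) fun z hz h1 h2 => ?_
    · obtain rfl : a = b := by linarith
      obtain rfl : a = 0 := by rw [h1] at h; nlinarith
      exact not_isCoprime_zero_zero hab
    have n : ¬ z ∣ a := fun e => hz.not_unit
      (hab.isUnit_of_dvd' e (by simpa using dvd_sub e h2))
    have n' : ¬ z ∣ b := fun e => n (by simpa using dvd_add h2 e)
    have : z ^ 2 ∣ 3 * (a * b) := by
      rw [show 3 * (a * b) = c ^ 2 - (a - b) ^ 2 by linarith]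
      exact dvd_sub (pow_dvd_pow_of_dvd h1 2) (pow_dvd_pow_of_dvd h2 2)
    have := hz.pow_dvd_of_dvd_mul_right 2 (by simp [hz.dvd_mul, n, n']) this
    have l := Int.le_of_dvd (by norm_num) this
    have := Int.prime_iff_natAbs_prime.1 hz |>.two_le
    have : 2 ≤ |z| := by rw [Int.abs_eq_natAbs]; omega
    nlinarith [sq_abs z]
  obtain ⟨s, hs⟩ := p
  obtain ⟨k, hk⟩ : c ∣ u - s := co.dvd_of_dvd_mul_right ⟨-s, by
    obtain rfl : v = s + s - u := by linarith
    linarith⟩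
  by_cases c0 : c = 0
  · obtain rfl : a = 0 := by rw [c0] at h; nlinarith [sq_nonneg (a + 2 * b)]
    obtain rfl : b = 0 := by rw [c0] at h; nlinarith
    exact (not_isCoprime_zero_zero hab).elim
  have : s = -(a - b) * k := mul_left_cancel₀ c0 (by
    obtain rfl : v = s + s - u := by linarith
    obtain rfl : u = c * k + s := by linarith
    linarith)
  exact ⟨k, by
    obtain rfl : u = c * k + s := by linarith
    rw [this]; linear_combination k * h⟩

end Pool.Agent.H8.Edge
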