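import Pool.Agent.H8.EsDefs
namespace H8.Es
open Multiset

theorem E_zero (s : Multiset ℕ) : E 0 s = {1} := by simp [E]
theorem E_nil (k : ℕ) : E (k + 1) 0 = 0 := by simp [E]
theorem E_cons (k a : ℕ) (s : Multiset ℕ) :
    E (k + 1) (a ::ₘ s) = E (k + 1) s + (E k s).map (fun x => a * x) := by
  simp [E, powersetCard_cons, Function.comp_def]

theorem cm_zero {a v : ℕ} {M : Multiset ℕ} (h : ∀ x, a * x ≠ v) :
    count v (M.map (fun x => a * x)) = 0 := by
  rw [count_eq_zero]; simp only [mem_map, not_exists, not_and]; exact fun x _ => h x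

theorem cm_self {v : ℕ} (hv : 0 < v) (M : Multiset ℕ) :
    count v (M.map (fun x => v * x)) = count 1 M := by
  have := count_map_eq_count' (fun x => v * x) M (fun a b h => Nat.eq_of_mul_eq_mul_left hv h) 1
  simpa using this

theorem c1 (s : Multiset ℕ) : ∀ k, count 1 (E k s) = (count 1 s).choose k := by
  induction s using Multiset.induction_on with
  | empty => intro k; cases k <;> simp [E_zero, E_nil]
  | cons a s ih =>
    intro k
    cases k with
    | zero => simp [E_zero]
    | succ k =>
      rw [E_cons, count_add, ih]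
      by_cases ha : a = 1
      · subst ha; rw [cm_self one_pos, ih, count_cons_self, Nat.choose_succ_succ', add_comm]
      · rw [cm_zero (fun x h => ha (Nat.eq_one_of_mul_eq_one_right h)), count_cons_of_ne (Ne.symm ha)]
        rfl

theorem cp {p : ℕ} (hp : p.Prime) (s : Multiset ℕ) :
    ∀ k, count p (E (k + 1) s) = (count 1 s).choose k * count p s := by
  have h1 := hp.one_lt
  induction s using Multiset.induction_on with
  | empty => intro k; simp [E_nil]
  | cons a s ih =>
    intro k
    rw [E_cons, count_add, ih]
    by_cases ha : a = 1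
    · subst ha
      rw [count_cons_self, count_cons_of_ne (by omega)]
      simp only [one_mul, map_id']
      cases k with
      | zero => simp [E_zero, count_singleton]; omega
      | succ k => rw [ih, Nat.choose_succ_succ']; ring
    · rw [count_cons_of_ne (Ne.symm ha)]
      by_cases hap : a = p
      · subst hap; rw [cm_self hp.pos, c1, count_cons_self]; ring
      · rw [count_cons_of_ne (Ne.symm hap), cm_zero, add_zero]
        intro x h
        rcases (Nat.dvd_prime hp).1 ⟨x, h.symm⟩ with h | h
        · exact ha h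
        · exact hap h

theorem cv {v : ℕ} (hv : 2 ≤ v) (k : ℕ) (A B : Multiset ℕ) (hB : ∀ b ∈ B, v ≤ b) :
    count v (E (k + 1) (B + A)) = count v (E (k + 1) A) + (count 1 A).choose k * count v B := by
  induction B using Multiset.induction_on with
  | empty => simp
  | cons b B ih =>
    have hb := hB b (by simp)
    have h1 : count 1 B = 0 := count_eq_zero.2 fun h => by
      have := hB 1 (by simp [h]); omega
    rw [cons_add, E_cons, count_add, ih (fun c hc => hB c (by simp [hc]))]
    by_cases e : b = v
    · subst e; rw [cm_self (by omega), c1, count_cons_self, count_add, h1, zero_add]; ring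
    · rw [count_cons_of_ne (Ne.symm e), cm_zero, add_zero]
      intro x h
      rcases x with _ | x
      · omega
      · have : b * (x + 1) = b * x + b := by ring
        omega

theorem inj {k : ℕ} {s t : Multiset ℕ} (hs0 : 0 ∉ s) (ht0 : 0 ∉ t) (hs : k ≤ count 1 s)
    (ht : k ≤ count 1 t) (h : E (k + 1) s = E (k + 1) t) : s = t := by
  have mono : ∀ a b : ℕ, k ≤ a → a < b → a.choose (k + 1) < b.choose (k + 1) := by
    intro a b h1 h2
    have := Nat.choose_le_choose (k + 1) (show a + 1 ≤ b from h2)
    rw [Nat.choose_succ_succ'] at this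
    have := Nat.choose_pos h1
    omega
  have e1 : count 1 s = count 1 t := by
    have := congrArg (count 1) h
    rw [c1, c1] at this
    rcases lt_trichotomy (count 1 s) (count 1 t) with g | g | g
    · have := mono _ _ hs g; omega
    · exact g
    · have := mono _ _ ht g; omega
  ext v
  induction v using Nat.strong_induction_on with
  | _ v ih =>
    rcases (show v = 0 ∨ v = 1 ∨ 2 ≤ v by omega) with rfl | rfl | hv
    · rw [count_eq_zero.2 hs0, count_eq_zero.2 ht0]
    · exact e1
    have key : ∀ u : Multiset ℕ, count v (E (k + 1) u) =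
        count v (E (k + 1) (u.filter (fun x => ¬ v ≤ x))) + (count 1 u).choose k * count v u := by
      intro u
      have := cv hv k (u.filter (fun x => ¬ v ≤ x)) (u.filter (fun x => v ≤ x))
        (fun b hb => (mem_filter.1 hb).2)
      rw [filter_add_not, count_filter_of_pos (p := fun x => ¬ v ≤ x) (by omega),
        count_filter_of_pos (p := fun x => v ≤ x) le_rfl] at this
      exact this
    have ef : s.filter (fun x => ¬ v ≤ x) = t.filter (fun x => ¬ v ≤ x) := by
      ext w
      by_cases hw : v ≤ w
      · rw [count_filter_of_neg (p := fun x => ¬ v ≤ x) (not_not.2 hw),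
          count_filter_of_neg (p := fun x => ¬ v ≤ x) (not_not.2 hw)]
      · rw [count_filter_of_pos (p := fun x => ¬ v ≤ x) hw,
          count_filter_of_pos (p := fun x => ¬ v ≤ x) hw, ih w (by omega)]
    have a := key s
    have b := key t
    rw [h, ef, e1, b] at a
    exact (Nat.eq_of_mul_eq_mul_left (Nat.choose_pos ht) (by omega)).symm

theorem R_eq {k j n : ℕ} (hj : ∀ s, count j (E (k + 1) s) ≠ 0 → k ≤ count 1 s) :
    R (k + 1) j n = ∑ l : Nat.Partition n, (count j (E (k + 1) l.parts) : ℤ) := by
  symm
  rw [R, ← Finset.sum_filter_ne_zero]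
  refine Finset.sum_of_injOn (fun l => E (k + 1) l.parts) ?_ ?_ ?_ (fun _ _ => rfl)
  · intro a ha b hb h
    simp only [Finset.coe_filter, Finset.mem_univ, true_and, Set.mem_setOf_eq, ne_eq,
      Nat.cast_eq_zero] at ha hb
    exact Nat.Partition.ext (inj (fun h => by simpa using a.parts_pos h)
      (fun h => by simpa using b.parts_pos h) (hj _ ha) (hj _ hb) h)
  · intro a ha
    simp only [Finset.coe_filter, Finset.mem_univ, true_and, Set.mem_setOf_eq, ne_eq,
      Nat.cast_eq_zero] at ha
    simp only [I, Finset.coe_image, Finset.coe_filter, Finset.mem_univ, true_and]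
    refine ⟨a, ?_, rfl⟩
    by_contra hc
    simp only [Set.mem_setOf_eq, not_le] at hc
    exact ha (by rw [E, powersetCard_eq_empty _ hc]; simp)
  · intro m hm h
    simp only [I, Finset.mem_image] at hm
    obtain ⟨a, -, rfl⟩ := hm
    by_contra hc
    exact h ⟨a, by simpa using hc, rfl⟩

def add1 {n : ℕ} (l : Nat.Partition n) : Nat.Partition (n + 1) where
  parts := 1 ::ₘ l.parts
  parts_pos := fun h => by
    rcases mem_cons.1 h with rfl | h
    · exact one_pos
    · exact l.parts_pos h
  parts_sum := by rw [sum_cons, l.parts_sum, add_comm]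

theorem shift {n : ℕ} (F : Multiset ℕ → ℤ) (hF : ∀ s, 1 ∉ s → F s = 0) :
    ∑ l : Nat.Partition (n + 1), F l.parts = ∑ l : Nat.Partition n, F (1 ::ₘ l.parts) := by
  symm
  refine Finset.sum_of_injOn add1 ?_ (fun _ _ => by simp) ?_ (fun _ _ => rfl)
  · intro a _ b _ h
    have := congrArg Nat.Partition.parts h
    exact Nat.Partition.ext (by simpa [add1] using this)
  · intro m _ h
    refine hF _ fun h1 => h ⟨⟨m.parts.erase 1, fun hx => m.parts_pos (mem_of_mem_erase hx), ?_⟩,
      by simp, Nat.Partition.ext (cons_erase h1)⟩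
    have := m.parts_sum
    rw [← cons_erase h1, sum_cons] at this
    omega

def A (w : Multiset ℕ → ℤ) (r n : ℕ) : ℤ :=
  ∑ l : Nat.Partition n, ((count 1 l.parts).choose r : ℤ) * w l.parts

theorem A_diff {w : Multiset ℕ → ℤ} (hw : ∀ s, w (1 ::ₘ s) = w s) (r : ℕ) :
    fwdDiff 1 (A w (r + 1)) = A w r := by
  ext n
  rw [fwdDiff, A, shift (fun s => ((count 1 s).choose (r + 1) : ℤ) * w s)
    (fun s h => by rw [count_eq_zero.2 h]; simp), A, A, ← Finset.sum_sub_distrib]
  refine Finset.sum_congr rfl fun l _ => ?_
  rw [count_cons_self, Nat.choose_succ_succ', hw]; push_cast; ring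

theorem A_iter {w : Multiset ℕ → ℤ} (hw : ∀ s, w (1 ::ₘ s) = w s) (r k : ℕ) :
    (fwdDiff 1)^[k] (A w (r + k)) = A w r := by
  induction k with
  | zero => rfl
  | succ k ih => rw [Function.iterate_succ_apply, ← add_assoc, A_diff hw, ih]

theorem main (n k p : ℕ) (hk : 2 ≤ k) (hp : p = 1 ∨ p.Prime) :
    (fwdDiff 1)^[k - 1] (R k p) n = N p n := by
  obtain ⟨k, rfl⟩ : ∃ k', k = k' + 1 := ⟨k - 1, by omega⟩
  rw [Nat.add_sub_cancel]
  rcases hp with rfl | hp
  · have : R (k + 1) 1 = A (fun _ => 1) (1 + k) := by
      ext m
      rw [R_eq, A]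
      · exact Finset.sum_congr rfl fun l _ => by rw [c1, add_comm 1 k, mul_one]
      · intro s h
        rw [c1] at h
        by_contra hc
        exact h (Nat.choose_eq_zero_of_lt (by omega))
    rw [this, A_iter (fun _ => rfl), A, N]
    simp
  · have h1 := hp.one_lt
    have : R (k + 1) p = A (fun s => (count p s : ℤ)) (0 + k) := by
      ext m
      rw [R_eq, A]
      · exact Finset.sum_congr rfl fun l _ => by rw [cp hp, zero_add]; push_cast; rfl
      · intro s h
        rw [cp hp] at h
        by_contra hc
        exact h (by rw [Nat.choose_eq_zero_of_lt (by omega), zero_mul])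
    rw [this, A_iter (fun s => by rw [count_cons_of_ne (by omega)]), A, N]
    simp
end H8.Es
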