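import Mathlib
namespace H8.Es
/-- The multiset of the products of `k` parts (the summands of `e_k`). -/
def E (k : ℕ) (s : Multiset ℕ) : Multiset ℕ := (s.powersetCard k).map Multiset.prod

/-- The image set `I_k(n)`. -/
def I (k n : ℕ) : Finset (Multiset ℕ) :=
  ((Finset.univ : Finset (Nat.Partition n)).filter (fun l => k ≤ l.parts.card)).image
    (fun l => E k l.parts)

/-- `N_j(n)`. -/
def N (j n : ℕ) : ℤ := ∑ l : Nat.Partition n, (l.parts.count j : ℤ)

/-- `R_{k,j}(n)`. -/
def R (k j n : ℕ) : ℤ := ∑ m ∈ I k n, (m.count j : ℤ)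
end H8.Es
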