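import Mathlib

namespace Pool.Agent.H8.Fac

open Set Module

variable {E : Type*} [NormedAddCommGroup E] [NormedSpace ℝ E]

/-- A convex polytope: a bounded intersection of finitely many closed half-spaces. -/
def IsPolytope (P : Set E) : Prop :=
  Bornology.IsBounded P ∧
    ∃ s : Finset ((E →L[ℝ] ℝ) × ℝ), P = {x | ∀ p ∈ s, p.1 x ≤ p.2}

/-- Central symmetry about some centre `c`. -/
def IsCS (P : Set E) : Prop := ∃ c : E, ∀ x ∈ P, c + c - x ∈ P

/-- The facets of `P`: nonempty (exposed) faces of dimension `dim E - 1`. -/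
def facets (P : Set E) : Set (Set E) :=
  {F | IsExposed ℝ P F ∧ F.Nonempty ∧ finrank ℝ (vectorSpan ℝ F) + 1 = finrank ℝ E}

/-- The least number of boundary points meeting every facet of `P`. -/
noncomputable def cover (P : Set E) : ℕ :=
  sInf {k | ∃ K : Finset E, K.card = k ∧ (↑K : Set E) ⊆ frontier P ∧
    ∀ F ∈ facets P, ∃ x ∈ K, x ∈ F}

/-- The values `min_K |K| / |P|` over centrally symmetric polytopes with interior in `E^d`. -/
def ratios (d : ℕ) : Set ℝ :=
  {r | ∃ P : Set (EuclideanSpace ℝ (Fin d)), IsPolytope P ∧ IsCS P ∧ (interior P).Nonempty ∧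
    r = (cover P : ℝ) / ((facets P).ncard : ℝ)}

end Pool.Agent.H8.Fac
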