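import Pool.Agent.H8.Fac0

namespace Pool.Agent.H8.Fac

open Set Module Filter Topology

variable {E : Type*} [NormedAddCommGroup E] [NormedSpace ℝ E] {ι : Type*}

def Pc (c : E) (a : ι → E →L[ℝ] ℝ) : Set E := {x | ∀ i, a i (x - c) ≤ 1}

def Fc (c : E) (a : ι → E →L[ℝ] ℝ) (i : ι) : Set E := {x | x ∈ Pc c a ∧ a i (x - c) = 1}

lemma small [Finite ι] (a : ι → E →L[ℝ] ℝ) (x v : E) :
    ∀ᶠ t : ℝ in 𝓝 0, ∀ i, a i x < 1 → a i (x + t • v) < 1 := by
  rw [Filter.eventually_all]
  intro i
  by_cases h : a i x < 1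
  · have hc : Continuous fun t : ℝ => a i (x + t • v) := by fun_prop
    have : ∀ᶠ t : ℝ in 𝓝 0, a i (x + t • v) < 1 :=
      hc.continuousAt.eventually_lt continuousAt_const (by simpa using h)
    exact this.mono fun t ht _ => ht
  · exact Filter.Eventually.of_forall fun t h' => absurd h' h

lemma small' [Finite ι] (a : ι → E →L[ℝ] ℝ) (x v : E) :
    ∃ t : ℝ, 0 < t ∧ ∀ i, a i x < 1 → a i (x + t • v) < 1 := by
  have h := (small a x v).filter_mono (nhdsWithin_le_nhds (s := Ioi (0:ℝ)))
  obtain ⟨t, h1, h2⟩ := (h.and self_mem_nhdsWithin).exists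
  exact ⟨t, h2, h1⟩

lemma facet_of [Finite ι] [FiniteDimensional ℝ E] (c : E) (a : ι → E →L[ℝ] ℝ) (i : ι) (p : E)
    (hp : a i p = 1) (ho : ∀ j, a j p < 1 ∨ a j = a i) : Fc c a i ∈ facets (Pc c a) := by
  have hpP : p + c ∈ Fc c a i := by
    refine ⟨fun j => ?_, by simpa using hp⟩
    rcases ho j with h | h
    · simpa using h.le
    · rw [h]; simpa using hp.le
  refine ⟨fun _ => ⟨a i, ?_⟩, ⟨_, hpP⟩, ?_⟩
  · ext x
    constructor
    · rintro ⟨h1, h2⟩
      refine ⟨h1, fun y hy => ?_⟩
      have := hy i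
      rw [map_sub] at this h2
      linarith
    · rintro ⟨h1, h2⟩
      refine ⟨h1, le_antisymm (h1 i) ?_⟩
      have := h2 _ hpP.1
      rw [map_add] at this
      rw [map_sub]
      linarith
  · have hne : ((a i : E →ₗ[ℝ] ℝ) : Dual ℝ E) ≠ 0 := by
      intro h
      have : a i p = 0 := LinearMap.congr_fun h p
      linarith
    have hk : vectorSpan ℝ (Fc c a i) = LinearMap.ker (a i : E →ₗ[ℝ] ℝ) := by
      apply le_antisymm
      · rw [vectorSpan_def, Submodule.span_le]
        rintro _ ⟨x, hx, y, hy, rfl⟩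
        have h1 := hx.2
        have h2 := hy.2
        simp only [map_sub] at h1 h2
        simp only [vsub_eq_sub, SetLike.mem_coe, LinearMap.mem_ker, ContinuousLinearMap.coe_coe,
          map_sub]
        linarith
      · intro v hv
        have hv' : a i v = 0 := hv
        obtain ⟨t, ht, h⟩ := small' a p v
        have hq : p + t • v + c ∈ Fc c a i := by
          have e : a i (p + t • v) = 1 := by simp [hv', hp]
          refine ⟨fun j => ?_, by simpa using e⟩
          rcases ho j with h' | h'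
          · simpa using (h j h').le
          · rw [h']; simpa using e.le
        have := vsub_mem_vectorSpan ℝ hq hpP
        have e : (p + t • v + c) -ᵥ (p + c) = t • v := by simp
        rw [e] at this
        have := Submodule.smul_mem _ t⁻¹ this
        rwa [smul_smul, inv_mul_cancel₀ ht.ne', one_smul] at this
    rw [hk]
    exact Dual.finrank_ker_add_one_of_ne_zero hne

lemma avg [Finite ι] (c : E) (a : ι → E →L[ℝ] ℝ) (F : Set E) (hF : Convex ℝ F) (hn : F.Nonempty)
    (hle : ∀ x ∈ F, ∀ i, a i (x - c) ≤ 1) :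
    ∃ x ∈ F, ∀ i, (∃ y ∈ F, a i (y - c) < 1) → a i (x - c) < 1 := by
  classical
  have key : ∀ s : Finset ι, ∃ x ∈ F, ∀ i ∈ s, (∃ y ∈ F, a i (y - c) < 1) → a i (x - c) < 1 := by
    intro s
    induction s using Finset.induction_on with
    | empty => obtain ⟨x, hx⟩ := hn; exact ⟨x, hx, by simp⟩
    | insert j s _ ih =>
      obtain ⟨x, hx, h⟩ := ih
      by_cases hj : ∃ y ∈ F, a j (y - c) < 1
      · obtain ⟨y, hy, hy'⟩ := hj
        refine ⟨(1/2:ℝ) • x + (1/2:ℝ) • y, hF hx hy (by norm_num) (by norm_num) (by norm_num), ?_⟩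
        intro i hi hex
        have e : a i ((1/2:ℝ) • x + (1/2:ℝ) • y - c) = (a i (x - c) + a i (y - c)) / 2 := by
          simp only [map_sub, map_add, map_smul, smul_eq_mul]; ring
        rw [e]
        rcases Finset.mem_insert.1 hi with rfl | hi
        · have := hle x hx i; linarith
        · have := h i hi hex
          have := hle y hy i; linarith
      · refine ⟨x, hx, fun i hi hex => ?_⟩
        rcases Finset.mem_insert.1 hi with rfl | hi
        · exact absurd hex hj
        · exact h i hi hex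
  have := Fintype.ofFinite ι
  obtain ⟨x, hx, h⟩ := key Finset.univ
  exact ⟨x, hx, fun i => h i (Finset.mem_univ _)⟩

lemma convex_Pc (c : E) (a : ι → E →L[ℝ] ℝ) : Convex ℝ (Pc c a) := by
  intro x hx y hy s t hs ht hst i
  have e : a i (s • x + t • y - c) = s * a i (x - c) + t * a i (y - c) := by
    simp only [map_sub, map_add, map_smul, smul_eq_mul]
    linear_combination (a i c) * hst
  rw [e]
  have := hx i
  have := hy i
  nlinarith

lemma facet_sub [Finite ι] [FiniteDimensional ℝ E] (c : E) (a : ι → E →L[ℝ] ℝ) (F : Set E)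
    (hF : F ∈ facets (Pc c a)) : ∃ i, F = Fc c a i := by
  obtain ⟨h1, hn, h3⟩ := hF
  have hconv : Convex ℝ F := h1.convex (convex_Pc c a)
  obtain ⟨l, hl⟩ := h1 hn
  have hFP : ∀ x ∈ F, x ∈ Pc c a := fun x hx => by rw [hl] at hx; exact hx.1
  have hFl : ∀ x ∈ F, ∀ y ∈ Pc c a, l y ≤ l x := fun x hx => by rw [hl] at hx; exact hx.2
  obtain ⟨x, hx, h⟩ := avg c a F hconv hn (fun x hx => hFP x hx)
  by_cases hall : ∀ i, ∃ y ∈ F, a i (y - c) < 1
  · exfalso
    have hs : ∀ i, a i (x - c) < 1 := fun i => h i (hall i)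
    have hmem : ∀ v, ∃ t : ℝ, 0 < t ∧ x + t • v ∈ Pc c a := by
      intro v
      obtain ⟨t, ht, h'⟩ := small' a (x - c) v
      refine ⟨t, ht, fun i => ?_⟩
      have := (h' i (hs i)).le
      rwa [show x - c + t • v = x + t • v - c by abel] at this
    have hl0 : ∀ v, l v ≤ 0 := by
      intro v
      obtain ⟨t, ht, h'⟩ := hmem v
      have := hFl x hx _ h'
      simp only [map_add, map_smul, smul_eq_mul] at this
      by_contra hc
      push Not at hc
      nlinarith [mul_pos ht hc]
    have hl00 : ∀ v, l v = 0 := fun v => le_antisymm (hl0 v) (by simpa using hl0 (-v))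
    have htop : vectorSpan ℝ F = ⊤ := by
      rw [eq_top_iff]
      intro v _
      obtain ⟨t, ht, h'⟩ := hmem v
      have hq : x + t • v ∈ F := by
        rw [hl]; exact ⟨h', fun y _ => by rw [hl00, hl00]⟩
      have := vsub_mem_vectorSpan ℝ hq hx
      have e : (x + t • v) -ᵥ x = t • v := by simp
      rw [e] at this
      have := Submodule.smul_mem _ t⁻¹ this
      rwa [smul_smul, inv_mul_cancel₀ ht.ne', one_smul] at this
    rw [htop, finrank_top] at h3
    omega
  · push Not at hall
    obtain ⟨i, hi⟩ := hall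
    have hi' : ∀ y ∈ F, a i (y - c) = 1 := fun y hy => le_antisymm (hFP y hy i) (hi y hy)
    refine ⟨i, Set.Subset.antisymm (fun y hy => ⟨hFP y hy, hi' y hy⟩) ?_⟩
    have hne : ((a i : E →ₗ[ℝ] ℝ) : Dual ℝ E) ≠ 0 := by
      intro h
      have : a i (x - c) = 0 := LinearMap.congr_fun h (x - c)
      have := hi' x hx
      linarith
    have hle : vectorSpan ℝ F ≤ LinearMap.ker (a i : E →ₗ[ℝ] ℝ) := by
      rw [vectorSpan_def, Submodule.span_le]
      rintro _ ⟨x, hx, y, hy, rfl⟩
      have h1 := hi' x hx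
      have h2 := hi' y hy
      simp only [map_sub] at h1 h2
      simp only [vsub_eq_sub, SetLike.mem_coe, LinearMap.mem_ker, ContinuousLinearMap.coe_coe,
        map_sub]
      linarith
    have heq : vectorSpan ℝ F = LinearMap.ker (a i : E →ₗ[ℝ] ℝ) := by
      apply Submodule.eq_of_le_of_finrank_eq hle
      have := Dual.finrank_ker_add_one_of_ne_zero hne
      omega
    have hle2 : vectorSpan ℝ F ≤ LinearMap.ker (l : E →ₗ[ℝ] ℝ) := by
      rw [vectorSpan_def, Submodule.span_le]
      rintro _ ⟨x, hx, y, hy, rfl⟩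
      have h1 := hFl x hx y (hFP y hy)
      have h2 := hFl y hy x (hFP x hx)
      simp only [vsub_eq_sub, SetLike.mem_coe, LinearMap.mem_ker, ContinuousLinearMap.coe_coe,
        map_sub]
      linarith
    intro z hz
    have hzx : z - x ∈ LinearMap.ker (a i : E →ₗ[ℝ] ℝ) := by
      have h1 := hz.2
      have h2 := hi' x hx
      simp only [map_sub] at h1 h2
      simp only [LinearMap.mem_ker, ContinuousLinearMap.coe_coe, map_sub]
      linarith
    rw [← heq] at hzx
    have := hle2 hzx
    simp only [LinearMap.mem_ker, ContinuousLinearMap.coe_coe, map_sub] at this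
    rw [hl]
    exact ⟨hz.1, fun y hy => by have := hFl x hx y hy; linarith⟩

lemma Fc_frontier (c : E) (a : ι → E →L[ℝ] ℝ) (i : ι) : Fc c a i ⊆ frontier (Pc c a) := by
  intro x hx
  refine ⟨subset_closure hx.1, fun hint => ?_⟩
  have hc : Continuous fun t : ℝ => x + t • (x - c) := by fun_prop
  have h1 : ∀ᶠ t : ℝ in 𝓝 0, x + t • (x - c) ∈ Pc c a := by
    apply hc.continuousAt.eventually_mem
    simpa using mem_interior_iff_mem_nhds.1 hint
  obtain ⟨t, h2, h3⟩ := ((h1.filter_mono (nhdsWithin_le_nhds (s := Ioi (0:ℝ)))).and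
    self_mem_nhdsWithin).exists
  have := h2 i
  rw [show x + t • (x - c) - c = (x - c) + t • (x - c) by abel, map_add, map_smul, hx.2] at this
  have h3' : 0 < t := h3
  simp only [smul_eq_mul] at this
  linarith

lemma cover_le (P : Set E) (K : Finset E) (h1 : (↑K : Set E) ⊆ frontier P)
    (h2 : ∀ F ∈ facets P, ∃ x ∈ K, x ∈ F) : cover P ≤ K.card :=
  Nat.sInf_le ⟨K, rfl, h1, h2⟩

lemma facets_finite [Finite ι] [FiniteDimensional ℝ E] (c : E) (a : ι → E →L[ℝ] ℝ) :
    (facets (Pc c a)).Finite :=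
  (Set.finite_range (Fc c a)).subset fun F hF => by
    obtain ⟨i, rfl⟩ := facet_sub c a F hF; exact ⟨i, rfl⟩

lemma exists_K [Finite ι] [FiniteDimensional ℝ E] (c : E) (a : ι → E →L[ℝ] ℝ) :
    ∃ K : Finset E, K.card ≤ (facets (Pc c a)).ncard ∧ (↑K : Set E) ⊆ frontier (Pc c a) ∧
      ∀ F ∈ facets (Pc c a), ∃ x ∈ K, x ∈ F := by
  classical
  have hfin := facets_finite c a
  have hch : ∀ F : Set E, ∃ x : E, F.Nonempty → x ∈ F := by
    intro F
    by_cases h : F.Nonempty
    · exact ⟨h.some, fun _ => h.some_mem⟩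
    · exact ⟨0, fun h' => absurd h' h⟩
  choose g hg using hch
  refine ⟨hfin.toFinset.image g, ?_, ?_, ?_⟩
  · rw [Set.ncard_eq_toFinset_card _ hfin]; exact Finset.card_image_le
  · intro x hx
    simp only [Finset.coe_image, Set.Finite.coe_toFinset, Set.mem_image] at hx
    obtain ⟨F, hF, rfl⟩ := hx
    have := hg F hF.2.1
    obtain ⟨i, rfl⟩ := facet_sub c a F hF
    exact Fc_frontier c a i this
  · intro F hF
    exact ⟨g F, Finset.mem_image_of_mem _ (by simpa using hF), hg F hF.2.1⟩

lemma cover_le_ncard [Finite ι] [FiniteDimensional ℝ E] (c : E) (a : ι → E →L[ℝ] ℝ) :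
    cover (Pc c a) ≤ (facets (Pc c a)).ncard := by
  obtain ⟨K, h1, h2, h3⟩ := exists_K c a
  exact (cover_le _ K h2 h3).trans h1

lemma le_cover [Finite ι] [FiniteDimensional ℝ E] (c : E) (a : ι → E →L[ℝ] ℝ) {W : Type*}
    [Fintype W] (G : W → Set E) (hG : ∀ w, G w ∈ facets (Pc c a))
    (hd : ∀ w w' x, x ∈ G w → x ∈ G w' → w = w') : Fintype.card W ≤ cover (Pc c a) := by
  classical
  have hne : {k | ∃ K : Finset E, K.card = k ∧ (↑K : Set E) ⊆ frontier (Pc c a) ∧
      ∀ F ∈ facets (Pc c a), ∃ x ∈ K, x ∈ F}.Nonempty := by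
    obtain ⟨K, _, h2, h3⟩ := exists_K c a
    exact ⟨_, K, rfl, h2, h3⟩
  obtain ⟨K, h1, _, h3⟩ := Nat.sInf_mem hne
  unfold cover
  rw [← h1]
  choose g hg1 hg2 using fun w => h3 _ (hG w)
  exact Finset.card_le_card_of_injOn g (fun w _ => hg1 w)
    (fun w _ w' _ h => hd w w' (g w) (hg2 w) (h ▸ hg2 w'))

lemma ncard_le [Fintype ι] [FiniteDimensional ℝ E] (c : E) (a : ι → E →L[ℝ] ℝ) :
    (facets (Pc c a)).ncard ≤ Fintype.card ι := by
  have h : facets (Pc c a) ⊆ Fc c a '' univ := fun F hF => by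
    obtain ⟨i, rfl⟩ := facet_sub c a F hF; exact ⟨i, trivial, rfl⟩
  refine (Set.ncard_le_ncard h (Set.toFinite _)).trans ?_
  refine (Set.ncard_image_le (Set.toFinite _)).trans ?_
  simp [Set.ncard_univ]

/-- normal form -/
lemma normal (P : Set E) (hP : IsPolytope P) (c : E) (hc : c ∈ interior P) :
    ∃ B : Finset (E →L[ℝ] ℝ), P = Pc c (fun b : B => b.1) ∧
      (∀ i : B, ∃ p, i.1 p = 1 ∧ ∀ j : B, j ≠ i → j.1 p < 1) ∧
      ∀ y, (∀ i : B, i.1 y ≤ 0) → y = 0 := by
  classical
  obtain ⟨hb, s, hs⟩ := hP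
  have hcP : c ∈ P := interior_subset hc
  have hex : ∃ n, ∃ B : Finset (E →L[ℝ] ℝ), B.card = n ∧ P = {x | ∀ b ∈ B, b (x - c) ≤ 1} := by
    have hlt : ∀ p ∈ s, p.1 ≠ 0 → p.1 c < p.2 := by
      intro p hp hne
      obtain ⟨v, hv⟩ : ∃ v, 0 < p.1 v := by
        by_contra h
        push Not at h
        apply hne
        ext v
        exact le_antisymm (h v) (by simpa using h (-v))
      have hcont : Continuous fun t : ℝ => c + t • v := by fun_prop
      have h1 : ∀ᶠ t : ℝ in 𝓝 0, c + t • v ∈ P := by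
        apply hcont.continuousAt.eventually_mem
        simpa using mem_interior_iff_mem_nhds.1 hc
      obtain ⟨t, h2, h3⟩ := ((h1.filter_mono (nhdsWithin_le_nhds (s := Ioi (0:ℝ)))).and
        self_mem_nhdsWithin).exists
      rw [hs] at h2
      have := h2 p hp
      have h3' : 0 < t := h3
      simp only [map_add, map_smul, smul_eq_mul] at this
      nlinarith [mul_pos h3' hv]
    refine ⟨_, (s.filter fun p => p.1 ≠ 0).image fun p => (p.2 - p.1 c)⁻¹ • p.1, rfl, ?_⟩
    ext x
    rw [hs]
    simp only [Set.mem_setOf_eq, Finset.mem_image, Finset.mem_filter, forall_exists_index, and_imp]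
    constructor
    · rintro h _ p hp hne rfl
      have h1 := hlt p hp hne
      have h2 := h p hp
      simp only [ContinuousLinearMap.smul_apply, smul_eq_mul]
      rw [inv_mul_le_iff₀ (by linarith), map_sub]
      linarith
    · intro h p hp
      by_cases hne : p.1 = 0
      · rw [hs] at hcP
        have := hcP p hp
        rw [hne] at this ⊢
        simpa using this
      · have h1 := hlt p hp hne
        have h2 := h _ p hp hne rfl
        simp only [ContinuousLinearMap.smul_apply, smul_eq_mul] at h2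
        rw [inv_mul_le_iff₀ (by linarith), map_sub] at h2
        linarith
  obtain ⟨B, hB1, hB2⟩ := Nat.find_spec hex
  refine ⟨B, ?_, ?_, ?_⟩
  · rw [hB2]; ext x; simp [Pc]
  · rintro ⟨b, hb⟩
    have hlt : (B.erase b).card < Nat.find hex := by
      rw [← hB1]; exact Finset.card_erase_lt_of_mem hb
    have hmin := Nat.find_min hex hlt
    have : ∃ z, (∀ b' ∈ B.erase b, b' (z - c) ≤ 1) ∧ 1 < b (z - c) := by
      by_contra hcon
      push Not at hcon
      apply hmin
      refine ⟨_, rfl, ?_⟩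
      rw [hB2]
      ext x
      constructor
      · intro h b' hb'; exact h b' (Finset.mem_of_mem_erase hb')
      · intro h b' hb'
        by_cases e : b' = b
        · rw [e]; exact hcon x h
        · exact h b' (Finset.mem_erase.2 ⟨e, hb'⟩)
    obtain ⟨z, hz1, hz2⟩ := this
    refine ⟨(b (z - c))⁻¹ • (z - c), ?_, ?_⟩
    · simp only [map_smul, smul_eq_mul]
      exact inv_mul_cancel₀ (by linarith)
    · rintro ⟨b', hb'⟩ hne
      have hne' : b' ≠ b := fun e => hne (Subtype.ext e)
      have := hz1 b' (Finset.mem_erase.2 ⟨hne', hb'⟩)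
      simp only [map_smul, smul_eq_mul]
      rw [inv_mul_lt_iff₀ (by linarith)]
      linarith
  · intro y hy
    by_contra hne
    obtain ⟨R, hR⟩ := hb.subset_closedBall c
    have hpos : 0 < ‖y‖ := norm_pos_iff.2 hne
    have hm : c + ((|R| + 1) / ‖y‖) • y ∈ P := by
      rw [hB2]
      intro b hb'
      have := hy ⟨b, hb'⟩
      simp only [add_sub_cancel_left, map_smul, smul_eq_mul]
      have h0 : 0 ≤ (|R| + 1) / ‖y‖ := by positivity
      nlinarith [mul_nonneg h0 (neg_nonneg.2 this)]
    have := hR hm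
    simp only [Metric.mem_closedBall, dist_eq_norm, add_sub_cancel_left, norm_smul, Real.norm_eq_abs] at this
    rw [abs_of_nonneg (by positivity), div_mul_cancel₀ _ hpos.ne'] at this
    linarith [le_abs_self R]

lemma ncard_eq [Fintype ι] [FiniteDimensional ℝ E] (c : E) (a : ι → E →L[ℝ] ℝ)
    (hp : ∀ i, ∃ p, a i p = 1 ∧ ∀ j, j ≠ i → a j p < 1) :
    (facets (Pc c a)).ncard = Fintype.card ι := by
  choose p hp1 hp2 using hp
  have hf : ∀ i, Fc c a i ∈ facets (Pc c a) := fun i =>
    facet_of c a i (p i) (hp1 i) fun j => by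
      by_cases h : j = i
      · right; rw [h]
      · left; exact hp2 i j h
  have h : facets (Pc c a) = Fc c a '' univ := by
    ext F
    constructor
    · intro hF; obtain ⟨i, rfl⟩ := facet_sub c a F hF; exact ⟨i, trivial, rfl⟩
    · rintro ⟨i, _, rfl⟩; exact hf i
  rw [h, Set.ncard_image_of_injective, Set.ncard_univ, Nat.card_eq_fintype_card]
  intro i j hij
  by_contra hne
  have h1 : p i + c ∈ Fc c a i := by
    refine ⟨fun k => ?_, by simpa using hp1 i⟩
    by_cases h : k = i
    · rw [h]; simpa using (hp1 i).le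
    · simpa using (hp2 i k h).le
  rw [hij] at h1
  have h2 := h1.2
  have := hp2 i j (Ne.symm hne)
  simp only [add_sub_cancel_right] at h2
  linarith

end Pool.Agent.H8.Fac
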