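import Mathlib

namespace Pool.Agent.H8.Fac

open Module Finset

variable {E : Type*} [AddCommGroup E] [Module ℝ E] [FiniteDimensional ℝ E] {ι : Type*}

lemma ker2 (h3 : finrank ℝ E = 3) (f g : E →ₗ[ℝ] ℝ) : ∃ y, y ≠ 0 ∧ f y = 0 ∧ g y = 0 := by
  have := LinearMap.ker_ne_bot_of_finrank_lt (f := f.prod g) (by simp [h3])
  obtain ⟨y, hy, hne⟩ := Submodule.exists_mem_ne_zero_of_ne_bot this
  have h : (f y, g y) = (0, 0) := hy
  exact ⟨y, hne, congrArg Prod.fst h, congrArg Prod.snd h⟩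

lemma line (h3 : finrank ℝ E = 3) (f g : E →ₗ[ℝ] ℝ) (v : E) (hf : f v = 1) (hg : g v = 1)
    (hne : f ≠ g) : ∃ u : E, u ≠ 0 ∧ ∀ y, f y = 0 → g y = 0 → ∃ t : ℝ, y = t • u := by
  obtain ⟨z, hz⟩ : ∃ z, f z ≠ g z := by
    by_contra h; push Not at h; exact hne (LinearMap.ext h)
  have hsurj : LinearMap.range (f.prod g) = ⊤ := by
    rw [eq_top_iff]
    rintro ⟨α, β⟩ _
    refine ⟨β • v + ((α - β) / (f z - g z)) • (z - g z • v), ?_⟩
    have : f z - g z ≠ 0 := sub_ne_zero.2 hz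
    ext
    · simp [hf]; field_simp; ring
    · simp [hg]
  have hr := LinearMap.finrank_range_add_finrank_ker (f.prod g)
  rw [hsurj, finrank_top, h3] at hr
  have h1 : finrank ℝ (LinearMap.ker (f.prod g)) = 1 := by
    simp at hr; omega
  obtain ⟨u, hu, h⟩ := finrank_eq_one_iff'.1 h1
  refine ⟨u.1, fun e => hu (Subtype.ext e), fun y h1 h2 => ?_⟩
  obtain ⟨t, ht⟩ := h ⟨y, by simp [h1, h2]⟩
  exact ⟨t, by simpa using (congrArg Subtype.val ht).symm⟩

lemma vcount (h3 : finrank ℝ E = 3) (S : Finset ι) (h : ι → E →ₗ[ℝ] ℝ) (V : Finset E)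
    (hV : ∀ v ∈ V, (∀ s ∈ S, h s v ≤ 1) ∧ ∀ y, (∀ s ∈ S, h s v = 1 → h s y = 0) → y = 0) :
    V.card ≤ 2 * S.card := by
  classical
  obtain ⟨e0, he0, -⟩ := ker2 h3 0 0
  have hU : ∀ st : S × S, ∃ u : E, u ≠ 0 ∧ ∀ v, h st.1 v = 1 → h st.2 v = 1 → h st.1 ≠ h st.2 →
      ∀ y, h st.1 y = 0 → h st.2 y = 0 → ∃ t : ℝ, y = t • u := by
    intro st
    by_cases hc : ∃ v, h st.1 v = 1 ∧ h st.2 v = 1 ∧ h st.1 ≠ h st.2
    · obtain ⟨v, h1, h2, h4⟩ := hc
      obtain ⟨u, hu, h5⟩ := line h3 _ _ v h1 h2 h4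
      exact ⟨u, hu, fun _ _ _ _ => h5⟩
    · exact ⟨e0, he0, fun v h1 h2 h4 => absurd ⟨v, h1, h2, h4⟩ hc⟩
  choose u hu0 hu using hU
  obtain ⟨c, hc⟩ := Module.exists_dual_forall_apply_ne_zero (K := ℝ)
    (Sum.elim u (fun vv : V × V => if vv.1 = vv.2 then e0 else vv.1.1 - vv.2.1) :
      (S × S) ⊕ (V × V) → E) (by
      rintro (st | vv)
      · exact hu0 st
      · simp only [Sum.elim_inr]
        split_ifs with h1
        · exact he0
        · exact sub_ne_zero.2 fun e => h1 (Subtype.ext e))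
  have gen1 : ∀ s ∈ S, ∀ t ∈ S, ∀ v, h s v = 1 → h t v = 1 → h s ≠ h t →
      ∀ y, h s y = 0 → h t y = 0 → c y = 0 → y = 0 := by
    intro s hs t ht v h1 h2 h4 y h5 h6 h7
    obtain ⟨τ, rfl⟩ := hu (⟨s, hs⟩, ⟨t, ht⟩) v h1 h2 h4 y h5 h6
    have := hc (Sum.inl (⟨s, hs⟩, ⟨t, ht⟩))
    simp only [Sum.elim_inl] at this
    simp only [map_smul, smul_eq_mul, mul_eq_zero] at h7
    rcases h7 with h7 | h7
    · simp [h7]
    · exact absurd h7 this
  have gen2 : ∀ v ∈ V, ∀ w ∈ V, c v = c w → v = w := by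
    intro v hv w hw e
    by_contra hne
    have := hc (Sum.inr (⟨v, hv⟩, ⟨w, hw⟩))
    simp only [Sum.elim_inr, Subtype.mk.injEq, if_neg hne, map_sub] at this
    exact this (sub_eq_zero.2 e)
  have key : ∀ v ∈ V, ∃ sb : ι × Bool, sb.1 ∈ S ∧ h sb.1 v = 1 ∧
      ∀ w ∈ V, h sb.1 w = 1 → (if sb.2 then c w ≤ c v else c v ≤ c w) := by
    intro v hv
    by_contra hcon
    push Not at hcon
    have hy : ∀ s ∈ S, h s v = 1 → ∃ y, y ≠ 0 ∧ c y = 0 ∧ h s y = 0 ∧
        ∀ t ∈ S, h t v = 1 → h t y ≤ 0 := by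
      intro s hs hsv
      obtain ⟨w1, hw1, e1, l1⟩ := hcon (s, true) hs hsv
      obtain ⟨w2, hw2, e2, l2⟩ := hcon (s, false) hs hsv
      simp only [if_true, not_le, Bool.false_eq_true, if_false] at e1 l1 e2 l2
      refine ⟨(c w1 - c v) • (w2 - v) + (c v - c w2) • (w1 - v), ?_, ?_, ?_, ?_⟩
      · intro h0
        have : w1 - v = 0 := by
          apply (hV v hv).2
          intro t ht htv
          have := congrArg (h t) h0
          simp only [map_add, map_smul, map_sub, smul_eq_mul, map_zero, htv] at this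
          have a1 := (hV w1 hw1).1 t ht
          have a2 := (hV w2 hw2).1 t ht
          rw [map_sub, htv]
          nlinarith [mul_nonneg (sub_pos.2 l1).le (sub_nonneg.2 a2),
            mul_nonneg (sub_pos.2 l2).le (sub_nonneg.2 a1)]
        rw [sub_eq_zero.1 this] at l1
        exact lt_irrefl _ l1
      · simp only [map_add, map_smul, map_sub, smul_eq_mul]; ring
      · simp only [map_add, map_smul, map_sub, smul_eq_mul, hsv, e1, e2]; ring
      · intro t ht htv
        simp only [map_add, map_smul, map_sub, smul_eq_mul, htv]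
        have a1 := (hV w1 hw1).1 t ht
        have a2 := (hV w2 hw2).1 t ht
        nlinarith [mul_nonneg (sub_pos.2 l1).le (sub_nonneg.2 a2),
            mul_nonneg (sub_pos.2 l2).le (sub_nonneg.2 a1)]
    have h3f : ∀ f g : E →ₗ[ℝ] ℝ, ∃ s ∈ S, h s v = 1 ∧ h s ≠ f ∧ h s ≠ g := by
      intro f g
      obtain ⟨y, hy0, h1, h2⟩ := ker2 h3 f g
      by_contra hc'
      push Not at hc'
      apply hy0
      apply (hV v hv).2
      intro s hs hsv
      by_cases e : h s = f
      · rw [e]; exact h1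
      · rw [hc' s hs hsv e]; exact h2
    obtain ⟨s1, m1, t1, -, -⟩ := h3f 0 0
    obtain ⟨s2, m2, t2, n21, -⟩ := h3f (h s1) (h s1)
    obtain ⟨s3, m3, t3, n31, n32⟩ := h3f (h s1) (h s2)
    obtain ⟨y1, z1, c1, k1, l1⟩ := hy s1 m1 t1
    obtain ⟨y2, z2, c2, k2, l2⟩ := hy s2 m2 t2
    obtain ⟨y3, z3, c3, k3, l3⟩ := hy s3 m3 t3
    have A : h s1 y2 < 0 := lt_of_le_of_ne (l2 s1 m1 t1)
      fun e => z2 (gen1 s2 m2 s1 m1 v t2 t1 n21 y2 k2 e c2)
    have B : h s1 y3 < 0 := lt_of_le_of_ne (l3 s1 m1 t1)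
      fun e => z3 (gen1 s3 m3 s1 m1 v t3 t1 n31 y3 k3 e c3)
    have C : h s2 y1 < 0 := lt_of_le_of_ne (l1 s2 m2 t2)
      fun e => z1 (gen1 s2 m2 s1 m1 v t2 t1 n21 y1 e k1 c1)
    have D : h s2 y3 < 0 := lt_of_le_of_ne (l3 s2 m2 t2)
      fun e => z3 (gen1 s3 m3 s2 m2 v t3 t2 n32 y3 k3 e c3)
    have F : h s3 y1 < 0 := lt_of_le_of_ne (l1 s3 m3 t3)
      fun e => z1 (gen1 s3 m3 s1 m1 v t3 t1 n31 y1 e k1 c1)
    have G : h s3 y2 < 0 := lt_of_le_of_ne (l2 s3 m3 t3)
      fun e => z2 (gen1 s3 m3 s2 m2 v t3 t2 n32 y2 e k2 c2)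
    have hz := gen1 s2 m2 s1 m1 v t2 t1 n21
      ((-(h s2 y3 * h s1 y2)) • y1 + (-(h s1 y3 * h s2 y1)) • y2 + (h s1 y2 * h s2 y1) • y3)
      (by simp only [map_add, map_smul, smul_eq_mul, k2]; ring)
      (by simp only [map_add, map_smul, smul_eq_mul, k1]; ring)
      (by simp only [map_add, map_smul, smul_eq_mul, c1, c2, c3]; ring)
    have := congrArg (h s3) hz
    simp only [map_add, map_smul, smul_eq_mul, k3, map_zero] at this
    have p1 := mul_pos (mul_pos_of_neg_of_neg D A) (neg_pos.2 F)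
    have p2 := mul_pos (mul_pos_of_neg_of_neg B C) (neg_pos.2 G)
    nlinarith
  rcases V.eq_empty_or_nonempty with rfl | ⟨v0, hv0⟩
  · simp
  haveI : Nonempty (ι × Bool) := ⟨(key v0 hv0).choose⟩
  choose! φ hφ1 hφ2 hφ3 using key
  have : V.card ≤ (S ×ˢ (univ : Finset Bool)).card := by
    apply Finset.card_le_card_of_injOn φ
    · intro v hv
      simp only [coe_product, coe_univ, Set.mem_prod, mem_coe, Set.mem_univ, and_true]
      exact hφ1 v hv
    · intro v hv w hw e
      have a1 := hφ3 v hv w hw (by rw [e]; exact hφ2 w hw)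
      have a2 := hφ3 w hw v hv (by rw [← e]; exact hφ2 v hv)
      rw [← e] at a2
      apply gen2 v hv w hw
      split_ifs at a1 a2
      · exact le_antisymm a2 a1
      · exact le_antisymm a1 a2
  simpa [mul_comm] using this

def Adj (a : ι → E →ₗ[ℝ] ℝ) (i j : ι) : Prop :=
  i ≠ j ∧ ∃ y, (∀ k, a k y ≤ 1) ∧ a i y = 1 ∧ a j y = 1

omit [FiniteDimensional ℝ E] in
lemma adj_of_max (a : ι → E →ₗ[ℝ] ℝ) (hb : ∀ y, (∀ i, a i y ≤ 0) → y = 0) (y : E) (hy : y ≠ 0)
    (i j : ι) (hij : i ≠ j) (h1 : ∀ k, a k y ≤ a i y) (h2 : a j y = a i y) : Adj a i j := by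
  have hpos : 0 < a i y := by
    by_contra h
    push Not at h
    exact hy (hb y fun k => (h1 k).trans h)
  refine ⟨hij, (a i y)⁻¹ • y, fun k => ?_, ?_, ?_⟩
  · simp only [map_smul, smul_eq_mul]
    rw [inv_mul_le_iff₀ hpos, mul_one]; exact h1 k
  · simp only [map_smul, smul_eq_mul]; exact inv_mul_cancel₀ hpos.ne'
  · simp only [map_smul, smul_eq_mul, h2]; exact inv_mul_cancel₀ hpos.ne'

omit [FiniteDimensional ℝ E] in
lemma step0 [Fintype ι] (a : ι → E →ₗ[ℝ] ℝ) (hb : ∀ y, (∀ i, a i y ≤ 0) → y = 0) (i : ι) (p : E)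
    (hp1 : a i p = 1) (hp2 : ∀ j, j ≠ i → a j p < 1) (x : E) (hk : ∃ k, a i x < a k x)
    (hne : ∀ τ : ℝ, x ≠ τ • p) : ∃ j, Adj a i j ∧ a i x < a j x := by
  classical
  obtain ⟨k, hk⟩ := hk
  have hki : k ≠ i := fun e => by rw [e] at hk; exact lt_irrefl _ hk
  obtain ⟨j, hj, hmin⟩ := Finset.exists_min_image (univ.erase i)
    (fun k => (a i x - a k x) / (1 - a k p)) ⟨k, by simp [hki]⟩
  have hji : j ≠ i := by simpa using hj
  set τ := (a i x - a j x) / (1 - a j p) with hτ
  have dj := sub_pos.2 (hp2 j hji)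
  have hτneg : τ < 0 := lt_of_le_of_lt (hmin k (by simp [hki]))
    (div_neg_of_neg_of_pos (by linarith) (sub_pos.2 (hp2 k hki)))
  have e : τ * (1 - a j p) = a i x - a j x := by rw [hτ]; field_simp
  refine ⟨j, adj_of_max a hb (x - τ • p) (sub_ne_zero.2 (hne τ)) i j hji.symm (fun l => ?_) ?_, ?_⟩
  · by_cases hl : l = i
    · rw [hl]
    · have := hmin l (by simp [hl])
      rw [le_div_iff₀ (sub_pos.2 (hp2 l hl))] at this
      simp only [map_sub, map_smul, smul_eq_mul, hp1]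
      linarith
  · simp only [map_sub, map_smul, smul_eq_mul, hp1]
    linarith
  · nlinarith [mul_pos (neg_pos.2 hτneg) dj]

lemma step [Fintype ι] (h3 : finrank ℝ E = 3) (a : ι → E →ₗ[ℝ] ℝ)
    (hb : ∀ y, (∀ i, a i y ≤ 0) → y = 0)
    (hp : ∀ i, ∃ p, a i p = 1 ∧ ∀ j, j ≠ i → a j p < 1) (i : ι) (x : E) (hk : ∃ k, a i x < a k x) :
    ∃ j, Adj a i j ∧ a i x < a j x := by
  obtain ⟨p, hp1, hp2⟩ := hp i
  by_cases hne : ∀ τ : ℝ, x ≠ τ • p
  · exact step0 a hb i p hp1 hp2 x hk hne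
  · push Not at hne
    obtain ⟨τ, rfl⟩ := hne
    obtain ⟨k, hk⟩ := hk
    have hki : k ≠ i := fun e => by rw [e] at hk; exact lt_irrefl _ hk
    simp only [map_smul, smul_eq_mul, hp1] at hk ⊢
    have hτ : τ < 0 := by
      by_contra h
      push Not at h
      nlinarith [mul_nonneg h (sub_pos.2 (hp2 k hki)).le]
    obtain ⟨y, hy0, hy, -⟩ := ker2 h3 (a i) (a i)
    obtain ⟨j, hj, -⟩ := step0 a hb i p hp1 hp2 y (by
      by_contra h
      push Not at h
      exact hy0 (hb y fun k => (h k).trans hy.le)) (by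
      intro σ e
      rw [e] at hy
      simp only [map_smul, smul_eq_mul, hp1, mul_one] at hy
      rw [hy, zero_smul] at e
      exact hy0 e)
    refine ⟨j, hj, ?_⟩
    nlinarith [mul_pos (neg_pos.2 hτ) (sub_pos.2 (hp2 j hj.1.symm))]

lemma conn [Fintype ι] (h3 : finrank ℝ E = 3) (a : ι → E →ₗ[ℝ] ℝ)
    (hb : ∀ y, (∀ i, a i y ≤ 0) → y = 0)
    (hp : ∀ i, ∃ p, a i p = 1 ∧ ∀ j, j ≠ i → a j p < 1) {β : Type*} (lab : ι → β) (S : Finset ι)
    (hlab : ∀ i j, i ∉ S → j ∉ S → Adj a i j → lab i = lab j) (x : E) (α : ℝ) (hx : x ≠ 0)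
    (hS : ∀ s ∈ S, a s x ≤ α) (i j : ι) (hi : α < a i x) (hj : α < a j x) : lab i = lab j := by
  classical
  obtain ⟨m, -, hm⟩ := Finset.exists_max_image univ (fun k => a k x) ⟨i, mem_univ _⟩
  have hm' : ∀ k, a k x ≤ a m x := fun k => hm k (mem_univ _)
  have nS : ∀ k, α < a k x → k ∉ S := fun k h hk => absurd (hS k hk) (not_le.2 h)
  have key : ∀ n, ∀ i, (univ.filter fun k => a i x < a k x).card = n → α < a i x →
      lab i = lab m := by
    intro n
    induction n using Nat.strong_induction_on with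
    | _ n ih =>
      intro i hn hi
      by_cases hk : ∃ k, a i x < a k x
      · obtain ⟨j, hj1, hj2⟩ := step h3 a hb hp i x hk
        rw [hlab i j (nS i hi) (nS j (hi.trans hj2)) hj1]
        refine ih _ ?_ j rfl (hi.trans hj2)
        rw [← hn]
        apply Finset.card_lt_card
        refine ⟨fun k hk => ?_, fun hsub => ?_⟩
        · simp only [mem_filter, mem_univ, true_and] at hk ⊢
          exact hj2.trans hk
        · have := hsub (x := j) (by simpa using hj2)
          simp at this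
      · push Not at hk
        by_cases e : i = m
        · rw [e]
        · exact hlab i m (nS i hi) (nS m (hi.trans_le (hm' i)))
            (adj_of_max a hb x hx i m e hk (le_antisymm (hk m) (hm' i)))
  rw [key _ i rfl hi, key _ j rfl hj]

omit [FiniteDimensional ℝ E] in
lemma vertex (S : Finset ι) (h : ι → E →ₗ[ℝ] ℝ) (hL : ∀ y, (∀ s ∈ S, h s y ≤ 0) → y = 0)
    (g : E →ₗ[ℝ] ℝ) (w0 : E) (h0 : ∀ s ∈ S, h s w0 ≤ 1) (hg : 1 < g w0) :
    ∃ v, (∀ s ∈ S, h s v ≤ 1) ∧ 1 < g v ∧ ∀ y, (∀ s ∈ S, h s v = 1 → h s y = 0) → y = 0 := by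
  classical
  have key : ∀ n, ∀ w, (S.filter fun s => h s w < 1).card = n → (∀ s ∈ S, h s w ≤ 1) → 1 < g w →
      ∃ v, (∀ s ∈ S, h s v ≤ 1) ∧ 1 < g v ∧ ∀ y, (∀ s ∈ S, h s v = 1 → h s y = 0) → y = 0 := by
    intro n
    induction n using Nat.strong_induction_on with
    | _ n ih =>
      intro w hn hw hgw
      by_cases hv : ∀ y, (∀ s ∈ S, h s w = 1 → h s y = 0) → y = 0
      · exact ⟨w, hw, hgw, hv⟩
      · push Not at hv
        obtain ⟨y, hy, hy0, hgy⟩ : ∃ y, (∀ s ∈ S, h s w = 1 → h s y = 0) ∧ y ≠ 0 ∧ 0 ≤ g y := by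
          obtain ⟨y, hy, hy0⟩ := hv
          rcases le_total 0 (g y) with h1 | h1
          · exact ⟨y, hy, hy0, h1⟩
          · exact ⟨-y, fun s hs e => by simp [hy s hs e], neg_ne_zero.2 hy0, by simpa using h1⟩
        have hne : (S.filter fun s => 0 < h s y).Nonempty := by
          by_contra hc
          apply hy0
          apply hL
          intro s hs
          by_contra h1
          exact hc ⟨s, mem_filter.2 ⟨hs, not_le.1 h1⟩⟩
        obtain ⟨j, hj, hmin⟩ := Finset.exists_min_image _ (fun s => (1 - h s w) / h s y) hne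
        obtain ⟨hjS, hjy⟩ := mem_filter.1 hj
        have hjw : h j w < 1 := lt_of_le_of_ne (hw j hjS) fun e => hjy.ne' (hy j hjS e)
        set t := (1 - h j w) / h j y with ht
        have htpos : 0 < t := div_pos (sub_pos.2 hjw) hjy
        have e : t * h j y = 1 - h j w := by rw [ht]; field_simp
        refine ih _ ?_ (w + t • y) rfl (fun s hs => ?_) ?_
        · rw [← hn]
          apply Finset.card_lt_card
          refine ⟨fun s hs => ?_, fun hsub => ?_⟩
          · obtain ⟨h1, h2⟩ := mem_filter.1 hs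
            refine mem_filter.2 ⟨h1, lt_of_le_of_ne (hw s h1) fun e => ?_⟩
            simp [e, hy s h1 e] at h2
          · have := (mem_filter.1 (hsub (mem_filter.2 ⟨hjS, hjw⟩))).2
            simp only [map_add, map_smul, smul_eq_mul] at this
            linarith
        · simp only [map_add, map_smul, smul_eq_mul]
          by_cases h1 : 0 < h s y
          · have := hmin s (mem_filter.2 ⟨hs, h1⟩)
            rw [le_div_iff₀ h1] at this
            linarith
          · have := hw s hs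
            nlinarith [mul_nonneg htpos.le (neg_nonneg.2 (not_lt.1 h1))]
        · simp only [map_add, map_smul, smul_eq_mul]
          nlinarith [mul_nonneg htpos.le hgy]
  exact key _ w0 rfl h0 hg

lemma count0 [Fintype ι] (h3 : finrank ℝ E = 3) (a : ι → E →ₗ[ℝ] ℝ)
    (hb : ∀ y, (∀ i, a i y ≤ 0) → y = 0)
    (hp : ∀ i, ∃ p, a i p = 1 ∧ ∀ j, j ≠ i → a j p < 1) {β : Type*} (lab : ι → β)
    (hlab : ∀ i j, Adj a i j → lab i = lab j) (i j : ι) : lab i = lab j := by
  obtain ⟨x, hx, -⟩ := ker2 h3 0 0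
  exact conn h3 a hb hp lab ∅ (fun i j _ _ => hlab i j) x (min (a i x) (a j x) - 1) hx (by simp) i j
    (by linarith [min_le_left (a i x) (a j x)]) (by linarith [min_le_right (a i x) (a j x)])

lemma count [Fintype ι] (h3 : finrank ℝ E = 3) (a : ι → E →ₗ[ℝ] ℝ)
    (hb : ∀ y, (∀ i, a i y ≤ 0) → y = 0)
    (hp : ∀ i, ∃ p, a i p = 1 ∧ ∀ j, j ≠ i → a j p < 1) {β : Type*} (lab : ι → β) (S : Finset ι)
    (hlab : ∀ i j, i ∉ S → j ∉ S → Adj a i j → lab i = lab j) (hS : S.Nonempty)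
    (R : Finset ι) (hR : ∀ r ∈ R, r ∉ S) (hinj : Set.InjOn lab R) : R.card ≤ 2 * S.card := by
  classical
  have conn' : ∀ (x : E) (α : ℝ), (∀ s ∈ S, a s x ≤ α) → ∀ i j, α < a i x → α < a j x →
      lab i = lab j := by
    intro x α h1 i j hi hj
    refine conn h3 a hb hp lab S hlab x α ?_ h1 i j hi hj
    rintro rfl
    obtain ⟨s, hs⟩ := hS
    have := h1 s hs
    simp only [map_zero] at this hi
    linarith
  have hcard : (0:ℝ) < S.card := by exact_mod_cast hS.card_pos
  set b : E →ₗ[ℝ] ℝ := (S.card : ℝ)⁻¹ • ∑ s ∈ S, a s with hbdef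
  have hsum : ∀ y, ∑ s ∈ S, (a s - b) y = 0 := by
    intro y
    simp only [LinearMap.sub_apply, Finset.sum_sub_distrib, Finset.sum_const, nsmul_eq_mul, hbdef,
      LinearMap.smul_apply, LinearMap.sum_apply, smul_eq_mul]
    field_simp
    ring
  by_cases hL : ∀ y, (∀ s ∈ S, (a s - b) y ≤ 0) → y = 0
  · have hv : ∀ r ∈ R, ∃ v, (∀ s ∈ S, (a s - b) v ≤ 1) ∧ 1 < (a r - b) v ∧
        ∀ y, (∀ s ∈ S, (a s - b) v = 1 → (a s - b) y = 0) → y = 0 := by
      intro r hr
      obtain ⟨p, hp1, hp2⟩ := hp r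
      obtain ⟨m, hm, hmax⟩ := Finset.exists_max_image S (fun s => (a s - b) p) hS
      have hpos : 0 < (a m - b) p := by
        by_contra h
        push Not at h
        have := hL p fun s hs => (hmax s hs).trans h
        rw [this] at hp1
        simp at hp1
      refine vertex S (fun s => a s - b) hL (a r - b) (((a m - b) p)⁻¹ • p) (fun s hs => ?_) ?_
      · rw [map_smul, smul_eq_mul, inv_mul_le_iff₀ hpos, mul_one]; exact hmax s hs
      · rw [map_smul, smul_eq_mul, lt_inv_mul_iff₀ hpos, mul_one]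
        have := hp2 m (fun e => hR r hr (e ▸ hm))
        simp only [LinearMap.sub_apply]
        linarith
    choose! v hv1 hv2 hv3 using hv
    have h1 : (R.image v).card = R.card := by
      apply Finset.card_image_of_injOn
      intro r hr r' hr' e
      apply hinj hr hr'
      apply conn' (v r) (b (v r) + 1)
      · intro s hs
        have := hv1 r hr s hs
        simp only [LinearMap.sub_apply] at this
        linarith
      · have := hv2 r hr
        simp only [LinearMap.sub_apply] at this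
        linarith
      · have := hv2 r' hr'
        rw [← e] at this
        simp only [LinearMap.sub_apply] at this
        linarith
    rw [← h1]
    apply vcount h3 S (fun s => a s - b)
    intro w hw
    obtain ⟨r, hr, rfl⟩ := mem_image.1 hw
    exact ⟨hv1 r hr, hv3 r hr⟩
  · push Not at hL
    obtain ⟨y, γ, j, hy, hj⟩ : ∃ (y : E) (γ : ℝ) (j : ι), (∀ s ∈ S, a s y = γ) ∧ γ < a j y := by
      obtain ⟨y, hy, hy0⟩ := hL
      have h0 : ∀ s ∈ S, a s y = b y := by
        intro s hs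
        have := (Finset.sum_eq_zero_iff_of_nonpos hy).1 (hsum y) s hs
        simp only [LinearMap.sub_apply] at this
        linarith
      by_cases h1 : ∃ j, b y < a j y
      · obtain ⟨j, hj⟩ := h1
        exact ⟨y, b y, j, h0, hj⟩
      · by_cases h2 : ∃ j, a j y < b y
        · obtain ⟨j, hj⟩ := h2
          exact ⟨-y, -b y, j, fun s hs => by simp [h0 s hs], by simpa using hj⟩
        · exfalso
          push Not at h1 h2
          rcases le_total (b y) 0 with h4 | h4
          · exact hy0 (hb y fun i => (h1 i).trans h4)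
          · exact hy0 (neg_eq_zero.1 (hb (-y) fun i => by
              have := h2 i
              simp only [map_neg]; linarith))
    have hA : ∀ r ∈ R, γ ≤ a r y → lab r = lab j := by
      intro r hr hγ
      obtain ⟨p, hp1, hp2⟩ := hp r
      obtain ⟨m, hm, hmax⟩ := Finset.exists_max_image S (fun s => a s p) hS
      have hm1 := hp2 m (fun e => hR r hr (e ▸ hm))
      set N := (|a m p - a j p| + 1) / (a j y - γ) with hN
      have hd := sub_pos.2 hj
      have hN0 : 0 ≤ N := by positivity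
      have e : N * (a j y - γ) = |a m p - a j p| + 1 := by rw [hN]; field_simp
      apply conn' (p + N • y) (a m p + N * γ)
      · intro s hs
        simp only [map_add, map_smul, smul_eq_mul, hy s hs]
        linarith [hmax s hs]
      · simp only [map_add, map_smul, smul_eq_mul]
        nlinarith [mul_nonneg hN0 (sub_nonneg.2 hγ)]
      · simp only [map_add, map_smul, smul_eq_mul]
        nlinarith [le_abs_self (a m p - a j p)]
    have h1 : (R.filter fun r => γ ≤ a r y).card ≤ 1 := by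
      rw [Finset.card_le_one]
      intro r hr r' hr'
      obtain ⟨a1, a2⟩ := mem_filter.1 hr
      obtain ⟨b1, b2⟩ := mem_filter.1 hr'
      exact hinj a1 b1 ((hA r a1 a2).trans (hA r' b1 b2).symm)
    have h2 : (R.filter fun r => ¬ γ ≤ a r y).card ≤ 1 := by
      rw [Finset.card_le_one]
      intro r hr r' hr'
      obtain ⟨a1, a2⟩ := mem_filter.1 hr
      obtain ⟨b1, b2⟩ := mem_filter.1 hr'
      apply hinj a1 b1
      apply conn' (-y) (-γ)
      · intro s hs; simp [hy s hs]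
      · simpa using a2
      · simpa using b2
    have h4 := Finset.card_filter_add_card_filter_not (s := R) (fun r => γ ≤ a r y)
    have := hS.card_pos
    omega

end Pool.Agent.H8.Fac
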