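import Pool.Agent.H8.Fac1
import Pool.Agent.H8.Fac2

namespace Pool.Agent.H8.Fac

open Module Finset SimpleGraph

universe u

def GG {ι : Type u} (A : ι → ι → Prop) (hs : ∀ i j, A i j → A j i) (r : ℕ) :
    SimpleGraph (ι ⊕ Fin r) where
  Adj v w := v ≠ w ∧ ∀ i j, v = Sum.inl i → w = Sum.inl j → A i j
  symm := ⟨fun _ _ h => ⟨h.1.symm, fun i j h1 h2 => hs _ _ (h.2 j i h2 h1)⟩⟩
  loopless := ⟨fun _ h => h.1 rfl⟩

lemma matching {ι : Type u} [Fintype ι] (A : ι → ι → Prop) (hs : ∀ i j, A i j → A j i)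
    (hirr : ∀ i j, A i j → i ≠ j) (hn : Fintype.card ι ≠ 1)
    (h0 : ∀ (β : Type u) (lab : ι → β), (∀ i j, A i j → lab i = lab j) → ∀ i j, lab i = lab j)
    (h1 : ∀ (β : Type u) (lab : ι → β) (S : Finset ι),
      (∀ i j, i ∉ S → j ∉ S → A i j → lab i = lab j) → S.Nonempty →
      ∀ R : Finset ι, (∀ r ∈ R, r ∉ S) → Set.InjOn lab R → R.card ≤ 2 * S.card) :
    ∃ r, 3 * r ≤ Fintype.card ι ∧ ∃ σ : ι ⊕ Fin r → ι ⊕ Fin r, (∀ v, σ (σ v) = v) ∧
      (∀ v, σ v ≠ v) ∧ ∀ i j, σ (Sum.inl i) = Sum.inl j → A i j := by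
  classical
  obtain ⟨r, hr1, hr2, hr3⟩ : ∃ r, 3 * r ≤ Fintype.card ι ∧ Fintype.card ι / 3 ≤ r + 1 ∧
      (Fintype.card ι + r) % 2 = 0 := by
    by_cases h : (Fintype.card ι + Fintype.card ι / 3) % 2 = 0
    · exact ⟨Fintype.card ι / 3, by omega, by omega, h⟩
    · exact ⟨Fintype.card ι / 3 - 1, by omega, by omega, by omega⟩
  refine ⟨r, hr1, ?_⟩
  have hM : ∃ M : (GG A hs r).Subgraph, M.IsPerfectMatching := by
    rw [tutte]
    intro u
    unfold IsTutteViolator
    rw [not_lt]
    set H := ((⊤ : (GG A hs r).Subgraph).deleteVerts u).coe with hH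
    have hpar := H.odd_ncard_oddComponents
    have hc : Nat.card ((⊤ : (GG A hs r).Subgraph).deleteVerts u).verts + u.ncard =
        Fintype.card ι + r := by
      have e : ((⊤ : (GG A hs r).Subgraph).deleteVerts u).verts = uᶜ := by
        ext v; simp
      rw [e, Nat.card_coe_set_eq, add_comm, Set.ncard_add_ncard_compl]
      simp
    have hN : H.oddComponents.ncard ≤ Nat.card H.ConnectedComponent := by
      rw [← Set.ncard_univ]
      exact Set.ncard_le_ncard (Set.subset_univ _) (Set.toFinite _)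
    have hadj : ∀ v w (hv : v ∉ u) (hw : w ∉ u), (GG A hs r).Adj v w →
        H.connectedComponentMk ⟨v, by simpa using hv⟩ =
          H.connectedComponentMk ⟨w, by simpa using hw⟩ := by
      intro v w hv hw h
      apply ConnectedComponent.connectedComponentMk_eq_of_adj
      have : ((⊤ : (GG A hs r).Subgraph).deleteVerts u).Adj v w :=
        Subgraph.deleteVerts_adj.mpr ⟨trivial, hv, trivial, hw, h⟩
      exact Subgraph.Adj.coe this
    suffices hC : Nat.card H.ConnectedComponent ≤ u.ncard + 1 by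
      rw [Nat.odd_iff, Nat.odd_iff] at hpar
      omega
    by_cases he : ∃ e, Sum.inr e ∉ u
    · obtain ⟨e, he⟩ := he
      have : Subsingleton H.ConnectedComponent := by
        have key : ∀ c : H.ConnectedComponent,
            c = H.connectedComponentMk ⟨Sum.inr e, by simpa using he⟩ := by
          intro c
          induction c using ConnectedComponent.ind with
          | _ v =>
            obtain ⟨v, hv⟩ := v
            by_cases h : v = Sum.inr e
            · subst h; rfl
            · exact hadj v _ (by simpa using hv) he ⟨h, fun i j _ h => by cases h⟩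
        exact ⟨fun c c' => (key c).trans (key c').symm⟩
      have := Finite.card_le_one_iff_subsingleton.2 this
      omega
    · push Not at he
      set S : Finset ι := univ.filter fun i => Sum.inl i ∈ u with hS
      have hu : u.ncard = S.card + r := by
        have e : u = ↑(S.disjSum (univ : Finset (Fin r))) := by
          ext v
          rcases v with i | e
          · simp [hS]
          · simp [he e]
        rw [e, Set.ncard_coe_finset, Finset.card_disjSum]
        simp
      let lab : ι → Option H.ConnectedComponent := fun i =>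
        if h : Sum.inl i ∈ u then none else some (H.connectedComponentMk ⟨Sum.inl i, by simpa using h⟩)
      have hlab : ∀ i j, i ∉ S → j ∉ S → A i j → lab i = lab j := by
        intro i j hi hj h
        have hi' : Sum.inl i ∉ u := by simpa [hS] using hi
        have hj' : Sum.inl j ∉ u := by simpa [hS] using hj
        simp only [lab, dif_neg hi', dif_neg hj']
        congr 1
        refine hadj _ _ hi' hj' ⟨fun e => hirr i j h (Sum.inl.inj e), fun i' j' e1 e2 => ?_⟩
        cases e1; cases e2; exact h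
      have hrep : ∀ c : H.ConnectedComponent, ∃ i, i ∉ S ∧ lab i = some c := by
        intro c
        induction c using ConnectedComponent.ind with
        | _ v =>
          obtain ⟨v, hv⟩ := v
          have hv' : v ∉ u := by simpa using hv
          rcases v with i | e
          · exact ⟨i, by simpa [hS] using hv', by simp only [lab, dif_neg hv']⟩
          · exact absurd (he e) hv'
      choose ρ hρ1 hρ2 using hrep
      have hρinj : Function.Injective ρ := fun c c' e => by
        have := hρ2 c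
        rw [e, hρ2 c'] at this
        exact (Option.some.inj this).symm
      haveI := Fintype.ofFinite H.ConnectedComponent
      have hR : (univ.image ρ).card = Nat.card H.ConnectedComponent := by
        rw [Finset.card_image_of_injective _ hρinj]; simp
      have hRS : ∀ x ∈ univ.image ρ, x ∉ S := by
        intro x hx
        obtain ⟨c, -, rfl⟩ := mem_image.1 hx
        exact hρ1 c
      have hinj : Set.InjOn lab (univ.image ρ : Finset ι) := by
        intro x hx y hy e
        obtain ⟨c, -, rfl⟩ := mem_image.1 (mem_coe.1 hx)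
        obtain ⟨c', -, rfl⟩ := mem_image.1 (mem_coe.1 hy)
        rw [hρ2, hρ2] at e
        rw [Option.some.inj e]
      rw [← hR]
      rcases S.eq_empty_or_nonempty with hE | hE
      · have : (univ.image ρ).card ≤ 1 := by
          rw [Finset.card_le_one]
          intro x hx y hy
          exact hinj hx hy (h0 _ lab (fun i j h => hlab i j (by simp [hE]) (by simp [hE]) h) x y)
        omega
      · have a1 := h1 _ lab S hlab hE _ hRS hinj
        have a2 : (univ.image ρ).card + S.card ≤ Fintype.card ι := by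
          rw [← Finset.card_union_of_disjoint (Finset.disjoint_left.2 hRS)]
          exact Finset.card_le_univ _
        omega
  obtain ⟨M, hM⟩ := hM
  rw [Subgraph.isPerfectMatching_iff] at hM
  choose σ hσ1 hσ2 using fun v => (hM v : ∃ w, M.Adj v w ∧ ∀ y, M.Adj v y → y = w)
  refine ⟨σ, fun v => (hσ2 _ _ (hσ1 v).symm).symm, fun v => (M.adj_sub (hσ1 v)).1.symm, ?_⟩
  intro i j h
  exact (M.adj_sub (hσ1 _)).2 i j rfl h

lemma points {E : Type*} [AddCommGroup E] [Module ℝ E] [FiniteDimensional ℝ E] {ι : Type u}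
    [Fintype ι] (h3 : finrank ℝ E = 3) (a : ι → E →ₗ[ℝ] ℝ)
    (hb : ∀ y, (∀ i, a i y ≤ 0) → y = 0)
    (hp : ∀ i, ∃ p, a i p = 1 ∧ ∀ j, j ≠ i → a j p < 1) :
    ∃ K : Finset E, 3 * K.card ≤ 2 * Fintype.card ι ∧
      (∀ x ∈ K, (∀ j, a j x ≤ 1) ∧ ∃ i, a i x = 1) ∧ ∀ i, ∃ x ∈ K, a i x = 1 := by
  classical
  rcases isEmpty_or_nonempty ι with hι | ⟨⟨i0⟩⟩
  · exact ⟨∅, by simp, by simp, fun i => hι.elim i⟩
  have hn : Fintype.card ι ≠ 1 := by
    intro h
    obtain ⟨y, hy0, hy, -⟩ := ker2 h3 (a i0) (a i0)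
    haveI := Fintype.card_le_one_iff_subsingleton.1 h.le
    exact hy0 (hb y fun i => by rw [Subsingleton.elim i i0, hy])
  obtain ⟨r, hr, σ, h1, h2, h4⟩ := matching (Adj a)
    (fun i j ⟨h, y, b1, b2, b3⟩ => ⟨h.symm, y, b1, b3, b2⟩) (fun i j h => h.1) hn
    (fun β lab h => count0 h3 a hb hp lab h)
    (fun β lab S h hS R hR hi => count h3 a hb hp lab S h hS R hR hi)
  have hp' : ∀ i, ∃ p, (∀ j, a j p ≤ 1) ∧ a i p = 1 := by
    intro i
    obtain ⟨p, b1, b2⟩ := hp i
    refine ⟨p, fun j => ?_, b1⟩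
    by_cases e : j = i
    · rw [e, b1]
    · exact (b2 j e).le
  have hg : ∀ e : Finset (ι ⊕ Fin r), ∃ x : E, (∃ v, e = {v, σ v}) →
      ((∀ j, a j x ≤ 1) ∧ ∃ i, a i x = 1) ∧ ∀ i, Sum.inl i ∈ e → a i x = 1 := by
    intro e
    by_cases h : ∃ v, e = {v, σ v}
    · obtain ⟨v, rfl⟩ := h
      have one : ∀ (i : ι) (k : Fin r), ∃ x : E, ((∀ j, a j x ≤ 1) ∧ ∃ i, a i x = 1) ∧
          ∀ i', Sum.inl i' ∈ ({Sum.inl i, Sum.inr k} : Finset (ι ⊕ Fin r)) → a i' x = 1 := by
        intro i k
        obtain ⟨p, b1, b2⟩ := hp' i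
        refine ⟨p, ⟨b1, i, b2⟩, fun i' hi' => ?_⟩
        simp only [mem_insert, Sum.inl.injEq, mem_singleton, reduceCtorEq, or_false] at hi'
        rw [hi', b2]
      rcases hv : v with i | k <;> rcases hw : σ v with j | l
      · obtain ⟨-, y, b1, b2, b3⟩ := h4 i j (hv ▸ hw)
        refine ⟨y, fun _ => ⟨⟨b1, i, b2⟩, fun i' hi' => ?_⟩⟩
        rw [← hv, hw, hv] at hi'
        simp only [mem_insert, Sum.inl.injEq, mem_singleton] at hi'
        rcases hi' with e | e <;> rw [e] <;> assumption
      · obtain ⟨x, hx⟩ := one i l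
        rw [← hv, hw, hv]
        exact ⟨x, fun _ => hx⟩
      · obtain ⟨x, hx⟩ := one j k
        rw [← hv, hw, hv, Finset.pair_comm]
        exact ⟨x, fun _ => hx⟩
      · obtain ⟨p, b1, b2⟩ := hp' i0
        rw [← hv, hw, hv]
        exact ⟨p, fun _ => ⟨⟨b1, i0, b2⟩, fun i' hi' => by simp at hi'⟩⟩
    · exact ⟨0, fun h' => absurd h' h⟩
  choose g hg using hg
  refine ⟨(univ.image fun v => ({v, σ v} : Finset (ι ⊕ Fin r))).image g, ?_, ?_, ?_⟩
  · have a1 := Finset.card_image_le (s := univ.image fun v => ({v, σ v} : Finset (ι ⊕ Fin r)))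
      (f := g)
    have a2 := Finset.mul_card_image_le_card (f := fun v => ({v, σ v} : Finset (ι ⊕ Fin r)))
      univ 2 (by
        intro e he
        obtain ⟨v, -, rfl⟩ := mem_image.1 he
        have : ({v, σ v} : Finset (ι ⊕ Fin r)).card = 2 := Finset.card_pair (h2 v).symm
        rw [← this]
        apply Finset.card_le_card
        intro w hw
        simp only [mem_insert, mem_singleton] at hw
        simp only [mem_filter, mem_univ, true_and]
        rcases hw with rfl | rfl
        · rfl
        · rw [h1, Finset.pair_comm])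
    simp only [card_univ, Fintype.card_sum, Fintype.card_fin] at a2
    omega
  · intro x hx
    obtain ⟨e, he, rfl⟩ := mem_image.1 hx
    obtain ⟨v, -, rfl⟩ := mem_image.1 he
    exact (hg _ ⟨v, rfl⟩).1
  · intro i
    exact ⟨g {Sum.inl i, σ (Sum.inl i)}, mem_image_of_mem _ (mem_image_of_mem _ (mem_univ _)),
      (hg _ ⟨_, rfl⟩).2 i (by simp)⟩

lemma upper3 {E : Type*} [NormedAddCommGroup E] [NormedSpace ℝ E] [FiniteDimensional ℝ E]
    (h3 : finrank ℝ E = 3) (P : Set E) (hP : IsPolytope P) (hi : (interior P).Nonempty) :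
    3 * cover P ≤ 2 * (facets P).ncard := by
  classical
  obtain ⟨c, hc⟩ := hi
  obtain ⟨B, rfl, hp, hb⟩ := normal P hP c hc
  rw [ncard_eq c _ hp]
  obtain ⟨K, h1, h2, h4⟩ := points h3 (fun b : B => (b.1 : E →ₗ[ℝ] ℝ)) hb hp
  have := cover_le (Pc c fun b : B => b.1) (K.image (· + c)) (by
    intro x hx
    simp only [coe_image, Set.mem_image, mem_coe] at hx
    obtain ⟨y, hy, rfl⟩ := hx
    obtain ⟨b1, i, b2⟩ := h2 y hy
    exact Fc_frontier c _ i ⟨fun j => by simpa using b1 j, by simpa using b2⟩) (by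
    intro F hF
    obtain ⟨i, rfl⟩ := facet_sub c _ F hF
    obtain ⟨y, hy, b2⟩ := h4 i
    exact ⟨y + c, mem_image_of_mem _ hy, fun j => by simpa using (h2 y hy).1 j, by simpa using b2⟩)
  have a1 := Finset.card_image_le (s := K) (f := (· + c))
  omega

lemma upper1 {E : Type*} [NormedAddCommGroup E] [NormedSpace ℝ E] [FiniteDimensional ℝ E]
    (P : Set E) (hP : IsPolytope P) (hi : (interior P).Nonempty) :
    cover P ≤ (facets P).ncard := by
  obtain ⟨c, hc⟩ := hi
  obtain ⟨B, rfl, -, -⟩ := normal P hP c hc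
  exact cover_le_ncard c _

end Pool.Agent.H8.Fac
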