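import Pool.Agent.H8.Fac3

namespace Pool.Agent.H8.Fac

open Module Finset Filter Topology

lemma trunc {d : ℕ} {ι W : Type} [Fintype ι] [Fintype W] [Nonempty W]
    (f : ι → EuclideanSpace ℝ (Fin d) →L[ℝ] ℝ) (g : W → EuclideanSpace ℝ (Fin d) →L[ℝ] ℝ)
    (pt : W → EuclideanSpace ℝ (Fin d)) (hbd : Bornology.IsBounded {x | ∀ i, f i x ≤ 1})
    (hf : ∀ i, ∃ i', ∀ x, f i' x = - f i x) (hg : ∀ w, ∃ w', ∀ x, g w' x = - g w x)
    (h1 : ∀ w, g w (pt w) = 1) (h2 : ∀ w i, f i (pt w) ≤ 1)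
    (h3 : ∀ x, (∀ i, f i x ≤ 1) → ∀ w w', w ≠ w' → g w x + g w' x < 2) :
    ∃ r ∈ ratios d, (Fintype.card W : ℝ) / (Fintype.card ι + Fintype.card W) ≤ r := by
  classical
  have hcl : IsClosed {x | ∀ i, f i x ≤ 1} := by
    rw [Set.setOf_forall]
    exact isClosed_iInter fun i => isClosed_le (f i).continuous continuous_const
  have hcpt := Metric.isCompact_of_isClosed_isBounded hcl hbd
  have hev : ∀ᶠ δ : ℝ in 𝓝 1, ∀ ww : W × W, ww.1 ≠ ww.2 →
      ∀ x, (∀ i, f i x ≤ 1) → g ww.1 x + g ww.2 x < 2 * δ := by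
    rw [Filter.eventually_all]
    rintro ⟨w, w'⟩
    by_cases hne : w = w'
    · exact Eventually.of_forall fun _ h => absurd hne h
    · obtain ⟨x0, hx0, hmax⟩ := hcpt.exists_isMaxOn (f := fun x => g w x + g w' x)
        ⟨0, fun i => by simp⟩ (by fun_prop)
      have : ∀ᶠ δ : ℝ in 𝓝 1, g w x0 + g w' x0 < 2 * δ :=
        continuousAt_const.eventually_lt (by fun_prop) (by simpa using h3 x0 hx0 w w' hne)
      exact this.mono fun δ h _ x hx => lt_of_le_of_lt (hmax hx) h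
  obtain ⟨δ, hδ, hδ0, hδ1⟩ : ∃ δ : ℝ, (∀ ww : W × W, ww.1 ≠ ww.2 →
      ∀ x, (∀ i, f i x ≤ 1) → g ww.1 x + g ww.2 x < 2 * δ) ∧ 0 < δ ∧ δ < 1 := by
    have h := (hev.and (lt_mem_nhds (show (0:ℝ) < 1 by norm_num))).filter_mono
      (nhdsWithin_le_nhds (s := Set.Iio (1:ℝ)))
    obtain ⟨δ, ⟨a, b⟩, c⟩ := (h.and self_mem_nhdsWithin).exists
    exact ⟨δ, a, b, c⟩
  set a : ι ⊕ W → EuclideanSpace ℝ (Fin d) →L[ℝ] ℝ := Sum.elim f fun w => δ⁻¹ • g w with ha
  have hfac : ∀ w, Fc 0 a (Sum.inr w) ∈ facets (Pc 0 a) := by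
    intro w
    have hq : ∀ i, f i (δ • pt w) < 1 := by
      intro i
      have := h2 w i
      simp only [map_smul, smul_eq_mul]
      nlinarith
    apply facet_of 0 a (Sum.inr w) (δ • pt w)
    · simp [ha, h1, hδ0.ne']
    · rintro (i | w')
      · left; exact hq i
      · by_cases e : w' = w
        · right; rw [e]
        · left
          have := hδ (w', w) e (δ • pt w) fun i => (hq i).le
          simp only [ha, Sum.elim_inr, ContinuousLinearMap.smul_apply, smul_eq_mul]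
          rw [inv_mul_lt_iff₀ hδ0]
          simp only [map_smul, smul_eq_mul, h1] at this ⊢
          linarith
  have hcov := le_cover 0 a (fun w => Fc 0 a (Sum.inr w)) hfac (by
    intro w w' x hx hx'
    by_contra hne
    have := hδ (w, w') hne x fun i => by simpa [ha] using hx.1 (Sum.inl i)
    have e1 := hx.2
    have e2 := hx'.2
    simp only [ha, Sum.elim_inr, ContinuousLinearMap.smul_apply, smul_eq_mul, sub_zero] at e1 e2
    rw [inv_mul_eq_one₀ hδ0.ne'] at e1 e2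
    simp only at this
    linarith)
  have hnc := ncard_le 0 a
  have hpos : 0 < (facets (Pc 0 a)).ncard :=
    (Set.ncard_pos (facets_finite 0 a)).2 ⟨_, hfac (Classical.arbitrary W)⟩
  refine ⟨_, ⟨Pc 0 a, ⟨hbd.subset fun x hx i => by simpa [ha] using hx (Sum.inl i),
    univ.image fun k => (a k, (1:ℝ)), ?_⟩, ⟨0, ?_⟩, ⟨0, ?_⟩, rfl⟩, ?_⟩
  · ext x
    simp only [Pc, sub_zero, Set.mem_setOf_eq, mem_image, mem_univ, true_and]
    exact ⟨fun h _ ⟨k, hk⟩ => hk ▸ h k, fun h k => h _ ⟨k, rfl⟩⟩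
  · intro x hx k
    rcases k with i | w
    · obtain ⟨i', hi'⟩ := hf i
      have := hx (Sum.inl i')
      simp only [ha, Sum.elim_inl, sub_zero, add_zero, zero_sub, map_neg] at this ⊢
      rwa [hi'] at this
    · obtain ⟨w', hw'⟩ := hg w
      have := hx (Sum.inr w')
      simp only [ha, Sum.elim_inr, sub_zero, add_zero, zero_sub, map_neg,
        ContinuousLinearMap.smul_apply, smul_eq_mul] at this ⊢
      rw [hw'] at this
      linarith
  · rw [mem_interior_iff_mem_nhds]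
    have : ∀ᶠ x in 𝓝 (0 : EuclideanSpace ℝ (Fin d)), ∀ k, a k (x - 0) ≤ 1 := by
      rw [Filter.eventually_all]
      intro k
      have : ∀ᶠ x in 𝓝 (0 : EuclideanSpace ℝ (Fin d)), a k (x - 0) < 1 :=
        ContinuousAt.eventually_lt (by fun_prop) continuousAt_const (by simp)
      exact this.mono fun x h => h.le
    exact this
  · have b1 : (Fintype.card W : ℝ) ≤ cover (Pc 0 a) := by exact_mod_cast hcov
    have b2 : ((facets (Pc 0 a)).ncard : ℝ) ≤ Fintype.card ι + Fintype.card W := by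
      simp only [Fintype.card_sum] at hnc
      exact_mod_cast hnc
    have b3 : (0:ℝ) < (facets (Pc 0 a)).ncard := by exact_mod_cast hpos
    gcongr

def sg (b : Bool) : ℝ := if b then 1 else -1

lemma sg_not (b : Bool) : sg (!b) = - sg b := by cases b <;> simp [sg]

lemma sg_sq (b : Bool) : sg b * sg b = 1 := by cases b <;> simp [sg]

noncomputable def cc (k : ℕ) : ℝ := (k:ℝ)^2 + k + 1

noncomputable def ee (k j : ℕ) (b : Bool) (x y : ℝ) : ℝ :=
  sg b * (y + 2 * j * x) / (cc k + (j:ℝ)^2)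

noncomputable def GU (k j : ℕ) (b : Bool) (x y : ℝ) : ℝ := (ee k j b x y + ee k (j+1) b x y) / 2

noncomputable def vx (j : ℕ) (b : Bool) : ℝ := sg b * (j + 1/2)

noncomputable def vy (k j : ℕ) (b : Bool) : ℝ := sg b * (cc k - j * (j + 1))

lemma cc_pos (k : ℕ) : 0 < cc k := by unfold cc; positivity

lemma ee_v (k j i : ℕ) (hj : j < k) (b b' : Bool) : ee k i b' (vx j b) (vy k j b) ≤ 1 := by
  have hc := cc_pos k
  unfold ee
  rw [div_le_one (by positivity)]
  have hj' : (j:ℝ) + 1 ≤ k := by exact_mod_cast hj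
  have h0 : (0:ℝ) ≤ j := by positivity
  have hi0 : (0:ℝ) ≤ i := by positivity
  have h1 : 0 ≤ cc k - j * (j + 1) := by unfold cc; nlinarith
  have h2 : (0:ℝ) ≤ ((i:ℝ) - j) * ((i:ℝ) - j - 1) := by
    have : (0:ℤ) ≤ ((i:ℤ) - j) * ((i:ℤ) - j - 1) := by
      rcases le_or_gt ((i:ℤ) - j) 0 with h | h
      · exact mul_nonneg_of_nonpos_of_nonpos h (by omega)
      · exact mul_nonneg (by omega) (by omega)
    exact_mod_cast this
  have h4 : (0:ℝ) ≤ i * (j + 1/2) := by positivity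
  cases b <;> cases b' <;> simp only [vx, vy, sg, if_true, if_false, Bool.false_eq_true] <;>
    nlinarith [sq_nonneg (i:ℝ)]

lemma GU_v (k j : ℕ) (b : Bool) : GU k j b (vx j b) (vy k j b) = 1 := by
  have hc := cc_pos k
  have := sg_sq b
  have e1 : ee k j b (vx j b) (vy k j b) = 1 := by
    unfold ee
    rw [div_eq_one_iff_eq (by positivity)]
    simp only [vx, vy]
    linear_combination (cc k + (j:ℝ)^2) * this
  have e2 : ee k (j+1) b (vx j b) (vy k j b) = 1 := by
    unfold ee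
    rw [div_eq_one_iff_eq (by positivity)]
    simp only [vx, vy]
    push_cast
    linear_combination (cc k + ((j:ℝ)+1)^2) * this
  simp [GU, e1, e2]

lemma v_bd (k j : ℕ) (hj : j < k) (b b' : Bool) :
    sg b' * vx j b / cc k ≤ 1 ∧ sg b' * vy k j b / cc k ≤ 1 := by
  have hc := cc_pos k
  have hj' : (j:ℝ) + 1 ≤ k := by exact_mod_cast hj
  have h0 : (0:ℝ) ≤ j := by positivity
  have h1 : 0 ≤ cc k - j * (j + 1) := by unfold cc; nlinarith
  have h2 : (j:ℝ) + 1/2 ≤ cc k := by unfold cc; nlinarith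
  have h3 : (0:ℝ) ≤ j * (j + 1) := by positivity
  rw [div_le_one hc, div_le_one hc]
  cases b <;> cases b' <;> simp only [vx, vy, sg, if_true, if_false, Bool.false_eq_true] <;>
    constructor <;> linarith

lemma GU_le (k j : ℕ) (hj : j < k) (b : Bool) (x y : ℝ)
    (h : ∀ i : Fin (k+1), ∀ b, ee k i b x y ≤ 1) : GU k j b x y ≤ 1 := by
  have a1 := h ⟨j, by omega⟩ b
  have a2 := h ⟨j+1, by omega⟩ b
  unfold GU
  simp only at a1 a2
  linarith

lemma GU_eq (k j : ℕ) (hj : j < k) (b : Bool) (x y : ℝ)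
    (h : ∀ i : Fin (k+1), ∀ b, ee k i b x y ≤ 1) (e : GU k j b x y = 1) : x = vx j b := by
  have hc := cc_pos k
  have a1 := h ⟨j, by omega⟩ b
  have a2 := h ⟨j+1, by omega⟩ b
  unfold GU at e
  simp only at a1 a2
  have e1 : ee k j b x y = 1 := by linarith
  have e2 : ee k (j+1) b x y = 1 := by linarith
  unfold ee at e1 e2
  rw [div_eq_one_iff_eq (by positivity)] at e1 e2
  push_cast at e2
  have := sg_sq b
  unfold vx
  linear_combination (sg b / 2) * (e2 - e1) - x * this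

lemma GU_lt (k : ℕ) (u u' : Fin k × Bool) (hne : u ≠ u') (x y : ℝ)
    (h : ∀ i : Fin (k+1), ∀ b, ee k i b x y ≤ 1) : GU k u.1 u.2 x y + GU k u'.1 u'.2 x y < 2 := by
  have a1 := GU_le k u.1 u.1.2 u.2 x y h
  have a2 := GU_le k u'.1 u'.1.2 u'.2 x y h
  by_contra hc
  have e1 := GU_eq k u.1 u.1.2 u.2 x y h (by linarith)
  have e2 := GU_eq k u'.1 u'.1.2 u'.2 x y h (by linarith)
  rw [e1] at e2
  obtain ⟨j, b⟩ := u
  obtain ⟨j', b'⟩ := u'
  apply hne
  have h0 : (0:ℝ) ≤ (j:ℕ) := by positivity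
  have h0' : (0:ℝ) ≤ (j':ℕ) := by positivity
  cases b <;> cases b' <;> simp only [vx, sg, if_true, if_false, Bool.false_eq_true] at e2
  · have : ((j:ℕ):ℝ) = (j':ℕ) := by linarith
    rw [Fin.ext (Nat.cast_injective this)]
  · linarith
  · linarith
  · have : ((j:ℕ):ℝ) = (j':ℕ) := by linarith
    rw [Fin.ext (Nat.cast_injective this)]

lemma ee_not (k j : ℕ) (b : Bool) (x y : ℝ) : ee k j (!b) x y = - ee k j b x y := by
  simp only [ee, sg_not]; ring

lemma GU_not (k j : ℕ) (b : Bool) (x y : ℝ) : GU k j (!b) x y = - GU k j b x y := by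
  simp only [GU, ee_not]; ring

variable {d : ℕ}

noncomputable def eL (k j : ℕ) (b : Bool) (p q : Fin d) : EuclideanSpace ℝ (Fin d) →L[ℝ] ℝ :=
  (sg b / (cc k + (j:ℝ)^2)) • (EuclideanSpace.proj q + (2 * j : ℝ) • EuclideanSpace.proj p)

lemma eL_apply (k j : ℕ) (b : Bool) (p q : Fin d) (z : EuclideanSpace ℝ (Fin d)) :
    eL k j b p q z = ee k j b (z p) (z q) := by
  simp [eL, ee]; ring

noncomputable def gL (k j : ℕ) (b : Bool) (p q : Fin d) : EuclideanSpace ℝ (Fin d) →L[ℝ] ℝ :=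
  (1/2 : ℝ) • (eL k j b p q + eL k (j+1) b p q)

lemma gL_apply (k j : ℕ) (b : Bool) (p q : Fin d) (z : EuclideanSpace ℝ (Fin d)) :
    gL k j b p q z = GU k j b (z p) (z q) := by
  simp only [gL, GU, ContinuousLinearMap.smul_apply, ContinuousLinearMap.add_apply, eL_apply,
    smul_eq_mul]; ring

noncomputable def cL (k : ℕ) (b : Bool) (p : Fin d) : EuclideanSpace ℝ (Fin d) →L[ℝ] ℝ :=
  (sg b / cc k) • EuclideanSpace.proj p

lemma cL_apply (k : ℕ) (b : Bool) (p : Fin d) (z : EuclideanSpace ℝ (Fin d)) :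
    cL k b p z = sg b * z p / cc k := by
  simp [cL]; ring

lemma bdd (k : ℕ) (s : Set (EuclideanSpace ℝ (Fin d)))
    (h : ∀ z ∈ s, ∀ p b, sg b * z p / cc k ≤ 1) : Bornology.IsBounded s := by
  have hc := cc_pos k
  rw [isBounded_iff_forall_norm_le]
  refine ⟨Real.sqrt (∑ _p : Fin d, cc k ^ 2), fun z hz => ?_⟩
  rw [EuclideanSpace.norm_eq]
  apply Real.sqrt_le_sqrt
  apply Finset.sum_le_sum
  intro p _
  have a1 := h z hz p true
  have a2 := h z hz p false
  rw [div_le_one hc] at a1 a2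
  simp only [sg, if_true, if_false, Bool.false_eq_true] at a1 a2
  rw [Real.norm_eq_abs, sq_abs]
  nlinarith

lemma ex3 (k : ℕ) (hk : 0 < k) : ∃ r ∈ ratios 3, (4 * k : ℝ) / (6 * k + 8) ≤ r := by
  haveI : Nonempty (Fin k) := ⟨⟨0, hk⟩⟩
  have hc := cc_pos k
  obtain ⟨r, hr, h⟩ := trunc (d := 3) (ι := (Fin (k+1) × Bool) ⊕ (Fin 3 × Bool))
    (W := (Fin k × Bool) × Bool)
    (Sum.elim (fun i => eL k i.1 i.2 0 1) (fun i => cL k i.2 i.1))
    (fun w => (1/2 : ℝ) • (gL k w.1.1 w.1.2 0 1 + cL k w.2 2))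
    (fun w => !₂[vx w.1.1 w.1.2, vy k w.1.1 w.1.2, sg w.2 * cc k])
    (bdd k _ fun z hz p b => by simpa [cL_apply] using hz (Sum.inr (p, b)))
    (by
      rintro (⟨i, b⟩ | ⟨i, b⟩)
      · exact ⟨Sum.inl (i, !b), fun x => by simp [eL_apply, ee_not]⟩
      · exact ⟨Sum.inr (i, !b), fun x => by simp [cL_apply, sg_not]; ring⟩)
    (by
      rintro ⟨⟨j, b⟩, b'⟩
      exact ⟨((j, !b), !b'), fun x => by simp [gL_apply, cL_apply, GU_not, sg_not]; ring⟩)
    (by
      rintro ⟨⟨j, b⟩, b'⟩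
      have := sg_sq b'
      have e : sg b' * (sg b' * cc k) / cc k = 1 := by
        rw [← mul_assoc, this]; field_simp
      simp [gL_apply, cL_apply, GU_v, e]
      norm_num)
    (by
      rintro ⟨⟨j, b⟩, b'⟩ (⟨i, b''⟩ | ⟨i, b''⟩)
      · simpa [eL_apply] using ee_v k j i j.2 b b''
      · fin_cases i
        · simpa [cL_apply] using (v_bd k j j.2 b b'').1
        · simpa [cL_apply] using (v_bd k j j.2 b b'').2
        · simp only [Sum.elim_inr, cL_apply]
          rw [div_le_one hc]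
          cases b' <;> cases b'' <;> simp [sg, hc.le])
    (by
      rintro x hx ⟨u, b⟩ ⟨u', b'⟩ hne
      have h1 : ∀ i : Fin (k+1), ∀ b, ee k i b (x 0) (x 1) ≤ 1 := fun i b => by
        simpa [eL_apply] using hx (Sum.inl (i, b))
      have h2 : ∀ b, sg b * x 2 / cc k ≤ 1 := fun b => by
        simpa [cL_apply] using hx (Sum.inr (2, b))
      simp only [ContinuousLinearMap.smul_apply, ContinuousLinearMap.add_apply, gL_apply, cL_apply,
        smul_eq_mul]
      by_cases e : u = u'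
      · subst e
        have hb : b' = !b := by
          cases b <;> cases b' <;> simp at hne ⊢
        have := GU_le k u.1 u.1.2 u.2 _ _ h1
        rw [hb, sg_not, neg_mul, neg_div]
        linarith
      · have := GU_lt k u u' e _ _ h1
        linarith [h2 b, h2 b'])
  refine ⟨r, hr, le_trans (le_of_eq ?_) h⟩
  simp only [Fintype.card_prod, Fintype.card_fin, Fintype.card_bool, Fintype.card_sum]
  push_cast
  congr 1 <;> ring

lemma ex4 (n k : ℕ) (hk : 0 < k) :
    ∃ r ∈ ratios (n + 4), (4 * k^2 : ℝ) / (4 * k^2 + 4 * k + 2 * n + 12) ≤ r := by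
  haveI : Nonempty (Fin k) := ⟨⟨0, hk⟩⟩
  have hc := cc_pos k
  let p0 : Fin (n+4) := ⟨0, by omega⟩
  let p1 : Fin (n+4) := ⟨1, by omega⟩
  let p2 : Fin (n+4) := ⟨2, by omega⟩
  let p3 : Fin (n+4) := ⟨3, by omega⟩
  obtain ⟨r, hr, h⟩ := trunc (d := n + 4)
    (ι := ((Fin (k+1) × Bool) ⊕ (Fin (k+1) × Bool)) ⊕ (Fin (n+4) × Bool))
    (W := (Fin k × Bool) × (Fin k × Bool))
    (Sum.elim (Sum.elim (fun i => eL k i.1 i.2 p0 p1) (fun i => eL k i.1 i.2 p2 p3))
      (fun i => cL k i.2 i.1))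
    (fun w => (1/2 : ℝ) • (gL k w.1.1 w.1.2 p0 p1 + gL k w.2.1 w.2.2 p2 p3))
    (fun w => WithLp.toLp 2 fun i => if i.1 = 0 then vx w.1.1 w.1.2 else
      if i.1 = 1 then vy k w.1.1 w.1.2 else if i.1 = 2 then vx w.2.1 w.2.2 else
      if i.1 = 3 then vy k w.2.1 w.2.2 else 0)
    (bdd k _ fun z hz p b => by simpa [cL_apply] using hz (Sum.inr (p, b)))
    (by
      rintro ((⟨i, b⟩ | ⟨i, b⟩) | ⟨i, b⟩)
      · exact ⟨Sum.inl (Sum.inl (i, !b)), fun x => by simp [eL_apply, ee_not]⟩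
      · exact ⟨Sum.inl (Sum.inr (i, !b)), fun x => by simp [eL_apply, ee_not]⟩
      · exact ⟨Sum.inr (i, !b), fun x => by simp [cL_apply, sg_not]; ring⟩)
    (by
      rintro ⟨⟨j, b⟩, ⟨j', b'⟩⟩
      exact ⟨((j, !b), (j', !b')), fun x => by simp [gL_apply, GU_not]; ring⟩)
    (by
      rintro ⟨⟨j, b⟩, ⟨j', b'⟩⟩
      simp [gL_apply, GU_v, p0, p1, p2, p3]
      norm_num)
    (by
      rintro ⟨⟨j, b⟩, ⟨j', b'⟩⟩ ((⟨i, b''⟩ | ⟨i, b''⟩) | ⟨i, b''⟩)
      · simpa [eL_apply, p0, p1] using ee_v k j i j.2 b b''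
      · simpa [eL_apply, p2, p3] using ee_v k j' i j'.2 b' b''
      · simp only [Sum.elim_inr, cL_apply]
        split_ifs
        · exact (v_bd k j j.2 b b'').1
        · exact (v_bd k j j.2 b b'').2
        · exact (v_bd k j' j'.2 b' b'').1
        · exact (v_bd k j' j'.2 b' b'').2
        · simp)
    (by
      rintro x hx ⟨u, v⟩ ⟨u', v'⟩ hne
      have h1 : ∀ i : Fin (k+1), ∀ b, ee k i b (x p0) (x p1) ≤ 1 := fun i b => by
        simpa [eL_apply] using hx (Sum.inl (Sum.inl (i, b)))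
      have h2 : ∀ i : Fin (k+1), ∀ b, ee k i b (x p2) (x p3) ≤ 1 := fun i b => by
        simpa [eL_apply] using hx (Sum.inl (Sum.inr (i, b)))
      simp only [ContinuousLinearMap.smul_apply, ContinuousLinearMap.add_apply, gL_apply,
        smul_eq_mul]
      by_cases e : u = u'
      · subst e
        have := GU_lt k v v' (fun e => hne (by rw [e])) _ _ h2
        have := GU_le k u.1 u.1.2 u.2 _ _ h1
        linarith
      · have := GU_lt k u u' e _ _ h1
        linarith [GU_le k v.1 v.1.2 v.2 _ _ h2, GU_le k v'.1 v'.1.2 v'.2 _ _ h2])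
  refine ⟨r, hr, le_trans (le_of_eq ?_) h⟩
  simp only [Fintype.card_prod, Fintype.card_fin, Fintype.card_bool, Fintype.card_sum]
  push_cast
  congr 1 <;> ring

theorem main3 : IsLUB (ratios 3) (2 / 3) := by
  constructor
  · rintro r ⟨P, h1, -, h3, rfl⟩
    have := upper3 (by simp) P h1 h3
    have h : (3:ℝ) * cover P ≤ 2 * (facets P).ncard := by exact_mod_cast this
    rcases Nat.eq_zero_or_pos (facets P).ncard with e | e
    · rw [e]; norm_num
    · rw [div_le_div_iff₀ (by exact_mod_cast e) (by norm_num)]; linarith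
  · intro u hu
    by_contra hc
    push Not at hc
    obtain ⟨k, hk⟩ := exists_nat_gt (8 * |u| / (4 - 6 * u))
    have hd : 0 < 4 - 6 * u := by linarith
    have hk0 : (0:ℝ) < k := lt_of_le_of_lt (by positivity) hk
    obtain ⟨r, hr, h⟩ := ex3 k (by exact_mod_cast hk0)
    have := h.trans (hu hr)
    rw [div_le_iff₀ (by positivity)] at this
    rw [div_lt_iff₀ hd] at hk
    nlinarith [le_abs_self u]

theorem main4 (d : ℕ) (hd : 4 ≤ d) : IsLUB (ratios d) 1 := by
  constructor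
  · rintro r ⟨P, h1, -, h3, rfl⟩
    apply div_le_one_of_le₀ _ (by positivity)
    exact_mod_cast upper1 P h1 h3
  · obtain ⟨n, rfl⟩ : ∃ n, d = n + 4 := ⟨d - 4, by omega⟩
    intro u hu
    by_contra hc
    push Not at hc
    have hd : 0 < 1 - u := by linarith
    obtain ⟨k, hk⟩ := exists_nat_gt (|u| * (2 * n + 16) / (1 - u))
    have hk0 : (0:ℝ) < k := lt_of_le_of_lt (by positivity) hk
    have hk1 : (1:ℝ) ≤ k := by
      have : 0 < k := by exact_mod_cast hk0
      exact_mod_cast this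
    obtain ⟨r, hr, h⟩ := ex4 n k (by exact_mod_cast hk0)
    have := h.trans (hu hr)
    rw [div_le_iff₀ (by positivity)] at this
    rw [div_lt_iff₀ hd] at hk
    have hn : (0:ℝ) ≤ n := by positivity
    have a1 : u * (4 * k + 2 * n + 12) ≤ |u| * (2 * n + 16) * k := by
      have b1 : u * (4 * k + 2 * n + 12) ≤ |u| * (4 * k + 2 * n + 12) :=
        mul_le_mul_of_nonneg_right (le_abs_self u) (by positivity)
      have b2 : (4 * k + 2 * n + 12 : ℝ) ≤ (2 * n + 16) * k := by nlinarith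
      nlinarith [abs_nonneg u]
    have a2 : |u| * (2 * n + 16) * k < k * (1 - u) * k := mul_lt_mul_of_pos_right hk hk0
    nlinarith [mul_pos (mul_pos hk0 hk0) hd]

end Pool.Agent.H8.Fac
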