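import Pool.Agent.H8.FdDefs
namespace H8.Fd
open List

theorem mem_W {q n : ℕ} {l : List (Fin q)} : l ∈ W q n ↔ l.length = n := by simp [W]

theorem sum_ins {q n i : ℕ} (hi : i ≤ n) (F : List (Fin q) → ℕ) :
    ∑ l ∈ W q (n + 1), F l = ∑ w ∈ W q n, ∑ a : Fin q, F (w.insertIdx i a) := by
  rw [← Finset.sum_product']
  symm
  refine Finset.sum_bij (fun p _ => p.1.insertIdx i p.2) ?_ ?_ ?_ (fun _ _ => rfl)
  · intro p hp
    simp only [Finset.mem_product, mem_W] at hp
    rw [mem_W, length_insertIdx_of_le_length (by omega), hp.1]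
  · intro p hp p' hp' h
    simp only [Finset.mem_product, mem_W] at hp hp'
    have h1 : p.1 = p'.1 := by simpa using congrArg (fun l => l.eraseIdx i) h
    have h2 := congrArg (fun l => l[i]?) h
    simp only [getElem?_insertIdx_self, hp.1, hp'.1, hi, if_true, Option.some.injEq] at h2
    exact Prod.ext h1 h2
  · intro l hl
    rw [mem_W] at hl
    refine ⟨(l.eraseIdx i, l[i]'(by omega)), ?_, insertIdx_eraseIdx_getElem (by omega)⟩
    simp only [Finset.mem_product, mem_W, Finset.mem_univ, and_true]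
    rw [length_eraseIdx_of_lt (by omega)]; omega

theorem Z_succ (q n : ℕ) : ∑ l ∈ W q (n + 1), B (n + 1) l = ∑ w ∈ W q n, (∑ i ∈ Finset.range (n + 1),
    (Finset.univ.filter fun a : Fin q => (w.insertIdx i a).IsChain (· ≠ ·)).card) * B n w := by
  have : ∀ l : List (Fin q), B (n + 1) l = ∑ i ∈ Finset.range (n + 1),
      if l.IsChain (· ≠ ·) then B n (l.eraseIdx i) else 0 := by
    intro l; rw [B]; split_ifs <;> simp
  simp only [this, Finset.sum_mul]
  rw [Finset.sum_comm, Finset.sum_comm (s := W q n)]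
  refine Finset.sum_congr rfl fun i hi => ?_
  rw [sum_ins (i := i) (by simp at hi; omega)]
  refine Finset.sum_congr rfl fun w _ => ?_
  simp only [eraseIdx_insertIdx_self]
  rw [← Finset.sum_filter]; simp

theorem B_chain {α : Type} [DecidableEq α] {n : ℕ} {w : List α} (hl : w.length = n)
    (h : B n w ≠ 0) : w.IsChain (· ≠ ·) := by
  cases n with
  | zero => rw [length_eq_zero_iff.1 hl]; simp
  | succ n => by_contra hc; exact h (by rw [B, if_neg hc])

theorem cnt {q : ℕ} (w : List (Fin q)) (hw : w.IsChain (· ≠ ·)) : ∀ i ≤ w.length, ∀ a,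
    (w.insertIdx i a).IsChain (· ≠ ·) ↔ (∀ x ∈ w[i]?, a ≠ x) ∧ (∀ j, i = j + 1 → ∀ x ∈ w[j]?, x ≠ a) := by
  induction w with
  | nil => intro i hi a; obtain rfl : i = 0 := by simpa using hi
           simp
  | cons b w ih =>
    intro i hi a
    cases i with
    | zero => simp [isChain_cons_cons, hw]
    | succ i =>
      rw [insertIdx_succ_cons, isChain_cons, ih hw.tail i (by simpa using hi)]
      cases i with
      | zero => simp; tauto
      | succ i =>
        cases w with
        | nil => simp at hi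
        | cons c w =>
          have := (isChain_cons_cons.1 hw).1
          simp [this]

theorem low4 (w : List (Fin 4)) (hw : w.IsChain (· ≠ ·)) (i : ℕ) (hi : i ≤ w.length) :
    2 ≤ (Finset.univ.filter fun a : Fin 4 => (w.insertIdx i a).IsChain (· ≠ ·)).card := by
  have key : ∀ x y : Fin 4, 2 ≤ (Finset.univ.filter fun a : Fin 4 => a ≠ x ∧ y ≠ a).card := by decide
  refine (key (w[i]?.getD 0) (w[i - 1]?.getD 0)).trans (Finset.card_le_card fun a ha => ?_)
  simp only [Finset.mem_filter, Finset.mem_univ, true_and] at ha ⊢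
  rw [cnt w hw i hi]
  refine ⟨fun x hx => ?_, fun j hj x hx => ?_⟩
  · rw [Option.mem_def.1 hx] at ha; exact ha.1
  · subst hj; rw [Nat.add_sub_cancel, Option.mem_def.1 hx] at ha; exact ha.2

theorem up3 (w : List (Fin 3)) (hw : w.IsChain (· ≠ ·)) (i : ℕ) (hi : i ≤ w.length) :
    (Finset.univ.filter fun a : Fin 3 => (w.insertIdx i a).IsChain (· ≠ ·)).card ≤
      1 + (if i = 0 then 2 else 0) + (if i = w.length then 2 else 0) := by
  have h3 := Finset.card_filter_le Finset.univ fun a : Fin 3 => (w.insertIdx i a).IsChain (· ≠ ·)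
  simp only [Finset.card_univ, Fintype.card_fin] at h3
  split_ifs with h1 h2 h2 <;> try omega
  have key : ∀ x y : Fin 3, y ≠ x →
    (Finset.univ.filter fun a : Fin 3 => a ≠ x ∧ y ≠ a).card ≤ 1 := by decide
  obtain ⟨j, rfl⟩ : ∃ j, i = j + 1 := ⟨i - 1, by omega⟩
  have hlt : j + 1 < w.length := by omega
  refine le_trans (Finset.card_le_card fun a ha => ?_)
    (key w[j + 1] w[j] (isChain_iff_getElem.1 hw j hlt))
  simp only [Finset.mem_filter, Finset.mem_univ, true_and] at ha ⊢
  rw [cnt w hw _ hi] at ha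
  exact ⟨ha.1 _ (by simp), ha.2 j rfl _ (by simp)⟩

theorem W0 (q : ℕ) : W q 0 = {[]} := by ext l; simp [mem_W]

theorem Z4 (n : ℕ) : 2 ^ n * n.factorial ≤ ∑ w ∈ W 4 n, B n w := by
  induction n with
  | zero => simp [W0, B]
  | succ n ih =>
    rw [Z_succ]
    calc 2 ^ (n + 1) * (n + 1).factorial = ((n + 1) * 2) * (2 ^ n * n.factorial) := by
          rw [Nat.factorial_succ]; ring
      _ ≤ ((n + 1) * 2) * ∑ w ∈ W 4 n, B n w := Nat.mul_le_mul_left _ ih
      _ ≤ _ := by
          rw [Finset.mul_sum]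
          refine Finset.sum_le_sum fun w hw => ?_
          rw [mem_W] at hw
          by_cases h : B n w = 0
          · simp [h]
          refine Nat.mul_le_mul_right _ ?_
          have := Finset.card_nsmul_le_sum (Finset.range (n + 1)) _ 2
            (fun i hi => low4 w (B_chain hw h) i (by simp at hi; omega))
          simpa using this

theorem Z3 (n : ℕ) : ∑ w ∈ W 3 n, B n w ≤ (n + 4).factorial := by
  induction n with
  | zero => simp [W0, B, Nat.factorial]
  | succ n ih =>
    rw [Z_succ]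
    calc _ ≤ (n + 5) * ∑ w ∈ W 3 n, B n w := by
          rw [Finset.mul_sum]
          refine Finset.sum_le_sum fun w hw => ?_
          rw [mem_W] at hw
          by_cases h : B n w = 0
          · simp [h]
          refine Nat.mul_le_mul_right _ ?_
          refine (Finset.sum_le_sum (fun i hi => up3 w (B_chain hw h) i
            (by simp at hi; omega))).trans ?_
          simp [Finset.sum_add_distrib, hw]
      _ ≤ (n + 5) * (n + 4).factorial := Nat.mul_le_mul_left _ ih
      _ = _ := rfl

def alt {α : Type} : α → α → ℕ → List α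
  | _, _, 0 => []
  | a, b, n + 1 => a :: alt b a n

theorem alt_len {α : Type} (n : ℕ) : ∀ a b : α, (alt a b n).length = n := by
  induction n with
  | zero => intros; rfl
  | succ n ih => intro a b; simp [alt, ih]

theorem alt_last {α : Type} (n : ℕ) : ∀ a b : α, (alt a b (n + 1)).eraseIdx n = alt a b n := by
  induction n with
  | zero => intros; rfl
  | succ n ih => intro a b; rw [alt, eraseIdx_cons_succ, ih]; rfl

theorem alt_mid {α : Type} (i : ℕ) : ∀ (a b : α) (k : ℕ),
    ¬ ((alt a b (i + k + 3)).eraseIdx (i + 1)).IsChain (· ≠ ·) := by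
  induction i with
  | zero => intro a b k; simp [alt]
  | succ i ih =>
    intro a b k h
    rw [show i + 1 + k + 3 = (i + k + 3) + 1 by omega, alt, eraseIdx_cons_succ] at h
    exact ih b a k h.tail

theorem alt_chain {α : Type} (n : ℕ) : ∀ a b : α, a ≠ b → (alt a b n).IsChain (· ≠ ·) := by
  induction n with
  | zero => intros; simp [alt]
  | succ n ih =>
    intro a b h
    have := ih b a h.symm
    cases n with
    | zero => simp [alt]
    | succ n => rw [alt] at this; rw [alt, alt]; exact isChain_cons_cons.2 ⟨h, this⟩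

theorem B_up {α : Type} [DecidableEq α] (n : ℕ) : ∀ a b : α, B n (alt a b n) ≤ 2 ^ n := by
  induction n with
  | zero => intros; simp [B]
  | succ n ih =>
    intro a b
    rw [B]
    split_ifs
    swap
    · simp
    cases n with
    | zero => simp [B]
    | succ n =>
      rw [Finset.sum_range_succ, Finset.sum_range_succ', alt_last, Finset.sum_eq_zero]
      · have h1 := ih a b
        have h2 : B (n + 1) ((alt a b (n + 1 + 1)).eraseIdx 0) ≤ _ := ih b a
        rw [pow_succ 2 (n + 1)]; omega
      · intro i hi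
        simp only [Finset.mem_range] at hi
        rw [B, if_neg]
        have := alt_mid i a b (n - i - 1)
        rwa [show i + (n - i - 1) + 3 = n + 1 + 1 by omega] at this

theorem B_low {α : Type} [DecidableEq α] (n : ℕ) :
    ∀ a b : α, a ≠ b → 2 ^ n ≤ B (n + 1) (alt a b (n + 1)) := by
  induction n with
  | zero => intro a b _; simp [B, alt]
  | succ n ih =>
    intro a b h
    rw [B, if_pos (alt_chain _ a b h), Finset.sum_range_succ, Finset.sum_range_succ', alt_last]
    have h1 := ih a b h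
    have h2 : _ ≤ B (n + 1) ((alt a b (n + 1 + 1)).eraseIdx 0) := ih b a h.symm
    rw [pow_succ]; omega

theorem alt_take {α : Type} (r : ℕ) : ∀ (a b : α) (k : ℕ), (alt a b (r + k)).take r = alt a b r := by
  induction r with
  | zero => intros; simp [alt]
  | succ r ih => intro a b k; rw [show r + 1 + k = r + k + 1 by omega, alt, take_succ_cons, ih]; rfl

theorem blk_alt {α β : Type} (r : ℕ) (g : List α → β) (n : ℕ) : ∀ a b : α,
    blk (r + 1) g n (alt a b (n + r)) = alt (g (alt a b (r + 1))) (g (alt b a (r + 1))) n := by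
  induction n with
  | zero => intros; rfl
  | succ n ih =>
    intro a b
    rw [blk, alt, ← ih b a]
    congr 1
    · rw [show n + 1 + r = r + 1 + n by omega, alt_take]
    · rw [show n + 1 + r = n + r + 1 by omega, alt]; rfl

theorem big (r : ℕ) : ∃ n, (n + 1 + r + 4).factorial < 2 ^ (n + r) * (n + 1).factorial := by
  have h := tendsto_pow_const_div_const_pow_of_one_lt (r + 4) (show (1 : ℝ) < 2 by norm_num)
  obtain ⟨N, hN⟩ := Filter.eventually_atTop.1 (h.eventually (gt_mem_nhds (show (0 : ℝ) < 1 / 32 by norm_num)))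
  refine ⟨N, ?_⟩
  have h1 := hN (N + 1 + (r + 4)) (by omega)
  rw [div_lt_iff₀ (by positivity), show N + 1 + (r + 4) = (N + r) + 5 by omega, pow_add (2 : ℝ)] at h1
  have h2 : (N + r + 5) ^ (r + 4) < 2 ^ (N + r) := by
    have : ((N + r + 5 : ℕ) : ℝ) ^ (r + 4) < 2 ^ (N + r) := by linarith
    exact_mod_cast this
  have h3 := Nat.factorial_mul_ascFactorial (N + 1) (r + 4)
  have h4 := Nat.ascFactorial_le_pow_add (N + 1) (r + 4)
  rw [show N + 1 + r + 4 = N + 1 + (r + 4) by omega, ← h3, mul_comm]
  refine Nat.mul_lt_mul_of_pos_right (lt_of_le_of_lt h4 ?_) (Nat.factorial_pos _)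
  rwa [show N + 1 + (r + 4) = N + r + 5 by omega]

theorem main : ¬ ∃ (r : ℕ) (g : List (Fin 3) → Fin 4), 1 ≤ r ∧ ∀ n, 1 ≤ n → ∀ x ∈ W 4 n,
    mu 4 n x = ∑ y ∈ (W 3 (n + r - 1)).filter (fun y => blk r g n y = x), mu 3 (n + r - 1) y := by
  rintro ⟨r, g, hr, h⟩
  obtain ⟨r, rfl⟩ : ∃ r', r = r' + 1 := ⟨r - 1, by omega⟩
  obtain ⟨n, hn⟩ := big r
  have h1 := h (n + 1) (by omega) (alt (g (alt 0 1 (r + 1))) (g (alt 1 0 (r + 1))) (n + 1))
    (mem_W.2 (alt_len _ _ _))
  rw [show n + 1 + (r + 1) - 1 = n + 1 + r by omega] at h1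
  have h2 : mu 3 (n + 1 + r) (alt 0 1 (n + 1 + r)) ≤ _ := h1 ▸ Finset.single_le_sum
    (f := mu 3 (n + 1 + r)) (fun y _ => by unfold mu; positivity)
    (Finset.mem_filter.2 ⟨mem_W.2 (alt_len _ _ _), blk_alt r g (n + 1) 0 1⟩)
  have a1 := B_low (n + r) (0 : Fin 3) 1 (by decide)
  rw [show n + r + 1 = n + 1 + r by omega] at a1
  have a2 := B_up (n + 1) (g (alt 0 1 (r + 1))) (g (alt 1 0 (r + 1)))
  have a3 := Z3 (n + 1 + r)
  have a4 := Z4 (n + 1)
  have a5 := Finset.single_le_sum (f := B (n + 1 + r)) (fun _ _ => Nat.zero_le _)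
    (mem_W.2 (alt_len (n + 1 + r) (0 : Fin 3) 1))
  have p1 : 0 < 2 ^ (n + r) := by positivity
  have p2 : 0 < 2 ^ (n + 1) * (n + 1).factorial := by positivity
  unfold mu at h2
  rw [div_le_div_iff₀ (by exact_mod_cast (by omega)) (by exact_mod_cast (by omega))] at h2
  have h3 := (Nat.mul_le_mul a1 a4).trans
    ((show _ ≤ _ by exact_mod_cast h2).trans (Nat.mul_le_mul a2 a3))
  have p3 : 0 < 2 ^ (n + 1) := by positivity
  nlinarith
end H8.Fd
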