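import Mathlib
namespace H8.Fd
/-- Number of arrival orders of the `n` letters of a word in which every stage is proper
(remove the last arrival and recurse). -/
def B {α : Type} [DecidableEq α] : ℕ → List α → ℕ
  | 0, _ => 1
  | n + 1, l => if l.IsChain (· ≠ ·) then ∑ i ∈ Finset.range (n + 1), B n (l.eraseIdx i) else 0

/-- Words of length `n` over `q` colours. -/
noncomputable def W (q n : ℕ) : Finset (List (Fin q)) := (List.finite_length_eq (Fin q) n).toFinset

/-- The law `μ_{q,n}`. -/
noncomputable def mu (q n : ℕ) (x : List (Fin q)) : ℚ := (B n x : ℚ) / (∑ w ∈ W q n, B n w : ℕ)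

/-- The first `n` letters of the block image with window length `r`. -/
def blk {α β : Type} (r : ℕ) (g : List α → β) : ℕ → List α → List β
  | 0, _ => []
  | n + 1, y => g (y.take r) :: blk r g n y.tail
end H8.Fd
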