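import Pool.Agent.H8.Du2

namespace Pool.Agent.H8.Gs

open List Du

def Z (u v : ℕ) : Prop := u = 0 → v ≠ 0

def md (m : ℕ) (e f : Bool) : List ℕ := zer (!e) ++ m :: zer f

def zz (e f : Bool) : ℕ := (if e then 0 else 1) + if f then 1 else 0

def Fl (m k s : ℕ) (l : List ℕ) : Prop := l.head? = some 0 ∧ l.count 0 = s + 1 ∧
  (l.filter (· ≠ 0)).Perm (range' m k) ∧ List.IsChain Z l

lemma Fl.big {m k s : ℕ} {l : List ℕ} (h : Fl (m + 1) k s l) : Big m l := fun x hx => by
  by_cases e : x = 0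
  · exact Or.inl e
  · have := mem_range'_1.1 (h.2.2.1.mem_iff.1 (mem_filter.2 ⟨hx, by simpa⟩))
    omega

lemma Fl.parts {m k s : ℕ} {P Q : List ℕ} (h : Fl (m + 1) k s (P ++ 0 :: Q)) :
    Big m P ∧ Big m Q ∧ End m P ∧ End m Q.reverse := by
  have b := h.big
  have c := h.2.2.2
  refine ⟨fun x hx => b x (by simp [hx]), fun x hx => b x (by simp [hx]), ?_, ?_⟩
  · rcases eq_nil_or_concat P with rfl | ⟨Y, u, rfl⟩
    · exact Or.inl rfl
    · refine Or.inr ⟨Y, u, by simp, (b u (by simp)).resolve_left ?_⟩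
      rintro rfl
      simp [isChain_append_cons_cons, Z] at c
  · cases Q with
    | nil => exact Or.inl rfl
    | cons u Y =>
      refine Or.inr ⟨Y.reverse, u, by simp, (b u (by simp)).resolve_left ?_⟩
      rintro rfl
      simp [isChain_append_cons_cons, Z] at c

lemma count_md {m : ℕ} (hm : 0 < m) (e f : Bool) : (md m e f).count 0 = zz e f := by
  cases e <;> cases f <;> simp [md, zz, zer, count_cons, hm.ne']

lemma filter_md {m : ℕ} (hm : 0 < m) (e f : Bool) : (md m e f).filter (· ≠ 0) = [m] := by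
  cases e <;> cases f <;> simp [md, zer, hm.ne']

lemma end_rev {m : ℕ} {Q : List ℕ} (h : End m Q.reverse) : Q = [] ∨ ∃ v W, Q = v :: W ∧ m < v := by
  rcases h with h | ⟨Y, u, h, hu⟩
  · exact Or.inl (by simpa using h)
  · exact Or.inr ⟨u, Y.reverse, by simpa using congrArg reverse h, hu⟩

lemma fl_iff {m k s : ℕ} {P Q : List ℕ} {e f : Bool} (hm : 0 < m) (he : e → P ≠ [])
    (hP : End m P) (hQ : End m Q.reverse) (hs : s + 1 = P.count 0 + Q.count 0 + zz e f) :
    Fl m (k + 1) s (P ++ md m e f ++ Q) ↔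
      Fl (m + 1) k (P.count 0 + Q.count 0) (P ++ 0 :: Q) := by
  refine and_congr ?_ (and_congr ?_ (and_congr ?_ ?_))
  · cases P with
    | nil => cases e <;> simp [md, zer] at he ⊢
    | cons a P => simp
  · simp only [count_append, count_md hm, count_cons_self]; omega
  · simp only [filter_append, filter_md hm, range'_succ, append_assoc, singleton_append]
    rw [filter_cons_of_neg (by simp)]
    exact ⟨fun h => (perm_middle.symm.trans h).cons_inv, fun h => perm_middle.trans (h.cons _)⟩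
  · have E1 : P ++ md m e f ++ Q = (P ++ zer (!e)) ++ m :: (zer f ++ Q) := by simp [md]
    rw [E1, isChain_split (c := m), isChain_split (c := 0) (l₁ := P)]
    refine and_congr ?_ ?_
    · cases e
      · simp [zer, isChain_append_cons_cons, Z, hm.ne']
      · rcases hP with rfl | ⟨Y, u, rfl, hu⟩
        · simp at he
        · simp [zer, isChain_append_cons_cons, Z, show u ≠ 0 by omega]
    · cases f
      · rcases end_rev hQ with rfl | ⟨v, W, rfl, hv⟩
        · simp [zer]
        · simp [zer, Z, show v ≠ 0 by omega]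
      · simp [zer, Z, hm.ne']

lemma fl_out {m k s : ℕ} {l : List ℕ} (hm : 0 < m) (h : Fl m (k + 1) s l) :
    ∃ P Q e f, l = P ++ md m e f ++ Q ∧ (e → P ≠ []) ∧ End m P ∧ End m Q.reverse := by
  obtain ⟨h1, h2, h3, h4⟩ := h
  have hm' : m ∈ l := (mem_filter.1 (h3.mem_iff.2 (by simp [range'_succ]))).1
  obtain ⟨U, V, rfl⟩ := append_of_mem hm'
  have nd : (m :: (U ++ V).filter (· ≠ 0)).Perm (m :: range' (m + 1) k) := by
    rw [← range'_succ]
    refine Perm.trans ?_ h3
    rw [filter_append, filter_append, filter_cons_of_pos (by simpa using hm.ne')]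
    exact perm_middle.symm
  have b : Big m (U ++ V) := fun x hx => by
    by_cases e : x = 0
    · exact Or.inl e
    · have := mem_range'_1.1 (nd.cons_inv.mem_iff.1 (mem_filter.2 ⟨hx, by simpa⟩))
      omega
  obtain ⟨Q, f, rfl, bQ⟩ : ∃ Q f, V = zer f ++ Q ∧ End m Q.reverse := by
    rcases V with _ | ⟨v, V⟩
    · exact ⟨[], false, rfl, Or.inl rfl⟩
    · rcases b v (by simp) with rfl | hv
      · refine ⟨V, true, rfl, ?_⟩
        rcases V with _ | ⟨w, V⟩
        · exact Or.inl rfl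
        · refine Or.inr ⟨V.reverse, w, by simp, (b w (by simp)).resolve_left ?_⟩
          rintro rfl
          simp [isChain_append_cons_cons, Z] at h4
      · exact ⟨v :: V, false, rfl, Or.inr ⟨V.reverse, v, by simp, hv⟩⟩
  rcases eq_nil_or_concat U with rfl | ⟨Y, u, rfl⟩
  · simp at h1; omega
  · rcases b u (by simp) with rfl | hu
    · refine ⟨Y, Q, false, f, by simp [md, zer], by simp, ?_, bQ⟩
      rcases eq_nil_or_concat Y with rfl | ⟨Z, w, rfl⟩
      · exact Or.inl rfl
      · refine Or.inr ⟨Z, w, by simp, (b w (by simp)).resolve_left ?_⟩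
        rintro rfl
        simp [isChain_append_cons_cons, Gs.Z] at h4
    · exact ⟨Y ++ [u], Q, true, f, by simp [md, zer], by simp, Or.inr ⟨Y, u, rfl, hu⟩, bQ⟩

lemma zer_inj {m : ℕ} {P P' : List ℕ} {d d' : Bool} (h : End m P) (h' : End m P')
    (H : P ++ zer d = P' ++ zer d') : d = d' ∧ P = P' := by
  cases d <;> cases d' <;> simp [zer] at H ⊢
  · exact H
  · rcases h with rfl | ⟨Y, u, rfl, hu⟩ <;> simp at H
    omega
  · rcases h' with rfl | ⟨Y, u, rfl, hu⟩ <;> simp at H
    omega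
  · exact H

lemma md_inj {m : ℕ} {P Q P' Q' : List ℕ} {e e' f f' : Bool} (hm : 0 < m) (b : Big m P)
    (b' : Big m P') (h : End m P) (h' : End m P') (g : End m Q.reverse) (g' : End m Q'.reverse)
    (H : P ++ md m e f ++ Q = P' ++ md m e' f' ++ Q') : e = e' ∧ f = f' ∧ P = P' ∧ Q = Q' := by
  have nm : ∀ (P : List ℕ) (d : Bool), Big m P → m ∉ P ++ zer d := fun P d b hx => by
    rcases mem_append.1 hx with hx | hx
    · have := b m hx; omega
    · cases d <;> simp [zer] at hx; omega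
  simp only [md, ← append_assoc] at H
  simp only [append_assoc _ (m :: _), cons_append] at H
  obtain ⟨e1, e2⟩ := split_inj (nm P _ b) (nm P' _ b') H
  have zr : ∀ d, (zer d).reverse = zer d := fun d => by cases d <;> rfl
  have e3 := congrArg reverse e2
  simp only [reverse_append, zr] at e3
  obtain ⟨a1, a2⟩ := zer_inj h h' e1
  obtain ⟨a3, a4⟩ := zer_inj g g' e3
  exact ⟨by simpa using a1, a3, a2, reverse_injective a4⟩

section
variable {S : Type} (ok : Bool → Bool → S → ℕ → ℕ → Bool) (nx : Bool → Bool → S → ℕ → ℕ → S)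

def moves (s : ℕ) : List ((Bool × Bool) × ℕ) :=
  [(true, true), (true, false), (false, true), (false, false)] ×ˢ range (s + 2)

def enum : ℕ → ℕ → S → ℕ → List (List ℕ)
  | 0, _, _, s => if s = 0 then [[0]] else []
  | k + 1, m, a, s => (moves s).flatMap fun x =>
      if x.2 + zz x.1.1 x.1.2 ≤ s + 1 ∧ (x.1.1 → 1 ≤ x.2) ∧
          ok x.1.1 x.1.2 a x.2 (s + 1 - zz x.1.1 x.1.2 - x.2) then
        (enum k (m + 1) (nx x.1.1 x.1.2 a x.2 (s + 1 - zz x.1.1 x.1.2 - x.2))
          (s + 1 - zz x.1.1 x.1.2)).map (ins (md m x.1.1 x.1.2) x.2)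
      else []

def Step (I : S → ℕ → Prop) (Φ : S → List ℕ → Prop) : Prop :=
  (∀ e f a p q s, s + 1 = p + q + zz e f → (e → 1 ≤ p) → I a s → ok e f a p q →
    I (nx e f a p q) (p + q)) ∧ (∀ a, Φ a [0]) ∧
  ∀ m e f a P Q s, 0 < m → Big m P → Big m Q → End m P → End m Q.reverse →
    s + 1 = P.count 0 + Q.count 0 + zz e f → (e → 1 ≤ P.count 0) → I a s →
    (Φ a (P ++ md m e f ++ Q) ↔ ok e f a (P.count 0) (Q.count 0) ∧
      Φ (nx e f a (P.count 0) (Q.count 0)) (P ++ 0 :: Q))

variable {ok nx} {I : S → ℕ → Prop} {Φ : S → List ℕ → Prop}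

lemma mem_enum (H : Step ok nx I Φ) : ∀ (k m : ℕ) (a : S) (s : ℕ) (l : List ℕ), 0 < m → I a s →
    (l ∈ enum ok nx k m a s ↔ Fl m k s l ∧ Φ a l)
  | 0, m, a, s, l, hm, _ => by
    simp only [enum]
    constructor
    · intro h
      split_ifs at h with e
      · simp at h; subst h e
        exact ⟨by simp [Fl], H.2.1 a⟩
      · simp at h
    · rintro ⟨⟨h1, h2, h3, h4⟩, -⟩
      rcases l with _ | ⟨x, _ | ⟨y, l⟩⟩
      · simp at h1
      · simp at h1; subst h1; simp at h2; simp [h2]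
      · simp at h1 h3; subst h1
        simp [Z] at h4
        omega
  | k + 1, m, a, s, l, hm, hI => by
    simp only [enum, mem_flatMap]
    constructor
    · rintro ⟨⟨⟨e, f⟩, j⟩, -, h⟩
      split_ifs at h with c
      · obtain ⟨l', h1, rfl⟩ := mem_map.1 h
        simp only at c h1 ⊢
        obtain ⟨q, hq⟩ : ∃ q, s + 1 = j + q + zz e f := ⟨s + 1 - zz e f - j, by omega⟩
        rw [show s + 1 - zz e f - j = q by omega] at c h1
        rw [show s + 1 - zz e f = j + q by omega] at h1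
        obtain ⟨h2, h3⟩ := (mem_enum H k _ _ _ _ (by omega)
          (H.1 e f a j q s hq c.2.1 hI c.2.2)).1 h1
        obtain ⟨P, Q, rfl, rfl⟩ := split l' j (by rw [h2.2.1]; omega)
        have cnt := h2.2.1
        simp only [count_append, count_cons_self] at cnt
        obtain rfl : q = count 0 Q := by omega
        obtain ⟨b1, b2, b3, b4⟩ := h2.parts
        rw [ins_eq]
        exact ⟨(fl_iff hm (fun he hP => by simpa [hP] using c.2.1 he) b3 b4 hq).2 h2,
          (H.2.2 m e f a P Q s hm b1 b2 b3 b4 hq c.2.1 hI).2 ⟨c.2.2, h3⟩⟩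
      · simp at h
    · rintro ⟨h1, h2⟩
      obtain ⟨P, Q, e, f, rfl, a1, a2, a3⟩ := fl_out hm h1
      have cnt := h1.2.1
      simp only [count_append, count_md hm] at cnt
      have hq : s + 1 = count 0 P + count 0 Q + zz e f := by omega
      have h3 := (fl_iff hm a1 a2 a3 hq).1 h1
      obtain ⟨b1, b2, b3, b4⟩ := h3.parts
      have hc : e → 1 ≤ count 0 P := fun he => by
        have := h3.1
        cases P with
        | nil => exact absurd rfl (a1 he)
        | cons x P => simp at this; simp [this]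
      obtain ⟨c1, c2⟩ := (H.2.2 m e f a P Q s hm b1 b2 b3 b4 hq hc hI).1 h2
      have e1 : s + 1 - zz e f = count 0 P + count 0 Q := by omega
      refine ⟨((e, f), P.count 0), by cases e <;> cases f <;> simp [moves] <;> omega, ?_⟩
      simp only [e1, Nat.add_sub_cancel_left]
      rw [if_pos ⟨by omega, hc, c1⟩]
      exact mem_map.2 ⟨_, (mem_enum H k _ _ _ _ (by omega)
        (H.1 e f a _ _ s hq hc hI c1)).2 ⟨h3, c2⟩, ins_eq _ _ _⟩

lemma sub_enum (H : Step ok nx I Φ) {k m : ℕ} {a : S} {s : ℕ} (hI : I a s) {e f : Bool} {j : ℕ}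
    (c : j + zz e f ≤ s + 1 ∧ (e → 1 ≤ j) ∧ ok e f a j (s + 1 - zz e f - j)) :
    I (nx e f a j (s + 1 - zz e f - j)) (s + 1 - zz e f) ∧
    ∀ x ∈ enum ok nx k (m + 1) (nx e f a j (s + 1 - zz e f - j)) (s + 1 - zz e f),
      ∃ P Q, x = P ++ 0 :: Q ∧ P.count 0 = j ∧ Big m P ∧ Big m Q ∧ End m P ∧ End m Q.reverse := by
  have h := H.1 e f a j _ s (by omega) c.2.1 hI c.2.2
  rw [show j + (s + 1 - zz e f - j) = s + 1 - zz e f by omega] at h
  refine ⟨h, fun x hx => ?_⟩
  have fx := ((mem_enum H k _ _ _ _ (by omega) h).1 hx).1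
  obtain ⟨P, Q, rfl, rfl⟩ := split x j (by rw [fx.2.1]; omega)
  exact ⟨P, Q, rfl, rfl, fx.parts⟩

lemma enum_nodup (H : Step ok nx I Φ) : ∀ (k m : ℕ) (a : S) (s : ℕ), 0 < m → I a s →
    (enum ok nx k m a s).Nodup
  | 0, m, a, s, _, _ => by simp only [enum]; split_ifs <;> simp
  | k + 1, m, a, s, hm, hI => by
    simp only [enum]
    refine nodup_flatMap.2 ⟨fun x _ => ?_, ?_⟩
    · split_ifs with c
      · obtain ⟨h1, h2⟩ := sub_enum (k := k) (m := m) H hI c
        refine (enum_nodup H k _ _ _ (by omega) h1).map_on fun u hu v hv E => ?_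
        obtain ⟨P, Q, rfl, e1, a1, -, a2, a3⟩ := h2 u hu
        obtain ⟨P', Q', rfl, e2, b1, -, b2, b3⟩ := h2 v hv
        rw [← e1, ins_eq, e1, ← e2, ins_eq] at E
        obtain ⟨-, -, rfl, rfl⟩ := md_inj hm a1 b1 a2 b2 a3 b3 E
        rfl
      · simp
    · refine Pairwise.imp (fun {x y} hxy z hz hz' => ?_)
        (Nodup.product (by simp) nodup_range : (moves s).Nodup)
      dsimp only at hz hz'
      split_ifs at hz hz' with c d <;> try simp at hz hz'
      obtain ⟨u, hu, rfl⟩ := hz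
      obtain ⟨v, hv, E⟩ := hz'
      obtain ⟨P, Q, rfl, e1, a1, -, a2, a3⟩ := (sub_enum (k := k) (m := m) H hI c).2 u hu
      obtain ⟨P', Q', rfl, e2, b1, -, b2, b3⟩ := (sub_enum (k := k) (m := m) H hI d).2 v hv
      rw [← e1, ← e2, ins_eq, ins_eq] at E
      obtain ⟨f1, f2, rfl, rfl⟩ := md_inj hm b1 a1 b2 a2 b3 a3 E
      exact hxy (Prod.ext (Prod.ext f1.symm f2.symm) (e1.symm.trans e2))

lemma enum_sum (H : Step ok nx I Φ) {R : Type} [CommSemiring R] (W : List ℕ → R)
    (w : Bool → Bool → R) (hW : ∀ m (e f : Bool) P Q, 0 < m → End m P → End m Q.reverse → (e → P ≠ []) →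
      W (P ++ md m e f ++ Q) = w e f * W (P ++ 0 :: Q)) (k : ℕ) {m : ℕ} {a : S} {s : ℕ}
    (hm : 0 < m) (hI : I a s) : ((enum ok nx (k + 1) m a s).map W).sum =
    ∑ e : Bool, ∑ f : Bool, ∑ j ∈ Finset.range (s + 2),
      if j + zz e f ≤ s + 1 ∧ (e → 1 ≤ j) ∧ ok e f a j (s + 1 - zz e f - j) then
        w e f * ((enum ok nx k (m + 1) (nx e f a j (s + 1 - zz e f - j)) (s + 1 - zz e f)).map W).sum
      else 0 := by
  have key : ∀ (f : ℕ → R) (n : ℕ), ((range n).map f).sum = ∑ i ∈ Finset.range n, f i :=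
    fun f n => by induction n <;> simp [range_succ, Finset.sum_range_succ, *]
  have fl : ∀ {α : Type} (l : List α) (g : α → List (List ℕ)),
      ((l.flatMap g).map W).sum = (l.map fun x => ((g x).map W).sum).sum := fun l g => by
    induction l <;> simp [*]
  rw [enum, fl, map_congr_left (g := fun x : (Bool × Bool) × ℕ =>
    if x.2 + zz x.1.1 x.1.2 ≤ s + 1 ∧ (x.1.1 → 1 ≤ x.2) ∧
          ok x.1.1 x.1.2 a x.2 (s + 1 - zz x.1.1 x.1.2 - x.2) then
      w x.1.1 x.1.2 * ((enum ok nx k (m + 1) (nx x.1.1 x.1.2 a x.2 (s + 1 - zz x.1.1 x.1.2 - x.2))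
        (s + 1 - zz x.1.1 x.1.2)).map W).sum else 0)]
  · simp only [moves, Fintype.sum_bool, ← key, product_cons, nil_product, map_append, map_map,
      sum_append, Function.comp_def, append_nil, add_assoc]
  · intro x _
    split_ifs with c
    · rw [map_map, ← sum_map_mul_left]
      congr 1
      refine map_congr_left fun u hu => ?_
      obtain ⟨P, Q, rfl, e1, -, -, a2, a3⟩ := (sub_enum (k := k) (m := m) H hI c).2 u hu
      rw [Function.comp, ← e1, ins_eq, hW m _ _ P Q hm a2 a3 fun he hP => by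
        have := c.2.1 he
        simp [← e1, hP] at this]
    · simp

end

end Pool.Agent.H8.Gs
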