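import Pool.Agent.H8.Gs1
import Pool.Agent.H8.Du3

namespace Pool.Agent.H8.Gs

open List Du

lemma sub2 {a b z : ℕ} {U V : List ℕ} : [a, b] <+ U ++ z :: V ↔
    [a, b] <+ U ++ V ∨ (a = z ∧ b ∈ V) ∨ (b = z ∧ a ∈ U) := by
  rw [sub_mid]
  refine or_congr_right ⟨?_, ?_⟩
  · rintro ⟨x, y, e, h1, h2⟩
    rcases x with _ | ⟨a1, _ | ⟨a2, x⟩⟩ <;> simp at e
    · obtain ⟨rfl, rfl⟩ := e; simp_all
    · obtain ⟨rfl, rfl, rfl⟩ := e; simp_all
  · rintro (⟨rfl, h⟩ | ⟨rfl, h⟩)
    · exact ⟨[], _, rfl, by simp, by simpa⟩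
    · exact ⟨[a], _, rfl, by simpa, by simp⟩

def T (σ : Bool) (c d : ℕ) : Prop := if σ then c < d else d < c

def NA (c d : ℕ) (V : List ℕ) : Prop := ∀ a b, a < b → b < c → b < d → ¬ [a, b] <+ V

def Ok (σ : Bool) : List ℕ → Prop
  | c :: d :: V => (T σ c d → NA c d V) ∧ Ok σ (d :: V)
  | _ => True

def G (σ : Bool) : List ℕ → Prop
  | c :: d :: V => (T σ c d → 0 < c → 0 < d → 0 ∉ V) ∧ G σ (d :: V)
  | _ => True

def Fr (σ : Bool) : ℕ → List ℕ → Prop
  | a, c :: d :: V => (T σ c d → 0 < c → 0 < d → False) ∧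
      if c = 0 then (a = 0 ∨ Fr σ (a - 1) (d :: V)) else Fr σ a (d :: V)
  | _, _ => True

lemma na_small {m c d : ℕ} {V : List ℕ} (h : Big m V) (hc : c ≤ m ∨ d ≤ m) : NA c d V :=
  fun a b h1 h2 h3 h4 => by have := h b (h4.subset (by simp)); omega

lemma na_mid {m c d : ℕ} {U V : List ℕ} (hU : Big m U) (hV : Big m V) (hm : 0 < m)
    (hc : c = 0 ∨ m < c) (hd : d = 0 ∨ m < d) :
    NA c d (U ++ m :: V) ↔ NA c d (U ++ 0 :: V) ∧ (0 < c → 0 < d → 0 ∉ U) := by
  constructor
  · intro h
    refine ⟨fun a b h1 h2 h3 g => ?_, fun a b g => h 0 m hm (by omega) (by omega)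
      (sub2.2 (by simp [g]))⟩
    rcases sub2.1 g with k | ⟨rfl, k⟩ | ⟨rfl, k⟩
    · exact h a b h1 h2 h3 (sub2.2 (Or.inl k))
    · have := hV b k
      exact h m b (by omega) h2 h3 (sub2.2 (by simp [k]))
    · omega
  · rintro ⟨h, h0⟩ a b h1 h2 h3 g
    rcases sub2.1 g with k | ⟨rfl, k⟩ | ⟨rfl, k⟩
    · exact h a b h1 h2 h3 (sub2.2 (Or.inl k))
    · exact h 0 b (by omega) h2 h3 (sub2.2 (by simp [k]))
    · have := hU a k
      obtain rfl : a = 0 := by omega
      exact h0 (by omega) (by omega) k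

lemma na_dup {c d : ℕ} {U V : List ℕ} : NA c d (U ++ 0 :: 0 :: V) ↔ NA c d (U ++ 0 :: V) := by
  refine ⟨fun h a b h1 h2 h3 g => h a b h1 h2 h3 (sub2.2 (Or.inl g)), fun h a b h1 h2 h3 g => ?_⟩
  rcases sub2.1 g with k | ⟨rfl, k⟩ | ⟨rfl, k⟩
  · exact h a b h1 h2 h3 k
  · exact h 0 b h1 h2 h3 (sub2.2 (by simp at k; simp [k.resolve_left (by omega)]))
  · omega

variable {σ : Bool}

lemma ok_small {m z : ℕ} {V : List ℕ} (h : Big m V) (hz : z ≤ m) : Ok σ (z :: V) ↔ Ok σ V := by
  cases V with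
  | nil => simp [Ok]
  | cons d V => simp [Ok, na_small (fun x hx => h x (mem_cons_of_mem _ hx)) (Or.inl hz)]

lemma ok_mid {m : ℕ} {V : List ℕ} (hV : Big m V) (hm : 0 < m) : ∀ U : List ℕ, Big m U →
    (Ok σ (U ++ m :: V) ↔ Ok σ (U ++ 0 :: V) ∧ G σ U)
  | [], _ => by simp [ok_small hV, G]
  | [u], _ => by simp [Ok, ok_small hV, G, na_small hV]
  | c :: d :: U, h => by
    have ih := ok_mid hV hm (d :: U) fun x hx => h x (mem_cons_of_mem _ hx)
    simp only [cons_append] at ih
    simp only [cons_append, Ok, G, ih, na_mid (U := U) (fun x hx => h x (by simp [hx])) hV hm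
      (h c (by simp)) (h d (by simp))]
    tauto

lemma ok_dup {V : List ℕ} : ∀ U : List ℕ, Ok σ (U ++ 0 :: 0 :: V) ↔ Ok σ (U ++ 0 :: V)
  | [] => by simp [Ok, NA]
  | [u] => by simp [Ok, NA]
  | c :: d :: U => by
    have ih := ok_dup (V := V) (d :: U)
    simp only [cons_append] at ih
    simp only [cons_append, Ok, ih, na_dup]

lemma fr_split {z : ℕ} {B : List ℕ} : ∀ (A : List ℕ) (a : ℕ), Fr σ a (A ++ z :: B) ↔
    Fr σ a (A ++ [z]) ∧ (A.count 0 ≤ a → Fr σ (a - A.count 0) (z :: B))
  | [], a => by simp [Fr]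
  | [c], a => by
    by_cases h : c = 0
    · subst h; cases a <;> simp [Fr]
    · simp [Fr, h]
  | c :: d :: A, a => by
    have ih := fun a => fr_split (z := z) (B := B) (d :: A) a
    simp only [cons_append] at ih
    by_cases h : c = 0
    · subst h
      simp only [cons_append, Fr, if_true, ih, count_cons_self]
      cases a with
      | zero => simp
      | succ a => simp [Nat.add_sub_add_right]
    · simp only [cons_append, Fr, if_neg h, ih, count_cons_of_ne h, and_assoc]

lemma fr_mono : ∀ (l : List ℕ) {a b : ℕ}, a ≤ b → Fr σ b l → Fr σ a l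
  | [], _, _, _, _ => by simp [Fr]
  | [_], _, _, _, _ => by simp [Fr]
  | c :: d :: V, a, b, h, H => by
    simp only [Fr] at *
    refine ⟨H.1, ?_⟩
    split_ifs at *
    · by_cases e : a = 0
      · exact Or.inl e
      · exact Or.inr (fr_mono _ (by omega) (H.2.resolve_left (by omega)))
    · exact fr_mono _ h H.2

lemma g_iff : ∀ (U : List ℕ), G σ U ↔ U.count 0 = 0 ∨ Fr σ (U.count 0 - 1) U
  | [] => by simp [G]
  | [_] => by simp [G, Fr]
  | c :: d :: V => by
    have ih := g_iff (d :: V)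
    by_cases h : c = 0
    · subst h; simp [G, Fr, ih]
    · simp only [G, Fr, ih, if_neg h, count_cons_of_ne h]
      by_cases h' : d = 0
      · subst h'; simp
      · simp only [count_cons_of_ne h', count_eq_zero]
        tauto

lemma fr_last {a z : ℕ} {A : List ℕ} (h : ∀ Y u, A = Y ++ [u] → T σ u z → 0 < u → 0 < z →
    a < A.count 0) : Fr σ a (A ++ [z]) ↔ Fr σ a A := by
  rcases eq_nil_or_concat A with rfl | ⟨Y, u, rfl⟩
  · simp [Fr]
  · have := h Y u (by simp)
    rw [concat_eq_append, append_assoc, singleton_append, fr_split]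
    refine and_iff_left fun hc => ?_
    simp only [Fr, ite_self, or_true, and_true]
    intro a b c
    have := this a b c
    simp [show u ≠ 0 by omega] at this
    omega

lemma fr_zero {a : ℕ} {A : List ℕ} : Fr σ a (A ++ [0]) ↔ Fr σ a A :=
  fr_last fun _ _ _ _ _ h => by omega

lemma fr_0 {a : ℕ} {Q : List ℕ} : Fr σ a (0 :: Q) ↔ a = 0 ∨ Fr σ (a - 1) Q := by
  cases Q <;> simp [Fr]

def Phi (σ : Bool) (a : ℕ) (l : List ℕ) : Prop := Ok σ l ∧ Fr σ a l

def okV (σ e f : Bool) (a p _q : ℕ) : Bool :=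
  a + (if e then 1 else 0) ≤ p ∨ if σ then f else !e

def nxV (e f : Bool) (a p _q : ℕ) : ℕ :=
  if a + (if e then 1 else 0) ≤ p then p - if e then 1 else 0 else a + 1 - zz e f

lemma stepV (σ : Bool) : Step (okV σ) nxV (· ≤ ·) (Phi σ) := by
  refine ⟨fun e f a p q s h1 h2 h3 _ => ?_, fun a => by simp [Phi, Ok, Fr], ?_⟩
  · simp only [nxV]
    cases e <;> cases f <;> simp [zz] at * <;> split_ifs <;> omega
  intro m e f a P Q s hm b1 b2 b3 b4 hs he ha
  have E : P ++ md m e f ++ Q = P ++ zer (!e) ++ m :: (zer f ++ Q) := by simp [md]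
  have D : Ok σ (P ++ zer (!e) ++ 0 :: (zer f ++ Q)) ↔ Ok σ (P ++ 0 :: Q) := by
    cases e <;> cases f <;> simp [zer, ok_dup]
  have c0 : (P ++ zer (!e)).count 0 = P.count 0 + if e then 0 else 1 := by cases e <;> simp [zer]
  have f0 : ∀ a, Fr σ a (P ++ zer (!e)) ↔ Fr σ a P := fun a => by cases e <;> simp [zer, fr_zero]
  have gi : G σ (P ++ zer (!e)) ↔ Fr σ (P.count 0 - if e then 1 else 0) P := by
    rw [g_iff, c0, f0]
    cases e <;> simp at he ⊢
    exact fun h => absurd he (count_eq_zero.1 h)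
  rw [Phi, Phi, E, ok_mid (fun x hx => (big_zer b2 f).2 x hx) hm _ (big_zer b1 _).1, D, gi,
    fr_split, fr_split P, fr_zero, c0, fr_0, okV, nxV]
  by_cases h : a + (if e then 1 else 0) ≤ P.count 0
  · rw [fr_last fun _ _ _ _ _ _ => by rw [c0]; cases e <;> simp at h ⊢ <;> omega, f0]
    have mono := fr_mono (σ := σ) P (show a ≤ P.count 0 - if e then 1 else 0 by omega)
    have : ¬ (P.count 0 + if e then 0 else 1) ≤ a := by cases e <;> simp at h ⊢ <;> omega
    simp only [h, this, if_true, true_or, decide_true, false_imp_iff]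
    have : count 0 P - (if e then 1 else 0) - count 0 P = 0 := by omega
    tauto
  · simp only [h, if_false, false_or, decide_eq_true_eq]
    have h1 : (P.count 0 + if e then 0 else 1) ≤ a := by cases e <;> simp at h ⊢ <;> omega
    simp only [h1, true_imp_iff]
    have hl : Fr σ a (P ++ zer (!e) ++ [m]) ↔ (σ ∨ !e) ∧ Fr σ a P := by
      cases e
      · rw [fr_last, f0]
        · simp
        · intro Y u hY _ hu
          simp [zer] at hY
          omega
      · rcases b3 with rfl | ⟨Y, u, rfl, hu⟩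
        · simp at he
        · simp only [zer, Bool.not_true, Bool.false_eq_true, if_false, append_nil, append_assoc,
            singleton_append, or_false]
          rw [fr_split]
          have : Y.count 0 ≤ a := by simp at h1; omega
          cases σ <;> simp [Fr, T, this, hu, hu.le, hm, show 0 < u by omega]
    have hr : ∀ c, Fr σ c (m :: (zer f ++ Q)) ↔ (f ∨ !σ) ∧ Fr σ c (zer f ++ Q) := fun c => by
      cases f
      · rcases end_rev b4 with rfl | ⟨v, W, rfl, hv⟩
        · cases e <;> simp [zz] at hs h1 <;> omega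
        · cases σ <;> simp [zer, Fr, T, hv, hv.le, hm, hm.ne', show 0 < v by omega]
      · simp [zer, Fr, hm.ne']
    rw [hl, hr]
    have m1 := fr_mono (σ := σ) P (show (P.count 0 - if e then 1 else 0) ≤ a by omega)
    have key : ∀ b, P.count 0 ≤ b → (Fr σ b P ↔ Fr σ a P) := fun b hb => by
      have := fun c => @fr_split σ 0 [] P c
      suffices ∀ l : List ℕ, ∀ a b, l.count 0 ≤ a → l.count 0 ≤ b → Fr σ a l → Fr σ b l from
        ⟨this _ _ _ hb (by omega), this _ _ _ (by omega) hb⟩
      intro l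
      induction l with
      | nil => simp [Fr]
      | cons c l ih =>
        intro a b h1 h2
        cases l with
        | nil => simp [Fr]
        | cons d l =>
          by_cases hc : c = 0
          · subst hc
            simp only [fr_0, count_cons_self] at *
            rintro (h | h)
            · omega
            · exact Or.inr (ih _ _ (by omega) (by omega) h)
          · simp only [Fr, if_neg hc, count_cons_of_ne hc] at *
            exact fun h => ⟨h.1, ih _ _ h1 h2 h.2⟩
    have h2 : P.count 0 ≤ a + 1 - zz e f := by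
      cases e <;> cases f <;> simp [zz] at h1 ⊢ <;> omega
    have k2 : Fr σ (a - (P.count 0 + if e then 0 else 1)) (zer f ++ Q) ↔
        (a + 1 - zz e f - P.count 0 = 0 ∨ Fr σ (a + 1 - zz e f - P.count 0 - 1) Q) := by
      cases f
      · rw [show a + 1 - zz e false - P.count 0 = a - (P.count 0 + if e then 0 else 1) + 1 by
          simp only [zz, Bool.false_eq_true, if_false]; omega]
        simp [zer]
      · rw [show a + 1 - zz e true - P.count 0 = a - (P.count 0 + if e then 0 else 1) by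
          simp only [zz, if_true]; omega]
        exact fr_0
    rw [key _ h2, k2]
    simp only [h2, true_imp_iff]
    cases σ <;> simp <;> tauto

end Pool.Agent.H8.Gs
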