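import Pool.Agent.H8.Gs2

namespace Pool.Agent.H8.Gs

open Finset Du

instance (σ : Bool) (c d : ℕ) : Decidable (T σ c d) := by unfold T; infer_instance

def ct (σ : Bool) : List ℕ → ℕ
  | a :: b :: t => (if T σ b a then 1 else 0) + ct σ (b :: t)
  | _ => 0

lemma ct_split {σ : Bool} {z : ℕ} {B : List ℕ} : ∀ A : List ℕ,
    ct σ (A ++ z :: B) = ct σ (A ++ [z]) + ct σ (z :: B)
  | [] => by simp [ct]
  | [a] => by simp [ct]
  | a :: b :: A => by
    have := ct_split (σ := σ) (z := z) (B := B) (b :: A)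
    simp only [List.cons_append] at this
    simp only [List.cons_append, ct, this, add_assoc]

lemma ct_md (σ : Bool) {m : ℕ} (e f : Bool) {P Q : List ℕ} (hm : 0 < m) (hP : End m P)
    (hQ : End m Q.reverse) (he : e → P ≠ []) : ct σ (P ++ md m e f ++ Q) =
      (if (if σ then f else !e) then 1 else 0) + ct σ (P ++ 0 :: Q) := by
  have E : P ++ md m e f ++ Q = P ++ zer (!e) ++ m :: (zer f ++ Q) := by simp [md]
  have l : ct σ (P ++ zer (!e) ++ [m]) = (if !σ && !e then 1 else 0) + ct σ (P ++ [0]) := by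
    cases e
    · rw [zer, if_pos (by simp), List.append_assoc, List.singleton_append, ct_split]
      cases σ <;> simp [ct, T, hm, add_comm]
    · rcases hP with rfl | ⟨Y, u, rfl, hu⟩
      · simp at he
      · simp only [zer, Bool.not_true, Bool.false_eq_true, if_false, List.append_nil,
          List.append_assoc, List.singleton_append]
        rw [ct_split, ct_split (B := [0])]
        cases σ <;> simp [ct, T, hu, hu.le, show 0 < u by omega]
  have r : ct σ (m :: (zer f ++ Q)) = (if σ && f then 1 else 0) + ct σ (0 :: Q) := by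
    cases f
    · rcases end_rev hQ with rfl | ⟨v, W, rfl, hv⟩
      · simp [zer, ct]
      · cases σ <;> simp [zer, ct, T, hv, hv.le, show 0 < v by omega]
    · cases σ <;> simp [zer, ct, T, hm]
  rw [E, ct_split, l, r, ct_split P (B := Q)]
  cases σ <;> simp <;> omega

variable {R : Type} [CommRing R] (q : R)

lemma conv' {N n : ℕ} {p : ℕ → Prop} [DecidablePred p] {f g : ℕ → R} (φ ψ : ℕ → ℕ)
    (h1 : ∀ j < N, p j → φ j < n ∧ ψ (φ j) = j ∧ f j = g (φ j))
    (h2 : ∀ c < n, ψ c < N ∧ p (ψ c) ∧ φ (ψ c) = c) :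
    ∑ j ∈ range N, (if p j then f j else 0) = ∑ c ∈ range n, g c := by
  rw [← sum_filter]
  refine sum_nbij' φ ψ ?_ ?_ ?_ ?_ ?_ <;> simp only [mem_filter, mem_range]
  · exact fun j h => (h1 j h.1 h.2).1
  · exact fun c h => ⟨(h2 c h).1, (h2 c h).2.1⟩
  · exact fun j h => (h1 j h.1 h.2).2.1
  · exact fun c h => (h2 c h).2.2
  · exact fun j h => (h1 j h.1 h.2).2.2

lemma mixed (a b x : ℕ) (g : ℕ → R) : ∑ c ∈ range (a + b), g (if a ≤ c then c else x)
    = a * g x + ∑ c ∈ range b, g (a + c) := by
  rw [sum_range_add, sum_congr rfl fun c hc => by rw [if_neg (not_le.2 (mem_range.1 hc))]]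
  simp

def V (σ : Bool) (k m a s : ℕ) : R := ((enum (okV σ) nxV k m a s).map fun l => q ^ ct σ l).sum

lemma V_succ (σ : Bool) (k : ℕ) {m : ℕ} (hm : 0 < m) (a b : ℕ) : V q σ (k + 1) m a (a + b) =
    q * (a * V q σ k (m + 1) a (a + b)) + q * (a * V q σ k (m + 1) (a - 1) (a + b - 1))
      + ∑ c ∈ range (b + 1), V q σ k (m + 1) (a + c) (a + b + 1)
      + (1 + q) * ∑ c ∈ range b, V q σ k (m + 1) (a + c) (a + b)
      + q * ∑ c ∈ range b, V q σ k (m + 1) (a + c) (a + b - 1)
      + (if σ then 1 else q) * V q σ k (m + 1) (a + b) (a + b) := by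
  rw [V, enum_sum (stepV σ) _ (fun e f => if (if σ then f else !e) then q else 1)
    (fun m e f P Q hm h1 h2 h3 => by rw [ct_md σ e f hm h1 h2 h3, pow_add]; congr 1; split_ifs <;> simp)
    k hm (Nat.le_add_right a b)]
  have hV : ∀ a s, ((enum (okV σ) nxV k (m + 1) a s).map fun l => q ^ ct σ l).sum
    = V q σ k (m + 1) a s := fun _ _ => rfl
  simp only [hV]
  generalize V q σ k (m + 1) = F
  simp only [Fintype.sum_bool, zz, okV, nxV]
  have h2 := conv' (N := a + b + 2) (n := b + 1) (p := fun j => j ≤ a + b + 1 ∧ 1 ≤ j ∧ a + 1 ≤ j)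
    (f := fun j => F (if a + 1 ≤ j then j - 1 else a + 1) (a + b + 1))
    (g := fun c => F (a + c) (a + b + 1)) (· - (a + 1)) (· + (a + 1))
    (fun j _ h => ⟨by omega, by omega, by rw [if_pos h.2.2]; congr 1; omega⟩) fun c h => by omega
  have h3 := conv' (N := a + b + 2) (n := a + b) (p := fun j => j + 2 ≤ a + b + 1)
    (f := fun j => q * F (if a ≤ j then j else a - 1) (a + b - 1))
    (g := fun c => q * F (if a ≤ c then c else a - 1) (a + b - 1)) id id
    (fun j _ h => ⟨by simp; omega, rfl, rfl⟩) fun c h => by simp; omega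
  rw [mixed a b _ fun x => q * F x (a + b - 1)] at h3
  cases σ
  · have h1 := conv' (N := a + b + 2) (n := b) (p := fun j => j ≤ a + b ∧ 1 ≤ j ∧ a + 1 ≤ j)
      (f := fun j => F (if a + 1 ≤ j then j - 1 else a) (a + b))
      (g := fun c => F (a + c) (a + b)) (· - (a + 1)) (· + (a + 1))
      (fun j _ h => ⟨by omega, by omega, by rw [if_pos h.2.2]; congr 1; omega⟩) fun c h => by omega
    have h4 := conv' (N := a + b + 2) (n := a + (b + 1)) (p := fun j => j ≤ a + b)
      (f := fun j => q * F (if a ≤ j then j else a) (a + b))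
      (g := fun c => q * F (if a ≤ c then c else a) (a + b)) id id
      (fun j _ h => ⟨by simp; omega, rfl, rfl⟩) fun c h => by simp; omega
    rw [mixed a _ _ fun x => q * F x (a + b), sum_range_succ _ b] at h4
    simp only [← mul_sum] at h3 h4
    simp [show a + b + 1 - 2 = a + b - 1 by omega, show a + 1 - 2 = a - 1 by omega] at h1 h2 h3 h4 ⊢
    rw [h1, h2, h3, h4]; ring
  · have h1 := conv' (N := a + b + 2) (n := a + b) (p := fun j => j ≤ a + b ∧ 1 ≤ j)
      (f := fun j => q * F (if a + 1 ≤ j then j - 1 else a) (a + b))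
      (g := fun c => q * F (if a ≤ c then c else a) (a + b)) (· - 1) (· + 1)
      (fun j _ h => ⟨by omega, by omega, by congr 2; split_ifs <;> omega⟩) fun c h => by omega
    have h4 := conv' (N := a + b + 2) (n := b + 1) (p := fun j => j ≤ a + b ∧ a ≤ j)
      (f := fun j => F (if a ≤ j then j else a) (a + b))
      (g := fun c => F (a + c) (a + b)) (· - a) (· + a)
      (fun j _ h => ⟨by omega, by omega, by rw [if_pos h.2]; congr 1; omega⟩) fun c h => by omega
    rw [mixed a _ _ fun x => q * F x (a + b)] at h1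
    rw [sum_range_succ _ b] at h4
    simp only [← mul_sum] at h3 h1
    simp [show a + b + 1 - 2 = a + b - 1 by omega, show a + 1 - 2 = a - 1 by omega] at h1 h2 h3 h4 ⊢
    rw [h1, h2, h3, h4]; ring

lemma inv : ∀ (k m : ℕ), 0 < m → ∀ a s, a ≤ s → V q false k m a (s + 1) + q * V q false k m a s
    = q * (V q true k m a (s + 1) + V q true k m a s)
  | 0, m, _, a, s, _ => by by_cases h : s = 0 <;> simp [V, enum, h, ct]
  | k + 1, m, hm, a, s, h => by
    obtain ⟨b, rfl⟩ := Nat.exists_eq_add_of_le h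
    have ih := inv k (m + 1) (by omega)
    rw [add_assoc a b, V_succ q _ _ hm, V_succ q _ _ hm, V_succ q _ _ hm, V_succ q _ _ hm]
    generalize V q false k (m + 1) = Z at *
    generalize V q true k (m + 1) = Y at *
    have s0 := ih a (a + b) h
    have s1 : (a : R) * (Z (a - 1) (a + b) + q * Z (a - 1) (a + b - 1))
        = a * (q * (Y (a - 1) (a + b) + Y (a - 1) (a + b - 1))) := by
      cases a with
      | zero => simp
      | succ a =>
        have := ih a (a + b) (by omega)
        rw [show a + 1 + b = a + b + 1 by omega, Nat.add_sub_cancel, Nat.add_sub_cancel, this]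
    have s2 := sum_congr rfl fun c (hc : c ∈ range (b + 1 + 1)) =>
      ih (a + c) (a + b + 1) (by have := mem_range.1 hc; omega)
    have s3 := sum_congr rfl fun c (hc : c ∈ range (b + 1)) =>
      ih (a + c) (a + b) (by have := mem_range.1 hc; omega)
    have s4 := sum_congr rfl fun c (hc : c ∈ range b) => (by
      have := mem_range.1 hc
      have := ih (a + c) (a + b - 1) (by omega)
      rwa [show a + b - 1 + 1 = a + b by omega] at this :
      Z (a + c) (a + b) + q * Z (a + c) (a + b - 1) = q * (Y (a + c) (a + b) + Y (a + c) (a + b - 1)))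
    simp only [sum_add_distrib, ← mul_sum, sum_range_succ, ← add_assoc, Nat.add_sub_cancel,
      if_true, Bool.false_eq_true, if_false] at s2 s3 s4 ⊢
    linear_combination q * a * s0 + q * s1 + s2 + (1 + q) * s3 + q * s4

lemma fin (k : ℕ) : V q false (k + 1) 1 0 0 = q * V q true (k + 1) 1 0 0 := by
  have h := inv q k 2 (by omega) 0 0 le_rfl
  have a := V_succ q false k one_pos 0 0
  have b := V_succ q true k one_pos 0 0
  simp at a b h
  rw [a, b, h]

end Pool.Agent.H8.Gs
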