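import Mathlib

namespace Pool.Agent.H8.Gs

/-- `π` contains an occurrence of the pattern `p` of length 4 whose first two entries are
adjacent in `π`. -/
def HasShaded (p : Fin 4 → ℕ) {n : ℕ} (π : Equiv.Perm (Fin n)) : Prop :=
  ∃ f : Fin 4 → Fin n, StrictMono f ∧ (f 1).val = (f 0).val + 1 ∧
    ∀ a b : Fin 4, π (f a) < π (f b) ↔ p a < p b

/-- The number of descents of `π`. -/
noncomputable def des {n : ℕ} (π : Equiv.Perm (Fin n)) : ℕ :=
  Nat.card {i : Fin n // ∃ j : Fin n, j.val = i.val + 1 ∧ π j < π i}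

open Classical in
/-- The descent polynomial of the permutations of size `n` avoiding the shaded pattern `p`. -/
noncomputable def desPoly (p : Fin 4 → ℕ) (n : ℕ) : Polynomial ℤ :=
  ∑ π ∈ Finset.univ.filter (fun π : Equiv.Perm (Fin n) => ¬ HasShaded p π), Polynomial.X ^ des π

end Pool.Agent.H8.Gs
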