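import Pool.Agent.H8.Pc5

namespace Pool.Agent.H8.Pc

lemma card_succ {n : ℕ} (p : Fin (n + 1) → Prop) [Decidable (p 0)] :
    Nat.card {i // p i} = (if p 0 then 1 else 0) + Nat.card {i : Fin n // p i.succ} := by
  classical
  simp only [Nat.card_eq_fintype_card, Fintype.card_subtype, Finset.card_filter]
  rw [Fin.sum_univ_succ]
  congr

lemma card_rmin : ∀ (n : ℕ) (f : Fin n → ℕ),
    Nat.card {i : Fin n // ∀ j, i < j → f i < f j} = rmin (List.ofFn f)
  | 0, f => by simp [rmin]
  | n + 1, f => by
    classical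
    rw [card_succ, List.ofFn_succ, rmin, ← card_rmin n fun i => f i.succ]
    congr 1
    · congr 1
      simp [Fin.forall_fin_succ, List.forall_mem_ofFn_iff]
    · refine Nat.card_congr (Equiv.subtypeEquivRight fun i => ?_)
      simp [Fin.forall_fin_succ]

lemma card_zero : ∀ (n : ℕ) (f : Fin n → ℕ),
    Nat.card {i : Fin n // f i = 0} = (List.ofFn f).count 0
  | 0, f => by simp
  | n + 1, f => by
    rw [card_succ, List.ofFn_succ, List.count_cons, ← card_zero n fun i => f i.succ]
    simp [add_comm]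

lemma inv_ofFn : ∀ (n m : ℕ) (f : Fin n → ℕ), Inv m (List.ofFn f) ↔ ∀ i, f i ≤ m + i.val
  | 0, _, f => by simp [Inv]
  | n + 1, m, f => by
    rw [List.ofFn_succ, Inv, inv_ofFn n, Fin.forall_fin_succ]
    simp [add_assoc, add_comm 1]

lemma av_ofFn {n : ℕ} (f : Fin n → ℕ) : Av (List.ofFn f) ↔
    ¬ ∃ i j l : Fin n, i < j ∧ j < l ∧ f i = f j ∧ f l < f j := by
  constructor
  · rintro h ⟨i, j, l, h1, h2, h3, h4⟩
    refine h _ _ h4 (List.sublist_iff_exists_fin_orderEmbedding_get_eq.2
      ⟨OrderEmbedding.ofStrictMono (fun x => Fin.cast (by simp)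
        (if x.val = 0 then i else if x.val = 1 then j else l)) ?_, ?_⟩)
    · intro x y hxy
      have := y.2
      have : x.val < y.val := hxy
      have : i.val < j.val := h1
      have : j.val < l.val := h2
      simp only [List.length_cons, List.length_nil] at *
      split_ifs <;> simp only [Fin.lt_def, Fin.val_cast] <;> omega
    · intro x
      fin_cases x <;> simp [h3]
  · intro h a b hab hs
    obtain ⟨g, hg⟩ := List.sublist_iff_exists_fin_orderEmbedding_get_eq.1 hs
    have e0 := hg ⟨0, by simp⟩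
    have e1 := hg ⟨1, by simp⟩
    have e2 := hg ⟨2, by simp⟩
    have l1 : g ⟨0, by simp⟩ < g ⟨1, by simp⟩ := g.strictMono (by simp [Fin.lt_def])
    have l2 : g ⟨1, by simp⟩ < g ⟨2, by simp⟩ := g.strictMono (by simp [Fin.lt_def])
    simp only [List.get_eq_getElem, List.getElem_cons_zero, List.getElem_cons_succ,
      List.getElem_ofFn] at e0 e1 e2
    exact h ⟨Fin.cast (by simp) (g ⟨0, by simp⟩), Fin.cast (by simp) (g ⟨1, by simp⟩),
      Fin.cast (by simp) (g ⟨2, by simp⟩), l1, l2, e0.symm.trans e1, by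
        have := hab; rw [e1, e2] at this; exact this⟩

lemma perm_side (n k : ℕ) : Nat.card {π : Equiv.Perm (Fin (n + 1)) //
      ¬ Contains π ∧ Nat.card {i : Fin (n + 1) // ∀ j, i < j → π i < π j} = k}
    = (enum (n + 1) (.cons .nil .nil) 0).countP fun fl => rho fl = k := by
  classical
  rw [List.countP_eq_length_filter, ← List.toFinset_card_of_nodup ((enum_nodup _ _ _).filter _),
    ← Fintype.card_coe, ← Nat.card_eq_fintype_card]
  have key : ∀ π : Equiv.Perm (Fin (n + 1)), Nat.card {i : Fin (n + 1) // ∀ j, i < j → π i < π j}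
      = rho (.cons (word π) .nil .nil) := fun π => by
    have := card_rmin (n + 1) fun i => (π i).val
    simp only [rho, shape, if_true]
    exact this
  refine Nat.card_congr (Equiv.ofBijective (fun π => ⟨.cons (word π.1) .nil .nil, ?_⟩) ⟨?_, ?_⟩)
  · rw [List.mem_toFinset, List.mem_filter, mem_enum, ← key, π.2.2]
    refine ⟨⟨rfl, ⟨by simp [word], (ok_word _).2 π.2.1, ?_, trivial, trivial⟩,
      by simpa [vals] using word_perm π.1⟩, by simp⟩
    cases word π.1 <;> simp [Hd, dom, vals]
  · intro π ρ e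
    simp only [Subtype.mk.injEq, Fl.cons.injEq, and_true] at e
    have := List.ofFn_injective e
    exact Subtype.ext (Equiv.ext fun i => Fin.ext (congrFun this i))
  · rintro ⟨fl, h⟩
    rw [List.mem_toFinset, List.mem_filter, mem_enum] at h
    obtain ⟨⟨s1, s2, s3⟩, s4⟩ := h
    obtain ⟨w, K, R, rfl, a1, a2⟩ := shape_cons s1
    obtain rfl := shape_nil a1
    obtain rfl := shape_nil a2
    obtain ⟨π, rfl⟩ := exists_word (n := n + 1) (w := w) (by simpa [vals] using s3)
    exact ⟨⟨π, (ok_word π).1 s2.2.1, by rw [key]; simpa using s4⟩, rfl⟩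

lemma inv_side (n k : ℕ) : Nat.card {e : Fin n → Fin n // (∀ i : Fin n, (e i).val ≤ i.val) ∧
      (¬ ∃ i j l : Fin n, i < j ∧ j < l ∧ e i = e j ∧ e l < e j) ∧
      Nat.card {i : Fin n // (e i).val = 0} = k}
    = (enumI n).countP fun e => e.count 0 = k := by
  classical
  rw [List.countP_eq_length_filter, ← List.toFinset_card_of_nodup ((enumI_nodup _).filter _),
    ← Fintype.card_coe, ← Nat.card_eq_fintype_card]
  have key : ∀ e : Fin n → Fin n, ((∀ i : Fin n, (e i).val ≤ i.val) ∧
      (¬ ∃ i j l : Fin n, i < j ∧ j < l ∧ e i = e j ∧ e l < e j) ∧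
      Nat.card {i : Fin n // (e i).val = 0} = k) ↔ (List.ofFn fun i => (e i).val) ∈
        ((enumI n).filter fun e => e.count 0 = k).toFinset := fun e => by
    rw [List.mem_toFinset, List.mem_filter, mem_enumI, inv_ofFn, av_ofFn,
      card_zero n fun i => (e i).val]
    simp only [Fin.val_inj, Fin.val_fin_lt, List.length_ofFn, true_and, zero_add,
      decide_eq_true_eq, and_assoc]
  refine Nat.card_congr (Equiv.ofBijective (fun e => ⟨_, (key e.1).1 e.2⟩) ⟨?_, ?_⟩)
  · intro π ρ e
    simp only [Subtype.mk.injEq] at e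
    have := List.ofFn_injective e
    exact Subtype.ext (funext fun i => Fin.ext (congrFun this i))
  · rintro ⟨w, h⟩
    have h' := h
    rw [List.mem_toFinset, List.mem_filter, mem_enumI] at h'
    obtain ⟨⟨rfl, s2, -⟩, -⟩ := h'
    have hw : List.ofFn (fun i : Fin w.length => w[i]) = w := by simp
    rw [← hw, inv_ofFn] at s2
    have lt : ∀ i : Fin w.length, w[i] < w.length := fun i => by
      have := s2 i
      have := i.2
      omega
    exact ⟨⟨fun i => ⟨w[i], lt i⟩, (key _).2 (by simpa using h)⟩, Subtype.ext hw⟩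

end Pool.Agent.H8.Pc
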