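import Pool.Agent.H8.Gs3
import Pool.Agent.H8.Du5
import Pool.Agent.H8.Pc6
import Pool.Agent.H8.GsDefs

namespace Pool.Agent.H8.Gs

open List Du

lemma na_iff {c d : ℕ} {V : List ℕ} : NA c d V ↔ ∀ j k : ℕ, ∀ hk : k < V.length, ∀ h : j < k,
    V[j] < V[k] → V[k] < c → V[k] < d → False := by
  have : NA c d V ↔ V.Pairwise fun a b => a < b → b < c → b < d → False := by
    rw [pairwise_iff_forall_sublist]
    exact ⟨fun h a b g h1 h2 h3 => h a b h1 h2 h3 g, fun h a b h1 h2 h3 g => h g h1 h2 h3⟩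
  rw [this, pairwise_iff_getElem]
  exact ⟨fun h j k hk g => h j k _ hk g, fun h j k _ hk g => h j k hk g⟩

lemma ok_iff {σ : Bool} : ∀ l : List ℕ, Ok σ l ↔ ∀ i j k : ℕ, ∀ hk : k < l.length,
    ∀ h1 : i + 1 < j, ∀ h2 : j < k, T σ l[i] l[i + 1] → l[j] < l[k] → l[k] < l[i] →
      l[k] < l[i + 1] → False
  | [] => by simp [Ok]
  | [_] => by
    simp only [Ok, true_iff]
    intro i j k hk h1 h2
    simp at hk; omega
  | a :: b :: R => by
    rw [Ok, ok_iff (b :: R), na_iff]
    constructor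
    · rintro ⟨h0, h⟩ i j k hk h1 h2
      obtain ⟨j, rfl⟩ : ∃ j', j = j' + 2 := ⟨j - 2, by omega⟩
      obtain ⟨k, rfl⟩ : ∃ k', k = k' + 2 := ⟨k - 2, by omega⟩
      cases i with
      | zero => exact fun e => h0 e j k (by simpa using hk) (by omega)
      | succ i => exact h i (j + 1) (k + 1) (by simpa using hk) (by omega) (by omega)
    · intro h
      exact ⟨fun e j k hk g => h 0 (j + 2) (k + 2) (by simpa using hk) (by omega) (by omega) e,
        fun i j k hk h1 h2 => h (i + 1) (j + 1) (k + 1) (by simpa using hk) (by omega) (by omega)⟩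

lemma ok_ofFn {σ : Bool} {n : ℕ} (g : Fin n → ℕ) : Ok σ (0 :: ofFn g) ↔ ¬ ∃ f : Fin 4 → Fin n,
    StrictMono f ∧ (f 1).val = (f 0).val + 1 ∧ T σ (g (f 0)) (g (f 1)) ∧ g (f 2) < g (f 3) ∧
      g (f 3) < g (f 0) ∧ g (f 3) < g (f 1) := by
  have : Ok σ (0 :: ofFn g) ↔ Ok σ (ofFn g) := by
    cases ofFn g <;> simp [Ok, NA]
  rw [this, ok_iff]
  simp only [length_ofFn, List.getElem_ofFn]
  constructor
  · rintro h ⟨f, hf, e, h1, h2, h3, h4⟩
    have e' : ∀ p, (⟨(f 0).val + 1, p⟩ : Fin n) = f 1 := fun _ => Fin.ext e.symm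
    refine h (f 0) (f 2) (f 3) (f 3).2 (e ▸ hf (by decide : (1 : Fin 4) < 2))
      (hf (by decide : (2 : Fin 4) < 3)) ?_ h2 h3 ?_ <;> rwa [e']
  · intro h i j k hk h1 h2 h3 h4 h5 h6
    refine h ⟨![⟨i, by omega⟩, ⟨i + 1, by omega⟩, ⟨j, by omega⟩, ⟨k, hk⟩], ?_, rfl, h3, h4, h5, h6⟩
    rw [Fin.strictMono_iff_lt_succ]
    intro x
    fin_cases x <;> simp [Fin.lt_def, h1, h2]

lemma ct_ofFn (σ : Bool) : ∀ (n : ℕ) (g : Fin n → ℕ), ct σ (ofFn g) =
    Nat.card {i : Fin n // ∃ j : Fin n, j.val = i.val + 1 ∧ T σ (g j) (g i)}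
  | 0, g => by simp [ct]
  | 1, g => by simp [ct]
  | n + 2, g => by
    classical
    have ih := ct_ofFn σ (n + 1) fun i => g i.succ
    rw [Pc.card_succ, ofFn_succ, ofFn_succ, ct, ← ofFn_succ (f := fun i => g i.succ), ih]
    congr 1
    · congr 1
      simp [Fin.exists_fin_succ]
    · refine Nat.card_congr (Equiv.subtypeEquivRight fun i => ?_)
      rw [Fin.exists_fin_succ (n := n + 1)]
      simp

lemma fl_wd {n : ℕ} {l : List ℕ} : Fl 1 n 0 l ↔ ∃ π : Equiv.Perm (Fin n), wd π = l := by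
  have e : range' 1 n = (range' 0 n).map (· + 1) := by
    rw [range'_eq_map_range, range'_eq_map_range]; simp [add_comm]
  constructor
  · rintro ⟨a1, a2, a3, -⟩
    cases l with
    | nil => simp at a1
    | cons x t =>
      obtain rfl : x = 0 := by simpa using a1
      have n0 : 0 ∉ t := count_eq_zero.1 (by simpa using a2)
      rw [filter_cons_of_neg (by simp), filter_eq_self.2 fun y hy => by
        simpa using fun e : y = 0 => n0 (e ▸ hy)] at a3
      obtain ⟨π, hπ⟩ := Pc.exists_word (n := n) (w := t.map Nat.pred) (by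
        have := a3.map Nat.pred
        rw [e, map_map] at this
        simpa [Function.comp_def] using this)
      refine ⟨π, ?_⟩
      rw [wd_eq, hπ, map_map]
      congr 1
      refine (map_congr_left fun y hy => ?_).trans (map_id t)
      have : y ≠ 0 := fun e => n0 (e ▸ hy)
      simp; omega
  · rintro ⟨π, rfl⟩
    refine ⟨rfl, by simp [wd, count_eq_zero, mem_ofFn], ?_, ?_⟩
    · rw [wd_eq, filter_cons_of_neg (by simp), filter_eq_self.2 (by simp), e]
      exact (Pc.word_perm π).map _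
    · refine Pairwise.isChain ?_
      rw [wd_eq, pairwise_cons, pairwise_map]
      exact ⟨by simp [Z], pairwise_of_forall (by simp [Z])⟩

open Classical in
lemma V_eq {R : Type} [CommRing R] (q : R) (σ : Bool) (n : ℕ) : V q σ n 1 0 0 =
    ∑ π ∈ Finset.univ.filter (fun π : Equiv.Perm (Fin n) => Ok σ (wd π)), q ^ ct σ (wd π) := by
  have inj : Function.Injective (wd (n := n)) := fun π ρ e => by
    have := ofFn_injective (cons.inj e).2
    exact Equiv.ext fun i => Fin.ext (by simpa using congrFun this i)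
  rw [V, ← sum_toFinset _ (enum_nodup (stepV σ) n 1 0 0 one_pos le_rfl),
    ← Finset.sum_image (f := fun l => q ^ ct σ l) (inj.injOn)]
  congr 1
  ext l
  simp only [mem_toFinset, mem_enum (stepV σ) n 1 0 0 l one_pos le_rfl, fl_wd, Finset.mem_image,
    Finset.mem_filter, Finset.mem_univ, true_and, Phi]
  exact ⟨fun ⟨⟨π, e⟩, h, _⟩ => ⟨π, e ▸ h, e⟩, fun ⟨π, h, e⟩ => ⟨⟨π, e⟩, e ▸ h,
    e ▸ fr_0.2 (Or.inl rfl)⟩⟩

lemma true_side (n : ℕ) : V Polynomial.X true n 1 0 0 = desPoly ![3, 4, 1, 2] n := by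
  classical
  rw [V_eq, desPoly]
  refine Finset.sum_congr (Finset.filter_congr fun π _ => ?_) fun π _ => ?_
  · rw [wd, ok_ofFn]
    refine not_congr (exists_congr fun f => and_congr_right fun _ => and_congr_right fun _ => ?_)
    simp only [T, if_true]
    refine ⟨fun h x y => ?_, fun h => ⟨by simpa using (h 0 1).2 (by simp),
      by simpa using (h 2 3).2 (by simp), by simpa using (h 3 0).2 (by simp),
      by simpa using (h 3 1).2 (by simp)⟩⟩
    rw [Fin.lt_def]
    fin_cases x <;> fin_cases y <;> simp [-Fin.val_fin_lt, -Fin.val_fin_le] <;> omega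
  · have : ct true (wd π) = ct true (ofFn fun i => (π i).val + 1) := by
      rw [wd]; cases (ofFn fun i => (π i).val + 1) <;> simp [ct, T]
    rw [this, ct_ofFn, des]
    simp [T]

lemma false_side (n : ℕ) :
    V Polynomial.X false (n + 1) 1 0 0 = Polynomial.X * desPoly ![1, 2, 4, 3] (n + 1) := by
  rw [V_eq, desPoly, Finset.mul_sum]
  refine Finset.sum_bijective (Fin.revPerm * ·) (Equiv.mulLeft _).bijective (fun π => ?_)
    fun π _ => ?_
  · simp only [Finset.mem_filter, Finset.mem_univ, true_and]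
    rw [wd, ok_ofFn]
    refine not_congr (exists_congr fun f => and_congr_right fun _ => and_congr_right fun _ => ?_)
    simp only [T, Bool.false_eq_true, if_false, Equiv.Perm.mul_apply, Fin.revPerm_apply,
      Fin.rev_lt_rev]
    refine ⟨fun h x y => ?_, fun h => ⟨by simpa using (h 0 1).2 (by simp),
      by simpa using (h 3 2).2 (by simp), by simpa using (h 0 3).2 (by simp),
      by simpa using (h 1 3).2 (by simp)⟩⟩
    rw [Fin.lt_def]
    fin_cases x <;> fin_cases y <;> simp [-Fin.val_fin_lt, -Fin.val_fin_le] <;> omega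
  · have : ct false (wd π) = 1 + ct false (ofFn fun i => (π i).val + 1) := by
      rw [wd, ofFn_succ]; simp [ct, T]
    rw [this, ct_ofFn, des, pow_add, pow_one]
    simp [T]

theorem main (n : ℕ) (hn : 1 ≤ n) : desPoly ![1, 2, 4, 3] n = desPoly ![3, 4, 1, 2] n := by
  obtain ⟨n, rfl⟩ : ∃ m, n = m + 1 := ⟨n - 1, by omega⟩
  have := fin (Polynomial.X : Polynomial ℤ) n
  rw [false_side, true_side] at this
  exact mul_left_cancel₀ Polynomial.X_ne_zero this

end Pool.Agent.H8.Gs
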