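import Mathlib

/-! An explicit family of analytic hedgehogs and the Hessians of their support functions. -/

namespace Pool.Agent.H8.Hedge
open Real Filter Topology

abbrev V := EuclideanSpace ℝ (Fin 3)

def Q (x : V) : ℝ := 4 * x 0 ^ 2 + x 1 ^ 2 + 3 * x 2 ^ 2
noncomputable def r (x : V) : ℝ := √(Q x)
noncomputable def l (x : V) : ℝ := log (r x + x 2) - log (r x - x 2)
noncomputable def H (c : ℝ) (x : V) : ℝ := 2 * r x - 3 / 2 * (x 2 * l x) -
  x 2 ^ 2 * r x / (r x ^ 2 - x 2 ^ 2) + c * ((4 * x 0 ^ 2 - x 1 ^ 2) / r x)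
def q (x v : V) : ℝ := 4 * x 0 * v 0 + x 1 * v 1 + 3 * x 2 * v 2
def p (x v : V) : ℝ := 8 * x 0 * v 0 - 2 * x 1 * v 1
noncomputable def G (c : ℝ) (w x : V) : ℝ := 2 * r x ^ 3 / (r x ^ 2 - x 2 ^ 2) ^ 2 * q x w -
  (3 / 2 * l x + 5 * x 2 * r x / (r x ^ 2 - x 2 ^ 2) +
    2 * x 2 ^ 3 * r x / (r x ^ 2 - x 2 ^ 2) ^ 2) * w 2 +
  c * (p x w / r x - (4 * x 0 ^ 2 - x 1 ^ 2) * q x w / r x ^ 3)
noncomputable def M (c : ℝ) (x v w : V) : ℝ := 2 * r x / (r x ^ 2 - x 2 ^ 2) ^ 3 *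
  ((r x ^ 2 - x 2 ^ 2) * (r x ^ 2 * q v w - q x v * q x w) -
    4 * (x 2 * q x v - r x ^ 2 * v 2) * (x 2 * q x w - r x ^ 2 * w 2)) +
  c / r x ^ 5 * ((r x ^ 2) ^ 2 * p v w - r x ^ 2 * (p x w * q x v + p x v * q x w) -
    (4 * x 0 ^ 2 - x 1 ^ 2) * (r x ^ 2 * q v w - 3 * q x v * q x w))

lemma Q0 (x : V) : 0 ≤ Q x := by unfold Q; positivity
lemma r2 (x : V) : r x ^ 2 = Q x := sq_sqrt (Q0 x)

lemma Qpos {x : V} (h : x ≠ 0) : 0 < Q x := by
  refine (Q0 x).lt_of_ne fun e => h ?_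
  unfold Q at e
  ext i
  fin_cases i <;> simp <;> nlinarith [sq_nonneg (x 0), sq_nonneg (x 1), sq_nonneg (x 2)]

lemma facts {x : V} (h : x ≠ 0) : 0 < r x ∧ 1.7 * |x 2| ≤ r x ∧ 0 < r x + x 2 ∧ 0 < r x - x 2 ∧
    0 < r x ^ 2 - x 2 ^ 2 := by
  have a := sqrt_pos.2 (Qpos h)
  have b : 1.7 * |x 2| ≤ r x := le_sqrt_of_sq_le (by
    unfold Q; rw [mul_pow, sq_abs]; nlinarith [sq_nonneg (x 0), sq_nonneg (x 1), sq_nonneg (x 2)])
  have c : 0 < r x + x 2 := by change 0 < r x at a; linarith [neg_abs_le (x 2), abs_nonneg (x 2)]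
  have d : 0 < r x - x 2 := by change 0 < r x at a; linarith [le_abs_self (x 2), abs_nonneg (x 2)]
  exact ⟨a, b, c, d, by nlinarith⟩

lemma an (c : ℝ) {x : V} (h : x ≠ 0) : AnalyticAt ℝ (H c) x := by
  obtain ⟨a, -, b, d, e⟩ := facts h
  have X : ∀ i, AnalyticAt ℝ (fun y : V => y i) x := fun i =>
    (EuclideanSpace.proj (𝕜 := ℝ) i).analyticAt x
  have hQ : AnalyticAt ℝ Q x := by
    have := X 0; have := X 1; have := X 2
    unfold Q; fun_prop
  have hr : AnalyticAt ℝ r x := by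
    refine ((analyticAt_rexp.comp ((AnalyticAt.comp (f := Q) (analyticAt_log (Qpos h)) hQ).div_const (c := 2)))).congr ?_
    filter_upwards [isOpen_ne.mem_nhds h] with y hy
    rw [r, sqrt_eq_rpow, rpow_def_of_pos (Qpos hy)]; simp [div_eq_mul_inv]
  have hl : AnalyticAt ℝ l x := (AnalyticAt.comp (f := fun y => r y + y 2) (analyticAt_log b)
    (hr.add (X 2))).sub (AnalyticAt.comp (f := fun y => r y - y 2) (analyticAt_log d) (hr.sub (X 2)))
  exact (((analyticAt_const.mul hr).sub (analyticAt_const.mul ((X 2).mul hl))).sub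
    ((((X 2).pow 2).mul hr).div ((hr.pow 2).sub ((X 2).pow 2)) e.ne')).add (analyticAt_const.mul
      (((analyticAt_const.mul ((X 0).pow 2)).sub ((X 1).pow 2)).div hr a.ne'))

lemma dir {f : V → ℝ} {x v : V} {d : ℝ} (h : DifferentiableAt ℝ f x)
    (h' : HasDerivAt (fun t : ℝ => f (x + t • v)) d 0) : fderiv ℝ f x v = d := by
  have := h.hasFDerivAt.comp_hasDerivAt_of_eq (0 : ℝ)
    (((hasDerivAt_id' (0 : ℝ)).smul_const v).const_add x) (by simp)
  simpa using this.unique h'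

lemma basic {x : V} (h : x ≠ 0) (v : V) :
    (∀ i, HasDerivAt (fun t : ℝ => (x + t • v) i) (v i) 0) ∧
    HasDerivAt (fun t : ℝ => r (x + t • v)) (q x v / r x) 0 ∧
    HasDerivAt (fun t : ℝ => l (x + t • v))
      (2 * (r x * v 2 - x 2 * (q x v / r x)) / (r x ^ 2 - x 2 ^ 2)) 0 := by
  obtain ⟨a, -, b, d, e⟩ := facts h
  have X : ∀ i, HasDerivAt (fun t : ℝ => (x + t • v) i) (v i) 0 := fun i => by
    simpa using ((hasDerivAt_id' (0 : ℝ)).mul_const (v i)).const_add (x i)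
  have R : HasDerivAt (fun t : ℝ => r (x + t • v)) (q x v / r x) 0 :=
    ((((((X 0).pow 2).const_mul 4).add ((X 1).pow 2)).add (((X 2).pow 2).const_mul 3)).sqrt
      (by simpa [Q] using (Qpos h).ne')).congr_deriv (by
        simp only [Pi.add_apply, Pi.pow_apply, zero_smul, add_zero]
        change _ / (2 * r x) = _
        simp only [q]; field_simp; norm_num; ring)
  refine ⟨X, R, (((R.add (X 2)).log (by simpa using b.ne')).sub
    ((R.sub (X 2)).log (by simpa using d.ne'))).congr_deriv ?_⟩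
  simp only [Pi.add_apply, Pi.sub_apply, zero_smul, add_zero]
  rw [show r x ^ 2 - x 2 ^ 2 = (r x + x 2) * (r x - x 2) by ring]
  field_simp; ring

lemma D1 (c : ℝ) {x : V} (h : x ≠ 0) (v : V) : fderiv ℝ (H c) x v = G c v x := by
  obtain ⟨a, -, -, -, e⟩ := facts h
  obtain ⟨X, R, L⟩ := basic h v
  refine dir (an c h).differentiableAt (((((R.const_mul 2).sub (((X 2).mul L).const_mul _)).sub
    ((((X 2).pow 2).mul R).div ((R.pow 2).sub ((X 2).pow 2)) (by simpa using e.ne'))).add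
    ((((((X 0).pow 2).const_mul 4).sub ((X 1).pow 2)).div R (by simpa using a.ne')).const_mul
      c)).congr_deriv ?_)
  simp only [Pi.mul_apply, Pi.sub_apply, Pi.pow_apply, zero_smul, add_zero, G, p]
  field_simp; norm_num; ring

lemma D2 (c : ℝ) {x : V} (h : x ≠ 0) (v w : V) :
    fderiv ℝ (fderiv ℝ (H c)) x v w = M c x v w := by
  obtain ⟨a, -, -, -, e⟩ := facts h
  obtain ⟨X, R, L⟩ := basic h v
  have h1 := (an c h).fderiv.differentiableAt
  have h2 : (fun y => fderiv ℝ (H c) y w) =ᶠ[𝓝 x] G c w := by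
    filter_upwards [isOpen_ne.mem_nhds h] with y hy using D1 c hy w
  have h3 := fderiv_clm_apply h1 (differentiableAt_const w)
  have h4 : fderiv ℝ (fderiv ℝ (H c)) x v w = fderiv ℝ (G c w) x v := by
    rw [← h2.fderiv_eq, h3]; simp
  have W := (R.pow 2).sub ((X 2).pow 2)
  have e1 : (((fun t : ℝ => r (x + t • v)) ^ 2 - (fun t : ℝ => (x + t • v) 2) ^ 2) : ℝ → ℝ) 0 ≠ 0 := by
    simpa using e.ne'
  have hq : HasDerivAt (fun t : ℝ => q (x + t • v) w) (q v w) 0 :=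
    ((((X 0).const_mul 4).mul_const _).add ((X 1).mul_const _)).add
      (((X 2).const_mul 3).mul_const _)
  have hp : HasDerivAt (fun t : ℝ => p (x + t • v) w) (p v w) 0 :=
    (((X 0).const_mul 8).mul_const _).sub (((X 1).const_mul 2).mul_const _)
  rw [h4]
  refine dir ((h1.clm_apply (differentiableAt_const w)).congr_of_eventuallyEq h2.symm)
    (((((((R.pow 3).const_mul 2).div (W.pow 2) (pow_ne_zero 2 e1)).mul hq).sub
      ((((L.const_mul _).add ((((X 2).const_mul 5).mul R).div W e1)).add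
        (((((X 2).pow 3).const_mul 2).mul R).div (W.pow 2) (pow_ne_zero 2 e1))).mul_const _)).add
      (((hp.div R (by simpa using a.ne')).sub ((((((X 0).pow 2).const_mul 4).sub
        ((X 1).pow 2)).mul hq).div (R.pow 3) (by simpa using a.ne'))).const_mul c)).congr_deriv ?_)
  simp only [Pi.mul_apply, Pi.sub_apply, Pi.pow_apply, zero_smul, add_zero, M]
  rw [show p x v = 8 * x 0 * v 0 - 2 * x 1 * v 1 from rfl]
  have e' := e.ne'
  have a' := a.ne'
  norm_num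
  generalize r x = ρ at *
  field_simp
  ring

lemma hom (k : ℝ) (x : V) (c : ℝ) (hc : 0 < c) : H k (c • x) = c * H k x := by
  by_cases h : x = 0
  · simp [h, H, r, Q]
  obtain ⟨a, -, b, d, e⟩ := facts h
  have h1 : r (c • x) = c * r x := by
    rw [r, show Q (c • x) = c ^ 2 * Q x by simp [Q]; ring, sqrt_mul (by positivity),
      sqrt_sq hc.le, r]
  simp only [H, l, h1, PiLp.smul_apply, smul_eq_mul]
  rw [← mul_add, ← mul_sub c, log_mul hc.ne' b.ne', log_mul hc.ne' d.ne',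
    show (c * r x) ^ 2 - (c * x 2) ^ 2 = c ^ 2 * (r x ^ 2 - x 2 ^ 2) by ring]
  field_simp; ring

lemma even (k : ℝ) (x : V) : H k (-x) = H k x := by
  have : r (-x) = r x := by simp [r, Q]
  simp only [H, l, this, PiLp.neg_apply, sub_neg_eq_add, ← sub_eq_add_neg]; ring

lemma bound {x : V} (h : ‖x‖ = 1) : |H (-1) x| < 6 := by
  have h0 : x ≠ 0 := by rintro rfl; simp at h
  obtain ⟨a, f, b, d, e⟩ := facts h0
  have n : x 0 ^ 2 + x 1 ^ 2 + x 2 ^ 2 = 1 := by
    simpa [h, Fin.sum_univ_three] using (EuclideanSpace.real_norm_sq_eq x).symm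
  have q := r2 x
  unfold Q at q
  have r1 : 1 ≤ r x := by nlinarith [sq_nonneg (x 0), sq_nonneg (x 2)]
  have r3 : r x ≤ 2 := by nlinarith [sq_nonneg (x 1), sq_nonneg (x 2)]
  have key : ∀ z : ℝ, 0 ≤ z → 1.7 * z ≤ r x → z ^ 2 ≤ 1 →
      0 ≤ z * (log (r x + z) - log (r x - z)) ∧ z * (log (r x + z) - log (r x - z)) ≤ 3 := by
    intro z z0 z1 z2
    have d : 0 < r x - z := by linarith
    refine ⟨mul_nonneg z0 (sub_nonneg.2 (log_le_log d (by linarith))), ?_⟩
    rw [← log_div (by linarith) d.ne']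
    refine (mul_le_mul_of_nonneg_left (log_le_sub_one_of_pos (by positivity)) z0).trans ?_
    rw [div_sub_one d.ne', ← mul_div_assoc, div_le_iff₀ d]; nlinarith
  have t : 0 ≤ x 2 * l x ∧ x 2 * l x ≤ 3 := by
    have := key _ (abs_nonneg _) f (by rw [sq_abs]; nlinarith [sq_nonneg (x 0), sq_nonneg (x 1)])
    rcases abs_cases (x 2) with g | g <;> rw [g.1] at this
    · exact this
    · rw [sub_neg_eq_add, ← sub_eq_add_neg] at this
      unfold l; constructor <;> linarith [this.1, this.2]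
  have s1 : 0 ≤ x 2 ^ 2 * r x / (r x ^ 2 - x 2 ^ 2) := by positivity
  have s2 : x 2 ^ 2 * r x / (r x ^ 2 - x 2 ^ 2) ≤ 1 := by
    rw [div_le_one e]; nlinarith [sq_nonneg (x 0), sq_nonneg (x 1), sq_nonneg (x 2)]
  have s3 : (4 * x 0 ^ 2 - x 1 ^ 2) / r x ≤ 2 := by
    rw [div_le_iff₀ a]; nlinarith [sq_nonneg (x 1), sq_nonneg (x 2)]
  have s4 : -1 ≤ (4 * x 0 ^ 2 - x 1 ^ 2) / r x := by
    rw [le_div_iff₀ a]; nlinarith [sq_nonneg (x 0), sq_nonneg (x 2)]
  rw [H, abs_lt]; constructor <;> linarith [t.1, t.2]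

end Pool.Agent.H8.Hedge
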