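import Mathlib

/-! Piecewise linear paths on the honeycomb and their refinement. -/

namespace Pool.Agent.H8.Hex
open Complex Set Filter Topology Metric

noncomputable def om : ℂ := exp (((Real.pi / 3 : ℝ) : ℂ) * I)

lemma om_re : om.re = 1 / 2 := by rw [om, exp_ofReal_mul_I_re, Real.cos_pi_div_three]
lemma om_im : om.im = √3 / 2 := by rw [om, exp_ofReal_mul_I_im, Real.sin_pi_div_three]
lemma s3 : √3 * √3 = (3 : ℝ) := Real.mul_self_sqrt (by norm_num)
lemma om_sq : om ^ 2 = om - 1 := by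
  apply Complex.ext <;> simp [sq, om_re, om_im] <;> nlinarith [s3]
lemma om_norm : ‖om‖ = 1 := norm_exp_ofReal_mul_I _
lemma om_ne : om ≠ 0 := exp_ne_zero _
lemma om_conj : (starRingEnd ℂ) om = om⁻¹ := by
  rw [Complex.inv_def, normSq_eq_norm_sq, om_norm]; simp
lemma nsq (x y : ℝ) : ‖(x + y * om : ℂ)‖ ^ 2 = x ^ 2 + x * y + y ^ 2 := by
  rw [Complex.sq_norm, normSq_apply]; simp [om_re, om_im]; nlinarith [s3]
lemma zn (k : ℤ) : ‖om ^ k‖ = 1 := by rw [norm_zpow, om_norm, one_zpow]

section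
variable {E : Type} [NormedAddCommGroup E] [NormedSpace ℝ E]

noncomputable def lin (f : ℤ → E) (t : ℝ) : E := f ⌊t⌋ + (t - ⌊t⌋) • (f (⌊t⌋ + 1) - f ⌊t⌋)

lemma lin_eq (f : ℤ → E) (m : ℤ) {t : ℝ} (h1 : m ≤ t) (h2 : t ≤ m + 1) :
    lin f t = f m + (t - m) • (f (m + 1) - f m) := by
  rcases h2.lt_or_eq with h | h
  · rw [lin, Int.floor_eq_iff.2 ⟨h1, h⟩]
  · have : ⌊t⌋ = m + 1 := by rw [h]; exact_mod_cast Int.floor_intCast (R := ℝ) (m + 1)
    rw [lin, this, h]; simp

lemma lin_int (f : ℤ → E) (m : ℤ) : lin f m = f m := by simp [lin]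

lemma lin_cont (f : ℤ → E) : Continuous (lin f) := by
  have h : ∀ m : ℤ, ContinuousOn (lin f) (Icc m (m + 1)) := fun m =>
    ContinuousOn.congr (f := fun t : ℝ => f m + (t - m) • (f (m + 1) - f m)) (by fun_prop)
      fun t ht => lin_eq f m ht.1 ht.2
  refine continuous_iff_continuousAt.2 fun x => ?_
  have := (h (⌊x⌋ - 1)).union_of_isClosed (h ⌊x⌋) isClosed_Icc isClosed_Icc
  push_cast at this
  rw [sub_add_cancel, Icc_union_Icc_eq_Icc (by linarith) (by linarith)] at this
  exact this.continuousAt (Icc_mem_nhds (by linarith [Int.floor_le x]) (Int.lt_floor_add_one x))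

lemma lin_der (f : ℤ → E) (t : ℝ) :
    HasDerivWithinAt (lin f) (f (⌊t⌋ + 1) - f ⌊t⌋) (Ici t) t := by
  have h : HasDerivAt (fun s : ℝ => f ⌊t⌋ + (s - ⌊t⌋) • (f (⌊t⌋ + 1) - f ⌊t⌋))
      (f (⌊t⌋ + 1) - f ⌊t⌋) t := by
    simpa using (((hasDerivAt_id' t).sub_const (⌊t⌋ : ℝ)).smul_const _).const_add (f ⌊t⌋)
  refine h.hasDerivWithinAt.congr_of_eventuallyEq ?_ rfl
  filter_upwards [Icc_mem_nhdsGE (Int.lt_floor_add_one t)] with s hs
  exact lin_eq f _ ((Int.floor_le t).trans hs.1) hs.2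

lemma lin_bd (f : ℤ → E) {C : ℝ} (h : ∀ m, ‖f m‖ ≤ C) (t : ℝ) : ‖lin f t‖ ≤ C := by
  have := (convex_closedBall (0 : E) C) (mem_closedBall_zero_iff.2 (h ⌊t⌋))
    (mem_closedBall_zero_iff.2 (h (⌊t⌋ + 1))) (a := 1 - (t - ⌊t⌋)) (b := t - ⌊t⌋)
    (by linarith [Int.lt_floor_add_one t]) (by linarith [Int.floor_le t]) (by ring)
  rw [mem_closedBall_zero_iff] at this
  refine le_of_eq_of_le (congrArg _ ?_) this
  rw [lin]; module

lemma lin_rev (f : ℤ → E) (c : ℤ) (t : ℝ) : lin f (c - t) =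
    f (c - ⌊t⌋) + (t - ⌊t⌋) • (f (c - (⌊t⌋ + 1)) - f (c - ⌊t⌋)) := by
  rw [lin_eq f (c - (⌊t⌋ + 1)) (by push_cast; linarith [Int.lt_floor_add_one t])
    (by push_cast; linarith [Int.floor_le t]), show c - (⌊t⌋ + 1) + 1 = c - ⌊t⌋ by ring]
  push_cast; module

lemma lin_rev' (f : ℤ → E) {q : ℤ} (C : E) (h : ∀ k, 0 ≤ k → k ≤ q → f (q - k) = C - f k) {s : ℝ}
    (h0 : 0 ≤ s) (h1 : s ≤ q) : lin f (q - s) = C - lin f s := by
  rcases h1.lt_or_eq with h1 | rfl
  · have a0 : 0 ≤ ⌊s⌋ := Int.floor_nonneg.2 h0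
    have a1 : ⌊s⌋ < q := Int.floor_lt.2 h1
    rw [lin_rev, h _ a0 a1.le, h _ (by omega) (by omega), lin]; module
  · have : 0 ≤ q := by exact_mod_cast h0
    rw [lin_int, ← Int.cast_sub, lin_int, h q this le_rfl]
end

lemma lin_slope (T : ℤ → ℝ) {W N : ℝ} (h : ∀ k, W ≤ T (k + 1) - T k ∧ T (k + 1) - T k ≤ N)
    {s s' : ℝ} (hs : s ≤ s') :
    W * (s' - s) ≤ lin T s' - lin T s ∧ lin T s' - lin T s ≤ N * (s' - s) := by
  have d : ∀ C x : ℝ, HasDerivWithinAt (fun x => lin T s + C * (x - s)) C (Ici x) x := fun C x => by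
    simpa using ((((hasDerivAt_id' x).sub_const s).const_mul C).const_add
      (lin T s)).hasDerivWithinAt
  have a := image_le_of_deriv_right_le_deriv_boundary (a := s) (b := s') (by fun_prop)
    (fun x _ => d W x) (by simp) (lin_cont T).continuousOn (fun x _ => lin_der T x)
    (fun x _ => (h _).1) (right_mem_Icc.2 hs)
  have b := image_le_of_deriv_right_le_deriv_boundary (a := s) (b := s')
    (lin_cont T).continuousOn (fun x _ => lin_der T x) (by simp) (by fun_prop) (fun x _ => d N x)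
    (fun x _ => (h _).2) (right_mem_Icc.2 hs)
  constructor <;> linarith

section
variable {G : Type} [AddCommGroup G]

def ps (f : ℤ → G) (k : ℤ) : G :=
  ∑ i ∈ Finset.range k.toNat, f i - ∑ i ∈ Finset.range (-k).toNat, f (-i - 1)

lemma ps_zero (f : ℤ → G) : ps f 0 = 0 := by simp [ps]

lemma ps_succ (f : ℤ → G) (k : ℤ) : ps f (k + 1) = ps f k + f k := by
  unfold ps
  rcases le_or_gt 0 k with h | h
  · rw [show (k + 1).toNat = k.toNat + 1 by omega, show (-(k + 1)).toNat = 0 by omega,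
      show (-k).toNat = 0 by omega, Finset.sum_range_succ, Int.toNat_of_nonneg h]; abel
  · rw [show (k + 1).toNat = 0 by omega, show k.toNat = 0 by omega,
      show (-k).toNat = (-(k + 1)).toNat + 1 by omega, Finset.sum_range_succ,
      show -(((-(k + 1)).toNat : ℕ) : ℤ) - 1 = k by omega]; abel

lemma const_of (F : ℤ → G) (h : ∀ k, F (k + 1) = F k) (k : ℤ) : F k = F 0 := by
  induction k using Int.induction_on with
  | zero => rfl
  | succ k ih => rw [h, ih]
  | pred k ih => rw [← h, sub_add_cancel, ih]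
end

structure Wd where
  q : ℤ
  c : ℤ
  e : ℤ
  d : ℤ → ℤ
  hq : 1 ≤ q
  step : ∀ i, d (i + 1) = d i + 1 ∨ d (i + 1) = d i - 1
  per : ∀ i, d (i + q) = d i + 1
  sym : ∀ i, 0 ≤ i → i < q → d (q - 1 - i) = d i
  mir : ∀ i, d (c - i) = e - d i
  d0 : d 0 = 0
  d1 : d 1 = 1

lemma refine (w : Wd) (b : ℕ) : ∃ (w' : Wd) (J : ℤ → ℤ), J 0 = 0 ∧ J w.q = w'.q ∧
    (∀ k, 2 * b + 1 ≤ J (k + 1) - J k ∧ J (k + 1) - J k ≤ 2 * b + 2) ∧
    (∀ k, 0 < k → k < w.q → J (w.q - k) = w'.q - 1 - J k) ∧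
    ∀ k j, J k ≤ j → j ≤ J (k + 1) → w'.d j = w.d k + (w.d k + j) % 2 := by
  obtain ⟨q, c, e, d, hq, step, per, sym, mir, d0, d1⟩ := w
  dsimp only
  let r : ℤ → ℤ := fun k => 2 * b + 1 + if d (k + 1) = d (k - 1) then 1 else 0
  have hJ : ∀ k, ps r (k + 1) = ps r k + r k := ps_succ r
  have J0 : ps r 0 = 0 := ps_zero r
  generalize ps r = J at hJ J0
  have hr : ∀ k, 2 * b + 1 ≤ J (k + 1) - J k ∧ J (k + 1) - J k ≤ 2 * b + 2 := fun k => by
    rw [hJ]; simp only [r]; split_ifs <;> omega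
  have mono : StrictMono J := strictMono_int_of_lt_succ fun k => by have := hr k; omega
  have dq : d (q - 1) = 0 := by simpa [d0] using sym 0 le_rfl (by omega)
  have dm : d (-1) = -1 := by have := per (-1); rw [show -1 + q = q - 1 by ring] at this; omega
  have par : ∀ k, (J k + max (d (k - 1)) (d k)) % 2 = 0 := fun k => by
    rw [const_of (fun k => (J k + max (d (k - 1)) (d k)) % 2) (fun k => ?_) k]
    · simp [J0, d0, dm]
    · have a := step k
      have a' := step (k - 1)
      rw [sub_add_cancel] at a'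
      simp only [hJ, r, add_sub_cancel_right]
      split_ifs <;> omega
  have ex : ∀ j, ∃ k, J k ≤ j ∧ j < J (k + 1) := fun j => by
    induction j using Int.induction_on with
    | zero => exact ⟨0, J0.le, by have := hr 0; omega⟩
    | succ j ih =>
      obtain ⟨k, h1, h2⟩ := ih
      by_cases h : (j : ℤ) + 1 < J (k + 1)
      · exact ⟨k, by omega, h⟩
      · exact ⟨k + 1, by omega, by have := hr (k + 1); omega⟩
    | pred j ih =>
      obtain ⟨k, h1, h2⟩ := ih
      by_cases h : J k ≤ -(j : ℤ) - 1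
      · exact ⟨k, h, by omega⟩
      · have := hr (k - 1)
        rw [sub_add_cancel] at this
        exact ⟨k - 1, by omega, by rw [sub_add_cancel]; omega⟩
  choose κ k1 k2 using ex
  have uq : ∀ k j, J k ≤ j → j < J (k + 1) → κ j = k := fun k j h1 h2 => by
    have a := mono.lt_iff_lt.1 (h1.trans_lt (k2 j))
    have a' := mono.lt_iff_lt.1 ((k1 j).trans_lt h2)
    omega
  obtain ⟨d', hd⟩ : ∃ d' : ℤ → ℤ, ∀ k j, J k ≤ j → j ≤ J (k + 1) →
      d' j = d k + (d k + j) % 2 := by
    refine ⟨fun j => d (κ j) + (d (κ j) + j) % 2, fun k j h1 h2 => ?_⟩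
    rcases h2.lt_or_eq with h | h
    · simp only [uq k j h1 h]
    · have a := par (k + 1)
      have a' := step k
      rw [add_sub_cancel_right] at a
      simp only [uq (k + 1) j h.ge (h ▸ mono (lt_add_one _))]
      omega
  have dq' : d q = 1 := by simpa [d0] using per 0
  have qodd : J q % 2 = 1 := by have := par q; omega
  have Jper : ∀ k, J (k + q) = J k + J q := fun k => by
    have := const_of (fun k => J (k + q) - J k) (fun k => by
      have a := per (k + 1)
      have a' := per (k - 1)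
      simp only [show k + 1 + q = k + q + 1 by ring, show k - 1 + q = k + q - 1 by ring] at a a' ⊢
      simp only [hJ, r, a, a']
      split_ifs <;> omega) k
    simp only [zero_add] at this; omega
  have Jmir : ∀ k, J (c + 1 - k) + J k = J (c + 1) := fun k => by
    have := const_of (fun k => J (c + 1 - k) + J k) (fun k => by
      have a := mir (k + 1)
      have a' := mir (k - 1)
      have a'' := hJ (c - k)
      simp only [show c + 1 - (k + 1) = c - k by ring, show c + 1 - k = c - k + 1 by ring,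
        show c - (k + 1) = c - k - 1 by ring, show c - (k - 1) = c - k + 1 by ring] at a a' ⊢
      simp only [hJ, r, a, a']
      split_ifs <;> omega) k
    simpa [J0] using this
  have Jsym : ∀ k, 0 < k → k < q → J (q - k) = J q - 1 - J k := by
    intro k hk
    induction k, hk using Int.le_induction with
    | base =>
      intro h
      have a := hJ (q - 1)
      have a' := hJ 0
      have a'' := sym 1 (by omega) (by omega)
      simp only [r, sub_add_cancel, zero_add, zero_sub, dq', a'', d1, dm] at a a' ⊢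
      simp at a a'; omega
    | succ k hk ih =>
      intro h
      have a := hJ (q - (k + 1))
      have a' := sym (k + 1) (by omega) h
      have a'' := sym (k - 1) (by omega) (by omega)
      have ih := ih (by omega)
      simp only [r, show q - (k + 1) + 1 = q - k by ring, show q - 1 - (k - 1) = q - k by ring,
        show q - (k + 1) - 1 = q - 1 - (k + 1) by ring] at a a' a''
      rw [a', a''] at a
      simp only [hJ, r]
      split_ifs at a ⊢ <;> omega
  have Js : ∀ k, 0 ≤ k → k ≤ q → J q - 1 ≤ J k + J (q - k) ∧ J k + J (q - k) ≤ J q := by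
    intro k h1 h2
    rcases h1.eq_or_lt with rfl | h1
    · simp [J0]
    rcases h2.eq_or_lt with rfl | h2
    · simp [J0]
    have := Jsym k h1 h2; omega
  have q1 : 1 ≤ J q := by have := mono (show 0 < q by omega); omega
  refine ⟨⟨J q, J (c + 1), e + 1, d', q1, fun j => ?_, fun j => ?_, fun j h1 h2 => ?_,
    fun j => ?_, ?_, ?_⟩, J, J0, rfl, hr, Jsym, hd⟩
  · rw [hd _ _ (k1 j) (k2 j).le, hd (κ j) (j + 1) (by have := k1 j; omega) (k2 j)]; omega
  · have a := k1 j
    have a' := k2 j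
    rw [hd _ _ a a'.le, hd (κ j + q) _ (by rw [Jper]; omega)
      (by rw [show κ j + q + 1 = κ j + 1 + q by ring, Jper]; omega), per]; omega
  · have a := k1 j
    have a' := k2 j
    have b0 : 0 < κ j + 1 := mono.lt_iff_lt.1 (by omega)
    have b1 : κ j < q := mono.lt_iff_lt.1 (by omega)
    have c0 := Js (κ j) (by omega) (by omega)
    have c1 := Js (κ j + 1) (by omega) (by omega)
    rw [hd _ _ a a'.le, hd (q - 1 - κ j) _ (by rw [show q - 1 - κ j = q - (κ j + 1) by ring]; omega)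
      (by rw [show q - 1 - κ j + 1 = q - κ j by ring]; omega), sym _ (by omega) b1]; omega
  · have a := k1 j
    have a' := k2 j
    have c0 := Jmir (κ j)
    have c1 := Jmir (κ j + 1)
    have c2 := par (c + 1)
    have c3 := mir 0
    have c4 := mir (-1)
    simp only [show c + 1 - (κ j + 1) = c - κ j by ring, add_sub_cancel_right, sub_zero,
      sub_neg_eq_add] at c1 c2 c3 c4
    rw [hd _ _ a a'.le, hd (c - κ j) _ (by omega)
      (by rw [show c - κ j + 1 = c + 1 - κ j by ring]; omega), mir]; omega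
  · rw [hd 0 0 J0.le (by have := hr 0; omega), d0]; rfl
  · rw [hd 0 1 (by omega) (by have := hr 0; omega), d0]; rfl

end Pool.Agent.H8.Hex
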