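import Mathlib
import Pool.Agent.H8.Hex1

/-! The path of a word, its symmetries, and the analytic refinement estimate. -/

namespace Pool.Agent.H8.Hex
open Complex Set Filter Topology Metric

namespace Wd
variable (w : Wd)

noncomputable def p : ℤ → ℂ := ps fun i => om ^ w.d i
noncomputable def P : ℝ → ℂ := lin w.p
noncomputable def D : ℂ := w.P w.q
noncomputable def Γ (s : ℝ) : ℂ := 1 + om ^ 2 * (w.P s / w.D)

lemma p_succ (k : ℤ) : w.p (k + 1) = w.p k + om ^ w.d k := ps_succ _ k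
lemma p_zero : w.p 0 = 0 := ps_zero _
lemma P_int (k : ℤ) : w.P k = w.p k := lin_int _ _
lemma P_zero : w.P 0 = 0 := by simpa [p_zero] using w.P_int 0
lemma P_cont : Continuous w.P := lin_cont _
lemma P_der (t : ℝ) : HasDerivWithinAt w.P (om ^ w.d ⌊t⌋) (Ici t) t := by
  have := lin_der w.p t
  rwa [p_succ, add_sub_cancel_left] at this
lemma P_eq (m : ℤ) {t : ℝ} (h1 : m ≤ t) (h2 : t ≤ m + 1) :
    w.P t = w.p m + (t - m) * om ^ w.d m := by
  rw [P, lin_eq _ m h1 h2, p_succ]; simp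

lemma P_sym {s : ℝ} (h0 : 0 ≤ s) (h1 : s ≤ w.q) : w.P (w.q - s) = w.D - w.P s := by
  refine lin_rev' _ _ (fun k hk => ?_) h0 h1
  induction k, hk using Int.leInduction with
  | base => simp [D, P_int, p_zero]
  | succ k hk ih =>
    intro h
    have a := w.p_succ (w.q - (k + 1))
    rw [show w.q - (k + 1) + 1 = w.q - k by ring, ih (by omega),
      show w.q - (k + 1) = w.q - 1 - k by ring, w.sym k hk (by omega)] at a
    rw [p_succ, show w.q - (k + 1) = w.q - 1 - k by ring]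
    linear_combination -a

lemma P_per (s : ℝ) : w.P (s + w.q) = w.D + om * w.P s := by
  have h : ∀ k, w.p (k + w.q) = w.D + om * w.p k := fun k => by
    have := const_of (fun k => w.p (k + w.q) - om * w.p k) (fun k => by
      simp only [show k + 1 + w.q = k + w.q + 1 by ring, p_succ, w.per, zpow_add_one₀ om_ne]
      ring) k
    simp only [zero_add, p_zero] at this
    rw [D, P_int]; linear_combination this
  rw [w.P_eq (⌊s⌋ + w.q) (by push_cast; linarith [Int.floor_le s])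
    (by push_cast; linarith [Int.lt_floor_add_one s]),
    w.P_eq ⌊s⌋ (Int.floor_le s) (Int.lt_floor_add_one s).le, h, w.per, zpow_add_one₀ om_ne]
  push_cast; ring

lemma P_mir : ∃ C, ∀ s : ℝ, w.P ((w.c + 1 : ℤ) - s) = C - om ^ w.e * (starRingEnd ℂ) (w.P s) := by
  have h : ∀ k, w.p (w.c + 1 - k) = w.p (w.c + 1) - om ^ w.e * (starRingEnd ℂ) (w.p k) :=
    fun k => by
      have := const_of (fun k => w.p (w.c + 1 - k) + om ^ w.e * (starRingEnd ℂ) (w.p k))
        (fun k => by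
          simp only [show w.c + 1 - (k + 1) = w.c - k by ring,
            show w.c + 1 - k = w.c - k + 1 by ring, p_succ, w.mir, map_add, map_zpow₀, om_conj,
            zpow_sub₀ om_ne, inv_zpow]
          ring) k
      simp only [sub_zero, p_zero, map_zero] at this
      linear_combination this
  refine ⟨w.p (w.c + 1), fun s => ?_⟩
  rw [P, lin_rev, h, h, lin]
  simp only [real_smul, map_add, map_mul, map_sub, conj_ofReal]
  ring

lemma Γ_per (hD : w.D ≠ 0) (k : ℤ) (s : ℝ) : w.Γ (s + k * w.q) = om ^ k * w.Γ s := by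
  have h : ∀ s, w.Γ (s + w.q) = om * w.Γ s := fun s => by
    rw [Γ, Γ, P_per, add_div, div_self hD]
    linear_combination om_sq
  induction k using Int.induction_on with
  | zero => simp
  | succ k ih =>
    rw [zpow_add_one₀ om_ne, mul_comm _ om, mul_assoc, ← ih, ← h]; push_cast; ring_nf
  | pred k ih =>
    apply mul_left_cancel₀ om_ne
    rw [← h, ← mul_assoc, mul_comm om, ← zpow_add_one₀ om_ne, sub_add_cancel, ← ih]
    push_cast; ring_nf

lemma Γ_mir (hD : w.D ≠ 0) : ∃ v : ℂ, ‖v‖ = 1 ∧ ∀ (k : ℤ) (s : ℝ), ∃ (k' : ℤ) (s' : ℝ),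
    0 ≤ s' ∧ s' ≤ w.q ∧ v * (starRingEnd ℂ) (om ^ k * w.Γ s) = om ^ k' * w.Γ s' := by
  obtain ⟨C, hC⟩ := w.P_mir
  have hD' : (starRingEnd ℂ) w.D ≠ 0 := by simpa using hD
  have o := om_ne
  set v := -(om ^ w.e * om ^ 4 * (starRingEnd ℂ) w.D / w.D) with hv
  have h1 : ∀ s : ℝ, w.Γ ((w.c + 1 : ℤ) - s) =
      1 + om ^ 2 * C / w.D - v + v * (starRingEnd ℂ) (w.Γ s) := fun s => by
    rw [Γ, Γ, hC, hv]
    simp only [map_add, map_mul, map_div₀, map_pow, map_one, om_conj]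
    field_simp; ring
  have h2 : 1 + om ^ 2 * C / w.D - v = 0 := by
    have a := h1 (0 + (1 : ℤ) * w.q)
    have a' := h1 0
    have a'' := w.Γ_per hD 1 (((w.c + 1 : ℤ) : ℝ) - (0 + (1 : ℤ) * w.q))
    rw [w.Γ_per hD] at a
    rw [a, show ((w.c + 1 : ℤ) : ℝ) - (0 + (1 : ℤ) * w.q) + (1 : ℤ) * w.q = (w.c + 1 : ℤ) - 0 by ring,
      a', zpow_one, map_mul, om_conj] at a''
    have : (1 - om) * (1 + om ^ 2 * C / w.D - v) = 0 := by
      have := mul_inv_cancel₀ o
      linear_combination a'' + v * (starRingEnd ℂ) (w.Γ 0) * this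
    refine (mul_eq_zero.1 this).resolve_left fun h => ?_
    have := congrArg re h
    simp [om_re] at this; norm_num at this
  refine ⟨v, by simp [hv, zn, om_norm, hD], fun k s => ?_⟩
  have q0 : (0 : ℝ) < w.q := by exact_mod_cast w.hq
  set x : ℝ := (w.c + 1 : ℤ) - (s + k * w.q)
  refine ⟨⌊x / w.q⌋, x - ⌊x / w.q⌋ * w.q, ?_, ?_, ?_⟩
  · have := (le_div_iff₀ q0).1 (Int.floor_le (x / w.q)); linarith
  · have := (div_lt_iff₀ q0).1 (Int.lt_floor_add_one (x / w.q)); linarith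
  · rw [← w.Γ_per hD, ← w.Γ_per hD, sub_add_cancel, h1, h2, zero_add]

lemma P_close {s s' : ℝ} (h1 : s ≤ s') (h2 : s' ≤ s + 1) :
    3 / 4 * (s' - s) ^ 2 ≤ ‖w.P s' - w.P s‖ ^ 2 := by
  have f1 := Int.floor_le s'
  have f2 := (Int.lt_floor_add_one s').le
  rcases le_total (⌊s'⌋ : ℝ) s with h | h
  · rw [w.P_eq _ f1 f2, w.P_eq _ h (h1.trans f2), add_sub_add_left_eq_sub, ← sub_mul, norm_mul, zn]
    norm_cast
    rw [Real.norm_eq_abs, mul_one, sq_abs]; nlinarith [sq_nonneg (s' - s)]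
  · rw [w.P_eq _ f1 f2, w.P_eq (⌊s'⌋ - 1) (by push_cast; linarith) (by push_cast; linarith)]
    have a := w.p_succ (⌊s'⌋ - 1)
    have a' := w.step (⌊s'⌋ - 1)
    rw [sub_add_cancel] at a a'
    rw [a]
    generalize ⌊s'⌋ = k at *
    rcases a' with a' | a'
    · rw [show w.p (k - 1) + om ^ w.d (k - 1) + (s' - k) * om ^ w.d k - (w.p (k - 1) +
        (s - (k - 1 : ℤ)) * om ^ w.d (k - 1)) =
        ((k - s : ℝ) + (s' - k : ℝ) * om) * om ^ w.d (k - 1) by
          rw [a', zpow_add_one₀ om_ne]; push_cast; ring, norm_mul, zn, mul_one, nsq]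
      nlinarith [sq_nonneg (k - s - (s' - k))]
    · rw [show w.p (k - 1) + om ^ w.d (k - 1) + (s' - k) * om ^ w.d k - (w.p (k - 1) +
        (s - (k - 1 : ℤ)) * om ^ w.d (k - 1)) =
        ((s' - k : ℝ) + (k - s : ℝ) * om) * om ^ w.d k by
          rw [show w.d (k - 1) = w.d k + 1 by omega, zpow_add_one₀ om_ne]; push_cast; ring,
        norm_mul, zn, mul_one, nsq]
      nlinarith [sq_nonneg (k - s - (s' - k))]

lemma P_init {s : ℝ} (h0 : 0 ≤ s) (h1 : s ≤ 1) : w.P s = s := by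
  rw [w.P_eq 0 (by simpa) (by simpa), p_zero, w.d0]; simp

lemma P_norm {s : ℝ} (h0 : 0 ≤ s) : ‖w.P s‖ ≤ s := by
  simpa [P_zero] using norm_image_sub_le_of_norm_deriv_right_le_segment (C := 1)
    w.P_cont.continuousOn (fun x _ => w.P_der x) (fun x _ => (zn _).le) s (right_mem_Icc.2 h0)

end Wd

lemma n1 : ‖1 + om‖ ^ 2 = 3 := by simpa using (nsq 1 1).trans (by norm_num)
lemma n2 : ‖1 - om‖ = 1 := by
  rw [show 1 - om = -om ^ 2 by linear_combination om_sq, norm_neg, norm_pow, om_norm, one_pow]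

lemma curve (w : Wd) (hD : w.D ≠ 0) {η : ℝ} (hη : 0 < η) : ∃ (w' : Wd) (τ : ℝ → ℝ) (N : ℝ),
    w'.D ≠ 0 ∧ τ 0 = 0 ∧ (∀ s : ℝ, 0 ≤ s → s ≤ w.q → τ (w.q - s) = w'.q - τ s) ∧
    (∀ s s', s ≤ s' → 2 * (s' - s) ≤ τ s' - τ s ∧ τ s' - τ s ≤ N * (s' - s)) ∧
    (∀ s : ℝ, 0 ≤ s → s ≤ w.q → ‖w'.P (τ s) / w'.D - w.P s / w.D‖ ≤ η) ∧
    ∀ s s' : ℝ, 0 ≤ s → s ≤ s' → s' ≤ w.q → ‖w'.P (τ s') / w'.D - w.P s' / w.D -
      (w'.P (τ s) / w'.D - w.P s / w.D)‖ ≤ 0.6 / ‖w.D‖ * (s' - s) := by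
  have q1 : (1 : ℝ) ≤ w.q := by exact_mod_cast w.hq
  set m := ‖w.D‖ with hm
  have m0 : 0 < m := norm_pos_iff.2 hD
  obtain ⟨ε, ε0, ε1, ε2, ε3, ε4⟩ : ∃ ε : ℝ, 0 < ε ∧ ε ≤ m / 100 ∧ ε ≤ η * m / 4 ∧
      ε * w.q ≤ η * m ^ 2 / 4 ∧ ε ≤ 1 / 250 :=
    ⟨min (min (m / 100) (η * m / 4)) (min (η * m ^ 2 / 4 / w.q) (1 / 250)), by positivity,
      (min_le_left _ _).trans (min_le_left _ _), (min_le_left _ _).trans (min_le_right _ _),
      (le_div_iff₀ (by linarith)).1 ((min_le_right _ _).trans (min_le_left _ _)),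
      (min_le_right _ _).trans (min_le_right _ _)⟩
  obtain ⟨b, hb⟩ := exists_nat_ge (4 * w.q / ε)
  obtain ⟨w', J, J0, Jq, hr, Js, hd⟩ := refine w b
  set a : ℝ := 2 * b + 1 with ha
  have ab : 4 * w.q ≤ a * ε := by
    have := (div_le_iff₀ ε0).1 hb
    have : 0 ≤ b * ε := by positivity
    rw [ha]; nlinarith
  have a1 : 1000 ≤ a := by nlinarith
  have a0 : 0 < a := by linarith
  let T : ℤ → ℝ := fun k => J k + if k = 0 ∨ k = w.q then 0 else 1 / 2
  have T1 : ∀ k, J k ≤ T k ∧ T k ≤ J k + 1 / 2 := fun k => by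
    simp only [T]; split_ifs <;> constructor <;> linarith
  have T2 : ∀ k, a - 1 / 2 ≤ T (k + 1) - T k ∧ T (k + 1) - T k ≤ a + 3 / 2 := fun k => by
    have h1 : (2 * b + 1 : ℝ) ≤ J (k + 1) - J k := by exact_mod_cast (hr k).1
    have h2 : (J (k + 1) - J k : ℝ) ≤ 2 * b + 2 := by exact_mod_cast (hr k).2
    constructor <;> linarith [T1 k, T1 (k + 1)]
  have sl := fun s s' (h : s ≤ s') => lin_slope T T2 h
  have mono : ∀ s s', s ≤ s' → lin T s ≤ lin T s' := fun s s' h => by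
    have := mul_nonneg (show 0 ≤ a - 1 / 2 by linarith) (sub_nonneg.2 h)
    linarith [(sl s s' h).1]
  have τ0 : lin T 0 = 0 := by simpa [T, J0] using lin_int T 0
  have τq : lin T w.q = w'.q := by simp [lin_int, T, Jq]
  have fl : ∀ s : ℝ, w'.d ⌊lin T s⌋ = w.d ⌊s⌋ + (w.d ⌊s⌋ + ⌊lin T s⌋) % 2 := fun s => by
    have h1 := mono _ _ (Int.floor_le s)
    have h2 := mono _ _ (show s ≤ (⌊s⌋ + 1 : ℤ) by push_cast; exact (Int.lt_floor_add_one s).le)
    rw [lin_int] at h1 h2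
    refine hd _ _ (Int.le_floor.2 ((T1 _).1.trans h1)) (Int.lt_add_one_iff.1 (Int.floor_lt.2 ?_))
    push_cast; linarith [(T1 (⌊s⌋ + 1)).2]
  have cd : ∀ (f : ℤ → ℂ) (s : ℝ), HasDerivWithinAt (fun s => lin f (lin T s))
      ((T (⌊s⌋ + 1) - T ⌊s⌋ : ℝ) * (f (⌊lin T s⌋ + 1) - f ⌊lin T s⌋)) (Ici s) s := fun f s =>
    (lin_der f _).scomp s (lin_der T s) fun x hx => mono _ _ hx
  have cc : ∀ f : ℤ → ℂ, Continuous fun s => lin f (lin T s) := fun f =>
    (lin_cont f).comp (lin_cont T)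
  have o1 : 1.73 ≤ ‖1 + om‖ := by nlinarith [n1, norm_nonneg (1 + om)]
  have o2 : 1 + om ≠ 0 := norm_pos_iff.1 (by linarith)
  have ac : (a : ℂ) ≠ 0 := by exact_mod_cast a0.ne'
  set ρ : ℂ := 2 / (a * (1 + om)) with hρ
  have ρ1 : ‖ρ‖ ≤ 2 / a := by
    rw [hρ, norm_div, norm_mul, Complex.norm_real, Real.norm_of_nonneg a0.le, Complex.norm_two]
    exact div_le_div_of_nonneg_left (by norm_num) a0 (by nlinarith)
  let Δ : ℝ → ℂ := fun s => ρ * w'.P (lin T s) - w.P s
  have A1 : ∀ (k : ℤ) (s : ℝ), k ≤ s → s ≤ k + 1 → ‖Δ s - Δ k‖ ≤ 4 / a := fun k s h1 h2 => by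
    let g : ℤ → ℂ := fun j => ((w.d k + j) % 2 : ℤ) * (om ^ w.d k * (1 - om) / 2)
    have g1 : ∀ t, ‖lin g t‖ ≤ 1 / 2 := lin_bd g fun j => by
      rcases Int.emod_two_eq_zero_or_one (w.d k + j) with h | h <;> simp [g, h, om_norm, n2]
    have := norm_image_sub_le_of_norm_deriv_right_le_segment (C := 2 / a) (a := k) (b := k + 1)
      (f := fun s => ρ * (lin w'.p (lin T s) - lin g (lin T s)) - w.P s)
      (((continuous_const.mul ((cc _).sub (cc _))).sub w.P_cont).continuousOn)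
      (fun x _ => (((cd _ x).sub (cd _ x)).const_mul ρ).sub (w.P_der x)) (fun x hx => by
        have e : ⌊x⌋ = k := Int.floor_eq_iff.2 hx
        have e' := fl x
        have t := T2 k
        rw [e] at e' ⊢
        rw [w'.p_succ, e']
        generalize ⌊lin T x⌋ = j
        generalize T (k + 1) - T k = r at t
        have : ρ * (r * (w'.p j + om ^ (w.d k + (w.d k + j) % 2) - w'.p j) -
            r * (g (j + 1) - g j)) - om ^ w.d k = ((r - a) / a : ℝ) * om ^ w.d k := by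
          rcases Int.emod_two_eq_zero_or_one (w.d k + j) with h | h
          · simp only [g, h, show (w.d k + (j + 1)) % 2 = 1 by omega, hρ, add_zero]
            push_cast; field_simp; ring
          · simp only [g, h, show (w.d k + (j + 1)) % 2 = 0 by omega, hρ, zpow_add_one₀ om_ne]
            push_cast; field_simp; ring
        rw [this, norm_mul, zn, mul_one, Complex.norm_real, Real.norm_eq_abs, abs_div,
          abs_of_pos a0]
        exact div_le_div_of_nonneg_right (abs_le.2 ⟨by linarith, by linarith⟩) a0.le) s ⟨h1, h2⟩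
    have e : Δ s - Δ k = (ρ * (lin w'.p (lin T s) - lin g (lin T s)) - w.P s -
        (ρ * (lin w'.p (lin T k) - lin g (lin T k)) - w.P k)) +
        ρ * (lin g (lin T s) - lin g (lin T k)) := by simp only [Δ, Wd.P]; ring
    have h3 : ‖ρ * (lin g (lin T s) - lin g (lin T k))‖ ≤ 2 / a * 1 := by
      rw [norm_mul]
      exact mul_le_mul ρ1 ((norm_sub_le _ _).trans (by linarith [g1 (lin T s), g1 (lin T k)]))
        (norm_nonneg _) (by positivity)
    have h4 : 2 / a * (s - k) ≤ 2 / a * 1 := mul_le_mul_of_nonneg_left (by linarith) (by positivity)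
    rw [e, show 4 / a = 2 / a * 1 + 2 / a * 1 by ring]
    exact (norm_add_le _ _).trans (add_le_add (this.trans h4) h3)
  have A2 : ∀ k : ℤ, 0 ≤ k → ∀ s : ℝ, k ≤ s → s ≤ k + 1 → ‖Δ s‖ ≤ 4 / a * (k + 1) := by
    intro k hk
    induction k, hk using Int.leInduction with
    | base => intro s h1 h2; simpa [Δ, τ0, Wd.P_zero] using A1 0 s h1 h2
    | succ k hk ih =>
      intro s h1 h2
      have h3 := ih (k + 1 : ℤ) (by push_cast; linarith) (by push_cast; linarith)
      have h4 := norm_add_le (Δ s - Δ (k + 1 : ℤ)) (Δ (k + 1 : ℤ))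
      rw [sub_add_cancel] at h4
      have := A1 _ s h1 h2
      push_cast at *; linarith
  have A3 : ∀ s : ℝ, 0 ≤ s → s ≤ w.q → ‖Δ s‖ ≤ ε := fun s h0 h1 => by
    have : 4 / a * w.q ≤ ε := by rw [div_mul_eq_mul_div, div_le_iff₀ a0]; linarith
    rcases h1.lt_or_eq with h1 | rfl
    · refine (A2 _ (Int.floor_nonneg.2 h0) s (Int.floor_le s) (Int.lt_floor_add_one s).le).trans
        (le_trans (mul_le_mul_of_nonneg_left ?_ (by positivity)) this)
      exact_mod_cast Int.floor_lt.2 h1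
    · simpa using (A2 (w.q - 1) (by have := w.hq; omega) w.q (by push_cast; linarith)
        (by push_cast; linarith)).trans (by simpa using this)
  set R := ρ * w'.D with hR
  have R1 : ‖R - w.D‖ ≤ ε := by
    have := A3 w.q (by linarith) le_rfl
    simp only [Δ, τq] at this; exact this
  have R2 : 0.99 * m ≤ ‖R‖ := by
    have := norm_sub_le R (R - w.D)
    rw [sub_sub_cancel] at this; linarith
  have R0 : R ≠ 0 := norm_pos_iff.1 (by linarith)
  have ρ0 : ρ ≠ 0 := left_ne_zero_of_mul R0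
  have D0 : w'.D ≠ 0 := right_ne_zero_of_mul R0
  have key : ∀ (x y : ℂ) (u v : ℝ), ‖ρ * x - y‖ ≤ u → ‖y‖ ≤ v →
      ‖x / w'.D - y / w.D‖ ≤ (u + v * ε / m) / (0.99 * m) := fun x y u v h1 h2 => by
    rw [show x / w'.D - y / w.D = (ρ * x - y - y * (R - w.D) / w.D) / R by
      rw [hR]; field_simp; ring, norm_div]
    have v0 := (norm_nonneg _).trans h2
    refine div_le_div₀ (by have := (norm_nonneg _).trans h1; positivity)
      ((norm_sub_le _ _).trans (add_le_add h1 ?_)) (by positivity) R2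
    rw [norm_div, norm_mul]
    exact div_le_div_of_nonneg_right (mul_le_mul h2 R1 (norm_nonneg _) v0) m0.le
  refine ⟨w', lin T, a + 3 / 2, D0, τ0, fun s h0 h1 => lin_rev' T _ (fun k h2 h3 => ?_) h0 h1,
    fun s s' h => ⟨?_, (sl s s' h).2⟩, fun s h0 h1 => ?_, fun s s' h0 h1 h2 => ?_⟩
  · have := w.hq
    rcases h2.eq_or_lt with rfl | h2
    · simp [T, J0, Jq]
    rcases h3.eq_or_lt with rfl | h3
    · simp [T, J0, Jq]
    simp only [T, Js k h2 h3]
    rw [if_neg (by omega), if_neg (by omega)]; push_cast; ring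
  · nlinarith [(sl s s' h).1]
  · refine (key _ _ _ _ (A3 s h0 h1) ((w.P_norm h0).trans h1)).trans ?_
    rw [div_le_iff₀ (by positivity)]
    have : w.q * ε / m ≤ η * m / 4 := by rw [div_le_iff₀ m0]; nlinarith
    nlinarith [mul_pos hη m0]
  · refine norm_image_sub_le_of_norm_deriv_right_le_segment
      (f := fun s => lin w'.p (lin T s) / w'.D - w.P s / w.D)
      ((((cc _).div_const _).sub (w.P_cont.div_const _)).continuousOn)
      (fun x _ => ((cd _ x).div_const _).sub ((w.P_der x).div_const _)) (fun x _ => ?_) s'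
      (right_mem_Icc.2 h1)
    refine (key _ _ 0.584 1 ?_ (zn _).le).trans ?_
    · have t := T2 ⌊x⌋
      rw [w'.p_succ, fl x, add_sub_cancel_left]
      generalize T (⌊x⌋ + 1) - T ⌊x⌋ = r at t
      generalize w.d ⌊x⌋ = d
      have : ∀ u v : ℂ, ‖u‖ = 1 → ‖v‖ = 1 → 2 * u - (1 + om) = v →
          ‖ρ * (r * (om ^ d * u)) - om ^ d‖ ≤ 0.584 := fun u v hu hv h => by
        rw [show ρ * (r * (om ^ d * u)) - om ^ d =
          om ^ d * (((r - a) / a : ℝ) * (2 * u) + v) / (1 + om) by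
            rw [← h, hρ]; push_cast; field_simp; ring, norm_div, norm_mul, zn, one_mul,
          div_le_iff₀ (by linarith)]
        refine (norm_add_le _ _).trans ?_
        rw [norm_mul, norm_mul, hu, hv, Complex.norm_two, Complex.norm_real, Real.norm_eq_abs]
        have : |(r - a) / a| ≤ 0.0015 := by
          rw [abs_div, abs_of_pos a0, div_le_iff₀ a0]
          exact abs_le.2 ⟨by linarith, by linarith⟩
        linarith
      rcases Int.emod_two_eq_zero_or_one (d + ⌊lin T x⌋) with h | h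
      · simpa [h] using this 1 _ norm_one n2 (by ring)
      · rw [h, zpow_add_one₀ om_ne]
        exact this om (-(1 - om)) om_norm (by rw [norm_neg, n2]) (by ring)
    · rw [div_le_div_iff₀ (by positivity) m0]
      have : 1 * ε / m ≤ 1 / 100 := by rw [div_le_iff₀ m0]; linarith
      nlinarith

end Pool.Agent.H8.Hex
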