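import Mathlib
import Pool.Agent.H8.Hex2

/-! The honeycomb network, periodic homeomorphisms, and the refinement step. -/

namespace Pool.Agent.H8.Hex
open Complex Set Filter Topology Metric

def Lam (l : ℂ) : Prop := ∃ X Y : ℤ, 3 ∣ X - Y ∧ l = X + Y * om
def Ed (A u : ℂ) : Prop := ∃ X Y p q : ℤ, p ^ 2 + p * q + q ^ 2 = 1 ∧ 3 ∣ X - Y - (p - q) ∧
  A = X + Y * om ∧ u = p + q * om

lemma Lam.neg {l : ℂ} (h : Lam l) : Lam (-l) := by
  obtain ⟨X, Y, h, rfl⟩ := h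
  exact ⟨-X, -Y, by omega, by push_cast; ring⟩

lemma Ed.norm {A u : ℂ} (h : Ed A u) : ‖u‖ = 1 := by
  obtain ⟨X, Y, p, q, h, -, -, rfl⟩ := h
  have := nsq p q
  push_cast at this
  rw [show (p : ℝ) ^ 2 + p * q + q ^ 2 = 1 by exact_mod_cast h] at this
  exact (pow_eq_one_iff_of_nonneg (norm_nonneg _) two_ne_zero).1 this

lemma Ed.add {A u l : ℂ} (h : Ed A u) (h' : Lam l) : Ed (A + l) u := by
  obtain ⟨X, Y, p, q, h, h1, rfl, rfl⟩ := h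
  obtain ⟨X', Y', h2, rfl⟩ := h'
  exact ⟨X + X', Y + Y', p, q, h, by omega, by push_cast; ring, rfl⟩

lemma Ed.rev {A u : ℂ} (h : Ed A u) : Ed (A + u) (-u) := by
  obtain ⟨X, Y, p, q, h, h1, rfl, rfl⟩ := h
  exact ⟨X + p, Y + q, -p, -q, by linarith, by omega, by push_cast; ring, by push_cast; ring⟩

lemma Ed.rot {A u : ℂ} (h : Ed A u) : Ed (om * A) (om * u) := by
  obtain ⟨X, Y, p, q, h, h1, rfl, rfl⟩ := h
  exact ⟨-Y, X + Y, -q, p + q, by linarith, by omega,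
    by push_cast; linear_combination Y * om_sq, by push_cast; linear_combination q * om_sq⟩

lemma Ed.pow (k : ℕ) : Ed (om ^ k) (om ^ k * om ^ 2) := by
  induction k with
  | zero => exact ⟨1, 0, -1, 1, by norm_num, by norm_num, by simp, by
      push_cast; linear_combination om_sq⟩
  | succ k ih => simpa only [pow_succ', mul_assoc] using ih.rot

lemma units {p q : ℤ} (h : p ^ 2 + p * q + q ^ 2 = 1) : (p = 1 ∧ q = 0) ∨ (p = 0 ∧ q = 1) ∨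
    (p = -1 ∧ q = 1) ∨ (p = -1 ∧ q = 0) ∨ (p = 0 ∧ q = -1) ∨ (p = 1 ∧ q = -1) := by
  have a : p ≤ 1 := by nlinarith [sq_nonneg (p + 2 * q)]
  have b : -1 ≤ p := by nlinarith [sq_nonneg (p + 2 * q)]
  have c : q ≤ 1 := by nlinarith [sq_nonneg (2 * p + q)]
  have d : -1 ≤ q := by nlinarith [sq_nonneg (2 * p + q)]
  interval_cases p <;> interval_cases q <;> simp_all

lemma base0 {X Y p q p' q' : ℤ} {t t' : ℝ} (hu : p ^ 2 + p * q + q ^ 2 = 1)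
    (hu' : p' ^ 2 + p' * q' + q' ^ 2 = 1) (hc : 3 ∣ X - Y - (p' - q') + (p - q))
    (h0 : 0 ≤ t) (h1 : t ≤ 1 / 2) (h2 : 0 ≤ t') (h3 : t' ≤ 1 / 2) {x y : ℝ}
    (hx : x = X + p' * t' - p * t) (hy : y = Y + q' * t' - q * t)
    (h : x ^ 2 + x * y + y ^ 2 < 1 / 4) :
    (X = 0 ∧ Y = 0 ∧ ((p' = p ∧ q' = q) ∨ (p' = -p - q ∧ q' = p) ∨ (p = -p' - q' ∧ q = p'))) ∨
      (X = p ∧ Y = q ∧ p' = -p ∧ q' = -q) := by
  have a1 : |2 * x + y| < 1 := by rw [← sq_lt_one_iff_abs_lt_one]; nlinarith [sq_nonneg y]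
  have a2 : |x + 2 * y| < 1 := by rw [← sq_lt_one_iff_abs_lt_one]; nlinarith [sq_nonneg x]
  have a3 : |x - y| < 1 := by rw [← sq_lt_one_iff_abs_lt_one]; nlinarith [sq_nonneg (x + y)]
  rw [abs_lt] at a1 a2 a3
  obtain ⟨a1, a4⟩ := a1
  obtain ⟨a2, a5⟩ := a2
  obtain ⟨a3, a6⟩ := a3
  subst hx hy
  clear h
  rcases units hu with ⟨rfl, rfl⟩ | ⟨rfl, rfl⟩ | ⟨rfl, rfl⟩ | ⟨rfl, rfl⟩ | ⟨rfl, rfl⟩ | ⟨rfl, rfl⟩ <;>
  rcases units hu' with ⟨rfl, rfl⟩ | ⟨rfl, rfl⟩ | ⟨rfl, rfl⟩ | ⟨rfl, rfl⟩ | ⟨rfl, rfl⟩ | ⟨rfl, rfl⟩ <;>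
  push_cast at a1 a2 a3 a4 a5 a6 <;>
  (have b1 : X < 2 := by exact_mod_cast (show (X : ℝ) < 2 by linarith)
   have b2 : -2 < X := by exact_mod_cast (show (-2 : ℝ) < X by linarith)
   have b3 : Y < 2 := by exact_mod_cast (show (Y : ℝ) < 2 by linarith)
   have b4 : -2 < Y := by exact_mod_cast (show (-2 : ℝ) < Y by linarith)
   interval_cases X <;> interval_cases Y <;>
     first | omega | (push_cast at a1 a2 a3 a4 a5 a6; linarith))

lemma base {A u A' u' : ℂ} (h : Ed A u) (h' : Ed A' u') {t t' : ℝ} (h0 : 0 ≤ t) (h1 : t ≤ 1 / 2)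
    (h2 : 0 ≤ t') (h3 : t' ≤ 1 / 2) (hd : ‖A + u * t - (A' + u' * t')‖ < 1 / 2) :
    (A' = A ∧ (u' = u ∨ u' = om ^ 2 * u ∨ u = om ^ 2 * u')) ∨ (A' = A + u ∧ u' = -u) := by
  obtain ⟨X, Y, p, q, a1, a2, rfl, rfl⟩ := h
  obtain ⟨X', Y', p', q', b1, b2, rfl, rfl⟩ := h'
  have c : ∀ p q : ℤ, ((-p - q : ℤ) : ℂ) + p * om = om ^ 2 * (p + q * om) := fun p q => by
    push_cast; linear_combination (-p - q - q * om) * om_sq
  rw [norm_sub_rev] at hd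
  rcases base0 (X := X' - X) (Y := Y' - Y) a1 b1 (by omega) h0 h1 h2 h3 rfl rfl (by
    rw [← nsq]
    refine lt_of_eq_of_lt (congrArg (‖·‖ ^ 2) ?_) (lt_of_lt_of_eq
      (pow_lt_pow_left₀ hd (norm_nonneg _) two_ne_zero) (by norm_num))
    push_cast; ring) with ⟨e1, e2, e⟩ | ⟨e1, e2, rfl, rfl⟩
  · obtain rfl : X' = X := by omega
    obtain rfl : Y' = Y := by omega
    rcases e with ⟨rfl, rfl⟩ | ⟨rfl, rfl⟩ | ⟨rfl, rfl⟩
    · exact .inl ⟨rfl, .inl rfl⟩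
    · exact .inl ⟨rfl, .inr (.inl (c _ _))⟩
    · exact .inl ⟨rfl, .inr (.inr (c _ _))⟩
  · obtain rfl : X' = X + p := by omega
    obtain rfl : Y' = Y + q := by omega
    exact .inr ⟨by push_cast; ring, by push_cast; ring⟩

lemma ext {ι : Type} [Nonempty ι] (x : ι → ℂ) (f : ι → ℝ) {L η : ℝ} (hL : 0 ≤ L)
    (h1 : ∀ i j, |f i - f j| ≤ L * ‖x i - x j‖) (h2 : ∀ i, |f i| ≤ η)
    (h3 : ∀ l, Lam l → ∀ i, ∃ j, x j = x i + l ∧ f j = f i) :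
    ∃ v : ℂ → ℝ, (∀ i, v (x i) = f i) ∧ (∀ z w, |v z - v w| ≤ L * ‖z - w‖) ∧ (∀ z, |v z| ≤ η) ∧
      ∀ z l, Lam l → v (z + l) = v z := by
  let g : ℂ → ℝ := fun z => ⨅ i, f i + L * ‖z - x i‖
  have lb : ∀ z i, -η ≤ f i + L * ‖z - x i‖ := fun z i => by
    have := mul_nonneg hL (norm_nonneg (z - x i))
    linarith [(abs_le.1 (h2 i)).1]
  have le : ∀ z i, g z ≤ f i + L * ‖z - x i‖ := fun z i =>
    ciInf_le ⟨-η, by rintro _ ⟨i, rfl⟩; exact lb z i⟩ i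
  have g1 : ∀ z w, g z - g w ≤ L * ‖z - w‖ := fun z w => by
    have : g z - L * ‖z - w‖ ≤ g w := le_ciInf fun i => by
      have := mul_le_mul_of_nonneg_left (norm_sub_le_norm_sub_add_norm_sub z w (x i)) hL
      linarith [le z i]
    linarith
  have g2 : ∀ z l, Lam l → g (z + l) ≤ g z := fun z l hl => le_ciInf fun i => by
    obtain ⟨j, e1, e2⟩ := h3 l hl i
    simpa [e1, e2] using le (z + l) j
  have η0 : 0 ≤ η := (abs_nonneg _).trans (h2 (Classical.arbitrary _))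
  refine ⟨fun z => min η (g z), fun i => ?_, fun z w => ?_, fun z => ?_, fun z l hl => ?_⟩
  · have : g (x i) = f i := le_antisymm (by simpa using le (x i) i)
      (le_ciInf fun j => by linarith [(abs_le.1 (h1 i j)).2])
    simp only [this]
    exact min_eq_right (abs_le.1 (h2 i)).2
  · refine (abs_min_sub_min_le_max _ _ _ _).trans (max_le (by simp; positivity)
      (abs_le.2 ⟨?_, g1 z w⟩))
    have := g1 w z
    rw [norm_sub_rev] at this; linarith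
  · exact abs_le.2 ⟨le_min (by linarith) (le_ciInf (lb z)), min_le_left _ _⟩
  · have := g2 (z + l) _ hl.neg
    rw [add_neg_cancel_right] at this
    simp only [le_antisymm (g2 z l hl) this]

structure St where
  w : Wd
  h : ℂ → ℂ
  θ : ℝ → ℝ
  M : ℝ
  N : ℝ
  W : ℝ
  hD : w.D ≠ 0
  hc : Continuous h
  hs : Function.Surjective h
  M0 : 0 < M
  W0 : 0 < W
  hM : ∀ z z', ‖z - z'‖ ≤ M * ‖h z - h z'‖
  hL : ∀ z l, Lam l → h (z + l) = h z + l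
  hE : ∀ A u (t : ℝ), Ed A u → 0 ≤ t → t ≤ 1 → h (A + u * t) = A + u * (w.P (θ t) / w.D)
  θ0 : θ 0 = 0
  θs : ∀ t, 0 ≤ t → t ≤ 1 → θ (1 - t) = w.q - θ t
  θl : ∀ t t', t ≤ t' → W * (t' - t) ≤ θ t' - θ t ∧ θ t' - θ t ≤ N * (t' - t)

lemma St.mono (s : St) {t t' : ℝ} (h : t ≤ t') : s.θ t ≤ s.θ t' := by
  have := mul_nonneg s.W0.le (sub_nonneg.2 h)
  linarith [(s.θl t t' h).1]

lemma St.θ1 (s : St) : s.θ 1 = s.w.q := by simpa [s.θ0] using s.θs 0 le_rfl zero_le_one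

lemma St.N0 (s : St) : 0 < s.N := by have := s.θl 0 1 zero_le_one; linarith [s.W0]

lemma step (s : St) {η : ℝ} (hη : 0 < η) :
    ∃ s' : St, (∀ z, ‖s'.h z - s.h z‖ ≤ η) ∧ s'.W = 2 * s.W := by
  have M0 := s.M0
  have N0 := s.N0
  obtain ⟨δ, δ0, δ1, δ2⟩ : ∃ δ : ℝ, 0 < δ ∧ δ ≤ 1 / 2 ∧ s.N * δ ≤ 1 :=
    ⟨min (1 / 2) (1 / s.N), by positivity, min_le_left _ _, by
      rw [mul_comm]; exact (le_div_iff₀ N0).1 (min_le_right _ _)⟩
  obtain ⟨ε, ε0, ε1, ε2⟩ : ∃ ε : ℝ, 0 < ε ∧ ε ≤ η / 2 ∧ ε * s.M ≤ 0.3 * δ :=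
    ⟨min (η / 2) (0.3 * δ / s.M), by positivity, min_le_left _ _,
      (le_div_iff₀ M0).1 (min_le_right _ _)⟩
  obtain ⟨w', τ, N', D0, τ0, τs, τl, F1, F2⟩ := curve s.w s.hD ε0
  have a0 : ∀ t, 0 ≤ t → 0 ≤ s.θ t := fun t h => s.θ0 ▸ s.mono h
  have a1 : ∀ t, t ≤ 1 → s.θ t ≤ s.w.q := fun t h => s.θ1 ▸ s.mono h
  have τm : ∀ a b, a ≤ b → τ a ≤ τ b := fun a b h => by linarith [(τl a b h).1]
  have τq : τ s.w.q = w'.q := by
    simpa [τ0] using τs 0 le_rfl (by have := s.w.hq; exact_mod_cast (by omega))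
  set m := ‖s.w.D‖
  have m0 : 0 < m := norm_pos_iff.2 s.hD
  let G : ℝ → ℂ := fun t => s.w.P (s.θ t) / s.w.D
  let F : ℝ → ℂ := fun t => w'.P (τ (s.θ t)) / w'.D - G t
  have Gs : ∀ t, 0 ≤ t → t ≤ 1 → G (1 - t) = 1 - G t := fun t h0 h1 => by
    simp only [G]
    rw [s.θs t h0 h1, s.w.P_sym (a0 t h0) (a1 t h1), sub_div, div_self s.hD]
  have Fs : ∀ t, 0 ≤ t → t ≤ 1 → F (1 - t) = -F t := fun t h0 h1 => by
    simp only [F]
    rw [Gs t h0 h1, s.θs t h0 h1, τs _ (a0 t h0) (a1 t h1), w'.P_sym (τ0 ▸ τm _ _ (a0 t h0))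
      (τq ▸ τm _ _ (a1 t h1)), sub_div, div_self D0]; ring
  have cmp : ∀ (x y : ℂ) (r : ℝ), 0 ≤ r → ‖x‖ ≤ 0.6 / m * r → 3 / 4 * r ^ 2 ≤ ‖y‖ ^ 2 →
      ‖x‖ ≤ 0.7 * ‖y / s.w.D‖ := fun x y r h0 h1 h2 => by
    have : 0.6 * r ≤ 0.7 * ‖y‖ := by
      by_contra h
      nlinarith [norm_nonneg y]
    rw [norm_div, ← mul_div_assoc]
    refine h1.trans ?_
    rw [div_mul_eq_mul_div]
    exact div_le_div_of_nonneg_right this m0.le
  have SE : ∀ t t' : ℝ, 0 ≤ t → t ≤ 1 → 0 ≤ t' → t' ≤ 1 → ‖(t - t' : ℂ)‖ < δ →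
      ‖F t - F t'‖ ≤ 0.7 * ‖G t - G t'‖ := fun t t' h0 h1 h2 h3 h4 => by
    wlog h : t' ≤ t generalizing t t'
    · rw [norm_sub_rev, norm_sub_rev (G t)]
      exact this t' t h2 h3 h0 h1 (by rwa [norm_sub_rev]) (by linarith)
    rw [← ofReal_sub, Complex.norm_real, Real.norm_of_nonneg (by linarith)] at h4
    have := s.θl t' t h
    simp only [G, ← sub_div]
    exact cmp _ _ _ (sub_nonneg.2 (s.mono h)) (F2 _ _ (a0 _ h2) (s.mono h) (a1 _ h1))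
      (s.w.P_close (s.mono h) (by nlinarith))
  have VE : ∀ t t' : ℝ, 0 ≤ t → t ≤ 1 → 0 ≤ t' → t' ≤ 1 → ‖t - om ^ 2 * t'‖ < δ →
      ‖F t - om ^ 2 * F t'‖ ≤ 0.7 * ‖G t - om ^ 2 * G t'‖ := fun t t' h0 h1 h2 h3 h4 => by
    have e : ∀ x y : ℝ, ‖x - om ^ 2 * y‖ ^ 2 = x ^ 2 + x * y + y ^ 2 := fun x y => by
      rw [show x - om ^ 2 * y = (x + y : ℝ) + (-y : ℝ) * om by
        push_cast; linear_combination -y * om_sq, nsq]; ring
    have h5 := pow_lt_pow_left₀ h4 (norm_nonneg _) two_ne_zero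
    rw [e] at h5
    have b : ∀ t, 0 ≤ t → t ≤ 1 → t ^ 2 < δ ^ 2 → G t = s.θ t / s.w.D ∧
        ‖F t‖ ≤ 0.6 / m * s.θ t := fun t h0 h1 h2 => by
      have := (s.θl 0 t h0).2
      have h3 := lt_of_pow_lt_pow_left₀ 2 δ0.le h2
      rw [s.θ0] at this
      refine ⟨by simp only [G]; rw [s.w.P_init (a0 t h0) (by nlinarith)], ?_⟩
      simpa [τ0, Wd.P_zero] using F2 0 _ le_rfl (a0 t h0) (a1 t h1)
    obtain ⟨b1, b2⟩ := b t h0 h1 (by nlinarith [mul_nonneg h0 h2])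
    obtain ⟨b3, b4⟩ := b t' h2 h3 (by nlinarith [mul_nonneg h0 h2])
    rw [b1, b3, ← mul_div_assoc, ← sub_div]
    refine cmp _ _ (s.θ t + s.θ t') (add_nonneg (a0 _ h0) (a0 _ h2))
      ((norm_sub_le _ _).trans ?_) (by rw [e]; nlinarith [sq_nonneg (s.θ t - s.θ t')])
    rw [norm_mul, norm_pow, om_norm, one_pow, one_mul]; linarith
  have Fb : ∀ A u t, Ed A u → 0 ≤ t → t ≤ 1 → ‖u * F t‖ ≤ ε := fun A u t h h0 h1 => by
    rw [norm_mul, h.norm, one_mul]; exact F1 _ (a0 t h0) (a1 t h1)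
  have K0 : ∀ A u t A' u' t', Ed A u → Ed A' u' → 0 ≤ t → t ≤ 1 / 2 → 0 ≤ t' → t' ≤ 1 / 2 →
      ‖u * F t - u' * F t'‖ ≤ 0.7 * ‖A + u * G t - (A' + u' * G t')‖ := by
    intro A u t A' u' t' h h' h0 h1 h2 h3
    have h4 : t ≤ 1 := by linarith
    have h5 : t' ≤ 1 := by linarith
    have nu : ∀ z, ‖u * z‖ = ‖z‖ := fun z => by rw [norm_mul, h.norm, one_mul]
    have nu' : ∀ z, ‖u' * z‖ = ‖z‖ := fun z => by rw [norm_mul, h'.norm, one_mul]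
    rcases le_or_gt δ ‖A + u * t - (A' + u' * t')‖ with hd | hd
    · have := s.hM (A + u * t) (A' + u' * t')
      rw [s.hE _ _ _ h h0 h4, s.hE _ _ _ h' h2 h5] at this
      have b := (norm_sub_le _ _).trans (add_le_add (Fb _ _ _ h h0 h4) (Fb _ _ _ h' h2 h5))
      refine b.trans (le_of_mul_le_mul_right ?_ M0)
      simp only [G]; nlinarith
    rcases base h h' h0 h1 h2 h3 (hd.trans_le δ1) with ⟨rfl, rfl | rfl | rfl⟩ | ⟨rfl, rfl⟩
    · simp only [add_sub_add_left_eq_sub, ← mul_sub, nu] at hd ⊢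
      exact SE _ _ h0 h4 h2 h5 hd
    · simp only [add_sub_add_left_eq_sub, mul_comm _ u, mul_assoc, ← mul_sub, nu] at hd ⊢
      exact VE _ _ h0 h4 h2 h5 hd
    · rw [norm_sub_rev] at hd
      rw [norm_sub_rev, norm_sub_rev (_ + _)]
      simp only [add_sub_add_left_eq_sub, mul_comm _ u', mul_assoc, ← mul_sub, nu'] at hd ⊢
      exact VE _ _ h2 h5 h0 h4 hd
    · have := SE t (1 - t') h0 h4 (by linarith) (by linarith) (by
        rw [← nu]; refine lt_of_eq_of_lt (congrArg _ ?_) hd; push_cast; ring)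
      rw [Gs _ h2 h5, Fs _ h2 h5, ← nu, ← nu (_ - _)] at this
      refine (le_of_eq_of_le (congrArg _ ?_) this).trans_eq (congrArg (0.7 * ‖·‖) ?_) <;> ring
  have red : ∀ A u t, Ed A u → 0 ≤ t → t ≤ 1 → ∃ B v r, Ed B v ∧ 0 ≤ r ∧ r ≤ 1 / 2 ∧
      u * F t = v * F r ∧ A + u * G t = B + v * G r := fun A u t h h0 h1 => by
    rcases le_total t (1 / 2) with h2 | h2
    · exact ⟨A, u, t, h, h0, h2, rfl, rfl⟩
    · exact ⟨_, _, 1 - t, h.rev, by linarith, by linarith, by rw [Fs t h0 h1]; ring,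
        by rw [Gs t h0 h1]; ring⟩
  let ι := {i : ℂ × ℂ × ℝ // Ed i.1 i.2.1 ∧ 0 ≤ i.2.2 ∧ i.2.2 ≤ 1}
  haveI : Nonempty ι := ⟨⟨(_, _, 0), Ed.pow 0, le_rfl, zero_le_one⟩⟩
  let x : ι → ℂ := fun i => i.1.1 + i.1.2.1 * G i.1.2.2
  let y : ι → ℂ := fun i => i.1.2.1 * F i.1.2.2
  have K1 : ∀ i j, ‖y i - y j‖ ≤ 0.7 * ‖x i - x j‖ := fun i j => by
    obtain ⟨B, v, r, c1, c2, c3, c4, c5⟩ := red _ _ _ i.2.1 i.2.2.1 i.2.2.2
    obtain ⟨B', v', r', d1, d2, d3, d4, d5⟩ := red _ _ _ j.2.1 j.2.2.1 j.2.2.2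
    simp only [x, y, c4, c5, d4, d5]
    exact K0 _ _ _ _ _ _ c1 d1 c2 c3 d2 d3
  have K2 : ∀ i, ‖y i‖ ≤ ε := fun i => Fb _ _ _ i.2.1 i.2.2.1 i.2.2.2
  have K3 : ∀ l, Lam l → ∀ i, ∃ j, x j = x i + l ∧ y j = y i := fun l hl i =>
    ⟨⟨(i.1.1 + l, i.1.2), i.2.1.add hl, i.2.2⟩, by simp only [x]; ring, rfl⟩
  obtain ⟨v1, p1, p2, p3, p4⟩ := ext x (fun i => (y i).re) (L := 0.7) (by norm_num)
    (fun i j => (abs_re_le_norm (y i - y j)).trans (K1 i j))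
    (fun i => (abs_re_le_norm _).trans (K2 i))
    fun l hl i => (K3 l hl i).imp fun j h => ⟨h.1, by simp only [h.2]⟩
  obtain ⟨v2, r1, r2, r3, r4⟩ := ext x (fun i => (y i).im) (L := 0.7) (by norm_num)
    (fun i j => (abs_im_le_norm (y i - y j)).trans (K1 i j))
    (fun i => (abs_im_le_norm _).trans (K2 i))
    fun l hl i => (K3 l hl i).imp fun j h => ⟨h.1, by simp only [h.2]⟩
  let v : ℂ → ℂ := fun z => ⟨v1 z, v2 z⟩
  have vl : ∀ z w, ‖v z - v w‖ ≤ 0.99 * ‖z - w‖ := fun z w => by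
    refine le_of_sq_le_sq ?_ (by positivity)
    have c1 := sq_le_sq' (abs_le.1 (p2 z w)).1 (abs_le.1 (p2 z w)).2
    have c2 := sq_le_sq' (abs_le.1 (r2 z w)).1 (abs_le.1 (r2 z w)).2
    rw [Complex.sq_norm, normSq_apply]
    simp only [v, sub_re, sub_im]
    nlinarith [sq_nonneg ‖z - w‖]
  have vL : LipschitzWith 0.99 v := .of_dist_le_mul fun z w => by
    simpa [dist_eq_norm] using vl z w
  have hc := s.hc
  refine ⟨⟨w', fun z => s.h z + v (s.h z), τ ∘ s.θ, 100 * s.M, N' * s.N, 2 * s.W, D0,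
    hc.add (vL.continuous.comp hc), fun z => ?_, by positivity, by have := s.W0; positivity,
    fun z z' => ?_, fun z l hl => ?_, fun A u t h h0 h1 => ?_, by simp [s.θ0, τ0],
    fun t h0 h1 => ?_, fun t t' h => ?_⟩, fun z => ?_, rfl⟩
  · have c : ContractingWith 0.99 fun a => z - v a := ⟨by norm_num, .of_dist_le_mul fun a b => by
      rw [dist_sub_left]; exact vL.dist_le_mul a b⟩
    obtain ⟨a, ha⟩ := s.hs (c.fixedPoint _)
    have := c.fixedPoint_isFixedPt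
    exact ⟨a, by simp only [ha]; exact (eq_sub_iff_add_eq.1 this.symm)⟩
  · have c1 := s.hM z z'
    have c2 := vl (s.h z) (s.h z')
    have c3 := norm_sub_le (s.h z + v (s.h z) - (s.h z' + v (s.h z'))) (v (s.h z) - v (s.h z'))
    rw [show s.h z + v (s.h z) - (s.h z' + v (s.h z')) - (v (s.h z) - v (s.h z')) =
      s.h z - s.h z' by ring] at c3
    nlinarith
  · simp only [s.hL z l hl, v, p4 _ l hl, r4 _ l hl]; ring
  · have c : v (x ⟨(A, u, t), h, h0, h1⟩) = _ := Complex.ext (p1 _) (r1 _)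
    simp only [x, y, G, F] at c
    simp only [s.hE A u t h h0 h1, c, Function.comp_apply]; ring
  · simp only [Function.comp_apply]
    rw [s.θs t h0 h1, τs _ (a0 t h0) (a1 t h1)]
  · have c1 := s.θl t t' h
    have c2 := τl _ _ (s.mono h)
    have c3 := τl 0 1 zero_le_one
    have := mul_le_mul_of_nonneg_left c1.2 (show 0 ≤ N' by linarith)
    simp only [Function.comp_apply]
    constructor <;> linarith
  · simp only [add_sub_cancel_left]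
    exact (norm_le_abs_re_add_abs_im _).trans (by linarith [p3 (s.h z), r3 (s.h z)])

end Pool.Agent.H8.Hex
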