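import Mathlib
import Pool.Agent.H8.Hex3

/-! The limit homeomorphism and the hexagon gauge. -/

namespace Pool.Agent.H8.Hex
open Complex Set Filter Topology Metric

def w0 : Wd := ⟨1, 0, 0, id, le_rfl, fun _ => .inl rfl, fun _ => rfl, fun i h1 h2 => by
  simp only [id]; omega, fun _ => rfl, rfl, rfl⟩

lemma w0D : w0.D = 1 := by simpa [Wd.D, w0] using w0.P_init zero_le_one le_rfl

noncomputable def s0 : St := ⟨w0, id, id, 1, 1, 1, by simp [w0D], continuous_id,
  Function.surjective_id, one_pos, one_pos, by simp, by simp, fun A u t _ h0 h1 => by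
    simp [w0D, w0.P_init h0 h1], rfl, by simp [w0], by simp⟩

lemma limit : ∃ (H : ℂ ≃ₜ ℂ) (S : ℕ → St) (e : ℕ → ℝ), Tendsto e atTop (𝓝 0) ∧
    (∀ n z, ‖H z - (S n).h z‖ ≤ e n) ∧ (∀ n, e n * ‖(S n).w.D‖ ≤ 1 / 10) ∧
    (∀ n, (S n).W = 2 ^ n) ∧ S 0 = s0 := by
  let X := {p : St × ℝ // 0 < p.2 ∧ p.2 * ‖p.1.w.D‖ ≤ 1 / 20 ∧ p.2 * p.1.M * p.1.W ≤ 1}
  have : ∀ p : X, ∃ p' : X, (∀ z, ‖p'.1.1.h z - p.1.1.h z‖ ≤ p.1.2) ∧ p'.1.1.W = 2 * p.1.1.W ∧
      p'.1.2 ≤ p.1.2 / 2 := fun p => by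
    obtain ⟨s, h1, h2⟩ := step p.1.1 p.2.1
    have a := p.2.1
    have b := norm_pos_iff.2 s.hD
    have c := mul_pos s.M0 s.W0
    exact ⟨⟨(s, min (p.1.2 / 2) (min (1 / 20 / ‖s.w.D‖) (1 / (s.M * s.W)))), by positivity,
      (le_div_iff₀ b).1 ((min_le_right _ _).trans (min_le_left _ _)), by
        rw [mul_assoc]; exact (le_div_iff₀ c).1 ((min_le_right _ _).trans (min_le_right _ _))⟩,
      h1, h2, min_le_left _ _⟩
  choose f f1 f2 f3 using this
  let p0 : X := ⟨(s0, 1 / 20), by norm_num, by simp [s0, w0D], by simp [s0]; norm_num⟩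
  let S : ℕ → St := fun n => (f^[n] p0).1.1
  let e : ℕ → ℝ := fun n => (f^[n] p0).1.2
  have e0 : ∀ n, 0 < e n := fun n => (f^[n] p0).2.1
  have g1 : ∀ n z, ‖(S (n + 1)).h z - (S n).h z‖ ≤ e n := fun n => by
    simp only [S, e, Function.iterate_succ_apply']; exact f1 _
  have g2 : ∀ n, (S n).W = 2 ^ n := fun n => by
    induction n with
    | zero => simp [S, p0, s0]
    | succ n ih => simp only [S, Function.iterate_succ_apply'] at ih ⊢; rw [f2, ih]; ring
  have g3 : ∀ n, e (n + 1) ≤ e n / 2 := fun n => by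
    simp only [e, Function.iterate_succ_apply']; exact f3 _
  have g4 : ∀ n, e n * (S n).M * 2 ^ n ≤ 1 := fun n => g2 n ▸ (f^[n] p0).2.2.2
  have g5 : ∀ n, e n ≤ (1 / 2) ^ n := fun n => by
    induction n with
    | zero => simp [e, p0]; norm_num
    | succ n ih => rw [pow_succ]; linarith [g3 n]
  have t2 := tendsto_pow_atTop_nhds_zero_of_lt_one (r := (1 / 2 : ℝ)) (by norm_num) (by norm_num)
  have te : Tendsto (fun n => 2 * e n) atTop (𝓝 0) := by
    simpa using (squeeze_zero (fun n => (e0 n).le) g5 t2).const_mul 2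
  have sm : ∀ ε > 0, ∃ n, 2 * e n < ε := fun ε h => (te.eventually (gt_mem_nhds h)).exists
  have g6 : ∀ z n m, n ≤ m → ‖(S m).h z - (S n).h z‖ ≤ 2 * e n - 2 * e m := fun z n m h => by
    induction m, h using Nat.le_induction with
    | base => simp
    | succ m _ ih =>
      linarith [norm_sub_le_norm_sub_add_norm_sub ((S (m + 1)).h z) ((S m).h z) ((S n).h z),
        g1 m z, g3 m]
  have : ∀ z, ∃ y, Tendsto (fun n => (S n).h z) atTop (𝓝 y) := fun z =>
    cauchySeq_tendsto_of_complete (Metric.cauchySeq_iff'.2 fun ε h => (sm ε h).imp fun n hn m hm => by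
      rw [dist_eq_norm]; linarith [g6 z n m hm, e0 m])
  choose h hh using this
  have g7 : ∀ n z, ‖h z - (S n).h z‖ ≤ 2 * e n := fun n z =>
    le_of_tendsto ((hh z).sub_const _).norm
      ((eventually_ge_atTop n).mono fun m hm => by linarith [g6 z n m hm, e0 m])
  have hc : Continuous h := continuous_of_uniform_approx_of_continuous fun u hu => by
    obtain ⟨ε, ε0, hε⟩ := Metric.mem_uniformity_dist.1 hu
    obtain ⟨n, hn⟩ := sm ε ε0
    exact ⟨_, (S n).hc, fun z => hε (by rw [dist_eq_norm]; linarith [g7 n z])⟩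
  have g8 : ∀ ε > 0, ∃ δ > 0, ∀ z w, dist (h z) (h w) < δ → dist z w < ε := fun ε ε0 => by
    obtain ⟨n, hn⟩ := (t2.eventually (gt_mem_nhds (show 0 < ε / 8 by positivity))).exists
    have M0 := (S n).M0
    refine ⟨ε / 2 / (S n).M, by positivity, fun z w hz => ?_⟩
    rw [dist_eq_norm] at hz ⊢
    have a1 := (lt_div_iff₀ M0).1 hz
    have a2 := (S n).hM z w
    have a3 : e n * (S n).M ≤ (1 / 2) ^ n := by
      rw [one_div_pow, le_div_iff₀ (by positivity)]; exact g4 n
    have a4 := norm_sub_le_norm_sub_add_norm_sub ((S n).h z) (h z) ((S n).h w)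
    have a5 := norm_sub_le_norm_sub_add_norm_sub (h z) (h w) ((S n).h w)
    have a6 := g7 n z
    rw [norm_sub_rev] at a6
    nlinarith [g7 n w]
  have inj : Function.Injective h := fun z w hz => eq_of_forall_dist_le fun ε ε0 => by
    obtain ⟨δ, δ0, hδ⟩ := g8 ε ε0
    exact (hδ z w (by simpa [hz])).le
  have sur : Function.Surjective h := fun y => by
    choose z hz using fun n => (S n).hs y
    have t : Tendsto (fun n => h (z n)) atTop (𝓝 y) := tendsto_iff_norm_sub_tendsto_zero.2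
      (squeeze_zero (fun _ => norm_nonneg _) (fun n => by simpa [hz] using g7 n (z n)) te)
    obtain ⟨x, hx⟩ := cauchySeq_tendsto_of_complete (u := z) (Metric.cauchySeq_iff.2 fun ε ε0 => by
      obtain ⟨δ, δ0, hδ⟩ := g8 ε ε0
      exact (Metric.cauchySeq_iff.1 t.cauchySeq δ δ0).imp fun N hN m hm n hn =>
        hδ _ _ (hN m hm n hn))
    exact ⟨x, tendsto_nhds_unique ((hc.tendsto x).comp hx) t⟩
  let E := Equiv.ofBijective h ⟨inj, sur⟩
  refine ⟨⟨E, hc, UniformContinuous.continuous (Metric.uniformContinuous_iff.2 fun ε ε0 =>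
    (g8 ε ε0).imp fun δ hδ => ⟨hδ.1, fun a b hab => hδ.2 _ _ ?_⟩)⟩, S, _, te, g7, fun n => ?_,
    g2, rfl⟩
  · linarith [(f^[n] p0).2.2.1]
  · exact (congrArg₂ dist (E.apply_symm_apply a) (E.apply_symm_apply b)).trans_lt hab

noncomputable def cy (z : ℂ) : ℝ := 2 * z.im / √3
noncomputable def cx (z : ℂ) : ℝ := z.re - z.im / √3
noncomputable def Nn (z : ℂ) : ℝ := max |cx z| (max |cy z| |cx z + cy z|)

lemma Nn_cont : Continuous Nn := by unfold Nn cx cy; fun_prop

lemma dec (z : ℂ) : ∃ x y : ℝ, z = x + y * om :=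
  ⟨cx z, cy z, by apply Complex.ext <;> simp [cx, cy, om_re, om_im] <;> field_simp <;> ring⟩

lemma Nn_eq (x y : ℝ) : Nn (x + y * om) = max |x| (max |y| |x + y|) := by
  have a : cx (x + y * om) = x := by simp [cx, om_re, om_im]; field_simp; ring
  have b : cy (x + y * om) = y := by simp [cy, om_im]; field_simp
  rw [Nn, a, b]

lemma Nn_rot (z : ℂ) : Nn (om * z) = Nn z := by
  obtain ⟨x, y, rfl⟩ := dec z
  rw [show om * (x + y * om) = (-y : ℝ) + (x + y : ℝ) * om by
    push_cast; linear_combination y * om_sq, Nn_eq, Nn_eq, abs_neg, show -y + (x + y) = x by ring,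
    max_comm |x|, max_assoc]

lemma Nn_pow (k : ℕ) (z : ℂ) : Nn (om ^ k * z) = Nn z := by
  induction k with
  | zero => simp
  | succ k ih => rw [pow_succ', mul_assoc, Nn_rot, ih]

lemma Nn_smul (r : ℝ) (z : ℂ) : Nn (r * z) = |r| * Nn z := by
  obtain ⟨x, y, rfl⟩ := dec z
  rw [show r * (x + y * om) = (r * x : ℝ) + (r * y : ℝ) * om by push_cast; ring, Nn_eq, Nn_eq,
    ← mul_add, abs_mul, abs_mul, abs_mul, mul_max_of_nonneg _ _ (abs_nonneg r),
    mul_max_of_nonneg _ _ (abs_nonneg r)]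

lemma Nn_add (z w : ℂ) : Nn (z + w) ≤ Nn z + Nn w := by
  obtain ⟨x, y, rfl⟩ := dec z
  obtain ⟨a, b, rfl⟩ := dec w
  rw [show (x + y * om + (a + b * om) : ℂ) = (x + a : ℝ) + (y + b : ℝ) * om by push_cast; ring,
    Nn_eq, Nn_eq, Nn_eq, add_add_add_comm]
  refine max_le ?_ (max_le ?_ ?_) <;> refine (abs_add_le _ _).trans (add_le_add ?_ ?_) <;> simp

lemma Nn_conv : ConvexOn ℝ univ Nn := ⟨convex_univ, fun x _ y _ a b ha hb _ =>
  (Nn_add _ _).trans_eq (by
    simp only [real_smul, Nn_smul, abs_of_nonneg ha, abs_of_nonneg hb, smul_eq_mul])⟩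

lemma Nn_norm (z : ℂ) : ‖z‖ ≤ 2 * Nn z ∧ Nn z ≤ 2 * ‖z‖ := by
  obtain ⟨x, y, rfl⟩ := dec z
  have h := nsq x y
  have h0 := norm_nonneg (x + y * om : ℂ)
  rw [Nn_eq]
  constructor
  · refine (norm_add_le _ _).trans ?_
    simp only [norm_mul, om_norm, Complex.norm_real, Real.norm_eq_abs, mul_one, two_mul]
    exact add_le_add (by simp) (by simp)
  · refine max_le ?_ (max_le ?_ ?_) <;> refine abs_le_of_sq_le_sq ?_ (by positivity) <;>
      nlinarith [sq_nonneg (x + y), sq_nonneg x, sq_nonneg y]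

lemma bd_iff (z : ℂ) : Nn z = 1 ↔
    ∃ (k : ℕ) (t : ℝ), 0 ≤ t ∧ t ≤ 1 ∧ z = om ^ k + om ^ k * om ^ 2 * t := by
  constructor
  · obtain ⟨x, y, rfl⟩ := dec z
    rw [Nn_eq]
    intro h
    have a := abs_le.1 ((le_max_left _ _).trans h.le)
    have b := abs_le.1 ((le_max_left _ _).trans ((le_max_right _ _).trans h.le))
    have c := abs_le.1 ((le_max_right _ _).trans ((le_max_right _ _).trans h.le))
    have o := om_sq
    have : |x| = 1 ∨ |y| = 1 ∨ |x + y| = 1 := by
      rcases max_choice |x| (max |y| |x + y|) with e | e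
      · exact .inl (e ▸ h)
      · rcases max_choice |y| |x + y| with e' | e'
        · exact .inr (.inl (e' ▸ e ▸ h))
        · exact .inr (.inr (e' ▸ e ▸ h))
    simp only [abs_eq zero_le_one] at this
    rcases this with (rfl | rfl) | (rfl | rfl) | e | e
    · exact ⟨5, 1 + y, by linarith, by linarith, by push_cast; grind⟩
    · exact ⟨2, 1 - y, by linarith, by linarith, by push_cast; grind⟩
    · exact ⟨1, -x, by linarith, by linarith, by push_cast; grind⟩
    · exact ⟨4, x, by linarith, by linarith, by push_cast; grind⟩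
    · obtain rfl : x = 1 - y := by linarith
      exact ⟨0, y, by linarith, by linarith, by push_cast; grind⟩
    · obtain rfl : x = -1 - y := by linarith
      exact ⟨3, -y, by linarith, by linarith, by push_cast; grind⟩
  · rintro ⟨k, t, h0, h1, rfl⟩
    rw [show om ^ k + om ^ k * om ^ 2 * t = om ^ k * ((1 - t : ℝ) + t * om) by
      push_cast; linear_combination om ^ k * t * om_sq, Nn_pow, Nn_eq, sub_add_cancel,
      abs_of_nonneg h0, abs_of_nonneg (by linarith), abs_one, max_eq_right h1,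
      max_eq_right (by linarith)]

lemma int_lt {z : ℂ} (h : z ∈ interior {z | Nn z ≤ 1}) : Nn z < 1 := by
  by_contra h1
  have : ∀ᶠ r : ℝ in 𝓝 1, r * z ∈ {z | Nn z ≤ 1} :=
    (show Continuous fun r : ℝ => r * z by fun_prop).continuousAt.eventually_mem
      (by simpa using mem_interior_iff_mem_nhds.1 h)
  obtain ⟨r, a, b⟩ := ((this.filter_mono nhdsWithin_le_nhds).and
    (self_mem_nhdsWithin (a := (1 : ℝ)) (s := Ioi 1))).exists
  have b : 1 < r := b
  rw [mem_ofPred_eq, Nn_smul, abs_of_pos (by linarith)] at a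
  nlinarith

lemma cover (z : ℂ) : ∃ a b : ℤ, Nn (z - ((3 * a + b : ℤ) + b * om)) ≤ 1 := by
  obtain ⟨x, y, rfl⟩ := dec z
  have key : ∀ X Y : ℤ, 3 ∣ X - Y → |x - X| ≤ 1 → |y - Y| ≤ 1 → |x - X + (y - Y)| ≤ 1 →
      ∃ a b : ℤ, Nn (x + y * om - ((3 * a + b : ℤ) + b * om)) ≤ 1 := fun X Y ⟨a, h⟩ h1 h2 h3 =>
    ⟨a, Y, by
      rw [← h, sub_add_cancel, show (x + y * om - (X + Y * om) : ℂ) =
        (x - X : ℝ) + (y - Y : ℝ) * om by push_cast; ring, Nn_eq]
      exact max_le h1 (max_le h2 h3)⟩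
  have a1 := Int.floor_le x
  have a2 := Int.lt_floor_add_one x
  have a3 := Int.floor_le y
  have a4 := Int.lt_floor_add_one y
  generalize ⌊x⌋ = i at *
  generalize ⌊y⌋ = j at *
  have : 3 ∣ i - j ∨ 3 ∣ i + 1 - j ∨ 3 ∣ i - (j + 1) := by omega
  rcases this with h | h | h
  · rcases le_total (x - i + (y - j)) 1 with h' | h'
    · refine key i j h ?_ ?_ ?_ <;> rw [abs_le] <;> constructor <;> linarith
    · refine key (i + 1) (j + 1) (by omega) ?_ ?_ ?_ <;> push_cast <;> rw [abs_le] <;>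
        constructor <;> linarith
  all_goals refine key _ _ h ?_ ?_ ?_ <;> push_cast <;> rw [abs_le] <;> constructor <;> linarith

lemma sep {X Y : ℤ} (h : 3 ∣ X - Y) (h' : Nn (X + Y * om) < 2) : X = 0 ∧ Y = 0 := by
  have := Nn_eq X Y
  push_cast at this
  rw [this, max_lt_iff, max_lt_iff] at h'
  have a : |X| < 2 := by exact_mod_cast h'.1
  have b : |Y| < 2 := by exact_mod_cast h'.2.1
  have c : |X + Y| < 2 := by exact_mod_cast h'.2.2
  rw [abs_lt] at a b c
  omega

lemma noncol {x y c o : ℂ} (hc : c ≠ 0) (hx : ‖x - 1‖ ≤ 1 / 5) (hy : ‖y - o‖ ≤ 1 / 5)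
    (ho : o = om ∨ o = 1 - om) (h1 : (x * c).im = 0) (h2 : (y * c).im = 0) : False := by
  have a1 := abs_le.1 ((abs_re_le_norm _).trans hx)
  have a2 := abs_le.1 ((abs_im_le_norm _).trans hx)
  have a3 := abs_le.1 ((abs_re_le_norm _).trans hy)
  have a4 := abs_le.1 ((abs_im_le_norm _).trans hy)
  have b : x.re * y.im - x.im * y.re = 0 := by
    by_contra h
    rw [mul_im] at h1 h2
    exact hc (Complex.ext (mul_left_cancel₀ h (by
      simp only [zero_re]; linear_combination x.re * h2 - y.re * h1)) (mul_left_cancel₀ h (by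
      simp only [zero_im]; linear_combination y.im * h1 - x.im * h2)))
  have s : 1.7 ≤ √3 := Real.le_sqrt_of_sq_le (by norm_num)
  rcases ho with rfl | rfl <;> simp only [sub_re, sub_im, one_re, one_im, om_re, om_im] at * <;>
    nlinarith

end Pool.Agent.H8.Hex
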