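import Pool.Agent.H8.HzDefs

namespace Pool.Agent.H8.Hz

open Function

structure IsP (n : ℕ) (f : ℕ → ℕ) : Prop where
  inj : Injective f
  fix : ∀ i, n ≤ i → f i = i

lemma IsP.lt {n : ℕ} {f : ℕ → ℕ} (h : IsP n f) {i : ℕ} (hi : i < n) : f i < n := by
  by_contra hc
  have := h.inj (h.fix (f i) (by omega))
  omega

lemma cnt {t : ℕ → ℕ} (h : Injective t) {a b : ℕ} (hab : ∀ j < a, t j < b) : a ≤ b := by
  have := Finset.card_le_card_of_injOn (s := Finset.range a) (t := Finset.range b) t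
    (fun j hj => by simpa using hab j (by simpa using hj)) h.injOn
  simpa using this

lemma onto {t : ℕ → ℕ} (h : Injective t) {a : ℕ} (ha : ∀ j < a, t j < a) {v : ℕ} (hv : v < a) :
    ∃ j < a, t j = v := by
  have := Finset.surj_on_of_inj_on_of_card_le (s := Finset.range a) (t := Finset.range a)
    (fun j _ => t j) (fun j hj => by simpa using ha j (by simpa using hj))
    (fun _ _ _ _ e => h e) le_rfl v (by simpa using hv)
  obtain ⟨j, hj, e⟩ := this
  exact ⟨j, by simpa using hj, e.symm⟩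

lemma IsP.onto {n : ℕ} {f : ℕ → ℕ} (h : IsP n f) {v : ℕ} (hv : v < n) : ∃ j < n, f j = v :=
  Hz.onto h.inj (fun _ hj => h.lt hj) hv

def Occ (f t : ℕ → ℕ) (k i m : ℕ) : Prop := ∀ j < k, f (i + j) = m + t j

def Om (t : ℕ → ℕ) (k s : ℕ) : Prop := s < k ∧ ∀ j, j + s < k → t (j + s) = t j + s

def MB (t : ℕ → ℕ) (k : ℕ) : Prop := ∀ x y, t x = 0 → t y = k - 1 → x ≤ y

lemma good {k : ℕ} {t f : ℕ → ℕ} (ht : IsP k t) (hm : MB t k) (hf : Injective f) {i m m' d : ℕ}
    (h1 : Occ f t k i m) (h2 : Occ f t k (i + d) m') (h0 : 0 < d) (hd : d < k) :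
    m' = m + d ∧ Om t k d := by
  have st : ∀ j, j + d < k → m + t (j + d) = m' + t j := fun j hj => by
    rw [← h1 _ hj, ← h2 j (by omega)]; congr 1; omega
  have s0 := st 0 (by omega)
  have l0 := ht.lt (show 0 < k by omega)
  have ld := ht.lt (show 0 + d < k by omega)
  have hlt : m < m' := by
    by_contra hc
    obtain ⟨x, hx, ex⟩ := ht.onto (show 0 < k by omega)
    obtain ⟨y, hy, ey⟩ := ht.onto (show k - 1 < k by omega)
    have hxy := hm x y ex ey
    obtain ⟨z, hz, ez⟩ := ht.onto (show m - m' < k by omega)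
    have e1 : f (i + x) = f (i + d + z) := by rw [h1 x hx, h2 z hz]; omega
    have e2 := hf e1
    have e3 := st (y - d) (by omega)
    rw [show y - d + d = y by omega] at e3
    have e4 := ht.lt (show y - d < k by omega)
    have e5 : t (y - d) = t y := by omega
    have := ht.inj e5
    omega
  have a1 : k - d ≤ k - (m' - m) := cnt ht.inj fun j hj => by
    have := st j (by omega)
    have := ht.lt (show j + d < k by omega)
    omega
  have a2 : d ≤ m' - m := cnt ht.inj fun j hj => by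
    by_contra hc
    have := ht.lt (show j < k by omega)
    obtain ⟨z, hz, ez⟩ := ht.onto (show t j - (m' - m) < k by omega)
    have e1 : f (i + j) = f (i + d + z) := by rw [h1 j (by omega), h2 z hz]; omega
    have := hf e1
    omega
  exact ⟨by omega, hd, fun j hj => by have := st j hj; omega⟩

lemma Om.lo {k s : ℕ} {t : ℕ → ℕ} (ht : IsP k t) (h : Om t k s) {j : ℕ} (hj : j < k - s) :
    t j < k - s := by
  have := h.2 j (by omega)
  have := ht.lt (show j + s < k by omega)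
  omega

lemma Om.cut {k s : ℕ} {t : ℕ → ℕ} (ht : IsP k t) (h : Om t k s) {j : ℕ} (hj : j < s) :
    t j < s := by
  by_contra hc
  have := h.1
  have := ht.lt (show j < k by omega)
  obtain ⟨z, hz, ez⟩ := onto ht.inj (fun _ => h.lo ht) (show t j - s < k - s by omega)
  have e : t (z + s) = t j := by rw [h.2 z (by omega)]; omega
  have := ht.inj e
  omega

lemma Om.hi {k s : ℕ} {t : ℕ → ℕ} (ht : IsP k t) (h : Om t k s) {j : ℕ} (hj : k - s ≤ j) :
    k - s ≤ t j := by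
  by_contra hc
  obtain ⟨z, hz, ez⟩ := onto ht.inj (fun _ => h.lo ht) (show t j < k - s by omega)
  have := ht.inj ez
  omega

lemma Om.add {k s d : ℕ} {t : ℕ → ℕ} (h : Om t k s) (h' : Om t k d) (hk : s + d < k) :
    Om t k (s + d) :=
  ⟨hk, fun j hj => by rw [← add_assoc, h'.2 _ (by omega), h.2 _ (by omega)]; omega⟩

section
variable (σ τ : ℕ → ℕ) (k n : ℕ)

def L (f : ℕ → ℕ) (p : ℕ) : Prop := ∀ i m, i + k ≤ p → ¬ Occ f σ k i m

def R (f : ℕ → ℕ) (p : ℕ) : Prop := ∀ i m, p ≤ i → i + k ≤ n → ¬ Occ f τ k i m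

def Tp (f : ℕ → ℕ) (p : ℕ) : Prop := L σ k f p ∧ R τ k n f (p + 1) ∧ ¬ R τ k n f p

def Sp (f : ℕ → ℕ) (p : ℕ) : Prop := L σ k f p ∧ ¬ L σ k f (p + 1) ∧ R τ k n f (p + 1)

def Pre (f : ℕ → ℕ) (p w s : ℕ) : Prop :=
  ∃ c v, p = c + s ∧ w = v + s ∧ ∀ j < s, f (c + j) = v + σ j

def Rel (f : ℕ → ℕ) (p : ℕ) (g : ℕ → ℕ) (q : ℕ) : Prop :=
  ∃ c v s, p + 1 = c + k ∧ q = c + s ∧ Om σ k s ∧ Om τ k s ∧ Occ f σ k c v ∧
    Occ g τ k (c + s) (v + s) ∧ (∀ i, ¬ (c + s ≤ i ∧ i < c + k) → g i = f i) ∧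
    ∀ s', Om σ k s' → Pre σ g (c + s) (v + s) s' → s' ≤ s

end

variable {σ τ : ℕ → ℕ} {k n : ℕ}

lemma rel_ex (hσ : IsP k σ) (hτ : IsP k τ) (hm : MB τ k) (hk : 0 < k)
    (H : ∀ s, Om τ k s → k + s ≤ n → Om σ k s) {f : ℕ → ℕ} {p : ℕ} (hf : IsP n f) (hp : p < n)
    (hS : Sp σ τ k n f p) : ∃ g q, IsP n g ∧ q < n ∧ Tp σ τ k n g q ∧ Rel σ τ k f p g q := by
  classical
  obtain ⟨h1, h2, h3⟩ := hS
  simp only [L, not_forall, not_not] at h2
  obtain ⟨c, v, hc, ho⟩ := h2
  have hcp : p + 1 = c + k := by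
    by_contra e
    exact h1 c v (by omega) ho
  let D : ℕ → Prop := fun s => Om τ k s ∧ c + k + s ≤ n ∧
    ∀ j, k - s ≤ j → j < k → f (c + s + j) = v + s + τ j
  have D0 : D 0 := ⟨⟨hk, fun _ _ => rfl⟩, by omega, fun j _ _ => by omega⟩
  obtain ⟨s, ⟨sτ, sn, sD⟩, smax⟩ : ∃ s, D s ∧ ∀ s', D s' → s' ≤ s :=
    ⟨Nat.findGreatest D k, Nat.findGreatest_spec (Nat.zero_le k) D0,
      fun s' h => Nat.le_findGreatest h.1.1.le h⟩
  have sσ := H s sτ (by omega)
  have sk := sτ.1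
  let g : ℕ → ℕ := fun i => if c + s ≤ i ∧ i < c + k then v + s + τ (i - (c + s)) else f i
  have g1 : ∀ i, ¬ (c + s ≤ i ∧ i < c + k) → g i = f i := fun i hi => if_neg hi
  have g2 : ∀ i, c + s ≤ i → i < c + k → g i = v + s + τ (i - (c + s)) :=
    fun i a b => if_pos ⟨a, b⟩
  have aux : ∀ i j, c + s ≤ i → i < c + k → ¬ (c + s ≤ j ∧ j < c + k) → g i ≠ g j := by
    intro i j a b hj e
    rw [g1 j hj, g2 i a b] at e
    obtain ⟨z, hz, ez⟩ := onto hσ.inj (fun _ => sσ.lo hσ)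
      (sτ.lo hτ (show i - (c + s) < k - s by omega))
    have e1 : f (c + (z + s)) = f j := by rw [ho _ (by omega), sσ.2 z (by omega)]; omega
    have := hf.inj e1
    omega
  have gP : IsP n g := by
    refine ⟨fun i j e => ?_, fun i hi => by rw [g1 i (by omega), hf.fix i hi]⟩
    by_cases a : c + s ≤ i ∧ i < c + k <;> by_cases b : c + s ≤ j ∧ j < c + k
    · rw [g2 i a.1 a.2, g2 j b.1 b.2] at e
      have := hτ.inj (Nat.add_left_cancel e)
      omega
    · exact absurd e (aux i j a.1 a.2 b)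
    · exact absurd e.symm (aux j i b.1 b.2 a)
    · rw [g1 i a, g1 j b] at e; exact hf.inj e
  have go : Occ g τ k (c + s) (v + s) := fun j hj => by
    by_cases a : j < k - s
    · rw [g2 _ (by omega) (by omega)]; congr 2; omega
    · rw [g1 _ (by omega), sD j (by omega) hj]
  refine ⟨g, c + s, gP, by omega, ⟨fun i m hi hO => h1 i m (by omega) fun j hj => ?_,
    fun i m hi hn hO => ?_, fun hR => hR _ _ le_rfl (by omega) go⟩,
    c, v, s, hcp, rfl, sσ, sτ, ho, go, g1, ?_⟩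
  · rw [← hO j hj, g1 _ (by omega)]
  · by_cases a : c + k ≤ i
    · exact h3 i m (by omega) hn fun j hj => by rw [← hO j hj, g1 _ (by omega)]
    · obtain ⟨d, rfl⟩ : ∃ d, i = c + s + d := ⟨i - (c + s), by omega⟩
      obtain ⟨rfl, hd⟩ := good hτ hm gP.inj go hO (by omega) (by omega)
      have := smax (s + d) ⟨sτ.add hd (by omega), by omega, fun j a b => by
        have := hO j b
        rw [g1 _ (by omega)] at this
        rw [← add_assoc, ← add_assoc, this]⟩
      omega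
  · rintro s' hs' ⟨c', v', e1, e2, hP⟩
    by_contra hlt
    have := hs'.1
    refine h1 c' v' (by omega) fun j hj => ?_
    by_cases a : j < s'
    · rw [← hP j a, g1 _ (by omega)]
    · obtain ⟨r, rfl⟩ : ∃ r, j = r + s' := ⟨j - s', by omega⟩
      rw [show c' + (r + s') = c + (r + s) by omega, ho _ (by omega), hs'.2 r hj,
        sσ.2 r (by omega)]
      omega

lemma Rel.pre {f g : ℕ → ℕ} {c v s : ℕ} (h : Om σ k s) (ho : Occ f σ k c v)
    (hg : ∀ i, ¬ (c + s ≤ i ∧ i < c + k) → g i = f i) : Pre σ g (c + s) (v + s) s :=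
  ⟨c, v, rfl, rfl, fun j hj => by have := h.1; rw [hg _ (by omega), ho j (by omega)]⟩

lemma rel_uniq (hk : 0 < k) {f f' g : ℕ → ℕ} {p p' q : ℕ} (h : Rel σ τ k f p g q)
    (h' : Rel σ τ k f' p' g q) : f = f' ∧ p = p' := by
  obtain ⟨c, v, s, a1, a2, a3, -, a5, a6, a7, a8⟩ := h
  obtain ⟨c', v', s', b1, b2, b3, -, b5, b6, b7, b8⟩ := h'
  have e1 : c + s = c' + s' := by omega
  have e2 : v + s = v' + s' := by
    have x := a6 0 hk
    have y := b6 0 hk
    rw [e1] at x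
    omega
  have l1 := a8 s' b3 (by rw [e1, e2]; exact Rel.pre b3 b5 b7)
  have l2 := b8 s a3 (by rw [← e1, ← e2]; exact Rel.pre a3 a5 a7)
  obtain rfl : s = s' := by omega
  obtain rfl : c = c' := by omega
  obtain rfl : v = v' := by omega
  refine ⟨funext fun i => ?_, by omega⟩
  by_cases a : c + s ≤ i ∧ i < c + k
  · obtain ⟨j, rfl⟩ : ∃ j, i = c + j := ⟨i - c, by omega⟩
    rw [a5 j (by omega), b5 j (by omega)]
  · rw [← a7 i a, b7 i a]

lemma witness (hσ : IsP k σ) (hτ : IsP k τ) {s : ℕ} (h1 : Om σ k s) (h2 : ¬ Om τ k s) :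
    ∃ g, IsP (k + s) g ∧ Tp σ τ k (k + s) g s ∧ ∀ f p, ¬ Rel σ τ k f p g s := by
  have sk := h1.1
  let g : ℕ → ℕ := fun i => if i < s then σ i else s + τ (i - s)
  have g1 : ∀ i, i < s → g i = σ i := fun i hi => if_pos hi
  have g2 : ∀ i, ¬ i < s → g i = s + τ (i - s) := fun i hi => if_neg hi
  have go : Occ g τ k s s := fun j hj => by rw [g2 _ (by omega)]; simp
  refine ⟨g, ⟨fun i j e => ?_, fun i hi => by rw [g2 i (by omega), hτ.fix _ (by omega)]; omega⟩,
    ⟨fun i m hi => by omega, fun i m hi hn => by omega, fun hR => hR _ _ le_rfl (by omega) go⟩, ?_⟩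
  · by_cases a : i < s <;> by_cases b : j < s
    · rw [g1 i a, g1 j b] at e; exact hσ.inj e
    · rw [g1 i a, g2 j b] at e; have := h1.cut hσ a; omega
    · rw [g2 i a, g1 j b] at e; have := h1.cut hσ b; omega
    · rw [g2 i a, g2 j b] at e; have := hτ.inj (Nat.add_left_cancel e); omega
  · rintro f p ⟨c, v, s', a1, a2, a3, a4, a5, a6, a7, a8⟩
    have x := a6 0 (by omega)
    have y := go 0 (by omega)
    rw [← a2] at x
    have := a8 s h1 ⟨0, 0, by omega, by omega, fun j hj => by simp [g1 j hj]⟩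
    obtain rfl : s = s' := by omega
    exact h2 a4

end Pool.Agent.H8.Hz
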