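import Pool.Agent.H8.Hz1

namespace Pool.Agent.H8.Hz

open Function Finset

def ext {n : ℕ} (π : Equiv.Perm (Fin n)) (i : ℕ) : ℕ := if h : i < n then (π ⟨i, h⟩).val else i

lemma ext_lt {n : ℕ} (π : Equiv.Perm (Fin n)) {i : ℕ} (h : i < n) : ext π i = (π ⟨i, h⟩).val :=
  dif_pos h

lemma ext_isP {n : ℕ} (π : Equiv.Perm (Fin n)) : IsP n (ext π) := by
  have fx : ∀ i, n ≤ i → ext π i = i := fun i hi => dif_neg (by omega)
  refine ⟨fun i j e => ?_, fx⟩
  by_cases a : i < n <;> by_cases b : j < n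
  · rw [ext_lt π a, ext_lt π b] at e
    simpa using π.injective (Fin.ext e)
  · rw [ext_lt π a, fx j (by omega)] at e; have := (π ⟨i, a⟩).2; omega
  · rw [ext_lt π b, fx i (by omega)] at e; have := (π ⟨j, b⟩).2; omega
  · rwa [fx i (by omega), fx j (by omega)] at e

lemma ext_inj {n : ℕ} {π ρ : Equiv.Perm (Fin n)} (h : ext π = ext ρ) : π = ρ :=
  Equiv.ext fun i => Fin.ext (by rw [← ext_lt π i.2, ← ext_lt ρ i.2, h])

lemma exists_ext {n : ℕ} {f : ℕ → ℕ} (h : IsP n f) : ∃ π : Equiv.Perm (Fin n), ext π = f := by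
  have inj : Injective fun i : Fin n => (⟨f i, h.lt i.2⟩ : Fin n) := fun i j e =>
    Fin.ext (h.inj (Fin.ext_iff.1 e))
  refine ⟨Equiv.ofBijective _ (Finite.injective_iff_bijective.1 inj), funext fun i => ?_⟩
  by_cases a : i < n
  · rw [ext_lt _ a]; rfl
  · rw [(ext_isP _).fix i (by omega), h.fix i (by omega)]

lemma occurs_iff {k n : ℕ} (hk : 0 < k) (τ : Equiv.Perm (Fin k)) (π : Equiv.Perm (Fin n)) :
    Occurs τ π ↔ ∃ i m, i + k ≤ n ∧ Occ (ext π) (ext τ) k i m := by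
  constructor
  · rintro ⟨i, m, h, H⟩
    have h0 := H (τ.symm ⟨0, hk⟩)
    simp only [Equiv.apply_symm_apply] at h0
    refine ⟨i, m.toNat, h, fun j hj => ?_⟩
    have := H ⟨j, hj⟩
    rw [ext_lt π (show i + j < n by omega), ext_lt τ hj]
    simp only at this
    omega
  · rintro ⟨i, m, h, H⟩
    refine ⟨i, m, h, fun j => ?_⟩
    have := H j j.2
    rw [ext_lt π (show i + j < n by omega), ext_lt τ j.2] at this
    exact_mod_cast this

open Classical in
lemma tele {σ τ f : ℕ → ℕ} {k n : ℕ} (hk : 0 < k) : ∀ p,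
    (if L σ k f p ∧ R τ k n f p then 1 else 0) + ∑ q ∈ range p, (if Sp σ τ k n f q then 1 else 0)
      = (if R τ k n f 0 then 1 else 0) + ∑ q ∈ range p, (if Tp σ τ k n f q then 1 else 0)
  | 0 => by
    have : L σ k f 0 := fun i m hi => by omega
    simp [this]
  | p + 1 => by
    have ih := tele (σ := σ) (τ := τ) (f := f) (n := n) hk p
    have a : L σ k f (p + 1) → L σ k f p := fun h i m hi => h i m (by omega)
    have b : R τ k n f p → R τ k n f (p + 1) := fun h i m hi => h i m (by omega)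
    rw [sum_range_succ, sum_range_succ, ← add_assoc, ← add_assoc, ← ih]
    unfold Sp Tp
    by_cases h1 : L σ k f p <;> by_cases h2 : L σ k f (p + 1) <;> by_cases h3 : R τ k n f p <;>
      by_cases h4 : R τ k n f (p + 1) <;> simp [h1, h2, h3, h4] at a b ⊢ <;> omega

open Classical in
noncomputable def SS {k : ℕ} (σ τ : Equiv.Perm (Fin k)) (n : ℕ) :
    Finset (Equiv.Perm (Fin n) × ℕ) :=
  (univ ×ˢ range n).filter fun x => Sp (ext σ) (ext τ) k n (ext x.1) x.2

open Classical in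
noncomputable def TT {k : ℕ} (σ τ : Equiv.Perm (Fin k)) (n : ℕ) :
    Finset (Equiv.Perm (Fin n) × ℕ) :=
  (univ ×ˢ range n).filter fun x => Tp (ext σ) (ext τ) k n (ext x.1) x.2

lemma balance {k : ℕ} (hk : 0 < k) (σ τ : Equiv.Perm (Fin k)) (n : ℕ) :
    avoiders σ n + (SS σ τ n).card = avoiders τ n + (TT σ τ n).card := by
  classical
  simp only [avoiders, Nat.card_eq_fintype_card, Fintype.card_subtype, SS, TT, card_filter,
    sum_product, ← sum_add_distrib]
  refine sum_congr rfl fun π _ => ?_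
  have := tele (σ := ext σ) (τ := ext τ) (f := ext π) (n := n) hk n
  have a : (L (ext σ) k (ext π) n ∧ R (ext τ) k n (ext π) n) ↔ ¬ Occurs σ π := by
    rw [occurs_iff hk]
    exact ⟨fun h ⟨i, m, a, b⟩ => h.1 i m a b,
      fun h => ⟨fun i m a b => h ⟨i, m, a, b⟩, fun i m a b => by omega⟩⟩
  have b : R (ext τ) k n (ext π) 0 ↔ ¬ Occurs τ π := by
    rw [occurs_iff hk]
    exact ⟨fun h ⟨i, m, a, b⟩ => h i m (by omega) a b, fun h i m _ a b => h ⟨i, m, a, b⟩⟩
  simp only [a, b] at this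
  convert this

lemma card_le {k n : ℕ} (hk : 0 < k) {σ τ : Equiv.Perm (Fin k)} (hm : MB (ext τ) k)
    (H : ∀ s, Om (ext τ) k s → k + s ≤ n → Om (ext σ) k s) (U : Finset (Equiv.Perm (Fin n) × ℕ))
    (hU : ∀ y ∈ TT σ τ n, ∀ f p, Rel (ext σ) (ext τ) k f p (ext y.1) y.2 → y ∈ U) :
    (SS σ τ n).card ≤ U.card := by
  classical
  refine card_le_card_of_forall_subsingleton
    (fun x y => Rel (ext σ) (ext τ) k (ext x.1) x.2 (ext y.1) y.2) (fun x hx => ?_) ?_
  · simp only [SS, mem_filter, mem_product, mem_univ, mem_range, true_and] at hx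
    obtain ⟨g, q, h1, h2, h3, h4⟩ :=
      rel_ex (ext_isP σ) (ext_isP τ) hm hk H (ext_isP x.1) hx.1 hx.2
    obtain ⟨ρ, rfl⟩ := exists_ext h1
    exact ⟨(ρ, q), hU _ (by simp [TT, h2, h3]) _ _ h4, h4⟩
  · rintro y - x ⟨-, hx⟩ x' ⟨-, hx'⟩
    obtain ⟨e1, e2⟩ := rel_uniq hk hx hx'
    exact Prod.ext (ext_inj e1) e2

lemma av_le {k n : ℕ} (hk : 0 < k) {σ τ : Equiv.Perm (Fin k)} (hm : MB (ext τ) k)
    (H : ∀ s, Om (ext τ) k s → Om (ext σ) k s) : avoiders τ n ≤ avoiders σ n := by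
  have := card_le (n := n) hk hm (fun s h _ => H s h) _ fun y hy _ _ _ => hy
  have := balance hk σ τ n
  omega

lemma av_lt {k s : ℕ} (hk : 0 < k) {σ τ : Equiv.Perm (Fin k)} (hm : MB (ext τ) k)
    (H : ∀ r < s, Om (ext τ) k r → Om (ext σ) k r) (h1 : Om (ext σ) k s)
    (h2 : ¬ Om (ext τ) k s) : avoiders τ (k + s) < avoiders σ (k + s) := by
  classical
  obtain ⟨g, a1, a2, a3⟩ := witness (ext_isP σ) (ext_isP τ) h1 h2
  obtain ⟨ρ, rfl⟩ := exists_ext a1
  have mem : (ρ, s) ∈ TT σ τ (k + s) := by simp [TT, a2, hk]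
  have := card_le (n := k + s) hk hm (fun r h hr => by
    rcases (show r < s ∨ r = s by omega) with e | rfl
    exacts [H r e h, h1]) ((TT σ τ (k + s)).erase (ρ, s)) fun y hy f p h =>
      mem_erase.2 ⟨fun e => by subst e; exact a3 f p h, hy⟩
  have := card_erase_lt_of_mem mem
  have := balance hk σ τ (k + s)
  omega

lemma occurs_rev {k n : ℕ} {τ : Equiv.Perm (Fin k)} {π : Equiv.Perm (Fin n)} (h : Occurs τ π) :
    Occurs (Fin.revPerm * τ) (Fin.revPerm * π) := by
  obtain ⟨i, m, h, H⟩ := h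
  refine ⟨i, n - k - m, h, fun j => ?_⟩
  have := H j
  have := (τ j).2
  have := (π ⟨i + j.val, by omega⟩).2
  simp only [Equiv.Perm.coe_mul, comp_apply, Fin.revPerm_apply, Fin.val_rev]
  omega

lemma rev_rev {n : ℕ} (π : Equiv.Perm (Fin n)) : Fin.revPerm * (Fin.revPerm * π) = π := by
  ext i; simp

lemma av_rev {k : ℕ} (τ : Equiv.Perm (Fin k)) (n : ℕ) :
    avoiders (Fin.revPerm * τ) n = avoiders τ n := by
  refine (Nat.card_congr ((Equiv.mulLeft Fin.revPerm).subtypeEquiv fun π => not_congr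
    ⟨occurs_rev, fun h => ?_⟩)).symm
  have := occurs_rev h
  simpa [rev_rev] using this

lemma exists_MB {k : ℕ} (hk : 0 < k) (τ : Equiv.Perm (Fin k)) :
    ∃ ρ : Equiv.Perm (Fin k), MB (ext ρ) k ∧ ∀ n, avoiders ρ n = avoiders τ n := by
  by_cases h : MB (ext τ) k
  · exact ⟨τ, h, fun _ => rfl⟩
  · refine ⟨_, fun x y hx hy => ?_, av_rev τ⟩
    simp only [MB, not_forall] at h
    obtain ⟨a, b, ha, hb, hab⟩ := h
    have P := ext_isP (Fin.revPerm * τ)
    have Q := ext_isP τ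
    have key : ∀ i < k, ext (Fin.revPerm * τ) i = k - 1 - ext τ i := fun i hi => by
      rw [ext_lt _ hi, ext_lt _ hi]
      simp only [Equiv.Perm.coe_mul, comp_apply, Fin.revPerm_apply, Fin.val_rev]
      omega
    have la : a < k := by
      by_contra hc; rw [Q.fix a (by omega)] at ha; omega
    have lb : b < k := by omega
    have e1 : x = b := P.inj (by rw [hx, key b lb]; omega)
    have e2 : y = a := P.inj (by rw [hy, key a la]; omega)
    omega

theorem le_id {k : ℕ} (hk : 0 < k) (τ : Equiv.Perm (Fin k)) (n : ℕ) :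
    avoiders τ n ≤ avoiders (1 : Equiv.Perm (Fin k)) n := by
  obtain ⟨ρ, h1, h2⟩ := exists_MB hk τ
  rw [← h2]
  have e : ∀ i, ext (1 : Equiv.Perm (Fin k)) i = i := fun i => by unfold ext; split_ifs <;> simp
  exact av_le hk h1 fun s h => ⟨h.1, fun j _ => by rw [e, e]⟩

lemma wilf_iff {k : ℕ} (hk : 0 < k) {σ τ : Equiv.Perm (Fin k)} (h1 : MB (ext σ) k)
    (h2 : MB (ext τ) k) :
    (∀ n, avoiders σ n = avoiders τ n) ↔ ∀ s, Om (ext σ) k s ↔ Om (ext τ) k s := by
  refine ⟨fun h s => ?_, fun h n =>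
    le_antisymm (av_le hk h1 fun s => (h s).1) (av_le hk h2 fun s => (h s).2)⟩
  induction s using Nat.strong_induction_on with
  | _ s ih =>
    constructor <;> intro a <;> by_contra b
    · exact (av_lt hk h2 (fun r hr => (ih r hr).2) a b).ne' (h _)
    · exact (av_lt hk h1 (fun r hr => (ih r hr).1) a b).ne (h _)

end Pool.Agent.H8.Hz
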