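import Pool.Agent.H8.Hz2

namespace Pool.Agent.H8.Hz

def Per {α : Type} (u : ℕ → α) (n s : ℕ) : Prop := ∀ j, j + s < n → u (j + s) = u j

lemma per_shift {α : Type} {x : ℕ → α} {n p s : ℕ} (h : Per x n p) (hs : p ≤ s) :
    Per x n s ↔ Per x (n - p) (s - p) := by
  obtain ⟨r, rfl⟩ : ∃ r, s = r + p := ⟨s - p, by omega⟩
  rw [Nat.add_sub_cancel]
  constructor
  · intro H j hj
    rw [← h (j + r) (by omega), add_assoc, H j (by omega)]
  · intro H j hj
    rw [← add_assoc, h (j + r) (by omega), H j (by omega)]

lemma per_mod {α : Type} {x : ℕ → α} {n p : ℕ} (h : Per x n p) (hp : 0 < p) (j : ℕ) :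
    j < n → ∃ r < p, ∀ a, j + a < n → x (j + a) = x (r + a) := by
  induction j using Nat.strong_induction_on with
  | _ j ih =>
    intro hj
    by_cases c : j < p
    · exact ⟨j, c, fun _ _ => rfl⟩
    · obtain ⟨r, hr, H⟩ := ih (j - p) (by omega) (by omega)
      refine ⟨r, hr, fun a ha => ?_⟩
      rw [← H a (by omega), ← h (j - p + a) (by omega)]
      congr 1; omega

lemma per_congr {α : Type} {x y : ℕ → α} {n s : ℕ} (h : ∀ i < n, x i = y i) :
    Per x n s ↔ Per y n s :=
  forall_congr' fun j => forall_congr' fun hj => by rw [h _ hj, h j (by omega)]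

lemma pal {α : Type} (u : ℕ → α) (n : ℕ) : 1 ≤ n → u (n - 1) = u 0 →
    ∃ w : ℕ → Bool, (∀ i j, i + j + 1 = n → w i = w j) ∧ ∀ s < n, Per u n s ↔ Per w n s := by
  classical
  induction n using Nat.strong_induction_on with
  | _ n ih =>
  intro hn hu
  by_cases h1 : n = 1
  · refine ⟨fun _ => true, fun _ _ _ => rfl, fun s hs => ?_⟩
    obtain rfl : s = 0 := by omega
    simp [Per]
  have ex : ∃ p, 0 < p ∧ p < n ∧ Per u n p := ⟨n - 1, by omega, by omega, fun j hj => by
    obtain rfl : j = 0 := by omega
    simpa using hu⟩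
  obtain ⟨p, ⟨p0, pn, pu⟩, pmin⟩ : ∃ p, (0 < p ∧ p < n ∧ Per u n p) ∧
      ∀ s, 0 < s → s < p → ¬ Per u n s :=
    ⟨Nat.find ex, Nat.find_spec ex, fun s a b c =>
      Nat.find_min ex b ⟨a, b.trans (Nat.find_spec ex).2.1, c⟩⟩
  obtain ⟨w', a1, a2⟩ := ih (n - p) (by omega) (by omega) (by
    rw [← hu, ← pu (n - p - 1) (by omega)]; congr 1; omega)
  suffices H : ∃ w : ℕ → Bool, (∀ i j, i + j + 1 = n → w i = w j) ∧ Per w n p ∧
      (∀ i < n - p, w i = w' i) ∧ ∀ s, 0 < s → s < p → ¬ Per w n s by
    obtain ⟨w, b1, b2, b3, b4⟩ := H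
    refine ⟨w, b1, fun s hs => ?_⟩
    by_cases c : p ≤ s
    · rw [per_shift pu c, per_shift b2 c, a2 _ (by omega), per_congr b3]
    · by_cases c0 : s = 0
      · subst c0; simp [Per]
      · exact iff_of_false (pmin s (by omega) (by omega)) (b4 s (by omega) (by omega))
  by_cases c : 2 * p ≤ n
  · have pw : Per w' (n - p) p := by
      by_cases e : p < n - p
      · exact (a2 p e).1 fun j hj => pu j (by omega)
      · intro j hj; omega
    let w : ℕ → Bool := fun i => if i < n - p then w' i else w' (i - p)
    have w1 : ∀ i < n - p, w i = w' i := fun i hi => if_pos hi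
    have w2 : Per w n p := fun j hj => by
      rw [w1 j (by omega)]
      by_cases e : j + p < n - p
      · rw [w1 _ e, pw j e]
      · simp only [w, if_neg e, Nat.add_sub_cancel]
    have w3 : ∀ i j, i + j + 1 = n → p ≤ j → w i = w j := fun i j e hj => by
      obtain ⟨r, rfl⟩ : ∃ r, j = r + p := ⟨j - p, by omega⟩
      rw [w2 r (by omega), w1 i (by omega), w1 r (by omega), a1 i r (by omega)]
    refine ⟨w, fun i j e => ?_, w2, w1, fun s s0 sp hs => pmin s s0 sp fun j hj => ?_⟩
    · by_cases e' : p ≤ j
      · exact w3 i j e e'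
      · exact (w3 j i (by omega) (by omega)).symm
    · have u1 : Per u (n - p) s :=
        (a2 s (by omega)).2 ((per_congr w1).1 fun j hj => hs j (by omega))
      have u2 : Per u (n - p) (p - s) :=
        (a2 _ (by omega)).2 ((per_congr w1).1 fun j hj => by
          rw [← w2 j (by omega), ← hs (j + (p - s)) (by omega)]; congr 1; omega)
      obtain ⟨r, hr, H⟩ := per_mod pu p0 j (by omega)
      have e0 := H 0 (by omega)
      simp only [add_zero] at e0
      rw [H s hj, e0]
      by_cases e : r + s < p
      · exact u1 r (by omega)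
      · have f1 := pu (r + s - p) (by omega)
        have f2 := u2 (r + s - p) (by omega)
        rw [show r + s - p + p = r + s by omega] at f1
        rw [show r + s - p + (p - s) = r by omega] at f2
        rw [f1, f2]
  · obtain ⟨b, rfl⟩ : ∃ b, n = p + b := ⟨n - p, by omega⟩
    simp only [Nat.add_sub_cancel_left] at *
    let W : Bool → ℕ → Bool := fun a i => if i < b then w' i else if i < p then a else w' (i - p)
    have W1 : ∀ a, ∀ i < b, W a i = w' i := fun a i hi => if_pos hi
    have W2 : ∀ a i, b ≤ i → i < p → W a i = a := fun a i h h' => by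
      simp only [W, if_neg (not_lt.2 h), if_pos h']
    have W3 : ∀ a i, W a (i + p) = w' i := fun a i => by
      simp only [W, if_neg (show ¬ i + p < b by omega), if_neg (show ¬ i + p < p by omega),
        Nat.add_sub_cancel]
    have Wp : ∀ a, Per (W a) (p + b) p := fun a j hj => by rw [W3, W1 a j (by omega)]
    have big : ∀ a s, b ≤ s → s < p → Per (W a) (p + b) s → ∀ i < b, w' i = a := by
      intro a s h h' H i
      induction i using Nat.strong_induction_on with
      | _ i ih =>
        intro hi
        rw [← W1 a i hi, ← H i (by omega)]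
        by_cases e : i + s < p
        · exact W2 a _ (by omega) e
        · rw [show i + s = (i + s - p) + p by omega, W3]
          exact ih _ (by omega) (by omega)
    have sm : ∀ a s, 0 < s → s ≤ b → Per (W a) (p + b) s → w' (b - s) = a := by
      intro a s h h' H
      rw [← W1 a _ (by omega), ← H _ (by omega), W2 a _ (by omega) (by omega)]
    have ch : ∃ a, ∀ s, 0 < s → s < p → ¬ Per (W a) (p + b) s := by
      by_contra hc
      push Not at hc
      obtain ⟨x, x0, xp, hx⟩ := hc false
      obtain ⟨y, y0, yp, hy⟩ := hc true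
      by_cases c1 : x ≤ b <;> by_cases c2 : y ≤ b
      · have e1 := hy (p + b - x - y) (by omega)
        have e2 := hx (p + b - x - y) (by omega)
        rw [show p + b - x - y + y = (b - x) + p by omega, W3, sm _ x x0 c1 hx] at e1
        rw [show p + b - x - y + x = (b - y) + p by omega, W3, sm _ y y0 c2 hy] at e2
        simp only [W] at e1 e2
        split_ifs at e1 e2 <;> simp_all
      · have := big _ y (by omega) yp hy (b - x) (by omega)
        rw [sm _ x x0 c1 hx] at this
        simp at this
      · have := big _ x (by omega) xp hx (b - y) (by omega)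
        rw [sm _ y y0 c2 hy] at this
        simp at this
      · have := big _ x (by omega) xp hx 0 (by omega)
        rw [big _ y (by omega) yp hy 0 (by omega)] at this
        simp at this
    obtain ⟨a, ha⟩ := ch
    have w3 : ∀ i j, i + j + 1 = p + b → i < b → W a i = W a j := fun i j e hi => by
      obtain ⟨r, rfl⟩ : ∃ r, j = r + p := ⟨j - p, by omega⟩
      rw [W3, W1 a i hi, a1 i r (by omega)]
    refine ⟨W a, fun i j e => ?_, Wp a, W1 a, ha⟩
    by_cases c1 : i < b
    · exact w3 i j e c1
    · by_cases c2 : j < b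
      · exact (w3 j i (by omega) c2).symm
      · rw [W2 a i (by omega) (by omega), W2 a j (by omega) (by omega)]

end Pool.Agent.H8.Hz
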