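import Pool.Agent.H8.Hz3

namespace Pool.Agent.H8.Hz

open Function

def Cut (t : ℕ → ℕ) (j : ℕ) : Prop := ∀ i, i < j ↔ t i < j

lemma perm_word {k : ℕ} {t : ℕ → ℕ} (ht : IsP k t) : ∃ u : ℕ → Option (ℤ × ℤ), u k = u 0 ∧
    ∀ s < k, Per u (k + 1) s ↔ Om t k s := by
  classical
  let u : ℕ → Option (ℤ × ℤ) := fun j =>
    if Cut t j then none else some ((t (j - 1) : ℤ) - j, (t j : ℤ) - j)
  have c0 : Cut t 0 := fun i => by simp
  have ck : Cut t k := fun i => ⟨ht.lt, fun h => by
    by_contra hc; rw [ht.fix i (by omega)] at h; omega⟩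
  have u1 : ∀ i j, u i = u j → (Cut t i ↔ Cut t j) ∧
      (¬ Cut t i → (t (i - 1) : ℤ) - i = t (j - 1) - j ∧ (t i : ℤ) - i = t j - j) := by
    intro i j e
    by_cases a : Cut t i <;> by_cases b : Cut t j <;> simp [u, a, b] at e ⊢
    exact e
  have fx : ∀ j, Cut t j → Cut t (j + 1) → t j = j := fun j a b => by
    have := a j
    have := b j
    omega
  refine ⟨u, by simp [u, c0, ck], fun s hs => ⟨fun h => ⟨hs, fun j hj => ?_⟩, fun h j hj => ?_⟩⟩
  · obtain ⟨a1, a2⟩ := u1 _ _ (h j (by omega))
    obtain ⟨b1, b2⟩ := u1 _ _ (h (j + 1) (by omega))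
    rw [show j + 1 + s = j + s + 1 by omega] at b1 b2
    by_cases x : Cut t (j + s)
    · by_cases y : Cut t (j + s + 1)
      · rw [fx _ x y, fx _ (a1.1 x) (b1.1 y)]
      · have := (b2 y).1
        simp only [Nat.add_sub_cancel] at this
        omega
    · have := (a2 x).2
      omega
  · have cc : Cut t (j + s) ↔ Cut t j := by
      constructor
      · intro H i
        by_cases a : i + s < k
        · have := H (i + s)
          rw [h.2 i a] at this
          omega
        · have := h.hi ht (show k - s ≤ i by omega)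
          omega
      · intro H i
        by_cases a : i < s
        · have := h.cut ht a
          omega
        · by_cases b : i < k
          · have e := h.2 (i - s) (by omega)
            have := H (i - s)
            rw [show i - s + s = i by omega] at e
            omega
          · rw [ht.fix i (by omega)]
    by_cases a : Cut t j
    · simp [u, a, cc]
    · have j0 : j ≠ 0 := fun e => a (e ▸ c0)
      have jk : j + s ≠ k := fun e => a (cc.1 (e ▸ ck))
      have e1 := h.2 j (by omega)
      have e2 := h.2 (j - 1) (by omega)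
      rw [show j - 1 + s = j + s - 1 by omega] at e2
      simp only [u, cc, if_neg a, e1, e2]
      push_cast
      congr 2 <;> ring

lemma word_perm {k : ℕ} (c : ℕ → Prop) (c0 : c 0) (ck : ∀ j, k ≤ j → c j) {q : ℕ} (q0 : 0 < q)
    (qk : q < k) (cq : c q) : ∃ t, IsP k t ∧ MB t k ∧ ∀ s < k, Per c (k + 1) s ↔ Om t k s := by
  classical
  let a : ℕ → ℕ := Nat.findGreatest c
  have a1 : ∀ j, a j ≤ j := fun j => Nat.findGreatest_le j
  have a2 : ∀ j, c (a j) := fun j => Nat.findGreatest_spec (Nat.zero_le j) c0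
  have a3 : ∀ i j, i ≤ j → c i → i ≤ a j := fun i j h h' => Nat.le_findGreatest h h'
  let t : ℕ → ℕ := fun j => if c (j + 1) then a j else j + 1
  have t1 : ∀ j, c (j + 1) → t j = a j := fun j h => if_pos h
  have t2 : ∀ j, ¬ c (j + 1) → t j = j + 1 := fun j h => if_neg h
  have t3 : ∀ j, c (j + 1) ↔ t j ≤ j := fun j => by
    by_cases h : c (j + 1)
    · simp [h, t1 j h, a1]
    · simp [h, t2 j h]
  have tP : IsP k t := by
    refine ⟨fun i j e => ?_, fun i hi => by
      rw [t1 i (ck _ (by omega))]; exact le_antisymm (a1 i) (a3 i i le_rfl (ck i hi))⟩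
    by_cases x : c (i + 1) <;> by_cases y : c (j + 1)
    · rw [t1 i x, t1 j y] at e
      have := a1 i
      have := a1 j
      have := fun h => a3 (i + 1) j h x
      have := fun h => a3 (j + 1) i h y
      omega
    · rw [t1 i x, t2 j y] at e; exact absurd (e ▸ a2 i) y
    · rw [t2 i x, t1 j y] at e; exact absurd (e ▸ a2 j) x
    · rw [t2 i x, t2 j y] at e; omega
  refine ⟨t, tP, fun x y hx hy => ?_, fun s hs => ⟨fun h => ⟨hs, fun j hj => ?_⟩, fun h j hj => ?_⟩⟩
  · have h1 : x < q := by
      by_contra hc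
      have := a3 q x (by omega) cq
      by_cases e : c (x + 1)
      · rw [t1 x e] at hx; omega
      · rw [t2 x e] at hx; omega
    have h2 : q ≤ y := by
      by_contra hc
      by_cases e : c (y + 1)
      · rw [t1 y e] at hy; have := a1 y; omega
      · rw [t2 y e] at hy
        have : y + 1 ≠ q := fun e' => e (e' ▸ cq)
        omega
    omega
  · have e := h (j + 1) (by omega)
    rw [show j + 1 + s = j + s + 1 by omega] at e
    by_cases x : c (j + 1)
    · rw [t1 j x, t1 _ (e ▸ x)]
      have b1 := a1 j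
      have b2 := a1 (j + s)
      have b3 := a3 (a j + s) (j + s) (by omega) (by rw [h _ (by omega)]; exact a2 j)
      have b4 := a3 (a (j + s) - s) j (by omega) (by
        rw [← h _ (by omega), show a (j + s) - s + s = a (j + s) by omega]; exact a2 _)
      omega
    · rw [t2 j x, t2 _ (e ▸ x)]; omega
  · cases j with
    | zero =>
      cases s with
      | zero => rfl
      | succ s =>
        have := h.cut tP (show s < s + 1 by omega)
        simp only [zero_add, c0, eq_iff_iff, iff_true, t3]
        omega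
    | succ j =>
      have := h.2 j (by omega)
      rw [show j + 1 + s = j + s + 1 by omega, eq_iff_iff, t3, t3]
      omega

lemma word_perm' {k : ℕ} (hk : 3 ≤ k) (w : ℕ → Bool) (hw : w k = w 0) :
    ∃ t, IsP k t ∧ MB t k ∧ ∀ s < k, Per w (k + 1) s ↔ Om t k s := by
  by_cases h : ∃ q, 0 < q ∧ q < k ∧ w q = w 0
  · obtain ⟨q, q0, qk, e⟩ := h
    obtain ⟨t, h1, h2, h3⟩ := word_perm (k := k) (fun j => k ≤ j ∨ w j = w 0) (Or.inr rfl)
      (fun j hj => Or.inl hj) q0 qk (Or.inr e)
    refine ⟨t, h1, h2, fun s hs => Iff.trans ?_ (h3 s hs)⟩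
    have key : ∀ j < k + 1, (k ≤ j ∨ w j = w 0) ↔ w j = w 0 := fun j hj =>
      ⟨fun h => h.elim (fun a => by rwa [show j = k by omega]) id, Or.inr⟩
    refine forall_congr' fun j => forall_congr' fun hj => ?_
    beta_reduce
    rw [eq_iff_iff, key _ hj, key j (by omega)]
    cases w (j + s) <;> cases w j <;> cases w 0 <;> simp
  · obtain ⟨t, h1, h2, h3⟩ := word_perm (k := k) (fun j => k ≤ j ∨ j ≤ 1) (by omega)
      (fun j hj => Or.inl hj) (q := 1) (by omega) (by omega) (by omega)
    refine ⟨t, h1, h2, fun s hs => Iff.trans ?_ (h3 s hs)⟩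
    by_cases s0 : s = 0
    · subst s0; simp [Per]
    · refine iff_of_false (fun H => h ⟨s, by omega, hs, by simpa using H 0 (by omega)⟩) fun H => ?_
      have a := H 0 (by omega)
      have b := H 1 (by omega)
      simp only [eq_iff_iff] at a b
      omega

lemma rev_iff (w : ℕ → Bool) (i : ℕ) : ((List.range i).map w).reverse = (List.range i).map w ↔
    ∀ a b, a + b + 1 = i → w a = w b := by
  rw [List.ext_getElem_iff]
  simp only [List.length_reverse, List.length_map, List.length_range, List.getElem_reverse,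
    List.getElem_map, List.getElem_range, true_and]
  exact ⟨fun h a b e => by rw [← h b (by omega) (by omega)]; congr 1; omega,
    fun h a _ _ => h _ _ (by omega)⟩

lemma pal_prefixes {w : ℕ → Bool} {N : ℕ} (h : ∀ a b, a + b + 1 = N → w a = w b) :
    palPrefixes ((List.range N).map w) = {i | 1 ≤ i ∧ i ≤ N ∧ Per w N (N - i)} := by
  ext i
  simp only [palPrefixes, Set.mem_setOf_eq, List.length_map, List.length_range]
  refine and_congr_right fun _ => and_congr_right fun hi => ?_
  rw [← List.map_take, List.take_range, min_eq_left hi, rev_iff]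
  exact ⟨fun H j hj => by rw [h (j + (N - i)) (i - 1 - j) (by omega), H _ j (by omega)],
    fun H a b e => by rw [← H a (by omega), h _ b (by omega)]⟩

theorem classes {k : ℕ} (hk : 3 ≤ k) : Nat.card (Quotient (wilf k)) =
    {S : Set ℕ | ∃ w : List Bool, w.length = k + 1 ∧ w.reverse = w ∧ S = palPrefixes w}.ncard := by
  have k0 : 0 < k := by omega
  choose ρ h1 h2 using exists_MB k0
  let F : Equiv.Perm (Fin k) → Set ℕ := fun τ =>
    {i | 1 ≤ i ∧ i ≤ k + 1 ∧ (i = 1 ∨ Om (ext τ) k (k + 1 - i))}
  have hF : ∀ σ τ, MB (ext σ) k → MB (ext τ) k →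
      (F σ = F τ ↔ ∀ n, avoiders σ n = avoiders τ n) := fun σ τ a b => by
    rw [wilf_iff k0 a b]
    refine ⟨fun h s => ?_, fun h => by simp only [F, h]⟩
    by_cases c : s < k
    · have := Set.ext_iff.1 h (k + 1 - s)
      simp only [F, Set.mem_setOf_eq, show k + 1 - (k + 1 - s) = s by omega,
        show k + 1 - s ≠ 1 by omega, show 1 ≤ k + 1 - s by omega] at this
      simpa using this
    · exact iff_of_false (fun h => c h.1) fun h => c h.1
  have hP : ∀ (τ : Equiv.Perm (Fin k)) (w : ℕ → Bool), (∀ a b, a + b + 1 = k + 1 → w a = w b) →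
      (∀ s < k, Per w (k + 1) s ↔ Om (ext τ) k s) →
      F τ = palPrefixes ((List.range (k + 1)).map w) := fun τ w a b => by
    rw [pal_prefixes a]
    ext i
    refine and_congr_right fun _ => and_congr_right fun hi => ?_
    by_cases c : i = 1
    · subst c
      refine iff_of_true (Or.inl rfl) fun j hj => ?_
      obtain rfl : j = 0 := by omega
      exact a _ _ (by omega)
    · simp only [c, false_or, b _ (show k + 1 - i < k by omega)]
  have e1 : wilf k = Setoid.ker fun τ => F (ρ τ) := Setoid.ext fun σ τ => by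
    rw [Setoid.ker_def, hF _ _ (h1 σ) (h1 τ)]
    simp only [h2]
    rfl
  rw [e1, Nat.card_congr (Setoid.quotientKerEquivRange _), Nat.card_coe_set_eq]
  congr 1
  ext S
  constructor
  · rintro ⟨τ, rfl⟩
    obtain ⟨u, a1, a2⟩ := perm_word (ext_isP (ρ τ))
    obtain ⟨w, b1, b2⟩ := pal u (k + 1) (by omega) a1
    exact ⟨_, by simp, (rev_iff w _).2 b1,
      hP _ w b1 fun s hs => (b2 s (by omega)).symm.trans (a2 s hs)⟩
  · rintro ⟨l, a1, a2, rfl⟩
    have e : l = (List.range (k + 1)).map fun i => l.getD i false := by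
      refine List.ext_getElem (by simpa using a1) fun i h _ => ?_
      simp [List.getElem?_eq_getElem h]
    generalize (fun i => l.getD i false) = w at e
    subst e
    have b1 := (rev_iff w _).1 a2
    obtain ⟨t, c1, c2, c3⟩ := word_perm' hk w (b1 _ _ (by omega))
    obtain ⟨τ, rfl⟩ := exists_ext c1
    exact ⟨τ, ((hF _ _ (h1 τ) c2).2 (h2 τ)).trans (hP τ w b1 c3)⟩

end Pool.Agent.H8.Hz
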