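import Mathlib

namespace Pool.Agent.H8.Hz

/-- `τ` occurs in `π` as a Hertzsprung pattern: `k` adjacent positions whose values are those
of `τ` shifted by an integer `m`. -/
def Occurs {k n : ℕ} (τ : Equiv.Perm (Fin k)) (π : Equiv.Perm (Fin n)) : Prop :=
  ∃ (i : ℕ) (m : ℤ) (h : i + k ≤ n), ∀ j : Fin k,
    ((π ⟨i + j.val, by omega⟩).val : ℤ) = m + (τ j).val

/-- The number of permutations of size `n` avoiding the Hertzsprung pattern `τ`. -/
noncomputable def avoiders {k : ℕ} (τ : Equiv.Perm (Fin k)) (n : ℕ) : ℕ :=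
  Nat.card {π : Equiv.Perm (Fin n) // ¬ Occurs τ π}

/-- Wilf-equivalence of Hertzsprung patterns of size `k`. -/
def wilf (k : ℕ) : Setoid (Equiv.Perm (Fin k)) where
  r σ τ := ∀ n, avoiders σ n = avoiders τ n
  iseqv := ⟨fun _ _ => rfl, fun h n => (h n).symm, fun h h' n => (h n).trans (h' n)⟩

/-- The set of lengths of the nonempty palindromic prefixes of a binary word. -/
def palPrefixes (w : List Bool) : Set ℕ :=
  {i | 1 ≤ i ∧ i ≤ w.length ∧ (w.take i).reverse = w.take i}

end Pool.Agent.H8.Hz
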