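import Mathlib

set_option autoImplicit false

namespace Pool.Agent.H8.Illum

open Finset

abbrev V := EuclideanSpace ℝ (Fin 3)
abbrev G := (V →L[ℝ] ℝ) × ℝ

def ev (g : G) (y : V) : ℝ := g.2 - g.1 y

theorem dep (p : Fin 5 → V) : ∃ l : Fin 5 → ℝ, (∃ i, l i ≠ 0) ∧ ∑ i, l i = 0 ∧
    ∀ g : G, ∑ i, l i * ev g (p i) = 0 := by
  have : ¬ AffineIndependent ℝ p := fun h => by
    have := h.card_le_finrank_succ
    have := Submodule.finrank_le (vectorSpan ℝ (Set.range p))
    simp at *; omega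
  rw [affineIndependent_iff] at this
  push Not at this
  obtain ⟨s, w, h1, h2, i, hi, h3⟩ := this
  refine ⟨fun i => if i ∈ s then w i else 0, ⟨i, by simpa [hi]⟩, by simpa, fun g => ?_⟩
  have := congrArg g.1 h2
  simp only [map_sum, map_smul, map_zero, smul_eq_mul] at this
  simp [ev, mul_sub, ← sum_mul, h1, this]

theorem indep {ι : Type*} [Fintype ι] [DecidableEq ι] (B : ι → ι → ι → Prop)
    [∀ i j k, Decidable (B i j k)] (t : ℕ) (h : ∀ i j, #{k | B i j k} ≤ t)
    (hs : 216 * t < Fintype.card ι) :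
    ∃ f : Fin 6 → ι, ∀ p q r, r ≠ p → r ≠ q → ¬ B (f p) (f q) (f r) := by
  by_contra hn
  push Not at hn
  let bad : Fin 6 × Fin 6 × Fin 6 → Finset (Fin 6 → ι) := fun T =>
    {f | T.2.2 ≠ T.1 ∧ T.2.2 ≠ T.2.1 ∧ B (f T.1) (f T.2.1) (f T.2.2)}
  have h1 : ∀ T, #(bad T) * Fintype.card ι ≤ t * Fintype.card (Fin 6 → ι) := by
    rintro ⟨p, q, r⟩
    rw [← card_univ, ← card_product, ← card_univ]
    refine card_le_mul_card_image_of_maps_to (f := fun z => Function.update z.1 r z.2)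
      (fun _ _ => mem_univ _) t fun g _ => (card_le_card_of_injOn (fun z => z.1 r) ?_ ?_).trans
      (h (g p) (g q))
    · rintro ⟨f, k⟩ hz
      simp only [bad, coe_filter, mem_product, mem_filter, mem_univ, true_and, and_true,
        Set.mem_ofPred_eq] at hz ⊢
      obtain ⟨⟨a, b, c⟩, rfl⟩ := hz
      rwa [Function.update_of_ne a.symm, Function.update_of_ne b.symm]
    · rintro ⟨f, k⟩ hz ⟨f', k'⟩ hz' e
      have e' := (mem_filter.1 hz).2.trans (mem_filter.1 hz').2.symm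
      refine Prod.ext (funext fun i => ?_) (by simpa using congrFun e' r)
      by_cases c : i = r
      · rw [c]; exact e
      · simpa [c] using congrFun e' i
  have h2 : Fintype.card (Fin 6 → ι) ≤ ∑ T, #(bad T) := by
    refine (card_le_card (t := univ.biUnion bad) fun f _ => ?_).trans card_biUnion_le
    obtain ⟨p, q, r, h⟩ := hn f
    exact mem_biUnion.2 ⟨(p, q, r), mem_univ _, by simpa [bad] using h⟩
  have h3 := (Nat.mul_le_mul_right (Fintype.card ι) h2).trans
    ((sum_mul _ _ _).trans_le (sum_le_card_nsmul _ _ _ fun T _ => h1 T))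
  have : Nonempty ι := Fintype.card_pos_iff.1 (by omega)
  have := Fintype.card_pos (α := Fin 6 → ι)
  simp only [card_univ, Fintype.card_prod, Fintype.card_fin, smul_eq_mul] at h3
  nlinarith

theorem k33 (x a : Fin 3 → V) (g : Fin 3 → Fin 3 → G) (h1 : ∀ i j, ev (g i j) (x i) = 0)
    (h2 : ∀ i j, ev (g i j) (a j) = 0) (h3 : ∀ i j k, k ≠ i → 0 < ev (g i j) (x k))
    (h4 : ∀ i j k, k ≠ j → 0 < ev (g i j) (a k)) : False := by
  let D : (Fin 3 → ℝ) → (Fin 3 → ℝ) → Prop := fun u w =>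
    ∀ i j, ∑ k, u k * ev (g i j) (x k) + ∑ k, w k * ev (g i j) (a k) = 0
  have z : ∀ (u e : Fin 3 → ℝ) i, e i = 0 → (∀ k, k ≠ i → 0 < e k) → (∀ k, k ≠ i → u k ≤ 0) →
      ∑ k, u k * e k ≤ 0 ∧ (∑ k, u k * e k = 0 → ∀ k, k ≠ i → u k = 0) := fun u e i e0 e1 hu => by
    have : ∀ k ∈ univ, u k * e k ≤ 0 := fun k _ => by
      by_cases c : k = i
      · simp [c, e0]
      · exact mul_nonpos_of_nonpos_of_nonneg (hu k c) (e1 k c).le
    exact ⟨sum_nonpos this, fun h k c => (mul_eq_zero.1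
      ((sum_eq_zero_iff_of_nonpos this).1 h k (mem_univ _))).resolve_right (e1 k c).ne'⟩
  have key : ∀ u w, D u w → ∀ i j, (∀ k, k ≠ i → u k ≤ 0) → (∀ k, k ≠ j → w k ≤ 0) →
      (∀ k, u k = 0) ∧ ∀ k, w k = 0 := fun u w hD i j hu hw => by
    have a1 := z u _ i (h1 i j) (h3 i j) hu
    have a2 := z w _ j (h2 i j) (h4 i j) hw
    have b1 := a1.2 (by linarith [hD i j, a1.1, a2.1])
    have b2 := a2.2 (by linarith [hD i j, a1.1, a2.1])
    have c1 := hD i (j + 1)
    have c2 := hD (i + 1) j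
    rw [sum_eq_single i (fun k _ c => by simp [b1 k c]) (by simp),
      sum_eq_single j (fun k _ c => by simp [b2 k c]) (by simp)] at c1 c2
    simp only [h1, h2, mul_zero, zero_add, add_zero, mul_eq_zero, (h3 (i + 1) j i (by simp)).ne',
      (h4 i (j + 1) j (by simp)).ne', or_false] at c1 c2
    exact ⟨fun k => if c : k = i then c ▸ c2 else b1 k c, fun k => if c : k = j then c ▸ c1 else b2 k c⟩
  have neg : ∀ u w, D u w → D (-u) (-w) := fun u w hD i j => by
    simp only [Pi.neg_apply, neg_mul, sum_neg_distrib]; linarith [hD i j]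
  have key2 : ∀ u w, D u w → ∀ i i', (∀ k, k ≠ i → u k ≤ 0) → (∀ k, k ≠ i' → 0 ≤ u k) →
      (∀ k, u k = 0) ∧ ∀ k, w k = 0 := fun u w hD i i' h h' => by
    obtain ⟨j, hj | hj⟩ : ∃ j, (∀ k, k ≠ j → w k ≤ 0) ∨ ∀ k, k ≠ j → 0 ≤ w k := by
      simp only [Fin.exists_fin_succ, Fin.forall_fin_succ]
      rcases le_total (w 0) 0 with a | a <;> rcases le_total (w 1) 0 with b | b <;>
        rcases le_total (w 2) 0 with c | c <;> simp [a, b, c]
    · exact key u w hD i j h hj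
    · simpa using key _ _ (neg u w hD) i' j (by simpa using h') (by simpa using hj)
  have ex : ∀ i j k : Fin 3, (∀ e : Fin 3 → ℝ, ∑ r, e r = e i + e j + e k) → i ≠ j → i ≠ k → j ≠ k →
      (∀ r, r = i ∨ r = j ∨ r = k) → ∃ u w, D u w ∧ u i = 0 ∧ 0 < u j ∧ 0 < u k := by
    intro i j k hs ij ik jk all
    obtain ⟨l, hl, -, hd⟩ := dep ![x j, x k, a 0, a 1, a 2]
    let u : Fin 3 → ℝ := fun r => if r = j then l 0 else if r = k then l 1 else 0
    have ui : u i = 0 := by simp [u, ij, ik]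
    have uj : u j = l 0 := by simp [u]
    have uk : u k = l 1 := by simp [u, jk.symm]
    have hD : D u ![l 2, l 3, l 4] := fun p q => by
      have := hd (g p q)
      rw [hs, ui, uj, uk]
      simp [Fin.sum_univ_succ] at this ⊢; linarith
    have nz : ∀ p p', (∀ r, r ≠ p → u r ≤ 0) → (∀ r, r ≠ p' → 0 ≤ u r) → False := fun p p' h h' => by
      obtain ⟨b1, b2⟩ := key2 _ _ hD p p' h h'
      obtain ⟨r, hr⟩ := hl
      fin_cases r
      exacts [hr (uj ▸ b1 j), hr (uk ▸ b1 k), hr (b2 0), hr (b2 1), hr (b2 2)]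
    by_cases c : 0 < l 0 ∧ 0 < l 1
    · exact ⟨u, _, hD, ui, uj ▸ c.1, uk ▸ c.2⟩
    by_cases c' : l 0 < 0 ∧ l 1 < 0
    · exact ⟨-u, _, neg _ _ hD, by simp [ui], by simp [uj, c'.1], by simp [uk, c'.2]⟩
    exfalso
    rw [not_and_or, not_lt, not_lt] at c c'
    rcases c with c | c <;> rcases c' with c' | c'
    · rcases le_total (l 1) 0 with e | e
      · exact nz i k (fun r _ => by rcases all r with rfl | rfl | rfl <;> simp [*])
          fun r hr => by rcases all r with rfl | rfl | rfl <;> simp_all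
      · exact nz k i (fun r hr => by rcases all r with rfl | rfl | rfl <;> simp_all)
          fun r _ => by rcases all r with rfl | rfl | rfl <;> simp [*]
    · exact nz k j (fun r hr => by rcases all r with rfl | rfl | rfl <;> simp_all)
        fun r hr => by rcases all r with rfl | rfl | rfl <;> simp_all
    · exact nz j k (fun r hr => by rcases all r with rfl | rfl | rfl <;> simp_all)
        fun r hr => by rcases all r with rfl | rfl | rfl <;> simp_all
    · rcases le_total (l 0) 0 with e | e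
      · exact nz i j (fun r _ => by rcases all r with rfl | rfl | rfl <;> simp [*])
          fun r hr => by rcases all r with rfl | rfl | rfl <;> simp_all
      · exact nz j i (fun r hr => by rcases all r with rfl | rfl | rfl <;> simp_all)
          fun r _ => by rcases all r with rfl | rfl | rfl <;> simp [*]
  obtain ⟨u, w, hD, u0, u1, u2⟩ := ex 0 1 2 (fun e => Fin.sum_univ_three e) (by decide) (by decide)
    (by decide) (by decide)
  obtain ⟨u', w', hD', v1, v0, v2⟩ := ex 1 0 2 (fun e => by rw [Fin.sum_univ_three]; ring) (by decide)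
    (by decide) (by decide) (by decide)
  have := (key2 (u' 2 • u - u 2 • u') (u' 2 • w - u 2 • w') (fun i j => by
    simp only [Pi.sub_apply, Pi.smul_apply, smul_eq_mul, sub_mul, sum_sub_distrib, mul_assoc,
      ← mul_sum]
    linear_combination u' 2 * hD i j - u 2 * hD' i j) 1 0 ?_ ?_).1 1
  · simp [v1, u1.ne', v2.ne'] at this
  · intro k hk
    fin_cases k
    · simpa [u0] using (mul_pos u2 v0).le
    · exact absurd rfl hk
    · simp [mul_comm]
  · intro k hk
    fin_cases k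
    · exact absurd rfl hk
    · simpa [v1] using (mul_pos v2 u1).le
    · simp [mul_comm]

structure Cfg {ι : Type} (x a : ι → V) (o : V) (g : ι → ι → G) : Prop where
  hx : ∀ i j, i ≠ j → ev (g i j) (x i) = 0
  ha : ∀ i j, i ≠ j → ev (g i j) (a j) = 0
  px : ∀ i j k, i ≠ j → 0 ≤ ev (g i j) (x k)
  pa : ∀ i j k, i ≠ j → 0 ≤ ev (g i j) (a k)
  po : ∀ i j, i ≠ j → 0 < ev (g i j) o
  nb : ∀ i j k, i ≠ j → ev (g i j) (x k) = 0 → ev (g i j) (a k) ≠ 0

variable {ι : Type} {x a : ι → V} {o : V} {g : ι → ι → G}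

theorem Cfg.symm (h : Cfg x a o g) : Cfg a x o fun i j => g j i :=
  ⟨fun _ _ e => h.ha _ _ e.symm, fun _ _ e => h.hx _ _ e.symm, fun _ _ _ e => h.pa _ _ _ e.symm,
    fun _ _ _ e => h.px _ _ _ e.symm, fun _ _ e => h.po _ _ e.symm,
    fun _ _ _ e a b => h.nb _ _ _ e.symm b a⟩

theorem Cfg.three (h : Cfg x a o g) {p q r : ι} (pq : p ≠ q) (pr : p ≠ r) {u v w : ℝ}
    (hd : ∀ γ : G, u * ev γ (x p) + v * ev γ (x q) + w * ev γ (x r) = 0) (s : 0 ≤ v * w) :
    v = 0 ∧ w = 0 := by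
  have : ∀ {q r : ι} {v w : ℝ}, p ≠ q → (∀ γ : G, u * ev γ (x p) + v * ev γ (x q) +
      w * ev γ (x r) = 0) → 0 ≤ v * w → v = 0 := fun {q r v w} pq hd s => by
    have e := hd (g p q)
    rw [h.hx _ _ pq] at e
    have := (h.px p q q pq).lt_of_ne fun e => h.nb p q q pq e.symm (h.ha _ _ pq)
    have := mul_nonneg s (h.px p q r pq)
    have : v * v * ev (g p q) (x q) ≤ 0 := by linear_combination this + v * e
    by_contra c
    nlinarith [mul_self_pos.2 c]
  exact ⟨this pq hd s, this (r := q) (w := v) pr (fun γ => by linarith [hd γ]) (by linarith)⟩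

theorem Cfg.step [DecidableEq ι] (h : Cfg x a o g) (S : Finset ι) (m : ℕ) :
    (∀ i ∈ S, ∀ j ∈ S, i ≠ j → #{k ∈ S | ev (g i j) (x k) = 0} ≤ m) ∨
    ∃ T ⊆ S, m < #T ∧ ∀ i ∈ T, ∀ j ∈ T, i ≠ j → #{k ∈ T | ev (g i j) (x k) = 0} ≤ 2 := by
  rw [or_iff_not_imp_left]
  intro hn
  push Not at hn
  obtain ⟨i0, -, j0, -, e0, hm⟩ := hn
  refine ⟨_, filter_subset _ _, hm, fun i _ j hj e => not_lt.1 fun c => ?_⟩
  obtain ⟨p, q, r, hp, hq, hr, pq, pr, qr⟩ := two_lt_card_iff.1 c
  simp only [mem_filter] at hp hq hr hj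
  obtain ⟨l, ⟨s, hs⟩, h0, hd⟩ := dep ![x p, x q, x r, a j, o]
  simp only [Fin.sum_univ_five, Matrix.cons_val] at hd h0
  have l4 : l 4 = 0 := by
    simpa [hp.2, hq.2, hr.2, h.ha _ _ e, (h.po _ _ e).ne'] using hd (g i j)
  have l3 : l 3 = 0 := by
    simpa [hp.1.2, hq.1.2, hr.1.2, l4, h.nb _ _ _ e0 hj.2] using hd (g i0 j0)
  simp only [l3, l4, zero_mul, add_zero] at hd h0
  have : l 0 = 0 ∧ l 1 = 0 ∧ l 2 = 0 := by
    by_cases c1 : 0 ≤ l 1 * l 2
    · have := h.three pq pr hd c1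
      exact ⟨by linarith [this.1, this.2], this⟩
    by_cases c2 : 0 ≤ l 0 * l 2
    · have := h.three pq.symm qr (u := l 1) (fun γ => by linarith [hd γ]) c2
      exact ⟨this.1, by linarith [this.1, this.2], this.2⟩
    · have := h.three pr.symm qr.symm (u := l 2) (v := l 0) (w := l 1) (fun γ => by linarith [hd γ])
        (by
          by_contra c3
          nlinarith [mul_neg_of_pos_of_neg (mul_pos_of_neg_of_neg (not_le.1 c1) (not_le.1 c2))
            (not_le.1 c3), sq_nonneg (l 0 * l 1 * l 2)])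
      exact ⟨this.1, this.2, by linarith [this.1, this.2]⟩
  fin_cases s
  exacts [hs this.1, hs this.2.1, hs this.2.2, hs l3, hs l4]

theorem Cfg.small [DecidableEq ι] (h : Cfg x a o g) (S : Finset ι) (t : ℕ)
    (h1 : ∀ i ∈ S, ∀ j ∈ S, i ≠ j → #{k ∈ S | ev (g i j) (x k) = 0} ≤ t)
    (h2 : ∀ i ∈ S, ∀ j ∈ S, i ≠ j → #{k ∈ S | ev (g j i) (a k) = 0} ≤ t) :
    #S ≤ 216 * (1 + 2 * t) := by
  by_contra hn
  obtain ⟨f, hf⟩ := indep (ι := S) (fun i j k => k = i ∨ (i ≠ j ∧ (ev (g i j) (x k) = 0 ∨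
    ev (g i j) (a k) = 0))) (1 + 2 * t) (fun i j => by
      by_cases e : i = j
      · simp [e, filter_eq']
      have e' : (i : ι) ≠ j := fun c => e (Subtype.ext c)
      refine (card_le_card_of_injOn (t := insert i.1 ({k ∈ S | ev (g i j) (x k) = 0} ∪
        {k ∈ S | ev (g i j) (a k) = 0})) Subtype.val (fun k hk => ?_) Subtype.val_injective.injOn).trans
        ((card_insert_le _ _).trans ?_)
      · rcases (mem_filter.1 hk).2 with rfl | ⟨-, c | c⟩ <;> simp [*]
      · linarith [card_union_le {k ∈ S | ev (g i j) (x k) = 0} {k ∈ S | ev (g i j) (a k) = 0},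
          h1 _ i.2 _ j.2 e', h2 _ j.2 _ i.2 e'.symm]) (by simpa using hn)
  push Not at hf
  have n : ∀ i j : Fin 3, Fin.castAdd 3 i ≠ Fin.natAdd 3 j := by decide
  have ne : ∀ i j : Fin 3, f (Fin.castAdd 3 i) ≠ f (Fin.natAdd 3 j) := fun i j =>
    (hf _ _ _ (n i j) (n i j)).1
  have ne' : ∀ i j : Fin 3, (f (Fin.castAdd 3 i) : ι) ≠ f (Fin.natAdd 3 j) := fun i j c =>
    ne i j (Subtype.ext c)
  exact k33 (fun i => x (f (Fin.castAdd 3 i))) (fun j => a (f (Fin.natAdd 3 j)))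
    (fun i j => g (f (Fin.castAdd 3 i)) (f (Fin.natAdd 3 j))) (fun i j => h.hx _ _ (ne' i j))
    (fun i j => h.ha _ _ (ne' i j))
    (fun i j k c => (h.px _ _ _ (ne' i j)).lt_of_ne'
      ((hf _ _ _ (fun e => c (Fin.castAdd_injective _ _ e)) (n k j)).2 (ne i j)).1)
    fun i j k c => (h.pa _ _ _ (ne' i j)).lt_of_ne'
      ((hf _ _ _ (n i k).symm fun e => c (Fin.natAdd_injective _ _ e)).2 (ne i j)).2

theorem Cfg.bound (h : Cfg x a o g) (S : Finset ι) : #S ≤ 10 ^ 12 := by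
  classical
  have mono : ∀ {T U : Finset ι} {t}, U ⊆ T →
      (∀ i ∈ T, ∀ j ∈ T, i ≠ j → #{k ∈ T | ev (g i j) (x k) = 0} ≤ t) →
      ∀ i ∈ U, ∀ j ∈ U, i ≠ j → #{k ∈ U | ev (g i j) (x k) = 0} ≤ t := fun s H i hi j hj e =>
    (card_le_card (filter_subset_filter _ s)).trans (H i (s hi) j (s hj) e)
  rcases h.step S (10 ^ 6) with h1 | ⟨T, -, c, h1⟩
  · rcases h.symm.step S (10 ^ 9) with h2 | ⟨U, s, c, h2⟩
    · exact (h.small S (10 ^ 9) (fun i a j b e => (h1 i a j b e).trans (by norm_num)) h2).trans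
        (by norm_num)
    · linarith [h.small U (10 ^ 6) (mono s h1) fun i a j b e => (h2 i a j b e).trans (by norm_num)]
  · rcases h.symm.step T 2000 with h2 | ⟨U, s, c, h2⟩
    · linarith [h.small T 2000 (fun i a j b e => (h1 i a j b e).trans (by norm_num)) h2]
    · linarith [h.small U 2 (mono s h1) h2]

end Pool.Agent.H8.Illum
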