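import Mathlib

set_option autoImplicit false

namespace Pool.Agent.H8.Illum

/-- A `d`-dimensional convex polytope: the convex hull of a finite set, with nonempty interior. -/
def IsPolytope {d : ℕ} (P : Set (EuclideanSpace ℝ (Fin d))) : Prop :=
  ∃ V : Finset (EuclideanSpace ℝ (Fin d)), P = convexHull ℝ (V : Set (EuclideanSpace ℝ (Fin d))) ∧
    (interior P).Nonempty

/-- A face of `P`: `P` itself or its intersection with a supporting hyperplane. -/
def IsFace {d : ℕ} (P F : Set (EuclideanSpace ℝ (Fin d))) : Prop :=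
  F = P ∨ ∃ (l : EuclideanSpace ℝ (Fin d) →L[ℝ] ℝ) (c : ℝ), l ≠ 0 ∧ (∀ x ∈ P, l x ≤ c) ∧
    (∃ x ∈ P, l x = c) ∧ F = P ∩ {x | l x = c}

/-- The boundary points of `P` lying in no `i`-dimensional face. -/
def X {d : ℕ} (i : ℕ) (P : Set (EuclideanSpace ℝ (Fin d))) : Set (EuclideanSpace ℝ (Fin d)) :=
  {b | b ∈ frontier P ∧
    ¬ ∃ F, IsFace P F ∧ Module.finrank ℝ (affineSpan ℝ F).direction = i ∧ b ∈ F}

/-- The source `s` illuminates `b`: the ray from `s` through `b` meets the interior of `P`, and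
the segment `[s, b]` meets `P` only in `b`. -/
def Illuminates {d : ℕ} (P : Set (EuclideanSpace ℝ (Fin d))) (s b : EuclideanSpace ℝ (Fin d)) :
    Prop :=
  (∃ t : ℝ, 0 ≤ t ∧ s + t • (b - s) ∈ interior P) ∧ ∀ x ∈ segment ℝ s b, x ∈ P → x = b

end Pool.Agent.H8.Illum
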