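import Pool.Agent.H8.IllumDefs

set_option autoImplicit false

namespace Pool.Agent.H8.Illum

open Set

noncomputable def V (d : ℕ) : Finset (EuclideanSpace ℝ (Fin d)) := by
  classical
  exact (Fintype.piFinset fun _ : Fin d => ({-1, 0, 1} : Finset ℝ)).image (WithLp.toLp 2)

theorem mem_V {d : ℕ} (x : EuclideanSpace ℝ (Fin d)) :
    x ∈ V d ↔ ∀ a, x a = -1 ∨ x a = 0 ∨ x a = 1 := by
  classical
  unfold V
  simp only [Finset.mem_image, Fintype.mem_piFinset, Finset.mem_insert, Finset.mem_singleton]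
  constructor
  · rintro ⟨f, hf, rfl⟩ a; exact hf a
  · intro h; exact ⟨x.ofLp, h, rfl⟩

noncomputable def C (d : ℕ) : Set (EuclideanSpace ℝ (Fin d)) :=
  convexHull ℝ (V d : Set (EuclideanSpace ℝ (Fin d)))

theorem mem_C_of {d : ℕ} {x : EuclideanSpace ℝ (Fin d)} (h : ∀ a, x a = -1 ∨ x a = 0 ∨ x a = 1) :
    x ∈ C d := subset_convexHull _ _ ((mem_V x).2 h)

theorem le_of_mem_C {d : ℕ} {x : EuclideanSpace ℝ (Fin d)} (h : x ∈ C d) (a : Fin d) (σ : ℝ)
    (hσ : σ = 1 ∨ σ = -1) : σ * x a ≤ 1 := by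
  have : C d ⊆ {x | σ * x a ≤ 1} := by
    apply convexHull_min
    · intro x hx
      have := (mem_V x).1 hx a
      simp only [mem_ofPred_eq]
      rcases hσ with rfl | rfl <;> rcases this with h | h | h <;> rw [h] <;> norm_num
    · intro u hu v hv p q hp hq hpq
      simp only [mem_ofPred_eq, PiLp.add_apply, PiLp.smul_apply, smul_eq_mul] at hu hv ⊢
      have h1 := mul_le_mul_of_nonneg_left hu hp
      have h2 := mul_le_mul_of_nonneg_left hv hq
      nlinarith
  exact this h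

theorem lt_of_mem_interior {d : ℕ} {x : EuclideanSpace ℝ (Fin d)} (h : x ∈ interior (C d))
    (a : Fin d) (σ : ℝ) (hσ : σ = 1 ∨ σ = -1) : σ * x a < 1 := by
  rw [mem_interior_iff_mem_nhds, Metric.mem_nhds_iff] at h
  obtain ⟨ε, hε, hb⟩ := h
  have hm : x + EuclideanSpace.single a (σ * (ε / 2)) ∈ Metric.ball x ε := by
    rw [Metric.mem_ball, dist_eq_norm, add_sub_cancel_left, EuclideanSpace.norm_single]
    rcases hσ with rfl | rfl <;> simp [abs_of_pos hε] <;> linarith
  have := le_of_mem_C (hb hm) a σ hσ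
  simp only [PiLp.add_apply, EuclideanSpace.single_apply, if_true] at this
  rcases hσ with rfl | rfl <;> nlinarith

theorem isPolytope_C (d : ℕ) : IsPolytope (C d) := by
  refine ⟨V d, rfl, ?_⟩
  unfold C
  rw [(convex_convexHull ℝ _).interior_nonempty_iff_affineSpan_eq_top, affineSpan_convexHull]
  have h0 : (0 : EuclideanSpace ℝ (Fin d)) ∈ (V d : Set (EuclideanSpace ℝ (Fin d))) :=
    (mem_V _).2 fun a => Or.inr (Or.inl rfl)
  rw [AffineSubspace.affineSpan_eq_top_iff_vectorSpan_eq_top_of_nonempty ℝ _ _ ⟨0, h0⟩, eq_top_iff,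
    ← (EuclideanSpace.basisFun (Fin d) ℝ).toBasis.span_eq, Submodule.span_le]
  rintro _ ⟨a, rfl⟩
  have h1 : EuclideanSpace.single a (1 : ℝ) ∈ (V d : Set (EuclideanSpace ℝ (Fin d))) := by
    refine (mem_V _).2 fun b => ?_
    by_cases h : b = a <;> simp [h]
  have := vsub_mem_vectorSpan ℝ h1 h0
  simpa using this

theorem sign_of_illum {d : ℕ} {s b : EuclideanSpace ℝ (Fin d)} (h : Illuminates (C d) s b)
    (a : Fin d) (σ : ℝ) (hσ : σ = 1 ∨ σ = -1) (hb : b a = σ) : 1 < σ * s a := by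
  obtain ⟨⟨t, ht, hy⟩, hseg⟩ := h
  have hlt := lt_of_mem_interior hy a σ hσ
  have hσ2 : σ * σ = 1 := by rcases hσ with rfl | rfl <;> norm_num
  by_contra hle
  push Not at hle
  simp only [PiLp.add_apply, PiLp.smul_apply, PiLp.sub_apply, smul_eq_mul, hb] at hlt
  rcases le_or_gt 1 t with h1 | h1
  · nlinarith
  · have hm : s + t • (b - s) ∈ segment ℝ s b := by
      refine ⟨1 - t, t, by linarith, ht, by ring, ?_⟩
      module
    have e := hseg _ hm (interior_subset hy)
    have e2 := congrArg (fun x : EuclideanSpace ℝ (Fin d) => x a) e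
    simp only [PiLp.add_apply, PiLp.smul_apply, PiLp.sub_apply, smul_eq_mul, hb] at e2
    rw [e2] at hlt
    linarith

theorem mem_X {d i : ℕ} (b : EuclideanSpace ℝ (Fin d)) (hb : ∀ a, b a = -1 ∨ b a = 0 ∨ b a = 1)
    (a0 : Fin d) (ha0 : b a0 = 1 ∨ b a0 = -1) (Z : Finset (Fin d)) (hZ : ∀ a ∈ Z, b a = 0)
    (hc : i < Z.card) : b ∈ X i (C d) := by
  classical
  refine ⟨⟨subset_closure (mem_C_of hb), fun h => ?_⟩, ?_⟩
  · have := lt_of_mem_interior h a0 (b a0) ha0
    rcases ha0 with h | h <;> rw [h] at this <;> norm_num at this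
  · rintro ⟨F, hF, hdim, hbF⟩
    have hpm : ∀ a ∈ Z, ∀ σ : ℝ, σ = 1 ∨ σ = -1 → b + EuclideanSpace.single a σ ∈ C d := by
      intro a ha σ hσ
      refine mem_C_of fun c => ?_
      by_cases h : c = a
      · subst h
        simp only [PiLp.add_apply, EuclideanSpace.single_apply, if_true, hZ c ha, zero_add]
        tauto
      · simpa [h] using hb c
    have hmem : ∀ a ∈ Z, b + EuclideanSpace.single a (1 : ℝ) ∈ F := by
      intro a ha
      rcases hF with rfl | ⟨l, c, -, hl, -, rfl⟩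
      · exact hpm a ha 1 (Or.inl rfl)
      · refine ⟨hpm a ha 1 (Or.inl rfl), ?_⟩
        have h1 := hl _ (hpm a ha 1 (Or.inl rfl))
        have h2 := hl _ (hpm a ha (-1) (Or.inr rfl))
        have h3 : l b = c := hbF.2
        have e : EuclideanSpace.single a (-1 : ℝ) = -EuclideanSpace.single a (1 : ℝ) := by
          ext k; by_cases h : k = a <;> simp [h]
        rw [e] at h2
        simp only [map_add, map_neg, mem_ofPred_eq] at h1 h2 ⊢
        linarith
    rw [direction_affineSpan] at hdim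
    have hli : LinearIndependent ℝ
        (fun a : Z => (⟨EuclideanSpace.single a.1 (1 : ℝ), by
          have := vsub_mem_vectorSpan ℝ (hmem a.1 a.2) hbF
          simpa using this⟩ : vectorSpan ℝ F)) := by
      apply LinearIndependent.of_comp (vectorSpan ℝ F).subtype
      have := (EuclideanSpace.basisFun (Fin d) ℝ).toBasis.linearIndependent.comp
        (fun a : Z => a.1) Subtype.val_injective
      have e : (⇑(EuclideanSpace.basisFun (Fin d) ℝ).toBasis ∘ fun a : Z => a.1)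
          = fun a : Z => EuclideanSpace.single a.1 (1 : ℝ) := by
        ext a k
        simp
      rw [e] at this
      exact this
    have := hli.fintype_card_le_finrank
    simp only [Fintype.card_coe] at this
    omega

set_option synthInstance.maxSize 100000 in
theorem bool8 : ∀ (x1 x2 x3 x4 y1 y2 y3 y4 : Bool),
    (∀ (σ τ : Bool), true = σ ∧ x1 = τ ∨ true = σ ∧ x2 = τ ∨ false = σ ∧ x3 = τ ∨ false = σ ∧ x4 = τ) →
    (∀ (σ τ : Bool), true = σ ∧ y1 = τ ∨ true = σ ∧ y2 = τ ∨ false = σ ∧ y3 = τ ∨ false = σ ∧ y4 = τ) →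
    (∀ (σ τ : Bool), true = σ ∧ x1 = τ ∨ false = σ ∧ x2 = τ ∨ true = σ ∧ x3 = τ ∨ false = σ ∧ x4 = τ) →
    (∀ (σ τ : Bool), true = σ ∧ y1 = τ ∨ false = σ ∧ y2 = τ ∨ true = σ ∧ y3 = τ ∨ false = σ ∧ y4 = τ) →
    (∀ (σ τ : Bool), x1 = σ ∧ y1 = τ ∨ x2 = σ ∧ y2 = τ ∨ x3 = σ ∧ y3 = τ ∨ x4 = σ ∧ y4 = τ) →
    False := by
  decide +kernel

theorem no_ca (T : Finset (Fin 4 → Bool)) (hT : T.card ≤ 4)
    (h : ∀ a b : Fin 4, a ≠ b → ∀ σ τ : Bool, ∃ r ∈ T, r a = σ ∧ r b = τ) : False := by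
  classical
  obtain ⟨r1, m1, a1, b1⟩ := h 0 1 (by decide) true true
  obtain ⟨r2, m2, a2, b2⟩ := h 0 1 (by decide) true false
  obtain ⟨r3, m3, a3, b3⟩ := h 0 1 (by decide) false true
  obtain ⟨r4, m4, a4, b4⟩ := h 0 1 (by decide) false false
  have hsub : ({r1, r2, r3, r4} : Finset (Fin 4 → Bool)) ⊆ T := by
    intro r hr
    simp only [Finset.mem_insert, Finset.mem_singleton] at hr
    rcases hr with rfl | rfl | rfl | rfl <;> assumption
  have n12 : r1 ≠ r2 := fun e => by rw [e, b2] at b1; exact absurd b1 (by decide)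
  have n13 : r1 ≠ r3 := fun e => by rw [e, a3] at a1; exact absurd a1 (by decide)
  have n14 : r1 ≠ r4 := fun e => by rw [e, a4] at a1; exact absurd a1 (by decide)
  have n23 : r2 ≠ r3 := fun e => by rw [e, a3] at a2; exact absurd a2 (by decide)
  have n24 : r2 ≠ r4 := fun e => by rw [e, a4] at a2; exact absurd a2 (by decide)
  have n34 : r3 ≠ r4 := fun e => by rw [e, b4] at b3; exact absurd b3 (by decide)
  have hc : ({r1, r2, r3, r4} : Finset (Fin 4 → Bool)).card = 4 := by
    rw [Finset.card_insert_of_notMem (by simp [n12, n13, n14]),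
      Finset.card_insert_of_notMem (by simp [n23, n24]), Finset.card_pair n34]
  have hE : ({r1, r2, r3, r4} : Finset (Fin 4 → Bool)) = T :=
    Finset.eq_of_subset_of_card_le hsub (by omega)
  subst hE
  have k : ∀ a b : Fin 4, a ≠ b → ∀ σ τ : Bool, (r1 a = σ ∧ r1 b = τ) ∨ (r2 a = σ ∧ r2 b = τ) ∨
      (r3 a = σ ∧ r3 b = τ) ∨ (r4 a = σ ∧ r4 b = τ) := by
    intro a b hab σ τ
    simpa using h a b hab σ τ
  have k02 := k 0 2 (by decide)
  have k03 := k 0 3 (by decide)
  have k12 := k 1 2 (by decide)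
  have k13 := k 1 3 (by decide)
  have k23 := k 2 3 (by decide)
  rw [a1, a2, a3, a4] at k02 k03
  rw [b1, b2, b3, b4] at k12 k13
  exact bool8 _ _ _ _ _ _ _ _ k02 k03 k12 k13 k23

def sg (σ : Bool) : ℝ := if σ then 1 else -1

theorem sg_pm (σ : Bool) : sg σ = 1 ∨ sg σ = -1 := by cases σ <;> simp [sg]

theorem main (d i : ℕ) (hi : 1 ≤ i) (hd : i + 3 ≤ d) : ∃ P : Set (EuclideanSpace ℝ (Fin d)),
    IsPolytope P ∧ ¬ ∃ S : Finset (EuclideanSpace ℝ (Fin d)), S.card ≤ 2 ^ (d - 1 - i) ∧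
      (∀ s ∈ S, s ∉ P) ∧ ∀ b ∈ X i P, ∃ s ∈ S, Illuminates P s b := by
  classical
  refine ⟨C d, isPolytope_C d, ?_⟩
  rintro ⟨S, hS, -, hill⟩
  obtain ⟨m, hm⟩ : ∃ m, d = i + 3 + m := ⟨d - (i + 3), by omega⟩
  let ιA : Fin 4 → Fin d := fun k => ⟨k, by omega⟩
  let ιB : Fin m → Fin d := fun k => ⟨4 + k, by omega⟩
  let g : EuclideanSpace ℝ (Fin d) → Fin d → Bool := fun s a => decide (0 < s a)
  have hS' : S.card ≤ (Finset.univ : Finset (Fin m → Bool)).card * 4 := by
    have : d - 1 - i = m + 2 := by omega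
    rw [this] at hS
    simpa [pow_add] using hS
  obtain ⟨π, -, hπ⟩ := Finset.exists_card_fiber_le_of_card_le_mul
    (f := fun s => fun k => g s (ιB k)) Finset.univ_nonempty hS'
  refine no_ca ((S.filter fun s => (fun k => g s (ιB k)) = π).image fun s k => g s (ιA k))
    (Finset.card_image_le.trans hπ) fun a a' haa σ τ => ?_
  let b : EuclideanSpace ℝ (Fin d) := WithLp.toLp 2 fun c =>
    if h : 4 ≤ c.1 ∧ c.1 < 4 + m then sg (π ⟨c.1 - 4, by omega⟩)
    else if c = ιA a then sg σ else if c = ιA a' then sg τ else 0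
  have hB : ∀ k, b (ιB k) = sg (π k) := by
    intro k
    have : 4 ≤ (ιB k).1 ∧ (ιB k).1 < 4 + m := by simp [ιB]
    simp only [b, dif_pos this]
    congr 2
    ext; simp [ιB]
  have hA : ∀ k, ¬ (4 ≤ (ιA k).1 ∧ (ιA k).1 < 4 + m) := fun k => by
    have := k.2
    simp only [ιA]; omega
  have ha : b (ιA a) = sg σ := by simp only [b, dif_neg (hA a), if_true]
  have ha' : b (ιA a') = sg τ := by
    have : ιA a' ≠ ιA a := fun e => haa (by
      have := congrArg Fin.val e
      simp only [ιA] at this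
      exact Fin.ext this.symm)
    simp only [b, dif_neg (hA a'), if_neg this, if_true]
  have hb : ∀ c, b c = -1 ∨ b c = 0 ∨ b c = 1 := by
    intro c
    simp only [b]
    split_ifs
    · rcases sg_pm (π ⟨c.1 - 4, by omega⟩) with h | h <;> simp [h]
    · rcases sg_pm σ with h | h <;> simp [h]
    · rcases sg_pm τ with h | h <;> simp [h]
    · simp
  let Z : Finset (Fin d) := Finset.univ \ (insert (ιA a) (insert (ιA a') (Finset.univ.image ιB)))
  have hZ : ∀ c ∈ Z, b c = 0 := by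
    intro c hc
    simp only [Z, Finset.mem_sdiff, Finset.mem_univ, true_and, Finset.mem_insert,
      Finset.mem_image, not_or, not_exists] at hc
    have h1 : ¬ (4 ≤ c.1 ∧ c.1 < 4 + m) := fun h =>
      hc.2.2 ⟨c.1 - 4, by omega⟩ (Fin.ext (by simp only [ιB]; omega))
    simp only [b, dif_neg h1, if_neg hc.1, if_neg hc.2.1]
  have hcard : i < Z.card := by
    have h1 : (insert (ιA a) (insert (ιA a') (Finset.univ.image ιB))).card ≤ m + 2 := by
      refine (Finset.card_insert_le _ _).trans ?_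
      have := Finset.card_insert_le (ιA a') (Finset.univ.image ιB)
      have h2 : (Finset.univ.image ιB).card ≤ m := Finset.card_image_le.trans (by simp)
      omega
    have h2 := Finset.card_sdiff_add_card_eq_card
      (Finset.subset_univ (insert (ιA a) (insert (ιA a') (Finset.univ.image ιB))))
    simp only [Finset.card_univ, Fintype.card_fin] at h2
    simp only [Z]
    omega
  obtain ⟨s, hs, hsb⟩ := hill b (mem_X b hb (ιA a) (ha ▸ sg_pm σ) Z hZ hcard)
  have key : ∀ (c : Fin d) (ρ : Bool), b c = sg ρ → g s c = ρ := by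
    intro c ρ h
    have := sign_of_illum hsb c (sg ρ) (sg_pm ρ) h
    cases ρ
    · simp only [sg, Bool.false_eq_true, if_false] at this
      simp only [g, decide_eq_false_iff_not]; linarith
    · simp only [sg, if_true] at this
      simp only [g, decide_eq_true_eq]; linarith
  refine ⟨fun k => g s (ιA k), Finset.mem_image.2 ⟨s, Finset.mem_filter.2 ⟨hs, ?_⟩, rfl⟩,
    key _ _ ha, key _ _ ha'⟩
  ext k
  exact key _ _ (hB k)

end Pool.Agent.H8.Illum
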