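import Pool.Agent.H8.IsoTile

set_option autoImplicit false

namespace Pool.Agent.H8.IsoTile

open Set MeasureTheory Metric Complex
open scoped ENNReal Pointwise

noncomputable def H (t : ℝ) : ℝ :=
  max 0 (min (min (40 - 9 / 14 * t) (31 - 8 / 9 * (t - 14)))
    (min (23 - 9 / 8 * (t - 23)) (14 - 14 / 9 * (t - 31))))

noncomputable def K (t : ℝ) : ℝ := 84 - H |84 - t|

theorem H_cont : Continuous H := by unfold H; fun_prop
theorem K_cont : Continuous K := by have := H_cont; unfold K; fun_prop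
theorem H_nonneg (t : ℝ) : 0 ≤ H t := le_max_left _ _
theorem H_anti {s t : ℝ} (h : s ≤ t) : H t ≤ H s := by unfold H; gcongr
theorem H_zero : H 0 = 40 := by norm_num [H]
theorem H_le (t : ℝ) : H |t| ≤ 40 := H_zero ▸ H_anti (abs_nonneg t)
theorem H_eq {t : ℝ} (h : 40 ≤ t) : H t = 0 :=
  max_eq_left ((min_le_right _ _).trans ((min_le_right _ _).trans (by linarith)))

theorem goodH : Good H 0 40 57.372 951 := by
  convert (((Good.lin (g := H) 0 14 40 31 16.644 ?_ ?_ ?_ ?_).trans H_cont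
    (Good.lin 14 23 31 23 12.042 ?_ ?_ ?_ ?_)).trans H_cont
    (Good.lin 23 31 23 14 12.042 ?_ ?_ ?_ ?_)).trans H_cont
    (Good.lin 31 40 14 0 16.644 ?_ ?_ ?_ ?_) using 1
  any_goals intro t h1 h2
  any_goals norm_num [H, max_def, min_def]
  all_goals split_ifs <;> linarith

theorem goodK : Good K 0 84 101.372 6105 := by
  have e : ∀ t, t ≤ 84 → K t = 84 - H (84 - t) := fun t h => by
    rw [K, abs_of_nonneg (by linarith)]
  convert ((((Good.lin (g := K) 0 44 84 84 44 ?_ ?_ ?_ ?_).trans K_cont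
    (Good.lin 44 53 84 70 16.644 ?_ ?_ ?_ ?_)).trans K_cont
    (Good.lin 53 61 70 61 12.042 ?_ ?_ ?_ ?_)).trans K_cont
    (Good.lin 61 70 61 53 12.042 ?_ ?_ ?_ ?_)).trans K_cont
    (Good.lin 70 84 53 44 16.644 ?_ ?_ ?_ ?_) using 1
  any_goals intro t h1 h2; rw [e t (by linarith)]
  case convert_4 => rw [H_eq (by linarith)]; norm_num
  any_goals norm_num [H, max_def, min_def]
  all_goals split_ifs <;> linarith

def P (T : Set ℂ) : Prop :=
  (∃ e : ℂ ≃ₜ ℂ, e '' T = closedBall 0 1) ∧ Bornology.IsBounded T ∧ 0 ∈ T ∧ 1 ∈ T ∧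
    μH[1] (frontier T) ^ 2 ≤ ENNReal.ofReal 13.85 * volume T

theorem ratio {b L A : ℝ} {g : ℝ → ℝ} (hg : Continuous g) (hb : 0 ≤ b) (h0 : ∀ t, 0 ≤ g t)
    (h : Good g 0 b L A) (e : (4 * (g b + L)) ^ 2 ≤ 13.85 * (4 * A)) :
    μH[1] (frontier (R b g)) ^ 2 ≤ ENNReal.ofReal 13.85 * volume (R b g) := by
  have := h.1
  have := h0 b
  refine (pow_le_pow_left' (len hg (h0 b) h) 2).trans (le_trans ?_ (mul_le_mul_right (area hg hb h0 h) _))
  rw [← ENNReal.ofReal_pow (by positivity), ← ENNReal.ofReal_mul (by norm_num)]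
  exact ENNReal.ofReal_le_ofReal e

theorem PQ : P (R 40 H) := by
  refine ⟨disc H_cont (by norm_num) (by simp [H_zero]) H_le ?_, R_bdd H_le, ?_, ?_,
    ratio H_cont (by norm_num) H_nonneg goodH (by rw [H_eq le_rfl]; norm_num)⟩
  · convert ((cvx 40 (m := 9 / 14) (by norm_num) zero_le_one).inter
      (cvx (391 / 9) (m := 8 / 9) (by norm_num) zero_le_one)).inter
      ((cvx (391 / 8) (m := 9 / 8) (by norm_num) zero_le_one).inter
      (cvx (560 / 9) (m := 14 / 9) (by norm_num) zero_le_one)) using 1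
    ext z
    have := abs_nonneg z.im
    simp only [R, H, mem_ofPred_eq, mem_inter_iff, le_max_iff, le_min_iff]
    constructor
    · rintro ⟨h, h' | ⟨⟨h1, h2⟩, h3, h4⟩⟩ <;> refine ⟨⟨?_, ?_⟩, ?_, ?_⟩ <;> linarith
    · rintro ⟨⟨h1, h2⟩, h3, h4⟩
      refine ⟨?_, Or.inr ⟨⟨?_, ?_⟩, ?_, ?_⟩⟩ <;> linarith
  all_goals simp [R, H_nonneg]

theorem K_pos (t : ℝ) : 0 < K t := by have := H_le (84 - t); unfold K; linarith
theorem K_le (t : ℝ) : K t ≤ 84 := by have := H_nonneg |84 - t|; unfold K; linarith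

theorem PO : P (R 84 K) := by
  refine ⟨disc' K_cont (by norm_num) K_pos, R_bdd fun _ => K_le _, ?_, ?_,
    ratio K_cont (by norm_num) (fun t => (K_pos t).le) goodK (by norm_num [K, H_zero])⟩
  all_goals simp [R, (K_pos _).le]

noncomputable def sim (D : ℝ) (hD : 0 < D) (w : ℂ) : ℂ ≃ₜ ℂ :=
  (Homeomorph.addRight w).trans (Homeomorph.smulOfNeZero D hD.ne')

theorem sim_apply (D : ℝ) (hD : 0 < D) (w z : ℂ) : sim D hD w z = D • (z + w) := rfl

theorem P.sim {T : Set ℂ} (h : P T) {D : ℝ} (hD : 0 < D) (w : ℂ) :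
    Bornology.IsBounded (sim D hD w '' T) ∧ Nonempty (sim D hD w '' T ≃ₜ closedBall (0 : ℂ) 1) ∧
    D ≤ diam (sim D hD w '' T) ∧
    μH[1] (frontier (sim D hD w '' T)) ^ 2 / volume (sim D hD w '' T) ≤ ENNReal.ofReal 13.85 := by
  obtain ⟨⟨e, he⟩, hb, h0, h1, h⟩ := h
  have L : LipschitzWith D.toNNReal (IsoTile.sim D hD w) := LipschitzWith.of_dist_le_mul fun x y => by
    rw [sim_apply, sim_apply, dist_smul₀]; simp [abs_of_pos hD, hD.le]
  have B := L.isBounded_image hb
  refine ⟨B, ⟨((Homeomorph.image _ T).symm.trans (e.image T)).trans (Homeomorph.setCongr he)⟩, ?_,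
    ENNReal.div_le_of_le_mul ?_⟩
  · convert dist_le_diam_of_mem B (mem_image_of_mem _ h0) (mem_image_of_mem _ h1) using 1
    rw [sim_apply, sim_apply, dist_smul₀]; simp [abs_of_pos hD]
  · have v : volume (IsoTile.sim D hD w '' T) = ENNReal.ofReal D ^ 2 * volume T := by
      rw [show IsoTile.sim D hD w '' T = D • ((· + w) '' T) from by
        rw [← image_smul, image_image]; rfl, Measure.addHaar_smul]
      simp [ENNReal.ofReal_pow hD.le]
    rw [← Homeomorph.image_frontier, v, mul_left_comm]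
    refine (pow_le_pow_left' (L.hausdorffMeasure_image_le zero_le_one _) 2).trans ?_
    rw [ENNReal.rpow_one, mul_pow]
    exact mul_le_mul_right h _

noncomputable def pos : (ℤ × ℤ) ⊕ (ℤ × ℤ) → ℂ
  | .inl p => ⟨168 * p.1, 168 * p.2⟩
  | .inr p => ⟨168 * p.1 + 84, 168 * p.2 + 84⟩

def base : (ℤ × ℤ) ⊕ (ℤ × ℤ) → Set ℂ
  | .inl _ => R 84 K
  | .inr _ => R 40 H

theorem near (x : ℝ) : ∃ k k' : ℤ, |x - 168 * k| ≤ 84 ∧ |x - (168 * k' + 84)| = 84 - |x - 168 * k| := by
  have h := abs_sub_round (x / 168)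
  have : |x - 168 * round (x / 168)| ≤ 84 := by
    rw [abs_le] at *; constructor <;> linarith [h.1, h.2]
  generalize round (x / 168) = k at this
  have := abs_le.1 this
  rcases le_total 0 (x - 168 * k) with e | e
  · exact ⟨k, k, by assumption, by rw [abs_of_nonneg e, abs_of_nonpos (by linarith)]; ring⟩
  · exact ⟨k, k - 1, by assumption, by
      push_cast; rw [abs_of_nonpos e, abs_of_nonneg (by linarith)]; ring⟩

theorem cover (z : ℂ) : ∃ i, z - pos i ∈ base i := by
  obtain ⟨k, k', h1, h2⟩ := near z.re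
  obtain ⟨l, l', h3, h4⟩ := near z.im
  by_cases h : |z.im - 168 * l| ≤ K |z.re - 168 * k|
  · exact ⟨.inl (k, l), h1, h⟩
  rw [K, abs_of_nonneg (sub_nonneg.2 h1), ← h2] at h
  refine ⟨.inr (k', l'), ?_, (by linarith : |z.im - (168 * l' + 84)| ≤ H |z.re - (168 * k' + 84)|)⟩
  by_contra c
  rw [H_eq (t := |z.re - (168 * k' + 84)|) (not_le.1 c).le] at h
  linarith

theorem same {x c : ℝ} {k l : ℤ} (h : |x - (168 * k + c)| < 84) (h' : |x - (168 * l + c)| < 84) :
    k = l := by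
  rw [abs_lt] at *
  have a : (k : ℝ) < l + 1 := by linarith [h.1, h'.2]
  have b : (l : ℝ) < k + 1 := by linarith [h.2, h'.1]
  norm_cast at a b; omega

theorem far (x : ℝ) (k l : ℤ) : 84 - |x - 168 * k| ≤ |x - (168 * l + 84)| := by
  rcases le_or_gt k l with h | h
  · have : (k : ℝ) ≤ l := by exact_mod_cast h
    linarith [le_abs_self (x - 168 * k), neg_abs_le (x - (168 * l + 84))]
  · have : (l : ℝ) + 1 ≤ k := by exact_mod_cast h
    linarith [neg_abs_le (x - 168 * k), le_abs_self (x - (168 * l + 84))]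

theorem mixed {z : ℂ} {p q : ℤ × ℤ} (hi : z - pos (.inl p) ∈ interior (base (.inl p)))
    (hj : z - pos (.inr q) ∈ interior (base (.inr q))) : False := by
  have a := int_R hi
  have b := int_R hj
  simp only [pos, sub_re, sub_im, K] at a b
  rw [abs_of_nonneg (sub_nonneg.2 a.1.le)] at a
  linarith [a.2, b.2, far z.im p.2 q.2, H_anti (far z.re p.1 q.1)]

theorem disj {z : ℂ} {i j} (hi : z - pos i ∈ interior (base i)) (hj : z - pos j ∈ interior (base j)) :
    i = j := by
  rcases i with p | p <;> rcases j with q | q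
  · have a := int_R hi
    have b := int_R hj
    simp only [pos, sub_re, sub_im] at a b
    congr 1
    exact Prod.ext (same (c := 0) (by simpa using a.1) (by simpa using b.1))
      (same (c := 0) (by simpa using a.2.trans_le (K_le _)) (by simpa using b.2.trans_le (K_le _)))
  · exact (mixed hi hj).elim
  · exact (mixed hj hi).elim
  · have a := int_R hi
    have b := int_R hj
    simp only [pos, sub_re, sub_im] at a b
    congr 1
    exact Prod.ext (same (a.1.trans (by norm_num)) (b.1.trans (by norm_num)))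
      (same ((a.2.trans_le (H_le _)).trans (by norm_num)) ((b.2.trans_le (H_le _)).trans (by norm_num)))

theorem main (D : ℝ) (hD : 0 < D) : ∃ T : ℕ → Set ℂ, ⋃ i, T i = univ ∧
    Pairwise (fun i j => Disjoint (interior (T i)) (interior (T j))) ∧
    (∀ i, Bornology.IsBounded (T i) ∧ Nonempty (T i ≃ₜ closedBall (0 : ℂ) 1) ∧ D ≤ diam (T i)) ∧
    ⨆ i, μH[1] (frontier (T i)) ^ 2 / volume (T i) < ENNReal.ofReal (8 * √3) := by
  let e := (Denumerable.eqv ((ℤ × ℤ) ⊕ (ℤ × ℤ))).symm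
  have hP : ∀ i, P (base i) := by rintro (p | p); exacts [PO, PQ]
  refine ⟨fun n => sim D hD (pos (e n)) '' base (e n), eq_univ_of_forall fun z => ?_,
    fun i j hij => ?_, fun i => ?_, (iSup_le fun i => ((hP _).sim hD _).2.2.2).trans_lt ?_⟩
  · obtain ⟨i, hi⟩ := cover (D⁻¹ • z)
    obtain ⟨n, rfl⟩ := e.surjective i
    exact mem_iUnion.2 ⟨n, _, hi, by rw [sim_apply, sub_add_cancel, smul_inv_smul₀ hD.ne']⟩
  · simp only [← Homeomorph.image_interior]
    rw [disjoint_left]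
    rintro _ ⟨p, hp, rfl⟩ ⟨q, hq, h⟩
    have : q + pos (e j) = p + pos (e i) := smul_right_injective ℂ hD.ne' h
    exact hij (e.injective (disj (z := p + pos (e i)) (by simpa) (by rw [← this]; simpa)))
  · have := (hP (e i)).sim hD (pos (e i))
    exact ⟨this.1, this.2.1, this.2.2.1⟩
  · rw [ENNReal.ofReal_lt_ofReal_iff (by positivity)]
    have : (1.732 : ℝ) < √3 := Real.lt_sqrt_of_sq_lt (by norm_num)
    linarith

end Pool.Agent.H8.IsoTile
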