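import Mathlib

set_option autoImplicit false

namespace Pool.Agent.H8.IsoTile

open Set MeasureTheory Metric Complex
open scoped ENNReal Pointwise

def R (b : ℝ) (g : ℝ → ℝ) : Set ℂ := {z | |z.re| ≤ b ∧ |z.im| ≤ g |z.re|}

def G (g : ℝ → ℝ) (p q : ℝ) : Set ℂ := {w | w.re ∈ Icc p q ∧ w.im = g w.re}

def Good (g : ℝ → ℝ) (p q L A : ℝ) : Prop :=
  0 ≤ L ∧ μH[1] (G g p q) ≤ ENNReal.ofReal L ∧ ∫ t in p..q, g t = A

theorem seg_le {u v : ℂ} {L : ℝ} (hL : 0 ≤ L) (h : (u.re - v.re) ^ 2 + (u.im - v.im) ^ 2 ≤ L ^ 2) :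
    μH[1] (segment ℝ u v) ≤ ENNReal.ofReal L := by
  rw [hausdorffMeasure_segment, edist_dist, Complex.dist_eq_re_im]
  exact ENNReal.ofReal_le_ofReal (Real.sqrt_le_iff.2 ⟨hL, h⟩)

theorem Good.lin {g : ℝ → ℝ} (p q y y' L : ℝ) (hpq : p < q) (hL : 0 ≤ L)
    (h : (p - q) ^ 2 + (y - y') ^ 2 ≤ L ^ 2)
    (hg : ∀ t, p ≤ t → t ≤ q → g t = y + (y' - y) / (q - p) * (t - p)) :
    Good g p q L ((y + y') / 2 * (q - p)) := by
  have hd : q - p ≠ 0 := sub_ne_zero.2 hpq.ne'
  refine ⟨hL, (measure_mono ?_).trans (seg_le (u := ⟨p, y⟩) (v := ⟨q, y'⟩) hL h), ?_⟩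
  · rintro w ⟨⟨h1, h2⟩, h3⟩
    refine ⟨(q - w.re) / (q - p), (w.re - p) / (q - p), div_nonneg (by linarith) (by linarith),
      div_nonneg (by linarith) (by linarith), by field_simp; ring, ?_⟩
    apply Complex.ext
    · simp only [add_re, smul_re, smul_eq_mul]; field_simp; ring
    · rw [h3, hg _ h1 h2]; simp only [add_im, smul_im, smul_eq_mul]; field_simp; ring
  · rw [intervalIntegral.integral_congr (g := fun t => y + (y' - y) / (q - p) * (t - p))
      (fun t ht => by rw [uIcc_of_le hpq.le] at ht; exact hg t ht.1 ht.2)]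
    rw [intervalIntegral.integral_add (by simp) (by apply Continuous.intervalIntegrable; fun_prop),
      intervalIntegral.integral_const_mul, intervalIntegral.integral_sub (by simp) (by simp)]
    simp; field_simp; ring

theorem Good.trans {g : ℝ → ℝ} (hg : Continuous g) {p q r L A L' A' : ℝ} (h : Good g p q L A)
    (h' : Good g q r L' A') : Good g p r (L + L') (A + A') := by
  refine ⟨add_nonneg h.1 h'.1, ?_, ?_⟩
  · rw [ENNReal.ofReal_add h.1 h'.1]
    refine (measure_mono ?_).trans ((measure_union_le _ _).trans (add_le_add h.2.1 h'.2.1))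
    rintro w ⟨⟨h1, h2⟩, h3⟩
    rcases le_total w.re q with e | e
    exacts [Or.inl ⟨⟨h1, e⟩, h3⟩, Or.inr ⟨⟨e, h2⟩, h3⟩]
  · rw [← h.2.2, ← h'.2.2, intervalIntegral.integral_add_adjacent_intervals
      (hg.intervalIntegrable _ _) (hg.intervalIntegrable _ _)]

theorem fold (A : Set ℂ) : μH[1] {z : ℂ | (⟨|z.re|, |z.im|⟩ : ℂ) ∈ A} ≤ 4 * μH[1] A := by
  have c := conjLIE.toIsometryEquiv.hausdorffMeasure_preimage 1
  have n := (LinearIsometryEquiv.neg ℝ (E := ℂ)).toIsometryEquiv.hausdorffMeasure_preimage 1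
  refine (measure_mono (t := (A ∪ conjLIE.toIsometryEquiv ⁻¹' A) ∪
    (LinearIsometryEquiv.neg ℝ).toIsometryEquiv ⁻¹' (A ∪ conjLIE.toIsometryEquiv ⁻¹' A)) ?_).trans
    ((measure_union_le _ _).trans ?_)
  · intro z hz
    simp only [mem_ofPred_eq] at hz
    rcases le_total 0 z.re with a | a <;> rcases le_total 0 z.im with b | b <;>
      simp only [abs_of_nonneg, abs_of_nonpos, a, b] at hz
    · exact Or.inl (Or.inl hz)
    · exact Or.inl (Or.inr hz)
    · refine Or.inr (Or.inr ?_)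
      have e : (starRingEnd ℂ) (-z) = ⟨-z.re, z.im⟩ := by apply Complex.ext <;> simp
      exact (e ▸ hz : (starRingEnd ℂ) (-z) ∈ A)
    · exact Or.inr (Or.inl hz)
  · rw [n]
    have := measure_union_le (μ := μH[1]) A (conjLIE.toIsometryEquiv ⁻¹' A)
    rw [c] at this
    refine (add_le_add this this).trans_eq (by ring)

theorem R_closed (b : ℝ) {g : ℝ → ℝ} (hg : Continuous g) : IsClosed (R b g) := by
  apply IsClosed.and <;> apply isClosed_le <;> fun_prop

theorem R_open (b : ℝ) {g : ℝ → ℝ} (hg : Continuous g) :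
    IsOpen {z : ℂ | |z.re| < b ∧ |z.im| < g |z.re|} := by
  apply IsOpen.and <;> apply isOpen_lt <;> fun_prop

theorem len {b L A : ℝ} {g : ℝ → ℝ} (hg : Continuous g) (h0 : 0 ≤ g b) (h : Good g 0 b L A) :
    μH[1] (frontier (R b g)) ≤ ENNReal.ofReal (4 * (g b + L)) := by
  have : frontier (R b g) ⊆ {z : ℂ | (⟨|z.re|, |z.im|⟩ : ℂ) ∈
      segment ℝ (⟨b, 0⟩ : ℂ) ⟨b, g b⟩ ∪ G g 0 b} := by
    rintro z ⟨h1, h2⟩
    rw [(R_closed b hg).closure_eq] at h1
    rcases h1.2.eq_or_lt with e | e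
    · exact Or.inr ⟨⟨abs_nonneg _, h1.1⟩, e⟩
    rcases h1.1.eq_or_lt with e' | e'
    · rw [e'] at e
      have p : 0 < g b := (abs_nonneg _).trans_lt e
      refine Or.inl ⟨1 - |z.im| / g b, |z.im| / g b, by rw [sub_nonneg, div_le_one p]; exact e.le,
        by positivity, by ring, ?_⟩
      apply Complex.ext
      · simp [e']; ring
      · simp [p.ne']
    · refine (h2 (mem_interior.2 ⟨{z | |z.re| < b ∧ |z.im| < g |z.re|}, fun w hw =>
        ⟨hw.1.le, hw.2.le⟩, ?_, e', e⟩)).elim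
      exact R_open b hg
  refine (measure_mono this).trans ((fold _).trans ?_)
  rw [ENNReal.ofReal_mul (by norm_num), ENNReal.ofReal_add h0 h.1]
  gcongr
  · simp
  · exact (measure_union_le _ _).trans (add_le_add (seg_le h0 (by simp)) h.2.1)

theorem area {b L A : ℝ} {g : ℝ → ℝ} (hg : Continuous g) (hb : 0 ≤ b) (h0 : ∀ t, 0 ≤ g t)
    (h : Good g 0 b L A) : ENNReal.ofReal (4 * A) ≤ volume (R b g) := by
  have c : Continuous fun t : ℝ => g |t| := by fun_prop
  have := volume_regionBetween_eq_integral (μ := volume) (f := fun t => -g |t|) (g := fun t => g |t|)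
    (s := Ioc (-b) b) c.neg.integrableOn_Ioc c.integrableOn_Ioc measurableSet_Ioc
    (fun x _ => by linarith [h0 |x|])
  have e : ∫ t in (0 : ℝ)..b, g |t| = A := h.2.2 ▸ intervalIntegral.integral_congr fun t ht => by
    rw [uIcc_of_le hb] at ht; simp [abs_of_nonneg ht.1]
  have e' : ∫ t in (-b)..0, g |t| = A := by
    have := intervalIntegral.integral_comp_neg (a := 0) (b := b) (f := fun t => g |t|)
    simpa [e] using this.symm
  rw [← intervalIntegral.integral_of_le (by linarith)] at this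
  simp only [Pi.sub_apply, sub_neg_eq_add, ← two_mul] at this
  rw [intervalIntegral.integral_const_mul, ← intervalIntegral.integral_add_adjacent_intervals (b := 0)
    (c.intervalIntegrable _ _) (c.intervalIntegrable _ _), e, e'] at this
  rw [show 4 * A = 2 * (A + A) by ring, ← this, ← Measure.volume_eq_prod,
    ← volume_preserving_equiv_real_prod.measure_preimage_equiv]
  refine measure_mono fun z hz => ?_
  simp only [mem_preimage, regionBetween, measurableEquivRealProd_apply, mem_ofPred_eq] at hz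
  exact ⟨abs_le.2 ⟨hz.1.1.le, hz.1.2⟩, abs_le.2 ⟨hz.2.1.le, hz.2.2.le⟩⟩

theorem int_R {b : ℝ} {g : ℝ → ℝ} {z : ℂ} (h : z ∈ interior (R b g)) :
    |z.re| < b ∧ |z.im| < g |z.re| := by
  obtain ⟨e, he, h⟩ := Metric.mem_nhds_iff.1 (mem_interior_iff_mem_nhds.1 h)
  have a : ∀ w : ℂ, ‖w‖ = 1 → z + (e / 2 : ℝ) * w ∈ R b g := fun w hw => h (by
    simp [hw, abs_of_pos he, he])
  have a1 := abs_le.1 (a 1 (by simp)).1
  have a2 := abs_le.1 (a (-1) (by simp)).1
  have a3 := abs_le.1 (a I (by simp)).2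
  have a4 := abs_le.1 (a (-I) (by simp)).2
  simp at a1 a2 a3 a4
  constructor <;> rw [abs_lt] <;> constructor <;> linarith [a1.1, a1.2, a2.1, a2.2, a3.1, a3.2, a4.1, a4.2]

theorem cvx (α : ℝ) {m k : ℝ} (hm : 0 ≤ m) (hk : 0 ≤ k) :
    Convex ℝ {z : ℂ | m * |z.re| + k * |z.im| ≤ α} := by
  intro x hx y hy a b ha hb e
  have t : ∀ u v : ℝ, |a * u + b * v| ≤ a * |u| + b * |v| := fun u v =>
    (abs_add_le _ _).trans_eq (by rw [abs_mul, abs_mul, abs_of_nonneg ha, abs_of_nonneg hb])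
  simp only [mem_ofPred_eq, add_re, add_im, smul_re, smul_im, smul_eq_mul] at *
  have h1 := mul_le_mul_of_nonneg_left (t x.re y.re) hm
  have h2 := mul_le_mul_of_nonneg_left (t x.im y.im) hk
  have h3 := mul_le_mul_of_nonneg_left hx ha
  have h4 := mul_le_mul_of_nonneg_left hy hb
  have : α = a * α + b * α := by rw [← add_mul, e, one_mul]
  nlinarith

theorem R_bdd {b c : ℝ} {g : ℝ → ℝ} (h : ∀ t, g |t| ≤ c) : Bornology.IsBounded (R b g) :=
  (isBounded_closedBall (x := (0 : ℂ)) (r := b + c)).subset fun z hz => by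
    rw [mem_closedBall_zero_iff]
    exact (norm_le_abs_re_add_abs_im z).trans (add_le_add hz.1 (hz.2.trans (h _)))

theorem disc {b c : ℝ} {g : ℝ → ℝ} (hg : Continuous g) (hb : 0 < b) (h0 : 0 < g 0)
    (h : ∀ t, g |t| ≤ c) (hc : Convex ℝ (R b g)) :
    ∃ e : ℂ ≃ₜ ℂ, e '' R b g = closedBall 0 1 := by
  obtain ⟨e, -, he, -⟩ := exists_homeomorph_image_interior_closure_frontier_eq_unitBall hc
    ⟨0, mem_interior.2 ⟨{z | |z.re| < b ∧ |z.im| < g |z.re|}, fun w hw => ⟨hw.1.le, hw.2.le⟩,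
      R_open b hg, by simpa using hb, by simpa using h0⟩⟩ (R_bdd h)
  exact ⟨e, by rwa [(R_closed b hg).closure_eq] at he⟩

theorem disc' {b : ℝ} {g : ℝ → ℝ} (hg : Continuous g) (hb : 0 < b) (h0 : ∀ t, 0 < g t) :
    ∃ e : ℂ ≃ₜ ℂ, e '' R b g = closedBall 0 1 := by
  obtain ⟨e, he⟩ := disc (g := fun _ => 1) (c := 1) continuous_const hb one_pos (fun _ => le_rfl) (by
    convert (cvx b zero_le_one le_rfl).inter (cvx 1 le_rfl zero_le_one) using 1
    ext z; simp [R])
  have n : ∀ t, g t ≠ 0 := fun t => (h0 t).ne'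
  let f : ℂ ≃ₜ ℂ :=
    { toFun := fun z => z.re + (z.im / g |z.re| : ℝ) * I
      invFun := fun z => z.re + (z.im * g |z.re| : ℝ) * I
      left_inv := fun z => by apply Complex.ext <;> simp [-ofReal_div, -ofReal_mul, n]
      right_inv := fun z => by apply Complex.ext <;> simp [-ofReal_div, -ofReal_mul, n]
      continuous_toFun := by
        have : Continuous fun z : ℂ => z.im / g |z.re| :=
          continuous_im.div (by fun_prop) fun z => n _
        fun_prop
      continuous_invFun := by fun_prop }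
  refine ⟨f.trans e, ?_⟩
  rw [← he, show ⇑(f.trans e) = e ∘ f from rfl, image_comp]
  congr 1
  rw [Homeomorph.image_eq_preimage_symm]
  ext z
  simp [f, R, Homeomorph.symm, -ofReal_div, -ofReal_mul, abs_mul, abs_of_pos (h0 _),
    mul_le_iff_le_one_left (h0 _)]

end Pool.Agent.H8.IsoTile
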