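import Mathlib

/-! The Jacobian criterion for independence of coordinates on a parametrised variety. -/

namespace Pool.Agent.H8.Jac
open MvPolynomial Set Pointwise

variable {K σ τ : Type} [Field K] [CharZero K]

lemma jac [Fintype σ] (p : σ → MvPolynomial τ K) (h0 : ∀ i, constantCoeff (p i) = 0) (E : Set σ)
    (hJ : ∀ g : σ → FractionRing (MvPolynomial τ K), (∀ i ∉ E, g i = 0) →
      (∀ j, ∑ i, g i * algebraMap _ _ (pderiv j (p i)) = 0) → ∀ i, g i = 0) :
    ∀ f ∈ supported K E, aeval p f = 0 → f = 0 := by
  classical
  have chain : ∀ j (f : MvPolynomial σ K),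
      pderiv j (aeval p f) = ∑ i, aeval p (pderiv i f) * pderiv j (p i) := fun j f => by
    induction f using MvPolynomial.induction_on with
    | C a => simp
    | add f g hf hg => simp only [map_add, hf, hg, add_mul, Finset.sum_add_distrib]
    | mul_X f k hf =>
      simp only [map_mul, aeval_X, Derivation.leibniz, hf, smul_eq_mul, map_add, add_mul,
        Finset.sum_add_distrib, Finset.mul_sum, pderiv_X, mul_assoc]
      congr 1
      rw [Finset.sum_eq_single k] <;> simp +contextual [Pi.single_apply, eq_comm]
  have sup : ∀ i, ∀ f ∈ supported K E, pderiv i f ∈ supported K E := fun i f hf => by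
    induction hf using Algebra.adjoin_induction with
    | mem x hx =>
      obtain ⟨k, -, rfl⟩ := hx
      by_cases h : k = i
      · simp [h]
      · simp [pderiv_X_of_ne h]
    | algebraMap r => simp
    | add x y _ _ hx hy => simpa using add_mem hx hy
    | mul x y hx hy hx' hy' => rw [Derivation.leibniz]; exact add_mem (mul_mem hx hy') (mul_mem hy hx')
  have step : ∀ f ∈ supported K E, aeval p f = 0 → ∀ i, aeval p (pderiv i f) = 0 :=
    fun f hf h i => by
    refine (map_eq_zero_iff _ (IsFractionRing.injective _ (FractionRing _))).1
      (hJ (fun i => algebraMap _ _ (aeval p (pderiv i f))) (fun i hi => ?_) (fun j => ?_) i)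
    · rw [pderiv_eq_zero_of_notMem_vars fun h => hi (mem_supported.1 hf h), map_zero, map_zero]
    · simp only [← map_mul, ← map_sum, ← chain, h, map_zero]
  have : ∀ n, ∀ m : σ →₀ ℕ, m.degree = n → ∀ f ∈ supported K E, aeval p f = 0 → coeff m f = 0 :=
    fun n => by
    induction n with
    | zero =>
      intro m hm f _ h
      obtain rfl := (Finsupp.degree_eq_zero_iff m).1 hm
      have : constantCoeff (aeval p f) = constantCoeff f := by
        clear * - h0
        induction f using MvPolynomial.induction_on <;> simp_all
      rw [← constantCoeff_eq, ← this, h, map_zero]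
    | succ n ih =>
      intro m hm f hf h
      obtain ⟨i, hi⟩ : ∃ i, m i ≠ 0 := by
        by_contra! h
        simp [show m = 0 from Finsupp.ext h] at hm
      obtain ⟨m, rfl⟩ : ∃ m', m = m' + Finsupp.single i 1 := ⟨m - Finsupp.single i 1,
        (tsub_add_cancel_of_le (Finsupp.single_le_iff.2 (by omega))).symm⟩
      have := ih m (by simpa using hm) _ (sup i f hf) (step f hf h i)
      rw [coeff_pderiv] at this
      exact (mul_eq_zero.1 this).resolve_right (Nat.cast_add_one_ne_zero _)
  exact fun f hf h => MvPolynomial.ext _ _ fun m => this _ m rfl f hf h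

lemma van (p : σ → MvPolynomial τ K) (f : MvPolynomial σ K) :
    f ∈ vanishingIdeal K (range fun (t : τ → K) i => eval t (p i)) ↔ aeval p f = 0 := by
  have e : ∀ t : τ → K, aeval (fun i => eval t (p i)) f = eval t (aeval p f) := fun t => by
    induction f using MvPolynomial.induction_on <;> simp_all
  simp only [mem_vanishingIdeal_iff, forall_mem_range, e]
  exact ⟨fun h => MvPolynomial.funext (by simpa using h), fun h t => by rw [h, map_zero]⟩

omit [CharZero K] in
lemma van_add (P Q : Set (σ → K)) :
    vanishingIdeal K (zeroLocus K (vanishingIdeal K P) + Q) = vanishingIdeal K (P + Q) := by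
  refine le_antisymm (vanishingIdeal_anti_mono (add_subset_add_right
    (zeroLocus_vanishingIdeal_le P))) ?_
  rintro f hf _ ⟨x, hx, y, hy, rfl⟩
  have e : ∀ x : σ → K, aeval x (aeval (fun i => X i + C (y i) : σ → MvPolynomial σ K) f) =
      aeval (x + y) f := fun x => by
    clear hf
    induction f using MvPolynomial.induction_on <;> simp_all
  exact (e x).symm.trans (hx _ fun z hz => (e z).trans (hf _ (add_mem_add hz hy)))

lemma hom {P : Set (σ → K)} (hP : ∀ (a : K), ∀ x ∈ P, a • x ∈ P) {f : MvPolynomial σ K}
    (hf : f ∈ vanishingIdeal K P) (d : ℕ) : homogeneousComponent d f ∈ vanishingIdeal K P := by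
  intro x hx
  have e : ∀ (a : K) n, aeval (a • x) (homogeneousComponent n f) =
      aeval x (homogeneousComponent n f) * a ^ n := fun a n => by
    simp only [homogeneousComponent_apply, map_sum, aeval_monomial, Finset.sum_mul]
    refine Finset.sum_congr rfl fun m hm => ?_
    simp only [Pi.smul_apply, smul_eq_mul, mul_pow, Finsupp.prod, Finset.prod_mul_distrib,
      Finset.prod_pow_eq_pow_sum, ← (Finset.mem_filter.1 hm).2, Finsupp.degree_apply]
    ring
  have : ∑ n ∈ Finset.range (f.totalDegree + 1),
      Polynomial.monomial n (aeval x (homogeneousComponent n f)) = 0 :=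
    Polynomial.funext fun a => by
      simp only [Polynomial.eval_finset_sum, Polynomial.eval_monomial, ← e, ← map_sum,
        sum_homogeneousComponent, hf _ (hP a x hx), Polynomial.eval_zero]
  have := congrArg (·.coeff d) this
  simp only [Polynomial.finset_sum_coeff, Polynomial.coeff_monomial, Finset.sum_ite_eq',
    Polynomial.coeff_zero, Finset.mem_range] at this
  split_ifs at this with h
  · exact this
  · rw [homogeneousComponent_eq_zero _ _ (by omega), map_zero]

end Pool.Agent.H8.Jac
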