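import Mathlib

/-! Polynomial vanishing lemma with handicaps (for the weighted joints theorem). -/

namespace Pool.Agent.H8.Joints
open MvPolynomial

variable {d : ℕ}

abbrev MP (d : ℕ) := MvPolynomial (Fin d) ℝ

noncomputable def D (v : Fin d → ℝ) : MP d →ₗ[ℝ] MP d :=
  ∑ j, v j • (pderiv j : Derivation ℝ (MP d) (MP d)).toLinearMap

lemma D_apply (v : Fin d → ℝ) (f : MP d) : D v f = ∑ j, v j • pderiv j f := by
  simp [D, LinearMap.sum_apply]

lemma D_C (v : Fin d → ℝ) (a : ℝ) : D v (C a) = 0 := by simp [D_apply]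

lemma D_mulX (v : Fin d → ℝ) (f : MP d) (i : Fin d) :
    D v (f * X i) = D v f * X i + v i • f := by
  simp only [D_apply, Derivation.leibniz, pderiv_X, smul_eq_mul, smul_add, Finset.sum_add_distrib,
    Finset.sum_mul]
  rw [add_comm]
  congr 1
  · exact Finset.sum_congr rfl fun j _ => by rw [smul_mul_assoc, mul_comm]
  · rw [Finset.sum_eq_single i]
    · simp
    · intro j _ hj; simp [Pi.single_eq_of_ne' hj]
    · simp

lemma D_comm (u v : Fin d → ℝ) (f : MP d) : D u (D v f) = D v (D u f) := by
  induction f using MvPolynomial.induction_on with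
  | C a => simp [D_C]
  | add p q hp hq => simp [hp, hq]
  | mul_X p i hp => simp only [D_mulX, map_add, map_smul, hp]; abel

lemma D_sum {ι} [Fintype ι] (c : ι → ℝ) (w : ι → Fin d → ℝ) (f : MP d) :
    D (∑ i, c i • w i) f = ∑ i, c i • D (w i) f := by
  simp only [D_apply, Finset.sum_apply, Pi.smul_apply, smul_eq_mul, Finset.sum_smul,
    Finset.smul_sum, mul_smul]
  exact Finset.sum_comm

lemma D_deg (v : Fin d → ℝ) (f : MP d) : (D v f).totalDegree ≤ f.totalDegree := by
  rw [D_apply]
  refine totalDegree_finsetSum_le fun j _ => (totalDegree_smul_le _ _).trans ?_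
  conv_lhs => rw [f.as_sum, map_sum]
  refine totalDegree_finsetSum_le fun s hs => ?_
  rw [pderiv_monomial]
  refine (totalDegree_monomial_le _ _).trans (le_trans ?_ (le_totalDegree hs))
  rw [Finsupp.sum_fintype _ _ (by simp), Finsupp.sum_fintype _ _ (by simp)]
  exact Finset.sum_le_sum fun i _ => by simp

noncomputable def DL : List (Fin d → ℝ) → MP d →ₗ[ℝ] MP d
  | [] => LinearMap.id
  | u :: L => DL L ∘ₗ D u

@[simp] lemma DL_nil (f : MP d) : DL [] f = f := rfl
@[simp] lemma DL_cons (u) (L) (f : MP d) : DL (u :: L) f = DL L (D u f) := rfl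

lemma DL_append (L M) (f : MP d) : DL (L ++ M) f = DL M (DL L f) := by
  induction L generalizing f with
  | nil => simp
  | cons u L ih => simp [ih]

lemma DL_perm {L M} (h : L.Perm M) (f : MP d) : DL L f = DL M f := by
  induction h generalizing f with
  | nil => rfl
  | cons u _ ih => simp [ih]
  | swap u v L => simp [D_comm u v]
  | trans _ _ h1 h2 => rw [h1, h2]

lemma DL_deg (L) (f : MP d) : (DL L f).totalDegree ≤ f.totalDegree := by
  induction L generalizing f with
  | nil => simp
  | cons u L ih => exact (ih _).trans (D_deg u f)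

lemma DL_basis {w : Fin d → Fin d → ℝ} (hw : LinearIndependent ℝ w) (p : Fin d → ℝ) (L)
    (f : MP d) (h : eval p (DL L f) ≠ 0) :
    ∃ l : List (Fin d), l.length = L.length ∧ eval p (DL (l.map w) f) ≠ 0 := by
  induction L generalizing f with
  | nil => exact ⟨[], rfl, h⟩
  | cons u L ih =>
    have hs : u ∈ Submodule.span ℝ (Set.range w) := by
      rw [hw.span_eq_top_of_card_eq_finrank' (by simp)]; trivial
    obtain ⟨c, rfl⟩ := (Submodule.mem_span_range_iff_exists_fun ℝ).1 hs
    rw [DL_cons, D_sum, map_sum, map_sum] at h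
    obtain ⟨i, -, hi⟩ := Finset.exists_ne_zero_of_sum_ne_zero h
    rw [map_smul, smul_eval] at hi
    obtain ⟨l, hl, h2⟩ := ih _ (right_ne_zero_of_mul hi)
    exact ⟨i :: l, by simp [hl], h2⟩

noncomputable def line (p v : Fin d → ℝ) : MP d →ₐ[ℝ] Polynomial ℝ :=
  aeval fun j => Polynomial.C (p j) + Polynomial.C (v j) * Polynomial.X

lemma line_eval (p v : Fin d → ℝ) (t : ℝ) (f : MP d) :
    (line p v f).eval t = eval (p + t • v) f := by
  induction f using MvPolynomial.induction_on with
  | C a => simp [line]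
  | add p q hp hq => simp [hp, hq]
  | mul_X g i hp =>
    rw [map_mul, Polynomial.eval_mul, hp, map_mul]
    simp only [line, aeval_X, Polynomial.eval_add, Polynomial.eval_C, Polynomial.eval_mul,
      Polynomial.eval_X, eval_X, Pi.add_apply, Pi.smul_apply, smul_eq_mul]
    ring

lemma line_deriv (p v : Fin d → ℝ) (f : MP d) :
    Polynomial.derivative (line p v f) = line p v (D v f) := by
  induction f using MvPolynomial.induction_on with
  | C a => simp [line, D_C]
  | add p q hp hq => simp [hp, hq]
  | mul_X g i hp =>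
    rw [map_mul, Polynomial.derivative_mul, hp, D_mulX, map_add, map_mul, map_smul]
    simp only [line, aeval_X, Polynomial.smul_eq_C_mul, Polynomial.derivative_add,
      Polynomial.derivative_C, Polynomial.derivative_C_mul, Polynomial.derivative_X]
    ring

lemma line_iter (p v : Fin d → ℝ) (k : ℕ) (f : MP d) :
    Polynomial.derivative^[k] (line p v f) = line p v (DL (List.replicate k v) f) := by
  induction k generalizing f with
  | zero => simp
  | succ k ih => rw [Function.iterate_succ_apply, line_deriv, ih, List.replicate_succ, DL_cons]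

lemma line_deg (p v : Fin d → ℝ) (f : MP d) : (line p v f).natDegree ≤ f.totalDegree := by
  have := aeval_natDegree_le f le_rfl
    (fun j => Polynomial.C (p j) + Polynomial.C (v j) * Polynomial.X) (n := 1) (fun j => by
      compute_degree)
  simpa [line] using this

lemma ord_ex {f : MP d} (hf : f ≠ 0) (p : Fin d → ℝ) :
    ∃ r, ∃ L : List (Fin d → ℝ), L.length = r ∧ eval p (DL L f) ≠ 0 := by
  obtain ⟨y, hy⟩ : ∃ y, eval y f ≠ 0 := by
    by_contra h; push Not at h
    exact hf (MvPolynomial.funext fun y => by simp [h y])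
  have h1 : line p (y - p) f ≠ 0 := fun h => hy (by
    have := line_eval p (y - p) 1 f
    rw [h] at this; simpa using this.symm)
  have h2 := (Polynomial.lt_rootMultiplicity_iff_isRoot_iterate_derivative (t := 0)
    (n := (line p (y - p) f).rootMultiplicity 0) h1).not.1 (lt_irrefl _)
  push Not at h2
  obtain ⟨k, -, hk⟩ := h2
  refine ⟨k, List.replicate k (y - p), by simp, ?_⟩
  rw [Polynomial.IsRoot, line_iter, line_eval] at hk
  simpa using hk

lemma roots_bound {ι} (s : Finset ι) (t : ι → ℝ) (ht : Set.InjOn t s) (b : ι → ℕ)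
    {g : Polynomial ℝ} (hg : g ≠ 0)
    (h : ∀ q ∈ s, ∀ k < b q, (Polynomial.derivative^[k] g).eval (t q) = 0) :
    ∑ q ∈ s, b q ≤ g.natDegree := by
  classical
  have h1 : ∀ q ∈ s, b q ≤ g.roots.count (t q) := fun q hq => by
    rw [Polynomial.count_roots]
    rcases Nat.eq_zero_or_pos (b q) with h0 | h0
    · omega
    · have := (Polynomial.lt_rootMultiplicity_iff_isRoot_iterate_derivative (t := t q)
        (n := b q - 1) hg).2 fun m hm => h q hq m (by omega)
      omega
  refine (Finset.sum_le_sum h1).trans (le_trans ?_ (Polynomial.card_roots' g))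
  rw [← Finset.sum_image (f := fun a => g.roots.count a) ht]
  calc ∑ a ∈ s.image t, g.roots.count a
      ≤ ∑ a ∈ s.image t ∪ g.roots.toFinset, g.roots.count a :=
        Finset.sum_le_sum_of_subset Finset.subset_union_left
    _ = _ := Multiset.sum_count_eq_card fun a ha => by simp [ha]

/-- The canonical list with `γ i` copies of `i`. -/
noncomputable def canon (γ : Fin d → ℕ) : List (Fin d) :=
  (∑ i, Multiset.replicate (γ i) i).toList

lemma canon_perm (l : List (Fin d)) : (canon fun i => l.count i).Perm l := by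
  rw [List.perm_iff_count]
  intro a
  rw [canon, ← Multiset.coe_count, Multiset.coe_toList, Multiset.count_sum',
    Finset.sum_eq_single a]
  · simp
  · intro b _ hb; rw [Multiset.count_replicate, if_neg hb]
  · simp

lemma exists_poly {K : Type} [Fintype K] (m : ℕ) (φ : K → MP d →ₗ[ℝ] ℝ)
    (h : Fintype.card K < (m + 1) ^ d) :
    ∃ f : MP d, f ≠ 0 ∧ f.totalDegree ≤ d * m ∧ ∀ k, φ k f = 0 := by
  classical
  let e : (Fin d → Fin (m + 1)) → (Fin d →₀ ℕ) := fun γ =>
    Finsupp.equivFunOnFinite.symm fun i => (γ i : ℕ)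
  have he : Function.Injective e := fun a b hab => by
    funext i
    have := congrArg (fun z : Fin d →₀ ℕ => z i) hab
    exact Fin.ext (by simpa [e] using this)
  let A : ((Fin d → Fin (m + 1)) → ℝ) →ₗ[ℝ] MP d :=
    ∑ γ, (monomial (e γ)) ∘ₗ LinearMap.proj γ
  have hA : ∀ c, A c = ∑ γ, monomial (e γ) (c γ) := fun c => by simp [A, LinearMap.sum_apply]
  have := (LinearMap.pi φ ∘ₗ A).ker_ne_bot_of_finrank_lt (by simpa using h)
  obtain ⟨c, hc, hc0⟩ := Submodule.exists_mem_ne_zero_of_ne_bot this
  refine ⟨A c, fun h0 => hc0 ?_, ?_, fun k => congrFun (LinearMap.mem_ker.1 hc) k⟩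
  · funext γ
    have := congrArg (coeff (e γ)) h0
    rw [hA, coeff_sum, Finset.sum_eq_single γ] at this
    · simpa using this
    · intro b _ hb; rw [coeff_monomial, if_neg (he.ne hb)]
    · simp
  · rw [hA]
    refine totalDegree_finsetSum_le fun γ _ => (totalDegree_monomial_le _ _).trans ?_
    rw [Finsupp.sum_fintype _ _ (by simp)]
    calc ∑ i, id (e γ i) ≤ ∑ _i : Fin d, m := Finset.sum_le_sum fun i _ => by
          have := (γ i).2; simp only [e, id, Finsupp.equivFunOnFinite_symm_apply_apply]; omega
      _ = d * m := by simp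

open Classical in
lemma vanish {J Λ : Type} (U : Finset J) (hU : U.Nonempty) (x : J → Fin d → ℝ)
    (v : Λ → Fin d → ℝ) (I : J → Λ → Prop)
    (hinj : ∀ l p q, I p l → I q l → x p = x q → p = q)
    (hcol : ∀ l p q, I p l → I q l → ∃ t : ℝ, x q = x p + t • v l)
    (T : J → Fin d → Λ) (hT : ∀ p ∈ U, (∀ i, I p (T p i)) ∧ LinearIndependent ℝ (v ∘ T p))
    (α : J → ℕ) (τ : Λ → ℕ) (m : ℕ)
    (hsum : ∀ p ∈ U, ∀ i, d * m < ∑ q ∈ U.filter (I · (T p i)), (α q - τ (T p i))) :
    (m + 1) ^ d ≤ ∑ p ∈ U, ∏ i, (α p - τ (T p i)) := by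
  by_contra hlt
  push Not at hlt
  obtain ⟨f, hf, hdeg, hφ⟩ := exists_poly (K := Σ p : U, ∀ i, Fin (α p - τ (T p i))) m
    (fun k => (aeval (x k.1)).toLinearMap ∘ₗ DL ((canon fun i => k.2 i).map (v ∘ T k.1)))
    (by
      rw [Fintype.card_sigma]
      simp only [Fintype.card_pi, Fintype.card_fin]
      rwa [Finset.sum_coe_sort U fun p => ∏ i, (α p - τ (T p i))])
  let o : J → ℕ := fun p => Nat.find (ord_ex hf (x p))
  have ho : ∀ q (L : List (Fin d → ℝ)), L.length < o q → eval (x q) (DL L f) = 0 :=
    fun q L hL => by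
      have := Nat.find_min (ord_ex hf (x q)) hL
      push Not at this
      exact this L rfl
  obtain ⟨p, hp, hmin⟩ := U.exists_min_image (fun q => (o q : ℤ) - α q) hU
  obtain ⟨L, hL, hL0⟩ := Nat.find_spec (ord_ex hf (x p))
  obtain ⟨l, hl, hl0⟩ := DL_basis (hT p hp).2 (x p) L f hL0
  obtain ⟨i, hi⟩ : ∃ i, α p - τ (T p i) ≤ l.count i := by
    by_contra hc
    push Not at hc
    have := hφ ⟨⟨p, hp⟩, fun i => ⟨l.count i, hc i⟩⟩
    simp only [LinearMap.comp_apply, AlgHom.toLinearMap_apply, coe_aeval_eq_eval] at this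
    rw [DL_perm ((canon_perm l).map _)] at this
    exact hl0 this
  set l' := l.filter (fun a => !(a == i))
  have hperm : l.Perm (l' ++ List.replicate (l.count i) i) := by
    rw [← List.filter_beq]
    exact ((List.filter_append_perm (fun a => a == i) l).symm).trans List.perm_append_comm
  have hlen : l'.length + l.count i = o p := by
    have := hperm.length_eq
    simp only [List.length_append, List.length_replicate] at this
    rw [← this, hl, hL]
  set w := v (T p i)
  set g := line (x p) w (DL (l'.map (v ∘ T p)) f)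
  have hg : g ≠ 0 := fun h0 => by
    apply hl0
    rw [DL_perm (hperm.map _), List.map_append, DL_append, List.map_replicate]
    have := line_eval (x p) w 0 (DL (List.replicate (l.count i) w) (DL (l'.map (v ∘ T p)) f))
    rw [← line_iter] at this
    change Polynomial.eval 0 (Polynomial.derivative^[l.count i] g) = _ at this
    rw [h0] at this
    simpa using this.symm
  choose! t ht using fun q (hq : I q (T p i)) => hcol (T p i) p q ((hT p hp).1 i) hq
  have := roots_bound (U.filter (I · (T p i))) t (fun a ha b hb hab => by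
      have ha' := (Finset.mem_filter.1 ha).2
      have hb' := (Finset.mem_filter.1 hb).2
      exact hinj _ a b ha' hb' (by rw [ht a ha', ht b hb', hab]))
    (fun q => α q - τ (T p i)) hg (fun q hq k hk => by
      obtain ⟨hq1, hq2⟩ := Finset.mem_filter.1 hq
      rw [line_iter, line_eval, ← ht q hq2, ← DL_append]
      apply ho
      have := hmin q hq1
      simp only [List.length_append, List.length_map, List.length_replicate]
      omega)
  have h2 : g.natDegree ≤ d * m := (line_deg (x p) w _).trans ((DL_deg (l'.map (v ∘ T p)) f).trans hdeg)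
  have := hsum p hp i
  omega

end Pool.Agent.H8.Joints
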