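import Mathlib
import Pool.Agent.H8.Joints1

/-! The weighted joints theorem (joints with multiplicities). -/

namespace Pool.Agent.H8.Joints

variable {d : ℕ}

open Classical in
lemma balance {J Λ : Type} [Fintype J] [Fintype Λ] (x : J → Fin d → ℝ)
    (v : Λ → Fin d → ℝ) (I : J → Λ → Prop)
    (hinj : ∀ l p q, I p l → I q l → x p = x q → p = q)
    (hcol : ∀ l p q, I p l → I q l → ∃ t : ℝ, x q = x p + t • v l)
    (m : ℕ) (a : J → ℝ) (ha : ∀ p, 0 ≤ a p) (hS : ∑ p, a p < (m + 1) ^ d) :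
    ∃ (α : J → ℕ) (τ : Λ → ℕ),
      (∀ l, ∑ q ∈ Finset.univ.filter (I · l), (α q - (τ l + 1)) ≤ d * m) ∧
      ∀ p (T : Fin d → Λ), (∀ i, I p (T i)) → LinearIndependent ℝ (v ∘ T) →
        a p < ∏ i, ((α p + 1 - τ (T i) : ℕ) : ℝ) := by
  set n := d * m + 1 with hn
  let A : (J → ℕ) × (Λ → ℕ) → Prop := fun z =>
    (∀ p, n ≤ z.1 p) ∧
    (∀ l, z.2 l = 0 ∨ n ≤ ∑ q ∈ Finset.univ.filter (I · l), (z.1 q - z.2 l)) ∧
    ∀ p, z.1 p = n ∨ ∃ T : Fin d → Λ, (∀ i, I p (T i)) ∧ LinearIndependent ℝ (v ∘ T) ∧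
      ∏ i, ((z.1 p - z.2 (T i) : ℕ) : ℝ) ≤ a p
  have bd1 : ∀ z, A z → ∀ p, z.1 p < n * (Fintype.card J + 1) := by
    rintro ⟨α, τ⟩ ⟨h1, h2, h3⟩ p0
    dsimp only at h1 h2 h3 ⊢
    by_contra hp0
    push Not at hp0
    obtain ⟨k, hk, hk2⟩ : ∃ k ∈ Finset.Icc 1 (Fintype.card J), ∀ q, α q / n ≠ k := by
      by_contra hc
      push Not at hc
      have hsub : insert (α p0 / n) (Finset.Icc 1 (Fintype.card J)) ⊆
          Finset.univ.image fun q => α q / n := by
        intro k hk
        rcases Finset.mem_insert.1 hk with rfl | hk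
        · exact Finset.mem_image_of_mem _ (Finset.mem_univ _)
        · obtain ⟨q, hq⟩ := hc k hk
          exact Finset.mem_image.2 ⟨q, Finset.mem_univ _, hq⟩
      have h4 := (Finset.card_le_card hsub).trans Finset.card_image_le
      have h5 : Fintype.card J + 1 ≤ α p0 / n :=
        (Nat.le_div_iff_mul_le (by omega)).2 (by rwa [mul_comm])
      rw [Finset.card_insert_of_notMem (by simp; omega)] at h4
      simp at h4
    obtain ⟨hk1, hk3⟩ := Finset.mem_Icc.1 hk
    have gap : ∀ q, α q < n * k ∨ n * k + n ≤ α q := fun q => by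
      rcases lt_or_gt_of_ne (hk2 q) with h | h
      · left; rw [Nat.div_lt_iff_lt_mul (by omega)] at h; rwa [mul_comm]
      · right
        have := (Nat.le_div_iff_mul_le (show 0 < n by omega)).1 (Nat.succ_le_of_lt h)
        rw [Nat.succ_mul, mul_comm] at this; exact this
    have hnk : n ≤ n * k := Nat.le_mul_of_pos_right _ hk1
    let U := Finset.univ.filter fun q => n * k + n ≤ α q
    have hU : ∀ q, q ∈ U ↔ n * k + n ≤ α q := fun q => by simp [U]
    have hp0U : p0 ∈ U := (hU p0).2 (le_trans (by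
      rw [mul_add, mul_one]; exact Nat.add_le_add_right (Nat.mul_le_mul_left _ hk3) _) hp0)
    haveI : Nonempty (Fin d → Λ) :=
      ⟨((h3 p0).resolve_left (by have := (hU p0).1 hp0U; omega)).choose⟩
    choose! T hT using fun q (hq : q ∈ U) =>
      (h3 q).resolve_left (by have := (hU q).1 hq; omega)
    have := vanish U ⟨p0, hp0U⟩ x v I hinj hcol T (fun q hq => ⟨(hT q hq).1, (hT q hq).2.1⟩)
      α (fun l => max (τ l) (n * k)) m (fun q hq i => by
        have hI := (hT q hq).1 i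
        have hq' := (hU q).1 hq
        rcases le_total (τ (T q i)) (n * k) with h | h
        · rw [max_eq_right h]
          refine lt_of_lt_of_le (by omega) (Finset.single_le_sum
            (f := fun q' => α q' - n * k) (fun _ _ => Nat.zero_le _)
            (Finset.mem_filter.2 ⟨hq, hI⟩))
        · rw [max_eq_left h]
          have h6 := (h2 (T q i)).resolve_left (by omega)
          refine lt_of_lt_of_le (by omega : d * m < n) (h6.trans (le_of_eq ?_))
          symm
          apply Finset.sum_subset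
          · intro q' hq'
            simpa using (Finset.mem_filter.1 hq').2
          · intro q' h7 h8
            have h9 : q' ∉ U := fun h => h8 (Finset.mem_filter.2 ⟨h, (Finset.mem_filter.1 h7).2⟩)
            rw [hU] at h9
            have := gap q'
            omega)
    have h7 : ((m + 1 : ℝ)) ^ d ≤ ∑ q ∈ U, ∏ i, ((α q - max (τ (T q i)) (n * k) : ℕ) : ℝ) := by
      exact_mod_cast this
    have h8 : ∑ q ∈ U, ∏ i, ((α q - max (τ (T q i)) (n * k) : ℕ) : ℝ) ≤ ∑ q ∈ U, a q :=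
      Finset.sum_le_sum fun q hq => le_trans (Finset.prod_le_prod (fun _ _ => by positivity)
        fun i _ => by exact_mod_cast Nat.sub_le_sub_left (le_max_left _ _) _) (hT q hq).2.2
    have h9 : ∑ q ∈ U, a q ≤ ∑ q, a q :=
      Finset.sum_le_sum_of_subset_of_nonneg (Finset.subset_univ _) fun q _ _ => ha q
    linarith
  have bd2 : ∀ z, A z → ∀ l, z.2 l ≤ n * (Fintype.card J + 1) := by
    intro z hz l
    rcases hz.2.1 l with h | h
    · omega
    · by_contra hc
      rw [Finset.sum_eq_zero fun q _ => by have := bd1 z hz q; omega] at h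
      omega
  let φ : (J → ℕ) × (Λ → ℕ) → ℕ := fun z => ∑ p, z.1 p + ∑ l, z.2 l
  have hb : BddAbove (φ '' {z | A z}) := by
    refine ⟨∑ _p : J, n * (Fintype.card J + 1) + ∑ _l : Λ, n * (Fintype.card J + 1), ?_⟩
    rintro _ ⟨z, hz, rfl⟩
    exact Nat.add_le_add (Finset.sum_le_sum fun p _ => (bd1 z hz p).le)
      (Finset.sum_le_sum fun l _ => bd2 z hz l)
  obtain ⟨⟨α, τ⟩, ⟨h1, h2, h3⟩, hmax⟩ := Nat.sSup_mem (s := φ '' {z | A z})
    ⟨_, (fun _ => n, fun _ => 0), ⟨fun _ => le_rfl, fun _ => Or.inl rfl, fun _ => Or.inl rfl⟩,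
      rfl⟩ hb
  dsimp only at h1 h2 h3
  have hm : ∀ z, A z → φ z ≤ φ (α, τ) := fun z hz => hmax ▸ le_csSup hb ⟨z, hz, rfl⟩
  have hup : ∀ {ι : Type} [Fintype ι] (f : ι → ℕ) (i : ι),
      ∑ j, Function.update f i (f i + 1) j = ∑ j, f j + 1 := by
    intro ι _ f i
    rw [Finset.sum_update_of_mem (Finset.mem_univ i), Finset.sum_eq_add_sum_sdiff_singleton_of_mem
      (Finset.mem_univ i)]
    ring
  refine ⟨α, τ, fun l => ?_, fun p T hT1 hT2 => ?_⟩
  · by_contra hc
    have := hm (α, Function.update τ l (τ l + 1)) ⟨h1, fun l' => ?_, fun p => ?_⟩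
    · simp only [φ, hup] at this; omega
    · by_cases h : l' = l
      · subst h; right; simp only [Function.update_self]; omega
      · simpa only [Function.update_of_ne h] using h2 l'
    · refine (h3 p).imp id fun ⟨T, t1, t2, t3⟩ => ⟨T, t1, t2, le_trans
        (Finset.prod_le_prod (fun _ _ => by positivity) fun i _ => ?_) t3⟩
      have : τ (T i) ≤ Function.update τ l (τ l + 1) (T i) := by
        by_cases h : T i = l
        · rw [h]; simp
        · simp [Function.update_of_ne h]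
      exact_mod_cast Nat.sub_le_sub_left this _
  · by_contra hc
    push Not at hc
    have hle : ∀ q, α q ≤ Function.update α p (α p + 1) q := fun q => by
      by_cases h : q = p
      · rw [h]; simp
      · simp [Function.update_of_ne h]
    have := hm (Function.update α p (α p + 1), τ) ⟨fun q => (h1 q).trans (hle q), fun l => ?_,
      fun q => ?_⟩
    · simp only [φ, hup] at this; omega
    · exact (h2 l).imp id fun h => h.trans
        (Finset.sum_le_sum fun q _ => Nat.sub_le_sub_right (hle q) _)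
    · by_cases h : q = p
      · subst h; right; exact ⟨T, hT1, hT2, by simpa using hc⟩
      · simpa only [Function.update_of_ne h] using h3 q

open Classical in
/-- Weighted number of independent `d`-tuples of lines through `p`. -/
noncomputable def N {J Λ : Type} [Fintype Λ] {X : Type} [AddCommGroup X] [Module ℝ X] (d : ℕ)
    (v : Λ → X) (I : J → Λ → Prop) (w : Λ → ℝ) (p : J) : ℝ :=
  ∑ T : Fin d → Λ, if (∀ i, I p (T i)) ∧ LinearIndependent ℝ (v ∘ T) then ∏ i, w (T i) else 0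

theorem joints_pi {J Λ : Type} [Fintype J] [Fintype Λ] {r : ℕ} (hr : 1 ≤ r)
    (x : J → Fin (r + 1) → ℝ) (v : Λ → Fin (r + 1) → ℝ) (I : J → Λ → Prop)
    (hinj : ∀ l p q, I p l → I q l → x p = x q → p = q)
    (hcol : ∀ l p q, I p l → I q l → ∃ t : ℝ, x q = x p + t • v l)
    (w : Λ → ℝ) (hw : ∀ l, 0 ≤ w l) (c : J → ℝ) (hc : ∀ p, 0 ≤ c p)
    (hN : ∀ p, c p ^ r ≤ N (r + 1) v I w p) :
    (∑ p, c p) ^ r ≤ 2 * (r + 3) ^ (r + 1) * (∑ l, w l) ^ (r + 1) := by
  classical
  set S := ∑ p, c p with hS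
  set L := ∑ l, w l with hL
  have hL0 : 0 ≤ L := Finset.sum_nonneg fun l _ => hw l
  rcases (show 0 ≤ S from Finset.sum_nonneg fun p _ => hc p).eq_or_lt with h0 | h0
  · rw [← h0, zero_pow (by omega)]; positivity
  set m := Fintype.card J
  set W : ℝ := (m + 1) ^ (r + 1) / (2 * S) with hW
  have hW0 : 0 < W := by positivity
  obtain ⟨ω, hω0, hω⟩ : ∃ ω : ℝ, 0 ≤ ω ∧ ω ^ (r + 1) = W :=
    ⟨W ^ ((r + 1 : ℕ) : ℝ)⁻¹, by positivity, Real.rpow_inv_natCast_pow hW0.le (by omega)⟩
  obtain ⟨α, τ, h1, h2⟩ := balance x v I hinj hcol m (fun p => W * c p)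
    (fun p => mul_nonneg hW0.le (hc p)) (by
      rw [← Finset.mul_sum, ← hS, hW]
      have : (0 : ℝ) < (m + 1) ^ (r + 1) := by positivity
      field_simp; linarith)
  let y : J → Λ → ℝ := fun p l => if I p l then w l * ((α p + 1 - τ l : ℕ) : ℝ) else 0
  have hy : ∀ p l, 0 ≤ y p l := fun p l => by
    simp only [y]; split_ifs
    · exact mul_nonneg (hw l) (by positivity)
    · rfl
  have h3 : ∀ p, ω * c p ≤ ∑ l, y p l := fun p => by
    refine (pow_le_pow_iff_left₀ (mul_nonneg hω0 (hc p)) (Finset.sum_nonneg fun l _ => hy p l)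
      (show r + 1 ≠ 0 by omega)).1 ?_
    have e : (∑ l, y p l) ^ (r + 1) = ∑ T : Fin (r + 1) → Λ, ∏ i, y p (T i) := by
      rw [← Fintype.piFinset_univ, ← Finset.prod_univ_sum]; simp
    rw [e, mul_pow, hω, pow_succ', ← mul_assoc]
    refine (mul_le_mul_of_nonneg_left (hN p) (mul_nonneg hW0.le (hc p))).trans ?_
    rw [N, Finset.mul_sum]
    refine Finset.sum_le_sum fun T _ => ?_
    split_ifs with h
    · simp only [y, h.1, if_true, Finset.prod_mul_distrib]
      rw [mul_comm]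
      exact mul_le_mul_of_nonneg_left (h2 p T h.1 h.2).le (Finset.prod_nonneg fun i _ => hw _)
    · rw [mul_zero]; exact Finset.prod_nonneg fun i _ => hy _ _
  have h4 : ω * S ≤ (r + 3) * (m + 1) * L := by
    rw [hS, Finset.mul_sum, hL, Finset.mul_sum]
    refine (Finset.sum_le_sum fun p _ => h3 p).trans ?_
    rw [Finset.sum_comm]
    refine Finset.sum_le_sum fun l _ => ?_
    simp only [y]
    rw [← Finset.sum_filter, ← Finset.mul_sum, mul_comm]
    refine mul_le_mul_of_nonneg_right ?_ (hw l)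
    have h5 : ∑ q ∈ Finset.univ.filter (I · l), (α q + 1 - τ l) ≤
        ∑ q ∈ Finset.univ.filter (I · l), (α q - (τ l + 1) + 2) :=
      Finset.sum_le_sum fun q _ => by omega
    rw [Finset.sum_add_distrib, Finset.sum_const, smul_eq_mul] at h5
    have h6 : (Finset.univ.filter (I · l)).card ≤ m := Finset.card_le_univ _
    have h7 := h1 l
    have h8 : ∑ q ∈ Finset.univ.filter (I · l), (α q + 1 - τ l) ≤ (r + 3) * (m + 1) := by
      nlinarith
    exact_mod_cast h8
  have h5 := pow_le_pow_left₀ (mul_nonneg hω0 h0.le) h4 (r + 1)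
  rw [mul_pow, hω, mul_pow, mul_pow, hW, pow_succ S] at h5
  have h6 : (0 : ℝ) < (m + 1) ^ (r + 1) := by positivity
  have e : (m + 1 : ℝ) ^ (r + 1) / (2 * S) * (S ^ r * S) = (m + 1) ^ (r + 1) * (S ^ r / 2) := by
    field_simp
  rw [e] at h5
  nlinarith

/-- Weighted joints theorem in any real vector space of dimension `r + 1`. -/
theorem joints {J Λ X : Type} [Fintype J] [Fintype Λ] [AddCommGroup X] [Module ℝ X] {r : ℕ}
    (hr : 1 ≤ r) (hX : Module.finrank ℝ X = r + 1)
    (x : J → X) (v : Λ → X) (I : J → Λ → Prop)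
    (hinj : ∀ l p q, I p l → I q l → x p = x q → p = q)
    (hcol : ∀ l p q, I p l → I q l → ∃ t : ℝ, x q = x p + t • v l)
    (w : Λ → ℝ) (hw : ∀ l, 0 ≤ w l) (c : J → ℝ) (hc : ∀ p, 0 ≤ c p)
    (hN : ∀ p, c p ^ r ≤ N (r + 1) v I w p) :
    (∑ p, c p) ^ r ≤ 2 * (r + 3) ^ (r + 1) * (∑ l, w l) ^ (r + 1) := by
  haveI : Module.Finite ℝ X := Module.finite_of_finrank_pos (by omega)
  let e : X ≃ₗ[ℝ] (Fin (r + 1) → ℝ) := LinearEquiv.ofFinrankEq _ _ (by simpa using hX)
  refine joints_pi hr (e ∘ x) (e ∘ v) I (fun l p q h1 h2 h => hinj l p q h1 h2 (e.injective h))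
    (fun l p q h1 h2 => ?_) w hw c hc fun p => (hN p).trans (le_of_eq ?_)
  · obtain ⟨t, ht⟩ := hcol l p q h1 h2
    exact ⟨t, by simp [ht]⟩
  · unfold N
    refine Finset.sum_congr rfl fun T _ => ?_
    have : LinearIndependent ℝ ((e ∘ v) ∘ T) ↔ LinearIndependent ℝ (v ∘ T) :=
      e.toLinearMap.linearIndependent_iff (v := v ∘ T) e.ker
    by_cases h : (∀ i, I p (T i)) ∧ LinearIndependent ℝ (v ∘ T)
    · rw [if_pos h, if_pos ⟨h.1, this.2 h.2⟩]
    · rw [if_neg h, if_neg fun h' => h ⟨h'.1, this.1 h'.2⟩]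

end Pool.Agent.H8.Joints
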