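import Mathlib
import Pool.Agent.H8.Joints2

/-! Faces of polytopes, generic projections and duality, greedy frames. -/

namespace Pool.Agent.H8.Joints
open Module
open scoped RealInnerProductSpace

section faces
variable {V : Type} [NormedAddCommGroup V] [InnerProductSpace ℝ V] [FiniteDimensional ℝ V]

lemma face_hull (S : Finset V) {F : Set V} (hF : IsExposed ℝ (convexHull ℝ (S : Set V)) F) :
    F = convexHull ℝ (↑S ∩ F) := by
  have hc : IsCompact (convexHull ℝ (S : Set V)) := S.finite_toSet.isCompact_convexHull ℝ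
  have hv := hF.convex (convex_convexHull ℝ _)
  apply Set.Subset.antisymm _ (convexHull_min Set.inter_subset_right hv)
  have h1 := closure_convexHull_extremePoints (hF.isCompact hc) hv
  have h2 : IsClosed (convexHull ℝ (↑S ∩ F)) :=
    ((S.finite_toSet.inter_of_left F).isCompact_convexHull ℝ).isClosed
  refine h1.symm.subset.trans (closure_minimal (convexHull_mono fun x hx => ?_) h2)
  rw [hF.isExtreme.extremePoints_eq] at hx
  exact ⟨extremePoints_convexHull_subset hx.2, hx.1⟩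

lemma faces_finite (S : Finset V) :
    {F : Set V | IsExposed ℝ (convexHull ℝ (S : Set V)) F}.Finite := by
  refine Set.Finite.of_finite_image (f := fun F => ↑S ∩ F)
    (S.finite_toSet.finite_subsets.subset ?_) fun F hF G hG h => ?_
  · rintro _ ⟨F, _, rfl⟩; exact Set.inter_subset_left
  · rw [face_hull S hF, face_hull S hG]; exact congrArg _ h

lemma exposed_trans (S : Finset V) {G : Set V} (hG : IsExposed ℝ (convexHull ℝ (S : Set V)) G)
    (ψ : V →L[ℝ] ℝ) : IsExposed ℝ (convexHull ℝ (S : Set V)) {x ∈ G | ∀ y ∈ G, ψ y ≤ ψ x} := by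
  rintro ⟨z, hz, hz2⟩
  have hv := hG.convex (convex_convexHull ℝ _)
  obtain ⟨φ, hφ⟩ := hG ⟨z, hz⟩
  have hm : ∀ x, x ∈ G ↔ x ∈ convexHull ℝ (S : Set V) ∧
      ∀ y ∈ convexHull ℝ (S : Set V), φ y ≤ φ x := fun x => by rw [hφ]; rfl
  have hz' := (hm z).1 hz
  obtain ⟨K, hK⟩ : ∃ K : ℝ, ∀ s ∈ S, s ∉ G → (ψ s - ψ z) / (φ z - φ s) < K := by
    obtain ⟨K, hK⟩ := (S.finite_toSet.image fun s => (ψ s - ψ z) / (φ z - φ s)).bddAbove
    exact ⟨K + 1, fun s hs _ => lt_of_le_of_lt (hK ⟨s, hs, rfl⟩) (by linarith)⟩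
  have hG1 : ∀ x ∈ G, φ x = φ z := fun x hx =>
    le_antisymm (hz'.2 x ((hm x).1 hx).1) (((hm x).1 hx).2 z hz'.1)
  have hlt : ∀ s ∈ S, s ∉ G → (K • φ + ψ) s < (K • φ + ψ) z := fun s hs hsG => by
    have hsP := subset_convexHull ℝ (S : Set V) hs
    have h1 : φ s < φ z := lt_of_le_of_ne (hz'.2 s hsP) fun h =>
      hsG ((hm s).2 ⟨hsP, fun y hy => h ▸ hz'.2 y hy⟩)
    have := hK s hs hsG
    rw [div_lt_iff₀ (by linarith)] at this
    simp only [ContinuousLinearMap.add_apply, ContinuousLinearMap.smul_apply, smul_eq_mul]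
    linarith
  have hle : ∀ y ∈ convexHull ℝ (S : Set V), (K • φ + ψ) y ≤ (K • φ + ψ) z := by
    refine convexHull_min (t := {y | (K • φ + ψ) y ≤ (K • φ + ψ) z}) (fun s hs => ?_)
      (convex_halfSpace_le (K • φ + ψ).toLinearMap.isLinear _)
    by_cases h : s ∈ G
    · have := hz2 s h
      simp only [Set.mem_ofPred_eq, ContinuousLinearMap.add_apply, ContinuousLinearMap.smul_apply,
        smul_eq_mul, hG1 s h]
      linarith
    · exact (hlt s hs h).le
  refine ⟨K • φ + ψ, Set.Subset.antisymm ?_ ?_⟩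
  · rintro x ⟨hx, hx2⟩
    refine ⟨((hm x).1 hx).1, fun y hy => (hle y hy).trans ?_⟩
    have := hx2 z hz
    simp only [ContinuousLinearMap.add_apply, ContinuousLinearMap.smul_apply, smul_eq_mul,
      hG1 x hx]
    linarith
  · have hE : IsExposed ℝ (convexHull ℝ (S : Set V)) {x ∈ convexHull ℝ (S : Set V) |
        ∀ y ∈ convexHull ℝ (S : Set V), (K • φ + ψ) y ≤ (K • φ + ψ) x} := fun _ => ⟨_, rfl⟩
    rw [face_hull S hE]
    refine convexHull_min ?_ (IsExposed.convex (fun _ => ⟨ψ, rfl⟩) hv)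
    rintro s ⟨hs, -, hs2⟩
    have h1 := hs2 z hz'.1
    have h2 : s ∈ G := by by_contra h; exact absurd (hlt s hs h) (not_lt.2 h1)
    refine ⟨h2, fun y hy => (hz2 y hy).trans ?_⟩
    simp only [ContinuousLinearMap.add_apply, ContinuousLinearMap.smul_apply, smul_eq_mul,
      hG1 s h2] at h1
    linarith

omit [FiniteDimensional ℝ V] in
lemma dir_le_ker {E : Set V} (ψ : V →ₗ[ℝ] ℝ) (h : ∀ x ∈ E, ∀ y ∈ E, ψ x = ψ y) :
    (affineSpan ℝ E).direction ≤ LinearMap.ker ψ := by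
  rw [direction_affineSpan, vectorSpan_def, Submodule.span_le]
  rintro _ ⟨x, hx, y, hy, rfl⟩
  simp [h x hx y hy]

omit [FiniteDimensional ℝ V] in
lemma sub_mem_dir {E : Set V} {x y : V} (hx : x ∈ E) (hy : y ∈ E) :
    x - y ∈ (affineSpan ℝ E).direction :=
  AffineSubspace.vsub_mem_direction (subset_affineSpan ℝ E hx) (subset_affineSpan ℝ E hy)

omit [FiniteDimensional ℝ V] in
lemma face_sub {P G G' : Set V} (hG : IsExposed ℝ P G) (hG' : IsExposed ℝ P G') {z : V}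
    (hz : z ∈ G) (hz' : z ∈ G')
    (h : (affineSpan ℝ G).direction = (affineSpan ℝ G').direction) : G ⊆ G' := by
  obtain ⟨φ, hφ⟩ := hG' ⟨z, hz'⟩
  have hm : ∀ x, x ∈ G' ↔ x ∈ P ∧ ∀ y ∈ P, φ y ≤ φ x := fun x => by rw [hφ]; rfl
  intro x hx
  have h1 := dir_le_ker (E := G') φ.toLinearMap (fun a ha b hb =>
    le_antisymm (((hm b).1 hb).2 a ((hm a).1 ha).1) (((hm a).1 ha).2 b ((hm b).1 hb).1))
    (h ▸ sub_mem_dir hx hz)
  simp only [LinearMap.mem_ker, map_sub, ContinuousLinearMap.coe_coe] at h1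
  exact (hm x).2 ⟨hG.subset hx, fun y hy => by linarith [((hm z).1 hz').2 y hy]⟩

lemma frame (s : ℕ) : ∀ (W : Submodule ℝ V) (A : Set V), finrank ℝ W = s → IsCompact A →
    A.Nonempty → A ⊆ W → ∃ e a : Fin s → V, Orthonormal ℝ e ∧ (∀ i, e i ∈ W) ∧ (∀ i, a i ∈ A) ∧
      (∀ i j, j < i → ⟪e i, a j⟫ = 0) ∧
      ∀ x ∈ A, ∀ m i, m ≤ i → |⟪e i, x⟫| ≤ |⟪e m, a m⟫| := by
  induction s with
  | zero =>
    intro W A _ _ _ _
    exact ⟨Fin.elim0, Fin.elim0, ⟨fun i => i.elim0, fun i => i.elim0⟩, fun i => i.elim0,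
      fun i => i.elim0, fun i => i.elim0, fun _ _ i => i.elim0⟩
  | succ s ih =>
    intro W A hW hA hne hAW
    obtain ⟨a0, ha0, hmax⟩ := hA.exists_isMaxOn hne continuous_norm.continuousOn
    obtain ⟨e0, he0, hn, ha⟩ : ∃ e0 ∈ W, ‖e0‖ = 1 ∧ a0 = ‖a0‖ • e0 := by
      by_cases h : a0 = 0
      · obtain ⟨z, hz, hz0⟩ := Submodule.exists_mem_ne_zero_of_ne_bot (p := W) (by
          rintro rfl; simp at hW)
        exact ⟨‖z‖⁻¹ • z, W.smul_mem _ hz, norm_smul_inv_norm (𝕜 := ℝ) hz0, by simp [h]⟩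
      · refine ⟨‖a0‖⁻¹ • a0, W.smul_mem _ (hAW ha0), norm_smul_inv_norm (𝕜 := ℝ) h, ?_⟩
        rw [smul_smul, mul_inv_cancel₀ (norm_ne_zero_iff.2 h), one_smul]
    have h11 : ⟪e0, e0⟫ = 1 := by rw [real_inner_self_eq_norm_sq, hn]; norm_num
    have hW' : finrank ℝ ((ℝ ∙ e0)ᗮ ⊓ W : Submodule ℝ V) = s := by
      have := Submodule.finrank_add_inf_finrank_orthogonal (K₁ := ℝ ∙ e0) (K₂ := W)
        ((Submodule.span_singleton_le_iff_mem _ _).2 he0)
      rw [finrank_span_singleton (by rintro rfl; simp at hn)] at this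
      omega
    obtain ⟨e, a, h1, h2, h3, h4, h5⟩ := ih _ ((fun x => x - ⟪e0, x⟫ • e0) '' A) hW'
      (hA.image (by fun_prop)) (hne.image _) (by
        rintro _ ⟨x, hx, rfl⟩
        refine ⟨Submodule.mem_orthogonal_singleton_iff_inner_right.2 ?_,
          W.sub_mem (hAW hx) (W.smul_mem _ he0)⟩
        rw [inner_sub_right, inner_smul_right, h11]; ring)
    choose b hb hab using h3
    have ho : ∀ i, ⟪e i, e0⟫ = 0 := fun i =>
      Submodule.mem_orthogonal_singleton_iff_inner_left.1 (h2 i).1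
    have hp : ∀ i x, ⟪e i, x - ⟪e0, x⟫ • e0⟫ = ⟪e i, x⟫ := fun i x => by
      rw [inner_sub_right, inner_smul_right, ho]; ring
    have hab' : ∀ i j, ⟪e i, a j⟫ = ⟪e i, b j⟫ := fun i j => by rw [← hab j, hp]
    have hon : Orthonormal ℝ (Fin.cons e0 e : Fin (s + 1) → V) :=
      orthonormal_vecCons_iff.2 ⟨hn, fun i => by rw [real_inner_comm, ho], h1⟩
    refine ⟨Fin.cons e0 e, Fin.cons a0 b, hon, fun i => ?_, fun i => ?_, fun i j h => ?_,
      fun x hx m i h => ?_⟩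
    · refine Fin.cases he0 (fun i => (h2 i).2) i
    · refine Fin.cases ha0 hb i
    · rcases Fin.eq_zero_or_eq_succ i with rfl | ⟨i, rfl⟩
      · exact absurd h (Fin.not_lt_zero _)
      · rcases Fin.eq_zero_or_eq_succ j with rfl | ⟨j, rfl⟩
        · simp only [Fin.cons_succ, Fin.cons_zero]; rw [ha, inner_smul_right, ho]; ring
        · simp only [Fin.cons_succ]; rw [← hab']; exact h4 i j (Fin.succ_lt_succ_iff.1 h)
    · rcases Fin.eq_zero_or_eq_succ m with rfl | ⟨m, rfl⟩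
      · have h6 := abs_real_inner_le_norm ((Fin.cons e0 e : Fin (s + 1) → V) i) x
        rw [hon.1 i, one_mul] at h6
        have h7 : ⟪e0, a0⟫ = ‖a0‖ := by
          conv_lhs => rw [ha]
          rw [inner_smul_right, h11, mul_one]
        simp only [Fin.cons_zero]
        rw [h7, abs_norm]
        exact h6.trans (hmax hx)
      · rcases Fin.eq_zero_or_eq_succ i with rfl | ⟨i, rfl⟩
        · exact absurd h (by simp)
        · simp only [Fin.cons_succ]
          rw [← hab', ← hp]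
          exact h5 _ ⟨x, hx, rfl⟩ m i (Fin.succ_le_succ_iff.1 h)

lemma expand {s : ℕ} {W : Submodule ℝ V} (hW : finrank ℝ W = s) {e : Fin s → V}
    (he : Orthonormal ℝ e) (h : ∀ i, e i ∈ W) {z : V} (hz : z ∈ W) :
    ∑ i, ⟪e i, z⟫ • e i = z := by
  have h1 : Submodule.span ℝ (Set.range e) = W :=
    Submodule.eq_of_le_of_finrank_eq (Submodule.span_le.2 (Set.range_subset_iff.2 h))
      (by rw [finrank_span_eq_card he.linearIndependent, hW]; simp)
  rw [← h1] at hz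
  obtain ⟨c, rfl⟩ := (Submodule.mem_span_range_iff_exists_fun ℝ).1 hz
  simp only [he.inner_right_fintype]

end faces

section dual
variable {V : Type} [AddCommGroup V] [Module ℝ V] [FiniteDimensional ℝ V]

lemma gen {ι : Type} [Finite ι] (U : ι → Submodule ℝ V) (m : ℕ) :
    ∃ π : V →ₗ[ℝ] (Fin m → ℝ), ∀ i,
      finrank ℝ (U i ⊓ LinearMap.ker π : Submodule ℝ V) ≤ finrank ℝ (U i) - m := by
  induction m with
  | zero => exact ⟨0, fun i => Submodule.finrank_mono inf_le_left⟩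
  | succ m ih =>
    obtain ⟨π, hπ⟩ := ih
    choose z hz hz0 using fun i : {i // U i ⊓ LinearMap.ker π ≠ ⊥} =>
      Submodule.exists_mem_ne_zero_of_ne_bot i.2
    obtain ⟨φ, hφ⟩ := Module.exists_dual_forall_apply_ne_zero (K := ℝ) z hz0
    let π' : V →ₗ[ℝ] (Fin (m + 1) → ℝ) :=
      LinearMap.pi (Fin.cons φ fun j => LinearMap.proj j ∘ₗ π)
    have h1 : ∀ i, U i ⊓ LinearMap.ker π' ≤ U i ⊓ LinearMap.ker π := fun i =>
      inf_le_inf_left _ fun y hy => by
        rw [LinearMap.mem_ker] at hy ⊢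
        funext j; simpa [π'] using congrFun hy j.succ
    refine ⟨π', fun i => ?_⟩
    by_cases h : U i ⊓ LinearMap.ker π = ⊥
    · have := Submodule.finrank_mono (h1 i)
      rw [h, finrank_bot] at this; omega
    · have := Submodule.finrank_lt_finrank_of_lt (lt_of_le_of_ne (h1 i) fun h2 => by
        have h3 := hz ⟨i, h⟩
        rw [← h2] at h3
        exact hφ ⟨i, h⟩ (by simpa [π'] using congrFun (LinearMap.mem_ker.1 h3.2) 0))
      have := hπ i
      omega

lemma rank_one {X : Type} [AddCommGroup X] [Module ℝ X] (A : Submodule ℝ X)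
    (h : finrank ℝ A = 1) : ∃ ν ∈ A, ∀ q ∈ A, ∃ t : ℝ, q = t • ν := by
  obtain ⟨⟨ν, hν⟩, -, h2⟩ := finrank_eq_one_iff'.1 h
  refine ⟨ν, hν, fun q hq => ?_⟩
  obtain ⟨c, hc⟩ := h2 ⟨q, hq⟩
  exact ⟨c, (congrArg Subtype.val hc).symm⟩

lemma hyper (H : Submodule ℝ V) (h : finrank ℝ H + 1 = finrank ℝ V) :
    ∃ ν : Dual ℝ V, (∀ y, ν y = 0 ↔ y ∈ H) ∧
      ∀ q : Dual ℝ V, (∀ y ∈ H, q y = 0) → ∃ t : ℝ, q = t • ν := by
  have h1 := Subspace.finrank_add_finrank_dualAnnihilator_eq H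
  have h0 : finrank ℝ H.dualAnnihilator = 1 := by omega
  obtain ⟨ν, hν, h2⟩ := rank_one (X := Dual ℝ V) H.dualAnnihilator h0
  have h3 : ∀ q : Dual ℝ V, (∀ y ∈ H, q y = 0) → ∃ t : ℝ, q = t • ν := fun q hq =>
    h2 q ((Submodule.mem_dualAnnihilator q).2 hq)
  refine ⟨ν, fun y => ⟨fun hy => ?_, (Submodule.mem_dualAnnihilator ν).1 hν y⟩, h3⟩
  rw [← Subspace.dualAnnihilator_dualCoannihilator_eq (W := H), Submodule.mem_dualCoannihilator]
  intro q hq
  obtain ⟨t, rfl⟩ := h3 q ((Submodule.mem_dualAnnihilator q).1 hq)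
  simp [hy]

lemma dualize {J Λ : Type} [Finite J] [Finite Λ] {r : ℕ} (W : J → Submodule ℝ V)
    (H : Λ → Submodule ℝ V) (hW : ∀ G, finrank ℝ (W G) = r + 1) (hH : ∀ F, finrank ℝ (H F) = r) :
    ∃ (x : J → Dual ℝ (Fin (r + 1) → ℝ)) (ν : Λ → Dual ℝ (Fin (r + 1) → ℝ))
      (π : V →ₗ[ℝ] (Fin (r + 1) → ℝ)),
      (∀ G G', x G = x G' → W G = W G') ∧
      (∀ F G G', H F ≤ W G → H F ≤ W G' → ∃ t : ℝ, x G' = x G + t • ν F) ∧
      ∀ F G z, H F ≤ W G → z ∈ W G → ν F (π z) = 0 → z ∈ H F := by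
  obtain ⟨π, hπ⟩ := gen (Sum.elim W H) (r + 1)
  have inj : ∀ i, Function.Injective (π ∘ₗ (Sum.elim W H i).subtype) := fun i => by
    have h1 := hπ i
    have h2 : finrank ℝ (Sum.elim W H i : Submodule ℝ V) ≤ r + 1 := by
      rcases i with i | i
      · exact (hW i).le
      · exact (hH i).le.trans (by omega)
    have h3 := Submodule.finrank_eq_zero.1 (show finrank ℝ
      (Sum.elim W H i ⊓ LinearMap.ker π : Submodule ℝ V) = 0 by omega)
    rw [← LinearMap.ker_eq_bot, LinearMap.ker_eq_bot']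
    intro z hz
    have : (z : V) ∈ Sum.elim W H i ⊓ LinearMap.ker π := ⟨z.2, hz⟩
    rw [h3] at this
    exact Subtype.ext this
  let e : ∀ G, W G ≃ₗ[ℝ] (Fin (r + 1) → ℝ) := fun G =>
    LinearMap.linearEquivOfInjective (π ∘ₗ (W G).subtype) (inj (.inl G)) (by simpa using hW G)
  have he : ∀ G (z : W G), e G z = π z := fun G z => rfl
  have hpair : ∀ k : {k : J × J // ¬ W k.1 ≤ W k.2}, ∃ z, z ≠ 0 ∧
      ∃ a ∈ W k.1.1, ∃ b ∈ W k.1.2, π a = π b ∧ z = a - b := by
    rintro ⟨⟨G, G'⟩, hk⟩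
    obtain ⟨a, ha, ha'⟩ := SetLike.not_le_iff_exists.1 hk
    obtain ⟨b, hb⟩ := (e G').surjective (π a)
    exact ⟨a - b, fun h => ha' (by rw [sub_eq_zero.1 h]; exact b.2), a, ha, b, b.2, hb.symm, rfl⟩
  choose z hz0 hz using hpair
  obtain ⟨μ, hμ⟩ := Module.exists_dual_forall_apply_ne_zero (K := ℝ) z hz0
  let x : J → Dual ℝ (Fin (r + 1) → ℝ) := fun G => μ ∘ₗ (W G).subtype ∘ₗ (e G).symm.toLinearMap
  have hx : ∀ G, ∀ a ∈ W G, x G (π a) = μ a := fun G a ha => by
    have : π a = e G ⟨a, ha⟩ := rfl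
    simp [x, this]
  choose ν hν1 hν2 using fun F => hyper ((H F).map π) (by
    have := LinearMap.finrank_range_of_inj (inj (.inr F))
    rw [LinearMap.range_comp, Submodule.range_subtype] at this
    exact (congrArg (· + 1) (this.trans (hH F))).trans (by simp))
  have hle : ∀ G G', x G = x G' → W G ≤ W G' := fun G G' h => by
    by_contra hc
    obtain ⟨a, ha, b, hb, h1, h2⟩ := hz ⟨(G, G'), hc⟩
    apply hμ ⟨(G, G'), hc⟩
    rw [h2, map_sub, ← hx G a ha, ← hx G' b hb, h, h1, sub_self]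
  refine ⟨x, ν, π, fun G G' h => le_antisymm (hle _ _ h) (hle _ _ h.symm),
    fun F G G' h1 h2 => ?_, fun F G y h1 h2 h3 => ?_⟩
  · obtain ⟨t, ht⟩ := hν2 F (x G' - x G) (by
      rintro _ ⟨a, ha, rfl⟩
      rw [LinearMap.sub_apply, hx G a (h1 ha), hx G' a (h2 ha), sub_self])
    exact ⟨t, by rw [← ht]; abel⟩
  · obtain ⟨a, ha, h4⟩ := (hν1 F _).1 h3
    have := (e G).injective (a₁ := ⟨a, h1 ha⟩) (a₂ := ⟨y, h2⟩) h4
    rw [← show a = y from congrArg Subtype.val this]; exact ha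

end dual

open Classical in
lemma adaptive {J Λ X : Type} [Fintype Λ] [AddCommGroup X] [Module ℝ X] (v : Λ → X)
    (I : J → Λ → Prop) (w : Λ → ℝ) (hw : ∀ l, 0 ≤ w l) (p : J) (L : ℕ → ℝ) (hL : ∀ j, 0 ≤ L j)
    (n : ℕ) (h : ∀ j < n, ∀ T : Fin j → Λ, L j ≤
      ∑ l, if I p l ∧ v l ∉ Submodule.span ℝ (Set.range (v ∘ T)) then w l else 0) :
    ∏ j ∈ Finset.range n, L j ≤ N n v I w p := by
  induction n with
  | zero => simp [N]
  | succ n ih =>
    rw [Finset.prod_range_succ]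
    refine (mul_le_mul_of_nonneg_right (ih fun j hj => h j (by omega)) (hL n)).trans ?_
    unfold N
    rw [← (Fin.consEquiv fun _ : Fin (n + 1) => Λ).sum_comp, Fintype.sum_prod_type_right,
      Finset.sum_mul]
    refine Finset.sum_le_sum fun T _ => ?_
    split_ifs with hT
    · refine (mul_le_mul_of_nonneg_left (h n (by omega) T)
        (Finset.prod_nonneg fun i _ => hw _)).trans (le_of_eq ?_)
      rw [Finset.mul_sum]
      refine Finset.sum_congr rfl fun l _ => ?_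
      have e1 : (Fin.consEquiv fun _ : Fin (n + 1) => Λ) (l, T) = Fin.cons l T := rfl
      have e2 : v ∘ (Fin.cons l T : Fin (n + 1) → Λ) = Fin.cons (v l) (v ∘ T) := Fin.comp_cons _ _ _
      rw [e1, e2, Fin.prod_univ_succ]
      simp only [linearIndependent_finCons, Fin.forall_fin_succ, Fin.cons_zero, Fin.cons_succ, hT.1, hT.2, implies_true, and_true, true_and]
      split_ifs <;> ring
    · rw [zero_mul]
      refine Finset.sum_nonneg fun l _ => ?_
      split_ifs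
      · exact Finset.prod_nonneg fun i _ => hw _
      · rfl

end Pool.Agent.H8.Joints
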