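import Mathlib
import Pool.Agent.H8.Joints3

/-! Volume estimates for one face. -/

namespace Pool.Agent.H8.Joints
open Module MeasureTheory
open scoped RealInnerProductSpace ENNReal NNReal

lemma shear {r : ℕ} {A : Set (Fin (r + 1) → ℝ)} (i0 : Fin (r + 1)) (u : Fin r → ℝ)
    {B : Set (Fin r → ℝ)} (hB : MeasurableSet B) (a l : ℝ)
    (h : ∀ y ∈ A, |y i0 - a| ≤ l ∧ (fun k => y (i0.succAbove k) - y i0 * u k) ∈ B) :
    volume A ≤ ENNReal.ofReal (2 * l) * volume B := by
  let Q : Set (ℝ × (Fin r → ℝ)) := {z | z.1 ∈ Set.Icc (a - l) (a + l) ∧ z.2 - z.1 • u ∈ B}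
  have hQ : MeasurableSet Q :=
    (measurableSet_Icc.preimage measurable_fst).inter (hB.preimage (by fun_prop))
  have h1 := (volume_preserving_piFinSuccAbove (fun _ : Fin (r + 1) => ℝ) i0).measure_preimage
    hQ.nullMeasurableSet
  refine (measure_mono fun y hy => ?_).trans (h1.le.trans ?_)
  · obtain ⟨h2, h3⟩ := h y hy
    rw [abs_le] at h2
    exact ⟨⟨by change a - l ≤ y i0; linarith, by change y i0 ≤ a + l; linarith⟩, h3⟩
  · rw [Measure.volume_eq_prod, Measure.prod_apply hQ]
    have : ∀ x : ℝ, volume (Prod.mk x ⁻¹' Q) =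
        (Set.Icc (a - l) (a + l)).indicator (fun _ => volume B) x := fun x => by
      by_cases hx : x ∈ Set.Icc (a - l) (a + l)
      · rw [Set.indicator_of_mem hx, ← measure_preimage_add_right volume (-(x • u)) B]
        congr 1; ext y; simp [Q, hx.1, hx.2, sub_eq_add_neg]
        exact fun _ => by simpa [sub_eq_add_neg] using hx.1
      · rw [Set.indicator_of_notMem hx]
        have : Prod.mk x ⁻¹' Q = ∅ := Set.eq_empty_of_forall_notMem fun y hy => hx hy.1
        rw [this, measure_empty]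
    simp only [this]
    rw [lintegral_indicator_const measurableSet_Icc, Real.volume_Icc, mul_comm]
    congr! 2; ring

lemma exit {s : ℕ} {A : Set (Fin s → ℝ)} (hA : IsCompact A) {y t : Fin s → ℝ} (hy : y ∈ A)
    (ht : t ≠ 0) : ∃ τ : ℝ, y + τ • t ∈ A ∧ y + τ • t ∉ interior A := by
  have hc : Continuous fun τ : ℝ => y + τ • t := by fun_prop
  have hb : BddAbove ((fun τ : ℝ => y + τ • t) ⁻¹' A) := by
    obtain ⟨R, hR⟩ := hA.isBounded.exists_norm_le
    refine ⟨(R + ‖y‖) / ‖t‖, fun τ hτ => ?_⟩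
    rw [le_div_iff₀ (norm_pos_iff.2 ht)]
    have h1 := hR _ hτ
    have h2 := norm_sub_le (y + τ • t) y
    rw [add_sub_cancel_left, norm_smul, Real.norm_eq_abs] at h2
    nlinarith [le_abs_self τ, norm_nonneg t]
  have hm := (hA.isClosed.preimage hc).csSup_mem ⟨0, by simpa using hy⟩ hb
  refine ⟨_, hm, fun hi => ?_⟩
  obtain ⟨ε, hε, h⟩ := Metric.isOpen_iff.1 (isOpen_interior.preimage hc) _ hi
  have h1 := h (a := sSup ((fun τ : ℝ => y + τ • t) ⁻¹' A) + ε / 2)
    (by rw [Metric.mem_ball, Real.dist_eq, add_sub_cancel_left, abs_of_pos (by linarith)]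
        linarith)
  have := le_csSup hb (a := sSup ((fun τ : ℝ => y + τ • t) ⁻¹' A) + ε / 2)
    (interior_subset (s := A) h1)
  linarith

variable {V : Type} [NormedAddCommGroup V] [InnerProductSpace ℝ V] [FiniteDimensional ℝ V]
  [MeasurableSpace V] [BorelSpace V]

/-- coordinates along a family of vectors -/
noncomputable def co {s : ℕ} (e : Fin s → V) : V →ₗ[ℝ] (Fin s → ℝ) :=
  LinearMap.pi fun i => innerₗ V (e i)

omit [FiniteDimensional ℝ V] [MeasurableSpace V] [BorelSpace V] in
@[simp] lemma co_apply {s : ℕ} (e : Fin s → V) (z : V) (i) : co e z i = ⟪e i, z⟫ := rfl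

lemma upper {s : ℕ} {G : Set V} (hW : finrank ℝ (affineSpan ℝ G).direction = s) {e : Fin s → V}
    (he : Orthonormal ℝ e) (h : ∀ i, e i ∈ (affineSpan ℝ G).direction) {a : V} (ha : a ∈ G) :
    μH[s] G ≤ (s : ℝ≥0∞) ^ s * volume (co e '' G) := by
  let ι : (Fin s → ℝ) → V := fun y => a + ∑ i, (y i - ⟪e i, a⟫) • e i
  have h1 : LipschitzWith s ι := LipschitzWith.of_dist_le_mul fun y z => by
    rw [dist_eq_norm, dist_eq_norm, add_sub_add_left_eq_sub, ← Finset.sum_sub_distrib]
    refine (norm_sum_le _ _).trans ?_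
    refine (Finset.sum_le_sum (g := fun _ => ‖y - z‖) fun i _ => ?_).trans (by simp)
    rw [← sub_smul, norm_smul, he.1 i, mul_one, sub_sub_sub_cancel_right]
    exact norm_le_pi_norm (y - z) i
  have h2 := h1.hausdorffMeasure_image_le (d := s) (by positivity) (co e '' G)
  have h3 := hausdorffMeasure_pi_real (ι := Fin s)
  rw [Fintype.card_fin] at h3
  rw [h3, ENNReal.rpow_natCast, ENNReal.coe_natCast] at h2
  refine le_trans (measure_mono (?_ : G ⊆ ι '' (co e '' G))) h2
  refine fun z hz => ⟨_, ⟨z, hz, rfl⟩, ?_⟩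
  simp only [ι, co_apply, ← inner_sub_right]
  rw [expand hW he h (sub_mem_dir hz ha)]; abel

omit [FiniteDimensional ℝ V] [MeasurableSpace V] [BorelSpace V] in
lemma lower {s : ℕ} (hs : 1 ≤ s) {G : Set V} (hG : Convex ℝ G) (e : Fin s → V) {a : V}
    (ha : a ∈ G) (b : Fin s → V) (hb : ∀ j, a + b j ∈ G) (h : ∀ i j, j < i → ⟪e i, b j⟫ = 0) :
    ENNReal.ofReal (∏ i, |⟪e i, b i⟫|) ≤ (s : ℝ≥0∞) ^ s * volume (co e '' G) := by
  let M : Matrix (Fin s) (Fin s) ℝ := fun i j => ⟪e i, b j⟫
  have hs' : (0 : ℝ) < s := by exact_mod_cast hs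
  have hM : M.det = ∏ i, ⟪e i, b i⟫ := Matrix.det_of_isUpperTriangular fun i j hij => h i j hij
  have h1 := Measure.addHaar_image_linearMap volume (Matrix.toLin' M)
    (Set.Icc (0 : Fin s → ℝ) fun _ => (s : ℝ)⁻¹)
  rw [LinearMap.det_toLin', hM, Finset.abs_prod, Real.volume_Icc_pi] at h1
  have h2 : volume (Matrix.toLin' M '' Set.Icc (0 : Fin s → ℝ) fun _ => (s : ℝ)⁻¹) ≤
      volume (co e '' G) := by
    rw [← measure_preimage_add volume (co e a) (co e '' G)]
    refine measure_mono ?_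
    rintro _ ⟨y, ⟨hy0, hy1⟩, rfl⟩
    refine ⟨∑ j : Fin s, (s : ℝ)⁻¹ • (a + (s * y j) • b j), hG.sum_mem (fun _ _ => by positivity)
      (by simp; field_simp) fun j _ => ?_, ?_⟩
    · refine hG.add_smul_mem ha (hb j) ⟨mul_nonneg hs'.le (hy0 j), ?_⟩
      have := hy1 j
      rwa [inv_eq_one_div, le_div_iff₀ hs', mul_comm] at this
    · funext i
      simp only [co_apply, inner_sum, inner_smul_right, inner_add_right, Pi.add_apply,
        Matrix.toLin'_apply, Matrix.mulVec, dotProduct, M, mul_add, Finset.sum_add_distrib,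
        Finset.sum_const, Finset.card_univ, Fintype.card_fin, nsmul_eq_mul]
      congr 1
      · field_simp
      · exact Finset.sum_congr rfl fun j _ => by field_simp
  rw [h1] at h2
  refine le_trans (le_of_eq ?_) (mul_le_mul_right h2 _)
  simp only [Pi.zero_apply, sub_zero, Finset.prod_const, Finset.card_univ, Fintype.card_fin]
  rw [mul_left_comm, ← mul_pow, ENNReal.ofReal_inv_of_pos hs', ENNReal.ofReal_natCast,
    ENNReal.mul_inv_cancel (by simp; omega) (by simp), one_pow, mul_one]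

/-- The `j`-dimensional faces. -/
abbrev Face (P : Set V) (j : ℕ) : Type :=
  {F : Set V // IsExposed ℝ P F ∧ F.Nonempty ∧ finrank ℝ (affineSpan ℝ F).direction = j}

omit [MeasurableSpace V] [BorelSpace V] in
lemma null_image {r : ℕ} (ρ : V →ₗ[ℝ] (Fin r → ℝ)) {E : Set V}
    (h1 : finrank ℝ (affineSpan ℝ E).direction ≤ r) {v : V} (hv : v ≠ 0) (hρ : ρ v = 0)
    (h2 : finrank ℝ (affineSpan ℝ E).direction = r → v ∈ (affineSpan ℝ E).direction) :
    volume (ρ '' E) = 0 := by
  refine measure_mono_null (t := ((affineSpan ℝ E).map ρ.toAffineMap : Set _))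
    (Set.image_mono (subset_affineSpan ℝ E)) (Measure.addHaar_affineSubspace _ _ fun h => ?_)
  have h3 := congrArg AffineSubspace.direction h
  rw [AffineSubspace.map_direction, AffineSubspace.direction_top] at h3
  have h4 : Function.Surjective (ρ ∘ₗ (affineSpan ℝ E).direction.subtype) := by
    rw [← LinearMap.range_eq_top, LinearMap.range_comp, Submodule.range_subtype]; exact h3
  have h5 := LinearMap.finrank_le_finrank_of_surjective h4
  simp only [finrank_fintype_fun_eq_card, Fintype.card_fin] at h5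
  have h6 := (LinearMap.injective_iff_surjective_of_finrank_eq_finrank
    (by simp; omega)).2 h4 (a₁ := ⟨v, h2 (by omega)⟩) (a₂ := 0) (by simpa using hρ)
  exact hv (congrArg Subtype.val h6)

open Classical in
lemma proj_bound {r : ℕ} (S : Finset V) [Fintype (Face (convexHull ℝ (S : Set V)) r)]
    (G : Face (convexHull ℝ (S : Set V)) (r + 1))
    {e : Fin (r + 1) → V} (he : Orthonormal ℝ e) {a : V} (t : Fin (r + 1) → ℝ) (ht : t ≠ 0)
    (l : ℝ) (hl : ∀ i, t i ≠ 0 → ∀ z ∈ G.1, |⟪e i, z⟫ - ⟪e i, a⟫| ≤ l) :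
    volume (co e '' G.1) ≤ ENNReal.ofReal (2 * l) * (2 ^ r *
      ∑ F : Face (convexHull ℝ (S : Set V)) r,
        if F.1 ⊆ G.1 ∧ ∑ i, t i • e i ∉ (affineSpan ℝ F.1).direction then μH[r] F.1 else 0) := by
  obtain ⟨G, hG, hne, hdim⟩ := G
  dsimp only at hl ⊢
  have hGc : IsCompact G := hG.isCompact (S.finite_toSet.isCompact_convexHull ℝ)
  have hGv : Convex ℝ G := hG.convex (convex_convexHull ℝ _)
  have hA : IsCompact (co e '' G) := hGc.image (co e).continuous_of_finiteDimensional
  have hAv : Convex ℝ (co e '' G) := hGv.linear_image _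
  rcases (interior (co e '' G)).eq_empty_or_nonempty with hi | hi
  · have := hAv.addHaar_frontier volume
    rw [frontier, hi, hA.isClosed.closure_eq, Set.sdiff_empty] at this
    rw [this]; exact zero_le
  obtain ⟨i0, -, hi0⟩ := Finset.univ.exists_max_image (fun i => |t i|) Finset.univ_nonempty
  have ht0 : t i0 ≠ 0 := fun h => ht (funext fun i => by
    have := hi0 i (Finset.mem_univ _); rw [h, abs_zero] at this; exact abs_nonpos_iff.1 this)
  let u : Fin r → ℝ := fun k => t (i0.succAbove k) / t i0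
  let ρ : V →ₗ[ℝ] (Fin r → ℝ) := co fun k => e (i0.succAbove k) - u k • e i0
  have hρ : ∀ z, ρ z = fun k => co e z (i0.succAbove k) - co e z i0 * u k := fun z => by
    funext k; simp only [ρ, co_apply, inner_sub_left, inner_smul_left, conj_trivial]; ring
  set v := ∑ i, t i • e i with hv
  have hcv : co e v = t := funext fun i => by rw [co_apply, hv, he.inner_right_fintype]
  have hv0 : v ≠ 0 := fun h => ht (by rw [← hcv, h, map_zero])
  have hρv : ρ v = 0 := by rw [hρ, hcv]; funext k; simp only [u, Pi.zero_apply]; field_simp; ring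
  refine (shear i0 u (B := ρ '' G) (hGc.image ρ.continuous_of_finiteDimensional).measurableSet
    ⟪e i0, a⟫ l ?_).trans (mul_le_mul_right ?_ _)
  · rintro _ ⟨z, hz, rfl⟩
    exact ⟨hl i0 ht0 z hz, z, hz, hρ z⟩
  have hlip : LipschitzWith 2 ρ := LipschitzWith.of_dist_le_mul fun y z => by
    rw [dist_eq_norm, dist_eq_norm, ← map_sub]
    refine (pi_norm_le_iff_of_nonneg (by positivity)).2 fun k => ?_
    refine (abs_real_inner_le_norm _ _).trans (mul_le_mul_of_nonneg_right ?_ (norm_nonneg _))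
    refine (norm_sub_le _ _).trans ?_
    rw [norm_smul, he.1, he.1, Real.norm_eq_abs, abs_div, mul_one]
    have := (div_le_one (abs_pos.2 ht0)).2 (hi0 (i0.succAbove k) (Finset.mem_univ _))
    norm_num; linarith
  let good : Face (convexHull ℝ (S : Set V)) r → Prop := fun F =>
    F.1 ⊆ G ∧ v ∉ (affineSpan ℝ F.1).direction
  let bad : Set (Set V) := {E | IsExposed ℝ (convexHull ℝ (S : Set V)) E ∧ volume (ρ '' E) = 0}
  have hcov : ρ '' G ⊆ (⋃ F, if good F then ρ '' F.1 else ∅) ∪ ⋃ E ∈ bad, ρ '' E := by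
    rintro _ ⟨z, hz, rfl⟩
    obtain ⟨τ, ⟨y, hy, hy1⟩, hy2⟩ := exit hA ⟨z, hz, rfl⟩ ht
    have hyz : ρ y = ρ z := by
      rw [hρ, hρ, hy1]; funext k
      simp only [u, Pi.add_apply, Pi.smul_apply, smul_eq_mul]; field_simp; ring
    obtain ⟨f, hf⟩ := geometric_hahn_banach_open_point hAv.interior isOpen_interior hy2
    rw [← hy1] at hf
    have hf2 : ∀ x ∈ G, f (co e x) ≤ f (co e y) := fun x hx => by
      have h1 : co e x ∈ closure (interior (co e '' G)) := by
        rw [hAv.closure_interior_eq_closure_of_nonempty_interior hi]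
        exact subset_closure ⟨x, hx, rfl⟩
      exact closure_minimal (t := {w | f w ≤ f (co e y)}) (fun w hw => (hf w hw).le)
        (isClosed_le f.continuous continuous_const) h1
    let ψ : V →L[ℝ] ℝ := f.comp (LinearMap.toContinuousLinearMap (co e))
    have hE := exposed_trans S hG ψ
    set E := {x ∈ G | ∀ y ∈ G, ψ y ≤ ψ x}
    have hyE : y ∈ E := ⟨hy, hf2⟩
    have hEG : E ⊆ G := fun _ h => h.1
    have hdE : finrank ℝ (affineSpan ℝ E).direction ≤ r := by
      obtain ⟨w, hw⟩ := hi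
      obtain ⟨x, hx, rfl⟩ := interior_subset hw
      have h1 : (affineSpan ℝ E).direction < (affineSpan ℝ G).direction :=
        lt_of_le_of_ne (AffineSubspace.direction_le (affineSpan_mono ℝ hEG)) fun h => by
          have h2 := dir_le_ker (E := E) ψ.toLinearMap
            (fun a ha b hb => le_antisymm (hb.2 a ha.1) (ha.2 b hb.1)) (h ▸ sub_mem_dir hx hy)
          rw [LinearMap.mem_ker, map_sub, sub_eq_zero] at h2
          exact (hf _ hw).ne h2
      have := Submodule.finrank_lt_finrank_of_lt h1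
      omega
    by_cases hc : finrank ℝ (affineSpan ℝ E).direction = r ∧ v ∉ (affineSpan ℝ E).direction
    · refine Or.inl (Set.mem_iUnion.2 ⟨⟨E, hE, ⟨y, hyE⟩, hc.1⟩, ?_⟩)
      rw [if_pos ⟨hEG, hc.2⟩]; exact ⟨y, hyE, hyz⟩
    · push Not at hc
      exact Or.inr (Set.mem_biUnion (x := E) ⟨hE, null_image ρ hdE hv0 hρv hc⟩
        ⟨y, hyE, hyz⟩)
  refine (measure_mono hcov).trans ((measure_union_le _ _).trans ?_)
  rw [(measure_biUnion_null_iff ((faces_finite S).subset fun E hE => hE.1).countable).2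
    fun E hE => hE.2, add_zero, Finset.mul_sum]
  refine (measure_iUnion_fintype_le _ _).trans (Finset.sum_le_sum fun F _ => ?_)
  by_cases h : good F
  · rw [if_pos h, if_pos h]
    have h2 := hlip.hausdorffMeasure_image_le (d := r) (by positivity) F.1
    have h3 := hausdorffMeasure_pi_real (ι := Fin r)
    rw [Fintype.card_fin] at h3
    rw [h3, ENNReal.rpow_natCast] at h2
    exact h2
  · rw [if_neg h]; simp

end Pool.Agent.H8.Joints
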