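import Mathlib
import Pool.Agent.H8.Joints4

/-! The inequality between consecutive contents of a polytope. -/

namespace Pool.Agent.H8.Joints
open Module MeasureTheory
open scoped RealInnerProductSpace ENNReal NNReal

variable {V : Type} [NormedAddCommGroup V] [InnerProductSpace ℝ V] [FiniteDimensional ℝ V]
  [MeasurableSpace V] [BorelSpace V]

open Classical in
lemma face_ineq {r : ℕ} (hr : 1 ≤ r) (S : Finset V)
    [Fintype (Face (convexHull ℝ (S : Set V)) r)]
    (hfin : ∀ F : Face (convexHull ℝ (S : Set V)) r, μH[r] F.1 ≠ ∞)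
    {Y : Type} [AddCommGroup Y] [Module ℝ Y] (ν : Face (convexHull ℝ (S : Set V)) r → Dual ℝ Y)
    (π : V →ₗ[ℝ] Y) (G : Face (convexHull ℝ (S : Set V)) (r + 1))
    (hν : ∀ F z, F.1 ⊆ G.1 → z ∈ (affineSpan ℝ G.1).direction → ν F (π z) = 0 →
      z ∈ (affineSpan ℝ F.1).direction) :
    ∃ c : ℝ, 0 ≤ c ∧ μH[(r + 1 : ℕ)] G.1 ≤
        ENNReal.ofReal ((r + 1) ^ (r + 1) * (2 ^ (r + 1) * (r + 1)) ^ (r + 1) * c) ∧
      c ^ r ≤ N (r + 1) ν (fun (G : Face (convexHull ℝ (S : Set V)) (r + 1)) F => F.1 ⊆ G.1)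
        (fun F => (μH[r] F.1).toReal) G := by
  have hGc : IsCompact G.1 := G.2.1.isCompact (S.finite_toSet.isCompact_convexHull ℝ)
  have hGv : Convex ℝ G.1 := G.2.1.convex (convex_convexHull ℝ _)
  obtain ⟨a, ha⟩ := G.2.2.1
  obtain ⟨e, b, he, heW, hb, htri, hbd⟩ := frame (r + 1) _ ((fun z => z - a) '' G.1) G.2.2.2
    (hGc.image (by fun_prop)) ⟨_, a, ha, rfl⟩ (by
      rintro _ ⟨z, hz, rfl⟩; exact sub_mem_dir hz ha)
  have hvol : volume (co e '' G.1) ≠ ∞ :=
    (hGc.image (co e).continuous_of_finiteDimensional).measure_lt_top.ne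
  set Vg := (volume (co e '' G.1)).toReal with hVg
  have hV0 : 0 ≤ Vg := ENNReal.toReal_nonneg
  set A : ℝ := (2 ^ (r + 1) * (r + 1)) ^ (r + 1) with hA
  have hA1 : 1 ≤ A := one_le_pow₀ (one_le_mul_of_one_le_of_one_le (one_le_pow₀ (by norm_num))
    (by linarith [(Nat.cast_nonneg r : (0 : ℝ) ≤ r)]))
  refine ⟨Vg / A, by positivity, (upper G.2.2.2 he heW ha).trans (le_of_eq ?_), ?_⟩
  · rw [mul_assoc, mul_div_cancel₀ _ (by positivity), ENNReal.ofReal_mul (by positivity),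
      ENNReal.ofReal_toReal hvol, ENNReal.ofReal_pow (by positivity)]
    congr 2
    rw [← ENNReal.ofReal_natCast]; push_cast; rfl
  let l : Fin (r + 1) → ℝ := fun i => |⟪e i, b i⟫|
  have hlow : ∏ i, l i ≤ (r + 1) ^ (r + 1) * Vg := by
    have := lower (by omega) hGv e ha b (fun j => by
      obtain ⟨z, hz, h⟩ := hb j
      rw [← h]; simpa using hz) htri
    have h2 := ENNReal.toReal_mono (ENNReal.mul_ne_top (by simp) hvol) this
    rw [ENNReal.toReal_ofReal (Finset.prod_nonneg fun _ _ => abs_nonneg _)] at h2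
    simpa [ENNReal.toReal_add] using h2
  have key : ∀ j : Fin (r + 1), ∀ T : Fin j → Face (convexHull ℝ (S : Set V)) r,
      Vg ≤ 2 ^ (r + 1) * l j.rev * ∑ F, if F.1 ⊆ G.1 ∧
        ν F ∉ Submodule.span ℝ (Set.range (ν ∘ T)) then (μH[r] F.1).toReal else 0 := by
    intro j T
    have hj := j.2
    let E : (Fin (r + 1) → ℝ) →ₗ[ℝ] V := Fintype.linearCombination ℝ e
    let φ : Fin (r - j) ⊕ Fin j → (Fin (r + 1) → ℝ) →ₗ[ℝ] ℝ :=
      Sum.elim (fun i => LinearMap.proj ⟨i, by omega⟩) fun i => ν (T i) ∘ₗ π ∘ₗ E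
    obtain ⟨t, ht, ht0⟩ := Submodule.exists_mem_ne_zero_of_ne_bot
      ((LinearMap.pi φ).ker_ne_bot_of_finrank_lt (by simp; omega))
    have ht1 : ∀ i, φ i t = 0 := fun i => congrFun (LinearMap.mem_ker.1 ht) i
    have hE : E t = ∑ i, t i • e i := Fintype.linearCombination_apply _ _ _
    have h1 := proj_bound S G he (a := a) t ht0 (l j.rev) (fun i hi z hz => by
      rw [← inner_sub_right]
      refine hbd _ ⟨z, hz, rfl⟩ _ _ ?_
      by_contra hc
      have h2 : (i : ℕ) < r - j := by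
        rw [not_le, Fin.lt_def, Fin.val_rev] at hc; omega
      exact hi (ht1 (.inl ⟨i, h2⟩)))
    have h2 := ENNReal.toReal_mono (ENNReal.mul_ne_top ENNReal.ofReal_ne_top (ENNReal.mul_ne_top (by simp)
      (ENNReal.sum_ne_top.2 fun F _ => by split_ifs <;> simp [hfin]))) h1
    rw [ENNReal.toReal_mul, ENNReal.toReal_mul, ENNReal.toReal_ofReal (by positivity),
      ENNReal.toReal_sum (fun F _ => by split_ifs <;> simp [hfin])] at h2
    refine h2.trans ?_
    rw [← mul_assoc]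
    refine mul_le_mul (le_of_eq (by simp; ring)) (Finset.sum_le_sum fun F _ => ?_)
      (Finset.sum_nonneg fun _ _ => ENNReal.toReal_nonneg) (by positivity)
    split_ifs with h3 h4
    · rfl
    · exfalso
      refine h4 ⟨h3.1, fun h5 => h3.2 (hν F _ h3.1 (Submodule.sum_mem _ fun i _ =>
        Submodule.smul_mem _ _ (heW i)) ?_)⟩
      obtain ⟨c, hc⟩ := (Submodule.mem_span_range_iff_exists_fun ℝ).1 h5
      rw [← hc, ← hE, LinearMap.sum_apply]
      refine Finset.sum_eq_zero fun i _ => ?_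
      have := ht1 (.inr i)
      simp only [φ, Sum.elim_inr, LinearMap.comp_apply] at this
      simp [this]
    · simp
    · simp
  rcases hV0.eq_or_lt with h0 | h0
  · rw [← h0, zero_div, zero_pow (by omega)]
    refine Finset.sum_nonneg fun T _ => ?_
    split_ifs
    · exact Finset.prod_nonneg fun _ _ => ENNReal.toReal_nonneg
    · rfl
  have hl0 : ∀ i, 0 ≤ l i := fun i => abs_nonneg _
  let L : ℕ → ℝ := fun j => if h : j < r + 1 then Vg / (2 ^ (r + 1) * l (Fin.rev ⟨j, h⟩)) else 0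
  have hpos : ∀ j : Fin (r + 1), (∃ T : Fin j → Face (convexHull ℝ (S : Set V)) r, True) →
      0 < l j.rev := fun j ⟨T, _⟩ => (hl0 _).lt_of_ne fun h => by
    have := key j T
    rw [← h] at this; linarith
  have hne : Nonempty (Face (convexHull ℝ (S : Set V)) r) := by
    by_contra hc
    rw [not_nonempty_iff] at hc
    have := key 0 Fin.elim0
    simp at this; linarith
  have hp : ∀ j : Fin (r + 1), 0 < l j.rev := fun j => hpos j ⟨fun _ => hne.some, trivial⟩
  refine le_trans ?_ (adaptive ν _ _ (fun _ => ENNReal.toReal_nonneg) G L (fun j => by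
    simp only [L]; split_ifs
    · have := hl0; positivity
    · rfl) (r + 1) fun j hj T => by
      simp only [L, dif_pos hj]
      have := hp ⟨j, hj⟩
      rw [div_le_iff₀' (by positivity)]
      exact key ⟨j, hj⟩ T)
  rw [Finset.prod_range]
  simp only [L, Fin.is_lt, dif_pos, Fin.eta, Finset.prod_div_distrib, Finset.prod_mul_distrib,
    Finset.prod_const, Finset.card_univ, Fintype.card_fin]
  have e1 : ∏ j : Fin (r + 1), l j.rev = ∏ j, l j := Equiv.prod_comp Fin.revPerm l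
  have e2 : 0 < ∏ j, l j := e1 ▸ Finset.prod_pos fun j _ => hp j
  rw [e1, div_pow, div_le_div_iff₀ (by positivity) (by positivity)]
  have e3 : A ≤ A ^ r := le_self_pow₀ hA1 (by omega)
  calc Vg ^ r * ((2 ^ (r + 1)) ^ (r + 1) * ∏ j, l j)
      ≤ Vg ^ r * ((2 ^ (r + 1)) ^ (r + 1) * ((r + 1) ^ (r + 1) * Vg)) := by gcongr
    _ = Vg ^ (r + 1) * A := by rw [hA, mul_pow]; ring
    _ ≤ _ := by gcongr

/-- the `j`-content of `P` -/
noncomputable def Z (P : Set V) (j : ℕ) : ℝ≥0∞ := ∑' F : Face P j, μH[j] F.1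

lemma step {r : ℕ} (hr : 1 ≤ r) : ∃ C : ℝ≥0, ∀ S : Finset V,
    Z (convexHull ℝ (S : Set V)) (r + 1) ^ r ≤ (C + 1) * Z (convexHull ℝ (S : Set V)) r ^ (r + 1) := by
  classical
  set K : ℝ := (r + 1) ^ (r + 1) * (2 ^ (r + 1) * (r + 1)) ^ (r + 1) with hK
  refine ⟨Real.toNNReal (K ^ r * (2 * (r + 3) ^ (r + 1))), fun S => ?_⟩
  have hF : ∀ j, Finite (Face (convexHull ℝ (S : Set V)) j) := fun j =>
    ((faces_finite S).subset fun F hF => hF.1 : Set.Finite {F : Set V |
      IsExposed ℝ (convexHull ℝ (S : Set V)) F ∧ F.Nonempty ∧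
        finrank ℝ (affineSpan ℝ F).direction = j})
  haveI := fun j => @Fintype.ofFinite _ (hF j)
  by_cases hfin : ∀ F : Face (convexHull ℝ (S : Set V)) r, μH[r] F.1 ≠ ∞
  swap
  · push Not at hfin
    obtain ⟨F, hF⟩ := hfin
    have : Z (convexHull ℝ (S : Set V)) r = ∞ := top_le_iff.1 (hF ▸ ENNReal.le_tsum F)
    rw [this, ENNReal.top_pow (by omega), ENNReal.mul_top (by simp)]
    exact le_top
  obtain ⟨x, ν, π, h1, h2, h3⟩ := dualize
    (fun G : Face (convexHull ℝ (S : Set V)) (r + 1) => (affineSpan ℝ G.1).direction)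
    (fun F : Face (convexHull ℝ (S : Set V)) r => (affineSpan ℝ F.1).direction)
    (fun G => G.2.2.2) (fun F => F.2.2.2)
  have hd : ∀ {A B : Set V}, A ⊆ B → (affineSpan ℝ A).direction ≤ (affineSpan ℝ B).direction :=
    fun h => AffineSubspace.direction_le (affineSpan_mono ℝ h)
  choose c hc0 hc1 hc2 using fun G => face_ineq hr S hfin ν π G
    fun F z hFG => h3 F G z (hd hFG)
  have := joints hr (by simp) x ν (fun G F => F.1 ⊆ G.1) (fun F G G' hG hG' h => by
      obtain ⟨z, hz⟩ := F.2.2.1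
      exact Subtype.ext (Set.Subset.antisymm
        (face_sub G.2.1 G'.2.1 (hG hz) (hG' hz) (h1 _ _ h))
        (face_sub G'.2.1 G.2.1 (hG' hz) (hG hz) (h1 _ _ h).symm)))
    (fun F G G' hG hG' => h2 F G G' (hd hG) (hd hG')) _ (fun _ => ENNReal.toReal_nonneg) c hc0 hc2
  have hK0 : 0 ≤ K := by positivity
  have hs0 : 0 ≤ ∑ G, c G := Finset.sum_nonneg fun G _ => hc0 G
  have e1 : Z (convexHull ℝ (S : Set V)) (r + 1) ≤ ENNReal.ofReal (K * ∑ G, c G) := by
    rw [Z, tsum_fintype, Finset.mul_sum,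
      ENNReal.ofReal_sum_of_nonneg fun G _ => mul_nonneg hK0 (hc0 G)]
    exact Finset.sum_le_sum fun G _ => hc1 G
  have e2 : Z (convexHull ℝ (S : Set V)) r =
      ENNReal.ofReal (∑ F : Face (convexHull ℝ (S : Set V)) r, (μH[r] F.1).toReal) := by
    rw [Z, tsum_fintype, ENNReal.ofReal_sum_of_nonneg fun G _ => ENNReal.toReal_nonneg]
    exact Finset.sum_congr rfl fun F _ => (ENNReal.ofReal_toReal (hfin F)).symm
  have hs1 : 0 ≤ ∑ F : Face (convexHull ℝ (S : Set V)) r, (μH[r] F.1).toReal :=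
    Finset.sum_nonneg fun _ _ => ENNReal.toReal_nonneg
  refine (pow_le_pow_left' e1 r).trans (le_trans ?_ (mul_le_mul_left le_self_add _))
  rw [e2, ← ENNReal.ofReal_pow (by positivity), ← ENNReal.ofReal_pow hs1]
  change _ ≤ ENNReal.ofReal _ * _
  rw [← ENNReal.ofReal_mul (by positivity), mul_pow, mul_assoc]
  exact ENNReal.ofReal_le_ofReal (mul_le_mul_of_nonneg_left this (by positivity))

lemma chain {k : ℕ} (hk : 1 ≤ k) (s : ℕ) (hs : k ≤ s) : ∃ γ : ℝ≥0, γ ≠ 0 ∧ ∀ S : Finset V,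
    Z (convexHull ℝ (S : Set V)) s ^ ((1 : ℝ) / s) ≤
      γ * Z (convexHull ℝ (S : Set V)) k ^ ((1 : ℝ) / k) := by
  induction s, hs using Nat.le_induction with
  | base => exact ⟨1, one_ne_zero, fun S => by simp⟩
  | succ r hr ih =>
    obtain ⟨γ, hγ, h⟩ := ih
    obtain ⟨C, hC⟩ := step (V := V) (hk.trans hr)
    have hr0 : (0 : ℝ) < r := by exact_mod_cast (by omega : 0 < r)
    have hp : (0 : ℝ) ≤ 1 / (r * (r + 1)) := by positivity
    refine ⟨(C + 1) ^ ((1 : ℝ) / (r * (r + 1))) * γ, mul_ne_zero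
      (NNReal.rpow_pos (by positivity)).ne' hγ, fun S => ?_⟩
    have h1 := ENNReal.rpow_le_rpow (hC S) hp
    rw [ENNReal.mul_rpow_of_nonneg _ _ hp, ← ENNReal.rpow_natCast, ← ENNReal.rpow_natCast,
      ← ENNReal.rpow_mul, ← ENNReal.rpow_mul] at h1
    have e1 : (r : ℝ) * (1 / (r * (r + 1))) = 1 / ((r + 1 : ℕ) : ℝ) := by push_cast; field_simp
    have e2 : ((r + 1 : ℕ) : ℝ) * (1 / (r * (r + 1))) = 1 / (r : ℝ) := by push_cast; field_simp
    rw [e1, e2] at h1
    refine h1.trans ?_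
    rw [ENNReal.coe_mul, ENNReal.coe_rpow_of_nonneg _ hp, mul_assoc]
    exact mul_le_mul_right (h S) _

end Pool.Agent.H8.Joints
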