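import Mathlib

/-! The kernel `exp (-dist)` on `R^5` as a mixture of lens volumes. -/

namespace Pool.Agent.H8.Mag
open MeasureTheory Set Filter Topology Metric Real

abbrev E4 := EuclideanSpace ℝ (Fin 4)
abbrev V := WithLp 2 (ℝ × E4)

noncomputable def om : ℝ := (volume : Measure E4).real (ball 0 1)

lemma om_pos : 0 < om :=
  ENNReal.toReal_pos (measure_ball_pos _ _ one_pos).ne' measure_ball_lt_top.ne

lemma vol_cb (c : E4) {r : ℝ} (hr : 0 ≤ r) : (volume : Measure E4).real (closedBall c r) = r ^ 4 * om := by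
  rw [Measure.addHaar_real_closedBall _ _ hr]; simp [om]

lemma gam (n : ℕ) : IntegrableOn (fun x : ℝ => exp (-x) * x ^ n) (Ioi 0) ∧
    ∫ x in Ioi (0 : ℝ), exp (-x) * x ^ n = n.factorial := by
  have h1 := Real.GammaIntegral_convergent (s := n + 1) (by positivity)
  have h2 := Real.Gamma_eq_integral (s := n + 1) (by positivity)
  rw [Real.Gamma_nat_eq_factorial] at h2
  simp only [add_sub_cancel_right, Real.rpow_natCast] at h1 h2
  exact ⟨h1, h2.symm⟩

lemma intp (p : Polynomial ℝ) : IntegrableOn (fun x : ℝ => exp (-x) * p.eval x) (Ioi 0) := by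
  induction p using Polynomial.induction_on' with
  | add p q hp hq =>
    exact IntegrableOn.congr_fun (hp.add hq) (fun x _ => by simp [mul_add]) measurableSet_Ioi
  | monomial n a =>
    have := (gam n).1.const_mul a
    simp only [Polynomial.eval_monomial]
    exact IntegrableOn.congr_fun this (fun x _ => by ring) measurableSet_Ioi

lemma gam3 (n : ℕ) : IntegrableOn (fun x : ℝ => exp (-x) * (x ^ 2 + 3 * x + 3) * x ^ n) (Ioi 0) ∧
    ∫ x in Ioi (0 : ℝ), exp (-x) * (x ^ 2 + 3 * x + 3) * x ^ n =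
      ((n + 2).factorial : ℝ) + 3 * (n + 1).factorial + 3 * n.factorial := by
  have e : (fun x : ℝ => exp (-x) * (x ^ 2 + 3 * x + 3) * x ^ n) = fun x =>
      exp (-x) * x ^ (n + 2) + 3 * (exp (-x) * x ^ (n + 1)) + 3 * (exp (-x) * x ^ n) := by
    funext x; ring
  have h2 := (gam (n + 2)).1
  have h1 := (gam (n + 1)).1.const_mul 3
  have h0 := (gam n).1.const_mul 3
  rw [e]
  refine ⟨(h2.add h1).add h0, ?_⟩
  rw [integral_add (f := fun x => exp (-x) * x ^ (n + 2) + 3 * (exp (-x) * x ^ (n + 1)))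
    (h2.add h1) h0, integral_add h2 h1, integral_const_mul, integral_const_mul,
    (gam _).2, (gam _).2, (gam _).2]

lemma slice (h ψ : ℝ → ℝ) (hh : Continuous h) (hψ : Continuous ψ) (c : E4)
    (hb : Bornology.IsBounded {z : V | ‖z.snd - c‖ ^ 2 ≤ h z.fst}) :
    ∫ z : V, {z : V | ‖z.snd - c‖ ^ 2 ≤ h z.fst}.indicator (fun z => ψ z.fst) z =
      om * ∫ u, ψ u * (max (h u) 0) ^ 2 := by
  have hc : IsClosed {z : V | ‖z.snd - c‖ ^ 2 ≤ h z.fst} := isClosed_le (by fun_prop) (by fun_prop)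
  have hi : Integrable ({z : V | ‖z.snd - c‖ ^ 2 ≤ h z.fst}.indicator fun z => ψ z.fst) :=
    (integrable_indicator_iff hc.measurableSet).2
      (ContinuousOn.integrableOn_compact (isCompact_of_isClosed_isBounded hc hb) (by fun_prop))
  have hm := WithLp.volume_preserving_toLp ℝ E4
  rw [← hm.integral_comp (MeasurableEquiv.toLp 2 (ℝ × E4)).measurableEmbedding,
    Measure.volume_eq_prod, integral_prod _ (by
      have := hm.integrable_comp_of_integrable hi
      rwa [Measure.volume_eq_prod] at this), ← integral_const_mul]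
  refine integral_congr_ae (Eventually.of_forall fun u => ?_)
  dsimp only
  rcases lt_or_ge (h u) 0 with h0 | h0
  · rw [max_eq_right h0.le, integral_eq_zero_of_ae (Eventually.of_forall fun y => ?_)]
    · simp
    · exact indicator_of_notMem (fun hy => by
        have : ‖y - c‖ ^ 2 ≤ h u := hy
        nlinarith [sq_nonneg ‖y - c‖]) _
  · have : ∀ y : E4, {z : V | ‖z.snd - c‖ ^ 2 ≤ h z.fst}.indicator (fun z => ψ z.fst)
        (WithLp.toLp 2 (u, y)) = (closedBall c (√(h u))).indicator (fun _ => ψ u) y := fun y => by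
      have e : WithLp.toLp 2 (u, y) ∈ {z : V | ‖z.snd - c‖ ^ 2 ≤ h z.fst} ↔
          y ∈ closedBall c (√(h u)) := by
        rw [mem_closedBall, dist_eq_norm, Real.le_sqrt (norm_nonneg _) h0]; rfl
      by_cases hy : y ∈ closedBall c (√(h u))
      · rw [indicator_of_mem hy, indicator_of_mem (e.2 hy)]; rfl
      · rw [indicator_of_notMem hy, indicator_of_notMem (fun h' => hy (e.1 h'))]
    simp only [this]
    rw [integral_indicator_const _ measurableSet_closedBall, vol_cb _ (sqrt_nonneg _),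
      max_eq_left h0, show (4 : ℕ) = 2 * 2 from rfl, pow_mul, sq_sqrt h0, smul_eq_mul]
    ring

lemma mem_cb (x z : V) {s : ℝ} (hs : 0 ≤ s) :
    z ∈ closedBall x s ↔ ‖z.snd - x.snd‖ ^ 2 ≤ s ^ 2 - (z.fst - x.fst) ^ 2 := by
  rw [mem_closedBall, dist_eq_norm, ← pow_le_pow_iff_left₀ (norm_nonneg _) hs two_ne_zero,
    WithLp.prod_norm_sq_eq_of_L2, WithLp.sub_fst, WithLp.sub_snd, Real.norm_eq_abs, sq_abs]
  constructor <;> intro h <;> linarith

/-- integral of an even function vanishing beyond `a` -/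
lemma int_even (f g : ℝ → ℝ) {a : ℝ} (ha : 0 ≤ a) (h1 : ∀ x ∈ Icc 0 a, f x = g x)
    (h2 : ∀ x, a < x → f x = 0) : ∫ u, f |u| = 2 * ∫ x in (0 : ℝ)..a, g x := by
  rw [integral_comp_abs, setIntegral_eq_of_subset_of_forall_sdiff_eq_zero (s := Ioc 0 a)
    measurableSet_Ioi Ioc_subset_Ioi_self fun x hx => h2 x (by
      by_contra hc; exact hx.2 ⟨hx.1, not_lt.1 hc⟩), intervalIntegral.integral_of_le ha,
    setIntegral_congr_fun measurableSet_Ioc fun x hx => h1 x (Ioc_subset_Icc_self hx)]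

/-- the lens volume -/
noncomputable def lens (r s : ℝ) : ℝ :=
  if r ≤ 2 * s then 2 * om * (8 * s ^ 5 / 15 - s ^ 4 * (r / 2) + 2 / 3 * s ^ 2 * (r / 2) ^ 3
    - (r / 2) ^ 5 / 5) else 0

lemma lens_axis {r s : ℝ} (hr : 0 ≤ r) (hs : 0 ≤ s) :
    (volume : Measure V).real (closedBall (WithLp.toLp 2 (-(r / 2), 0)) s ∩
      closedBall (WithLp.toLp 2 (r / 2, 0)) s) = lens r s := by
  have e : closedBall (WithLp.toLp 2 (-(r / 2), 0) : V) s ∩
      closedBall (WithLp.toLp 2 (r / 2, 0)) s =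
      {z : V | ‖z.snd - 0‖ ^ 2 ≤ (fun u => s ^ 2 - (|u| + r / 2) ^ 2) z.fst} := by
    ext z
    simp only [mem_inter_iff, mem_cb _ _ hs, mem_ofPred_eq, WithLp.toLp_fst, WithLp.toLp_snd]
    rcases abs_cases z.fst with ⟨h1, h2⟩ | ⟨h1, h2⟩ <;> rw [h1] <;> constructor
    · intro h; nlinarith [h.1]
    · intro h; constructor <;> nlinarith
    · intro h; nlinarith [h.2]
    · intro h; constructor <;> nlinarith
  have := slice (fun u => s ^ 2 - (|u| + r / 2) ^ 2) (fun _ => 1) (by fun_prop) continuous_const 0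
    (e ▸ isBounded_closedBall.subset inter_subset_left)
  rw [← e, integral_indicator_const _ (measurableSet_closedBall.inter measurableSet_closedBall),
    smul_eq_mul, mul_one] at this
  rw [this, lens]
  split_ifs with h
  · rw [int_even (fun x => 1 * max (s ^ 2 - (x + r / 2) ^ 2) 0 ^ 2)
      (fun x => (s ^ 2 - (x + r / 2) ^ 2) ^ 2) (a := s - r / 2) (by linarith)
      (fun x hx => by rw [max_eq_left (by nlinarith [hx.1, hx.2]), one_mul])
      (fun x hx => by rw [max_eq_right (by nlinarith)]; simp),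
      intervalIntegral.integral_eq_sub_of_hasDerivAt (f := fun x => s ^ 4 * (x + r / 2) -
        2 / 3 * s ^ 2 * (x + r / 2) ^ 3 + (x + r / 2) ^ 5 / 5) (fun x _ => by
        have h0 := (hasDerivAt_id x).add_const (r / 2)
        exact (((h0.const_mul (s ^ 4)).sub ((h0.pow 3).const_mul (2 / 3 * s ^ 2))).add
          ((h0.pow 5).div_const 5)).congr_deriv (by simp; ring)) (Continuous.intervalIntegrable (by fun_prop) _ _)]
    ring
  · rw [integral_eq_zero_of_ae (Eventually.of_forall fun u => ?_), mul_zero]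
    have := abs_nonneg u
    simp only [Pi.zero_apply]
    rw [max_eq_right (by nlinarith)]; simp

lemma lens_eq (x y : V) {s : ℝ} (hs : 0 ≤ s) :
    (volume : Measure V).real (closedBall x s ∩ closedBall y s) = lens (dist x y) s := by
  set r := dist x y with hr
  have hr0 : 0 ≤ r := dist_nonneg
  let R := Submodule.reflection (ℝ ∙ ((y - x) - (WithLp.toLp 2 (r, 0) : V)))ᗮ
  have hR : R (y - x) = WithLp.toLp 2 (r, 0) := Submodule.reflection_sub (by
    rw [WithLp.prod_norm_eq_of_L2 (WithLp.toLp 2 (r, 0) : V), ← dist_eq_norm, dist_comm]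
    simp [← hr, sqrt_sq hr0])
  let a : V := WithLp.toLp 2 (-(r / 2), 0)
  let f : V → V := fun z => R (z - x) + a
  have hf : MeasurePreserving f :=
    (measurePreserving_add_right volume a).comp
      (R.measurePreserving.comp (measurePreserving_sub_right volume x))
  have hd : ∀ z w, dist (f z) (f w) = dist z w := fun z w => by
    simp only [f, dist_add_right, R.dist_map, dist_sub_right]
  have h1 : f x = a := by simp [f]
  have h2 : f y = WithLp.toLp 2 (r / 2, 0) := by
    simp only [f, hR, a, ← WithLp.toLp_add, Prod.mk_add_mk, add_zero]; congr 2; ring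
  rw [← lens_axis hr0 hs]
  refine Eq.trans ?_ (hf.measureReal_preimage
    (measurableSet_closedBall.inter measurableSet_closedBall).nullMeasurableSet)
  congr 1; ext z
  simp only [mem_inter_iff, mem_preimage, mem_closedBall]
  rw [← h2, show (WithLp.toLp 2 (-(r / 2), 0) : V) = f x from h1.symm, hd, hd]

noncomputable def rho (σ : ℝ) : ℝ := 2 * exp (-σ) * (σ ^ 2 + 3 * σ + 3) / (om * σ ^ 4)

lemma rho_pos {σ : ℝ} (h : 0 < σ) : 0 < rho σ := by
  have := om_pos; unfold rho; positivity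

lemma tend_poly (p q : ℝ) : Tendsto (fun x : ℝ => (x ^ 2 + p * x + q) * exp (-x)) atTop (𝓝 0) := by
  have := ((tendsto_pow_mul_exp_neg_atTop_nhds_zero 2).add
    ((tendsto_pow_mul_exp_neg_atTop_nhds_zero 1).const_mul p)).add
    ((tendsto_pow_mul_exp_neg_atTop_nhds_zero 0).const_mul q)
  simp only [mul_zero, add_zero] at this
  exact this.congr fun x => by ring

lemma hat {r : ℝ} (hr : 0 ≤ r) : IntegrableOn (fun σ => rho σ * lens r (σ / 2)) (Ioi 0) ∧
    ∫ σ in Ioi 0, rho σ * lens r (σ / 2) = exp (-r) := by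
  let G : ℝ → ℝ := fun σ => -(exp (-σ) / 8 * (8 / 15 * (σ ^ 3 + 6 * σ ^ 2 + 15 * σ + 15)
    - r * (σ ^ 2 + 5 * σ + 8) + 2 * r ^ 3 / 3 * (1 + 3 * σ⁻¹) - r ^ 5 / 5 * (σ⁻¹ ^ 2 + σ⁻¹ ^ 3)))
  have hom := om_pos
  have hd : ∀ σ ∈ Ioi r, HasDerivAt G (rho σ * lens r (σ / 2)) σ := fun σ hσ => by
    have h0 : 0 < σ := hr.trans_lt hσ
    have h1 := hasDerivAt_id' σ
    have h2 := hasDerivAt_inv h0.ne'
    refine HasDerivAt.congr_deriv (f' := _) (((h1.neg.exp.div_const 8).mul ((((((((h1.pow 3).add ((h1.pow 2).const_mul 6)).add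
      (h1.const_mul 15)).add_const 15).const_mul (8 / 15)).sub
      ((((h1.pow 2).add (h1.const_mul 5)).add_const 8).const_mul r)).add
      (((h2.const_mul 3).const_add 1).const_mul (2 * r ^ 3 / 3))).sub
      (((h2.pow 2).add (h2.pow 3)).const_mul (r ^ 5 / 5)))).neg) ?_
    rw [lens, if_pos (by linarith [hσ.out])]
    simp only [rho, Pi.add_apply, Pi.sub_apply, Pi.pow_apply, Pi.neg_apply, Nat.cast_ofNat,
      Nat.add_one_sub_one, Nat.reduceSub]
    field_simp; ring
  have hc : ContinuousWithinAt G (Ici r) r := by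
    rcases hr.eq_or_lt with h | h
    · subst h
      simp only [G, zero_mul, ne_eq, OfNat.ofNat_ne_zero, not_false_eq_true, zero_pow, mul_zero,
        zero_div]
      exact Continuous.continuousWithinAt (by fun_prop)
    · exact ContinuousAt.continuousWithinAt (by simp only [G]; fun_prop (disch := exact h.ne'))
  have hn : ∀ σ ∈ Ioi r, 0 ≤ rho σ * lens r (σ / 2) := fun σ hσ => by
    have h0 : 0 < σ := hr.trans_lt hσ
    refine mul_nonneg (rho_pos h0).le ?_
    rw [← lens_axis hr (by linarith)]; exact measureReal_nonneg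
  have ht : Tendsto G atTop (𝓝 0) := by
    have h3 := tendsto_pow_mul_exp_neg_atTop_nhds_zero 3
    have h0 := tendsto_exp_neg_atTop_nhds_zero
    have hi : Tendsto (fun σ : ℝ => σ⁻¹) atTop (𝓝 0) := tendsto_inv_atTop_zero
    have := ((((h3.add ((tend_poly (15 / 6) (15 / 6)).const_mul 6)).const_mul (8 / 15)).sub
      ((tend_poly 5 8).const_mul r)).add (h0.mul ((((hi.const_mul 3).const_add 1).const_mul
      (2 * r ^ 3 / 3)).sub (((hi.pow 2).add (hi.pow 3)).const_mul (r ^ 5 / 5))))).const_mul (-1 / 8)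
    simp only [mul_zero, add_zero, sub_zero, zero_mul] at this
    exact this.congr fun σ => by simp only [G]; ring
  have hz : ∀ σ ∈ Ioi (0 : ℝ) \ Ioi r, σ ≠ r → rho σ * lens r (σ / 2) = 0 := fun σ hσ h => by
    rw [lens, if_neg (by have := lt_of_le_of_ne (not_lt.1 fun h' => hσ.2 h') h; linarith), mul_zero]
  have hz' : ∀ᵐ σ : ℝ, σ ∈ Ioi (0 : ℝ) \ Ioi r → rho σ * lens r (σ / 2) = 0 := by
    filter_upwards [(measure_eq_zero_iff_ae_notMem.1 (measure_singleton (μ := volume) r))]
      with σ h1 h2 using hz σ h2 h1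
  refine ⟨(integrableOn_Ioi_deriv_of_nonneg hc hd hn ht).of_ae_sdiff_eq_zero
    measurableSet_Ioi.nullMeasurableSet hz', ?_⟩
  rw [setIntegral_eq_of_subset_of_ae_sdiff_eq_zero measurableSet_Ioi.nullMeasurableSet
    (Ioi_subset_Ioi hr) hz', integral_Ioi_of_hasDerivAt_of_nonneg hc hd hn ht]
  simp only [G]
  rcases hr.eq_or_lt with h | h
  · subst h; norm_num
  · field_simp; ring

end Pool.Agent.H8.Mag
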