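import Mathlib
import Pool.Agent.H8.Mag1

/-! Positive definiteness and upper bounds for the magnitude of cylinders and discs in `R^5`. -/

namespace Pool.Agent.H8.Mag
open MeasureTheory Set Filter Topology Metric Real

noncomputable def Jf {ι : Type} [Fintype ι] (x : ι → V) (w : ι → ℝ) : ℝ :=
  2 * ∑ i, w i - ∑ i, ∑ j, w i * w j * exp (-dist (x i) (x j))

def Bd (X : Set V) (M : ℝ) : Prop :=
  ∀ (ι : Type) [Fintype ι] (x : ι → V) (w : ι → ℝ), Function.Injective x → (∀ i, x i ∈ X) →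
    Jf x w ≤ M

lemma sq_bound {ι : Type} [Fintype ι] (x : ι → V) (w : ι → ℝ) {s : ℝ} (hs : 0 ≤ s) (Ψ : V → ℝ)
    (m : ℝ) (h2 : Integrable fun z => Ψ z ^ 2)
    (h1 : ∀ i, Integrable ((closedBall (x i) s).indicator Ψ))
    (hm : ∀ i, ∫ z, (closedBall (x i) s).indicator Ψ z = m) :
    2 * m * ∑ i, w i - ∑ i, ∑ j, w i * w j * lens (dist (x i) (x j)) s ≤ ∫ z, Ψ z ^ 2 := by
  have hms : ∀ i j, MeasurableSet (closedBall (x i) s ∩ closedBall (x j) s) := fun i j =>
    measurableSet_closedBall.inter measurableSet_closedBall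
  have h3 : ∀ i j, Integrable fun z => w i * w j *
      (closedBall (x i) s ∩ closedBall (x j) s).indicator (fun _ => (1 : ℝ)) z := fun i j =>
    ((integrable_indicator_iff (hms i j)).2 (integrableOn_const
      ((measure_mono inter_subset_left).trans_lt measure_closedBall_lt_top).ne)).const_mul _
  have h4 : Integrable fun z => 2 * ∑ i, w i * (closedBall (x i) s).indicator Ψ z :=
    (integrable_finsetSum _ fun i _ => (h1 i).const_mul _).const_mul _
  have h5 := integrable_finsetSum Finset.univ fun i _ =>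
    integrable_finsetSum Finset.univ fun j _ => h3 i j
  refine le_trans (le_of_eq ?_) (integral_mono (h4.sub h5) h2 fun z => ?_)
  · rw [integral_sub' h4 h5, integral_const_mul,
      integral_finsetSum _ fun i _ => (h1 i).const_mul _,
      integral_finsetSum _ fun i _ => integrable_finsetSum _ fun j _ => h3 i j]
    simp only [integral_const_mul, hm]
    rw [← Finset.sum_mul]
    congr 1
    · ring
    refine Finset.sum_congr rfl fun i _ => ?_
    rw [integral_finsetSum _ fun j _ => h3 i j]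
    refine Finset.sum_congr rfl fun j _ => ?_
    rw [integral_const_mul, integral_indicator_const _ (hms i j), lens_eq _ _ hs, smul_eq_mul,
      mul_one]
  · let χ : ι → ℝ := fun i => (closedBall (x i) s).indicator (fun _ => (1 : ℝ)) z
    have e1 : ∀ i, (closedBall (x i) s).indicator Ψ z = χ i * Ψ z := fun i => by
      by_cases h : z ∈ closedBall (x i) s <;> simp [χ, h]
    have e2 : ∀ i j, (closedBall (x i) s ∩ closedBall (x j) s).indicator (fun _ => (1 : ℝ)) z =
        χ i * χ j := fun i j => by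
      by_cases h : z ∈ closedBall (x i) s <;> by_cases h' : z ∈ closedBall (x j) s <;>
        simp [χ, h, h', -mem_closedBall]
    have e3 : ∑ i, ∑ j, w i * w j * (χ i * χ j) = (∑ i, w i * χ i) ^ 2 := by
      rw [sq, Finset.sum_mul_sum]
      exact Finset.sum_congr rfl fun i _ => Finset.sum_congr rfl fun j _ => by ring
    simp only [Pi.sub_apply, e1, e2, e3]
    simp only [← mul_assoc, ← Finset.sum_mul]
    nlinarith [sq_nonneg (∑ i, w i * χ i - Ψ z)]

lemma quad_int {ι : Type} [Fintype ι] (x : ι → V) (w : ι → ℝ) :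
    IntegrableOn (fun σ => rho σ * ∑ i, ∑ j, w i * w j * lens (dist (x i) (x j)) (σ / 2)) (Ioi 0) ∧
    ∫ σ in Ioi 0, rho σ * ∑ i, ∑ j, w i * w j * lens (dist (x i) (x j)) (σ / 2) =
      ∑ i, ∑ j, w i * w j * exp (-dist (x i) (x j)) := by
  have e : (fun σ => rho σ * ∑ i, ∑ j, w i * w j * lens (dist (x i) (x j)) (σ / 2)) =
      fun σ => ∑ i, ∑ j, w i * w j * (rho σ * lens (dist (x i) (x j)) (σ / 2)) := by
    funext σ; simp only [Finset.mul_sum]
    exact Finset.sum_congr rfl fun i _ => Finset.sum_congr rfl fun j _ => by ring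
  have h := fun i j => (hat (r := dist (x i) (x j)) dist_nonneg).1.const_mul (w i * w j)
  rw [e]
  refine ⟨integrable_finsetSum _ fun i _ => integrable_finsetSum _ fun j _ => h i j, ?_⟩
  rw [integral_finsetSum _ fun i _ => integrable_finsetSum _ fun j _ => h i j]
  refine Finset.sum_congr rfl fun i _ => ?_
  rw [integral_finsetSum _ fun j _ => h i j]
  exact Finset.sum_congr rfl fun j _ => by rw [integral_const_mul, (hat dist_nonneg).2]

lemma pd {ι : Type} [Fintype ι] (x : ι → V) (hx : Function.Injective x) (w : ι → ℝ) (hw : w ≠ 0) :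
    0 < ∑ i, ∑ j, w i * w j * exp (-dist (x i) (x j)) := by
  classical
  obtain ⟨h1, h2⟩ := quad_int x w
  obtain ⟨δ, hδ, hd⟩ : ∃ δ > 0, ∀ i j, i ≠ j → δ ≤ dist (x i) (x j) := by
    rcases isEmpty_or_nonempty {k : ι × ι // k.1 ≠ k.2} with h | h
    · exact ⟨1, one_pos, fun i j hij => (h.false ⟨(i, j), hij⟩).elim⟩
    · obtain ⟨k, hk⟩ := Finite.exists_min fun k : {k : ι × ι // k.1 ≠ k.2} =>
        dist (x k.1.1) (x k.1.2)
      exact ⟨_, dist_pos.2 (hx.ne k.2), fun i j hij => hk ⟨(i, j), hij⟩⟩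
  rw [← h2, setIntegral_pos_iff_support_of_nonneg_ae _ h1]
  · refine lt_of_lt_of_le (b := volume (Ioo 0 δ)) (by simpa using hδ) (measure_mono fun σ hσ => ?_)
    refine ⟨(mul_pos (rho_pos hσ.1) ?_).ne', hσ.1⟩
    obtain ⟨i0, hi0⟩ := Function.ne_iff.1 hw
    have hl : 0 < lens 0 (σ / 2) := by
      have := om_pos; have := hσ.1
      rw [lens, if_pos (by linarith)]; norm_num; positivity
    have : ∀ i, ∑ j, w i * w j * lens (dist (x i) (x j)) (σ / 2) = w i ^ 2 * lens 0 (σ / 2) :=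
      fun i => by
        rw [Finset.sum_eq_single i, dist_self, sq]
        · intro j _ hj
          rw [lens, if_neg (by linarith [hd i j hj.symm, hσ.2]), mul_zero]
        · simp
    simp only [this]
    exact Finset.sum_pos' (fun i _ => by positivity)
      ⟨i0, Finset.mem_univ _, mul_pos (sq_pos_of_ne_zero hi0) hl⟩
  · filter_upwards [ae_restrict_mem measurableSet_Ioi] with σ hσ
    have := sq_bound x w (s := σ / 2) (by linarith [hσ.out]) (fun _ => 0) 0 (by simp)
      (fun _ => by simp) (fun _ => by simp)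
    exact mul_nonneg (rho_pos hσ).le (by simpa using this)

lemma mix {ι : Type} [Fintype ι] (x : ι → V) (w : ι → ℝ) (m g : ℝ → ℝ)
    (h1 : IntegrableOn m (Ioi 0)) (h2 : ∫ σ in Ioi 0, m σ = 1) (hg : IntegrableOn g (Ioi 0))
    (h : ∀ σ > 0, 2 * m σ * ∑ i, w i -
      rho σ * ∑ i, ∑ j, w i * w j * lens (dist (x i) (x j)) (σ / 2) ≤ g σ) :
    Jf x w ≤ ∫ σ in Ioi 0, g σ := by
  obtain ⟨h3, h4⟩ := quad_int x w
  have h5 : IntegrableOn (fun σ => 2 * m σ * ∑ i, w i) (Ioi 0) := (h1.const_mul 2).mul_const _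
  refine le_trans (le_of_eq ?_) (setIntegral_mono_on (h5.sub h3) hg measurableSet_Ioi h)
  rw [integral_sub' h5 h3, h4, integral_mul_const, integral_const_mul, h2, mul_one, Jf]

lemma prod_sq (f : ℝ → ℝ) (hf : Integrable fun u => f u ^ 2) {R : ℝ} (hR : 0 ≤ R) :
    Integrable (fun z : V => (f z.fst * (closedBall (0 : E4) R).indicator 1 z.snd) ^ 2) ∧
    ∫ z : V, (f z.fst * (closedBall (0 : E4) R).indicator 1 z.snd) ^ 2 =
      (∫ u, f u ^ 2) * (R ^ 4 * om) := by
  have e : (fun z : V => (f z.fst * (closedBall (0 : E4) R).indicator 1 z.snd) ^ 2) =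
      (fun z : ℝ × E4 => f z.1 ^ 2 * (closedBall (0 : E4) R).indicator (fun _ => (1 : ℝ)) z.2) ∘
        WithLp.ofLp := by
    funext z
    change _ = f z.fst ^ 2 * (closedBall (0 : E4) R).indicator (fun _ => (1 : ℝ)) z.snd
    by_cases h : z.snd ∈ closedBall (0 : E4) R <;> simp [h, -mem_closedBall]
  have hm := WithLp.volume_preserving_ofLp ℝ E4
  rw [e]
  refine ⟨hm.integrable_comp_of_integrable (hf.mul_prod
    ((integrable_indicator_iff measurableSet_closedBall).2
      (integrableOn_const measure_closedBall_lt_top.ne))), ?_⟩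
  rw [Function.comp_def, hm.integral_comp (MeasurableEquiv.toLp 2 (ℝ × E4)).symm.measurableEmbedding
    (fun z : ℝ × E4 => f z.1 ^ 2 * (closedBall (0 : E4) R).indicator (fun _ => (1 : ℝ)) z.2),
    Measure.volume_eq_prod, integral_prod_mul (fun u => f u ^ 2),
    integral_indicator_const _ measurableSet_closedBall, vol_cb _ hR, smul_eq_mul, mul_one]

def Cyl (a b t : ℝ) : Set V := {z | a ≤ z.fst ∧ z.fst ≤ b ∧ ‖z.snd‖ ≤ t}

lemma near {x z : V} {s : ℝ} (h : z ∈ closedBall x s) :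
    |z.fst - x.fst| ≤ s ∧ ‖z.snd‖ ≤ ‖x.snd‖ + s := by
  have hs : 0 ≤ s := dist_nonneg.trans h
  rw [mem_cb _ _ hs] at h
  refine ⟨abs_le_of_sq_le_sq (by nlinarith [sq_nonneg ‖z.snd - x.snd‖]) hs, ?_⟩
  have : ‖z.snd - x.snd‖ ≤ s :=
    (pow_le_pow_iff_left₀ (norm_nonneg _) hs two_ne_zero).1 (by nlinarith [sq_nonneg (z.fst - x.fst)])
  linarith [norm_sub_norm_le z.snd x.snd]

lemma pow4 {t σ : ℝ} (ht : 1 ≤ t) (hσ : 0 ≤ σ) : (t + σ / 2) ^ 4 ≤ t ^ 4 + t ^ 3 * (1 + σ) ^ 4 := by
  have h1 : t ≤ t ^ 2 := by nlinarith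
  have h2 : t ^ 2 ≤ t ^ 3 := by nlinarith
  have h3 : 1 ≤ t ^ 3 := by linarith
  have a1 := mul_le_mul_of_nonneg_right h2 (pow_nonneg hσ 2)
  have a2 := mul_le_mul_of_nonneg_right (h1.trans h2) (pow_nonneg hσ 3)
  have a3 := mul_le_mul_of_nonneg_right h3 (pow_nonneg hσ 4)
  have a4 : 0 ≤ t ^ 3 * σ := by positivity
  have a5 : 0 ≤ t ^ 3 * σ ^ 2 := by positivity
  have a6 : 0 ≤ t ^ 3 * σ ^ 3 := by positivity
  have a7 : 0 ≤ t ^ 3 * σ ^ 4 := by positivity
  nlinarith

lemma up_cyl : ∃ K : ℝ, ∀ a T t : ℝ, 1 ≤ t → 0 ≤ T → T ≤ t →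
    Bd (Cyl a (a + T) t) (T * t ^ 4 / 128 + K * t ^ 4) := by
  open Polynomial in
  have hp := intp ((X ^ 2 + C 3 * X + C 3) * X ^ 6 * (C 2 * (C 1 + X) ^ 5))
  simp only [Polynomial.eval_mul, Polynomial.eval_add, Polynomial.eval_pow, Polynomial.eval_X,
    Polynomial.eval_C] at hp
  refine ⟨(∫ σ in Ioi (0 : ℝ), exp (-σ) * ((σ ^ 2 + 3 * σ + 3) * σ ^ 6 * (2 * (1 + σ) ^ 5))) *
    (2 / 3840 ^ 2), fun a T t ht hT hTt ι _ x w _ hx => ?_⟩
  have g1 := (gam3 6).1.mul_const (T * t ^ 4 * (2 / 3840 ^ 2))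
  have g2 := hp.mul_const (t ^ 4 * (2 / 3840 ^ 2))
  refine (mix x w (fun σ => exp (-σ) * (σ ^ 2 + 3 * σ + 3) * σ ^ 6 / 57600) _
    ((gam3 6).1.div_const _) (by rw [integral_div, (gam3 6).2]; norm_num [Nat.factorial])
    (g1.add g2) fun σ hσ => ?_).trans (le_of_eq ?_)
  swap
  · rw [integral_add' g1 g2, integral_mul_const, integral_mul_const, (gam3 6).2]
    norm_num [Nat.factorial]; ring
  have hom := om_pos
  let f : ℝ → ℝ := (Icc (a - σ / 2) (a + T + σ / 2)).indicator fun _ => σ ^ 5 / 3840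
  have e : (fun u => f u ^ 2) = (Icc (a - σ / 2) (a + T + σ / 2)).indicator
      fun _ => (σ ^ 5 / 3840) ^ 2 := by
    funext u; by_cases h : u ∈ Icc (a - σ / 2) (a + T + σ / 2) <;> simp [f, h, -mem_Icc]
  obtain ⟨p1, p2⟩ := prod_sq f (by
    rw [e]; exact (integrable_indicator_iff measurableSet_Icc).2
      (integrableOn_const measure_Icc_lt_top.ne)) (R := t + σ / 2) (by linarith)
  have e2 : ∀ i, (closedBall (x i) (σ / 2)).indicator
      (fun z : V => f z.fst * (closedBall (0 : E4) (t + σ / 2)).indicator 1 z.snd) =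
      (closedBall (x i) (σ / 2)).indicator fun _ => σ ^ 5 / 3840 := fun i =>
    indicator_congr fun z hz => by
      obtain ⟨n1, n2⟩ := near hz
      obtain ⟨c1, c2, c3⟩ := hx i
      rw [abs_le] at n1
      simp only [f]
      rw [indicator_of_mem (show z.fst ∈ Icc _ _ from ⟨by linarith, by linarith⟩),
        indicator_of_mem (mem_closedBall_zero_iff.2 (by linarith)), Pi.one_apply, mul_one]
  have := sq_bound x w (s := σ / 2) (by linarith) _ (lens 0 (σ / 2) * (σ ^ 5 / 3840)) p1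
    (fun i => by
      rw [e2]; exact (integrable_indicator_iff measurableSet_closedBall).2
        (integrableOn_const measure_closedBall_lt_top.ne))
    (fun i => by
      rw [e2, integral_indicator_const _ measurableSet_closedBall, smul_eq_mul,
        ← dist_self (x i), ← lens_eq _ _ (by linarith), inter_self])
  rw [p2, e, integral_indicator_const _ measurableSet_Icc, Real.volume_real_Icc_of_le (by linarith),
    lens, if_pos (by linarith), smul_eq_mul] at this
  have h1 := mul_le_mul_of_nonneg_left this (rho_pos hσ).le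
  have h2 : (T + σ) * (t + σ / 2) ^ 4 ≤ T * t ^ 4 + t ^ 4 * (2 * (1 + σ) ^ 5) := by
    have b1 := mul_le_mul_of_nonneg_left (pow4 ht hσ.le) (show 0 ≤ T + σ by linarith)
    have b2 : t ^ 3 ≤ t ^ 4 := pow_le_pow_right₀ ht (by norm_num)
    have b3 : 1 ≤ (1 + σ) ^ 4 := one_le_pow₀ (by linarith)
    have b4 : T * t ^ 3 ≤ t ^ 4 := by nlinarith [pow_pos (show 0 < t by linarith) 3]
    have b5 := mul_le_mul_of_nonneg_right b4 (show 0 ≤ (1 + σ) ^ 4 by positivity)
    have b6 := mul_le_mul_of_nonneg_right b2 (show 0 ≤ σ * (1 + σ) ^ 4 by positivity)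
    have b7 := mul_le_mul_of_nonneg_left b3 (show 0 ≤ σ * t ^ 4 by positivity)
    have b8 : 0 ≤ t ^ 4 * (1 + σ) ^ 4 := by positivity
    nlinarith
  have h3 := mul_le_mul_of_nonneg_left h2 (show 0 ≤ exp (-σ) * (σ ^ 2 + 3 * σ + 3) * σ ^ 6 *
    (2 / 3840 ^ 2) by positivity)
  rw [mul_sub] at h1
  refine le_trans (le_of_eq ?_) (h1.trans (le_trans (le_of_eq ?_) (h3.trans (le_of_eq ?_))))
  · congr 1; unfold rho; field_simp; ring
  · unfold rho; field_simp; ring
  · simp only [Pi.add_apply]; ring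

lemma up_disc : ∃ K : ℝ, ∀ a t : ℝ, 1 ≤ t → Bd (Cyl a a t) (t ^ 4 / 24 + K * t ^ 3) := by
  open Polynomial in
  have hp := intp ((X ^ 2 + C 3 * X + C 3) * X ^ 5 * (C 1 + X) ^ 4)
  simp only [Polynomial.eval_mul, Polynomial.eval_add, Polynomial.eval_pow, Polynomial.eval_X,
    Polynomial.eval_C] at hp
  refine ⟨(∫ σ in Ioi (0 : ℝ), exp (-σ) * ((σ ^ 2 + 3 * σ + 3) * σ ^ 5 * (1 + σ) ^ 4)) *
    (1 / (24 * 7560)), fun a t ht ι _ x w _ hx => ?_⟩
  have g1 := (gam3 5).1.mul_const (t ^ 4 * (1 / (24 * 7560)))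
  have g2 := hp.mul_const (t ^ 3 * (1 / (24 * 7560)))
  refine (mix x w (fun σ => exp (-σ) * (σ ^ 2 + 3 * σ + 3) * σ ^ 5 / 7560) _
    ((gam3 5).1.div_const _) (by rw [integral_div, (gam3 5).2]; norm_num [Nat.factorial])
    (g1.add g2) fun σ hσ => ?_).trans (le_of_eq ?_)
  swap
  · rw [integral_add' g1 g2, integral_mul_const, integral_mul_const, (gam3 5).2]
    norm_num [Nat.factorial]; ring
  have hom := om_pos
  set s := σ / 2 with hs
  have hs0 : 0 ≤ s := by linarith
  let h : ℝ → ℝ := fun u => s ^ 2 - (u - a) ^ 2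
  let f : ℝ → ℝ := fun u => max (h u) 0 ^ 2 / 24
  have hI : ∫ u, max (h u) 0 ^ 4 = 256 / 315 * s ^ 9 := by
    rw [← integral_add_right_eq_self _ a]
    simp only [h, add_sub_cancel_right]
    conv_lhs => enter [2, u]; rw [← sq_abs u]
    rw [int_even (fun x => max (s ^ 2 - x ^ 2) 0 ^ 4) (fun x => (s ^ 2 - x ^ 2) ^ 4) hs0
      (fun x hx => by rw [max_eq_left (by nlinarith [hx.1, hx.2])])
      (fun x hx => by rw [max_eq_right (by nlinarith)]; simp),
      intervalIntegral.integral_eq_sub_of_hasDerivAt (f := fun x => s ^ 8 * x -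
        4 / 3 * s ^ 6 * x ^ 3 + 6 / 5 * s ^ 4 * x ^ 5 - 4 / 7 * s ^ 2 * x ^ 7 + x ^ 9 / 9)
        (fun x _ => by
        have h0 := hasDerivAt_id' x
        exact (((((h0.const_mul (s ^ 8)).sub ((h0.pow 3).const_mul (4 / 3 * s ^ 6))).add
          ((h0.pow 5).const_mul (6 / 5 * s ^ 4))).sub ((h0.pow 7).const_mul (4 / 7 * s ^ 2))).add
          ((h0.pow 9).div_const 9)).congr_deriv (by simp; ring))
        (Continuous.intervalIntegrable (by fun_prop) _ _)]
    ring
  have hf : Continuous f := by fun_prop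
  obtain ⟨p1, p2⟩ := prod_sq f (Continuous.integrable_of_hasCompactSupport (hf.pow 2)
    (HasCompactSupport.intro (isCompact_Icc (a := a - s) (b := a + s)) fun u hu => by
      have : h u ≤ 0 := by
        rw [mem_Icc, not_and_or, not_le, not_le] at hu
        simp only [h]; rcases hu with hu | hu <;> nlinarith
      simp [f, max_eq_right this])) (R := t + s) (by linarith)
  have e1 : ∀ i, closedBall (x i) s = {z : V | ‖z.snd - (x i).snd‖ ^ 2 ≤ h z.fst} := fun i => by
    ext z; rw [mem_cb _ _ hs0, le_antisymm (hx i).2.1 (hx i).1]; rfl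
  have e2 : ∀ i, (closedBall (x i) s).indicator
      (fun z : V => f z.fst * (closedBall (0 : E4) (t + s)).indicator 1 z.snd) =
      (closedBall (x i) s).indicator fun z => f z.fst := fun i =>
    indicator_congr fun z hz => by
      rw [indicator_of_mem (mem_closedBall_zero_iff.2 (by linarith [(near hz).2, (hx i).2.2])),
        Pi.one_apply, mul_one]
  have := sq_bound x w hs0 _ (om * (256 / 315 * s ^ 9 / 24)) p1
    (fun i => by
      rw [e2]; exact (integrable_indicator_iff measurableSet_closedBall).2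
        (ContinuousOn.integrableOn_compact (isCompact_closedBall _ _) (by fun_prop)))
    (fun i => by
      rw [e2, e1, slice h f (by fun_prop) hf _ (e1 i ▸ isBounded_closedBall), ← hI, ← integral_div]
      congr 2; funext u; simp only [f]; ring)
  have e3 : ∫ u, f u ^ 2 = 256 / 315 * s ^ 9 / 576 := by
    rw [← hI, ← integral_div]; congr 1; funext u; simp only [f]; ring
  rw [p2, e3] at this
  have h1 := mul_le_mul_of_nonneg_left this (rho_pos hσ).le
  have h3 := mul_le_mul_of_nonneg_left (pow4 ht hσ.le) (show 0 ≤ exp (-σ) * (σ ^ 2 + 3 * σ + 3) *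
    σ ^ 5 * (1 / (24 * 7560)) by positivity)
  rw [mul_sub] at h1
  refine le_trans (le_of_eq ?_) (h1.trans (le_trans (le_of_eq ?_) (h3.trans (le_of_eq ?_))))
  · congr 1; unfold rho; rw [hs]; field_simp; ring
  · unfold rho; rw [hs]; field_simp; ring
  · simp only [Pi.add_apply]; ring

end Pool.Agent.H8.Mag
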