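import Mathlib
import Pool.Agent.H8.Mag2

/-! Lower bounds: test measures. -/

namespace Pool.Agent.H8.Mag
open MeasureTheory Set Filter Topology Metric Real

lemma exp_bd (r : ℝ) (hr : 0 ≤ r) : ‖exp (-r)‖ ≤ 1 := by
  rw [Real.norm_eq_abs, abs_of_pos (exp_pos _)]; exact exp_le_one_iff.2 (by linarith)

lemma lower_gen {Ω : Type} [MeasurableSpace Ω] {X : Set V} {M : ℝ} (hX : Bd X M) {x0 : V}
    (h0 : x0 ∈ X) (f : Ω → V) (hf : Measurable f) {n : ℕ} (μ : Fin n → Measure Ω)
    [∀ j, IsFiniteMeasure (μ j)] (α : Fin n → ℝ) (hμ : ∀ j, ∀ᵐ z ∂μ j, f z ∈ X) :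
    2 * ∑ j, α j * (μ j).real univ - ∑ i, ∑ j, α i * α j *
      ∫ z, exp (-dist (f z.1) (f z.2)) ∂(μ i).prod (μ j) ≤ M := by
  classical
  let q := fun N => SimpleFunc.approxOn f hf X x0 h0 N
  have lim : ∀ i j, Tendsto (fun N => ∫ z, exp (-dist (q N z.1) (q N z.2)) ∂(μ i).prod (μ j))
      atTop (𝓝 (∫ z, exp (-dist (f z.1) (f z.2)) ∂(μ i).prod (μ j))) := fun i j => by
    refine tendsto_integral_of_dominated_convergence (fun _ => 1) (fun N => ?_)
      (integrable_const _) (fun N => Eventually.of_forall fun z => exp_bd _ dist_nonneg) ?_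
    · have := (q N).measurable
      exact Measurable.aestronglyMeasurable (by fun_prop)
    · filter_upwards [Measure.quasiMeasurePreserving_fst.ae (hμ i),
        Measure.quasiMeasurePreserving_snd.ae (hμ j)] with z h1 h2
      exact (continuous_exp.tendsto _).comp ((SimpleFunc.tendsto_approxOn hf h0
        (subset_closure h1)).dist (SimpleFunc.tendsto_approxOn hf h0 (subset_closure h2))).neg
  refine le_of_tendsto' (tendsto_const_nhds.sub (tendsto_finsetSum _ fun i _ =>
    tendsto_finsetSum _ fun j _ => (lim i j).const_mul _)) fun N => ?_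
  let χ : (q N).range → Ω → ℝ := fun p => ((q N) ⁻¹' {p.1}).indicator fun _ => 1
  have hχ : ∀ (g : V → ℝ) z, ∑ p, χ p z * g p = g (q N z) := fun g z => by
    rw [Finset.sum_eq_single ⟨q N z, SimpleFunc.mem_range_self _ _⟩]
    · simp [χ]
    · intro p _ hp
      have : z ∉ (q N) ⁻¹' {p.1} := fun h => hp (Subtype.ext h.symm)
      simp [χ, indicator_of_notMem this]
    · simp
  have hi : ∀ p j, Integrable (χ p) (μ j) := fun p j =>
    (integrable_const _).indicator ((q N).measurableSet_fiber _)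
  refine le_trans (le_of_eq ?_) (hX (q N).range Subtype.val
    (fun p => ∑ j, α j * ∫ z, χ p z ∂μ j) Subtype.val_injective fun p => by
      obtain ⟨z, hz⟩ := SimpleFunc.mem_range.1 p.2
      rw [← hz]; exact SimpleFunc.approxOn_mem hf h0 N z)
  unfold Jf
  congr 1
  · rw [Finset.sum_comm]
    refine congrArg _ (Finset.sum_congr rfl fun j _ => ?_)
    rw [← Finset.mul_sum, ← integral_finsetSum _ fun p _ => hi p j]
    have := hχ fun _ => 1
    simp only [mul_one] at this
    simp only [this, integral_const, smul_eq_mul, mul_one]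
  · have e : ∀ i j, ∫ z, exp (-dist (q N z.1) (q N z.2)) ∂(μ i).prod (μ j) =
        ∑ p : (q N).range, ∑ p' : (q N).range,
          (∫ z, χ p z ∂μ i) * (∫ z, χ p' z ∂μ j) * exp (-dist p.1 p'.1) := fun i j => by
      have h2 := fun (p p' : (q N).range) =>
        ((hi p i).mul_prod (hi p' j)).mul_const (exp (-dist p.1 p'.1))
      have h3 : ∀ p : (q N).range, ∑ p' : (q N).range,
          (∫ z, χ p z ∂μ i) * (∫ z, χ p' z ∂μ j) * exp (-dist p.1 p'.1) =
          ∫ z, ∑ p' : (q N).range, χ p z.1 * χ p' z.2 * exp (-dist p.1 p'.1) ∂(μ i).prod (μ j) :=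
        fun p => by
          rw [integral_finsetSum _ fun p' _ => h2 p p']
          exact Finset.sum_congr rfl fun p' _ => by rw [integral_mul_const, integral_prod_mul]
      simp only [h3]
      rw [← integral_finsetSum _ fun p _ => integrable_finsetSum _ fun p' _ => h2 p p']
      congr 1; funext z
      rw [← hχ (fun a => exp (-dist a (q N z.2))) z.1]
      refine Finset.sum_congr rfl fun p _ => ?_
      rw [← hχ (fun b => exp (-dist p.1 b)) z.2, Finset.mul_sum]
      exact Finset.sum_congr rfl fun _ _ => by ring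
    simp only [e, Finset.mul_sum, Finset.sum_mul]
    rw [Finset.sum_comm]
    conv_rhs => enter [2, p]; rw [Finset.sum_comm]; enter [2, j]; rw [Finset.sum_comm]
    conv_rhs => rw [Finset.sum_comm]; enter [2, j]; rw [Finset.sum_comm]
    exact Finset.sum_congr rfl fun _ _ => Finset.sum_congr rfl fun _ _ =>
      Finset.sum_congr rfl fun _ _ => Finset.sum_congr rfl fun _ _ => by ring

/-- the normalised one-dimensional kernel -/
noncomputable def kn (w : ℝ) : ℝ := (|w| ^ 2 + 3 * |w| + 3) * exp (-|w|) / 16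

lemma kn_cont : Continuous kn := by unfold kn; fun_prop

lemma kn_bd (w : ℝ) : ‖kn w‖ ≤ 1 := by
  have h0 := abs_nonneg w
  have h1 := Real.quadratic_le_exp_of_nonneg h0
  have h2 := exp_pos |w|
  rw [Real.norm_eq_abs, abs_of_nonneg (by unfold kn; positivity), kn, exp_neg,
    div_le_one (by norm_num), ← div_eq_mul_inv, div_le_iff₀ h2]
  nlinarith

lemma kap (w : ℝ) : Integrable (fun y : E4 => exp (-√(w ^ 2 + ‖y‖ ^ 2))) ∧
    ∫ y : E4, exp (-√(w ^ 2 + ‖y‖ ^ 2)) = 128 * om * kn w := by
  let H : ℝ → ℝ := fun u => -((u ^ 3 + 3 * u ^ 2 + 6 * u + 6 - w ^ 2 * (u + 1)) * exp (-u))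
  have hd : ∀ r ∈ Ioi (0 : ℝ), HasDerivAt (fun r => H √(w ^ 2 + r ^ 2))
      (r ^ 3 * exp (-√(w ^ 2 + r ^ 2))) r := fun r hr => by
    have h0 : 0 < w ^ 2 + r ^ 2 := by have := hr.out; positivity
    have h1 := (((hasDerivAt_id' r).pow 2).const_add (w ^ 2)).sqrt h0.ne'
    have h2 := sq_sqrt h0.le
    have h3 := sqrt_pos.2 h0
    refine HasDerivAt.congr_deriv (f' := _) ((((((((h1.pow 3).add ((h1.pow 2).const_mul 3)).add
      (h1.const_mul 6)).add_const 6).sub ((h1.add_const 1).const_mul (w ^ 2))).mul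
      h1.neg.exp).neg)) ?_
    simp only [Pi.add_apply, Pi.sub_apply, Pi.pow_apply, Pi.neg_apply, Nat.cast_ofNat,
      Nat.add_one_sub_one, Nat.reduceSub]
    generalize √(w ^ 2 + r ^ 2) = u at *
    have : w ^ 2 = u ^ 2 - r ^ 2 := by linarith
    rw [this]; field_simp; ring
  have hc : ContinuousWithinAt (fun r => H √(w ^ 2 + r ^ 2)) (Ici 0) 0 :=
    Continuous.continuousWithinAt (by simp only [H]; fun_prop)
  have hn : ∀ r ∈ Ioi (0 : ℝ), 0 ≤ r ^ 3 * exp (-√(w ^ 2 + r ^ 2)) := fun r hr => by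
    have := hr.out; positivity
  have ht : Tendsto (fun r => H √(w ^ 2 + r ^ 2)) atTop (𝓝 0) := by
    have h1 : Tendsto H atTop (𝓝 0) := by
      have := ((tendsto_pow_mul_exp_neg_atTop_nhds_zero 3).add
        ((tend_poly ((6 - w ^ 2) / 3) ((6 - w ^ 2) / 3)).const_mul 3)).neg
      simp only [mul_zero, add_zero, neg_zero] at this
      exact this.congr fun u => by simp only [H]; ring
    exact h1.comp (tendsto_sqrt_atTop.comp
      (tendsto_atTop_add_const_left _ _ (tendsto_pow_atTop two_ne_zero)))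
  have e : Module.finrank ℝ E4 - 1 = 3 := by simp
  refine ⟨(integrable_fun_norm_addHaar volume (f := fun r => exp (-√(w ^ 2 + r ^ 2)))).2 ?_, ?_⟩
  · rw [e]; exact integrableOn_Ioi_deriv_of_nonneg hc hd hn ht
  · rw [integral_fun_norm_addHaar volume fun r => exp (-√(w ^ 2 + r ^ 2)), e]
    simp only [smul_eq_mul]
    rw [integral_Ioi_of_hasDerivAt_of_nonneg hc hd hn ht]
    simp only [H, kn, om, ne_eq, OfNat.ofNat_ne_zero, not_false_eq_true, zero_pow, add_zero,
      sqrt_sq_eq_abs, finrank_euclideanSpace, Fintype.card_fin, nsmul_eq_mul, Nat.cast_ofNat]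
    rw [← sq_abs w]; ring

lemma half_int : Integrable fun y : E4 => exp (-(‖y‖ / 2)) := by
  have := (kap 0).1.comp_smul (R := (1 / 2 : ℝ)) (by norm_num)
  refine this.congr (Eventually.of_forall fun y => ?_)
  simp only [norm_smul, ne_eq, OfNat.ofNat_ne_zero, not_false_eq_true, zero_pow, zero_add]
  rw [sqrt_sq (by positivity)]; norm_num; ring

noncomputable def Mh : ℝ := ∫ y : E4, exp (-(‖y‖ / 2))

noncomputable def kk (z w : ℝ × E4) : ℝ := exp (-√((z.1 - w.1) ^ 2 + ‖z.2 - w.2‖ ^ 2))

lemma kk_int (μ ν : Measure (ℝ × E4)) [IsFiniteMeasure μ] [IsFiniteMeasure ν] :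
    Integrable (fun z : (ℝ × E4) × ℝ × E4 => kk z.1 z.2) (μ.prod ν) :=
  Integrable.of_bound (Continuous.aestronglyMeasurable (by unfold kk; fun_prop)) 1
    (Eventually.of_forall fun z => exp_bd _ (sqrt_nonneg _))

noncomputable def mu (ν : Measure ℝ) (R : ℝ) : Measure (ℝ × E4) :=
  ν.prod (volume.restrict (closedBall 0 R))

instance (R : ℝ) : IsFiniteMeasure ((volume : Measure E4).restrict (closedBall 0 R)) :=
  isFiniteMeasure_restrict.2 measure_closedBall_lt_top.ne

instance (ν : Measure ℝ) [IsFiniteMeasure ν] (R : ℝ) : IsFiniteMeasure (mu ν R) := by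
  unfold mu; infer_instance

noncomputable def En (μ ν : Measure (ℝ × E4)) : ℝ := ∫ z, kk z.1 z.2 ∂μ.prod ν

lemma En_comm (μ ν : Measure (ℝ × E4)) [IsFiniteMeasure μ] [IsFiniteMeasure ν] :
    En μ ν = En ν μ := by
  unfold En
  rw [← integral_prod_swap]
  congr 1; funext z
  simp only [kk, Prod.fst_swap, Prod.snd_swap]
  rw [norm_sub_rev]; congr 3; ring

noncomputable def e1 (ν ν' : Measure ℝ) : ℝ := ∫ u, ∫ v, kn (u - v) ∂ν' ∂ν

lemma kn_int (ν : Measure ℝ) [IsFiniteMeasure ν] (u : ℝ) : Integrable (fun v => kn (u - v)) ν :=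
  Integrable.of_bound (kn_cont.comp (by fun_prop)).aestronglyMeasurable 1
    (Eventually.of_forall fun _ => kn_bd _)

lemma pot_int (ν ν' : Measure ℝ) [IsFiniteMeasure ν] [IsFiniteMeasure ν'] :
    Integrable (fun u => ∫ v, kn (u - v) ∂ν') ν :=
  Integrable.integral_prod_left (f := fun z : ℝ × ℝ => kn (z.1 - z.2))
    (Integrable.of_bound (kn_cont.comp (by fun_prop)).aestronglyMeasurable 1
      (Eventually.of_forall fun _ => kn_bd _))

lemma inner_int (ν : Measure ℝ) [IsFiniteMeasure ν] (R : ℝ) (z : ℝ × E4) :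
    Integrable (kk z) (mu ν R) :=
  Integrable.of_bound (Continuous.aestronglyMeasurable (by unfold kk; fun_prop)) 1
    (Eventually.of_forall fun _ => exp_bd _ (sqrt_nonneg _))

lemma En_le (ν ν' : Measure ℝ) [IsFiniteMeasure ν] [IsFiniteMeasure ν'] {R : ℝ} (hR : 0 ≤ R)
    (R' : ℝ) : En (mu ν R) (mu ν' R') ≤ R ^ 4 * om * (128 * om * e1 ν ν') := by
  rw [En, integral_prod _ (kk_int _ _)]
  have h1 : Integrable (fun z : ℝ × E4 => 128 * om * ∫ v, kn (z.1 - v) ∂ν') (mu ν R) :=
    Integrable.comp_fst (f := fun u => 128 * om * ∫ v, kn (u - v) ∂ν')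
      ((pot_int ν ν').const_mul _) _
  refine (integral_mono (kk_int _ _).integral_prod_left h1 fun z => ?_).trans (le_of_eq ?_)
  · dsimp only
    rw [mu, integral_prod _ (inner_int ν' R' z), ← integral_const_mul]
    refine integral_mono (inner_int ν' R' z).integral_prod_left ((kn_int _ _).const_mul _)
      fun v => ?_
    dsimp only
    rw [← (kap _).2, ← integral_sub_left_eq_self _ volume z.2]
    exact setIntegral_le_integral ((kap (z.1 - v)).1.comp_sub_left z.2)
      (Eventually.of_forall fun _ => (exp_pos _).le)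
  · rw [mu, integral_fun_fst fun u => 128 * om * ∫ v, kn (u - v) ∂ν', integral_const_mul,
      measureReal_restrict_apply_univ, vol_cb _ hR, smul_eq_mul, e1]

lemma En_ge (ν ν' : Measure ℝ) [IsFiniteMeasure ν] [IsFiniteMeasure ν'] {R d : ℝ} (hR : 0 ≤ R) :
    R ^ 4 * om * (128 * om * e1 ν ν' - ν.real univ * (ν'.real univ * (exp (-(d / 2)) * Mh))) ≤
      En (mu ν R) (mu ν' (R + d)) := by
  rw [En, integral_prod _ (kk_int _ _)]
  have h1 := ((pot_int ν ν').const_mul (128 * om)).sub
    (integrable_const (ν'.real univ * (exp (-(d / 2)) * Mh)))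
  refine le_trans (le_of_eq ?_) (integral_mono_ae (h1.comp_fst _)
    (kk_int _ _).integral_prod_left ?_)
  · rw [mu, integral_fun_fst, integral_sub' ((pot_int ν ν').const_mul _) (integrable_const _),
      integral_const_mul, integral_const, measureReal_restrict_apply_univ, vol_cb _ hR,
      smul_eq_mul, smul_eq_mul, e1]
  filter_upwards [Measure.quasiMeasurePreserving_snd.ae
    (ae_restrict_mem (μ := (volume : Measure E4)) (s := closedBall 0 R) measurableSet_closedBall)]
    with z hz
  simp only [Pi.sub_apply]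
  rw [mu, integral_prod _ (inner_int ν' _ z), ← integral_const_mul, ← smul_eq_mul (ν'.real univ),
    ← integral_const, ← integral_sub ((kn_int _ _).const_mul _) (integrable_const _)]
  refine integral_mono (((kn_int _ _).const_mul _).sub (integrable_const _))
    (inner_int ν' _ z).integral_prod_left fun v => ?_
  dsimp only
  have i1 := (kap (z.1 - v)).1.comp_sub_left z.2
  have i2 := (half_int.comp_sub_left z.2).const_mul (exp (-(d / 2)))
  rw [← (kap _).2, ← integral_sub_left_eq_self _ volume z.2, Mh,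
    ← integral_sub_left_eq_self (fun y : E4 => exp (-(‖y‖ / 2))) volume z.2, ← integral_const_mul,
    ← integral_add_compl (s := closedBall (0 : E4) (R + d)) measurableSet_closedBall i1,
    add_sub_assoc]
  refine add_le_of_nonpos_right (sub_nonpos.2 ((setIntegral_mono_on i1.integrableOn
    i2.integrableOn measurableSet_closedBall.compl fun y hy => ?_).trans
    (setIntegral_le_integral i2 (Eventually.of_forall fun _ => by positivity))))
  rw [← exp_add, exp_le_exp]
  have h2 : ‖z.2 - y‖ ≤ √((z.1 - v) ^ 2 + ‖z.2 - y‖ ^ 2) :=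
    le_sqrt_of_sq_le (by nlinarith [sq_nonneg (z.1 - v)])
  rw [mem_compl_iff, mem_closedBall_zero_iff, not_le] at hy
  rw [mem_closedBall_zero_iff] at hz
  have := norm_sub_norm_le y z.2
  rw [norm_sub_rev] at this
  linarith

end Pool.Agent.H8.Mag
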