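import Mathlib
import Pool.Agent.H8.Mag3

/-! The lower bound for a slab, and the link with inverse matrices. -/

namespace Pool.Agent.H8.Mag
open MeasureTheory Set Filter Topology Metric Real

noncomputable def ta (x : ℝ) : ℝ := (x ^ 2 + 5 * x + 8) * exp (-x) / 16
noncomputable def sg (x : ℝ) : ℝ := (x ^ 2 + 7 * x + 15) * exp (-x) / 16

lemma kn_neg (w : ℝ) : kn (-w) = kn w := by simp [kn]

lemma int_kn {y : ℝ} (hy : 0 ≤ y) : ∫ x in (0 : ℝ)..y, kn x = 1 / 2 - ta y := by
  rw [intervalIntegral.integral_congr (g := fun x => (x ^ 2 + 3 * x + 3) * exp (-x) / 16)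
    (fun x hx => by rw [uIcc_of_le hy] at hx; simp only [kn, abs_of_nonneg hx.1]),
    intervalIntegral.integral_eq_sub_of_hasDerivAt (f := fun x => -ta x) (fun x _ => by
      have h := hasDerivAt_id' x
      exact ((((((h.pow 2).add (h.const_mul 5)).add_const 8).mul h.neg.exp).div_const
        16).neg).congr_deriv (by simp; ring)) (Continuous.intervalIntegrable (by fun_prop) _ _)]
  simp [ta]; ring

lemma int_ta (y : ℝ) : ∫ x in (0 : ℝ)..y, ta x = 15 / 16 - sg y := by
  rw [intervalIntegral.integral_eq_sub_of_hasDerivAt (f := fun x => -sg x) (fun x _ => by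
      have h := hasDerivAt_id' x
      exact ((((((h.pow 2).add (h.const_mul 7)).add_const 15).mul h.neg.exp).div_const
        16).neg).congr_deriv (by simp [ta]; ring))
      (Continuous.intervalIntegrable (by unfold ta; fun_prop) _ _)]
  simp [sg]; ring

lemma pot0 {u T : ℝ} (h0 : 0 ≤ u) (h1 : u ≤ T) :
    ∫ v in Icc 0 T, kn (u - v) = 1 - ta u - ta (T - u) := by
  rw [integral_Icc_eq_integral_Ioc, ← intervalIntegral.integral_of_le (h0.trans h1),
    intervalIntegral.integral_comp_sub_left kn, sub_zero,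
    ← intervalIntegral.integral_add_adjacent_intervals (b := 0)
      (kn_cont.intervalIntegrable _ _) (kn_cont.intervalIntegrable _ _), int_kn h0]
  have := intervalIntegral.integral_comp_neg (a := 0) (b := T - u) kn
  simp only [kn_neg, neg_sub, neg_zero] at this
  rw [← this, int_kn (by linarith)]; ring

lemma e00 {T : ℝ} (hT : 0 ≤ T) :
    e1 (volume.restrict (Icc 0 T)) (volume.restrict (Icc 0 T)) = T - 15 / 8 + 2 * sg T := by
  have hc : Continuous ta := by unfold ta; fun_prop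
  rw [e1, setIntegral_congr_fun measurableSet_Icc fun u hu => pot0 hu.1 hu.2,
    integral_Icc_eq_integral_Ioc, ← intervalIntegral.integral_of_le hT,
    intervalIntegral.integral_sub, intervalIntegral.integral_sub,
    intervalIntegral.integral_comp_sub_left ta, sub_self, sub_zero, int_ta]
  · simp; ring
  all_goals exact Continuous.intervalIntegrable (by fun_prop) _ _

lemma int_dd (f : ℝ → ℝ) (a b : ℝ) : ∫ u, f u ∂(Measure.dirac a + Measure.dirac b) = f a + f b := by
  rw [integral_add_measure (integrable_dirac (by simp)) (integrable_dirac (by simp)),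
    integral_dirac, integral_dirac]

lemma exp_q : 0.7786 ≤ exp (-(1 / 4)) := by
  refine (pow_le_pow_iff_left₀ (by norm_num) (exp_pos _).le (show 4 ≠ 0 by norm_num)).1 ?_
  rw [← exp_nat_mul]
  have := Real.exp_neg_one_gt_d9
  norm_num at this ⊢; linarith

lemma mu_univ (ν : Measure ℝ) [IsFiniteMeasure ν] {R : ℝ} (hR : 0 ≤ R) :
    (mu ν R).real univ = ν.real univ * (R ^ 4 * om) := by
  rw [mu, ← univ_prod_univ, measureReal_prod_prod, measureReal_restrict_apply_univ, vol_cb _ hR]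

lemma slab {a T t M : ℝ} (hT : 1 ≤ T) (ht : 0 < t) (s1 : sg T ≤ 1e-5) (s2 : kn T ≤ 1e-5)
    (s3 : kn (T - 1 / 2) ≤ 1e-5) (s4 : ta (T - 1 / 4) ≤ 1e-5)
    (s5 : T * (exp (-(t / 10000 / 2)) * Mh) / (128 * om) ≤ 1e-5)
    (hM : Bd (Cyl a (a + T) t) M) : t ^ 4 * (T + 5.35) / 128 ≤ M := by
  have hom := om_pos
  let ν0 : Measure ℝ := volume.restrict (Icc 0 T)
  let ν1 : Measure ℝ := Measure.dirac 0 + Measure.dirac T
  let ν2 : Measure ℝ := Measure.dirac (1 / 4) + Measure.dirac (T - 1 / 4)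
  haveI : IsFiniteMeasure ν0 := isFiniteMeasure_restrict.2 measure_Icc_lt_top.ne
  set R := t - t / 10000 with hR
  have hR0 : 0 ≤ R := by linarith
  let f : ℝ × E4 → V := fun z => WithLp.toLp 2 (a + z.1, z.2)
  have hf : ∀ z w, exp (-dist (f z) (f w)) = kk z w := fun z w => by
    rw [WithLp.prod_dist_eq_of_L2]
    simp only [f, kk, WithLp.toLp_fst, WithLp.toLp_snd, Real.dist_eq, sq_abs, dist_eq_norm,
      Real.norm_eq_abs, add_sub_add_left_eq_sub]
  have hae : ∀ (ν : Measure ℝ) [IsFiniteMeasure ν] (r : ℝ), r ≤ t → (∀ᵐ u ∂ν, u ∈ Icc 0 T) →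
      ∀ᵐ z ∂mu ν r, f z ∈ Cyl a (a + T) t := fun ν _ r hr h => by
    filter_upwards [Measure.quasiMeasurePreserving_fst.ae h, Measure.quasiMeasurePreserving_snd.ae
      (ae_restrict_mem (μ := (volume : Measure E4)) (s := closedBall 0 r)
        measurableSet_closedBall)] with z h1 h2
    exact ⟨le_add_of_nonneg_right h1.1, add_le_add_right h1.2 _,
      (mem_closedBall_zero_iff.1 h2).trans hr⟩
  have hdd : ∀ p q, p ∈ Icc 0 T → q ∈ Icc 0 T →
      ∀ᵐ u ∂(Measure.dirac p + Measure.dirac q), u ∈ Icc 0 T := fun p q hp hq => by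
    rw [ae_add_measure_iff]; simp only [ae_dirac_eq, eventually_pure]; exact ⟨hp, hq⟩
  set c := (128 * om)⁻¹ with hc
  have hc0 : 0 < c := by positivity
  have hc1 : c * (128 * om) = 1 := inv_mul_cancel₀ (by positivity)
  have := @lower_gen _ _ _ _ hM (f (0, 0)) ⟨by simp [f], by simp [f]; linarith, by simp [f, ht.le]⟩
    f (by fun_prop) 3 ![mu ν0 t, mu ν1 t, mu ν2 R]
    (fun j => by fin_cases j <;> simp <;> infer_instance) ![c, c * 13, -(c * 10.5)] (fun j => by
      fin_cases j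
      · exact hae ν0 t le_rfl (ae_restrict_mem measurableSet_Icc)
      · exact hae ν1 t le_rfl (hdd _ _ ⟨le_rfl, by linarith⟩ ⟨by linarith, le_rfl⟩)
      · exact hae ν2 R (by linarith) (hdd _ _ ⟨by linarith, by linarith⟩
          ⟨by linarith, by linarith⟩))
  simp only [hf, Fin.sum_univ_three, Matrix.cons_val_zero, Matrix.cons_val_one,
    Matrix.cons_val] at this
  change 2 * _ - (_ * En _ _ + _ * En _ _ + _ * En _ _ + (_ * En _ _ + _ * En _ _ + _ * En _ _) +
    (_ * En _ _ + _ * En _ _ + _ * En _ _)) ≤ M at this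
  have m0 : ν0.real univ = T := by
    simp only [ν0, measureReal_restrict_apply_univ]; rw [Real.volume_real_Icc_of_le (by linarith)]
    ring
  have m1 : ν1.real univ = 2 := by simp [ν1, Measure.real]; norm_num
  have m2 : ν2.real univ = 2 := by simp [ν2, Measure.real]; norm_num
  rw [mu_univ _ ht.le, mu_univ _ ht.le, mu_univ _ hR0, m0, m1, m2, En_comm (mu ν0 t) (mu ν1 t),
    En_comm (mu ν0 t) (mu ν2 R), En_comm (mu ν1 t) (mu ν2 R)] at this
  have b00 := En_le ν0 ν0 ht.le t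
  have b10 := En_le ν1 ν0 ht.le t
  have b11 := En_le ν1 ν1 ht.le t
  have b22 := En_le ν2 ν2 hR0 R
  have b20 := En_ge ν2 ν0 (d := t / 10000) hR0
  have b21 := En_ge ν2 ν1 (d := t / 10000) hR0
  rw [show R + t / 10000 = t by rw [hR]; ring, m2] at b20 b21
  rw [m0] at b20; rw [m1] at b21
  have k0 : kn 0 = 3 / 16 := by simp [kn]
  have t0 : ta 0 = 1 / 2 := by simp [ta]; norm_num
  have hq := exp_q
  have tT : 0 ≤ ta T := by unfold ta; positivity
  have kT : 0 ≤ kn (T - 1 / 4) := by unfold kn; positivity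
  have v00 : e1 ν0 ν0 ≤ T - 15 / 8 + 2e-5 := by rw [e00 (by linarith)]; linarith
  have v10 : e1 ν1 ν0 ≤ 1 := by
    rw [e1, int_dd, pot0 le_rfl (by linarith), pot0 (by linarith) le_rfl, sub_zero, sub_self, t0]
    linarith
  have v11 : e1 ν1 ν1 ≤ 3 / 8 + 2e-5 := by
    rw [e1, int_dd, int_dd, int_dd, sub_self, sub_self, zero_sub, sub_zero, kn_neg, k0]; linarith
  have v22 : e1 ν2 ν2 ≤ 3 / 8 + 2e-5 := by
    rw [e1, int_dd, int_dd, int_dd, sub_self, sub_self, k0, ← kn_neg (1 / 4 - _),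
      show -(1 / 4 - (T - 1 / 4)) = T - 1 / 2 by ring,
      show T - 1 / 4 - 1 / 4 = T - 1 / 2 by ring]; linarith
  have v20 : 2 - 149 / 128 * exp (-(1 / 4)) - 2e-5 ≤ e1 ν2 ν0 := by
    rw [e1, int_dd, pot0 (by norm_num) (by linarith), pot0 (by linarith) (by linarith),
      sub_sub_cancel, show ta (1 / 4) = 149 / 256 * exp (-(1 / 4)) by unfold ta; ring]
    linarith
  have v21 : 61 / 128 * exp (-(1 / 4)) ≤ e1 ν2 ν1 := by
    rw [e1, int_dd, int_dd, int_dd, sub_zero, sub_zero, ← kn_neg (1 / 4 - T), neg_sub,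
      show T - 1 / 4 - T = -(1 / 4) by ring, kn_neg,
      show kn (1 / 4) = 61 / 256 * exp (-(1 / 4)) by
        unfold kn; rw [abs_of_pos (by norm_num)]; ring]
    linarith
  have hMh : 0 ≤ Mh := integral_nonneg fun _ => (exp_pos _).le
  set τ := exp (-(t / 10000 / 2)) * Mh with hτ
  have hτ0 : 0 ≤ τ := by positivity
  rw [div_eq_mul_inv, ← hc] at s5
  have s6 : τ * c ≤ 1e-5 := by nlinarith [mul_nonneg hτ0 hc0.le]
  set β := t ^ 4 / 128 with hβ
  set γ := R ^ 4 / 128 with hγ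
  have hβ0 : 0 < β := by positivity
  have hγ0 : 0 ≤ γ := by positivity
  have g1 : γ ≤ β := by
    have := pow_le_pow_left₀ hR0 (show R ≤ t by linarith) 4
    linarith
  have g2 : 0.9996 * β ≤ γ := by
    rw [hβ, hγ, show R = 0.9999 * t by rw [hR]; ring, mul_pow]
    nlinarith [pow_pos ht 4]
  have c1 : c * (t ^ 4 * om) = β := by rw [hc, hβ]; field_simp
  have c2 : c * (R ^ 4 * om) = γ := by rw [hc, hγ]; field_simp
  have up : ∀ {E e v r g : ℝ}, E ≤ r * (128 * om * e) → c * r = g → 0 ≤ g → e ≤ v →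
      c * c * E ≤ g * v := fun {E e v r g} h1 h2 h3 h4 => by
    have := mul_le_mul_of_nonneg_left h1 (mul_nonneg hc0.le hc0.le)
    have e' : c * c * (r * (128 * om * e)) = g * e := by
      rw [← h2]; linear_combination (c * r * e) * hc1
    nlinarith [mul_le_mul_of_nonneg_left h4 h3]
  have lo : ∀ {E e v x y : ℝ}, R ^ 4 * om * (128 * om * e - x) ≤ E → v ≤ e → x * c ≤ y →
      γ * (v - y) ≤ c * c * E := fun {E e v x y} h1 h4 h5 => by
    have := mul_le_mul_of_nonneg_left h1 (mul_nonneg hc0.le hc0.le)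
    have e' : c * c * (R ^ 4 * om * (128 * om * e - x)) = γ * (e - x * c) := by
      rw [← c2]; linear_combination (c * (R ^ 4 * om) * e) * hc1
    nlinarith [mul_le_mul_of_nonneg_left (show v - y ≤ e - x * c by linarith) hγ0]
  have u00 := up b00 c1 hβ0.le v00
  have u10 := up b10 c1 hβ0.le v10
  have u11 := up b11 c1 hβ0.le v11
  have u22 := up b22 c2 hγ0 v22
  have l20 := lo (y := 2e-5) b20 v20 (by linarith)
  have l21 := lo (y := 4e-5) b21 v21 (by linarith)
  have hq2 := mul_le_mul_of_nonneg_left hq hγ0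
  have c3 : c * (T * (t ^ 4 * om)) = T * β := by rw [← c1]; ring
  have e : t ^ 4 * (T + 5.35) / 128 = T * β + 5.35 * β := by rw [hβ]; ring
  rw [e]
  nlinarith

lemma mat {ι : Type} [Fintype ι] [DecidableEq ι] (x : ι → V) (hx : Function.Injective x) :
    (∀ w, Jf x w ≤ ∑ i, ∑ j, (Matrix.of fun i j => exp (-dist (x i) (x j)))⁻¹ i j) ∧
    ∃ w, Jf x w = ∑ i, ∑ j, (Matrix.of fun i j => exp (-dist (x i) (x j)))⁻¹ i j := by
  set Z : Matrix ι ι ℝ := Matrix.of fun i j => exp (-dist (x i) (x j)) with hZ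
  have hq : ∀ w : ι → ℝ, ∑ i, ∑ j, w i * w j * exp (-dist (x i) (x j)) = w ⬝ᵥ Z.mulVec w :=
    fun w => by
      simp only [dotProduct, Matrix.mulVec, hZ, Matrix.of_apply, Finset.mul_sum]
      exact Finset.sum_congr rfl fun _ _ => Finset.sum_congr rfl fun _ _ => by ring
  have hu : IsUnit Z.det := by
    rw [← Matrix.isUnit_iff_isUnit_det, ← Matrix.mulVec_injective_iff_isUnit]
    intro a b hab
    by_contra h
    have := pd x hx (a - b) (sub_ne_zero.2 h)
    rw [hq, Matrix.mulVec_sub, hab, sub_self, dotProduct_zero] at this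
    exact lt_irrefl _ this
  let w0 : ι → ℝ := Z⁻¹.mulVec 1
  have h1 : Z.mulVec w0 = 1 := by
    rw [Matrix.mulVec_mulVec, Matrix.mul_nonsing_inv _ hu, Matrix.one_mulVec]
  have h2 : ∑ i, ∑ j, Z⁻¹ i j = ∑ i, w0 i := by simp [w0, Matrix.mulVec, dotProduct]
  have h3 : ∀ w : ι → ℝ, w ⬝ᵥ 1 = ∑ i, w i := fun w => by simp [dotProduct]
  have hs : Z.transpose = Z := by ext i j; simp [hZ, dist_comm]
  refine ⟨fun w => ?_, w0, by rw [Jf, hq, h1, h2, h3]; ring⟩
  have h4 : 0 ≤ (w - w0) ⬝ᵥ Z.mulVec (w - w0) := by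
    by_cases h : w - w0 = 0
    · simp [h]
    · rw [← hq]; exact (pd x hx _ h).le
  have h5 : w0 ⬝ᵥ Z.mulVec w = ∑ i, w i := by
    rw [Matrix.dotProduct_mulVec, ← Matrix.mulVec_transpose, hs, h1, dotProduct_comm, h3]
  rw [Matrix.mulVec_sub, sub_dotProduct, dotProduct_sub, dotProduct_sub, h1, h5, h3, h3] at h4
  rw [Jf, hq, h2]; linarith

end Pool.Agent.H8.Mag
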