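import Mathlib

/-! Monotone selection in Boolean algebras generated by a chain. -/

namespace Pool.Agent.H8.Msel

variable {T : Type*} [BooleanAlgebra T] {C : Set T}

def Lo (C : Set T) (e x : T) : Prop := ∃ c ∈ C, c < e ∧ e \ c ≤ x
def Ro (C : Set T) (e x : T) : Prop := ∃ c ∈ C, e < c ∧ c \ e ≤ x

def PP (C : Set T) (x : T) (F : Finset T) : Prop :=
  ↑F ⊆ C ∧ ∀ c ∈ C, ∀ c' ∈ C, c < c' → (∀ f ∈ F, ¬ (c < f ∧ f < c')) → c' \ c ≤ x ∨ c' \ c ≤ xᶜ

structure Good (C : Set T) : Prop where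
  ch : IsChain (· ≤ ·) C
  bot : ⊥ ∈ C
  top : ⊤ ∈ C
  gen : BooleanSubalgebra.closure C = ⊤

lemma Good.tri (h : Good C) {a b : T} (ha : a ∈ C) (hb : b ∈ C) : a ≤ b ∨ b ≤ a :=
  h.ch.total ha hb

lemma Good.pp (h : Good C) (x : T) : ∃ F, PP C x F := by
  classical
  have hx : x ∈ BooleanSubalgebra.closure C := by rw [h.gen]; trivial
  induction hx using BooleanSubalgebra.closure_bot_sup_induction with
  | mem g hg =>
    refine ⟨{g}, by simpa using hg, fun c hc c' hc' _ hf => ?_⟩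
    have := hf g (by simp)
    rcases h.tri hg hc with h1 | h1
    · right
      exact (sdiff_le_sdiff_left h1).trans (by rw [sdiff_eq]; exact inf_le_right)
    · rcases h.tri hc' hg with h2 | h2
      · exact Or.inl (sdiff_le.trans h2)
      · rcases h1.eq_or_lt with e | e
        · right; rw [e, sdiff_eq]; exact inf_le_right
        · rcases h2.eq_or_lt with e' | e'
          · exact Or.inl (e' ▸ sdiff_le)
          · exact absurd ⟨e, e'⟩ this
  | bot => exact ⟨∅, by simp, fun _ _ _ _ _ _ => Or.inr (by simp)⟩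
  | sup x _ y _ hx hy =>
    obtain ⟨F, hF, hF'⟩ := hx
    obtain ⟨G, hG, hG'⟩ := hy
    refine ⟨F ∪ G, by simp [hF, hG], fun c hc c' hc' hl hf => ?_⟩
    rcases hF' c hc c' hc' hl fun f h => hf f (by simp [h]) with h1 | h1
    · exact Or.inl (h1.trans le_sup_left)
    · rcases hG' c hc c' hc' hl fun f h => hf f (by simp [h]) with h2 | h2
      · exact Or.inl (h2.trans le_sup_right)
      · right; rw [compl_sup]; exact le_inf h1 h2
  | compl x _ hx =>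
    obtain ⟨F, hF, hF'⟩ := hx
    exact ⟨F, hF, fun c hc c' hc' hl hf => by rw [compl_compl]; exact (hF' c hc c' hc' hl hf).symm⟩

lemma Good.below (h : Good C) {F : Finset T} (hF : ↑F ⊆ C) {e : T} (he : e ≠ ⊥) :
    ∃ c ∈ C, c < e ∧ (c = ⊥ ∨ c ∈ F) ∧ ∀ f ∈ F, ¬ (c < f ∧ f < e) := by
  classical
  obtain ⟨c, hc⟩ := (insert ⊥ (F.filter (· < e))).exists_maximal (Finset.insert_nonempty _ _)
  have h1 := hc.1
  simp only [Finset.mem_insert, Finset.mem_filter] at h1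
  refine ⟨c, ?_, ?_, h1.imp_right And.left, fun f hf hf' => ?_⟩
  · rcases h1 with e | e
    · exact e ▸ h.bot
    · exact hF e.1
  · rcases h1 with e | e
    · exact e ▸ bot_lt_iff_ne_bot.2 he
    · exact e.2
  · exact hf'.1.not_ge (hc.2 (by simp [hf, hf'.2]) hf'.1.le)

lemma Good.above (h : Good C) {F : Finset T} (hF : ↑F ⊆ C) {e : T} (he : e ≠ ⊤) :
    ∃ c ∈ C, e < c ∧ ∀ f ∈ F, ¬ (e < f ∧ f < c) := by
  classical
  obtain ⟨c, hc⟩ := (insert ⊤ (F.filter (e < ·))).exists_minimal (Finset.insert_nonempty _ _)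
  have h1 := hc.1
  simp only [Finset.mem_insert, Finset.mem_filter] at h1
  refine ⟨c, ?_, ?_, fun f hf hf' => ?_⟩
  · rcases h1 with e | e
    · exact e ▸ h.top
    · exact hF e.1
  · rcases h1 with e | e
    · exact e ▸ lt_top_iff_ne_top.2 he
    · exact e.2
  · exact hf'.2.not_ge (hc.2 (by simp [hf, hf'.1]) hf'.2.le)

/-- an ultrafilter, as a predicate -/
structure Ult (U : T → Prop) : Prop where
  inf : ∀ x y, U (x ⊓ y) ↔ U x ∧ U y
  compl : ∀ x, U xᶜ ↔ ¬ U x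

lemma Ult.sup {U : T → Prop} (h : Ult U) (x y : T) : U (x ⊔ y) ↔ U x ∨ U y := by
  rw [← compl_compl (x ⊔ y), h.compl, compl_sup, h.inf, h.compl, h.compl]; tauto

lemma Ult.mk' {U : T → Prop} (h1 : ∀ x y, x ≤ y → U x → U y) (h2 : ∀ x y, U x → U y → U (x ⊓ y))
    (h3 : ¬ U ⊥) (h4 : ∀ x, U x ∨ U xᶜ) : Ult U :=
  ⟨fun x y => ⟨fun h => ⟨h1 _ _ inf_le_left h, h1 _ _ inf_le_right h⟩, fun h => h2 _ _ h.1 h.2⟩,
    fun x => ⟨fun h h' => h3 (by simpa using h2 _ _ h' h), fun h => (h4 x).resolve_left h⟩⟩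

lemma Lo_bot (e : T) : ¬ Lo C e ⊥ := fun ⟨_, _, h1, h2⟩ =>
  h1.not_ge (sdiff_eq_bot_iff.1 (le_bot_iff.1 h2))

lemma Ro_bot (e : T) : ¬ Ro C e ⊥ := fun ⟨_, _, h1, h2⟩ =>
  h1.not_ge (sdiff_eq_bot_iff.1 (le_bot_iff.1 h2))

lemma Good.ultL (h : Good C) {e : T} (he : e ∈ C) (h0 : e ≠ ⊥) : Ult (Lo C e) := by
  refine Ult.mk' (fun x y hxy ⟨c, h1, h2, h3⟩ => ⟨c, h1, h2, h3.trans hxy⟩) ?_ (Lo_bot e) fun x => ?_
  · rintro x y ⟨c, h1, h2, h3⟩ ⟨c', h4, h5, h6⟩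
    rcases h.tri h1 h4 with h7 | h7
    · exact ⟨c', h4, h5, le_inf ((sdiff_le_sdiff_left h7).trans h3) h6⟩
    · exact ⟨c, h1, h2, le_inf h3 ((sdiff_le_sdiff_left h7).trans h6)⟩
  · obtain ⟨F, hF, hF'⟩ := h.pp x
    obtain ⟨c, h1, h2, -, h3⟩ := h.below hF h0
    exact (hF' c h1 e he h2 h3).imp (fun h => ⟨c, h1, h2, h⟩) (fun h => ⟨c, h1, h2, h⟩)

lemma Good.ultR (h : Good C) {e : T} (he : e ∈ C) (h0 : e ≠ ⊤) : Ult (Ro C e) := by
  refine Ult.mk' (fun x y hxy ⟨c, h1, h2, h3⟩ => ⟨c, h1, h2, h3.trans hxy⟩) ?_ (Ro_bot e) fun x => ?_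
  · rintro x y ⟨c, h1, h2, h3⟩ ⟨c', h4, h5, h6⟩
    rcases h.tri h1 h4 with h7 | h7
    · exact ⟨c, h1, h2, le_inf h3 ((sdiff_le_sdiff_right h7).trans h6)⟩
    · exact ⟨c', h4, h5, le_inf ((sdiff_le_sdiff_right h7).trans h3) h6⟩
  · obtain ⟨F, hF, hF'⟩ := h.pp x
    obtain ⟨c, h1, h2, h3⟩ := h.above hF h0
    exact (hF' e he c h1 h2 h3).imp (fun h => ⟨c, h1, h2, h⟩) (fun h => ⟨c, h1, h2, h⟩)

/-- the boundary of `x` -/
def bd (C : Set T) (x : T) : Set T := {e | e ∈ C ∧ e ≠ ⊥ ∧ e ≠ ⊤ ∧ ¬ (Lo C e x ↔ Ro C e x)}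

lemma Good.bd_fin (h : Good C) (x : T) : (bd C x).Finite := by
  obtain ⟨F, hF, hF'⟩ := h.pp x
  refine F.finite_toSet.subset fun e ⟨he, h0, h1, h2⟩ => ?_
  by_contra hn
  obtain ⟨c, c1, c2, -, c3⟩ := h.below hF h0
  obtain ⟨d, d1, d2, d3⟩ := h.above hF h1
  have := hF' c c1 d d1 (c2.trans d2) fun f hf hf' => by
    have : f ≠ e := fun e' => hn (e' ▸ hf)
    rcases h.tri (hF hf) he with h3 | h3
    · exact c3 f hf ⟨hf'.1, lt_of_le_of_ne h3 this⟩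
    · exact d3 f hf ⟨lt_of_le_of_ne h3 this.symm, hf'.2⟩
  have a1 : e \ c ≤ d \ c := sdiff_le_sdiff_right d2.le
  have a2 : d \ e ≤ d \ c := sdiff_le_sdiff_left c2.le
  rcases this with h3 | h3
  · exact h2 (iff_of_true ⟨c, c1, c2, a1.trans h3⟩ ⟨d, d1, d2, a2.trans h3⟩)
  · exact h2 (iff_of_false (((h.ultL he h0).compl x).1 ⟨c, c1, c2, a1.trans h3⟩)
      (((h.ultR he h1).compl x).1 ⟨d, d1, d2, a2.trans h3⟩))

lemma Good.le_of (h : Good C) {z : T} (hz : ∀ e, e ∉ bd C z) {F : Finset T} (hF : PP C z F) :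
    ∀ e ∈ C, Lo C e z → e ≤ z := by
  classical
  intro e
  induction hk : (F.filter (· < e)).card using Nat.strong_induction_on generalizing e with
  | _ k ih =>
    intro he hl
    have h0 : e ≠ ⊥ := fun e' => by obtain ⟨c, -, h1, -⟩ := hl; simp [e'] at h1
    obtain ⟨c, c1, c2, c3, c4⟩ := h.below hF.1 h0
    have h1 : e \ c ≤ z := (hF.2 c c1 e he c2 c4).resolve_right fun h2 =>
      ((h.ultL he h0).compl z).1 ⟨c, c1, c2, h2⟩ hl
    by_cases c0 : c = ⊥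
    · simpa [c0] using h1
    · have h2 : Lo C c z := by
        by_contra hn
        exact hz c ⟨c1, c0, c2.ne_top, fun hi => hn (hi.2 ⟨e, he, c2, h1⟩)⟩
      have h3 : c ≤ z := by
        refine ih _ ?_ c rfl c1 h2
        rw [← hk]
        refine Finset.card_lt_card ⟨fun f hf => ?_, fun hs => ?_⟩
        · simp only [Finset.mem_filter] at hf ⊢
          exact ⟨hf.1, hf.2.trans c2⟩
        · have := hs (Finset.mem_filter.2 ⟨c3.resolve_left c0, c2⟩)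
          simp at this
      calc e ≤ c ⊔ e \ c := le_sup_sdiff
        _ ≤ z := sup_le h3 h1

lemma Good.triv (h : Good C) {z : T} (hz : ∀ e, e ∉ bd C z) : z = ⊥ ∨ z = ⊤ := by
  by_cases h0 : (⊤ : T) = ⊥
  · exact Or.inl (le_bot_iff.1 (h0 ▸ le_top))
  obtain ⟨F, hF⟩ := h.pp z
  by_cases h1 : Lo C ⊤ z
  · exact Or.inr (top_le_iff.1 (h.le_of hz hF ⊤ h.top h1))
  · left
    have hz' : ∀ e, e ∉ bd C zᶜ := fun e ⟨a, b, c, d⟩ => hz e ⟨a, b, c, fun hi => d (by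
      rw [(h.ultL a b).compl, (h.ultR a c).compl, hi])⟩
    have hF' : PP C zᶜ F := ⟨hF.1, fun c hc c' hc' hl hf => by
      rw [compl_compl]; exact (hF.2 c hc c' hc' hl hf).symm⟩
    have := h.le_of hz' hF' ⊤ h.top (((h.ultL h.top h0).compl z).2 h1)
    simpa using this

open Classical in
noncomputable def cost (h : Good C) (x : T) : T →₀ ℕ :=
  Finsupp.ofSupportFinite (fun e => if e ∈ bd C x then 1 else 0)
    ((h.bd_fin x).subset fun e he => by by_contra hn; simp [hn] at he)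

open Classical in
lemma cost_apply (h : Good C) (x e : T) : cost h x e = if e ∈ bd C x then 1 else 0 := rfl

lemma cost_sub (h : Good C) (x y : T) : cost h (x ⊓ y) + cost h (x ⊔ y) ≤ cost h x + cost h y := by
  intro e
  simp only [Finsupp.coe_add, Pi.add_apply, cost_apply]
  by_cases he : e ∈ C ∧ e ≠ ⊥ ∧ e ≠ ⊤
  · obtain ⟨a, b, c⟩ := he
    have m : ∀ z, e ∈ bd C z ↔ ¬ (Lo C e z ↔ Ro C e z) := fun z =>
      ⟨fun h => h.2.2.2, fun h => ⟨a, b, c, h⟩⟩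
    by_cases h1 : Lo C e x <;> by_cases h2 : Lo C e y <;> by_cases h3 : Ro C e x <;>
      by_cases h4 : Ro C e y <;> simp [m, (h.ultL a b).inf, (h.ultL a b).sup, (h.ultR a c).inf,
        (h.ultR a c).sup, h1, h2, h3, h4]
  · have : ∀ z, e ∉ bd C z := fun z hz => he ⟨hz.1, hz.2.1, hz.2.2.1⟩
    simp [this]

lemma cost_eq (h : Good C) {x y : T} (e : cost h x = cost h y) : x = y ∨ x = yᶜ := by
  have : ∀ t, t ∉ bd C (symmDiff x y) := by
    rintro t ⟨a, b, c, d⟩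
    have e1 := DFunLike.congr_fun e t
    have m : ∀ z, t ∈ bd C z ↔ ¬ (Lo C t z ↔ Ro C t z) := fun z =>
      ⟨fun h => h.2.2.2, fun h => ⟨a, b, c, h⟩⟩
    rw [cost_apply, cost_apply] at e1
    rw [symmDiff_eq] at d
    simp only [(h.ultL a b).inf, (h.ultL a b).sup, (h.ultR a c).inf, (h.ultR a c).sup,
      (h.ultL a b).compl, (h.ultR a c).compl] at d
    by_cases h1 : Lo C t x <;> by_cases h2 : Lo C t y <;> by_cases h3 : Ro C t x <;>
      by_cases h4 : Ro C t y <;> simp [m, h1, h2, h3, h4] at e1 d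
  rcases h.triv this with h1 | h1
  · exact Or.inl (symmDiff_eq_bot.1 h1)
  · exact Or.inr ((symmDiff_eq_top _ _).1 h1).eq_compl

lemma cost_bot (h : Good C) : cost h ⊥ = 0 := by
  ext e
  simp [cost_apply, bd, Lo_bot, Ro_bot]

universe u in
lemma exists_mo (σ : Type u) : Nonempty (MonomialOrder.{u, u} σ) := by
  obtain ⟨_, _⟩ := exists_wellFoundedGT (α := σ)
  exact ⟨MonomialOrder.lex⟩

theorem Good.main (h : Good C) : ∃ φ : {S : Set T // S.Nonempty} → T, (∀ S, φ S ∈ S.1) ∧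
    ∀ S S', (∀ x ∈ S.1, ∀ x' ∈ S'.1, x ⊓ x' ∈ S.1 ∧ x ⊔ x' ∈ S'.1) → φ S ≤ φ S' := by
  classical
  obtain ⟨m⟩ := exists_mo T
  have : ∀ S : {S : Set T // S.Nonempty}, ∃ x ∈ S.1,
      (∀ y ∈ S.1, m.toSyn (cost h x) ≤ m.toSyn (cost h y)) ∧ (⊥ ∈ S.1 → x = ⊥) := by
    intro S
    by_cases hb : ⊥ ∈ S.1
    · exact ⟨⊥, hb, fun y _ => m.toSyn_monotone (by rw [cost_bot]; exact zero_le), fun _ => rfl⟩
    · exact ⟨Function.argminOn (fun x => m.toSyn (cost h x)) S.1 S.2, Function.argminOn_mem _ _ _,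
        fun y hy => Function.argminOn_le (fun x => m.toSyn (cost h x)) S.1 hy, fun h => absurd h hb⟩
  choose φ h1 h2 h3 using this
  refine ⟨φ, h1, fun S S' hS => ?_⟩
  obtain ⟨a, b⟩ := hS _ (h1 S) _ (h1 S')
  have a1 := h2 S _ a
  have a2 := h2 S' _ b
  have a3 := m.toSyn_monotone (cost_sub h (φ S) (φ S'))
  rw [map_add, map_add] at a3
  have a4 : m.toSyn (cost h (φ S ⊓ φ S')) + m.toSyn (cost h (φ S')) =
      m.toSyn (cost h (φ S)) + m.toSyn (cost h (φ S')) :=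
    le_antisymm ((add_le_add le_rfl a2).trans a3) (add_le_add a1 le_rfl)
  rw [← map_add, ← map_add] at a4
  rcases cost_eq h (add_right_cancel (m.toSyn.injective a4)) with e | e
  · exact inf_eq_left.1 e
  · have e1 : (φ S)ᶜ = ⊥ := by
      have : (φ S)ᶜ ≤ φ S := e ▸ inf_le_left
      simpa using le_inf this le_rfl
    rw [e, e1] at a
    rw [h3 S a]
    exact bot_le

theorem main (hC : IsChain (· ≤ ·) C) (hg : BooleanSubalgebra.closure C = ⊤) :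
    ∃ φ : {S : Set T // S.Nonempty} → T, (∀ S, φ S ∈ S.1) ∧
    ∀ S S', (∀ x ∈ S.1, ∀ x' ∈ S'.1, x ⊓ x' ∈ S.1 ∧ x ⊔ x' ∈ S'.1) → φ S ≤ φ S' := by
  refine Good.main (C := insert ⊥ (insert ⊤ C)) ⟨?_, by simp, by simp, ?_⟩
  · exact (hC.insert fun b _ _ => Or.inr le_top).insert fun b _ _ => Or.inl bot_le
  · rw [eq_top_iff, ← hg]
    exact BooleanSubalgebra.closure_mono fun x hx => by simp [hx]

end Pool.Agent.H8.Msel
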