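import Pool.Agent.H8.Du1

namespace Pool.Agent.H8.Nc

open List

def M (α β : ℤ) : List Bool → ℕ → Bool → ℤ
  | [], h, _ => if h = 0 then 1 else 0
  | c :: cs, h, fl => α * M α β cs h (fl && !c) + (if h = 0 then 0 else β * M α β cs h (fl && !c))
      + β * M α β cs (h + 1) (!c) + (if h = 0 ∨ fl then 0 else α * M α β cs (h - 1) false)

def ge : List Bool → ℤ × ℤ
  | [] => (1, 0)
  | c :: cs => if c then (0, 2 * (ge cs).1) else (-(ge cs).2, 3 * (ge cs).2 + 2 * (ge cs).1)

def Rel (γ : ℤ) (u w : ℕ → ℤ) : Prop :=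
  (∀ h, 2 * u h + u (h + 1) = 2 ^ (h + 1) * (w h + 2 * w (h + 1))) ∧ u 0 - 2 * w 0 = -γ

lemma rel : ∀ cs : List Bool, Rel (ge cs).1 (M 2 1 cs · false) (M 1 2 cs · false) ∧
    Rel (ge cs).2 (fun h => M 2 1 cs (h + 1) false - M 2 1 cs (h + 1) true)
      (fun h => 2 * (M 1 2 cs (h + 1) false - M 1 2 cs (h + 1) true))
  | [] => by
    refine ⟨⟨fun h => ?_, by simp [M, ge]⟩, fun h => by simp [M], by simp [M, ge]⟩
    cases h <;> simp [M]
  | c :: cs => by
    obtain ⟨⟨a1, a2⟩, b1, b2⟩ := rel cs
    simp only at a1 a2 b1 b2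
    have a0 := a1 0
    cases c
    · refine ⟨⟨fun h => ?_, ?_⟩, fun h => ?_, ?_⟩
      · cases h with
        | zero => simp [M]; linear_combination 3 * a1 0 + a1 1 - b1 0
        | succ h =>
          simp [M]; linear_combination 2 * a1 h + 3 * a1 (h + 1) + a1 (h + 2) - b1 (h + 1)
      · simp [M, ge]; linear_combination a1 0 - b2
      · simp [M]; linear_combination 3 * b1 h + 2 * a1 h
      · simp [M, ge]; linear_combination 3 * b2 + 2 * a2
    · refine ⟨⟨fun h => ?_, ?_⟩, fun h => ?_, ?_⟩
      · cases h with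
        | zero => simp [M]; linear_combination 3 * a1 0 + a1 1
        | succ h => simp [M]; linear_combination 2 * a1 h + 3 * a1 (h + 1) + a1 (h + 2)
      · simp [M, ge]; linear_combination a1 0
      · simp [M]; linear_combination 2 * a1 h
      · simp [M, ge]; linear_combination 2 * a2

lemma ge_ne : ∀ cs : List Bool, cs.getLast? = some true → List.IsChain (fun a b : Bool => ¬ (a ∧ b)) cs →
    0 < ((ge cs).2 + 2 * (ge cs).1) * (ge cs).2 ∧ (cs.head? = some false → (ge cs).1 ≠ 0)
  | [], h, _ => by simp at h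
  | [c], h, _ => by simp at h; simp [h, ge]
  | c :: d :: cs, h, h' => by
    rw [isChain_cons_cons] at h'
    obtain ⟨a, b⟩ := ge_ne (d :: cs) (by simpa using h) h'.2
    rw [ge]
    generalize ge (d :: cs) = p at *
    cases c
    · refine ⟨by simp; nlinarith [sq_nonneg (p.2 + 2 * p.1)], fun _ => ?_⟩
      simp; rintro e; simp [e] at a
    · have := b (by simpa using h'.1)
      exact ⟨by simp; positivity, by simp⟩

lemma M_ne {cs : List Bool} (h1 : cs.getLast? = some true)
    (h2 : List.IsChain (fun a b : Bool => ¬ (a ∧ b)) cs) (h3 : cs.head? = some false) :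
    M 2 1 cs 0 false ≠ 2 * M 1 2 cs 0 false := fun e => by
  have := (rel cs).1.2
  exact (ge_ne cs h1 h2).2 h3 (by simp only at this; omega)

def RG : ℕ → List ℕ → List ℕ → Prop
  | _, _, [] => True
  | m, S, x :: L => (x ∈ S ∨ x = m) ∧ RG (m + 1) (x :: S) L

lemma RG.mono : ∀ {L : List ℕ} {m : ℕ} {S S' : List ℕ}, (∀ x ∈ L, x ∈ S → x ∈ S') → RG m S L →
    RG m S' L
  | [], _, _, _, _, _ => trivial
  | x :: L, m, S, S', h, H => ⟨H.1.imp_left (h x (by simp)), H.2.mono fun y hy => by
      simp only [mem_cons]; exact Or.imp_right (h y (by simp [hy]))⟩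

lemma RG.mem : ∀ {L : List ℕ} {m : ℕ} {S : List ℕ}, RG m S L → ∀ x ∈ L, x ∈ S ∨ m ≤ x
  | [], _, _, _, _, h => by simp at h
  | y :: L, m, S, H, x, h => by
    rcases mem_cons.1 h with rfl | h
    · exact H.1.imp_right fun e => e.ge
    · rcases H.2.mem x h with h | h
      · rcases mem_cons.1 h with rfl | h
        exacts [H.1.imp_right fun e => e.ge, Or.inl h]
      · exact Or.inr (by omega)

def NCr (W : List ℕ) : Prop := ∀ a b, a ≠ b → ¬ [a, b, a, b] <+ W

lemma nc_dup {U V : List ℕ} {x : ℕ} : NCr (U ++ x :: x :: V) ↔ NCr (U ++ x :: V) := by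
  refine ⟨fun h a b n g => h a b n (Du.sub4.2 (Or.inl g)), fun h a b n g => h a b n ?_⟩
  rcases Du.sub4.1 g with k | ⟨rfl, k⟩ | ⟨rfl, k, k'⟩ | ⟨rfl, k, k'⟩ | ⟨rfl, k⟩
  · exact k
  · exact Du.sub4.2 (by simp [k.of_cons_of_ne n.symm])
  · exact Du.sub4.2 (by simp [k, k'.of_cons_of_ne n])
  · exact Du.sub4.2 (by simp [k, (mem_cons.1 k').resolve_left n.symm])
  · exact Du.sub4.2 (by simp [k])

lemma nc_del {U V : List ℕ} {x : ℕ} (h1 : x ∉ U) (h2 : x ∉ V) :
    NCr (U ++ x :: V) ↔ NCr (U ++ V) := by
  refine ⟨fun h a b n g => h a b n (Du.sub4.2 (Or.inl g)), fun h a b n g => h a b n ?_⟩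
  rcases Du.sub4.1 g with k | ⟨rfl, k⟩ | ⟨rfl, k, k'⟩ | ⟨rfl, k, k'⟩ | ⟨rfl, k⟩
  · exact k
  · exact absurd (k.subset (by simp)) h2
  · exact absurd (k'.subset (by simp)) h2
  · exact absurd (k.subset (by simp)) h1
  · exact absurd (k.subset (by simp)) h1

def NotIn (y : ℕ) : List Bool → List ℕ → Prop
  | c :: cs, x :: L => x ≠ y ∧ (c ∨ NotIn y cs L)
  | _, _ => True

lemma notIn_of {y : ℕ} : ∀ {cs : List Bool} {L : List ℕ}, y ∉ L → NotIn y cs L
  | [], _, _ => by simp [NotIn]
  | _ :: _, [], _ => by simp [NotIn]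
  | c :: cs, x :: L, h => by
    simp only [mem_cons, not_or] at h
    exact ⟨Ne.symm h.1, Or.inr (notIn_of h.2)⟩

def Sd : ℕ → List Bool → List ℕ → Prop
  | cur, c :: cs, x :: L => (x = cur ∨ c ∨ NotIn cur cs L) ∧ Sd x cs L
  | _, _, _ => True

def Spec (cs : List Bool) (m a : ℕ) (st : List ℕ) (cur : ℕ) (L : List ℕ) : Prop :=
  L.length = cs.length ∧ RG m (cur :: st) L ∧ NCr (st.reverse ++ cur :: L) ∧ (∀ s ∈ st, s ∈ L) ∧
    (cur :: L).getLast? = some 0 ∧ Sd cur cs L ∧ ∀ y ∈ st.take a, NotIn y cs L

def en : List Bool → ℕ → ℕ → List ℕ → ℕ → Finset (List ℕ)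
  | [], _, _, st, _ => if st = [] then {[]} else ∅
  | c :: cs, m, a, st, cur =>
    (en cs (m + 1) (if c then 0 else a) st cur).image (cur :: ·) ∪
    (if st = [] then ∅ else (en cs (m + 1) (if c then 0 else a) st m).image (m :: ·)) ∪
    (en cs (m + 1) (if c then 0 else a + 1) (cur :: st) m).image (m :: ·) ∪
    (if st = [] ∨ a ≠ 0 then ∅ else (en cs (m + 1) 0 st.tail st.headI).image (st.headI :: ·))

def I (m a : ℕ) (st : List ℕ) (cur : ℕ) : Prop :=
  (cur :: st).Nodup ∧ (∀ x ∈ cur :: st, x < m) ∧ (cur :: st).getLast? = some 0 ∧ a ≤ st.length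

lemma I.b {m a st cur} (h : I m a st cur) (c : Bool) : I (m + 1) (if c then 0 else a) st cur :=
  ⟨h.1, fun x hx => (h.2.1 x hx).trans m.lt_succ_self, h.2.2.1, by
    have := h.2.2.2; split_ifs <;> omega⟩

lemma I.l {m a st cur} (h : I m a st cur) (c : Bool) :
    I (m + 1) (if c then 0 else a + 1) (cur :: st) m :=
  ⟨nodup_cons.2 ⟨fun hx => (h.2.1 m hx).false, h.1⟩, fun x hx => by
    rcases mem_cons.1 hx with rfl | hx
    exacts [by omega, (h.2.1 x hx).trans m.lt_succ_self], by simpa using h.2.2.1, by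
    have := h.2.2.2; split_ifs <;> simp; omega⟩

lemma I.e {m a st cur} (h : I m a st cur) (hs : st ≠ []) (c : Bool) :
    I (m + 1) (if c then 0 else a) st m := by
  obtain ⟨s, st, rfl⟩ := exists_cons_of_ne_nil hs
  refine ⟨nodup_cons.2 ⟨fun hx => (h.2.1 m (mem_cons_of_mem _ hx)).false, h.1.of_cons⟩,
    fun x hx => ?_, by simpa using h.2.2.1, (h.b c).2.2.2⟩
  rcases mem_cons.1 hx with rfl | hx
  exacts [by omega, (h.2.1 x (mem_cons_of_mem _ hx)).trans m.lt_succ_self]

lemma I.r {m a s st cur} (h : I m a (s :: st) cur) : I (m + 1) 0 st s :=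
  ⟨h.1.of_cons, fun x hx => (h.2.1 x (mem_cons_of_mem _ hx)).trans m.lt_succ_self,
    by simpa using h.2.2.1, by simp⟩

lemma mem_en : ∀ (cs : List Bool) (m a : ℕ) (st : List ℕ) (cur : ℕ) (L : List ℕ), I m a st cur →
    (L ∈ en cs m a st cur ↔ Spec cs m a st cur L)
  | [], m, a, st, cur, L, h => by
    cases st with
    | nil =>
      have : cur = 0 := by simpa using h.2.2.1
      simp only [en, if_true, Finset.mem_singleton, Spec, length_nil, length_eq_zero_iff]
      refine ⟨?_, fun h => h.1⟩
      rintro rfl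
      exact ⟨rfl, trivial, fun a b _ g => by simpa using g.length_le, by simp, by simp [this],
        trivial, by simp⟩
    | cons s st =>
      simp only [en, Spec, length_nil, length_eq_zero_iff]
      simp
      rintro rfl
      simp
  | c :: cs, m, a, st, cur, L, h => by
    have nd := nodup_cons.1 h.1
    have lt := h.2.1
    have cm : cur ≠ m := (lt cur (by simp)).ne
    have sm : m ∉ st := fun hx => (lt m (by simp [hx])).false
    have tk : ∀ {x : ℕ} {L : List ℕ}, x ∉ st → ((∀ y ∈ st.take a, NotIn y (c :: cs) (x :: L)) ↔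
        ∀ y ∈ st.take (if c then 0 else a), NotIn y cs L) := fun {x L} hx => by
      have : ∀ y ∈ st.take a, x ≠ y := fun y hy e => hx (e ▸ mem_of_mem_take hy)
      cases c
      · simpa [NotIn] using ⟨fun H y hy => (H y hy).2, fun H y hy => ⟨this y hy, H y hy⟩⟩
      · simpa [NotIn] using this
    have cmt : ∀ {x : ℕ} {L : List ℕ}, x ∉ st → ((∀ s ∈ st, s ∈ x :: L) ↔ ∀ s ∈ st, s ∈ L) :=
      fun {x L} hx => forall₂_congr fun s hs => by
        simp [show s ≠ x from fun e => hx (e ▸ hs)]
    have hb : ∀ L, Spec (c :: cs) m a st cur (cur :: L) ↔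
        Spec cs (m + 1) (if c then 0 else a) st cur L := fun L => by
      simp only [Spec, length_cons, Nat.add_right_cancel_iff, RG, nc_dup, cmt nd.1, tk nd.1, Sd,
        getLast?_cons_cons, true_or, true_and, mem_cons_self]
      exact and_congr_right fun _ => and_congr_left fun _ =>
        ⟨RG.mono (by simp), RG.mono (by simp +contextual [or_imp])⟩
    have hl : ∀ L, Spec (c :: cs) m a st cur (m :: L) ∧ cur ∈ L ↔
        Spec cs (m + 1) (if c then 0 else a + 1) (cur :: st) m L := fun L => by
      simp only [Spec, length_cons, Nat.add_right_cancel_iff, RG, cmt sm, tk sm, Sd,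
        getLast?_cons_cons, or_true, true_and, reverse_cons, append_assoc, singleton_append,
        forall_mem_cons, cm.symm, false_or]
      cases c <;> simp <;> tauto
    have he : ∀ L, Spec (c :: cs) m a st cur (m :: L) ∧ cur ∉ L ↔ st ≠ [] ∧
        Spec cs (m + 1) (if c then 0 else a) st m L := fun L => by
      simp only [Spec, length_cons, Nat.add_right_cancel_iff, RG, cmt sm, tk sm, Sd,
        getLast?_cons_cons, or_true, true_and]
      have nc := fun hc : cur ∉ L =>
        nc_del (U := st.reverse) (V := m :: L) (x := cur) (by simpa using nd.1) (by simp [cm, hc])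
      constructor
      · rintro ⟨⟨h1, h2, h3, h4, h5, h6, h7⟩, hc⟩
        refine ⟨?_, h1, h2.mono fun x hx => ?_, (nc hc).1 h3, h4, h5, h6.2, h7⟩
        · rintro rfl
          obtain rfl : cur = 0 := by simpa using h.2.2.1
          simpa [hc, cm] using mem_of_getLast? h5
        · simp [show x ≠ cur from fun e => hc (e ▸ hx)]
      · rintro ⟨-, h1, h2, h3, h4, h5, h6, h7⟩
        have hc : cur ∉ L := fun hx => by
          have := lt cur (by simp)
          rcases h2.mem cur hx with k | k
          · simp [cm, nd.1] at k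
          · omega
        exact ⟨⟨h1, h2.mono (by simp +contextual [or_imp]), (nc hc).2 h3, h4, h5,
          ⟨by simp [notIn_of hc], h6⟩, h7⟩, hc⟩
    have hr : ∀ x L, x ∈ st → (Spec (c :: cs) m a st cur (x :: L) ↔ a = 0 ∧ x = st.headI ∧
        Spec cs (m + 1) 0 st.tail st.headI L) := fun x L hx => by
      obtain ⟨s, st, rfl⟩ := exists_cons_of_ne_nil (ne_nil_of_mem hx)
      simp only [mem_cons, not_or, nodup_cons] at nd
      have nc : cur ∉ L → (NCr (st.reverse ++ [s] ++ cur :: s :: L) ↔ NCr (st.reverse ++ s :: L)) :=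
        fun hc => (nc_del (by simp [nd.1]) (by simp [nd.1, hc])).trans
          (by rw [append_assoc]; exact nc_dup)
      simp only [Spec, length_cons, Nat.add_right_cancel_iff, RG, Sd, headI_cons, tail_cons,
        getLast?_cons_cons, reverse_cons, take_zero, not_mem_nil, false_imp_iff, implies_true,
        and_true]
      constructor
      · rintro ⟨h1, h2, h3, h4, h5, h6, h7⟩
        obtain rfl : x = s := by
          by_contra ne
          have k1 := (mem_cons.1 hx).resolve_left ne
          have k2 := (mem_cons.1 (h4 s (by simp))).resolve_left (Ne.symm ne)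
          refine h3 x s ne ?_
          rw [append_assoc]
          exact (singleton_sublist.2 (mem_reverse.2 k1)).append
            ((((singleton_sublist.2 k2).cons_cons x).cons cur).cons_cons s)
        have hc : cur ∉ L := fun k => h3 x cur (Ne.symm nd.1.1) (by
          rw [append_assoc]
          exact ((((singleton_sublist.2 k).cons_cons x).cons_cons cur).cons_cons x).trans
            (sublist_append_right _ _))
        refine ⟨?_, rfl, h1, h2.2.mono fun y hy => ?_, (nc hc).1 h3, fun y hy => ?_, h5, h6.2⟩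
        · cases a with
          | zero => rfl
          | succ a => exact absurd rfl (h7 x (by simp)).1
        · simp [show y ≠ cur from fun e => hc (e ▸ hy)]
        · exact (mem_cons.1 (h4 y (by simp [hy]))).resolve_left fun e => nd.2.1 (e ▸ hy)
      · rintro ⟨rfl, rfl, h1, h2, h3, h4, h5, h6⟩
        have hc : cur ∉ L := fun hx => by
          have := lt cur (by simp)
          rcases h2.mem cur hx with k | k
          · simp [nd.1] at k
          · omega
        exact ⟨h1, ⟨by simp, h2.mono (by simp +contextual [or_imp])⟩, (nc hc).2 h3,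
          by simpa using fun y hy => Or.inr (h4 y hy), h5, ⟨by simp [notIn_of hc], h6⟩, by simp⟩
    simp only [en, Finset.mem_union, Finset.mem_image, mem_en cs _ _ _ _ _ (h.b c),
      mem_en cs _ _ _ _ _ (h.l c)]
    constructor
    · rintro (((⟨L, k, rfl⟩ | k) | ⟨L, k, rfl⟩) | k)
      · exact (hb L).2 k
      · split_ifs at k with e <;> simp only [Finset.notMem_empty, Finset.mem_image] at k
        all_goals
          obtain ⟨L, k, rfl⟩ := k
          refine ((he L).2 ⟨e, (mem_en cs _ _ _ _ _ (h.e e c)).1 ?_⟩).1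
          simp [*]
      · exact ((hl L).2 k).1
      · split_ifs at k with e
        · simp at k
        · obtain ⟨L, k', rfl⟩ := Finset.mem_image.1 k
          obtain ⟨s, st, rfl⟩ := exists_cons_of_ne_nil (not_or.1 e).1
          exact (hr _ L (by simp)).2 ⟨by simpa using e, rfl, (mem_en cs _ _ _ _ _ h.r).1 k'⟩
    · intro H
      cases L with
      | nil => simpa using H.1
      | cons x L =>
        rcases H.2.1.1 with k | rfl
        · rcases mem_cons.1 k with rfl | k
          · exact Or.inl (Or.inl (Or.inl ⟨L, (hb L).1 H, rfl⟩))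
          · obtain ⟨rfl, rfl, k'⟩ := (hr x L k).1 H
            obtain ⟨s, st, rfl⟩ := exists_cons_of_ne_nil (ne_nil_of_mem k)
            refine Or.inr ?_
            rw [if_neg (by simp)]
            exact Finset.mem_image.2 ⟨L, (mem_en cs _ _ _ _ _ h.r).2 k', rfl⟩
        · by_cases k : cur ∈ L
          · exact Or.inl (Or.inr ⟨L, (hl L).1 ⟨H, k⟩, rfl⟩)
          · obtain ⟨e, k'⟩ := (he L).1 ⟨H, k⟩
            refine Or.inl (Or.inl (Or.inr ?_))
            rw [if_neg e]
            exact Finset.mem_image.2 ⟨L, (mem_en cs _ _ _ _ _ (h.e e c)).2 k', rfl⟩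

def wt (α β : ℤ) : ℕ → List ℕ → ℤ
  | _, [] => 1
  | m, x :: L => (if x = m then β else α) * wt α β (m + 1) L

lemma sum_en (α β : ℤ) : ∀ (cs : List Bool) (m a : ℕ) (st : List ℕ) (cur : ℕ), I m a st cur →
    ∑ L ∈ en cs m a st cur, wt α β m L = M α β cs st.length (decide (a ≠ 0))
  | [], m, a, st, cur, h => by cases st <;> simp [en, M, wt]
  | c :: cs, m, a, st, cur, h => by
    have nd := nodup_cons.1 h.1
    have lt := h.2.1
    have cm : cur ≠ m := (lt cur (by simp)).ne
    have si : ∀ (x : ℕ) (E : Finset (List ℕ)), ∑ L ∈ E.image (x :: ·), wt α β m L =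
        (if x = m then β else α) * ∑ L ∈ E, wt α β (m + 1) L := fun x E => by
      rw [Finset.sum_image fun _ _ _ _ e => (cons.inj e).2, Finset.mul_sum]; rfl
    have f1 : decide ((if c then 0 else a) ≠ 0) = (decide (a ≠ 0) && !c) := by cases c <;> simp
    have f2 : decide ((if c then 0 else a + 1) ≠ 0) = !c := by cases c <;> simp
    cases st with
    | nil =>
      simp only [en, if_true, true_or, Finset.union_empty]
      rw [Finset.sum_union (by simp +contextual [Finset.disjoint_left, cm, cm.symm]),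
        si, si, sum_en α β _ _ _ _ _ (h.b c), sum_en α β _ _ _ _ _ (h.l c), f1, f2]
      simp [M, cm]
    | cons s st =>
      have sm : s ≠ m := (lt s (by simp)).ne
      have cs' : cur ≠ s := fun e => nd.1 (by simp [e])
      have hd : Disjoint (en cs (m + 1) (if c then 0 else a) (s :: st) m)
          (en cs (m + 1) (if c then 0 else a + 1) (cur :: s :: st) m) :=
        Finset.disjoint_left.2 fun L k1 k2 => by
          have k3 := ((mem_en _ _ _ _ _ _ (h.e (by simp) c)).1 k1).2.1.mem cur
            (((mem_en _ _ _ _ _ _ (h.l c)).1 k2).2.2.2.1 cur (by simp))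
          have := lt cur (by simp)
          rcases k3 with k | k
          · exact nd.1 ((mem_cons.1 k).resolve_left cm)
          · omega
      simp only [en, reduceCtorEq, if_false, false_or, headI_cons, tail_cons]
      rw [Finset.sum_union, Finset.sum_union, Finset.sum_union, si, si, si,
        sum_en α β _ _ _ _ _ (h.b c), sum_en α β _ _ _ _ _ (h.l c),
        sum_en α β _ _ _ _ _ (h.e (by simp) c), f1, f2]
      · by_cases e : a = 0
        · rw [if_neg (show ¬ a ≠ 0 by simp [e]), si, sum_en α β _ _ _ _ _ h.r]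
          simp [M, cm, sm, e]
        · simp [M, cm, e]
      · simp only [Finset.disjoint_left, Finset.mem_image]; grind
      · rw [Finset.disjoint_union_left]
        refine ⟨by simp only [Finset.disjoint_left, Finset.mem_image]; grind, ?_⟩
        exact (Finset.disjoint_image fun _ _ e => (cons.inj e).2).2 hd
      · split_ifs <;> simp only [Finset.disjoint_left, Finset.mem_image, Finset.mem_union,
          Finset.notMem_empty] <;> grind

end Pool.Agent.H8.Nc
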