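import Pool.Agent.H8.NcDefs

namespace Pool.Agent.H8.Nc

def NoC (c : ℕ → Bool) (i l : ℕ) : Prop := ∀ x, i < x → x < l → c x = false

structure Cfg (n : ℕ) (q : ℕ → ℝ × ℝ) (c : ℕ → Bool) : Prop where
  close : q n = q 0
  inj : ∀ i < n, ∀ j < n, q i = q j → i = j
  O : ∀ i j l, i < j → j < l → l < n → 0 ≤ det (q i) (q j) (q l)
  S : ∀ i j l, i < j → j < l → l < n → det (q i) (q j) (q l) = 0 → NoC c i l ∨ (i = 0 ∧ NoC c j n)
  B : ∀ i j l, i < j → j < l → l ≤ n → NoC c i l →
    ∃ s : ℝ, 0 < s ∧ s < 1 ∧ q j = q i + s • (q l - q i)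
  c0 : c 0 = true
  cn : c n = true
  nb : ∀ j < n, ¬ (c j ∧ c (j + 1))
  K : ∃ x y, 0 < x ∧ x < y ∧ y < n ∧ c x ∧ c y

def Aff (g : ℝ × ℝ → ℝ) : Prop :=
  ∀ (x y : ℝ × ℝ) (s t : ℝ), s + t = 1 → g (s • x + t • y) = s * g x + t * g y

lemma sep {A B : Set (ℝ × ℝ)} {g h : ℝ × ℝ → ℝ} (hg : Aff g) (hh : Aff h)
    (hA : ∀ x ∈ A, 0 ≤ g x ∧ (g x = 0 → 0 ≤ h x)) (hB : ∀ x ∈ B, g x ≤ 0 ∧ (g x = 0 → h x < 0)) :
    Disjoint (convexHull ℝ A) (convexHull ℝ B) := by
  have c1 : Convex ℝ {x | 0 ≤ g x ∧ (g x = 0 → 0 ≤ h x)} := fun x hx y hy s t hs ht e => by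
    simp only [Set.mem_setOf_eq, hg x y s t e, hh x y s t e]
    have a := mul_nonneg hs hx.1
    have b := mul_nonneg ht hy.1
    refine ⟨by linarith, fun z => add_nonneg ?_ ?_⟩
    · rcases mul_eq_zero.1 (show s * g x = 0 by linarith) with k | k
      exacts [by simp [k], mul_nonneg hs (hx.2 k)]
    · rcases mul_eq_zero.1 (show t * g y = 0 by linarith) with k | k
      exacts [by simp [k], mul_nonneg ht (hy.2 k)]
  have c2 : Convex ℝ {x | g x ≤ 0 ∧ (g x = 0 → h x < 0)} := fun x hx y hy s t hs ht e => by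
    simp only [Set.mem_setOf_eq, hg x y s t e, hh x y s t e]
    have a := mul_nonpos_of_nonneg_of_nonpos hs hx.1
    have b := mul_nonpos_of_nonneg_of_nonpos ht hy.1
    refine ⟨by linarith, fun z => ?_⟩
    rcases mul_eq_zero.1 (show s * g x = 0 by linarith) with k | k <;>
      rcases mul_eq_zero.1 (show t * g y = 0 by linarith) with k' | k'
    · linarith
    · have := hy.2 k'
      rw [k, show t = 1 by linarith]; linarith
    · have := hx.2 k
      rw [k', show s = 1 by linarith]; linarith
    · have h1 := hx.2 k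
      have h2 := hy.2 k'
      rcases hs.eq_or_lt with rfl | hs
      · rw [show t = 1 by linarith]; linarith
      · nlinarith [mul_pos hs (neg_pos.2 h1), mul_nonneg ht (neg_pos.2 h2).le]
  refine Set.disjoint_left.2 fun z h1 h2 => ?_
  have a := convexHull_min hA c1 h1
  have b := convexHull_min hB c2 h2
  have e := le_antisymm b.1 a.1
  exact absurd (a.2 e) (not_le.2 (b.2 e))

def ip (a b x : ℝ × ℝ) : ℝ := (x.1 - a.1) * (b.1 - a.1) + (x.2 - a.2) * (b.2 - a.2)

lemma ip_pos {a b : ℝ × ℝ} (h : a ≠ b) : 0 < ip a b b := by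
  by_contra k
  refine h (Prod.ext ?_ ?_) <;> simp only [ip] at k <;>
    nlinarith [mul_self_nonneg (b.1 - a.1), mul_self_nonneg (b.2 - a.2)]

lemma aff_det (a b : ℝ × ℝ) (e : ℝ) : Aff fun x => e * det a b x := fun x y s t h => by
  obtain rfl : t = 1 - s := by linarith
  simp [det]; ring

lemma aff_ip (a b : ℝ × ℝ) (e f : ℝ) : Aff fun x => e * ip a b x + f := fun x y s t h => by
  obtain rfl : t = 1 - s := by linarith
  simp [ip]; ring

def blk (n : ℕ) (q : ℕ → ℝ × ℝ) (F : ℕ → ℕ) (y : ℕ) : Set (ℝ × ℝ) := {x | ∃ i < n, F i = y ∧ x = q i}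

def NCf (n : ℕ) (F : ℕ → ℕ) : Prop :=
  ∀ i j k l, i < j → j < k → k < l → l ≤ n → F i = F k → F j = F l → F i = F j

def SDf (n : ℕ) (c : ℕ → Bool) (F : ℕ → ℕ) : Prop :=
  ∀ i j l, i < j → j < l → l ≤ n → NoC c i l → F i = F l → F j = F i

variable {n : ℕ} {q : ℕ → ℝ × ℝ} {c : ℕ → Bool} {F : ℕ → ℕ}

lemma Cfg.disj (H : Cfg n q c) (hF : F n = F 0) (h1 : NCf n F) (h2 : SDf n c F) {b u : ℕ}
    (hb : b < u) (hu : u < n) (ne : F b ≠ F u) (m1 : ∀ x < u, F x ≠ F u)
    (m2 : ∀ x, b < x → x < u → F x ≠ F b) :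
    Disjoint (convexHull ℝ (blk n q F (F b))) (convexHull ℝ (blk n q F (F u))) := by
  obtain ⟨w, w1, w2, w3, w4⟩ : ∃ w, u ≤ w ∧ w < n ∧ F w = F u ∧ ∀ x, w < x → x < n → F x ≠ F u :=
    ⟨Nat.findGreatest (F · = F u) (n - 1), Nat.le_findGreatest (by omega) rfl,
      by have := Nat.findGreatest_le (P := (F · = F u)) (n - 1); omega,
      Nat.findGreatest_spec (P := (F · = F u)) (m := u) (by omega) rfl,
      fun x a b => Nat.findGreatest_is_greatest (P := (F · = F u)) a (by omega)⟩
  have hB : ∀ x < n, F x = F b → x ≤ b ∨ w < x := fun x hx e => by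
    by_contra k
    rcases lt_trichotomy x u with k' | rfl | k'
    · exact m2 x (by omega) k' e
    · exact ne e.symm
    · rcases (show x ≤ w by omega).eq_or_lt with rfl | k''
      · exact ne (e.symm.trans w3)
      · exact ne (h1 b u x w hb k' k'' w2.le e.symm w3.symm)
  have hC : ∀ x < n, F x = F u → b < x ∧ x ≤ w := fun x hx e =>
    ⟨by by_contra k; exact m1 x (by omega) e, by by_contra k; exact w4 x (by omega) hx e⟩
  have bw : b < w := by omega
  have pos := ip_pos (show q b ≠ q w from fun e => by have := H.inj b (by omega) w w2 e; omega)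
  have r1 : ∀ x, det (q b) (q w) x = det x (q b) (q w) := fun x => by simp only [det]; ring
  have r2 : ∀ x, det (q b) (q w) x = -det (q b) x (q w) := fun x => by simp only [det]; ring
  have gB : ∀ x < n, F x = F b → 0 ≤ det (q b) (q w) (q x) := fun x hx e => by
    rcases hB x hx e with k | k
    · rcases k.eq_or_lt with rfl | k
      · simp [det]
      · rw [r1]; exact H.O x b w k bw w2
    · exact H.O b w x bw k hx
  have gC : ∀ x < n, F x = F u → det (q b) (q w) (q x) ≤ 0 := fun x hx e => by
    rcases (hC x hx e).2.eq_or_lt with rfl | k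
    · simp [det, mul_comm]
    · rw [r2]; exact neg_nonpos.2 (H.O b x w (hC x hx e).1 k w2)
  have far : b = 0 → ∀ x, x < w → NoC c x n → ip (q b) (q w) (q w) ≤ ip (q b) (q w) (q x) := by
    rintro rfl x k k'
    obtain ⟨s, s0, s1, e⟩ := H.B x w n k w2 le_rfl k'
    rw [H.close] at e
    have : ip (q 0) (q w) (q w) = (1 - s) * ip (q 0) (q w) (q x) := by
      nth_rewrite 2 [e]; simp [ip]; ring
    nlinarith
  by_cases I : b = 0 ∧ NoC c w n
  · refine (sep (aff_det (q b) (q w) (-1)) (aff_ip (q b) (q w) 1 (-ip (q b) (q w) (q w))) ?_ ?_).symm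
    · rintro _ ⟨x, hx, e, rfl⟩
      refine ⟨by linarith [gC x hx e], fun z => ?_⟩
      rcases (hC x hx e).2.eq_or_lt with rfl | k
      · simp
      · rcases H.S b x w (hC x hx e).1 k w2 (by linarith [r2 (q x)]) with k' | k'
        · obtain ⟨y, y', a1, a2, a3, a4, a5⟩ := H.K
          have f1 := k' y (by omega)
          have f2 := I.2 y'
          by_cases t : y < w
          · simp [f1 t] at a4
          · simp [f2 (by omega) a3] at a5
        · linarith [far I.1 x k k'.2]
    · rintro _ ⟨x, hx, e, rfl⟩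
      refine ⟨by linarith [gB x hx e], fun z => ?_⟩
      rcases hB x hx e with k | k
      · obtain rfl : x = b := by omega
        have : ip (q x) (q w) (q x) = 0 := by simp [ip]
        linarith
      · obtain ⟨s, s0, s1, e⟩ := H.B w x n k hx le_rfl I.2
        rw [H.close, ← I.1] at e
        have : ip (q b) (q w) (q x) = (1 - s) * ip (q b) (q w) (q w) := by
          rw [e]; simp [ip]; ring
        nlinarith
  · refine sep (aff_det (q b) (q w) 1) (aff_ip (q b) (q w) (-1) 0) ?_ ?_
    · rintro _ ⟨x, hx, e, rfl⟩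
      refine ⟨by linarith [gB x hx e], fun z => ?_⟩
      rcases hB x hx e with k | k
      · rcases k.eq_or_lt with rfl | k
        · simp [ip]
        · rcases H.S x b w k bw w2 (by linarith [r1 (q x)]) with k' | ⟨rfl, k'⟩
          · obtain ⟨s, s0, s1, e⟩ := H.B x b w k bw w2.le k'
            have : (1 - s) * ip (q b) (q w) (q x) = -s * ip (q b) (q w) (q w) := by
              rw [e]; simp [ip]; ring
            nlinarith
          · exact absurd (w3.symm.trans (h2 b w n bw w2 le_rfl k' (e.symm.trans hF.symm))).symm ne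
      · rcases H.S b w x bw k hx (by linarith) with k' | k'
        · exact absurd (w3.symm.trans (h2 b w x bw k hx.le k' e.symm)).symm ne
        · exact absurd k' I
    · rintro _ ⟨x, hx, e, rfl⟩
      refine ⟨by linarith [gC x hx e], fun z => ?_⟩
      rcases (hC x hx e).2.eq_or_lt with rfl | k
      · linarith
      · rcases H.S b x w (hC x hx e).1 k w2 (by linarith [r2 (q x)]) with k' | k'
        · obtain ⟨s, s0, s1, e⟩ := H.B b x w (hC x hx e).1 k w2.le k'
          have : ip (q b) (q w) (q x) = s * ip (q b) (q w) (q w) := by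
            rw [e]; simp [ip]; ring
          nlinarith
        · linarith [far k'.1 x k k'.2]

lemma Cfg.geo (H : Cfg n q c) (hF : F n = F 0) : (∀ i < n, ∀ j < n, F i ≠ F j →
    Disjoint (convexHull ℝ (blk n q F (F i))) (convexHull ℝ (blk n q F (F j)))) ↔
      NCf n F ∧ SDf n c F := by
  obtain ⟨y, y', a1, a2, a3, -⟩ := H.K
  constructor
  · intro h
    have mem : ∀ i ≤ n, q i ∈ convexHull ℝ (blk n q F (F i)) := fun i hi => by
      refine subset_convexHull _ _ ?_
      rcases hi.eq_or_lt with rfl | hi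
      exacts [⟨0, by omega, hF.symm, H.close⟩, ⟨i, hi, rfl, rfl⟩]
    have seg : ∀ i l, i ≤ n → l ≤ n → F i = F l → ∀ s : ℝ, 0 ≤ s → s ≤ 1 →
        q i + s • (q l - q i) ∈ convexHull ℝ (blk n q F (F i)) := fun i l hi hl e s s0 s1 =>
      (convex_convexHull ℝ _).add_smul_sub_mem (mem i hi) (e ▸ mem l hl) ⟨s0, s1⟩
    have sd : SDf n c F := fun i j l a b d k e => by
      by_contra ne
      obtain ⟨s, s0, s1, e'⟩ := H.B i j l a b d k
      exact Set.disjoint_left.1 (h j (by omega) i (by omega) ne) (mem j (by omega))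
        (e' ▸ seg i l (by omega) d e s s0.le s1.le)
    refine ⟨fun i j k l a b d f e e' => ?_, sd⟩
    by_contra ne
    have O' : ∀ i j, i < j → j < l → 0 ≤ det (q i) (q j) (q l) := fun i j a b => by
      rcases f.eq_or_lt with rfl | f
      · rw [H.close]
        rcases i.eq_zero_or_pos with rfl | p
        · simp [det]
        · have := H.O 0 i j p a b
          simp only [det] at *; linarith
      · exact H.O i j l a b f
    have A := H.O i j k a b (by omega)
    have B := O' i k (by omega) d
    have C := O' i j a (by omega)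
    have D := O' j k b d
    rcases A.eq_or_lt with z | z
    · rcases H.S i j k a b (by omega) z.symm with t | ⟨-, t⟩
      · exact ne (sd i j k a b (by omega) t e).symm
      · exact ne (e.trans (sd j k l b d f (fun x u v => t x u (by omega)) e'))
    · have p : 0 < det (q i) (q j) (q k) + det (q i) (q k) (q l) := by linarith
      have id : det (q i) (q j) (q k) + det (q i) (q k) (q l)
          = det (q i) (q j) (q l) + det (q j) (q k) (q l) := by simp only [det]; ring
      refine Set.disjoint_left.1 (h i (by omega) j (by omega) ne)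
        (seg i k (by omega) (by omega) e (det (q i) (q j) (q l) / _) (div_nonneg C p.le)
          ((div_le_one p).2 (by linarith))) ?_
      convert seg j l (by omega) f e' (det (q i) (q j) (q k) / _) (div_nonneg A p.le)
        ((div_le_one p).2 (by linarith)) using 1
      have p' := p.ne'
      ext <;> simp <;> field_simp <;> simp only [det] <;> ring
  · rintro ⟨h1, h2⟩
    have key : ∀ i < n, ∀ j < n, F i ≠ F j → (∀ x < i, F x ≠ F i) → (∀ x < j, F x ≠ F j) → i < j →
        Disjoint (convexHull ℝ (blk n q F (F i))) (convexHull ℝ (blk n q F (F j))) := by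
      intro i hi j hj ne _ m lt
      have s := Nat.findGreatest_spec (P := (F · = F i)) (m := i) (n := j - 1) (by omega) rfl
      have := Nat.findGreatest_le (P := (F · = F i)) (j - 1)
      rw [← s]
      exact H.disj hF h1 h2 (by omega) hj (by rwa [s]) m fun x a b => by
        rw [s]; exact Nat.findGreatest_is_greatest (P := (F · = F i)) a (by omega)
    intro i hi j hj ne
    have ei : ∃ x, F x = F i := ⟨i, rfl⟩
    have ej : ∃ x, F x = F j := ⟨j, rfl⟩
    have si := Nat.find_spec ei
    have sj := Nat.find_spec ej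
    have li := Nat.find_min' ei rfl
    have lj := Nat.find_min' ej rfl
    have mi : ∀ x < Nat.find ei, F x ≠ F (Nat.find ei) := fun x hx e =>
      Nat.find_min ei hx (e.trans si)
    have mj : ∀ x < Nat.find ej, F x ≠ F (Nat.find ej) := fun x hx e =>
      Nat.find_min ej hx (e.trans sj)
    rw [← si, ← sj] at ne ⊢
    rcases lt_trichotomy (Nat.find ei) (Nat.find ej) with t | t | t
    · exact key _ (by omega) _ (by omega) ne mi mj t
    · exact absurd (congrArg F t) ne
    · exact (key _ (by omega) _ (by omega) ne.symm mj mi t).symm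

end Pool.Agent.H8.Nc
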