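import Pool.Agent.H8.Nc2

namespace Pool.Agent.H8.Nc

def pt (v : ℕ → ℝ × ℝ) (x : ℕ ×ₗ ℝ) : ℝ × ℝ :=
  v (ofLex x).1 + (ofLex x).2 • (v ((ofLex x).1 + 1) - v (ofLex x).1)

def Dom (k : ℕ) (x : ℕ ×ₗ ℝ) : Prop := (ofLex x).1 < k ∧ 0 ≤ (ofLex x).2 ∧ (ofLex x).2 < 1

variable {k : ℕ} {v : ℕ → ℝ × ℝ}

lemma ori (hk : 3 ≤ k) (h0 : v k = v 0)
    (hv : ∀ i j l, i < j → j < l → l < k → 0 < det (v i) (v j) (v l)) {x y z : ℕ ×ₗ ℝ}
    (hx : Dom k x) (hy : Dom k y) (hz : Dom k z) (h1 : x < y) (h2 : y < z) :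
    0 ≤ det (pt v x) (pt v y) (pt v z) ∧ (det (pt v x) (pt v y) (pt v z) = 0 →
      ((ofLex z).1 = (ofLex x).1 ∨ ((ofLex z).1 = (ofLex x).1 + 1 ∧ (ofLex z).2 = 0)) ∨
        (x = toLex (0, 0) ∧ (ofLex y).1 + 1 = k)) := by
  have P : ∀ a b c, a < b → b < c → c ≤ k → (a = 0 → c < k) → 0 < det (v a) (v b) (v c) := by
    intro a b c h1 h2 h3 h4
    rcases h3.eq_or_lt with rfl | h3
    · have := hv 0 a b (by omega) h1 h2
      rw [h0]; simp only [det] at *; linarith
    · exact hv a b c h1 h2 h3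
  have N : ∀ a b c, a ≤ b → b ≤ c → c ≤ k → 0 ≤ det (v a) (v b) (v c) := by
    intro a b c h1 h2 h3
    rcases h1.eq_or_lt with rfl | h1
    · simp [det]
    rcases h2.eq_or_lt with rfl | h2
    · simp [det, mul_comm]
    by_cases e : a = 0 ∧ c = k
    · simp [e.1, e.2, h0, det]
    · exact (P a b c h1 h2 h3 (by omega)).le
  obtain ⟨i, s⟩ := x
  obtain ⟨j, t⟩ := y
  obtain ⟨l, u⟩ := z
  obtain ⟨a1, a2, a3⟩ : i < k ∧ 0 ≤ s ∧ s < 1 := hx
  obtain ⟨b1, b2, b3⟩ : j < k ∧ 0 ≤ t ∧ t < 1 := hy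
  obtain ⟨c1, c2, c3⟩ : l < k ∧ 0 ≤ u ∧ u < 1 := hz
  have h1' : i < j ∨ i = j ∧ s < t := Prod.Lex.toLex_lt_toLex.1 h1
  have h2' : j < l ∨ j = l ∧ t < u := Prod.Lex.toLex_lt_toLex.1 h2
  change 0 ≤ det (v i + s • (v (i + 1) - v i)) (v j + t • (v (j + 1) - v j))
    (v l + u • (v (l + 1) - v l)) ∧ (det (v i + s • (v (i + 1) - v i)) (v j + t • (v (j + 1) - v j))
    (v l + u • (v (l + 1) - v l)) = 0 → (l = i ∨ (l = i + 1 ∧ u = 0)) ∨
      (toLex (i, s) = toLex (0, 0) ∧ j + 1 = k))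
  have s' := sub_pos.2 a3
  have t' := sub_pos.2 b3
  have u' := sub_pos.2 c3
  rcases h1' with h1' | ⟨rfl, h1'⟩ <;> rcases h2' with h2' | ⟨rfl, h2'⟩
  · have : det (v i + s • (v (i + 1) - v i)) (v j + t • (v (j + 1) - v j))
        (v l + u • (v (l + 1) - v l)) =
        (1 - s) * (1 - t) * (1 - u) * det (v i) (v j) (v l)
        + ((1 - s) * (1 - t) * u * det (v i) (v j) (v (l + 1))
        + (1 - s) * t * (1 - u) * det (v i) (v (j + 1)) (v l)
        + (1 - s) * t * u * det (v i) (v (j + 1)) (v (l + 1))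
        + s * (1 - t) * (1 - u) * det (v (i + 1)) (v j) (v l)
        + s * (1 - t) * u * det (v (i + 1)) (v j) (v (l + 1))
        + s * t * (1 - u) * det (v (i + 1)) (v (j + 1)) (v l)
        + s * t * u * det (v (i + 1)) (v (j + 1)) (v (l + 1))) := by simp [det]; ring
    have p : 0 < det (v i + s • (v (i + 1) - v i)) (v j + t • (v (j + 1) - v j))
        (v l + u • (v (l + 1) - v l)) := by
      have := hv i j l h1' h2' c1
      have := N i j (l + 1) (by omega) (by omega) (by omega)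
      have := N i (j + 1) l (by omega) (by omega) (by omega)
      have := N i (j + 1) (l + 1) (by omega) (by omega) (by omega)
      have := N (i + 1) j l (by omega) (by omega) (by omega)
      have := N (i + 1) j (l + 1) (by omega) (by omega) (by omega)
      have := N (i + 1) (j + 1) l (by omega) (by omega) (by omega)
      have := N (i + 1) (j + 1) (l + 1) (by omega) (by omega) (by omega)
      rw [‹det (v i + s • _) _ _ = _›]; positivity
    exact ⟨p.le, fun e => absurd e p.ne'⟩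
  · have e : det (v i + s • (v (i + 1) - v i)) (v j + t • (v (j + 1) - v j))
        (v j + u • (v (j + 1) - v j)) = (u - t) * ((1 - s) * det (v i) (v j) (v (j + 1))
          + s * det (v (i + 1)) (v j) (v (j + 1))) := by simp [det]; ring
    have n1 := N i j (j + 1) (by omega) (by omega) (by omega)
    have n2 := N (i + 1) j (j + 1) (by omega) (by omega) (by omega)
    have d := sub_pos.2 h2'
    rw [e]
    refine ⟨by positivity, fun z => Or.inr ?_⟩
    by_cases f : i = 0 ∧ j + 1 = k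
    · have := P (i + 1) j (j + 1) (by omega) (by omega) (by omega) (by omega)
      rcases a2.eq_or_lt with rfl | a2
      · simp [f]
      · exact absurd z (by positivity)
    · have := P i j (j + 1) (by omega) (by omega) (by omega) (by omega)
      exact absurd z (by positivity)
  · have e : det (v i + s • (v (i + 1) - v i)) (v i + t • (v (i + 1) - v i))
        (v l + u • (v (l + 1) - v l)) = (t - s) * ((1 - u) * det (v i) (v (i + 1)) (v l)
          + u * det (v i) (v (i + 1)) (v (l + 1))) := by simp [det]; ring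
    have n1 := N i (i + 1) l (by omega) (by omega) (by omega)
    have n2 := N i (i + 1) (l + 1) (by omega) (by omega) (by omega)
    have d := sub_pos.2 h1'
    rw [e]
    refine ⟨by positivity, fun z => Or.inl (Or.inr ?_)⟩
    by_cases f : l = i + 1
    · have := P i (i + 1) (l + 1) (by omega) (by omega) (by omega) (by omega)
      rcases c2.eq_or_lt with rfl | c2
      · simp [f]
      · exact absurd z (by positivity)
    · have := P i (i + 1) l (by omega) (by omega) (by omega) (by omega)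
      exact absurd z (by positivity)
  · exact ⟨le_of_eq (by simp [det]; ring), fun _ => Or.inl (Or.inl rfl)⟩

lemma pt_inj (hk : 3 ≤ k) (h0 : v k = v 0)
    (hv : ∀ i j l, i < j → j < l → l < k → 0 < det (v i) (v j) (v l)) :
    Set.InjOn (pt v) {x | Dom k x} := by
  suffices H : ∀ x y, Dom k x → Dom k y → x < y → pt v x ≠ pt v y from fun x hx y hy e => by
    rcases lt_trichotomy x y with h | h | h
    exacts [absurd e (H x y hx hy h), h, absurd e.symm (H y x hy hx h)]
  intro x y hx hy h e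
  have y1 := hy.1
  have xy : (ofLex x).1 ≤ (ofLex y).1 := by
    rcases Prod.Lex.lt_iff.1 h with t | t <;> omega
  have := (ori hk h0 hv (z := toLex (k - 1, (1 + (ofLex y).2) / 2)) hx hy
    ⟨by simp; omega, by simp; linarith [hy.2.1], by simp; linarith [hy.2.2]⟩ h
    (Prod.Lex.lt_iff.2 (by
      rcases (show (ofLex y).1 ≤ k - 1 by omega).eq_or_lt with t | t
      exacts [Or.inr ⟨t, by simp; linarith [hy.2.2]⟩, Or.inl t]))).2 (by simp [e, det])
  simp only [ofLex_toLex] at this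
  rcases this with (t | t) | ⟨rfl, t⟩
  · have := (ori hk h0 hv (x := toLex (0, 1 / 2)) ⟨by simp; omega, by simp, by norm_num⟩ hx hy
      (Prod.Lex.lt_iff.2 (Or.inl (by simp; omega))) h).2 (by simp [e, det, mul_comm])
    simp at this; omega
  · linarith [hy.2.1, t.2]
  · have := (ori hk h0 hv (y := toLex (1, 0)) hx ⟨by simp; omega, by simp, by norm_num⟩ hy
      (Prod.Lex.lt_iff.2 (Or.inl (by simp))) (Prod.Lex.lt_iff.2 (Or.inl (by simp; omega)))).2
      (by simp [e, det])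
    simp at this; omega

lemma exists_cfg (hk : 3 ≤ k) (h0 : v k = v 0)
    (hv : ∀ i j l, i < j → j < l → l < k → 0 < det (v i) (v j) (v l)) {P : Finset (ℝ × ℝ)}
    (h1 : ∀ i < k, v i ∈ P) (h2 : ∀ p ∈ P, ∃ i < k, p ∈ segment ℝ (v i) (v (i + 1)))
    (h3 : ∀ i < k, ∃ p ∈ P, p ∈ openSegment ℝ (v i) (v (i + 1))) :
    ∃ n q c, Cfg n q c ∧ ∀ p, p ∈ P ↔ ∃ i < n, q i = p := by
  have inj := pt_inj hk h0 hv
  have fin : {x | Dom k x ∧ pt v x ∈ P}.Finite :=
    Set.Finite.of_finite_image (P.finite_toSet.subset (by rintro _ ⟨x, hx, rfl⟩; exact hx.2))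
      (inj.mono fun x hx => hx.1)
  obtain ⟨n, σ, mono, hσ⟩ : ∃ (n : ℕ) (σ : Fin n → ℕ ×ₗ ℝ), StrictMono σ ∧
      ∀ x, (Dom k x ∧ pt v x ∈ P) ↔ ∃ i, σ i = x :=
    ⟨_, fin.toFinset.orderEmbOfFin rfl, (fin.toFinset.orderEmbOfFin rfl).strictMono, fun x => by
      rw [← Set.mem_range, Finset.range_orderEmbOfFin]; simp⟩
  obtain ⟨τ, t1, t2⟩ : ∃ τ : ℕ → ℕ ×ₗ ℝ, (∀ i : Fin n, τ i = σ i) ∧ τ n = toLex (k, 0) :=
    ⟨fun i => if h : i < n then σ ⟨i, h⟩ else toLex (k, 0), fun i => by simp, by simp⟩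
  have dom : ∀ i < n, Dom k (τ i) ∧ pt v (τ i) ∈ P := fun i hi =>
    (hσ _).2 ⟨⟨i, hi⟩, (t1 ⟨i, hi⟩).symm⟩
  have sur : ∀ x, Dom k x → pt v x ∈ P → ∃ i < n, τ i = x := fun x a b => by
    obtain ⟨i, e⟩ := (hσ x).1 ⟨a, b⟩
    exact ⟨i, i.2, (t1 i).trans e⟩
  have lt : ∀ i j, i < j → j ≤ n → τ i < τ j := fun i j a b => by
    rcases b.eq_or_lt with rfl | b
    · rw [t2]; exact Prod.Lex.lt_iff.2 (Or.inl (dom i a).1.1)
    · rw [t1 ⟨i, by omega⟩, t1 ⟨j, b⟩]; exact mono a
  have lt' : ∀ i j, i ≤ n → j ≤ n → τ i < τ j → i < j := fun i j a b h => by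
    rcases lt_trichotomy i j with t | rfl | t
    exacts [t, absurd h (lt_irrefl _), absurd h (lt j i t a).not_gt]
  have cor : ∀ a ≤ k, ∃ i ≤ n, τ i = toLex (a, 0) := fun a ha => by
    rcases ha.eq_or_lt with rfl | ha
    · exact ⟨n, le_rfl, t2⟩
    · obtain ⟨i, hi, e⟩ := sur (toLex (a, 0)) ⟨ha, by simp, by simp⟩ (by simpa [pt] using h1 a ha)
      exact ⟨i, hi.le, e⟩
  have nn : ∀ i ≤ n, 0 ≤ (ofLex (τ i)).2 := fun i hi => by
    rcases hi.eq_or_lt with rfl | hi
    exacts [by simp [t2], (dom i hi).1.2.1]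
  have t0 : τ 0 = toLex (0, 0) := by
    obtain ⟨i, hi, e⟩ := cor 0 (by omega)
    rcases i.eq_zero_or_pos with rfl | p
    · exact e
    · have := Prod.Lex.lt_iff.1 (e ▸ lt 0 i p hi)
      simp at this
      linarith [nn 0 (by omega), this.2]
  have o := fun i j l (a : i < j) (b : j < l) (d : l < n) => ori hk h0 hv (dom i (by omega)).1
    (dom j (by omega)).1 (dom l d).1 (lt i j a (by omega)) (lt j l b d.le)
  refine ⟨n, fun i => pt v (τ i), fun i => decide ((ofLex (τ i)).2 = 0),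
    ⟨by simp [t2, t0, pt, h0], fun i a j b e => ?_, fun i j l a b d => (o i j l a b d).1,
      fun i j l a b d e => ?_, fun i j l a b d e => ?_, by simp [t0], by simp [t2],
      fun j hj e => ?_, ?_⟩, fun p => ⟨fun hp => ?_, fun ⟨i, hi, e⟩ => e ▸ (dom i hi).2⟩⟩
  · have := inj (dom i a).1 (dom j b).1 e
    rcases lt_trichotomy i j with t | t | t
    exacts [absurd this (lt i j t b.le).ne, t, absurd this (lt j i t a.le).ne']
  · refine ((o i j l a b d).2 e).imp (fun t x u w => ?_) fun t => ⟨?_, fun x u w => ?_⟩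
    · have p1 := Prod.Lex.lt_iff.1 (lt i x u (by omega))
      have p2 := Prod.Lex.lt_iff.1 (lt x l w d.le)
      have := nn i (by omega)
      simp only [decide_eq_false_iff_not]
      intro z
      rcases p1 with p1 | p1 <;> rcases p2 with p2 | p2 <;> rcases t with t | t <;>
        first | omega | linarith [p1.2] | linarith [p2.2, t.2]
    · by_contra ne
      exact (lt 0 i (by omega) (by omega)).ne (t0.trans t.1.symm)
    · have := (dom x w).1.1
      simp only [decide_eq_false_iff_not]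
      rcases Prod.Lex.lt_iff.1 (lt j x u w.le) with p | p
      exacts [by omega, by linarith [p.2, nn j (by omega)]]
  · obtain ⟨m, hm, em⟩ := cor ((ofLex (τ i)).1 + 1) (dom i (by omega)).1.1
    have im : i < m := lt' i m (by omega) hm (em ▸ Prod.Lex.lt_iff.2 (Or.inl (by simp)))
    have lm : l ≤ m := by
      by_contra t
      simpa [em] using e m im (by omega)
    have side : ∀ x, i < x → x < m → (ofLex (τ x)).1 = (ofLex (τ i)).1 := fun x u w => by
      have p1 := Prod.Lex.lt_iff.1 (lt i x u (by omega))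
      have p2 := Prod.Lex.lt_iff.1 (em ▸ lt x m w hm)
      simp only [ofLex_toLex] at p2
      rcases p2 with p2 | p2
      exacts [by omega, by linarith [p2.2, nn x (by omega)]]
    have sj := side j a (by omega)
    have ij : (ofLex (τ i)).2 < (ofLex (τ j)).2 :=
      ((Prod.Lex.lt_iff.1 (lt i j a (by omega))).resolve_left (by omega)).2
    obtain ⟨u, u1, u2⟩ : ∃ u : ℝ, (ofLex (τ j)).2 < u ∧ pt v (τ l) =
        v (ofLex (τ i)).1 + u • (v ((ofLex (τ i)).1 + 1) - v (ofLex (τ i)).1) := by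
      rcases lm.eq_or_lt with rfl | lm
      · exact ⟨1, (dom j (by omega)).1.2.2, by simp [em, pt]⟩
      · have sl := side l (by omega) lm
        exact ⟨_, ((Prod.Lex.lt_iff.1 (lt j l b d)).resolve_left (by omega)).2, by rw [pt, sl]⟩
    have p : 0 < u - (ofLex (τ i)).2 := by linarith
    refine ⟨((ofLex (τ j)).2 - (ofLex (τ i)).2) / (u - (ofLex (τ i)).2),
      div_pos (by linarith) p, (div_lt_one p).2 (by linarith), ?_⟩
    rw [u2, pt, pt, sj]
    have p' := p.ne'
    ext <;> simp <;> field_simp <;> ring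
  · simp only [decide_eq_true_eq] at e
    obtain ⟨p, hp, hs⟩ := h3 _ (dom j hj).1.1
    rw [openSegment_eq_image'] at hs
    obtain ⟨s, hs, rfl⟩ := hs
    obtain ⟨m, hm, em⟩ := sur (toLex ((ofLex (τ j)).1, s)) ⟨(dom j hj).1.1, hs.1.le, hs.2⟩ hp
    have a := lt' j m hj.le hm.le (em ▸ Prod.Lex.lt_iff.2 (Or.inr ⟨rfl, e.1 ▸ hs.1⟩))
    have b := lt' m (j + 1) hm.le hj (em ▸ Prod.Lex.lt_iff.2 (Or.inl
      ((Prod.Lex.lt_iff.1 (lt j (j + 1) (by omega) hj)).resolve_right fun t => by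
        linarith [t.2, e.1, e.2])))
    omega
  · obtain ⟨x, hx, ex⟩ := cor 1 (by omega)
    obtain ⟨y, hy, ey⟩ := cor 2 (by omega)
    exact ⟨x, y, lt' 0 x (by omega) hx (by rw [t0, ex]; exact Prod.Lex.lt_iff.2 (by simp)),
      lt' x y hx hy (by rw [ey, ex]; exact Prod.Lex.lt_iff.2 (by simp)),
      lt' y n hy le_rfl (by rw [ey, t2]; exact Prod.Lex.lt_iff.2 (Or.inl (by simp; omega))),
      by simp [ex], by simp [ey]⟩
  · obtain ⟨i, hi, hs⟩ := h2 p hp
    rw [segment_eq_image'] at hs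
    obtain ⟨s, hs, rfl⟩ := hs
    rcases hs.2.eq_or_lt with rfl | s1
    · obtain ⟨m, hm, em⟩ := cor (i + 1) hi
      rcases hm.eq_or_lt with rfl | hm
      · obtain ⟨x, hx, ex⟩ := sur (toLex (0, 0)) ⟨by simp; omega, by simp, by simp⟩
          (by simpa [pt] using h1 0 (by omega))
        have : k = i + 1 := by simpa [t2] using em
        exact ⟨x, hx, by simp [ex, pt, ← this, h0]⟩
      · exact ⟨m, hm, by simp [em, pt]⟩
    · obtain ⟨m, hm, em⟩ := sur (toLex (i, s)) ⟨hi, hs.1, s1⟩ hp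
      exact ⟨m, hm, congrArg (pt v) em⟩

end Pool.Agent.H8.Nc
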