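import Pool.Agent.H8.Nc1
import Pool.Agent.H8.Nc3
import Pool.Agent.H8.Du5

namespace Pool.Agent.H8.Nc

open List

variable {F : ℕ → ℕ} {c : ℕ → Bool}

lemma rg_iff : ∀ (k m : ℕ) (S : List ℕ), RG m S ((range' m k).map F) ↔ ∀ i, m ≤ i → i < m + k →
    F i ∈ S ∨ F i = i ∨ ∃ j, m ≤ j ∧ j < i ∧ F j = F i
  | 0, m, S => by simp [RG]; omega
  | k + 1, m, S => by
    rw [range'_succ, map_cons, RG, rg_iff k]
    constructor
    · rintro ⟨h1, h2⟩ i a b
      rcases a.eq_or_lt with rfl | a
      · tauto
      · rcases h2 i a (by omega) with h | h | ⟨j, h, h'⟩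
        · rcases mem_cons.1 h with h | h
          exacts [Or.inr (Or.inr ⟨m, le_rfl, a, h.symm⟩), Or.inl h]
        · tauto
        · exact Or.inr (Or.inr ⟨j, by omega, h'⟩)
    · intro h
      refine ⟨?_, fun i a b => ?_⟩
      · rcases h m le_rfl (by omega) with h | h | ⟨j, h, h', -⟩
        exacts [Or.inl h, Or.inr h, by omega]
      · rcases h i (by omega) (by omega) with h | h | ⟨j, h, h', e⟩
        · simp [h]
        · tauto
        · rcases h.eq_or_lt with rfl | h
          exacts [by simp [e], Or.inr (Or.inr ⟨j, h, h', e⟩)]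

lemma notIn_iff {y : ℕ} : ∀ (k m : ℕ), NotIn y ((range' (m + 1) k).map c)
    ((range' (m + 1) k).map F) ↔ ∀ l, m < l → l ≤ m + k → NoC c m l → F l ≠ y
  | 0, m => by simp [NotIn]; omega
  | k + 1, m => by
    rw [range'_succ, map_cons, map_cons, NotIn, notIn_iff k]
    constructor
    · rintro ⟨h1, h2⟩ l a b d
      rcases (show m + 1 ≤ l from a).eq_or_lt with rfl | a
      · exact h1
      · exact h2.resolve_left (by simp [d (m + 1) (by omega) a]) l a (by omega)
          fun x u w => d x (by omega) w
    · intro h
      refine ⟨h _ (by omega) (by omega) fun x u w => by omega, ?_⟩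
      by_cases e : c (m + 1)
      · exact Or.inl e
      · refine Or.inr fun l a b d => h l (by omega) (by omega) fun x u w => ?_
        rcases (show m + 1 ≤ x from u).eq_or_lt with rfl | u
        exacts [by simpa using e, d x u w]

lemma sd_iff : ∀ (k m : ℕ), Sd (F m) ((range' (m + 1) k).map c) ((range' (m + 1) k).map F) ↔
    ∀ i l, m ≤ i → i < l → l ≤ m + k → NoC c i l → F l = F i → F (i + 1) = F i
  | 0, m => by simp [Sd]; omega
  | k + 1, m => by
    have := notIn_iff (F := F) (c := c) (y := F m) (k + 1) m
    rw [range'_succ, map_cons, map_cons] at this ⊢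
    rw [NotIn] at this
    rw [Sd, sd_iff k]
    constructor
    · rintro ⟨h1, h2⟩ i l a b d e f
      rcases a.eq_or_lt with rfl | a
      · by_contra ne
        exact this.1 ⟨ne, h1.resolve_left ne⟩ l b d e f
      · exact h2 i l a b (by omega) e f
    · intro h
      refine ⟨?_, fun i l a b d => h i l (by omega) b (by omega)⟩
      by_cases e : F (m + 1) = F m
      exacts [Or.inl e, Or.inr (this.2 fun l a b d f => e (h m l le_rfl a b d f)).2]

lemma spec_iff {n : ℕ} (h0 : F 0 = 0) :
    Spec ((range' 1 n).map c) 1 0 [] 0 ((range' 1 n).map F) ↔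
      (∀ i ≤ n, F i = i ∨ ∃ j < i, F j = F i) ∧ F n = F 0 ∧ NCf n F ∧ SDf n c F := by
  have e : 0 :: (range' 1 n).map F = ofFn fun i : Fin (n + 1) => F i := by
    refine ext_getElem (by simp) fun i _ _ => ?_
    cases i <;> simp [h0, add_comm]
  have s := sd_iff (F := F) (c := c) n 0
  rw [h0, zero_add] at s
  simp only [Spec, length_map, true_and, reverse_nil, nil_append, not_mem_nil, false_imp_iff,
    implies_true, take_nil, and_true, rg_iff, s]
  rw [and_left_comm (a := NCr _)]
  refine and_congr ⟨fun h i hi => ?_, fun h i a b => ?_⟩ (and_congr ?_ (and_congr ?_ ?_))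
  · rcases i.eq_zero_or_pos with rfl | p
    · exact Or.inl h0
    · rcases h i p (by omega) with h | h | ⟨j, -, h⟩
      exacts [Or.inr ⟨0, p, by simpa [h0] using (mem_singleton.1 h).symm⟩, Or.inl h, Or.inr ⟨j, h⟩]
  · rcases h i (by omega) with h | ⟨j, h, h'⟩
    · tauto
    · rcases j.eq_zero_or_pos with rfl | p
      exacts [Or.inl (by simp [← h', h0]), Or.inr (Or.inr ⟨j, p, h, h'⟩)]
  · rw [e, ofFn_succ', h0]; simp
  · simp only [e, NCr, Du.sub_ofFn]
    constructor
    · intro h i j k l a b d f u w
      by_contra ne
      refine h _ _ ne ⟨![⟨i, by omega⟩, ⟨j, by omega⟩, ⟨k, by omega⟩, ⟨l, by omega⟩], ?_, rfl, rfl,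
        u.symm, w.symm⟩
      rw [Fin.strictMono_iff_lt_succ]
      intro x
      fin_cases x <;> simp [Fin.lt_def, a, b, d]
    · rintro h a b ne ⟨f, hf, e0, e1, e2, e3⟩
      exact ne (e0.symm.trans ((h _ _ _ _ (hf (by decide : (0 : Fin 4) < 1))
        (hf (by decide : (1 : Fin 4) < 2)) (hf (by decide : (2 : Fin 4) < 3))
        (Nat.lt_succ_iff.1 (f 3).2) (e0.trans e2.symm) (e1.trans e3.symm)).trans e1))
  · constructor
    · intro h i j l a b d u w
      induction j, a using Nat.le_induction with
      | base => exact h i l (by omega) (by omega) (by omega) u w.symm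
      | succ j hj ih =>
        have := ih (by omega)
        rw [← this]
        exact h j l (by omega) (by omega) (by omega) (fun x s t => u x (by omega) t)
          (w.symm.trans this.symm)
    · intro h i l _ b d u w
      rcases (show i + 1 ≤ l from b).eq_or_lt with rfl | b
      exacts [w, h i (i + 1) l (by omega) b (by omega) u w.symm]

lemma wt_eq (α β : ℤ) : ∀ (k m : ℕ), ∃ a b, a + b = k ∧
    b = ((Finset.Ico m (m + k)).filter fun i => F i = i).card ∧
      wt α β m ((range' m k).map F) = α ^ a * β ^ b
  | 0, m => ⟨0, 0, rfl, by simp, by simp [wt]⟩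
  | k + 1, m => by
    obtain ⟨a, b, h1, h2, h3⟩ := wt_eq α β k (m + 1)
    rw [range'_succ, map_cons, wt, h3, ← Finset.insert_Ico_add_one_left_eq_Ico (by omega),
      Finset.filter_insert, show m + (k + 1) = m + 1 + k by omega]
    split_ifs
    · exact ⟨a, b + 1, by omega, by rw [Finset.card_insert_of_notMem (by simp), h2], by ring⟩
    · exact ⟨a + 1, b, by omega, h2, by ring⟩

section
variable {P : Finset (ℝ × ℝ)}

open Classical in
noncomputable def lab (Q : ℕ → P) (r : Setoid P) (i : ℕ) : ℕ :=
  Nat.find (⟨i, r.refl _⟩ : ∃ j, r (Q j) (Q i))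

variable {Q : ℕ → P} {r : Setoid P}

lemma lab_spec (i : ℕ) : r (Q (lab Q r i)) (Q i) := by
  classical exact Nat.find_spec (⟨i, r.refl _⟩ : ∃ j, r (Q j) (Q i))

lemma lab_le {i j : ℕ} (h : r (Q j) (Q i)) : lab Q r i ≤ j := by
  classical exact Nat.find_min' _ h

lemma lab_eq {i j : ℕ} : lab Q r i = lab Q r j ↔ r (Q i) (Q j) :=
  ⟨fun e => r.trans (r.symm (lab_spec i)) (e ▸ lab_spec j), fun h => le_antisymm
    (lab_le (r.trans (lab_spec j) (r.symm h))) (lab_le (r.trans (lab_spec i) h))⟩

instance : Finite (Setoid P) :=
  Finite.of_injective (fun r : Setoid P => r.r) fun _ _ e => Setoid.ext fun a b =>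
    iff_of_eq (congrFun (congrFun e a) b)

lemma height_eq (r : NC P) : Order.height r = (P.card - Nat.card (Quotient r.1) : ℕ) := by
  classical
  have le : ∀ r : Setoid P, Nat.card (Quotient r) ≤ P.card := fun r => by
    simpa using Nat.card_le_card_of_surjective _ (Quotient.mk_surjective (s := r))
  have lt : ∀ r s : Setoid P, r < s → Nat.card (Quotient s) < Nat.card (Quotient r) := by
    intro r s h
    have su : Function.Surjective (Quotient.map' id fun a b g => h.le g : Quotient r → Quotient s) :=
      fun x => Quotient.inductionOn' x fun a => ⟨Quotient.mk'' a, rfl⟩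
    refine (Nat.card_le_card_of_surjective _ su).lt_of_ne fun e => h.not_ge fun a b g => ?_
    exact Quotient.exact' (((Nat.bijective_iff_surjective_and_card _).2 ⟨su, e.symm⟩).1
      (a₁ := Quotient.mk'' a) (a₂ := Quotient.mk'' b) (Quotient.sound' g))
  refine le_antisymm ?_ ?_
  · induction r using WellFoundedLT.induction with | ind r ih
    refine Order.height_le_coe_iff.2 fun s hs => (ih s hs).trans_lt ?_
    have := lt _ _ hs
    have := le s.1
    exact_mod_cast (by omega)
  · induction r using WellFoundedLT.induction with | ind r ih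
    by_cases h : ∃ a b, a ≠ b ∧ r.1 a b
    · obtain ⟨a, b, ne, hab⟩ := h
      obtain ⟨p, hp, mx⟩ := (Finset.univ.filter (r.1 a ·)).exists_max_image
        (fun x : P => toLex x.1) ⟨a, by simpa using r.1.refl a⟩
      simp only [Finset.mem_filter, Finset.mem_univ, true_and] at hp mx
      let s : Setoid P := r.1 ⊓ Setoid.ker (· = p)
      have hs : ∀ x y, s x y ↔ r.1 x y ∧ (x = p ↔ y = p) := fun x y =>
        Setoid.inf_iff_and.trans (and_congr_right fun _ => Setoid.ker_def.trans eq_iff_iff)
      have sp : ∀ y, r.1 p y → y ≠ p →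
          Disjoint (convexHull ℝ (block s p)) (convexHull ℝ (block s y)) := fun y h1 h2 => by
        refine sep (g := fun x => x.1 - p.1.1) (h := fun x => x.2 - p.1.2)
          (fun x y s t e => by simp; linear_combination p.1.1 * e)
          (fun x y s t e => by simp; linear_combination p.1.2 * e) ?_ ?_
        · rintro _ ⟨z, hz, rfl⟩
          simp [((hs _ _).1 hz).2.1 rfl]
        · rintro _ ⟨z, hz, rfl⟩
          have h3 := (hs _ _).1 hz
          have h4 : toLex z.1 < toLex p.1 := (mx z (r.1.trans hp (r.1.trans h1 h3.1))).lt_of_ne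
            fun e => h2 (h3.2.2 (Subtype.ext (toLex.injective e)))
          rcases Prod.Lex.lt_iff.1 h4 with t | t <;> simp only [ofLex_toLex] at t
          exacts [⟨by linarith, fun _ => by linarith⟩, ⟨by linarith [t.1], fun _ => by linarith [t.2]⟩]
      have nc : Noncrossing s := fun x y h => by
        by_cases k : r.1 x y
        · by_cases e : x = p
          · subst e; exact sp y k fun e => h ((hs _ _).2 ⟨k, by simp [e]⟩)
          · obtain rfl : y = p := by
              by_contra e'
              exact h ((hs _ _).2 ⟨k, by simp [e, e']⟩)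
            exact (sp x (r.1.symm k) e).symm
        · have : ∀ x, block s x ⊆ block r.1 x := fun x _ ⟨z, hz, e⟩ => ⟨z, ((hs _ _).1 hz).1, e⟩
          exact (r.2 x y k).mono (convexHull_mono (this x)) (convexHull_mono (this y))
      have sl : (⟨s, nc⟩ : NC P) < r := lt_of_le_not_ge (fun x y g => ((hs x y).1 g).1) fun g => by
        have h1 := ((hs _ _).1 (g hp)).2.2 rfl
        have h2 := ((hs _ _).1 (g hab)).2.1 h1
        exact ne (h1.trans h2.symm)
      have cd : Nat.card (Quotient s) ≤ Nat.card (Quotient r.1) + 1 := by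
        rw [← Finite.card_option]
        refine Nat.card_le_card_of_injective (Quotient.lift
          (fun x => if x = p then none else some (Quotient.mk r.1 x)) fun x y g => ?_) ?_
        · have := (hs x y).1 g
          simp [this.2, Quotient.sound this.1]
        · intro x y
          induction x using Quotient.inductionOn with | h x
          induction y using Quotient.inductionOn with | h y
          intro e
          refine Quotient.sound ((hs x y).2 ?_)
          simp only [Quotient.lift_mk] at e
          split_ifs at e with e1 e2 e2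
          exacts [by simp [e1, e2], ⟨Quotient.exact (Option.some.inj e), by simp [e1, e2]⟩]
      refine le_trans ?_ ((add_le_add_left (ih _ sl) 1).trans (Order.height_add_one_le sl))
      exact_mod_cast (by simp only; omega)
    · push Not at h
      have : P.card ≤ Nat.card (Quotient r.1) := by
        simpa using Nat.card_le_card_of_injective (Quotient.mk r.1) fun a b e => by
          by_contra ne
          exact h a b ne (Quotient.exact e)
      rw [Nat.sub_eq_zero_of_le this]; simp

end

end Pool.Agent.H8.Nc
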