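import Pool.Agent.H8.Nc4

namespace Pool.Agent.H8.Nc

open List

variable {n : ℕ} {q : ℕ → ℝ × ℝ} {c : ℕ → Bool} {P : Finset (ℝ × ℝ)}

lemma Cfg.sum (H : Cfg n q c) (hP : ∀ p, p ∈ P ↔ ∃ i < n, q i = p) [Fintype (NC P)] (α β : ℤ) :
    ∑ r : NC P, α ^ (n + 1 - Nat.card (Quotient r.1)) * β ^ (Nat.card (Quotient r.1) - 1) =
      M α β ((range' 1 n).map c) 0 false := by
  classical
  obtain ⟨y, y', a1, a2, a3, -⟩ := H.K
  have hn : 0 < n := by omega
  let Q : ℕ → P := fun i => ⟨q (i % n), (hP _).2 ⟨_, Nat.mod_lt _ hn, rfl⟩⟩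
  have Qi : ∀ i < n, (Q i).1 = q i := fun i hi => by simp [Q, Nat.mod_eq_of_lt hi]
  have Qn : Q n = Q 0 := by simp [Q]
  have su : ∀ p : P, ∃ i < n, Q i = p := fun p => by
    obtain ⟨i, hi, e⟩ := (hP p).1 p.2
    exact ⟨i, hi, Subtype.ext ((Qi i hi).trans e)⟩
  have l0 : ∀ r : Setoid P, lab Q r 0 = 0 := fun r => Nat.le_zero.1 (lab_le (r.refl _))
  have ln : ∀ r : Setoid P, lab Q r n = lab Q r 0 := fun r => lab_eq.2 (Qn ▸ r.refl _)
  have bk : ∀ (r : Setoid P) i, block r (Q i) = blk n q (lab Q r) (lab Q r i) := fun r i => by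
    ext x
    constructor
    · rintro ⟨b, hb, rfl⟩
      obtain ⟨j, hj, rfl⟩ := su b
      exact ⟨j, hj, lab_eq.2 (r.symm hb), Qi j hj⟩
    · rintro ⟨j, hj, e, rfl⟩
      exact ⟨Q j, r.symm (lab_eq.1 e), (Qi j hj).symm⟩
  have nc : ∀ r : Setoid P, Noncrossing r ↔ NCf n (lab Q r) ∧ SDf n c (lab Q r) := fun r => by
    rw [← H.geo (ln r)]
    refine ⟨fun h i _ j _ ne => bk r i ▸ bk r j ▸ h _ _ fun g => ne (lab_eq.2 g), fun h a b g => ?_⟩
    obtain ⟨i, hi, rfl⟩ := su a
    obtain ⟨j, hj, rfl⟩ := su b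
    rw [bk, bk]
    exact h i hi j hj fun e => g (lab_eq.1 e)
  have hI : I 1 0 [] 0 := ⟨by simp, by simp, by simp, by simp⟩
  have := sum_en α β ((range' 1 n).map c) 1 0 [] 0 hI
  simp only [length_nil, ne_eq, not_true, decide_false] at this
  rw [← this]
  refine Finset.sum_bij (fun r _ => (range' 1 n).map (lab Q r.1)) (fun r _ => ?_)
    (fun r _ s _ e => ?_) (fun L hL => ?_) fun r _ => ?_
  · rw [mem_en _ _ _ _ _ _ hI, spec_iff (l0 _)]
    refine ⟨fun i _ => ?_, ln _, (nc _).1 r.2⟩
    exact (lab_le (r.1.refl (Q i))).eq_or_lt.imp_right fun h => ⟨_, h, lab_eq.2 (lab_spec i)⟩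
  · have : ∀ i < n, lab Q r.1 i = lab Q s.1 i := fun i hi => by
      rcases i.eq_zero_or_pos with rfl | p
      exacts [by rw [l0, l0], map_inj_left.1 e i (mem_range'_1.2 (by omega))]
    refine Subtype.ext (Setoid.ext fun a b => ?_)
    obtain ⟨i, hi, rfl⟩ := su a
    obtain ⟨j, hj, rfl⟩ := su b
    rw [← lab_eq, ← lab_eq, this i hi, this j hj]
  · rw [mem_en _ _ _ _ _ _ hI] at hL
    obtain ⟨F, h0, rfl⟩ : ∃ F : ℕ → ℕ, F 0 = 0 ∧ L = (range' 1 n).map F := by
      have := hL.1
      refine ⟨fun i => (0 :: L).getD i 0, rfl, ext_getElem (by simpa using this) fun i a b => ?_⟩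
      simp [add_comm 1, a]
    obtain ⟨g1, g2, g3, g4⟩ := (spec_iff h0).1 hL
    have fx : ∀ i ≤ n, F i ≤ i ∧ F (F i) = F i := fun i => by
      induction i using Nat.strong_induction_on with | h i ih
      intro hi
      rcases g1 i hi with h | ⟨j, h, e⟩
      · exact ⟨h.le, by rw [h, h]⟩
      · exact e ▸ ⟨(ih j h (by omega)).1.trans h.le, (ih j h (by omega)).2⟩
    choose ix ix1 ix2 using su
    have ixQ : ∀ i ≤ n, F (ix (Q i)) = F i := fun i hi => by
      have : ∀ i < n, ix (Q i) = i := fun i hi => H.inj _ (ix1 _) _ hi (by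
        rw [← Qi _ (ix1 _), ix2, Qi i hi])
      rcases hi.eq_or_lt with rfl | hi
      exacts [by rw [Qn, this 0 hn, g2], by rw [this i hi]]
    have e : ∀ i ≤ n, lab Q (Setoid.ker fun p => F (ix p)) i = F i := fun i hi => by
      have a : lab Q (Setoid.ker fun p => F (ix p)) i ≤ F i := lab_le (Setoid.ker_def.2 (by
        rw [ixQ i hi, ixQ _ ((fx i hi).1.trans hi), (fx i hi).2]))
      have b := Setoid.ker_def.1 (lab_spec (Q := Q) (r := Setoid.ker fun p => F (ix p)) i)
      have d := a.trans ((fx i hi).1.trans hi)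
      rw [ixQ i hi, ixQ _ d] at b
      exact le_antisymm a (b ▸ (fx _ d).1)
    refine ⟨⟨Setoid.ker fun p => F (ix p), (nc _).2 ⟨fun i j k l a b d f => ?_,
      fun i j l a b d => ?_⟩⟩, Finset.mem_univ _,
      map_congr_left fun i hi => e i (by have := mem_range'_1.1 hi; omega)⟩
    · rw [e i (by omega), e j (by omega), e k (by omega), e l f]; exact g3 i j k l a b d f
    · rw [e i (by omega), e j (by omega), e l d]; exact g4 i j l a b d
  · obtain ⟨a, b, h1, h2, h3⟩ := wt_eq (F := lab Q r.1) α β n 1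
    have : Nat.card (Quotient r.1) = b + 1 := by
      have e : insert 0 ((Finset.Ico 1 (1 + n)).filter fun i => lab Q r.1 i = i) =
          (Finset.range n).filter fun i => lab Q r.1 i = i := by
        ext i
        have := l0 r.1
        have := ln r.1
        simp only [Finset.mem_insert, Finset.mem_filter, Finset.mem_Ico, Finset.mem_range]
        by_cases t : i = n
        · subst t; omega
        · by_cases t' : i = 0
          · subst t'; omega
          · omega
      rw [h2, ← Finset.card_insert_of_notMem (a := 0) (by simp), e, ← Nat.card_eq_finsetCard]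
      refine (Nat.card_eq_of_bijective (fun x => Quotient.mk r.1 (Q x.1)) ⟨fun x y g => ?_,
        fun x => ?_⟩).symm
      · exact Subtype.ext ((Finset.mem_filter.1 x.2).2.symm.trans
          ((lab_eq.2 (Quotient.exact g)).trans (Finset.mem_filter.1 y.2).2))
      · induction x using Quotient.inductionOn with | h p
        obtain ⟨i, hi, rfl⟩ := su p
        exact ⟨⟨lab Q r.1 i, Finset.mem_filter.2 ⟨Finset.mem_range.2
          ((lab_le (r.1.refl _)).trans_lt hi), lab_eq.2 (lab_spec i)⟩⟩, Quotient.sound (lab_spec i)⟩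
    rw [h3, this]
    congr 2; omega

theorem Cfg.main (H : Cfg n q c) (hP : ∀ p, p ∈ P ↔ ∃ i < n, q i = p) : ¬ RankSymmetric (NC P) := by
  classical
  rintro ⟨N, h1, h2⟩
  have := Fintype.ofFinite (NC P)
  obtain ⟨y, y', a1, a2, a3, -⟩ := H.K
  have pc : P.card = n := by
    rw [← Finset.card_range n]
    exact (Finset.card_bij (fun i _ => q i) (fun i hi => (hP _).2 ⟨i, Finset.mem_range.1 hi, rfl⟩)
      (fun i hi j hj => H.inj i (Finset.mem_range.1 hi) j (Finset.mem_range.1 hj)) fun p hp => by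
        obtain ⟨i, hi, e⟩ := (hP p).1 hp
        exact ⟨i, Finset.mem_range.2 hi, e⟩).symm
  have ne : Nonempty P := ⟨⟨q 0, (hP _).2 ⟨0, by omega, rfl⟩⟩⟩
  have nq : ∀ r : Setoid P, Nonempty (Quotient r) := fun r => ne.map (Quotient.mk r)
  have b1 : ∀ r : NC P, 1 ≤ Nat.card (Quotient r.1) := fun r => Nat.card_pos
  have b2 : ∀ r : NC P, Nat.card (Quotient r.1) ≤ n := fun r => by
    simpa [pc] using Nat.card_le_card_of_surjective _ (Quotient.mk_surjective (s := r.1))
  simp only [height_eq, Nat.cast_inj, pc] at h2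
  obtain rfl : n = N + 1 := by
    let t : NC P := ⟨⊤, fun a b h => absurd trivial h⟩
    have ht : Nat.card (Quotient t.1) = 1 := Nat.card_eq_one_iff_unique.2
      ⟨⟨fun a b => Quotient.inductionOn₂ a b fun _ _ => Quotient.sound trivial⟩, inferInstance⟩
    obtain ⟨p, -, hp⟩ := Order.exists_series_of_height_eq_coe t (height_eq t)
    have ch : IsChain (· ≤ ·) (Set.range p) := by
      rintro _ ⟨i, rfl⟩ _ ⟨j, rfl⟩ -
      exact (le_total i j).imp (p.monotone ·) (p.monotone ·)
    obtain ⟨M, hM, hs⟩ := ch.exists_maxChain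
    have k1 := Set.ncard_le_ncard hs (Set.toFinite _)
    rw [h1 M hM, Set.ncard_range_of_injective p.strictMono.injective, Nat.card_eq_fintype_card,
      Fintype.card_fin, hp, ht, pc] at k1
    obtain ⟨m, hm⟩ := exists_minimal_of_wellFoundedLT (fun _ : NC P => True) ⟨t, trivial⟩
    have k2 := height_eq m
    rw [Order.height_eq_zero.2 fun x hx => hm.2 trivial hx, pc] at k2
    have k3 := h2 0 (by omega)
    obtain ⟨x, hx⟩ := Set.nonempty_of_ncard_ne_zero (k3 ▸ Set.ncard_ne_zero_of_mem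
      (a := m) (by exact_mod_cast k2.symm))
    have := b1 x
    simp only [Set.mem_setOf_eq] at hx
    omega
  have key : ∀ f : ℕ → ℤ, ∑ r : NC P, f (N + 1 - Nat.card (Quotient r.1)) =
      ∑ i ∈ Finset.range (N + 1), {x : NC P | N + 1 - Nat.card (Quotient x.1) = i}.ncard * f i := by
    intro f
    rw [← Finset.sum_fiberwise_of_maps_to (g := fun r : NC P => N + 1 - Nat.card (Quotient r.1))
      (t := Finset.range (N + 1)) fun r _ => Finset.mem_range.2 (by have := b1 r; omega)]
    refine Finset.sum_congr rfl fun i _ => ?_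
    rw [Finset.sum_congr rfl fun r hr => by rw [(Finset.mem_filter.1 hr).2], Finset.sum_const,
      ← Set.ncard_coe_finset]
    simp
  refine M_ne (cs := (range' 1 (N + 1)).map c) ?_ ?_ ?_ ?_
  · simp [range'_concat, add_comm 1, H.cn]
  · rw [isChain_iff_getElem]
    intro i hi
    simpa [add_comm 1] using H.nb (i + 1) (by simp at hi; omega)
  · have := H.nb 0 (by omega)
    simpa [range'_succ, H.c0] using this
  · rw [← H.sum hP, ← H.sum hP]
    have e1 := key fun i => 2 * 2 ^ i
    have e2 := key fun i => 2 ^ (N - i)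
    rw [← Finset.sum_range_reflect] at e2
    rw [Finset.sum_congr rfl fun r _ => (by
      have := b2 r
      rw [one_pow, mul_one, show N + 1 + 1 - Nat.card (Quotient r.1)
        = N + 1 - Nat.card (Quotient r.1) + 1 by omega, pow_succ'] :
        _ = 2 * (2 : ℤ) ^ (N + 1 - Nat.card (Quotient r.1))), e1,
      Finset.sum_congr rfl fun (r : NC P) _ => (by
      have := b2 r
      have := b1 r
      rw [one_pow, one_mul]; congr 1; omega :
        _ = (2 : ℤ) ^ (N - (N + 1 - Nat.card (Quotient r.1)))), e2, Finset.mul_sum]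
    refine Finset.sum_congr rfl fun i hi => ?_
    have := Finset.mem_range.1 hi
    rw [h2 i (by omega), show N + 1 - 1 - i = N - i by omega, show N - (N - i) = i by omega]
    ring

end Pool.Agent.H8.Nc
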