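import Pool.Agent.H8.Nc5

namespace Pool.Agent.H8.Nc

open Set

lemma bary {C : Set (ℝ × ℝ)} (hC : Convex ℝ C) {a b c x : ℝ × ℝ} (ha : a ∈ C) (hb : b ∈ C)
    (hc : c ∈ C) (h : 0 < det a b c) (h1 : 0 ≤ det x b c) (h2 : 0 ≤ det a x c)
    (h3 : 0 ≤ det a b x) : x ∈ C := by
  have h' := h.ne'
  have := hC.sum_mem (t := Finset.univ)
    (w := ![det x b c / det a b c, det a x c / det a b c, det a b x / det a b c]) (z := ![a, b, c])
    (fun i _ => by fin_cases i <;> simp <;> positivity)
    (by simp [Fin.sum_univ_succ]; field_simp; simp only [det]; ring)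
    (fun i _ => by fin_cases i <;> simpa)
  convert this using 1
  ext <;> simp [Fin.sum_univ_succ] <;> field_simp <;> simp only [det] <;> ring

lemma exists_list {P : Finset (ℝ × ℝ)} (hn : ¬ Collinear ℝ (P : Set (ℝ × ℝ))) :
    ∃ (k : ℕ) (v : ℕ → ℝ × ℝ), 3 ≤ k ∧ v k = v 0 ∧
      (∀ i j l, i < j → j < l → l < k → 0 < det (v i) (v j) (v l)) ∧
      (∀ i, v i ∈ extremePoints ℝ (convexHull ℝ (P : Set (ℝ × ℝ)))) ∧
      convexHull ℝ (P : Set (ℝ × ℝ)) ⊆ convexHull ℝ (v '' Iio k) := by
  classical
  set K := convexHull ℝ (P : Set (ℝ × ℝ)) with hK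
  have cv : Convex ℝ K := convex_convexHull _ _
  have fE : (extremePoints ℝ K).Finite := P.finite_toSet.subset extremePoints_convexHull_subset
  have KE : K = convexHull ℝ (extremePoints ℝ K) := by
    rw [← (fE.isClosed_convexHull ℝ).closure_eq,
      closure_convexHull_extremePoints (P.finite_toSet.isCompact_convexHull ℝ) cv]
  have X : ∀ e ∈ extremePoints ℝ K, e ∉ convexHull ℝ (K \ {e}) := fun e he =>
    (cv.mem_extremePoints_iff_mem_diff_convexHull_diff.1 he).2
  obtain ⟨o, ho⟩ : (extremePoints ℝ K).Nonempty := by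
    by_contra h
    rw [not_nonempty_iff_eq_empty] at h
    rw [h, convexHull_empty, hK, convexHull_eq_empty] at KE
    exact hn (KE ▸ collinear_empty _ _)
  obtain ⟨f, u, f1, f2⟩ := geometric_hahn_banach_point_closed (convex_convexHull ℝ _)
    ((fE.subset (diff_subset (t := {o}))).isClosed_convexHull ℝ) fun h =>
      X o ho (convexHull_mono (diff_subset_diff_left extremePoints_subset) h)
  obtain ⟨α, β, hf⟩ : ∃ α β : ℝ, ∀ x, f x = α * x.1 + β * x.2 := ⟨f (1, 0), f (0, 1), fun x => by
    rw [mul_comm, mul_comm (f _), ← smul_eq_mul, ← smul_eq_mul, ← map_smul, ← map_smul, ← map_add]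
    simp⟩
  have fp : ∀ a ∈ extremePoints ℝ K \ {o}, 0 < α * (a.1 - o.1) + β * (a.2 - o.2) := fun a ha => by
    have := f2 a (subset_convexHull _ _ ha)
    rw [hf] at f1 this; linarith
  let κ : ℝ × ℝ → ℝ := fun a =>
    (α * (a.2 - o.2) - β * (a.1 - o.1)) / (α * (a.1 - o.1) + β * (a.2 - o.2))
  have kd : ∀ a ∈ extremePoints ℝ K \ {o}, ∀ b ∈ extremePoints ℝ K \ {o},
      (κ a < κ b ↔ 0 < det o a b) := fun a ha b hb => by
    have p : 0 < α ^ 2 + β ^ 2 := by
      by_contra h
      have h1 : α = 0 := by nlinarith [sq_nonneg α, sq_nonneg β]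
      have h2 : β = 0 := by nlinarith [sq_nonneg α, sq_nonneg β]
      simpa [h1, h2] using fp a ha
    rw [div_lt_div_iff₀ (fp a ha) (fp b hb), ← sub_pos, ← mul_pos_iff_of_pos_left p (b := det o a b)]
    refine iff_of_eq (congrArg _ ?_)
    simp only [det]; ring
  have half : ∀ a ∈ extremePoints ℝ K \ {o}, ∀ b ∈ extremePoints ℝ K \ {o}, det o a b = 0 →
      α * (a.1 - o.1) + β * (a.2 - o.2) ≤ α * (b.1 - o.1) + β * (b.2 - o.2) → a = b := by
    intro a ha b hb h le
    by_contra ne
    refine X a ha.1 ?_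
    have p := fp b hb
    have p' := p.ne'
    convert (convex_convexHull ℝ (K \ {a})).add_smul_sub_mem
      (subset_convexHull _ _ ⟨extremePoints_subset ho, Ne.symm ha.2⟩)
      (subset_convexHull _ _ ⟨extremePoints_subset hb.1, Ne.symm ne⟩)
      ⟨div_nonneg (fp a ha).le p.le, (div_le_one p).2 le⟩ using 1
    simp only [det] at h
    ext <;> simp <;> field_simp
    · linear_combination β * h
    · linear_combination (-α) * h
  have ki : InjOn κ (extremePoints ℝ K \ {o}) := fun a ha b hb e => by
    have h1 := (kd a ha b hb).not.1 e.not_lt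
    have h2 := (kd b hb a ha).not.1 e.not_gt
    have h3 : det o b a = -det o a b := by simp only [det]; ring
    rcases le_total (α * (a.1 - o.1) + β * (a.2 - o.2)) (α * (b.1 - o.1) + β * (b.2 - o.2)) with t | t
    exacts [half a ha b hb (by linarith) t, (half b hb a ha (by linarith) t).symm]
  have fS := (fE.subset (diff_subset (t := {o}))).image κ
  obtain ⟨m, σ, mono, hσ⟩ : ∃ (m : ℕ) (σ : Fin m → ℝ), StrictMono σ ∧
      range σ = κ '' (extremePoints ℝ K \ {o}) :=
    ⟨_, fS.toFinset.orderEmbOfFin rfl, (fS.toFinset.orderEmbOfFin rfl).strictMono, by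
      rw [Finset.range_orderEmbOfFin]; simp⟩
  choose w w1 w2 using fun i => (hσ ▸ mem_range_self i : σ i ∈ κ '' (extremePoints ℝ K \ {o}))
  obtain ⟨v, v0, vk, vw, vE⟩ : ∃ v : ℕ → ℝ × ℝ, v 0 = o ∧ v (m + 1) = o ∧
      (∀ i : Fin m, v (i + 1) = w i) ∧ ∀ i, v i ∈ extremePoints ℝ K :=
    ⟨fun i => if h : 0 < i ∧ i - 1 < m then w ⟨i - 1, h.2⟩ else o, by simp, by simp,
      fun i => by simp, fun i => by dsimp only; split_ifs; exacts [(w1 _).1, ho]⟩
  have sub : K ⊆ convexHull ℝ (v '' Iio (m + 1)) := KE.le.trans (convexHull_mono fun e he => by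
    by_cases h : e = o
    · exact ⟨0, by simp, v0.trans h.symm⟩
    · obtain ⟨i, hi⟩ := (hσ ▸ mem_image_of_mem κ ⟨he, h⟩ : κ e ∈ range σ)
      exact ⟨i + 1, by simp, (vw i).trans (ki (w1 i) ⟨he, h⟩ ((w2 i).trans hi))⟩)
  have V3 : ∀ i j, 0 < i → i < j → j < m + 1 → 0 < det o (v i) (v j) := fun i j a b d => by
    obtain ⟨i, rfl⟩ := Nat.exists_eq_succ_of_ne_zero a.ne'
    obtain ⟨j, rfl⟩ := Nat.exists_eq_succ_of_ne_zero (a.trans b).ne'
    rw [vw ⟨i, by omega⟩, vw ⟨j, by omega⟩, ← kd _ (w1 _) _ (w1 _), w2, w2]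
    exact mono (by simpa using b)
  refine ⟨m + 1, v, ?_, vk.trans v0.symm, fun i j l a b d => ?_, vE, sub⟩
  · by_contra h
    refine hn ((collinear_iff_exists_forall_eq_smul_vadd _).2 ⟨v 0, v 1 - v 0, fun p hp => ?_⟩)
    have := convexHull_mono (𝕜 := ℝ) (show v '' Iio (m + 1) ⊆ {v 0, v 1} by
      rintro _ ⟨i, hi, rfl⟩
      have : i = 0 ∨ i = 1 := by simp at hi; omega
      rcases this with rfl | rfl <;> simp) (sub (subset_convexHull _ _ hp))
    rw [convexHull_pair, segment_eq_image'] at this
    obtain ⟨r, -, rfl⟩ := this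
    exact ⟨r, by simp [add_comm]⟩
  · rcases i.eq_zero_or_pos with rfl | p
    · exact v0 ▸ V3 j l a b d
    · by_contra h
      have h1 := V3 i j p a (by omega)
      have h2 := V3 j l (by omega) b d
      refine X _ (vE j) (bary (convex_convexHull _ _) (a := o) (b := v i) (c := v l)
        (subset_convexHull _ _ ⟨extremePoints_subset ho, fun e => ?_⟩)
        (subset_convexHull _ _ ⟨extremePoints_subset (vE i), fun e => ?_⟩)
        (subset_convexHull _ _ ⟨extremePoints_subset (vE l), fun e => ?_⟩)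
        (V3 i l p (by omega) d) (by simp only [det] at *; linarith) h2.le h1.le)
      · simp [← mem_singleton_iff.1 e, det] at h1
      · simp [mem_singleton_iff.1 e, det, mul_comm] at h1
      · simp [mem_singleton_iff.1 e, det, mul_comm] at h2

theorem main {P : Finset (ℝ × ℝ)} (hn : ¬ Collinear ℝ (P : Set (ℝ × ℝ)))
    (hb : ∀ p ∈ P, p ∈ frontier (convexHull ℝ (P : Set (ℝ × ℝ))))
    (hs : ∀ u ∈ extremePoints ℝ (convexHull ℝ (P : Set (ℝ × ℝ))),
      ∀ w ∈ extremePoints ℝ (convexHull ℝ (P : Set (ℝ × ℝ))), u ≠ w →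
        segment ℝ u w ⊆ frontier (convexHull ℝ (P : Set (ℝ × ℝ))) → ∃ p ∈ P, p ∈ openSegment ℝ u w) :
    ¬ RankSymmetric (NC P) := by
  obtain ⟨k, v, hk, h0, hv, vE, sub⟩ := exists_list hn
  set K := convexHull ℝ (P : Set (ℝ × ℝ)) with hK
  have cv : Convex ℝ K := convex_convexHull _ _
  have vK : ∀ i, v i ∈ K := fun i => extremePoints_subset (vE i)
  have sp : ∀ i < k, ∀ j < k, j ≠ i → j ≠ i + 1 → ¬ (i + 1 = k ∧ j = 0) →
      0 < det (v i) (v (i + 1)) (v j) := fun i a j b d e f => by
    rcases (show i + 1 ≤ k from a).eq_or_lt with t | t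
    · have := hv 0 j i (by omega) (by omega) a
      rw [t, h0]; simp only [det] at *; linarith
    · by_cases u : j < i
      · have := hv j i (i + 1) u (by omega) t
        simp only [det] at *; linarith
      · exact hv i (i + 1) j (by omega) (by omega) b
  have sz : ∀ i, ∀ x ∈ segment ℝ (v i) (v (i + 1)), det (v i) (v (i + 1)) x = 0 := fun i x hx => by
    rw [segment_eq_image'] at hx
    obtain ⟨r, -, rfl⟩ := hx
    simp [det]; ring
  have KC : ∀ i < k, ∀ x ∈ K, 0 < det (v i) (v (i + 1)) x ∨ x ∈ segment ℝ (v i) (v (i + 1)) := by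
    intro i hi x hx
    refine convexHull_min (t := {x | 0 < det (v i) (v (i + 1)) x ∨ x ∈ segment ℝ (v i) (v (i + 1))})
      ?_ (convex_iff_forall_pos.2 fun x hx y hy s t hs ht e => ?_) (sub hx)
    · rintro _ ⟨j, hj, rfl⟩
      by_cases a : j = i
      · exact Or.inr (a ▸ left_mem_segment _ _ _)
      by_cases b : j = i + 1
      · exact Or.inr (b ▸ right_mem_segment _ _ _)
      by_cases d : i + 1 = k ∧ j = 0
      · exact Or.inr (by rw [d.1, d.2, h0]; exact right_mem_segment _ _ _)
      · exact Or.inl (sp i hi j hj a b d)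
    · have := aff_det (v i) (v (i + 1)) 1 x y s t e
      simp only [one_mul] at this
      rcases hx with hx | hx <;> rcases hy with hy | hy
      · exact Or.inl (by rw [this]; positivity)
      · exact Or.inl (by rw [this, sz i y hy]; positivity)
      · exact Or.inl (by rw [this, sz i x hx]; positivity)
      · exact Or.inr (convex_segment _ _ hx hy hs.le ht.le e)
  obtain ⟨n, q, c, H, hP⟩ := exists_cfg hk h0 hv (P := P)
    (fun i _ => extremePoints_convexHull_subset (vE i)) (fun p hp => by
      by_contra h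
      push Not at h
      refine (hb p hp).2 (mem_interior.2 ⟨⋂ i ∈ Finset.range k, {x | 0 < det (v i) (v (i + 1)) x},
        fun x hx => ?_, isOpen_biInter_finset fun i _ =>
          isOpen_lt continuous_const (by unfold det; fun_prop), ?_⟩)
      · simp only [mem_iInter, Finset.mem_range, mem_setOf_eq] at hx
        classical
        have j1 := Nat.le_findGreatest (P := fun j => 0 < det (v 0) (v j) x) (m := 1) (n := k - 1)
          (by omega) (hx 0 (by omega))
        have j2 := Nat.findGreatest_spec (P := fun j => 0 < det (v 0) (v j) x) (m := 1) (n := k - 1)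
          (by omega) (hx 0 (by omega))
        have j3 := Nat.findGreatest_le (P := fun j => 0 < det (v 0) (v j) x) (k - 1)
        have j4 := fun a => Nat.findGreatest_is_greatest (P := fun j => 0 < det (v 0) (v j) x)
          (n := k - 1) (Nat.lt_succ_self _) a
        generalize Nat.findGreatest (fun j => 0 < det (v 0) (v j) x) (k - 1) = j at *
        have j5 : j + 1 < k := by
          by_contra t
          have := hx j (by omega)
          rw [show j + 1 = k by omega, h0] at this
          simp only [det] at *; linarith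
        have j6 := j4 (by omega)
        have j7 := hx j (by omega)
        exact bary cv (vK 0) (vK j) (vK (j + 1)) (hv 0 j (j + 1) j1 (by omega) j5)
          (by simp only [det] at *; linarith) (by simp only [det] at *; linarith) j2.le
      · simp only [mem_iInter, Finset.mem_range, mem_setOf_eq]
        exact fun i hi => (KC i hi p (subset_convexHull _ _ hp)).resolve_right (h i hi))
    fun i hi => by
      obtain ⟨j, hj⟩ : ∃ j, 0 < det (v i) (v (i + 1)) (v j) := by
        by_cases a : i = 0
        · exact ⟨2, sp i hi 2 (by omega) (by omega) (by omega) (by omega)⟩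
        · exact ⟨i - 1, sp i hi _ (by omega) (by omega) (by omega) (by omega)⟩
      refine hs _ (vE i) _ (vE (i + 1)) (fun e => by simp [e, det] at hj) fun x hx =>
        ⟨subset_closure (cv.segment_subset (vK _) (vK _) hx), fun h => ?_⟩
      have ev : ∀ᶠ ε in nhds (0 : ℝ), x + ε • (x - v j) ∈ K :=
        ContinuousAt.eventually_mem (by fun_prop) (by simpa using mem_interior_iff_mem_nhds.1 h)
      obtain ⟨ε, e1, e2⟩ := ((ev.filter_mono nhdsWithin_le_nhds).and
        (self_mem_nhdsWithin (s := Ioi (0 : ℝ)))).exists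
      have e3 : det (v i) (v (i + 1)) (x + ε • (x - v j)) = (1 + ε) * det (v i) (v (i + 1)) x
          - ε * det (v i) (v (i + 1)) (v j) := by simp [det]; ring
      have := mul_pos e2 hj
      rw [sz i x hx] at e3
      rcases KC i hi _ e1 with t | t
      exacts [by linarith, by linarith [sz i _ t]]
  exact H.main hP

end Pool.Agent.H8.Nc
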