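import Mathlib

namespace Pool.Agent.H8.Nc

/-- The determinant of `b - a` and `c - a`; positive iff `a, b, c` turn counterclockwise. -/
def det (a b c : ℝ × ℝ) : ℝ := (b.1 - a.1) * (c.2 - a.2) - (b.2 - a.2) * (c.1 - a.1)

/-- The block of `a`, as a set of points of the plane. -/
def block {P : Finset (ℝ × ℝ)} (r : Setoid P) (a : P) : Set (ℝ × ℝ) :=
  {x | ∃ b : P, r a b ∧ x = b}

/-- Distinct blocks have disjoint convex hulls. -/
def Noncrossing {P : Finset (ℝ × ℝ)} (r : Setoid P) : Prop :=
  ∀ a b : P, ¬ r a b → Disjoint (convexHull ℝ (block r a)) (convexHull ℝ (block r b))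

/-- The poset of noncrossing partitions of `P`, ordered by refinement (finer is smaller). -/
abbrev NC (P : Finset (ℝ × ℝ)) : Type := {r : Setoid P // Noncrossing r}

/-- Graded of some rank `N`, with `r_i = r_{N-i}`. -/
def RankSymmetric (α : Type) [PartialOrder α] : Prop :=
  ∃ N : ℕ, (∀ c : Set α, IsMaxChain (· ≤ ·) c → c.ncard = N + 1) ∧
    ∀ i ≤ N, {x : α | Order.height x = (i : ℕ)}.ncard = {x : α | Order.height x = (N - i : ℕ)}.ncard

end Pool.Agent.H8.Nc
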