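import Mathlib

set_option autoImplicit false

namespace Pool.Agent.H8.Obtuse

open Set Filter Topology Real EuclideanGeometry

abbrev E := EuclideanSpace ℝ (Fin 6)

noncomputable def f (a s y : ℝ) : ℝ :=
  (s ^ 2 - 1 + y ^ 2) / (√((-1 - s) ^ 2 + y ^ 2 + a ^ 2) * √((1 - s) ^ 2 + y ^ 2 + a ^ 2))

theorem cont {a : ℝ} (ha : 0 < a) : Continuous fun p : ℝ × ℝ => f a p.1 p.2 := by
  unfold f
  exact Continuous.div (by fun_prop) (by fun_prop) fun p => by positivity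

theorem level {c : ℝ} (h0 : -1 < c) (h1 : c < 0) :
    ∃ a : ℝ, 0 < a ∧ ∃ δ : ℝ, 0 < δ ∧ ∀ s ∈ Ioo 0 δ, ∃ y, f a s y = c := by
  obtain ⟨a, ha, h⟩ : ∃ a : ℝ, 0 < a ∧ f a 0 0 < c := by
    refine ⟨√(1 + c), sqrt_pos.2 (by linarith), ?_⟩
    simp only [f, sq_sqrt (show 0 ≤ 1 + c by linarith)]
    norm_num
    rw [mul_self_sqrt (by linarith), div_lt_iff₀ (by linarith)]
    nlinarith
  have t : Continuous fun s => f a s 0 := (cont ha).comp (Continuous.prodMk_left 0)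
  obtain ⟨δ, hδ, h2⟩ := Metric.eventually_nhds_iff.1 (t.continuousAt.eventually_lt
    continuousAt_const h)
  refine ⟨a, ha, δ, hδ, fun s hs => ?_⟩
  have t2 : Continuous fun y => f a s y := (cont ha).comp (Continuous.prodMk_right s)
  have := intermediate_value_univ 0 1 t2 (show c ∈ Icc (f a s 0) (f a s 1) from
    ⟨(h2 (by simpa [abs_of_pos hs.1] using hs.2)).le, h1.le.trans (by
      simp only [f]; norm_num; positivity)⟩)
  exact this

theorem main (α : ℝ) (h0 : π / 2 < α) (h1 : α < π) (n : ℕ) : ∃ S : Finset E, S.card = n ∧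
    (n / 3) ^ 3 ≤ {t : E × E × E | t.1 ∈ S ∧ t.2.1 ∈ S ∧ t.2.2 ∈ S ∧ t.1 ≠ t.2.1 ∧ t.1 ≠ t.2.2 ∧
      t.2.1 ≠ t.2.2 ∧ ∠ t.1 t.2.1 t.2.2 = α}.ncard := by
  classical
  obtain ⟨a, ha, δ, hδ, h⟩ := level (c := cos α)
    (by rw [← cos_pi]; exact cos_lt_cos_of_nonneg_of_le_pi (by linarith [pi_pos]) le_rfl h1)
    (cos_neg_of_pi_div_two_lt_of_lt h0 (by linarith [pi_pos]))
  choose! y hy using h
  let X : ℝ → E := fun t => !₂[-1, 0, t, √(a ^ 2 - t ^ 2), 0, 0]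
  let Y : ℝ → E := fun s => !₂[s, y s, 0, 0, 0, 0]
  let Z : ℝ → E := fun t => !₂[1, 0, 0, 0, t, √(a ^ 2 - t ^ 2)]
  obtain ⟨A, hA, cA⟩ := ((Ioo_infinite ha).image (f := X) fun s _ t _ e => by
    simpa [X] using congrArg (· 2) e).exists_subset_card_eq (n / 3)
  obtain ⟨B, hB, cB⟩ := ((Ioo_infinite hδ).image (f := Y) fun s _ t _ e => by
    simpa [Y] using congrArg (· 0) e).exists_subset_card_eq (n / 3)
  obtain ⟨C, hC, cC⟩ := ((Ioo_infinite ha).image (f := Z) fun s _ t _ e => by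
    simpa [Z] using congrArg (· 4) e).exists_subset_card_eq (n - 2 * (n / 3))
  have ab : ∀ p ∈ A, ∀ q ∈ B, p ≠ q := fun p hp q hq e => by
    obtain ⟨s, hs, rfl⟩ := hA hp
    obtain ⟨t, -, rfl⟩ := hB hq
    exact hs.1.ne' (by simpa [X, Y] using congrArg (· 2) e)
  have ac : ∀ p ∈ A, ∀ q ∈ C, p ≠ q := fun p hp q hq e => by
    obtain ⟨s, hs, rfl⟩ := hA hp
    obtain ⟨t, -, rfl⟩ := hC hq
    exact hs.1.ne' (by simpa [X, Z] using congrArg (· 2) e)
  have bc : ∀ p ∈ B, ∀ q ∈ C, p ≠ q := fun p hp q hq e => by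
    obtain ⟨s, -, rfl⟩ := hB hp
    obtain ⟨t, ht, rfl⟩ := hC hq
    exact ht.1.ne (by simpa [Y, Z] using congrArg (· 4) e)
  refine ⟨A ∪ B ∪ C, ?_, ?_⟩
  · rw [Finset.card_union_of_disjoint, Finset.card_union_of_disjoint, cA, cB, cC]
    · omega
    · exact Finset.disjoint_left.2 fun p hp hq => ab p hp p hq rfl
    · exact Finset.disjoint_left.2 fun p hp hq => (Finset.mem_union.1 hp).elim
        (fun h => ac p h p hq rfl) fun h => bc p h p hq rfl
  · refine le_trans ?_ (ncard_le_ncard (s := ((A ×ˢ B ×ˢ C : Finset (E × E × E)) : Set _)) ?_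
      (((A ∪ B ∪ C) ×ˢ (A ∪ B ∪ C) ×ˢ (A ∪ B ∪ C)).finite_toSet.subset fun t ht => by
        simp only [Finset.coe_product, mem_prod, Finset.mem_coe]; exact ⟨ht.1, ht.2.1, ht.2.2.1⟩))
    · rw [ncard_coe_finset, Finset.card_product, Finset.card_product, cA, cB, cC, pow_three]
      gcongr; omega
    · rintro ⟨p, q, r⟩ ht
      simp only [Finset.coe_product, mem_prod, Finset.mem_coe] at ht
      obtain ⟨hp, hq, hr⟩ := ht
      refine ⟨by simp [hp], by simp [hq], by simp [hr], ab p hp q hq, ac p hp r hr, bc q hq r hr, ?_⟩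
      obtain ⟨t, ht, rfl⟩ := hA hp
      obtain ⟨s, hs, rfl⟩ := hB hq
      obtain ⟨u, hu, rfl⟩ := hC hr
      have k : ∀ t ∈ Ioo 0 a, √(a ^ 2 - t ^ 2) ^ 2 = a ^ 2 - t ^ 2 := fun t ht =>
        sq_sqrt (by nlinarith [ht.1, ht.2])
      rw [← arccos_cos (x := α) (by linarith [pi_pos]) h1.le, ← hy s hs]
      simp only [EuclideanGeometry.angle, InnerProductGeometry.angle, f]
      congr 2
      · simp [X, Y, Z, PiLp.inner_apply, Fin.sum_univ_six]; ring
      · rw [EuclideanSpace.norm_eq, EuclideanSpace.norm_eq]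
        congr 2
        · simp [X, Y, Fin.sum_univ_six, k t ht]
        · simp [Z, Y, Fin.sum_univ_six, k u hu]

end Pool.Agent.H8.Obtuse
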