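import Mathlib

/-! Monomial spans, a Koszul derivation and its homotopy on `F_2[X_0, X_1, ...]`. -/

namespace Pool.Agent.H8.Omg

open MvPolynomial Finsupp

abbrev R := MvPolynomial ℕ (ZMod 2)

theorem two_eq : (2 : R) = 0 := by
  have := CharP.cast_eq_zero R 2
  exact_mod_cast this

theorem add_self' (x : R) : x + x = 0 := by linear_combination x * two_eq

/-- Span of the monomials with exponent satisfying `P`. -/
noncomputable def Sp (P : (ℕ →₀ ℕ) → Prop) : Submodule (ZMod 2) R :=
  Submodule.span _ {x | ∃ a, P a ∧ x = monomial a 1}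

theorem mon_mem {P : (ℕ →₀ ℕ) → Prop} {a : ℕ →₀ ℕ} (h : P a) : monomial a 1 ∈ Sp P :=
  Submodule.subset_span ⟨a, h, rfl⟩

theorem Sp_lin {P : (ℕ →₀ ℕ) → Prop} {M : Submodule (ZMod 2) R} (f : R →ₗ[ZMod 2] R)
    (h : ∀ a, P a → f (monomial a 1) ∈ M) {x : R} (hx : x ∈ Sp P) : f x ∈ M := by
  have : Sp P ≤ M.comap f := Submodule.span_le.2 (by rintro _ ⟨a, ha, rfl⟩; exact h a ha)
  exact this hx

theorem Sp_mono {P Q : (ℕ →₀ ℕ) → Prop} (h : ∀ a, P a → Q a) {x : R} (hx : x ∈ Sp P) :
    x ∈ Sp Q :=
  Sp_lin LinearMap.id (fun a ha => mon_mem (h a ha)) hx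

theorem Sp_mul {P Q T : (ℕ →₀ ℕ) → Prop} (h : ∀ a b, P a → Q b → T (a + b)) {x y : R}
    (hx : x ∈ Sp P) (hy : y ∈ Sp Q) : x * y ∈ Sp T := by
  refine Sp_lin (LinearMap.mulRight _ y) (fun a ha => ?_) hx
  refine Sp_lin (LinearMap.mulLeft _ (monomial a 1)) (fun b hb => ?_) hy
  simpa [monomial_mul] using mon_mem (h a b ha hb)

theorem Sp_supp (x : R) : x ∈ Sp (fun a => a ∈ x.support) := by
  have h : ∑ a ∈ x.support, monomial a (coeff a x) ∈ Sp (fun a => a ∈ x.support) := by
    refine Submodule.sum_mem _ fun a ha => ?_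
    have := Submodule.smul_mem _ (coeff a x) (mon_mem (P := fun a => a ∈ x.support) ha)
    simpa [smul_monomial] using this
  rwa [← x.as_sum] at h

theorem Sp_false {P : (ℕ →₀ ℕ) → Prop} (h : ∀ a, ¬ P a) {x : R} (hx : x ∈ Sp P) : x = 0 := by
  have := Sp_lin (M := ⊥) LinearMap.id (fun a ha => absurd ha (h a)) hx
  simpa using this

/-- The weight with `X i` of weight `i`. -/
def nu (a : ℕ →₀ ℕ) : ℕ := a.sum fun i k => i * k

theorem nu_add (a b : ℕ →₀ ℕ) : nu (a + b) = nu a + nu b :=
  Finsupp.sum_add_index' (by simp) (by intros; ring)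

theorem nu_single (i k : ℕ) : nu (single i k) = i * k := Finsupp.sum_single_index (by simp)

/-- The number of squares of variables dividing the monomial. -/
def jd (a : ℕ →₀ ℕ) : ℕ := a.sum fun _ k => k / 2

theorem jd_add (a b : ℕ →₀ ℕ) : jd a + jd b ≤ jd (a + b) := by
  unfold jd
  rw [Finsupp.sum_of_support_subset a (s := a.support ∪ b.support) Finset.subset_union_left _
      (by simp),
    Finsupp.sum_of_support_subset b (s := a.support ∪ b.support) Finset.subset_union_right _
      (by simp),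
    Finsupp.sum_of_support_subset (a + b) (s := a.support ∪ b.support) Finsupp.support_add _
      (by simp), ← Finset.sum_add_distrib]
  exact Finset.sum_le_sum fun i _ => by simp only [Finsupp.add_apply]; omega

theorem jd_add_two (a : ℕ →₀ ℕ) (i : ℕ) : jd (a + single i 2) = jd a + 1 := by
  unfold jd
  rw [Finsupp.sum_of_support_subset a (s := insert i a.support) (Finset.subset_insert _ _) _
      (by simp),
    Finsupp.sum_of_support_subset (a + single i 2) (s := insert i a.support) (by
      intro j hj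
      by_contra h
      simp only [Finset.mem_insert, Finsupp.mem_support_iff, not_or, not_not] at h
      simp [h.2, Finsupp.single_apply, Ne.symm h.1] at hj) _ (by simp)]
  have : ∀ j, (a + single i 2 : ℕ →₀ ℕ) j / 2 = a j / 2 + if j = i then 1 else 0 := by
    intro j
    by_cases h : j = i
    · subst h; simp
    · simp [h, Ne.symm h]
  simp only [this, Finset.sum_add_distrib]
  simp

theorem exists_two {a : ℕ →₀ ℕ} (h : 1 ≤ jd a) : ∃ i, 2 ≤ a i := by
  by_contra hc
  push Not at hc
  have : jd a = 0 := Finset.sum_eq_zero fun i _ => by have := hc i; simp only; omega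
  omega

theorem split_at {a : ℕ →₀ ℕ} {i k : ℕ} (h : k ≤ a i) : ∃ b, a = b + single i k :=
  ⟨a - single i k, (tsub_add_cancel_of_le (by simpa using h)).symm⟩

/-- Weight filtration. -/
noncomputable def G (q : ℤ) : Submodule (ZMod 2) R := Sp fun a => (nu a : ℤ) ≤ q

theorem G_mono {p q : ℤ} (h : p ≤ q) {x : R} (hx : x ∈ G p) : x ∈ G q :=
  Sp_mono (fun _ ha => ha.trans h) hx

theorem G_mul {p q r : ℤ} (h : p + q ≤ r) {x y : R} (hx : x ∈ G p) (hy : y ∈ G q) :
    x * y ∈ G r :=
  Sp_mul (fun a b ha hb => by rw [nu_add]; push_cast; omega) hx hy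

theorem G_X (i : ℕ) : (X i : R) ∈ G i := mon_mem (by simp [nu_single])

theorem G_one : (1 : R) ∈ G 0 := mon_mem (a := 0) (by simp [nu])

theorem G_ex (x : R) : ∃ m : ℕ, x ∈ G (m - 1) :=
  ⟨x.support.sup nu + 1, Sp_mono (fun a ha => by
    have := Finset.le_sup (f := nu) ha
    push_cast; omega) (Sp_supp x)⟩

/-- The ideal generated by the squares of the variables. -/
noncomputable def J : Ideal R := Ideal.span (Set.range fun i => X i ^ 2)

theorem J_pow_iff (n : ℕ) (x : R) : x ∈ J ^ n ↔ x ∈ Sp fun a => n ≤ jd a := by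
  constructor
  · intro hx
    induction n generalizing x with
    | zero => exact Sp_mono (by simp) (Sp_supp x)
    | succ n ih =>
      rw [pow_succ] at hx
      refine Submodule.mul_induction_on hx (fun y hy z hz => ?_) fun y z => add_mem
      refine Sp_mul (Q := fun a => 1 ≤ jd a)
        (fun a b ha hb => (add_le_add ha hb).trans (jd_add a b)) (ih y hy) ?_
      induction hz using Submodule.span_induction with
      | mem w hw =>
        obtain ⟨i, rfl⟩ := hw
        have := jd_add_two 0 i
        simpa [X_pow_eq_monomial] using mon_mem (P := fun a => 1 ≤ jd a) (a := single i 2)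
          (by simp only [zero_add] at this; omega)
      | zero => simp
      | add u v _ _ hu hv => exact add_mem hu hv
      | smul r u _ hu =>
        exact Sp_mul (fun a b _ hb => hb.trans ((Nat.le_add_left _ _).trans (jd_add a b)))
          (Sp_supp r) hu
  · intro hx
    refine Sp_lin (M := (J ^ n).restrictScalars (ZMod 2)) LinearMap.id (fun a ha => ?_) hx
    clear hx
    simp only [LinearMap.id_apply, Submodule.restrictScalars_mem]
    induction n generalizing a with
    | zero => simp
    | succ n ih =>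
      obtain ⟨i, hi⟩ := exists_two (a := a) (by omega)
      obtain ⟨b, rfl⟩ := split_at hi
      rw [jd_add_two] at ha
      have : (monomial (b + single i 2) 1 : R) = monomial b 1 * X i ^ 2 := by
        simp [X_pow_eq_monomial, monomial_mul]
      rw [this, pow_succ]
      exact Ideal.mul_mem_mul (ih b (by omega)) (Ideal.subset_span ⟨i, rfl⟩)

/-- The Koszul derivation `X (2k+1) ↦ X k ^ 2`. -/
noncomputable def dd : Derivation (ZMod 2) R R :=
  mkDerivation _ fun i => if i % 2 = 1 then X (i / 2) ^ 2 else 0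

theorem dd_X (i : ℕ) : dd (X i) = if i % 2 = 1 then X (i / 2) ^ 2 else 0 := mkDerivation_X _ _ _

def Act (a : ℕ →₀ ℕ) (k : ℕ) : Prop := a (2 * k + 1) % 2 = 1 ∨ 2 ≤ a k

open Classical in
noncomputable def kap0 (a : ℕ →₀ ℕ) : R :=
  if h : ∃ k, Act a k then
    (if a (2 * Nat.find h + 1) % 2 = 1 then 0
      else monomial (a - single (Nat.find h) 2 + single (2 * Nat.find h + 1) 1) 1)
  else 0

/-- The homotopy. -/
noncomputable def kap : R →ₗ[ZMod 2] R := (basisMonomials ℕ (ZMod 2)).constr (ZMod 2) kap0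

theorem kap_mon (a : ℕ →₀ ℕ) : kap (monomial a 1) = kap0 a := by
  have := (basisMonomials ℕ (ZMod 2)).constr_basis (ZMod 2) kap0 a
  simpa [kap] using this

def PA (k : ℕ) (a : ℕ →₀ ℕ) : Prop := (∀ j < k, ¬ Act a j) ∧ a (2 * k + 1) % 2 = 0

theorem kap0_eq {a : ℕ →₀ ℕ} {k : ℕ} (h1 : Act a k) (h2 : ∀ j < k, ¬ Act a j) :
    kap0 a = if a (2 * k + 1) % 2 = 1 then 0
      else monomial (a - single k 2 + single (2 * k + 1) 1) 1 := by
  classical
  have h : ∃ k, Act a k := ⟨k, h1⟩
  have : Nat.find h = k := (Nat.find_eq_iff h).2 ⟨h1, h2⟩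
  rw [kap0, dif_pos h, this]

theorem kap_sq {k : ℕ} {u : R} (hu : u ∈ Sp (PA k)) :
    kap (X k ^ 2 * u) = X (2 * k + 1) * u := by
  have := Sp_lin (M := ⊥) (kap ∘ₗ LinearMap.mulLeft _ (X k ^ 2) - LinearMap.mulLeft _ (X (2 * k + 1)))
    (fun a ha => ?_) hu
  · simpa [sub_eq_zero] using this
  · have e : (X k ^ 2 * monomial a 1 : R) = monomial (a + single k 2) 1 := by
      simp [X_pow_eq_monomial, monomial_mul, add_comm]
    simp only [LinearMap.sub_apply, LinearMap.comp_apply, LinearMap.mulLeft_apply, e, kap_mon,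
      Submodule.mem_bot, sub_eq_zero]
    rw [kap0_eq (k := k) (Or.inr (by simp)) (fun j hj h => ha.1 j hj (by
      simp only [Act, Finsupp.add_apply, Finsupp.single_apply] at h ⊢
      split_ifs at h <;> omega)), if_neg (by
      have := ha.2
      simp only [Finsupp.add_apply, Finsupp.single_apply]
      split_ifs <;> omega), add_tsub_cancel_right]
    simp [X, monomial_mul, add_comm]

theorem kap_odd {k : ℕ} {u : R} (hu : u ∈ Sp (PA k)) : kap (X (2 * k + 1) * u) = 0 := by
  have := Sp_lin (M := ⊥) (kap ∘ₗ LinearMap.mulLeft _ (X (2 * k + 1))) (fun a ha => ?_) hu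
  · simpa using this
  · have e : (X (2 * k + 1) * monomial a 1 : R) = monomial (a + single (2 * k + 1) 1) 1 := by
      simp [X, monomial_mul, add_comm]
    have h2 := ha.2
    simp only [LinearMap.comp_apply, LinearMap.mulLeft_apply, e, kap_mon, Submodule.mem_bot]
    rw [kap0_eq (k := k) (Or.inl (by simp; omega)) (fun j hj h => ha.1 j hj (by
      simp only [Act, Finsupp.add_apply, Finsupp.single_apply] at h ⊢
      split_ifs at h <;> omega)), if_pos (by simp; omega)]

theorem dd_PA {k : ℕ} {u : R} (hu : u ∈ Sp (PA k)) : dd u ∈ Sp (PA k) := by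
  refine Sp_lin dd.toLinearMap (fun a ha => ?_) hu
  simp only [Derivation.coeFn_coe, dd, mkDerivation_monomial, one_smul]
  refine Submodule.sum_mem _ fun i _ => ?_
  by_cases hi : i % 2 = 1
  · by_cases hai : a i % 2 = 1
    · obtain ⟨j, rfl⟩ : ∃ j, i = 2 * j + 1 := ⟨i / 2, by omega⟩
      have hc : ((a (2 * j + 1) : ℕ) : ZMod 2) = 1 := by
        rw [← ZMod.natCast_mod, hai]; simp
      have hj : k < j := by
        by_contra hc
        rcases Nat.lt_or_eq_of_le (not_lt.1 hc) with h | rfl
        · exact ha.1 j h (Or.inl hai)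
        · have := ha.2; omega
      simp only [hi, if_true, hc, smul_eq_mul, X_pow_eq_monomial, monomial_mul, mul_one,
        show (2 * j + 1) / 2 = j by omega]
      refine mon_mem ⟨fun j' hj' h => ha.1 j' hj' ?_, ?_⟩
      · simp only [Act, Finsupp.add_apply, Finsupp.tsub_apply, Finsupp.single_apply] at h ⊢
        split_ifs at h <;> omega
      · have := ha.2
        simp only [Finsupp.add_apply, Finsupp.tsub_apply, Finsupp.single_apply]
        split_ifs <;> omega
    · have hc : ((a i : ℕ) : ZMod 2) = 0 := by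
        rw [← ZMod.natCast_mod, show a i % 2 = 0 by omega]; simp
      simp [hc]
  · simp [hi]

theorem homotopy {x : R} (hx : x ∈ Sp fun a => 1 ≤ jd a) : dd (kap x) + kap (dd x) = x := by
  classical
  have := Sp_lin (M := ⊥) (dd.toLinearMap ∘ₗ kap + kap ∘ₗ dd.toLinearMap - LinearMap.id)
    (fun a ha => ?_) hx
  · simpa [sub_eq_zero] using this
  simp only [LinearMap.sub_apply, LinearMap.add_apply, LinearMap.comp_apply,
    Derivation.coeFn_coe, LinearMap.id_apply, Submodule.mem_bot, sub_eq_zero]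
  obtain ⟨i, hi⟩ := exists_two ha
  have h : ∃ k, Act a k := ⟨i, Or.inr hi⟩
  obtain ⟨k, hk, hmin⟩ : ∃ k, Act a k ∧ ∀ j < k, ¬ Act a j :=
    ⟨Nat.find h, Nat.find_spec h, fun j hj => Nat.find_min h hj⟩
  have dX : dd (X (2 * k + 1)) = X k ^ 2 := by
    rw [dd_X, if_pos (by omega), show (2 * k + 1) / 2 = k by omega]
  have dS : dd (X k ^ 2) = 0 := by
    rw [pow_two, Derivation.leibniz]; exact add_self' _
  by_cases ho : a (2 * k + 1) % 2 = 1
  · obtain ⟨b, rfl⟩ := split_at (a := a) (i := 2 * k + 1) (k := 1) (by omega)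
    have hb : monomial b 1 ∈ Sp (PA k) := mon_mem ⟨fun j hj h => hmin j hj (by
      simp only [Act, Finsupp.add_apply, Finsupp.single_apply] at h ⊢
      split_ifs <;> omega), by simp at ho; omega⟩
    have e : (monomial (b + single (2 * k + 1) 1) 1 : R) = X (2 * k + 1) * monomial b 1 := by
      simp [X, monomial_mul, add_comm]
    rw [e, kap_odd hb, Derivation.leibniz, dX, smul_eq_mul, smul_eq_mul, map_add,
      kap_odd (dd_PA hb), mul_comm (monomial b 1), kap_sq hb]
    simp
  · obtain ⟨b, rfl⟩ := split_at (hk.resolve_left ho)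
    have hb : monomial b 1 ∈ Sp (PA k) := mon_mem ⟨fun j hj h => hmin j hj (by
      simp only [Act, Finsupp.add_apply, Finsupp.single_apply] at h ⊢
      split_ifs <;> omega), by
        simp only [Finsupp.add_apply, Finsupp.single_apply] at ho
        split_ifs at ho <;> omega⟩
    have e : (monomial (b + single k 2) 1 : R) = X k ^ 2 * monomial b 1 := by
      simp [X_pow_eq_monomial, monomial_mul, add_comm]
    rw [e, kap_sq hb, Derivation.leibniz, Derivation.leibniz, dX, dS, smul_zero, add_zero,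
      smul_eq_mul, smul_eq_mul, smul_eq_mul, kap_sq (dd_PA hb)]
    linear_combination add_self' (X (2 * k + 1) * dd (monomial b 1))

theorem kap_cases (a : ℕ →₀ ℕ) : kap (monomial a 1) = 0 ∨
    ∃ k b, a = b + single k 2 ∧ kap (monomial a 1) = monomial (b + single (2 * k + 1) 1) 1 := by
  classical
  rw [kap_mon, kap0]
  split_ifs with h h2
  · exact Or.inl rfl
  · obtain ⟨b, hb⟩ := split_at ((Nat.find_spec h).resolve_left h2)
    refine Or.inr ⟨_, b, hb, ?_⟩
    rw [← eq_tsub_of_add_eq hb.symm]
  · exact Or.inl rfl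

theorem kap_G {q : ℤ} {x : R} (hx : x ∈ G q) : kap x ∈ G (q + 1) := by
  refine Sp_lin kap (fun a ha => ?_) hx
  rcases kap_cases a with h | ⟨k, b, rfl, h⟩ <;> rw [h]
  · simp
  · refine mon_mem ?_
    simp only [nu_add, nu_single] at ha ⊢
    push_cast at ha ⊢; omega

theorem kap_J {n : ℕ} {x : R} (hx : x ∈ J ^ (n + 1)) : kap x ∈ J ^ n := by
  rw [J_pow_iff] at hx ⊢
  refine Sp_lin kap (fun a ha => ?_) hx
  rcases kap_cases a with h | ⟨k, b, rfl, h⟩ <;> rw [h]
  · simp
  · refine mon_mem ?_
    rw [jd_add_two] at ha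
    have := jd_add b (single (2 * k + 1) 1)
    omega

end Pool.Agent.H8.Omg
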