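import Mathlib

set_option autoImplicit false

namespace Pool.Agent.H8.PDD

open Classical in
/-- The row of `p` in the cloud `C`: distances from `p` to the other points of `C`,
listed in non-decreasing order. -/
noncomputable def row (C : Finset (EuclideanSpace ℝ (Fin 2))) (p : EuclideanSpace ℝ (Fin 2)) :
    List ℝ :=
  ((C.erase p).val.map (fun q => dist p q)).sort (· ≤ ·)

/-- The pointwise distance distribution of `C`: the multiset of all rows. -/
noncomputable def pdd (C : Finset (EuclideanSpace ℝ (Fin 2))) : Multiset (List ℝ) :=
  C.val.map (row C)

end Pool.Agent.H8.PDD
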