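import Pool.Agent.H8.PDDDefs

set_option autoImplicit false

namespace Pool.Agent.H8.PDD

abbrev Z3 := ℤ√3

noncomputable def tr : Z3 →+* ℝ := Zsqrtd.toReal (d := 3) (by norm_num)

lemma tr_inj : Function.Injective tr := by
  apply Zsqrtd.toReal_injective
  intro n hn
  have h1 : n * n ≤ 3 := by omega
  have h2 : -2 < n := by nlinarith
  have h3 : n < 2 := by nlinarith
  interval_cases n <;> omega

noncomputable def emb (x : Z3 × Z3) : EuclideanSpace ℝ (Fin 2) := !₂[tr x.1, tr x.2]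

lemma emb_inj : Function.Injective emb := by
  intro x y h
  have h0 := congrArg (fun v => v 0) h
  have h1 := congrArg (fun v => v 1) h
  simp only [emb] at h0 h1
  exact Prod.ext (tr_inj h0) (tr_inj h1)

def qq (x y : Z3 × Z3) : Z3 := (x.1 - y.1) * (x.1 - y.1) + (x.2 - y.2) * (x.2 - y.2)

lemma dist_sq_emb (x y : Z3 × Z3) : dist (emb x) (emb y) ^ 2 = tr (qq x y) := by
  rw [EuclideanSpace.dist_sq_eq]
  simp only [emb, qq, Fin.sum_univ_two, Real.dist_eq, sq_abs, map_add, map_mul, map_sub]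
  simp
  ring

lemma dist_emb (x y : Z3 × Z3) : dist (emb x) (emb y) = Real.sqrt (tr (qq x y)) := by
  rw [← dist_sq_emb, Real.sqrt_sq dist_nonneg]

def code (S : Finset (Z3 × Z3)) : Multiset (Multiset Z3) :=
  S.val.map (fun x => (S.erase x).val.map (qq x))

lemma pdd_emb (S : Finset (Z3 × Z3)) :
    pdd (S.map ⟨emb, emb_inj⟩) =
      (code S).map (fun m => (m.map (fun z => Real.sqrt (tr z))).sort (· ≤ ·)) := by
  classical
  simp only [pdd, code, Finset.map_val, Multiset.map_map, Function.comp_def,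
    Function.Embedding.coeFn_mk]
  apply Multiset.map_congr rfl
  intro x _
  simp only [row]
  congr 1
  have : (Finset.map ⟨emb, emb_inj⟩ S).erase (emb x) = (S.erase x).map ⟨emb, emb_inj⟩ := by
    rw [Finset.map_erase]; rfl
  convert_to Multiset.map (fun q => dist (emb x) q) ((S.erase x).map ⟨emb, emb_inj⟩).val = _
  · congr 2
  · simp only [Finset.map_val, Multiset.map_map, Function.comp_def, Function.Embedding.coeFn_mk,
      dist_emb]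

def hexL : List (Z3 × Z3) :=
  [(⟨4, 0⟩, ⟨0, 0⟩), (⟨0, 2⟩, ⟨2, 0⟩), (⟨-2, 0⟩, ⟨0, 2⟩), (⟨0, -2⟩, ⟨2, 0⟩),
   (⟨-2, 0⟩, ⟨0, -2⟩), (⟨0, 0⟩, ⟨-4, 0⟩)]

def L1 : List (Z3 × Z3) :=
  [(⟨2, 0⟩, ⟨0, 0⟩), (⟨0, 1⟩, ⟨1, 0⟩), (⟨-2, 0⟩, ⟨0, 0⟩), (⟨0, -1⟩, ⟨-1, 0⟩)] ++ hexL

def L2 : List (Z3 × Z3) :=
  [(⟨0, 1⟩, ⟨1, 0⟩), (⟨1, 0⟩, ⟨0, 1⟩), (⟨0, -1⟩, ⟨-1, 0⟩), (⟨-1, 0⟩, ⟨0, -1⟩)] ++ hexL

def S1 : Finset (Z3 × Z3) := ⟨(L1 : Multiset _), by decide +kernel⟩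
def S2 : Finset (Z3 × Z3) := ⟨(L2 : Multiset _), by decide +kernel⟩

lemma code_eq : code S1 = code S2 := by decide +kernel

lemma no_quad : ∀ a ∈ L2, ∀ b ∈ L2, qq a b = ⟨8, -4⟩ → ∀ c ∈ L2, qq a c = ⟨4, 0⟩ →
    qq b c = ⟨20, -8⟩ → ∀ d ∈ L2, qq a d = ⟨20, -8⟩ → qq b d = ⟨4, 0⟩ → False := by
  decide +kernel

theorem main : ∃ C C' : Finset (EuclideanSpace ℝ (Fin 2)), C.card = 10 ∧ C'.card = 10 ∧
    pdd C = pdd C' ∧
    ¬ ∃ f : EuclideanSpace ℝ (Fin 2) → EuclideanSpace ℝ (Fin 2), Isometry f ∧ f '' C = C' := by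
  refine ⟨S1.map ⟨emb, emb_inj⟩, S2.map ⟨emb, emb_inj⟩, ?_, ?_, ?_, ?_⟩
  · rw [Finset.card_map]; rfl
  · rw [Finset.card_map]; rfl
  · rw [pdd_emb, pdd_emb, code_eq]
  · rintro ⟨f, hf, him⟩
    have key : ∀ x ∈ L1, ∃ y ∈ L2, f (emb x) = emb y := by
      intro x hx
      have h1 : f (emb x) ∈ f '' ((S1.map ⟨emb, emb_inj⟩ : Finset _) : Set _) :=
        ⟨emb x, by
          simp only [Finset.coe_map, Set.mem_image, Finset.mem_coe]
          exact ⟨x, hx, rfl⟩, rfl⟩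
      rw [him] at h1
      simp only [Finset.coe_map, Set.mem_image, Finset.mem_coe] at h1
      obtain ⟨y, hy, hy2⟩ := h1
      exact ⟨y, hy, hy2.symm⟩
    have pres : ∀ x y x' y', f (emb x) = emb x' → f (emb y) = emb y' → qq x' y' = qq x y := by
      intro x y x' y' h1 h2
      apply tr_inj
      rw [← dist_sq_emb, ← dist_sq_emb, ← h1, ← h2, hf.dist_eq]
    obtain ⟨a, ha, ha'⟩ := key (⟨2, 0⟩, ⟨0, 0⟩) (by decide +kernel)
    obtain ⟨b, hb, hb'⟩ := key (⟨0, 1⟩, ⟨1, 0⟩) (by decide +kernel)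
    obtain ⟨c, hc, hc'⟩ := key (⟨4, 0⟩, ⟨0, 0⟩) (by decide +kernel)
    obtain ⟨d, hd, hd'⟩ := key (⟨0, 2⟩, ⟨2, 0⟩) (by decide +kernel)
    exact no_quad a ha b hb ((pres _ _ _ _ ha' hb').trans (by decide +kernel)) c hc
      ((pres _ _ _ _ ha' hc').trans (by decide +kernel))
      ((pres _ _ _ _ hb' hc').trans (by decide +kernel)) d hd
      ((pres _ _ _ _ ha' hd').trans (by decide +kernel))
      ((pres _ _ _ _ hb' hd').trans (by decide +kernel))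

end Pool.Agent.H8.PDD
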