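import Pool.Agent.H8.PcDefs

namespace Pool.Agent.H8.Pc

open PowerSeries

inductive Fo : Type
  | nil : Fo
  | cons : Fo → Fo → Fo
  deriving DecidableEq

inductive Ad : Type
  | dd : Ad
  | val : Ad
  | da : Ad
  | pk : Ad
  | kid : Ad → Ad
  | nxt : Ad → Ad
  deriving DecidableEq

def addrs : Fo → Bool → List Ad
  | .nil, _ => []
  | .cons k r, l => [.dd, .val] ++ (if l = true ∧ r = .nil then [.da, .pk] else []) ++
      (addrs k (l && decide (r = .nil))).map .kid ++ (addrs r l).map .nxt

def mv : Ad → Fo → Fo
  | .dd, F => F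
  | .val, .cons k r => .cons (.cons .nil k) r
  | .da, .cons k _ => .cons .nil k
  | .pk, .cons k _ => k
  | .kid a, .cons k r => .cons (mv a k) r
  | .nxt a, .cons k r => .cons k (mv a r)
  | _, .nil => .nil

lemma addrs_nodup : ∀ (F : Fo) (l : Bool), (addrs F l).Nodup
  | .nil, _ => by simp [addrs]
  | .cons k r, l => by
    have h1 := (addrs_nodup k (l && decide (r = .nil))).map (f := Ad.kid)
      (fun _ _ h => Ad.kid.inj h)
    have h2 := (addrs_nodup r l).map (f := Ad.nxt) (fun _ _ h => Ad.nxt.inj h)
    simp only [addrs]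
    split_ifs <;> simp [List.nodup_append, h1, h2]

noncomputable def G : ℤ⟦X⟧ := PowerSeries.mk 1

noncomputable def I (f : ℤ⟦X⟧) : ℤ⟦X⟧ := G * (X * derivative ℤ f)

noncomputable def L (f : ℤ⟦X⟧) : ℤ⟦X⟧ := PowerSeries.mk fun j => coeff (j + 1) f

lemma G_eq : G = 1 + X * G := by
  have := PowerSeries.mk_one_mul_one_sub_eq_one ℤ
  unfold G
  linear_combination this

lemma L_X (f : ℤ⟦X⟧) : L (X * f) = f := by
  ext j; simp [L, coeff_succ_X_mul]

lemma L_one : L 1 = 0 := by
  ext j; simp [L, coeff_one]

lemma I_mul (f g : ℤ⟦X⟧) : I (f * g) = I f * g + f * I g := by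
  unfold I; rw [Derivation.leibniz]; simp only [smul_eq_mul]; ring

lemma I_add (f g : ℤ⟦X⟧) : I (f + g) = I f + I g := by
  unfold I; rw [map_add]; ring

lemma I_one : I 1 = 0 := by simp [I]

lemma I_X : I X = X * G := by simp [I, mul_comm]

lemma I_Xmul (f : ℤ⟦X⟧) : I (X * f) = X * (G * f + I f) := by
  rw [I_mul, I_X]; ring

lemma I_sum (l : List ℤ⟦X⟧) : (l.map fun f => I (X * f)).sum = I (X * l.sum) := by
  induction l with
  | nil => simp [I]
  | cons f l ih => simp [ih, mul_add, I_add]

noncomputable def mu : Fo → ℤ⟦X⟧
  | .nil => 1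
  | .cons k r => I (X * mu k) * mu r

lemma L_mul_cons (f : ℤ⟦X⟧) (k r : Fo) : L (f * mu (.cons k r)) = f * L (mu (.cons k r)) := by
  have e : mu (.cons k r) = X * ((G * mu k + I (mu k)) * mu r) := by
    rw [mu, I_Xmul]; ring
  rw [e, L_X, mul_left_comm, L_X]

lemma X_L (F : Fo) : I (X * L (mu F)) = I (mu F) := by
  cases F with
  | nil => simp [mu, L_one, I_one, I]
  | cons k r =>
    have e : mu (.cons k r) = X * ((G * mu k + I (mu k)) * mu r) := by
      rw [mu, I_Xmul]; ring
    rw [e, L_X]

lemma sum_moves : ∀ (F : Fo) (l : Bool), ((addrs F l).map fun a => mu (mv a F)).sum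
    = I (mu F) + if l = true then L (mu F) else 0
  | .nil, l => by simp [addrs, mu, I_one, L_one]
  | .cons k r, l => by
    have h1 := sum_moves k (l && decide (r = .nil))
    have h2 := sum_moves r l
    have e1 : (((addrs k (l && decide (r = .nil))).map Ad.kid).map
        fun a => mu (mv a (.cons k r))).sum
        = I (X * ((addrs k (l && decide (r = .nil))).map fun a => mu (mv a k)).sum) * mu r := by
      rw [← I_sum, ← List.sum_map_mul_right, List.map_map, List.map_map]
      rfl
    have e2 : (((addrs r l).map Ad.nxt).map fun a => mu (mv a (.cons k r))).sum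
        = I (X * mu k) * ((addrs r l).map fun a => mu (mv a r)).sum := by
      rw [← List.sum_map_mul_left, List.map_map]
      rfl
    simp only [addrs, List.map_append, List.sum_append, e1, e2, h1, h2]
    have key : I (X * mu k) + I (X * (I (X * 1) * mu k)) + I (X * I (mu k))
        = I (I (X * mu k)) := by
      rw [← I_add, ← I_add, mul_one, I_X]
      congr 1
      rw [I_Xmul]
      linear_combination (-(X * mu k)) * G_eq
    by_cases hl : l = true
    · by_cases hr : r = .nil
      · subst hr
        have e3 : L (I (X * mu k)) = G * mu k + I (mu k) := by rw [I_Xmul, L_X]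
        simp only [hl, and_self, if_true, List.map_cons, List.map_nil, List.sum_cons,
          List.sum_nil, mv, mu, mul_one, decide_true, Bool.and_self, I_one, L_one, mul_add,
          I_add, X_L, e3, I_X] at key ⊢
        linear_combination key - mu k * G_eq
      · obtain ⟨k', r', rfl⟩ : ∃ k' r', r = .cons k' r' := by
          cases r with
          | nil => exact absurd rfl hr
          | cons a b => exact ⟨a, b, rfl⟩
        have e3 : L (mu (.cons k (.cons k' r'))) = I (X * mu k) * L (mu (.cons k' r')) := by
          rw [← L_mul_cons]; rfl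
        rw [e3]
        simp only [hl, hr, and_false, if_false, if_true, List.map_cons, List.map_nil,
          List.sum_cons, List.sum_nil, mv, decide_false, Bool.and_false, Bool.false_eq_true]
        rw [mu, mu, mu, I_mul (I (X * mu k)), ← key]
        simp only [mu]
        ring
    · simp only [hl, false_and, if_false, List.map_cons, List.map_nil,
        List.sum_cons, List.sum_nil, mv, Bool.and_eq_true, Bool.false_eq_true]
      rw [mu, mu, mu, I_mul (I (X * mu k)), ← key]
      simp only [mu]
      ring

/-- the levels, started one step earlier -/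
def lev : ℕ → List ℕ
  | 0 => [0]
  | n + 1 => (lev n).flatMap children

lemma lev_succ : ∀ n, lev (n + 1) = level n
  | 0 => by simp [lev, level, children]
  | n + 1 => by rw [lev, lev_succ n, level]

noncomputable def pair (f : ℤ⟦X⟧) (n : ℕ) : ℤ := ((lev n).map fun j => coeff j f).sum

lemma children_sum (f : ℤ⟦X⟧) (k : ℕ) :
    ((children k).map fun j => coeff j f).sum = coeff k (I f + L f) := by
  have h1 : ∀ k, (((List.range' 1 k).flatMap (fun i => List.replicate i i)).map
      fun j => coeff j f).sum = coeff k (I f) := by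
    intro k
    induction k with
    | zero => simp [I, mul_left_comm G]
    | succ k ih =>
      have e : I f = X * derivative ℤ f + X * I f := by
        unfold I
        linear_combination (X * derivative ℤ f) * G_eq
      rw [List.range'_concat, List.flatMap_append, List.map_append, List.sum_append, ih]
      conv_rhs => rw [e]
      simp [coeff_succ_X_mul, coeff_derivative, add_comm 1 k]
      ring
  simp [children, h1, L]

lemma pair_succ (f : ℤ⟦X⟧) (n : ℕ) : pair f (n + 1) = pair (I f + L f) n := by
  unfold pair
  rw [lev]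
  induction lev n with
  | nil => simp
  | cons k l ih =>
    simp only [List.flatMap_cons, List.map_append, List.sum_append, List.map_cons, List.sum_cons,
      ih, children_sum]

lemma pair_sum (l : List ℤ⟦X⟧) (n : ℕ) : (l.map fun f => pair f n).sum = pair l.sum n := by
  induction l with
  | nil => simp [pair]
  | cons f l ih =>
    simp only [List.map_cons, List.sum_cons, ih]
    simp [pair, List.sum_map_add]

lemma lev_pos : ∀ n, ∀ j ∈ lev (n + 1), 1 ≤ j := by
  intro n j hj
  simp only [lev, List.mem_flatMap, children, List.mem_append, List.mem_range',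
    List.mem_replicate, List.mem_singleton] at hj
  obtain ⟨k, -, ⟨i, ⟨a, -, rfl⟩, -, rfl⟩ | rfl⟩ := hj <;> omega

lemma pair_single (n : ℕ) : pair (mu (.cons .nil .nil)) (n + 1) = (level n).length := by
  unfold pair
  rw [← lev_succ]
  have : ∀ j ∈ lev (n + 1), coeff j (mu (.cons .nil .nil)) = 1 := by
    intro j hj
    obtain ⟨i, rfl⟩ : ∃ i, j = i + 1 := ⟨j - 1, by have := lev_pos n j hj; omega⟩
    simp [mu, I_X, coeff_succ_X_mul, G]
  rw [List.map_congr_left this]
  simp

end Pool.Agent.H8.Pc
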