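import Pool.Agent.H8.Pc1

namespace Pool.Agent.H8.Pc

inductive Fl : Type
  | nil : Fl
  | cons : List ℕ → Fl → Fl → Fl

def shape : Fl → Fo
  | .nil => .nil
  | .cons _ k r => .cons (shape k) (shape r)

def vals : Fl → List ℕ
  | .nil => []
  | .cons w k r => w ++ (vals k ++ vals r)

def dom (S : List ℕ) (b : ℕ) : Prop := ∀ y ∈ S, y ≤ b

def Ok (Q : ℕ → Prop) : List ℕ → Prop
  | [] => True
  | [_] => True
  | a :: b :: R => (a < b → (∀ c d, List.Sublist [c, d] R → c < a → d ≤ b) ∧ Q b) ∧ Ok Q (b :: R)

def Hd (Q : ℕ → Prop) : List ℕ → Prop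
  | [] => True
  | b :: _ => Q b

def Valid : Fl → List ℕ → Prop
  | .nil, _ => True
  | .cons w k r, M => w ≠ [] ∧ Ok (dom (vals k ++ vals r ++ M)) w ∧ Hd (dom (vals r ++ M)) w ∧
      Valid k (vals r ++ M) ∧ Valid r M

lemma Ok.mono {Q Q' : ℕ → Prop} : ∀ {l : List ℕ}, (∀ b ∈ l, Q b → Q' b) → Ok Q l → Ok Q' l
  | [], _, _ => trivial
  | [_], _, _ => trivial
  | a :: b :: R, h, ⟨h1, h2⟩ =>
    ⟨fun hab => ⟨(h1 hab).1, h b (by simp) (h1 hab).2⟩,
      Ok.mono (fun x hx => h x (List.mem_cons_of_mem _ hx)) h2⟩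

lemma Hd.mono {Q Q' : ℕ → Prop} : ∀ {l : List ℕ}, (∀ b ∈ l, Q b → Q' b) → Hd Q l → Hd Q' l
  | [], _, _ => trivial
  | b :: _, h, h1 => h b (by simp) h1

lemma Valid.mono : ∀ {fl : Fl} {M M' : List ℕ}, (∀ b ∈ vals fl, dom M b → dom M' b) →
    Valid fl M → Valid fl M'
  | .nil, _, _, _, _ => trivial
  | .cons w k r, M, M', h, ⟨h1, h2, h3, h4, h5⟩ => by
    have key : ∀ S : List ℕ, ∀ b ∈ vals (.cons w k r), dom (S ++ M) b → dom (S ++ M') b := by
      intro S b hb hd y hy
      rcases List.mem_append.1 hy with hy | hy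
      · exact hd y (List.mem_append_left _ hy)
      · exact h b hb (fun z hz => hd z (List.mem_append_right _ hz)) y hy
    refine ⟨h1, h2.mono fun b hb => key _ b (by simp [vals, hb]),
      h3.mono fun b hb => key _ b (by simp [vals, hb]),
      h4.mono fun b hb => key _ b (by simp [vals, hb]),
      h5.mono fun b hb => h b (by simp [vals, hb])⟩

lemma sub_split {m : ℕ} {s t : List ℕ} {c d : ℕ} (h : List.Sublist [c, d] (s ++ m :: t)) :
    List.Sublist [c, d] s ∨ d = m ∨ d ∈ t := by
  obtain ⟨l1, l2, e, h1, h2⟩ := List.sublist_append_iff.1 h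
  rcases l2.eq_nil_or_concat with rfl | ⟨l, x, rfl⟩
  · simp at e; exact Or.inl (e ▸ h1)
  · have : d = x := by
      have := congrArg List.getLast? e
      simpa using this
    subst this
    have : d ∈ m :: t := h2.subset (by simp)
    simpa using Or.inr this

/-- splitting a word at its minimum -/
lemma ok_split {Q : ℕ → Prop} {m : ℕ} {t : List ℕ} (ht : ∀ y ∈ t, m < y) :
    ∀ s : List ℕ, (∀ y ∈ s, m < y) →
      (Ok Q (s ++ m :: t) ↔ Ok (fun b => dom t b ∧ Q b) s ∧ Ok Q t ∧ Hd Q t)
  | [], _ => by
    cases t with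
    | nil => simp [Ok, Hd]
    | cons b R =>
      have := ht b (by simp)
      simp only [List.nil_append, Ok, Hd, true_and]
      constructor
      · rintro ⟨h1, h2⟩; exact ⟨h2, (h1 this).2⟩
      · rintro ⟨h1, h2⟩
        refine ⟨fun _ => ⟨fun c d hs hc => ?_, h2⟩, h1⟩
        have := ht c (List.mem_cons_of_mem _ (hs.subset (by simp)))
        omega
  | [a], hs => by
    have h0 := ok_split (Q := Q) ht [] (by simp)
    have := hs a (by simp)
    simp only [List.nil_append] at h0
    simp only [List.singleton_append, Ok, h0, true_and]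
    constructor
    · exact fun h => h.2
    · exact fun h => ⟨fun h' => by omega, h⟩
  | a :: b :: R, hs => by
    have h0 := ok_split (Q := Q) ht (b :: R) (fun y hy => hs y (List.mem_cons_of_mem _ hy))
    have ha := hs a (by simp)
    have hb := hs b (by simp)
    simp only [List.cons_append] at h0
    simp only [List.cons_append, Ok, h0]
    have : (∀ c d, List.Sublist [c, d] (R ++ m :: t) → c < a → d ≤ b) ↔
        (∀ c d, List.Sublist [c, d] R → c < a → d ≤ b) ∧ dom t b := by
      constructor
      · intro h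
        refine ⟨fun c d h1 => h c d (h1.trans (List.sublist_append_left _ _)), fun y hy => ?_⟩
        refine h m y (List.Sublist.trans ?_ (List.sublist_append_right _ _)) ha
        exact List.Sublist.cons_cons _ (List.singleton_sublist.2 hy)
      · rintro ⟨h1, h2⟩ c d hs' hc
        rcases sub_split hs' with h | h | h
        · exact h1 c d h hc
        · omega
        · exact h2 d h
    rw [this]
    tauto

def ins (m : ℕ) : Ad → Fl → Fl
  | .dd, .cons w k r => .cons (w ++ [m]) k r
  | .val, .cons w (.cons w' _ k) r => .cons (w ++ m :: w') k r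
  | .da, .cons w _ k => .cons (m :: w) k .nil
  | .pk, k => .cons [m] k .nil
  | .kid a, .cons w k r => .cons w (ins m a k) r
  | .nxt a, .cons w k r => .cons w k (ins m a r)
  | _, _ => .nil

lemma shape_nil {fl : Fl} (h : shape fl = .nil) : fl = .nil := by
  cases fl with
  | nil => rfl
  | cons => simp [shape] at h

lemma shape_cons {fl : Fl} {k r : Fo} (h : shape fl = .cons k r) :
    ∃ w K R, fl = .cons w K R ∧ shape K = k ∧ shape R = r := by
  cases fl with
  | nil => simp [shape] at h
  | cons w K R =>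
    simp only [shape, Fo.cons.injEq] at h
    exact ⟨w, K, R, rfl, h.1, h.2⟩

lemma mem_addrs {a : Ad} {k r : Fo} {l : Bool} : a ∈ addrs (.cons k r) l ↔
    a = .dd ∨ a = .val ∨ ((l = true ∧ r = .nil) ∧ (a = .da ∨ a = .pk)) ∨
      (∃ b ∈ addrs k (l && decide (r = .nil)), a = .kid b) ∨ ∃ b ∈ addrs r l, a = .nxt b := by
  simp only [addrs, List.mem_append, List.mem_cons, List.mem_map, List.not_mem_nil, or_false]
  split_ifs with h <;> simp [h, eq_comm, or_assoc]

lemma Hd_append {Q : ℕ → Prop} {w : List ℕ} (hw : w ≠ []) (t : List ℕ) :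
    Hd Q (w ++ t) ↔ Hd Q w := by
  cases w with
  | nil => exact absurd rfl hw
  | cons => simp [Hd]

lemma dom_perm {S S' : List ℕ} {m b : ℕ} (h : S'.Perm (m :: S)) (hb : m ≤ b) (A B : List ℕ) :
    dom (A ++ S' ++ B) b ↔ dom (A ++ S ++ B) b := by
  simp only [dom, List.mem_append, h.mem_iff, List.mem_cons]
  constructor
  · intro h y hy; exact h y (by tauto)
  · rintro h y ((hy | rfl | hy) | hy)
    · exact h y (by tauto)
    · exact hb
    · exact h y (by tauto)
    · exact h y (by tauto)

lemma ins_shape {m : ℕ} : ∀ {F : Fo} {l : Bool} {a : Ad} {fl : Fl}, a ∈ addrs F l →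
    shape fl = mv a F → shape (ins m a fl) = F ∧ (vals (ins m a fl)).Perm (m :: vals fl)
  | .nil, _, _, _, h, _ => by simp [addrs] at h
  | .cons k r, l, a, fl, h, hs => by
    rcases mem_addrs.1 h with rfl | rfl | ⟨⟨-, rfl⟩, rfl | rfl⟩ | ⟨b, hb, rfl⟩ | ⟨b, hb, rfl⟩
    · obtain ⟨w, K, R, rfl, rfl, rfl⟩ := shape_cons hs
      exact ⟨rfl, by simp [ins, vals]⟩
    · obtain ⟨w, K, R, rfl, h1, rfl⟩ := shape_cons hs
      obtain ⟨w', K', R', rfl, h2, rfl⟩ := shape_cons h1
      obtain rfl := shape_nil h2
      exact ⟨rfl, by simp [ins, vals]⟩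
    · obtain ⟨w, K, R, rfl, h1, rfl⟩ := shape_cons hs
      obtain rfl := shape_nil h1
      exact ⟨rfl, by simp [ins, vals]⟩
    · simp only [mv] at hs
      subst hs
      exact ⟨by simp [ins, shape], by simp [ins, vals]⟩
    · obtain ⟨w, K, R, rfl, h1, rfl⟩ := shape_cons hs
      obtain ⟨a1, a2⟩ := ins_shape (m := m) hb h1
      refine ⟨by simp [ins, shape, a1], ?_⟩
      simp only [ins, vals]
      exact ((a2.append_right _).append_left _).trans List.perm_middle
    · obtain ⟨w, K, R, rfl, rfl, h1⟩ := shape_cons hs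
      obtain ⟨a1, a2⟩ := ins_shape (m := m) hb h1
      refine ⟨by simp [ins, shape, a1], ?_⟩
      simp only [ins, vals]
      refine ((a2.append_left _).append_left _).trans ?_
      exact (List.perm_middle.append_left _).trans List.perm_middle

lemma ins_valid {m : ℕ} : ∀ {F : Fo} {l : Bool} {a : Ad} {fl : Fl} {M : List ℕ}, a ∈ addrs F l →
    shape fl = mv a F → (l = true → M = []) → (∀ y ∈ vals fl, m < y) → Valid fl M →
    Valid (ins m a fl) M
  | .nil, _, _, _, _, h, _, _, _, _ => by simp [addrs] at h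
  | .cons k r, l, a, fl, M, h, hs, hl, hm, hv => by
    rcases mem_addrs.1 h with rfl | rfl | ⟨⟨hl', rfl⟩, rfl | rfl⟩ | ⟨b, hb, rfl⟩ | ⟨b, hb, rfl⟩
    · obtain ⟨w, K, R, rfl, rfl, rfl⟩ := shape_cons hs
      obtain ⟨v1, v2, v3, v4, v5⟩ := hv
      refine ⟨by simp, ?_, (Hd_append v1 _).2 v3, v4, v5⟩
      rw [ok_split (by simp) w fun y hy => hm y (by simp [vals, hy])]
      exact ⟨v2.mono fun b _ hb => ⟨by simp [dom], hb⟩, trivial, trivial⟩
    · obtain ⟨w, K, R, rfl, h1, rfl⟩ := shape_cons hs
      obtain ⟨w', K', R', rfl, h2, rfl⟩ := shape_cons h1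
      obtain rfl := shape_nil h2
      obtain ⟨v1, v2, v3, ⟨u1, u2, u3, -, u5⟩, v5⟩ := hv
      refine ⟨by simp, ?_, (Hd_append v1 _).2 v3, u5, v5⟩
      rw [ok_split (fun y hy => hm y (by simp [vals, hy])) w fun y hy => hm y (by simp [vals, hy])]
      refine ⟨v2.mono fun b _ hb => ⟨fun y hy => hb y (by simp [vals, hy]), fun y hy => hb y ?_⟩,
        by simpa [vals] using u2, by simpa [vals] using u3⟩
      simp only [vals, List.mem_append] at hy ⊢
      tauto
    · obtain ⟨w, K, R, rfl, h1, rfl⟩ := shape_cons hs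
      obtain rfl := shape_nil h1
      obtain rfl := hl hl'
      obtain ⟨v1, v2, v3, -, v5⟩ := hv
      refine ⟨by simp, ?_, by simp [Hd, dom, vals], by simpa [vals] using v5, trivial⟩
      have := ok_split (Q := dom (vals R ++ vals .nil ++ [])) (t := w)
        (fun y hy => hm y (by simp [vals, hy])) [] (by simp)
      simp only [List.nil_append] at this
      rw [this]
      exact ⟨trivial, by simpa [vals] using v2, by simpa [vals] using v3⟩
    · obtain rfl := hl hl'
      exact ⟨by simp, trivial, by simp [Hd, dom, vals], by simpa [vals] using hv, trivial⟩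
    · obtain ⟨w, K, R, rfl, h1, rfl⟩ := shape_cons hs
      obtain ⟨-, a2⟩ := ins_shape (m := m) hb h1
      obtain ⟨v1, v2, v3, v4, v5⟩ := hv
      refine ⟨v1, v2.mono fun b hb' hd => ?_, v3,
        ins_valid hb h1 (fun e => ?_) (fun y hy => hm y (by simp [vals, hy])) v4, v5⟩
      · have := (dom_perm a2 (hm b (by simp [vals, hb'])).le [] (vals R ++ M)).2
          (by simpa using hd)
        simpa using this
      · simp only [Bool.and_eq_true, decide_eq_true_eq] at e
        rw [shape_nil e.2, hl e.1]; rfl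
    · obtain ⟨w, K, R, rfl, rfl, h1⟩ := shape_cons hs
      obtain ⟨-, a2⟩ := ins_shape (m := m) hb h1
      obtain ⟨v1, v2, v3, v4, v5⟩ := hv
      refine ⟨v1, v2.mono fun b hb' hd => ?_, v3.mono fun b hb' hd => ?_,
        v4.mono fun b hb' hd => ?_,
        ins_valid hb h1 hl (fun y hy => hm y (by simp [vals, hy])) v5⟩
      · exact (dom_perm a2 (hm b (by simp [vals, hb'])).le _ M).2 hd
      · exact (dom_perm a2 (hm b (by simp [vals, hb'])).le [] M).2 hd
      · exact (dom_perm a2 (hm b (by simp [vals, hb'])).le [] M).2 hd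

lemma vals_nil {fl : Fl} {M : List ℕ} (h : Valid fl M) (e : vals fl = []) : fl = .nil := by
  cases fl with
  | nil => rfl
  | cons w k r => simp [vals, h.1] at e

lemma ins_surj {m : ℕ} : ∀ {fl : Fl} {l : Bool} {M : List ℕ}, Valid fl M → (M = [] → l = true) →
    m ∈ vals fl → (vals fl).Nodup → (∀ y ∈ vals fl, m ≤ y) → (∀ y ∈ M, m < y) →
    ∃ a ∈ addrs (shape fl) l, ∃ fl', shape fl' = mv a (shape fl) ∧ Valid fl' M ∧ ins m a fl' = fl
  | .nil, _, _, _, _, h, _, _, _ => by simp [vals] at h
  | .cons w K R, l, M, ⟨v1, v2, v3, v4, v5⟩, hl, h, hn, hm, hM => by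
    simp only [vals, List.nodup_append] at hn
    obtain ⟨n1, ⟨n2, n3, n4⟩, n5⟩ := hn
    have lt_of : ∀ y ∈ vals (.cons w K R), y ≠ m → m < y := fun y hy e =>
      lt_of_le_of_ne (hm y hy) (Ne.symm e)
    simp only [shape]
    by_cases hw : m ∈ w
    · obtain ⟨s, t, rfl⟩ := List.append_of_mem hw
      have hs : ∀ y ∈ s, m < y := fun y hy => lt_of y (by simp [vals, hy]) (by
        rintro rfl
        simp [List.nodup_append] at n1
        exact (n1.2.2 y hy).1 rfl)
      have ht : ∀ y ∈ t, m < y := fun y hy => lt_of y (by simp [vals, hy]) (by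
        rintro rfl
        simp [List.nodup_append] at n1
        exact n1.2.1.1 hy)
      obtain ⟨o1, o2, o3⟩ := (ok_split ht s hs).1 v2
      by_cases e1 : s = []
      · subst e1
        have e : vals R ++ M = [] := by
          by_contra hc
          obtain ⟨y, hy⟩ := List.exists_mem_of_ne_nil _ hc
          have a1 : y ≤ m := v3 y hy
          rcases List.mem_append.1 hy with hy | hy
          · have := lt_of y (by simp [vals, hy]) fun e => n5 m (by simp) y (by simp [hy]) e.symm
            omega
          · have := hM y hy; omega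
        obtain ⟨e2, rfl⟩ := List.append_eq_nil_iff.1 e
        obtain rfl := vals_nil v5 e2
        have hl' := hl rfl
        by_cases e3 : t = []
        · subst e3
          exact ⟨.pk, mem_addrs.2 (by simp [hl', shape]), K, rfl, by simpa [vals] using v4, rfl⟩
        · refine ⟨.da, mem_addrs.2 (by simp [hl', shape]), .cons t .nil K, rfl, ?_, rfl⟩
          exact ⟨e3, by simpa [vals] using o2, by simpa [vals] using o3, trivial,
            by simpa [vals] using v4⟩
      · have v3' := (Hd_append e1 _).1 v3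
        by_cases e3 : t = []
        · subst e3
          exact ⟨.dd, mem_addrs.2 (by simp), .cons s K R, rfl,
            ⟨e1, o1.mono fun b _ hb => hb.2, v3', v4, v5⟩, rfl⟩
        · refine ⟨.val, mem_addrs.2 (by simp), .cons s (.cons t .nil K) R, rfl,
            ⟨e1, o1.mono fun b _ hb y hy => ?_, v3', ⟨e3, by simpa [vals] using o2,
              by simpa [vals] using o3, trivial, v4⟩, v5⟩, rfl⟩
          simp only [vals, List.mem_append, List.not_mem_nil, false_or] at hy
          rcases hy with ((hy | hy) | hy) | hy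
          · exact hb.1 y hy
          · exact hb.2 y (by simp [hy])
          · exact hb.2 y (by simp [hy])
          · exact hb.2 y (by simp [hy])
    by_cases hk : m ∈ vals K
    · obtain ⟨a, ha, K', s1, s2, s3⟩ := ins_surj (m := m) (l := l && decide (shape R = .nil)) v4
        (fun e => by
          obtain ⟨e2, e3⟩ := List.append_eq_nil_iff.1 e
          simp [vals_nil v5 e2, hl e3, shape]) hk n2
        (fun y hy => hm y (by simp [vals, hy])) (fun y hy => by
          rcases List.mem_append.1 hy with hy | hy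
          · exact lt_of y (by simp [vals, hy]) fun e => n4 m hk y hy e.symm
          · exact hM y hy)
      have a2 := (ins_shape (m := m) ha s1).2
      rw [s3] at a2
      refine ⟨.kid a, mem_addrs.2 (by simp [ha]), .cons w K' R, by simp [shape, mv, s1],
        ⟨v1, v2.mono fun b hb hd => ?_, v3, s2, v5⟩, by simp [ins, s3]⟩
      have := (dom_perm a2 (hm b (by simp [vals, hb])) [] (vals R ++ M)).1 (by simpa using hd)
      simpa using this
    · have hr : m ∈ vals R := by simpa [vals, hw, hk] using h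
      obtain ⟨a, ha, R', s1, s2, s3⟩ := ins_surj (m := m) (l := l) v5 hl hr n3
        (fun y hy => hm y (by simp [vals, hy])) hM
      have a2 := (ins_shape (m := m) ha s1).2
      rw [s3] at a2
      refine ⟨.nxt a, mem_addrs.2 (by simp [ha]), .cons w K R', by simp [shape, mv, s1],
        ⟨v1, v2.mono fun b hb hd => ?_, v3.mono fun b hb hd => ?_, v4.mono fun b hb hd => ?_, s2⟩,
        by simp [ins, s3]⟩
      · exact (dom_perm a2 (hm b (by simp [vals, hb])) _ M).1 hd
      · exact (dom_perm a2 (hm b (by simp [vals, hb])) [] M).1 hd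
      · exact (dom_perm a2 (hm b (by simp [vals, hb])) [] M).1 hd

end Pool.Agent.H8.Pc
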