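import Pool.Agent.H8.Pc3

namespace Pool.Agent.H8.Pc

open PowerSeries

def rmin : List ℕ → ℕ
  | [] => 0
  | a :: t => (if ∀ y ∈ t, a < y then 1 else 0) + rmin t

lemma rmin_split {m : ℕ} {t : List ℕ} (ht : ∀ y ∈ t, m < y) :
    ∀ s : List ℕ, (∀ y ∈ s, m < y) → rmin (s ++ m :: t) = rmin t + 1
  | [], _ => by simp only [List.nil_append, rmin, if_pos ht]; omega
  | a :: s, hs => by
    have h1 := rmin_split ht s fun y hy => hs y (List.mem_cons_of_mem _ hy)
    have h2 : ¬ ∀ y ∈ s ++ m :: t, a < y := fun h => by
      have := h m (by simp)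
      have := hs a (by simp)
      omega
    simp only [List.cons_append, rmin, if_neg h2, h1]; omega

def rho : Fl → ℕ
  | .nil => 0
  | .cons w k r => if shape r = .nil then (if shape k = .nil then rmin w else rho k) else rho r

def kind : Ad → Fo → ℕ
  | .dd, .cons k r => if r = .nil ∧ k = .nil then 1 else 0
  | .pk, .cons k r => if r = .nil ∧ k = .nil then 1 else 0
  | .val, .cons k r => if r = .nil ∧ k = .nil then 2 else 0
  | .da, .cons k r => if r = .nil ∧ k = .nil then 2 else 0
  | .kid a, .cons k r => if r = .nil then kind a k else 0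
  | .nxt a, .cons _ r => kind a r
  | _, .nil => 0

lemma ne_nil_of_mem {a : Ad} {F : Fo} {l : Bool} (h : a ∈ addrs F l) : F ≠ .nil := by
  rintro rfl; simp [addrs] at h

lemma mv_ne {a : Ad} {F : Fo} {l : Bool} (h : a ∈ addrs F l) (hk : kind a F ≠ 1) :
    mv a F ≠ .nil := by
  cases F with
  | nil => simp [addrs] at h
  | cons k r =>
    rcases mem_addrs.1 h with rfl | rfl | ⟨⟨-, rfl⟩, rfl | rfl⟩ | ⟨b, hb, rfl⟩ | ⟨b, hb, rfl⟩ <;>
      simp_all [mv, kind]

lemma rho_ins {m : ℕ} : ∀ {F : Fo} {l : Bool} {a : Ad} {fl : Fl}, a ∈ addrs F l →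
    shape fl = mv a F → (∀ y ∈ vals fl, m < y) →
    rho (ins m a fl) = if kind a F = 1 then 1 else if kind a F = 2 then rho fl + 1 else rho fl
  | .nil, _, _, _, h, _, _ => by simp [addrs] at h
  | .cons k r, l, a, fl, h, hs, hm => by
    rcases mem_addrs.1 h with rfl | rfl | ⟨⟨hl', rfl⟩, rfl | rfl⟩ | ⟨b, hb, rfl⟩ | ⟨b, hb, rfl⟩
    · obtain ⟨w, K, R, rfl, rfl, rfl⟩ := shape_cons hs
      have := rmin_split (m := m) (t := []) (by simp) w fun y hy => hm y (by simp [vals, hy])
      simp only [ins, rho, kind, this, rmin]
      split_ifs <;> simp_all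
    · obtain ⟨w, K, R, rfl, h1, rfl⟩ := shape_cons hs
      obtain ⟨w', K', R', rfl, h2, rfl⟩ := shape_cons h1
      obtain rfl := shape_nil h2
      have := rmin_split (m := m) (t := w') (fun y hy => hm y (by simp [vals, hy])) w
        fun y hy => hm y (by simp [vals, hy])
      simp only [ins, rho, kind, this, shape]
      by_cases c1 : shape R = .nil <;> by_cases c2 : shape R' = .nil <;> simp [c1, c2]
    · obtain ⟨w, K, R, rfl, h1, rfl⟩ := shape_cons hs
      obtain rfl := shape_nil h1
      have := rmin_split (m := m) (t := w) (fun y hy => hm y (by simp [vals, hy])) [] (by simp)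
      simp only [List.nil_append] at this
      simp only [ins, rho, kind, this, shape]
      by_cases c1 : shape R = .nil <;> simp [c1]
    · simp only [mv] at hs
      subst hs
      simp only [ins, rho, kind, shape, rmin]
      by_cases c1 : shape fl = .nil <;> simp [c1]
    · obtain ⟨w, K, R, rfl, h1, rfl⟩ := shape_cons hs
      have a1 := (ins_shape (m := m) hb h1).1
      have ih := rho_ins (m := m) hb h1 fun y hy => hm y (by simp [vals, hy])
      have n1 := ne_nil_of_mem hb
      have n2 := mv_ne hb
      simp only [ins, rho, kind, a1, ih, h1, n1, if_false]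
      by_cases c1 : shape R = .nil
      · by_cases c2 : kind b k = 1
        · simp [c1, c2]
        · simp [c1, c2, n2 c2]
      · simp [c1]
    · obtain ⟨w, K, R, rfl, rfl, h1⟩ := shape_cons hs
      have a1 := (ins_shape (m := m) hb h1).1
      have ih := rho_ins (m := m) hb h1 fun y hy => hm y (by simp [vals, hy])
      have n1 := ne_nil_of_mem hb
      have n2 := mv_ne hb
      simp only [ins, rho, kind, a1, ih, h1, n1, if_false]
      by_cases c2 : kind b r = 1
      · simp [c2]
      · simp [c2, n2 c2]

noncomputable def nu (j : ℕ) : Fo → ℤ⟦X⟧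
  | .nil => if j = 0 then 1 else 0
  | .cons k r => if r = .nil then (if k = .nil then (if j = 0 then 0 else X ^ j)
      else I (X * nu j k)) else I (X * mu k) * nu j r

noncomputable def V (j : ℕ) (a : Ad) (F : Fo) : ℤ⟦X⟧ :=
  if kind a F = 1 then (if j = 1 then mu (mv a F) else 0)
  else if kind a F = 2 then (if j = 0 then 0 else nu (j - 1) (mv a F)) else nu j (mv a F)

lemma nu_X (j : ℕ) : ∀ F : Fo, F ≠ .nil → ∃ g, nu j F = X * g
  | .nil, h => absurd rfl h
  | .cons k r, _ => by
    simp only [nu]
    split_ifs with c1 c2 c3
    · exact ⟨0, by simp⟩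
    · obtain ⟨i, rfl⟩ : ∃ i, j = i + 1 := ⟨j - 1, by omega⟩
      exact ⟨X ^ i, by ring⟩
    · exact ⟨_, I_Xmul _⟩
    · exact ⟨(G * mu k + I (mu k)) * nu j r, by rw [I_Xmul]; ring⟩

lemma I_zero : I 0 = 0 := by simp [I]

lemma key_id (f : ℤ⟦X⟧) : I (X * f) + I (X * (I (X * 1) * f)) + I (X * I f) = I (I (X * f)) := by
  rw [← I_add, ← I_add, mul_one, I_X]
  congr 1
  rw [I_Xmul]
  linear_combination (-(X * f)) * G_eq

lemma sum_V (j : ℕ) : ∀ F : Fo, ((addrs F true).map fun a => V j a F).sum
    = I (nu j F) + L (nu j F)
  | .nil => by
    simp only [addrs, nu]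
    split_ifs
    · simp [I_one, L_one]
    · have := L_X 0
      simp only [mul_zero] at this
      simp [I_zero, this]
  | .cons k r => by
    have h1 := sum_V j k
    have h2 := sum_V j r
    by_cases hr : r = .nil
    · subst hr
      by_cases hk : k = .nil
      · subst hk
        have z : L 0 = 0 := by simpa using L_X 0
        rcases j with _ | _ | j
        · simp [addrs, V, kind, nu, I_zero, z]
        · have := L_X 1
          simp only [mul_one] at this
          simp [addrs, V, kind, nu, mv, mu, I_zero, this]
        · have := L_X (X ^ (j + 1))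
          simp only [← pow_succ'] at this
          simp [addrs, V, kind, nu, mv, mu, this, ← pow_succ']
      · have e1 : (((addrs k true).map Ad.kid).map fun a => V j a (.cons k .nil)).sum
            = I (X * ((addrs k true).map fun a => V j a k).sum) := by
          rw [← I_sum, List.map_map, List.map_map]
          congr 1
          refine List.map_congr_left fun a ha => ?_
          have n2 := mv_ne ha
          simp only [Function.comp, V, kind, mv, if_true]
          by_cases c1 : kind a k = 1
          · simp only [c1, if_true]; split_ifs <;> simp [mu, I_zero]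
          · simp only [c1, if_false, nu, n2 c1, if_true]; split_ifs <;> simp [I_zero]
        obtain ⟨g, hg⟩ := nu_X j k hk
        have e2 : I (X * L (nu j k)) = I (nu j k) := by rw [hg, L_X]
        have e3 : L (I (X * nu j k)) = G * nu j k + I (nu j k) := by rw [I_Xmul, L_X]
        have key := key_id (nu j k)
        simp only [addrs, and_self, if_true, decide_true, Bool.and_self, List.map_append,
          List.sum_append, e1, h1, List.map_nil, List.sum_nil, List.map_cons, List.sum_cons]
        simp only [V, kind, hk, mv, nu, mu, and_false, if_false, if_true, mul_add, I_add, e2, e3,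
          zero_ne_one, OfNat.zero_ne_ofNat, reduceCtorEq, mul_one, I_X] at key ⊢
        linear_combination key - nu j k * G_eq
    · have e1 : (((addrs k false).map Ad.kid).map fun a => V j a (.cons k r)).sum
          = I (X * ((addrs k false).map fun a => mu (mv a k)).sum) * nu j r := by
        rw [← I_sum, ← List.sum_map_mul_right, List.map_map, List.map_map]
        congr 1
        refine List.map_congr_left fun a _ => ?_
        simp [V, kind, mv, hr, nu]
      have e2 : (((addrs r true).map Ad.nxt).map fun a => V j a (.cons k r)).sum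
          = I (X * mu k) * ((addrs r true).map fun a => V j a r).sum := by
        rw [← List.sum_map_mul_left, List.map_map]
        congr 1
        refine List.map_congr_left fun a ha => ?_
        have n2 := mv_ne ha
        simp only [Function.comp, V, kind, mv]
        by_cases c1 : kind a r = 1
        · simp only [c1, if_true]; split_ifs <;> simp [mu]
        · simp only [c1, if_false, nu, n2 c1]; split_ifs <;> simp
      obtain ⟨g, hg⟩ := nu_X j r hr
      have e3 : L (I (X * mu k) * nu j r) = I (X * mu k) * L (nu j r) := by
        rw [hg, L_X, mul_left_comm, L_X]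
      have key := key_id (mu k)
      have h3 := sum_moves k false
      simp only [Bool.false_eq_true, if_false, add_zero] at h3
      simp only [addrs, hr, and_false, if_false, decide_false, Bool.and_false, List.map_append,
        List.sum_append, e1, e2, h2, h3, List.map_nil, List.sum_nil, List.map_cons, List.sum_cons]
      simp only [V, kind, hr, mv, nu, mu, false_and, if_false, zero_ne_one, OfNat.zero_ne_ofNat,
        e3, I_mul (I (X * mu k)), ← key]
      ring

lemma pair_zero (n : ℕ) : pair 0 n = 0 := by simp [pair]

lemma enum_rho : ∀ (n : ℕ) (F : Fo) (m j : ℕ),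
    (((enum n F m).countP fun fl => rho fl = j : ℕ) : ℤ) = pair (nu j F) n
  | 0, F, m, j => by
    cases F with
    | nil => by_cases h : j = 0 <;> simp [enum, pair, lev, nu, rho, h, eq_comm]
    | cons k r =>
      obtain ⟨g, hg⟩ := nu_X j (.cons k r) (by simp)
      simp [enum, pair, lev, hg]
  | n + 1, F, m, j => by
    rw [pair_succ, ← sum_V, ← pair_sum, List.map_map, enum, List.countP_flatMap]
    push_cast
    rw [List.map_map]
    congr 1
    refine List.map_congr_left fun a ha => ?_
    simp only [Function.comp, List.countP_map]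
    have hr : ∀ fl ∈ enum n (mv a F) (m + 1), rho (ins m a fl)
        = if kind a F = 1 then 1 else if kind a F = 2 then rho fl + 1 else rho fl := by
      intro fl h
      obtain ⟨h1, -, h3⟩ := (mem_enum n _ _ _).1 h
      refine rho_ins ha h1 fun y hy => ?_
      have := List.mem_range'_1.1 (h3.mem_iff.1 hy)
      omega
    unfold V
    split_ifs with c1 c2 c3 c4
    · rw [← enum_length n _ (m + 1), List.countP_eq_length.2]
      intro fl h
      simp [hr fl h, c1, c2]
    · rw [pair_zero, List.countP_eq_zero.2]
      · rfl
      intro fl h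
      simp [hr fl h, c1, Ne.symm c2]
    · rw [pair_zero, List.countP_eq_zero.2]
      · rfl
      intro fl h
      simp [hr fl h, c3, c4]
    · rw [← enum_rho n _ (m + 1)]
      congr 1
      refine List.countP_congr fun fl h => ?_
      simp [hr fl h, c3]
      omega
    · rw [← enum_rho n _ (m + 1)]
      congr 1
      refine List.countP_congr fun fl h => ?_
      simp [hr fl h, c1, c3]

end Pool.Agent.H8.Pc
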