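import Pool.Agent.H8.Pc4

namespace Pool.Agent.H8.Pc

open PowerSeries

def lift : ℕ → List ℕ → List (List ℕ)
  | _, [] => [[]]
  | p, (x + 1) :: t => (lift p t).map ((x + 2) :: ·)
  | 0, 0 :: t => (lift 0 t).map (0 :: ·) ++ (lift 1 t).map (1 :: ·)
  | 1, 0 :: t => (lift 1 t).map (0 :: ·) ++ (lift 2 t).map (1 :: ·)
  | p + 2, 0 :: t => (lift (p + 2) t).map (1 :: ·)

def Cnd : ℕ → List ℕ → Prop
  | 0, t => ¬ List.Sublist [1, 1, 0] t
  | 1, t => ¬ List.Sublist [1, 0] t
  | _ + 2, t => ¬ List.Sublist [0] t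

lemma mem_lift : ∀ (e : List ℕ) (p : ℕ) (t : List ℕ),
    t ∈ lift p e ↔ t.map Nat.pred = e ∧ Cnd p t
  | [], p, t => by
    rcases p with _ | _ | p <;> cases t <;> simp [lift, Cnd]
  | x :: e, p, [] => by
    rcases x with _ | x <;> rcases p with _ | _ | p <;> simp [lift]
  | x :: e, p, y :: t => by
    have h0 := mem_lift e 0 t
    have h1 := mem_lift e 1 t
    have h2 := mem_lift e 2 t
    have hp := mem_lift e p t
    rcases x with _ | x <;> rcases p with _ | _ | p <;> rcases y with _ | _ | y <;>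
      simp [lift, Cnd, List.cons_sublist_cons', h0, h1, h2, hp] <;>
      first
      | done
      | (intro _; constructor
         · intro h; exact ⟨fun h' => h ((List.sublist_cons_self _ _).trans h'), h⟩
         · exact fun h => h.2)
      | (intro _ h h'; exact h (h'.subset (by simp)))
      | tauto

lemma lift_nodup : ∀ (e : List ℕ) (p : ℕ), (lift p e).Nodup
  | [], p => by simp [lift]
  | x :: e, p => by
    have inj : ∀ y : ℕ, Function.Injective fun t : List ℕ => y :: t :=
      fun y _ _ h => (List.cons.inj h).2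
    have h := fun p y => (lift_nodup e p).map (inj y)
    rcases x with _ | x <;> rcases p with _ | _ | p <;> simp [lift, h, List.nodup_append]

lemma lift_sum : ∀ (e : List ℕ) (f : ℕ → ℤ),
    (∀ p, ((lift (p + 2) e).map fun t => f (t.count 0)).sum = f 0) ∧
    ((lift 1 e).map fun t => f (t.count 0)).sum = ∑ i ∈ Finset.range (e.count 0 + 1), f i ∧
    ((lift 0 e).map fun t => f (t.count 0)).sum
      = ∑ i ∈ Finset.range (e.count 0), (i + 1) * f i + f (e.count 0)
  | [], f => by simp [lift]
  | (x + 1) :: e, f => by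
    obtain ⟨h2, h1, h0⟩ := lift_sum e f
    simp only [lift, List.map_map, Function.comp_def]
    simpa using ⟨h2, h1, h0⟩
  | 0 :: e, f => by
    obtain ⟨h2, h1, h0⟩ := lift_sum e f
    obtain ⟨-, g1, g0⟩ := lift_sum e fun i => f (i + 1)
    have h2' := h2 0
    simp only [lift, List.map_map, Function.comp_def, List.map_append, List.sum_append,
      List.count_cons_self, List.count_cons_of_ne (show (1 : ℕ) ≠ 0 by simp)] at *
    refine ⟨h2, ?_, ?_⟩
    · rw [g1, h2', Finset.sum_range_succ' _ (_ + 1)]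
    · rw [g0, h1, Finset.sum_range_succ' (fun i => ((i : ℕ) + 1 : ℤ) * f i),
        Finset.sum_range_succ' f]
      have : ∑ i ∈ Finset.range (e.count 0), ((↑(i + 1) + 1 : ℤ) * f (i + 1))
          = ∑ i ∈ Finset.range (e.count 0), ((i : ℤ) + 1) * f (i + 1)
            + ∑ i ∈ Finset.range (e.count 0), f (i + 1) := by
        rw [← Finset.sum_add_distrib]
        exact Finset.sum_congr rfl fun i _ => by push_cast; ring
      rw [this]; simp; ring

lemma coeff_IL (f : ℤ⟦X⟧) (k : ℕ) : coeff k (I f + L f)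
    = ∑ i ∈ Finset.range k, ((i : ℤ) + 1) * coeff (i + 1) f + coeff (k + 1) f := by
  have h1 : ∀ k, coeff k (I f) = ∑ i ∈ Finset.range k, ((i : ℤ) + 1) * coeff (i + 1) f := by
    intro k
    induction k with
    | zero => simp [I, mul_left_comm G]
    | succ k ih =>
      have e : I f = X * derivative ℤ f + X * I f := by
        unfold I
        linear_combination (X * derivative ℤ f) * G_eq
      rw [Finset.sum_range_succ, ← ih]
      conv_lhs => rw [e]
      simp [coeff_succ_X_mul, coeff_derivative]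
      ring
  simp [h1, L]

def enumI : ℕ → List (List ℕ)
  | 0 => [[]]
  | n + 1 => (enumI n).flatMap fun e => (lift 0 e).map (0 :: ·)

lemma enumI_sum : ∀ (n : ℕ) (f : ℤ⟦X⟧),
    ((enumI n).map fun e => coeff (e.count 0) f).sum = pair f n
  | 0, f => by simp [enumI, pair, lev]
  | n + 1, f => by
    rw [pair_succ, ← enumI_sum n, enumI]
    induction enumI n with
    | nil => simp
    | cons e l ih =>
      simp only [List.flatMap_cons, List.map_append, List.sum_append, List.map_cons,
        List.sum_cons, ih]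
      congr 1
      have := (lift_sum e fun i => coeff (i + 1) f).2.2
      rw [coeff_IL, ← this, List.map_map]
      simp [Function.comp_def]

def Inv : ℕ → List ℕ → Prop
  | _, [] => True
  | m, x :: t => x ≤ m ∧ Inv (m + 1) t

def Av (e : List ℕ) : Prop := ∀ a b, b < a → ¬ List.Sublist [a, a, b] e

lemma inv_pred : ∀ (t : List ℕ) (m : ℕ), Inv (m + 1) t ↔ Inv m (t.map Nat.pred)
  | [], _ => by simp [Inv]
  | x :: t, m => by
    simp only [Inv, List.map_cons, inv_pred t (m + 1), Nat.pred_eq_sub_one]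
    constructor <;> rintro ⟨h1, h2⟩ <;> exact ⟨by omega, h2⟩

lemma av_zero (t : List ℕ) : Av (0 :: t) ↔ Av t := by
  unfold Av
  refine forall_congr' fun a => forall_congr' fun b => forall_congr' fun h => ?_
  rw [List.cons_sublist_cons']
  have : a ≠ 0 := by omega
  simp [this]

lemma av_pred (t : List ℕ) : Av t ↔ Cnd 0 t ∧ Av (t.map Nat.pred) := by
  constructor
  · intro h
    refine ⟨h 1 0 (by omega), fun a b hab hs => ?_⟩
    obtain ⟨l, h1, h2⟩ := List.sublist_map_iff.1 hs
    rcases l with _ | ⟨x, _ | ⟨y, _ | ⟨z, _ | _⟩⟩⟩ <;> simp at h2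
    obtain ⟨e1, e2, e3⟩ := h2
    have : y = x := by omega
    subst this
    exact h y z (by omega) h1
  · rintro ⟨h0, h⟩ a b hab hs
    by_cases ha : a = 1
    · subst ha
      have : b = 0 := by omega
      subst this
      exact h0 hs
    · exact h (a - 1) (b - 1) (by omega) (hs.map Nat.pred)

lemma mem_enumI : ∀ (n : ℕ) (e : List ℕ), e ∈ enumI n ↔ e.length = n ∧ Inv 0 e ∧ Av e
  | 0, e => by
    simp only [enumI, List.mem_singleton, List.length_eq_zero_iff]
    exact ⟨fun h => by subst h; simp [Inv, Av], fun h => h.1⟩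
  | n + 1, e => by
    simp only [enumI, List.mem_flatMap, List.mem_map, mem_lift, mem_enumI n]
    constructor
    · rintro ⟨e', ⟨h1, h2, h3⟩, t, ⟨rfl, h4⟩, rfl⟩
      exact ⟨by simpa using h1, ⟨le_rfl, (inv_pred t 0).2 h2⟩,
        (av_zero t).2 ((av_pred t).2 ⟨h4, h3⟩)⟩
    · rintro ⟨h1, h2, h3⟩
      cases e with
      | nil => simp at h1
      | cons x t =>
        obtain ⟨h4, h5⟩ := h2
        obtain rfl : x = 0 := by omega
        obtain ⟨h6, h7⟩ := (av_pred t).1 ((av_zero t).1 h3)
        exact ⟨_, ⟨by simpa using h1, (inv_pred t 0).1 h5, h7⟩, t, ⟨rfl, h6⟩, rfl⟩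

lemma enumI_nodup : ∀ n, (enumI n).Nodup
  | 0 => by simp [enumI]
  | n + 1 => by
    refine List.nodup_flatMap.2 ⟨fun e _ => (lift_nodup e 0).map fun _ _ h => (List.cons.inj h).2,
      (enumI_nodup n).imp fun {a b} hab => ?_⟩
    intro z hz hz'
    obtain ⟨x, hx, rfl⟩ := List.mem_map.1 hz
    obtain ⟨y, hy, e⟩ := List.mem_map.1 hz'
    obtain rfl := (List.cons.inj e).2
    exact hab (((mem_lift _ _ _).1 hx).1.symm.trans ((mem_lift _ _ _).1 hy).1)

lemma enumI_count (n k : ℕ) :
    (((enumI n).countP fun e => e.count 0 = k : ℕ) : ℤ) = pair (X ^ k) n := by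
  rw [← enumI_sum]
  induction enumI n with
  | nil => simp
  | cons e l ih =>
    rw [List.countP_cons, List.map_cons, List.sum_cons, ← ih, coeff_X_pow]
    by_cases h : e.count 0 = k <;> simp [h, add_comm]

lemma counts_eq (n k : ℕ) : ((enum (n + 1) (.cons .nil .nil) 0).countP fun fl => rho fl = k)
    = (enumI (n + 1)).countP fun e => e.count 0 = k := by
  have h1 := enum_rho (n + 1) (.cons .nil .nil) 0 k
  have h2 := enumI_count (n + 1) k
  have : pair (nu k (.cons .nil .nil)) (n + 1) = pair (X ^ k) (n + 1) := by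
    by_cases hk : k = 0
    · subst hk
      simp only [nu, if_true, pair_zero, pow_zero]
      unfold pair
      rw [List.map_congr_left (g := fun _ => 0)]
      · simp
      · intro j hj
        have := lev_pos n j hj
        rw [coeff_one, if_neg (by omega)]
    · simp [nu, hk]
  omega

end Pool.Agent.H8.Pc
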