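import Mathlib

namespace Pool.Agent.H8.Pc

/-- `π` contains the vincular pattern with letters 2, 3, 1, 4 whose first two letters are
adjacent. -/
def Contains {n : ℕ} (π : Equiv.Perm (Fin n)) : Prop :=
  ∃ i i' j k : Fin n, i'.val = i.val + 1 ∧ i' < j ∧ j < k ∧ π j < π i ∧ π i < π i' ∧ π i' < π k

/-- Labels of the children of a vertex with label `k`: `i` copies of `i` for `1 ≤ i ≤ k`,
and one copy of `k + 1`. -/
def children (k : ℕ) : List ℕ :=
  (List.range' 1 k).flatMap (fun i => List.replicate i i) ++ [k + 1]

/-- `level n` lists the labels of the vertices at level `n + 1` of the tree. -/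
def level : ℕ → List ℕ
  | 0 => [1]
  | n + 1 => (level n).flatMap children

end Pool.Agent.H8.Pc
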