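import Mathlib

set_option autoImplicit false

namespace Pool.Agent.H8.Pick

open scoped Pointwise

/-- The Euclidean plane. -/
abbrev E2 := EuclideanSpace ℝ (Fin 2)

/-- The translate of a set by a vector. -/
def shift (v : E2) (s : Set E2) : Set E2 := (fun p => v + p) '' s

/-- The convex hull of a finite set. -/
def hull (A : Finset E2) : Set E2 := convexHull ℝ (A : Set E2)

/-- `F` is empty or a face (exposed set) of `T`. -/
def IsFaceOf (T F : Set E2) : Prop := IsExposed ℝ T F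

/-- A face-to-face tiling of the plane by translates of finitely many convex polygons. -/
structure IsTiling (𝒯 : Set (Set E2)) : Prop where
  proto : ∃ 𝒜 : Finset (Finset E2), ∀ T ∈ 𝒯, ∃ A ∈ 𝒜, ∃ v : E2,
    T = shift v (hull A)
  solid : ∀ T ∈ 𝒯, (interior T).Nonempty
  cover : ⋃₀ 𝒯 = Set.univ
  disj : ∀ T ∈ 𝒯, ∀ T' ∈ 𝒯, T ≠ T' → Disjoint (interior T) (interior T')
  face : ∀ T ∈ 𝒯, ∀ T' ∈ 𝒯, IsFaceOf T (T ∩ T')

/-- An expansive matrix: diagonalizable over `ℂ`, all eigenvalues of modulus above one. -/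
def Expansive (φ : Matrix (Fin 2) (Fin 2) ℝ) : Prop :=
  ∃ (Q : Matrix (Fin 2) (Fin 2) ℂ) (ev : Fin 2 → ℂ), Q.det ≠ 0 ∧ (∀ i, 1 < ‖ev i‖) ∧
    φ.map Complex.ofReal * Q = Q * Matrix.diagonal ev

/-- The image of a set under the linear map with matrix `φ`. -/
def img (φ : Matrix (Fin 2) (Fin 2) ℝ) (s : Set E2) : Set E2 :=
  (fun p : E2 => (WithLp.toLp 2 (φ.mulVec p.ofLp) : E2)) '' s

/-- A self-affine tiling with expansive map `φ`. -/
structure IsSelfAffine (𝒯 : Set (Set E2)) (φ : Matrix (Fin 2) (Fin 2) ℝ) : Prop where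
  tiling : IsTiling 𝒯
  expansive : Expansive φ
  repetitive : ∀ 𝒬 : Set (Set E2), 𝒬.Finite → 𝒬 ⊆ 𝒯 → ∃ R : ℝ, 0 < R ∧ ∀ c : E2, ∃ v : E2,
    ∀ T ∈ 𝒬, shift v T ∈ 𝒯 ∧ shift v T ⊆ Metric.ball c R
  inflation : ∀ T ∈ 𝒯, ∃ 𝒬 : Set (Set E2), 𝒬.Finite ∧ 𝒬 ⊆ 𝒯 ∧ img φ T = ⋃₀ 𝒬
  deflation : ∀ T ∈ 𝒯, ∀ T' ∈ 𝒯, (∃ v : E2, T' = shift v T) → ∃ u : E2,
    {S | S ∈ 𝒯 ∧ S ⊆ img φ T'} = shift u '' {S | S ∈ 𝒯 ∧ S ⊆ img φ T}

/-- The set of vertices of the tiles. -/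
def vertices (𝒯 : Set (Set E2)) : Set E2 := ⋃ T ∈ 𝒯, T.extremePoints ℝ

/-- Area of a planar set. -/
noncomputable def area (X : Set E2) : ℝ := (MeasureTheory.volume X).toReal

/-- Length of the boundary of a planar set (one-dimensional Hausdorff measure). -/
noncomputable def perimeter (X : Set E2) : ℝ :=
  (MeasureTheory.Measure.hausdorffMeasure 1 (frontier X)).toReal

/-- The difference of the two sides of the Pick-type formula for the region `X`. -/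
noncomputable def pickError (Γ X : Set E2) (Δ : ℝ) : ℝ :=
  ((Γ ∩ X).ncard : ℝ) - area X / Δ - (1 / 2) * ((Γ ∩ frontier X).ncard : ℝ)

end Pool.Agent.H8.Pick
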