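import Mathlib

set_option autoImplicit false

namespace Pool.Agent.H8.Pick

/-- letters: 0 = a, 1 = first half of b, 2 = second half of b -/
def sb : Fin 3 → Fin 5 → Fin 3 := ![![1, 2, 0, 1, 2], ![1, 2, 0, 0, 0], ![0, 0, 0, 1, 2]]

def wp : ℕ → Fin 3
  | 0 => 1
  | (n + 1) => sb (wp ((n + 1) / 5)) ⟨(n + 1) % 5, Nat.mod_lt _ (by norm_num)⟩
decreasing_by omega

def wn : ℕ → Fin 3
  | 0 => 2
  | (n + 1) => sb (wn ((n + 1) / 5)) ⟨4 - (n + 1) % 5, by omega⟩
decreasing_by omega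

theorem wp_eq (n : ℕ) : wp n = sb (wp (n / 5)) ⟨n % 5, Nat.mod_lt _ (by norm_num)⟩ := by
  cases n with
  | zero => simp [wp, sb]
  | succ n => rw [wp]

theorem wn_eq (n : ℕ) : wn n = sb (wn (n / 5)) ⟨4 - n % 5, by omega⟩ := by
  cases n with
  | zero => simp [wn, sb]
  | succ n => rw [wn]

def w : ℤ → Fin 3
  | Int.ofNat n => wp n
  | Int.negSucc n => wn n

theorem w_eq (q : ℤ) (r : Fin 5) : w (5 * q + r) = sb (w q) r := by
  have hr := r.2
  cases q with
  | ofNat n =>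
    have : 5 * Int.ofNat n + (r : ℕ) = Int.ofNat (5 * n + r) := by simp
    rw [this]
    simp only [w]
    rw [wp_eq]
    congr 1
    · congr 1; omega
    · ext; simp only; omega
  | negSucc n =>
    have : 5 * Int.negSucc n + (r : ℕ) = Int.negSucc (5 * n + (4 - r)) := by
      simp only [Int.negSucc_eq]; push_cast; omega
    rw [this]
    simp only [w]
    rw [wn_eq]
    congr 1
    · congr 1; omega
    · ext; simp only; omega

theorem w_zero : w 0 = 1 := by
  show wp 0 = 1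
  simp [wp]

theorem w_neg_one : w (-1) = 2 := by
  show wn 0 = 2
  simp [wn]

theorem decomp (j : ℤ) : ∃ (q : ℤ) (r : Fin 5), j = 5 * q + r :=
  ⟨j / 5, ⟨(j % 5).toNat, by omega⟩, by simp only; omega⟩

theorem w_succ (j : ℤ) : w j = 1 ↔ w (j + 1) = 2 := by
  obtain ⟨q, r, rfl⟩ := decomp j
  by_cases h : r.1 < 4
  · have : 5 * q + r + 1 = 5 * q + ((⟨r.1 + 1, by omega⟩ : Fin 5) : ℕ) := by push_cast; ring
    rw [this, w_eq, w_eq]
    generalize w q = x
    clear this
    revert x r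
    decide
  · have hr : r = 4 := by
      have := r.2
      exact Fin.ext (show r.1 = 4 by omega)
    subst hr
    have : 5 * q + ((4 : Fin 5) : ℕ) + 1 = 5 * (q + 1) + ((0 : Fin 5) : ℕ) := by
      simp; ring
    rw [this, w_eq, w_eq]
    generalize w q = x
    generalize w (q + 1) = y
    revert x y
    decide

theorem w_five (q : ℤ) : w (5 * q) ≠ 2 := by
  have := w_eq q 0
  simp only [Fin.val_zero, Nat.cast_zero, add_zero] at this
  rw [this]
  generalize w q = x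
  revert x; decide

theorem w_rep (s : ℤ) (h0 : w s = 1) (h1 : w (s - 1) = 2) (k : ℕ) :
    ∀ j : ℤ, -5 ^ k ≤ j → j < 5 ^ k → w (5 ^ k * s + j) = w j := by
  induction k with
  | zero =>
    intro j h2 h3
    have : j = -1 ∨ j = 0 := by omega
    rcases this with rfl | rfl
    · rw [w_neg_one, ← h1]; congr 1; ring
    · rw [w_zero, ← h0]; congr 1; ring
  | succ k ih =>
    intro j h2 h3
    obtain ⟨q, r, rfl⟩ := decomp j
    have hr := r.2
    have : 5 ^ (k + 1) * s + (5 * q + r) = 5 * (5 ^ k * s + q) + r := by ring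
    rw [this, w_eq, w_eq, ih q (by rw [pow_succ] at h2; omega) (by rw [pow_succ] at h3; omega)]

theorem w_seed (q : ℤ) (h : w q ≠ 2) : w (5 * q) = 1 ∧ w (5 * q - 1) = 2 := by
  have e0 := w_eq q 0
  simp only [Fin.val_zero, Nat.cast_zero, add_zero] at e0
  have e1 := w_eq (q - 1) 4
  have : 5 * (q - 1) + ((4 : Fin 5) : ℕ) = 5 * q - 1 := by simp; ring
  rw [this] at e1
  have h2 : w (q - 1) ≠ 1 := fun e => h (by simpa using (w_succ (q - 1)).1 e)
  rw [e0, e1]
  generalize w q = x at h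
  generalize w (q - 1) = y at h2
  revert x y; decide

theorem exists_near (j : ℤ) : ∃ q, w q ≠ 2 ∧ (q = j ∨ q = j - 1) := by
  by_cases h : w j = 2
  · refine ⟨j - 1, ?_, Or.inr rfl⟩
    have := (w_succ (j - 1)).2 (by simpa using h)
    rw [this]; decide
  · exact ⟨j, h, Or.inl rfl⟩

/-- number of cells in `[0, n)` with letter `x` -/
def cnt (x : Fin 3) (n : ℕ) : ℕ := ((Finset.range n).filter fun j => w (j : ℕ) = x).card

theorem cnt_succ (x : Fin 3) (n : ℕ) : cnt x (n + 1) = cnt x n + if w n = x then 1 else 0 := by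
  unfold cnt
  rw [Finset.range_add_one, Finset.filter_insert]
  split_ifs
  · rw [Finset.card_insert_of_notMem (by simp)]
  · rfl

theorem cnt_five (n : ℕ) : cnt 2 (5 * n) = n + cnt 0 n ∧ cnt 0 (5 * n) + 2 * cnt 0 n = 3 * n := by
  induction n with
  | zero => simp [cnt]
  | succ n ih =>
    have e : 5 * (n + 1) = 5 * n + 1 + 1 + 1 + 1 + 1 := by ring
    have e0 : w ((5 * n : ℕ) : ℤ) = sb (w n) 0 := by rw [← w_eq]; congr 1
    have e1 : w ((5 * n + 1 : ℕ) : ℤ) = sb (w n) 1 := by rw [← w_eq]; congr 1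
    have e2 : w ((5 * n + 1 + 1 : ℕ) : ℤ) = sb (w n) 2 := by
      rw [← w_eq]; congr 1
    have e3 : w ((5 * n + 1 + 1 + 1 : ℕ) : ℤ) = sb (w n) 3 := by
      rw [← w_eq]; congr 1
    have e4 : w ((5 * n + 1 + 1 + 1 + 1 : ℕ) : ℤ) = sb (w n) 4 := by
      rw [← w_eq]; congr 1
    rw [e]
    simp only [cnt_succ, e0, e1, e2, e3, e4]
    obtain ⟨i1, i2⟩ := ih
    generalize w n = x
    fin_cases x <;> simp [sb] <;> omega

theorem cnt_pow (k : ℕ) : 7 * (cnt 0 (2 * 5 ^ k) : ℤ) = 6 * (5 ^ k - (-2) ^ k) := by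
  induction k with
  | zero =>
    have h1 : w 1 = 2 := by simpa using (w_succ 0).1 w_zero
    simp [cnt]
    intro x hx
    interval_cases x <;> simp [w_zero, h1]
  | succ k ih =>
    have := (cnt_five (2 * 5 ^ k)).2
    have e : 2 * 5 ^ (k + 1) = 5 * (2 * 5 ^ k) := by ring
    rw [e]
    have h2 : (cnt 0 (5 * (2 * 5 ^ k)) : ℤ) + 2 * cnt 0 (2 * 5 ^ k) = 3 * (2 * 5 ^ k) := by
      exact_mod_cast this
    rw [pow_succ, pow_succ]
    linarith

theorem cnt_two_pow (k : ℕ) :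
    7 * (cnt 2 (2 * 5 ^ (k + 1)) : ℤ) = 20 * 5 ^ k - 6 * (-2) ^ k := by
  have := (cnt_five (2 * 5 ^ k)).1
  have e : 2 * 5 ^ (k + 1) = 5 * (2 * 5 ^ k) := by ring
  rw [e, this]
  push_cast
  linarith [cnt_pow k]

end Pool.Agent.H8.Pick
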