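import Pool.Agent.H8.PickDefs
import Pool.Agent.H8.PickWord

set_option autoImplicit false

namespace Pool.Agent.H8.Pick

open Set
open scoped Pointwise

def rect (a b c d : ℝ) : Set E2 := {p | a ≤ p 0 ∧ p 0 ≤ b ∧ c ≤ p 1 ∧ p 1 ≤ d}

def pt (x y : ℝ) : E2 := WithLp.toLp 2 ![x, y]

@[simp] theorem pt0 (x y : ℝ) : pt x y 0 = x := rfl
@[simp] theorem pt1 (x y : ℝ) : pt x y 1 = y := rfl

theorem E2_ext {p q : E2} (h0 : p 0 = q 0) (h1 : p 1 = q 1) : p = q := by
  ext i; fin_cases i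
  · exact h0
  · exact h1

theorem mem_rect {a b c d : ℝ} {p : E2} :
    p ∈ rect a b c d ↔ a ≤ p 0 ∧ p 0 ≤ b ∧ c ≤ p 1 ∧ p 1 ≤ d := Iff.rfl

theorem shift_eq (v : E2) (s : Set E2) : shift v s = v +ᵥ s := rfl

theorem vadd_rect (v : E2) (a b c d : ℝ) :
    v +ᵥ rect a b c d = rect (v 0 + a) (v 0 + b) (v 1 + c) (v 1 + d) := by
  ext p
  rw [mem_vadd_set_iff_neg_vadd_mem]
  simp only [mem_rect, vadd_eq_add, PiLp.add_apply, PiLp.neg_apply]
  constructor <;> rintro ⟨h1, h2, h3, h4⟩ <;> refine ⟨?_, ?_, ?_, ?_⟩ <;> linarith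

theorem smul_rect (t : ℝ) (ht : 0 < t) (a b c d : ℝ) :
    t • rect a b c d = rect (t * a) (t * b) (t * c) (t * d) := by
  ext p
  rw [mem_smul_set_iff_inv_smul_mem₀ ht.ne']
  simp only [mem_rect, PiLp.smul_apply, smul_eq_mul, le_inv_mul_iff₀ ht, inv_mul_le_iff₀ ht]

theorem rect_subset {a b c d a' b' c' d' : ℝ} (h1 : a ≤ b) (h2 : c ≤ d) :
    rect a b c d ⊆ rect a' b' c' d' ↔ a' ≤ a ∧ b ≤ b' ∧ c' ≤ c ∧ d ≤ d' := by
  constructor
  · intro h
    have e1 := h (show pt a c ∈ rect a b c d from ⟨le_rfl, h1, le_rfl, h2⟩)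
    have e2 := h (show pt b d ∈ rect a b c d from ⟨h1, le_rfl, h2, le_rfl⟩)
    exact ⟨e1.1, e2.2.1, e1.2.2.1, e2.2.2.2⟩
  · rintro ⟨e1, e2, e3, e4⟩ p ⟨p1, p2, p3, p4⟩
    exact ⟨e1.trans p1, p2.trans e2, e3.trans p3, p4.trans e4⟩

theorem rect_inj {a b c d a' b' c' d' : ℝ} (h1 : a ≤ b) (h2 : c ≤ d) (h1' : a' ≤ b') (h2' : c' ≤ d')
    (h : rect a b c d = rect a' b' c' d') : a = a' ∧ b = b' ∧ c = c' ∧ d = d' := by
  have e1 := (rect_subset h1 h2).1 h.subset
  have e2 := (rect_subset h1' h2').1 h.symm.subset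
  exact ⟨le_antisymm e2.1 e1.1, le_antisymm e1.2.1 e2.2.1, le_antisymm e2.2.2.1 e1.2.2.1,
    le_antisymm e1.2.2.2 e2.2.2.2⟩

theorem convex_rect (a b c d : ℝ) : Convex ℝ (rect a b c d) := by
  rintro p ⟨p1, p2, p3, p4⟩ q ⟨q1, q2, q3, q4⟩ s t hs ht hst
  simp only [mem_rect, PiLp.add_apply, PiLp.smul_apply, smul_eq_mul]
  have := fun x : ℝ => Convex.combo_self hst x
  refine ⟨?_, ?_, ?_, ?_⟩
  · have := this a; simp only [smul_eq_mul] at this; nlinarith
  · have := this b; simp only [smul_eq_mul] at this; nlinarith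
  · have := this c; simp only [smul_eq_mul] at this; nlinarith
  · have := this d; simp only [smul_eq_mul] at this; nlinarith

theorem rect_eq_hull {a b c d : ℝ} (h1 : a < b) (h2 : c < d) :
    rect a b c d = convexHull ℝ {pt a c, pt a d, pt b c, pt b d} := by
  apply Subset.antisymm
  · rintro p ⟨p1, p2, p3, p4⟩
    have hc := convex_convexHull ℝ ({pt a c, pt a d, pt b c, pt b d} : Set E2)
    have m := fun x (hx : x ∈ ({pt a c, pt a d, pt b c, pt b d} : Set E2)) =>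
      subset_convexHull ℝ _ hx
    have hb : 0 < b - a := by linarith
    have hd : 0 < d - c := by linarith
    have s0 : 0 ≤ (d - p 1) / (d - c) := div_nonneg (by linarith) hd.le
    have s1 : 0 ≤ (p 1 - c) / (d - c) := div_nonneg (by linarith) hd.le
    have s2 : (d - p 1) / (d - c) + (p 1 - c) / (d - c) = 1 := by field_simp; ring
    have t0 : 0 ≤ (b - p 0) / (b - a) := div_nonneg (by linarith) hb.le
    have t1 : 0 ≤ (p 0 - a) / (b - a) := div_nonneg (by linarith) hb.le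
    have t2 : (b - p 0) / (b - a) + (p 0 - a) / (b - a) = 1 := by field_simp; ring
    have e1 := hc (m (pt a c) (by simp)) (m (pt a d) (by simp)) s0 s1 s2
    have e2 := hc (m (pt b c) (by simp)) (m (pt b d) (by simp)) s0 s1 s2
    have e3 := hc e1 e2 t0 t1 t2
    convert e3 using 1
    apply E2_ext <;> simp only [PiLp.add_apply, PiLp.smul_apply, smul_eq_mul, pt0, pt1] <;>
      field_simp <;> ring
  · apply convexHull_min _ (convex_rect a b c d)
    rintro p (rfl | rfl | rfl | rfl) <;> simp [mem_rect, h1.le, h2.le]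

theorem combo_lo {a x y s t : ℝ} (hs : 0 < s) (ht : 0 < t) (hst : s + t = 1) (hx : a ≤ x)
    (hy : a ≤ y) (h : s * x + t * y = a) : x = a := by
  by_contra hne
  have : a < x := lt_of_le_of_ne hx (Ne.symm hne)
  have e : s * a + t * a = a := by rw [← add_mul, hst, one_mul]
  nlinarith

theorem combo_hi {a x y s t : ℝ} (hs : 0 < s) (ht : 0 < t) (hst : s + t = 1) (hx : x ≤ a)
    (hy : y ≤ a) (h : s * x + t * y = a) : x = a := by
  have := combo_lo (a := -a) (x := -x) (y := -y) hs ht hst (by linarith) (by linarith) (by linarith)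
  linarith

theorem extreme_rect {a b c d : ℝ} (h1 : a < b) (h2 : c < d) :
    (rect a b c d).extremePoints ℝ = {pt a c, pt a d, pt b c, pt b d} := by
  apply Subset.antisymm
  · rw [rect_eq_hull h1 h2]; exact extremePoints_convexHull_subset
  · intro p hp
    rw [mem_extremePoints_iff_left]
    refine ⟨by rcases hp with rfl | rfl | rfl | rfl <;> simp [mem_rect, h1.le, h2.le], ?_⟩
    rintro x ⟨x1, x2, x3, x4⟩ y ⟨y1, y2, y3, y4⟩ ⟨s, t, hs, ht, hst, e⟩
    have e0 := congrArg (fun q : E2 => q 0) e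
    have e1 := congrArg (fun q : E2 => q 1) e
    simp only [PiLp.add_apply, PiLp.smul_apply, smul_eq_mul] at e0 e1
    rcases hp with rfl | rfl | rfl | rfl <;> apply E2_ext
    · exact combo_lo hs ht hst x1 y1 e0
    · exact combo_lo hs ht hst x3 y3 e1
    · exact combo_lo hs ht hst x1 y1 e0
    · exact combo_hi hs ht hst x4 y4 e1
    · exact combo_hi hs ht hst x2 y2 e0
    · exact combo_lo hs ht hst x3 y3 e1
    · exact combo_hi hs ht hst x2 y2 e0
    · exact combo_hi hs ht hst x4 y4 e1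

def orect (a b c d : ℝ) : Set E2 := {p | a < p 0 ∧ p 0 < b ∧ c < p 1 ∧ p 1 < d}

theorem isOpen_orect (a b c d : ℝ) : IsOpen (orect a b c d) := by
  have h0 : Continuous fun p : E2 => p 0 := by fun_prop
  have h1 : Continuous fun p : E2 => p 1 := by fun_prop
  exact (isOpen_lt continuous_const h0).inter ((isOpen_lt h0 continuous_const).inter
    ((isOpen_lt continuous_const h1).inter (isOpen_lt h1 continuous_const)))

theorem isClosed_rect (a b c d : ℝ) : IsClosed (rect a b c d) := by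
  have h0 : Continuous fun p : E2 => p 0 := by fun_prop
  have h1 : Continuous fun p : E2 => p 1 := by fun_prop
  exact (isClosed_le continuous_const h0).inter ((isClosed_le h0 continuous_const).inter
    ((isClosed_le continuous_const h1).inter (isClosed_le h1 continuous_const)))

theorem interior_rect (a b c d : ℝ) : interior (rect a b c d) = orect a b c d := by
  apply Subset.antisymm
  · intro p hp
    rw [mem_interior_iff_mem_nhds, Metric.mem_nhds_iff] at hp
    obtain ⟨ε, hε, hb⟩ := hp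
    have hm : ∀ σ : ℝ, |σ| = ε / 2 → p + pt σ σ ∈ Metric.ball p ε := by
      intro σ hσ
      rw [Metric.mem_ball, dist_eq_norm, add_sub_cancel_left, EuclideanSpace.norm_eq,
        Real.sqrt_lt' hε]
      simp only [Fin.sum_univ_two, pt0, pt1, Real.norm_eq_abs, hσ]
      nlinarith
    have e1 := hb (hm (ε / 2) (abs_of_pos (by linarith)))
    have e2 := hb (hm (-(ε / 2)) (by rw [abs_neg]; exact abs_of_pos (by linarith)))
    simp only [mem_rect, PiLp.add_apply, pt0, pt1] at e1 e2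
    refine ⟨?_, ?_, ?_, ?_⟩ <;> linarith [e1.1, e1.2.1, e1.2.2.1, e1.2.2.2, e2.1, e2.2.1, e2.2.2.1,
      e2.2.2.2]
  · apply interior_maximal _ (isOpen_orect a b c d)
    rintro p ⟨p1, p2, p3, p4⟩
    exact ⟨p1.le, p2.le, p3.le, p4.le⟩

theorem exposed_strip (A : Set E2) (i : Fin 2) (a b a' b' : ℝ) (hA : ∀ p ∈ A, a ≤ p i ∧ p i ≤ b)
    (h : (a' = a ∧ b' = b) ∨ b' ≤ a ∨ b ≤ a') :
    IsExposed ℝ A {p ∈ A | a' ≤ p i ∧ p i ≤ b'} := by
  rcases h with ⟨rfl, rfl⟩ | h | h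
  · have : {p ∈ A | a' ≤ p i ∧ p i ≤ b'} = A := by
      ext p; exact ⟨fun h => h.1, fun h => ⟨h, hA p h⟩⟩
    rw [this]
  · rintro ⟨q, hq, q1, q2⟩
    refine ⟨-EuclideanSpace.proj i, ?_⟩
    ext p
    simp only [mem_ofPred_eq, neg_apply, PiLp.proj_apply, neg_le_neg_iff]
    have := hA q hq
    constructor
    · rintro ⟨hp, p1, p2⟩
      exact ⟨hp, fun y hy => by linarith [(hA y hy).1]⟩
    · rintro ⟨hp, h2⟩
      have := h2 q hq
      exact ⟨hp, by linarith [(hA p hp).1], by linarith⟩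
  · rintro ⟨q, hq, q1, q2⟩
    refine ⟨EuclideanSpace.proj i, ?_⟩
    ext p
    simp only [mem_ofPred_eq, PiLp.proj_apply]
    have := hA q hq
    constructor
    · rintro ⟨hp, p1, p2⟩
      exact ⟨hp, fun y hy => by linarith [(hA y hy).2]⟩
    · rintro ⟨hp, h2⟩
      have := h2 q hq
      exact ⟨hp, by linarith, by linarith [(hA p hp).2]⟩

theorem exposed_rect {a b c d a' b' c' d' : ℝ} (h1 : (a' = a ∧ b' = b) ∨ b' ≤ a ∨ b ≤ a')
    (h2 : (c' = c ∧ d' = d) ∨ d' ≤ c ∨ d ≤ c') :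
    IsExposed ℝ (rect a b c d) (rect a b c d ∩ rect a' b' c' d') := by
  have e1 := exposed_strip (rect a b c d) 0 a b a' b' (fun p hp => ⟨hp.1, hp.2.1⟩) h1
  have e2 := exposed_strip (rect a b c d) 1 c d c' d' (fun p hp => ⟨hp.2.2.1, hp.2.2.2⟩) h2
  have := e1.inter e2
  have e : rect a b c d ∩ rect a' b' c' d' = {p ∈ rect a b c d | a' ≤ p 0 ∧ p 0 ≤ b'} ∩
      {p ∈ rect a b c d | c' ≤ p 1 ∧ p 1 ≤ d'} := by
    ext p
    simp only [mem_inter_iff, mem_ofPred_eq, mem_rect]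
    tauto
  rw [e]
  exact this

/-- length of the tile starting at `j` -/
def len (j : ℤ) : ℤ := if w j = 1 then 2 else 1

theorem len_cases (j : ℤ) : (w j = 1 ∧ len j = 2) ∨ (w j ≠ 1 ∧ len j = 1) := by
  unfold len; split_ifs with h <;> simp [h]

theorem len_le {j B : ℤ} (hB : w B ≠ 2) (h : j < B) : j + len j ≤ B := by
  rcases len_cases j with ⟨h1, h2⟩ | ⟨h1, h2⟩
  · have : j + 1 ≠ B := fun e => hB (e ▸ (w_succ j).1 h1)
    omega
  · omega

theorem w_end {j : ℤ} (hj : w j ≠ 2) : w (j + len j) ≠ 2 := by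
  rcases len_cases j with ⟨h1, h2⟩ | ⟨h1, h2⟩
  · rw [h2]
    intro h
    have h3 := (w_succ (j + 1)).2 (by rw [← h]; congr 1; ring)
    rw [(w_succ j).1 h1] at h3
    exact absurd h3 (by decide)
  · rw [h2]; exact fun h => h1 ((w_succ j).2 h)

def box (A B C D : ℤ) : Set E2 := rect (2 * A) (2 * B) (2 * C) (2 * D)

def tile (j m : ℤ) : Set E2 := box j (j + len j) m (m + 1)

def TT : Set (Set E2) := {T | ∃ j m, w j ≠ 2 ∧ T = tile j m}

theorem len_pos (j : ℤ) : 0 < len j := by rcases len_cases j with h | h <;> omega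

theorem box_subset {A B C D A' B' C' D' : ℤ} (h1 : A ≤ B) (h2 : C ≤ D) :
    box A B C D ⊆ box A' B' C' D' ↔ A' ≤ A ∧ B ≤ B' ∧ C' ≤ C ∧ D ≤ D' := by
  unfold box
  have h1' : (A : ℝ) ≤ B := by exact_mod_cast h1
  have h2' : (C : ℝ) ≤ D := by exact_mod_cast h2
  rw [rect_subset (by linarith) (by linarith)]
  simp only [Nat.ofNat_pos, mul_le_mul_iff_right₀, Int.cast_le]

theorem vadd_box (s t A B C D : ℤ) :
    pt (2 * s) (2 * t) +ᵥ box A B C D = box (s + A) (s + B) (t + C) (t + D) := by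
  unfold box
  rw [vadd_rect]
  simp only [pt0, pt1]
  push_cast
  congr 1 <;> ring

theorem smul_box (n : ℕ) (hn : 0 < n) (A B C D : ℤ) :
    (n : ℝ) • box A B C D = box (n * A) (n * B) (n * C) (n * D) := by
  unfold box
  rw [smul_rect _ (by exact_mod_cast hn)]
  push_cast
  congr 1 <;> ring

theorem exists_cell (x : ℝ) (A B : ℤ) (hAB : A < B) (h1 : 2 * (A : ℝ) ≤ x) (h2 : x ≤ 2 * (B : ℝ)) :
    ∃ c : ℤ, A ≤ c ∧ c < B ∧ 2 * (c : ℝ) ≤ x ∧ x ≤ 2 * ((c + 1 : ℤ) : ℝ) := by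
  by_cases h : x = 2 * B
  · refine ⟨B - 1, by omega, by omega, ?_, ?_⟩ <;> push_cast <;> linarith
  · have hx : x < 2 * B := lt_of_le_of_ne h2 h
    refine ⟨⌊x / 2⌋, Int.le_floor.2 (by linarith), Int.floor_lt.2 (by linarith), ?_, ?_⟩
    · linarith [Int.floor_le (x / 2)]
    · push_cast; linarith [Int.lt_floor_add_one (x / 2)]

theorem exists_tile (p : E2) (A B C D : ℤ) (hAB : A < B) (hCD : C < D) (hA : w A ≠ 2)
    (hp : p ∈ box A B C D) :
    ∃ j m, w j ≠ 2 ∧ A ≤ j ∧ j < B ∧ C ≤ m ∧ m < D ∧ p ∈ tile j m := by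
  obtain ⟨p1, p2, p3, p4⟩ := hp
  obtain ⟨c, c1, c2, c3, c4⟩ := exists_cell (p 0) A B hAB p1 p2
  obtain ⟨m, m1, m2, m3, m4⟩ := exists_cell (p 1) C D hCD p3 p4
  by_cases h : w c = 2
  · have h1 : w (c - 1) = 1 := (w_succ (c - 1)).2 (by simpa using h)
    have hne : c ≠ A := fun e => hA (e ▸ h)
    refine ⟨c - 1, m, by rw [h1]; decide, by omega, by omega, m1, m2, ?_, ?_, m3, m4⟩
    · push_cast; linarith
    · have : len (c - 1) = 2 := by simp [len, h1]
      rw [this]; push_cast at c4 ⊢; linarith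
  · refine ⟨c, m, h, c1, c2, m1, m2, c3, ?_, m3, m4⟩
    have : (1 : ℝ) ≤ len c := by exact_mod_cast len_pos c
    push_cast at c4 ⊢; linarith

theorem sep1 {j j' : ℤ} (hj : w j ≠ 2) (hj' : w j' ≠ 2) :
    j' = j ∨ j' + len j' ≤ j ∨ j + len j ≤ j' := by
  rcases lt_trichotomy j' j with h | h | h
  · exact Or.inr (Or.inl (len_le hj h))
  · exact Or.inl h
  · exact Or.inr (Or.inr (len_le hj' h))

theorem tile_lt (j m : ℤ) : 2 * (j : ℝ) < 2 * ((j + len j : ℤ) : ℝ) ∧
    2 * (m : ℝ) < 2 * ((m + 1 : ℤ) : ℝ) := by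
  have : (1 : ℝ) ≤ len j := by exact_mod_cast len_pos j
  push_cast
  constructor <;> linarith

theorem isTiling : IsTiling TT := by
  classical
  refine ⟨⟨{{pt 0 0, pt 0 2, pt 2 0, pt 2 2}, {pt 0 0, pt 0 2, pt 4 0, pt 4 2}}, ?_⟩, ?_, ?_, ?_, ?_⟩
  · rintro _ ⟨j, m, hj, rfl⟩
    have e : tile j m = pt (2 * j) (2 * m) +ᵥ box 0 (len j) 0 1 := by
      rw [vadd_box]; simp [tile]
    rcases len_cases j with ⟨-, h⟩ | ⟨-, h⟩
    · refine ⟨{pt 0 0, pt 0 2, pt 4 0, pt 4 2}, by simp, pt (2 * j) (2 * m), ?_⟩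
      rw [e, h, shift_eq, hull]
      congr 1
      have := rect_eq_hull (a := 0) (b := 4) (c := 0) (d := 2) (by norm_num) (by norm_num)
      simp only [Finset.coe_insert, Finset.coe_singleton]
      rw [← this]
      unfold box
      norm_num
    · refine ⟨{pt 0 0, pt 0 2, pt 2 0, pt 2 2}, by simp, pt (2 * j) (2 * m), ?_⟩
      rw [e, h, shift_eq, hull]
      congr 1
      have := rect_eq_hull (a := 0) (b := 2) (c := 0) (d := 2) (by norm_num) (by norm_num)
      simp only [Finset.coe_insert, Finset.coe_singleton]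
      rw [← this]
      unfold box
      norm_num
  · rintro _ ⟨j, m, hj, rfl⟩
    unfold tile box
    rw [interior_rect]
    have : (1 : ℝ) ≤ len j := by exact_mod_cast len_pos j
    refine ⟨pt (2 * j + 1) (2 * m + 1), ?_, ?_, ?_, ?_⟩ <;> simp only [pt0, pt1] <;> push_cast <;>
      linarith
  · rw [eq_univ_iff_forall]
    intro p
    obtain ⟨q, hq, hq2⟩ := exists_near ⌊p 0 / 2⌋
    have hp : p ∈ box q (⌊p 0 / 2⌋ + 1) ⌊p 1 / 2⌋ (⌊p 1 / 2⌋ + 1) := by
      have : (q : ℝ) ≤ ⌊p 0 / 2⌋ := by exact_mod_cast (by omega)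
      refine ⟨?_, ?_, ?_, ?_⟩ <;> push_cast <;>
        linarith [Int.floor_le (p 0 / 2), Int.floor_le (p 1 / 2), Int.lt_floor_add_one (p 0 / 2),
          Int.lt_floor_add_one (p 1 / 2)]
    obtain ⟨j, m, hj, -, -, -, -, h⟩ := exists_tile p _ _ _ _ (by omega) (by omega) hq hp
    exact ⟨_, ⟨j, m, hj, rfl⟩, h⟩
  · rintro _ ⟨j, m, hj, rfl⟩ _ ⟨j', m', hj', rfl⟩ hne
    unfold tile box
    rw [interior_rect, interior_rect, Set.disjoint_left]
    rintro p ⟨p1, p2, p3, p4⟩ ⟨q1, q2, q3, q4⟩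
    have hm : m = m' := by
      have e1 : (m : ℝ) < ((m' + 1 : ℤ) : ℝ) := by linarith
      have e2 : (m' : ℝ) < ((m + 1 : ℤ) : ℝ) := by linarith
      have e1 : m < m' + 1 := by exact_mod_cast e1
      have e2 : m' < m + 1 := by exact_mod_cast e2
      omega
    rcases sep1 hj hj' with h | h | h
    · exact hne (by rw [h, hm])
    · have : ((j' + len j' : ℤ) : ℝ) ≤ j := by exact_mod_cast h
      linarith
    · have : ((j + len j : ℤ) : ℝ) ≤ j' := by exact_mod_cast h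
      linarith
  · rintro _ ⟨j, m, hj, rfl⟩ _ ⟨j', m', hj', rfl⟩
    unfold tile box IsFaceOf
    apply exposed_rect
    · rcases sep1 hj hj' with h | h | h
      · left; rw [h]; exact ⟨rfl, rfl⟩
      · right; left
        have : ((j' + len j' : ℤ) : ℝ) ≤ j := by exact_mod_cast h
        linarith
      · right; right
        have : ((j + len j : ℤ) : ℝ) ≤ j' := by exact_mod_cast h
        linarith
    · rcases lt_trichotomy m' m with h | h | h
      · right; left
        have : ((m' + 1 : ℤ) : ℝ) ≤ m := by exact_mod_cast h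
        linarith
      · left; rw [h]; exact ⟨rfl, rfl⟩
      · right; right
        have : ((m + 1 : ℤ) : ℝ) ≤ m' := by exact_mod_cast h
        linarith

theorem vertices_TT : vertices TT = {p | ∃ j m : ℤ, w j ≠ 2 ∧ p = pt (2 * j) (2 * m)} := by
  ext p
  simp only [vertices, mem_iUnion, mem_ofPred_eq, exists_prop]
  constructor
  · rintro ⟨_, ⟨j, m, hj, rfl⟩, hp⟩
    unfold tile box at hp
    rw [extreme_rect (tile_lt j m).1 (tile_lt j m).2] at hp
    rcases hp with rfl | rfl | rfl | rfl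
    · exact ⟨_, _, hj, rfl⟩
    · exact ⟨_, _, hj, rfl⟩
    · exact ⟨_, _, w_end hj, rfl⟩
    · exact ⟨_, _, w_end hj, rfl⟩
  · rintro ⟨j, m, hj, rfl⟩
    refine ⟨_, ⟨j, m, hj, rfl⟩, ?_⟩
    unfold tile box
    rw [extreme_rect (tile_lt j m).1 (tile_lt j m).2]
    simp

end Pool.Agent.H8.Pick
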