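import Pool.Agent.H8.PickGeom

set_option autoImplicit false

namespace Pool.Agent.H8.Pick

open Set Filter MeasureTheory Asymptotics
open scoped Pointwise

noncomputable def φ5 : Matrix (Fin 2) (Fin 2) ℝ := (5 : ℝ) • (1 : Matrix (Fin 2) (Fin 2) ℝ)

theorem img_smul (t : ℝ) (s : Set E2) : img (t • (1 : Matrix (Fin 2) (Fin 2) ℝ)) s = t • s := by
  unfold img
  congr 1
  ext p i
  simp [Matrix.smul_mulVec]

theorem φ5_image (s : Set E2) : img φ5 s = (5 : ℝ) • s := img_smul _ _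

theorem φ5_pow_image (k : ℕ) (s : Set E2) : img (φ5 ^ k) s = ((5 ^ k : ℕ) : ℝ) • s := by
  have : φ5 ^ k = ((5 ^ k : ℕ) : ℝ) • (1 : Matrix (Fin 2) (Fin 2) ℝ) := by
    unfold φ5
    rw [smul_pow, one_pow]
    push_cast
    rfl
  rw [this, img_smul]

theorem expansive : Expansive φ5 := by
  refine ⟨1, fun _ => 5, by simp, fun _ => by norm_num, ?_⟩
  unfold φ5
  ext i j
  by_cases h : i = j <;> simp [h, Matrix.one_apply]

theorem φ5_tile (j m : ℤ) : img φ5 (tile j m) = box (5 * j) (5 * (j + len j)) (5 * m) (5 * (m + 1)) := by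
  rw [φ5_image]
  have := smul_box 5 (by norm_num) j (j + len j) m (m + 1)
  exact_mod_cast this

theorem tile_subset_box {j m A B C D : ℤ} :
    tile j m ⊆ box A B C D ↔ A ≤ j ∧ j + len j ≤ B ∧ C ≤ m ∧ m + 1 ≤ D :=
  box_subset (by linarith [len_pos j]) (by linarith)

theorem vadd_tile (s t j m : ℤ) (h : w (s + j) = w j) :
    pt (2 * s) (2 * t) +ᵥ tile j m = tile (s + j) (t + m) := by
  unfold tile
  rw [vadd_box]
  have : len (s + j) = len j := by unfold len; rw [h]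
  rw [this, add_assoc, add_assoc]

theorem w_shift {j j' : ℤ} (h : w j = w j') (i : ℤ) (h1 : 5 * j ≤ i)
    (h2 : i < 5 * (j + len j)) : w (5 * (j' - j) + i) = w i := by
  obtain ⟨q, r, rfl⟩ := decomp i
  have hr := r.2
  have e : 5 * (j' - j) + (5 * q + r) = 5 * (j' - j + q) + r := by ring
  rw [e, w_eq, w_eq]
  congr 1
  rcases len_cases j with ⟨a, b⟩ | ⟨a, b⟩
  · have : q = j ∨ q = j + 1 := by omega
    rcases this with rfl | rfl
    · rw [h]; congr 1; ring
    · rw [(w_succ j).1 a, ← (w_succ j').1 (h ▸ a)]; congr 1; ring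
  · have : q = j := by omega
    subst this
    rw [h]; congr 1; ring

theorem selfAffine : IsSelfAffine TT φ5 := by
  refine ⟨isTiling, expansive, ?_, ?_, ?_⟩
  · intro 𝒬 hfin hsub
    have hk : ∃ k : ℕ, ∀ T ∈ 𝒬, ∃ j m, w j ≠ 2 ∧ T = tile j m ∧ |j| < 5 ^ k ∧ |m| < 5 ^ k := by
      induction 𝒬, hfin using Set.Finite.induction_on with
      | empty => exact ⟨0, by simp⟩
      | @insert T s _ _ ih =>
        obtain ⟨k, hk⟩ := ih ((subset_insert _ _).trans hsub)
        obtain ⟨j, m, hj, hT⟩ := hsub (mem_insert _ _)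
        obtain ⟨k1, hk1⟩ := pow_unbounded_of_one_lt (max |j| |m|) (by norm_num : (1 : ℤ) < 5)
        refine ⟨max k k1, ?_⟩
        have e1 : (5 : ℤ) ^ k ≤ 5 ^ max k k1 := pow_le_pow_right₀ (by norm_num) (le_max_left _ _)
        have e2 : (5 : ℤ) ^ k1 ≤ 5 ^ max k k1 := pow_le_pow_right₀ (by norm_num) (le_max_right _ _)
        rintro S (rfl | hS)
        · exact ⟨j, m, hj, hT, by linarith [le_max_left |j| |m|], by linarith [le_max_right |j| |m|]⟩
        · obtain ⟨j', m', h1, h2, h3, h4⟩ := hk S hS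
          exact ⟨j', m', h1, h2, by linarith, by linarith⟩
    obtain ⟨k, hk⟩ := hk
    have hK : (1 : ℝ) ≤ 5 ^ k := one_le_pow₀ (by norm_num)
    refine ⟨100 * 5 ^ k, by positivity, fun c => ?_⟩
    obtain ⟨q, hq, hq2⟩ := exists_near ⌊c 0 / (10 * 5 ^ k)⌋
    refine ⟨pt (2 * (5 ^ k * (5 * q) : ℤ)) (2 * (⌊c 1 / 2⌋ : ℤ)), fun T hT => ?_⟩
    obtain ⟨j, m, hj, rfl, h1, h2⟩ := hk T hT
    have h1' := abs_lt.1 h1
    have h2' := abs_lt.1 h2
    have hw := w_rep (5 * q) (w_seed q hq).1 (w_seed q hq).2 k j h1'.1.le h1'.2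
    rw [shift_eq, vadd_tile _ _ _ _ hw]
    refine ⟨⟨_, _, by rw [hw]; exact hj, rfl⟩, ?_⟩
    rintro p ⟨p1, p2, p3, p4⟩
    have hl : (len (5 ^ k * (5 * q) + j) : ℝ) ≤ 2 := by
      rcases len_cases (5 ^ k * (5 * q) + j) with h | h <;> rw [h.2] <;> norm_num
    have a1 : (-5 ^ k : ℝ) < j := by exact_mod_cast h1'.1
    have a2 : (j : ℝ) < 5 ^ k := by exact_mod_cast h1'.2
    have a3 : (-5 ^ k : ℝ) < m := by exact_mod_cast h2'.1
    have a4 : (m : ℝ) < 5 ^ k := by exact_mod_cast h2'.2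
    have b1 : (q : ℝ) ≤ c 0 / (10 * 5 ^ k) := by
      have : (q : ℝ) ≤ ⌊c 0 / (10 * 5 ^ k)⌋ := by exact_mod_cast (by omega)
      linarith [Int.floor_le (c 0 / (10 * 5 ^ k))]
    have b2 : c 0 / (10 * 5 ^ k) < q + 2 := by
      have : (⌊c 0 / (10 * 5 ^ k)⌋ : ℝ) ≤ q + 1 := by exact_mod_cast (by omega)
      linarith [Int.lt_floor_add_one (c 0 / (10 * 5 ^ k))]
    rw [le_div_iff₀ (by positivity)] at b1
    rw [div_lt_iff₀ (by positivity)] at b2
    have b3 := Int.floor_le (c 1 / 2)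
    have b4 := Int.lt_floor_add_one (c 1 / 2)
    push_cast at p1 p2 p3 p4
    rw [Metric.mem_ball, EuclideanSpace.dist_eq, Real.sqrt_lt' (by positivity)]
    simp only [Fin.sum_univ_two, Real.dist_eq, sq_abs]
    have c1 : (p 0 - c 0) ^ 2 ≤ (30 * 5 ^ k) ^ 2 := by
      apply sq_le_sq' <;> nlinarith
    have c2 : (p 1 - c 1) ^ 2 ≤ (30 * 5 ^ k) ^ 2 := by
      apply sq_le_sq' <;> linarith
    nlinarith
  · rintro _ ⟨j, m, hj, rfl⟩
    rw [φ5_tile]
    refine ⟨{T | ∃ i ∈ Ico (5 * j) (5 * (j + len j)), ∃ n ∈ Ico (5 * m) (5 * (m + 1)),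
      w i ≠ 2 ∧ T = tile i n}, ?_, ?_, ?_⟩
    · apply Set.Finite.subset (((finite_Ico (5 * j) (5 * (j + len j))).prod
        (finite_Ico (5 * m) (5 * (m + 1)))).image fun x => tile x.1 x.2)
      rintro _ ⟨i, hi, n, hn, -, rfl⟩
      exact ⟨(i, n), ⟨hi, hn⟩, rfl⟩
    · rintro _ ⟨i, -, n, -, h, rfl⟩
      exact ⟨i, n, h, rfl⟩
    · apply Subset.antisymm
      · intro p hp
        obtain ⟨i, n, h1, h2, h3, h4, h5, h6⟩ := exists_tile p _ _ _ _
          (by linarith [len_pos j]) (by linarith) (w_five j) hp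
        exact ⟨_, ⟨i, ⟨h2, h3⟩, n, ⟨h4, h5⟩, h1, rfl⟩, h6⟩
      · rintro p ⟨_, ⟨i, hi, n, hn, h, rfl⟩, hp⟩
        exact tile_subset_box.2 ⟨hi.1, len_le (w_five _) hi.2, hn.1, hn.2⟩ hp
  · rintro _ ⟨j, m, hj, rfl⟩ _ ⟨j', m', hj', rfl⟩ ⟨v, hv⟩
    have hl : len j' = len j := by
      unfold tile box at hv
      rw [shift_eq, vadd_rect] at hv
      have := rect_inj (tile_lt j' m').1.le (tile_lt j' m').2.le
        (by linarith [(tile_lt j m).1]) (by linarith [(tile_lt j m).2]) hv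
      have e : ((len j' : ℤ) : ℝ) = len j := by
        have h1 := this.1
        have h2 := this.2.1
        push_cast at h2
        linarith
      exact_mod_cast e
    have hw : w j = w j' := by
      have : ∀ x y : Fin 3, x ≠ 2 → y ≠ 2 → (x = 1 ↔ y = 1) → x = y := by decide
      refine this _ _ hj hj' ?_
      rcases len_cases j with h | h <;> rcases len_cases j' with h' | h' <;>
        first | (simp [h.1, h'.1]; done) | omega
    refine ⟨pt (2 * (5 * (j' - j) : ℤ)) (2 * (5 * (m' - m) : ℤ)), ?_⟩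
    rw [φ5_tile, φ5_tile]
    ext S
    simp only [mem_ofPred_eq, mem_image, shift_eq]
    constructor
    · rintro ⟨⟨i, n, hi, rfl⟩, hs⟩
      obtain ⟨s1, s2, s3, s4⟩ := tile_subset_box.1 hs
      have e := w_shift hw.symm i s1 (by linarith [len_pos i])
      have el : len (5 * (j - j') + i) = len i := by unfold len; rw [e]
      refine ⟨tile (5 * (j - j') + i) (5 * (m - m') + n), ⟨⟨_, _, by rw [e]; exact hi, rfl⟩, ?_⟩, ?_⟩
      · rw [tile_subset_box, el]; omega
      · rw [vadd_tile _ _ _ _ (by rw [e]; congr 1; ring)]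
        congr 1 <;> ring
    · rintro ⟨_, ⟨⟨i, n, hi, rfl⟩, hs⟩, rfl⟩
      obtain ⟨s1, s2, s3, s4⟩ := tile_subset_box.1 hs
      have e := w_shift hw i s1 (by linarith [len_pos i])
      have el : len (5 * (j' - j) + i) = len i := by unfold len; rw [e]
      rw [vadd_tile _ _ _ _ e]
      refine ⟨⟨_, _, by rw [e]; exact hi, rfl⟩, ?_⟩
      rw [tile_subset_box, el]; omega

theorem separated : ∀ p ∈ vertices TT, ∀ q ∈ vertices TT, p ≠ q → 2 ≤ dist p q := by
  rw [vertices_TT]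
  rintro _ ⟨j, m, -, rfl⟩ _ ⟨j', m', -, rfl⟩ hne
  rw [EuclideanSpace.dist_eq, Real.le_sqrt' (by norm_num)]
  simp only [Fin.sum_univ_two, pt0, pt1, Real.dist_eq, sq_abs]
  have : 1 ≤ (j - j') ^ 2 + (m - m') ^ 2 := by
    by_contra h
    have h1 : j - j' = 0 := by nlinarith [sq_nonneg (m - m')]
    have h2 : m - m' = 0 := by nlinarith [sq_nonneg (j - j')]
    exact hne (by rw [sub_eq_zero.1 h1, sub_eq_zero.1 h2])
  have : (1 : ℝ) ≤ (j - j') ^ 2 + (m - m') ^ 2 := by exact_mod_cast this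
  nlinarith

theorem pt_inj : Function.Injective fun x : ℕ × ℕ => pt (2 * x.1) (2 * x.2) := by
  rintro ⟨a, b⟩ ⟨c, d⟩ h
  have e0 := congrArg (fun q : E2 => q 0) h
  have e1 := congrArg (fun q : E2 => q 1) h
  simp only [pt0, pt1] at e0 e1
  have : (a : ℝ) = c := by linarith
  have h1 : a = c := by exact_mod_cast this
  have : (b : ℝ) = d := by linarith
  have h2 : b = d := by exact_mod_cast this
  rw [h1, h2]

theorem count_box (N M : ℕ) (hN : w N ≠ 2) :
    (vertices TT ∩ box 0 N 0 M).ncard + cnt 2 N * (M + 1) = (N + 1) * (M + 1) := by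
  classical
  have e : vertices TT ∩ box 0 N 0 M = (fun x : ℕ × ℕ => pt (2 * x.1) (2 * x.2)) ''
      ((((Finset.range (N + 1)).filter fun j => w (j : ℕ) ≠ 2) ×ˢ Finset.range (M + 1) :
        Finset (ℕ × ℕ)) : Set (ℕ × ℕ)) := by
    rw [vertices_TT]
    ext p
    simp only [mem_inter_iff, mem_ofPred_eq, mem_image, Finset.coe_product, mem_prod,
      Finset.mem_coe, Finset.mem_filter, Finset.mem_range, Prod.exists]
    constructor
    · rintro ⟨⟨j, m, hj, rfl⟩, p1, p2, p3, p4⟩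
      simp only [pt0, pt1] at p1 p2 p3 p4
      have a1 : 0 ≤ j := by
        have : ((0 : ℤ) : ℝ) ≤ j := by linarith
        exact_mod_cast this
      have a2 : j ≤ N := by
        have : (j : ℝ) ≤ ((N : ℤ) : ℝ) := by linarith
        exact_mod_cast this
      have a3 : 0 ≤ m := by
        have : ((0 : ℤ) : ℝ) ≤ m := by linarith
        exact_mod_cast this
      have a4 : m ≤ M := by
        have : (m : ℝ) ≤ ((M : ℤ) : ℝ) := by linarith
        exact_mod_cast this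
      lift j to ℕ using a1
      lift m to ℕ using a3
      exact ⟨j, m, ⟨⟨by omega, hj⟩, by omega⟩, by simp⟩
    · rintro ⟨j, m, ⟨⟨h1, h2⟩, h3⟩, rfl⟩
      refine ⟨⟨j, m, h2, by simp⟩, ?_⟩
      have a1 : (j : ℝ) ≤ N := by exact_mod_cast (by omega)
      have a2 : (m : ℝ) ≤ M := by exact_mod_cast (by omega)
      refine ⟨?_, ?_, ?_, ?_⟩ <;> simp only [pt0, pt1] <;> push_cast <;>
        linarith [Nat.cast_nonneg (α := ℝ) j, Nat.cast_nonneg (α := ℝ) m]
  rw [e, ncard_image_of_injective _ pt_inj, ncard_coe_finset, Finset.card_product, Finset.card_range,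
    ← add_mul]
  congr 1
  have h1 := Finset.card_filter_add_card_filter_not (s := Finset.range (N + 1))
    (fun j : ℕ => w (j : ℕ) = 2)
  have h2 := cnt_succ 2 N
  rw [if_neg hN] at h2
  unfold cnt at h2 ⊢
  rw [Finset.card_range] at h1
  simp only [ne_eq]
  omega

theorem count_frontier (N M : ℕ) :
    (vertices TT ∩ frontier (box 0 N 0 M)).ncard ≤ 2 * (N + 1) + 2 * (M + 1) := by
  classical
  have e : vertices TT ∩ frontier (box 0 N 0 M) ⊆ (fun x : ℕ × ℕ => pt (2 * x.1) (2 * x.2)) ''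
      ((Finset.range (N + 1) ×ˢ {0, M} ∪ {0, N} ×ˢ Finset.range (M + 1) :
        Finset (ℕ × ℕ)) : Set (ℕ × ℕ)) := by
    rw [vertices_TT]
    rintro _ ⟨⟨j, m, hj, rfl⟩, h1, h2⟩
    unfold box at h1 h2
    rw [(isClosed_rect _ _ _ _).closure_eq] at h1
    rw [interior_rect] at h2
    obtain ⟨p1, p2, p3, p4⟩ := h1
    simp only [pt0, pt1] at p1 p2 p3 p4
    have a1 : 0 ≤ j := by
      have : ((0 : ℤ) : ℝ) ≤ j := by linarith
      exact_mod_cast this
    have a2 : j ≤ N := by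
      have : (j : ℝ) ≤ ((N : ℤ) : ℝ) := by linarith
      exact_mod_cast this
    have a3 : 0 ≤ m := by
      have : ((0 : ℤ) : ℝ) ≤ m := by linarith
      exact_mod_cast this
    have a4 : m ≤ M := by
      have : (m : ℝ) ≤ ((M : ℤ) : ℝ) := by linarith
      exact_mod_cast this
    lift j to ℕ using a1
    lift m to ℕ using a3
    refine ⟨(j, m), ?_, by simp⟩
    simp only [Finset.coe_union, Finset.coe_product, mem_union, mem_prod, Finset.mem_coe,
      Finset.mem_range, Finset.mem_insert, Finset.mem_singleton]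
    by_contra hc
    apply h2
    have b1 : (0 : ℝ) < j := by exact_mod_cast (by omega)
    have b2 : (j : ℝ) < N := by exact_mod_cast (by omega)
    have b3 : (0 : ℝ) < m := by exact_mod_cast (by omega)
    have b4 : (m : ℝ) < M := by exact_mod_cast (by omega)
    refine ⟨?_, ?_, ?_, ?_⟩ <;> simp only [pt0, pt1] <;> push_cast <;> linarith
  refine (ncard_le_ncard e (Set.toFinite _)).trans ?_
  rw [ncard_image_of_injective _ pt_inj, ncard_coe_finset]
  refine (Finset.card_union_le _ _).trans ?_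
  rw [Finset.card_product, Finset.card_product, Finset.card_range, Finset.card_range]
  have h1 : ({0, M} : Finset ℕ).card ≤ 2 := Finset.card_le_two
  have h2 : ({0, N} : Finset ℕ).card ≤ 2 := Finset.card_le_two
  nlinarith

theorem not_bigO (β γ : ℝ) (hγ : γ ≠ 0) :
    ¬ (fun k : ℕ => β * 25 ^ k + γ * (-10) ^ k) =O[atTop] fun k : ℕ => (5 : ℝ) ^ k := by
  intro h
  have h1 : (fun k : ℕ => β * 25 ^ (k + 1) + γ * (-10) ^ (k + 1)) =O[atTop]
      fun k : ℕ => (5 : ℝ) ^ k := by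
    have := h.comp_tendsto (tendsto_add_atTop_nat 1)
    refine this.trans ?_
    simp only [Function.comp_def, pow_succ]
    exact (isBigO_const_mul_self 5 _ _).congr_left (fun k => by ring)
  have h2 := (h1.sub (h.const_mul_left 25)).const_mul_left (-35 * γ)⁻¹
  have h3 : (fun k : ℕ => (-10 : ℝ) ^ k) =O[atTop] fun k : ℕ => (5 : ℝ) ^ k := by
    refine h2.congr_left fun k => ?_
    field_simp
    ring
  obtain ⟨C, hC⟩ := h3.bound
  obtain ⟨k, hk1, hk2⟩ := (hC.and ((tendsto_pow_atTop_atTop_of_one_lt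
    (by norm_num : (1 : ℝ) < 2)).eventually_gt_atTop C)).exists
  simp only [norm_pow, norm_neg, Real.norm_ofNat] at hk1
  have e : (10 : ℝ) ^ k = 2 ^ k * 5 ^ k := by rw [← mul_pow]; norm_num
  have : (0 : ℝ) < 5 ^ k := by positivity
  nlinarith

theorem main : ∃ (𝒯 : Set (Set E2)) (φ : Matrix (Fin 2) (Fin 2) ℝ), IsSelfAffine 𝒯 φ ∧
    (∀ p ∈ vertices 𝒯, ∀ q ∈ vertices 𝒯, p ≠ q → 2 ≤ dist p q) ∧
    ∃ P ∈ 𝒯, ∀ Δ : ℝ,
      ¬ (fun k : ℕ => pickError (vertices 𝒯) (img (φ ^ k) P) Δ)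
        =o[atTop] fun k : ℕ => perimeter (img (φ ^ k) P) := by
  refine ⟨TT, φ5, selfAffine, separated, tile 0 0, ⟨0, 0, by rw [w_zero]; decide, rfl⟩,
    fun Δ h => ?_⟩
  unfold pickError area perimeter at h
  have hb : ∀ k : ℕ, img (φ5 ^ k) (tile 0 0) = box 0 (2 * 5 ^ k : ℕ) 0 (5 ^ k : ℕ) := by
    intro k
    rw [φ5_pow_image, tile, smul_box _ (by positivity)]
    have : len 0 = 2 := by simp [len, w_zero]
    rw [this]
    congr 1 <;> push_cast <;> ring
  have hV : ∀ k : ℕ, (volume (img (φ5 ^ k) (tile 0 0))).toReal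
      = 25 ^ k * (volume (tile 0 0)).toReal := by
    intro k
    rw [φ5_pow_image, Measure.addHaar_smul, ENNReal.toReal_mul, ENNReal.toReal_ofReal (abs_nonneg _)]
    simp only [finrank_euclideanSpace, Fintype.card_fin]
    push_cast
    rw [abs_of_nonneg (by positivity), ← pow_mul, mul_comm k 2, pow_mul]
    norm_num
  have hP : ∀ k : ℕ, (μH[1] (frontier (img (φ5 ^ k) (tile 0 0)))).toReal
      = (μH[1] (frontier (tile 0 0))).toReal * 5 ^ k := by
    intro k
    have h5 : (((5 ^ k : ℕ) : ℝ)) ≠ 0 := by positivity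
    have e : frontier (((5 ^ k : ℕ) : ℝ) • tile 0 0) = ((5 ^ k : ℕ) : ℝ) • frontier (tile 0 0) :=
      ((Homeomorph.smulOfNeZero _ h5).image_frontier (tile 0 0)).symm
    rw [φ5_pow_image, e, Measure.hausdorffMeasure_smul₀ (by norm_num) h5]
    simp [mul_comm]
  have h1 : (fun k : ℕ => ((vertices TT ∩ img (φ5 ^ k) (tile 0 0)).ncard : ℝ)
          - (volume (img (φ5 ^ k) (tile 0 0))).toReal / Δ
          - (1 / 2) * ((vertices TT ∩ frontier (img (φ5 ^ k) (tile 0 0))).ncard : ℝ))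
        =O[atTop] fun k : ℕ => (5 : ℝ) ^ k := by
    refine h.isBigO.trans ?_
    simp only [hP]
    exact isBigO_const_mul_self _ _ _
  have h2 : (fun k : ℕ => (1 / 2) * ((vertices TT ∩ frontier (img (φ5 ^ k) (tile 0 0))).ncard : ℝ))
        =O[atTop] fun k : ℕ => (5 : ℝ) ^ k := by
    refine IsBigO.of_bound 10 (Eventually.of_forall fun k => ?_)
    have := count_frontier (2 * 5 ^ k) (5 ^ k)
    rw [← hb] at this
    have h' : ((vertices TT ∩ frontier (img (φ5 ^ k) (tile 0 0))).ncard : ℝ)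
      ≤ 2 * (2 * 5 ^ k + 1) + 2 * (5 ^ k + 1) := by exact_mod_cast this
    have hK : (1 : ℝ) ≤ 5 ^ k := one_le_pow₀ (by norm_num)
    rw [Real.norm_of_nonneg (by positivity), Real.norm_of_nonneg (by positivity)]
    linarith
  have h3 := (h1.add h2).comp_tendsto (tendsto_add_atTop_nat 1)
  have h4 : ((fun k : ℕ => (5 : ℝ) ^ k) ∘ (fun k => k + 1)) =O[atTop] fun k : ℕ => (5 : ℝ) ^ k := by
    simp only [Function.comp_def, pow_succ]
    exact (isBigO_const_mul_self 5 _ _).congr_left (fun k => by ring)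
  have h5 : (fun k : ℕ => (85 / 7 : ℝ) * 5 ^ k + 6 / 7 * (-2) ^ k + 1) =O[atTop]
      fun k : ℕ => (5 : ℝ) ^ k := by
    refine IsBigO.of_bound 20 (Eventually.of_forall fun k => ?_)
    have hK : (1 : ℝ) ≤ 5 ^ k := one_le_pow₀ (by norm_num)
    have h2 : |(-2 : ℝ) ^ k| ≤ 5 ^ k := by
      rw [abs_pow]; exact pow_le_pow_left₀ (by norm_num) (by norm_num) k
    have := abs_le.1 h2
    rw [Real.norm_eq_abs, Real.norm_of_nonneg (by positivity), abs_le]
    constructor <;> linarith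
  refine not_bigO (250 / 7 - 25 * ((volume (tile 0 0)).toReal / Δ)) (30 / 7) (by norm_num) ?_
  refine ((h3.trans h4).sub h5).congr_left fun k => ?_
  simp only [Function.comp_def, hV]
  have hw : w ((2 * 5 ^ (k + 1) : ℕ) : ℤ) ≠ 2 := by
    have := w_five (2 * 5 ^ k)
    convert this using 2
    push_cast; ring
  have c1 := count_box (2 * 5 ^ (k + 1)) (5 ^ (k + 1)) hw
  rw [← hb] at c1
  have c2 : ((vertices TT ∩ img (φ5 ^ (k + 1)) (tile 0 0)).ncard : ℝ)
      + (cnt 2 (2 * 5 ^ (k + 1)) : ℝ) * (5 ^ (k + 1) + 1)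
      = (2 * 5 ^ (k + 1) + 1) * (5 ^ (k + 1) + 1) := by exact_mod_cast c1
  have c3 : 7 * (cnt 2 (2 * 5 ^ (k + 1)) : ℝ) = 20 * 5 ^ k - 6 * (-2) ^ k := by
    exact_mod_cast cnt_two_pow k
  have c4 : (cnt 2 (2 * 5 ^ (k + 1)) : ℝ) = (20 * 5 ^ k - 6 * (-2) ^ k) / 7 := by linarith
  have e1 : (25 : ℝ) ^ k = 5 ^ k * 5 ^ k := by rw [← mul_pow]; norm_num
  have e2 : (-10 : ℝ) ^ k = (-2) ^ k * 5 ^ k := by rw [← mul_pow]; norm_num
  rw [c4] at c2
  rw [pow_succ (25 : ℝ), e1, e2]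
  rw [pow_succ (5 : ℝ)] at c2
  rw [eq_sub_of_add_eq c2]
  ring

end Pool.Agent.H8.Pick
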