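import Mathlib

set_option autoImplicit false

namespace Pool.Agent.H8.Plank

open Set MeasureTheory

abbrev E2 := EuclideanSpace ℝ (Fin 2)

def pt (x y : ℝ) : E2 := WithLp.toLp 2 ![x, y]

@[simp] theorem pt0 (x y : ℝ) : pt x y 0 = x := rfl
@[simp] theorem pt1 (x y : ℝ) : pt x y 1 = y := rfl

theorem E2_ext {p q : E2} (h0 : p 0 = q 0) (h1 : p 1 = q 1) : p = q := by
  ext i; fin_cases i
  · exact h0
  · exact h1

def B : Set E2 := {p | 0 ≤ p 0 ∧ p 0 ≤ 72 / 100 ∧ p 1 ≤ 5 / 100 + 3 / 4 * p 0 ∧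
  -p 1 ≤ 5 / 100 + 3 / 4 * p 0 ∧ p 1 ≤ 59 / 100 - 3 / 4 * p 0 ∧ -p 1 ≤ 59 / 100 - 3 / 4 * p 0}

def O : Set E2 := {p | 0 < p 0 ∧ p 0 < 72 / 100 ∧ p 1 < 5 / 100 + 3 / 4 * p 0 ∧
  -p 1 < 5 / 100 + 3 / 4 * p 0 ∧ p 1 < 59 / 100 - 3 / 4 * p 0 ∧ -p 1 < 59 / 100 - 3 / 4 * p 0}

theorem isOpen_O : IsOpen O := by
  simp only [O, ofPred_and]
  refine (isOpen_lt ?_ ?_).inter ((isOpen_lt ?_ ?_).inter ((isOpen_lt ?_ ?_).inter
    ((isOpen_lt ?_ ?_).inter ((isOpen_lt ?_ ?_).inter (isOpen_lt ?_ ?_))))) <;> fun_prop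

theorem isClosed_B : IsClosed B := by
  simp only [B, ofPred_and]
  refine (isClosed_le ?_ ?_).inter ((isClosed_le ?_ ?_).inter ((isClosed_le ?_ ?_).inter
    ((isClosed_le ?_ ?_).inter ((isClosed_le ?_ ?_).inter (isClosed_le ?_ ?_))))) <;> fun_prop

theorem O_sub : O ⊆ interior B := by
  apply interior_maximal _ isOpen_O
  rintro p ⟨a, b, c, d, e, f⟩
  exact ⟨a.le, b.le, c.le, d.le, e.le, f.le⟩

theorem compact_B : IsCompact B := by
  apply Metric.isCompact_of_isClosed_isBounded isClosed_B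
  apply (Metric.isBounded_closedBall (x := (0 : E2)) (r := 2)).subset
  rintro p ⟨a, b, c, d, e, f⟩
  rw [mem_closedBall_zero_iff, EuclideanSpace.norm_eq, Real.sqrt_le_left (by norm_num)]
  simp only [Fin.sum_univ_two, Real.norm_eq_abs, sq_abs]
  nlinarith

theorem convex_B : Convex ℝ B := by
  rintro p ⟨a, b, c, d, e, f⟩ q ⟨a', b', c', d', e', f'⟩ s t hs ht hst
  simp only [B, mem_ofPred_eq, PiLp.add_apply, PiLp.smul_apply, smul_eq_mul]
  have : t = 1 - s := by linarith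
  subst this
  refine ⟨?_, ?_, ?_, ?_, ?_, ?_⟩ <;> nlinarith

theorem mem_seg (p : E2) (x y x' y' t : ℝ) (h0 : 0 ≤ t) (h1 : t ≤ 1)
    (e0 : p 0 = (1 - t) * x + t * x') (e1 : p 1 = (1 - t) * y + t * y') :
    p ∈ segment ℝ (pt x y) (pt x' y') :=
  ⟨1 - t, t, by linarith, h0, by ring, by
    apply E2_ext <;> simp [e0, e1]⟩

theorem frontier_sub : frontier B ⊆
    segment ℝ (pt 0 (-5 / 100)) (pt 0 (5 / 100)) ∪
    segment ℝ (pt (72 / 100) (-5 / 100)) (pt (72 / 100) (5 / 100)) ∪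
    segment ℝ (pt 0 (5 / 100)) (pt (36 / 100) (32 / 100)) ∪
    segment ℝ (pt 0 (-5 / 100)) (pt (36 / 100) (-32 / 100)) ∪
    segment ℝ (pt (36 / 100) (32 / 100)) (pt (72 / 100) (5 / 100)) ∪
    segment ℝ (pt (36 / 100) (-32 / 100)) (pt (72 / 100) (-5 / 100)) := by
  rintro p ⟨h1, h2⟩
  rw [isClosed_B.closure_eq] at h1
  obtain ⟨a, b, c, d, e, f⟩ := h1
  have h3 : p ∉ O := fun h => h2 (O_sub h)
  simp only [O, mem_ofPred_eq, not_and_or, not_lt] at h3
  simp only [mem_union]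
  rcases h3 with h | h | h | h | h | h
  · exact Or.inl (Or.inl (Or.inl (Or.inl (Or.inl (mem_seg p _ _ _ _ (10 * p 1 + 1 / 2)
      (by linarith) (by linarith) (by linarith) (by linarith))))))
  · exact Or.inl (Or.inl (Or.inl (Or.inl (Or.inr (mem_seg p _ _ _ _ (10 * p 1 + 1 / 2)
      (by linarith) (by linarith) (by linarith) (by linarith))))))
  · exact Or.inl (Or.inl (Or.inl (Or.inr (mem_seg p _ _ _ _ (100 / 36 * p 0)
      (by linarith) (by linarith) (by linarith) (by linarith)))))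
  · exact Or.inl (Or.inl (Or.inr (mem_seg p _ _ _ _ (100 / 36 * p 0)
      (by linarith) (by linarith) (by linarith) (by linarith))))
  · exact Or.inl (Or.inr (mem_seg p _ _ _ _ (100 / 36 * p 0 - 1)
      (by linarith) (by linarith) (by linarith) (by linarith)))
  · exact Or.inr (mem_seg p _ _ _ _ (100 / 36 * p 0 - 1)
      (by linarith) (by linarith) (by linarith) (by linarith))

theorem seg_len (x y x' y' r : ℝ) (hr : 0 ≤ r) (h : (x - x') ^ 2 + (y - y') ^ 2 = r ^ 2) :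
    μH[1] (segment ℝ (pt x y) (pt x' y')) = ENNReal.ofReal r := by
  rw [hausdorffMeasure_segment, edist_dist, EuclideanSpace.dist_eq]
  simp only [Fin.sum_univ_two, pt0, pt1, Real.dist_eq, sq_abs]
  rw [h, Real.sqrt_sq hr]

theorem perim : μH[1] (frontier B) ≤ 2 := by
  refine (measure_mono frontier_sub).trans ?_
  refine (measure_union_le _ _).trans ?_
  refine (add_le_add_left (measure_union_le _ _) _).trans ?_
  refine (add_le_add_left (add_le_add_left (measure_union_le _ _) _) _).trans ?_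
  refine (add_le_add_left (add_le_add_left (add_le_add_left (measure_union_le _ _) _) _) _).trans ?_
  refine (add_le_add_left (add_le_add_left (add_le_add_left (add_le_add_left
    (measure_union_le _ _) _) _) _) _).trans ?_
  rw [seg_len _ _ _ _ (1 / 10) (by norm_num) (by norm_num),
    seg_len _ _ _ _ (1 / 10) (by norm_num) (by norm_num),
    seg_len _ _ _ _ (45 / 100) (by norm_num) (by norm_num),
    seg_len _ _ _ _ (45 / 100) (by norm_num) (by norm_num),
    seg_len _ _ _ _ (45 / 100) (by norm_num) (by norm_num),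
    seg_len _ _ _ _ (45 / 100) (by norm_num) (by norm_num)]
  repeat rw [← ENNReal.ofReal_add (by norm_num) (by norm_num)]
  norm_num

noncomputable def u : Fin 2 → E2 := ![pt (4 / 5) (-3 / 5), pt (4 / 5) (3 / 5)]

theorem norm_u (i : Fin 2) : ‖u i‖ = 1 := by
  fin_cases i <;> simp [u, EuclideanSpace.norm_eq, Fin.sum_univ_two] <;> norm_num

theorem not_cover (c : Fin 2 → ℝ) : ¬ B ⊆ ⋃ i, {x : E2 |
    c i ≤ inner ℝ x (u i) ∧ inner ℝ x (u i) ≤ c i + (fun _ : Fin 2 => (1 / 2 : ℝ)) i} := by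
  intro h
  have key : ∀ x y : ℝ, pt x y ∈ B →
      (c 0 ≤ 4 / 5 * x - 3 / 5 * y ∧ 4 / 5 * x - 3 / 5 * y ≤ c 0 + 1 / 2) ∨
      (c 1 ≤ 4 / 5 * x + 3 / 5 * y ∧ 4 / 5 * x + 3 / 5 * y ≤ c 1 + 1 / 2) := by
    intro x y hp
    have := h hp
    simp only [mem_iUnion, mem_ofPred_eq, Fin.exists_fin_two, u, PiLp.inner_apply,
      Fin.sum_univ_two, Matrix.cons_val_zero, Matrix.cons_val_one, pt0, pt1, RCLike.inner_apply,
      conj_trivial] at this
    rcases this with h | h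
    · left; constructor <;> linarith [h.1, h.2]
    · right; constructor <;> linarith [h.1, h.2]
  have k1 := key 0 (5 / 100) (by simp only [B, mem_ofPred_eq, pt0, pt1]; norm_num)
  have k2 := key 0 (-5 / 100) (by simp only [B, mem_ofPred_eq, pt0, pt1]; norm_num)
  have k3 := key (36 / 100) (32 / 100) (by simp only [B, mem_ofPred_eq, pt0, pt1]; norm_num)
  have k4 := key (36 / 100) (-32 / 100) (by simp only [B, mem_ofPred_eq, pt0, pt1]; norm_num)
  have k5 := key (72 / 100) (5 / 100) (by simp only [B, mem_ofPred_eq, pt0, pt1]; norm_num)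
  have k6 := key (72 / 100) (-5 / 100) (by simp only [B, mem_ofPred_eq, pt0, pt1]; norm_num)
  rcases k1 with k1 | k1 <;> rcases k2 with k2 | k2 <;> rcases k3 with k3 | k3 <;>
    rcases k4 with k4 | k4 <;> rcases k5 with k5 | k5 <;> rcases k6 with k6 | k6 <;>
    linarith [k1.1, k1.2, k2.1, k2.2, k3.1, k3.2, k4.1, k4.2, k5.1, k5.2, k6.1, k6.2]

theorem int_ne : (interior B).Nonempty :=
  ⟨pt (36 / 100) 0, O_sub (by simp only [O, mem_ofPred_eq, pt0, pt1]; norm_num)⟩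

end Pool.Agent.H8.Plank
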