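import Pool.Agent.H8.PpDefs
namespace H8.Pp
open List

theorem Run.symm {l s1 s2 o : List ℕ} (h : Run l s1 s2 o) : Run l s2 s1 o := by
  induction h with
  | done => exact .done
  | bypass _ ih => exact .bypass ih
  | push1 _ ih => exact .push2 ih
  | push2 _ ih => exact .push1 ih
  | pop1 _ ih => exact .pop2 ih
  | pop2 _ ih => exact .pop1 ih

theorem Run.inf1 {l s1 s2 o : List ℕ} (h : Run l s1 s2 o) : s1 <:+: o := by
  induction h with
  | done => exact infix_refl _
  | bypass _ ih => exact ih.trans (suffix_cons _ _).isInfix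
  | push1 _ ih => exact (suffix_cons _ _).isInfix.trans ih
  | push2 _ ih => exact ih
  | pop1 _ _ => exact (prefix_append _ _).isInfix
  | pop2 _ ih => exact ih.trans (suffix_append _ _).isInfix

theorem Run.cnt {l s1 s2 o : List ℕ} (h : Run l s1 s2 o) (v : ℕ) :
    count v o = count v l + count v s1 + count v s2 := by
  induction h <;> simp_all [count_cons] <;> omega

theorem inf_range {t : List ℕ} {k m : ℕ} (h : t <:+: range' k m) :
    ∃ a, t = range' a t.length := by
  obtain ⟨p, s, h⟩ := h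
  rw [append_assoc, eq_comm, range'_eq_append_iff] at h
  obtain ⟨j, -, -, h⟩ := h
  rw [eq_comm, range'_eq_append_iff] at h
  obtain ⟨j', -, h, -⟩ := h
  exact ⟨k + j * 1, by rw [h]; simp⟩

theorem Run.top1 {l s1 s2 : List ℕ} {x y k m : ℕ} (h : Run l (x :: y :: s1) s2 (range' k m)) :
    y = x + 1 := by
  obtain ⟨a, ha⟩ := inf_range h.inf1
  simp [range'_succ] at ha
  omega

/-- early pop -/
theorem Run.early {l s1 s2 o : List ℕ} (h : Run l s1 s2 o) (hn : o.Nodup) :
    ∀ x t o', s1 = x :: t → o = x :: o' → ∃ o'', o' = t ++ o'' ∧ Run l [] s2 o'' := by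
  induction h with
  | done => intro x t o' h; cases h
  | @bypass y inp s1 s2 out h _ =>
    intro x t o' h1 h2
    obtain ⟨rfl, rfl⟩ := cons.inj h2
    have := h.cnt y
    have h3 : count y out = 0 := count_eq_zero.2 (nodup_cons.1 hn).1
    subst h1; simp at this; omega
  | @push1 y inp s1 s2 out h _ =>
    intro x t o' h1 h2
    subst h1 h2
    obtain ⟨p, s, hp⟩ := h.inf1
    exfalso
    have h3 := (nodup_cons.1 hn).1
    cases p with
    | nil => simp at hp; obtain ⟨-, rfl⟩ := hp; simp at h3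
    | cons z p => simp at hp; obtain ⟨-, rfl⟩ := hp; simp at h3
  | push2 _ ih =>
    intro x t o' h1 h2
    obtain ⟨o'', e, r⟩ := ih hn x t o' h1 h2
    exact ⟨o'', e, .push2 r⟩
  | pop1 h _ =>
    intro x t o' h1 h2
    obtain ⟨rfl, rfl⟩ := cons.inj h1
    obtain ⟨-, rfl⟩ := cons.inj h2
    exact ⟨_, rfl, h⟩
  | @pop2 y inp s1 s2 out h _ =>
    intro x t o' h1 h2
    obtain ⟨rfl, rfl⟩ := cons.inj h2
    have := h.cnt y
    have h3 : count y (s2 ++ out) = 0 := count_eq_zero.2 (nodup_cons.1 hn).1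
    subst h1; simp at this h3; omega

theorem run_pop {l s2 : List ℕ} {i p m : ℕ} :
    Run l (range' i (p+1)) s2 (range' i (p+1+m)) ↔ Run l [] s2 (range' (i+p+1) m) := by
  have e : range' i (p+1+m) = i :: range' (i+1) p ++ range' (i+p+1) m := by
    rw [← range'_append_1]; simp [range'_succ]; congr 1; omega
  constructor
  · intro h
    obtain ⟨o'', e', r⟩ := h.early (nodup_range' ..) i (range' (i+1) p) _ (by simp [range'_succ]) e
    rw [append_cancel_left e']; exact r
  · intro h
    rw [e, range'_succ]; exact .pop1 h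

theorem run_inv {l s1 s2 o : List ℕ} {x k : ℕ} (h : Run (x :: l) s1 s2 (k :: o))
    (h1 : s1.head? ≠ some k) (h2 : s2.head? ≠ some k) :
    (x = k ∧ Run l s1 s2 o) ∨ Run l (x :: s1) s2 (k :: o) ∨ Run l s1 (x :: s2) (k :: o) := by
  generalize ho : k :: o = o' at h
  cases h with
  | bypass h => obtain ⟨rfl, rfl⟩ := cons.inj ho; exact .inl ⟨rfl, h⟩
  | push1 h => exact .inr (.inl h)
  | push2 h => exact .inr (.inr h)
  | pop1 h => obtain ⟨rfl, -⟩ := cons.inj ho; simp at h1
  | pop2 h => obtain ⟨rfl, -⟩ := cons.inj ho; simp at h2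

theorem Run.split {inp s1 s2 o : List ℕ} (h : Run inp s1 s2 o) :
    ∀ P l, inp = P ++ l → ∃ t1 t2 o1 o2, o = o1 ++ o2 ∧ Run l t1 t2 o2 ∧
      (∀ x, (x ∈ P ∨ x ∈ s1 ∨ x ∈ s2) → x ∈ o1 ∨ x ∈ t1 ∨ x ∈ t2) ∧
      t1 <+ P.reverse ++ s1 ∧ t2 <+ P.reverse ++ s2 := by
  have nil : ∀ {inp s1 s2 o : List ℕ}, Run inp s1 s2 o → ∀ l, inp = [] ++ l →
      ∃ t1 t2 o1 o2, o = o1 ++ o2 ∧ Run l t1 t2 o2 ∧
      (∀ x, (x ∈ ([] : List ℕ) ∨ x ∈ s1 ∨ x ∈ s2) → x ∈ o1 ∨ x ∈ t1 ∨ x ∈ t2) ∧
      t1 <+ ([] : List ℕ).reverse ++ s1 ∧ t2 <+ ([] : List ℕ).reverse ++ s2 := by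
    intro inp s1 s2 o h l e
    obtain rfl : inp = l := by simpa using e
    exact ⟨s1, s2, [], o, rfl, h, fun x hx => hx, by simp, by simp⟩
  induction h with
  | done =>
    intro P l e
    obtain ⟨rfl, rfl⟩ : P = [] ∧ l = [] := by simpa using e.symm
    exact nil .done _ rfl
  | @bypass y inp s1 s2 out h ih =>
    intro P l e
    cases P with
    | nil => exact nil (.bypass h) _ e
    | cons z P =>
      obtain ⟨rfl, e'⟩ := cons.inj e
      obtain ⟨t1, t2, o1, o2, rfl, r, m, a1, a2⟩ := ih P l e'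
      refine ⟨t1, t2, y :: o1, o2, rfl, r, ?_, a1.trans (by simp), a2.trans (by simp)⟩
      intro x hx; have := m x; simp only [mem_cons] at *; tauto
  | @push1 y inp s1 s2 out h ih =>
    intro P l e
    cases P with
    | nil => exact nil (.push1 h) _ e
    | cons z P =>
      obtain ⟨rfl, e'⟩ := cons.inj e
      obtain ⟨t1, t2, o1, o2, rfl, r, m, a1, a2⟩ := ih P l e'
      refine ⟨t1, t2, o1, o2, rfl, r, ?_, a1.trans (by simp), a2.trans (by simp)⟩
      intro x hx; have := m x; simp only [mem_cons] at *; tauto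
  | @push2 y inp s1 s2 out h ih =>
    intro P l e
    cases P with
    | nil => exact nil (.push2 h) _ e
    | cons z P =>
      obtain ⟨rfl, e'⟩ := cons.inj e
      obtain ⟨t1, t2, o1, o2, rfl, r, m, a1, a2⟩ := ih P l e'
      refine ⟨t1, t2, o1, o2, rfl, r, ?_, a1.trans (by simp), a2.trans (by simp)⟩
      intro x hx; have := m x; simp only [mem_cons] at *; tauto
  | @pop1 y inp s1 s2 out h ih =>
    intro P l e
    obtain ⟨t1, t2, o1, o2, rfl, r, m, a1, a2⟩ := ih P l e
    refine ⟨t1, t2, y :: s1 ++ o1, o2, by simp, r, ?_, a1.trans (by simp), a2⟩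
    intro x hx; have := m x; simp only [mem_cons, mem_append, not_mem_nil] at *; tauto
  | @pop2 y inp s1 s2 out h ih =>
    intro P l e
    obtain ⟨t1, t2, o1, o2, rfl, r, m, a1, a2⟩ := ih P l e
    refine ⟨t1, t2, y :: s2 ++ o1, o2, by simp, r, ?_, a1, a2.trans (by simp)⟩
    intro x hx; have := m x; simp only [mem_cons, mem_append, not_mem_nil] at *; tauto

theorem asym {l : List ℕ} (hn : l.Nodup) {a b : ℕ} (h1 : [a, b] <+ l) (h2 : [b, a] <+ l) : False := by
  induction l with
  | nil => simp at h1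
  | cons z l ih =>
    obtain ⟨hz, hn'⟩ := nodup_cons.1 hn
    rcases sublist_cons_iff.1 h1 with g1 | ⟨r, e, g1⟩
    · rcases sublist_cons_iff.1 h2 with g2 | ⟨r, e, g2⟩
      · exact ih hn' g1 g2
      · have e1 := (cons.inj e).1
        exact hz (g1.subset (by simp [e1]))
    · have e1 := (cons.inj e).1
      have e2 := (cons.inj e).2
      rcases sublist_cons_iff.1 h2 with g2 | ⟨r', e', g2⟩
      · exact hz (g2.subset (by simp [e1]))
      · have e3 := (cons.inj e').1
        exact hz (g1.subset (by simp [← e2, e3]))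

theorem bef {P l : List ℕ} {a b : ℕ} (ha : a ∈ P) (hb : b ∈ l) : [a, b] <+ P ++ l :=
  (singleton_sublist.2 ha).append (singleton_sublist.2 hb)

theorem same_stack {t P l : List ℕ} {k m x y v : ℕ} (h : t <:+: range' k m) (hs : t <+ P.reverse ++ [])
    (hx : x ∈ t) (hy : y ∈ t) (h1 : x < v) (h2 : v ≤ y) : [v, x] <+ P ++ l := by
  obtain ⟨a, ha⟩ := inf_range h
  rw [ha] at hx hy
  simp only [mem_range'_1] at hx hy
  have e : range' a t.length = range' a (v - a) ++ range' v (a + t.length - v) := by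
    have := @range'_append_1 a (v - a) (a + t.length - v)
    rw [show a + (v - a) = v by omega] at this
    rw [this]; congr 1; omega
  have : [x, v] <+ t := by
    rw [ha, e]; apply bef <;> simp only [mem_range'_1] <;> omega
  have h3 := (this.trans hs).reverse
  simp at h3
  exact h3.trans (sublist_append_left _ _)

theorem three {P l : List ℕ} {n u x y z : ℕ} (h : Run (P ++ l) [] [] (range n)) (hu : u ∈ l)
    (hx : x ∈ P) (hy : y ∈ P) (hz : z ∈ P) (h1 : u < x) (h2 : x < y) (h3 : y < z) :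
    (∀ v, x < v → v ≤ y → [v, x] <+ P ++ l) ∨ (∀ v, y < v → v ≤ z → [v, y] <+ P ++ l) := by
  obtain ⟨t1, t2, o1, o2, e, r, m, a1, a2⟩ := h.split P l rfl
  have hu2 : u ∈ o2 := by
    have := r.cnt u
    have := count_pos_iff.2 hu
    exact count_pos_iff.1 (by omega)
  have hp : (o1 ++ o2).Pairwise (· < ·) := e ▸ pairwise_lt_range
  have hlt := (pairwise_append.1 hp).2.2
  have i0 : o2 <:+: range' 0 n := by rw [← range_eq_range', e]; exact (suffix_append _ _).isInfix
  have i1 := r.inf1.trans i0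
  have i2 := r.symm.inf1.trans i0
  have key : ∀ w ∈ P, u < w → w ∈ t1 ∨ w ∈ t2 := by
    intro w hw huw
    rcases m w (.inl hw) with h | h
    · have := hlt w h u hu2; omega
    · exact h
  rcases key x hx h1 with kx | kx <;> rcases key y hy (by omega) with ky | ky <;>
    rcases key z hz (by omega) with kz | kz <;>
    first
    | exact .inl fun v v1 v2 => same_stack i1 a1 kx ky v1 v2
    | exact .inl fun v v1 v2 => same_stack i2 a2 kx ky v1 v2
    | exact .inr fun v v1 v2 => same_stack i1 a1 ky kz v1 v2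
    | exact .inr fun v v1 v2 => same_stack i2 a2 ky kz v1 v2
    | exact .inl fun v v1 v2 => same_stack i1 a1 kx kz v1 (by omega)
    | exact .inl fun v v1 v2 => same_stack i2 a2 kx kz v1 (by omega)
end H8.Pp
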