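import Pool.Agent.H8.Pp1
namespace H8.Pp
open List

def NA (a b : ℕ) : Prop := a ≠ b + 1 ∧ b ≠ a + 1
def Bad (n : ℕ) (t : List ℕ) : Prop := Consec t ∧ (2 ≤ t.length ∨ t = [0] ∨ t = [n - 1])

theorem has231 : ∀ (N : ℕ) (w : List ℕ), w.length ≤ N → w.Nodup → Consec w → IsChain NA w →
    2 ≤ w.length → ∃ x y u, u < x ∧ x < y ∧ [x, y, u] <+ w := by
  intro N
  induction N with
  | zero => intro w h _ _ _ h2; omega
  | succ N ih =>
    intro w hl hn hc hch h2
    obtain ⟨β, hβ, hmax⟩ : ∃ β ∈ w, ∀ v ∈ w, v ≤ β := by
      have hne : w.toFinset.Nonempty := by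
        cases w with
        | nil => simp at h2
        | cons a w => exact ⟨a, by simp⟩
      obtain ⟨β, h1, h2⟩ := w.toFinset.exists_max_image id hne
      exact ⟨β, by simpa using h1, by simpa using h2⟩
    obtain ⟨w1, w2, rfl⟩ := append_of_mem hβ
    have hn' := hn
    rw [nodup_append] at hn'
    obtain ⟨n1, n2, n3⟩ := hn'
    obtain ⟨n4, n2⟩ := nodup_cons.1 n2
    have l1 : ∀ v ∈ w1, v < β := fun v hv =>
      lt_of_le_of_ne (hmax v (by simp [hv])) (n3 v hv β (by simp))
    have l2 : ∀ v ∈ w2, v < β := fun v hv =>
      lt_of_le_of_ne (hmax v (by simp [hv])) (fun e => n4 (e ▸ hv))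
    by_cases hx : ∃ x ∈ w1, ∃ u ∈ w2, u < x
    · obtain ⟨x, hx, u, hu, h⟩ := hx
      exact ⟨x, β, u, h, l1 x hx,
        (singleton_sublist.2 hx).append ((singleton_sublist.2 hu).cons_cons β)⟩
    push Not at hx
    have hx' : ∀ x ∈ w1, ∀ u ∈ w2, x < u := fun x h u h' =>
      lt_of_le_of_ne (hx x h u h') (n3 x h u (by simp [h']))
    simp only [length_append, length_cons] at hl h2
    by_cases c1 : 2 ≤ w1.length
    · obtain ⟨x, y, u, a, b, c⟩ := ih w1 (by omega) n1 (by
        intro u hu z hz v h1 h2
        have := hc u (by simp [hu]) z (by simp [hz]) v h1 h2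
        simp only [mem_append, mem_cons] at this
        rcases this with h | h | h
        · exact h
        · have := l1 z hz; omega
        · have := hx' z hz v h; omega) hch.left_of_append c1
      exact ⟨x, y, u, a, b, c.trans (sublist_append_left _ _)⟩
    by_cases c2 : 2 ≤ w2.length
    · obtain ⟨x, y, u, a, b, c⟩ := ih w2 (by omega) n2 (by
        intro u hu z hz v h1 h2
        have := hc u (by simp [hu]) z (by simp [hz]) v h1 h2
        simp only [mem_append, mem_cons] at this
        rcases this with h | h | h
        · have := hx' v h u hu; omega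
        · have := l2 z hz; omega
        · exact h) hch.right_of_append.tail c2
      exact ⟨x, y, u, a, b, (c.cons β).trans (sublist_append_right _ _)⟩
    exfalso
    match w1, w2, c1, c2 with
    | [], [], _, _ => simp at h2
    | [a], [], _, _ =>
      have := l1 a (by simp)
      have h := hc a (by simp) β (by simp) (a+1) (by omega) (by omega)
      simp [NA] at h hch; omega
    | [], [b], _, _ =>
      have := l2 b (by simp)
      have h := hc b (by simp) β (by simp) (b+1) (by omega) (by omega)
      simp [NA] at h hch; omega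
    | [a], [b], _, _ =>
      have := l2 b (by simp)
      have := hx' a (by simp) b (by simp)
      have h := hc b (by simp) β (by simp) (b+1) (by omega) (by omega)
      simp [NA] at h hch; omega
    | _ :: _ :: _, _, c1, _ => simp at c1
    | _, _ :: _ :: _, _, c2 => simp at c2

theorem exists_min {s : List ℕ} (h : s ≠ []) : ∃ m ∈ s, ∀ v ∈ s, m ≤ v := by
  have hne : s.toFinset.Nonempty := by
    cases s with
    | nil => simp at h
    | cons a w => exact ⟨a, by simp⟩
  obtain ⟨β, h1, h2⟩ := s.toFinset.exists_min_image id hne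
  exact ⟨β, by simpa using h1, by simpa using h2⟩

theorem top_bad {n : ℕ} {t : List ℕ} (h0 : t ≠ []) (hlt : ∀ v ∈ t, v < n)
    (h : ∀ u ∈ t, ∀ v, u < v → v < n → v ∈ t) : Bad n t := by
  refine ⟨fun u hu z hz v h1 h2 => ?_, ?_⟩
  · rcases h1.eq_or_lt with rfl | h1
    · exact hu
    · exact h u hu v h1 (by have := hlt z hz; omega)
  · match t, h0 with
    | [a], _ =>
      right; right
      have := hlt a (by simp)
      by_contra hne
      have hne' : a ≠ n - 1 := fun e => hne (by rw [e])
      have := h a (by simp) (a+1) (by omega) (by omega)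
      simp at this
    | _ :: _ :: _, _ => left; simp

theorem split3 {x y u : ℕ} {w : List ℕ} (h : [x, y, u] <+ w) :
    ∃ w1 w2, w = w1 ++ w2 ∧ [x, y] <+ w1 ∧ u ∈ w2 := by
  have : [x, y] ++ [u] <+ w := h
  obtain ⟨w1, w2, e, h1, h2⟩ := append_sublist_iff.1 this
  exact ⟨w1, w2, e, h1, singleton_sublist.1 h2⟩

theorem simple_of {n : ℕ} {π : List ℕ} (hp : π.Perm (range n)) (hr : Run π [] [] (range n))
    (hch : IsChain NA π) (hs : ∀ t, t <:+ π → t ≠ π → ¬ Bad n t) : Simple π := by
  intro p w s e hc
  by_contra hcon
  push Not at hcon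
  obtain ⟨h2, hne⟩ := hcon
  have hn : π.Nodup := hp.nodup_iff.2 nodup_range
  have hm : ∀ v, v ∈ π ↔ v < n := fun v => by rw [hp.mem_iff]; simp
  subst e
  have hm' : ∀ v, v < n ↔ (v ∈ p ∨ v ∈ w ∨ v ∈ s) := fun v => by rw [← hm]; simp
  have hn' := hn
  rw [nodup_append, nodup_append] at hn'
  obtain ⟨⟨np, nw, dpw⟩, ns, dps⟩ := hn'
  have d1 : ∀ v, v ∈ p → v ∈ w → False := fun v a b => dpw v a v b rfl
  have d2 : ∀ v, v ∈ p → v ∈ s → False := fun v a b => dps v (by simp [a]) v b rfl
  have d3 : ∀ v, v ∈ w → v ∈ s → False := fun v a b => dps v (by simp [a]) v b rfl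
  obtain ⟨x, y, u, ux, xy, hsub⟩ := has231 _ w le_rfl nw hc
    hch.left_of_append.right_of_append h2
  have xw : x ∈ w := hsub.subset (by simp)
  have yw : y ∈ w := hsub.subset (by simp)
  have hxy : [x, y] <+ p ++ w ++ s :=
    ((show [x, y] <+ [x, y, u] by simp).trans hsub).trans
      ((sublist_append_right _ _).trans (sublist_append_left _ _))
  have prop : ∀ t q, q ≠ [] → p ++ w ++ s = q ++ t → ¬ Bad n t := by
    intro t q hq e
    refine hs t ⟨q, e.symm⟩ fun e' => hq ?_
    have := congrArg length e
    rw [← e'] at this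
    simp only [length_append] at this
    exact length_eq_zero_iff.1 (by omega)
  have wne : p ++ w ≠ [] := by
    intro e; have := (append_eq_nil_iff.1 e).2; subst this; simp at xw
  have side : ∀ v, v ∉ w → (∀ z ∈ w, v < z) ∨ (∀ z ∈ w, z < v) := by
    intro v hv
    by_contra hcc
    push Not at hcc
    obtain ⟨⟨a, ha, h1⟩, b, hb, h2⟩ := hcc
    exact hv (hc a ha b hb v h1 h2)
  have s0 : s ≠ [] := by
    rintro rfl
    by_cases hp0 : p = []
    · subst hp0; simp at hne
    · exact prop w p hp0 (by simp) ⟨hc, .inl h2⟩
  -- no third chain above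
  have T3 : ∀ P l, p ++ w ++ s = P ++ l → ∀ u' ∈ l, u' < x → x ∈ P → y ∈ P → ∀ v ∈ P, y < v →
      ∀ u0, y < u0 → u0 ≤ v → [y, u0] <+ p ++ w ++ s → False := by
    intro P l e u' hu' h1 hx hy v hv h2 u0 h3 h4 h5
    rcases three (e ▸ hr) hu' hx hy hv h1 xy h2 with h | h
    · exact asym hn hxy (e ▸ h y xy le_rfl)
    · exact asym hn h5 (e ▸ h u0 h3 h4)
  obtain ⟨m, ms, hmin⟩ := exists_min s0
  rcases side m (fun h => d3 m h ms) with hlow | hup
  · -- case 2
    have A : ∀ v ∈ p, m < v → v < x → False := by
      intro v hv h1 h2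
      rcases three (P := p ++ w) hr ms (by simp [hv]) (by simp [xw]) (by simp [yw]) h1 h2 xy
        with h | h
      · exact asym hn (h x h2 le_rfl) ((bef hv xw).trans (sublist_append_left _ _))
      · exact asym hn hxy (h y xy le_rfl)
    have B : ∀ s1 s2, s = s1 ++ s2 → ∀ v ∈ s1, y < v → ∀ u' ∈ s2, u' < x → False := by
      intro s1 s2 e v hv h1 u' hu' h2
      exact T3 (p ++ w ++ s1) s2 (by simp [e]) u' hu' h2 (by simp [xw]) (by simp [yw]) v
        (by simp [hv]) h1 v h1 le_rfl (bef (by simp [yw]) (by simp [e, hv]))
    have sw : ∀ v ∈ s, v < x ∨ (∀ z ∈ w, z < v) := fun v hv =>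
      (side v (fun h => d3 v h hv)).imp_left fun h => h x xw
    by_cases hall : ∀ v ∈ s, v < x
    · have cs : ∀ a ∈ s, ∀ v, a ≤ v → v < x → v ∈ w ∨ v ∈ s := by
        intro a ha v h1 h2
        have hv : v < n := by have := (hm' x).2 (by simp [xw]); omega
        rcases (hm' v).1 hv with h | h
        · exfalso
          have := hmin a ha
          have hvm : v ≠ m := fun e => d2 v h (e ▸ ms)
          exact A v h (by omega) h2
        · exact h
      by_cases hp0 : p = []
      · subst hp0
        refine prop s w (by simpa using wne) (by simp) ⟨?_, ?_⟩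
        · intro a ha z hz v h1 h2
          have hz' := hall z hz
          rcases cs a ha v h1 (by omega) with h | h
          · exact (d3 z (hc v h x xw z h2 hz'.le) hz).elim
          · exact h
        · have h0 : 0 ∈ s := by
            have := (hm' 0).1 (by have := (hm' x).2 (by simp [xw]); omega)
            rcases this with h | h | h
            · simp at h
            · have := hlow 0 h; omega
            · exact h
          match s, s0, h0 with
          | [a], _, h0 => right; left; simp at h0; rw [← h0]
          | _ :: _ :: _, _, _ => left; simp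
      · refine prop (w ++ s) p hp0 (by simp) ⟨?_, .inl (by simp; omega)⟩
        intro a ha z hz v h1 h2
        simp only [mem_append] at ha hz ⊢
        by_cases hvx : v < x
        · rcases ha with ha | ha
          · exact .inl (hc a ha x xw v h1 hvx.le)
          · exact cs a ha v h1 hvx
        · rcases hz with hz | hz
          · exact .inl (hc x xw z hz v (by omega) h2)
          · have := hall z hz; omega
    · push Not at hall
      -- first element of s that is ≥ x
      obtain ⟨s1, v0, s2, e, hv0, hs1⟩ : ∃ s1 v0 s2, s = s1 ++ v0 :: s2 ∧ x ≤ v0 ∧ ∀ v ∈ s1, v < x := by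
        clear * - hall
        induction s with
        | nil => simp at hall
        | cons a s ih =>
          by_cases ha : x ≤ a
          · exact ⟨[], a, s, rfl, ha, by simp⟩
          · obtain ⟨v, hv, h⟩ := hall
            rcases mem_cons.1 hv with rfl | hv
            · exact (ha h).elim
            · obtain ⟨s1, v0, s2, rfl, h1, h2⟩ := ih ⟨v, hv, h⟩
              exact ⟨a :: s1, v0, s2, rfl, h1, by simp; exact ⟨by omega, h2⟩⟩
      have yv0 : y < v0 := by
        rcases sw v0 (by simp [e]) with h | h
        · omega
        · exact h y yw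
      have big : ∀ v ∈ v0 :: s2, ∀ z ∈ w, z < v := by
        intro v hv
        rcases sw v (by rw [e]; exact mem_append_right _ hv) with h | h
        · exfalso
          rcases mem_cons.1 hv with rfl | hv
          · omega
          · exact B (s1 ++ [v0]) s2 (by simp [e]) v0 (by simp) yv0 v hv h
        · exact h
      refine prop (v0 :: s2) (p ++ w ++ s1) (by simp; intro a b; exact (wne (by simp [a, b])).elim)
        (by simp [e]) (top_bad (by simp) ?_ ?_)
      · intro v hv; exact (hm' v).2 (.inr (.inr (by rw [e]; exact mem_append_right _ hv)))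
      · intro u0 hu0 v h1 h2
        have yu := big u0 hu0 y yw
        rcases (hm' v).1 h2 with h | h | h
        · exact (T3 (p ++ w) s rfl m ms (hlow x xw) (by simp [xw]) (by simp [yw]) v (by simp [h])
            (by omega) u0 yu h1.le
            (bef (by simp [yw]) (by rw [e]; exact mem_append_right _ hu0))).elim
        · have := big u0 hu0 v h; omega
        · rw [e] at h
          rcases mem_append.1 h with h | h
          · have := hs1 v h; omega
          · exact h
  · -- case 1
    refine prop s (p ++ w) wne rfl (top_bad s0 (fun v hv => (hm' v).2 (by simp [hv])) ?_)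
    intro u0 hu0 v h1 h2
    have := hmin u0 hu0
    rcases (hm' v).1 h2 with h | h | h
    · exfalso
      obtain ⟨w1, w2, e, g1, g2⟩ := split3 hsub
      have := hup y yw
      exact T3 (p ++ w1) (w2 ++ s) (by simp [e]) u (by simp [g2]) ux
        (mem_append_right _ (g1.subset (by simp))) (mem_append_right _ (g1.subset (by simp)))
        v (by simp [h]) (by omega) u0 (by omega) h1.le (bef (by simp [yw]) hu0)
    · have := hup v h; omega
    · exact h

theorem local_of {n : ℕ} {π : List ℕ} (hp : π.Perm (range n)) (h3 : 3 ≤ n) (hs : Simple π) :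
    IsChain NA π ∧ ∀ t, t <:+ π → t ≠ π → ¬ Bad n t := by
  have hl : π.length = n := by simpa using hp.length_eq
  have hn : π.Nodup := hp.nodup_iff.2 nodup_range
  have hm : ∀ v, v ∈ π ↔ v < n := fun v => by rw [hp.mem_iff]; simp
  constructor
  · rw [isChain_iff_forall_rel_of_append_cons_cons]
    intro a b l1 l2 e
    by_contra hc
    rcases hs l1 [a, b] l2 (by simp [e]) (by
      intro u hu z hz v h1 h2
      simp only [NA, not_and_or, not_not] at hc
      simp only [mem_cons, not_mem_nil, or_false] at hu hz ⊢; omega) with h | h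
    · simp at h
    · rw [← h] at hl; simp at hl; omega
  · rintro t ⟨q, e⟩ hne ⟨hc, hb⟩
    have key : ∀ c, t = [c] → (c = 0 ∨ c = n - 1) → False := by
      rintro c rfl hc
      subst e
      have hcq : c ∉ q := fun h => (nodup_append.1 hn).2.2 c h c (by simp) rfl
      rcases hs [] q [c] (by simp) (by
        intro u hu z hz v h1 h2
        have hz' := (hm z).1 (by simp [hz])
        have := (hm v).2 (by omega)
        simp only [mem_append, mem_singleton] at this
        rcases this with h | rfl
        · exact h
        · exfalso; rcases hc with hc | hc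
          · exact hcq (by rwa [show v = u by omega])
          · exact hcq (by rwa [show v = z by omega])) with h | h
      · simp at hl; omega
      · simp at h
    rcases hb with hb | hb | hb
    · rcases hs q t [] (by simp [e]) hc with h | h
      · omega
      · exact hne h
    · exact key _ hb (.inl rfl)
    · exact key _ hb (.inr rfl)
end H8.Pp
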