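import Pool.Agent.H8.Pp2
namespace H8.Pp
open List

theorem Run.unpush {l s1 s2 o : List ℕ} {k : ℕ} (h : Run l (k :: s1) s2 (k :: o))
    (hn : (k :: o).Nodup) : Run l s1 s2 o := by
  obtain ⟨o'', rfl, r⟩ := h.early hn k s1 o rfl rfl
  cases s1 with
  | nil => exact r
  | cons a s1 => exact .pop1 r

theorem run_min {l s1 s2 o : List ℕ} {k : ℕ} (hn : (k :: o).Nodup)
    (h1 : s1.head? ≠ some k) (h2 : s2.head? ≠ some k) :
    Run (k :: l) s1 s2 (k :: o) ↔ Run l s1 s2 o := by
  refine ⟨fun h => ?_, .bypass⟩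
  rcases run_inv h h1 h2 with h | h | h
  · exact h.2
  · exact h.unpush hn
  · exact (h.symm.unpush hn).symm

theorem Run.merge {l s1 s2 o : List ℕ} (h : Run l s1 s2 o) :
    ∀ k m z, o = range' k m → s1.head? = some (z + 1) → s2.getLast? = some z →
      Run l (s2 ++ s1) [] o := by
  induction h with
  | done => intro k m z _ h; simp at h
  | @bypass y inp s1 s2 out h ih =>
    intro k m z e h1 h2
    cases m with
    | zero => simp at e
    | succ m => rw [range'_succ] at e; exact .bypass (ih _ _ z (cons.inj e).2 h1 h2)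
  | @push1 y inp s1 s2 out h _ =>
    intro k m z e h1 h2
    exfalso
    cases s1 with
    | nil => simp at h1
    | cons a s1 =>
      simp at h1; subst h1 e
      have := h.top1
      obtain rfl : z = y := by omega
      have h3 := h.cnt z
      have h4 := count_pos_iff.2 (mem_of_getLast? h2)
      have h5 := nodup_iff_count_le_one.1 (nodup_range' (s := k) (n := m)) z
      rw [count_cons_self] at h3; omega
  | @push2 y inp s1 s2 out h ih =>
    intro k m z e h1 h2
    refine .push1 (ih k m z e h1 ?_)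
    cases s2 with
    | nil => simp at h2
    | cons a s2 => simpa using h2
  | @pop1 y inp s1 s2 out h _ =>
    intro k m z e h1 h2
    exfalso
    simp at h1; subst h1
    have h3 := h.cnt z
    have h4 := count_pos_iff.2 (mem_of_getLast? h2)
    have h5 : z ∈ range' k m := by
      rw [← e]; exact mem_append_right _ (count_pos_iff.1 (by omega))
    cases m with
    | zero => simp at e
    | succ m =>
      rw [range'_succ] at e
      have := (cons.inj e).1
      simp only [mem_range'_1] at h5; omega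
  | @pop2 y inp s1 s2 out h _ =>
    intro k m z e h1 h2
    rw [eq_comm, range'_eq_append_iff] at e
    obtain ⟨j, hj, e1, e2⟩ := e
    cases s1 with
    | nil => simp at h1
    | cons a s1 =>
      simp at h1; subst h1
      have h3 := h.cnt (z + 1)
      have h5 : z + 1 ∈ out := count_pos_iff.1 (by simp at h3; omega)
      have hz : z + 1 = k + j := by
        rw [e1] at h2
        cases j with
        | zero => simp at e1
        | succ j => rw [range'_concat] at h2; simp at h2; omega
      rw [e2] at h5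
      simp only [mem_range'_1] at h5
      obtain ⟨m', hm'⟩ : ∃ m', m - j = m' + 1 := ⟨m - j - 1, by omega⟩
      rw [hm', range'_succ] at e2
      obtain ⟨o'', e3, r⟩ := h.early (by rw [e2, ← range'_succ]; exact nodup_range' ..) (z + 1) s1
        _ rfl (by rw [e2]; congr 1; omega)
      have := Run.pop1 (x := y) (s1 := s2 ++ (z + 1) :: s1) r
      rw [e2, e3]
      simpa [hz] using this

def C (n k i j r s y : ℕ) : Set (List ℕ) :=
  {l | l.Nodup ∧ (∀ v, v ∈ l ↔ (k ≤ v ∧ v < i) ∨ (j ≤ v ∧ v < r) ∨ (s ≤ v ∧ v < n)) ∧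
    Run l (range' i (j - i)) (range' r (s - r)) (range' k (n - k)) ∧ IsChain NA (y :: l) ∧
    ∀ t, t <:+ l → ¬ Bad n t}

theorem rc {a b : ℕ} (h : a < b) : range' a (b - a) = a :: range' (a + 1) (b - (a + 1)) := by
  rw [show b - a = (b - (a + 1)) + 1 by omega, range'_succ]

theorem hd {a b k : ℕ} (h : k < a) : (range' a b).head? ≠ some k := by
  cases b with
  | zero => simp
  | succ b => simp [range'_succ]; omega

theorem stepC {n k i j r s y x k' i' j' r' s' : ℕ} (h1 : k < i) (h2 : i < j) (h3 : j ≤ r)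
    (h4 : r ≤ s) (h6 : j < r ∨ s < n)
    (hU : ∀ v, ((k' ≤ v ∧ v < i') ∨ (j' ≤ v ∧ v < r') ∨ (s' ≤ v ∧ v < n)) ↔
      (((k ≤ v ∧ v < i) ∨ (j ≤ v ∧ v < r) ∨ (s ≤ v ∧ v < n)) ∧ v ≠ x))
    (hx : (k ≤ x ∧ x < i) ∨ (j ≤ x ∧ x < r) ∨ (s ≤ x ∧ x < n))
    (hR : ∀ l, Run (x :: l) (range' i (j - i)) (range' r (s - r)) (range' k (n - k)) ↔
      Run l (range' i' (j' - i')) (range' r' (s' - r')) (range' k' (n - k'))) (l : List ℕ) :
    x :: l ∈ C n k i j r s y ↔ NA y x ∧ l ∈ C n k' i' j' r' s' x := by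
  simp only [C, Set.mem_setOf_eq, nodup_cons, isChain_cons_cons, hR, suffix_cons_iff, hU]
  constructor
  · rintro ⟨⟨a1, a2⟩, a3, a4, ⟨a5, a6⟩, a7⟩
    refine ⟨a5, a2, fun v => ?_, a4, a6, fun t ht => a7 t (.inr ht)⟩
    rw [← a3, mem_cons]
    constructor
    · intro h; exact ⟨.inr h, fun e => a1 (e ▸ h)⟩
    · rintro ⟨h | h, h'⟩
      · exact (h' h).elim
      · exact h
  · rintro ⟨a5, a2, a3, a4, a6, a7⟩
    have key : ∀ v, v ∈ x :: l ↔ (k ≤ v ∧ v < i) ∨ (j ≤ v ∧ v < r) ∨ (s ≤ v ∧ v < n) := by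
      intro v
      rw [mem_cons, a3]
      by_cases e : v = x
      · subst e; simp [hx]
      · simp [e]
    refine ⟨⟨fun h => ((a3 x).1 h).2 rfl, a2⟩, key, a4, ⟨a5, a6⟩, ?_⟩
    rintro t (rfl | ht)
    · rintro ⟨hc, -⟩
      rcases h6 with h6 | h6
      · have := (key i).1 (hc k ((key k).2 (by omega)) j ((key j).2 (by omega)) i h1.le h2.le)
        omega
      · have := (key i).1 (hc k ((key k).2 (by omega)) s ((key s).2 (by omega)) i h1.le (by omega))
        omega
    · exact a7 t ht

section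
variable {n k i j r s y x : ℕ} (h1 : k < i) (h2 : i < j) (h3 : j ≤ r) (h4 : r ≤ s) (h5 : s ≤ n)
  (h6 : j < r ∨ s < n)
include h1 h2 h3 h4 h5

theorem runk (l : List ℕ) :
    Run (k :: l) (range' i (j - i)) (range' r (s - r)) (range' k (n - k)) ↔
      Run l (range' i (j - i)) (range' r (s - r)) (range' (k + 1) (n - (k + 1))) := by
  rw [rc (show k < n by omega)]
  exact run_min (by rw [← range'_succ]; exact nodup_range' ..) (hd h1) (hd (by omega))

theorem runx {l : List ℕ} (hx : x ≠ k)
    (h : Run (x :: l) (range' i (j - i)) (range' r (s - r)) (range' k (n - k))) :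
    (x + 1 = i ∧ Run l (x :: range' i (j - i)) (range' r (s - r)) (range' k (n - k))) ∨
    ((x + 1 = r ∨ r = s) ∧ Run l (range' i (j - i)) (x :: range' r (s - r)) (range' k (n - k))) := by
  have e := rc (show k < n by omega)
  rw [e] at h
  rcases run_inv h (hd h1) (hd (by omega)) with h | h | h
  · exact (hx h.1).elim
  · rw [← e] at h
    refine .inl ⟨?_, h⟩
    rw [rc h2] at h; exact h.top1.symm
  · rw [← e] at h
    refine .inr ⟨?_, h⟩
    rcases h4.eq_or_lt with h4 | h4
    · exact .inr h4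
    · rw [rc h4] at h; exact .inl h.symm.top1.symm

include h6
theorem stepL (h : k + 1 < i) (l : List ℕ) :
    k :: l ∈ C n k i j r s y ↔ NA y k ∧ l ∈ C n (k + 1) i j r s k :=
  stepC h1 h2 h3 h4 h6 (fun v => by omega) (by omega) (runk h1 h2 h3 h4 h5) l

theorem stepF (h : k + 1 = i) (l : List ℕ) :
    k :: l ∈ C n k i j r s y ↔ NA y k ∧ l ∈ C n j r s n n k := by
  refine stepC h1 h2 h3 h4 h6 (fun v => by omega) (by omega) (fun l => ?_) l
  rw [runk h1 h2 h3 h4 h5, h]
  have := @run_pop l (range' r (s - r)) i (j - i - 1) (n - j)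
  rw [show j - i - 1 + 1 = j - i by omega, show j - i + (n - j) = n - i by omega,
    show i + (j - i - 1) + 1 = j by omega] at this
  rw [this]
  simp only [Nat.sub_self, range'_zero]
  exact ⟨Run.symm, Run.symm⟩

theorem stepM (h : k + 1 < i) (l : List ℕ) :
    (i - 1) :: l ∈ C n k i j r s y ↔ NA y (i - 1) ∧ l ∈ C n k (i - 1) j r s (i - 1) := by
  refine stepC h1 h2 h3 h4 h6 (fun v => by omega) (by omega) (fun l => ?_) l
  have e : range' (i - 1) (j - (i - 1)) = (i - 1) :: range' i (j - i) := by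
    rw [rc (by omega), show i - 1 + 1 = i by omega]
  rw [e]
  refine ⟨fun hr => ?_, .push1⟩
  rcases runx h1 h2 h3 h4 h5 (by omega) hr with hr | ⟨a, hr⟩
  · exact hr.2
  · obtain rfl : r = s := by omega
    simp only [Nat.sub_self, range'_zero] at hr ⊢
    exact hr.merge _ _ (i - 1) rfl (by rw [rc h2]; simp; omega) rfl

theorem stepH (h : j < r) (h' : r < s) (l : List ℕ) :
    (r - 1) :: l ∈ C n k i j r s y ↔ NA y (r - 1) ∧ l ∈ C n k i j (r - 1) s (r - 1) := by
  refine stepC h1 h2 h3 h4 h6 (fun v => by omega) (by omega) (fun l => ?_) l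
  have e : range' (r - 1) (s - (r - 1)) = (r - 1) :: range' r (s - r) := by
    rw [rc (by omega), show r - 1 + 1 = r by omega]
  rw [e]
  refine ⟨fun hr => ?_, .push2⟩
  rcases runx h1 h2 h3 h4 h5 (by omega) hr with hr | ⟨a, hr⟩
  · omega
  · exact hr
end

theorem stepN0 {n k i j y x : ℕ} (h1 : k < x) (h1' : x + 1 < i) (h2 : i < j) (h3 : j < n)
    (l : List ℕ) : x :: l ∈ C n k i j n n y ↔ NA y x ∧ l ∈ C n k x (x + 1) i j x := by
  refine stepC (by omega) h2 h3.le le_rfl (.inl h3) (fun v => by omega) (by omega) (fun l => ?_) l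
  simp only [Nat.sub_self, range'_zero, Nat.add_sub_cancel_left, range'_one]
  refine ⟨fun hr => ?_, fun hr => .push2 hr.symm⟩
  have := runx (l := l) (x := x) (show k < i by omega) h2 h3.le le_rfl le_rfl (by omega)
    (by simpa using hr)
  rcases this with hr | ⟨a, hr⟩
  · omega
  · simpa using hr.symm

theorem stepN1 {n k i j y x : ℕ} (h1 : k < i) (h2 : i < j) (h3 : j ≤ x) (h4 : x < n)
    (l : List ℕ) : x :: l ∈ C n k i j n n y ↔ NA y x ∧ l ∈ C n k i j x (x + 1) x := by
  refine stepC h1 h2 (by omega) le_rfl (.inl (by omega)) (fun v => by omega) (by omega)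
    (fun l => ?_) l
  simp only [Nat.sub_self, range'_zero, Nat.add_sub_cancel_left, range'_one]
  refine ⟨fun hr => ?_, fun hr => .push2 hr⟩
  have := runx (l := l) (x := x) h1 h2 (show j ≤ n by omega) le_rfl le_rfl (by omega)
    (by simpa using hr)
  rcases this with hr | ⟨a, hr⟩
  · omega
  · simpa using hr

theorem headT {n k i j r s y x : ℕ} {l : List ℕ} (h1 : k < i) (h2 : i < j) (h3 : j ≤ r)
    (h4 : r < s) (h5 : s ≤ n) (h : x :: l ∈ C n k i j r s y) :
    x = k ∨ (x = i - 1 ∧ k + 1 < i) ∨ (x = r - 1 ∧ j < r) := by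
  by_cases hx : x = k
  · exact .inl hx
  have hm := (h.2.1 x).1 (by simp)
  rcases runx h1 h2 h3 h4.le h5 hx h.2.2.1 with h | h <;> omega

theorem topC {n k s y : ℕ} (h : s < n) (l : List ℕ) : l ∉ C n k k s n n y := by
  rintro ⟨-, a, -, -, b⟩
  refine b l (suffix_refl _) (top_bad ?_ ?_ ?_)
  · rintro rfl; have := (a s).2 (by omega); simp at this
  · intro v hv; have := (a v).1 hv; omega
  · intro u hu v h1 h2; have := (a u).1 hu; exact (a v).2 (by omega)

theorem deadC {n j s : ℕ} (h4 : j < s) (h5 : s < n) (l : List ℕ) :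
    ∀ k i y, k < i → i < j → l ∉ C n k i j j s y := by
  induction l with
  | nil => intro k i y h1 h2 h; have := (h.2.1 k).2 (by omega); simp at this
  | cons x l ih =>
    intro k i y h1 h2 h
    rcases headT h1 h2 le_rfl h4 h5.le h with rfl | ⟨rfl, h'⟩ | h'
    · rcases (show x + 1 < i ∨ x + 1 = i by omega) with h' | h'
      · exact ih _ _ _ h' h2 ((stepL h1 h2 le_rfl h4.le h5.le (.inr h5) h' l).1 h).2
      · exact topC h5 l ((stepF h1 h2 le_rfl h4.le h5.le (.inr h5) h' l).1 h).2
    · exact ih _ _ _ (by omega) (by omega) ((stepM h1 h2 le_rfl h4.le h5.le (.inr h5) h' l).1 h).2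
    · omega

theorem finC {n k i j y : ℕ} (h1 : k < i) (h2 : i < j) (h3 : j ≤ n) (l : List ℕ) :
    l ∈ C n k i j j n y ↔ l = [k] ∧ i = k + 1 ∧ k ≠ 0 ∧ NA y k := by
  constructor
  · rintro ⟨a0, a, -, c, b⟩
    have hb := b l (suffix_refl _)
    have hc : Consec l := fun u hu z hz v g1 g2 => by
      have := (a u).1 hu; have := (a z).1 hz; exact (a v).2 (by omega)
    have hk := (a k).2 (by omega)
    match l, hk with
    | [x], hk =>
      obtain rfl : k = x := by simpa using hk
      refine ⟨rfl, ?_, ?_, by simpa using c⟩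
      · by_contra hne
        have := (a (k + 1)).2 (by omega); simp at this
      · rintro rfl; exact hb ⟨hc, by simp⟩
    | _ :: _ :: _, _ => exact (hb ⟨hc, by simp⟩).elim
  · rintro ⟨rfl, rfl, a, b⟩
    refine ⟨by simp, fun v => by simp; omega, ?_, by simpa using b, ?_⟩
    · rw [runk h1 h2 le_rfl h3 le_rfl]
      have := @run_pop [] (range' j (n - j)) (k + 1) (j - (k + 1) - 1) (n - j)
      rw [show j - (k + 1) - 1 + 1 = j - (k + 1) by omega,
        show j - (k + 1) + (n - j) = n - (k + 1) by omega,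
        show k + 1 + (j - (k + 1) - 1) + 1 = j by omega] at this
      rw [this]
      cases h : range' j (n - j) with
      | nil => exact .done
      | cons z t => simpa using Run.pop2 (x := z) (s2 := t) .done
    · intro t ht
      rcases suffix_cons_iff.1 ht with rfl | ht
      · rintro ⟨-, h⟩; simp at h; omega
      · obtain rfl : t = [] := by simpa using ht
        rintro ⟨-, h⟩; simp at h

theorem fin_nodup (n : ℕ) : {l : List ℕ | l.Nodup ∧ ∀ v ∈ l, v < n}.Finite := by
  refine (finite_toSet ((range n).sublists.flatMap permutations)).subset ?_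
  rintro l ⟨h1, h2⟩
  obtain ⟨l', a, b⟩ := subperm_of_subset h1 (show l ⊆ range n from fun v hv => by simpa using h2 v hv)
  simp only [Set.mem_setOf_eq, mem_flatMap, mem_sublists, mem_permutations]
  exact ⟨l', b, a.symm⟩

theorem card_split {S : Set (List ℕ)} (hS : S.Finite) (h0 : [] ∉ S) (X : Finset ℕ)
    (hX : ∀ x l, x :: l ∈ S → x ∈ X) : S.ncard = ∑ x ∈ X, {l | x :: l ∈ S}.ncard := by
  rw [Set.ncard_eq_toFinset_card S hS,
    Finset.card_eq_sum_card_fiberwise (f := List.headI) (t := X)]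
  · refine Finset.sum_congr rfl fun x _ => ?_
    rw [← Set.ncard_coe_finset, ← Set.ncard_image_of_injective {l | x :: l ∈ S} (cons_injective (a := x))]
    congr 1
    ext l
    cases l with
    | nil => simp [h0]
    | cons a l => simp; constructor <;> (rintro ⟨h, rfl⟩; exact ⟨h, rfl⟩)
  · intro l hl
    cases l with
    | nil => simp [h0] at hl
    | cons a l => exact hX a l (by simpa using hl)
end H8.Pp
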