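import Pool.Agent.H8.Pp3
namespace H8.Pp
open List
open scoped Classical

noncomputable def N (n k i j r s y : ℕ) : ℕ := (C n k i j r s y).ncard

theorem finiteC {n k i j r s y : ℕ} (h1 : i ≤ n) (h2 : r ≤ n) : (C n k i j r s y).Finite :=
  (fin_nodup n).subset fun l h => ⟨h.1, fun v hv => by have := (h.2.1 v).1 hv; omega⟩

theorem nc_ite {S T : Set (List ℕ)} {x : ℕ} {P : Prop} (h : ∀ l, x :: l ∈ S ↔ P ∧ l ∈ T) :
    {l | x :: l ∈ S}.ncard = if P then T.ncard else 0 := by
  split_ifs with hp
  · congr 1; ext l; simp [h, hp]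
  · rw [show {l | x :: l ∈ S} = ∅ by ext l; simp [h, hp]]; simp

theorem Ndead {n k i j s y : ℕ} (h1 : k < i) (h2 : i < j) (h4 : j < s) (h5 : s < n) :
    N n k i j j s y = 0 := by
  rw [N, show C n k i j j s y = ∅ from Set.eq_empty_of_forall_notMem fun l => deadC h4 h5 l k i y h1 h2]
  simp

theorem Nfin {n k i j y : ℕ} (h1 : k < i) (h2 : i < j) (h3 : j ≤ n) :
    N n k i j j n y = if i = k + 1 ∧ k ≠ 0 ∧ NA y k then 1 else 0 := by
  unfold N
  split_ifs with hp
  · rw [show C n k i j j n y = {[k]} by ext l; rw [finC h1 h2 h3]; simp; tauto]; simp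
  · rw [show C n k i j j n y = ∅ by ext l; rw [finC h1 h2 h3]; simp; tauto]; simp

theorem Ntop {n k s y : ℕ} (h : s < n) : N n k k s n n y = 0 := by
  rw [N, show C n k k s n n y = ∅ from Set.eq_empty_of_forall_notMem fun l => topC h l]; simp

theorem nilC {n k i j r s y : ℕ} (h1 : k < i) : [] ∉ C n k i j r s y := fun h => by
  have := (h.2.1 k).2 (by omega); simp at this

theorem recT1 {n k j r s y : ℕ} (h2 : k + 1 < j) (h3 : j < r) (h4 : r < s) (h5 : s ≤ n) :
    N n k (k + 1) j r s y = (if NA y k then N n j r s n n k else 0) +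
      (if NA y (r - 1) then N n k (k + 1) j (r - 1) s (r - 1) else 0) := by
  rw [N, card_split (finiteC (by omega) (by omega)) (nilC (by omega)) {k, r - 1}
    (fun x l h => by have := headT (by omega) h2 h3.le h4 h5 h; simp; omega),
    Finset.sum_pair (by omega),
    nc_ite (stepF (by omega) h2 h3.le h4.le h5 (.inl h3) rfl),
    nc_ite (stepH (by omega) h2 h3.le h4.le h5 (.inl h3) h3 h4)]
  rfl

theorem recT2 {n k i j r s y : ℕ} (h1 : k + 1 < i) (h2 : i < j) (h3 : j < r) (h4 : r < s)
    (h5 : s ≤ n) :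
    N n k i j r s y = (if NA y k then N n (k + 1) i j r s k else 0) +
      ((if NA y (i - 1) then N n k (i - 1) j r s (i - 1) else 0) +
      (if NA y (r - 1) then N n k i j (r - 1) s (r - 1) else 0)) := by
  rw [N, card_split (finiteC (by omega) (by omega)) (nilC (by omega)) {k, i - 1, r - 1}
    (fun x l h => by have := headT (by omega) h2 h3.le h4 h5 h; simp; omega),
    Finset.sum_insert (by simp; omega), Finset.sum_pair (by omega),
    nc_ite (stepL (by omega) h2 h3.le h4.le h5 (.inl h3) h1),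
    nc_ite (stepM (by omega) h2 h3.le h4.le h5 (.inl h3) h1),
    nc_ite (stepH (by omega) h2 h3.le h4.le h5 (.inl h3) h3 h4)]
  rfl

theorem recO0 {n k i j y : ℕ} (h1 : k < i) (h2 : i < j) (h3 : j < n) :
    N n k i j n n y = ∑ x ∈ Finset.range (i - k), {l | (k + x) :: l ∈ C n k i j n n y}.ncard +
      ∑ x ∈ Finset.range (n - j), (if NA y (j + x) then N n k i j (j + x) (j + x + 1) (j + x) else 0) := by
  rw [N, card_split (finiteC (by omega) (by omega)) (nilC (by omega))
    (Finset.Ico k i ∪ Finset.Ico j n)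
    (fun x l h => by have := (h.2.1 x).1 (by simp); simp; omega),
    Finset.sum_union (by rw [Finset.disjoint_left]; intro a; simp; omega),
    Finset.sum_Ico_eq_sum_range, Finset.sum_Ico_eq_sum_range]
  congr 1
  refine Finset.sum_congr rfl fun x hx => ?_
  rw [nc_ite (stepN1 h1 h2 (by omega) (by simp at hx; omega))]; rfl

theorem recO1 {n k j y : ℕ} (h2 : k + 1 < j) (h3 : j < n) :
    N n k (k + 1) j n n y =
      ∑ x ∈ Finset.range (n - j), (if NA y (j + x) then N n k (k + 1) j (j + x) (j + x + 1) (j + x) else 0) := by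
  rw [recO0 (by omega) h2 h3, Nat.add_sub_cancel_left, Finset.sum_range_one, Nat.add_zero k,
    nc_ite (stepF (by omega) h2 h3.le le_rfl le_rfl (.inl h3) rfl)]
  have : (C n j n n n n k).ncard = 0 := by
    rw [show C n j n n n n k = ∅ from Set.eq_empty_of_forall_notMem fun l => ?_]; simp
    rintro ⟨-, a, -, -, b⟩
    refine b l (suffix_refl _) (top_bad ?_ ?_ ?_)
    · rintro rfl; have := (a j).2 (by omega); simp at this
    · intro v hv; have := (a v).1 hv; omega
    · intro u hu v h1 h2; have := (a u).1 hu; exact (a v).2 (by omega)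
  simp [this]

theorem recO2 {n k a j y : ℕ} (h2 : k + a + 2 < j) (h3 : j < n) :
    N n k (k + a + 2) j n n y = (if NA y k then N n (k + 1) (k + a + 2) j n n k else 0) +
      (if NA y (k + a + 1) then N n k (k + a + 1) j n n (k + a + 1) else 0) +
      ∑ x ∈ Finset.range a, (if NA y (k + x + 1) then
        N n k (k + x + 1) (k + x + 2) (k + a + 2) j (k + x + 1) else 0) +
      ∑ x ∈ Finset.range (n - j), (if NA y (j + x) then
        N n k (k + a + 2) j (j + x) (j + x + 1) (j + x) else 0) := by
  rw [recO0 (by omega) h2 h3, show k + a + 2 - k = a + 1 + 1 by omega, Finset.sum_range_succ,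
    Finset.sum_range_succ', Nat.add_zero k,
    nc_ite (stepL (by omega) h2 h3.le le_rfl le_rfl (.inl h3) (by omega))]
  have := nc_ite (stepM (y := y) (show k < k + a + 2 by omega) h2 h3.le le_rfl le_rfl (.inl h3) (by omega))
  rw [show k + a + 2 - 1 = k + (a + 1) by omega] at this
  rw [this]
  have e : ∑ x ∈ Finset.range a, {l | (k + (x + 1)) :: l ∈ C n k (k + a + 2) j n n y}.ncard =
      ∑ x ∈ Finset.range a, (if NA y (k + x + 1) then
        N n k (k + x + 1) (k + x + 2) (k + a + 2) j (k + x + 1) else 0) := by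
    refine Finset.sum_congr rfl fun x hx => ?_
    rw [nc_ite (stepN0 (by omega) (by simp at hx; omega) h2 h3)]; rfl
  rw [e]
  simp only [N, ← add_assoc]
  omega
end H8.Pp
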