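import Pool.Agent.H8.Pp4
namespace H8.Pp
open Finset
open scoped Classical

noncomputable def SO (n k p : ℕ) (y : ℕ → ℕ) (m : ℕ) : ℕ :=
  ∑ a ∈ range (m + 1), N n k (k + a + 1) (k + a + 1 + p) n n (y a)
noncomputable def S0 (n k p r : ℕ) (y : ℕ → ℕ) (m : ℕ) : ℕ :=
  ∑ a ∈ range (m + 1), N n k (k + a + 1) (k + a + 1 + p) r n (y a)
noncomputable def S1 (n k p q : ℕ) (y : ℕ → ℕ → ℕ) (m : ℕ) : ℕ :=
  ∑ a ∈ range m, ∑ b ∈ range (m - a),
    N n k (k + a + 1) (k + a + 1 + p) (k + a + 1 + p + b + 1) (k + a + 1 + p + b + 1 + q) (y a b)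

theorem Ncongr {n k i j r s y k' i' j' r' s' y' : ℕ} (h1 : k = k') (h2 : i = i') (h3 : j = j')
    (h4 : r = r') (h5 : s = s') (h6 : y = y') : N n k i j r s y = N n k' i' j' r' s' y' := by
  subst_vars; rfl

theorem sum_if {α : Type} {s : Finset α} {c : Prop} {P : α → Prop} {f g : α → ℕ}
    (hP : ∀ a ∈ s, P a ↔ c) (h : ∀ a ∈ s, f a = g a) :
    ∑ a ∈ s, (if P a then f a else 0) = if c then ∑ a ∈ s, g a else 0 := by
  split_ifs with hc
  · exact sum_congr rfl fun a ha => by rw [if_pos ((hP a ha).2 hc), h a ha]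
  · exact sum_eq_zero fun a ha => by rw [if_neg (fun x => hc ((hP a ha).1 x))]

theorem sum_if2 {m : ℕ} {c : Prop} {P : ℕ → ℕ → Prop} {f g : ℕ → ℕ → ℕ}
    (hP : ∀ a b, P a b ↔ c) (h : ∀ a b, f a b = g a b) :
    ∑ a ∈ range m, ∑ b ∈ range (m - a), (if P a b then f a b else 0) =
      if c then ∑ a ∈ range m, ∑ b ∈ range (m - a), g a b else 0 := by
  split_ifs with hc
  · exact sum_congr rfl fun a _ => sum_congr rfl fun b _ => by rw [if_pos ((hP a b).2 hc), h a b]
  · exact sum_eq_zero fun a _ => sum_eq_zero fun b _ => by rw [if_neg (fun x => hc ((hP a b).1 x))]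

theorem S1rec {n k p q m : ℕ} {y : ℕ → ℕ → ℕ} {cF cL cM cH : Prop} (hp : 1 ≤ p) (hq : 1 ≤ q)
    (hn : n = k + p + q + m + 3) (hF : ∀ b, NA (y 0 b) k ↔ cF) (hL : ∀ a b, NA (y (a + 1) b) k ↔ cL)
    (hM : ∀ a b, NA (y (a + 1) b) (k + a + 1) ↔ cM)
    (hH : ∀ a b, NA (y a (b + 1)) (k + a + 1 + p + (b + 1)) ↔ cH) :
    S1 n k p q y (m + 1) = (if cF then SO n (k + 1 + p) q (fun _ => k) m else 0) +
      (if cL then S1 n (k + 1) p q (fun _ _ => k) m else 0) +
      (if cM then S1 n k (p + 1) q (fun a _ => k + a + 1) m else 0) +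
      (if cH then S1 n k p (q + 1) (fun a b => k + a + 1 + p + b + 1) m else 0) := by
  set Hh : ℕ → ℕ → ℕ := fun a b => if NA (y a b) (k + a + 1 + p + b) then
    N n k (k + a + 1) (k + a + 1 + p) (k + a + 1 + p + b) (k + a + 1 + p + b + 1 + q)
      (k + a + 1 + p + b) else 0 with hHh
  have eH : ∑ a ∈ range (m + 1), ∑ b ∈ range (m + 1 - a), Hh a b =
      (if cH then S1 n k p (q + 1) (fun a b => k + a + 1 + p + b + 1) m else 0) := by
    have z : ∀ a, a ≤ m → Hh a 0 = 0 := fun a ha => by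
      simp only [hHh, Nat.add_zero]
      rw [Ndead (by omega) (by omega) (by omega) (by omega)]; simp
    rw [sum_range_succ, show m + 1 - m = 1 by omega, sum_range_one, z m le_rfl, Nat.add_zero,
      S1, ← sum_if2 (P := fun a b => NA (y a (b + 1)) (k + a + 1 + p + (b + 1)))
        (f := fun a b => N n k (k + a + 1) (k + a + 1 + p) (k + a + 1 + p + (b + 1))
          (k + a + 1 + p + (b + 1) + 1 + q) (k + a + 1 + p + (b + 1))) hH (fun a b => by (apply Ncongr <;> omega))]
    refine sum_congr rfl fun a ha => ?_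
    simp only [mem_range] at ha
    rw [show m + 1 - a = m - a + 1 by omega, sum_range_succ', z a ha.le, Nat.add_zero]
  rw [← eH, S1, sum_range_succ', sum_range_succ' (fun a => ∑ b ∈ range (m + 1 - a), Hh a b)]
  have e0 : ∑ b ∈ range (m + 1 - 0), N n k (k + 0 + 1) (k + 0 + 1 + p) (k + 0 + 1 + p + b + 1)
      (k + 0 + 1 + p + b + 1 + q) (y 0 b) = (if cF then SO n (k + 1 + p) q (fun _ => k) m else 0) +
        ∑ b ∈ range (m + 1 - 0), Hh 0 b := by
    rw [SO, ← sum_if (P := fun b => NA (y 0 b) k) (fun b _ => hF b) (fun b _ => rfl), Nat.sub_zero,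
      ← sum_add_distrib]
    refine sum_congr rfl fun b hb => ?_
    simp only [mem_range] at hb
    exact recT1 (by omega) (by omega) (by omega) (by omega)
  have e1 : ∑ a ∈ range m, ∑ b ∈ range (m + 1 - (a + 1)), N n k (k + (a + 1) + 1)
      (k + (a + 1) + 1 + p) (k + (a + 1) + 1 + p + b + 1) (k + (a + 1) + 1 + p + b + 1 + q)
      (y (a + 1) b) = (if cL then S1 n (k + 1) p q (fun _ _ => k) m else 0) +
      ((if cM then S1 n k (p + 1) q (fun a _ => k + a + 1) m else 0) +
        ∑ a ∈ range m, ∑ b ∈ range (m + 1 - (a + 1)), Hh (a + 1) b) := by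
    rw [S1, S1, ← sum_if2 (P := fun a b => NA (y (a + 1) b) k) hL (fun a b => rfl),
      ← sum_if2 (P := fun a b => NA (y (a + 1) b) (k + a + 1)) hM (fun a b => rfl),
      ← sum_add_distrib, ← sum_add_distrib]
    refine sum_congr rfl fun a ha => ?_
    rw [show m + 1 - (a + 1) = m - a by omega, ← sum_add_distrib, ← sum_add_distrib]
    refine sum_congr rfl fun b hb => ?_
    simp only [mem_range] at ha hb
    rw [recT2 (by omega) (by omega) (by omega) (by omega) (by omega)]
    congr 1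
    · split_ifs
      · (apply Ncongr <;> omega)
      · rfl
    · congr 1
      show (if NA (y (a + 1) b) (k + a + 1) then _ else _) = _
      split_ifs
      · (apply Ncongr <;> omega)
      · rfl
  rw [e0, e1]; omega

theorem S0rec {n k p r m : ℕ} {y : ℕ → ℕ} {cL cM cH : Prop} (hp : 1 ≤ p) (hn : r + 1 < n)
    (hr : r = k + p + m + 2) (hL : ∀ a, NA (y (a + 1)) k ↔ cL)
    (hM : ∀ a, a ≤ m → (NA (y (a + 1)) (k + a + 1) ↔ cM))
    (hH : ∀ a, a ≤ m → (NA (y a) r ↔ cH)) :
    S0 n k p (r + 1) y (m + 1) =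
      (if cL then S0 n (k + 1) p (r + 1) (fun _ => k) m else 0) +
      (if cM then S0 n k (p + 1) (r + 1) (fun a => k + a + 1) m else 0) +
      (if cH then S0 n k p r (fun _ => r) m else 0) := by
  set Hh : ℕ → ℕ := fun a => if NA (y a) r then
    N n k (k + a + 1) (k + a + 1 + p) r n r else 0 with hHh
  have eH : ∑ a ∈ range (m + 1 + 1), Hh a = (if cH then S0 n k p r (fun _ => r) m else 0) := by
    have z : Hh (m + 1) = 0 := by
      simp only [hHh]
      rw [show k + (m + 1) + 1 + p = r by omega, Nfin (by omega) (by omega) (by omega)]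
      simp
    rw [sum_range_succ, z, Nat.add_zero, S0]
    exact sum_if (fun a ha => hH a (by simp at ha; omega)) (fun a _ => rfl)
  rw [← eH, S0, sum_range_succ', sum_range_succ' Hh]
  have e0 : N n k (k + 0 + 1) (k + 0 + 1 + p) (r + 1) n (y 0) = Hh 0 := by
    refine (recT1 (by omega) (by omega) (by omega) (by omega)).trans ?_
    rw [Nfin (by omega) (by omega) (by omega), if_neg (show ¬ (r + 1 = k + 0 + 1 + p + 1 ∧ _) by omega)]
    simp [hHh]
  have e1 : ∑ a ∈ range (m + 1), N n k (k + (a + 1) + 1) (k + (a + 1) + 1 + p) (r + 1) n (y (a + 1)) =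
      (if cL then S0 n (k + 1) p (r + 1) (fun _ => k) m else 0) +
      ((if cM then S0 n k (p + 1) (r + 1) (fun a => k + a + 1) m else 0) +
        ∑ a ∈ range (m + 1), Hh (a + 1)) := by
    rw [S0, S0, ← sum_if (P := fun a => NA (y (a + 1)) k) (fun a _ => hL a) (fun a _ => rfl),
      ← sum_if (P := fun a => NA (y (a + 1)) (k + a + 1))
        (fun a ha => hM a (by simp at ha; omega)) (fun a _ => rfl),
      ← sum_add_distrib, ← sum_add_distrib]
    refine sum_congr rfl fun a ha => ?_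
    simp only [mem_range] at ha
    rw [recT2 (by omega) (by omega) (by omega) (by omega) (by omega)]
    congr 1
    · split_ifs
      · (apply Ncongr <;> omega)
      · rfl
    · congr 1
      show (if NA (y (a + 1)) (k + a + 1) then _ else _) = _
      split_ifs
      · (apply Ncongr <;> omega)
      · rfl
  rw [e0, e1]; omega

theorem S0base {n k p r : ℕ} {y : ℕ → ℕ} (hp : 1 ≤ p) (hn : r + 1 < n) (hr : r = k + p + 1) :
    S0 n k p (r + 1) y 0 = (if NA (y 0) k then 1 else 0) +
      (if NA (y 0) r ∧ k ≠ 0 then 1 else 0) := by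
  rw [S0, sum_range_one, show k + 0 + 1 + p = r by omega]
  refine (recT1 (by omega) (by omega) (by omega) (by omega)).trans ?_
  rw [Nfin (by omega) (by omega) (by omega), Nat.add_sub_cancel, Nfin (by omega) (by omega) (by omega)]
  have h1 : NA k r := by unfold NA; omega
  have h2 : NA r k := by unfold NA; omega
  have h3 : r ≠ 0 := by omega
  simp [h1, h2, h3, ite_and]

theorem SObase {n k p : ℕ} {y : ℕ → ℕ} (hp : 1 ≤ p) (hn : n = k + p + 2) :
    SO n k p y 0 = (if NA (y 0) (k + 1 + p) ∧ k ≠ 0 then 1 else 0) := by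
  rw [SO, sum_range_one]
  refine (recO1 (by omega) (by omega)).trans ?_
  rw [show n - (k + 0 + 1 + p) = 1 by omega, sum_range_one, Nat.add_zero, Nat.add_zero,
    show k + 1 + p + 1 = n by omega, Nfin (by omega) (by omega) (by omega)]
  have h2 : NA (k + 1 + p) k := by unfold NA; omega
  simp [h2, ite_and]

theorem SOrec {n k p m : ℕ} {y : ℕ → ℕ} {cL cM : Prop} (hp : 1 ≤ p)
    (hn : n = k + p + m + 3) (hL : ∀ a, NA (y (a + 1)) k ↔ cL)
    (hM : ∀ a, NA (y (a + 1)) (k + a + 1) ↔ cM)
    (h0 : ∀ a x, x < a → NA (y (a + 1)) (k + x + 1))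
    (h1 : ∀ a x, NA (y a) (k + a + 1 + p + (x + 1))) :
    SO n k p y (m + 1) =
      (if cL then SO n (k + 1) p (fun _ => k) m else 0) +
      (if cM then SO n k (p + 1) (fun a => k + a + 1) m else 0) +
      S1 n k 1 p (fun a _ => k + a + 1) m +
      (S0 n k p (n - 1) (fun _ => n - 1) m + S1 n k p 1 (fun a b => k + a + 1 + p + b + 1) m) := by
  set Hh : ℕ → ℕ := fun a => ∑ x ∈ range (n - (k + a + 1 + p)),
    (if NA (y a) (k + a + 1 + p + x) then N n k (k + a + 1) (k + a + 1 + p) (k + a + 1 + p + x)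
      (k + a + 1 + p + x + 1) (k + a + 1 + p + x) else 0) with hHh
  have eH : ∑ a ∈ range (m + 1 + 1), Hh a =
      S0 n k p (n - 1) (fun _ => n - 1) m + S1 n k p 1 (fun a b => k + a + 1 + p + b + 1) m := by
    have z : Hh (m + 1) = 0 := by
      simp only [hHh]
      rw [show n - (k + (m + 1) + 1 + p) = 1 by omega, sum_range_one,
        Nat.add_zero (k + (m + 1) + 1 + p), show k + (m + 1) + 1 + p + 1 = n by omega, Nfin (by omega) (by omega) (by omega)]
      simp
    have e : S1 n k p 1 (fun a b => k + a + 1 + p + b + 1) m = ∑ a ∈ range (m + 1),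
        ∑ b ∈ range (m - a), N n k (k + a + 1) (k + a + 1 + p) (k + a + 1 + p + b + 1)
          (k + a + 1 + p + b + 1 + 1) (k + a + 1 + p + b + 1) := by
      rw [sum_range_succ, Nat.sub_self, sum_range_zero]; rfl
    rw [sum_range_succ, z, Nat.add_zero, S0, e, ← sum_add_distrib]
    refine sum_congr rfl fun a ha => ?_
    simp only [mem_range] at ha
    simp only [hHh]
    rw [show n - (k + a + 1 + p) = m - a + 1 + 1 by omega, sum_range_succ', sum_range_succ,
      Nat.add_zero (k + a + 1 + p), Ndead (by omega) (by omega) (by omega) (by omega),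
      if_pos (h1 _ _), ite_self, add_zero, add_comm]
    congr 1
    · (apply Ncongr <;> omega)
    · exact sum_congr rfl fun x _ => by rw [if_pos (h1 _ _)]; rfl
  have eA : ∑ a ∈ range (m + 1), ∑ x ∈ range a, (if NA (y (a + 1)) (k + x + 1) then
        N n k (k + x + 1) (k + x + 2) (k + a + 2) (k + (a + 1) + 1 + p) (k + x + 1) else 0) =
      S1 n k 1 p (fun a _ => k + a + 1) m := by
    rw [sum_range_succ', sum_range_zero, Nat.add_zero, S1, ← sum_range_diag_flip]
    refine sum_congr rfl fun a _ => sum_congr rfl fun x hx => ?_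
    simp only [mem_range] at hx
    rw [if_pos (h0 _ _ hx)]; (apply Ncongr <;> omega)
  rw [← eH, ← eA, SO, sum_range_succ', sum_range_succ' Hh]
  have e0 : N n k (k + 0 + 1) (k + 0 + 1 + p) n n (y 0) = Hh 0 := recO1 (by omega) (by omega)
  rw [e0, SO, SO, ← sum_if (P := fun a => NA (y (a + 1)) k) (fun a _ => hL a) (fun a _ => rfl),
      ← sum_if (P := fun a => NA (y (a + 1)) (k + a + 1)) (fun a _ => hM a) (fun a _ => rfl),
      ← add_assoc, ← sum_add_distrib, ← sum_add_distrib, ← sum_add_distrib]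
  congr 1
  refine sum_congr rfl fun a ha => ?_
  simp only [mem_range] at ha
  refine (recO2 (a := a) (by omega) (by omega)).trans ?_
  congr 3
  · split_ifs
    · (apply Ncongr <;> omega)
    · rfl
  · split_ifs
    · (apply Ncongr <;> omega)
    · rfl
end H8.Pp
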