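import Pool.Agent.H8.Pp5
namespace H8.Pp
open Finset Nat
open scoped Classical

theorem S0all (m : ℕ) : ∀ n k p r, r + 1 < n → 1 ≤ p →
    (r = k + 1 + p + m + 1 → S0 n (k + 1) p (r + 1) (fun _ => k) m = 2 ^ m) ∧
    (2 ≤ p → r = k + p + m + 1 → S0 n k p (r + 1) (fun a => k + a + 1) m +
      (if k = 0 ∧ m % 2 = 0 then 1 else 0) = 2 ^ m) ∧
    (r = k + p + m + 1 → S0 n k p (r + 1) (fun _ => r + 1) m +
      (if k = 0 ∧ m % 2 = 1 then 1 else 0) = 2 ^ m) := by
  induction m with
  | zero =>
    intro n k p r hn hp
    refine ⟨fun hr => ?_, fun hp' hr => ?_, fun hr => ?_⟩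
    · rw [S0base hp hn (by omega)]; simp only [NA]; split_ifs <;> (first | omega | (simp only [false_and, true_and, and_true, not_true, not_false_iff, and_false] at *; omega) | (simp_all; done) | (simp_all; omega))
    · rw [S0base hp hn (by omega)]; simp only [NA]; split_ifs <;> (first | omega | (simp only [false_and, true_and, and_true, not_true, not_false_iff, and_false] at *; omega) | (simp_all; done) | (simp_all; omega))
    · rw [S0base hp hn (by omega)]; simp only [NA]; split_ifs <;> (first | omega | (simp only [false_and, true_and, and_true, not_true, not_false_iff, and_false] at *; omega) | (simp_all; done) | (simp_all; omega))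
  | succ m ih =>
    intro n k p r hn hp
    refine ⟨fun hr => ?_, fun hp' hr => ?_, fun hr => ?_⟩
    · rw [S0rec (cL := False) (cM := True) (cH := True) hp hn (by omega) (by intros; simp only [NA, iff_true, iff_false]; omega) (by intros; simp only [NA, iff_true, iff_false]; omega) (by intros; simp only [NA, iff_true, iff_false]; omega)]
      obtain ⟨r, rfl⟩ : ∃ r', r = r' + 1 := ⟨r - 1, by omega⟩
      have a1 := (ih n (k + 1) (p + 1) (r + 1) hn (by omega)).2.1 (by omega) (by omega)
      have a2 := (ih n (k + 1) p r (by omega) hp).2.2 (by omega)
      simp only [if_true, if_false, pow_succ] at *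
      split_ifs at * <;> (first | omega | (simp only [false_and, true_and, and_true, not_true, not_false_iff, and_false] at *; omega) | (simp_all; done) | (simp_all; omega))
    · rw [S0rec (cL := True) (cM := False) (cH := True) hp hn (by omega) (by intros; simp only [NA, iff_true, iff_false]; omega) (by intros; simp only [NA, iff_true, iff_false]; omega) (by intros; simp only [NA, iff_true, iff_false]; omega)]
      obtain ⟨r, rfl⟩ : ∃ r', r = r' + 1 := ⟨r - 1, by omega⟩
      have a1 := (ih n k p (r + 1) hn hp).1 (by omega)
      have a2 := (ih n k p r (by omega) hp).2.2 (by omega)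
      simp only [if_true, if_false, pow_succ] at *
      split_ifs at * <;> (first | omega | (simp only [false_and, true_and, and_true, not_true, not_false_iff, and_false] at *; omega) | (simp_all; done) | (simp_all; omega))
    · rw [S0rec (cL := True) (cM := True) (cH := False) hp hn (by omega) (by intros; simp only [NA, iff_true, iff_false]; omega) (by intros; simp only [NA, iff_true, iff_false]; omega) (by intros; simp only [NA, iff_true, iff_false]; omega)]
      have a1 := (ih n k p r hn hp).1 (by omega)
      have a2 := (ih n k (p + 1) r hn (by omega)).2.1 (by omega) (by omega)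
      simp only [if_true, if_false, pow_succ] at *
      split_ifs at * <;> (first | omega | (simp only [false_and, true_and, and_true, not_true, not_false_iff, and_false] at *; omega) | (simp_all; done) | (simp_all; omega))

theorem Sall (m : ℕ) :
    (∀ n k p q, 1 ≤ p → 1 ≤ q →
      (n = k + 1 + p + q + m + 2 → 2 * S1 n (k + 1) p q (fun _ _ => k) m + 2 ^ m =
        2 * fib (2 * m) + (if m = 0 then 1 else 0)) ∧
      (n = k + p + q + m + 2 → 2 * S1 n k p q (fun a _ => k + a + 1) m + 2 ^ m =
        2 * fib (2 * m) + (if m = 0 then 1 else 0)) ∧
      (n = k + p + q + m + 2 → 2 * S1 n k p q (fun a b => k + a + 1 + p + b + 1) m + 2 ^ m +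
        (if m = 0 then 1 else 0) = 2 * fib (2 * m + 1))) ∧
    (∀ n k p, 1 ≤ p →
      (n = k + 1 + p + m + 2 → SO n (k + 1) p (fun _ => k) m = fib (2 * m + 1)) ∧
      ((2 ≤ p ∨ k = 0) → n = k + p + m + 2 → SO n k p (fun a => k + a + 1) m +
        (if k = 0 ∧ m % 2 = 0 then 1 else 0) = fib (2 * m + 1)) ∧
      (∀ y, y + 1 < k → n = k + p + m + 2 → SO n k p (fun _ => y) m + fib (2 * m) +
        (if m = 0 then 1 else 0) = 2 * fib (2 * m + 1))) := by
  induction m with
  | zero =>
    refine ⟨fun n k p q hp hq => ⟨fun _ => by simp [S1], fun _ => by simp [S1],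
      fun _ => by simp [S1]⟩, fun n k p hp => ⟨fun hn => ?_, fun h hn => ?_, fun y hy hn => ?_⟩⟩
    · rw [SObase hp (by omega)]; simp only [NA, Nat.mul_zero, Nat.zero_add, fib_one]
      split_ifs <;> (first | omega | (simp only [false_and, true_and, and_true, not_true, not_false_iff, and_false] at *; omega) | (simp_all; done) | (simp_all; omega))
    · rw [SObase hp (by omega)]; simp only [NA, Nat.mul_zero, Nat.zero_add, fib_one]
      split_ifs <;> (first | omega | (simp only [false_and, true_and, and_true, not_true, not_false_iff, and_false] at *; omega) | (simp_all; done) | (simp_all; omega))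
    · rw [SObase hp (by omega)]; simp only [NA, Nat.mul_zero, Nat.zero_add, fib_one, fib_zero]
      split_ifs <;> (first | omega | (simp only [false_and, true_and, and_true, not_true, not_false_iff, and_false] at *; omega) | (simp_all; done) | (simp_all; omega))
  | succ m ih =>
    obtain ⟨i1, i2⟩ := ih
    have f1 : fib (2 * (m + 1)) = fib (2 * m) + fib (2 * m + 1) := by
      rw [show 2 * (m + 1) = 2 * m + 2 by ring, fib_add_two]
    have f2 : fib (2 * (m + 1) + 1) = fib (2 * m + 1) + fib (2 * (m + 1)) := by
      rw [show 2 * (m + 1) + 1 = (2 * m + 1) + 2 by ring, fib_add_two]; rfl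
    refine ⟨fun n k p q hp hq => ⟨fun hn => ?_, fun hn => ?_, fun hn => ?_⟩,
      fun n k p hp => ⟨fun hn => ?_, fun h hn => ?_, fun y hy hn => ?_⟩⟩
    · rw [S1rec (cF := False) (cL := False) (cM := True) (cH := True) hp hq (by omega) (by intros; simp only [NA, iff_true, iff_false]; omega)
        (by intros; simp only [NA, iff_true, iff_false]; omega) (by intros; simp only [NA, iff_true, iff_false]; omega) (by intros; simp only [NA, iff_true, iff_false]; omega)]
      have a1 := (i1 n (k + 1) (p + 1) q (by omega) hq).2.1 (by omega)
      have a2 := (i1 n (k + 1) p (q + 1) hp (by omega)).2.2 (by omega)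
      simp only [if_true, if_false, pow_succ] at *
      split_ifs at * <;> (first | omega | (simp only [false_and, true_and, and_true, not_true, not_false_iff, and_false] at *; omega) | (simp_all; done) | (simp_all; omega))
    · rw [S1rec (cF := False) (cL := True) (cM := False) (cH := True) hp hq (by omega) (by intros; simp only [NA, iff_true, iff_false]; omega)
        (by intros; simp only [NA, iff_true, iff_false]; omega) (by intros; simp only [NA, iff_true, iff_false]; omega) (by intros; simp only [NA, iff_true, iff_false]; omega)]
      have a1 := (i1 n k p q hp hq).1 (by omega)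
      have a2 := (i1 n k p (q + 1) hp (by omega)).2.2 (by omega)
      simp only [if_true, if_false, pow_succ] at *
      split_ifs at * <;> (first | omega | (simp only [false_and, true_and, and_true, not_true, not_false_iff, and_false] at *; omega) | (simp_all; done) | (simp_all; omega))
    · rw [S1rec (cF := True) (cL := True) (cM := True) (cH := False) hp hq (by omega) (by intros; simp only [NA, iff_true, iff_false]; omega)
        (by intros; simp only [NA, iff_true, iff_false]; omega) (by intros; simp only [NA, iff_true, iff_false]; omega) (by intros; simp only [NA, iff_true, iff_false]; omega)]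
      have a1 := (i1 n k p q hp hq).1 (by omega)
      have a2 := (i1 n k (p + 1) q (by omega) hq).2.1 (by omega)
      have a3 := (i2 n (k + 1 + p) q hq).2.2 k (by omega) (by omega)
      simp only [if_true, if_false, pow_succ] at *
      split_ifs at * <;> (first | omega | (simp only [false_and, true_and, and_true, not_true, not_false_iff, and_false] at *; omega) | (simp_all; done) | (simp_all; omega))
    · rw [SOrec (cL := False) (cM := True) hp (by omega) (by intros; simp only [NA, iff_true, iff_false]; omega) (by intros; simp only [NA, iff_true, iff_false]; omega) (by intros; simp only [NA, iff_true, iff_false]; omega) (by intros; simp only [NA, iff_true, iff_false]; omega)]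
      obtain ⟨n, rfl⟩ : ∃ n', n = n' + 2 := ⟨n - 2, by omega⟩
      have a1 := (i2 (n + 2) (k + 1) (p + 1) (by omega)).2.1 (by omega) (by omega)
      have a2 := (i1 (n + 2) (k + 1) 1 p le_rfl hp).2.1 (by omega)
      have a3 := (i1 (n + 2) (k + 1) p 1 hp le_rfl).2.2 (by omega)
      have a4 := (S0all m (n + 2) (k + 1) p n (by omega) hp).2.2 (by omega)
      simp only [if_true, if_false, show n + 2 - 1 = n + 1 from rfl] at *
      split_ifs at * <;> (first | omega | (simp only [false_and, true_and, and_true, not_true, not_false_iff, and_false] at *; omega) | (simp_all; done) | (simp_all; omega))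
    · rw [SOrec (cL := True) (cM := False) hp (by omega) (by intros; simp only [NA, iff_true, iff_false]; omega) (by intros; simp only [NA, iff_true, iff_false]; omega) (by intros; simp only [NA, iff_true, iff_false]; omega) (by intros; simp only [NA, iff_true, iff_false]; omega)]
      obtain ⟨n, rfl⟩ : ∃ n', n = n' + 2 := ⟨n - 2, by omega⟩
      have a1 := (i2 (n + 2) k p hp).1 (by omega)
      have a2 := (i1 (n + 2) k 1 p le_rfl hp).2.1 (by omega)
      have a3 := (i1 (n + 2) k p 1 hp le_rfl).2.2 (by omega)
      have a4 := (S0all m (n + 2) k p n (by omega) hp).2.2 (by omega)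
      simp only [if_true, if_false, show n + 2 - 1 = n + 1 from rfl] at *
      split_ifs at * <;> (first | omega | (simp only [false_and, true_and, and_true, not_true, not_false_iff, and_false] at *; omega) | (simp_all; done) | (simp_all; omega))
    · rw [SOrec (cL := True) (cM := True) hp (by omega) (by intros; simp only [NA, iff_true, iff_false]; omega) (by intros; simp only [NA, iff_true, iff_false]; omega) (by intros; simp only [NA, iff_true, iff_false]; omega) (by intros; simp only [NA, iff_true, iff_false]; omega)]
      obtain ⟨n, rfl⟩ : ∃ n', n = n' + 2 := ⟨n - 2, by omega⟩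
      have a0 := (i2 (n + 2) k p hp).1 (by omega)
      have a1 := (i2 (n + 2) k (p + 1) (by omega)).2.1 (by omega) (by omega)
      have a2 := (i1 (n + 2) k 1 p le_rfl hp).2.1 (by omega)
      have a3 := (i1 (n + 2) k p 1 hp le_rfl).2.2 (by omega)
      have a4 := (S0all m (n + 2) k p n (by omega) hp).2.2 (by omega)
      simp only [if_true, if_false, show n + 2 - 1 = n + 1 from rfl] at *
      split_ifs at * <;> (first | omega | (simp only [false_and, true_and, and_true, not_true, not_false_iff, and_false] at *; omega) | (simp_all; done) | (simp_all; omega))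
end H8.Pp
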