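import Pool.Agent.H8.Pp6
namespace H8.Pp
open List
open scoped Classical

theorem run_first {l : List ℕ} {x n : ℕ} (hx : 0 < x) (hn : x < n) :
    Run (x :: l) [] [] (range n) ↔ Run l [x] [] (range' 0 n) := by
  rw [range_eq_range']
  refine ⟨fun h => ?_, .push1⟩
  obtain ⟨n, rfl⟩ : ∃ n', n = n' + 1 := ⟨n - 1, by omega⟩
  rw [range'_succ] at h ⊢
  rcases run_inv h (by simp) (by simp) with h | h | h
  · omega
  · exact h
  · exact h.symm

theorem mem_iff {n x : ℕ} (h3 : 3 ≤ n) (hx : 0 < x) (hn : x + 1 < n) (l : List ℕ) :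
    x :: l ∈ {π : List ℕ | π.Perm (range n) ∧ Sortable π ∧ Simple π} ↔
      True ∧ l ∈ C n 0 x (x + 1) n n x := by
  simp only [C, Set.mem_setOf_eq, true_and, Nat.sub_self, range'_zero, Nat.add_sub_cancel_left,
    range'_one, Nat.sub_zero]
  constructor
  · rintro ⟨hp, hs, hsim⟩
    have hl : (x :: l).length = n := by simpa using hp.length_eq
    have hnd : (x :: l).Nodup := hp.nodup_iff.2 nodup_range
    have hm : ∀ v, v ∈ x :: l ↔ v < n := fun v => by rw [hp.mem_iff]; simp
    obtain ⟨a, b⟩ := local_of hp h3 hsim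
    rw [Sortable, hl, run_first hx (by omega)] at hs
    refine ⟨(nodup_cons.1 hnd).2, fun v => ?_, hs, a, fun t ht => b t (ht.trans (suffix_cons _ _)) ?_⟩
    · have := hm v
      have h2 := (nodup_cons.1 hnd).1
      rw [mem_cons] at this
      constructor
      · intro h
        have h4 : v ≠ x := fun e => h2 (e ▸ h)
        have := this.1 (.inr h); omega
      · intro h
        rcases this.2 (by omega) with h' | h'
        · omega
        · exact h'
    · rintro rfl
      have := ht.length_le; simp at this
  · rintro ⟨a1, a2, a3, a4, a5⟩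
    have hp : (x :: l).Perm (range n) := by
      rw [perm_ext_iff_of_nodup (nodup_cons.2 ⟨fun h => by have := (a2 x).1 h; omega, a1⟩)
        nodup_range]
      intro v; rw [mem_cons, a2, mem_range]; omega
    have hl : (x :: l).length = n := by simpa using hp.length_eq
    have hr : Run (x :: l) [] [] (range n) := (run_first hx (by omega)).2 a3
    refine ⟨hp, by rw [Sortable, hl]; exact hr, simple_of hp hr a4 fun t ht hne => ?_⟩
    rcases suffix_cons_iff.1 ht with h | h
    · exact (hne h).elim
    · exact a5 t h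

theorem a_eq (m : ℕ) : a (m + 3) = SO (m + 3) 0 1 (fun a => 0 + a + 1) m := by
  rw [a, card_split (X := Finset.Ico 1 (m + 2)), Finset.sum_Ico_eq_sum_range, SO]
  · refine Finset.sum_congr rfl fun x hx => ?_
    simp only [Finset.mem_range] at hx
    rw [nc_ite (mem_iff (by omega) (by omega) (by omega)), if_pos trivial]
    show N _ _ _ _ _ _ _ = _
    (apply Ncongr <;> omega)
  · refine (fin_nodup (m + 3)).subset fun l h => ⟨h.1.nodup_iff.2 nodup_range, fun v hv => ?_⟩
    simpa using h.1.mem_iff.1 hv
  · intro h; have := h.1.length_eq; simp at this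
  · rintro x l ⟨hp, -, hsim⟩
    have hl : (x :: l).length = m + 3 := by simpa using hp.length_eq
    have hnd : (x :: l).Nodup := hp.nodup_iff.2 nodup_range
    have hm : ∀ v, v ∈ x :: l ↔ v < m + 3 := fun v => by rw [hp.mem_iff]; simp
    have hx := (hm x).1 (by simp)
    have h2 := (nodup_cons.1 hnd).1
    by_contra hc
    simp only [Finset.mem_Ico] at hc
    rcases hsim [x] l [] (by simp) (by
      intro u hu z hz v g1 g2
      have hz' := (hm z).1 (by simp [hz])
      rcases mem_cons.1 ((hm v).2 (by omega)) with e | h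
      · exfalso
        rcases (show u = x ∨ z = x by omega) with e' | e'
        · exact h2 (e' ▸ hu)
        · exact h2 (e' ▸ hz)
      · exact h) with h | h
    · simp at hl; omega
    · have := congrArg length h; simp at this

theorem main (n : ℕ) (hn : 3 ≤ n) :
    a n = if Odd n then Nat.fib (2 * n - 5) - 1 else Nat.fib (2 * n - 5) := by
  obtain ⟨m, rfl⟩ : ∃ m, n = m + 3 := ⟨n - 3, by omega⟩
  have := ((Sall m).2 (m + 3) 0 1 le_rfl).2.1 (.inr rfl) (by omega)
  rw [a_eq, show 2 * (m + 3) - 5 = 2 * m + 1 by omega]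
  simp only [Nat.odd_iff]
  split_ifs at * <;> omega
end H8.Pp
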