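import Mathlib
namespace H8.Pp
/-- `Run inp s1 s2 out`: with `inp` still to be read and pop stacks `s1`, `s2` (top first),
the machine can read everything, empty both stacks, and output exactly `out`. -/
inductive Run : List ℕ → List ℕ → List ℕ → List ℕ → Prop
  | done : Run [] [] [] []
  | bypass {x : ℕ} {inp s1 s2 out : List ℕ} : Run inp s1 s2 out → Run (x :: inp) s1 s2 (x :: out)
  | push1 {x : ℕ} {inp s1 s2 out : List ℕ} : Run inp (x :: s1) s2 out → Run (x :: inp) s1 s2 out
  | push2 {x : ℕ} {inp s1 s2 out : List ℕ} : Run inp s1 (x :: s2) out → Run (x :: inp) s1 s2 out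
  | pop1 {x : ℕ} {inp s1 s2 out : List ℕ} :
      Run inp [] s2 out → Run inp (x :: s1) s2 (x :: s1 ++ out)
  | pop2 {x : ℕ} {inp s1 s2 out : List ℕ} :
      Run inp s1 [] out → Run inp s1 (x :: s2) (x :: s2 ++ out)

/-- Sortable by two parallel pop stacks with a bypass (values `0, …, n-1`). -/
def Sortable (π : List ℕ) : Prop := Run π [] [] (List.range π.length)

/-- The values of `w` form a set of consecutive integers. -/
def Consec (w : List ℕ) : Prop := ∀ u ∈ w, ∀ z ∈ w, ∀ v, u ≤ v → v ≤ z → v ∈ w

/-- Simple: every block of consecutive positions whose values are consecutive integers is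
empty, a singleton, or everything. -/
def Simple (π : List ℕ) : Prop :=
  ∀ p w s : List ℕ, π = p ++ w ++ s → Consec w → w.length ≤ 1 ∨ w = π

/-- Number of simple sortable permutations of size `n`. -/
noncomputable def a (n : ℕ) : ℕ :=
  Set.ncard {π : List ℕ | π.Perm (List.range n) ∧ Sortable π ∧ Simple π}
end H8.Pp
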