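import Mathlib

set_option autoImplicit false

namespace Pool.Agent.H8.RH

open Finset Submodule Module

variable {ι V : Type*} [DecidableEq ι] [AddCommGroup V] [Module ℝ V] [FiniteDimensional ℝ V]

/-- span of a finite subfamily -/
def sp (v : ι → V) (A : Finset ι) : Submodule ℝ V := span ℝ (v '' (A : Set ι))

/-- rank of a finite subfamily -/
noncomputable def rk (v : ι → V) (A : Finset ι) : ℕ := finrank ℝ (sp v A)

variable (v : ι → V)

omit [DecidableEq ι] [FiniteDimensional ℝ V] in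
theorem mem_sp {A : Finset ι} {i : ι} (h : i ∈ A) : v i ∈ sp v A :=
  subset_span ⟨i, h, rfl⟩

omit [DecidableEq ι] [FiniteDimensional ℝ V] in
theorem sp_le {A : Finset ι} {U : Submodule ℝ V} (h : ∀ i ∈ A, v i ∈ U) : sp v A ≤ U := by
  rw [sp, span_le]; rintro _ ⟨i, hi, rfl⟩; exact h i hi

omit [DecidableEq ι] [FiniteDimensional ℝ V] in
theorem sp_mono {A B : Finset ι} (h : A ⊆ B) : sp v A ≤ sp v B :=
  sp_le v fun _ hi => mem_sp v (h hi)

omit [DecidableEq ι] in
theorem rk_mono {A B : Finset ι} (h : A ⊆ B) : rk v A ≤ rk v B :=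
  Submodule.finrank_mono (sp_mono v h)

omit [DecidableEq ι] [FiniteDimensional ℝ V] in
theorem rk_le_card (A : Finset ι) : rk v A ≤ A.card := by
  classical
  have := finrank_span_finset_le_card (R := ℝ) (A.image v)
  rw [coe_image] at this
  exact this.trans card_image_le

theorem rk_submod (A B : Finset ι) : rk v (A ∪ B) + rk v (A ∩ B) ≤ rk v A + rk v B := by
  have h := finrank_sup_add_finrank_inf_eq (sp v A) (sp v B)
  have h1 : sp v (A ∪ B) ≤ sp v A ⊔ sp v B := sp_le v fun i hi => by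
    rcases mem_union.1 hi with h | h
    · exact mem_sup_left (mem_sp v h)
    · exact mem_sup_right (mem_sp v h)
  have h2 : sp v (A ∩ B) ≤ sp v A ⊓ sp v B :=
    le_inf (sp_mono v inter_subset_left) (sp_mono v inter_subset_right)
  have := Submodule.finrank_mono h1
  have := Submodule.finrank_mono h2
  unfold rk
  omega

omit [DecidableEq ι] in
theorem sp_eq_of_rk {A B : Finset ι} (h : A ⊆ B) (hr : rk v B ≤ rk v A) : sp v A = sp v B :=
  eq_of_le_of_finrank_le (sp_mono v h) hr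

theorem rk_insert {A : Finset ι} {i : ι} (h : v i ∉ sp v A) : rk v A < rk v (insert i A) := by
  apply finrank_lt_finrank_of_lt
  exact lt_of_le_of_ne (sp_mono v (subset_insert _ _)) fun e =>
    h (e ▸ mem_sp v (mem_insert_self _ _))

omit [DecidableEq ι] [FiniteDimensional ℝ V] in
theorem indep_of_rk {A : Finset ι} (h : A.card ≤ rk v A) (c : ι → ℝ)
    (hc : ∑ i ∈ A, c i • v i = 0) : ∀ i ∈ A, c i = 0 := by
  have : LinearIndepOn ℝ v (A : Set ι) := by
    unfold LinearIndepOn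
    rw [linearIndependent_iff_card_le_finrank_span]
    simp only [coe_sort_coe, Fintype.card_coe]
    have e : (Set.range fun x : A => v x) = v '' (A : Set ι) := (Set.image_eq_range _ _).symm
    rw [e]
    exact h
  exact linearIndepOn_finset_iff.1 this c hc

omit [DecidableEq ι] [FiniteDimensional ℝ V] in
theorem exists_coef {A : Finset ι} {x : V} (h : x ∈ sp v A) :
    ∃ c : ι → ℝ, ∑ i ∈ A, c i • v i = x :=
  (mem_span_image_finset_iff_exists_fun' ℝ).1 h

omit [DecidableEq ι] [FiniteDimensional ℝ V] in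
theorem map_eq_zero_of_sp {A : Finset ι} (l : V →ₗ[ℝ] ℝ) (h : ∀ i ∈ A, l (v i) = 0) {x : V}
    (hx : x ∈ sp v A) : l x = 0 :=
  (sp_le v (U := LinearMap.ker l) h) hx

theorem rado_aux (Y : Finset ι) (n : ℕ) : ∀ P Q : Finset ι, (P ∩ Q).card = n →
    (∀ S ⊆ Y, S.card ≤ rk v (S ∩ P) + rk v (S ∩ Q)) →
    ∃ P Q : Finset ι, Disjoint P Q ∧ ∀ S ⊆ Y, S.card ≤ rk v (S ∩ P) + rk v (S ∩ Q) := by
  induction n with
  | zero =>
    intro P Q h hc
    exact ⟨P, Q, disjoint_iff_inter_eq_empty.2 (card_eq_zero.1 h), hc⟩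
  | succ n ih =>
    intro P Q h hc
    obtain ⟨e, he⟩ := card_pos.1 (by omega : 0 < (P ∩ Q).card)
    obtain ⟨heP, heQ⟩ := mem_inter.1 he
    by_cases h1 : ∀ S ⊆ Y, S.card ≤ rk v (S ∩ P.erase e) + rk v (S ∩ Q)
    · refine ih _ _ ?_ h1
      rw [erase_inter, card_erase_of_mem he]; omega
    by_cases h2 : ∀ S ⊆ Y, S.card ≤ rk v (S ∩ P) + rk v (S ∩ Q.erase e)
    · refine ih _ _ ?_ h2
      rw [inter_erase, card_erase_of_mem he]; omega
    exfalso
    push Not at h1 h2
    obtain ⟨S1, hS1, k1⟩ := h1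
    obtain ⟨S2, hS2, k2⟩ := h2
    have e1 : e ∈ S1 := by
      by_contra hn
      have : S1 ∩ P.erase e = S1 ∩ P := by
        ext x; simp only [mem_inter, mem_erase]
        exact ⟨fun h => ⟨h.1, h.2.2⟩, fun h => ⟨h.1, fun e => hn (e ▸ h.1), h.2⟩⟩
      rw [this] at k1
      exact absurd (hc S1 hS1) (not_le.2 k1)
    have e2 : e ∈ S2 := by
      by_contra hn
      have : S2 ∩ Q.erase e = S2 ∩ Q := by
        ext x; simp only [mem_inter, mem_erase]
        exact ⟨fun h => ⟨h.1, h.2.2⟩, fun h => ⟨h.1, fun e => hn (e ▸ h.1), h.2⟩⟩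
      rw [this] at k2
      exact absurd (hc S2 hS2) (not_le.2 k2)
    have a1 := rk_submod v (S1 ∩ P.erase e) (S2 ∩ P)
    have a2 := rk_submod v (S1 ∩ Q) (S2 ∩ Q.erase e)
    have b1 := hc (S1 ∪ S2) (union_subset hS1 hS2)
    have b2 := hc ((S1 ∩ S2).erase e) ((erase_subset _ _).trans (inter_subset_left.trans hS1))
    have c1 : S1 ∩ P.erase e ∪ S2 ∩ P = (S1 ∪ S2) ∩ P := by
      ext x; simp only [mem_inter, mem_erase, mem_union]
      by_cases hx : x = e
      · subst hx; tauto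
      · tauto
    have c2 : S1 ∩ P.erase e ∩ (S2 ∩ P) = (S1 ∩ S2).erase e ∩ P := by
      ext x; simp only [mem_inter, mem_erase]; tauto
    have c3 : S1 ∩ Q ∪ S2 ∩ Q.erase e = (S1 ∪ S2) ∩ Q := by
      ext x; simp only [mem_inter, mem_erase, mem_union]
      by_cases hx : x = e
      · subst hx; tauto
      · tauto
    have c4 : S1 ∩ Q ∩ (S2 ∩ Q.erase e) = (S1 ∩ S2).erase e ∩ Q := by
      ext x; simp only [mem_inter, mem_erase]; tauto
    rw [c1, c2] at a1
    rw [c3, c4] at a2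
    rw [card_erase_of_mem (mem_inter.2 ⟨e1, e2⟩)] at b2
    have d1 := card_union_add_card_inter S1 S2
    have d2 : 0 < (S1 ∩ S2).card := card_pos.2 ⟨e, mem_inter.2 ⟨e1, e2⟩⟩
    omega

/-- Rado-Horn theorem for two parts. -/
theorem rado_horn (Y : Finset ι) (h : ∀ S ⊆ Y, S.card ≤ 2 * rk v S) :
    ∃ P Q : Finset ι, Disjoint P Q ∧ P ∪ Q = Y ∧ P.card ≤ rk v P ∧ Q.card ≤ rk v Q := by
  obtain ⟨P, Q, hd, hc⟩ := rado_aux v Y _ Y Y rfl (fun S hS => by
    rw [inter_eq_left.2 hS]; have := h S hS; omega)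
  have h0 : rk v ∅ = 0 := by have := rk_le_card v ∅; simpa using this
  refine ⟨Y ∩ P, Y \ P, ?_, ?_, ?_, ?_⟩
  · exact disjoint_of_subset_left inter_subset_right disjoint_sdiff
  · ext x; simp only [mem_union, mem_inter, mem_sdiff]; tauto
  · have := hc (Y ∩ P) inter_subset_left
    have e1 : Y ∩ P ∩ P = Y ∩ P := by rw [inter_assoc, inter_self]
    have e2 : Y ∩ P ∩ Q = ∅ := by rw [inter_assoc, disjoint_iff_inter_eq_empty.1 hd, inter_empty]
    rwa [e1, e2, h0] at this
  · have h1 := hc (Y \ P) sdiff_subset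
    have e1 : Y \ P ∩ P = ∅ := by ext x; simp
    have := rk_mono v (inter_subset_left (s₁ := Y \ P) (s₂ := Q))
    rw [e1, h0] at h1
    omega

omit [FiniteDimensional ℝ V] in
/-- Stiemke's alternative. -/
theorem stiemke (Y : Finset ι) : (∃ a : ι → ℝ, (∀ i ∈ Y, 0 < a i) ∧ ∑ i ∈ Y, a i • v i = 0) ∨
    ∃ h : V →ₗ[ℝ] ℝ, (∀ i ∈ Y, 0 ≤ h (v i)) ∧ ∃ i ∈ Y, h (v i) ≠ 0 := by
  let Φ : (Y → ℝ) →ₗ[ℝ] V := Fintype.linearCombination ℝ fun i : Y => v i
  by_cases hd : Disjoint (Set.pi Set.univ fun _ : Y => Set.Ioi (0 : ℝ))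
    ((LinearMap.ker Φ : Submodule ℝ (Y → ℝ)) : Set (Y → ℝ))
  · right
    obtain ⟨f, u, h1, h2⟩ := geometric_hahn_banach_open
      (convex_pi fun _ _ => convex_Ioi 0) (isOpen_set_pi Set.finite_univ fun _ _ => isOpen_Ioi)
      (LinearMap.ker Φ).convex hd
    have hu : u ≤ 0 := by simpa using h2 0 (zero_mem _)
    have hk : ∀ b ∈ LinearMap.ker Φ, f b = 0 := by
      intro b hb
      by_contra hne
      have := h2 (((u - 1) / f b) • b) (smul_mem _ _ hb)
      rw [map_smul, smul_eq_mul, div_mul_cancel₀ _ hne] at this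
      linarith
    have hf : (f : (Y → ℝ) →ₗ[ℝ] ℝ) ∈ (LinearMap.ker Φ).dualAnnihilator := by
      rw [mem_dualAnnihilator]; exact hk
    rw [← LinearMap.range_dualMap_eq_dualAnnihilator_ker] at hf
    obtain ⟨g, hg⟩ := hf
    have hg' : ∀ b, g (Φ b) = f b := fun b => LinearMap.congr_fun hg b
    have hs : ∀ i : Y, g (v i) = f (Pi.single i 1) := by
      intro i
      rw [← hg']
      simp [Φ]
    have h1' := h1 1 (fun _ _ => by simp)
    refine ⟨-g, fun i hi => ?_, ?_⟩
    · rw [LinearMap.neg_apply, hs ⟨i, hi⟩]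
      by_contra hneg
      have hp : 0 < f (Pi.single ⟨i, hi⟩ 1) := by linarith
      have := h1 (1 + ((u - f 1) / f (Pi.single ⟨i, hi⟩ 1)) • Pi.single ⟨i, hi⟩ 1) (by
        intro j _
        have : 0 ≤ (u - f 1) / f (Pi.single ⟨i, hi⟩ 1) := div_nonneg (by linarith) hp.le
        have h2 : (0 : ℝ) ≤ (Pi.single (⟨i, hi⟩ : Y) (1 : ℝ) : Y → ℝ) j := by
          rw [Pi.single_apply]; split_ifs <;> norm_num
        simp only [Pi.add_apply, Pi.one_apply, Pi.smul_apply, smul_eq_mul, Set.mem_Ioi]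
        positivity)
      rw [map_add, map_smul, smul_eq_mul, div_mul_cancel₀ _ hp.ne'] at this
      linarith
    · by_contra hall
      push Not at hall
      have : f 1 = 0 := by
        rw [← hg']
        simp only [Φ, Fintype.linearCombination_apply, Pi.one_apply, one_smul, map_sum]
        refine Finset.sum_eq_zero fun i _ => ?_
        simpa using hall i i.2
      linarith
  · left
    rw [Set.not_disjoint_iff] at hd
    obtain ⟨a, ha, ha2⟩ := hd
    refine ⟨fun i => if h : i ∈ Y then a ⟨i, h⟩ else 0, fun i hi => ?_, ?_⟩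
    · simp only [dif_pos hi]; exact ha ⟨i, hi⟩ trivial
    · have : Φ a = 0 := ha2
      rw [← this, ← Finset.sum_coe_sort]
      simp [Φ, Fintype.linearCombination_apply]

end Pool.Agent.H8.RH
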