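import Mathlib

/-! Reduction of a truncated matrix problem to monomial form by elementary operations. -/

namespace Pool.Agent.H8.Rk

variable {ι F : Type*} [Fintype ι] [DecidableEq ι] [Field F]

/-- Truncated elementary operations. -/
inductive Step (ρ κ : ι → ℕ) (Δ : Finset (ι × ι)) (C C' : ι → ι → F) : Prop
  | row (i k : ι) (t : F) : ρ k < ρ i →
      (∀ a b, C' a b = if (a, b) ∈ Δ then C a b + (if a = i then t * C k b else 0) else 0) →
      Step ρ κ Δ C C'
  | col (j l : ι) (t : F) : κ j < κ l →
      (∀ a b, C' a b = if (a, b) ∈ Δ then C a b + (if b = j then t * C a l else 0) else 0) →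
      Step ρ κ Δ C C'
  | levi (i k : ι) (t : F) : κ i = κ k → i ≠ k →
      (∀ a b, C' a b = if (a, b) ∈ Δ then C a b + (if a = i then t * C k b else 0)
        - (if b = k then t * C a i else 0) else 0) → Step ρ κ Δ C C'

abbrev Reach (ρ κ : ι → ℕ) (Δ : Finset (ι × ι)) : (ι → ι → F) → (ι → ι → F) → Prop :=
  Relation.ReflTransGen (Step ρ κ Δ)

def Supp (Δ : Finset (ι × ι)) (C : ι → ι → F) : Prop := ∀ a b, (a, b) ∉ Δ → C a b = 0

variable {ρ κ : ι → ℕ} {Δ : Finset (ι × ι)}

omit [Fintype ι] in
theorem Step.supp {C C' : ι → ι → F} (h : Step ρ κ Δ C C') : Supp Δ C' := by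
  intro a b hab
  rcases h with ⟨_, _, _, _, h⟩ | ⟨_, _, _, _, h⟩ | ⟨_, _, _, _, _, h⟩ <;> rw [h, if_neg hab]

omit [Fintype ι] in
theorem Reach.supp {C C' : ι → ι → F} (h : Reach ρ κ Δ C C') (hC : Supp Δ C) : Supp Δ C' := by
  induction h with
  | refl => exact hC
  | tail _ h _ => exact h.supp

omit [Fintype ι] in
theorem clear_row_aux (h3 : ∀ a b, (a, b) ∈ Δ → κ a < κ b) {i0 j0 : ι}
    (hmax : ∀ a b, (a, b) ∈ Δ → κ b ≤ κ j0) {X : ι → ι → F} (hX : Supp Δ X) (hc : X i0 j0 ≠ 0)
    (hcol : ∀ a, a ≠ i0 → X a j0 = 0) (s : Finset ι) :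
    Reach ρ κ Δ X (fun a b => if a = i0 ∧ b ≠ j0 ∧ b ∈ s then 0 else X a b) := by
  induction s using Finset.induction_on with
  | empty => simpa using Relation.ReflTransGen.refl
  | insert l s hl ih =>
    refine ih.trans ?_
    by_cases h1 : l = j0 ∨ (i0, l) ∉ Δ
    · convert Relation.ReflTransGen.refl using 1
      funext a b
      have := hX i0 l
      grind
    push Not at h1
    have hz : ∀ a b, κ a = κ j0 → X a b = 0 := fun a b h => hX a b fun hab => by
      have := h3 a b hab; have := hmax a b hab; omega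
    have e : X i0 l + -(X i0 l / X i0 j0) * X i0 j0 = 0 := by field_simp; ring
    rcases (hmax _ _ h1.2).lt_or_eq with h2 | h2
    · refine .single (.col l j0 (-(X i0 l / X i0 j0)) h2 fun a b => ?_)
      have := hX a b
      have := hcol a
      grind
    · refine .single (.levi j0 l (X i0 l / X i0 j0) h2.symm (Ne.symm h1.1) fun a b => ?_)
      have := hX a b
      have := hcol a
      have := hz l b h2
      grind

theorem clear_row (h3 : ∀ a b, (a, b) ∈ Δ → κ a < κ b) {i0 j0 : ι}
    (hmax : ∀ a b, (a, b) ∈ Δ → κ b ≤ κ j0) {X : ι → ι → F} (hX : Supp Δ X) (hc : X i0 j0 ≠ 0)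
    (hcol : ∀ a, a ≠ i0 → X a j0 = 0) :
    Reach ρ κ Δ X (fun a b => if a = i0 ∧ b ≠ j0 then 0 else X a b) := by
  simpa using clear_row_aux (ρ := ρ) h3 hmax hX hc hcol Finset.univ

omit [Fintype ι] in
theorem clear_col_aux (h3 : ∀ a b, (a, b) ∈ Δ → κ a < κ b)
    (h4 : ∀ a b a' b', (a, b) ∈ Δ → (a', b') ∈ Δ → ρ a = ρ a' → κ a = κ a') {i0 j0 : ι}
    {X : ι → ι → F} (hX : Supp Δ X) (hc : X i0 j0 ≠ 0)
    (hmin : ∀ a, X a j0 ≠ 0 → ρ i0 ≤ ρ a) (s : Finset ι) :
    ∃ Y, Reach ρ κ Δ X Y ∧ ∀ a, Y a j0 = if a ≠ i0 ∧ a ∈ s then 0 else X a j0 := by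
  have h0 : (i0, j0) ∈ Δ := by by_contra h; exact hc (hX _ _ h)
  induction s using Finset.induction_on with
  | empty => exact ⟨X, .refl, by simp⟩
  | insert k s hk ih =>
    obtain ⟨Y, hY, eY⟩ := ih
    by_cases h1 : k = i0 ∨ X k j0 = 0
    · exact ⟨Y, hY, fun a => by grind⟩
    push Not at h1
    have hk0 : (k, j0) ∈ Δ := by by_contra h; exact h1.2 (hX _ _ h)
    have e : X k j0 + -(X k j0 / X i0 j0) * X i0 j0 = 0 := by field_simp; ring
    rcases (hmin k h1.2).lt_or_eq with h2 | h2
    · refine ⟨_, hY.tail (.row k i0 (-(X k j0 / X i0 j0)) h2 fun a b => rfl), fun a => ?_⟩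
      have := hX a j0
      have := eY a
      have := eY i0
      grind
    · refine ⟨_, hY.tail (.levi k i0 (-(X k j0 / X i0 j0)) (h4 _ _ _ _ hk0 h0 h2.symm) h1.1
        fun a b => rfl), fun a => ?_⟩
      have := hX a j0
      have := eY a
      have := eY i0
      have := h3 _ _ h0
      grind

omit [Fintype ι] in
theorem lift_zero (h3 : ∀ a b, (a, b) ∈ Δ → κ a < κ b) {j0 : ι}
    (hmax : ∀ a b, (a, b) ∈ Δ → κ b ≤ κ j0) {C C' : ι → ι → F}
    (hC : Supp (Δ.filter fun p => p.2 ≠ j0) C)
    (h : Step ρ κ (Δ.filter fun p => p.2 ≠ j0) C C') : Reach ρ κ Δ C C' := by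
  have hz : ∀ a b, κ a = κ j0 → C a b = 0 := fun a b h => hC a b fun hab => by
    have := h3 a b (Finset.mem_filter.1 hab).1; have := hmax a b (Finset.mem_filter.1 hab).1; omega
  simp only [Supp, Finset.mem_filter] at hC
  have triv : (∀ a b, C' a b = C a b) → Reach ρ κ Δ C C' := fun h => by
    obtain rfl : C' = C := funext fun a => funext (h a)
    exact .refl
  rcases h with ⟨i, k, t, h, e⟩ | ⟨j, l, t, h, e⟩ | ⟨i, k, t, h, hik, e⟩ <;>
    simp only [Finset.mem_filter] at e
  · refine .single (.row i k t h fun a b => ?_)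
    have := hC a b; have := hC k b
    grind
  · by_cases hj : j = j0
    · refine triv fun a b => ?_
      have := hC a b
      grind
    · refine .single (.col j l t h fun a b => ?_)
      have := hC a b
      grind
  · by_cases hj : k = j0
    · refine triv fun a b => ?_
      have := hC a b; have := hz k b
      grind
    · refine .single (.levi i k t h hik fun a b => ?_)
      have := hC a b; have := hC k b
      grind

theorem lift_one (h3 : ∀ a b, (a, b) ∈ Δ → κ a < κ b) {i0 j0 : ι} (h0 : (i0, j0) ∈ Δ)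
    (hmax : ∀ a b, (a, b) ∈ Δ → κ b ≤ κ j0) {c : F} (hc : c ≠ 0) {C C' : ι → ι → F}
    (hC : Supp (Δ.filter fun p => p.1 ≠ i0 ∧ p.2 ≠ j0) C)
    (h : Step ρ (fun a => 2 * κ a + if a = i0 then 1 else 0)
      (Δ.filter fun p => p.1 ≠ i0 ∧ p.2 ≠ j0) C C') :
    Reach ρ κ Δ (fun a b => if a = i0 ∧ b = j0 then c else C a b)
      (fun a b => if a = i0 ∧ b = j0 then c else C' a b) := by
  have hz : ∀ a b, κ a = κ j0 → C a b = 0 := fun a b h => hC a b fun hab => by
    have := h3 a b (Finset.mem_filter.1 hab).1; have := hmax a b (Finset.mem_filter.1 hab).1; omega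
  have h00 := h3 _ _ h0
  simp only [Supp, Finset.mem_filter] at hC
  have triv : (∀ a b, C' a b = C a b) → Reach ρ κ Δ (fun a b => if a = i0 ∧ b = j0 then c else C a b)
      (fun a b => if a = i0 ∧ b = j0 then c else C' a b) := fun h => by
    simp only [h]; exact .refl
  rcases h with ⟨i, k, t, h, e⟩ | ⟨j, l, t, h, e⟩ | ⟨i, k, t, h, hik, e⟩ <;>
    simp only [Finset.mem_filter] at e
  · by_cases hj : i = i0 ∨ k = i0
    · refine triv fun a b => ?_
      have := hC a b; have := hC k b
      grind
    · refine .single (.row i k t h fun a b => ?_)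
      have := hC a b; have := hC k b
      grind
  · by_cases hj : j = j0 ∨ l = j0
    · refine triv fun a b => ?_
      have := hC a b; have := hC a l
      grind
    by_cases hjl : κ j < κ l
    · refine .single (.col j l t hjl fun a b => ?_)
      have := hC a b; have := hC a l
      grind
    · obtain ⟨rfl, hjl', hne⟩ : l = i0 ∧ κ l = κ j ∧ l ≠ j := by grind
      have st : Step ρ κ Δ (fun a b => if a = l ∧ b = j0 then c else C a b) _ :=
        .levi l j (-t) hjl' hne fun a b => rfl
      refine (Relation.ReflTransGen.single st).trans ?_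
      have := hC j j0
      convert clear_row (ρ := ρ) (i0 := l) h3 hmax st.supp (by grind) (fun a ha => by
        have := hC a j0
        grind) using 1
      funext a b
      have := hC a b; have := hC a l
      grind
  · by_cases hj : i = j0 ∨ k = j0
    · refine triv fun a b => ?_
      have := hC a b; have := hC a i; have := hz k b
      grind
    · have h1 : i ≠ i0 ∧ k ≠ i0 := by grind
      refine .single (.levi i k t (by grind) hik fun a b => ?_)
      have := hC a b; have := hC k b; have := hC a i; have := e a b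
      clear triv e hC hz h3 hmax h
      push Not at hj
      by_cases a = i0 <;> by_cases b = j0 <;> by_cases (a, b) ∈ Δ <;> simp_all [eq_comm]

/-- At most one nonzero entry in each row and in each column. -/
def Mono (M : ι → ι → F) : Prop :=
  (∀ a b b', M a b ≠ 0 → M a b' ≠ 0 → b = b') ∧ ∀ a a' b, M a b ≠ 0 → M a' b ≠ 0 → a = a'

theorem reduce (ρ : ι → ℕ) (n : ℕ) : ∀ (κ : ι → ℕ) (Δ : Finset (ι × ι)), Δ.card ≤ n →
    (∀ a b, (a, b) ∈ Δ → κ a < κ b) →
    (∀ a b a' b', (a, b) ∈ Δ → (a', b') ∈ Δ → ρ a = ρ a' → κ a = κ a') →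
    ∀ C : ι → ι → F, Supp Δ C → ∃ M, Reach ρ κ Δ C M ∧ Mono M := by
  classical
  induction n with
  | zero =>
    intro κ Δ hn _ _ C hC
    obtain rfl : Δ = ∅ := by simpa using hn
    exact ⟨C, .refl, fun a b _ h => absurd (hC a b (by simp)) h,
      fun a _ b h => absurd (hC a b (by simp)) h⟩
  | succ n ih =>
    intro κ Δ hn h3 h4 C hC
    rcases Δ.eq_empty_or_nonempty with rfl | hne
    · exact ih κ ∅ (by simp) h3 h4 C hC
    obtain ⟨⟨i1, j0⟩, h1, hmax'⟩ := Δ.exists_max_image (fun p => κ p.2) hne
    have hmax : ∀ a b, (a, b) ∈ Δ → κ b ≤ κ j0 := fun a b h => hmax' (a, b) h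
    by_cases hz : ∀ a, C a j0 = 0
    · have hC' : Supp (Δ.filter fun p => p.2 ≠ j0) C := fun a b h => by
        have := hC a b; have := hz a
        simp only [Finset.mem_filter] at h
        grind
      obtain ⟨M, hM, mono⟩ := ih κ (Δ.filter fun p => p.2 ≠ j0) (by
        have := Finset.card_lt_card (Finset.filter_ssubset (p := fun p => p.2 ≠ j0).2
          ⟨_, h1, by simp⟩)
        omega) (fun a b h => h3 a b (Finset.mem_filter.1 h).1)
        (fun a b a' b' h h' => h4 a b a' b' (Finset.mem_filter.1 h).1 (Finset.mem_filter.1 h').1)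
        C hC'
      refine ⟨M, ?_, mono⟩
      clear mono
      induction hM with
      | refl => exact .refl
      | tail h st ih => exact ih.trans (lift_zero h3 hmax (Reach.supp h hC') st)
    · push Not at hz
      obtain ⟨i0, hi0, hmin⟩ := (Finset.univ.filter fun a => C a j0 ≠ 0).exists_min_image ρ
        (by simpa [Finset.Nonempty] using hz)
      have hc : C i0 j0 ≠ 0 := by simpa using hi0
      have h0 : (i0, j0) ∈ Δ := by by_contra h; exact hc (hC _ _ h)
      obtain ⟨Y, hY, eY⟩ := clear_col_aux h3 h4 hC hc (fun a ha => hmin a (by simpa using ha))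
        Finset.univ
      have sY := Reach.supp hY hC
      have hYc : Y i0 j0 ≠ 0 := by rw [eY]; simpa using hc
      have hcol : ∀ a, a ≠ i0 → Y a j0 = 0 := fun a ha => by rw [eY]; simp [ha]
      have hZ := clear_row (ρ := ρ) h3 hmax sY hYc hcol
      have hC' : Supp (Δ.filter fun p => p.1 ≠ i0 ∧ p.2 ≠ j0)
          (fun a b => if a = i0 then 0 else Y a b) := fun a b h => by
        have := sY a b; have := hcol a
        simp only [Finset.mem_filter] at h
        grind
      obtain ⟨M, hM, mono⟩ := ih (fun a => 2 * κ a + if a = i0 then 1 else 0)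
        (Δ.filter fun p => p.1 ≠ i0 ∧ p.2 ≠ j0) (by
        have := Finset.card_lt_card (Finset.filter_ssubset (p := fun p => p.1 ≠ i0 ∧ p.2 ≠ j0).2
          ⟨_, h0, by simp⟩)
        omega) (fun a b h => by
          have := h3 a b (Finset.mem_filter.1 h).1
          grind)
        (fun a b a' b' h h' e => by
          have := h4 a b a' b' (Finset.mem_filter.1 h).1 (Finset.mem_filter.1 h').1 e
          have := (Finset.mem_filter.1 h).2.1
          have := (Finset.mem_filter.1 h').2.1
          grind) _ hC'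
      have sM := Reach.supp hM hC'
      simp only [Supp, Finset.mem_filter] at sM
      refine ⟨fun a b => if a = i0 ∧ b = j0 then Y i0 j0 else M a b, (hY.trans hZ).trans ?_, ?_⟩
      · have : (fun a b => if a = i0 ∧ b ≠ j0 then 0 else Y a b) =
            fun a b => if a = i0 ∧ b = j0 then Y i0 j0 else if a = i0 then 0 else Y a b := by
          funext a b; grind
        rw [this]
        clear mono sM
        induction hM with
        | refl => exact .refl
        | tail h st ih => exact ih.trans (lift_one h3 h0 hmax hYc (Reach.supp h hC') st)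
      · refine ⟨fun a b b' => ?_, fun a a' b => ?_⟩
        · have := mono.1 a b b'; have := sM a b; have := sM a b'
          grind
        · have := mono.2 a a' b; have := sM a b; have := sM a' b
          grind

end Pool.Agent.H8.Rk
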