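import Mathlib

/-! Definitions: two-sided orbits on the dual of the radical of a parabolic subgroup of `GL(n)`. -/

namespace Pool.Agent.H8.RkD

variable {n : ℕ} (c : Composition n) (F : Type*) [Field F]

/-- Matrices supported strictly above the diagonal blocks (`c.index i` is the block of `i`). -/
def J : Submodule F (Matrix (Fin n) (Fin n) F) where
  carrier := {x | ∀ i j, ¬ c.index i < c.index j → x i j = 0}
  add_mem' := fun {a b} ha hb i j h => by simp [ha i j h, hb i j h]
  zero_mem' := fun _ _ _ => rfl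
  smul_mem' := fun t a ha i j h => by simp [ha i j h]

variable {F}

/-- The block-diagonal subgroup `R`. -/
def InR (r : GL (Fin n) F) : Prop := ∀ i j, c.index i ≠ c.index j → r i j = 0

/-- The unipotent radical `N = 1 + J`. -/
def InN (a : Matrix (Fin n) (Fin n) F) : Prop := a - 1 ∈ J c F

/-- `l' x = l (b r⁻¹ x r a)` for all `x ∈ J`, for some `r ∈ R` and `a, b ∈ N`. -/
def Eqv (l l' : Module.Dual F (J c F)) : Prop :=
  ∃ (r : GL (Fin n) F) (a b : Matrix (Fin n) (Fin n) F), InR c r ∧ InN c a ∧ InN c b ∧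
    ∀ x : J c F, ∃ y : J c F, y.val = b * (r⁻¹).val * x.val * r.val * a ∧ l' x = l y

/-- Rook placements in `Δ_J`. -/
def IsRook (D : Finset (Fin n × Fin n)) : Prop :=
  (∀ p ∈ D, c.index p.1 < c.index p.2) ∧ (∀ p ∈ D, ∀ q ∈ D, p.1 = q.1 → p = q) ∧
    ∀ p ∈ D, ∀ q ∈ D, p.2 = q.2 → p = q

variable (F)

/-- The form `λ_D`, the sum of the coordinate forms of the roots in `D`. -/
def lam (D : Finset (Fin n × Fin n)) : Module.Dual F (J c F) :=
  ∑ p ∈ D, Matrix.entryLinearMap F F p.1 p.2 ∘ₗ (J c F).subtype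

end Pool.Agent.H8.RkD
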