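import Mathlib
import Pool.Agent.H8.Rk1
import Pool.Agent.H8.Rk2

/-! Every two-sided orbit contains a rook form. -/

namespace Pool.Agent.H8.Rk

open Matrix

variable {ι F : Type*} [Fintype ι] [DecidableEq ι] [Field F] (β : ι → ℕ)

def JJ (x : Matrix ι ι F) : Prop := ∀ i j, ¬ β i < β j → x i j = 0
def PP (x : Matrix ι ι F) : Prop := ∀ i j, ¬ β i ≤ β j → x i j = 0
def RR (x : Matrix ι ι F) : Prop := ∀ i j, β i ≠ β j → x i j = 0

variable {β}

omit [DecidableEq ι] in
theorem JJ.mulP {x y : Matrix ι ι F} (hx : JJ β x) (hy : PP β y) : JJ β (x * y) := by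
  intro i j h
  rw [mul_apply]
  refine Finset.sum_eq_zero fun k _ => ?_
  by_cases h1 : β i < β k
  · rw [hy k j (by omega), mul_zero]
  · rw [hx i k h1, zero_mul]

omit [DecidableEq ι] in
theorem PP.mulJ {x y : Matrix ι ι F} (hx : PP β x) (hy : JJ β y) : JJ β (x * y) := by
  intro i j h
  rw [mul_apply]
  refine Finset.sum_eq_zero fun k _ => ?_
  by_cases h1 : β i ≤ β k
  · rw [hy k j (by omega), mul_zero]
  · rw [hx i k h1, zero_mul]

omit [DecidableEq ι] in
theorem RR.mul {x y : Matrix ι ι F} (hx : RR β x) (hy : RR β y) : RR β (x * y) := by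
  intro i j h
  rw [mul_apply]
  refine Finset.sum_eq_zero fun k _ => ?_
  by_cases h1 : β i = β k
  · rw [hy k j (by omega), mul_zero]
  · rw [hx i k h1, zero_mul]

omit [Fintype ι] [DecidableEq ι] in
theorem RR.pp {x : Matrix ι ι F} (hx : RR β x) : PP β x := fun i j h => hx i j (by omega)

omit [Fintype ι] [DecidableEq ι] in
theorem JJ.add {x y : Matrix ι ι F} (hx : JJ β x) (hy : JJ β y) : JJ β (x + y) :=
  fun i j h => by simp [hx i j h, hy i j h]

omit [Fintype ι] in
theorem RR.one : RR β (1 : Matrix ι ι F) := fun i j h => one_apply_ne fun e => h (e ▸ rfl)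

omit [Fintype ι] in
theorem JJ.npp {a : Matrix ι ι F} (h : JJ β (a - 1)) : PP β a := fun i j hij => by
  have := h i j (by omega)
  rwa [Matrix.sub_apply, RR.one.pp i j hij, sub_zero] at this

theorem JJ.nmul {a b : Matrix ι ι F} (ha : JJ β (a - 1)) (hb : JJ β (b - 1)) :
    JJ β (a * b - 1) := by
  have := (ha.mulP hb.npp).add hb
  rwa [show (a - 1) * b + (b - 1) = a * b - 1 by noncomm_ring] at this

theorem JJ.nconj {a r r' : Matrix ι ι F} (ha : JJ β (a - 1)) (hr : RR β r) (hr' : RR β r')
    (e : r' * r = 1) : JJ β (r' * a * r - 1) := by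
  have := (hr'.pp.mulJ ha).mulP hr.pp
  rwa [mul_sub, sub_mul, mul_one, e] at this

def pair (C : ι → ι → F) (x : Matrix ι ι F) : F := ∑ i, ∑ j, C i j * x i j

variable (β) in
def GE (C C' : ι → ι → F) : Prop :=
  ∃ r r' a b : Matrix ι ι F, r * r' = 1 ∧ r' * r = 1 ∧ RR β r ∧ RR β r' ∧ JJ β (a - 1) ∧
    JJ β (b - 1) ∧ ∀ x, JJ β x → pair C' x = pair C (b * r' * x * r * a)

theorem GE.refl (C : ι → ι → F) : GE β C C :=
  ⟨1, 1, 1, 1, by simp, by simp, RR.one, RR.one, fun _ _ _ => by simp, fun _ _ _ => by simp,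
    by simp⟩

theorem GE.trans {C C' C'' : ι → ι → F} (h : GE β C C') (h' : GE β C' C'') : GE β C C'' := by
  obtain ⟨r, r', a, b, e1, e2, hr, hr', ha, hb, h⟩ := h
  obtain ⟨s, s', a', b', f1, f2, hs, hs', ha', hb', h'⟩ := h'
  refine ⟨s * r, r' * s', r' * a' * r * a, b * (r' * b' * r), ?_, ?_, hs.mul hr, hr'.mul hs',
    (ha'.nconj hr hr' e2).nmul ha, hb.nmul (hb'.nconj hr hr' e2), fun x hx => ?_⟩
  · rw [mul_assoc, ← mul_assoc r, e1, one_mul, f1]
  · rw [mul_assoc, ← mul_assoc s', f2, one_mul, e2]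
  · rw [h' x hx, h _ (by
      rw [mul_assoc b']
      exact ((hb'.npp.mulJ (hs'.pp.mulJ hx) |> fun h => by simpa [mul_assoc] using h :
        JJ β (b' * (s' * x))).mulP hs.pp).mulP ha'.npp)]
    congr 1
    simp only [mul_assoc]
    rw [← mul_assoc r r', e1, one_mul, ← mul_assoc r r', e1, one_mul]

variable (β) in
def Del : Finset (ι × ι) := Finset.univ.filter fun p => β p.1 < β p.2

omit [DecidableEq ι] in
theorem pair_trunc {C' G : ι → ι → F} [∀ p, Decidable (p ∈ Del β)]
    (h : ∀ a b, C' a b = if (a, b) ∈ Del β then G a b else 0) {x : Matrix ι ι F} (hx : JJ β x) :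
    pair C' x = pair G x := by
  refine Finset.sum_congr rfl fun i _ => Finset.sum_congr rfl fun j _ => ?_
  rw [h]
  split_ifs with h1
  · rfl
  · rw [hx i j (by simpa [Del] using h1)]; simp

theorem pair_row (C : ι → ι → F) (x : Matrix ι ι F) (i k : ι) (t : F) :
    pair C (single k i t * x) = pair (fun a b => if a = i then t * C k b else 0) x := by
  unfold pair
  rw [Finset.sum_eq_single k (fun a _ h => by simp [single_mul_apply_of_ne, h]) (by simp)]
  conv_rhs => rw [Finset.sum_eq_single i (fun a _ h => by simp [h]) (by simp)]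
  exact Finset.sum_congr rfl fun j _ => by simp; ring

theorem pair_col (C : ι → ι → F) (x : Matrix ι ι F) (j l : ι) (t : F) :
    pair C (x * single j l t) = pair (fun a b => if b = j then t * C a l else 0) x := by
  refine Finset.sum_congr rfl fun a _ => ?_
  rw [Finset.sum_eq_single l (fun a _ h => by simp [mul_single_apply_of_ne, h]) (by simp),
    Finset.sum_eq_single j (fun a _ h => by simp [h]) (by simp)]
  simp; ring

omit [DecidableEq ι] in
theorem pair_add (C : ι → ι → F) (x y : Matrix ι ι F) : pair C (x + y) = pair C x + pair C y := by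
  simp [pair, mul_add, Finset.sum_add_distrib]

omit [DecidableEq ι] in
theorem pair_sub (C : ι → ι → F) (x y : Matrix ι ι F) : pair C (x - y) = pair C x - pair C y := by
  simp [pair, mul_sub, Finset.sum_sub_distrib]

theorem Step.ge {C C' : ι → ι → F} (h : Step β β (Del β) C C') : GE β C C' := by
  have z : JJ β ((1 : Matrix ι ι F) - 1) := fun _ _ _ => by simp
  have sg : ∀ i j (t : F), β i < β j → JJ β (1 + single i j t - 1) := fun i j t h a b hab => by
    rw [add_sub_cancel_left]
    exact single_apply_of_ne _ _ _ _ _ (by rintro ⟨rfl, rfl⟩; exact hab h)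
  have sr : ∀ i j (t : F), β i = β j → RR β (1 + single i j t) := fun i j t h a b hab => by
    rw [Matrix.add_apply, RR.one a b hab, zero_add]
    exact single_apply_of_ne _ _ _ _ _ (by rintro ⟨rfl, rfl⟩; exact hab h)
  rcases h with ⟨i, k, t, h, e⟩ | ⟨j, l, t, h, e⟩ | ⟨i, k, t, h, hik, e⟩
  · refine ⟨1, 1, 1, 1 + single k i t, by simp, by simp, RR.one, RR.one, z, sg _ _ _ h,
      fun x hx => ?_⟩
    rw [pair_trunc e hx]
    simp only [mul_one, add_mul, one_mul, pair_add, pair_row]
    simp [pair, add_mul, Finset.sum_add_distrib]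
  · refine ⟨1, 1, 1 + single j l t, 1, by simp, by simp, RR.one, RR.one, sg _ _ _ h, z,
      fun x hx => ?_⟩
    rw [pair_trunc e hx]
    simp only [mul_one, mul_add, one_mul, pair_add, pair_col]
    simp [pair, add_mul, Finset.sum_add_distrib]
  · have e0 : ∀ s s' : F, single k i s * single k i s' = 0 := fun s s' =>
      single_mul_single_of_ne _ _ _ _ hik _
    have e1 : single k i (-t) = -single k i t := by
      ext a b; simp only [single, of_apply, Matrix.neg_apply]; split_ifs <;> simp
    refine ⟨1 + single k i (-t), 1 + single k i t, 1, 1, ?_, ?_, sr _ _ _ h.symm, sr _ _ _ h.symm,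
      z, z, fun x hx => ?_⟩
    · rw [add_mul, mul_add, mul_add, e0, e1]; simp
    · rw [add_mul, mul_add, mul_add, e0, e1]; simp
    · have e2 : single k i t * x * single k i t = 0 := by
        rw [single_mul_mul_single, hx i k (by omega)]; simp
      have : 1 * (1 + single k i t) * x * (1 + single k i (-t)) * 1 =
          x + single k i t * x - x * single k i t := by
        rw [e1]
        calc _ = x + single k i t * x - x * single k i t - single k i t * x * single k i t := by
              noncomm_ring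
          _ = _ := by rw [e2, sub_zero]
      rw [pair_trunc e hx, this, pair_sub, pair_add, pair_row, pair_col]
      simp [pair, add_mul, sub_mul, Finset.sum_add_distrib]

theorem scale {M : ι → ι → F} (hM : Supp (Del β) M) (mono : Mono M) [∀ a b, Decidable (M a b = 0)] :
    GE β M (fun a b => if M a b = 0 then 0 else 1) := by
  have key : ∀ m, ∃ d : ι → F, (∀ a, d a ≠ 0) ∧ ∀ a b, β b < m → M a b ≠ 0 → d b = d a * M a b := by
    intro m
    induction m with
    | zero => exact ⟨fun _ => 1, by simp, by simp⟩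
    | succ m ih =>
      classical
      obtain ⟨d, h0, hd⟩ := ih
      refine ⟨fun b => if h : β b = m ∧ ∃ a, M a b ≠ 0 then d h.2.choose * M h.2.choose b else d b,
        fun b => ?_, fun a b hb hab => ?_⟩
      · simp only
        split_ifs with h
        · exact mul_ne_zero (h0 _) h.2.choose_spec
        · exact h0 b
      · have hlt : β a < β b := by
          by_contra hc; exact hab (hM a b (by simpa [Del] using hc))
        simp only
        rw [dif_neg (show ¬ (β a = m ∧ _) from fun h => by omega)]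
        split_ifs with h
        · rw [mono.2 _ _ _ h.2.choose_spec hab]
        · exact hd a b (by
            have : β b ≠ m := fun e => h ⟨e, a, hab⟩
            omega) hab
  obtain ⟨d, h0, hd⟩ := key (Finset.univ.sup β + 1)
  have rd : ∀ e : ι → F, RR β (diagonal e) := fun e a b h =>
    diagonal_apply_ne _ fun e => h (e ▸ rfl)
  refine ⟨diagonal fun a => (d a)⁻¹, diagonal d, 1, 1, ?_, ?_, rd _, rd _, fun _ _ _ => by simp,
    fun _ _ _ => by simp, fun x _ => ?_⟩
  · rw [diagonal_mul_diagonal, ← diagonal_one]; congr 1; funext a; exact inv_mul_cancel₀ (h0 a)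
  · rw [diagonal_mul_diagonal, ← diagonal_one]; congr 1; funext a; exact mul_inv_cancel₀ (h0 a)
  · refine Finset.sum_congr rfl fun a _ => Finset.sum_congr rfl fun b _ => ?_
    simp only [one_mul, mul_one, mul_diagonal, diagonal_mul]
    split_ifs with h
    · simp [h]
    · rw [hd a b (Nat.lt_succ_of_le (Finset.le_sup (Finset.mem_univ b))) h]
      have := h0 a
      field_simp

theorem exists_rook (C : ι → ι → F) (hC : Supp (Del β) C) : ∃ D : Finset (ι × ι),
    (∀ p ∈ D, β p.1 < β p.2) ∧ (∀ p ∈ D, ∀ q ∈ D, p.1 = q.1 → p = q) ∧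
    (∀ p ∈ D, ∀ q ∈ D, p.2 = q.2 → p = q) ∧ GE β C fun a b => if (a, b) ∈ D then 1 else 0 := by
  classical
  obtain ⟨M, hM, mono⟩ := reduce β _ β (Del β) le_rfl (fun a b h => by simpa [Del] using h)
    (fun _ _ _ _ _ _ h => h) C hC
  have sM := Reach.supp hM hC
  have g : GE β C M := by
    clear mono sM
    induction hM with
    | refl => exact GE.refl _
    | tail _ st ih => exact ih.trans st.ge
  refine ⟨Finset.univ.filter fun p => M p.1 p.2 ≠ 0, fun p hp => ?_, ?_, ?_, ?_⟩
  · by_contra hc
    exact (Finset.mem_filter.1 hp).2 (sM _ _ (by simpa [Del] using hc))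
  · rintro ⟨a, b⟩ hp ⟨a', b'⟩ hq rfl
    exact Prod.ext rfl (mono.1 _ _ _ (Finset.mem_filter.1 hp).2 (Finset.mem_filter.1 hq).2)
  · rintro ⟨a, b⟩ hp ⟨a', b'⟩ hq rfl
    exact Prod.ext (mono.2 _ _ _ (Finset.mem_filter.1 hp).2 (Finset.mem_filter.1 hq).2) rfl
  · simpa using g.trans (scale sM mono)

theorem pair_ind (D : Finset (ι × ι)) (x : Matrix ι ι F) :
    pair (fun a b => if (a, b) ∈ D then 1 else 0) x = ∑ p ∈ D, x p.1 p.2 := by
  unfold pair
  rw [← Fintype.sum_prod_type']
  simp

open RkD in
theorem lam_apply {n : ℕ} (c : Composition n) (D : Finset (Fin n × Fin n)) (x : J c F) :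
    lam c F D x = ∑ p ∈ D, x.val p.1 p.2 := by
  simp [lam, LinearMap.sum_apply]

open RkD in
theorem q1 {n : ℕ} (c : Composition n) (l : Module.Dual F (J c F)) :
    ∃ D, IsRook c D ∧ Eqv c l (lam c F D) := by
  let e : Fin n → Fin n → J c F := fun i j => if h : c.index i < c.index j then
    ⟨single i j 1, fun a b hab => single_apply_of_ne _ _ _ _ _ (by
      rintro ⟨rfl, rfl⟩; exact hab h)⟩ else 0
  have hl : ∀ x : J c F, l x = pair (fun i j => l (e i j)) x.val := by
    intro x
    have : x = ∑ i, ∑ j, x.val i j • e i j := by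
      apply Subtype.ext
      conv_lhs => rw [matrix_eq_sum_single x.val]
      simp only [Submodule.coe_sum, Submodule.coe_smul]
      refine Finset.sum_congr rfl fun i _ => Finset.sum_congr rfl fun j _ => ?_
      by_cases h : c.index i < c.index j
      · simp [e, h]
      · simp [x.2 i j h]
    conv_lhs => rw [this]
    simp [pair, mul_comm]
  obtain ⟨D, h1, h2, h3, r, r', a, b, e1, e2, hr, hr', ha, hb, h⟩ :=
    exists_rook (β := fun i => (c.index i : ℕ)) (fun i j => l (e i j)) (fun i j h => by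
      have : ¬ c.index i < c.index j := by simpa [Del] using h
      simp [e, this])
  refine ⟨D, ⟨h1, h2, h3⟩, ⟨r, r', e1, e2⟩, a, b, fun i j hij => hr i j (Fin.val_ne_of_ne hij),
    ha, hb, fun x => ⟨⟨b * r' * x.val * r * a, ?_⟩, rfl, ?_⟩⟩
  · rw [mul_assoc b]
    exact ((hb.npp.mulJ (hr'.pp.mulJ x.2)).mulP hr.pp).mulP ha.npp
  · rw [lam_apply, hl, ← h x.val x.2, pair_ind]

end Pool.Agent.H8.Rk
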