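import Mathlib
import Pool.Agent.H8.Rk3

/-! Equivalent rook forms are conjugate under the Weyl group of the Levi factor. -/

namespace Pool.Agent.H8.Rk

open Matrix

variable {ι F : Type*} [Fintype ι] [DecidableEq ι] [Field F] {β : ι → ℕ}

theorem JJ.ninv {a : Matrix ι ι F} (ha : JJ β (a - 1)) :
    ∃ a', a * a' = 1 ∧ a' * a = 1 ∧ JJ β (a' - 1) := by
  have hz : JJ β (1 - a) := fun i j h => by
    have := ha i j h
    rw [Matrix.sub_apply] at this ⊢; linear_combination -this
  have hp : ∀ m i j, ¬ β i + m ≤ β j → ((1 - a) ^ m) i j = 0 := by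
    intro m
    induction m with
    | zero => exact fun i j h => RR.one (β := β) i j (by omega)
    | succ m ih =>
      intro i j h
      rw [pow_succ, mul_apply]
      refine Finset.sum_eq_zero fun k _ => ?_
      by_cases h1 : β i + m ≤ β k
      · rw [hz k j (by omega), mul_zero]
      · rw [ih i k h1, zero_mul]
  have h0 : (1 - a) ^ (Finset.univ.sup β + 1) = 0 := by
    ext i j
    have := Finset.le_sup (f := β) (Finset.mem_univ j)
    exact hp _ i j (by omega)
  have e1 := mul_neg_geom_sum (1 - a) (Finset.univ.sup β + 1)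
  have e2 := geom_sum_mul_neg (1 - a) (Finset.univ.sup β + 1)
  rw [h0, sub_sub_cancel, sub_zero] at e1 e2
  refine ⟨_, e1, e2, ?_⟩
  have hP : PP β (∑ i ∈ Finset.range (Finset.univ.sup β + 1), (1 - a) ^ i) := fun i j h => by
    rw [Matrix.sum_apply]
    exact Finset.sum_eq_zero fun m _ => hp m i j (by omega)
  have := hz.mulP hP
  rwa [sub_mul, one_mul, e1] at this

open Classical in
noncomputable def sc (D : Finset (ι × ι)) : Option ι → Option ι
  | none => none
  | some a => if h : ∃ b, (a, b) ∈ D then some h.choose else none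

theorem sc_eq {D : Finset (ι × ι)} (h2 : ∀ p ∈ D, ∀ q ∈ D, p.1 = q.1 → p = q) {a b : ι} :
    sc D (some a) = some b ↔ (a, b) ∈ D := by
  rw [sc]
  split_ifs with h
  · refine ⟨fun e => Option.some.inj e ▸ h.choose_spec, fun e => ?_⟩
    rw [show h.choose = b from congrArg Prod.snd (h2 _ h.choose_spec _ e rfl)]
  · exact ⟨fun e => by simp at e, fun e => absurd ⟨b, e⟩ h⟩

def code (β : ι → ℕ) : Option ι → ℕ
  | none => 0
  | some a => β a + 1

noncomputable def fwd (β : ι → ℕ) (D : Finset (ι × ι)) (a : ι) : Lex (ℕ → ℕ) :=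
  toLex fun m => code β ((sc D)^[m] (some a))

theorem fwd_le {D D' : Finset (ι × ι)} (h2 : ∀ p ∈ D, ∀ q ∈ D, p.1 = q.1 → p = q)
    (h2' : ∀ p ∈ D', ∀ q ∈ D', p.1 = q.1 → p = q) (Rel : ι → ι → Prop)
    (h0 : ∀ k i, Rel k i → β k = β i)
    (h1 : ∀ k i j, Rel k i → (k, j) ∈ D → ∃ l, (i, l) ∈ D' ∧ (β j < β l ∨ Rel j l))
    {k i : ι} (h : Rel k i) : fwd β D k ≤ fwd β D' i := by
  have key : ∀ m, (∀ j < m, code β ((sc D')^[j] (some i)) = code β ((sc D)^[j] (some k))) →
      (sc D)^[m] (some k) = none ∨ code β ((sc D)^[m] (some k)) < code β ((sc D')^[m] (some i)) ∨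
        ∃ a a', (sc D)^[m] (some k) = some a ∧ (sc D')^[m] (some i) = some a' ∧ Rel a a' := by
    intro m
    induction m with
    | zero => exact fun _ => .inr (.inr ⟨k, i, rfl, rfl, h⟩)
    | succ m ih =>
      intro hm
      rw [Function.iterate_succ_apply', Function.iterate_succ_apply']
      rcases ih (fun j hj => hm j (by omega)) with e | e | ⟨a, a', e, e', r⟩
      · rw [e]; exact .inl rfl
      · have := hm m (by omega); omega
      · rw [e, e']
        rcases hs : sc D (some a) with _ | j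
        · exact .inl rfl
        · obtain ⟨l, hl, r'⟩ := h1 a a' j r ((sc_eq h2).1 hs)
          rw [(sc_eq h2').2 hl]
          rcases r' with r' | r'
          · exact .inr (.inl (by simpa [code] using r'))
          · exact .inr (.inr ⟨j, l, rfl, rfl, r'⟩)
  refine not_lt.1 fun ⟨m, hm, hlt⟩ => ?_
  change code β ((sc D')^[m] (some i)) < code β ((sc D)^[m] (some k)) at hlt
  rcases key m hm with e | e | ⟨a, a', e, e', r⟩
  · rw [e] at hlt; simp [code] at hlt
  · omega
  · rw [e, e'] at hlt; have := h0 _ _ r; simp [code] at hlt; omega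

variable (β) in
def Rook (D : Finset (ι × ι)) : Prop :=
  (∀ p ∈ D, β p.1 < β p.2) ∧ (∀ p ∈ D, ∀ q ∈ D, p.1 = q.1 → p = q) ∧
    ∀ p ∈ D, ∀ q ∈ D, p.2 = q.2 → p = q

theorem key {D D' : Finset (ι × ι)} (hD : Rook β D) (hD' : Rook β D') {u w s s' : Matrix ι ι F}
    (hw : PP β w) (hs : RR β s) (us : JJ β (u - s)) (ws : JJ β (w - s)) (hss : s * s' = 1)
    (H : ∀ x, JJ β x → ∑ p ∈ D', (x * w : Matrix ι ι F) p.1 p.2 =
      ∑ p ∈ D, (u * x : Matrix ι ι F) p.1 p.2) :
    ∃ σ : Equiv.Perm ι, ∀ k, fwd β D k ≤ fwd β D' (σ k) ∧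
      ((∃ i, (i, σ k) ∈ D') → ∃ j, (j, k) ∈ D) := by
  have E : ∀ i j, β i < β j → ∑ p ∈ D', (if p.1 = i then w j p.2 else 0) =
      ∑ p ∈ D, (if p.2 = j then u p.1 i else 0) := by
    intro i j h
    have := H (single i j 1) fun a b hab =>
      single_apply_of_ne _ _ _ _ _ (by rintro ⟨rfl, rfl⟩; exact hab h)
    convert this using 2 with p _ p _
    · split_ifs with e
      · simp [e]
      · simp [single_mul_apply_of_ne, e]
    · split_ifs with e
      · simp [e]
      · simp [mul_single_apply_of_ne, e]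
  have E1 : ∀ i j l, (i, l) ∈ D' → ∑ p ∈ D', (if p.1 = i then w j p.2 else 0) = w j l :=
    fun i j l h => by
      rw [Finset.sum_eq_single (i, l) (fun p hp hne => if_neg fun e => hne (hD'.2.1 _ hp _ h e))
        (fun h' => absurd h h'), if_pos rfl]
  have E2 : ∀ i j k, (k, j) ∈ D → ∑ p ∈ D, (if p.2 = j then u p.1 i else 0) = u k i :=
    fun i j k h => by
      rw [Finset.sum_eq_single (k, j) (fun p hp hne => if_neg fun e => hne (hD.2.2 _ hp _ h e))
        (fun h' => absurd h h'), if_pos rfl]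
  have us' : ∀ i j, β i = β j → u i j = s i j := fun i j h => sub_eq_zero.1 (us i j (by omega))
  have ws' : ∀ i j, β i = β j → w i j = s i j := fun i j h => sub_eq_zero.1 (ws i j (by omega))
  have h0 : ∀ k i, s k i ≠ 0 → β k = β i := fun k i h => by_contra fun hc => h (hs k i hc)
  obtain ⟨σ, hσ⟩ : ∃ σ : Equiv.Perm ι, ∀ k, s k (σ k) ≠ 0 := by
    by_contra hc
    push Not at hc
    have : sᵀ.det = 0 := by
      rw [det_apply]
      refine Finset.sum_eq_zero fun σ _ => ?_
      obtain ⟨k, hk⟩ := hc σ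
      rw [Finset.prod_eq_zero (Finset.mem_univ k) hk, smul_zero]
    have h1 := congrArg det hss
    rw [det_mul, ← det_transpose s, this] at h1
    simp at h1
  refine ⟨σ, fun k => ⟨fwd_le hD.2.1 hD'.2.1 (fun k i => s k i ≠ 0) h0 (fun k i j r hj => ?_)
    (hσ k), fun ⟨i, hi⟩ => ?_⟩⟩
  · have e0 := h0 _ _ r
    have e1 := E i j (by have := hD.1 _ hj; simp only at this; omega)
    rw [E2 i j k hj, us' _ _ e0] at e1
    obtain ⟨⟨i', l⟩, hp, hne⟩ := Finset.exists_ne_zero_of_sum_ne_zero (e1 ▸ r)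
    obtain rfl : i' = i := by by_contra hc; exact hne (if_neg hc)
    rw [E1 _ j l hp] at e1
    refine ⟨l, hp, ?_⟩
    by_cases h : β j = β l
    · exact .inr (by rw [← ws' _ _ h, e1]; exact r)
    · have : β j ≤ β l := by_contra fun hc => r (e1 ▸ hw j l hc)
      exact .inl (by omega)
  · have e0 := h0 _ _ (hσ k)
    have e1 := E i k (by have := hD'.1 _ hi; simp only at this; omega)
    rw [E1 i k _ hi, ws' _ _ e0] at e1
    obtain ⟨⟨j, k'⟩, hp, hne⟩ := Finset.exists_ne_zero_of_sum_ne_zero (e1 ▸ hσ k)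
    obtain rfl : k' = k := by by_contra hc; exact hne (if_neg hc)
    exact ⟨j, hp⟩

theorem perm_eq {α : Type*} [PartialOrder α] (τ : ι → α) (π : Equiv.Perm ι)
    (h : ∀ k, τ k ≤ τ (π k)) (k : ι) : τ (π k) = τ k := by
  have h1 : ∀ n k, τ k ≤ τ ((π ^ n) k) := by
    intro n
    induction n with
    | zero => simp
    | succ n ih => intro k; rw [pow_succ']; exact (ih k).trans (h _)
  refine le_antisymm ?_ (h k)
  have := h1 (orderOf π - 1) (π k)
  rwa [← Equiv.Perm.mul_apply, ← pow_succ, Nat.sub_add_cancel (orderOf_pos π),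
    pow_orderOf_eq_one] at this

theorem uniq {D : Finset (ι × ι)} (hD : Rook β D) {a a' : ι} (ha : ∀ x, (x, a) ∉ D)
    (ha' : ∀ x, (x, a') ∉ D) (m : ℕ) : ∀ m' k, (sc D)^[m] (some a) = some k →
      (sc D)^[m'] (some a') = some k → m = m' ∧ a = a' := by
  have back : ∀ m a k, (sc D)^[m + 1] (some a) = some k →
      ∃ x, (sc D)^[m] (some a) = some x ∧ (x, k) ∈ D := by
    intro m a k h
    rw [Function.iterate_succ_apply'] at h
    rcases e : (sc D)^[m] (some a) with _ | x
    · rw [e] at h; simp [sc] at h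
    · rw [e] at h; exact ⟨x, rfl, (sc_eq hD.2.1).1 h⟩
  induction m with
  | zero =>
    intro m' k h h'
    obtain rfl : a = k := Option.some.inj h
    rcases m' with _ | m'
    · exact ⟨rfl, (Option.some.inj h').symm⟩
    · obtain ⟨x, -, hx⟩ := back _ _ _ h'
      exact absurd hx (ha x)
  | succ m ih =>
    intro m' k h h'
    obtain ⟨x, e, hx⟩ := back _ _ _ h
    rcases m' with _ | m'
    · obtain rfl : a' = k := Option.some.inj h'
      exact absurd hx (ha' x)
    · obtain ⟨x', e', hx'⟩ := back _ _ _ h'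
      obtain rfl : x = x' := congrArg Prod.fst (hD.2.2 _ hx _ hx' rfl)
      obtain ⟨rfl, rfl⟩ := ih m' x e e'
      exact ⟨rfl, rfl⟩

theorem build {D D' : Finset (ι × ι)} (hD : Rook β D) (hD' : Rook β D') (σ : Equiv.Perm ι)
    (h1 : ∀ k, fwd β D' (σ k) = fwd β D k) (h2 : ∀ k, (∃ i, (i, σ k) ∈ D') → ∃ j, (j, k) ∈ D) :
    ∃ w : Equiv.Perm ι, (∀ i, β (w i) = β i) ∧ D' = D.image (Prod.map w w) := by
  have h1' : ∀ k m, code β ((sc D')^[m] (some (σ k))) = code β ((sc D)^[m] (some k)) :=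
    fun k m => congrFun (toLex.injective (h1 k)) m
  have ex : ∀ n k, β k < n → ∃ m a, (∀ x, (x, a) ∉ D) ∧ (sc D)^[m] (some a) = some k := by
    intro n
    induction n with
    | zero => simp
    | succ n ih =>
      intro k hk
      by_cases h : ∃ x, (x, k) ∈ D
      · obtain ⟨x, hx⟩ := h
        obtain ⟨m, a, ha, e⟩ := ih x (by have := hD.1 _ hx; simp only at this; omega)
        exact ⟨m + 1, a, ha, by rw [Function.iterate_succ_apply', e, sc_eq hD.2.1]; exact hx⟩
      · exact ⟨0, k, by simpa using h, rfl⟩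
  have ex2 : ∀ k, ∃ i, β i = β k ∧ ∃ m a, (∀ x, (x, a) ∉ D) ∧ (sc D)^[m] (some a) = some k ∧
      (sc D')^[m] (some (σ a)) = some i := by
    intro k
    obtain ⟨m, a, ha, e⟩ := ex _ k (Nat.lt_succ_self _)
    have := h1' a m
    rw [e] at this
    rcases e' : (sc D')^[m] (some (σ a)) with _ | i
    · rw [e'] at this; simp [code] at this
    · rw [e'] at this; exact ⟨i, by simpa [code] using this, m, a, ha, e, e'⟩
  choose W hW m a ha e e' using ex2
  have src : ∀ k x, (x, σ (a k)) ∉ D' := fun k x h => by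
    obtain ⟨j, hj⟩ := h2 _ ⟨x, h⟩
    exact ha k j hj
  have inj : Function.Injective W := fun k k' h => by
    obtain ⟨e1, e2⟩ := uniq hD' (src k) (src k') _ _ _ (e' k) (h ▸ e' k')
    have := e k
    rw [e1, σ.injective e2, e k'] at this
    exact (Option.some.inj this).symm
  have edge : ∀ k j, (k, j) ∈ D → (W k, W j) ∈ D' := fun k j h => by
    obtain ⟨e1, e2⟩ := uniq hD (ha k) (ha j) (m k + 1) _ j (by
      rw [Function.iterate_succ_apply', e, sc_eq hD.2.1]; exact h) (e j)
    have := e' j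
    rwa [← e1, ← e2, Function.iterate_succ_apply', e', sc_eq hD'.2.1] at this
  have bij := Finite.injective_iff_bijective.1 inj
  refine ⟨Equiv.ofBijective W bij, hW, ?_⟩
  ext ⟨i, l⟩
  simp only [Finset.mem_image]
  refine ⟨fun h => ?_, ?_⟩
  · obtain ⟨k, rfl⟩ := bij.2 i
    have := h1' (a k) (m k + 1)
    rw [Function.iterate_succ_apply', Function.iterate_succ_apply', e, e',
      (sc_eq hD'.2.1).2 h] at this
    rcases hs : sc D (some k) with _ | j
    · rw [hs] at this; simp [code] at this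
    · have hj := (sc_eq hD.2.1).1 hs
      exact ⟨(k, j), hj, hD'.2.1 _ (edge k j hj) _ h rfl⟩
  · rintro ⟨⟨k, j⟩, h, e⟩
    rw [← e]; exact edge k j h

theorem conj_of {D D' : Finset (ι × ι)} (hD : Rook β D) (hD' : Rook β D')
    {r r' a b : Matrix ι ι F} (e1 : r * r' = 1) (e2 : r' * r = 1) (hr : RR β r) (hr' : RR β r')
    (ha : JJ β (a - 1)) (hb : JJ β (b - 1))
    (H : ∀ x, JJ β x → ∑ p ∈ D', x p.1 p.2 = 
      ∑ p ∈ D, (b * r' * x * r * a : Matrix ι ι F) p.1 p.2) :
    ∃ w : Equiv.Perm ι, (∀ i, β (w i) = β i) ∧ D' = D.image (Prod.map w w) := by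
  obtain ⟨a', a1, a2, ha'⟩ := ha.ninv
  obtain ⟨b', b1, b2, hb'⟩ := hb.ninv
  have pp : ∀ {x y : Matrix ι ι F}, RR β y → JJ β (x - y) → PP β x := fun hy h i j hij => by
    have := h i j (by omega)
    rwa [Matrix.sub_apply, hy.pp i j hij, sub_zero] at this
  have l1 : ∀ {x y : Matrix ι ι F}, JJ β (x - 1) → RR β y → JJ β (x * y - y) := fun hx hy => by
    simpa [sub_mul] using hx.mulP hy.pp
  have l2 : ∀ {x y : Matrix ι ι F}, JJ β (x - 1) → RR β y → JJ β (y * x - y) := fun hx hy => by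
    simpa [mul_sub] using hy.pp.mulJ hx
  obtain ⟨σ, hσ⟩ := key hD hD' (pp hr' (l1 ha' hr')) hr' (l1 hb hr') (l1 ha' hr') e2 fun x hx => by
    rw [H _ (hx.mulP (pp hr' (l1 ha' hr')))]
    simp only [mul_assoc]
    rw [← mul_assoc r' r, e2, one_mul, a2, mul_one]
  obtain ⟨σ', hσ'⟩ := key hD' hD (pp hr (l2 ha hr)) hr (l2 hb' hr) (l2 ha hr) e1 fun x hx => by
    rw [H _ ((pp hr (l2 hb' hr)).mulJ hx)]
    simp only [mul_assoc]
    rw [← mul_assoc r' r, e2, one_mul, ← mul_assoc b b', b1, one_mul]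
  refine build hD hD' σ (fun k => le_antisymm ?_ (hσ k).1) fun k => (hσ k).2
  exact (hσ' _).1.trans
    (perm_eq (fwd β D) (σ' * σ) (fun k => (hσ k).1.trans (hσ' _).1) k).le

open RkD in
theorem q2 {n : ℕ} (c : Composition n) (D D' : Finset (Fin n × Fin n)) (hD : IsRook c D)
    (hD' : IsRook c D') : Eqv c (lam c F D) (lam c F D') ↔
      ∃ w : Equiv.Perm (Fin n), (∀ i, c.index (w i) = c.index i) ∧
        D' = D.image (Prod.map w w) := by
  constructor
  · rintro ⟨r, a, b, hr, ha, hb, H⟩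
    have hr0 : RR (fun i => (c.index i : ℕ)) r.val := fun i j h => hr i j fun e => h (congrArg Fin.val e)
    have hr' : RR (fun i => (c.index i : ℕ)) (r⁻¹).val := by
      letI := r.invertible
      have t1 : BlockTriangular r.val fun i => (c.index i : ℕ) := fun i j h => hr0 i j h.ne'
      have t2 : BlockTriangular r.val fun i => OrderDual.toDual (c.index i : ℕ) :=
        fun i j h => hr0 i j (OrderDual.toDual_lt_toDual.1 h).ne
      intro i j h
      rw [Matrix.coe_units_inv]
      rcases lt_or_gt_of_ne h with h | h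
      · exact blockTriangular_inv_of_blockTriangular t2 (OrderDual.toDual_lt_toDual.2 h)
      · exact blockTriangular_inv_of_blockTriangular t1 h
    obtain ⟨w, h1, h2⟩ := conj_of (β := fun i => (c.index i : ℕ)) hD hD' r.mul_inv r.inv_mul hr0 hr'
      ha hb fun x hx => by
        obtain ⟨y, e, h⟩ := H ⟨x, hx⟩
        rw [lam_apply, lam_apply, e] at h
        exact h
    exact ⟨w, fun i => Fin.ext (h1 i), h2⟩
  · rintro ⟨w, hw, rfl⟩
    have e1 : w.symm.toPEquiv.toMatrix * w.toPEquiv.toMatrix = (1 : Matrix (Fin n) (Fin n) F) := by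
      rw [← PEquiv.toMatrix_trans, ← Equiv.toPEquiv_trans]; simp
    have e2 : w.toPEquiv.toMatrix * w.symm.toPEquiv.toMatrix = (1 : Matrix (Fin n) (Fin n) F) := by
      rw [← PEquiv.toMatrix_trans, ← Equiv.toPEquiv_trans]; simp
    refine ⟨⟨_, _, e1, e2⟩, 1, 1, fun i j h => ?_, by simp [InN], by simp [InN], fun x =>
      ⟨⟨x.val.submatrix w w, fun i j h => x.2 _ _ (by rwa [hw, hw])⟩, ?_, ?_⟩⟩
    · have : w.symm i ≠ j := fun e => h (by rw [← e, ← hw (w.symm i)]; simp)
      show w.symm.toPEquiv.toMatrix i j = 0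
      simp [PEquiv.toMatrix_apply, this]
    · show _ = 1 * w.toPEquiv.toMatrix * x.val * w.symm.toPEquiv.toMatrix * 1
      rw [one_mul, mul_one, PEquiv.toMatrix_toPEquiv_mul, PEquiv.mul_toMatrix_toPEquiv]
      rfl
    · rw [lam_apply, lam_apply, Finset.sum_image
        (w.injective.prodMap w.injective).injOn]
      rfl

end Pool.Agent.H8.Rk
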