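import Pool.Agent.H8.SbDefs
import Pool.Agent.H8.Gs4

namespace Pool.Agent.H8.Sb

open Finset

def T (g : ℕ × ℕ → ℕ) (p : ℕ × ℕ) : ℕ :=
  ∑ i ∈ range p.1, g (i + 1, p.2 + 1) + ∑ j ∈ range p.2, g (p.1 + j + 1, p.2 - j)

lemma tree {α : Type} (A : ℕ → Finset α) (lab : ℕ → α → ℕ × ℕ)
    (h0 : ∀ g : ℕ × ℕ → ℕ, ∑ l ∈ A 0, g (lab 0 l) = g (1, 1))
    (h : ∀ n (g : ℕ × ℕ → ℕ), ∑ l ∈ A (n + 1), g (lab (n + 1) l) = ∑ l ∈ A n, T g (lab n l)) :
    ∀ n (g : ℕ × ℕ → ℕ), ∑ l ∈ A n, g (lab n l) = T^[n] g (1, 1)
  | 0, g => h0 g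
  | n + 1, g => by rw [h, tree A lab h0 h n, Function.iterate_succ_apply]

def Av (l : List ℕ) : Prop := ∀ t i k, i < t → t + 1 < k → ¬ List.Sublist [t + 1, i, k, t] l

def Act (U V : List ℕ) : Prop := ∀ t i, i < t → List.Sublist [t + 1, i] U → t ∉ V

lemma av_mid {N : ℕ} {U V : List ℕ} (hU : ∀ x ∈ U, x < N) (hV : ∀ x ∈ V, x < N) :
    Av (U ++ N :: V) ↔ Av (U ++ V) ∧ Act U V := by
  refine ⟨fun h => ⟨fun t i k a b c => h t i k a b (Du.sub4.2 (Or.inl c)), fun t i a b c =>
    h t i N a (hU _ (b.subset (by simp))) (Du.sub4.2 (by simp [b, c]))⟩, fun h t i k a b c => ?_⟩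
  rcases Du.sub4.1 c with c | ⟨e, c⟩ | ⟨e, -, c⟩ | ⟨e, c, d⟩ | ⟨e, c⟩
  · exact h.1 t i k a b c
  · have := hV k (c.subset (by simp)); omega
  · have := hV k (c.subset (by simp)); omega
  · exact h.2 t i a c d
  · have := hU k (c.subset (by simp)); omega

lemma act_left {N : ℕ} {U W V : List ℕ} (hU : ∀ x ∈ U, x < N) :
    Act U (W ++ N :: V) ↔ Act U (W ++ V) := by
  refine forall₄_congr fun t i a b => ?_
  have := hU _ (b.subset (List.mem_cons_self ..))
  simp [show t ≠ N by omega]

lemma act_right {n : ℕ} {U W V : List ℕ} (hU : ∀ x ∈ U, x < n + 1) (hW : ∀ x ∈ W, x < n + 1)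
    (hV : ∀ x ∈ V, x < n + 1) (nd : n ∈ V → n ∉ W) :
    Act (U ++ (n + 1) :: W) V ↔ Act (U ++ W) V ∧ (n ∈ V → W = []) := by
  refine ⟨fun h => ⟨fun t i a b => h t i a (Gs.sub2.2 (Or.inl b)), fun c => ?_⟩,
    fun h t i a b c => ?_⟩
  · rcases W with _ | ⟨w, W⟩
    · rfl
    · have h1 := hW w (by simp)
      have h2 : w ≠ n := fun e => nd c (by simp [e])
      exact absurd c (h n w (by omega) (Gs.sub2.2 (by simp)))
  · rcases Gs.sub2.1 b with b | ⟨e, b'⟩ | ⟨e, b⟩
    · exact h.1 t i a b c
    · obtain rfl : t = n := by omega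
      simp [h.2 c] at b'
    · have := hV t c; omega

def act (l : List ℕ) (j : ℕ) : Prop := Act (l.take j) (l.drop j)

open Classical in
noncomputable def A (n : ℕ) : Finset (List ℕ) :=
  (List.range' 0 (n + 1)).permutations.toFinset.filter Av

lemma mem_A {n : ℕ} {l : List ℕ} : l ∈ A n ↔ l.Perm (List.range' 0 (n + 1)) ∧ Av l := by
  simp [A]

open Classical in
noncomputable def lab (n : ℕ) (l : List ℕ) : ℕ × ℕ := (Nat.count (act l) (l.idxOf n + 1),
  Nat.count (act l) (n + 2) - Nat.count (act l) (l.idxOf n + 1))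

lemma sum_count {p : ℕ → Prop} [DecidablePred p] (f : ℕ → ℕ) (a : ℕ) : ∀ b : ℕ,
    ∑ j ∈ range b, (if p (a + j) then f (Nat.count p (a + j)) else 0) =
      ∑ i ∈ range (Nat.count p (a + b) - Nat.count p a), f (Nat.count p a + i)
  | 0 => by simp
  | b + 1 => by
    have := Nat.count_monotone p (Nat.le_add_right a b)
    rw [sum_range_succ, sum_count f a b, ← add_assoc, Nat.count_succ]
    split_ifs
    · rw [show Nat.count p (a + b) + 1 - Nat.count p a
        = Nat.count p (a + b) - Nat.count p a + 1 by omega, sum_range_succ]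
      congr 2; omega
    · simp

lemma count_congr {p q : ℕ → Prop} [DecidablePred p] [DecidablePred q] {a a' : ℕ} : ∀ b : ℕ,
    (∀ j < b, p (a + j) ↔ q (a' + j)) →
      Nat.count p (a + b) + Nat.count q a' = Nat.count q (a' + b) + Nat.count p a
  | 0, _ => by simp [add_comm]
  | b + 1, h => by
    have := count_congr b fun j hj => h j (by omega)
    simp only [← add_assoc, Nat.count_succ, h b (by omega)]
    omega

open Classical in
lemma lab_child {n j : ℕ} {l : List ℕ} (h : l.Perm (List.range' 0 (n + 1))) (hj : j < n + 2)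
    (ha : act l j) : lab (n + 1) (l.take j ++ (n + 1) :: l.drop j) =
      (Nat.count (act l) j + 1, if j ≤ l.idxOf n then (lab n l).2 + 1
        else Nat.count (act l) (n + 2) - Nat.count (act l) j) := by
  have lt : ∀ x ∈ l, x < n + 1 := fun x hx => by simpa using h.mem_iff.1 hx
  have len : l.length = n + 1 := by simpa using h.length_eq
  have nd : l.Nodup := h.nodup_iff.2 List.nodup_range'
  have lj : (l.take j).length = j := by simp; omega
  have mem : n ∈ l := h.mem_iff.2 (by simp)
  have hc : l.idxOf n < n + 1 := len ▸ List.idxOf_lt_length_of_mem mem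
  have ix : (l.take j ++ (n + 1) :: l.drop j).idxOf (n + 1) = j := by
    rw [List.idxOf_append_of_notMem fun hx => by have := lt _ (List.mem_of_mem_take hx); omega]
    simp [lj]
  have h1 : ∀ i < j + 1, act (l.take j ++ (n + 1) :: l.drop j) (0 + i) ↔ act l (0 + i) := by
    intro i hi
    rw [act, act, zero_add, List.take_append_of_le_length (by omega),
      List.drop_append_of_le_length (by omega), List.take_take, min_eq_left (by omega),
      act_left fun x hx => lt x (List.mem_of_mem_take hx), ← List.drop_append_of_le_length (by omega),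
      List.take_append_drop]
  have h2 : ∀ i, act (l.take j ++ (n + 1) :: l.drop j) (j + 1 + i) ↔
      act l (j + i) ∧ (j + i ≤ l.idxOf n → i = 0) := by
    intro i
    have dm : n ∈ l.drop (j + i) ↔ j + i ≤ l.idxOf n := by
      have h1 := List.mem_take_iff_idxOf_lt mem (n := j + i)
      have h2 : n ∈ l.take (j + i) ++ l.drop (j + i) := by rwa [List.take_append_drop]
      have h3 : (l.take (j + i) ++ l.drop (j + i)).Nodup := by rwa [List.take_append_drop]
      have h4 := fun a b => (List.nodup_append.1 h3).2.2 n a n b rfl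
      rw [List.mem_append] at h2
      rw [← not_lt, ← h1]; tauto
    rw [act, act, show j + 1 + i = (l.take j).length + (i + 1) by omega, List.take_length_add_append,
      List.drop_length_add_append, List.take_succ_cons, List.drop_succ_cons, List.drop_drop,
      act_right (fun x hx => lt x (List.mem_of_mem_take hx))
        (fun x hx => lt x (List.mem_of_mem_drop (List.mem_of_mem_take hx)))
        (fun x hx => lt x (List.mem_of_mem_drop hx)), ← List.take_add, dm]
    · refine and_congr_right fun _ => imp_congr_right fun _ => ?_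
      simp; omega
    · intro a b
      rw [dm] at a
      have : n ∈ l.take (j + i) := by rw [List.take_add]; simp [b]
      rw [List.mem_take_iff_idxOf_lt mem] at this
      omega
  have c1 := count_congr _ h1
  simp only [zero_add, Nat.count_zero, add_zero, Nat.count_succ (act l), if_pos ha] at c1
  simp only [lab, ix, c1, Prod.mk.injEq, true_and]
  split_ifs with hc
  · obtain ⟨d, hd⟩ := Nat.exists_eq_add_of_le hc
    have c2 := count_congr (p := act (l.take j ++ (n + 1) :: l.drop j)) (q := fun _ => False)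
      (a := j + 2) (a' := 0) d fun i hi => by
        rw [show j + 2 + i = j + 1 + (i + 1) by omega, h2]; simp; omega
    have c3 := count_congr (p := act (l.take j ++ (n + 1) :: l.drop j)) (q := act l)
      (a := j + 2 + d) (a' := j + d + 1) (n + 1 - (j + d)) fun i hi => by
        rw [show j + 2 + d + i = j + 1 + (d + 1 + i) by omega, h2,
          show j + d + 1 + i = j + (d + 1 + i) by omega]; simp; omega
    have c4 := Nat.count_succ (act (l.take j ++ (n + 1) :: l.drop j)) (j + 1)
    rw [if_pos ((h2 0).2 ⟨ha, by simp⟩)] at c4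
    have := Nat.count_monotone (act l) (show j + d + 1 ≤ n + 2 by omega)
    rw [show j + 2 + d + (n + 1 - (j + d)) = n + 1 + 2 by omega,
      show j + d + 1 + (n + 1 - (j + d)) = n + 2 by omega] at c3
    simp at c2
    rw [hd]
    simp only [add_assoc] at *
    norm_num at *
    omega
  · have c3 := count_congr (p := act (l.take j ++ (n + 1) :: l.drop j)) (q := act l)
      (a := j + 1) (a' := j) (n + 2 - j) fun i hi => by rw [h2]; simp; omega
    rw [show j + 1 + (n + 2 - j) = n + 1 + 2 by omega, show j + (n + 2 - j) = n + 2 by omega] at c3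
    omega

lemma stepA (n : ℕ) (g : ℕ × ℕ → ℕ) :
    ∑ l ∈ A (n + 1), g (lab (n + 1) l) = ∑ l ∈ A n, T g (lab n l) := by
  classical
  have : ∑ l ∈ A (n + 1), g (lab (n + 1) l) = ∑ p ∈ (A n).sigma fun l => (range (n + 2)).filter
      (act l), g (lab (n + 1) (p.1.take p.2 ++ (n + 1) :: p.1.drop p.2)) := by
    symm
    have R : List.range' 0 (n + 1 + 1) = List.range' 0 (n + 1) ++ [n + 1] := by
      simp [List.range'_concat]
    refine sum_bij (fun p _ => p.1.take p.2 ++ (n + 1) :: p.1.drop p.2) ?_ ?_ ?_ fun _ _ => rfl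
    · rintro ⟨l, j⟩ h
      simp only [mem_sigma, mem_A, mem_filter, mem_range] at h ⊢
      have lt : ∀ x ∈ l, x < n + 1 := fun x hx => by simpa using h.1.1.mem_iff.1 hx
      rw [av_mid (fun x hx => lt x (List.mem_of_mem_take hx))
        (fun x hx => lt x (List.mem_of_mem_drop hx)), List.take_append_drop, R]
      refine ⟨List.perm_middle.trans (List.Perm.trans ?_ (List.perm_append_singleton ..).symm),
        h.1.2, h.2.2⟩
      simpa using h.1.1
    · rintro ⟨l, j⟩ h ⟨l', j'⟩ h' e
      simp only [mem_sigma, mem_A, mem_filter, mem_range] at h h' e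
      have nm : ∀ {l : List ℕ} (j : ℕ), l.Perm (List.range' 0 (n + 1)) → n + 1 ∉ l.take j :=
        fun j h hx => by simpa using h.mem_iff.1 (List.mem_of_mem_take hx)
      obtain ⟨e1, e2⟩ := Du.split_inj (nm j h.1.1) (nm j' h'.1.1) e
      have e3 := congrArg List.length e1
      have l1 := h.1.1.length_eq
      have l2 := h'.1.1.length_eq
      simp only [List.length_take, List.length_range'] at e3 l1 l2
      obtain rfl : j = j' := by omega
      rw [← List.take_append_drop j l, e1, e2, List.take_append_drop]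
    · intro l h
      rw [mem_A, R] at h
      obtain ⟨U, V, rfl⟩ := List.append_of_mem (h.1.mem_iff.2 (by simp : n + 1 ∈ _))
      have p : (U ++ V).Perm (List.range' 0 (n + 1)) :=
        (List.perm_middle.symm.trans (h.1.trans (List.perm_append_singleton ..))).cons_inv
      have lt : ∀ x ∈ U ++ V, x < n + 1 := fun x hx => by simpa using p.mem_iff.1 hx
      have h2 := (av_mid (fun x hx => lt x (by simp [hx])) (fun x hx => lt x (by simp [hx]))).1 h.2
      have := p.length_eq
      refine ⟨⟨U ++ V, U.length⟩, ?_, by simp⟩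
      simp only [mem_sigma, mem_A, mem_filter, mem_range]
      exact ⟨⟨p, h2.1⟩, by simp at this; omega, by simpa [act] using h2.2⟩
  rw [this, sum_sigma]
  refine sum_congr rfl fun l hl => ?_
  have h := (mem_A.1 hl).1
  have hc : l.idxOf n < n + 1 := by
    simpa [h.length_eq] using List.idxOf_lt_length_of_mem (h.mem_iff.2 (by simp : n ∈ _))
  rw [sum_congr rfl fun j hj => by
    rw [lab_child h (mem_range.1 (mem_filter.1 hj).1) (mem_filter.1 hj).2], sum_filter]
  obtain ⟨d, hd⟩ : ∃ d, n + 2 = l.idxOf n + 1 + d := ⟨n + 1 - l.idxOf n, by omega⟩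
  have s1 := sum_count (p := act l) (fun c => g (c + 1, (lab n l).2 + 1)) 0 (l.idxOf n + 1)
  have s2 := sum_count (p := act l) (fun c => g (c + 1, Nat.count (act l) (n + 2) - c))
    (l.idxOf n + 1) d
  rw [← hd] at s2
  simp only [zero_add, Nat.count_zero, Nat.sub_zero] at s1
  rw [hd, sum_range_add, ← hd, T]
  congr 1
  · exact (sum_congr rfl fun j hj => by rw [if_pos (Nat.lt_succ_iff.1 (mem_range.1 hj))]).trans s1
  · refine (sum_congr rfl fun j hj => by rw [if_neg (show ¬ _ ≤ l.idxOf n by omega)]).trans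
      (s2.trans ?_)
    simp only [lab, Nat.sub_sub]

lemma perm_side (n : ℕ) : v (n + 1) = T^[n] 1 (1, 1) := by
  classical
  have h0 : ∀ g : ℕ × ℕ → ℕ, ∑ l ∈ A 0, g (lab 0 l) = g (1, 1) := fun g => by
    have : A 0 = {[0]} := by
      ext l
      simp only [mem_A, mem_singleton]
      refine ⟨fun h => by simpa using h.1, ?_⟩
      rintro rfl
      exact ⟨by simp, fun t i k _ _ h => by simpa using h.length_le⟩
    simp [this, lab, Nat.count_succ, act, Act]
  rw [← tree A lab h0 stepA]
  have inj : Function.Injective fun π : Equiv.Perm (Fin (n + 1)) => Pc.word π⁻¹ := fun π ρ e => by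
    have := List.ofFn_injective e
    exact inv_injective (Equiv.ext fun i => Fin.ext (congrFun this i))
  have key : ∀ π : Equiv.Perm (Fin (n + 1)), ¬ Contains2413 π ↔ Av (Pc.word π⁻¹) := fun π => by
    simp only [Av, Pc.word, Du.sub_ofFn]
    constructor
    · rintro h t i k a b ⟨f, hf, e0, e1, e2, e3⟩
      refine h ⟨π⁻¹ (f 1), π⁻¹ (f 3), π⁻¹ (f 0), π⁻¹ (f 2), by omega, ?_, ?_, ?_⟩
      · rw [Fin.lt_def]; omega
      · rw [Fin.lt_def]; omega
      · simpa using ⟨hf (by decide), hf (by decide), hf (by decide)⟩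
    · rintro h ⟨i, j, j', k, e, a, b, c, d, d'⟩
      refine h j i k a (e ▸ b) ⟨![π j', π i, π k, π j], ?_, by simp [e]⟩
      rw [Fin.strictMono_iff_lt_succ]
      intro x
      fin_cases x <;> simp [c, d, d']
  rw [v, ← Set.ncard_image_of_injective _ inj, Pi.one_def, sum_const, smul_eq_mul, mul_one,
    ← Set.ncard_coe_finset]
  congr 1
  ext l
  simp only [Set.mem_image, Set.mem_setOf_eq, mem_coe, mem_A, key]
  refine ⟨fun ⟨π, h, e⟩ => e ▸ ⟨Pc.word_perm _, h⟩, fun h => ?_⟩
  obtain ⟨π, rfl⟩ := Pc.exists_word h.1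
  exact ⟨π⁻¹, by simpa using h.2, by simp⟩

end Pool.Agent.H8.Sb
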