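import Pool.Agent.H8.Sb1

namespace Pool.Agent.H8.Sb

open Finset

def ml (l : List ℕ) : ℕ × ℕ :=
  l.foldl (fun p x => (max p.1 x, if x < p.1 then max p.2 x else p.2)) (0, 0)

lemma ml_concat (l : List ℕ) (x : ℕ) : ml (l ++ [x]) =
    (max (ml l).1 x, if x < (ml l).1 then max (ml l).2 x else (ml l).2) := by
  simp [ml]

lemma ml1 (l : List ℕ) (x : ℕ) : x < (ml l).1 ↔ ∃ a ∈ l, x < a := by
  induction l using List.reverseRecOn with
  | nil => simp [ml]
  | append_singleton l y ih => simp [ml_concat, ih, or_and_right, exists_or]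

lemma ml2 (l : List ℕ) (x : ℕ) : x < (ml l).2 ↔ ∃ a b, x < b ∧ b < a ∧ List.Sublist [a, b] l := by
  induction l using List.reverseRecOn with
  | nil => simp [ml]
  | append_singleton l y ih =>
    simp only [ml_concat, Gs.sub2, List.append_nil]
    split_ifs with h
    · rw [lt_max_iff, ih]
      obtain ⟨c, hc, h⟩ := (ml1 l y).1 h
      constructor
      · rintro (⟨a, b, h1, h2, h3⟩ | h1)
        exacts [⟨a, b, h1, h2, Or.inl h3⟩, ⟨c, y, h1, h, by simp [hc]⟩]
      · rintro ⟨a, b, h1, h2, h3 | h3 | ⟨rfl, h3⟩⟩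
        exacts [Or.inl ⟨a, b, h1, h2, h3⟩, by simp at h3, Or.inr h1]
    · rw [ih]
      refine ⟨fun ⟨a, b, h1, h2, h3⟩ => ⟨a, b, h1, h2, Or.inl h3⟩, ?_⟩
      rintro ⟨a, b, h1, h2, h3 | h3 | ⟨rfl, h3⟩⟩
      exacts [⟨a, b, h1, h2, h3⟩, by simp at h3, absurd ((ml1 l b).2 ⟨a, h3, h2⟩) h]

lemma av_concat (l : List ℕ) (x : ℕ) : Avoids210 (l ++ [x]) ↔ Avoids210 l ∧ (ml l).2 ≤ x := by
  rw [← not_lt, ml2]
  constructor
  · intro h
    refine ⟨fun ⟨i, j, k, hk, a, b, c, d⟩ => h ⟨i, j, k, by simp; omega, a, b, ?_⟩,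
      fun ⟨a, b, h1, h2, h3⟩ => ?_⟩
    · simpa only [List.getElem_append_left hk, List.getElem_append_left (b.trans hk),
        List.getElem_append_left (a.trans (b.trans hk))] using ⟨c, d⟩
    · have h4 : ¬ l.Pairwise fun u w => ¬ (x < w ∧ w < u) := fun H =>
        List.pairwise_iff_forall_sublist.1 H h3 ⟨h1, h2⟩
      rw [List.pairwise_iff_getElem] at h4
      push Not at h4
      obtain ⟨i, j, hi, hj, c, d, e⟩ := h4
      refine h ⟨i, j, l.length, by simp, c, hj, ?_⟩
      simpa [List.getElem_append_left hi, List.getElem_append_left hj] using ⟨e, d⟩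
  · rintro ⟨h, h'⟩ ⟨i, j, k, hk, a, b, c, d⟩
    simp only [List.length_append, List.length_singleton] at hk
    have hj : j < l.length := by omega
    rw [List.getElem_append_left hj] at c d
    rw [List.getElem_append_left (a.trans hj)] at c
    by_cases e : k < l.length
    · rw [List.getElem_append_left e] at d
      exact h ⟨i, j, k, e, a, b, c, d⟩
    · obtain rfl : k = l.length := by omega
      refine h' ⟨_, _, by simpa using d, c, ?_⟩
      by_contra hc
      have : l.Pairwise fun u w => ¬ (u = l[i] ∧ w = l[j]) :=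
        List.pairwise_iff_forall_sublist.2 fun {u w} s e => hc (e.1 ▸ e.2 ▸ s)
      exact List.pairwise_iff_getElem.1 this i j _ hj a ⟨rfl, rfl⟩

lemma wa_concat {l : List ℕ} (hl : l ≠ []) (x : ℕ) :
    IsWeakAscent (l ++ [x]) ↔ IsWeakAscent l ∧ x ≤ 1 + wasc l := by
  have hp := List.length_pos_iff.2 hl
  rw [IsWeakAscent, IsWeakAscent, List.head?_append_of_ne_nil _ hl, and_assoc]
  refine and_congr_right fun _ => ⟨fun h => ⟨fun i hi h1 => ?_, ?_⟩, fun h i hi h1 => ?_⟩
  · have := h i (by simp; omega) h1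
    rwa [List.getElem_append_left hi, List.take_append_of_le_length hi.le] at this
  · simpa using h l.length (by simp) hp
  · by_cases e : i < l.length
    · simpa [List.getElem_append_left e, List.take_append_of_le_length e.le] using h.1 i e h1
    · obtain rfl : i = l.length := by simp at hi; omega
      simpa using h.2

lemma wasc_concat (y x : ℕ) : ∀ l : List ℕ,
    wasc (l ++ [y] ++ [x]) = wasc (l ++ [y]) + if y ≤ x then 1 else 0
  | [] => by simp [wasc]
  | [a] => by simp [wasc]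
  | a :: b :: l => by
    have := wasc_concat y x (b :: l)
    simp only [List.cons_append] at this
    simp only [List.cons_append, wasc, this, add_assoc]

def B : ℕ → Finset (List ℕ)
  | 0 => {[0]}
  | n + 1 => ((B n).sigma fun l => Ico (ml l).2 (2 + wasc l)).image fun p => p.1 ++ [p.2]

lemma mem_B : ∀ (n : ℕ) (l : List ℕ), l ∈ B n ↔ l.length = n + 1 ∧ IsWeakAscent l ∧ Avoids210 l
  | 0, l => by
    simp only [B, mem_singleton]
    constructor
    · rintro rfl
      exact ⟨rfl, ⟨rfl, fun i h h1 => by simp at h; omega⟩,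
        fun ⟨i, j, k, h, _, _, _⟩ => by simp at h; omega⟩
    · rintro ⟨h, ⟨h1, -⟩, -⟩
      obtain ⟨x, rfl⟩ := List.length_eq_one_iff.1 h
      simpa using h1
  | n + 1, l => by
    simp only [B, mem_image, mem_sigma, mem_B n, mem_Ico]
    constructor
    · rintro ⟨⟨l, x⟩, ⟨⟨h1, h2, h3⟩, h4, h5⟩, rfl⟩
      simp only at *
      rw [wa_concat (by rintro rfl; simp at h1), av_concat]
      exact ⟨by simp [h1], ⟨h2, by omega⟩, h3, h4⟩
    · rintro ⟨h1, h2, h3⟩
      obtain ⟨l, x, rfl⟩ := (List.eq_nil_or_concat' l).resolve_left (by rintro rfl; simp at h1)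
      simp at h1
      rw [wa_concat (by rintro rfl; simp at h1)] at h2
      rw [av_concat] at h3
      exact ⟨⟨l, x⟩, ⟨⟨h1, h2.1, h3.1⟩, h3.2, by simp; omega⟩, rfl⟩

def Inv (l : List ℕ) : Prop := (ml l).2 ≤ (ml l).1 ∧ (ml l).1 ≤ wasc l ∧ ∃ l' y, l = l' ++ [y] ∧
  (y = (ml l).1 ∨ (y = (ml l).2 ∧ y < (ml l).1))

lemma inv_B : ∀ (n : ℕ) (l : List ℕ), l ∈ B n → Inv l
  | 0, l, h => by
    obtain rfl : l = [0] := by simpa [B] using h
    exact ⟨by simp [ml], by simp [ml], [], 0, rfl, by simp [ml]⟩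
  | n + 1, l, h => by
    simp only [B, mem_image, mem_sigma, mem_Ico] at h
    obtain ⟨⟨l, x⟩, ⟨h1, h4, h5⟩, rfl⟩ := h
    obtain ⟨a, b, l', y, rfl, c⟩ := inv_B n l h1
    simp only at *
    refine ⟨?_, ?_, _, x, rfl, ?_⟩ <;> rw [ml_concat] <;> try rw [wasc_concat]
    all_goals simp only; split_ifs <;> omega

def labB (_ : ℕ) (l : List ℕ) : ℕ × ℕ :=
  if l.getLast? = some (ml l).1 then ((ml l).1 - (ml l).2 + 1, 1 + wasc l - (ml l).1)
  else ((ml l).1 - (ml l).2, 2 + wasc l - (ml l).1)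

lemma stepB (n : ℕ) (g : ℕ × ℕ → ℕ) :
    ∑ l ∈ B (n + 1), g (labB (n + 1) l) = ∑ l ∈ B n, T g (labB n l) := by
  rw [B, sum_image fun p _ q _ e => by
    obtain ⟨e1, e2⟩ := List.append_inj' e rfl
    exact Sigma.ext e1 (by simpa using e2), sum_sigma]
  refine sum_congr rfl fun l hl => ?_
  obtain ⟨a, b, l', y, rfl, c⟩ := inv_B n l hl
  simp only [labB, ml_concat (l' ++ [y]), wasc_concat, List.getLast?_concat, Option.some.injEq]
  generalize ml (l' ++ [y]) = p at *
  generalize wasc (l' ++ [y]) = w at *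
  obtain ⟨M, lo⟩ := p
  simp only at *
  rw [← sum_Ico_consecutive _ a (show M ≤ 2 + w by omega), sum_Ico_eq_sum_range,
    sum_Ico_eq_sum_range, ← sum_range_reflect]
  rcases c with rfl | ⟨rfl, c⟩
  · rw [if_pos rfl, T, sum_range_succ, show 2 + w - y = 1 + w - y + 1 by omega,
      sum_range_succ' _ (1 + w - y), add_assoc, add_comm (g _)]
    congr 1
    · refine sum_congr rfl fun i hi => ?_
      have := mem_range.1 hi
      congr 1
      split_ifs <;> first | omega | (simp only [Prod.mk.injEq]; omega)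
    · congr 1
      · refine sum_congr rfl fun i hi => ?_
        have := mem_range.1 hi
        congr 1
        split_ifs <;> first | omega | (simp only [Prod.mk.injEq]; omega)
      · congr 1
        split_ifs <;> first | omega | (simp only [Prod.mk.injEq]; omega)
  · rw [if_neg c.ne, T]
    congr 1 <;> refine sum_congr rfl fun i hi => ?_ <;> have := mem_range.1 hi <;> congr 1 <;>
      split_ifs <;> first | omega | (simp only [Prod.mk.injEq]; omega)

theorem main (n : ℕ) (hn : 1 ≤ n) : w210 n = v n := by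
  obtain ⟨n, rfl⟩ : ∃ m, n = m + 1 := ⟨n - 1, by omega⟩
  rw [perm_side, ← tree B labB (fun g => by simp [B, labB, ml, wasc]) stepB, Pi.one_def, sum_const,
    smul_eq_mul, mul_one, ← Set.ncard_coe_finset, w210]
  congr 1
  ext l
  simp [mem_B]

end Pool.Agent.H8.Sb
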