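import Mathlib

namespace Pool.Agent.H8.Sb

/-- The number of weak ascents of a list. -/
def wasc : List ℕ → ℕ
  | a :: b :: t => (if a ≤ b then 1 else 0) + wasc (b :: t)
  | _ => 0

/-- Weak ascent sequences. -/
def IsWeakAscent (l : List ℕ) : Prop :=
  l.head? = some 0 ∧ ∀ (i : ℕ) (h : i < l.length), 1 ≤ i → l[i] ≤ 1 + wasc (l.take i)

/-- Avoidance of the pattern 210. -/
def Avoids210 (l : List ℕ) : Prop :=
  ¬ ∃ (i j k : ℕ) (hk : k < l.length) (_ : i < j) (_ : j < k), l[j] < l[i] ∧ l[k] < l[j]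

/-- The number of weak ascent sequences of length `n` avoiding 210. -/
noncomputable def w210 (n : ℕ) : ℕ :=
  {l : List ℕ | l.length = n ∧ IsWeakAscent l ∧ Avoids210 l}.ncard

/-- Containment of the vincular pattern 2-41-3. -/
def Contains2413 {n : ℕ} (π : Equiv.Perm (Fin n)) : Prop :=
  ∃ i j j' k : Fin n, j'.val = j.val + 1 ∧ i < j ∧ j' < k ∧ π j' < π i ∧ π i < π k ∧ π k < π j

/-- The number of permutations of size `n` avoiding 2-41-3. -/
noncomputable def v (n : ℕ) : ℕ := {π : Equiv.Perm (Fin n) | ¬ Contains2413 π}.ncard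

end Pool.Agent.H8.Sb
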