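import Mathlib

set_option autoImplicit false

namespace Pool.Agent.H8.Shelf

open Finset

variable {ι : Type*} [DecidableEq ι]

theorem line (a : ι → ℝ) (T : Finset ι) : ∃ u : ι → ℝ, ∀ x, 0 ≤ x → x ≤ ∑ i ∈ T, a i →
    T.Nonempty → ∃ i ∈ T, u i ≤ x ∧ x ≤ u i + a i := by
  induction T using Finset.induction_on with
  | empty => simp
  | insert j T hj ih =>
    obtain ⟨u, hu⟩ := ih
    refine ⟨Function.update u j (∑ i ∈ T, a i), fun x h0 h1 _ => ?_⟩
    rw [sum_insert hj] at h1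
    by_cases h : ∑ i ∈ T, a i ≤ x
    · exact ⟨j, by simp, by simpa, by simp; linarith⟩
    · obtain ⟨i, hi, e⟩ := hu x h0 (not_le.1 h).le
        (nonempty_iff_ne_empty.2 fun e => h (by simpa [e]))
      exact ⟨i, by simp [hi], by rwa [Function.update_of_ne (ne_of_mem_of_not_mem hi hj)]⟩

theorem greedy (a b : ι → ℝ) (F : Finset ι) (h : 1 ≤ ∑ i ∈ F, a i) :
    ∃ G j, j ∉ G ∧ insert j G ⊆ F ∧ ∑ i ∈ G, a i < 1 ∧ 1 ≤ ∑ i ∈ insert j G, a i ∧
      (∀ i ∈ insert j G, b j ≤ b i) ∧ ∀ i ∈ F \ insert j G, b i ≤ b j := by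
  induction F using Finset.induction_on_min_value b with
  | empty => norm_num at h
  | insert j F hj hm ih =>
    by_cases e : 1 ≤ ∑ i ∈ F, a i
    · obtain ⟨G, k, h1, h2, h3, h4, h5, h6⟩ := ih e
      refine ⟨G, k, h1, h2.trans (subset_insert _ _), h3, h4, h5, fun i hi => ?_⟩
      rw [mem_sdiff, mem_insert] at hi
      rcases hi with ⟨rfl | hi, hi'⟩
      exacts [hm _ (h2 (mem_insert_self _ _)), h6 i (mem_sdiff.2 ⟨hi, hi'⟩)]
    · exact ⟨F, j, hj, le_rfl, not_le.1 e, h, by simpa using hm, by simp⟩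

def Cov (a b : ι → ℝ) (F : Finset ι) (y : ℝ) : Prop :=
  ∃ u v : ι → ℝ, ∀ p q, 0 ≤ p → p ≤ 1 → 0 ≤ q → q ≤ y →
    ∃ i ∈ F, (u i ≤ p ∧ p ≤ u i + a i) ∧ v i ≤ q ∧ q ≤ v i + b i

theorem top {a b : ι → ℝ} {T F : Finset ι} {y H : ℝ} (hT : 1 ≤ ∑ i ∈ T, a i) (hF : T ⊆ F)
    (hH : ∀ i ∈ T, H ≤ b i) (h : H < y → Cov a b (F \ T) (y - H)) : Cov a b F y := by
  obtain ⟨u, hu⟩ := line a T
  have hn : T.Nonempty := nonempty_iff_ne_empty.2 fun e => by norm_num [e] at hT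
  obtain ⟨u', v', h⟩ : ∃ u v : ι → ℝ, ∀ p q, 0 ≤ p → p ≤ 1 → 0 ≤ q → q < y - H →
      ∃ i ∈ F \ T, (u i ≤ p ∧ p ≤ u i + a i) ∧ v i ≤ q ∧ q ≤ v i + b i := by
    by_cases e : H < y
    · obtain ⟨u, v, h⟩ := h e
      exact ⟨u, v, fun p q h1 h2 h3 h4 => h p q h1 h2 h3 h4.le⟩
    · exact ⟨0, 0, fun p q _ _ _ _ => by linarith⟩
  refine ⟨T.piecewise u u', T.piecewise (fun _ => y - H) v', fun p q h1 h2 h3 h4 => ?_⟩
  rcases lt_or_ge q (y - H) with e | e
  · obtain ⟨i, hi, e⟩ := h p q h1 h2 h3 e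
    rw [mem_sdiff] at hi
    exact ⟨i, hi.1, by simpa [hi.2] using e⟩
  · obtain ⟨i, hi, e'⟩ := hu p h1 (h2.trans hT) hn
    exact ⟨i, hF hi, by simpa [hi] using e', by simpa [hi] using e, by
      simp [hi]; linarith [hH i hi]⟩

theorem shelf {a b : ι → ℝ} (ha : ∀ i, 0 < a i ∧ a i ≤ 1) (hb : ∀ i, 0 < b i) (F : Finset ι) :
    ∀ m y : ℝ, 0 ≤ y → (∀ G ⊆ F, ∑ i ∈ G, a i < 1 → ∑ i ∈ G, a i * b i < m) →
      m + 2 * y ≤ ∑ i ∈ F, a i * b i → Cov a b F y := by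
  induction F using Finset.strongInduction with
  | H F ih =>
    intro m y hy hm h
    obtain ⟨G, j, h1, h2, h3, h4, h5, h6⟩ := greedy a b F
      (not_lt.1 fun e => by linarith [hm F le_rfl e])
    refine top h4 h2 h5 fun e => ih _ (sdiff_ssubset h2 (insert_nonempty _ _)) (b j) _
      (by linarith) (fun G' hG e => ?_) ?_
    · calc _ ≤ ∑ i ∈ G', a i * b j :=
            sum_le_sum fun i hi => mul_le_mul_of_nonneg_left (h6 i (hG hi)) (ha i).1.le
        _ < b j := by rw [← sum_mul]; nlinarith [hb j]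
    · rw [sum_sdiff_eq_sub h2, sum_insert h1]
      nlinarith [hm G ((subset_insert _ _).trans h2) h3, hb j, (ha j).2]

theorem main {a b : ι → ℝ} (ha : ∀ i, 0 < a i ∧ a i ≤ 1) (hb : ∀ i, 0 < b i ∧ b i ≤ 1)
    (h : HasSum (fun i => a i * b i) 3) : ∃ F, Cov a b F 1 := by
  have big : ∀ c < 3, ∃ F : Finset ι, c ≤ ∑ i ∈ F, a i * b i := fun c hc =>
    (h.eventually_const_le hc).exists
  by_cases hT : ∃ T : Finset ι, (∀ i ∈ T, b i = 1) ∧ 3 / 4 ≤ ∑ i ∈ T, a i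
  · obtain ⟨T, h1, h2⟩ := hT
    by_cases h3 : 1 ≤ ∑ i ∈ T, a i
    · exact ⟨T, top h3 le_rfl (fun i hi => (h1 i hi).ge) fun e => absurd e (lt_irrefl _)⟩
    obtain ⟨F, hF⟩ := big 2.9 (by norm_num)
    obtain ⟨v, u, hc⟩ := shelf hb (fun i => (ha i).1) (F \ T) 1 (1 / 4) (by norm_num)
      (fun G _ e => (sum_le_sum fun i _ => mul_le_of_le_one_right (hb i).1.le (ha i).2).trans_lt e) (by
        have : ∑ i ∈ F, a i * b i ≤ ∑ i ∈ (F \ T) ∪ T, a i * b i :=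
          sum_le_sum_of_subset_of_nonneg (by simp) fun i _ _ => (mul_pos (ha i).1 (hb i).1).le
        rw [sum_union sdiff_disjoint, sum_congr (s₁ := T) (g := a) rfl fun i hi => by
          rw [h1 i hi, mul_one]] at this
        simp only [mul_comm (b _)]; linarith)
    obtain ⟨w, hw⟩ := line a T
    refine ⟨F ∪ T, T.piecewise (fun i => w i + 1 / 4) u, T.piecewise 0 v,
      fun p q p0 p1 q0 q1 => ?_⟩
    rcases le_total p (1 / 4) with e | e
    · obtain ⟨i, hi, e⟩ := hc q p q0 q1 p0 e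
      rw [mem_sdiff] at hi
      exact ⟨i, by simp [hi.1], by simpa [hi.2] using e.symm⟩
    · obtain ⟨i, hi, e⟩ := hw (p - 1 / 4) (by linarith) (by linarith)
        (nonempty_iff_ne_empty.2 fun e => by norm_num [e] at h2)
      refine ⟨i, by simp [hi], ?_⟩
      simp only [piecewise_eq_of_mem _ _ _ hi, Pi.zero_apply, h1 i hi]
      refine ⟨⟨?_, ?_⟩, ?_, ?_⟩ <;> linarith [e.1, e.2]
  push Not at hT
  obtain ⟨F0, h0⟩ := h.summable.vanishing (e := Set.Iio (1 / 16)) (Iio_mem_nhds (by norm_num))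
  obtain ⟨t, t0, t1, ht⟩ : ∃ t : ℝ, 1 / 2 ≤ t ∧ t < 1 ∧ ∀ i ∈ F0, b i < 1 → b i ≤ t := by
    clear h0
    induction F0 using Finset.induction_on with
    | empty => exact ⟨1 / 2, le_rfl, by norm_num, by simp⟩
    | insert j F _ ih =>
      obtain ⟨t, t0, t1, ht⟩ := ih
      by_cases e : b j < 1
      · refine ⟨max t (b j), le_max_of_le_left t0, max_lt t1 e, fun i hi e => ?_⟩
        rcases mem_insert.1 hi with rfl | hi
        exacts [le_max_right _ _, le_max_of_le_left (ht i hi e)]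
      · refine ⟨t, t0, t1, fun i hi e' => ?_⟩
        rcases mem_insert.1 hi with rfl | hi
        exacts [absurd e' e, ht i hi e']
  obtain ⟨F, hF⟩ := big (t + (1 - t) * (7 / 8) + 2 * 1) (by linarith)
  refine ⟨F, shelf ha (fun i => (hb i).1) F _ 1 zero_le_one (fun G _ e => ?_) hF⟩
  have e1 := hT (G.filter fun i => b i = 1) fun i hi => (mem_filter.1 hi).2
  have e2 : ∑ i ∈ G with t < b i ∧ b i < 1, a i * b i < 1 / 16 :=
    h0 _ (disjoint_left.2 fun i hi hi' =>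
      (ht i hi' (mem_filter.1 hi).2.2).not_gt (mem_filter.1 hi).2.1)
  rw [sum_filter] at e1 e2
  have : ∑ i ∈ G, a i * b i ≤ ∑ i ∈ G, (t * a i + (1 - t) * ((if b i = 1 then a i else 0) +
      2 * if t < b i ∧ b i < 1 then a i * b i else 0)) := sum_le_sum fun i _ => by
    have := ha i
    have := hb i
    split_ifs with c d d
    · linarith [d.2]
    · rw [c]; linarith
    · nlinarith [mul_pos this.1 (ha i).1, d.1, d.2, mul_nonneg (sub_pos.2 t1).le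
        (mul_nonneg (ha i).1.le (by linarith [d.1] : 0 ≤ 2 * b i - 1))]
    · have : b i ≤ t := not_lt.1 fun e => d ⟨e, lt_of_le_of_ne this.2 c⟩
      nlinarith
  rw [sum_add_distrib, ← mul_sum, ← mul_sum, sum_add_distrib, ← mul_sum] at this
  nlinarith

end Pool.Agent.H8.Shelf
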