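import Mathlib

/-! Lattice paths as properly embedded rays. -/

namespace Pool.Agent.H8.Spiral
open Set Function Filter Topology NNReal

def c (v : ℤ × ℤ) : ℝ × ℝ := (v.1, v.2)

/-- `w` is one of the six neighbours of `v` in the triangular lattice. -/
def Adj (v w : ℤ × ℤ) : Prop :=
  w = (v.1 + 1, v.2) ∨ w = (v.1 - 1, v.2) ∨ w = (v.1, v.2 + 1) ∨ w = (v.1, v.2 - 1) ∨
    w = (v.1 - 1, v.2 + 1) ∨ w = (v.1 + 1, v.2 - 1)

lemma cross {v w v' w' : ℤ × ℤ} (h : Adj v v') (k : Adj w w') {a b : ℝ} (a0 : 0 ≤ a) (a1 : a < 1)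
    (b0 : 0 ≤ b) (b1 : b < 1) (e : c v + a • (c v' - c v) = c w + b • (c w' - c w)) :
    v = w ∧ (v' = w' → a = b) ∨ w = v' ∧ w' = v := by
  obtain ⟨x, y⟩ := v
  obtain ⟨z, t⟩ := w
  obtain ⟨i, rfl⟩ : ∃ i, z = x + i := ⟨z - x, by ring⟩
  obtain ⟨j, rfl⟩ : ∃ j, t = y + j := ⟨t - y, by ring⟩
  have r : ∀ i : ℤ, (-2 : ℝ) < i → (i : ℝ) < 2 → i = -1 ∨ i = 0 ∨ i = 1 := fun i h1 h2 => by
    have : -2 < i := by exact_mod_cast h1
    have : i < 2 := by exact_mod_cast h2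
    omega
  rcases h with rfl | rfl | rfl | rfl | rfl | rfl <;>
    rcases k with rfl | rfl | rfl | rfl | rfl | rfl <;>
    simp only [c, Prod.ext_iff, Prod.fst_add, Prod.snd_add, Prod.smul_fst, Prod.smul_snd,
      Prod.fst_sub, Prod.snd_sub, smul_eq_mul] at e ⊢ <;> push_cast at e <;> obtain ⟨e, f⟩ := e <;>
    rcases r i (by linarith) (by linarith) with rfl | rfl | rfl <;>
    rcases r j (by linarith) (by linarith) with rfl | rfl | rfl <;> push_cast at e f <;>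
    first
    | (exfalso; linarith)
    | (right; omega)
    | (left; refine ⟨⟨by omega, by omega⟩, fun h => ?_⟩; first | linarith | omega)

lemma near {v w : ℤ × ℤ} (h : Adj v w) : ‖c w - c v‖ ≤ 1 := by
  rcases h with rfl | rfl | rfl | rfl | rfl | rfl <;> simp [c, Prod.norm_def]

noncomputable def ray (P : ℕ → ℤ × ℤ) (t : ℝ≥0) : ℝ × ℝ :=
  c (P ⌊(t : ℝ)⌋₊) + ((t : ℝ) - ⌊(t : ℝ)⌋₊) • (c (P (⌊(t : ℝ)⌋₊ + 1)) - c (P ⌊(t : ℝ)⌋₊))

lemma ray_eq (P : ℕ → ℤ × ℤ) (k : ℕ) (t : ℝ≥0) (h1 : (k : ℝ) ≤ t) (h2 : (t : ℝ) ≤ k + 1) :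
    ray P t = c (P k) + ((t : ℝ) - k) • (c (P (k + 1)) - c (P k)) := by
  unfold ray
  rcases h2.lt_or_eq with h | h
  · rw [(Nat.floor_eq_iff t.coe_nonneg).2 ⟨h1, h⟩]
  · rw [h, show ⌊(k : ℝ) + 1⌋₊ = k + 1 by exact_mod_cast Nat.floor_natCast (R := ℝ) (k + 1)]
    simp

lemma ray_cont (P : ℕ → ℤ × ℤ) : Continuous (ray P) := by
  refine LocallyFinite.continuous (f := fun k : ℕ => {t : ℝ≥0 | (k : ℝ) ≤ t ∧ (t : ℝ) ≤ k + 1})
    (fun x => ⟨Iio (x + 1), Iio_mem_nhds (lt_add_one x), (finite_le_nat ⌊(x : ℝ) + 1⌋₊).subset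
      fun k ⟨t, h, h'⟩ => Nat.le_floor (h.1.trans (by exact_mod_cast le_of_lt h'))⟩)
    (eq_univ_of_forall fun t => mem_iUnion.2 ⟨_, Nat.floor_le t.coe_nonneg, (Nat.lt_floor_add_one _).le⟩)
    (fun k => IsClosed.and (isClosed_le (by fun_prop) (by fun_prop))
      (isClosed_le (by fun_prop) (by fun_prop))) fun k => ?_
  exact ContinuousOn.congr (by fun_prop) fun t ht => ray_eq P k t ht.1 ht.2

lemma ray_proper {P : ℕ → ℤ × ℤ} (hi : Injective P) (ha : ∀ k, Adj (P k) (P (k + 1))) :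
    Tendsto (fun t => ‖ray P t‖) atTop atTop := by
  have h : Tendsto (fun k => ‖c (P k)‖) atTop atTop := by
    rw [← Nat.cofinite_eq_atTop]
    refine tendsto_atTop.2 fun R => ((finite_Icc (-⌈R⌉, -⌈R⌉) (⌈R⌉, ⌈R⌉)).preimage
      hi.injOn).subset fun k hk => ?_
    have := Int.le_ceil R
    simp only [mem_compl_iff, mem_setOf_eq, not_le, c, Prod.norm_def, max_lt_iff,
      Real.norm_eq_abs, abs_lt] at hk
    refine ⟨⟨?_, ?_⟩, ?_, ?_⟩ <;> simp only <;> rw [← Int.cast_le (R := ℝ)] <;> push_cast <;>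
      linarith [hk.1.1, hk.1.2, hk.2.1, hk.2.2]
  refine tendsto_atTop_mono (fun t => ?_) (tendsto_atTop_add_const_right _ (-1)
    (h.comp (tendsto_nat_floor_atTop.comp (NNReal.tendsto_coe_atTop.2 tendsto_id))))
  have := norm_sub_le (ray P t) (((t : ℝ) - ⌊(t : ℝ)⌋₊) •
    (c (P (⌊(t : ℝ)⌋₊ + 1)) - c (P ⌊(t : ℝ)⌋₊)))
  have h1 := Nat.floor_le t.coe_nonneg
  have h2 := Nat.lt_floor_add_one (t : ℝ)
  rw [norm_smul, Real.norm_of_nonneg (sub_nonneg.2 h1), ray, add_sub_cancel_right] at this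
  have := mul_le_one₀ (by linarith : (t : ℝ) - ⌊(t : ℝ)⌋₊ ≤ 1) (norm_nonneg _) (near (ha ⌊(t : ℝ)⌋₊))
  simp only [comp, id, ray]
  linarith

theorem rays {n : ℕ} {E : Type} [NormedAddCommGroup E] [NormedSpace ℝ E] (L : (ℝ × ℝ) ≃L[ℝ] E)
    (p : E) (s : ℤ × ℤ → ℤ × ℤ) (st : Fin n → ℤ × ℤ) (μ : ℤ × ℤ → ℕ ×ₗ ℕ) (h1 : Injective s)
    (h2 : ∀ v, μ v < μ (s v)) (h3 : ∀ v, v ∈ range s ↔ v ∉ range st) (h4 : Injective st)
    (h5 : ∀ v, Adj v (s v)) : ∃ γ : Fin n → ℝ≥0 → E, (∀ j, IsClosedEmbedding (γ j)) ∧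
      (∀ j, ¬ Bornology.IsBounded (range (γ j))) ∧
      (Pairwise fun i j => Disjoint (range (γ i)) (range (γ j))) ∧
      ⋃ j, range (γ j) = ⋃ v, segment ℝ (p + L (c v)) (p + L (c (s v))) := by
  have inj : ∀ k l i j, s^[k] (st i) = s^[l] (st j) → i = j ∧ k = l := fun k => by
    induction k with
    | zero =>
      rintro (_ | l) i j h
      · exact ⟨h4 h, rfl⟩
      · exact ((h3 _).1 ⟨_, (iterate_succ_apply' ..).symm.trans h.symm⟩ ⟨i, rfl⟩).elim
    | succ k ih =>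
      rintro (_ | l) i j h
      · exact ((h3 _).1 ⟨_, (iterate_succ_apply' ..).symm.trans h⟩ ⟨j, rfl⟩).elim
      · rw [iterate_succ_apply', iterate_succ_apply'] at h
        exact (ih _ _ _ (h1 h)).imp_right (congrArg _)
  have reach : ∀ v, ∃ j k, s^[k] (st j) = v := fun v => by
    induction v using (InvImage.wf μ wellFounded_lt).induction with
    | _ v ih =>
      by_cases h : v ∈ range st
      · exact h.imp fun j hj => ⟨0, hj⟩
      · obtain ⟨u, rfl⟩ := (h3 v).2 h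
        obtain ⟨j, k, rfl⟩ := ih u (h2 u)
        exact ⟨j, k + 1, iterate_succ_apply' ..⟩
  have key : ∀ i j t u, ray (s^[·] (st i)) t = ray (s^[·] (st j)) u → i = j ∧ t = u :=
    fun i j t u h => by
    simp only [ray, iterate_succ_apply'] at h
    rcases cross (h5 _) (h5 _) (sub_nonneg.2 (Nat.floor_le t.coe_nonneg))
      (by linarith [Nat.lt_floor_add_one (t : ℝ)]) (sub_nonneg.2 (Nat.floor_le u.coe_nonneg))
      (by linarith [Nat.lt_floor_add_one (u : ℝ)]) h with ⟨e, f⟩ | ⟨e, f⟩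
    · have := f (congrArg s e)
      obtain ⟨rfl, g⟩ := inj _ _ _ _ e
      exact ⟨rfl, NNReal.eq (by rw [g] at this; linarith)⟩
    · have := (h2 _).trans (e ▸ h2 _ : μ (s (s^[⌊(t : ℝ)⌋₊] (st i))) < μ (s (s^[⌊(u : ℝ)⌋₊] (st j))))
      rw [f] at this
      exact (lt_irrefl _ this).elim
  have pr : ∀ j, Tendsto (ray (s^[·] (st j))) (cocompact _) (cocompact _) := fun j => by
    rw [cocompact_eq_atTop, ← Metric.cobounded_eq_cocompact, ← tendsto_norm_atTop_iff_cobounded]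
    exact ray_proper (fun k l h => (inj _ _ _ _ h).2) fun k => by
      rw [iterate_succ_apply']; exact h5 _
  let φ : (ℝ × ℝ) ≃ₜ E := L.toHomeomorph.trans (Homeomorph.addLeft p)
  have ce : ∀ j, IsClosedEmbedding (φ ∘ ray (s^[·] (st j))) := fun j =>
    φ.isClosedEmbedding.comp (.of_continuous_injective_isClosedMap (ray_cont _)
      (fun t u h => (key _ _ _ _ h).2)
      (isProperMap_iff_tendsto_cocompact.2 ⟨ray_cont _, pr j⟩).isClosedMap)
  refine ⟨fun j => φ ∘ ray (s^[·] (st j)), ce, fun j h => ?_, fun i j hij => ?_, ?_⟩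
  · haveI : FiniteDimensional ℝ E := L.toLinearEquiv.finiteDimensional
    haveI := FiniteDimensional.proper_real E
    obtain ⟨x, hx⟩ := ((ce j).isCompact_preimage
      (Metric.isCompact_of_isClosed_isBounded (ce j).isClosed_range h)).bddAbove
    exact (lt_add_one x).not_ge (hx ⟨_, rfl⟩)
  · refine disjoint_left.2 ?_
    rintro _ ⟨t, rfl⟩ ⟨u, h⟩
    exact hij (key _ _ _ _ (φ.injective h)).1.symm
  · have f : ∀ (a : ℝ) x y, φ (x + a • (y - x)) = p + L x + a • (p + L y - (p + L x)) :=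
      fun a x y => by simp [φ, add_assoc]
    ext z
    simp only [mem_iUnion, mem_range, segment_eq_image', mem_image, comp]
    constructor
    · rintro ⟨j, t, rfl⟩
      exact ⟨_, _, ⟨sub_nonneg.2 (Nat.floor_le t.coe_nonneg), by linarith [Nat.lt_floor_add_one (t : ℝ)]⟩,
        by rw [ray, f, iterate_succ_apply']⟩
    · rintro ⟨v, a, ⟨a0, a1⟩, rfl⟩
      obtain ⟨j, k, rfl⟩ := reach v
      lift a to ℝ≥0 using a0
      refine ⟨j, k + a, ?_⟩
      rw [ray_eq _ k _ (by simp) (by simpa), f, iterate_succ_apply']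
      simp

end Pool.Agent.H8.Spiral
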