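import Pool.Agent.H8.Spiral1

/-! A spiral with `n` arms made of sides of unit squares. -/

namespace Pool.Agent.H8.Spiral
open Set Function Topology NNReal Complex

lemma seg (u d p q : ℂ) :
    (fun z => u * z + d) '' segment ℝ p q = segment ℝ (u * p + d) (u * q + d) := by
  simp only [segment_eq_image', image_image]
  congr 1
  ext t
  simp only [real_smul]
  ring

lemma arc {p q : ℂ} (h : p ≠ q) :
    ∃ f : unitInterval → ℂ, Continuous f ∧ Injective f ∧ range f = segment ℝ p q :=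
  ⟨fun t => p + (t : ℝ) • (q - p), by fun_prop, fun t u e => Subtype.ext
    (smul_left_injective ℝ (sub_ne_zero.2 h.symm) (add_left_cancel e)), by
      rw [segment_eq_image', image_eq_range]⟩

lemma iso {u : ℂ} (h : ‖u‖ = 1) (d : ℂ) : Isometry fun z => u * z + d :=
  Isometry.of_dist_eq fun x y => by
    rw [dist_add_right, dist_eq_norm, dist_eq_norm, ← mul_sub, norm_mul, h, one_mul]

def s4 (n : ℤ) (v : ℤ × ℤ) : ℤ × ℤ :=
  if v.2 < v.1 ∧ (1 ≤ v.2 ∨ n ≤ v.1 + v.2) then (v.1, v.2 + 1)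
  else if 1 ≤ v.2 ∧ -v.2 < v.1 then (v.1 - 1, v.2)
  else if v.1 < v.2 then (v.1, v.2 - 1) else (v.1 + 1, v.2)

def m4 (n : ℤ) (v : ℤ × ℤ) : ℤ × ℤ :=
  if v.2 < v.1 ∧ (1 ≤ v.2 ∨ n ≤ v.1 + v.2) then (v.1, v.1 + v.2)
  else if 1 ≤ v.2 ∧ -v.2 < v.1 then (v.2, 3 * v.2 - v.1)
  else if v.1 < v.2 then (-v.1, -5 * v.1 - v.2) else (-v.2, v.1 - 7 * v.2)

def t4 (n : ℤ) (q : ℤ × ℤ) : (ℤ × ℤ) × Fin 3 :=
  if q.2 < q.1 ∧ (1 ≤ q.2 ∨ n ≤ q.1 + q.2) then (q, 2)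
  else if q.1 ≤ q.2 ∧ q.2 < -q.1 then ((q.1, q.2 + 1), 2)
  else if 1 ≤ q.2 ∧ q.1 < q.2 then ((q.1 + 1, q.2), 0)
  else if q.1 = q.2 ∧ 0 ≤ q.1 then ((q.1 + 1, q.2 + 1), 1)
  else if q.2 < 0 ∧ q.1 + q.2 + 1 < n then ((q.1, q.2 + 1), 1) else (q, 0)

/-- The unit square with lower left corner `q`. -/
def sq (q : ℤ × ℤ) : Set ℂ := {z | q.1 ≤ z.re ∧ z.re ≤ q.1 + 1 ∧ q.2 ≤ z.im ∧ z.im ≤ q.2 + 1}

noncomputable def rot (k : Fin 3) (q : ℤ × ℤ) (z : ℂ) : ℂ :=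
  ![1, -1, -I] k * z + (q.1 + q.2 * I + ![0, 1 + I, I] k)

lemma rot_iso (k : Fin 3) (q : ℤ × ℤ) : Isometry (rot k q) := iso (by fin_cases k <;> simp) _

lemma rot_sq (k : Fin 3) (q : ℤ × ℤ) : rot k q '' sq 0 = sq q := by
  refine Subset.antisymm ?_ fun z ⟨h1, h2, h3, h4⟩ => ⟨![1, -1, I] k * (z - rot k q 0), ?_, ?_⟩
  · rintro _ ⟨z, ⟨h1, h2, h3, h4⟩, rfl⟩
    fin_cases k <;> simp [rot, sq] at * <;> refine ⟨?_, ?_, ?_, ?_⟩ <;> linarith
  · fin_cases k <;> simp [rot, sq] <;> refine ⟨?_, ?_, ?_, ?_⟩ <;> linarith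
  · fin_cases k <;> apply Complex.ext <;> simp [rot]

lemma t4_spec {n : ℕ} (hn : 0 < n) (q : ℤ × ℤ) : let v := (t4 n q).1
    (t4 n q).2 = 0 ∧ (v = q ∧ s4 n v = (q.1 + 1, q.2) ∨ v = (q.1 + 1, q.2) ∧ s4 n v = q) ∨
    (t4 n q).2 = 1 ∧ (v = (q.1, q.2 + 1) ∧ s4 n v = (q.1 + 1, q.2 + 1) ∨
      v = (q.1 + 1, q.2 + 1) ∧ s4 n v = (q.1, q.2 + 1)) ∨
    (t4 n q).2 = 2 ∧ (v = q ∧ s4 n v = (q.1, q.2 + 1) ∨ v = (q.1, q.2 + 1) ∧ s4 n v = q) := by
  unfold t4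
  split_ifs <;> dsimp only [s4] <;> split_ifs <;> first | omega | (simp; done)

theorem square {n : ℕ} (hn : 0 < n) : ∃ (γ : Fin n → ℝ≥0 → ℂ) (κ : ℤ × ℤ → Fin 3),
    Surjective κ ∧ (∀ j, IsClosedEmbedding (γ j)) ∧ (∀ j, ¬ Bornology.IsBounded (range (γ j))) ∧
      (Pairwise fun i j => Disjoint (range (γ i)) (range (γ j))) ∧
      ⋃ q, rot (κ q) q '' segment ℝ 0 1 = ⋃ j, range (γ j) := by
  obtain ⟨γ, g1, g2, g3, g4⟩ := rays equivRealProdCLM.symm 0 (s4 n)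
    (fun j : Fin n => if (j : ℕ) = 0 then 0 else (j, 1))
    (fun v => toLex ((m4 n v).1.toNat, (m4 n v).2.toNat))
    (fun v w h => by
      simp only [s4, Prod.ext_iff] at h ⊢
      split_ifs at h <;> simp only at h <;> omega)
    (fun v => by
      simp only [Prod.Lex.toLex_lt_toLex, s4]
      split_ifs <;> simp only [m4] <;> split_ifs <;> dsimp only <;> omega)
    (fun v => by
      constructor
      · rintro ⟨u, rfl⟩ ⟨j, h⟩
        have := j.2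
        simp only [s4, Prod.ext_iff] at h
        split_ifs at h <;> simp only [Prod.fst_zero, Prod.snd_zero] at h <;> omega
      · intro h
        have a : v.2 = 1 → 1 ≤ v.1 → n ≤ v.1 := fun a b => by_contra fun d =>
          h ⟨⟨v.1.toNat, by omega⟩, by simp [Prod.ext_iff]; split_ifs <;> simp <;> omega⟩
        have b : v.1 = 0 → v.2 ≠ 0 := fun a b => h ⟨⟨0, hn⟩, by simp [Prod.ext_iff, a, b]⟩
        by_contra d
        have e : ∀ u, s4 n u ≠ v := fun u e => d ⟨u, e⟩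
        have e1 := e (v.1, v.2 - 1)
        have e2 := e (v.1 + 1, v.2)
        have e3 := e (v.1, v.2 + 1)
        have e4 := e (v.1 - 1, v.2)
        simp only [s4, ne_eq, Prod.ext_iff] at e1 e2 e3 e4
        split_ifs at e1 e2 e3 e4 <;> dsimp only at e1 e2 e3 e4 <;> omega)
    (fun i j h => by
      simp only [Prod.ext_iff] at h
      split_ifs at h <;> simp only [Prod.fst_zero, Prod.snd_zero] at h <;> omega)
    fun v => by unfold s4 Adj; split_ifs <;> simp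
  refine ⟨γ, fun q => (t4 n q).2, fun k => ⟨![(0, 1), (0, 0), (-1, 0)] k, by
    fin_cases k <;> simp [t4]⟩, g1, g2, g3, ?_⟩
  have sj : Surjective fun q => (t4 n q).1 := fun v => by
    by_contra d
    have e : ∀ u, (t4 n u).1 ≠ v := fun u e => d ⟨u, e⟩
    have e1 := e v
    have e2 := e (v.1 - 1, v.2)
    have e3 := e (v.1, v.2 - 1)
    simp only [t4, ne_eq, Prod.ext_iff] at e1 e2 e3
    split_ifs at e1 e2 e3 <;> dsimp only at e1 e2 e3 <;> omega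
  refine Eq.trans (iUnion_congr fun q => (seg ..).trans ?_) ((sj.iUnion_comp _).trans g4.symm)
  have : ∀ v, equivRealProdCLM.symm (c v) = v.1 + v.2 * I := fun v => by
    apply Complex.ext <;> simp [c]
  simp only [this]
  rcases t4_spec hn q with ⟨a, ⟨b, d⟩ | ⟨b, d⟩⟩ | ⟨a, ⟨b, d⟩ | ⟨b, d⟩⟩ | ⟨a, ⟨b, d⟩ | ⟨b, d⟩⟩ <;>
    rw [a, d, b] <;>
    first
    | (congr 1 <;> simp <;> ring1)
    | (rw [segment_symm]; congr 1 <;> simp <;> ring1)

end Pool.Agent.H8.Spiral
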