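import Pool.Agent.H8.Spiral2
import Pool.Agent.H8.Edge2

/-! A spiral with `n` arms made of short diagonals of regular hexagons. -/

namespace Pool.Agent.H8.Spiral
open Set Function Filter Topology NNReal Complex Pool.Agent.H8.Edge

def s6 (n : ℤ) (v : ℤ × ℤ) : ℤ × ℤ :=
  if 0 ≤ v.1 ∧ v.2 ≤ 0 then (if v.1 + v.2 < n - 1 then (v.1 + 1, v.2) else (v.1, v.2 + 1))
  else if 1 ≤ v.2 ∧ 1 ≤ v.1 + v.2 then (if 1 ≤ v.1 then (v.1 - 1, v.2 + 1) else (v.1 - 1, v.2))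
  else if 1 ≤ v.2 then (v.1, v.2 - 1) else (v.1 + 1, v.2 - 1)

def m6 (n : ℤ) (v : ℤ × ℤ) : ℤ × ℤ :=
  if 0 ≤ v.1 ∧ v.2 ≤ 0 then
    (if v.1 + v.2 < n - 1 then (-v.2, v.1 - 4 * v.2) else (v.1, 6 * v.1 + v.2))
  else if 1 ≤ v.2 ∧ 1 ≤ v.1 + v.2 then (if 1 ≤ v.1 then (v.1 + v.2, v.2) else (v.2, v.2 - v.1))
  else if 1 ≤ v.2 then (-v.1, -3 * v.1 - v.2) else (-v.1 - v.2, -3 * v.1 - 4 * v.2)

def t6 (q : ℤ × ℤ) : ℤ × ℤ :=
  if 0 ≤ q.1 ∧ q.2 ≤ 0 then q else if 1 ≤ q.2 ∧ 0 ≤ q.1 + q.2 then (q.1 + 1, q.2) else (q.1, q.2 + 1)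

lemma t6_spec (n : ℤ) (q : ℤ × ℤ) : let v := t6 q
    (v = q ∧ s6 n v = (q.1 + 1, q.2) ∨ v = (q.1 + 1, q.2) ∧ s6 n v = q) ∨
    (v = (q.1 + 1, q.2) ∧ s6 n v = (q.1, q.2 + 1) ∨ v = (q.1, q.2 + 1) ∧ s6 n v = (q.1 + 1, q.2)) ∨
    (v = q ∧ s6 n v = (q.1, q.2 + 1) ∨ v = (q.1, q.2 + 1) ∧ s6 n v = q) := by
  unfold t6
  split_ifs <;> dsimp only [s6] <;> split_ifs <;> first | omega | (simp; done)

noncomputable def L6 : (ℝ × ℝ) ≃L[ℝ] ℂ := LinearEquiv.toContinuousLinearEquiv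
  { toFun := fun x => ⟨3 / 2 * x.1, √3 * (x.1 / 2 + x.2)⟩
    invFun := fun z => (2 / 3 * z.re, z.im / √3 - z.re / 3)
    map_add' := fun x y => by apply Complex.ext <;> simp <;> ring
    map_smul' := fun t x => by apply Complex.ext <;> simp <;> ring
    left_inv := fun x => by ext <;> simp <;> field_simp <;> ring
    right_inv := fun z => by apply Complex.ext <;> simp <;> field_simp <;> ring }

lemma L6_eq (x : ℝ × ℝ) : L6 x = x.1 * (2 + ρ) + x.2 * (1 + 2 * ρ) := by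
  apply Complex.ext <;> simp [L6, ρ] <;> ring

theorem hexa {n : ℕ} (hn : 0 < n) : ∃ (γ : Fin n → ℝ≥0 → ℂ) (κ : ℤ × ℤ → ℕ),
    (∀ j, IsClosedEmbedding (γ j)) ∧ (Pairwise fun i j => Disjoint (range (γ i)) (range (γ j))) ∧
      ⋃ q, (fun z => ρ ^ κ q * z + L6 (c q)) '' segment ℝ (ρ ^ 2) 1 = ⋃ j, range (γ j) := by
  obtain ⟨γ, g1, -, g3, g4⟩ := rays L6 (ρ ^ 2) (s6 n)
    (fun j : Fin n => if (j : ℕ) = 0 then 0 else (j - 1, 1))
    (fun v => toLex ((m6 n v).1.toNat, (m6 n v).2.toNat))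
    (fun v w h => by
      simp only [s6, Prod.ext_iff] at h ⊢
      split_ifs at h <;> dsimp only at h <;> omega)
    (fun v => by
      simp only [Prod.Lex.toLex_lt_toLex, s6]
      split_ifs <;> simp only [m6] <;> split_ifs <;> dsimp only <;> omega)
    (fun v => by
      constructor
      · rintro ⟨u, rfl⟩ ⟨j, h⟩
        have := j.2
        simp only [s6, Prod.ext_iff] at h
        split_ifs at h <;> simp only [Prod.fst_zero, Prod.snd_zero] at h <;> omega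
      · intro h
        have a : v.2 = 1 → 0 ≤ v.1 → n - 1 ≤ v.1 := fun a b => by_contra fun d =>
          h ⟨⟨v.1.toNat + 1, by omega⟩, by simp [Prod.ext_iff]; omega⟩
        have b : v.1 = 0 → v.2 ≠ 0 := fun a b => h ⟨⟨0, hn⟩, by simp [Prod.ext_iff, a, b]⟩
        obtain ⟨x, y⟩ := v
        dsimp only at a b
        have k : ∀ u, (s6 n u).1 = x ∧ (s6 n u).2 = y → (x, y) ∈ range (s6 n) := fun u e =>
          ⟨u, Prod.ext e.1 e.2⟩
        rcases (by omega : (1 ≤ x ∧ y ≤ 0 ∧ x + y < n) ∨ (0 ≤ x ∧ y ≤ 1 ∧ n ≤ x + y) ∨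
          (0 ≤ x ∧ 2 ≤ y) ∨ (x < 0 ∧ 1 ≤ y ∧ 0 ≤ x + y) ∨ (0 ≤ y ∧ x + y < 0) ∨ (x ≤ 0 ∧ y < 0))
          with h | h | h | h | h | h <;>
          [apply k (x - 1, y); apply k (x, y - 1); apply k (x + 1, y - 1); apply k (x + 1, y);
            apply k (x, y + 1); apply k (x - 1, y + 1)] <;>
          dsimp only [s6] <;> split_ifs <;> dsimp only <;> omega)
    (fun i j h => by
      simp only [Prod.ext_iff] at h
      split_ifs at h <;> simp only [Prod.fst_zero, Prod.snd_zero] at h <;> omega)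
    fun v => by unfold s6 Adj; split_ifs <;> simp
  have sj : Surjective t6 := fun v => by
    by_contra d
    have e : ∀ u, t6 u ≠ v := fun u e => d ⟨u, e⟩
    have e1 := e v
    have e2 := e (v.1 - 1, v.2)
    have e3 := e (v.1, v.2 - 1)
    simp only [t6, ne_eq, Prod.ext_iff] at e1 e2 e3
    split_ifs at e1 e2 e3 <;> (try dsimp only at e1 e2 e3) <;> omega
  have : ∀ q, ∃ k : ℕ, (fun z => ρ ^ k * z + L6 (c q)) '' segment ℝ (ρ ^ 2) 1 =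
      segment ℝ (ρ ^ 2 + L6 (c (t6 q))) (ρ ^ 2 + L6 (c (s6 n (t6 q)))) := fun q => by
    simp only [seg, L6_eq]
    rcases t6_spec n q with (⟨b, d⟩ | ⟨b, d⟩) | (⟨b, d⟩ | ⟨b, d⟩) | ⟨b, d⟩ | ⟨b, d⟩ <;>
      rw [d, b] <;> [use 0; use 0; use 1; use 1; use 2; use 2] <;>
      [skip; rw [segment_symm]; skip; rw [segment_symm]; rw [segment_symm]; skip] <;>
      congr 1 <;> simp only [c] <;> push_cast <;> grind [ρ2]
  choose κ hκ using this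
  exact ⟨γ, κ, g1, g3, (iUnion_congr hκ).trans ((sj.iUnion_comp _).trans g4.symm)⟩

lemma hex_sub {z : ℂ} (h : z ∈ convexHull ℝ {z : ℂ | z ^ 6 = 1}) :
    |√3 * z.re + z.im| ≤ √3 ∧ |2 * z.im| ≤ √3 ∧ |√3 * z.re - z.im| ≤ √3 := by
  simp only [abs_le]
  refine convexHull_min (t := {z : ℂ | (-√3 ≤ √3 * z.re + z.im ∧ √3 * z.re + z.im ≤ √3) ∧
    (-√3 ≤ 2 * z.im ∧ 2 * z.im ≤ √3) ∧ -√3 ≤ √3 * z.re - z.im ∧ √3 * z.re - z.im ≤ √3})
    (fun z (hz : z ^ 6 = 1) => ?_)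
    (fun x ⟨⟨_, _⟩, ⟨_, _⟩, _, _⟩ y ⟨⟨_, _⟩, ⟨_, _⟩, _, _⟩ a b ha hb h => ?_) h
  · have : (z - 1) * (z + 1) * (z - ρ) * (z + ρ) * (z - (-1 - ρ)) * (z + (-1 - ρ)) = 0 := by
      grind [ρ2]
    have s : 0 < √3 := by positivity
    simp only [mul_eq_zero, sub_eq_zero, add_eq_zero_iff_eq_neg] at this
    rcases this with ((((rfl | rfl) | rfl) | rfl) | rfl) | rfl <;> simp [ρ] <;>
      (repeat' apply And.intro) <;> linarith
  · obtain rfl : b = 1 - a := by linarith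
    simp only [mem_setOf_eq, add_re, add_im, smul_re, smul_im, smul_eq_mul]
    (repeat' apply And.intro) <;> nlinarith

lemma hex_disj {p q : ℤ × ℤ} (h : p ≠ q) :
    Disjoint (interior ((· + L6 (c p)) '' convexHull ℝ {z : ℂ | z ^ 6 = 1}))
      (interior ((· + L6 (c q)) '' convexHull ℝ {z : ℂ | z ^ 6 = 1})) := by
  refine disjoint_left.2 fun z hp hq => h ?_
  have t : ∀ d : ℂ, Tendsto (fun t : ℝ => z + t * d) (𝓝[>] 0) (𝓝 z) := fun d =>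
    (Continuous.tendsto' (by fun_prop) 0 z (by simp)).mono_left nhdsWithin_le_nhds
  obtain ⟨t, ⟨⟨x, hx, e⟩, y, hy, f⟩, t0⟩ := ((((t (L6 (c q) - L6 (c p))).eventually
    (mem_interior_iff_mem_nhds.1 hp)).and ((t (L6 (c p) - L6 (c q))).eventually
      (mem_interior_iff_mem_nhds.1 hq))).and self_mem_nhdsWithin).exists
  have g : x - y = (1 + 2 * t) * (L6 (c q) - L6 (c p)) := by linear_combination e - f
  obtain ⟨x1, x2, x3⟩ := hex_sub hx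
  obtain ⟨y1, y2, y3⟩ := hex_sub hy
  have s : 0 < √3 := by positivity
  have k : ∀ (m : ℤ) (a b : ℝ), |a| ≤ √3 → |b| ≤ √3 → a - b = (1 + 2 * t) * (√3 * m) →
      -2 < m ∧ m < 2 := fun m a b ha hb e => by
    rw [abs_le] at ha hb
    have := mul_pos s t0
    constructor <;> rw [← Int.cast_lt (R := ℝ)] <;> push_cast <;> by_contra! <;> nlinarith
  simp [Complex.ext_iff, L6, c] at g
  have k1 := k (2 * (q.1 - p.1) + (q.2 - p.2)) _ _ x1 y1 (by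
    push_cast; linear_combination √3 * g.1 + g.2)
  have k2 := k ((q.1 - p.1) + 2 * (q.2 - p.2)) _ _ x2 y2 (by
    push_cast; linear_combination 2 * g.2)
  have k3 := k ((q.1 - p.1) - (q.2 - p.2)) _ _ x3 y3 (by
    push_cast; linear_combination √3 * g.1 - g.2)
  ext <;> omega

lemma hex_cover (z : ℂ) : ∃ q, z ∈ (· + L6 (c q)) '' convexHull ℝ {z : ℂ | z ^ 6 = 1} := by
  obtain ⟨⟨x, y⟩, h⟩ := L6.surjective (z - ρ ^ 2)
  have k : ∀ (q : ℤ × ℤ) (A B C : ℂ) (a b d : ℝ), A ^ 6 = 1 → B ^ 6 = 1 → C ^ 6 = 1 → 0 ≤ a →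
      0 ≤ b → 0 ≤ d → a + b + d = 1 → a * A + b * B + d * C + L6 (c q) = z →
      ∃ q, z ∈ (· + L6 (c q)) '' convexHull ℝ {z : ℂ | z ^ 6 = 1} :=
    fun q A B C a b d hA hB hC ha hb hd h e => ⟨q, _, by
      simpa [Fin.sum_univ_three] using (convex_convexHull ℝ {z : ℂ | z ^ 6 = 1}).sum_mem
        (t := Finset.univ) (w := ![a, b, d]) (z := ![A, B, C])
        (fun i _ => by fin_cases i <;> simpa) (by simpa [Fin.sum_univ_three])
        fun i _ => subset_convexHull ℝ _ (by fin_cases i <;> simpa), e⟩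
  have x1 := Int.floor_le x
  have x2 := Int.lt_floor_add_one x
  have y1 := Int.floor_le y
  have y2 := Int.lt_floor_add_one y
  generalize ⌊x⌋ = i, ⌊y⌋ = j at *
  obtain ⟨s, rfl⟩ : ∃ s, x = i + s := ⟨x - i, by ring⟩
  obtain ⟨t, rfl⟩ : ∃ t, y = j + t := ⟨y - j, by ring⟩
  rw [L6_eq] at h
  push_cast at h
  have r := ρ2
  rcases (by grind : s + t ≤ 1 ∨ (1 ≤ s + t ∧ s + 2 * t ≤ 2 ∧ 2 * s + t ≤ 2) ∨
    (t ≥ s ∧ 2 ≤ s + 2 * t) ∨ (s ≥ t ∧ 2 ≤ 2 * s + t)) with a | a | a | a <;>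
  [apply k (i, j) (ρ ^ 2) 1 ρ (1 - s - t) s t;
    apply k (i, j) (-ρ ^ 2) 1 ρ (3 * (s + t - 1)) (2 - s - 2 * t) (2 - 2 * s - t);
    apply k (i, j + 1) (-ρ) (ρ ^ 2) 1 (3 * (1 - t)) (t - s) (s + 2 * t - 2);
    apply k (i + 1, j) (-1) (ρ ^ 2) ρ (3 * (1 - s)) (s - t) (2 * s + t - 2)] <;>
  clear k <;> (try simp only [L6_eq, c]) <;> (try push_cast) <;> grind

end Pool.Agent.H8.Spiral
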