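import Mathlib

namespace Pool.Agent.H8.Stick

/-- An infinite-length strategy, recorded by its cut points: the partition `I_{i+2}` arises from
`I_{i+1}` by cutting at the new point `cut i` of the open interval `(0,1)`. -/
structure Strategy where
  cut : ℕ → ℝ
  mem : ∀ i, cut i ∈ Set.Ioo (0 : ℝ) 1
  inj : Function.Injective cut

/-- The endpoints of the intervals of `I_t`: `0`, `1` and the first `t - 1` cut points. -/
def ends (S : Strategy) (t : ℕ) : Set ℝ := {0, 1} ∪ S.cut '' {i | i + 1 < t}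

/-- The lengths of the intervals of `I_t` (differences of consecutive endpoints). -/
def lengths (S : Strategy) (t : ℕ) : Set ℝ :=
  {l | ∃ a ∈ ends S t, ∃ b ∈ ends S t, a < b ∧ (∀ c ∈ ends S t, c ≤ a ∨ b ≤ c) ∧ l = b - a}

/-- `disc_n(S)`: the largest ratio of two interval lengths of one partition `I_t`, `1 ≤ t ≤ n`. -/
noncomputable def discN (S : Strategy) (n : ℕ) : ℝ :=
  sSup {x | ∃ t, 1 ≤ t ∧ t ≤ n ∧ ∃ l₁ ∈ lengths S t, ∃ l₂ ∈ lengths S t, x = l₁ / l₂}

end Pool.Agent.H8.Stick
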