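import Mathlib

/-! Strassen's spectral theorem (existence of a separating monotone homomorphism). -/

namespace Pool.Agent.H8.Stra

variable {S : Type*} [CommSemiring S]

/-- a Strassen preorder -/
structure IsStr (P : S → S → Prop) : Prop where
  refl : ∀ x, P x x
  trans : ∀ {x y z}, P x y → P y z → P x z
  add : ∀ {x y} z, P x y → P (x + z) (y + z)
  mul : ∀ {x y} z, P x y → P (x * z) (y * z)
  zero : ∀ x, P 0 x
  one : ∀ x, x ≠ 0 → P 1 x
  arch : ∀ x, ∃ r : ℕ, P x r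
  proper : ∀ w, ¬ P (1 + w) w

namespace IsStr

variable {P : S → S → Prop} (h : IsStr P)
include h

lemma of_eq {x y x' y' : S} (hp : P x y) (e : x = x') (e' : y = y') : P x' y' := e ▸ e' ▸ hp

lemma add2 {x y u v : S} (h1 : P x y) (h2 : P u v) : P (x + u) (y + v) :=
  h.trans (h.add u h1) (h.of_eq (h.add y h2) (add_comm _ _) (add_comm _ _))

lemma mul2 {x y u v : S} (h1 : P x y) (h2 : P u v) : P (x * u) (y * v) :=
  h.trans (h.mul u h1) (h.of_eq (h.mul y h2) (mul_comm _ _) (mul_comm _ _))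

lemma le_add (x y : S) : P x (x + y) := h.of_eq (h.add x (h.zero y)) (zero_add _) (add_comm _ _)

lemma nat {m n : ℕ} (hmn : m ≤ n) : P m n := by
  obtain ⟨k, rfl⟩ := Nat.exists_eq_add_of_le hmn
  exact h.of_eq (h.le_add m k) rfl (by push_cast; rfl)

lemma nat' {m n : ℕ} (hmn : P m n) : m ≤ n := by
  by_contra hn
  exact h.proper n (h.of_eq (h.trans (h.nat (show n + 1 ≤ m by omega)) hmn)
    (by push_cast; ring) rfl)

end IsStr

/-- the extension of `P` by `y ≤ x` -/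
def Ext (P : S → S → Prop) (x y : S) (u v : S) : Prop := ∃ s z, P (u + s * x + z) (v + s * y + z)

lemma IsStr.le_ext {P : S → S → Prop} (h : IsStr P) (x y : S) {u v : S} (hp : P u v) :
    Ext P x y u v := ⟨0, 0, by simpa using hp⟩

lemma IsStr.ext {P : S → S → Prop} (h : IsStr P) (x y : S)
    (hp : ∀ s w, ¬ P (1 + s * x + w) (s * y + w)) : IsStr (Ext P x y) where
  refl u := h.le_ext x y (h.refl u)
  trans := by
    rintro u v w ⟨s, z, h1⟩ ⟨t, z', h2⟩
    exact ⟨s + t, z + z' + v, h.of_eq (h.add2 h1 h2) (by ring) (by ring)⟩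
  add := by
    rintro u v w ⟨s, z, h1⟩
    exact ⟨s, z, h.of_eq (h.add w h1) (by ring) (by ring)⟩
  mul := by
    rintro u v w ⟨s, z, h1⟩
    exact ⟨s * w, z * w, h.of_eq (h.mul w h1) (by ring) (by ring)⟩
  zero u := h.le_ext x y (h.zero u)
  one u hu := h.le_ext x y (h.one u hu)
  arch u := (h.arch u).imp fun _ hr => h.le_ext x y hr
  proper := by
    rintro w ⟨s, z, h1⟩
    exact hp s (w + z) (h.of_eq h1 (by ring) (by ring))

lemma IsStr.ext_mem {P : S → S → Prop} (h : IsStr P) (x y : S) : Ext P x y y x :=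
  ⟨1, 0, h.of_eq (h.refl (x + y)) (by ring) (by ring)⟩

lemma IsStr.ext_or {P : S → S → Prop} (h : IsStr P) (x y : S) :
    IsStr (Ext P x y) ∨ IsStr (Ext P y x) := by
  by_contra hn
  push Not at hn
  have h1 : ∃ s w, P (1 + s * x + w) (s * y + w) := by
    by_contra h1; push Not at h1; exact hn.1 (h.ext x y h1)
  have h2 : ∃ s w, P (1 + s * y + w) (s * x + w) := by
    by_contra h2; push Not at h2; exact hn.2 (h.ext y x h2)
  obtain ⟨s, w, h1⟩ := h1
  obtain ⟨t, w', h2⟩ := h2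
  by_cases s0 : s = 0
  · exact h.proper w (by simpa [s0] using h1)
  have h3 := h.add2 (h.mul t h1) (h.mul s h2)
  set W := s * t * x + s * t * y + w * t + w' * s
  have h4 : P (s + t + W) W := h.of_eq h3 (by ring) (by ring)
  exact h.proper W (h.trans (h.add W (h.trans (h.one s s0) (h.le_add s t))) h4)

lemma IsStr.exists_total {P : S → S → Prop} (h : IsStr P) :
    ∃ Q : S → S → Prop, IsStr Q ∧ (∀ x y, P x y → Q x y) ∧ ∀ x y, Q x y ∨ Q y x := by
  obtain ⟨Q, h1, h2⟩ := zorn_le_nonempty₀ {Q : S → S → Prop | IsStr Q} (fun c hc hch Q0 hQ0 => by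
    have up : ∀ {A B}, A ∈ c → B ∈ c → ∃ D ∈ c, A ≤ D ∧ B ≤ D := fun {A B} hA hB =>
      (hch.total hA hB).elim (fun e => ⟨B, hB, e, le_rfl⟩) fun e => ⟨A, hA, le_rfl, e⟩
    refine ⟨fun x y => ∃ A ∈ c, A x y, ⟨fun x => ⟨Q0, hQ0, (hc hQ0).refl x⟩, ?_, ?_, ?_,
      fun x => ⟨Q0, hQ0, (hc hQ0).zero x⟩, fun x hx => ⟨Q0, hQ0, (hc hQ0).one x hx⟩,
      fun x => ((hc hQ0).arch x).imp fun _ hr => ⟨Q0, hQ0, hr⟩, ?_⟩,
      fun A hA x y hxy => ⟨A, hA, hxy⟩⟩
    · rintro x y z ⟨A, hA, h1⟩ ⟨B, hB, h2⟩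
      obtain ⟨D, hD, e1, e2⟩ := up hA hB
      exact ⟨D, hD, (hc hD).trans (e1 _ _ h1) (e2 _ _ h2)⟩
    · rintro x y z ⟨A, hA, h1⟩; exact ⟨A, hA, (hc hA).add z h1⟩
    · rintro x y z ⟨A, hA, h1⟩; exact ⟨A, hA, (hc hA).mul z h1⟩
    · rintro w ⟨A, hA, h1⟩; exact (hc hA).proper w h1) P h
  have hQ : IsStr Q := h2.1
  refine ⟨Q, hQ, h1, fun x y => ?_⟩
  rcases hQ.ext_or x y with e | e
  · exact Or.inr (h2.2 e (fun u v hp => hQ.le_ext x y hp) _ _ (hQ.ext_mem x y))
  · exact Or.inl (h2.2 e (fun u v hp => hQ.le_ext y x hp) _ _ (hQ.ext_mem y x))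

lemma eq_of_small {a b c : ℝ} (h : ∀ q : ℕ, 0 < q → q * (a - b) ≤ c) : a ≤ b := by
  by_contra hn
  push Not at hn
  obtain ⟨q, hq⟩ := exists_nat_gt (c / (a - b))
  have := h (q + 1) (by omega)
  rw [div_lt_iff₀ (by linarith)] at hq
  push_cast at this
  nlinarith

lemma IsStr.exists_hom {Q : S → S → Prop} (h : IsStr Q) (tot : ∀ x y, Q x y ∨ Q y x) :
    ∃ f : S → ℝ, (∀ x, 0 ≤ f x) ∧ f 1 = 1 ∧ (∀ x y, Q x y → f x ≤ f y) ∧
      (∀ x y, f (x + y) = f x + f y) ∧ ∀ x y, f (x * y) = f x * f y := by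
  classical
  have ex : ∀ x : S, ∃ t : ℝ, ∀ p q : ℕ, 0 < q →
      (Q p (q * x) → (p : ℝ) ≤ q * t) ∧ (Q (q * x) p → q * t ≤ p) := by
    intro x
    let U : Set ℝ := {t | ∃ p q : ℕ, 0 < q ∧ Q (q * x) p ∧ t = p / q}
    have hU : U.Nonempty := by
      obtain ⟨r, hr⟩ := h.arch x
      exact ⟨_, r, 1, one_pos, by simpa using hr, rfl⟩
    refine ⟨sInf U, fun p q hq => ⟨fun h1 => ?_, fun h1 => ?_⟩⟩
    · have hq' : (0 : ℝ) < q := by exact_mod_cast hq
      rw [← div_le_iff₀' hq']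
      refine le_csInf hU ?_
      rintro _ ⟨p', q', hq2, h2, rfl⟩
      have hq3 : (0 : ℝ) < q' := by exact_mod_cast hq2
      rw [div_le_div_iff₀ hq' hq3]
      have : p * q' ≤ p' * q := h.nat' (h.of_eq (h.trans (h.mul (q' : S) h1)
        (h.of_eq (h.mul (q : S) h2) (by ring) rfl)) (by push_cast; rfl) (by push_cast; rfl))
      exact_mod_cast this
    · have hq' : (0 : ℝ) < q := by exact_mod_cast hq
      rw [← le_div_iff₀' hq']
      exact csInf_le ⟨0, by rintro _ ⟨p', q', -, -, rfl⟩; positivity⟩ ⟨p, q, hq, h1, rfl⟩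
  choose f hf using ex
  have br : ∀ y : S, ∃ lo : ℕ, Q lo y ∧ Q y (lo + 1 : ℕ) := by
    intro y
    have hex := h.arch y
    rcases Nat.eq_zero_or_pos (Nat.find hex) with e | e
    · exact ⟨0, by simpa using h.zero y, h.trans (Nat.find_spec hex) (h.nat (by omega))⟩
    · refine ⟨Nat.find hex - 1, (tot _ _).resolve_right (Nat.find_min hex (by omega)), ?_⟩
      rw [Nat.sub_add_cancel e]
      exact Nat.find_spec hex
  have f0 : ∀ x, 0 ≤ f x := fun x => by
    simpa using (hf x 0 1 one_pos).1 (by simpa using h.zero x)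
  refine ⟨f, f0, ?_, fun x y hxy => ?_, fun x y => ?_, fun x y => ?_⟩
  · have := hf 1 1 1 one_pos
    simp only [Nat.cast_one, mul_one, one_mul] at this
    exact le_antisymm (this.2 (h.refl 1)) (this.1 (h.refl 1))
  · refine eq_of_small (c := 1) fun q hq => ?_
    obtain ⟨l, h1, h2⟩ := br (q * y)
    have a1 := (hf y l q hq).1 h1
    have a2 := (hf x (l + 1) q hq).2 (h.trans (h.of_eq (h.mul (q : S) hxy) (by ring) (by ring)) h2)
    push_cast at a2
    linarith
  · have key : ∀ q : ℕ, 0 < q → |q * (f (x + y) - (f x + f y))| ≤ 2 := by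
      intro q hq
      obtain ⟨l, h1, h2⟩ := br (q * x)
      obtain ⟨m, h3, h4⟩ := br (q * y)
      have a1 := (hf x l q hq).1 h1
      have a2 := (hf x _ q hq).2 h2
      have a3 := (hf y m q hq).1 h3
      have a4 := (hf y _ q hq).2 h4
      have a5 := (hf (x + y) (l + m) q hq).1 (h.of_eq (h.add2 h1 h3) (by push_cast; rfl) (by ring))
      have a6 := (hf (x + y) (l + 1 + (m + 1)) q hq).2
        (h.of_eq (h.add2 h2 h4) (by ring) (by push_cast; rfl))
      push_cast at a2 a4 a5 a6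
      rw [abs_le]; constructor <;> linarith
    apply le_antisymm
    · exact eq_of_small (c := 2) fun q hq => (abs_le.1 (key q hq)).2
    · exact eq_of_small (c := 2) fun q hq => by have := (abs_le.1 (key q hq)).1; linarith
  · have key : ∀ q : ℕ, 0 < q → |q * (f (x * y) - f x * f y)| ≤ f x + f y + 1 := by
      intro q hq
      obtain ⟨l, h1, h2⟩ := br (q * x)
      obtain ⟨m, h3, h4⟩ := br (q * y)
      have a1 := (hf x l q hq).1 h1
      have a2 := (hf x _ q hq).2 h2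
      have a3 := (hf y m q hq).1 h3
      have a4 := (hf y _ q hq).2 h4
      have a5 := (hf (x * y) (l * m) (q * q) (Nat.mul_pos hq hq)).1
        (h.of_eq (h.mul2 h1 h3) (by push_cast; rfl) (by push_cast; ring))
      have a6 := (hf (x * y) ((l + 1) * (m + 1)) (q * q) (Nat.mul_pos hq hq)).2
        (h.of_eq (h.mul2 h2 h4) (by push_cast; ring) (by push_cast; rfl))
      push_cast at a2 a4 a5 a6
      have q1 : (1 : ℝ) ≤ q := by exact_mod_cast hq
      have l0 : (0 : ℝ) ≤ l := by positivity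
      have m0 : (0 : ℝ) ≤ m := by positivity
      have b1 : (l : ℝ) * m ≤ (q * f x) * (q * f y) := mul_le_mul a1 a3 m0 (l0.trans a1)
      have b2 : (q * f x) * (q * f y) ≤ ((l : ℝ) + 1) * (m + 1) :=
        mul_le_mul a2 a4 (m0.trans a3) (by positivity)
      rw [abs_le]
      constructor
      · refine le_of_mul_le_mul_left (a := (q : ℝ)) ?_ (by linarith)
        nlinarith
      · refine le_of_mul_le_mul_left (a := (q : ℝ)) ?_ (by linarith)
        nlinarith
    apply le_antisymm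
    · exact eq_of_small fun q hq => (abs_le.1 (key q hq)).2
    · exact eq_of_small (c := f x + f y + 1) fun q hq => by
        have := (abs_le.1 (key q hq)).1; linarith

/-- Strassen separation -/
theorem IsStr.separate {P : S → S → Prop} (h : IsStr P) {a b : S} (hb : b ≠ 0)
    (hab : ∀ n, 0 < n → ¬ P (a ^ n) (((4 ^ n : ℕ) : S) * b ^ n)) :
    ∃ f : S → ℝ, (∀ x, 0 ≤ f x) ∧ f 1 = 1 ∧ (∀ x y, P x y → f x ≤ f y) ∧
      (∀ x y, f (x + y) = f x + f y) ∧ (∀ x y, f (x * y) = f x * f y) ∧ f b < f a := by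
  have h1 : IsStr (Ext P a (b + b)) := by
    refine h.ext _ _ fun s w hp => ?_
    by_cases s0 : s = 0
    · exact h.proper w (by simpa [s0] using hp)
    have h2 : P (s * a + w) (s * (b + b) + w) :=
      h.trans (h.of_eq (h.le_add (s * a + w) 1) rfl (by ring)) hp
    have h3 : ∀ k : ℕ, P (k * (s * a) + w) (k * (s * (b + b)) + w) := by
      intro k
      induction k with
      | zero => simpa using h.refl w
      | succ k ih =>
        refine h.trans (h.of_eq (h.add (s * a) ih) (by push_cast; ring) rfl) ?_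
        exact h.of_eq (h.add (k * (s * (b + b))) h2) (by ring) (by push_cast; ring)
    obtain ⟨r, hr⟩ := h.arch w
    have sb : P 1 (s * b) := h.of_eq (h.mul2 (h.one s s0) (h.one b hb)) (by ring) rfl
    have hw : P w ((r + 1 : ℕ) * (s * b)) :=
      h.trans hr (h.trans (h.nat (Nat.le_succ r)) (h.of_eq (h.mul ((r + 1 : ℕ) : S) sb)
        (by ring) (by ring)))
    set s' : S := (r + 1 : ℕ) * s with hs'
    have s1 : P 1 s' := h.of_eq (h.mul2 (h.nat (show 1 ≤ r + 1 by omega)) (h.one s s0))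
      (by simp) rfl
    have h4 : P (s' * a) (s' * (3 * b)) :=
      h.trans (h.of_eq (h.le_add ((r + 1 : ℕ) * (s * a)) w) (by rw [hs']; ring) rfl)
        (h.trans (h3 (r + 1)) (h.of_eq (h.add2 (h.refl _) hw) rfl (by rw [hs']; ring)))
    have h5 : ∀ n : ℕ, P (s' * a ^ n) (s' * (3 * b) ^ n) := by
      intro n
      induction n with
      | zero => exact h.of_eq (h.refl s') (by simp) (by simp)
      | succ n ih =>
        refine h.trans (h.of_eq (h.mul a ih) (by ring) rfl) ?_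
        exact h.of_eq (h.mul ((3 * b) ^ n) h4) (by ring) (by ring)
    obtain ⟨r', hr'⟩ := h.arch s'
    obtain ⟨n, hn⟩ : ∃ n, 0 < n ∧ r' * 3 ^ n ≤ 4 ^ n := by
      obtain ⟨n, hn⟩ := pow_unbounded_of_one_lt (r' : ℝ) (show (1 : ℝ) < 4 / 3 by norm_num)
      refine ⟨n + 1, by omega, ?_⟩
      rw [div_pow, lt_div_iff₀ (by positivity)] at hn
      have : r' * 3 ^ n ≤ 4 ^ n := by exact_mod_cast hn.le
      rw [pow_succ, pow_succ, ← mul_assoc]; omega
    refine hab n hn.1 (h.trans (h.of_eq (h.mul (a ^ n) s1) (by ring) rfl) (h.trans (h5 n) ?_))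
    refine h.trans (h.mul _ hr') (h.of_eq (h.mul (b ^ n) (h.nat hn.2)) ?_ rfl)
    push_cast; ring
  obtain ⟨Q, hQ, hPQ, tot⟩ := h1.exists_total
  obtain ⟨f, f0, f1, fm, fa, fx⟩ := hQ.exists_hom tot
  refine ⟨f, f0, f1, fun x y hxy => fm _ _ (hPQ _ _ (h.le_ext _ _ hxy)), fa, fx, ?_⟩
  have e1 := fm _ _ (hPQ _ _ (h.ext_mem a (b + b)))
  have e2 := fm _ _ (hQ.one b hb)
  rw [fa] at e1
  linarith

end Pool.Agent.H8.Stra
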