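import Pool.Agent.H8.Stra1

/-! The semiring of finite graphs up to homomorphic equivalence. -/

namespace Pool.Agent.H8.Stra

/-- a finite simple graph -/
structure FG where
  V : Type
  [fin : Finite V]
  G : SimpleGraph V

attribute [instance] FG.fin

def FG.Hom (A B : FG) : Prop := Nonempty (A.G →g B.G)

def FG.join (A B : FG) : FG where
  V := A.V ⊕ B.V
  G :=
    { Adj := fun x y => match x, y with
        | .inl a, .inl a' => A.G.Adj a a'
        | .inr b, .inr b' => B.G.Adj b b'
        | _, _ => True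
      symm := ⟨by rintro (a | a) (b | b) h <;> first | exact h.symm | trivial⟩
      loopless := ⟨by rintro (a | a) h <;> exact h.ne rfl⟩ }

def FG.disj (A B : FG) : FG where
  V := A.V × B.V
  G :=
    { Adj := fun x y => A.G.Adj x.1 y.1 ∨ B.G.Adj x.2 y.2
      symm := ⟨fun _ _ h => h.imp SimpleGraph.Adj.symm SimpleGraph.Adj.symm⟩
      loopless := ⟨fun _ h => h.elim (fun h => h.ne rfl) fun h => h.ne rfl⟩ }

def FG.lex (A B : FG) : FG where
  V := A.V × B.V
  G :=
    { Adj := fun x y => A.G.Adj x.1 y.1 ∨ (x.1 = y.1 ∧ B.G.Adj x.2 y.2)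
      symm := ⟨fun _ _ h => h.imp SimpleGraph.Adj.symm fun h => ⟨h.1.symm, h.2.symm⟩⟩
      loopless := ⟨fun _ h => h.elim (fun h => h.ne rfl) fun h => h.2.ne rfl⟩ }

def FG.K (n : ℕ) : FG := ⟨Fin n, ⊤⟩

def FG.pw (A : FG) (n : ℕ) : FG where
  V := Fin n → A.V
  G :=
    { Adj := fun x y => ∃ i, A.G.Adj (x i) (y i)
      symm := ⟨fun _ _ ⟨i, h⟩ => ⟨i, h.symm⟩⟩
      loopless := ⟨fun _ ⟨_, h⟩ => h.ne rfl⟩ }

lemma FG.hom_of {A B : FG} (f : A.V → B.V) (h : ∀ x y, A.G.Adj x y → B.G.Adj (f x) (f y)) :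
    A.Hom B := ⟨⟨f, fun {x y} => h x y⟩⟩

lemma FG.Hom.refl (A : FG) : A.Hom A := ⟨SimpleGraph.Hom.id⟩
lemma FG.Hom.trans {A B D : FG} : A.Hom B → B.Hom D → A.Hom D := fun ⟨f⟩ ⟨g⟩ => ⟨g.comp f⟩

lemma FG.Hom.join {A B D E : FG} : A.Hom B → D.Hom E → (A.join D).Hom (B.join E) :=
  fun ⟨f⟩ ⟨g⟩ => FG.hom_of (Sum.map f g) (by
    rintro (a | a) (b | b) h
    · exact f.map_adj h
    · trivial
    · trivial
    · exact g.map_adj h)

lemma FG.Hom.disj {A B D E : FG} : A.Hom B → D.Hom E → (A.disj D).Hom (B.disj E) :=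
  fun ⟨f⟩ ⟨g⟩ => FG.hom_of (Prod.map f g) fun _ _ h => h.imp f.map_adj g.map_adj

instance st : Setoid FG :=
  ⟨fun A B => A.Hom B ∧ B.Hom A, fun A => ⟨.refl A, .refl A⟩, fun h => h.symm,
    fun h h' => ⟨h.1.trans h'.1, h'.2.trans h.2⟩⟩

def QG := Quotient st

def mk (A : FG) : QG := Quotient.mk _ A

lemma mk_eq {A B : FG} (e : A.V ≃ B.V) (h : ∀ x y, A.G.Adj x y ↔ B.G.Adj (e x) (e y)) :
    mk A = mk B :=
  Quotient.sound ⟨FG.hom_of e fun x y => (h x y).1,
    FG.hom_of e.symm fun x y hxy => (h _ _).2 (by simpa using hxy)⟩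

@[elab_as_elim] lemma ind {p : QG → Prop} (h : ∀ A, p (mk A)) (x : QG) : p x :=
  Quotient.inductionOn x h

instance : Add QG :=
  ⟨Quotient.map₂ FG.join fun _ _ h _ _ h' => ⟨h.1.join h'.1, h.2.join h'.2⟩⟩
instance : Mul QG :=
  ⟨Quotient.map₂ FG.disj fun _ _ h _ _ h' => ⟨h.1.disj h'.1, h.2.disj h'.2⟩⟩
instance : Zero QG := ⟨mk (.K 0)⟩
instance : One QG := ⟨mk (.K 1)⟩

lemma mk_add (A B : FG) : mk A + mk B = mk (A.join B) := rfl
lemma mk_mul (A B : FG) : mk A * mk B = mk (A.disj B) := rfl

lemma q_add_comm (x y : QG) : x + y = y + x := by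
  induction x using ind; induction y using ind
  exact mk_eq (Equiv.sumComm _ _) (by rintro (a | a) (b | b) <;> exact Iff.rfl)

lemma q_mul_comm (x y : QG) : x * y = y * x := by
  induction x using ind; induction y using ind
  exact mk_eq (Equiv.prodComm _ _) fun _ _ => or_comm

lemma q_zero_add (x : QG) : 0 + x = x := by
  induction x using ind with
  | h A =>
    refine Quotient.sound ⟨FG.hom_of (Sum.elim Fin.elim0 id) ?_, FG.hom_of Sum.inr fun _ _ h => h⟩
    rintro (a | a) (b | b) h
    · exact a.elim0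
    · exact a.elim0
    · exact b.elim0
    · exact h

lemma q_zero_mul (x : QG) : 0 * x = 0 := by
  induction x using ind with
  | h A =>
    exact Quotient.sound ⟨FG.hom_of Prod.fst fun a _ _ => a.1.elim0,
      FG.hom_of Fin.elim0 fun a _ _ => a.elim0⟩

lemma q_one_mul (x : QG) : 1 * x = x := by
  induction x using ind with
  | h A =>
    exact Quotient.sound ⟨FG.hom_of Prod.snd fun a b h =>
      h.resolve_left fun h => h.ne (Subsingleton.elim (α := Fin 1) _ _),
      FG.hom_of (fun a => ((0 : Fin 1), a)) fun _ _ h => Or.inr h⟩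

lemma q_left_distrib (x y z : QG) : x * (y + z) = x * y + x * z := by
  induction x using ind; induction y using ind; induction z using ind
  refine mk_eq (Equiv.prodSumDistrib _ _ _) ?_
  rintro ⟨a, b | b⟩ ⟨c, d | d⟩
  · exact Iff.rfl
  · exact iff_of_true (Or.inr trivial) trivial
  · exact iff_of_true (Or.inr trivial) trivial
  · exact Iff.rfl

instance : CommSemiring QG where
  add_assoc x y z := by
    induction x using ind; induction y using ind; induction z using ind
    exact mk_eq (Equiv.sumAssoc _ _ _) (by rintro ((a | a) | a) ((b | b) | b) <;> exact Iff.rfl)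
  zero_add := q_zero_add
  add_zero x := by rw [q_add_comm, q_zero_add]
  add_comm := q_add_comm
  nsmul := nsmulRec
  left_distrib := q_left_distrib
  right_distrib x y z := by rw [q_mul_comm, q_left_distrib, q_mul_comm z, q_mul_comm z]
  zero_mul := q_zero_mul
  mul_zero x := by rw [q_mul_comm, q_zero_mul]
  mul_assoc x y z := by
    induction x using ind; induction y using ind; induction z using ind
    exact mk_eq (Equiv.prodAssoc _ _ _) fun _ _ => or_assoc
  one_mul := q_one_mul
  mul_one x := by rw [q_mul_comm, q_one_mul]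
  mul_comm := q_mul_comm

def LE (x y : QG) : Prop :=
  Quotient.lift₂ FG.Hom (fun _ _ _ _ h h' => propext
    ⟨fun e => (h.2.trans e).trans h'.1, fun e => (h.1.trans e).trans h'.2⟩) x y

lemma le_mk {A B : FG} : LE (mk A) (mk B) ↔ A.Hom B := Iff.rfl

lemma mk_K (n : ℕ) : (n : QG) = mk (.K n) := by
  induction n with
  | zero => rfl
  | succ n ih =>
    rw [Nat.cast_succ, ih]
    refine mk_eq finSumFinEquiv ?_
    intro x y
    have : ((FG.K n).join (FG.K 1)).G.Adj x y ↔ x ≠ y := by
      rcases x with a | a <;> rcases y with b | b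
      · exact ⟨fun h e => (show a ≠ b from h) (Sum.inl.inj e), fun h e => h (congrArg _ e)⟩
      · exact iff_of_true trivial Sum.inl_ne_inr
      · exact iff_of_true trivial Sum.inr_ne_inl
      · exact ⟨fun h e => (show a ≠ b from h) (Sum.inr.inj e), fun h e => h (congrArg _ e)⟩
    rw [this]
    exact finSumFinEquiv.injective.ne_iff.symm

lemma mk_pw (A : FG) (n : ℕ) : mk A ^ n = mk (A.pw n) := by
  induction n with
  | zero =>
    exact Quotient.sound ⟨FG.hom_of (fun _ => Fin.elim0) fun a b h =>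
      absurd (Subsingleton.elim (α := Fin 1) _ _) h.ne,
      FG.hom_of (fun _ => (0 : Fin 1)) fun _ _ ⟨i, _⟩ => i.elim0⟩
  | succ n ih =>
    rw [pow_succ', ih]
    refine mk_eq (Fin.consEquiv fun _ => A.V) fun x y => ?_
    change A.G.Adj x.1 y.1 ∨ (∃ i, A.G.Adj (x.2 i) (y.2 i)) ↔ ∃ i, _
    rw [Fin.exists_fin_succ]
    exact Iff.rfl

lemma le_card (A : FG) : LE (mk A) (Nat.card A.V : ℕ) := by
  rw [mk_K]
  exact FG.hom_of (Finite.equivFin A.V) fun x y h => (Finite.equivFin A.V).injective.ne h.ne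

theorem isStr : IsStr LE where
  refl x := by induction x using ind; exact .refl _
  trans {x y z} := by
    induction x using ind; induction y using ind; induction z using ind; exact FG.Hom.trans
  add {x y} z := by
    induction x using ind; induction y using ind; induction z using ind
    exact fun h => FG.Hom.join h (.refl _)
  mul {x y} z := by
    induction x using ind; induction y using ind; induction z using ind
    exact fun h => FG.Hom.disj h (.refl _)
  zero x := by
    induction x using ind; exact FG.hom_of Fin.elim0 fun a _ _ => a.elim0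
  one x := by
    induction x using ind with
    | h A =>
      intro hA
      by_cases hn : Nonempty A.V
      · exact FG.hom_of (fun _ => hn.some) fun a b h =>
          absurd (Subsingleton.elim (α := Fin 1) _ _) h.ne
      · refine absurd (Quotient.sound (s := st) (a := A) (b := .K 0) ?_) hA
        exact ⟨FG.hom_of (fun a => (hn ⟨a⟩).elim) fun a _ _ => (hn ⟨a⟩).elim,
          FG.hom_of Fin.elim0 fun a _ _ => a.elim0⟩
  arch x := by induction x using ind with | h A => exact ⟨_, le_card A⟩
  proper w hw := by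
    induction w using ind with
    | h A =>
      have h1 : ∀ k : ℕ, ∃ B, mk B = k + mk A ∧ B.Hom A := by
        intro k
        induction k with
        | zero => exact ⟨A, by simp, .refl _⟩
        | succ k ih =>
          obtain ⟨B, e, hB⟩ := ih
          refine ⟨(FG.K 1).join B, ?_, (FG.Hom.join (.refl _) hB).trans hw⟩
          rw [← mk_add, e, ← mk_K]; push_cast; ring
      obtain ⟨B, e, hB⟩ := h1 (Nat.card A.V + 1)
      have h2 : (FG.K (Nat.card A.V + 1)).Hom B := by
        rw [← le_mk, e, mk_K]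
        exact FG.hom_of Sum.inl fun _ _ h => h
      obtain ⟨f⟩ := h2.trans hB
      have := Nat.card_le_card_of_injective f fun x y hxy => by
        by_contra hn
        exact (f.map_adj (show (⊤ : SimpleGraph _).Adj x y from hn)).ne hxy
      simp [FG.K] at this

/-- Strassen separation for graphs -/
theorem sep_graph (A B : FG) (hB : Nonempty B.V)
    (h : ∀ n, 0 < n → ¬ (A.pw n).Hom ((FG.K (4 ^ n)).disj (B.pw n))) :
    ∃ η : FG → ℝ, (∀ G, 0 ≤ η G) ∧ η (.K 1) = 1 ∧ (∀ G H, G.Hom H → η G ≤ η H) ∧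
      (∀ G H, η (G.join H) = η G + η H) ∧ (∀ G H, η (G.disj H) = η G * η H) ∧ η B < η A := by
  obtain ⟨f, f0, f1, fm, fa, fx, hf⟩ := isStr.separate (a := mk A) (b := mk B)
    (fun e => by
      obtain ⟨⟨f⟩, -⟩ := Quotient.exact e
      exact (f hB.some).elim0)
    (fun n hn => by rw [mk_pw, mk_pw, mk_K]; exact h n hn)
  exact ⟨fun G => f (mk G), fun G => f0 _, f1, fun G H hGH => fm _ _ hGH,
    fun G H => fa (mk G) (mk H), fun G H => fx (mk G) (mk H), hf⟩

end Pool.Agent.H8.Stra
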