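import Pool.Agent.H8.Stra2

/-! The counting argument: powers of `G * K_D` do not map to `K_(4^n) * (G ⋉ K_D)^n`. -/

namespace Pool.Agent.H8.Stra

open Finset

section count

variable {V : Type} [Fintype V] [DecidableEq V] (G : SimpleGraph V) {n D X : ℕ}

abbrev Wt (V : Type) (n D X : ℕ) := Fin X × (Fin n → V × Fin D)

def AT (w w' : Wt V n D X) : Prop :=
  w.1 ≠ w'.1 ∨ ∃ i, G.Adj (w.2 i).1 (w'.2 i).1 ∨ ((w.2 i).1 = (w'.2 i).1 ∧ (w.2 i).2 ≠ (w'.2 i).2)

def yy (w : Wt V n D X) : Fin n → V := fun i => (w.2 i).1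

variable {G}

lemma AT.symm {w w' : Wt V n D X} (h : AT G w w') : AT G w' w :=
  h.imp Ne.symm fun ⟨i, h⟩ => ⟨i, h.imp SimpleGraph.Adj.symm fun h => ⟨h.1.symm, h.2.symm⟩⟩

lemma AT.irr (w : Wt V n D X) : ¬ AT G w w := by
  rintro (h | ⟨i, h | h⟩)
  · exact h rfl
  · exact h.ne rfl
  · exact h.2 rfl

def Clq (G : SimpleGraph V) (Q : Finset (Wt V n D X)) : Prop :=
  ∀ w ∈ Q, ∀ w' ∈ Q, w ≠ w' → AT G w w'

lemma clq_le {r : ℕ}
    (hω : ∀ Q : Finset (Fin n → V), (∀ x ∈ Q, ∀ y ∈ Q, x ≠ y → ∃ i, G.Adj (x i) (y i)) →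
      #Q ≤ r ^ n) {Q : Finset (Wt V n D X)} (hQ : Clq G Q) : #Q ≤ r ^ n * (X * D ^ n) := by
  classical
  have := card_le_mul_card_image_of_maps_to (s := Q) (t := univ)
    (f := fun w => (w.1, fun i => (w.2 i).2)) (fun _ _ => mem_univ _) (r ^ n) (fun b _ => by
      have inj : Set.InjOn (yy (V := V) (n := n) (D := D) (X := X))
          ↑({a ∈ Q | (a.1, fun i => (a.2 i).2) = b} : Finset (Wt V n D X)) := by
        intro u hu v hv e
        simp only [coe_filter, Set.mem_setOf_eq] at hu hv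
        have e1 := hu.2.trans hv.2.symm
        refine Prod.ext (Prod.ext_iff.1 e1).1 (funext fun i => Prod.ext (congrFun e i) ?_)
        exact congrFun (congrArg Prod.snd e1) i
      rw [← card_image_of_injOn inj]
      refine hω _ fun x hx y hy hxy => ?_
      obtain ⟨u, hu, rfl⟩ := mem_image.1 hx
      obtain ⟨v, hv, rfl⟩ := mem_image.1 hy
      rw [mem_filter] at hu hv
      have e1 := hu.2.trans hv.2.symm
      rcases hQ u hu.1 v hv.1 (fun e => hxy (e ▸ rfl)) with h | ⟨i, h | h⟩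
      · exact absurd (congrArg Prod.fst e1) h
      · exact ⟨i, h⟩
      · exact absurd (congrFun (congrArg Prod.snd e1) i) h.2)
  simpa using this

lemma ball_le [Nonempty V] (y0 : Fin n → V) (k : ℕ) :
    #{y : Fin n → V | #{i | y i ≠ y0 i} ≤ k} ≤ Fintype.card V ^ k * 2 ^ n := by
  have := card_le_mul_card_image_of_maps_to (s := {y : Fin n → V | #{i | y i ≠ y0 i} ≤ k})
    (t := univ) (f := fun y => ({i | y i ≠ y0 i} : Finset (Fin n))) (fun _ _ => mem_univ _)
    (Fintype.card V ^ k) (fun B _ => by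
      by_cases hB : #B ≤ k
      · refine le_trans (card_le_card_of_injOn (t := (univ : Finset (B → V)))
          (fun y i => y i) (fun _ _ => mem_univ _) ?_) ?_
        · intro u hu v hv e
          simp only [coe_filter, Set.mem_setOf_eq] at hu hv
          funext i
          by_cases hi : i ∈ B
          · exact congrFun e ⟨i, hi⟩
          · have a1 : u i = y0 i := by by_contra hn; exact hi (hu.2 ▸ by simpa using hn)
            have a2 : v i = y0 i := by by_contra hn; exact hi (hv.2 ▸ by simpa using hn)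
            rw [a1, a2]
        · simpa using Nat.pow_le_pow_right Fintype.card_pos hB
      · rw [card_eq_zero.2]
        · exact Nat.zero_le _
        · rw [filter_eq_empty_iff]
          intro y hy e
          exact hB (e ▸ (mem_filter.1 hy).2))
  simpa using this

lemma good_clq [Nonempty V] {s k : ℕ}
    (hα : ∀ I : Finset V, (∀ x ∈ I, ∀ y ∈ I, ¬ G.Adj x y) → #I ≤ s)
    (ψ : (Fin n → V) → Wt V n D X) (h2 : ∀ x x', (∃ i, G.Adj (x i) (x' i)) → AT G (ψ x) (ψ x'))
    (hg : ∀ x x', ¬ AT G (ψ x) (ψ x') → #{i | yy (ψ x) i ≠ yy (ψ x') i} ≤ k) :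
    ∃ Q : Finset (Wt V n D X), Clq G Q ∧ (∀ w ∈ Q, ∃ x, ψ x = w) ∧
      Fintype.card V ^ n ≤ s ^ n * (#Q * (Fintype.card V ^ k * 2 ^ n) * #Q) := by
  classical
  set Im := univ.image ψ with hIm
  obtain ⟨Q, hQ, hmax⟩ := exists_max_image (Im.powerset.filter (Clq G)) card
    ⟨∅, by simp [Clq]⟩
  rw [mem_filter, mem_powerset] at hQ
  have hmax' : ∀ Q' ⊆ Im, Clq G Q' → #Q' ≤ #Q := fun Q' h1 h2 =>
    hmax Q' (mem_filter.2 ⟨mem_powerset.2 h1, h2⟩)
  refine ⟨Q, hQ.2, fun w hw => by simpa [hIm] using hQ.1 hw, ?_⟩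
  have a1 : Fintype.card V ^ n ≤ s ^ n * #Im := by
    have := card_le_mul_card_image_of_maps_to (s := univ) (t := Im) (f := ψ)
      (fun x _ => mem_image_of_mem _ (mem_univ x)) (s ^ n) (fun w _ => by
        refine le_trans (card_le_card (t := Fintype.piFinset fun i =>
          ({a ∈ univ | ψ a = w} : Finset _).image (· i)) fun x hx => ?_) ?_
        · exact Fintype.mem_piFinset.2 fun i => mem_image_of_mem _ hx
        · rw [Fintype.card_piFinset]
          refine (prod_le_pow_card _ _ s fun i _ => hα _ fun x hx y hy hxy => ?_).trans (by simp)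
          obtain ⟨u, hu, rfl⟩ := mem_image.1 hx
          obtain ⟨v, hv, rfl⟩ := mem_image.1 hy
          have := h2 u v ⟨i, hxy⟩
          rw [(mem_filter.1 hu).2, (mem_filter.1 hv).2] at this
          exact AT.irr _ this)
    simpa using this
  refine a1.trans (Nat.mul_le_mul_left _ ?_)
  have cov : ∀ w ∈ Im, ∃ q ∈ Q, ¬ AT G w q := by
    intro w hw
    by_contra hn
    push Not at hn
    have hwQ : w ∉ Q := fun h => AT.irr _ (hn w h)
    have := hmax' (insert w Q) (insert_subset hw hQ.1) (by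
      intro u hu v hv huv
      rcases mem_insert.1 hu with rfl | hu' <;> rcases mem_insert.1 hv with rfl | hv'
      · exact absurd rfl huv
      · exact hn v hv'
      · exact (hn u hu').symm
      · exact hQ.2 u hu' v hv' huv)
    rw [card_insert_of_notMem hwQ] at this
    omega
  choose! f hf hf' using cov
  refine card_le_mul_card_image_of_maps_to hf _ fun q hq => ?_
  refine le_trans (card_le_mul_card_image_of_maps_to (f := yy)
    (t := {y : Fin n → V | #{i | y i ≠ yy q i} ≤ k}) (fun w hw => ?_) (#Q) fun y _ => ?_)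
    (Nat.mul_le_mul_left _ (ball_le _ k))
  · rw [mem_filter] at hw
    have h3 := hf' w hw.1
    rw [hw.2] at h3
    obtain ⟨x, -, rfl⟩ := mem_image.1 hw.1
    obtain ⟨x', -, rfl⟩ := mem_image.1 (hQ.1 hq)
    exact mem_filter.2 ⟨mem_univ _, hg x x' h3⟩
  · refine hmax' _ (fun w hw => (mem_filter.1 (mem_filter.1 hw).1).1) fun u hu v hv huv => ?_
    simp only [mem_filter] at hu hv
    have b1 := hf' u hu.1.1
    have b2 := hf' v hv.1.1
    rw [hu.1.2] at b1
    rw [hv.1.2] at b2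
    have e1 : u.1 = v.1 := (not_not.1 fun h => b1 (Or.inl h)).trans
      (not_not.1 fun h => b2 (Or.inl h)).symm
    have e2 := hu.2.trans hv.2.symm
    by_contra hn
    refine huv (Prod.ext e1 (funext fun i => Prod.ext (congrFun e2 i) ?_))
    by_contra h3
    exact hn (Or.inr ⟨i, Or.inr ⟨congrFun e2 i, h3⟩⟩)

lemma bad_le (hD : 0 < D) {k : ℕ} (ψ : (Fin n → Fin D) → (Fin n → V) → Wt V n D X)
    (h1 : ∀ c c' x x', c ≠ c' → AT G (ψ c x) (ψ c' x')) (Bad : Finset (Fin n → Fin D))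
    (hB : ∀ c ∈ Bad, ∃ x x', ¬ AT G (ψ c x) (ψ c x') ∧ k < #{i | yy (ψ c x) i ≠ yy (ψ c x') i}) :
    #Bad ≤ D ^ (n - (k + 1)) * (X * (Fintype.card V ^ n * Fintype.card V ^ n)) := by
  classical
  haveI : Nonempty (Fin n → V) ∨ Bad = ∅ := by
    by_cases h : Bad = ∅
    · exact Or.inr h
    · obtain ⟨c, hc⟩ := nonempty_iff_ne_empty.2 h
      obtain ⟨x, -⟩ := hB c hc
      exact Or.inl ⟨x⟩
  rcases this with hne | he
  swap
  · simp [he]
  choose! x x' hx hx' using hB
  have := card_le_mul_card_image_of_maps_to (s := Bad) (t := univ)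
    (f := fun c => ((ψ c (x c)).1, yy (ψ c (x c)), yy (ψ c (x' c)))) (fun _ _ => mem_univ _)
    (D ^ (n - (k + 1))) (fun b _ => by
      set A : Finset (Fin n) := {i | b.2.1 i = b.2.2 i} with hA
      by_cases hk : k < #{i | b.2.1 i ≠ b.2.2 i}
      · refine le_trans (card_le_card_of_injOn (t := (univ : Finset (A → Fin D)))
          (fun c i => ((ψ c (x c)).2 i).2) (fun _ _ => mem_univ _) ?_) ?_
        · intro c hc c' hc' e
          simp only [coe_filter, Set.mem_setOf_eq] at hc hc'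
          by_contra hn
          have b1 := hx c hc.1
          have b2 := hx c' hc'.1
          have e1 := hc.2.trans hc'.2.symm
          simp only [Prod.mk.injEq] at e1
          rcases h1 c c' (x c) (x' c') hn with h | ⟨i, h | h⟩
          · exact b2 (Or.inl (e1.1 ▸ h))
          · refine b2 (Or.inr ⟨i, Or.inl ?_⟩)
            have := congrFun e1.2.1 i
            simp only [yy] at this
            rwa [← this]
          · have t1 := congrFun e1.2.1 i
            simp only [yy] at t1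
            have hi : i ∈ A := by
              rw [hA, mem_filter, ← hc'.2]
              exact ⟨mem_univ _, t1.symm.trans h.1⟩
            have t2 := congrFun e ⟨i, hi⟩
            exact b2 (Or.inr ⟨i, Or.inr ⟨t1.symm.trans h.1, fun t3 => h.2 (t2.trans t3)⟩⟩)
        · have : #A + #{i | b.2.1 i ≠ b.2.2 i} = n := by
            rw [hA, card_filter_add_card_filter_not]; simp
          simpa using Nat.pow_le_pow_right hD (show #A ≤ n - (k + 1) by omega)
      · rw [card_eq_zero.2]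
        · exact Nat.zero_le _
        · rw [filter_eq_empty_iff]
          intro c hc e
          exact hk (e ▸ hx' c hc))
  simpa using this

theorem no_map [Nonempty V] {r s u : ℕ} (hn : 0 < n)
    (hω : ∀ Q : Finset (Fin n → V), (∀ x ∈ Q, ∀ y ∈ Q, x ≠ y → ∃ i, G.Adj (x i) (y i)) →
      #Q ≤ r ^ n)
    (hα : ∀ I : Finset V, (∀ x ∈ I, ∀ y ∈ I, ¬ G.Adj x y) → #I ≤ s)
    (hu : Fintype.card V ≤ u ^ 4) (hN : s * (8 * r * (u * 2) * (8 * r)) < Fintype.card V)
    (hD : D = (8 * (Fintype.card V * Fintype.card V)) ^ 4)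
    (ψ : (Fin n → Fin D) → (Fin n → V) → Wt V n D (4 ^ n))
    (h1 : ∀ c c' x x', c ≠ c' → AT G (ψ c x) (ψ c' x'))
    (h2 : ∀ c x x', (∃ i, G.Adj (x i) (x' i)) → AT G (ψ c x) (ψ c x')) : False := by
  classical
  set N := Fintype.card V with hNdef
  have N0 : 0 < N := Fintype.card_pos
  have D0 : 0 < D := by rw [hD]; positivity
  have u0 : 0 < u := by
    rcases Nat.eq_zero_or_pos u with e | e
    · rw [e] at hu; omega
    · exact e
  set k := n / 4 with hk
  set Good : Finset (Fin n → Fin D) :=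
    {c | ∀ x x', ¬ AT G (ψ c x) (ψ c x') → #{i | yy (ψ c x) i ≠ yy (ψ c x') i} ≤ k} with hG
  have b1 := bad_le (G := G) (k := k) D0 ψ h1 Goodᶜ (fun c hc => by
    simpa [hG] using hc)
  have b2 : 2 * #Goodᶜ ≤ D ^ n := by
    have e1 : D ^ n = D ^ (n - (k + 1)) * D ^ (k + 1) := by
      rw [← pow_add]; congr 1; omega
    have e2 : 2 * (4 ^ n * (N ^ n * N ^ n)) ≤ D ^ (k + 1) := by
      rw [hD, ← pow_mul]
      calc 2 * (4 ^ n * (N ^ n * N ^ n)) ≤ 2 ^ n * (4 ^ n * (N ^ n * N ^ n)) :=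
            Nat.mul_le_mul_right _ (Nat.le_self_pow hn.ne' 2)
        _ = (8 * (N * N)) ^ n := by rw [← mul_pow, ← mul_pow, ← mul_pow]; congr 1; ring
        _ ≤ _ := Nat.pow_le_pow_right (by positivity) (by omega)
    calc 2 * #Goodᶜ ≤ 2 * (D ^ (n - (k + 1)) * (4 ^ n * (N ^ n * N ^ n))) :=
          Nat.mul_le_mul_left _ b1
      _ = D ^ (n - (k + 1)) * (2 * (4 ^ n * (N ^ n * N ^ n))) := by ring
      _ ≤ _ := by rw [e1]; exact Nat.mul_le_mul_left _ e2
  have b3 : D ^ n ≤ 2 * #Good := by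
    have := card_add_card_compl Good
    simp only [Fintype.card_pi, Fintype.card_fin, prod_const, card_univ] at this
    omega
  have b4 : ∀ c ∈ Good, ∃ Q : Finset (Wt V n D (4 ^ n)), Clq G Q ∧ (∀ w ∈ Q, ∃ x, ψ c x = w) ∧
      (8 * r) ^ n < #Q := by
    intro c hc
    obtain ⟨Q, q1, q2, q3⟩ := good_clq hα (ψ c) (h2 c) (mem_filter.1 hc).2
    refine ⟨Q, q1, q2, ?_⟩
    by_contra hq
    push Not at hq
    have e1 : N ^ k ≤ u ^ n := (Nat.pow_le_pow_left hu k).trans (by
      rw [← pow_mul]; exact Nat.pow_le_pow_right u0 (by omega))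
    have e2 : N ^ n ≤ (s * (8 * r * (u * 2) * (8 * r))) ^ n := by
      refine q3.trans ?_
      rw [mul_pow, mul_pow, mul_pow (8 * r), mul_pow u]
      gcongr
    exact absurd e2 (not_le.2 (Nat.pow_lt_pow_left hN hn.ne'))
  choose! Q q1 q2 q3 using b4
  have disj : ∀ c ∈ Good, ∀ c' ∈ Good, c ≠ c' → ∀ w ∈ Q c, ∀ w' ∈ Q c', AT G w w' := by
    intro c hc c' hc' hcc w hw w' hw'
    obtain ⟨x, rfl⟩ := q2 c hc w hw
    obtain ⟨x', rfl⟩ := q2 c' hc' w' hw'
    exact h1 _ _ _ _ hcc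
  have b5 : #(Good.biUnion Q) ≤ r ^ n * (4 ^ n * D ^ n) := clq_le hω (by
    intro w hw w' hw' hne
    obtain ⟨c, hc, hw⟩ := mem_biUnion.1 hw
    obtain ⟨c', hc', hw'⟩ := mem_biUnion.1 hw'
    by_cases e : c = c'
    · subst e; exact q1 c hc w hw w' hw' hne
    · exact disj c hc c' hc' e w hw w' hw')
  rw [card_biUnion (fun c hc c' hc' e => disjoint_left.2 fun w hw hw' =>
    AT.irr _ (disj c hc c' hc' e w hw w hw'))] at b5
  have b6 : #Good * ((8 * r) ^ n + 1) ≤ ∑ c ∈ Good, #(Q c) :=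
    by simpa using card_nsmul_le_sum Good (fun c => #(Q c)) ((8 * r) ^ n + 1) fun c hc => q3 c hc
  have b7 : 2 * (r ^ n * 4 ^ n) ≤ (8 * r) ^ n := by
    calc 2 * (r ^ n * 4 ^ n) ≤ 2 ^ n * (r ^ n * 4 ^ n) :=
          Nat.mul_le_mul_right _ (Nat.le_self_pow hn.ne' 2)
      _ = _ := by rw [← mul_pow, ← mul_pow]; congr 1; ring
  have Dn : 0 < D ^ n := by positivity
  have b8 : D ^ n * ((8 * r) ^ n + 1) ≤ D ^ n * (8 * r) ^ n := by
    calc D ^ n * ((8 * r) ^ n + 1) ≤ 2 * #Good * ((8 * r) ^ n + 1) := Nat.mul_le_mul_right _ b3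
      _ = 2 * (#Good * ((8 * r) ^ n + 1)) := by ring
      _ ≤ 2 * (r ^ n * (4 ^ n * D ^ n)) := Nat.mul_le_mul_left _ (b6.trans b5)
      _ = D ^ n * (2 * (r ^ n * 4 ^ n)) := by ring
      _ ≤ _ := Nat.mul_le_mul_left _ b7
  have := Nat.le_of_mul_le_mul_left b8 Dn
  omega

end count

end Pool.Agent.H8.Stra
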