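import Pool.Agent.H8.Stra3

/-! The orthogonality graph over `ZMod 2` and the final result. -/

namespace Pool.Agent.H8.Stra

open Finset

abbrev VV (m : ℕ) := Fin m → ZMod 2

variable {m : ℕ}

def emb (v : VV m) : Fin (m + 1) → ZMod 2 := Fin.cons (1 + v ⬝ᵥ v) v

lemma emb_self (v : VV m) : emb v ⬝ᵥ emb v = 1 := by
  have : ∀ a : ZMod 2, (1 + a) * (1 + a) + a = 1 := by decide
  rw [dotProduct, Fin.sum_univ_succ]
  exact this _

lemma emb_inj : Function.Injective (emb (m := m)) := fun u v h => by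
  funext i; exact congrFun h i.succ

def OG (m : ℕ) : SimpleGraph (VV m) where
  Adj x y := emb x ⬝ᵥ emb y = 0
  symm := ⟨fun _ _ h => by rwa [dotProduct_comm]⟩
  loopless := ⟨fun x h => by rw [emb_self] at h; exact one_ne_zero h⟩

lemma OG_clique {n : ℕ} (Q : Finset (Fin n → VV m))
    (h : ∀ x ∈ Q, ∀ y ∈ Q, x ≠ y → ∃ i, (OG m).Adj (x i) (y i)) : #Q ≤ (m + 1) ^ n := by
  haveI : Fact (Nat.Prime 2) := ⟨Nat.prime_two⟩
  let T : Q → (Fin n → Fin (m + 1)) → ZMod 2 := fun x f => ∏ i, emb (x.1 i) (f i)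
  have hT : ∀ x y : Q, T x ⬝ᵥ T y = ∏ i, emb (x.1 i) ⬝ᵥ emb (y.1 i) := by
    intro x y
    simp only [T, dotProduct, prod_univ_sum, Fintype.piFinset_univ, prod_mul_distrib]
  have li : LinearIndependent (ZMod 2) T := by
    rw [Fintype.linearIndependent_iff]
    intro g hg y
    have := congrArg (· ⬝ᵥ T y) hg
    simp only [sum_dotProduct, smul_dotProduct, zero_dotProduct, hT] at this
    rw [sum_eq_single y] at this
    · simpa [emb_self] using this
    · intro x _ hxy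
      obtain ⟨i, hi⟩ := h x.1 x.2 y.1 y.2 fun e => hxy (Subtype.ext e)
      rw [prod_eq_zero (f := fun i => emb (x.1 i) ⬝ᵥ emb (y.1 i)) (mem_univ i) hi, smul_zero]
    · simp
  simpa using li.fintype_card_le_finrank

lemma z2 : ∀ a : ZMod 2, a ≠ 0 → a = 1 := by decide

lemma OG_indep (I : Finset (VV m)) (h : ∀ x ∈ I, ∀ y ∈ I, ¬ (OG m).Adj x y) : #I ≤ 2 ^ ((m + 1) / 2) := by
  classical
  haveI : Fact (Nat.Prime 2) := ⟨Nat.prime_two⟩
  rcases I.eq_empty_or_nonempty with rfl | ⟨x0, hx0⟩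
  · simp
  have one : ∀ x ∈ I, ∀ y ∈ I, emb x ⬝ᵥ emb y = 1 := fun x hx y hy => z2 _ (h x hx y hy)
  let B : LinearMap.BilinForm (ZMod 2) (Fin (m + 1) → ZMod 2) := dotProductBilin (ZMod 2) (ZMod 2)
  let W := Submodule.span (ZMod 2) ((fun x => emb x - emb x0) '' I)
  have h1 : W ≤ B.orthogonal W := by
    refine Submodule.span_le.2 ?_
    rintro _ ⟨x, hx, rfl⟩ w hw
    have : W ≤ LinearMap.ker (B.flip (emb x - emb x0)) := by
      refine Submodule.span_le.2 ?_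
      rintro _ ⟨y, hy, rfl⟩
      change (emb y - emb x0) ⬝ᵥ (emb x - emb x0) = 0
      rw [sub_dotProduct, dotProduct_sub, dotProduct_sub, one y hy x hx, one y hy x0 hx0,
        one x0 hx0 x hx, one x0 hx0 x0 hx0]
      simp
    exact this hw
  have h2 : LinearMap.ker B = ⊥ := by
    rw [eq_bot_iff]
    intro v hv
    exact dotProduct_eq_zero v fun w => LinearMap.congr_fun hv w
  have h3 := LinearMap.BilinForm.finrank_add_finrank_orthogonal' (B := B) W
  rw [h2, inf_bot_eq, finrank_bot] at h3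
  have h4 := Submodule.finrank_mono h1
  have h5 : Module.finrank (ZMod 2) W ≤ (m + 1) / 2 := by
    simp only [Module.finrank_fintype_fun_eq_card, Fintype.card_fin] at h3
    omega
  haveI : Fintype W := Fintype.ofFinite _
  have h6 : Fintype.card I ≤ Fintype.card W :=
    Fintype.card_le_of_injective (fun x => ⟨emb x - emb x0, Submodule.subset_span ⟨x, x.2, rfl⟩⟩)
      fun x y e => Subtype.ext (emb_inj (sub_left_injective (congrArg Subtype.val e)))
  rw [Module.card_eq_pow_finrank (K := ZMod 2) (V := W), ZMod.card, Fintype.card_coe] at h6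
  exact h6.trans (Nat.pow_le_pow_right two_pos h5)

lemma card_VV : Fintype.card (VV m) = 2 ^ m := by simp

theorem no_hom (hm : m = 87) (D : ℕ)
    (hD : D = (8 * (Fintype.card (VV m) * Fintype.card (VV m))) ^ 4) (n : ℕ)
    (hn : 0 < n) : ¬ (((FG.mk (VV m) (OG m)).disj (.K D)).pw n).Hom
      ((FG.K (4 ^ n)).disj (((FG.mk (VV m) (OG m)).lex (.K D)).pw n)) := by
  rintro ⟨φ⟩
  refine no_map (G := OG m) (r := m + 1) (s := 2 ^ ((m + 1) / 2)) (u := 2 ^ 22) hn OG_clique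
    OG_indep (by rw [card_VV, hm]; norm_num) (by rw [card_VV, hm]; norm_num) hD
    (fun c x => φ fun i => (x i, c i)) (fun c c' x x' h => ?_) fun c x x' ⟨i, h⟩ => ?_
  · obtain ⟨i, hi⟩ := Function.ne_iff.1 h
    exact φ.map_adj (show ∃ i, _ from ⟨i, Or.inr hi⟩)
  · exact φ.map_adj (show ∃ i, _ from ⟨i, Or.inl h⟩)

theorem main : ∃ η : FG → ℝ, (∀ G, 0 ≤ η G) ∧ η (.K 1) = 1 ∧ (∀ G H, G.Hom H → η G ≤ η H) ∧
    (∀ G H, η (G.join H) = η G + η H) ∧ (∀ G H, η (G.disj H) = η G * η H) ∧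
    ∃ (G : FG) (D : ℕ), η (G.lex (.K D)) < η G * η (.K D) := by
  obtain ⟨m, hm⟩ : ∃ m, m = 87 := ⟨_, rfl⟩
  obtain ⟨D, hD⟩ : ∃ D, D = (8 * (Fintype.card (VV m) * Fintype.card (VV m))) ^ 4 := ⟨_, rfl⟩
  have D0 : 0 < D := by
    have : 0 < Fintype.card (VV m) := Fintype.card_pos
    rw [hD]; positivity
  obtain ⟨η, h1, h2, h3, h4, h5, h6⟩ := sep_graph _ _ ⟨(0, ⟨0, D0⟩)⟩ (no_hom hm D hD)
  exact ⟨η, h1, h2, h3, h4, h5, _, D, by rwa [← h5]⟩

end Pool.Agent.H8.Stra
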