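import Pool.Agent.H8.Stra5

/-! Shift graph times a clique: a graph whose spectral values are not seen by finite subgraphs. -/

namespace Pool.Agent.H8.StraI

open Finset

lemma cover {X Ω : Type} [Fintype Ω] [Nonempty Ω] (mem : Ω → X → Prop) [∀ ω x, Decidable (mem ω x)]
    (T : ℕ) (h : ∀ x, Fintype.card Ω ≤ (T + 1) * #{ω | mem ω x}) (m : ℕ) :
    ∀ Y : Finset X, #Y * T ^ m < (T + 1) ^ m →
      ∃ F : Finset Ω, #F ≤ m ∧ ∀ x ∈ Y, ∃ ω ∈ F, mem ω x := by
  classical
  induction m with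
  | zero =>
    intro Y hY
    have : Y = ∅ := card_eq_zero.1 (by simpa using hY)
    exact ⟨∅, by simp, by simp [this]⟩
  | succ m ih =>
    intro Y hY
    have : ∃ ω, #Y ≤ (T + 1) * #{x ∈ Y | mem ω x} := by
      by_contra hn
      push Not at hn
      have h1 : ∑ ω : Ω, (T + 1) * #{x ∈ Y | mem ω x} < ∑ _ω : Ω, #Y :=
        sum_lt_sum_of_nonempty univ_nonempty fun ω _ => hn ω
      have h2 : ∑ ω : Ω, #{x ∈ Y | mem ω x} = ∑ x ∈ Y, #{ω | mem ω x} := by
        simp only [card_filter]; exact sum_comm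
      have h3 : ∑ _x ∈ Y, Fintype.card Ω ≤ ∑ x ∈ Y, (T + 1) * #{ω | mem ω x} :=
        sum_le_sum fun x _ => h x
      rw [← mul_sum, h2] at h1
      rw [← mul_sum] at h3
      simp only [sum_const, card_univ, smul_eq_mul] at h1 h3
      rw [mul_comm] at h3
      omega
    obtain ⟨ω, hω⟩ := this
    have e := card_filter_add_card_filter_not (s := Y) (fun x => mem ω x)
    obtain ⟨F, h1, h2⟩ := ih {x ∈ Y | ¬ mem ω x} (by
      have h3 : (T + 1) * #{x ∈ Y | ¬ mem ω x} ≤ T * #Y := by nlinarith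
      refine lt_of_mul_lt_mul_left (a := T + 1) ?_ (Nat.zero_le _)
      calc (T + 1) * (#{x ∈ Y | ¬ mem ω x} * T ^ m) = (T + 1) * #{x ∈ Y | ¬ mem ω x} * T ^ m := by
            ring
        _ ≤ T * #Y * T ^ m := Nat.mul_le_mul_right _ h3
        _ = #Y * T ^ (m + 1) := by ring
        _ < (T + 1) ^ (m + 1) := hY
        _ = _ := by ring)
    refine ⟨insert ω F, (card_insert_le _ _).trans (by omega), fun x hx => ?_⟩
    by_cases hm : mem ω x
    · exact ⟨ω, mem_insert_self _ _, hm⟩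
    · obtain ⟨ω', h3, h4⟩ := h2 x (mem_filter.2 ⟨hx, hm⟩)
      exact ⟨ω', mem_insert_of_mem h3, h4⟩

lemma two_mul_pow_le (T : ℕ) : 2 * T ^ (T + 1) ≤ (T + 1) ^ (T + 1) := by
  rcases Nat.eq_zero_or_pos T with rfl | h
  · simp
  have h1 : (1 : ℝ) + (T + 1 : ℕ) * (1 / T) ≤ (1 + 1 / T) ^ (T + 1) :=
    one_add_mul_le_pow (by have : (0 : ℝ) ≤ 1 / T := by positivity
                           linarith) _
  have T0 : (0 : ℝ) < T := by exact_mod_cast h
  have h2 : (2 : ℝ) ≤ 1 + (T + 1 : ℕ) * (1 / T) := by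
    push_cast
    rw [mul_one_div, ← sub_le_iff_le_add', le_div_iff₀ T0]
    linarith
  have h3 : (1 + 1 / (T : ℝ)) = (T + 1) / T := by field_simp
  rw [h3, div_pow] at h1
  have := (le_div_iff₀ (by positivity)).1 (h2.trans h1)
  exact_mod_cast this

def sh (x y : ℕ × ℕ) : Prop := x.1 < x.2 ∧ x.2 = y.1 ∧ y.1 < y.2

def GG (k : ℕ) : FG where
  V := (ℕ × ℕ) × Fin k
  G :=
    { Adj := fun x y => (sh x.1 y.1 ∨ sh y.1 x.1) ∧ x.2 ≠ y.2
      symm := ⟨fun _ _ h => ⟨h.1.symm, h.2.symm⟩⟩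
      loopless := ⟨fun _ h => h.2 rfl⟩ }
  col := ⟨Fin k, inferInstance, Prod.snd, fun _ _ h => h.2⟩

lemma shift_inf {C : Type} [Finite C] (c : ℕ × ℕ → C) : ∃ x y, sh x y ∧ c x = c y := by
  obtain ⟨i, j, hij, e⟩ := Finite.exists_ne_map_eq_of_infinite
    (fun j : ℕ => {t : C | ∃ l, j < l ∧ c (j, l) = t})
  wlog h : i < j generalizing i j
  · exact this j i hij.symm e.symm (by omega)
  have : c (i, j) ∈ {t : C | ∃ l, j < l ∧ c (j, l) = t} := by
    have e' : {t : C | ∃ l, i < l ∧ c (i, l) = t} = {t : C | ∃ l, j < l ∧ c (j, l) = t} := e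
    rw [← e']; exact ⟨j, h, rfl⟩
  obtain ⟨l, h1, h2⟩ := this
  exact ⟨(i, j), (j, l), ⟨h, rfl, h1⟩, h2.symm⟩

lemma GG_big (m n : ℕ) (hn : 0 < n) :
    ¬ ((GG (4 * m + 1)).pw n).Hom ((FG.K (4 ^ n)).disj ((FG.K m).pw n)) := by
  rintro ⟨φ⟩
  let c : ℕ × ℕ → (Fin n → Fin (4 * m + 1)) → Fin (4 ^ n) × (Fin n → Fin m) :=
    fun x u => φ fun i => (x, u i)
  obtain ⟨x, y, h1, h2⟩ := shift_inf c
  have inj : Function.Injective (c x) := by
    intro u u' e
    by_contra hne
    obtain ⟨i, hi⟩ := Function.ne_iff.1 hne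
    have : ((GG (4 * m + 1)).pw n).G.Adj (fun i => (x, u i)) (fun i => (y, u' i)) :=
      ⟨i, Or.inl h1, hi⟩
    exact (φ.map_adj this).ne (e.trans (congrFun h2 u'))
  have := Fintype.card_le_of_injective _ inj
  simp only [Fintype.card_pi, Fintype.card_fin, prod_const, card_univ, Fintype.card_prod,
    ← mul_pow] at this
  exact absurd this (not_le.2 (Nat.pow_lt_pow_left (by omega) hn.ne'))

lemma GG_small {η : FG → ℝ} (h : Spec η) {k : ℕ} (H : FG) (hH : Finite H.V)
    (hφ : H.Hom (GG k)) : η H ≤ 5 := by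
  classical
  obtain ⟨φ⟩ := hφ
  let a : H.V → ℕ := fun v => (φ v).1.1
  let b : H.V → ℕ := fun v => (φ v).1.2
  let T := ↥(Set.range a ∪ Set.range b)
  haveI : Finite T := ((Set.finite_range a).union (Set.finite_range b)).to_subtype
  haveI := Fintype.ofFinite T
  haveI := Fintype.ofFinite H.V
  let a' : H.V → T := fun v => ⟨a v, Or.inl ⟨v, rfl⟩⟩
  let b' : H.V → T := fun v => ⟨b v, Or.inr ⟨v, rfl⟩⟩
  let m1 : (T → Bool) → H.V → Prop := fun ω v => a v < b v → ω (a' v) = true ∧ ω (b' v) = false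
  have c1 : ∀ v, Fintype.card (T → Bool) ≤ 4 * #{ω | m1 ω v} := by
    intro v
    by_cases hv : a v < b v
    · have ne : a' v ≠ b' v := fun e => hv.ne (congrArg Subtype.val e)
      have := card_le_card_of_injOn (s := (univ : Finset (T → Bool)))
        (t := (univ : Finset (Bool × Bool)) ×ˢ ({ω | m1 ω v} : Finset _))
        (fun ω => ((ω (a' v), ω (b' v)), Function.update (Function.update ω (a' v) true) (b' v) false))
        (fun ω _ => by simp [m1, Function.update_of_ne ne]) (by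
          intro ω _ ω' _ e
          simp only [Prod.mk.injEq] at e
          funext t
          by_cases h1 : t = b' v
          · rw [h1]; exact e.1.2
          by_cases h2 : t = a' v
          · rw [h2]; exact e.1.1
          have := congrFun e.2 t
          simpa [Function.update_of_ne h1, Function.update_of_ne h2] using this)
      simpa using this
    · have : ({ω | m1 ω v} : Finset _) = univ := by ext; simp [m1, hv]
      rw [this, card_univ]; omega
  have ind : ∀ ω v v', m1 ω v → m1 ω v' → ¬ H.G.Adj v v' := by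
    intro ω v v' h1 h2 hadj
    rcases (φ.map_adj hadj).1 with ⟨s1, s2, s3⟩ | ⟨s1, s2, s3⟩
    · have e : b' v = a' v' := Subtype.ext s2
      have := (h1 s1).2
      rw [e, (h2 s3).1] at this
      exact absurd this (by simp)
    · have e : b' v' = a' v := Subtype.ext s2
      have := (h2 s1).2
      rw [e, (h1 s3).1] at this
      exact absurd this (by simp)
  set c := Fintype.card H.V with hc
  have key : ∀ n : ℕ, η H ^ n ≤ 4 ^ n * (c * n + 1) := by
    intro n
    obtain ⟨T', hT⟩ : ∃ T', 4 ^ n = T' + 1 := ⟨4 ^ n - 1, by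
      have : 0 < 4 ^ n := by positivity
      omega⟩
    obtain ⟨F, h1, h2⟩ := cover (X := Fin n → H.V) (Ω := Fin n → T → Bool)
      (fun ω x => ∀ t, m1 (ω t) (x t)) T' (fun x => by
        have e : ({ω | ∀ t, m1 (ω t) (x t)} : Finset (Fin n → T → Bool)) =
            Fintype.piFinset fun t => {ω | m1 ω (x t)} := by ext; simp
        rw [e, Fintype.card_piFinset, ← hT, Fintype.card_pi]
        refine (prod_le_prod' fun t _ => c1 (x t)).trans ?_
        rw [prod_mul_distrib]; simp) ((T' + 1) * (c * n + 1)) univ (by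
        rw [pow_mul, pow_mul]
        have e1 : #(univ : Finset (Fin n → H.V)) < 2 ^ (c * n + 1) := by
          simp only [card_univ, Fintype.card_pi, prod_const, Fintype.card_fin, ← hc]
          calc c ^ n ≤ (2 ^ c) ^ n := Nat.pow_le_pow_left Nat.lt_two_pow_self.le n
            _ < _ := by rw [← pow_mul]; exact Nat.pow_lt_pow_right (by omega) (by omega)
        rcases Nat.eq_zero_or_pos T' with e | e
        · simp [e]
        calc _ < 2 ^ (c * n + 1) * (T' ^ (T' + 1)) ^ (c * n + 1) :=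
              Nat.mul_lt_mul_of_pos_right e1 (by positivity)
          _ ≤ _ := by rw [← mul_pow]; exact Nat.pow_le_pow_left (two_mul_pow_le T') _)
    choose g hg hg' using fun x => h2 x (mem_univ x)
    have h3 := h.mono _ _ (hom_K (H.pw n) (C := F) (fun x => ⟨g x, hg x⟩) (by
      rintro x y ⟨i, hi⟩ e
      have e' : g x = g y := congrArg Subtype.val e
      exact ind (g x i) _ _ (hg' x i) (e' ▸ hg' y i) hi))
    rw [h.pw, h.K] at h3
    refine h3.trans ?_
    rw [← hT] at h1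
    simp only [Nat.card_eq_fintype_card, Fintype.card_coe]
    exact_mod_cast h1
  by_contra hn
  push Not at hn
  set m := 64 * (c + 1) with hm
  have k1 := key (2 * m)
  have k2 : (5 : ℝ) ^ (2 * m) ≤ η H ^ (2 * m) := pow_le_pow_left₀ (by norm_num) hn.le _
  have k3 : (1 : ℝ) + m * (1 / 4) ≤ (1 + 1 / 4) ^ m := one_add_mul_le_pow (by norm_num) _
  have k4 : ((1 : ℝ) + m * (1 / 4)) ^ 2 ≤ ((1 + 1 / 4) ^ m) ^ 2 :=
    pow_le_pow_left₀ (by positivity) k3 2
  have k5 : (5 : ℝ) ^ (2 * m) = 4 ^ (2 * m) * ((1 + 1 / 4) ^ m) ^ 2 := by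
    rw [← pow_mul, mul_comm m 2, ← mul_pow]; norm_num
  rw [k5] at k2
  have k6 := le_of_mul_le_mul_left (k2.trans k1) (by positivity)
  have k7 := k4.trans k6
  have c0 : (0 : ℝ) ≤ c := by positivity
  rw [hm] at k7
  push_cast at k7
  nlinarith

theorem main (ε : ℝ) : ∃ k, ∀ H : FG, Finite H.V → ∃ η, Spec η ∧ ε ≤ |η (GG k) - η H| := by
  obtain ⟨m, hm⟩ := exists_nat_gt (5 + 2 * |ε|)
  have m0 : 0 < m := by
    have : (0 : ℝ) < m := lt_of_le_of_lt (by positivity) hm
    exact_mod_cast this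
  obtain ⟨η, h1, h2⟩ := sep_graph (GG (4 * m + 1)) (.K m) ⟨(⟨0, m0⟩ : Fin m)⟩ (GG_big m)
  rw [h1.K] at h2
  refine ⟨4 * m + 1, fun H hH => ?_⟩
  have h3 : fin η (GG (4 * m + 1)) ≤ 5 := fin_le h1 fun H' h4 h5 => GG_small h1 H' h4 h5
  have h4 := fin_eq h1 hH
  have := le_abs_self ε
  by_cases h5 : ε ≤ η (GG (4 * m + 1)) - η H
  · exact ⟨η, h1, h5.trans (le_abs_self _)⟩
  · refine ⟨fin η, h1.fin, le_trans ?_ (neg_le_abs _)⟩
    rw [h4]; linarith

end Pool.Agent.H8.StraI
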