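import Mathlib

set_option autoImplicit false

namespace Pool.Agent.H8.Train

open Set

/-- an axis-parallel track with distinct lattice endpoints -/
structure Line (d : ℕ) where
  dep : Fin d → ℤ
  arr : Fin d → ℤ
  ne : dep ≠ arr
  par : ∃ a, ∀ i, i ≠ a → dep i = arr i

/-- a lattice point of Euclidean space -/
noncomputable def pt {d : ℕ} (p : Fin d → ℤ) : EuclideanSpace ℝ (Fin d) :=
  WithLp.toLp 2 fun i => (p i : ℝ)

def Line.track {d : ℕ} (L : Line d) : Set (EuclideanSpace ℝ (Fin d)) :=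
  segment ℝ (pt L.dep) (pt L.arr)

/-- distinct tracks share at most one point -/
def IsNetwork {d : ℕ} (N : Set (Line d)) : Prop :=
  ∀ L ∈ N, ∀ L' ∈ N, L ≠ L' → (L.track ∩ L'.track).Subsingleton

/-- the time interval in which the train of `L` with delay `t` occupies the point `c` -/
def busy {d : ℕ} (l : ℕ) (L : Line d) (t : ℝ) (c : EuclideanSpace ℝ (Fin d)) : Set ℝ :=
  Ioo (t + dist (pt L.dep) c) (t + dist (pt L.dep) c + l)

def IsSchedule {d : ℕ} (l : ℕ) (N : Set (Line d)) (t : Line d → ℝ) : Prop :=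
  (∀ L ∈ N, 0 ≤ t L) ∧ ∀ L ∈ N, ∀ L' ∈ N, L ≠ L' → ∀ c ∈ L.track ∩ L'.track,
    Disjoint (busy l L (t L) c) (busy l L' (t L') c)

end Pool.Agent.H8.Train
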