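import Pool.Agent.H8.TrainDefs

set_option autoImplicit false

namespace Pool.Agent.H8.Train

open Set

variable {d : ℕ}

noncomputable def ax (L : Line d) : Fin d := L.par.choose
noncomputable def lo (L : Line d) : ℤ := min (L.dep (ax L)) (L.arr (ax L))
noncomputable def hi (L : Line d) : ℤ := max (L.dep (ax L)) (L.arr (ax L))
noncomputable def sg (L : Line d) : Bool := decide (L.dep (ax L) < L.arr (ax L))
def sv (b : Bool) : ℤ := if b then 1 else -1

theorem ax_ne (L : Line d) : L.dep (ax L) ≠ L.arr (ax L) := fun h => L.ne (funext fun i => by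
  by_cases e : i = ax L
  · rw [e, h]
  · exact L.par.choose_spec i e)

theorem lo_lt (L : Line d) : lo L < hi L := by
  have := ax_ne L
  simp only [lo, hi]; omega

theorem mem_track (L : Line d) (c : EuclideanSpace ℝ (Fin d)) : c ∈ L.track ↔
    (∀ i, i ≠ ax L → c i = L.dep i) ∧ (lo L : ℝ) ≤ c (ax L) ∧ c (ax L) ≤ hi L := by
  have hp : ∀ i, i ≠ ax L → L.dep i = L.arr i := L.par.choose_spec
  have e : Icc (lo L : ℝ) (hi L) = segment ℝ (L.dep (ax L) : ℝ) (L.arr (ax L)) := by
    rw [segment_eq_uIcc]; simp [lo, hi, uIcc]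
  rw [← mem_Icc, e]
  constructor
  · rintro ⟨a, b, ha, hb, hab, rfl⟩
    refine ⟨fun i hi => ?_, a, b, ha, hb, hab, by simp [pt]⟩
    simp [pt, ← hp i hi, ← add_mul, hab]
  · rintro ⟨h, a, b, ha, hb, hab, h2⟩
    refine ⟨a, b, ha, hb, hab, ?_⟩
    ext i
    by_cases hi : i = ax L
    · rw [hi, ← h2]; simp [pt]
    · simp [pt, ← hp i hi, ← add_mul, hab, h i hi]

theorem dist_eq (L : Line d) {c : EuclideanSpace ℝ (Fin d)} (hc : c ∈ L.track) :
    dist (pt L.dep) c = sv (sg L) * (c (ax L) - L.dep (ax L)) := by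
  obtain ⟨h1, h2, h3⟩ := (mem_track L c).1 hc
  rw [EuclideanSpace.dist_eq, Finset.sum_eq_single (ax L) (fun i _ hi => by simp [pt, h1 i hi])
    (by simp), Real.sqrt_sq dist_nonneg, Real.dist_eq]
  by_cases h : L.dep (ax L) < L.arr (ax L)
  · rw [lo, min_eq_left h.le] at h2
    simp [pt, sv, sg, h, abs_of_nonpos (sub_nonpos.2 h2)]
  · rw [hi, max_eq_left (not_lt.1 h)] at h3
    simp [pt, sv, sg, h, abs_of_nonneg (sub_nonneg.2 h3)]

noncomputable def key (L : Line d) : Fin d × (Fin d → ℤ) := (ax L, Function.update L.dep (ax L) 0)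

theorem touch {N : Set (Line d)} (hN : IsNetwork N) {L L' : Line d} (h : L ∈ N) (h' : L' ∈ N)
    (hne : L ≠ L') (hk : key L = key L') : hi L ≤ lo L' ∨ hi L' ≤ lo L := by
  by_contra hh
  push Not at hh
  obtain ⟨k1, k2⟩ := Prod.mk.inj hk
  have a := lo_lt L
  have a' := lo_lt L'
  have m : ∀ x : ℤ, max (lo L) (lo L') ≤ x → x ≤ min (hi L) (hi L') →
      pt (Function.update L.dep (ax L) x) ∈ L.track ∩ L'.track := fun x h1 h2 => by
    refine ⟨(mem_track _ _).2 ⟨fun i hi => by simp [pt, hi], ?_⟩,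
      (mem_track _ _).2 ⟨fun i hi => ?_, ?_⟩⟩
    · simp [pt]; omega
    · have := congrFun k2 i
      rw [← k1] at hi this
      simpa [pt, hi] using this
    · rw [← k1]; simp [pt]; omega
  have := congrArg (· (ax L)) (hN L h L' h' hne (m _ le_rfl (by omega)) (m _ (by omega) le_rfl))
  have : max (lo L) (lo L') = min (hi L) (hi L') := by
    simp only [pt, Function.update_self] at this
    exact_mod_cast this
  omega

theorem count (A : Set ℤ) : ∃ n : ℤ → Bool, ∀ x, (x ∈ A → n (x + 1) = !n x) ∧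
    (x ∉ A → n (x + 1) = n x) := by
  classical
  let u : ℕ → Bool := fun k => Nat.rec false (fun k b => if (k : ℤ) ∈ A then !b else b) k
  let v : ℕ → Bool := fun k => Nat.rec false (fun k b => if -(k + 1 : ℤ) ∈ A then !b else b) k
  refine ⟨fun x => if 0 ≤ x then u x.toNat else v (-x).toNat, fun x => ?_⟩
  by_cases h : 0 ≤ x
  · obtain ⟨k, rfl⟩ := Int.eq_ofNat_of_zero_le h
    have e : ((k : ℤ) + 1).toNat = k + 1 := by omega
    simp only [h, show (0 : ℤ) ≤ k + 1 by omega, if_true, e, Int.toNat_natCast]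
    constructor <;> intro h <;> simp [u, h]
  · obtain ⟨k, rfl⟩ : ∃ k : ℕ, x = -(k + 1 : ℤ) := ⟨(-x - 1).toNat, by omega⟩
    have e : (-(-((k : ℤ) + 1))).toNat = k + 1 := by omega
    have e2 : (if 0 ≤ -((k : ℤ) + 1) + 1 then u (-((k : ℤ) + 1) + 1).toNat
        else v (-(-((k : ℤ) + 1) + 1)).toNat) = v k := by
      rcases k with _ | k
      · simp [u, v]
      · rw [if_neg (by omega)]; congr 1
    simp only [h, if_false, e, e2]
    constructor <;> intro h <;> simp only [v, h, if_true, if_false, Bool.not_not]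

theorem crt {ι : Type} [Fintype ι] (k : ℕ) : ∃ (m : ι → ℕ) (C : ℕ), (∀ i, k ≤ m i) ∧
    ∀ r : ι → ℤ, ∃ t : ℕ, t ≤ C ∧ ∀ i, (t : ℤ) ≡ r i [ZMOD m i] := by
  let m : ι → ℕ := fun i => Nat.nth Nat.Prime (k + Fintype.equivFin ι i)
  have hp : ∀ i, (m i).Prime := fun i => Nat.prime_nth_prime _
  refine ⟨m, ∏ i, m i, fun i => le_trans (by omega) (Nat.add_two_le_nth_prime _), fun r => ?_⟩
  have pp : Set.Pairwise (Finset.univ : Finset ι) (Function.onFun Nat.Coprime m) :=
    fun i _ j _ h => (Nat.coprime_primes (hp i) (hp j)).2 fun e => h ((Fintype.equivFin ι).injective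
      (Fin.ext (by have := Nat.nth_injective Nat.infinite_setOfPred_prime e; omega)))
  refine ⟨_, (Nat.chineseRemainderOfFinset_lt_prod (fun i => (r i % m i).toNat) m
    (fun i _ => (hp i).ne_zero) pp).le, fun i => ?_⟩
  have := Int.natCast_modEq_iff.2 ((Nat.chineseRemainderOfFinset (fun i => (r i % m i).toNat) m
    Finset.univ (fun i _ => (hp i).ne_zero) pp).2 i (Finset.mem_univ _))
  rw [Int.toNat_of_nonneg (Int.emod_nonneg _ (by exact_mod_cast (hp i).ne_zero))] at this
  exact this.trans (Int.mod_modEq _ _)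

theorem disj {l m : ℕ} (h : 2 * l ≤ m) {x y z : ℤ} (hx : x ≡ z [ZMOD m]) (hy : y ≡ z + l [ZMOD m]) :
    Disjoint (Ioo (x : ℝ) (x + l)) (Ioo (y : ℝ) (y + l)) := by
  rw [disjoint_left]
  rintro w ⟨a1, a2⟩ ⟨b1, b2⟩
  have c1 : x < y + l := by exact_mod_cast a1.trans b2
  have c2 : y < x + l := by exact_mod_cast b1.trans a2
  have := Int.le_of_dvd (by omega) (hy.trans (hx.add_right l).symm).dvd
  omega

theorem main (d l : ℕ) : ∃ C : ℝ, ∀ N : Set (Line d), IsNetwork N →
    ∃ t, IsSchedule l N t ∧ ∀ L ∈ N, t L ≤ C := by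
  classical
  obtain ⟨m, C, hm, h⟩ := crt (ι := ((Fin d × Bool) × (Fin d × Bool)) ⊕ Bool) (2 * l)
  refine ⟨C, fun N hN => ?_⟩
  choose n hn using fun k => count {x | ∃ L ∈ N, key L = k ∧ lo L = x}
  have hlo : ∀ L ∈ N, n (key L) (hi L) = !n (key L) (lo L) := by
    intro L hL
    have : ∀ x, lo L + 1 ≤ x → x ≤ hi L → n (key L) x = !n (key L) (lo L) := by
      intro x hx
      induction x, hx using Int.le_induction with
      | base => exact fun _ => (hn _ _).1 ⟨L, hL, rfl, rfl⟩
      | succ x hx ih =>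
        intro h2
        rw [(hn _ _).2, ih (by omega)]
        rintro ⟨L', a, b, c⟩
        have := touch hN a hL (by rintro rfl; omega) b
        have := lo_lt L'
        omega
    exact this _ (lo_lt L) le_rfl
  choose t ht1 ht2 using fun L : Line d => h fun i => sv (sg L) * L.dep (ax L) + i.elim
    (fun p => if p.1 = (ax L, sg L) then sv p.2.2 * L.dep p.2.1 else sv p.1.2 * L.dep p.1.1 + l)
    (fun b => if b = n (key L) (lo L) then l - sv (sg L) * lo L else -sv (sg L) * hi L)
  refine ⟨fun L => t L, ⟨fun _ _ => by positivity, ?_⟩, fun L _ => Nat.cast_le.2 (ht1 L)⟩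
  have hb : ∀ (L : Line d) c, c ∈ L.track → ∀ z : ℤ, c (ax L) = z → busy l L (t L) c =
      Ioo ((t L + sv (sg L) * (z - L.dep (ax L)) : ℤ) : ℝ)
        ((t L + sv (sg L) * (z - L.dep (ax L)) : ℤ) + l) := fun L c hc z hz => by
    simp [busy, dist_eq L hc, hz]
  have same : ∀ L ∈ N, ∀ L' ∈ N, key L = key L' → hi L ≤ lo L' → ∀ c ∈ L.track ∩ L'.track,
      Disjoint (busy l L (t L) c) (busy l L' (t L') c) := by
    rintro L hL L' _ hk hh c ⟨c1, c2⟩
    have k1 := (Prod.mk.inj hk).1
    have a := ((mem_track _ _).1 c1).2.2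
    have b := ((mem_track _ _).1 c2).2.1
    have hh' : (hi L : ℝ) ≤ lo L' := by exact_mod_cast hh
    rw [← k1] at b
    have e : hi L = lo L' := le_antisymm hh (by exact_mod_cast b.trans a)
    rw [hb L c c1 (hi L) (by linarith), hb L' c c2 (lo L') (by rw [← k1]; linarith)]
    have p := ht2 L (.inr (n (key L) (hi L)))
    have q := ht2 L' (.inr (n (key L) (hi L)))
    simp only [Sum.elim_inr] at p q
    rw [if_neg (by simp [hlo L hL])] at p
    rw [if_pos (by rw [e, hk])] at q
    refine disj (hm (.inr (n (key L) (hi L)))) (z := 0) ?_ ?_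
    · convert p.add_right (sv (sg L) * (hi L - L.dep (ax L))) using 1; ring
    · convert q.add_right (sv (sg L') * (lo L' - L'.dep (ax L'))) using 1; ring
  rintro L hL L' hL' hne c ⟨c1, c2⟩
  have a := ((mem_track _ _).1 c1).1
  have b := ((mem_track _ _).1 c2).1
  by_cases hax : ax L = ax L'
  · have hk : key L = key L' := by
      refine Prod.ext hax (funext fun i => ?_)
      by_cases hi : i = ax L
      · simp [key, hi, hax]
      · have := (a i hi).symm.trans (b i (hax ▸ hi))
        simp only [key, ← hax, Function.update_of_ne hi]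
        exact Int.cast_injective this
    rcases touch hN hL hL' hne hk with h | h
    · exact same L hL L' hL' hk h c ⟨c1, c2⟩
    · exact (same L' hL' L hL hk.symm h c ⟨c2, c1⟩).symm
  · rw [hb L c c1 _ (b _ hax), hb L' c c2 _ (a _ (Ne.symm hax))]
    have p := ht2 L (.inl ((ax L, sg L), (ax L', sg L')))
    have q := ht2 L' (.inl ((ax L, sg L), (ax L', sg L')))
    simp only [Sum.elim_inl, if_true] at p q
    rw [if_neg (by simp [hax])] at q
    refine disj (hm (.inl ((ax L, sg L), (ax L', sg L'))))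
      (z := sv (sg L') * L.dep (ax L') + sv (sg L) * L'.dep (ax L)) ?_ ?_
    · convert p.add_right (sv (sg L) * (L'.dep (ax L) - L.dep (ax L))) using 1; ring
    · convert q.add_right (sv (sg L') * (L.dep (ax L') - L'.dep (ax L'))) using 1; ring

end Pool.Agent.H8.Train
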