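import Mathlib

set_option autoImplicit false

namespace Pool.Agent.H8.Tri

def x0 : Fin 9 → Fin 3 → ℤ :=
  ![![0, 0, 0],
    ![1000000, 0, 0],
    ![600000, 860233, 0],
    ![-36943, -71075, 996787],
    ![907297, -137938, 934012],
    ![451061, 800864, 1036481],
    ![400000, -781088, 360420],
    ![1325898, 732778, 675890],
    ![-291620, 784639, 446429]]

def eu : Fin 21 → Fin 9 := ![0, 0, 0, 0, 0, 1, 1, 1, 1, 2, 2, 2, 3, 3, 3, 3, 4, 4, 4, 5, 5]

def ev : Fin 21 → Fin 9 := ![1, 2, 3, 6, 8, 2, 4, 6, 7, 5, 7, 8, 4, 5, 6, 8, 5, 6, 7, 7, 8]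

def ec : Fin 21 → Fin 5 := ![0, 1, 0, 2, 2, 2, 2, 1, 1, 1, 0, 0, 2, 0, 1, 1, 1, 0, 0, 2, 2]

def LL : Fin 5 → ℤ := ![1000000000000, 1100000000000, 900000000000, 0, 0]

def AA : Fin 9 → Fin 3 → Fin 21 → ℤ :=
  ![![![0, 0, 0, 0, 0, 0, 0, 0, 0, 0, 0, 0, 0, 0, 0, 0, 0, 0, 0, 0, 0],
      ![0, 0, 0, 0, 0, 0, 0, 0, 0, 0, 0, 0, 0, 0, 0, 0, 0, 0, 0, 0, 0],
      ![0, 0, 0, 0, 0, 0, 0, 0, 0, 0, 0, 0, 0, 0, 0, 0, 0, 0, 0, 0, 0]],
    ![![500000, 0, 0, 0, 0, 0, 0, 0, 0, 0, 0, 0, 0, 0, 0, 0, 0, 0, 0, 0, 0],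
      ![0, 0, 0, 0, 0, 0, 0, 0, 0, 0, 0, 0, 0, 0, 0, 0, 0, 0, 0, 0, 0],
      ![0, 0, 0, 0, 0, 0, 0, 0, 0, 0, 0, 0, 0, 0, 0, 0, 0, 0, 0, 0, 0]],
    ![![200000, 500000, 0, 0, 0, -500000, 0, 0, 0, 0, 0, 0, 0, 0, 0, 0, 0, 0, 0, 0, 0],
      ![-139497, 232495, 0, 0, 0, 348743, 0, 0, 0, 0, 0, 0, 0, 0, 0, 0, 0, 0, 0, 0, 0],
      ![0, 0, 0, 0, 0, 0, 0, 0, 0, 0, 0, 0, 0, 0, 0, 0, 0, 0, 0, 0, 0]],
    ![![281055, 201519, 311301, 365736, 126054, -209179, -283304, -366827, -150280, -41414, 136884, -111091, -288598, -225490, -366826, -123008, 213560, 406287, 136884, -123095, 126054],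
      ![41270, 186217, 115482, -114162, 353435, -106110, 147661, 114503, 249206, -276797, -226992, -311480, -69657, -156475, 114503, -344894, 106914, -126820, -226992, 204126, 353435],
      ![13359, 20747, 521383, 5415, 29873, -15319, 29, -5431, 12200, -21272, -11112, -26327, -15663, -19514, -5431, -29151, 15538, 6015, -11112, 9993, 29873]],
    ![![282793, 182489, 280558, 378419, 114151, -189426, -255059, -379547, -136089, -37503, 123958, -100600, 240146, -204197, -379547, -111392, 193393, 420376, 123958, -111471, 114151],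
      ![86586, -70302, 127068, 30533, 178054, 154670, 59480, -30624, 416062, -209059, -378975, -156918, -103450, 127290, -30624, -173751, -159238, 33918, -378975, 340798, 178054],
      ![-8771, 7730, 46612, 42068, 37625, 4041, 518794, -42194, 47938, -34597, -43665, -33159, 8557, -1468, -42194, -36716, -4322, 46733, -43665, 39266, 37625]],
    ![![241088, 436924, 306935, 230978, 289056, -451169, -241674, -231666, -309247, -73963, 281682, -254743, -13011, 62161, -231666, -282070, -49036, 256587, 281682, -253306, 289056],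
      ![63448, 56282, 139290, -39901, 260995, 29142, 125616, 40021, 339869, -280295, -309573, -230013, -223941, 254010, 40020, -254688, 254248, -44326, -309573, 278388, 260995],
      ![17529, -19157, 52084, 30905, 56486, -11290, -27532, -30997, -24970, 455718, 22745, -49781, -14697, 23482, -30997, -55121, 7517, 34332, 22745, -20453, 56486]],
    ![![300000, 0, 0, 500000, 0, 0, 0, -500000, 0, 0, 0, 0, 0, 0, 0, 0, 0, 0, 0, 0, 0],
      ![123476, 27460, 132957, -262614, 102854, 3021, 109447, -159623, 119843, -91891, -109160, -90645, 31916, -11963, -125352, -100369, -3597, -126245, -109161, 98164, 102854],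
      ![-65353, 59510, 288140, 263235, 222902, 6547, 237188, 208979, 259719, -199142, -236568, -196442, 69166, -25925, -271658, -217515, -7796, -273592, -236568, 212737, 222902]],
    ![![239575, 425757, 200406, 161524, 179123, -455038, -175212, -162006, -171484, -175128, 372828, -157860, 7644, 23872, -162006, -174795, -52484, 179434, 216296, 222567, 179123],
      ![111388, -189499, 93187, 75107, 83291, 262002, -81472, -75331, 501499, -81433, -407877, -73403, 3554, 11100, -75331, -81278, -24405, 83435, 100575, 103491, 83291],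
      ![4807, 159, -197662, -159312, -176670, -64646, 172813, 159787, 278741, 172730, 262438, 155698, -7539, -23545, 159787, 172400, 51765, -176976, -213333, -219518, -176670]],
    ![![211684, 469532, 141808, 102780, 100392, -455956, -105260, -103087, -129822, 113806, 118250, -443254, -11938, 34857, -103087, -133764, -15139, 114176, 118250, -106338, -134641],
      ![47393, 211182, -98909, -71688, 511216, -169575, 73417, 71902, 90549, -79378, -82478, -272075, 8327, -24312, 71902, 93298, 10559, -79636, -82478, 74169, 93910],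
      ![54981, -64460, 266474, 193137, 287071, 200, -197797, -193713, -243952, 213855, 222206, 188649, -22434, 65501, -193713, -251359, -28447, 214551, 222206, -199822, -253007]]]

def col : Fin 9 → Fin 9 → Fin 5 :=
  ![![4, 0, 1, 0, 3, 3, 2, 3, 2],
    ![0, 4, 2, 3, 2, 3, 1, 1, 3],
    ![1, 2, 4, 3, 3, 1, 3, 0, 0],
    ![0, 3, 3, 4, 2, 0, 1, 3, 1],
    ![3, 2, 3, 2, 4, 1, 0, 0, 3],
    ![3, 3, 1, 0, 1, 4, 3, 2, 2],
    ![2, 1, 3, 1, 0, 3, 4, 3, 3],
    ![3, 1, 0, 3, 0, 2, 3, 4, 3],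
    ![2, 3, 0, 1, 3, 2, 3, 3, 4]]

def tria : Fin 9 → Fin 9 → Fin 9 :=
  ![![0, 0, 0, 0, 3, 3, 0, 1, 0],
    ![0, 0, 0, 4, 0, 2, 0, 0, 0],
    ![0, 0, 0, 6, 1, 0, 0, 0, 0],
    ![0, 4, 6, 0, 0, 0, 0, 0, 0],
    ![3, 0, 1, 0, 0, 0, 0, 0, 1],
    ![3, 2, 0, 0, 0, 0, 2, 0, 0],
    ![0, 0, 0, 0, 0, 2, 0, 0, 0],
    ![1, 0, 0, 0, 0, 0, 0, 0, 0],
    ![0, 0, 0, 0, 1, 0, 0, 0, 0]]

def trib : Fin 9 → Fin 9 → Fin 9 :=
  ![![0, 0, 0, 0, 6, 7, 0, 2, 0],
    ![0, 0, 0, 8, 0, 6, 0, 0, 4],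
    ![0, 0, 0, 7, 7, 0, 1, 0, 0],
    ![0, 6, 8, 0, 0, 0, 0, 5, 0],
    ![7, 0, 8, 0, 0, 0, 0, 0, 3],
    ![8, 7, 0, 0, 0, 0, 4, 0, 0],
    ![0, 0, 3, 0, 0, 3, 0, 4, 3],
    ![3, 0, 0, 4, 0, 0, 1, 0, 5],
    ![0, 2, 0, 0, 5, 0, 1, 2, 0]]

def tric : Fin 9 → Fin 9 → Fin 9 :=
  ![![0, 0, 0, 0, 7, 8, 0, 3, 0],
    ![0, 0, 0, 6, 0, 7, 0, 0, 2],
    ![0, 0, 0, 8, 8, 0, 3, 0, 0],
    ![0, 8, 7, 0, 0, 0, 0, 4, 0],
    ![6, 0, 7, 0, 0, 0, 0, 0, 5],
    ![7, 6, 0, 0, 0, 0, 3, 0, 0],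
    ![0, 0, 1, 0, 0, 4, 0, 1, 1],
    ![2, 0, 0, 5, 0, 0, 4, 0, 2],
    ![0, 4, 0, 0, 3, 0, 3, 5, 0]]

def NN : Fin 9 → Fin 3 → ℤ :=
  ![![-3, -1, -6],
    ![5, -2, -6],
    ![1, 5, -6],
    ![-4, -2, 5],
    ![3, -3, 5],
    ![0, 2, 5],
    ![0, -6, 0],
    ![6, 3, 1],
    ![-5, 3, 0]]

/-- scale of the approximate inverse -/
def DD : ℤ := 1000000000000

def d0 (e : Fin 21) (k : Fin 3) : ℤ := x0 (eu e) k - x0 (ev e) k
def dA (e : Fin 21) (k : Fin 3) (f : Fin 21) : ℤ := AA (eu e) k f - AA (ev e) k f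

theorem res_bound : ∀ e : Fin 21, |∑ k : Fin 3, d0 e k ^ 2 - LL (ec e)| ≤ 1400000 := by
  decide +kernel

theorem AA_bound : ∀ (u : Fin 9) (k : Fin 3), ∑ f : Fin 21, |AA u k f| ≤ 5100000 := by
  decide +kernel

theorem dA_bound : ∀ (e : Fin 21) (k : Fin 3), ∑ f : Fin 21, |dA e k f| ≤ 10200000 := by
  decide +kernel

theorem E_bound : ∀ e : Fin 21, ∑ f : Fin 21,
    |(if e = f then DD else 0) - ∑ k : Fin 3, 2 * d0 e k * dA e k f| ≤ 18000000 := by
  decide +kernel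

theorem col_edge : ∀ i j : Fin 9, (col i j).val < 3 →
    ∃ e : Fin 21, ec e = col i j ∧ ((eu e = i ∧ ev e = j) ∨ (eu e = j ∧ ev e = i)) := by
  decide +kernel

/-- integer determinant -/
def idet (a b c : Fin 3 → ℤ) : ℤ :=
  a 0 * (b 1 * c 2 - b 2 * c 1) - a 1 * (b 0 * c 2 - b 2 * c 0) + a 2 * (b 0 * c 1 - b 1 * c 0)

def xd (i j : Fin 9) : Fin 3 → ℤ := fun k => x0 j k - x0 i k

theorem xd_bound : ∀ (i j : Fin 9) (k : Fin 3), |xd i j k| ≤ 1700000 := by decide +kernel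

theorem det_bound : ∀ i j : Fin 9, col i j = 3 →
    100000000000000000 ≤ idet (xd i (tria i j)) (xd i (trib i j)) (xd i (tric i j)) ∧
    100000000000000000 ≤ idet (xd i j) (xd i (trib i j)) (xd i (tric i j)) ∧
    100000000000000000 ≤ idet (xd i (tria i j)) (xd i j) (xd i (tric i j)) ∧
    100000000000000000 ≤ idet (xd i (tria i j)) (xd i (trib i j)) (xd i j) := by
  decide +kernel

theorem NN_bound : ∀ i j : Fin 9, i ≠ j →
    200000 ≤ ∑ k : Fin 3, NN i k * xd j i k := by decide +kernel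

theorem NN_abs : ∀ (i : Fin 9) (k : Fin 3), |NN i k| ≤ 6 := by decide +kernel

theorem nonedge_bound : ∀ i j : Fin 9, col i j = 3 →
    1700000000000 ≤ ∑ k : Fin 3, xd i j k ^ 2 := by decide +kernel

theorem col_eq_four : ∀ i j : Fin 9, col i j = 4 ↔ i = j := by decide +kernel

theorem col_symm : ∀ i j : Fin 9, col i j = col j i := by decide +kernel

/-- three pairwise adjacent vertices form a triangle with all three colours, with no fourth vertex -/
theorem clique3 : ∀ i j k : Fin 9, (col i j).val < 3 → (col i k).val < 3 → (col j k).val < 3 →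
    (col i j ≠ col i k ∧ col i j ≠ col j k ∧ col i k ≠ col j k) ∧
    ∀ l : Fin 9, col i l ≠ 3 → col j l ≠ 3 → col k l ≠ 3 → l = i ∨ l = j ∨ l = k := by
  decide +kernel

end Pool.Agent.H8.Tri
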