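import Pool.Agent.H8.TriData

set_option autoImplicit false

namespace Pool.Agent.H8.Tri

open Finset

theorem lin_bound (c : Fin 21 → ℤ) (B : ℤ) (hB : ∑ f, |c f| ≤ B) (y : Fin 21 → ℝ) :
    |∑ f, (c f : ℝ) * y f| ≤ B * ‖y‖ := by
  calc |∑ f, (c f : ℝ) * y f| ≤ ∑ f, |(c f : ℝ) * y f| := Finset.abs_sum_le_sum_abs _ _
    _ ≤ ∑ f, |(c f : ℝ)| * ‖y‖ := by
        refine Finset.sum_le_sum fun f _ => ?_
        rw [abs_mul]
        exact mul_le_mul_of_nonneg_left (by simpa using norm_le_pi_norm y f) (abs_nonneg _)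
    _ = ((∑ f, |c f| : ℤ) : ℝ) * ‖y‖ := by rw [← Finset.sum_mul]; push_cast; rfl
    _ ≤ B * ‖y‖ := mul_le_mul_of_nonneg_right (by exact_mod_cast hB) (norm_nonneg _)

noncomputable def hh (y : Fin 21 → ℝ) (e : Fin 21) (k : Fin 3) : ℝ :=
  (∑ f, (dA e k f : ℝ) * y f) / (DD : ℝ)

noncomputable def GG (y : Fin 21 → ℝ) : Fin 21 → ℝ := fun e =>
  y e - (∑ k : Fin 3, ((d0 e k : ℝ) + hh y e k) ^ 2 - (LL (ec e) : ℝ))

theorem DD_eq : (DD : ℝ) = 1000000000000 := by norm_num [DD]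

theorem hh_bound (y : Fin 21 → ℝ) (e : Fin 21) (k : Fin 3) :
    |hh y e k| ≤ 102 / 10000000 * ‖y‖ := by
  unfold hh
  have := lin_bound _ _ (dA_bound e k) y
  rw [DD_eq, abs_div, abs_of_pos (by norm_num : (0:ℝ) < 1000000000000), div_le_iff₀ (by norm_num)]
  push_cast at this
  linarith

theorem hh_sub (y y' : Fin 21 → ℝ) (e : Fin 21) (k : Fin 3) :
    hh (y - y') e k = hh y e k - hh y' e k := by
  unfold hh
  rw [← sub_div, ← Finset.sum_sub_distrib]
  congr 1
  refine Finset.sum_congr rfl fun f _ => ?_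
  simp [mul_sub]

theorem GG_sub (y y' : Fin 21 → ℝ) (e : Fin 21) :
    GG y e - GG y' e =
      (∑ f, (((if e = f then DD else 0) - ∑ k : Fin 3, 2 * d0 e k * dA e k f : ℤ) : ℝ)
        * (y - y') f) / (DD : ℝ)
      - ∑ k : Fin 3, hh (y - y') e k * (hh y e k + hh y' e k) := by
  have h1 : (∑ f, (((if e = f then DD else 0) - ∑ k : Fin 3, 2 * d0 e k * dA e k f : ℤ) : ℝ)
        * (y - y') f) / (DD : ℝ)
      = (y e - y' e) - ∑ k : Fin 3, 2 * (d0 e k : ℝ) * hh (y - y') e k := by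
    have hD : (DD : ℝ) ≠ 0 := by rw [DD_eq]; norm_num
    have h2 : ∑ k : Fin 3, 2 * (d0 e k : ℝ) * hh (y - y') e k
        = (∑ f, (∑ k : Fin 3, 2 * (d0 e k : ℝ) * (dA e k f : ℝ)) * (y - y') f) / (DD : ℝ) := by
      unfold hh
      simp only [Finset.sum_mul]
      rw [Finset.sum_comm, Finset.sum_div]
      refine Finset.sum_congr rfl fun k _ => ?_
      rw [← mul_div_assoc, Finset.mul_sum]
      congr 1
      refine Finset.sum_congr rfl fun f _ => ?_
      ring
    rw [h2]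
    push_cast
    simp only [sub_mul, Finset.sum_sub_distrib, sub_div]
    congr 1
    simp only [ite_mul, zero_mul, Finset.sum_ite_eq, Finset.mem_univ, if_true, Pi.sub_apply]
    field_simp
  rw [h1]
  unfold GG
  simp only [hh_sub, Fin.sum_univ_three]
  ring

theorem GG_lip (y y' : Fin 21 → ℝ) (hy : ‖y‖ ≤ 2000000) (hy' : ‖y'‖ ≤ 2000000) (e : Fin 21) :
    |GG y e - GG y' e| ≤ 1 / 100 * ‖y - y'‖ := by
  rw [GG_sub]
  have h1 := lin_bound _ _ (E_bound e) (y - y')
  have hn := norm_nonneg (y - y')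
  have h2 : ∀ k : Fin 3, |hh (y - y') e k * (hh y e k + hh y' e k)| ≤ 1 / 1000 * ‖y - y'‖ := by
    intro k
    rw [abs_mul]
    have a1 := hh_bound (y - y') e k
    have a2 := hh_bound y e k
    have a3 := hh_bound y' e k
    have a4 : |hh y e k + hh y' e k| ≤ 41 := by
      have := abs_add_le (hh y e k) (hh y' e k)
      linarith
    calc _ ≤ (102 / 10000000 * ‖y - y'‖) * 41 :=
          mul_le_mul a1 a4 (abs_nonneg _) (by positivity)
      _ ≤ _ := by linarith
  have h3 : |∑ k : Fin 3, hh (y - y') e k * (hh y e k + hh y' e k)| ≤ 3 / 1000 * ‖y - y'‖ := by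
    refine (Finset.abs_sum_le_sum_abs _ _).trans ?_
    rw [Fin.sum_univ_three]
    linarith [h2 0, h2 1, h2 2]
  refine (abs_sub _ _).trans ?_
  have h4 : |(∑ f, (((if e = f then DD else 0) - ∑ k : Fin 3, 2 * d0 e k * dA e k f : ℤ) : ℝ)
        * (y - y') f) / (DD : ℝ)| ≤ 1 / 1000 * ‖y - y'‖ := by
    rw [DD_eq, abs_div, abs_of_pos (by norm_num : (0:ℝ) < 1000000000000),
      div_le_iff₀ (by norm_num)]
    have : ((18000000 : ℤ) : ℝ) = 18000000 := by norm_num
    rw [this] at h1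
    linarith
  linarith

theorem GG_zero (e : Fin 21) : |GG 0 e| ≤ 1400000 := by
  have := res_bound e
  have h : GG 0 e = -((∑ k : Fin 3, d0 e k ^ 2 - LL (ec e) : ℤ) : ℝ) := by
    unfold GG hh
    push_cast
    simp
  rw [h, abs_neg]
  exact_mod_cast this

theorem exists_fixed : ∃ y : Fin 21 → ℝ, ‖y‖ ≤ 2000000 ∧ GG y = y := by
  let s : Set (Fin 21 → ℝ) := Metric.closedBall 0 2000000
  have hmem : ∀ y, y ∈ s ↔ ‖y‖ ≤ 2000000 := fun y => by simp [s]
  have hsc : IsComplete s := Metric.isClosed_closedBall.isComplete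
  have hsf : Set.MapsTo GG s s := by
    intro y hy
    rw [hmem] at hy ⊢
    rw [pi_norm_le_iff_of_nonneg (by norm_num)]
    intro e
    have h1 := GG_lip y 0 hy (by simp) e
    have h2 := GG_zero e
    rw [sub_zero] at h1
    have h3 := abs_add_le (GG y e - GG 0 e) (GG 0 e)
    rw [sub_add_cancel] at h3
    rw [Real.norm_eq_abs]
    linarith
  have hc : ContractingWith (1 / 100) (hsf.restrict GG s s) := by
    refine ⟨by norm_num, LipschitzWith.of_dist_le_mul fun a b => ?_⟩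
    have ha := (hmem _).1 a.2
    have hb := (hmem _).1 b.2
    rw [Subtype.dist_eq, Subtype.dist_eq, dist_eq_norm, dist_eq_norm]
    simp only [Set.MapsTo.val_restrict_apply]
    rw [pi_norm_le_iff_of_nonneg (by positivity)]
    intro e
    have := GG_lip a b ha hb e
    simpa using this
  obtain ⟨y, hy, hfix, -⟩ := hc.exists_fixedPoint' hsc hsf (x := 0) (by simp [s]) (edist_ne_top _ _)
  exact ⟨y, (hmem y).1 hy, hfix⟩

theorem exists_pts : ∃ p : Fin 9 → Fin 3 → ℝ, (∀ u k, |p u k - x0 u k| ≤ 11) ∧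
    ∀ e : Fin 21, ∑ k : Fin 3, (p (eu e) k - p (ev e) k) ^ 2 = (LL (ec e) : ℝ) := by
  obtain ⟨y, hy, hfix⟩ := exists_fixed
  refine ⟨fun u k => x0 u k + (∑ f, (AA u k f : ℝ) * y f) / (DD : ℝ), fun u k => ?_, fun e => ?_⟩
  · have := lin_bound _ _ (AA_bound u k) y
    rw [add_sub_cancel_left, DD_eq, abs_div, abs_of_pos (by norm_num : (0:ℝ) < 1000000000000),
      div_le_iff₀ (by norm_num)]
    push_cast at this
    linarith
  · have h := congrFun hfix e
    unfold GG at h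
    have h2 : ∑ k : Fin 3, ((d0 e k : ℝ) + hh y e k) ^ 2 = (LL (ec e) : ℝ) := by linarith
    rw [← h2]
    refine Finset.sum_congr rfl fun k _ => ?_
    congr 1
    unfold hh d0 dA
    push_cast
    simp only [sub_mul, Finset.sum_sub_distrib, sub_div]
    ring

end Pool.Agent.H8.Tri
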