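import Pool.Agent.H8.TriExist
import Pool.Agent.H8.Poly

set_option autoImplicit false

namespace Pool.Agent.H8.Tri

open Set

abbrev E3 := EuclideanSpace ℝ (Fin 3)

theorem tri3 : ∀ i j k : Fin 9, (col i j).val < 3 → (col i k).val < 3 → (col j k).val < 3 →
    ∃ a b c : Fin 9, col a b = 0 ∧ col a c = 1 ∧ col b c = 2 ∧ (a = i ∨ a = j ∨ a = k) ∧
      (b = i ∨ b = j ∨ b = k) ∧ (c = i ∨ c = j ∨ c = k) ∧
      ∀ l : Fin 9, col i l ≠ 3 → col j l ≠ 3 → col k l ≠ 3 → l = a ∨ l = b ∨ l = c := by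
  decide +kernel

set_option synthInstance.maxSize 100000 in
theorem rigid : ∀ a0 a1 : Fin 9, col a0 a1 = col 0 1 → ∀ a2 : Fin 9, col a0 a2 = col 0 2 →
    col a1 a2 = col 1 2 → ∀ a3 : Fin 9, col a0 a3 = col 0 3 → col a1 a3 = col 1 3 →
    col a2 a3 = col 2 3 → ∀ a4 : Fin 9, col a0 a4 = col 0 4 → col a1 a4 = col 1 4 →
    col a2 a4 = col 2 4 → col a3 a4 = col 3 4 →
    ∀ a5 : Fin 9, col a0 a5 = col 0 5 → col a1 a5 = col 1 5 →
    col a2 a5 = col 2 5 → col a3 a5 = col 3 5 → col a4 a5 = col 4 5 →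
    ∀ a6 : Fin 9, col a0 a6 = col 0 6 → col a1 a6 = col 1 6 →
    col a2 a6 = col 2 6 → col a3 a6 = col 3 6 → col a4 a6 = col 4 6 → col a5 a6 = col 5 6 →
    ∀ a7 : Fin 9, col a0 a7 = col 0 7 → col a1 a7 = col 1 7 →
    col a2 a7 = col 2 7 → col a3 a7 = col 3 7 → col a4 a7 = col 4 7 → col a5 a7 = col 5 7 →
    col a6 a7 = col 6 7 →
    ∀ a8 : Fin 9, col a0 a8 = col 0 8 → col a1 a8 = col 1 8 →
    col a2 a8 = col 2 8 → col a3 a8 = col 3 8 → col a4 a8 = col 4 8 → col a5 a8 = col 5 8 →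
    col a6 a8 = col 6 8 → col a7 a8 = col 7 8 →
    a0 = 0 ∧ a1 = 1 ∧ a2 = 2 ∧ a3 = 3 ∧ a4 = 4 ∧ a5 = 5 ∧ a6 = 6 ∧ a7 = 7 ∧ a8 = 8 := by
  decide +kernel

def rdet (a b c : E3) : ℝ :=
  a 0 * (b 1 * c 2 - b 2 * c 1) - a 1 * (b 0 * c 2 - b 2 * c 0) + a 2 * (b 0 * c 1 - b 1 * c 0)

theorem cramer (a b c w : E3) :
    rdet a b c • w = rdet w b c • a + rdet a w c • b + rdet a b w • c := by
  ext k
  fin_cases k <;> simp [rdet] <;> ring

theorem prod3 (x y z x0 y0 z0 : ℝ) (hx : |x - x0| ≤ 22) (hy : |y - y0| ≤ 22) (hz : |z - z0| ≤ 22)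
    (hx0 : |x0| ≤ 1700000) (hy0 : |y0| ≤ 1700000) (hz0 : |z0| ≤ 1700000) :
    |x * y * z - x0 * y0 * z0| ≤ 200000000000000 := by
  have e : x * y * z - x0 * y0 * z0 = (x - x0) * y * z + x0 * (y - y0) * z + x0 * y0 * (z - z0) := by
    ring
  have hy1 : |y| ≤ 1700022 := by
    have := abs_add_le (y - y0) y0
    rw [sub_add_cancel] at this; linarith
  have hz1 : |z| ≤ 1700022 := by
    have := abs_add_le (z - z0) z0
    rw [sub_add_cancel] at this; linarith
  have a1 : |(x - x0) * y * z| ≤ 22 * 1700022 * 1700022 := by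
    rw [abs_mul, abs_mul]; gcongr
  have a2 : |x0 * (y - y0) * z| ≤ 1700000 * 22 * 1700022 := by
    rw [abs_mul, abs_mul]; gcongr
  have a3 : |x0 * y0 * (z - z0)| ≤ 1700000 * 1700000 * 22 := by
    rw [abs_mul, abs_mul]; gcongr
  rw [e]
  have := abs_add_three ((x - x0) * y * z) (x0 * (y - y0) * z) (x0 * y0 * (z - z0))
  linarith

theorem det_pos (a b c : E3) (a0 b0 c0 : Fin 3 → ℤ) (ha : ∀ k, |a k - a0 k| ≤ 22)
    (hb : ∀ k, |b k - b0 k| ≤ 22) (hc : ∀ k, |c k - c0 k| ≤ 22)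
    (ha0 : ∀ k, |a0 k| ≤ 1700000) (hb0 : ∀ k, |b0 k| ≤ 1700000) (hc0 : ∀ k, |c0 k| ≤ 1700000)
    (h : 100000000000000000 ≤ idet a0 b0 c0) : 0 < rdet a b c := by
  have ha1 : ∀ k, |(a0 k : ℝ)| ≤ 1700000 := fun k => by exact_mod_cast ha0 k
  have hb1 : ∀ k, |(b0 k : ℝ)| ≤ 1700000 := fun k => by exact_mod_cast hb0 k
  have hc1 : ∀ k, |(c0 k : ℝ)| ≤ 1700000 := fun k => by exact_mod_cast hc0 k
  have h' : (100000000000000000 : ℝ) ≤ (idet a0 b0 c0 : ℝ) := by exact_mod_cast h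
  unfold idet at h'
  push_cast at h'
  have P := fun i j k => abs_le.1 (prod3 _ _ _ _ _ _ (ha i) (hb j) (hc k) (ha1 i) (hb1 j) (hc1 k))
  have p1 := P 0 1 2
  have p2 := P 0 2 1
  have p3 := P 1 0 2
  have p4 := P 1 2 0
  have p5 := P 2 0 1
  have p6 := P 2 1 0
  unfold rdet
  nlinarith [p1.1, p1.2, p2.1, p2.2, p3.1, p3.2, p4.1, p4.2, p5.1, p5.2, p6.1, p6.2]

structure Good (p : Fin 9 → E3) : Prop where
  near : ∀ u k, |p u k - x0 u k| ≤ 11
  len : ∀ e : Fin 21, ∑ k : Fin 3, (p (eu e) k - p (ev e) k) ^ 2 = (LL (ec e) : ℝ)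

theorem exists_good : ∃ p : Fin 9 → E3, Good p := by
  obtain ⟨p, h1, h2⟩ := exists_pts
  exact ⟨fun u => WithLp.toLp 2 (p u), ⟨h1, h2⟩⟩

variable {p : Fin 9 → E3}

theorem Good.diff (h : Good p) (i j : Fin 9) (k : Fin 3) : |(p j - p i) k - xd i j k| ≤ 22 := by
  have h1 := abs_le.1 (h.near i k)
  have h2 := abs_le.1 (h.near j k)
  simp only [PiLp.sub_apply, xd]
  push_cast
  rw [abs_le]
  constructor <;> linarith [h1.1, h1.2, h2.1, h2.2]

theorem dist_sq (x y : E3) : dist x y ^ 2 = ∑ k : Fin 3, (x k - y k) ^ 2 := by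
  rw [EuclideanSpace.dist_eq, Real.sq_sqrt (Finset.sum_nonneg fun _ _ => sq_nonneg _)]
  simp [Real.dist_eq]

theorem Good.edge (h : Good p) (i j : Fin 9) (hc : (col i j).val < 3) :
    dist (p i) (p j) ^ 2 = (LL (col i j) : ℝ) := by
  obtain ⟨e, he, h1 | h1⟩ := col_edge i j hc
  · rw [← he, ← h.len e, h1.1, h1.2, dist_sq]
  · rw [← he, ← h.len e, h1.1, h1.2, dist_comm, dist_sq]

theorem Good.nonedge (h : Good p) (i j : Fin 9) (hc : col i j = 3) :
    1600000000000 ≤ dist (p i) (p j) ^ 2 := by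
  have h1 : (1700000000000 : ℝ) ≤ ∑ k : Fin 3, (xd i j k : ℝ) ^ 2 := by
    exact_mod_cast nonedge_bound i j hc
  rw [dist_comm, dist_sq]
  have h2 : ∀ k : Fin 3, (xd i j k : ℝ) ^ 2 - 100000000 ≤ (p j k - p i k) ^ 2 := by
    intro k
    have a := abs_le.1 (h.diff i j k)
    have b : |(xd i j k : ℝ)| ≤ 1700000 := by exact_mod_cast xd_bound i j k
    have b := abs_le.1 b
    simp only [PiLp.sub_apply] at a
    set d := p j k - p i k - xd i j k with hd
    have : p j k - p i k = xd i j k + d := by rw [hd]; ring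
    rw [this]
    nlinarith [a.1, a.2, b.1, b.2, sq_nonneg d, mul_nonneg (sub_nonneg.2 a.1) (sub_nonneg.2 b.1),
      mul_nonneg (sub_nonneg.2 a.2) (sub_nonneg.2 b.2)]
  simp only [Fin.sum_univ_three] at h1 ⊢
  linarith [h2 0, h2 1, h2 2]

theorem Good.dets (h : Good p) (i j : Fin 9) (hc : col i j = 3) :
    0 < rdet (p (tria i j) - p i) (p (trib i j) - p i) (p (tric i j) - p i) ∧
    0 < rdet (p j - p i) (p (trib i j) - p i) (p (tric i j) - p i) ∧
    0 < rdet (p (tria i j) - p i) (p j - p i) (p (tric i j) - p i) ∧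
    0 < rdet (p (tria i j) - p i) (p (trib i j) - p i) (p j - p i) := by
  obtain ⟨h1, h2, h3, h4⟩ := det_bound i j hc
  exact ⟨det_pos _ _ _ _ _ _ (h.diff _ _) (h.diff _ _) (h.diff _ _) (xd_bound _ _) (xd_bound _ _)
      (xd_bound _ _) h1,
    det_pos _ _ _ _ _ _ (h.diff _ _) (h.diff _ _) (h.diff _ _) (xd_bound _ _) (xd_bound _ _)
      (xd_bound _ _) h2,
    det_pos _ _ _ _ _ _ (h.diff _ _) (h.diff _ _) (h.diff _ _) (xd_bound _ _) (xd_bound _ _)
      (xd_bound _ _) h3,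
    det_pos _ _ _ _ _ _ (h.diff _ _) (h.diff _ _) (h.diff _ _) (xd_bound _ _) (xd_bound _ _)
      (xd_bound _ _) h4⟩

theorem Good.zero_of_nonedge (h : Good p) (i j : Fin 9) (hc : col i j = 3) (l : E3 →L[ℝ] ℝ)
    (hi : ∀ t, l (p t) ≤ l (p i)) (hj : ∀ t, l (p t) ≤ l (p j)) : l = 0 := by
  obtain ⟨h1, h2, h3, h4⟩ := h.dets i j hc
  set a := p (tria i j) - p i
  set b := p (trib i j) - p i
  set c := p (tric i j) - p i
  have la : l a ≤ 0 := by simp only [a, map_sub]; linarith [hi (tria i j)]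
  have lb : l b ≤ 0 := by simp only [b, map_sub]; linarith [hi (trib i j)]
  have lc : l c ≤ 0 := by simp only [c, map_sub]; linarith [hi (tric i j)]
  have lz : l (p j - p i) = 0 := by simp only [map_sub]; linarith [hi j, hj i]
  have e := congrArg l (cramer a b c (p j - p i))
  simp only [map_add, map_smul, smul_eq_mul, lz, mul_zero] at e
  have g1 := mul_nonpos_of_nonneg_of_nonpos h2.le la
  have g2 := mul_nonpos_of_nonneg_of_nonpos h3.le lb
  have g3 := mul_nonpos_of_nonneg_of_nonpos h4.le lc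
  have za : l a = 0 := by
    have : rdet (p j - p i) b c * l a = 0 := by linarith
    exact (mul_eq_zero.1 this).resolve_left h2.ne'
  have zb : l b = 0 := by
    have : rdet a (p j - p i) c * l b = 0 := by linarith
    exact (mul_eq_zero.1 this).resolve_left h3.ne'
  have zc : l c = 0 := by
    have : rdet a b (p j - p i) * l c = 0 := by linarith
    exact (mul_eq_zero.1 this).resolve_left h4.ne'
  ext w
  have e2 := congrArg l (cramer a b c w)
  simp only [map_add, map_smul, smul_eq_mul, za, zb, zc, mul_zero, add_zero] at e2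
  simpa using (mul_eq_zero.1 e2).resolve_left h1.ne'

theorem Good.vspan (h : Good p) : vectorSpan ℝ (range p) = ⊤ := by
  obtain ⟨h1, -⟩ := h.dets 0 4 (by decide)
  rw [eq_top_iff]
  intro w _
  have hm : ∀ i j, p i - p j ∈ vectorSpan ℝ (range p) := fun i j =>
    vsub_mem_vectorSpan ℝ (mem_range_self i) (mem_range_self j)
  have e := cramer (p (tria 0 4) - p 0) (p (trib 0 4) - p 0) (p (tric 0 4) - p 0) w
  have : rdet (p (tria 0 4) - p 0) (p (trib 0 4) - p 0) (p (tric 0 4) - p 0) • w ∈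
      vectorSpan ℝ (range p) := by
    rw [e]
    exact Submodule.add_mem _ (Submodule.add_mem _ (Submodule.smul_mem _ _ (hm _ _))
      (Submodule.smul_mem _ _ (hm _ _))) (Submodule.smul_mem _ _ (hm _ _))
  exact (Submodule.smul_mem_iff _ h1.ne').1 this

theorem Good.aspan (h : Good p) : affineSpan ℝ (range p) = ⊤ :=
  (AffineSubspace.affineSpan_eq_top_iff_vectorSpan_eq_top_of_nonempty ℝ _ _
    (range_nonempty p)).2 h.vspan

theorem Good.facet (h : Good p) (F : Set E3) (l : E3 →L[ℝ] ℝ)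
    (hF : F = {x | x ∈ convexHull ℝ (range p) ∧ ∀ y ∈ convexHull ℝ (range p), l y ≤ l x})
    (hd : Module.finrank ℝ (vectorSpan ℝ F) = 2) :
    ∃ a b c : Fin 9, col a b = 0 ∧ col a c = 1 ∧ col b c = 2 ∧
      F = convexHull ℝ {p a, p b, p c} := by
  classical
  rw [Poly.face_eq] at hF
  have hl : l ≠ 0 := by
    rintro rfl
    have : {i | ∀ j, (0 : E3 →L[ℝ] ℝ) (p j) ≤ (0 : E3 →L[ℝ] ℝ) (p i)} = univ := by
      ext; simp
    rw [this, image_univ] at hF
    rw [hF, Poly.vectorSpan_convexHull, h.vspan] at hd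
    simp at hd
  let T : Finset (Fin 9) := Finset.univ.filter fun i => ∀ j, l (p j) ≤ l (p i)
  have hT : ∀ i, i ∈ T ↔ ∀ j, l (p j) ≤ l (p i) := fun i => by simp [T]
  have hTs : p '' {i | ∀ j, l (p j) ≤ l (p i)} = (T.image p : Set E3) := by
    ext x; simp [T]
  have hne : ∀ i ∈ T, ∀ j ∈ T, col i j ≠ 3 := fun i hi j hj hc =>
    hl (h.zero_of_nonedge i j hc l ((hT i).1 hi) ((hT j).1 hj))
  have hcard : 2 < T.card := by
    by_contra hlt
    push Not at hlt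
    obtain ⟨i0, hi0⟩ := Finite.exists_max (fun i => l (p i))
    have hpos : 0 < T.card := Finset.card_pos.2 ⟨i0, (hT i0).2 hi0⟩
    obtain ⟨n, hn⟩ : ∃ n, T.card = n + 1 := ⟨T.card - 1, by omega⟩
    have := finrank_vectorSpan_image_finset_le ℝ p T hn
    rw [hF, Poly.vectorSpan_convexHull, hTs] at hd
    omega
  obtain ⟨i, hi, j, hj, k, hk, hij, hik, hjk⟩ := Finset.two_lt_card.1 hcard
  have hlt : ∀ u ∈ T, ∀ v ∈ T, u ≠ v → (col u v).val < 3 := by
    intro u hu v hv huv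
    have h3 := hne u hu v hv
    have h4 : col u v ≠ 4 := fun h => huv ((col_eq_four u v).1 h)
    have : ∀ c : Fin 5, c ≠ 3 → c ≠ 4 → c.val < 3 := by decide
    exact this _ h3 h4
  obtain ⟨a, b, c, h0, h1, h2, ha, hb, hc, hall⟩ :=
    tri3 i j k (hlt i hi j hj hij) (hlt i hi k hk hik) (hlt j hj k hk hjk)
  refine ⟨a, b, c, h0, h1, h2, ?_⟩
  rw [hF]
  congr 1
  have haT : a ∈ T := by rcases ha with rfl | rfl | rfl <;> assumption
  have hbT : b ∈ T := by rcases hb with rfl | rfl | rfl <;> assumption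
  have hcT : c ∈ T := by rcases hc with rfl | rfl | rfl <;> assumption
  ext x
  constructor
  · rintro ⟨t, ht, rfl⟩
    have htT := (hT t).2 ht
    rcases hall t (hne i hi t htT) (hne j hj t htT) (hne k hk t htT) with rfl | rfl | rfl <;> simp
  · rintro (rfl | rfl | rfl)
    · exact ⟨a, (hT a).1 haT, rfl⟩
    · exact ⟨b, (hT b).1 hbT, rfl⟩
    · exact ⟨c, (hT c).1 hcT, rfl⟩

theorem Good.dist_eq (h : Good p) {i j i' j' : Fin 9} (h1 : (col i j).val < 3)
    (h2 : col i j = col i' j') : dist (p i) (p j) = dist (p i') (p j') := by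
  have e1 := h.edge i j h1
  have e2 := h.edge i' j' (h2 ▸ h1)
  rw [← h2, ← e1] at e2
  exact ((sq_eq_sq₀ dist_nonneg dist_nonneg).1 e2).symm

theorem Good.extreme (h : Good p) (i : Fin 9) :
    p i ∈ (convexHull ℝ (range p)).extremePoints ℝ := by
  let n : E3 := WithLp.toLp 2 fun k => (NN i k : ℝ)
  refine Poly.mem_extremePoints_of_exposed p i (innerSL ℝ n) fun j hj => ?_
  have h1 : (200000 : ℝ) ≤ ∑ k : Fin 3, (NN i k : ℝ) * (xd j i k : ℝ) := by
    exact_mod_cast NN_bound i j (Ne.symm hj)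
  have h2 : ∀ k : Fin 3, (NN i k : ℝ) * (xd j i k : ℝ) - 132 ≤ (NN i k : ℝ) * (p i k - p j k) := by
    intro k
    have a := h.diff j i k
    have b : |(NN i k : ℝ)| ≤ 6 := by exact_mod_cast NN_abs i k
    have c : |(NN i k : ℝ) * ((p i - p j) k - xd j i k)| ≤ 6 * 22 := by
      rw [abs_mul]; gcongr
    have c := (abs_le.1 c).1
    simp only [PiLp.sub_apply] at c
    linarith
  rw [← sub_pos, ← map_sub]
  simp only [innerSL_apply_apply, PiLp.inner_apply, n, Fin.sum_univ_three, PiLp.sub_apply,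
    RCLike.inner_apply, conj_trivial] at h1 ⊢
  linarith [h2 0, h2 1, h2 2]

theorem Good.cls (h : Good p) (i j : Fin 9) :
    (col i j = 0 ∧ dist (p i) (p j) ^ 2 = 1000000000000) ∨
    (col i j = 1 ∧ dist (p i) (p j) ^ 2 = 1100000000000) ∨
    (col i j = 2 ∧ dist (p i) (p j) ^ 2 = 900000000000) ∨
    (col i j = 3 ∧ 1600000000000 ≤ dist (p i) (p j) ^ 2) ∨
    (col i j = 4 ∧ dist (p i) (p j) ^ 2 = 0) := by
  have : ∀ c : Fin 5, c = 0 ∨ c = 1 ∨ c = 2 ∨ c = 3 ∨ c = 4 := by decide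
  rcases this (col i j) with hc | hc | hc | hc | hc
  · have := h.edge i j (by rw [hc]; decide)
    rw [hc] at this
    exact Or.inl ⟨hc, by simpa [LL] using this⟩
  · have := h.edge i j (by rw [hc]; decide)
    rw [hc] at this
    exact Or.inr (Or.inl ⟨hc, by simpa [LL] using this⟩)
  · have := h.edge i j (by rw [hc]; decide)
    rw [hc] at this
    exact Or.inr (Or.inr (Or.inl ⟨hc, by simpa [LL] using this⟩))
  · exact Or.inr (Or.inr (Or.inr (Or.inl ⟨hc, h.nonedge i j hc⟩)))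
  · refine Or.inr (Or.inr (Or.inr (Or.inr ⟨hc, ?_⟩)))
    rw [(col_eq_four i j).1 hc]; simp

theorem Good.col_eq (h : Good p) {i j i' j' : Fin 9}
    (hd : dist (p i) (p j) = dist (p i') (p j')) : col i j = col i' j' := by
  have h1 := h.cls i j
  have h2 := h.cls i' j'
  rw [← hd] at h2
  rcases h1 with h1 | h1 | h1 | h1 | h1 <;> rcases h2 with h2 | h2 | h2 | h2 | h2 <;>
    first
    | exact h1.1.trans h2.1.symm
    | (exfalso; linarith [h1.2, h2.2])

theorem Good.asym (h : Good p) (φ : E3 ≃ᵢ E3)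
    (hφ : φ '' convexHull ℝ (range p) = convexHull ℝ (range p)) : φ = IsometryEquiv.refl E3 := by
  let ψ : E3 →ᵃ[ℝ] E3 := φ.toRealAffineIsometryEquiv.toAffineEquiv.toAffineMap
  have hψ : ∀ x, ψ x = φ x := fun x => rfl
  have hψ' : ψ '' convexHull ℝ (range p) = convexHull ℝ (range p) := hφ
  choose τ hτ using fun i => Poly.exists_preimage_gen p ψ hψ' i (h.extreme i)
  have hc : ∀ i j, col (τ i) (τ j) = col i j := by
    intro i j
    apply h.col_eq
    rw [← hτ i, ← hτ j, hψ, hψ, φ.dist_eq]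
  have hr := rigid (τ 0) (τ 1) (hc _ _) (τ 2) (hc _ _) (hc _ _) (τ 3) (hc _ _) (hc _ _) (hc _ _)
    (τ 4) (hc _ _) (hc _ _) (hc _ _) (hc _ _) (τ 5) (hc _ _) (hc _ _) (hc _ _) (hc _ _) (hc _ _)
    (τ 6) (hc _ _) (hc _ _) (hc _ _) (hc _ _) (hc _ _) (hc _ _)
    (τ 7) (hc _ _) (hc _ _) (hc _ _) (hc _ _) (hc _ _) (hc _ _) (hc _ _)
    (τ 8) (hc _ _) (hc _ _) (hc _ _) (hc _ _) (hc _ _) (hc _ _) (hc _ _) (hc _ _)
  have hid : ∀ i, τ i = i := by
    intro i
    obtain ⟨h0, h1, h2, h3, h4, h5, h6, h7, h8⟩ := hr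
    fin_cases i <;> assumption
  have : ψ = AffineMap.id ℝ E3 := by
    apply AffineMap.ext_on h.aspan
    rintro _ ⟨i, rfl⟩
    have := hτ i
    rw [hid i] at this
    simpa using this
  ext1 x
  rw [← hψ, this]
  rfl

theorem Good.congr (h : Good p) (F G : Set E3) (l l' : E3 →L[ℝ] ℝ)
    (hF : F = {x | x ∈ convexHull ℝ (range p) ∧ ∀ y ∈ convexHull ℝ (range p), l y ≤ l x})
    (hd : Module.finrank ℝ (vectorSpan ℝ F) = 2)
    (hG : G = {x | x ∈ convexHull ℝ (range p) ∧ ∀ y ∈ convexHull ℝ (range p), l' y ≤ l' x})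
    (hd' : Module.finrank ℝ (vectorSpan ℝ G) = 2) : ∃ φ : E3 ≃ᵢ E3, φ '' F = G := by
  obtain ⟨a, b, c, h0, h1, h2, rfl⟩ := h.facet F l hF hd
  obtain ⟨a', b', c', h0', h1', h2', rfl⟩ := h.facet G l' hG hd'
  obtain ⟨φ, ha, hb, hc⟩ := Poly.exists_congr3 (p a) (p b) (p c) (p a') (p b') (p c')
    (h.dist_eq (by rw [h0]; decide) (by rw [h0, h0']))
    (h.dist_eq (by rw [h1]; decide) (by rw [h1, h1']))
    (h.dist_eq (by rw [h2]; decide) (by rw [h2, h2']))
  refine ⟨φ.toIsometryEquiv, ?_⟩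
  have := AffineMap.image_convexHull φ.toAffineEquiv.toAffineMap {p a, p b, p c}
  simp only [image_insert_eq, image_singleton] at this
  rw [← ha, ← hb, ← hc]
  exact this

end Pool.Agent.H8.Tri
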