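import Mathlib

/-! Polytopes in 3-space invariant under the full tetrahedral group. -/

namespace Pool.Agent.H8.Tsym
open Set Matrix

abbrev V := Fin 3 → ℝ

/-- The face of `P` on which the linear functional `u` is maximal. -/
def face (P : Set V) (u : V) : Set V := {x ∈ P | ∀ y ∈ P, u ⬝ᵥ y ≤ u ⬝ᵥ x}

/-- The facets (two-dimensional faces) of `P`. -/
def facets (P : Set V) : Set (Set V) :=
  {F | (∃ u, F = face P u) ∧ Module.finrank ℝ (vectorSpan ℝ F) = 2}

def g {R : Type} [Neg R] (k : Fin 3) (x : Fin 3 → R) : Fin 3 → R :=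
  ![![x 1, x 0, x 2], ![x 0, x 2, x 1], ![-x 0, -x 1, x 2]] k

def c (d : Fin 3 → ℤ) : V := fun i => d i

lemma gg (k : Fin 3) (x : V) : g k (g k x) = x := by
  fin_cases k <;> ext i <;> fin_cases i <;> simp [g]
lemma glin (k : Fin 3) (a b : ℝ) (x y : V) : g k (a • x + b • y) = a • g k x + b • g k y := by
  fin_cases k <;> ext i <;> fin_cases i <;> simp [g] <;> ring
lemma gsm (k : Fin 3) (a : ℝ) (x : V) : g k (a • x) = a • g k x := by
  simpa using glin k a 0 x x
lemma gdot (k : Fin 3) (u x : V) : u ⬝ᵥ g k x = g k u ⬝ᵥ x := by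
  fin_cases k <;> simp [g, dotProduct, Fin.sum_univ_three] <;> ring
lemma gc (k : Fin 3) (d : Fin 3 → ℤ) : c (g k d) = g k (c d) := by
  fin_cases k <;> ext i <;> fin_cases i <;> simp [g, c]

def orb {R : Type} [Neg R] (x : Fin 3 → R) : Fin 12 → Fin 3 → R :=
  ![![x 0, x 1, x 2], ![-x 0, -x 1, x 2], ![-x 0, x 1, -x 2], ![x 0, -x 1, -x 2],
    ![x 1, x 2, x 0], ![-x 1, -x 2, x 0], ![-x 1, x 2, -x 0], ![x 1, -x 2, -x 0],
    ![x 2, x 0, x 1], ![-x 2, -x 0, x 1], ![-x 2, x 0, -x 1], ![x 2, -x 0, -x 1]]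

lemma orb_mem {R : Type} [Neg R] {S : Set (Fin 3 → R)} (h : ∀ k, ∀ x ∈ S, g k x ∈ S)
    {x : Fin 3 → R} (hx : x ∈ S) (i : Fin 12) : orb x i ∈ S := by
  have a : ∀ x ∈ S, ![x 1, x 2, x 0] ∈ S := fun x hx => h 1 _ (h 0 _ hx)
  have b : ∀ x ∈ S, ![-x 0, -x 1, x 2] ∈ S := h 2
  have d : ∀ x ∈ S, ![-x 0, x 1, -x 2] ∈ S := fun x hx => h 1 _ (h 2 _ (h 1 _ hx))
  have e : ∀ x ∈ S, ![x 0, -x 1, -x 2] ∈ S := fun x hx => h 0 _ (d _ (h 0 _ hx))
  have x0 : ![x 0, x 1, x 2] ∈ S := a _ (a _ (a _ hx))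
  have x1 := a _ hx
  have x2 := a _ x1
  fin_cases i
  exacts [x0, b _ hx, d _ hx, e _ hx, x1, b _ x1, d _ x1, e _ x1, x2, b _ x2, d _ x2, e _ x2]

lemma chamber {Pr : V → Prop} (h : ∀ k x, Pr x → Pr (g k x))
    (h0 : ∀ x : V, |x 2| ≤ x 1 → x 1 ≤ x 0 → Pr x) (x : V) : Pr x := by
  have h1 : ∀ x : V, |x 2| ≤ |x 1| → |x 1| ≤ |x 0| → Pr x := fun x a b => by
    have k : ∀ i, Pr (orb x i) → Pr x := fun i hi => by
      by_contra hx
      exact orb_mem (S := {x | ¬ Pr x}) (fun k y hy hp => hy (gg k y ▸ h k _ hp)) hx i hi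
    rcases abs_cases (x 0) with p | p <;> rcases abs_cases (x 1) with q | q <;>
      rw [p.1, q.1] at b <;> rw [q.1] at a
    exacts [h0 x a b, k 3 (h0 _ (by simpa [orb] using a) (by simpa [orb] using b)),
      k 2 (h0 _ (by simpa [orb] using a) (by simpa [orb] using b)),
      k 1 (h0 _ (by simpa [orb] using a) (by simpa [orb] using b))]
  have k : ∀ k x, Pr (g k x) → Pr x := fun k x hx => gg k x ▸ h k _ hx
  have h2 : ∀ x : V, |x 2| ≤ |x 1| → |x 2| ≤ |x 0| → Pr x := fun x a b => by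
    rcases le_total |x 1| |x 0| with d | d
    exacts [h1 x a d, k 0 _ (h1 _ b d)]
  rcases le_total |x 2| |x 1| with a | a <;> rcases le_total |x 2| |x 0| with b | b
  · exact h2 x a b
  · exact k 0 _ (k 1 _ (h2 _ b (b.trans a)))
  · exact k 1 _ (h2 _ a (a.trans b))
  · rcases le_total |x 1| |x 0| with d | d
    exacts [k 1 _ (h2 _ a d), k 0 _ (k 1 _ (h2 _ b d))]

def D : Finset (Fin 3 → ℤ) := {![1, 0, 0], ![-1, 0, 0], ![0, 1, 0], ![0, -1, 0], ![0, 0, 1],
  ![0, 0, -1], ![1, 1, 1], ![1, -1, -1], ![-1, 1, -1], ![-1, -1, 1], ![-1, -1, -1], ![-1, 1, 1],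
  ![1, -1, 1], ![1, 1, -1]}

def Ax (x : V) : Prop := ∃ d ∈ D, ∃ m : ℝ, 0 ≤ m ∧ x = m • c d

lemma Ax.g {x : V} (h : Ax x) (k : Fin 3) : Ax (g k x) := by
  obtain ⟨d, hd, m, hm, rfl⟩ := h
  exact ⟨_, (by decide +kernel : ∀ k, ∀ d ∈ D, Tsym.g k d ∈ D) k d hd, m, hm, by rw [gsm, gc]⟩

lemma low {F : Set V} {w : V} (h : ∀ x ∈ F, ∀ y ∈ F, ∃ t : ℝ, x - y = t • w) :
    Module.finrank ℝ (vectorSpan ℝ F) ≠ 2 := by
  have : vectorSpan ℝ F ≤ Submodule.span ℝ {w} := by
    rw [vectorSpan_def, Submodule.span_le]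
    rintro _ ⟨x, hx, y, hy, rfl⟩
    obtain ⟨t, ht⟩ := h x hx y hy
    exact Submodule.mem_span_singleton.2 ⟨t, ht.symm⟩
  have := (Submodule.finrank_mono this).trans (finrank_span_le_card ({w} : Set V))
  simp at this
  omega

lemma face_smul (P : Set V) (u : V) {m : ℝ} (h : 0 < m) : face P (m • u) = face P u := by
  simp [face, h]

section
variable {P : Set V} (hP : ∀ k, ∀ x ∈ P, g k x ∈ P) (hc : Convex ℝ P)
include hP

lemma ext_g (k : Fin 3) (x : V) (hx : x ∈ P.extremePoints ℝ) : g k x ∈ P.extremePoints ℝ := by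
  refine ⟨hP k x hx.1, fun y hy z hz ⟨a, b, ha, hb, hab, h⟩ => ?_⟩
  rw [← hx.2 (hP k y hy) (hP k z hz) ⟨a, b, ha, hb, hab, by rw [← glin, h, gg]⟩, gg]

include hc in
lemma ray {d : Fin 3 → ℤ} {m n : ℝ} (hm : 0 ≤ m) (h : m < n) (hd : d ∈ D)
    (h1 : m • c d ∈ P.extremePoints ℝ) (h2 : n • c d ∈ P) : False := by
  obtain ⟨i, j, k, e⟩ : ∃ i j k, orb d i + orb d j + orb d k = -d ∨ orb d i = -d ∧ i = j ∧ j = k :=
    (by decide +kernel : ∀ d ∈ D, ∃ i j k,
      orb d i + orb d j + orb d k = -d ∨ orb d i = -d ∧ i = j ∧ j = k) d hd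
  have o : ∀ i, n • c (orb d i) ∈ P := fun i =>
    orb_mem (S := {d | n • c d ∈ P}) (fun k x hx => by
      have := hP k _ hx; rwa [gsm, ← gc] at this) h2 i
  have n0 : 0 < n := hm.trans_lt h
  obtain ⟨s, s0, hs⟩ : ∃ s : ℝ, 0 < s ∧ (-s) • c d ∈ P := by
    rcases e with e | ⟨e, -⟩
    · refine ⟨n / 3, by positivity, ?_⟩
      convert hc (o i) (hc (o j) (o k) (a := 1 / 2) (b := 1 / 2) (by norm_num) (by norm_num)
        (by norm_num)) (a := 1 / 3) (b := 2 / 3) (by norm_num) (by norm_num) (by norm_num) using 1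
      ext l
      have : (orb d i l + orb d j l + orb d k l : ℝ) = -d l := by exact_mod_cast congrFun e l
      simp only [c, Pi.smul_apply, Pi.add_apply, smul_eq_mul]
      linear_combination (-n / 3) * this
    · refine ⟨n, n0, ?_⟩
      convert o i using 1
      ext l; simp [e, c]
  have := h1.2 h2 hs ⟨(m + s) / (n + s), (n - m) / (n + s), by positivity,
    div_pos (by linarith) (by positivity), by field_simp; ring, by
      rw [smul_smul, smul_smul, ← add_smul]; congr 1; field_simp; ring⟩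
  obtain ⟨l, hl⟩ := (by decide +kernel : ∀ d ∈ D, ∃ l, d l ≠ 0) d hd
  have := congrFun this l
  simp [c, hl] at this
  linarith

include hc in
lemma off (h : (P.extremePoints ℝ).ncard = 12) :
    ∃ x ∈ P.extremePoints ℝ, |x 2| ≤ x 1 ∧ x 1 ≤ x 0 ∧ ¬ Ax x := by
  classical
  by_contra! H
  have A : ∀ x, x ∈ P.extremePoints ℝ → Ax x := chamber
    (fun k x hx h => (hx (gg k x ▸ ext_g hP k _ h)).g k) fun x a b hx => H x hx a b
  have fin := Set.finite_of_ncard_ne_zero (h ▸ by norm_num : (P.extremePoints ℝ).ncard ≠ 0)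
  have B : ∀ x ∈ P.extremePoints ℝ, ∃ d ∈ D, ∃ m : ℝ, 0 < m ∧ x = m • c d := fun x hx => by
    obtain ⟨d, hd, m, hm, rfl⟩ := A x hx
    refine ⟨d, hd, m, hm.lt_of_ne ?_, rfl⟩
    rintro rfl
    obtain ⟨y, hy, hn⟩ := Set.exists_ne_of_one_lt_ncard (h ▸ by norm_num :
      1 < (P.extremePoints ℝ).ncard) 0
    obtain ⟨e, he, n, n0, rfl⟩ := A y hy
    exact ray hP hc le_rfl (n0.lt_of_ne (by rintro rfl; simp at hn)) he (by simpa using hx) hy.1
  let K := D.filter fun d => ∃ m : ℝ, 0 < m ∧ m • c d ∈ P.extremePoints ℝ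
  have hK : K.card = 12 := by
    rw [← h, ← Set.ncard_coe_finset]
    have : ∀ d ∈ (K : Set (Fin 3 → ℤ)), ∃ m : ℝ, 0 < m ∧ m • c d ∈ P.extremePoints ℝ :=
      fun d hd => (Finset.mem_filter.1 hd).2
    choose m m0 hm using this
    refine Set.ncard_congr (fun d hd => m d hd • c d) hm (fun d e hd he h => ?_) fun x hx => ?_
    · refine (by decide +kernel : ∀ d ∈ D, ∀ e ∈ D,
        (∀ i, SignType.sign (d i) = SignType.sign (e i)) → d = e) d (Finset.mem_filter.1 hd).1 e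
        (Finset.mem_filter.1 he).1 fun i => ?_
      have := congrArg SignType.sign (congrFun h i)
      simpa [c, sign_mul, sign_pos (m0 d hd), sign_pos (m0 e he), sign_intCast] using this
    · obtain ⟨d, hd, n, n0, rfl⟩ := B x hx
      have hd' : d ∈ (K : Set (Fin 3 → ℤ)) := Finset.mem_filter.2 ⟨hd, n, n0, hx⟩
      refine ⟨d, hd', ?_⟩
      rcases lt_trichotomy n (m d hd') with l | l | l
      · exact (ray hP hc n0.le l hd hx (hm d hd').1).elim
      · rw [l]
      · exact (ray hP hc (m0 d hd').le l hd (hm d hd') hx.1).elim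
  have : K = D.filter fun d => d 0 * d 1 * d 2 ∈ K.image fun d => d 0 * d 1 * d 2 := by
    ext d
    refine ⟨fun hd => Finset.mem_filter.2 ⟨(Finset.mem_filter.1 hd).1,
      Finset.mem_image_of_mem _ hd⟩, fun hd => ?_⟩
    obtain ⟨hd, he⟩ := Finset.mem_filter.1 hd
    obtain ⟨e, he, h⟩ := Finset.mem_image.1 he
    obtain ⟨he, m, m0, hm⟩ := Finset.mem_filter.1 he
    obtain ⟨i, rfl⟩ := (by decide +kernel : ∀ d ∈ D, ∀ e ∈ D,
      e 0 * e 1 * e 2 = d 0 * d 1 * d 2 → ∃ i, orb e i = d) d hd e he h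
    exact Finset.mem_filter.2 ⟨hd, m, m0, orb_mem (S := {d | m • c d ∈ P.extremePoints ℝ})
      (fun k x hx => by have := ext_g hP k _ hx; rwa [gsm, ← gc] at this) hm i⟩
  refine (by decide +kernel : ∀ J ∈ ({0, 1, -1} : Finset ℤ).powerset,
    (D.filter fun d => d 0 * d 1 * d 2 ∈ J).card ≠ 12) _ ?_ (this ▸ hK)
  rw [Finset.mem_powerset, Finset.image_subset_iff]
  exact fun d hd => (by decide +kernel : ∀ d ∈ D, d 0 * d 1 * d 2 ∈ ({0, 1, -1} : Finset ℤ)) d
    (Finset.mem_filter.1 hd).1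

theorem few (hk : IsCompact P) (hc : Convex ℝ P) (h : (P.extremePoints ℝ).ncard = 12) :
    (facets P).ncard ≤ 15 := by
  obtain ⟨x, hx, a, b, n⟩ := off hP hc h
  obtain ⟨a1, a2⟩ := abs_le.1 a
  have n1 : 0 < x 1 := by
    by_contra! e
    exact n ⟨![1, 0, 0], by decide, x 0, by linarith, by
      ext i; fin_cases i <;> simp [c] <;> linarith⟩
  have n2 : x 1 < x 0 ∨ (x 2 < x 1 ∧ -x 1 < x 2) := by
    by_contra! e
    rcases a2.eq_or_lt with e1 | e1
    · exact n ⟨![1, 1, 1], by decide, x 1, n1.le, by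
        ext i; fin_cases i <;> simp [c] <;> linarith⟩
    · exact n ⟨![1, 1, -1], by decide, x 1, n1.le, by
        ext i; fin_cases i <;> simp [c] <;> linarith [e.2 e1]⟩
  have inj : Function.Injective (orb x) := fun i j e => by
    have e0 := congrFun e 0; have e1 := congrFun e 1; have e2 := congrFun e 2
    fin_cases i <;> fin_cases j <;> first | rfl | (
      simp only [orb, Fin.reduceFinMk, cons_val] at e0 e1 e2
      rcases n2 with n2 | ⟨n2, n3⟩ <;> linarith)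
  have E : range (orb x) = P.extremePoints ℝ :=
    Set.eq_of_subset_of_ncard_le (range_subset_iff.2 (orb_mem (ext_g hP) hx))
      (by rw [h, Set.ncard_range_of_injective inj]; simp)
      (Set.finite_of_ncard_ne_zero (by rw [h]; norm_num))
  have top : ∀ u : V, (∀ i, u ⬝ᵥ orb x i ≤ u ⬝ᵥ x) → ∀ y ∈ P, u ⬝ᵥ y ≤ u ⬝ᵥ x := fun u hu => by
    rw [← closure_convexHull_extremePoints hk hc, ← E]
    exact closure_minimal (convexHull_min (range_subset_iff.2 hu)
      (convex_halfSpace_le ⟨dotProduct_add u, fun a => dotProduct_smul a u⟩ _))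
      (isClosed_le (continuous_const.dotProduct continuous_id) continuous_const)
  have t1 := top ![1, 0, 0] fun i => by
    fin_cases i <;> simp [orb, dotProduct, Fin.sum_univ_three] <;> linarith
  have t2 := top ![1, 1, 1] fun i => by
    fin_cases i <;> simp [orb, dotProduct, Fin.sum_univ_three] <;> linarith
  have t3 := top ![1, 1, -1] fun i => by
    fin_cases i <;> simp [orb, dotProduct, Fin.sum_univ_three] <;> linarith
  simp only [dotProduct, Fin.sum_univ_three, cons_val] at t1 t2 t3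
  have G : ∀ u : V, Ax u ∨ ∃ w, ∀ y ∈ face P u, ∀ z ∈ face P u, ∃ t : ℝ, y - z = t • w := by
    refine chamber (fun k u h => h.imp (·.g k) ?_) ?_
    · rintro ⟨w, hw⟩
      refine ⟨g k w, fun y hy z hz => ?_⟩
      have f : ∀ y ∈ face P (g k u), g k y ∈ face P u := fun y hy => ⟨hP k y hy.1, fun z hz => by
        have := hy.2 _ (hP k z hz)
        rwa [gdot, gg, ← gdot] at this⟩
      obtain ⟨t, ht⟩ := hw _ (f y hy) _ (f z hz)
      have := glin k 1 (-1) (g k y) (g k z)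
      refine ⟨t, ?_⟩
      rw [← gsm, ← ht]; simpa [gg, sub_eq_add_neg] using this.symm
    · intro u p q
      obtain ⟨p1, p2⟩ := abs_le.1 p
      have f : ∀ y ∈ face P u, (u 0 - u 1) * (x 0 - y 0) = 0 ∧
          (u 1 + u 2) * (x 0 + x 1 + x 2 - (y 0 + y 1 + y 2)) = 0 ∧
          (u 1 - u 2) * (x 0 + x 1 - x 2 - (y 0 + y 1 - y 2)) = 0 := fun y hy => by
        have := hy.2 x hx.1
        simp only [dotProduct, Fin.sum_univ_three] at this
        have s1 := mul_nonneg (sub_nonneg.2 q) (sub_nonneg.2 (t1 y hy.1))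
        have s2 := mul_nonneg (by linarith : 0 ≤ u 1 + u 2) (sub_nonneg.2 (t2 y hy.1))
        have s3 := mul_nonneg (sub_nonneg.2 p2) (sub_nonneg.2 (t3 y hy.1))
        refine ⟨?_, ?_, ?_⟩ <;> linarith
      by_cases z1 : u 0 - u 1 = 0 <;> by_cases z2 : u 1 + u 2 = 0 <;>
        by_cases z3 : u 1 - u 2 = 0 <;> simp only [z1, z2, z3, mul_eq_zero, false_or] at f
      · exact .inl ⟨![1, 0, 0], by decide, u 0, by linarith [abs_nonneg (u 2)], by
          ext i; fin_cases i <;> simp [c] <;> linarith⟩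
      · exact .inl ⟨![1, 1, -1], by decide, u 0, by linarith [abs_nonneg (u 2)], by
          ext i; fin_cases i <;> simp [c] <;> linarith⟩
      · exact .inl ⟨![1, 1, 1], by decide, u 0, by linarith [abs_nonneg (u 2)], by
          ext i; fin_cases i <;> simp [c] <;> linarith⟩
      · exact .inr ⟨![1, -1, 0], fun y hy z hz => ⟨y 0 - z 0, by
          obtain ⟨-, f1, f2⟩ := f y hy; obtain ⟨-, f3, f4⟩ := f z hz
          ext i; fin_cases i <;> simp <;> linarith⟩⟩
      · exact .inl ⟨![1, 0, 0], by decide, u 0, by linarith [abs_nonneg (u 2)], by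
          ext i; fin_cases i <;> simp [c] <;> linarith⟩
      · exact .inr ⟨![0, 1, 1], fun y hy z hz => ⟨y 1 - z 1, by
          obtain ⟨f1, -, f2⟩ := f y hy; obtain ⟨f3, -, f4⟩ := f z hz
          ext i; fin_cases i <;> simp <;> linarith⟩⟩
      · exact .inr ⟨![0, 1, -1], fun y hy z hz => ⟨y 1 - z 1, by
          obtain ⟨f1, f2, -⟩ := f y hy; obtain ⟨f3, f4, -⟩ := f z hz
          ext i; fin_cases i <;> simp <;> linarith⟩⟩
      · exact .inr ⟨![0, 1, -1], fun y hy z hz => ⟨y 1 - z 1, by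
          obtain ⟨f1, f2, -⟩ := f y hy; obtain ⟨f3, f4, -⟩ := f z hz
          ext i; fin_cases i <;> simp <;> linarith⟩⟩
  have : facets P ⊆ (fun d => face P (c d)) '' ↑(insert 0 D) := by
    rintro _ ⟨⟨u, rfl⟩, hF⟩
    rcases G u with ⟨d, hd, m, hm, rfl⟩ | ⟨w, hw⟩
    · rcases hm.eq_or_lt with rfl | hm
      · exact ⟨0, by simp, congrArg (face P) (by ext i; simp [c])⟩
      · exact ⟨d, by simp [hd], (face_smul _ _ hm).symm⟩
    · exact (low hw hF).elim
  refine (Set.ncard_le_ncard this (Set.toFinite _)).trans ((Set.ncard_image_le).trans ?_)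
  rw [Set.ncard_coe_finset]; decide +kernel
end

end Pool.Agent.H8.Tsym
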