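import Pool.Agent.H8.TsymA

/-! An icosahedron with integer vertices: 12 vertices and 20 facets. -/

namespace Pool.Agent.H8.Tsym
open Set Matrix

def S : Finset (Fin 3 → ℤ) := Finset.univ.image (orb ![0, 1, 2])

def N : Finset (Fin 3 → ℤ) := Finset.univ.image (orb ![1, 0, 2]) ∪
  (Finset.univ.image (orb ![1, 1, 1]) ∪ Finset.univ.image (orb ![1, 1, -1]))

def Ico : Set V := convexHull ℝ (c '' S)

lemma cinj : Function.Injective c := fun a b h => funext fun i => by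
  simpa [c] using congrFun h i

lemma cdot (a b : Fin 3 → ℤ) : c a ⬝ᵥ c b = (a ⬝ᵥ b : ℤ) := by simp [c, dotProduct]

lemma csub (a b : Fin 3 → ℤ) : c (a - b) = c a - c b := by ext i; simp [c]

lemma hs (u : V) (r : ℝ) : Convex ℝ {y | u ⬝ᵥ y ≤ r} :=
  convex_halfSpace_le ⟨dotProduct_add u, fun a => dotProduct_smul a u⟩ _

lemma mem_face {u : V} {a : Fin 3 → ℤ} (ha : a ∈ S) (h : ∀ s ∈ S, u ⬝ᵥ c s ≤ u ⬝ᵥ c a) :
    c a ∈ face Ico u :=
  ⟨subset_convexHull _ _ ⟨a, ha, rfl⟩, convexHull_min (by rintro _ ⟨s, hs, rfl⟩; exact h s hs)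
    (hs u _)⟩

lemma ico_ext : (Ico.extremePoints ℝ).ncard = 12 := by
  have B : Ico ⊆ {x | x 0 ^ 2 + x 1 ^ 2 + x 2 ^ 2 ≤ 5} := by
    refine convexHull_min ?_ fun x hx y hy a b ha hb hab => ?_
    · rintro _ ⟨s, hs, rfl⟩
      have := (by decide +kernel : ∀ s ∈ S, s 0 ^ 2 + s 1 ^ 2 + s 2 ^ 2 ≤ 5) s hs
      simp only [c, mem_setOf_eq]; exact_mod_cast this
    · obtain rfl : b = 1 - a := by linarith
      simp only [mem_setOf_eq, Pi.add_apply, Pi.smul_apply, smul_eq_mul] at *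
      nlinarith [mul_nonneg ha hb, mul_nonneg (mul_nonneg ha hb) (add_nonneg (add_nonneg
        (sq_nonneg (x 0 - y 0)) (sq_nonneg (x 1 - y 1))) (sq_nonneg (x 2 - y 2))),
        mul_nonneg ha (sub_nonneg.2 hx), mul_nonneg hb (sub_nonneg.2 hy)]
  have : Ico.extremePoints ℝ = c '' S := by
    refine extremePoints_convexHull_subset.antisymm ?_
    rintro _ ⟨s, hs, rfl⟩
    refine ⟨subset_convexHull _ _ ⟨s, hs, rfl⟩, fun x hx y hy ⟨a, b, ha, hb, hab, h⟩ => ?_⟩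
    have e : c s 0 ^ 2 + c s 1 ^ 2 + c s 2 ^ 2 = 5 := by
      have := (by decide +kernel : ∀ s ∈ S, s 0 ^ 2 + s 1 ^ 2 + s 2 ^ 2 = 5) s hs
      simp only [c]; exact_mod_cast this
    have h1 := B hx; have h2 := B hy
    obtain rfl : b = 1 - a := by linarith
    rw [← h] at e ⊢
    simp only [mem_setOf_eq, Pi.add_apply, Pi.smul_apply, smul_eq_mul] at e h1 h2
    have : (x 0 - y 0) ^ 2 + (x 1 - y 1) ^ 2 + (x 2 - y 2) ^ 2 ≤ 0 :=
      nonpos_of_mul_nonpos_right (b := _) (a := a * (1 - a)) (by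
        nlinarith [mul_nonneg ha.le (sub_nonneg.2 h1), mul_nonneg hb.le (sub_nonneg.2 h2)])
        (mul_pos ha hb)
    obtain rfl : x = y := by
      ext i; fin_cases i <;> simp <;>
        nlinarith [sq_nonneg (x 0 - y 0), sq_nonneg (x 1 - y 1), sq_nonneg (x 2 - y 2)]
    rw [← add_smul]; simp
  rw [this, Set.ncard_image_of_injective _ cinj, Set.ncard_coe_finset]; decide +kernel

lemma ico_top : vectorSpan ℝ (c '' S) = ⊤ := by
  rw [eq_top_iff]
  intro x _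
  have m : ∀ a ∈ S, ∀ b ∈ S, ∀ t : ℝ, t • (c a - c b) ∈ vectorSpan ℝ (c '' S) :=
    fun a ha b hb t => Submodule.smul_mem _ _ (vsub_mem_vectorSpan ℝ ⟨a, ha, rfl⟩ ⟨b, hb, rfl⟩)
  convert add_mem (add_mem (m ![1, 2, 0] (by decide +kernel) ![-1, 2, 0] (by decide +kernel)
    (x 0 / 2)) (m ![0, 1, 2] (by decide +kernel) ![0, -1, 2] (by decide +kernel) (x 1 / 2)))
    (m ![2, 0, 1] (by decide +kernel) ![2, 0, -1] (by decide +kernel) (x 2 / 2))
  ext i; fin_cases i <;> simp [c] <;> ring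

lemma ico_int : (interior Ico).Nonempty :=
  interior_convexHull_nonempty_iff_affineSpan_eq_top.2
    ((AffineSubspace.affineSpan_eq_top_iff_vectorSpan_eq_top_of_nonempty _ _ _
      (Set.Nonempty.image c ⟨![0, 1, 2], by decide +kernel⟩)).2 ico_top)

lemma ccross (a b : Fin 3 → ℤ) : c (a ⨯₃ b) = c a ⨯₃ c b := by
  ext i; fin_cases i <;> simp [c, cross_apply]

lemma ico_face (u : V) (h : Module.finrank ℝ (vectorSpan ℝ (face Ico u)) = 2) :
    ∃ n ∈ N, face Ico u = face Ico (c n) := by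
  classical
  obtain ⟨a, ha, hm⟩ := S.exists_max_image (fun s => u ⬝ᵥ c s) (by decide +kernel)
  by_cases H : ∃ b ∈ S, ∃ d ∈ S, a ≠ b ∧ a ≠ d ∧ b ≠ d ∧ u ⬝ᵥ c b = u ⬝ᵥ c a ∧
      u ⬝ᵥ c d = u ⬝ᵥ c a
  · obtain ⟨b, hb, d, hd, h1, h2, h3, e1, e2⟩ := H
    obtain ⟨n0, hn⟩ := (by decide +kernel : ∀ a ∈ S, ∀ b ∈ S, ∀ d ∈ S, a ≠ b → a ≠ d → b ≠ d →
      (b - a) ⨯₃ (d - a) ≠ 0 ∧ ∀ e ∈ ({1, -1} : Finset ℤ),
        (∀ s ∈ S, e * ((b - a) ⨯₃ (d - a) ⬝ᵥ s) ≤ e * ((b - a) ⨯₃ (d - a) ⬝ᵥ a)) →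
        ∃ n ∈ N, ∃ k ∈ ({2, 3} : Finset ℤ), (b - a) ⨯₃ (d - a) = (k * e) • n) a ha b hb d hd h1 h2 h3
    obtain ⟨t, ht⟩ : ∃ t : ℝ, u = t • c ((b - a) ⨯₃ (d - a)) := by
      have p : c ((b - a) ⨯₃ (d - a)) ⬝ᵥ c ((b - a) ⨯₃ (d - a)) ≠ 0 := by
        rw [Ne, dotProduct_self_eq_zero]
        exact fun h => n0 (cinj (h.trans (by ext i; simp [c])))
      have q : u ⨯₃ c ((b - a) ⨯₃ (d - a)) = 0 := by
        rw [ccross, cross_cross_eq_smul_sub_smul', csub, csub, dotProduct_comm _ u,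
          dotProduct_sub, dotProduct_sub, e1, e2]; simp
      have r := cross_cross_eq_smul_sub_smul' (c ((b - a) ⨯₃ (d - a))) u (c ((b - a) ⨯₃ (d - a)))
      rw [q, map_zero, eq_comm, sub_eq_zero] at r
      exact ⟨_, by rw [← inv_smul_smul₀ p u, r, smul_smul]⟩
    generalize (b - a) ⨯₃ (d - a) = w at *
    have pos : ∀ k ∈ ({2, 3} : Finset ℤ), (0 : ℝ) < k := by simp
    have sup : ∀ s ∈ S, t * (w ⬝ᵥ s : ℤ) ≤ t * (w ⬝ᵥ a : ℤ) :=
      fun s hs => by simpa only [ht, smul_dotProduct, cdot, smul_eq_mul] using hm s hs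
    rcases lt_trichotomy t 0 with t0 | rfl | t0
    · obtain ⟨n, hN, k, hk, e⟩ := hn (-1) (by simp) fun s hs => by
        have := le_of_mul_le_mul_left (a := -t) (b := -_) (c := -_)
          (by simpa using sup s hs) (neg_pos.2 t0)
        rw [neg_one_mul, neg_one_mul]; exact_mod_cast this
      refine ⟨n, hN, ?_⟩
      rw [← face_smul _ (c n) (mul_pos (pos k hk) (neg_pos.2 t0)), ht, e]
      congr 1; ext i; simp [c]; ring
    · have : face Ico u = Ico := by simp [face, ht]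
      rw [this, Ico, eq_top_iff.2 (ico_top.ge.trans (vectorSpan_mono ℝ (subset_convexHull ℝ _)))] at h
      simp at h
    · obtain ⟨n, hN, k, hk, e⟩ := hn 1 (by simp) fun s hs => by
        have := le_of_mul_le_mul_left (sup s hs) t0
        rw [one_mul, one_mul]; exact_mod_cast this
      refine ⟨n, hN, ?_⟩
      rw [← face_smul _ (c n) (mul_pos (pos k hk) t0), ht, e]
      congr 1; ext i; simp [c]; ring
  · obtain ⟨b, hb⟩ : ∃ b, ∀ s ∈ S, u ⬝ᵥ c s = u ⬝ᵥ c a → s = a ∨ s = b := by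
      by_contra! h
      obtain ⟨b, hb, e, h1, -⟩ := h a
      obtain ⟨d, hd, e', h2, h3⟩ := h b
      exact H ⟨b, hb, d, hd, h1.symm, h2.symm, h3.symm, e, e'⟩
    have key : ∀ x ∈ Ico, u ⬝ᵥ x ≤ u ⬝ᵥ c a ∧
        (u ⬝ᵥ x = u ⬝ᵥ c a → ∃ t : ℝ, x - c a = t • (c b - c a)) := by
      refine convexHull_min ?_ fun x hx y hy p q hp hq hpq => ?_
      · rintro _ ⟨s, hs, rfl⟩
        refine ⟨hm s hs, fun e => ?_⟩
        rcases hb s hs e with rfl | rfl
        exacts [⟨0, by simp⟩, ⟨1, by simp⟩]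
      · obtain rfl : q = 1 - p := by linarith
        change _ ≤ _ ∧ (_ = _ → _)
        simp only [dotProduct_add, dotProduct_smul, smul_eq_mul]
        have m1 := mul_nonneg hp (sub_nonneg.2 hx.1)
        have m2 := mul_nonneg hq (sub_nonneg.2 hy.1)
        refine ⟨by linarith, fun e => ?_⟩
        obtain ⟨s, hs⟩ : ∃ s : ℝ, p • (x - c a) = s • (c b - c a) := by
          rcases mul_eq_zero.1 (by linarith : p * (u ⬝ᵥ c a - u ⬝ᵥ x) = 0) with rfl | h
          · exact ⟨0, by simp⟩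
          · obtain ⟨t, ht⟩ := hx.2 (by linarith)
            exact ⟨p * t, by rw [ht, smul_smul]⟩
        obtain ⟨t, ht⟩ : ∃ s : ℝ, (1 - p) • (y - c a) = s • (c b - c a) := by
          rcases mul_eq_zero.1 (by linarith : (1 - p) * (u ⬝ᵥ c a - u ⬝ᵥ y) = 0) with h | h
          · exact ⟨0, by simp [h]⟩
          · obtain ⟨t, ht⟩ := hy.2 (by linarith)
            exact ⟨(1 - p) * t, by rw [ht, smul_smul]⟩
        exact ⟨s + t, by rw [add_smul, ← hs, ← ht]; module⟩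
    refine (low (w := c b - c a) (fun x hx y hy => ?_) h).elim
    have m := (mem_face ha hm).1
    obtain ⟨s, hs⟩ := (key x hx.1).2 ((key x hx.1).1.antisymm (hx.2 _ m))
    obtain ⟨t, ht⟩ := (key y hy.1).2 ((key y hy.1).1.antisymm (hy.2 _ m))
    exact ⟨s - t, by rw [sub_smul, ← hs, ← ht]; abel⟩

lemma ico_facets : (facets Ico).ncard = 20 := by
  have mf : ∀ n, ∀ a ∈ S, (∀ s ∈ S, n ⬝ᵥ s ≤ n ⬝ᵥ a) ↔ c a ∈ face Ico (c n) := fun n a ha =>
    ⟨fun h => mem_face ha fun s hs => by rw [cdot, cdot]; exact_mod_cast h s hs, fun h s hs => by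
      have := h.2 _ (subset_convexHull _ _ ⟨s, hs, rfl⟩)
      rw [cdot, cdot] at this; exact_mod_cast this⟩
  have : facets Ico = (fun n => face Ico (c n)) '' N := by
    refine Subset.antisymm ?_ ?_
    · rintro _ ⟨⟨u, rfl⟩, h⟩
      obtain ⟨n, hn, e⟩ := ico_face u h
      exact ⟨n, hn, e.symm⟩
    · rintro _ ⟨n, hn, rfl⟩
      refine ⟨⟨_, rfl⟩, ?_⟩
      obtain ⟨n0, a, ha, h1, b, hb, h2, d, hd, h3, h⟩ := (by decide +kernel : ∀ n ∈ N, n ≠ 0 ∧
        ∃ a ∈ S, (∀ s ∈ S, n ⬝ᵥ s ≤ n ⬝ᵥ a) ∧ ∃ b ∈ S, (∀ s ∈ S, n ⬝ᵥ s ≤ n ⬝ᵥ b) ∧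
        ∃ d ∈ S, (∀ s ∈ S, n ⬝ᵥ s ≤ n ⬝ᵥ d) ∧ (b - a) ⨯₃ (d - a) ≠ 0) n hn
      rw [mf n _ ‹_›] at h1 h2 h3
      have li : LinearIndependent ℝ ![c b - c a, c d - c a] :=
        crossProduct_ne_zero_iff_linearIndependent.1 fun e => h (cinj (by
          ext i; have := congrFun e i
          fin_cases i <;> simpa [c, cross_apply] using this))
      have l1 : 2 ≤ Module.finrank ℝ (vectorSpan ℝ (face Ico (c n))) := by
        have := finrank_span_eq_card li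
        rw [Fintype.card_fin] at this
        refine this.ge.trans (Submodule.finrank_mono (Submodule.span_le.2 ?_))
        rintro _ ⟨i, rfl⟩
        fin_cases i
        exacts [vsub_mem_vectorSpan ℝ h2 h1, vsub_mem_vectorSpan ℝ h3 h1]
      have l2 : vectorSpan ℝ (face Ico (c n)) ≠ ⊤ := fun e => by
        have : ∀ x ∈ vectorSpan ℝ (face Ico (c n)), c n ⬝ᵥ x = 0 := fun x hx => by
          rw [vectorSpan_def] at hx
          refine Submodule.span_induction ?_ (by simp) (fun x y _ _ a b => by simp [a, b])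
            (fun a x _ h => by simp [h]) hx
          rintro _ ⟨x, hx, y, hy, rfl⟩
          simp [(hx.2 y hy.1).antisymm (hy.2 x hx.1)]
        exact n0 (cinj ((dotProduct_self_eq_zero.1 (this _ (e ▸ Submodule.mem_top))).trans
          (by ext i; simp [c])))
      have := Submodule.finrank_lt l2
      simp at this
      beta_reduce
      omega
  rw [this, Set.ncard_image_of_injOn, Set.ncard_coe_finset]
  · decide +kernel
  · intro m hm n hn e
    exact (by decide +kernel : ∀ m ∈ N, ∀ n ∈ N, (∀ a ∈ S,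
      (∀ s ∈ S, m ⬝ᵥ s ≤ m ⬝ᵥ a) ↔ (∀ s ∈ S, n ⬝ᵥ s ≤ n ⬝ᵥ a)) → m = n) m hm n hn
      fun a ha => by rw [mf m a ha, mf n a ha, show face Ico (c m) = face Ico (c n) from e]

end Pool.Agent.H8.Tsym
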