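import Pool.Agent.H8.BruDefs

namespace Pool.Agent.H8.Bru

open Equiv

variable {n : ℕ}

/-- The Bruhat interval `[u, v]`. -/
def Itv (u v : Perm (Fin n)) : Type := {x : Perm (Fin n) // BrLe u x ∧ BrLe x v}

/-- The cover relation of the poset `[u, v]`. -/
def Cov {u v : Perm (Fin n)} (x y : Itv u v) : Prop :=
  BrLt x.1 y.1 ∧ ¬ ∃ z : Itv u v, BrLt x.1 z.1 ∧ BrLt z.1 y.1

/-- A special matching of the poset `[u, v]`. -/
def IsSpecial {u v : Perm (Fin n)} (M : Itv u v → Itv u v) : Prop :=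
  (∀ x, M (M x) = x) ∧ (∀ x, Cov x (M x) ∨ Cov (M x) x) ∧
    ∀ x y, Cov x y → M x ≠ y → BrLt (M x).1 (M y).1

/-- `[u, w]` is a zircon: every `[u, v]` with `u < v ≤ w` has a special matching. -/
def IsZircon (u w : Perm (Fin n)) : Prop :=
  ∀ v, BrLt u v → BrLe v w → ∃ M : Itv u v → Itv u v, IsSpecial M

end Pool.Agent.H8.Bru
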