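import Pool.Agent.H8.Bru5
import Pool.Agent.H8.ZirDefs

namespace Pool.Agent.H8.Bru

open Equiv Finset

variable {n : ℕ}

def Adj (x y : Perm (Fin n)) : Prop := (y * x⁻¹).IsSwap

lemma swap_inv' {t : Perm (Fin n)} (ht : t.IsSwap) : t⁻¹ = t := by
  obtain ⟨a, b, -, rfl⟩ := ht
  simp

lemma swap_sq {t : Perm (Fin n)} (ht : t.IsSwap) : t * t = 1 := by
  obtain ⟨a, b, -, rfl⟩ := ht
  simp

lemma Adj.symm {x y : Perm (Fin n)} (h : Adj x y) : Adj y x := by
  unfold Adj at *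
  have : x * y⁻¹ = (y * x⁻¹)⁻¹ := by group
  rw [this, swap_inv' h]; exact h

lemma adj_mul {t : Perm (Fin n)} (ht : t.IsSwap) (x : Perm (Fin n)) : Adj x (t * x) := by
  unfold Adj; simpa using ht

lemma isSwap_of_support {g : Perm (Fin n)} (h3 : g.support.card ≤ 3) (hs : Perm.sign g = -1) :
    g.IsSwap := by
  have h0 : g.support.card ≠ 0 := by
    intro h
    rw [Perm.card_support_eq_zero] at h
    rw [h] at hs; simp at hs
  have h1 := Perm.card_support_ne_one g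
  have h3' : g.support.card ≠ 3 := by
    intro h
    have := (card_support_eq_three_iff.1 h).sign
    rw [this] at hs; simp at hs
  exact Perm.card_support_eq_two.1 (by omega)

lemma three_swaps {s : Finset (Fin n)} (hs : s.card ≤ 3) {a b d : Perm (Fin n)} (ha : a.IsSwap)
    (hb : b.IsSwap) (hd : d.IsSwap) (sa : a.support ⊆ s) (sb : b.support ⊆ s)
    (sd : d.support ⊆ s) : (a * b * d).IsSwap := by
  refine isSwap_of_support (le_trans (card_le_card ?_) hs) ?_
  · refine (Perm.support_mul_le _ _).trans (sup_le ((Perm.support_mul_le _ _).trans ?_) sd)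
    exact sup_le sa sb
  · simp [ha.sign_eq, hb.sign_eq, hd.sign_eq]

/-- structure of a factorisation `h = t' t` into two transpositions -/
lemma factor {h : Perm (Fin n)} (h1 : h ≠ 1) {a b : Fin n} (hab : a ≠ b)
    (ht : (h * swap a b).IsSwap) :
    h a ≠ a ∧ h b ≠ b ∧ (h.support.card ≤ 3 ∨
      (h a = b ∧ h b = a ∧ ∃ e f, ∀ z, h z ≠ z → z = a ∨ z = b ∨ z = e ∨ z = f)) := by
  obtain ⟨e, f, hef, he⟩ := ht
  have hh : h = swap e f * swap a b := by rw [← he, mul_assoc, swap_mul_self, mul_one]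
  have hmov : ∀ z, h z ≠ z → z = a ∨ z = b ∨ z = e ∨ z = f := by
    intro z hz
    by_contra hc
    push Not at hc
    apply hz
    rw [hh, Perm.mul_apply, swap_apply_of_ne_of_ne hc.1 hc.2.1,
      swap_apply_of_ne_of_ne hc.2.2.1 hc.2.2.2]
  have hne : ¬ ((e = a ∧ f = b) ∨ (e = b ∧ f = a)) := by
    rintro (⟨rfl, rfl⟩ | ⟨rfl, rfl⟩)
    · exact h1 (by rw [hh, swap_mul_self])
    · exact h1 (by rw [hh, swap_comm, swap_mul_self])
  have ha : h a = swap e f b := by rw [hh]; simp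
  have hb : h b = swap e f a := by rw [hh]; simp
  refine ⟨?_, ?_, ?_⟩
  · rw [ha, swap_apply_def]; split_ifs with c1 c2
    · intro c; exact hne (Or.inr ⟨c1.symm, c⟩)
    · intro c; exact hne (Or.inl ⟨c, c2.symm⟩)
    · exact hab.symm
  · rw [hb, swap_apply_def]; split_ifs with c1 c2
    · intro c; exact hne (Or.inl ⟨c1.symm, c⟩)
    · intro c; exact hne (Or.inr ⟨c, c2.symm⟩)
    · exact hab
  · have small : ∀ x : Fin n, (∀ z, h z ≠ z → z = a ∨ z = b ∨ z = x) → h.support.card ≤ 3 := by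
      intro x hx
      refine le_trans (card_le_card (t := {a, b, x}) fun z hz => ?_) card_le_three
      simpa using hx z (Perm.mem_support.1 hz)
    by_cases c1 : e = a ∨ e = b
    · exact Or.inl (small f fun z hz => by rcases c1 with rfl | rfl <;> have := hmov z hz <;> tauto)
    by_cases c2 : f = a ∨ f = b
    · exact Or.inl (small e fun z hz => by rcases c2 with rfl | rfl <;> have := hmov z hz <;> tauto)
    push Not at c1 c2
    refine Or.inr ⟨?_, ?_, e, f, hmov⟩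
    · rw [ha, swap_apply_of_ne_of_ne (Ne.symm c1.2) (Ne.symm c2.2)]
    · rw [hb, swap_apply_of_ne_of_ne (Ne.symm c1.1) (Ne.symm c2.1)]

lemma supp_sub {h t : Perm (Fin n)} (h1 : h ≠ 1) (ht : t.IsSwap) (hht : (h * t).IsSwap) :
    t.support ⊆ h.support := by
  obtain ⟨a, b, hab, rfl⟩ := ht
  obtain ⟨ha, hb, -⟩ := factor h1 hab hht
  rw [Perm.support_swap hab]
  intro z hz
  simp only [mem_insert, mem_singleton] at hz
  rcases hz with rfl | rfl
  · exact Perm.mem_support.2 ha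
  · exact Perm.mem_support.2 hb

lemma card_le_three_of {h t1 t2 t3 : Perm (Fin n)} (h1 : h ≠ 1) (s1 : t1.IsSwap) (s2 : t2.IsSwap)
    (s3 : t3.IsSwap) (k1 : (h * t1).IsSwap) (k2 : (h * t2).IsSwap) (k3 : (h * t3).IsSwap)
    (d12 : t1 ≠ t2) (d13 : t1 ≠ t3) (d23 : t2 ≠ t3) : h.support.card ≤ 3 := by
  obtain ⟨a1, b1, n1, rfl⟩ := s1
  obtain ⟨a2, b2, n2, rfl⟩ := s2
  obtain ⟨a3, b3, n3, rfl⟩ := s3
  obtain ⟨-, -, c1 | ⟨p1, q1, e, f, hm⟩⟩ := factor h1 n1 k1
  · exact c1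
  obtain ⟨m2, m2', c2 | ⟨p2, q2, -⟩⟩ := factor h1 n2 k2
  · exact c2
  obtain ⟨m3, m3', c3 | ⟨p3, q3, -⟩⟩ := factor h1 n3 k3
  · exact c3
  exfalso
  have same : ∀ a b a' b' : Fin n, h a = b → h b = a → h a' = b' → h b' = a' →
      swap a b ≠ swap a' b' → a' ≠ a ∧ a' ≠ b ∧ b' ≠ a ∧ b' ≠ b := by
    intro a b a' b' e1 e2 e3 e4 hne
    refine ⟨fun c => hne ?_, fun c => hne ?_, fun c => hne ?_, fun c => hne ?_⟩
    · have : b' = b := by rw [← e3, c, e1]
      rw [c, this]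
    · have : b' = a := by rw [← e3, c, e2]
      rw [c, this, swap_comm]
    · have : a' = b := by rw [← e4, c, e1]
      rw [c, this, swap_comm]
    · have : a' = a := by rw [← e4, c, e2]
      rw [c, this]
  obtain ⟨x1, x2, x3, x4⟩ := same _ _ _ _ p1 q1 p2 q2 d12
  obtain ⟨y1, y2, -, -⟩ := same _ _ _ _ p1 q1 p3 q3 d13
  obtain ⟨z1, z2, -, -⟩ := same _ _ _ _ p2 q2 p3 q3 d23
  have u1 : a2 = e ∨ a2 = f := ((hm a2 m2).resolve_left x1).resolve_left x2
  have u2 : b2 = e ∨ b2 = f := ((hm b2 m2').resolve_left x3).resolve_left x4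
  have u3 : a3 = e ∨ a3 = f := ((hm a3 m3).resolve_left y1).resolve_left y2
  rcases u1 with u1 | u1 <;> rcases u2 with u2 | u2 <;> rcases u3 with u3 | u3 <;>
    first
    | exact n2 (u1.trans u2.symm)
    | exact z1 (u3.trans u1.symm)
    | exact z2 (u3.trans u2.symm)

/-- two vertices with three common neighbours span a hexagon -/
lemma k22 {x x' a y y' b : Perm (Fin n)} (hx : x ≠ x') (d1 : a ≠ y) (d2 : a ≠ y') (d3 : y ≠ y')
    (e1 : Adj x a) (e2 : Adj x y) (e3 : Adj x y') (f1 : Adj x' a) (f2 : Adj x' y)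
    (f3 : Adj x' y') (g1 : Adj y b) (g2 : Adj y' b) : Adj a b := by
  have h1 : x' * x⁻¹ ≠ 1 := fun e => hx (mul_inv_eq_one.1 e).symm
  have key : ∀ z z' p : Perm (Fin n), Adj z p → Adj z' p → (z' * z⁻¹ * (p * z⁻¹)).IsSwap := by
    intro z z' p hp hp'
    have : z' * z⁻¹ * (p * z⁻¹) = z' * p⁻¹ := by
      rw [← swap_inv' hp]; group
    rw [this]; exact hp'.symm
  have k1 := key x x' a e1 f1
  have k2 := key x x' y e2 f2
  have k3 := key x x' y' e3 f3
  have hc := card_le_three_of h1 e1 e2 e3 k1 k2 k3 (by simpa using d1) (by simpa using d2)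
    (by simpa using d3)
  have s1 := supp_sub h1 e1 k1
  have s2 := supp_sub h1 e2 k2
  have s3 := supp_sub h1 e3 k3
  have h2 : y' * y⁻¹ ≠ 1 := fun e => d3 (mul_inv_eq_one.1 e).symm
  have s4 := supp_sub h2 g1 (key y y' b g1 g2)
  have s5 : (y' * y⁻¹).support ⊆ (x' * x⁻¹).support := by
    have : y' * y⁻¹ = (y' * x⁻¹) * (y * x⁻¹) := by
      rw [← swap_inv' e2]; group
    rw [this]
    exact (Perm.support_mul_le _ _).trans (sup_le s3 s2)
  have := three_swaps hc g1 e2 e1 (s4.trans s5) s2 s1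
  have e : b * y⁻¹ * (y * x⁻¹) * (a * x⁻¹) = b * a⁻¹ := by
    rw [← swap_inv' e1]; group
  unfold Adj
  rwa [e] at this

end Pool.Agent.H8.Bru
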