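import Pool.Agent.H8.Zir1

namespace Pool.Agent.H8.Bru

open Equiv Finset

variable {n : ℕ}

lemma len_exact (u : Perm (Fin n)) {k l : Fin n} (hkl : (k : ℕ) < l) (hP : P u k < P u l)
    (hno : ∀ m : Fin n, (k : ℕ) < m → (m : ℕ) < l → P u k < P u m → P u m < P u l → False) :
    len (swap k l * u) = len u + 1 := by
  have hne : k ≠ l := fun e => by rw [e] at hkl; omega
  replace hno : ∀ m : Fin n, ¬ ((k : ℕ) < m ∧ (m : ℕ) < l ∧ P u k < P u m ∧ P u m < P u l) :=
    fun m h => hno m h.1 h.2.1 h.2.2.1 h.2.2.2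
  have key : 2 * ∑ a : Fin n, ∑ b : Fin n,
      (c a b * c (P (swap k l * u) b) (P (swap k l * u) a) - c a b * c (P u b) (P u a))
      = ∑ a : Fin n, ∑ b : Fin n,
        ((if a = k then (if b = l then (1 : ℤ) else 0) else 0)
          + (if a = l then (if b = k then (1 : ℤ) else 0) else 0)) := by
    rw [sym_sum (swap k l)]
    refine Finset.sum_congr rfl fun a _ => Finset.sum_congr rfl fun b _ => ?_
    simp only [P_swap_fin, swap_apply_self]
    have hk : ∀ x : Fin n, x ≠ k → (x : ℕ) ≠ k ∧ P u x ≠ P u k := fun x hx =>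
      ⟨fun e => hx (Fin.ext e), fun e => hx (Fin.ext (P_inj u x.2 k.2 e))⟩
    have hl : ∀ x : Fin n, x ≠ l → (x : ℕ) ≠ l ∧ P u x ≠ P u l := fun x hx =>
      ⟨fun e => hx (Fin.ext e), fun e => hx (Fin.ext (P_inj u x.2 l.2 e))⟩
    by_cases ha : a = k
    · subst ha
      by_cases hb : b = a
      · subst hb; simp [c, hne]
      by_cases hb' : b = l
      · subst hb'
        simp only [swap_apply_left, swap_apply_right, if_true, hne, if_false]
        unfold c; split_ifs <;> omega
      have := hk b hb
      have := hl b hb'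
      have := hno b
      simp only [swap_apply_left, swap_apply_of_ne_of_ne hb hb', hb, hb', hne, if_true, if_false]
      unfold c; split_ifs <;> omega
    by_cases ha' : a = l
    · subst ha'
      by_cases hb : b = k
      · subst hb
        simp only [swap_apply_left, swap_apply_right, if_true, ha, if_false]
        unfold c; split_ifs <;> omega
      by_cases hb' : b = a
      · subst hb'; simp [c, ha]
      have := hk b hb
      have := hl b hb'
      have := hno b
      simp only [swap_apply_right, swap_apply_of_ne_of_ne hb hb', hb, hb', ha, if_true, if_false]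
      unfold c; split_ifs <;> omega
    have := hk a ha
    have := hl a ha'
    have := hno a
    by_cases hb : b = k
    · subst hb
      simp only [swap_apply_left, swap_apply_of_ne_of_ne ha ha', ha, ha', if_false]
      unfold c; split_ifs <;> omega
    by_cases hb' : b = l
    · subst hb'
      simp only [swap_apply_right, swap_apply_of_ne_of_ne ha ha', ha, ha', if_false]
      unfold c; split_ifs <;> omega
    simp only [swap_apply_of_ne_of_ne ha ha', swap_apply_of_ne_of_ne hb hb', ha, ha', if_false]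
    omega
  simp only [Finset.sum_sub_distrib, Finset.sum_add_distrib] at key
  rw [← len_eq, ← len_eq] at key
  simp at key
  omega

lemma Step.adj {x y : Perm (Fin n)} (h : Step x y) : Adj x y := by
  obtain ⟨t, ht, rfl, -⟩ := h
  exact adj_mul ht x

lemma Step.len_lt {x y : Perm (Fin n)} (h : Step x y) : len x < len y := by
  obtain ⟨_, _, _, h⟩ := h
  exact h

lemma Step.le {x y : Perm (Fin n)} (h : Step x y) : BrLe x y := Relation.ReflTransGen.single h

lemma swap_cases (x : Perm (Fin n)) {a b : Fin n} (hab : a ≠ b) :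
    Step x (swap a b * x) ∨ Step (swap a b * x) x := by
  have e1 : (a : ℕ) ≠ b := fun e => hab (Fin.ext e)
  have e2 : P x a ≠ P x b := fun e => e1 (P_inj x a.2 b.2 e)
  rcases lt_or_gt_of_ne e1 with h | h <;> rcases lt_or_gt_of_ne e2 with h' | h'
  · exact Or.inl (step_up x h h')
  · exact Or.inr (step_down x h h')
  · rw [swap_comm]; exact Or.inr (step_down x h h')
  · rw [swap_comm]; exact Or.inl (step_up x h h')

lemma Adj.cases {x y : Perm (Fin n)} (h : Adj x y) : Step x y ∨ Step y x := by
  obtain ⟨a, b, hab, e⟩ := h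
  have : y = swap a b * x := by rw [← e]; group
  rw [this]; exact swap_cases x hab

lemma len_le_of_br {x y : Perm (Fin n)} (h : BrLe x y) : len x ≤ len y := by
  by_cases e : x = y
  · rw [e]
  · exact (len_lt_of_brlt ⟨h, e⟩).le

lemma eq_of_br_len {x y : Perm (Fin n)} (h : BrLe x y) (hl : len y ≤ len x) : x = y := by
  by_contra e
  have := len_lt_of_brlt ⟨h, e⟩
  omega

lemma BrLt.head {x y : Perm (Fin n)} (h : BrLt x y) : ∃ z, Step x z ∧ BrLe z y := by
  rcases Relation.ReflTransGen.cases_head h.1 with e | e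
  · exact absurd e h.2
  · exact e

lemma step_of_len {x y : Perm (Fin n)} (h : BrLt x y) (hl : len y ≤ len x + 1) : Step x y := by
  obtain ⟨z, h1, h2⟩ := h.head
  have := h1.len_lt
  rwa [← eq_of_br_len h2 (by omega)]

section special

variable {u v : Perm (Fin n)}

lemma Cov.len {x y : Itv u v} (h : Cov x y) : len y.1 = len x.1 + 1 := by
  obtain ⟨z, h1, h2⟩ := h.1.head
  have hz : z = y.1 := by
    by_contra e
    exact h.2 ⟨⟨z, x.2.1.trans h1.le, h2.trans y.2.2⟩, brlt_of_step h1, h2, e⟩
  subst hz
  obtain ⟨k, l, hkl, hP, e⟩ := step_iff h1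
  rw [e]
  refine len_exact _ hkl hP fun m m1 m2 m3 m4 => ?_
  have s1 := step_up x.1 m1 m3
  have s2 : Le (swap k m * x.1) y.1 := by
    intro p q
    rw [e]; unfold D; rw [R_swap, R_swap]
    unfold c; split_ifs <;> omega
  refine h.2 ⟨⟨swap k m * x.1, x.2.1.trans s1.le, (br_of_le s2).trans y.2.2⟩, brlt_of_step s1,
    br_of_le s2, fun e' => ?_⟩
  have := congrArg (fun t => P t k) (e'.trans e)
  simp only [P_swap_left] at this
  omega

lemma cov_of_len {x y : Itv u v} (h : BrLt x.1 y.1) (hl : len y.1 ≤ len x.1 + 1) : Cov x y := by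
  refine ⟨h, ?_⟩
  rintro ⟨z, h1, h2⟩
  have := len_lt_of_brlt h1
  have := len_lt_of_brlt h2
  omega

variable {M : Itv u v → Itv u v}

open Classical in
noncomputable def hi (M : Itv u v → Itv u v) (x : Itv u v) : Itv u v :=
  if BrLt x.1 (M x).1 then M x else x

open Classical in
noncomputable def lo (M : Itv u v → Itv u v) (x : Itv u v) : Itv u v :=
  if BrLt x.1 (M x).1 then x else M x

lemma hilo (hM : IsSpecial M) (x : Itv u v) :
    (Cov x (M x) ∧ hi M x = M x ∧ lo M x = x) ∨ (Cov (M x) x ∧ hi M x = x ∧ lo M x = M x) := by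
  rcases hM.2.1 x with h | h
  · exact Or.inl ⟨h, if_pos h.1, if_pos h.1⟩
  · have : ¬ BrLt x.1 (M x).1 := fun h' => by
      have := len_lt_of_brlt h'
      have := h.len
      omega
    exact Or.inr ⟨h, if_neg this, if_neg this⟩

lemma lift_cov (hM : IsSpecial M) {x y : Itv u v} (h : Cov x y) :
    BrLe (hi M x).1 (hi M y).1 ∧ BrLe (lo M x).1 (lo M y).1 := by
  by_cases e : M x = y
  · have e' : M y = x := by rw [← e, hM.1]
    have hl := h.len
    rcases hilo hM x with ⟨c1, h1, l1⟩ | ⟨c1, h1, l1⟩ <;>
      rcases hilo hM y with ⟨c2, h2, l2⟩ | ⟨c2, h2, l2⟩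
    · have := c2.len; rw [e'] at this; omega
    · rw [h1, h2, l1, l2, e, e']
      exact ⟨Relation.ReflTransGen.refl, Relation.ReflTransGen.refl⟩
    · have := c1.len; rw [e] at this; omega
    · have := c1.len; rw [e] at this; omega
  have hm := (hM.2.2 x y h e).1
  rcases hilo hM x with ⟨c1, h1, l1⟩ | ⟨c1, h1, l1⟩ <;>
    rcases hilo hM y with ⟨c2, h2, l2⟩ | ⟨c2, h2, l2⟩ <;> rw [h1, h2, l1, l2]
  · exact ⟨hm, h.1.1⟩
  · exact ⟨hm.trans c2.1.1, c1.1.1.trans hm⟩
  · exact ⟨h.1.1.trans c2.1.1, c1.1.1.trans h.1.1⟩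
  · exact ⟨h.1.1, hm⟩

lemma lift (hM : IsSpecial M) : ∀ d, ∀ x y : Itv u v, len y.1 - len x.1 = d → BrLe x.1 y.1 →
    BrLe (hi M x).1 (hi M y).1 ∧ BrLe (lo M x).1 (lo M y).1 := by
  intro d
  induction' d using Nat.strong_induction_on with d ih
  intro x y hd h
  by_cases e : x.1 = y.1
  · have : x = y := Subtype.ext e
    subst this
    exact ⟨Relation.ReflTransGen.refl, Relation.ReflTransGen.refl⟩
  by_cases hc : Cov x y
  · exact lift_cov hM hc
  have : ∃ z : Itv u v, BrLt x.1 z.1 ∧ BrLt z.1 y.1 := by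
    by_contra hz
    exact hc ⟨⟨h, e⟩, hz⟩
  obtain ⟨z, h1, h2⟩ := this
  have l1 := len_lt_of_brlt h1
  have l2 := len_lt_of_brlt h2
  obtain ⟨a1, a2⟩ := ih _ (by omega) x z rfl h1.1
  obtain ⟨b1, b2⟩ := ih _ (by omega) z y rfl h2.1
  exact ⟨a1.trans b1, a2.trans b2⟩

end special

/-- counting up-neighbours: if the only up-neighbour of `a` below `y` is `x` -/
lemma G_le_of_unique {a x y : Perm (Fin n)} (hx : Adj a x)
    (h : ∀ z, Step a z → BrLe z y → z = x) : G a y ≤ G a a + 2 := by
  obtain ⟨k, l, hkl, e⟩ := hx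
  have hx' : x = swap k l * a := by rw [← e]; group
  have : ∀ p q : Fin n, g a y p q ≤ g a a p q +
      ((if p = k then (if q = l then (1 : ℤ) else 0) else 0)
        + (if p = l then (if q = k then (1 : ℤ) else 0) else 0)) := by
    intro p q
    have hnn : (0 : ℤ) ≤ ((if p = k then (if q = l then (1 : ℤ) else 0) else 0)
        + (if p = l then (if q = k then (1 : ℤ) else 0) else 0)) := by
      split_ifs <;> omega
    unfold g
    by_cases h1 : Le (swap p q * a) a
    · rw [if_pos h1]; split_ifs <;> omega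
    by_cases h2 : Le (swap p q * a) y
    · have hpq : p ≠ q := by
        rintro rfl
        exact h1 (by rw [swap_self_mul]; exact Le.refl a)
      rcases swap_cases a hpq with s | s
      · have e1 := h _ s (br_of_le h2)
        rw [hx', mul_left_inj] at e1
        have e2 : swap k l p = q := by rw [← e1]; simp
        rw [if_pos h2, if_neg h1]
        by_cases c1 : p = k
        · subst c1
          simp at e2
          subst e2
          simp [hkl]
        by_cases c2 : p = l
        · subst c2
          simp at e2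
          subst e2
          simp [c1]
        rw [swap_apply_of_ne_of_ne c1 c2] at e2
        exact absurd e2 hpq
      · exact absurd (le_of_br s.le) h1
    · rw [if_neg h2, if_neg h1]; omega
  have := Finset.sum_le_sum fun p (_ : p ∈ univ) => Finset.sum_le_sum fun q (_ : q ∈ univ) =>
    this p q
  simp only [Finset.sum_add_distrib] at this
  unfold G
  simp at this
  omega

/-- intervals of length two have a second middle element -/
lemma diamond {a x y : Perm (Fin n)} (h1 : Step a x) (h2 : Step x y)
    (hl : len y = len a + 2) : ∃ z, Step a z ∧ BrLt z y ∧ z ≠ x := by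
  by_contra hc
  push Not at hc
  have : G a y ≤ G a a + 2 := by
    refine G_le_of_unique h1.adj fun z s1 s2 => hc z s1 ⟨s2, fun e => ?_⟩
    have a1 := (h1.adj : (x * a⁻¹).IsSwap).sign_eq
    have a2 := (h2.adj : (y * x⁻¹).IsSwap).sign_eq
    have a3 := (s1.adj : (z * a⁻¹).IsSwap).sign_eq
    have : z * a⁻¹ = (y * x⁻¹) * (x * a⁻¹) := by rw [e]; group
    rw [this, Perm.sign_mul, a1, a2] at a3
    simp at a3
  have h3 := G_mono (h1.le.trans h2.le) (Le.refl y)
  rw [G_top] at h3 this
  omega

end Pool.Agent.H8.Bru
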