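import Pool.Agent.H8.Zir2

namespace Pool.Agent.H8.Bru

open Equiv Finset

variable {n : ℕ} {u v : Perm (Fin n)} {M : Itv u v → Itv u v}

lemma M_ne (hM : IsSpecial M) {x y : Itv u v} (h : x.1 ≠ y.1) : (M x).1 ≠ (M y).1 := by
  intro e
  have : M x = M y := Subtype.ext e
  have := congrArg M this
  rw [hM.1, hM.1] at this
  exact h (by rw [this])

lemma Cov.step {x y : Itv u v} (h : Cov x y) : Step x.1 y.1 := step_of_len h.1 h.len.le

lemma adj_cov (hM : IsSpecial M) {x y : Itv u v} (h : Cov x y) : Adj (M x).1 (M y).1 := by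
  by_cases e : M x = y
  · have e' : M y = x := by rw [← e, hM.1]
    rw [e, e']; exact h.step.adj.symm
  have hm := hM.2.2 x y h e
  have hl := h.len
  have hl' := len_lt_of_brlt hm
  rcases hM.2.1 x with c1 | c1 <;> rcases hM.2.1 y with c2 | c2 <;> have l1 := c1.len <;>
    have l2 := c2.len
  · exact (step_of_len hm (by omega)).adj
  · omega
  swap
  · exact (step_of_len hm (by omega)).adj
  -- the hexagon
  obtain ⟨z, s1, s2, s3⟩ := diamond c1.step h.step (by omega)
  let x' : Itv u v := ⟨z, (M x).2.1.trans s1.le, s2.1.trans y.2.2⟩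
  have lz := s1.len_lt
  have lz' := len_lt_of_brlt s2
  have ca : Cov (M x) x' := cov_of_len (brlt_of_step s1) (by show len z ≤ _; omega)
  have hloa : lo M (M x) = M x := by
    rcases hilo hM (M x) with ⟨-, -, a⟩ | ⟨a, -, -⟩
    · exact a
    · have := a.len; rw [hM.1] at this; omega
  have hhib : hi M (M y) = M y := by
    rcases hilo hM (M y) with ⟨a, -, -⟩ | ⟨-, a, -⟩
    · have := a.len; rw [hM.1] at this; omega
    · exact a
  have k1 := (lift hM _ (M x) x' rfl s1.le).2
  have k2 := (lift hM _ x' (M y) rfl (s2.1.trans c2.1.1)).1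
  rw [hloa] at k1
  rw [hhib] at k2
  rcases hilo hM x' with ⟨c3, h3, -⟩ | ⟨c3, -, h3⟩
  swap
  · exfalso
    rw [h3] at k1
    have l3 : len z = len (M x').1 + 1 := c3.len
    have := eq_of_br_len k1 (by omega)
    exact M_ne hM (x := x) (y := x') (Ne.symm s3) this
  rw [h3] at k2
  have l3 : len (M x').1 = len z + 1 := c3.len
  have k3 := hM.2.2 _ _ ca (by rw [hM.1]; exact fun e => s3 (congrArg Subtype.val e).symm)
  rw [hM.1] at k3
  have k4 : BrLt (M x').1 (M y).1 := ⟨k2, fun e => by rw [e] at l3; omega⟩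
  have d3 : y.1 ≠ (M x').1 := by
    intro e
    have : M y = x' := by rw [Subtype.ext e, hM.1]
    have : len (M y).1 = len z := by rw [this]
    omega
  refine k22 (x := x.1) (x' := z) (y := y.1) (y' := (M x').1) (Ne.symm s3)
    (fun e => by rw [e] at l1; omega) (fun e => by have := congrArg len e; omega) d3
    c1.step.adj.symm h.step.adj (step_of_len k3 (by omega)).adj s1.adj.symm
    (step_of_len s2 (by omega)).adj c3.step.adj c2.step.adj (step_of_len k4 (by omega)).adj

lemma sub3 {k m l a b : Fin n} (hab : a ≠ b) (ha : a = k ∨ a = m ∨ a = l)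
    (hb : b = k ∨ b = m ∨ b = l) : (swap a b).support ⊆ {k, m, l} := by
  rw [Perm.support_swap hab]
  intro z hz
  simp only [mem_insert, mem_singleton] at hz ⊢
  rcases hz with rfl | rfl
  · exact ha
  · exact hb

lemma adj_step (hM : IsSpecial M) : ∀ d, ∀ x y : Itv u v, len y.1 - len x.1 = d → Step x.1 y.1 →
    Adj (M x).1 (M y).1 := by
  intro d
  induction' d using Nat.strong_induction_on with d ih
  intro x y hd h
  obtain ⟨k, l, hkl, hP, e⟩ := step_iff h
  by_cases hm : ∃ m : Fin n, (k : ℕ) < m ∧ (m : ℕ) < l ∧ P x.1 k < P x.1 m ∧ P x.1 m < P x.1 l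
  swap
  · have := len_exact x.1 hkl hP fun m a b c d => hm ⟨m, a, b, c, d⟩
    exact adj_cov hM (cov_of_len (brlt_of_step h) (by rw [e]; omega))
  obtain ⟨m, m1, m2, m3, m4⟩ := hm
  have ih' : ∀ p q : Itv u v, len x.1 ≤ len p.1 → len p.1 ≤ len y.1 → len x.1 ≤ len q.1 →
      len q.1 ≤ len y.1 → len q.1 - len p.1 < d → len p.1 - len q.1 < d → Adj p.1 q.1 →
      Adj (M p).1 (M q).1 := by
    intro p q _ _ _ _ h1 h2 ha
    rcases ha.cases with s | s
    · exact ih _ h1 p q rfl s
    · exact (ih _ h2 q p rfl s).symm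
  have ek : (m : ℕ) ≠ k := by omega
  have el : (m : ℕ) ≠ l := by omega
  have pk : P y.1 k = P x.1 l := by rw [e, P_swap_left]
  have pl : P y.1 l = P x.1 k := by rw [e, P_swap_right]
  have pm : P y.1 m = P x.1 m := by rw [e, P_swap_ne _ _ _ ek el]
  have sa := step_up x.1 m1 m3
  have sb := step_up x.1 m2 m4
  have sc := step_down y.1 m1 (by omega)
  have sd := step_down y.1 m2 (by omega)
  have up : ∀ p q : Fin n, (k : ℕ) ≤ p → (p : ℕ) < q → (q : ℕ) ≤ l → P x.1 k ≤ P x.1 p →
      P x.1 p < P x.1 q → P x.1 q ≤ P x.1 l → BrLe (swap p q * x.1) y.1 := by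
    intro p q _ _ _ _ _ _
    refine br_of_le fun i j => ?_
    rw [e]; unfold D; rw [R_swap, R_swap]
    unfold c; split_ifs <;> omega
  have dn : ∀ p q : Fin n, (k : ℕ) ≤ p → (p : ℕ) < q → (q : ℕ) ≤ l → P x.1 k ≤ P y.1 q →
      P y.1 q < P y.1 p → P y.1 p ≤ P x.1 l → BrLe x.1 (swap p q * y.1) := by
    intro p q _ _ _ _ _ _
    refine br_of_le fun i j => ?_
    unfold D; rw [R_swap]
    have := R_swap x.1 k l i j
    rw [← e] at this
    rw [this]
    unfold c; split_ifs <;> omega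
  have ua := up k m le_rfl m1 m2.le le_rfl m3 m4.le
  have ub := up m l m1.le m2 le_rfl m3.le m4 le_rfl
  have uc := dn k m le_rfl m1 m2.le (by omega) (by omega) (by omega)
  have ud := dn m l m1.le m2 le_rfl (by omega) (by omega) (by omega)
  let a : Itv u v := ⟨_, x.2.1.trans sa.le, ua.trans y.2.2⟩
  let b : Itv u v := ⟨_, x.2.1.trans sb.le, ub.trans y.2.2⟩
  let c' : Itv u v := ⟨_, x.2.1.trans uc, sc.le.trans y.2.2⟩
  let d' : Itv u v := ⟨_, x.2.1.trans ud, sd.le.trans y.2.2⟩
  have nkm : k ≠ m := fun e => ek (by rw [e])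
  have nml : m ≠ l := fun e => el (by rw [e])
  have nkl : k ≠ l := fun e => by rw [e] at hkl; omega
  have wa : (swap k m).IsSwap := ⟨k, m, nkm, rfl⟩
  have wb : (swap m l).IsSwap := ⟨m, l, nml, rfl⟩
  have wc : (swap k l).IsSwap := ⟨k, l, nkl, rfl⟩
  have qa : (swap k m).support ⊆ {k, m, l} := sub3 nkm (by simp) (by simp)
  have qb : (swap m l).support ⊆ {k, m, l} := sub3 nml (by simp) (by simp)
  have qc : (swap k l).support ⊆ {k, m, l} := sub3 nkl (by simp) (by simp)
  have cross : ∀ s t : Perm (Fin n), s.IsSwap → t.IsSwap → s.support ⊆ {k, m, l} →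
      t.support ⊆ {k, m, l} → Adj (s * x.1) (t * y.1) := by
    intro s t hs ht q1 q2
    have := three_swaps card_le_three ht wc hs q2 qc q1
    unfold Adj
    have e2 : t * y.1 * (s * x.1)⁻¹ = t * swap k l * s⁻¹ := by rw [e]; group
    rwa [e2, swap_inv' hs]
  have la : len x.1 < len a.1 := sa.len_lt
  have lb : len x.1 < len b.1 := sb.len_lt
  have lc : len c'.1 < len y.1 := sc.len_lt
  have ld : len d'.1 < len y.1 := sd.len_lt
  have ne_of : ∀ {s t : Perm (Fin n)} (z : ℕ), P s z ≠ P t z → s ≠ t :=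
    fun z hz e => hz (by rw [e])
  have la' : len a.1 < len y.1 := len_lt_of_brlt ⟨ua, ne_of k (by rw [P_swap_left]; omega)⟩
  have lb' : len b.1 < len y.1 := len_lt_of_brlt ⟨ub, ne_of l (by rw [P_swap_right]; omega)⟩
  have lc' : len x.1 < len c'.1 := len_lt_of_brlt ⟨uc, ne_of k (by rw [P_swap_left]; omega)⟩
  have ld' : len x.1 < len d'.1 := len_lt_of_brlt ⟨ud, ne_of l (by rw [P_swap_right]; omega)⟩
  have nab : a.1 ≠ b.1 := ne_of l (by
    show P (swap k m * x.1) l ≠ P (swap m l * x.1) l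
    rw [P_swap_right, P_swap_ne _ _ _ (by omega) (by omega)]; omega)
  have ncd : c'.1 ≠ d'.1 := ne_of l (by
    show P (swap k m * y.1) l ≠ P (swap m l * y.1) l
    rw [P_swap_right, P_swap_ne _ _ _ (by omega) (by omega)]; omega)
  have nxc : x.1 ≠ c'.1 := fun e => by rw [← e] at lc'; omega
  have nxd : x.1 ≠ d'.1 := fun e => by rw [← e] at ld'; omega
  refine k22 (x := (M a).1) (x' := (M b).1) (y := (M c').1) (y' := (M d').1) (M_ne hM nab)
    (M_ne hM nxc) (M_ne hM nxd) (M_ne hM ncd) ?_ ?_ ?_ ?_ ?_ ?_ ?_ ?_ <;>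
    refine ih' _ _ (by omega) (by omega) (by omega) (by omega) (by omega) (by omega) ?_
  · exact sa.adj.symm
  · exact cross _ _ wa wa qa qa
  · exact cross _ _ wa wb qa qb
  · exact sb.adj.symm
  · exact cross _ _ wb wa qb qa
  · exact cross _ _ wb wb qb qb
  · exact sc.adj
  · exact sd.adj

lemma adj_M (hM : IsSpecial M) {x y : Itv u v} (h : Adj x.1 y.1) : Adj (M x).1 (M y).1 := by
  rcases h.cases with s | s
  · exact adj_step hM _ x y rfl s
  · exact (adj_step hM _ y x rfl s).symm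

end Pool.Agent.H8.Bru
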