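import Pool.Agent.H8.Zir3

namespace Pool.Agent.H8.Bru

open Equiv Finset

variable {n : ℕ}

open Classical in
lemma count_adj (x : Perm (Fin n)) (Q : Perm (Fin n) → Prop) (hx : Q x) :
    ∑ a : Fin n, ∑ b : Fin n, (if Q (swap a b * x) then (1 : ℤ) else 0)
      = n + 2 * ({z : Perm (Fin n) | Adj x z ∧ Q z}.ncard : ℕ) := by
  set f : Fin n → Fin n → ℤ := fun a b => if Q (swap a b * x) then (1 : ℤ) else 0 with hf
  have h1 : ∀ a b : Fin n, f a b = (if a = b then 1 else 0) + c a b * f a b + c b a * f b a := by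
    intro a b
    by_cases hab : a = b
    · subst hab; simp only [hf, swap_self_mul, if_pos hx]; simp [c]
    have e1 : (a : ℕ) ≠ b := fun e => hab (Fin.ext e)
    have : f b a = f a b := by simp only [hf]; rw [swap_comm]
    rw [if_neg hab, this]
    unfold c; split_ifs <;> omega
  have h2 : ∑ a, ∑ b, f a b = n + 2 * ∑ a : Fin n, ∑ b : Fin n, c a b * f a b := by
    rw [Finset.sum_congr rfl fun a _ => Finset.sum_congr rfl fun b _ => h1 a b]
    simp only [Finset.sum_add_distrib]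
    rw [Finset.sum_comm (f := fun a b : Fin n => c b a * f b a)]
    simp
    ring
  have h3 : ∑ a : Fin n, ∑ b : Fin n, c a b * f a b
      = ((univ.filter (fun p : Fin n × Fin n => p.1 < p.2 ∧ Q (swap p.1 p.2 * x))).card : ℤ) := by
    rw [Finset.card_filter, ← Finset.univ_product_univ, Finset.sum_product]
    push_cast
    refine Finset.sum_congr rfl fun i _ => Finset.sum_congr rfl fun j _ => ?_
    simp only [hf]
    unfold c
    by_cases a1 : i < j <;> by_cases a2 : Q (swap i j * x) <;> simp [a1, a2]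
  have h4 : {z : Perm (Fin n) | Adj x z ∧ Q z}
      = (fun p : Fin n × Fin n => swap p.1 p.2 * x) ''
        ↑(univ.filter (fun p : Fin n × Fin n => p.1 < p.2 ∧ Q (swap p.1 p.2 * x))) := by
    ext t
    simp only [Set.mem_setOf_eq, Set.mem_image, Finset.coe_filter, Finset.mem_univ, true_and]
    constructor
    · rintro ⟨⟨a, b, hab, e⟩, hb⟩
      have ht : t = swap a b * x := by rw [← e]; group
      rcases lt_or_gt_of_ne hab with h' | h'
      · exact ⟨(a, b), ⟨h', ht ▸ hb⟩, ht.symm⟩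
      · rw [swap_comm] at ht
        exact ⟨(b, a), ⟨h', ht ▸ hb⟩, ht.symm⟩
    · rintro ⟨⟨a, b⟩, ⟨h1, h2⟩, rfl⟩
      exact ⟨adj_mul ⟨a, b, h1.ne, rfl⟩ x, h2⟩
  change ∑ a, ∑ b, f a b = _
  rw [h2, h3, h4, Set.InjOn.ncard_image, Set.ncard_coe_finset]
  rintro ⟨a, b⟩ hp ⟨a', b'⟩ hp' e
  simp only [Finset.coe_filter, Finset.mem_univ, true_and, Set.mem_setOf_eq] at hp hp'
  obtain ⟨rfl, rfl⟩ := swap_inj hp.1 hp'.1 (mul_right_cancel e)
  rfl

open Classical in
/-- number of neighbours above `u` -/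
noncomputable def Gs (u x : Perm (Fin n)) : ℤ :=
  ∑ a : Fin n, ∑ b : Fin n, (if Le u (swap a b * x) then (1 : ℤ) else 0)

open Classical in
lemma Gs_eq {u v x : Perm (Fin n)} (h1 : BrLe u x) (h2 : BrLe x v) :
    Gs u x + G x v = n + 2 * ({z : Perm (Fin n) | Adj x z ∧ (BrLe u z ∧ BrLe z v)}.ncard : ℕ)
      + n * n := by
  rw [← count_adj x (fun z => BrLe u z ∧ BrLe z v) ⟨h1, h2⟩]
  have : (n : ℤ) * n = ∑ _a : Fin n, ∑ _b : Fin n, (1 : ℤ) := by simp
  rw [this]
  unfold Gs G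
  simp only [← Finset.sum_add_distrib]
  refine Finset.sum_congr rfl fun a _ => Finset.sum_congr rfl fun b _ => ?_
  have hor : Le u (swap a b * x) ∨ Le (swap a b * x) v := by
    by_cases hab : a = b
    · subst hab; rw [swap_self_mul]; exact Or.inl (le_of_br h1)
    rcases swap_cases x hab with s | s
    · exact Or.inl (le_of_br (h1.trans s.le))
    · exact Or.inr (le_of_br (s.le.trans h2))
  have e : (BrLe u (swap a b * x) ∧ BrLe (swap a b * x) v)
      ↔ (Le u (swap a b * x) ∧ Le (swap a b * x) v) :=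
    ⟨fun h => ⟨le_of_br h.1, le_of_br h.2⟩, fun h => ⟨br_of_le h.1, br_of_le h.2⟩⟩
  unfold g
  by_cases c1 : Le u (swap a b * x) <;> by_cases c2 : Le (swap a b * x) v <;> simp [e, c1, c2]
  tauto

lemma deg_le {u v : Perm (Fin n)} {M : Itv u v → Itv u v} (hM : IsSpecial M) (x : Itv u v) :
    {z : Perm (Fin n) | Adj x.1 z ∧ (BrLe u z ∧ BrLe z v)}.ncard
      ≤ {z : Perm (Fin n) | Adj (M x).1 z ∧ (BrLe u z ∧ BrLe z v)}.ncard := by
  classical
  refine Set.ncard_le_ncard_of_injOn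
    (fun z => if h : BrLe u z ∧ BrLe z v then (M ⟨z, h⟩).1 else z) ?_ ?_ (Set.toFinite _)
  · rintro z ⟨h1, h2⟩
    simp only [dif_pos h2, Set.mem_setOf_eq]
    exact ⟨adj_M hM (x := x) (y := ⟨z, h2⟩) h1, (M ⟨z, h2⟩).2⟩
  · rintro z ⟨-, h2⟩ z' ⟨-, h2'⟩ e
    simp only [dif_pos h2, dif_pos h2'] at e
    by_contra hne
    exact M_ne hM (x := ⟨z, h2⟩) (y := ⟨z', h2'⟩) hne e

lemma Gs_le {u w : Perm (Fin n)} (hz : IsZircon u w) : ∀ d, ∀ v, len v = d → BrLe u v →
    BrLe v w → Gs u v ≤ Gs u u := by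
  intro d
  induction' d using Nat.strong_induction_on with d ih
  intro v hd h1 h2
  by_cases e : u = v
  · rw [← e]
  obtain ⟨M, hM⟩ := hz v ⟨h1, e⟩ h2
  let t : Itv u v := ⟨v, h1, Relation.ReflTransGen.refl⟩
  have hc : Cov (M t) t := by
    rcases hM.2.1 t with c1 | c1
    · have a1 : len (M t).1 = len v + 1 := c1.len
      have := len_le_of_br (M t).2.2
      omega
    · exact c1
  have hl : len v = len (M t).1 + 1 := hc.len
  have a1 := ih _ (by omega) (M t).1 rfl (M t).2.1 ((M t).2.2.trans h2)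
  have a2 := Gs_eq h1 (Relation.ReflTransGen.refl (a := v))
  have a3 := Gs_eq (M t).2.1 (M t).2.2
  have a4 : {z : Perm (Fin n) | Adj v z ∧ (BrLe u z ∧ BrLe z v)}.ncard ≤ _ := deg_le hM t
  have a5 : G (M t).1 v ≤ G (M t).1 (M t).1 + 2 := by
    refine G_le_of_unique (x := v) hc.step.adj fun z s1 s2 => eq_of_br_len s2 ?_
    have := s1.len_lt
    omega
  rw [G_top] at a2 a5
  omega

/-- right multiplication by the longest element -/
lemma P_rev (x : Perm (Fin n)) (v : Fin n) : P (x * Fin.revPerm) v = n - 1 - P x v := by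
  rw [P_fin, P_fin]
  simp only [mul_inv_rev, Perm.mul_apply]
  have : (Fin.revPerm : Perm (Fin n))⁻¹ = Fin.revPerm := rfl
  rw [this, Fin.revPerm_apply, Fin.val_rev]
  omega

lemma R_rev (x : Perm (Fin n)) (p q : ℕ) :
    R (x * Fin.revPerm) p q = ∑ v : Fin n, c v p - R x p (n - q) := by
  unfold R
  rw [← Finset.sum_sub_distrib]
  refine Finset.sum_congr rfl fun v _ => ?_
  rw [P_rev]
  have := P_lt x v.2
  unfold c; split_ifs <;> omega

lemma D_rev (x y : Perm (Fin n)) (p q : ℕ) :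
    D (y * Fin.revPerm) (x * Fin.revPerm) p q = D x y p (n - q) := by
  unfold D; rw [R_rev, R_rev]; ring

lemma le_rev {x y : Perm (Fin n)} : Le (y * Fin.revPerm) (x * Fin.revPerm) ↔ Le x y := by
  refine ⟨fun h p q => ?_, fun h p q => by rw [D_rev]; exact h _ _⟩
  by_cases hq : n ≤ q
  · rw [D_top_right x y p hq]
  · have := h p (n - q)
    rwa [D_rev, show n - (n - q) = q by omega] at this

lemma G_rev (u x : Perm (Fin n)) : G (x * Fin.revPerm) (u * Fin.revPerm) = Gs u x := by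
  unfold G Gs g
  refine Finset.sum_congr rfl fun a _ => Finset.sum_congr rfl fun b _ => ?_
  rw [← mul_assoc, le_rev]

theorem delanoy (u w : Perm (Fin (n + 1))) (huw : BrLt u w) (hz : IsZircon u w) :
    ∃ i : Fin n, BrLt (simple i * w) w ∧ (¬ BrLe u (simple i * w) ∨ BrLt u (simple i * u)) := by
  by_contra hc
  push Not at hc
  have h := le_of_br huw.1
  refine main_rank (u := w * Fin.revPerm) (w := u * Fin.revPerm) (le_rev.2 h)
    (fun e => huw.2 (mul_right_cancel e).symm)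
    (by rw [G_rev, G_rev]; exact Gs_le hz _ w rfl huw.1 Relation.ReflTransGen.refl)
    fun i hi ha => ?_
  have hi' : i < n := by omega
  have hkl : (((⟨i, hi'⟩ : Fin n).castSucc : Fin (n + 1)) : ℕ)
      < ((⟨i, hi'⟩ : Fin n).succ : Fin (n + 1)) := by simp
  have r1 : ∀ x : Perm (Fin (n + 1)), P (x * Fin.revPerm) i = n + 1 - 1 - P x i :=
    fun x => P_rev x ⟨i, by omega⟩
  have r2 : ∀ x : Perm (Fin (n + 1)), P (x * Fin.revPerm) (i + 1) = n + 1 - 1 - P x (i + 1) :=
    fun x => P_rev x ⟨i + 1, hi⟩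
  have ha' : P w (i + 1) < P w i := by rw [r1, r2] at ha; omega
  obtain ⟨h1, h2⟩ := hc ⟨i, hi'⟩ (brlt_of_step (step_down w hkl ha'))
  have h3 : Le (simple ⟨i, hi'⟩ * (w * Fin.revPerm)) (u * Fin.revPerm) := by
    rw [← mul_assoc, le_rev]; exact le_of_br h1
  refine ⟨fun x hx hx' => rect_of_le_swap h3 (by simp) (by simp) hx hx', ?_⟩
  rw [r1, r2]
  have b1 := P_lt u (show i < n + 1 by omega)
  rcases lt_trichotomy (P u i) (P u (i + 1)) with a | a | a
  · exact absurd (brlt_of_step (step_up u hkl a)) h2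
  · have := P_inj u (by omega) hi a
    omega
  · omega

end Pool.Agent.H8.Bru
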