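import Mathlib

namespace Pool.Agent.H8.Zs

open Polynomial Finset Filter Topology

def Mono (f : ℂ → ℂ) : Prop :=
  ∀ z w : ℂ, z.re = w.re → 0 < z.im → z.im ≤ w.im → ‖f z‖ ≤ ‖f w‖

def NZ (p : ℂ[X]) : Prop := ∀ z : ℂ, 0 < z.im → p.eval z ≠ 0

lemma mono_of_nz (p : ℂ[X]) (h : NZ p) : Mono fun z => p.eval z := by
  intro z w hre hz hw
  have hs := (IsAlgClosed.splits p).eq_prod_roots
  have hr : ∀ a ∈ p.roots, a.im ≤ 0 := by
    intro a ha
    by_contra hc
    exact h a (not_le.1 hc) ((mem_roots'.1 ha).2)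
  have key : ∀ M : Multiset ℂ, (∀ a ∈ M, a.im ≤ 0) →
      ‖((M.map fun a => X - C a).prod).eval z‖ ≤ ‖((M.map fun a => X - C a).prod).eval w‖ := by
    intro M
    induction M using Multiset.induction_on with
    | empty => simp
    | cons a M ih =>
      intro hM
      simp only [Multiset.map_cons, Multiset.prod_cons, eval_mul, eval_sub, eval_X, eval_C,
        norm_mul]
      have h1 := ih fun b hb => hM b (Multiset.mem_cons_of_mem hb)
      have h2 := hM a (Multiset.mem_cons_self _ _)
      have h3 : ‖z - a‖ ≤ ‖w - a‖ := by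
        rw [← sq_le_sq₀ (norm_nonneg _) (norm_nonneg _), Complex.sq_norm, Complex.sq_norm,
          Complex.normSq_apply, Complex.normSq_apply]
        simp only [Complex.sub_re, Complex.sub_im, hre]
        nlinarith
      gcongr
  have := key _ hr
  simp only
  rw [hs]
  simp only [eval_mul, eval_C, norm_mul]
  gcongr

lemma nz_of_mono (p : ℂ[X]) (h : Mono fun z => p.eval z) : p = 0 ∨ NZ p := by
  by_cases hn : NZ p
  · exact Or.inr hn
  left
  unfold NZ at hn
  push Not at hn
  obtain ⟨w, hw, h0⟩ := hn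
  apply eq_zero_of_infinite_isRoot
  have hinf : ((fun b : ℝ => (⟨w.re, b⟩ : ℂ)) '' Set.Ioc 0 w.im).Infinite :=
    (Set.Ioc_infinite hw).image fun a _ b _ e => by simpa using congrArg Complex.im e
  refine hinf.mono ?_
  rintro _ ⟨b, hb, rfl⟩
  have := h ⟨w.re, b⟩ w rfl hb.1 hb.2
  simp only [h0, norm_zero, norm_le_zero_iff] at this
  exact this

lemma mono_lim {α : Type*} {l : Filter α} [l.NeBot] (f : α → ℂ → ℂ) (g : ℂ → ℂ)
    (h : ∀ᶠ e in l, Mono (f e)) (ht : ∀ z, Tendsto (fun e => f e z) l (𝓝 (g z))) : Mono g := by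
  intro z w a b c
  exact le_of_tendsto_of_tendsto (ht z).norm (ht w).norm (h.mono fun e he => he z w a b c)

lemma Mono.smul {f : ℂ → ℂ} (h : Mono f) (c : ℂ) : Mono fun z => c * f z := by
  intro z w a b d
  simp only [norm_mul]
  exact mul_le_mul_of_nonneg_left (h z w a b d) (norm_nonneg _)

lemma laguerre (p : ℂ[X]) (n : ℕ) (hn0 : 0 < n) (hn : p.natDegree ≤ n) (h : NZ p) (v z : ℂ)
    (hv : 0 < v.im) (hz : 0 < z.im) : (n:ℂ) * p.eval z + (v - z) * p.derivative.eval z ≠ 0 := by
  have hp := h z hz
  have hs := (IsAlgClosed.splits p).eval_derivative_div_eval_of_ne_zero hp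
  have hr : ∀ a ∈ p.roots, a.im ≤ 0 := by
    intro a ha
    by_contra hc
    exact h a (not_le.1 hc) ((mem_roots'.1 ha).2)
  have key : ∀ M : Multiset ℂ, (∀ a ∈ M, a.im ≤ 0) → ∀ c : ℂ,
      z.im * (2 * (c.re * (M.map fun a => 1 / (z - a)).sum.re +
        c.im * (M.map fun a => 1 / (z - a)).sum.im) - M.card * (c.re^2 + c.im^2)) +
        (M.map fun a => 1 / (z - a)).sum.im ≤ 0 := by
    intro M
    induction M using Multiset.induction_on with
    | empty => simp
    | cons a M ih =>
      intro hM c
      have h1 := ih (fun b hb => hM b (Multiset.mem_cons_of_mem hb)) c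
      have h2 := hM a (Multiset.mem_cons_self _ _)
      have hne : z - a ≠ 0 := by
        intro e
        have := congrArg Complex.im e
        simp at this; linarith
      set ω := 1 / (z - a) with hω
      have e : ω * (z - a) = 1 := by rw [hω]; field_simp
      have e1 := congrArg Complex.re e
      have e2 := congrArg Complex.im e
      simp only [Complex.mul_re, Complex.mul_im, Complex.sub_re, Complex.sub_im, Complex.one_re,
        Complex.one_im] at e1 e2
      have h3 : ω.im = -(z.im - a.im) * (ω.re^2 + ω.im^2) := by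
        linear_combination (-ω.im) * e1 + ω.re * e2
      have h4 : z.im * (ω.re^2 + ω.im^2) + ω.im ≤ 0 := by
        nlinarith [mul_nonneg (neg_nonneg.2 h2) (add_nonneg (sq_nonneg ω.re) (sq_nonneg ω.im))]
      simp only [Multiset.map_cons, Multiset.sum_cons, Complex.add_re, Complex.add_im,
        Multiset.card_cons, ← hω]
      push_cast
      nlinarith [mul_nonneg hz.le (add_nonneg (sq_nonneg (ω.re - c.re)) (sq_nonneg (ω.im - c.im)))]
  intro h0
  set S := (p.roots.map fun a => 1 / (z - a)).sum with hS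
  have hn' : (0:ℝ) < n := by exact_mod_cast hn0
  have hk : (p.roots.card : ℝ) ≤ n := by exact_mod_cast (card_roots' p).trans hn
  have e : (n:ℂ) + (v - z) * S = 0 := by
    rw [← hs]; field_simp; linear_combination h0
  have h1 := key _ hr (S / n)
  rw [← hS] at h1
  simp only [Complex.div_natCast_re, Complex.div_natCast_im] at h1
  have e1 := congrArg Complex.re e
  have e2 := congrArg Complex.im e
  simp only [Complex.add_re, Complex.add_im, Complex.mul_re, Complex.mul_im, Complex.sub_re,
    Complex.sub_im, Complex.natCast_re, Complex.natCast_im, Complex.zero_re,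
    Complex.zero_im] at e1 e2
  have hS0 : 0 < S.re^2 + S.im^2 := by
    by_contra hc
    have a1 : S.re = 0 := by nlinarith [sq_nonneg S.re, sq_nonneg S.im]
    have a2 : S.im = 0 := by nlinarith [sq_nonneg S.re, sq_nonneg S.im]
    rw [a1, a2] at e1
    linarith
  have h3 : n * S.im = (v.im - z.im) * (S.re^2 + S.im^2) := by
    linear_combination S.im * e1 - S.re * e2
  set T := S.re^2 + S.im^2 with hT
  have h4 : z.im * (2 * (S.re / n * S.re + S.im / n * S.im) -
      p.roots.card * ((S.re / n)^2 + (S.im / n)^2)) + S.im =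
      (z.im * (2 * n - p.roots.card) * T + n * (n * S.im)) / n^2 := by
    rw [hT]; field_simp
  rw [h4, h3, div_nonpos_iff] at h1
  have h5 : 0 < z.im * (2 * n - p.roots.card) * T + n * ((v.im - z.im) * T) := by
    have a1 := mul_nonneg (mul_nonneg hz.le (sub_nonneg.2 hk)) hS0.le
    have a2 := mul_pos (mul_pos hn' hv) hS0
    nlinarith
  rcases h1 with h1 | h1
  · nlinarith [h1.2, pow_pos hn' 2]
  · linarith [h1.1]

section B
variable {R : Type*} [CommRing R]

noncomputable def B (N : ℕ) (s : ℕ → R) : R[X] :=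
  ∑ i ∈ range (N + 1), monomial i ((N.choose i : R) * s i)

lemma B_coeff (N : ℕ) (s : ℕ → R) (i : ℕ) : (B N s).coeff i = (N.choose i : R) * s i := by
  simp only [B, finset_sum_coeff, coeff_monomial, sum_ite_eq', mem_range]
  split_ifs with h
  · rfl
  · rw [Nat.choose_eq_zero_of_lt (by omega)]; simp

lemma B_deg (N : ℕ) (s : ℕ → R) : (B N s).natDegree ≤ N := by
  rw [natDegree_le_iff_coeff_eq_zero]
  intro i hi
  rw [B_coeff, Nat.choose_eq_zero_of_lt hi]; simp

lemma B_succ (N : ℕ) (s : ℕ → R) : B (N + 1) s = B N s + X * B N fun i => s (i + 1) := by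
  ext i
  rcases i with _ | i
  · simp [B_coeff]
  · simp only [coeff_add, coeff_X_mul, B_coeff, Nat.choose_succ_succ']
    push_cast; ring

lemma B_deriv (N : ℕ) (s : ℕ → R) :
    derivative (B (N + 1) s) = C ((N:R) + 1) * B N fun i => s (i + 1) := by
  ext i
  simp only [coeff_derivative, B_coeff, coeff_C_mul]
  have : ((N + 1 : ℕ) : R) * (N.choose i : R) = ((N + 1).choose (i + 1) : R) * ((i + 1 : ℕ) : R) := by
    exact_mod_cast congrArg (Nat.cast : ℕ → R) (Nat.add_one_mul_choose_eq N i)
  push_cast at this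
  linear_combination (-(s (i+1))) * this

lemma B_lin (N : ℕ) (s t : ℕ → R) (a b : R) :
    B N (fun i => a * s i + b * t i) = C a * B N s + C b * B N t := by
  ext i
  simp only [coeff_add, coeff_C_mul, B_coeff]; ring

lemma B_congr (N : ℕ) (s t : ℕ → R) (h : ∀ i ≤ N, s i = t i) : B N s = B N t := by
  unfold B
  refine Finset.sum_congr rfl fun i hi => ?_
  rw [h i (by simpa [Nat.lt_succ_iff] using hi)]

end B

lemma St_step (N : ℕ) (s : ℕ → ℂ) (h : NZ (B (N + 1) s)) (v : ℂ) (hv : 0 < v.im) :
    NZ (B N fun i => s i + v * s (i + 1)) := by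
  intro z hz h0
  apply laguerre (B (N + 1) s) (N + 1) (by omega) (B_deg _ _) h v z hv hz
  have := B_lin N s (fun i => s (i + 1)) 1 v
  simp only [one_mul] at this
  rw [this] at h0
  rw [B_deriv, B_succ]
  simp only [eval_add, eval_mul, eval_C, eval_X, map_one, one_mul] at h0 ⊢
  push_cast
  linear_combination ((N:ℂ) + 1) * h0

def W (N : ℕ) (s : ℕ → ℂ) : Prop := Mono fun z => (B N s).eval z

lemma W_step (N : ℕ) (s : ℕ → ℂ) (h : W (N + 1) s) (α : ℝ) (hα : 0 ≤ α) (v : ℂ) (hv : 0 ≤ v.im) :
    W N fun i => α * s i + v * s (i + 1) := by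
  rcases nz_of_mono _ h with h0 | h0
  · have hs : ∀ i ≤ N + 1, s i = 0 := by
      intro i hi
      have := B_coeff (N + 1) s i
      rw [h0, coeff_zero] at this
      have h2 : (((N + 1).choose i : ℕ) : ℂ) ≠ 0 := by exact_mod_cast (Nat.choose_pos hi).ne'
      exact (mul_eq_zero.1 this.symm).resolve_left h2
    unfold W
    rw [B_congr N _ (fun _ => 0) fun i hi => by simp [hs i (by omega), hs (i+1) (by omega)]]
    intro z w _ _ _
    simp [B]
  · refine mono_lim (l := 𝓝[>] (0:ℝ)) (fun e z =>
      ((α:ℂ) + e) * (B N s).eval z + (v + e * Complex.I) * (B N fun i => s (i + 1)).eval z) _ ?_ ?_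
    · filter_upwards [self_mem_nhdsWithin] with e he
      have he' : 0 < e := he
      have hne : ((α:ℂ) + e) ≠ 0 := by exact_mod_cast (by linarith : α + e ≠ 0)
      have := (mono_of_nz _ (St_step N s h0 ((v + e * Complex.I) / ((α + e : ℝ) : ℂ)) (by
        rw [Complex.div_ofReal_im]
        apply div_pos _ (by linarith)
        simp; linarith))).smul ((α:ℂ) + e)
      convert this using 2 with z
      have h1 := B_lin N s (fun i => s (i + 1)) 1 ((v + e * Complex.I) / ((α + e : ℝ) : ℂ))
      simp only [one_mul] at h1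
      rw [h1]
      simp only [eval_add, eval_mul, eval_C, map_one, one_mul]
      push_cast
      field_simp
    · intro z
      apply Tendsto.mono_left _ nhdsWithin_le_nhds
      rw [B_lin]
      simp only [eval_add, eval_mul, eval_C]
      apply Continuous.tendsto'
      · fun_prop
      · simp

lemma disc (s : ℕ → ℝ) (h : W 2 fun i => (s i : ℂ)) : s 0 * s 2 ≤ s 1 ^ 2 := by
  by_contra hc
  push Not at hc
  have h2 : s 2 ≠ 0 := by
    intro e; rw [e] at hc; nlinarith [sq_nonneg (s 1)]
  rcases nz_of_mono _ h with h0 | h0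
  · have := B_coeff 2 (fun i => (s i : ℂ)) 2
    rw [h0] at this
    simp at this
    exact h2 (by exact_mod_cast this.symm)
  · set r := Real.sqrt (s 0 * s 2 - s 1 ^ 2) with hr
    have hr0 : 0 < r := Real.sqrt_pos.2 (by linarith)
    have hr2 : r ^ 2 = s 0 * s 2 - s 1 ^ 2 := Real.sq_sqrt (by linarith)
    have ha : 0 < |s 2| := abs_pos.2 h2
    apply h0 ⟨-(s 1) / s 2, r / |s 2|⟩ (div_pos hr0 ha)
    simp only [B, Finset.sum_range_succ, Finset.sum_range_zero, eval_add, eval_monomial]
    apply Complex.ext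
    · simp [pow_two]
      have : r / |s 2| * (r / |s 2|) = r^2 / (s 2)^2 := by
        rw [← sq_abs (s 2)]; field_simp
      rw [this, hr2]; field_simp; ring
    · simp [pow_two]
      field_simp; ring

lemma pf (D F : ℂ[X]) (hD : D.Separable) (hF : F.natDegree ≤ D.natDegree) (z : ℂ)
    (hz : D.eval z ≠ 0) : F.eval z / D.eval z = F.coeff D.natDegree / D.leadingCoeff +
      ∑ a ∈ D.roots.toFinset, F.eval a / D.derivative.eval a * (z - a)⁻¹ := by
  classical
  have hD0 : D ≠ 0 := hD.ne_zero
  have hl : D.leadingCoeff ≠ 0 := leadingCoeff_ne_zero.2 hD0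
  have hnd := nodup_roots hD
  have hcard : D.roots.toFinset.card = D.natDegree := by
    rw [Multiset.toFinset_card_of_nodup hnd, (IsAlgClosed.splits D).natDegree_eq_card_roots]
  have hnod : D = C D.leadingCoeff * Lagrange.nodal D.roots.toFinset id := by
    conv_lhs => rw [(IsAlgClosed.splits D).eq_prod_roots]
    rw [Lagrange.nodal, Finset.prod_eq_multiset_prod, Multiset.toFinset_val, hnd.dedup]
    rfl
  set α := F.coeff D.natDegree / D.leadingCoeff with hα
  have hG : (F - C α * D).degree < D.roots.toFinset.card := by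
    rw [hcard, degree_lt_iff_coeff_zero]
    intro m hm
    rw [coeff_sub, coeff_C_mul]
    rcases hm.eq_or_lt with e | e
    · rw [← e, hα, coeff_natDegree]; field_simp; ring
    · rw [coeff_eq_zero_of_natDegree_lt (hF.trans_lt e), coeff_eq_zero_of_natDegree_lt e]; simp
  have h1 := Lagrange.eq_interpolate (v := id) (Set.injOn_id _) hG
  have hna : ∀ a ∈ D.roots.toFinset, z ≠ id a := by
    intro a ha e
    apply hz
    rw [e]
    exact (mem_roots'.1 (Multiset.mem_toFinset.1 ha)).2
  have h2 := Lagrange.eval_interpolate_not_at_node (fun i => (F - C α * D).eval (id i)) hna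
  rw [← h1] at h2
  have h3 : D.eval z = D.leadingCoeff * (Lagrange.nodal D.roots.toFinset id).eval z := by
    conv_lhs => rw [hnod]
    simp
  have h4 : ∀ a ∈ D.roots.toFinset, Lagrange.nodalWeight D.roots.toFinset id a * (z - id a)⁻¹ *
      (F - C α * D).eval (id a) =
      D.leadingCoeff * (F.eval a / D.derivative.eval a * (z - a)⁻¹) := by
    intro a ha
    have e1 : D.eval a = 0 := (mem_roots'.1 (Multiset.mem_toFinset.1 ha)).2
    have e2 : D.derivative.eval a =
        D.leadingCoeff * (Lagrange.nodal D.roots.toFinset id).derivative.eval a := by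
      conv_lhs => rw [hnod]
      simp
    rw [Lagrange.nodalWeight_eq_eval_derivative_nodal ha, e2]
    simp only [id, eval_sub, eval_mul, eval_C, e1]
    field_simp
    ring
  rw [Finset.sum_congr rfl h4, ← Finset.mul_sum, ← mul_assoc, mul_comm _ D.leadingCoeff,
    ← h3] at h2
  simp only [eval_sub, eval_mul, eval_C] at h2
  rw [div_eq_iff hz]
  linear_combination h2

end Pool.Agent.H8.Zs
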