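import Pool.Agent.H8.Zs1

namespace Pool.Agent.H8.Zs

open Polynomial Finset Filter Topology

variable {ι : Type*} [DecidableEq ι]

section ring
variable {R : Type*} [CommRing R]

def pol (s : ℕ → R) (A : Finset ι) (u : ι → R) : R := ∑ S ∈ A.powerset, s S.card * ∏ j ∈ S, u j

omit [DecidableEq ι] in
@[simp] lemma pol_empty (s : ℕ → R) (u : ι → R) : pol s ∅ u = s 0 := by simp [pol]

lemma pol_insert (s : ℕ → R) (A : Finset ι) (u : ι → R) (j : ι) (hj : j ∉ A) :
    pol s (insert j A) u = pol s A u + u j * pol (fun i => s (i + 1)) A u := by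
  unfold pol
  rw [Finset.sum_powerset_insert hj, Finset.mul_sum]
  congr 1
  refine Finset.sum_congr rfl fun S hS => ?_
  have : j ∉ S := fun h => hj (mem_powerset.1 hS h)
  rw [card_insert_of_notMem this, prod_insert this]; ring

lemma pol_erase (s : ℕ → R) (A : Finset ι) (u : ι → R) (j : ι) (hj : j ∈ A) :
    pol s A u = pol s (A.erase j) u + u j * pol (fun i => s (i + 1)) (A.erase j) u := by
  rw [← pol_insert s _ u j (notMem_erase j A), insert_erase hj]

omit [DecidableEq ι] in
lemma pol_lin (s t : ℕ → R) (a b : R) (A : Finset ι) (u : ι → R) :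
    pol (fun i => a * s i + b * t i) A u = a * pol s A u + b * pol t A u := by
  simp only [pol, Finset.mul_sum, ← Finset.sum_add_distrib]
  exact Finset.sum_congr rfl fun S _ => by ring

lemma pol_euler (s : ℕ → R) (A : Finset ι) (u : ι → R) :
    pol (fun i => (i:R) * s i) A u = ∑ j ∈ A, u j * pol (fun i => s (i + 1)) (A.erase j) u := by
  induction A using Finset.induction_on generalizing s with
  | empty => simp
  | insert k A hk ih =>
    rw [pol_insert _ _ _ _ hk, sum_insert hk, erase_insert hk, ih]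
    have e : pol (fun i => ((i + 1 : ℕ) : R) * s (i + 1)) A u =
        pol (fun i => (i:R) * s (i + 1)) A u + pol (fun i => s (i + 1)) A u := by
      have := pol_lin (fun i => (i:R) * s (i + 1)) (fun i => s (i + 1)) 1 1 A u
      simp only [one_mul] at this
      rw [← this]
      congr 1
      ext i; push_cast; ring
    rw [e, ih (fun i => s (i + 1))]
    have e2 : ∀ j ∈ A, u j * pol (fun i => s (i + 1)) ((insert k A).erase j) u =
        u j * pol (fun i => s (i + 1)) (A.erase j) u +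
        u k * (u j * pol (fun i => s (i + 1 + 1)) (A.erase j) u) := by
      intro j hj
      have hne : k ≠ j := fun e => hk (e ▸ hj)
      rw [erase_insert_of_ne hne, pol_insert _ _ _ _ (fun h => hk (mem_of_mem_erase h))]
      ring
    rw [Finset.sum_congr rfl e2, Finset.sum_add_distrib, ← Finset.mul_sum]
    ring

omit [DecidableEq ι] in
lemma map_pol {S : Type*} [CommRing S] (φ : R →+* S) (s : ℕ → R) (A : Finset ι) (u : ι → R) :
    φ (pol s A u) = pol (fun i => φ (s i)) A (fun j => φ (u j)) := by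
  simp [pol, map_sum, map_prod]

noncomputable def PP (s : ℕ → R) (A : Finset ι) (ρ : ι → R) : R[X] :=
  ∑ S ∈ A.powerset, monomial S.card (s S.card * ∏ j ∈ S, ρ j)

omit [DecidableEq ι] in
lemma PP_eval (s : ℕ → R) (A : Finset ι) (ρ : ι → R) (z : R) :
    (PP s A ρ).eval z = pol s A fun j => z * ρ j := by
  simp only [PP, pol, eval_finset_sum, eval_monomial, prod_mul_distrib, prod_const]
  exact Finset.sum_congr rfl fun S _ => by ring

omit [DecidableEq ι] in
lemma PP_map {S : Type*} [CommRing S] (φ : R →+* S) (s : ℕ → R) (A : Finset ι) (ρ : ι → R) :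
    (PP s A ρ).map φ = PP (fun i => φ (s i)) A (fun j => φ (ρ j)) := by
  simp [PP, Polynomial.map_sum, map_prod]

omit [DecidableEq ι] in
lemma PP_coeff (s : ℕ → R) (A : Finset ι) (ρ : ι → R) (i : ℕ) :
    (PP s A ρ).coeff i = s i * (PP (fun _ => 1) A ρ).coeff i := by
  simp only [PP, finset_sum_coeff, coeff_monomial, Finset.mul_sum]
  refine Finset.sum_congr rfl fun S _ => ?_
  split_ifs with h
  · rw [h]; ring
  · simp

omit [DecidableEq ι] in
lemma PP_deg (s : ℕ → R) (A : Finset ι) (ρ : ι → R) : (PP s A ρ).natDegree ≤ A.card := by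
  unfold PP
  refine natDegree_sum_le_of_forall_le _ _ fun S hS => ?_
  exact (natDegree_monomial_le _).trans (card_le_card (mem_powerset.1 hS))

lemma PP_one (A : Finset ι) (ρ : ι → R) :
    PP (fun _ => 1) A ρ = ∏ j ∈ A, (1 + C (ρ j) * X) := by
  rw [Finset.prod_one_add]
  unfold PP
  refine Finset.sum_congr rfl fun S _ => ?_
  rw [prod_mul_distrib, prod_const, ← map_prod, one_mul, C_mul_X_pow_eq_monomial]

omit [DecidableEq ι] in
lemma PP_const (s : ℕ → R) (A : Finset ι) : PP s A (fun _ => 1) = B A.card s := by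
  unfold PP B
  simp only [prod_const_one, mul_one]
  rw [Finset.sum_powerset_apply_card (fun i => monomial i (s i))]
  refine Finset.sum_congr rfl fun i _ => ?_
  rw [← map_nsmul, nsmul_eq_mul]

omit [DecidableEq ι] in
lemma deriv_XPP (s : ℕ → R) (A : Finset ι) (ρ : ι → R) :
    derivative (X * PP s A ρ) = PP (fun i => ((i:R) + 1) * s i) A ρ := by
  ext i
  rw [coeff_derivative, coeff_X_mul, PP_coeff, PP_coeff (fun i => ((i:R) + 1) * s i)]
  ring

end ring

lemma W_red (A : Finset ι) (u : ι → ℂ) : ∀ (N : ℕ) (s : ℕ → ℂ), W (N + A.card) s →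
    (∀ j ∈ A, 0 ≤ (u j).im) → W N fun i => pol (fun k => s (k + i)) A u := by
  induction A using Finset.induction_on with
  | empty => intro N s h _; simpa using h
  | insert j A hj ih =>
    intro N s h hu
    rw [card_insert_of_notMem hj, show N + (A.card + 1) = N + 1 + A.card by ring] at h
    have h1 := ih (N + 1) s h fun k hk => hu k (mem_insert_of_mem hk)
    have h2 := W_step N _ h1 1 zero_le_one (u j) (hu j (mem_insert_self _ _))
    convert h2 using 2 with i
    rw [pol_insert _ _ _ _ hj]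
    simp only [Complex.ofReal_one, one_mul]
    congr 3
    ext k
    congr 1; ring

lemma St_red (A : Finset ι) (u : ι → ℂ) : ∀ (N : ℕ) (s : ℕ → ℂ), NZ (B (N + A.card) s) →
    (∀ j ∈ A, 0 < (u j).im) → NZ (B N fun i => pol (fun k => s (k + i)) A u) := by
  induction A using Finset.induction_on with
  | empty => intro N s h _; simpa using h
  | insert j A hj ih =>
    intro N s h hu
    rw [card_insert_of_notMem hj, show N + (A.card + 1) = N + 1 + A.card by ring] at h
    have h1 := ih (N + 1) s h fun k hk => hu k (mem_insert_of_mem hk)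
    have h2 := St_step N _ h1 (u j) (hu j (mem_insert_self _ _))
    convert h2 using 3 with i
    rw [pol_insert _ _ _ _ hj]
    congr 3
    ext k
    congr 1; ring

lemma pol_ne (A : Finset ι) (u : ι → ℂ) (s : ℕ → ℂ) (h : NZ (B A.card s))
    (hu : ∀ j ∈ A, 0 < (u j).im) : pol s A u ≠ 0 := by
  have := St_red A u 0 s (by simpa using h) hu Complex.I (by simp)
  simpa [B] using this

lemma disc_pol (A : Finset ι) (u : ι → ℝ) (s : ℕ → ℝ) (h : W (2 + A.card) fun i => (s i : ℂ)) :
    pol s A u * pol (fun k => s (k + 2)) A u ≤ pol (fun k => s (k + 1)) A u ^ 2 := by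
  have h1 := W_red A (fun j => (u j : ℂ)) 2 _ h (by simp)
  refine disc (fun i => pol (fun k => s (k + i)) A u) ?_
  convert h1 using 2 with i
  exact map_pol Complex.ofRealHom _ _ _

lemma same_sign (A : Finset ι) (u : ι → ℝ) (c : ℕ → ℝ) (h : W A.card fun i => (c i : ℂ))
    (h0 : pol c A u = 0) (j k : ι) (hj : j ∈ A) (hk : k ∈ A) :
    0 ≤ pol (fun i => c (i + 1)) (A.erase j) u * pol (fun i => c (i + 1)) (A.erase k) u := by
  by_cases e : j = k
  · rw [e]; exact mul_self_nonneg _
  have hk' : k ∈ A.erase j := mem_erase.2 ⟨Ne.symm e, hk⟩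
  have hj' : j ∈ A.erase k := mem_erase.2 ⟨e, hj⟩
  have hc : A.card = 2 + ((A.erase j).erase k).card := by
    rw [card_erase_of_mem hk', card_erase_of_mem hj]
    have := card_pos.2 ⟨k, hk'⟩
    rw [card_erase_of_mem hj] at this
    omega
  rw [hc] at h
  have h1 := disc_pol _ u c h
  rw [pol_erase c A u j hj, pol_erase c _ u k hk', pol_erase _ _ u k hk'] at h0
  rw [pol_erase _ _ u k hk', pol_erase _ _ u j hj', erase_right_comm (a := k)]
  set m0 := pol c ((A.erase j).erase k) u
  set m1 := pol (fun i => c (i + 1)) ((A.erase j).erase k) u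
  set m2 := pol (fun i => c (i + 2)) ((A.erase j).erase k) u
  have : (m1 + u k * m2) * (m1 + u j * m2) = m1 ^ 2 - m0 * m2 := by
    linear_combination m2 * h0
  change 0 ≤ (m1 + u k * m2) * (m1 + u j * m2)
  rw [this]; linarith

lemma cauchy (A : Finset ι) (u ψ : ι → ℝ) (h : ∀ j ∈ A, ∀ k ∈ A, 0 ≤ ψ j * ψ k) :
    (∑ j ∈ A, u j * ψ j) ^ 2 ≤ (∑ j ∈ A, u j ^ 2 * ψ j) * ∑ j ∈ A, ψ j := by
  have h1 : 0 ≤ ∑ j ∈ A, ∑ k ∈ A, ψ j * ψ k * (u j - u k) ^ 2 :=
    sum_nonneg fun j hj => sum_nonneg fun k hk => mul_nonneg (h j hj k hk) (sq_nonneg _)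
  have h2 : ∑ j ∈ A, ∑ k ∈ A, ψ j * ψ k * (u j - u k) ^ 2 =
      (∑ j ∈ A, u j ^ 2 * ψ j) * (∑ j ∈ A, ψ j) + (∑ j ∈ A, ψ j) * (∑ j ∈ A, u j ^ 2 * ψ j) -
        2 * ((∑ j ∈ A, u j * ψ j) * (∑ j ∈ A, u j * ψ j)) := by
    simp only [Finset.sum_mul_sum]
    simp only [Finset.mul_sum, ← Finset.sum_add_distrib, ← Finset.sum_sub_distrib]
    exact Finset.sum_congr rfl fun j _ => Finset.sum_congr rfl fun k _ => by ring
  nlinarith

noncomputable def tt (s : ℕ → ℝ) (i : ℕ) : ℝ := s i / (1 - i)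

lemma tt_mul (s : ℕ → ℝ) (h1 : s 1 = 0) (i : ℕ) : (1 - (i:ℝ)) * tt s i = s i := by
  unfold tt
  by_cases e : i = 1
  · subst e; simp [h1]
  · have : (1 - (i:ℝ)) ≠ 0 := by
      intro h
      apply e
      exact_mod_cast (sub_eq_zero.1 h).symm
    field_simp

noncomputable def FF (s : ℕ → ℝ) (A : Finset ι) (ρ : ι → ℝ) : ℝ[X] :=
  PP (tt s) A ρ - C (∑ j ∈ A, ρ j) * (X * PP (fun i => tt s (i + 1)) A ρ)

noncomputable def DD (s : ℕ → ℝ) (A : Finset ι) (ρ : ι → ℝ) : ℝ[X] :=
  X * PP (fun i => tt s (i + 2)) A ρ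

lemma FF_eval (s : ℕ → ℝ) (h1 : s 1 = 0) (A : Finset ι) (ρ : ι → ℝ) (z : ℝ) :
    (FF s A ρ).eval z = pol s A (fun j => z * ρ j) -
      ∑ j ∈ A, (z * ρ j) ^ 2 * pol (fun i => tt s (i + 2)) (A.erase j) fun j => z * ρ j := by
  simp only [FF, eval_sub, eval_mul, eval_C, eval_X, PP_eval]
  set u := fun j => z * ρ j with hu
  have e1 : (∑ j ∈ A, ρ j) * (z * pol (fun i => tt s (i + 1)) A u) =
      pol (fun i => (i:ℝ) * tt s i) A u +
      ∑ j ∈ A, (z * ρ j) ^ 2 * pol (fun i => tt s (i + 2)) (A.erase j) u := by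
    rw [pol_euler, Finset.sum_mul, ← Finset.sum_add_distrib]
    refine Finset.sum_congr rfl fun j hj => ?_
    rw [pol_erase _ A u j hj]
    simp only [hu]
    ring
  have e2 : pol s A u = pol (tt s) A u - pol (fun i => (i:ℝ) * tt s i) A u := by
    have := pol_lin (tt s) (fun i => (i:ℝ) * tt s i) 1 (-1) A u
    rw [one_mul, neg_one_mul, ← sub_eq_add_neg] at this
    rw [← this]
    congr 1
    ext i
    rw [← tt_mul s h1 i]; ring
  rw [e1, e2]; ring

lemma DD_deriv (s : ℕ → ℝ) (h1 : s 1 = 0) (A : Finset ι) (ρ : ι → ℝ) (z : ℝ) :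
    (DD s A ρ).derivative.eval z = - pol (fun i => s (i + 2)) A fun j => z * ρ j := by
  rw [DD, deriv_XPP, PP_eval]
  have := pol_lin (fun i => s (i + 2)) (fun i => s (i + 2)) (-1) 0 A fun j => z * ρ j
  rw [zero_mul, add_zero, neg_one_mul] at this
  rw [← this]
  congr 1
  ext i
  rw [← tt_mul s h1 (i + 2)]; push_cast; ring

lemma m1_eq (s : ℕ → ℝ) (h1 : s 1 = 0) (A : Finset ι) (u : ι → ℝ) :
    pol (fun i => s (i + 1)) A u =
      - ∑ j ∈ A, u j * pol (fun i => tt s (i + 2)) (A.erase j) u := by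
  have h := pol_euler (fun i => tt s (i + 1)) A u
  have := pol_lin (fun i => (i:ℝ) * tt s (i + 1)) (fun i => s i) (-1) 0 A u
  rw [zero_mul, add_zero, neg_one_mul, h] at this
  rw [← this]
  congr 1
  ext i
  rw [← tt_mul s h1 (i + 1)]; push_cast; ring

lemma keyK (s : ℕ → ℝ) (h1 : s 1 = 0) (A : Finset ι) (ρ : ι → ℝ) (hρ : ∀ j ∈ A, 0 ≤ ρ j)
    (hs : W (2 + A.card) fun i => (s i : ℂ)) (hc : W A.card fun i => (tt s (i + 2) : ℂ))
    (z : ℝ) (hz : (DD s A ρ).eval z = 0) :
    0 ≤ (FF s A ρ).eval z * (DD s A ρ).derivative.eval z := by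
  rw [FF_eval s h1, DD_deriv s h1]
  set u := fun j => z * ρ j with hu
  have d := disc_pol A u s hs
  rw [m1_eq s h1] at d
  simp only [DD, eval_mul, eval_X, PP_eval, mul_eq_zero] at hz
  rcases hz with hz | hz
  · have : ∀ j, u j = 0 := fun j => by simp [hu, hz]
    simp only [this, zero_mul, sum_const_zero] at d
    simp only [hz, zero_mul]
    simp only [ne_eq, OfNat.ofNat_ne_zero, not_false_eq_true, zero_pow, zero_mul, sum_const_zero]
    nlinarith
  · rw [← hu] at hz
    set ψ := fun j => pol (fun i => tt s (i + 2)) (A.erase j) u with hψ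
    set δ := fun j => pol (fun i => tt s (i + 1 + 2)) (A.erase j) u with hδ
    have e1 : ∀ j ∈ A, ψ j = - (u j * δ j) := by
      intro j hj
      have := pol_erase (fun i => tt s (i + 2)) A u j hj
      rw [hz] at this
      simp only [hψ, hδ]; linarith
    have e2 : pol (fun i => s (i + 2)) A u = ∑ j ∈ A, ψ j := by
      have h := pol_euler (fun i => tt s (i + 2)) A u
      have := pol_lin (fun i => (i:ℝ) * tt s (i + 2)) (fun i => tt s (i + 2)) (-1) (-1) A u
      rw [h, hz, mul_zero, add_zero] at this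
      rw [Finset.sum_congr rfl e1, Finset.sum_neg_distrib, ← neg_one_mul, ← this]
      congr 1
      ext i
      rw [← tt_mul s h1 (i + 2)]; push_cast; ring
    have e3 := cauchy A u ψ (by
      intro j hj k hk
      rw [e1 j hj, e1 k hk]
      have a1 := same_sign A u (fun i => tt s (i + 2)) hc hz j k hj hk
      have a2 := mul_nonneg (mul_nonneg (mul_self_nonneg z) (mul_nonneg (hρ j hj) (hρ k hk))) a1
      simp only [hu, hδ] at a2 ⊢
      nlinarith)
    rw [e2] at d ⊢
    change 0 ≤ (pol s A u - ∑ j ∈ A, u j ^ 2 * ψ j) * - ∑ j ∈ A, ψ j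
    change _ ≤ (- ∑ j ∈ A, u j * ψ j) ^ 2 at d
    nlinarith

lemma W_c (s : ℕ → ℝ) (h1 : s 1 = 0) (N : ℕ) (hs : W (2 + N) fun i => (s i : ℂ)) :
    W N fun i => (tt s (i + 2) : ℂ) := by
  rw [show 2 + N = N + 1 + 1 by ring] at hs
  have h := W_step _ _ hs 0 le_rfl 1 (by simp)
  have e : B (N + 1) (fun i => ((0:ℝ):ℂ) * (s i : ℂ) + 1 * (s (i + 1) : ℂ)) =
      C (-((N:ℂ) + 1)) * (X * B N fun i => (tt s (i + 2) : ℂ)) := by
    ext i
    rw [coeff_C_mul, B_coeff]
    rcases i with _ | i
    · simp [h1]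
    · rw [coeff_X_mul, B_coeff]
      have a1 : ((N + 1 : ℕ) : ℂ) * (N.choose i : ℂ) =
          ((N + 1).choose (i + 1) : ℂ) * ((i + 1 : ℕ) : ℂ) := by
        exact_mod_cast congrArg (Nat.cast : ℕ → ℂ) (Nat.add_one_mul_choose_eq N i)
      have a2 : ((1 - ((i + 2 : ℕ) : ℝ)) * tt s (i + 2) : ℝ) = s (i + 2) := tt_mul s h1 (i + 2)
      have a3 := congrArg (fun x : ℝ => (x:ℂ)) a2
      push_cast at a1 a3 ⊢
      linear_combination (tt s (i + 2) : ℂ) * a1 - ((N + 1).choose (i + 1) : ℂ) * a3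
  rcases nz_of_mono _ h with h0 | h0
  · rw [e] at h0
    have hN : (-((N:ℂ) + 1)) ≠ 0 := by
      rw [neg_ne_zero]; exact_mod_cast Nat.succ_ne_zero N
    have : (B N fun i => (tt s (i + 2) : ℂ)) = 0 := by
      exact (mul_eq_zero.1 ((mul_eq_zero.1 h0).resolve_left (C_ne_zero.2 hN))).resolve_left X_ne_zero
    unfold W
    rw [this]
    intro z w _ _ _; simp
  · apply mono_of_nz
    intro z hz h2
    apply h0 z hz
    rw [e]; simp [h2]

noncomputable def QQ (s : ℕ → ℝ) (A : Finset ι) (ρ : ι → ℝ) (lam : ℝ) : ℝ[X] :=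
  FF s A ρ - C lam * (X * DD s A ρ)

lemma gen (s : ℕ → ℝ) (h0 : s 0 ≠ 0) (h1 : s 1 = 0) (A : Finset ι) (ρ : ι → ℝ)
    (hρ : ∀ j ∈ A, 0 < ρ j) (hs : W (2 + A.card) fun i => (s i : ℂ)) (lam : ℝ) (hl : 0 ≤ lam)
    (hsep : (DD s A ρ).Separable) (hdeg : (DD s A ρ).natDegree = A.card + 1) :
    NZ ((QQ s A ρ lam).map Complex.ofRealHom) := by
  have hc := W_c s h1 _ hs
  set D := (DD s A ρ).map Complex.ofRealHom with hD
  set F := (FF s A ρ).map Complex.ofRealHom with hF
  have hDsep : D.Separable := hsep.map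
  have hDdeg : D.natDegree = A.card + 1 := by
    rw [hD, natDegree_map_eq_of_injective Complex.ofReal_injective, hdeg]
  have hFdeg : F.natDegree ≤ D.natDegree := by
    rw [hDdeg]
    refine natDegree_map_le.trans ((natDegree_sub_le _ _).trans (max_le
      ((PP_deg _ _ _).trans (by omega)) ((natDegree_C_mul_le _ _).trans
      (natDegree_mul_le.trans ?_))))
    have := PP_deg (fun i => tt s (i + 1)) A ρ
    have := natDegree_X_le (R := ℝ)
    omega
  have hcN : NZ (B A.card fun i => (tt s (i + 2) : ℂ)) := by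
    refine (nz_of_mono _ hc).resolve_left fun h => ?_
    have a1 := B_coeff A.card (fun i => (tt s (i + 2) : ℂ)) A.card
    rw [h] at a1
    simp only [coeff_zero, Nat.choose_self, Nat.cast_one, one_mul] at a1
    have a2 : tt s (A.card + 2) = 0 := by exact_mod_cast a1.symm
    have a3 : (DD s A ρ).coeff (A.card + 1) = 0 := by
      rw [DD, coeff_X_mul, PP_coeff, a2, zero_mul]
    rw [← hdeg, coeff_natDegree, leadingCoeff_eq_zero] at a3
    exact hsep.ne_zero a3
  have hDH : ∀ z : ℂ, 0 < z.im → D.eval z ≠ 0 := by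
    intro z hz
    simp only [hD, DD, Polynomial.map_mul, map_X, PP_map, eval_mul, eval_X, PP_eval]
    refine mul_ne_zero (fun e => by rw [e] at hz; simp at hz) (pol_ne A _ _ hcN fun j hj => ?_)
    simp only [Complex.ofRealHom_eq_coe, Complex.mul_im, Complex.ofReal_re, Complex.ofReal_im,
      mul_zero, zero_add]
    exact mul_pos hz (hρ j hj)
  have ev : ∀ (p : ℝ[X]) (r : ℝ), (p.map Complex.ofRealHom).eval (r:ℂ) = ((p.eval r : ℝ) : ℂ) :=
    fun p r => by
      rw [eval_map]; exact eval₂_at_apply Complex.ofRealHom r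
  have hreal : ∀ a ∈ D.roots.toFinset, ∃ r : ℝ, a = r ∧ (DD s A ρ).eval r = 0 := by
    intro a ha
    have ha0 : D.eval a = 0 := (mem_roots'.1 (Multiset.mem_toFinset.1 ha)).2
    have him : a.im = 0 := by
      rcases lt_trichotomy a.im 0 with h | h | h
      · exfalso
        apply hDH (starRingEnd ℂ a) (by simpa using h)
        have := aeval_conj (DD s A ρ) a
        simp only [aeval_def, ← eval_map] at this
        change D.eval _ = starRingEnd ℂ (D.eval a) at this
        rw [this, ha0, map_zero]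
      · exact h
      · exact absurd ha0 (hDH a h)
    have e : a = (a.re : ℂ) := Complex.ext (by simp) (by simp [him])
    refine ⟨a.re, e, ?_⟩
    rw [e, hD, ev] at ha0
    exact_mod_cast ha0
  intro z hz hq
  have hp := pf D F hDsep hFdeg z (hDH z hz)
  have hq' : F.eval z / D.eval z = lam * z := by
    rw [div_eq_iff (hDH z hz)]
    simp only [QQ, Polynomial.map_sub, Polynomial.map_mul, map_C, map_X, eval_sub, eval_mul,
      eval_C, eval_X, Complex.ofRealHom_eq_coe] at hq
    linear_combination hq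
  have him := congrArg Complex.im (hq'.symm.trans hp)
  have hα : (F.coeff D.natDegree / D.leadingCoeff).im = 0 := by
    rw [leadingCoeff, hF, hD, coeff_map, coeff_map]
    simp only [Complex.ofRealHom_eq_coe, ← Complex.ofReal_div, Complex.ofReal_im]
  have hterm : ∀ r : ℝ, (F.eval (r:ℂ) / D.derivative.eval (r:ℂ) * (z - r)⁻¹).im =
      - ((FF s A ρ).eval r / (DD s A ρ).derivative.eval r * (z.im / Complex.normSq (z - r))) := by
    intro r
    rw [hD, derivative_map, hF, ev, ev, ← Complex.ofReal_div, Complex.im_ofReal_mul,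
      Complex.inv_im]
    simp; ring
  have hdiv : ∀ a b : ℝ, 0 ≤ a * b → 0 ≤ a / b := fun a b h => by
    rw [div_nonneg_iff]; rcases mul_nonneg_iff.1 h with h | h <;> tauto
  have hneg : (∑ a ∈ D.roots.toFinset, F.eval a / D.derivative.eval a * (z - a)⁻¹).im < 0 := by
    rw [Complex.im_sum]
    apply Finset.sum_neg'
    · intro a ha
      obtain ⟨r, rfl, hr⟩ := hreal a ha
      rw [hterm, neg_nonpos]
      exact mul_nonneg (hdiv _ _ (keyK s h1 A ρ (fun j hj => (hρ j hj).le) hs hc r hr))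
        (div_nonneg hz.le (Complex.normSq_nonneg _))
    · have hr : (DD s A ρ).eval 0 = 0 := by simp [DD]
      refine ⟨((0:ℝ):ℂ), Multiset.mem_toFinset.2 (mem_roots'.2 ⟨hDsep.ne_zero, ?_⟩), ?_⟩
      · rw [IsRoot, hD, ev, hr]; simp
      · rw [hterm, neg_lt_zero]
        refine mul_pos (lt_of_le_of_ne
          (hdiv _ _ (keyK s h1 A ρ (fun j hj => (hρ j hj).le) hs hc 0 hr)) (Ne.symm ?_))
          (div_pos hz (Complex.normSq_pos.2 fun e => by
            have := congrArg Complex.im e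
            simp at this; linarith))
        refine div_ne_zero ?_ ?_
        · rw [← coeff_zero_eq_eval_zero]
          simp only [FF, coeff_sub, coeff_C_mul, mul_coeff_zero, coeff_X_zero, zero_mul, mul_zero,
            sub_zero]
          rw [PP_coeff, PP_one, coeff_zero_eq_eval_zero, eval_prod]
          simp [tt, h0]
        · exact hsep.eval₂_derivative_ne_zero (RingHom.id ℝ) hr
  simp only [Complex.add_im, hα, Complex.im_ofReal_mul] at him
  nlinarith [mul_nonneg hl hz.le]

end Pool.Agent.H8.Zs
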