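import Pool.Agent.H8.Zs2

namespace Pool.Agent.H8.Zs

open Polynomial Finset Filter Topology

noncomputable def Qf (n : ℕ) (G H : ℝ[X]) (z : ℂ) : ℂ :=
  ∑ i ∈ range (n + 1), ((H.coeff i * (G.coeff i / n.choose i / (1 - i)) : ℝ) : ℂ) * z ^ i

section ring
variable {R : Type*} [CommRing R]

noncomputable def Hs {ι : Type*} [Fintype ι] (ρ : ι → R) (lam : R) : R[X] :=
  (1 - C (∑ j, ρ j) * X - C lam * X ^ 2) * ∏ j, (1 + C (ρ j) * X)

noncomputable def Gx {κ : Type*} [Fintype κ] (x : κ → R) : R[X] := ∏ k, (1 - C (x k) * X)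

lemma Hs_map {S : Type*} [CommRing S] (φ : R →+* S) {ι : Type*} [Fintype ι] (ρ : ι → R) (lam : R) :
    (Hs ρ lam).map φ = Hs (fun j => φ (ρ j)) (φ lam) := by
  simp [Hs, Polynomial.map_prod, Polynomial.map_sum, map_sum]

lemma Gx_map {S : Type*} [CommRing S] (φ : R →+* S) {κ : Type*} [Fintype κ] (x : κ → R) :
    (Gx x).map φ = Gx (fun j => φ (x j)) := by
  simp [Gx, Polynomial.map_prod]

lemma Gx_deg {κ : Type*} [Fintype κ] (x : κ → R) : (Gx x).natDegree ≤ Fintype.card κ := by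
  nontriviality R
  unfold Gx
  refine (natDegree_prod_le _ _).trans ?_
  rw [← Finset.card_univ, Finset.card_eq_sum_ones]
  refine Finset.sum_le_sum fun k _ => ?_
  compute_degree

lemma Gx_zero {κ : Type*} [Fintype κ] (x : κ → R) : (Gx x).coeff 0 = 1 := by
  rw [coeff_zero_eq_eval_zero, Gx, eval_prod]; simp

lemma Gx_one {κ : Type*} [Fintype κ] (x : κ → R) : (Gx x).coeff 1 = - ∑ k, x k := by
  classical
  have : ∀ A : Finset κ, (∏ k ∈ A, (1 - C (x k) * X)).coeff 1 = - ∑ k ∈ A, x k := by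
    intro A
    induction A using Finset.induction_on with
    | empty => simp [coeff_one]
    | insert k A hk ih =>
      rw [prod_insert hk, sum_insert hk, sub_mul, one_mul, coeff_sub, ih, mul_assoc, coeff_C_mul,
        coeff_X_mul, coeff_zero_eq_eval_zero, eval_prod]
      simp; ring
  exact this univ

noncomputable def DR [Algebra ℝ R] (n : ℕ) {κ ι : Type*} [Fintype κ] [Fintype ι] (x : κ → R)
    (ρ : ι → R) : R[X] :=
  X * PP (fun i => algebraMap ℝ R (1 / (n.choose (i + 2) : ℝ) / (1 - ((i + 2 : ℕ) : ℝ))) *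
    (Gx x).coeff (i + 2)) univ ρ

end ring

noncomputable def sG (n : ℕ) (G : ℝ[X]) (i : ℕ) : ℝ := G.coeff i / n.choose i

lemma DR_eq (n : ℕ) {κ ι : Type*} [Fintype κ] [Fintype ι] (x : κ → ℝ) (ρ : ι → ℝ) :
    DR n x ρ = DD (sG n (Gx x)) univ ρ := by
  unfold DR DD
  congr 2
  ext i
  simp only [tt, sG, Algebra.algebraMap_self, RingHom.id_apply]
  ring

lemma DR_map (n : ℕ) {κ ι : Type*} [Fintype κ] [Fintype ι] (x : κ → ℝ[X]) (ρ : ι → ℝ[X]) (e : ℝ) :
    (DR n x ρ).map (evalRingHom e) = DR n (fun k => (x k).eval e) (fun j => (ρ j).eval e) := by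
  unfold DR
  rw [Polynomial.map_mul, map_X, PP_map]
  congr 2
  ext i
  have := Gx_map (evalRingHom e) x
  simp only [coe_evalRingHom] at this
  rw [← this, coeff_map]
  simp

lemma B_sG (n : ℕ) (G : ℝ[X]) (hG : G.natDegree ≤ n) : B n (sG n G) = G := by
  ext i
  rw [B_coeff, sG]
  by_cases h : i ≤ n
  · have : (n.choose i : ℝ) ≠ 0 := by exact_mod_cast (Nat.choose_pos h).ne'
    field_simp
  · rw [coeff_eq_zero_of_natDegree_lt (by omega)]; simp

lemma B_map (n : ℕ) (s : ℕ → ℝ) :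
    (B n s).map Complex.ofRealHom = B n fun i => (s i : ℂ) := by
  ext i; simp [B_coeff]

lemma QQ_eval {ι : Type*} [Fintype ι] [DecidableEq ι] (G : ℝ[X]) (ρ : ι → ℝ) (lam : ℝ) (z : ℂ) :
    ((QQ (sG (Fintype.card ι + 2) G) univ ρ lam).map Complex.ofRealHom).eval z =
      Qf (Fintype.card ι + 2) G (Hs ρ lam) z := by
  set s := sG (Fintype.card ι + 2) G with hs
  have hc : ∀ i, (QQ s univ ρ lam).coeff i = (Hs ρ lam).coeff i * tt s i := by
    intro i
    have e : Hs ρ lam = PP (fun _ => 1) univ ρ - C (∑ j, ρ j) * (X * PP (fun _ => 1) univ ρ) -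
        C lam * (X * (X * PP (fun _ => 1) univ ρ)) := by
      rw [Hs, PP_one]; ring
    rw [e]
    simp only [QQ, FF, DD, coeff_sub, coeff_C_mul]
    rcases i with _ | _ | i
    · simp only [mul_coeff_zero, coeff_X_zero, zero_mul, mul_zero, sub_zero]
      rw [PP_coeff]; ring
    · simp only [coeff_X_mul, mul_coeff_zero, coeff_X_zero, zero_mul, mul_zero, sub_zero]
      rw [PP_coeff, PP_coeff (fun i => tt s (i + 1))]; ring
    · simp only [coeff_X_mul]
      rw [PP_coeff, PP_coeff (fun i => tt s (i + 1)), PP_coeff (fun i => tt s (i + 2))]; ring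
  have hd : (QQ s univ ρ lam).natDegree ≤ Fintype.card ι + 2 := by
    rw [natDegree_le_iff_coeff_eq_zero]
    intro i hi
    rw [hc, tt, hs, sG, Nat.choose_eq_zero_of_lt hi]; simp
  rw [eval_eq_sum_range' (n := Fintype.card ι + 2 + 1) (natDegree_map_le.trans_lt (by omega))]
  refine Finset.sum_congr rfl fun i _ => ?_
  rw [coeff_map, hc]
  simp [tt, hs, sG]

lemma Qf_lim {α : Type*} {l : Filter α} (n : ℕ) (G H : α → ℝ[X]) (G0 H0 : ℝ[X])
    (hG : ∀ i, Tendsto (fun e => (G e).coeff i) l (𝓝 (G0.coeff i)))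
    (hH : ∀ i, Tendsto (fun e => (H e).coeff i) l (𝓝 (H0.coeff i))) (z : ℂ) :
    Tendsto (fun e => Qf n (G e) (H e) z) l (𝓝 (Qf n G0 H0 z)) := by
  unfold Qf
  refine tendsto_finset_sum _ fun i _ => Tendsto.mul_const _ ?_
  exact (Complex.continuous_ofReal.tendsto _).comp
    ((hH i).mul (((hG i).div_const _).div_const _))

lemma coeff_lim (P : ℝ[X][X]) (i : ℕ) (l : Filter ℝ) (hl : l ≤ 𝓝 0) :
    Tendsto (fun e => (P.map (evalRingHom e)).coeff i) l (𝓝 ((P.map (evalRingHom 0)).coeff i)) := by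
  simp only [coeff_map, coe_evalRingHom]
  exact ((P.coeff i).continuous.tendsto 0).mono_left hl

lemma Qf_smul (n : ℕ) (c : ℝ) (G H : ℝ[X]) (z : ℂ) : Qf n (C c * G) H z = c * Qf n G H z := by
  unfold Qf
  rw [Finset.mul_sum]
  refine Finset.sum_congr rfl fun i _ => ?_
  rw [coeff_C_mul]; push_cast; ring

lemma base {κ ι : Type*} [Fintype κ] [Fintype ι] (hc : Fintype.card κ = Fintype.card ι + 2) :
    ∃ x0 : κ → ℝ, ∑ k, x0 k = 0 ∧ (DR (Fintype.card ι + 2) x0 fun _ : ι => (1:ℝ)).Separable ∧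
      (DR (Fintype.card ι + 2) x0 fun _ : ι => (1:ℝ)).natDegree = Fintype.card ι + 1 := by
  classical
  set N := Fintype.card ι with hN
  obtain ⟨E⟩ : Nonempty (κ ≃ Option (Fin (N + 1))) := ⟨Fintype.equivOfCardEq (by simp [hc])⟩
  let y : Option (Fin (N + 1)) → ℝ := fun o => o.elim (- ∑ j : Fin (N + 1), ((j:ℝ) + 1))
    fun j => (j:ℝ) + 1
  have hpos : 0 < ∑ j : Fin (N + 1), ((j:ℝ) + 1) :=
    Finset.sum_pos (fun j _ => by positivity) univ_nonempty
  have hy0 : ∀ o, y o ≠ 0 := by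
    rintro (_ | j)
    · simp only [y, Option.elim]; linarith
    · simp only [y, Option.elim]; positivity
  have hyi : Function.Injective y := by
    rintro (_ | j) (_ | k) h
    · rfl
    · simp only [y, Option.elim] at h
      have : (0:ℝ) < (k:ℝ) + 1 := by positivity
      linarith
    · simp only [y, Option.elim] at h
      have : (0:ℝ) < (j:ℝ) + 1 := by positivity
      linarith
    · simp only [y, Option.elim, add_left_inj, Nat.cast_inj] at h
      rw [Fin.ext h]
  have hsum : ∑ k, y (E k) = 0 := by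
    rw [E.sum_comp y, Fintype.sum_option]; simp [y]
  refine ⟨fun k => y (E k), hsum, ?_⟩
  set G := Gx fun k => y (E k) with hG
  have hGd : G.natDegree ≤ N + 2 := hc ▸ Gx_deg _
  have hs1 : sG (N + 2) G 1 = 0 := by rw [sG, hG, Gx_one, hsum]; simp
  have e : derivative G = C (-(((N:ℝ) + 2) * ((N:ℝ) + 1))) * DD (sG (N + 2) G) univ fun _ : ι => 1 := by
    rw [DD, PP_const, card_univ, ← hN]
    conv_lhs => rw [← B_sG (N + 2) G hGd]
    ext i
    rw [coeff_derivative, B_coeff, coeff_C_mul]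
    rcases i with _ | i
    · simp [hs1]
    · rw [coeff_X_mul, B_coeff]
      have a1 : ((N + 1 : ℕ) : ℝ) * (N.choose i : ℝ) =
          ((N + 1).choose (i + 1) : ℝ) * ((i + 1 : ℕ) : ℝ) := by
        exact_mod_cast congrArg (Nat.cast : ℕ → ℝ) (Nat.add_one_mul_choose_eq N i)
      have a2 : ((N + 1 + 1 : ℕ) : ℝ) * ((N + 1).choose (i + 1) : ℝ) =
          ((N + 2).choose (i + 1 + 1) : ℝ) * ((i + 1 + 1 : ℕ) : ℝ) := by
        exact_mod_cast congrArg (Nat.cast : ℕ → ℝ) (Nat.add_one_mul_choose_eq (N + 1) (i + 1))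
      have a3 := tt_mul _ hs1 (i + 2)
      push_cast at a1 a2 a3 ⊢
      set t := tt (sG (N + 2) G) (i + 2)
      set s := sG (N + 2) G (i + 1 + 1)
      linear_combination (-s) * a2 + ((N:ℝ) + 2) * t * a1 -
        ((N:ℝ) + 2) * ((N + 1).choose (i + 1) : ℝ) * a3
  have hG0 : G ≠ 0 := fun h => by
    have := Gx_zero fun k => y (E k)
    rw [← hG, h] at this; simp at this
  have h1 : N + 2 ≤ G.roots.toFinset.card := by
    have : (univ.image fun k => (y (E k))⁻¹) ⊆ G.roots.toFinset := by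
      intro a ha
      obtain ⟨k, -, rfl⟩ := mem_image.1 ha
      refine Multiset.mem_toFinset.2 (mem_roots'.2 ⟨hG0, ?_⟩)
      rw [IsRoot, hG, Gx, eval_prod]
      exact Finset.prod_eq_zero (mem_univ k) (by simp [hy0])
    have h2 := card_le_card this
    rwa [card_image_of_injective _ (fun k k' h => E.injective (hyi (inv_injective h))),
      card_univ, hc] at h2
  have h2 := G.card_roots_toFinset_le_derivative
  have h3 := Multiset.toFinset_card_le G.derivative.roots
  have h4 := card_roots' G.derivative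
  have h5 := natDegree_derivative_le G
  have hd0 : G.derivative ≠ 0 := fun h => by rw [h] at h2; simp at h2; omega
  have hsep : G.derivative.Separable :=
    (nodup_roots_iff_of_splits hd0 (splits_iff_card_roots.2 (by omega))).1
      (Multiset.toFinset_card_eq_card_iff_nodup.1 (by omega))
  have hne : (-(((N:ℝ) + 2) * ((N:ℝ) + 1))) ≠ 0 := by
    rw [neg_ne_zero]; positivity
  rw [DR_eq, ← hG]
  refine ⟨(e ▸ hsep).of_mul_right, ?_⟩
  rw [← natDegree_C_mul hne, ← e]
  omega

lemma main1 {κ ι : Type*} [Fintype κ] [Fintype ι] (hc : Fintype.card κ = Fintype.card ι + 2)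
    (x : κ → ℝ) (hx : ∑ k, x k = 0) (ρ : ι → ℝ) (hρ : ∀ j, 0 ≤ ρ j) (lam : ℝ) (hl : 0 ≤ lam) :
    Mono (Qf (Fintype.card ι + 2) (Gx x) (Hs ρ lam)) := by
  classical
  obtain ⟨x0, h0, hsep, hdeg⟩ := base hc
  set N := Fintype.card ι with hN
  set xx : κ → ℝ[X] := fun k => C (x k) + C (x0 k - x k) * X with hxx
  set rr : ι → ℝ[X] := fun j => C (ρ j) + C (1 - ρ j) * X with hrr
  set 𝒟 := DR (N + 2) xx rr with h𝒟
  have hle : ∀ e, (𝒟.map (evalRingHom e)).natDegree ≤ N + 1 := by
    intro e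
    rw [h𝒟, DR_map, DR]
    refine natDegree_mul_le.trans ?_
    have := natDegree_X_le (R := ℝ)
    refine (add_le_add this (PP_deg _ _ _)).trans ?_
    rw [card_univ]; omega
  have h1 : 𝒟.map (evalRingHom 1) = DR (N + 2) x0 fun _ : ι => (1:ℝ) := by
    rw [h𝒟, DR_map]; simp [hxx, hrr]
  have hdd : ∀ p : ℝ[X], p.natDegree = N + 1 → p.derivative.natDegree = N := by
    intro p hp
    rw [natDegree_derivative, hp]; rfl
  have hres : ∀ e, (resultant 𝒟 𝒟.derivative (N + 1) N).eval e =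
      resultant (𝒟.map (evalRingHom e)) (𝒟.map (evalRingHom e)).derivative (N + 1) N := by
    intro e
    rw [derivative_map, resultant_map_map]; rfl
  have hne : resultant 𝒟 𝒟.derivative (N + 1) N * 𝒟.coeff (N + 1) ≠ 0 := by
    intro h
    have := congrArg (eval 1) h
    rw [eval_mul, hres, h1, eval_zero] at this
    rcases mul_eq_zero.1 this with a | a
    · have b := resultant_ne_zero _ _ hsep
      rw [hdd _ hdeg, hdeg] at b
      exact b a
    · have b : (𝒟.map (evalRingHom 1)).coeff (N + 1) = 0 := by rw [coeff_map]; exact a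
      rw [h1, ← hdeg, coeff_natDegree, leadingCoeff_eq_zero] at b
      exact hsep.ne_zero b
  have hev : ∀ᶠ e in 𝓝[>] (0:ℝ),
      ¬ (resultant 𝒟 𝒟.derivative (N + 1) N * 𝒟.coeff (N + 1)).IsRoot e :=
    ((nhdsGT_le_nhdsNE (0:ℝ)).trans (nhdsNE_le_cofinite 0))
      (finite_setOfPred_isRoot hne).compl_mem_cofinite
  have hG0 : (Gx xx).map (evalRingHom 0) = Gx x := by rw [Gx_map]; simp [hxx]
  have hH0 : (Hs rr (C lam)).map (evalRingHom 0) = Hs ρ lam := by rw [Hs_map]; simp [hrr]
  refine mono_lim (l := 𝓝[>] (0:ℝ)) (fun e => Qf (N + 2) ((Gx xx).map (evalRingHom e))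
    ((Hs rr (C lam)).map (evalRingHom e))) _ ?_ fun z => ?_
  · filter_upwards [hev, Ioo_mem_nhdsGT (zero_lt_one' ℝ)] with e he he'
    rw [IsRoot, eval_mul, mul_eq_zero, not_or, hres] at he
    have d1 : (𝒟.map (evalRingHom e)).natDegree = N + 1 :=
      le_antisymm (hle e) (le_natDegree_of_ne_zero (by rw [coeff_map]; exact he.2))
    have d2 : (𝒟.map (evalRingHom e)).Separable := by
      by_contra hns
      apply he.1
      have := resultant_eq_zero_iff.2 ⟨Or.inl (ne_zero_of_natDegree_gt (n := 0) (by omega)), hns⟩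
      rwa [hdd _ d1, d1] at this
    rw [h𝒟, DR_map, DR_eq] at d1 d2
    rw [Gx_map, Hs_map]
    simp only [coe_evalRingHom, eval_C]
    set xe := fun k => (xx k).eval e with hxe
    have hxs : ∑ k, xe k = 0 := by
      simp only [hxe, hxx, eval_add, eval_C, eval_mul, eval_X, sum_add_distrib, ← Finset.sum_mul,
        sum_sub_distrib, hx, h0]; ring
    have hW : W (2 + (univ : Finset ι).card) fun i => (sG (N + 2) (Gx xe) i : ℂ) := by
      rw [card_univ, ← hN, add_comm]
      apply mono_of_nz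
      rw [← B_map, B_sG _ _ (hc ▸ Gx_deg _), Gx_map]
      intro z hz
      rw [Gx, eval_prod, prod_ne_zero_iff]
      intro k _ h
      simp only [Complex.ofRealHom_eq_coe, eval_sub, eval_one, eval_mul, eval_C, eval_X] at h
      have a1 := congrArg Complex.im h
      have a2 := congrArg Complex.re h
      simp at a1 a2
      rcases a1 with a1 | a1
      · rw [a1] at a2; simp at a2
      · exact hz.ne' a1
    have := gen (sG (N + 2) (Gx xe)) (by simp [sG, Gx_zero]) (by simp [sG, Gx_one, hxs]) univ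
      (fun j => (rr j).eval e) (fun j _ => by
        simp only [hrr, eval_add, eval_C, eval_mul, eval_X]
        nlinarith [hρ j, he'.1, he'.2, mul_nonneg (hρ j) (sub_pos.2 he'.2).le]) hW lam hl d2
      (by rw [d1, card_univ])
    convert mono_of_nz _ this using 2 with z
    exact (QQ_eval _ _ _ _).symm
  · apply Qf_lim
    · intro i; rw [← hG0]; exact coeff_lim _ i _ nhdsWithin_le_nhds
    · intro i; rw [← hH0]; exact coeff_lim _ i _ nhdsWithin_le_nhds

lemma main2 {κ ι : Type*} [Fintype κ] [Fintype ι] (k : ℕ)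
    (hc : Fintype.card κ + k = Fintype.card ι + 2) (c : ℝ)
    (x : κ → ℝ) (hx : (C c * X ^ k * Gx x).coeff 1 = 0) (ρ : ι → ℝ) (hρ : ∀ j, 0 ≤ ρ j) (lam : ℝ)
    (hl : 0 ≤ lam) : Mono (Qf (Fintype.card ι + 2) (C c * X ^ k * Gx x) (Hs ρ lam)) := by
  by_cases hc0 : c = 0
  · intro z w _ _ _
    rw [mul_assoc, Qf_smul, Qf_smul, hc0]; simp
  have sm : ∀ (c : ℝ) (G : ℝ[X]), Mono (Qf (Fintype.card ι + 2) G (Hs ρ lam)) →
      Mono (Qf (Fintype.card ι + 2) (C c * G) (Hs ρ lam)) := by
    intro c G h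
    convert h.smul c using 2 with z
    exact Qf_smul _ _ _ _ _
  rcases k with _ | _ | a
  · simp only [pow_zero, mul_one, coeff_C_mul, Gx_one, mul_eq_zero, hc0, false_or,
      neg_eq_zero] at hx ⊢
    exact sm _ _ (main1 hc x hx ρ hρ lam hl)
  · rw [mul_assoc, coeff_C_mul, zero_add, pow_one, coeff_X_mul, Gx_zero, mul_one] at hx
    exact absurd hx hc0
  · set σ := ∑ k, x k with hσ
    set 𝒢 : ℝ[X][X] := C (C (c / (a + 1))) * (Gx (fun k => C (x k)) * (X - C X) ^ (a + 1) *
      (C (C ((a:ℝ) + 1) + C σ * X) * X + C X)) with h𝒢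
    have hmap : ∀ e, 𝒢.map (evalRingHom e) = C (c / (a + 1)) * (Gx x * (X - C e) ^ (a + 1) *
        (C (((a:ℝ) + 1) + σ * e) * X + C e)) := by
      intro e
      simp [h𝒢, Gx_map]
    have ha : ((a:ℝ) + 1) ≠ 0 := by positivity
    have h0 : 𝒢.map (evalRingHom 0) = C c * X ^ (a + 1 + 1) * Gx x := by
      rw [hmap]
      have : C c = C (c / (a + 1)) * C ((a:ℝ) + 1) := by rw [← C_mul]; congr 1; field_simp
      rw [this]
      simp only [map_zero, sub_zero, mul_zero, add_zero]
      ring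
    refine mono_lim (l := 𝓝[>] (0:ℝ)) (fun e => Qf (Fintype.card ι + 2) (𝒢.map (evalRingHom e)) (Hs ρ lam)) _ ?_
      fun z => ?_
    · filter_upwards [self_mem_nhdsWithin] with e he
      have he' : e ≠ 0 := ne_of_gt he
      rw [hmap]
      apply sm
      let x' : Option (κ ⊕ Fin (a + 1)) → ℝ := fun o => o.elim (-(((a:ℝ) + 1) / e + σ))
        (Sum.elim x fun _ => e⁻¹)
      have e1 : Gx x * (X - C e) ^ (a + 1) * (C (((a:ℝ) + 1) + σ * e) * X + C e) =
          C ((-e) ^ (a + 1) * e) * Gx x' := by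
        have b1 : X - C e = C (-e) * (1 - C e⁻¹ * X) := by
          rw [mul_sub, ← mul_assoc, ← C_mul, neg_mul, mul_inv_cancel₀ he']; simp; ring
        have b2 : C (((a:ℝ) + 1) + σ * e) * X + C e =
            C e * (1 - C (-(((a:ℝ) + 1) / e + σ)) * X) := by
          rw [mul_sub, ← mul_assoc, ← C_mul, show e * (-(((a:ℝ) + 1) / e + σ)) =
            -(((a:ℝ) + 1) + σ * e) by field_simp, map_neg]; ring
        rw [b1, b2]
        simp only [Gx, Fintype.prod_option, Fintype.prod_sum_type, x', Option.elim, Sum.elim_inl,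
          Sum.elim_inr, prod_const, card_univ, Fintype.card_fin, mul_pow, C_mul, C_pow]
        ring
      rw [e1]
      apply sm
      apply main1 _ x' _ ρ hρ lam hl
      · simp only [Fintype.card_option, Fintype.card_sum, Fintype.card_fin]; omega
      · simp only [Fintype.sum_option, Fintype.sum_sum_type, x', Option.elim, Sum.elim_inl,
          Sum.elim_inr, sum_const, card_univ, Fintype.card_fin, nsmul_eq_mul, ← hσ]
        push_cast
        field_simp; ring
    · apply Qf_lim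
      · intro i; rw [← h0]; exact coeff_lim _ i _ nhdsWithin_le_nhds
      · intro i; exact tendsto_const_nhds

end Pool.Agent.H8.Zs
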