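import Pool.Agent.H8.Zs3

namespace Pool.Agent.H8.Zs

open Polynomial Finset Filter Topology

lemma exists_fun (M : Multiset ℝ) : ∃ x : Fin M.card → ℝ, M = (univ : Finset _).val.map x := by
  induction M using Quotient.inductionOn with
  | _ l =>
    refine ⟨l.get, ?_⟩
    exact (congrArg (fun l : List ℝ => (l : Multiset ℝ)) (List.ofFn_get l)).symm.trans
      (Fin.univ_val_map l.get).symm

lemma refl_prod (M : Multiset ℝ) : reflect M.card (M.map fun y => X - C y).prod =
    (M.map fun y => 1 - C y * X).prod := by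
  induction M using Multiset.induction_on with
  | empty => simp
  | cons a M ih =>
    rw [Multiset.map_cons, Multiset.map_cons, Multiset.prod_cons, Multiset.prod_cons,
      Multiset.card_cons, add_comm, reflect_mul _ _ (natDegree_X_sub_C_le a)
      (by rw [natDegree_multiset_prod_X_sub_C_eq_card]), ih, reflect_sub, reflect_one_X, reflect_C,
      pow_one]

lemma refl_split (g : ℝ[X]) (hg : g.Splits) (n : ℕ) (hn : g.natDegree ≤ n) :
    reflect n g = C g.leadingCoeff * X ^ (n - g.roots.card) *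
      (g.roots.map fun y => 1 - C y * X).prod := by
  have hc := hg.natDegree_eq_card_roots
  conv_lhs => rw [hg.eq_prod_roots]
  rw [reflect_C_mul, ← mul_one (Multiset.prod _), show n = g.roots.card + (n - g.roots.card) by omega,
    reflect_mul _ _ (by rw [natDegree_multiset_prod_X_sub_C_eq_card]) (by simp), refl_prod,
    reflect_one, Nat.add_sub_cancel_left]
  ring

noncomputable def Pm (M : Multiset ℝ) : ℝ[X] := (M.map fun y => 1 + C y * X).prod

lemma Pm_cons (a : ℝ) (M : Multiset ℝ) : Pm (a ::ₘ M) = (1 + C a * X) * Pm M := by simp [Pm]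

lemma Pm_zero (M : Multiset ℝ) : (Pm M).coeff 0 = 1 := by
  induction M using Multiset.induction_on with
  | empty => simp [Pm]
  | cons a M ih => rw [Pm_cons, mul_coeff_zero, ih]; simp

lemma Pm_one (M : Multiset ℝ) : (Pm M).coeff 1 = M.sum := by
  induction M using Multiset.induction_on with
  | empty => simp [Pm, coeff_one]
  | cons a M ih =>
    rw [Pm_cons, add_mul, one_mul, coeff_add, ih, mul_assoc, coeff_C_mul, coeff_X_mul, Pm_zero]
    simp [add_comm]

lemma Pm_filter (M : Multiset ℝ) : Pm (M.filter (· ≠ 0)) = Pm M := by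
  induction M using Multiset.induction_on with
  | empty => simp
  | cons a M ih =>
    by_cases h : a = 0
    · rw [Multiset.filter_cons_of_neg _ (by simpa using h), Pm_cons, ih, h]; simp
    · rw [Multiset.filter_cons_of_pos (p := (· ≠ 0)) _ h, Pm_cons, Pm_cons, ih]

lemma Pm_deg (M : Multiset ℝ) (h : ∀ y ∈ M, y ≠ 0) : (Pm M).natDegree = M.card := by
  induction M using Multiset.induction_on with
  | empty => simp [Pm]
  | cons a M ih =>
    have h1 : (1 + C a * X : ℝ[X]).natDegree = 1 := by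
      have := h a (Multiset.mem_cons_self _ _)
      compute_degree!
    have h2 : Pm M ≠ 0 := fun e => by have := Pm_zero M; rw [e] at this; simp at this
    rw [Pm_cons, natDegree_mul (ne_zero_of_natDegree_gt (n := 0) (by omega)) h2, h1,
      ih fun y hy => h y (Multiset.mem_cons_of_mem hy), Multiset.card_cons, add_comm]

lemma Pm_pad (M : Multiset ℝ) (k : ℕ) : Pm (M + Multiset.replicate k 0) = Pm M := by
  simp [Pm]

lemma shape (N : ℕ) (y0 : ℝ) (S : Multiset ℝ) (hS : ∀ y ∈ S, 0 ≤ y)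
    (h1 : (Pm (y0 ::ₘ S)).coeff 1 = 0) (hd : (Pm (y0 ::ₘ S)).natDegree ≤ N + 2) :
    ∃ (ρ : Fin N → ℝ) (lam : ℝ), (∀ j, 0 ≤ ρ j) ∧ 0 ≤ lam ∧ Pm (y0 ::ₘ S) = Hs ρ lam := by
  suffices h : ∃ (M : Multiset ℝ) (lam : ℝ), M.card = N ∧ (∀ y ∈ M, 0 ≤ y) ∧ 0 ≤ lam ∧
      Pm (y0 ::ₘ S) = (1 - C M.sum * X - C lam * X ^ 2) * Pm M by
    obtain ⟨M, lam, rfl, a1, a2, a3⟩ := h
    obtain ⟨x, hx⟩ := exists_fun M
    refine ⟨x, lam, fun j => a1 _ (by rw [hx]; simp), a2, ?_⟩
    rw [a3, Hs]
    congr 1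
    · congr 4
      conv_lhs => rw [hx]
      rfl
    · rw [Pm]
      conv_lhs => rw [hx, Multiset.map_map]
      rfl
  have e : Pm (y0 ::ₘ S) = Pm (y0 ::ₘ S.filter (· ≠ 0)) := by rw [Pm_cons, Pm_cons, Pm_filter]
  rw [e] at h1 hd ⊢
  have hS' : ∀ y ∈ S.filter (· ≠ 0), 0 < y := fun y hy =>
    lt_of_le_of_ne (hS y (Multiset.mem_filter.1 hy).1) (Multiset.mem_filter.1 hy).2.symm
  generalize S.filter (· ≠ 0) = T at h1 hd hS'
  rw [Pm_one, Multiset.sum_cons] at h1
  rcases T.empty_or_exists_mem with rfl | ⟨r, hr⟩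
  · have : y0 = 0 := by simpa using h1
    exact ⟨Multiset.replicate N 0, 0, by simp, fun y hy => by
      rw [Multiset.eq_of_mem_replicate hy], le_rfl, by simp [this, Pm]⟩
  · obtain ⟨U, rfl⟩ := Multiset.exists_cons_of_mem hr
    have hr0 := hS' r hr
    have hU : ∀ y ∈ U, 0 ≤ y := fun y hy => (hS' y (Multiset.mem_cons_of_mem hy)).le
    have hU0 := Multiset.sum_nonneg hU
    rw [Multiset.sum_cons] at h1
    rw [Pm_deg _ (by
      intro y hy
      rcases Multiset.mem_cons.1 hy with rfl | hy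
      · linarith
      · exact (hS' y hy).ne')] at hd
    simp only [Multiset.card_cons] at hd
    refine ⟨U + Multiset.replicate (N - U.card) 0, (r + U.sum) * r, by simp; omega, ?_,
      by positivity, ?_⟩
    · intro y hy
      rcases Multiset.mem_add.1 hy with h | h
      · exact hU y h
      · rw [Multiset.eq_of_mem_replicate h]
    · rw [Pm_pad, Pm_cons, Pm_cons, show y0 = -(r + U.sum) by linarith]
      simp only [Multiset.sum_add, Multiset.sum_replicate, smul_zero, add_zero, map_neg, map_add,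
        map_mul]
      ring

lemma g0_coeff (m i : ℕ) (hi : i ≤ m + 1) :
    ((X - C 1) ^ m * (X + C (m:ℝ)) : ℝ[X]).coeff (m + 1 - i) =
      (-1) ^ i * ((m + 1).choose i : ℝ) * (1 - i) := by
  rw [sub_eq_add_neg X, ← map_neg, mul_add, coeff_add, coeff_mul_C, coeff_X_add_C_pow]
  rcases i with _ | i
  · rw [Nat.sub_zero, coeff_mul_X, coeff_X_add_C_pow]; simp
  · rw [show m + 1 - (i + 1) = m - i by omega, show m - (m - i) = i by omega,
      Nat.choose_symm (by omega : i ≤ m)]
    rcases (show i ≤ m by omega).eq_or_lt with rfl | h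
    · simp; ring
    · rw [show m - i = m - (i + 1) + 1 by omega, coeff_mul_X, coeff_X_add_C_pow,
        show m - (m - (i + 1)) = i + 1 by omega, Nat.choose_symm (by omega : i + 1 ≤ m),
        Nat.choose_succ_succ']
      have := congrArg (Nat.cast : ℕ → ℝ) (Nat.choose_succ_right_eq m i)
      push_cast [Nat.cast_sub h.le] at this ⊢
      linear_combination (-(-1)^i) * this

/-- no nonreal zero of `Qf` unless it vanishes identically -/
lemma Qf_real (n : ℕ) (G H : ℝ[X]) (h : Mono (Qf n G H)) (z : ℂ) (hz : z.im ≠ 0)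
    (h0 : Qf n G H z = 0) (w : ℂ) : Qf n G H w = 0 := by
  set p : ℝ[X] := ∑ i ∈ range (n + 1),
    monomial i (H.coeff i * (G.coeff i / n.choose i / (1 - i))) with hp
  have e : ∀ z, Qf n G H z = (p.map Complex.ofRealHom).eval z := by
    intro z
    simp only [hp, Qf, Polynomial.map_sum, map_monomial, eval_finset_sum, eval_monomial,
      Complex.ofRealHom_eq_coe]
  have h' : Mono fun z => (p.map Complex.ofRealHom).eval z := by
    convert h using 2 with z; exact (e z).symm
  rcases nz_of_mono _ h' with a | a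
  · rw [e, a, eval_zero]
  · exfalso
    rw [e] at h0
    rcases lt_or_gt_of_ne hz with b | b
    · apply a (starRingEnd ℂ z) (by simpa using b)
      have := aeval_conj p z
      simp only [aeval_def, ← eval_map] at this
      change (p.map Complex.ofRealHom).eval _ =
        starRingEnd ℂ ((p.map Complex.ofRealHom).eval z) at this
      rw [this, h0, map_zero]
    · exact a z b h0

noncomputable def TT (n d : ℕ) (γ : ℕ → ℝ) (g : ℝ[X]) : ℝ[X] :=
  ∑ i ∈ range (n + 1), if i ≠ 1 ∧ i ≤ d then monomial (d - i) (γ i * g.coeff (n - i)) else 0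

lemma TT_refl (n d : ℕ) (γ : ℕ → ℝ) (g : ℝ[X]) (i : ℕ) : (reflect d (TT n d γ g)).coeff i =
    if i ≠ 1 ∧ i ≤ d ∧ i ≤ n then γ i * g.coeff (n - i) else 0 := by
  rw [coeff_reflect, TT, finset_sum_coeff]
  by_cases hi : i ≤ d ∧ i ≤ n
  · rw [revAt_le hi.1, Finset.sum_eq_single_of_mem i (by simp; omega)]
    · simp only [hi.1, hi.2, and_true]; split_ifs <;> simp
    · intro j _ hj
      split_ifs with h
      · rw [coeff_monomial, if_neg (by omega)]
      · simp
  · rw [if_neg (by tauto)]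
    refine Finset.sum_eq_zero fun j hj => ?_
    have hj' := mem_range.1 hj
    split_ifs with h
    · by_cases h' : i ≤ d
      · rw [revAt_le h', coeff_monomial, if_neg (by omega)]
      · rw [revAt_eq_self_of_lt (by omega), coeff_monomial, if_neg (by omega)]
    · simp

lemma TT_deg (n d : ℕ) (γ : ℕ → ℝ) (g : ℝ[X]) : (TT n d γ g).natDegree ≤ d := by
  unfold TT
  refine natDegree_sum_le_of_forall_le _ _ fun i _ => ?_
  split_ifs
  · exact (natDegree_monomial_le _).trans (by omega)
  · simp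

lemma TT_eval (n d : ℕ) (γ : ℕ → ℝ) (g : ℝ[X]) (t : ℂ) (ht : t ≠ 0) :
    ((TT n d γ g).map Complex.ofRealHom).eval t = t ^ d * ∑ i ∈ range (n + 1),
      (((if i ≠ 1 ∧ i ≤ d then γ i else 0) * g.coeff (n - i) : ℝ) : ℂ) * t⁻¹ ^ i := by
  rw [TT, Polynomial.map_sum, eval_finset_sum, Finset.mul_sum]
  refine Finset.sum_congr rfl fun i _ => ?_
  split_ifs with h
  · rw [map_monomial, eval_monomial, pow_sub₀ _ ht h.2, inv_pow]
    simp only [Complex.ofRealHom_eq_coe]; ring
  · simp

theorem mainTT (n d : ℕ) (hn : 1 ≤ n) (hd : 2 ≤ d) (γ : ℕ → ℝ) (h : ℝ[X])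
    (hh : h = TT n d γ ((X - C 1) ^ (n - 1) * (X + C ((n:ℝ) - 1)))) (h1 : h.Splits)
    (h2 : ∃ s ≤ h.roots, s.card = d - 1 ∧ ((∀ y ∈ s, 0 ≤ y) ∨ ∀ y ∈ s, y ≤ 0))
    (g : ℝ[X]) (hg : g.natDegree ≤ n) (hg1 : g.coeff (n - 1) = 0) (hs : g.Splits) :
    (TT n d γ g).Splits := by
  rcases (show n = 1 ∨ ∃ N, n = N + 2 from by
    by_cases e : n = 1
    · exact Or.inl e
    · exact Or.inr ⟨n - 2, by omega⟩) with rfl | ⟨N, rfl⟩
  · simp only [TT, Finset.sum_range_succ, Finset.sum_range_zero]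
    simp
  obtain ⟨s, hsle, hsc, hsg⟩ := h2
  obtain ⟨σ, hσ, hσs⟩ : ∃ σ : ℝ, σ * σ = 1 ∧ ∀ y ∈ s, 0 ≤ σ * y := by
    rcases hsg with a | a
    · exact ⟨1, by simp, by simpa using a⟩
    · exact ⟨-1, by simp, by simpa using a⟩
  have hσ0 : σ ≠ 0 := fun e => by rw [e] at hσ; simp at hσ
  have hdeg : h.natDegree ≤ d := hh ▸ TT_deg _ _ _ _
  have hcard := Multiset.card_le_card hsle
  have hc2 := h1.natDegree_eq_card_roots
  have h0 : h ≠ 0 := fun e => by
    rw [e, roots_zero, Multiset.card_zero] at hcard; omega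
  have hl : h.leadingCoeff ≠ 0 := leadingCoeff_ne_zero.2 h0
  have hr : ∀ i, (reflect d h).coeff i = if i ≠ 1 ∧ i ≤ d ∧ i ≤ N + 2 then
      γ i * ((-1) ^ i * ((N + 2).choose i : ℝ) * (1 - i)) else 0 := by
    intro i
    rw [hh, TT_refl]
    split_ifs with a
    · have := g0_coeff (N + 1) i a.2.2
      rw [← this]
      congr 5
      push_cast; ring
    · rfl
  have hdd : h.roots.card = d := by
    by_contra hne
    have a := hr 1
    rw [if_neg (by simp), coeff_reflect, revAt_le (by omega), show d - 1 = h.natDegree by omega]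
      at a
    exact hl a
  obtain ⟨t, ht⟩ := Multiset.le_iff_exists_add.1 hsle
  obtain ⟨y0, rfl⟩ : ∃ y0, t = {y0} := Multiset.card_eq_one.1 (by
    rw [ht, Multiset.card_add] at hdd; omega)
  set H := Pm ((σ * y0) ::ₘ s.map (σ * ·)) with hH
  have hHc : ∀ i, h.leadingCoeff * H.coeff i = (reflect d h).coeff i * (-σ) ^ i := by
    intro i
    rw [← comp_C_mul_X_coeff, refl_split h h1 d hdeg, hdd, Nat.sub_self, pow_zero, mul_one,
      mul_comp, C_comp, coeff_C_mul, multiset_prod_comp, hH, Pm, ht, add_comm,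
      Multiset.singleton_add, ← Multiset.map_cons (σ * ·), Multiset.map_map, Multiset.map_map]
    congr 4
    ext1 y
    simp; ring
  obtain ⟨ρ, lam, hρ, hlam, hsh⟩ := shape N (σ * y0) (s.map (σ * ·)) (by simpa using hσs)
    (by
      have := hHc 1
      rw [hr, if_neg (by simp), zero_mul] at this
      exact (mul_eq_zero.1 this).resolve_left hl)
    (by
      rw [natDegree_le_iff_coeff_eq_zero]
      intro i hi
      have := hHc i
      rw [hr, if_neg (by omega), zero_mul] at this
      exact (mul_eq_zero.1 this).resolve_left hl)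
  rw [← hH] at hsh
  obtain ⟨x, hx⟩ := exists_fun g.roots
  have hG : reflect (N + 2) g = C g.leadingCoeff * X ^ (N + 2 - g.roots.card) * Gx x := by
    rw [refl_split g hs _ hg]
    congr 1
    conv_lhs => rw [hx, Multiset.map_map]
    rfl
  have hM := main2 (κ := Fin g.roots.card) (ι := Fin N) (N + 2 - g.roots.card)
    (by have := hs.natDegree_eq_card_roots; simp; omega) g.leadingCoeff x
    (by rw [← hG, coeff_reflect, revAt_le (by omega)]; exact hg1) ρ hρ lam hlam
  rw [← hG, ← hsh, Fintype.card_fin] at hM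
  have hev : ∀ t : ℂ, t ≠ 0 → ((TT (N + 2) d γ g).map Complex.ofRealHom).eval t =
      t ^ d * (h.leadingCoeff * Qf (N + 2) (reflect (N + 2) g) H (σ * t⁻¹)) := by
    intro t ht
    rw [TT_eval _ _ _ _ _ ht, Qf, Finset.mul_sum (a := (h.leadingCoeff : ℂ))]
    congr 1
    refine Finset.sum_congr rfl fun i hi => ?_
    have hi' : i ≤ N + 2 := by simpa [Nat.lt_succ_iff] using hi
    rw [mul_pow, ← Complex.ofReal_pow, ← mul_assoc, ← mul_assoc, ← Complex.ofReal_mul,
      ← Complex.ofReal_mul, ← mul_assoc, hHc, hr, coeff_reflect, revAt_le hi']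
    congr 2
    by_cases a : i ≠ 1 ∧ i ≤ d
    · rw [if_pos a, if_pos ⟨a.1, a.2, hi'⟩]
      have b1 : ((N + 2).choose i : ℝ) ≠ 0 := by exact_mod_cast (Nat.choose_pos hi').ne'
      have b2 : (1 - (i:ℝ)) ≠ 0 := fun e => a.1 (by exact_mod_cast (sub_eq_zero.1 e).symm)
      have b3 : (-1:ℝ) ^ i * (-σ) ^ i * σ ^ i = 1 := by
        rw [← mul_pow, ← mul_pow, show (-1) * (-σ) * σ = σ * σ by ring, hσ, one_pow]
      field_simp
      linear_combination (-(γ i * g.coeff (N + 2 - i))) * b3
    · rw [if_neg a, if_neg (by tauto)]; simp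
  refine Splits.of_splits_map Complex.ofRealHom (IsAlgClosed.splits _) fun a ha => ?_
  obtain ⟨ha0, ha1⟩ := mem_roots'.1 ha
  by_contra hna
  have him : a.im ≠ 0 := fun e => hna ⟨a.re, Complex.ext (by simp) (by simp [e])⟩
  have ha2 : a ≠ 0 := fun e => him (by simp [e])
  rw [IsRoot, hev a ha2] at ha1
  have hq : Qf (N + 2) (reflect (N + 2) g) H (σ * a⁻¹) = 0 := by
    simpa [ha2, hl] using ha1
  have hall := Qf_real _ _ _ hM _ (by
    rw [Complex.im_ofReal_mul, Complex.inv_im]
    have := Complex.normSq_pos.2 ha2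
    exact mul_ne_zero hσ0 (div_ne_zero (neg_ne_zero.2 him) this.ne')) hq
  apply ha0
  apply eq_zero_of_infinite_isRoot
  refine (Set.infinite_of_finite_compl (s := {t : ℂ | t ≠ 0}) (by simp)).mono fun t ht => ?_
  rw [Set.mem_setOf_eq, IsRoot, hev t ht, hall]; simp

end Pool.Agent.H8.Zs
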